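import Pool.Agent.Lib.MP_e97e2b_nt.Ln.A2b

/- Truncation of Dirichlet series in the half plane `0 < re s`, growth of `L`-functions at any
height and the local count of zeros (Jensen). -/

noncomputable section

namespace Pool.Agent.Lib.MP_778b46_nt.GX

open Complex Finset Filter Topology Pool.Agent.Lib.MP_e97e2b_nt.Ln

theorem z4_tail (a : ℕ → ℂ) {B : ℝ} (hB : ∀ M, ‖∑ n ∈ Ioc 0 M, a n‖ ≤ B) {s : ℂ} (hs : 0 < s.re)
    {N M : ℕ} (hN : 1 ≤ N) (hNM : N ≤ M) :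
    ‖∑ n ∈ Ioc 0 M, a n * (n : ℂ) ^ (-s) - ∑ n ∈ Ioc 0 N, a n * (n : ℂ) ^ (-s)‖ ≤
      B * (2 + ‖s‖ / s.re) * (N : ℝ) ^ (-s.re) := by
  have hB0 : 0 ≤ B := (norm_nonneg _).trans (hB 0)
  have hN0 : (0 : ℝ) < N := by exact_mod_cast hN
  rw [a2b_abel a (fun n => (n : ℂ) ^ (-s)) M, a2b_abel a (fun n => (n : ℂ) ^ (-s)) N,
    ← sum_Ioc_consecutive (fun n : ℕ => (∑ m ∈ Ioc 0 n, a m) *
      ((n : ℂ) ^ (-s) - ((n + 1 : ℕ) : ℂ) ^ (-s))) (Nat.zero_le N) hNM]
  have b1 : ∀ K, N ≤ K → ‖(∑ n ∈ Ioc 0 K, a n) * ((K + 1 : ℕ) : ℂ) ^ (-s)‖ ≤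
      B * (N : ℝ) ^ (-s.re) := by
    intro K hK
    rw [norm_mul, norm_natCast_cpow_of_pos (Nat.succ_pos K), neg_re]
    refine mul_le_mul (hB K) ?_ (by positivity) hB0
    exact Real.rpow_le_rpow_of_nonpos hN0 (by exact_mod_cast Nat.le_succ_of_le hK) (by linarith)
  have b2 : ‖∑ n ∈ Ioc N M, (∑ m ∈ Ioc 0 n, a m) *
      ((n : ℂ) ^ (-s) - ((n + 1 : ℕ) : ℂ) ^ (-s))‖ ≤ B * ‖s‖ * ((N : ℝ) ^ (-s.re) / s.re) := by
    refine (norm_sum_le_of_le _ (n := fun n : ℕ => B * ‖s‖ * (n : ℝ) ^ (-1 - s.re))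
      fun n hn => ?_).trans ?_
    · rw [norm_mul, mul_assoc, show -1 - s.re = -s.re - 1 by ring]
      exact mul_le_mul (hB n) (a2b_diff hs (by have := (mem_Ioc.1 hn).1; omega)) (norm_nonneg _) hB0
    · rw [← mul_sum]
      exact mul_le_mul_of_nonneg_left (a2b_tail hs hN M) (by positivity)
  have e : ∀ x y z w : ℂ, x + (y + z) - (w + y) = x - w + z := fun x y z w => by ring
  rw [e]
  refine (norm_add_le_of_le (norm_sub_le_of_le (b1 M hNM) (b1 N le_rfl)) b2).trans (le_of_eq ?_)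
  ring

theorem lfun_trunc {q : ℕ} [NeZero q] (ξ : DirichletCharacter ℂ q) (hξ : ξ ≠ 1) {B : ℝ}
    (hB : ∀ M : ℕ, ‖∑ n ∈ Ioc 0 M, ξ (n : ZMod q)‖ ≤ B) {s : ℂ} (hs : 0 < s.re) {N : ℕ} (hN : 1 ≤ N) :
    ‖ξ.LFunction s - ∑ n ∈ Ioc 0 N, ξ (n : ZMod q) * (n : ℂ) ^ (-s)‖ ≤
      B * (2 + ‖s‖ / s.re) * (N : ℝ) ^ (-s.re) :=
  le_of_tendsto ((lfun_tendsto ξ hξ hs).sub_const _).norm
    (eventually_atTop.2 ⟨N, fun _ hM => z4_tail (fun n => ξ (n : ZMod q)) hB hs hN hM⟩)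

theorem char_sum_le {q : ℕ} [NeZero q] (ξ : DirichletCharacter ℂ q) (hξ : ξ ≠ 1) (M : ℕ) :
    ‖∑ n ∈ Ioc 0 M, ξ (n : ZMod q)‖ ≤ q := by
  have h := a2a_bound ξ hξ M
  rwa [← Nat.Ico_zero_eq_range, Finset.sum_Ico_add' (fun n : ℕ => ξ (n : ZMod q)) 0 M 1,
    Finset.Ico_add_one_add_one_eq_Ioc] at h

/-- one step of the comparison of the zeta series with its integral -/
def zu (n : ℕ) (s : ℂ) : ℂ :=
  (s - 1) * ((n + 1 : ℕ) : ℂ) ^ (-s) + ((n + 1 : ℕ) : ℂ) ^ (1 - s) - (n : ℂ) ^ (1 - s)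

theorem zu_le {s : ℂ} (hs : 0 < s.re) {n : ℕ} (hn : 0 < n) :
    ‖zu n s‖ ≤ ‖s - 1‖ * ‖s‖ * (n : ℝ) ^ (-1 - s.re) := by
  rcases eq_or_ne s 1 with rfl | hs1
  · simp [zu]
  have hn' : (0 : ℝ) < n := Nat.cast_pos.2 hn
  have hs0 : -s ≠ 0 := neg_ne_zero.2 fun h => by simp [h] at hs
  have hs1' : 1 - s ≠ 0 := sub_ne_zero.2 hs1.symm
  have d1 : ∀ x ∈ Set.Icc (n : ℝ) (n + 1),
      ‖((n + 1 : ℕ) : ℂ) ^ (-s) - (x : ℂ) ^ (-s)‖ ≤ ‖s‖ * (n : ℝ) ^ (-1 - s.re) := by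
    intro x hx
    have h := (convex_Icc (n : ℝ) (n + 1)).norm_image_sub_le_of_norm_hasDerivWithin_le
      (f := fun y : ℝ => (y : ℂ) ^ (-s)) (f' := fun y : ℝ => -s * (y : ℂ) ^ (-s - 1))
      (C := ‖s‖ * (n : ℝ) ^ (-1 - s.re)) (x := x) (y := n + 1)
      (fun y hy => (hasDerivAt_ofReal_cpow_const (hn'.trans_le hy.1).ne' hs0).hasDerivWithinAt)
      (fun y hy => by
        rw [norm_mul, norm_neg, norm_cpow_eq_rpow_re_of_pos (hn'.trans_le hy.1)]
        refine mul_le_mul_of_nonneg_left ?_ (norm_nonneg _)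
        simp only [sub_re, neg_re, one_re]
        rw [show -1 - s.re = -s.re - 1 by ring]
        exact Real.rpow_le_rpow_of_nonpos hn' hy.1 (by linarith))
      hx ⟨by linarith, le_rfl⟩
    have h1 : ‖(n : ℝ) + 1 - x‖ ≤ 1 := by
      rw [Real.norm_eq_abs, abs_le]
      constructor <;> linarith [hx.1, hx.2]
    have h2 := h.trans (mul_le_of_le_one_right (by positivity) h1)
    simpa using h2
  have h := (convex_Icc (n : ℝ) (n + 1)).norm_image_sub_le_of_norm_hasDerivWithin_le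
    (f := fun y : ℝ => (s - 1) * ((n + 1 : ℕ) : ℂ) ^ (-s) * (y : ℂ) + (y : ℂ) ^ (1 - s))
    (f' := fun y : ℝ => (s - 1) * (((n + 1 : ℕ) : ℂ) ^ (-s) - (y : ℂ) ^ (-s)))
    (C := ‖s - 1‖ * ‖s‖ * (n : ℝ) ^ (-1 - s.re)) (x := n) (y := n + 1)
    (fun y hy => by
      have k1 := hasDerivAt_ofReal_cpow_const (hn'.trans_le hy.1).ne' hs1'
      have k2 : HasDerivAt (fun y : ℝ => (s - 1) * ((n + 1 : ℕ) : ℂ) ^ (-s) * (y : ℂ))
          ((s - 1) * ((n + 1 : ℕ) : ℂ) ^ (-s) * 1) y :=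
        (Complex.ofRealCLM.hasDerivAt (x := y)).const_mul _
      refine ((k2.add k1).congr_deriv ?_).hasDerivWithinAt
      rw [show 1 - s - 1 = -s by ring]
      ring)
    (fun y hy => by
      rw [norm_mul, mul_assoc]
      exact mul_le_mul_of_nonneg_left (d1 y hy) (norm_nonneg _))
    ⟨le_rfl, by linarith⟩ ⟨by linarith, le_rfl⟩
  rw [add_sub_cancel_left, norm_one, mul_one] at h
  refine le_trans (le_of_eq ?_) h
  congr 1
  unfold zu
  push_cast
  ring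

theorem zu_sum (s : ℂ) {N M : ℕ} (h : N ≤ M) :
    (s - 1) * ∑ n ∈ Ioc 0 M, (n : ℂ) ^ (-s) + (M : ℂ) ^ (1 - s) =
      (s - 1) * ∑ n ∈ Ioc 0 N, (n : ℂ) ^ (-s) + (N : ℂ) ^ (1 - s) + ∑ n ∈ Ico N M, zu n s := by
  induction M, h using Nat.le_induction with
  | base => simp
  | succ M hM ih =>
    rw [sum_Ioc_succ_top (Nat.zero_le M), sum_Ico_succ_top hM, ← add_assoc, ← ih, zu]
    ring

theorem zeta_tendsto {s : ℂ} (hs : 0 < s.re) :
    Tendsto (fun M : ℕ => (s - 1) * ∑ n ∈ Ioc 0 M, (n : ℂ) ^ (-s) + (M : ℂ) ^ (1 - s)) atTop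
      (𝓝 (riemannZeta₁ s)) := by
  set U : Set ℂ := {w : ℂ | s.re / 2 < w.re} ∩ Metric.ball 0 (‖s‖ + 2) with hUd
  have hU : IsOpen U := (isOpen_lt continuous_const continuous_re).inter Metric.isOpen_ball
  have hc : Convex ℝ U := (convex_halfSpace_re_gt _).inter (convex_ball _ _)
  have hsum : Summable fun n : ℕ =>
      (‖s‖ + 3) * (‖s‖ + 2) * ((n + 1 : ℕ) : ℝ) ^ (-1 - s.re / 2) := by
    refine Summable.mul_left _ ?_
    exact (summable_nat_add_iff (f := fun n : ℕ => (n : ℝ) ^ (-1 - s.re / 2)) 1).2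
      (Real.summable_nat_rpow.2 (by linarith))
  have hle : ∀ (n : ℕ) (w : ℂ), w ∈ U → ‖zu (n + 1) w‖ ≤
      (‖s‖ + 3) * (‖s‖ + 2) * ((n + 1 : ℕ) : ℝ) ^ (-1 - s.re / 2) := by
    intro n w hw
    have h1 : s.re / 2 < w.re := hw.1
    have h2 : ‖w‖ < ‖s‖ + 2 := mem_ball_zero_iff.1 hw.2
    have h3 : ‖w - 1‖ ≤ ‖s‖ + 3 := (norm_sub_le _ _).trans (by rw [norm_one]; linarith)
    refine (zu_le (by linarith) (Nat.succ_pos n)).trans (mul_le_mul
      (mul_le_mul h3 h2.le (norm_nonneg _) (by positivity)) ?_ (by positivity) (by positivity))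
    exact Real.rpow_le_rpow_of_exponent_le (by exact_mod_cast Nat.le_add_left 1 n) (by linarith)
  have hF : DifferentiableOn ℂ (fun w => w + ∑' n : ℕ, zu (n + 1) w) U := by
    refine differentiableOn_id.add (differentiableOn_tsum_of_summable_norm hsum (fun n => ?_) hU hle)
    refine Differentiable.differentiableOn ?_
    unfold zu
    refine (((differentiable_id.sub_const 1).mul ?_).add ?_).sub ?_
    · exact differentiable_neg.const_cpow (Or.inl (Nat.cast_ne_zero.2 (by omega)))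
    · exact (differentiable_id.const_sub 1).const_cpow (Or.inl (Nat.cast_ne_zero.2 (by omega)))
    · exact (differentiable_id.const_sub 1).const_cpow (Or.inl (Nat.cast_ne_zero.2 (by omega)))
  have hF' : ∀ w ∈ U, Tendsto (fun M : ℕ => (w - 1) * ∑ n ∈ Ioc 0 M, (n : ℂ) ^ (-w) +
      (M : ℂ) ^ (1 - w)) atTop (𝓝 (w + ∑' n : ℕ, zu (n + 1) w)) := by
    intro w hw
    have h1 := ((Summable.of_norm_bounded hsum fun n => hle n w hw).hasSum.tendsto_sum_nat).const_add w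
    rw [← tendsto_add_atTop_iff_nat 1]
    refine h1.congr fun M => ?_
    rw [zu_sum w (Nat.le_add_left 1 M), ← Finset.sum_Ico_add' (fun n => zu n w) 0 M 1,
      Nat.Ico_zero_eq_range]
    simp
  have hs1 : s ∈ U := ⟨show s.re / 2 < s.re by linarith, mem_ball_zero_iff.2 (by linarith)⟩
  have hs2 : s + 1 ∈ U := by
    refine ⟨show s.re / 2 < (s + 1).re by simp; linarith, mem_ball_zero_iff.2 ?_⟩
    have := norm_add_le s 1
    rw [norm_one] at this
    linarith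
  have hev : (fun w => w + ∑' n : ℕ, zu (n + 1) w) =ᶠ[𝓝 (s + 1)] riemannZeta₁ := by
    filter_upwards [hU.mem_nhds hs2, (isOpen_lt continuous_const continuous_re).mem_nhds
      (show 1 < (s + 1).re by simpa using hs)] with w hw hw'
    have hw1 : 1 < w.re := hw'
    have hne : w ≠ 1 := fun h => by simp [h] at hw1
    refine tendsto_nhds_unique (hF' w hw) ?_
    have h1 := a2a_one_lt (1 : DirichletCharacter ℂ 1) hw1
    rw [DirichletCharacter.LFunction_modOne_eq] at h1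
    have h2 : Tendsto (fun M : ℕ => (M : ℂ) ^ (1 - w)) atTop (𝓝 0) := by
      have h3 : Tendsto (fun M : ℕ => (M : ℝ) ^ (-(w.re - 1))) atTop (𝓝 0) :=
        (tendsto_rpow_neg_atTop (by linarith)).comp tendsto_natCast_atTop_atTop
      refine squeeze_zero_norm' ?_ h3
      filter_upwards [eventually_gt_atTop 0] with M hM
      rw [norm_natCast_cpow_of_pos hM]
      simp
    have h4 := (h1.const_mul (w - 1)).add h2
    rw [add_zero, riemannZeta_eq_inv_sub_mul hne, mul_inv_cancel_left₀ (sub_ne_zero.2 hne)] at h4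
    refine h4.congr fun M => ?_
    congr 2
    rw [← Nat.Ico_zero_eq_range, ← Finset.Ico_add_one_add_one_eq_Ioc,
      ← Finset.sum_Ico_add' (fun n : ℕ => (n : ℂ) ^ (-w)) 0 M 1]
    refine sum_congr rfl fun n _ => ?_
    rw [MulChar.one_apply (isUnit_of_subsingleton _), one_mul]
  have heq := (hF.analyticOnNhd hU).eqOn_of_preconnected_of_eventuallyEq
    (differentiable_riemannZeta₁.differentiableOn.analyticOnNhd hU) hc.isPreconnected hs2 hev hs1
  rw [← heq]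
  exact hF' s hs1

theorem zeta_trunc₁ {s : ℂ} (hs : 0 < s.re) {N : ℕ} (hN : 1 ≤ N) :
    ‖riemannZeta₁ s - ((s - 1) * ∑ n ∈ Ioc 0 N, (n : ℂ) ^ (-s) + (N : ℂ) ^ (1 - s))‖ ≤
      ‖s - 1‖ * ‖s‖ * (1 + 1 / s.re) * (N : ℝ) ^ (-s.re) := by
  refine le_of_tendsto ((zeta_tendsto hs).sub_const _).norm
    (eventually_atTop.2 ⟨N + 1, fun M hM => ?_⟩)
  have hN1 : (1 : ℝ) ≤ N := by exact_mod_cast hN
  rw [zu_sum s (show N ≤ M by omega), add_sub_cancel_left]
  refine (norm_sum_le_of_le _ (n := fun n : ℕ => ‖s - 1‖ * ‖s‖ * (n : ℝ) ^ (-1 - s.re))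
    fun n hn => zu_le hs (by have := (mem_Ico.1 hn).1; omega)).trans ?_
  rw [← mul_sum, mul_assoc (‖s - 1‖ * ‖s‖)]
  refine mul_le_mul_of_nonneg_left ?_ (by positivity)
  have h1 : Ico N M ⊆ insert N (Ioc N M) := fun n hn => by
    simp only [mem_Ico, mem_insert, mem_Ioc] at hn ⊢
    omega
  refine (sum_le_sum_of_subset_of_nonneg h1 fun _ _ _ => by positivity).trans ?_
  rw [sum_insert (by simp)]
  have h2 := a2b_tail hs hN M
  have h3 : (N : ℝ) ^ (-1 - s.re) ≤ (N : ℝ) ^ (-s.re) :=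
    Real.rpow_le_rpow_of_exponent_le hN1 (by linarith)
  have h4 : (1 + 1 / s.re) * (N : ℝ) ^ (-s.re) = (N : ℝ) ^ (-s.re) + (N : ℝ) ^ (-s.re) / s.re := by
    ring
  linarith

theorem zeta_trunc {s : ℂ} (hs : 0 < s.re) (hs1 : s ≠ 1) {N : ℕ} (hN : 1 ≤ N) :
    ‖riemannZeta s - ∑ n ∈ Ioc 0 N, (n : ℂ) ^ (-s) - (N : ℂ) ^ (1 - s) / (s - 1)‖ ≤
      ‖s‖ * (1 + 1 / s.re) * (N : ℝ) ^ (-s.re) := by
  have h0 : s - 1 ≠ 0 := sub_ne_zero.2 hs1
  have h := zeta_trunc₁ hs hN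
  have e : riemannZeta₁ s - ((s - 1) * ∑ n ∈ Ioc 0 N, (n : ℂ) ^ (-s) + (N : ℂ) ^ (1 - s)) =
      (s - 1) * (riemannZeta s - ∑ n ∈ Ioc 0 N, (n : ℂ) ^ (-s) - (N : ℂ) ^ (1 - s) / (s - 1)) := by
    rw [riemannZeta_eq_inv_sub_mul hs1]
    field_simp
    ring
  rw [e, norm_mul, mul_assoc, mul_assoc] at h
  rw [mul_assoc]
  exact le_of_mul_le_mul_left h (norm_pos_iff.2 h0)

open Classical in
/-- the entire function attached to a character -/
def LF {q : ℕ} [NeZero q] (ξ : DirichletCharacter ℂ q) : ℂ → ℂ :=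
  if ξ = 1 then DirichletCharacter.LFunctionTrivChar₁ q else ξ.LFunction

theorem LF_of_ne {q : ℕ} [NeZero q] {ξ : DirichletCharacter ℂ q} (h : ξ ≠ 1) :
    LF ξ = ξ.LFunction := if_neg h

theorem LF_one {q : ℕ} [NeZero q] :
    LF (1 : DirichletCharacter ℂ q) = DirichletCharacter.LFunctionTrivChar₁ q := if_pos rfl

theorem LF_one_apply {q : ℕ} [NeZero q] (s : ℂ) : LF (1 : DirichletCharacter ℂ q) s =
    (∏ p ∈ q.primeFactors, (1 - (p : ℂ) ^ (-s))) * riemannZeta₁ s := by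
  rw [LF_one]
  rcases eq_or_ne s 1 with rfl | h
  · simp [cpow_neg_one]
  · rw [DirichletCharacter.LFunctionTrivChar₁, Function.update_of_ne h,
      DirichletCharacter.LFunctionTrivChar_eq_mul_riemannZeta h, riemannZeta_eq_inv_sub_mul h]
    have : s - 1 ≠ 0 := sub_ne_zero.2 h
    field_simp

theorem LF_diff {q : ℕ} [NeZero q] (ξ : DirichletCharacter ℂ q) : Differentiable ℂ (LF ξ) := by
  rcases eq_or_ne ξ 1 with rfl | h
  · rw [LF_one]; exact DirichletCharacter.differentiable_LFunctionTrivChar₁ q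
  · rw [LF_of_ne h]; exact DirichletCharacter.differentiable_LFunction h

theorem LF_ne_zero {q : ℕ} [NeZero q] (ξ : DirichletCharacter ℂ q) {s : ℂ} (hs : 1 ≤ s.re) :
    LF ξ s ≠ 0 := by
  rcases eq_or_ne ξ 1 with rfl | h
  · rw [LF_one]
    rcases eq_or_ne s 1 with rfl | h1
    · exact DirichletCharacter.LFunctionTrivChar₁_apply_one_ne_zero q
    · rw [DirichletCharacter.LFunctionTrivChar₁, Function.update_of_ne h1]
      exact mul_ne_zero (sub_ne_zero.2 h1)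
        (DirichletCharacter.LFunction_ne_zero_of_one_le_re _ (Or.inr h1) hs)
  · rw [LF_of_ne h]
    exact DirichletCharacter.LFunction_ne_zero_of_one_le_re _ (Or.inl h) hs

theorem LF_upper {q : ℕ} [NeZero q] (ξ : DirichletCharacter ℂ q) {s : ℂ} (hs : 1 / 10 ≤ s.re) :
    ‖LF ξ s‖ ≤ 12 * q * (1 + ‖s‖) ^ 2 := by
  have hq : (1 : ℝ) ≤ q := by exact_mod_cast Nat.pos_of_ne_zero (NeZero.ne q)
  have hs0 : 0 < s.re := by linarith
  have hn := norm_nonneg s
  have h10 : 1 / s.re ≤ 10 := by rw [div_le_iff₀ hs0]; linarith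
  rcases eq_or_ne ξ 1 with rfl | h
  · rw [LF_one_apply, norm_mul]
    have h1 : ‖∏ p ∈ q.primeFactors, (1 - (p : ℂ) ^ (-s))‖ ≤ q := by
      rw [norm_prod]
      calc ∏ p ∈ q.primeFactors, ‖1 - (p : ℂ) ^ (-s)‖ ≤ ∏ p ∈ q.primeFactors, (p : ℝ) := by
            refine prod_le_prod (fun _ _ => norm_nonneg _) fun p hp => ?_
            have hp' := Nat.prime_of_mem_primeFactors hp
            have k1 : (2 : ℝ) ≤ p := by exact_mod_cast hp'.two_le
            have k2 : ‖(p : ℂ) ^ (-s)‖ ≤ 1 := by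
              rw [norm_natCast_cpow_of_pos hp'.pos, neg_re]
              exact Real.rpow_le_one_of_one_le_of_nonpos (by linarith) (by linarith)
            refine (norm_sub_le _ _).trans ?_
            rw [norm_one]; linarith
        _ ≤ q := by
            rw [← Nat.cast_prod]
            exact_mod_cast Nat.le_of_dvd (Nat.pos_of_ne_zero (NeZero.ne q))
              (Nat.prod_primeFactors_dvd q)
    have h2 := zeta_trunc₁ hs0 (N := 1) le_rfl
    simp only [show Ioc 0 1 = ({1} : Finset ℕ) from rfl, sum_singleton, Nat.cast_one, one_cpow,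
      mul_one, sub_add_cancel, Real.one_rpow] at h2
    have h3 : ‖s - 1‖ ≤ ‖s‖ + 1 := (norm_sub_le _ _).trans (by rw [norm_one])
    have h4 : ‖s - 1‖ * ‖s‖ * (1 + 1 / s.re) ≤ (‖s‖ + 1) * ‖s‖ * 11 :=
      mul_le_mul (mul_le_mul_of_nonneg_right h3 hn) (by linarith) (by positivity) (by positivity)
    have h5 := norm_le_norm_sub_add (riemannZeta₁ s) s
    have h6 : ‖riemannZeta₁ s‖ ≤ 12 * (1 + ‖s‖) ^ 2 := by nlinarith
    calc _ ≤ q * (12 * (1 + ‖s‖) ^ 2) := mul_le_mul h1 h6 (norm_nonneg _) (by positivity)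
      _ = _ := by ring
  · rw [LF_of_ne h]
    have h2 := lfun_trunc ξ h (char_sum_le ξ h) hs0 (N := 1) le_rfl
    simp only [show Ioc 0 1 = ({1} : Finset ℕ) from rfl, sum_singleton, Nat.cast_one, one_cpow,
      mul_one, Real.one_rpow, map_one] at h2
    have h5 := norm_le_norm_sub_add (ξ.LFunction s) 1
    rw [norm_one] at h5
    have h3 : ‖s‖ / s.re ≤ ‖s‖ * 10 := by
      rw [div_eq_mul_one_div]; exact mul_le_mul_of_nonneg_left h10 hn
    have h4 : (q : ℝ) * (2 + ‖s‖ / s.re) ≤ q * (2 + ‖s‖ * 10) :=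
      mul_le_mul_of_nonneg_left (by linarith) (by positivity)
    nlinarith [mul_nonneg (show (0 : ℝ) ≤ q by positivity) hn,
      mul_nonneg (show (0 : ℝ) ≤ q by positivity) (mul_nonneg hn hn)]

theorem LF_lower {q : ℕ} [NeZero q] (ξ : DirichletCharacter ℂ q) {s : ℂ} (hs : s.re = 2) :
    1 / 2 ≤ ‖LF ξ s‖ := by
  have h1 := lfun_lower ξ (s := s) (by rw [hs]; norm_num)
  rw [hs] at h1
  rcases eq_or_ne ξ 1 with rfl | h
  · have hne : s ≠ 1 := fun h => by simp [h] at hs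
    rw [LF_one, DirichletCharacter.LFunctionTrivChar₁, Function.update_of_ne hne, norm_mul]
    have h2 : 1 ≤ ‖s - 1‖ := by
      have := re_le_norm (s - 1)
      rw [sub_re, hs, one_re] at this
      linarith
    nlinarith
  · rw [LF_of_ne h]; linarith

/-- Jensen: the zeros, with multiplicity, in a disc of radius `8 / 5` around `2 + i t`. -/
theorem LF_count {q : ℕ} [NeZero q] (ξ : DirichletCharacter ℂ q) (t : ℝ) (Z : Finset ℂ)
    (hZ : ∀ z ∈ Z, ‖z - (2 + t * I)‖ ≤ 8 / 5) :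
    ∑ z ∈ Z, (analyticOrderNatAt (LF ξ) z : ℝ) ≤ 7 * Real.log (24 * q * (|t| + 5) ^ 2) := by
  have hq : (1 : ℝ) ≤ q := by exact_mod_cast Nat.pos_of_ne_zero (NeZero.ne q)
  have ht := abs_nonneg t
  set c : ℂ := 2 + t * I with hc
  have hcre : c.re = 2 := by simp [hc]
  have hcn : ‖c‖ ≤ 2 + |t| := by
    refine (norm_add_le _ _).trans ?_
    simp
  have hlow := LF_lower ξ hcre
  have han : ∀ U : Set ℂ, AnalyticOnNhd ℂ (LF ξ) U := fun U z _ => (LF_diff ξ).analyticAt z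
  have hM : (1 : ℝ) ≤ 12 * q * (|t| + 5) ^ 2 := by nlinarith
  have h := AnalyticOnNhd.sum_divisor_le (c := c) (r := 8 / 5) (R := 19 / 10)
    (M := 12 * q * (|t| + 5) ^ 2) (f := LF ξ) (by norm_num) (by
      rw [abs_of_pos (by norm_num), abs_of_pos (by norm_num)]; norm_num) hM (han _)
    (norm_pos_iff.1 (by linarith)) (by
      intro z hz
      rw [abs_of_pos (by norm_num), mem_sphere_iff_norm] at hz
      have h1 : 1 / 10 ≤ z.re := by
        have := (abs_le.1 ((abs_re_le_norm (z - c)).trans hz.le)).1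
        rw [sub_re, hcre] at this
        linarith
      have h2 : ‖z‖ ≤ ‖z - c‖ + ‖c‖ := norm_le_norm_sub_add z c
      refine (LF_upper ξ h1).trans (mul_le_mul_of_nonneg_left ?_ (by positivity))
      exact pow_le_pow_left₀ (by positivity) (by linarith) 2)
  rw [abs_of_pos (show (0 : ℝ) < 8 / 5 by norm_num)] at h
  have hfin := (MeromorphicOn.divisor (LF ξ) (Metric.closedBall c (8 / 5))).finiteSupport
    (isCompact_closedBall c (8 / 5))
  have h1 : ∑ z ∈ Z, (analyticOrderNatAt (LF ξ) z : ℤ) ≤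
      ∑ᶠ u, MeromorphicOn.divisor (LF ξ) (Metric.closedBall c (8 / 5)) u := by
    classical
    rw [finsum_eq_sum_of_support_subset (s := hfin.toFinset ∪ Z) _ (by
      intro u hu; simp only [coe_union, Set.Finite.coe_toFinset]; exact Or.inl hu)]
    refine le_trans (le_of_eq (sum_congr rfl fun z hz => ?_))
      (sum_le_sum_of_subset_of_nonneg subset_union_right fun u _ _ =>
        MeromorphicOn.AnalyticOnNhd.divisor_nonneg (han _) u)
    rw [MeromorphicOn.AnalyticOnNhd.divisor_apply (han _) (mem_closedBall_iff_norm.2 (hZ z hz))]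
    have h3 : analyticOrderAt (LF ξ) z ≠ ⊤ := fun h => by
      have := (AnalyticOnNhd.analyticOrderAt_eq_top_iff_eq_zero z (LF_diff ξ).analyticAt).1 h
      rw [this] at hlow
      norm_num at hlow
    rw [← Nat.cast_analyticOrderNatAt h3]
    simp
  have h2 : ∑ z ∈ Z, (analyticOrderNatAt (LF ξ) z : ℝ) ≤
      ((∑ᶠ u, MeromorphicOn.divisor (LF ξ) (Metric.closedBall c (8 / 5)) u : ℤ) : ℝ) := by
    exact_mod_cast h1
  refine h2.trans (h.trans ?_)
  have h3 : 1 / 7 ≤ Real.log (19 / 10 / (8 / 5)) := by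
    have := Real.one_sub_inv_le_log_of_pos (show (0 : ℝ) < 19 / 10 / (8 / 5) by norm_num)
    norm_num at this ⊢
    linarith
  have h4 : Real.log (12 * q * (|t| + 5) ^ 2 / ‖LF ξ c‖) ≤ Real.log (24 * q * (|t| + 5) ^ 2) := by
    refine Real.log_le_log (by positivity) ?_
    rw [div_le_iff₀ (by linarith)]
    nlinarith
  have h5 : 0 ≤ Real.log (24 * q * (|t| + 5) ^ 2) := Real.log_nonneg (by nlinarith)
  rw [div_le_iff₀ (by linarith)]
  nlinarith

end Pool.Agent.Lib.MP_778b46_nt.GX
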