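import Pool.Agent.Lib.MP_778b46_nt.GX.Z4b
import Pool.Agent.Lib.MP_2a1a00_nt.Div

/- Zero detection: a mollifier, dyadic pieces, powers and the hybrid large sieve. -/

noncomputable section

namespace Pool.Agent.Lib.MP_778b46_nt.GX

open Finset Real

/-- coefficients of the product of two Dirichlet polynomials -/
def cv (S T : Finset ℕ) (a b : ℕ → ℂ) (k : ℕ) : ℂ :=
  ∑ x ∈ (S ×ˢ T).filter (fun x => x.1 * x.2 = k), a x.1 * b x.2

theorem cv_sum (S T K : Finset ℕ) (a b f : ℕ → ℂ) (hf : ∀ m n, f (m * n) = f m * f n)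
    (hK : ∀ m ∈ S, ∀ n ∈ T, m * n ∈ K) :
    (∑ m ∈ S, a m * f m) * ∑ n ∈ T, b n * f n = ∑ k ∈ K, cv S T a b k * f k := by
  rw [sum_mul_sum, ← sum_product', ← sum_fiberwise_of_maps_to (g := fun x : ℕ × ℕ => x.1 * x.2)
    fun x hx => hK _ (mem_product.1 hx).1 _ (mem_product.1 hx).2]
  refine sum_congr rfl fun k _ => ?_
  rw [cv, sum_mul]
  refine sum_congr rfl fun x hx => ?_
  rw [← (mem_filter.1 hx).2, hf]
  ring

theorem cv_le (S T : Finset ℕ) (a b : ℕ → ℂ) (e e' : ℕ)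
    (ha : ∀ n, 0 < n → ‖a n‖ ≤ (n.divisors.card : ℝ) ^ e)
    (hb : ∀ n, 0 < n → ‖b n‖ ≤ (n.divisors.card : ℝ) ^ e') (k : ℕ) (hk : 0 < k) :
    ‖cv S T a b k‖ ≤ (k.divisors.card : ℝ) ^ (e + e' + 1) := by
  have h1 : (S ×ˢ T).filter (fun x => x.1 * x.2 = k) ⊆ k.divisorsAntidiagonal := fun x hx =>
    Nat.mem_divisorsAntidiagonal.2 ⟨(mem_filter.1 hx).2, hk.ne'⟩
  have h2 : ∀ d, d ∣ k → (d.divisors.card : ℝ) ≤ k.divisors.card := fun d hd =>
    Nat.cast_le.2 (card_le_card (Nat.divisors_subset_of_dvd hk.ne' hd))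
  have h3 : ∀ x ∈ (S ×ˢ T).filter (fun x => x.1 * x.2 = k),
      ‖a x.1 * b x.2‖ ≤ (k.divisors.card : ℝ) ^ (e + e') := by
    intro x hx
    have e1 := (mem_filter.1 hx).2
    have d1 : x.1 ∣ k := ⟨_, e1.symm⟩
    have d2 : x.2 ∣ k := Dvd.intro_left _ e1
    rw [norm_mul, pow_add]
    refine mul_le_mul ((ha _ (Nat.pos_of_dvd_of_pos d1 hk)).trans ?_)
      ((hb _ (Nat.pos_of_dvd_of_pos d2 hk)).trans ?_) (norm_nonneg _) (by positivity)
    · exact pow_le_pow_left₀ (by positivity) (h2 _ d1) _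
    · exact pow_le_pow_left₀ (by positivity) (h2 _ d2) _
  refine (norm_sum_le_of_le _ h3).trans ?_
  rw [sum_const, nsmul_eq_mul, pow_succ']
  refine mul_le_mul_of_nonneg_right (Nat.cast_le.2 ((card_le_card h1).trans ?_)) (by positivity)
  rw [← Nat.map_div_right_divisors, card_map]

theorem cv_pow (A B e : ℕ) (a : ℕ → ℂ) (ha : ∀ n, 0 < n → ‖a n‖ ≤ (n.divisors.card : ℝ) ^ e)
    (k : ℕ) : ∃ b : ℕ → ℂ, (∀ n, 0 < n → ‖b n‖ ≤ (n.divisors.card : ℝ) ^ ((e + 1) * (k + 1))) ∧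
      ∀ f : ℕ → ℂ, (∀ m n, f (m * n) = f m * f n) →
        (∑ n ∈ Ioc A B, a n * f n) ^ (k + 1) = ∑ n ∈ Ioc (A ^ (k + 1)) (B ^ (k + 1)), b n * f n := by
  induction k with
  | zero =>
    refine ⟨a, fun n hn => (ha n hn).trans (pow_le_pow_right₀ ?_ (by omega)), fun f _ => by simp⟩
    exact_mod_cast card_pos.2 ⟨1, Nat.one_mem_divisors.2 hn.ne'⟩
  | succ k ih =>
    obtain ⟨b, hb, hf⟩ := ih
    refine ⟨cv (Ioc (A ^ (k + 1)) (B ^ (k + 1))) (Ioc A B) b a, fun n hn => ?_, fun f h => ?_⟩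
    · refine (cv_le _ _ _ _ _ _ hb ha n hn).trans (le_of_eq ?_)
      congr 1
    · rw [pow_succ, hf f h]
      refine cv_sum _ _ _ _ _ f h fun m hm n hn => ?_
      rw [mem_Ioc] at hm hn ⊢
      rw [pow_succ A (k + 1), pow_succ B (k + 1)]
      exact ⟨Nat.mul_lt_mul'' hm.1 hn.1, Nat.mul_le_mul hm.2 hn.2⟩

theorem cv_moll {V N n : ℕ} (hVN : V ≤ N) (hn : n ∈ Ioc 0 V) :
    cv (Ioc 0 V) (Ioc 0 N) (fun d => (ArithmeticFunction.moebius d : ℂ)) (fun _ => 1) n =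
      if n = 1 then 1 else 0 := by
  rw [mem_Ioc] at hn
  have h1 : (Ioc 0 V ×ˢ Ioc 0 N).filter (fun x => x.1 * x.2 = n) = n.divisorsAntidiagonal := by
    ext x
    rw [mem_filter, mem_product, mem_Ioc, mem_Ioc, Nat.mem_divisorsAntidiagonal]
    refine ⟨fun h => ⟨h.2, hn.1.ne'⟩, fun h => ⟨?_, h.1⟩⟩
    have d1 : x.1 ∣ n := ⟨_, h.1.symm⟩
    have d2 : x.2 ∣ n := Dvd.intro_left _ h.1
    exact ⟨⟨Nat.pos_of_dvd_of_pos d1 hn.1, (Nat.le_of_dvd hn.1 d1).trans hn.2⟩,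
      Nat.pos_of_dvd_of_pos d2 hn.1, (Nat.le_of_dvd hn.1 d2).trans (hn.2.trans hVN)⟩
  have h2 := congrArg (fun g : ArithmeticFunction ℂ => g n)
    (ArithmeticFunction.coe_moebius_mul_coe_zeta (R := ℂ))
  simp only [ArithmeticFunction.mul_apply, ArithmeticFunction.one_apply] at h2
  rw [cv, h1, ← h2]
  refine sum_congr rfl fun x hx => ?_
  have : x.2 ≠ 0 := Nat.right_ne_zero_of_mem_divisorsAntidiagonal hx
  simp [ArithmeticFunction.natCoe_apply, this]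

theorem sum_dyadic (V J : ℕ) (g : ℕ → ℂ) :
    ∑ n ∈ Ioc V (V * 2 ^ J), g n = ∑ j ∈ range J, ∑ n ∈ Ioc (V * 2 ^ j) (V * 2 ^ j * 2), g n := by
  induction J with
  | zero => simp
  | succ J ih =>
    rw [sum_range_succ, ← ih, pow_succ, ← mul_assoc,
      sum_Ioc_consecutive g (Nat.le_mul_of_pos_right _ (by positivity)) (by omega)]

/-- a small initial sum forces a large dyadic piece of the mollified sum -/
theorem detect_piece {V N J : ℕ} (hV : 1 ≤ V) (hVN : V ≤ N) (hJ : N ≤ 2 ^ J) (f : ℕ → ℂ)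
    (hf : ∀ m n, f (m * n) = f m * f n) (h1 : f 1 = 1) (hle : ∀ n, 0 < n → ‖f n‖ ≤ 1)
    (hs : ‖∑ n ∈ Ioc 0 N, f n‖ ≤ 1 / (2 * V)) :
    ∃ j ∈ range J, 1 / (2 * (J : ℝ)) ≤ ‖∑ n ∈ Ioc (V * 2 ^ j) (V * 2 ^ j * 2),
      cv (Ioc 0 V) (Ioc 0 N) (fun d => (ArithmeticFunction.moebius d : ℂ)) (fun _ => 1) n * f n‖ := by
  set b := cv (Ioc 0 V) (Ioc 0 N) (fun d => (ArithmeticFunction.moebius d : ℂ)) (fun _ => 1) with hb
  have hV0 : (0 : ℝ) < V := by exact_mod_cast hV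
  have e1 := cv_sum (Ioc 0 V) (Ioc 0 N) (Ioc 0 (V * 2 ^ J))
    (fun d => (ArithmeticFunction.moebius d : ℂ)) (fun _ => 1) f hf (fun m hm n hn => by
      rw [mem_Ioc] at hm hn ⊢
      exact ⟨Nat.mul_pos hm.1 hn.1, Nat.mul_le_mul hm.2 (hn.2.trans hJ)⟩)
  rw [← hb, ← sum_Ioc_consecutive _ (Nat.zero_le V) (Nat.le_mul_of_pos_right _ (by positivity)),
    sum_dyadic] at e1
  have e2 : ∑ n ∈ Ioc 0 V, b n * f n = 1 := by
    rw [sum_congr rfl fun n hn => by rw [hb, cv_moll hVN hn]]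
    simp [hV, h1]
  have e3 : ‖∑ m ∈ Ioc 0 V, (ArithmeticFunction.moebius m : ℂ) * f m‖ ≤ V := by
    refine (norm_sum_le_of_le _ (n := fun _ => (1 : ℝ)) fun m hm => ?_).trans (by simp)
    rw [norm_mul, Complex.norm_intCast]
    refine mul_le_one₀ ?_ (norm_nonneg _) (hle m (mem_Ioc.1 hm).1)
    exact_mod_cast ArithmeticFunction.abs_moebius_le_one
  simp only [one_mul] at e1
  rw [e2] at e1
  have e4 := mul_le_mul e3 hs (norm_nonneg _) hV0.le
  rw [← norm_mul, e1, show (V : ℝ) * (1 / (2 * V)) = 1 / 2 by field_simp] at e4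
  by_contra hc
  push Not at hc
  have e5 := norm_sum_le_of_le (range J) fun j hj => (hc j hj).le
  have e6 := norm_sub_le (1 + ∑ j ∈ range J, ∑ n ∈ Ioc (V * 2 ^ j) (V * 2 ^ j * 2), b n * f n)
    (∑ j ∈ range J, ∑ n ∈ Ioc (V * 2 ^ j) (V * 2 ^ j * 2), b n * f n)
  rw [add_sub_cancel_right, norm_one] at e6
  rcases Nat.eq_zero_or_pos J with rfl | hJ0
  · simp at e4; linarith
  have hJr : (0 : ℝ) < J := by exact_mod_cast hJ0
  have e7 : ‖∑ j ∈ range J, ∑ n ∈ Ioc (V * 2 ^ j) (V * 2 ^ j * 2), b n * f n‖ < 1 / 2 := by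
    refine (norm_sum_le _ _).trans_lt ((sum_lt_sum_of_nonempty (nonempty_range_iff.2 hJ0.ne')
      hc).trans_le (le_of_eq ?_))
    rw [sum_const, card_range, nsmul_eq_mul]
    field_simp
  linarith

open Classical in
theorem detect (k0 : ℕ) (ε : ℝ) (hk0 : 1 ≤ k0) (hε : 0 < ε) : ∃ C : ℝ, 0 < C ∧
    ∀ (ι : Type) (I : Finset ι) (χ : ι → Ch) (z : ι → ℂ) (Q V N J : ℕ) (T L σ : ℝ), 1 ≤ Q → 1 ≤ V →
    V ≤ N → N ≤ 2 ^ J → 1 ≤ T → 0 ≤ L → 0 ≤ σ → σ ≤ 1 →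
    T * ((Q : ℝ) ^ 2 * (1 + Real.log Q)) ≤ (V : ℝ) ^ k0 → (∀ i ∈ I, χ i ∈ PC Q) →
    (∀ i ∈ I, σ ≤ (z i).re ∧ (z i).re ≤ 1 ∧ |(z i).im| ≤ T) →
    (∀ (x : Ch) (t : ℝ), ((I.filter fun i => χ i = x ∧ |(z i).im - t| ≤ 1 / 2).card : ℝ) ≤ L) →
    (∀ i ∈ I, ‖∑ n ∈ Ioc 0 N, (χ i).2 (n : ZMod (χ i).1) * (n : ℂ) ^ (-z i)‖ ≤ 1 / (2 * V)) →
    (I.card : ℝ) ≤ C * L * ((J : ℝ) + 1) ^ (2 * k0 + 1) *
      (T * ((Q : ℝ) ^ 2 * (1 + Real.log Q)) * (V * 2 ^ J)) ^ (2 - 2 * σ + ε) := by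
  have hk0r : (1 : ℝ) ≤ k0 := by exact_mod_cast hk0
  obtain ⟨C1, hC1, hls⟩ := hybrid_ls k0 hk0r
  obtain ⟨C2, hC2, hdiv⟩ := Pool.Agent.Lib.MP_2a1a00_nt.card_divisors_le (ε / (4 * k0))
    (by positivity)
  refine ⟨2 ^ (2 * k0) * (C1 * 2 * (C2 + 1) ^ (4 * k0) * ((2 : ℝ) ^ k0) ^ (1 + ε)), by positivity,
    ?_⟩
  intro ι I χ z Q V N J T L σ hQ hV hVN hJ hT hL0 hσ hσ1 hD hχ hz hL hs
  have hQ1 : (1 : ℝ) ≤ Q := by exact_mod_cast hQ
  have hlog : 0 ≤ Real.log Q := Real.log_nonneg hQ1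
  set D := T * ((Q : ℝ) ^ 2 * (1 + Real.log Q)) with hDd
  have hD1 : 1 ≤ D := one_le_mul_of_one_le_of_one_le hT (by nlinarith)
  set b := cv (Ioc 0 V) (Ioc 0 N) (fun d => (ArithmeticFunction.moebius d : ℂ)) (fun _ => 1) with hb
  have hbτ : ∀ n, 0 < n → ‖b n‖ ≤ (n.divisors.card : ℝ) ^ 1 := fun n hn =>
    cv_le _ _ _ _ 0 0 (fun n _ => by
      rw [Complex.norm_intCast, pow_zero]
      exact_mod_cast ArithmeticFunction.abs_moebius_le_one) (fun n _ => by simp) n hn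
  set f : ι → ℕ → ℂ := fun i n => (χ i).2 (n : ZMod (χ i).1) * (n : ℂ) ^ (-z i) with hf
  have hmul : ∀ i m n, f i (m * n) = f i m * f i n := fun i m n => by
    simp only [hf, Nat.cast_mul, map_mul, Complex.natCast_mul_natCast_cpow]
    ring
  set P : ℕ → ι → Prop := fun j i => 1 / (2 * (J : ℝ)) ≤
    ‖∑ n ∈ Ioc (V * 2 ^ j) (V * 2 ^ j * 2), b n * f i n‖ with hP
  have hcov : I ⊆ (range J).biUnion fun j => I.filter (P j) := by
    intro i hi
    obtain ⟨j, hj, h⟩ := detect_piece hV hVN hJ (f i) (hmul i) (by simp [hf]) (fun n hn => by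
      simp only [hf]
      rw [norm_mul, Complex.norm_natCast_cpow_of_pos hn, Complex.neg_re]
      refine mul_le_one₀ ((χ i).2.norm_le_one _) (by positivity) ?_
      exact Real.rpow_le_one_of_one_le_of_nonpos (by exact_mod_cast hn)
        (by linarith [(hz i hi).1])) (hs i hi)
    exact mem_biUnion.2 ⟨j, hj, mem_filter.2 ⟨hi, h⟩⟩
  set E := (D * (V * 2 ^ J)) ^ (2 - 2 * σ + ε) with hE
  have key : ∀ j ∈ range J, ((I.filter (P j)).card : ℝ) ≤ (2 * (J : ℝ)) ^ (2 * k0) *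
      (C1 * 2 * (C2 + 1) ^ (4 * k0) * ((2 : ℝ) ^ k0) ^ (1 + ε) * L * E) := by
    intro j hj
    have hJ1 : (1 : ℝ) ≤ J := by
      have := mem_range.1 hj
      exact_mod_cast (show 1 ≤ J by omega)
    set M := V * 2 ^ j with hM
    have hVM : V ≤ M := Nat.le_mul_of_pos_right _ (by positivity)
    have hM1 : (1 : ℝ) ≤ M := by exact_mod_cast hV.trans hVM
    have hMJ : (M : ℝ) ≤ V * 2 ^ J := by
      have : M ≤ V * 2 ^ J :=
        Nat.mul_le_mul_left _ (Nat.pow_le_pow_right (by norm_num) (mem_range.1 hj).le)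
      exact_mod_cast this
    obtain ⟨k, hk, hk1, hk2⟩ : ∃ k, k + 1 ≤ k0 ∧ D ≤ (M : ℝ) ^ (k + 1) ∧
        (M : ℝ) ^ (k + 1) ≤ D * M := by
      have hex : ∃ k, D ≤ (M : ℝ) ^ (k + 1) := ⟨k0 - 1, by
        rw [Nat.sub_add_cancel hk0]
        exact hD.trans (pow_le_pow_left₀ (by positivity) (by exact_mod_cast hVM) _)⟩
      refine ⟨Nat.find hex, ?_, Nat.find_spec hex, ?_⟩
      · have : Nat.find hex ≤ k0 - 1 := Nat.find_min' hex (by
          rw [Nat.sub_add_cancel hk0]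
          exact hD.trans (pow_le_pow_left₀ (by positivity) (by exact_mod_cast hVM) _))
        omega
      · rw [pow_succ]
        refine mul_le_mul_of_nonneg_right ?_ (by positivity)
        rcases Nat.eq_zero_or_pos (Nat.find hex) with h | h
        · rw [h, pow_zero]; exact hD1
        · have := Nat.find_min hex (show Nat.find hex - 1 < Nat.find hex by omega)
          rw [Nat.sub_add_cancel h] at this
          exact (not_le.1 this).le
    obtain ⟨a, ha, hpow⟩ := cv_pow M (M * 2) 1 b hbτ k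
    have hU1 : (1 : ℝ) ≤ (M : ℝ) ^ (k + 1) := one_le_pow₀ hM1
    have h2k : (2 : ℝ) ^ (k + 1) ≤ 2 ^ k0 := pow_le_pow_right₀ (by norm_num) hk
    have hW : (((M * 2) ^ (k + 1) : ℕ) : ℝ) ≤ (M : ℝ) ^ (k + 1) * 2 ^ k0 := by
      push_cast
      rw [mul_pow]
      exact mul_le_mul_of_nonneg_left h2k (by positivity)
    have h1 := hls ι (I.filter (P j)) χ z Q (M ^ (k + 1)) ((M * 2) ^ (k + 1)) T L σ hQ
      (by exact_mod_cast hU1) (hW.trans (by
        push_cast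
        refine mul_le_mul_of_nonneg_left ?_ (by positivity)
        rw [← mul_one (k0 : ℝ), Real.exp_nat_mul]
        exact pow_le_pow_left₀ (by norm_num) (by linarith [Real.add_one_le_exp 1]) _)) hT hL0 hσ
      (fun i hi => hχ i (mem_filter.1 hi).1) (fun i hi => hz i (mem_filter.1 hi).1)
      (fun x t => le_trans (Nat.cast_le.2 (card_le_card
        (filter_subset_filter _ (filter_subset _ _)))) (hL x t)) a
    have h2 : ((I.filter (P j)).card : ℝ) * (1 / (2 * (J : ℝ))) ^ (2 * k0) ≤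
        ∑ i ∈ I.filter (P j), ‖∑ n ∈ Ioc (M ^ (k + 1)) ((M * 2) ^ (k + 1)), a n * f i n‖ ^ 2 := by
      rw [← nsmul_eq_mul]
      refine card_nsmul_le_sum _ _ _ fun i hi => ?_
      rw [← hpow (f i) (hmul i), norm_pow, ← pow_mul]
      refine le_trans (pow_le_pow_of_le_one (by positivity) ?_ (by omega))
        (pow_le_pow_left₀ (by positivity) (mem_filter.1 hi).2 _)
      rw [div_le_one (by linarith)]; linarith
    have h3 : ∑ n ∈ Ioc (M ^ (k + 1)) ((M * 2) ^ (k + 1)), ‖a n‖ ^ 2 ≤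
        (C2 + 1) ^ (4 * k0) * ((M : ℝ) ^ (k + 1) * 2 ^ k0) ^ (1 + ε) := by
      set Y := (M : ℝ) ^ (k + 1) * 2 ^ k0 with hY
      have hY0 : 0 < Y := by positivity
      have k1 : ∀ n ∈ Ioc (M ^ (k + 1)) ((M * 2) ^ (k + 1)),
          ‖a n‖ ^ 2 ≤ (C2 + 1) ^ (4 * k0) * Y ^ ε := by
        intro n hn
        have hn0 : 0 < n := lt_of_le_of_lt (Nat.zero_le _) (mem_Ioc.1 hn).1
        have hnY : (n : ℝ) ≤ Y := le_trans (by exact_mod_cast (mem_Ioc.1 hn).2) hW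
        have hτ1 : (1 : ℝ) ≤ n.divisors.card := by
          exact_mod_cast card_pos.2 ⟨1, Nat.one_mem_divisors.2 hn0.ne'⟩
        have k2 : (n.divisors.card : ℝ) ≤ (C2 + 1) * Y ^ (ε / (4 * k0)) :=
          (hdiv n).trans (mul_le_mul (by linarith)
            (Real.rpow_le_rpow (by positivity) hnY (by positivity)) (by positivity) (by positivity))
        calc ‖a n‖ ^ 2 ≤ ((n.divisors.card : ℝ) ^ ((1 + 1) * (k + 1))) ^ 2 :=
              pow_le_pow_left₀ (norm_nonneg _) (ha n hn0) 2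
          _ ≤ (n.divisors.card : ℝ) ^ (4 * k0) := by
              rw [← pow_mul]; exact pow_le_pow_right₀ hτ1 (by omega)
          _ ≤ ((C2 + 1) * Y ^ (ε / (4 * k0))) ^ (4 * k0) := pow_le_pow_left₀ (by positivity) k2 _
          _ = _ := by
              rw [mul_pow, ← Real.rpow_natCast (Y ^ _), ← Real.rpow_mul hY0.le]
              congr 2
              push_cast
              field_simp
      refine (sum_le_card_nsmul _ _ _ k1).trans ?_
      rw [nsmul_eq_mul, Real.rpow_add hY0, Real.rpow_one, mul_left_comm]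
      refine mul_le_mul_of_nonneg_left (mul_le_mul_of_nonneg_right (le_trans ?_ hW)
        (by positivity)) (by positivity)
      rw [Nat.card_Ioc]
      exact_mod_cast Nat.sub_le _ _
    push_cast at h1
    rw [← hDd] at h1
    set U := (M : ℝ) ^ (k + 1) with hU
    have hU0 : 0 < U := by linarith
    have h4 : U * U ^ (-2 * σ) * U ^ (1 + ε) ≤ E := by
      have : U * U ^ (-2 * σ) * U ^ (1 + ε) = U ^ (2 - 2 * σ + ε) := by
        rw [show 2 - 2 * σ + ε = 1 + -2 * σ + (1 + ε) by ring, Real.rpow_add hU0 (1 + -2 * σ),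
          Real.rpow_add hU0 1 (-2 * σ), Real.rpow_one]
      rw [this]
      exact Real.rpow_le_rpow hU0.le (hk2.trans (mul_le_mul_of_nonneg_left hMJ (by linarith)))
        (by linarith)
    have h5 : C1 * L * (U + D) * U ^ (-2 * σ) *
        ∑ n ∈ Ioc (M ^ (k + 1)) ((M * 2) ^ (k + 1)), ‖a n‖ ^ 2 ≤
        C1 * 2 * (C2 + 1) ^ (4 * k0) * ((2 : ℝ) ^ k0) ^ (1 + ε) * L * E := by
      rw [Real.mul_rpow hU0.le (by positivity)] at h3
      calc _ ≤ C1 * L * (2 * U) * U ^ (-2 * σ) *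
            ((C2 + 1) ^ (4 * k0) * (U ^ (1 + ε) * ((2 : ℝ) ^ k0) ^ (1 + ε))) := by
            gcongr; linarith
        _ = C1 * 2 * (C2 + 1) ^ (4 * k0) * ((2 : ℝ) ^ k0) ^ (1 + ε) * L *
            (U * U ^ (-2 * σ) * U ^ (1 + ε)) := by ring
        _ ≤ _ := mul_le_mul_of_nonneg_left h4 (by positivity)
    have h6 := h2.trans (h1.trans h5)
    generalize ((I.filter (P j)).card : ℝ) = R at h6 ⊢
    rw [one_div, inv_pow, ← div_eq_mul_inv, div_le_iff₀' (by positivity)] at h6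
    exact h6
  have h7 : (I.card : ℝ) ≤ ∑ j ∈ range J, ((I.filter (P j)).card : ℝ) := by
    exact_mod_cast (card_le_card hcov).trans card_biUnion_le
  refine h7.trans ((sum_le_card_nsmul _ _ _ key).trans ?_)
  rw [card_range, nsmul_eq_mul, mul_pow]
  have hE0 : 0 ≤ E := by positivity
  calc _ = 2 ^ (2 * k0) * (C1 * 2 * (C2 + 1) ^ (4 * k0) * ((2 : ℝ) ^ k0) ^ (1 + ε)) * L *
        (J : ℝ) ^ (2 * k0 + 1) * E := by ring
    _ ≤ _ := by gcongr; linarith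

end Pool.Agent.Lib.MP_778b46_nt.GX
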