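import Pool.Agent.Lib.MP_778b46_nt.GX.Basic
import Pool.Agent.Lib.MP_778b46_nt.GX.Z4a
import Pool.Agent.Lib.MP_778b46_nt.GX.Z4c

/- Local counts for lists of zeros, and the density estimate for the zeta function near the line
of real part one. -/

noncomputable section

namespace Pool.Agent.Lib.MP_778b46_nt.GX

open Finset

theorem Sub.window {Q : ℕ} [NeZero Q] {ι : Type} [Fintype ι] {χ : ι → DC Q} {ρ : ι → ℂ}
    (h : Sub χ ρ) (ξ : DC Q) (t : ℝ) (S : Finset ι)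
    (hS : ∀ i ∈ S, χ i = ξ ∧ 11 / 20 ≤ (ρ i).re ∧ |(ρ i).im - t| ≤ 1 / 2) :
    (S.card : ℝ) ≤ 7 * Real.log (24 * cd ξ * (|t| + 5) ^ 2) := by
  classical
  refine le_trans ?_ (LF_count ξ.primitiveCharacter t (S.image ρ) fun z hz => ?_)
  · rw [card_eq_sum_card_image ρ S, Nat.cast_sum]
    refine sum_le_sum fun z _ => Nat.cast_le.2 (le_trans ?_ (h ξ z))
    unfold cnt
    refine card_le_card fun i hi => ?_
    simp only [mem_filter, mem_univ, true_and] at hi ⊢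
    exact ⟨(hS i hi.1).1, hi.2⟩
  · obtain ⟨i, hi, rfl⟩ := mem_image.1 hz
    obtain ⟨-, h1, h2⟩ := hS i hi
    have h3 := h.re_lt_one i
    refine le_of_sq_le_sq (by
      rw [Complex.sq_norm, Complex.normSq_apply]
      simp only [Complex.sub_re, Complex.add_re, Complex.re_ofNat, Complex.mul_re,
        Complex.ofReal_re, Complex.I_re, mul_zero, Complex.ofReal_im, Complex.I_im, mul_one,
        sub_self, add_zero, Complex.sub_im, Complex.add_im, Complex.im_ofNat, Complex.mul_im,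
        zero_add]
      rw [abs_le] at h2
      nlinarith [h2.1, h2.2]) (by norm_num)

theorem Sub.box {Q : ℕ} [NeZero Q] {ι : Type} [Fintype ι] {χ : ι → DC Q} {ρ : ι → ℂ}
    (h : Sub χ ρ) (ξ : DC Q) (G : ℕ) (S : Finset ι)
    (hS : ∀ i ∈ S, χ i = ξ ∧ 11 / 20 ≤ (ρ i).re ∧ |(ρ i).im| ≤ G) :
    (S.card : ℝ) ≤ (2 * G + 1) * (7 * Real.log (24 * cd ξ * (G + 5) ^ 2)) := by
  have h1 : ∀ i ∈ S, round (ρ i).im ∈ Icc (-(G : ℤ)) G := by
    intro i hi
    have k1 := abs_le.1 (abs_sub_round (ρ i).im)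
    have k2 := abs_le.1 (hS i hi).2.2
    have k3 : (round (ρ i).im : ℝ) < G + 1 := by linarith [k1.1, k2.2]
    have k4 : -(G : ℝ) - 1 < round (ρ i).im := by linarith [k1.2, k2.1]
    have k5 : round (ρ i).im < (G : ℤ) + 1 := by exact_mod_cast k3
    have k6 : -(G : ℤ) - 1 < round (ρ i).im := by exact_mod_cast k4
    rw [mem_Icc]
    omega
  rw [card_eq_sum_card_fiberwise (f := fun i => round (ρ i).im) (t := Icc (-(G : ℤ)) G)
    (fun i hi => h1 i hi), Nat.cast_sum]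
  refine (sum_le_card_nsmul _ _ (7 * Real.log (24 * cd ξ * (G + 5) ^ 2)) fun b hb => ?_).trans
    (le_of_eq ?_)
  · refine (h.window ξ b _ fun i hi => ?_).trans ?_
    · rw [mem_filter] at hi
      exact ⟨(hS i hi.1).1, (hS i hi.1).2.1, hi.2 ▸ abs_sub_round _⟩
    · have k1 : |(b : ℝ)| ≤ G := by exact_mod_cast abs_le.2 (mem_Icc.1 hb)
      have k2 := cd_pos ξ
      gcongr
  · rw [nsmul_eq_mul, Int.card_Icc]
    congr 1
    rw [show (G : ℤ) + 1 - -(G : ℤ) = ((2 * G + 1 : ℕ) : ℤ) by push_cast; ring, Int.toNat_natCast]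
    push_cast; ring

theorem zz_small {z : ℂ} (h0 : riemannZeta₁ z = 0) (h1 : 1 - 1 / 1000 ≤ z.re) (h2 : z.re < 1)
    {j : ℕ} (hj : 9 ≤ j) (h3 : (4 : ℝ) ^ j / 4 < |z.im|) (h4 : |z.im| ≤ 4 ^ j) :
    ‖∑ n ∈ Ioc 0 (2 ^ (4 * j) : ℕ), (n : ℂ) ^ (-z)‖ ≤ 1 / (2 * ((2 ^ j : ℕ) : ℝ)) := by
  have hz1 : z ≠ 1 := fun h => by simp [h] at h2
  have hζ : riemannZeta z = 0 := by rw [riemannZeta_eq_inv_sub_mul hz1, h0, mul_zero]
  have h := zeta_trunc (s := z) (by linarith) hz1 (N := 2 ^ (4 * j)) (Nat.one_le_two_pow)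
  rw [hζ, zero_sub, ← neg_add', norm_neg] at h
  set V : ℝ := 2 ^ j with hV
  have hV1 : 512 ≤ V := le_trans (by norm_num) (pow_le_pow_right₀ (by norm_num) hj)
  have e1 : (((2 ^ (4 * j) : ℕ)) : ℝ) = V ^ 4 := by push_cast; rw [hV, ← pow_mul, mul_comm]
  have e2 : (4 : ℝ) ^ j = V ^ 2 := by rw [hV, ← pow_mul, mul_comm, pow_mul]; norm_num
  rw [e2] at h3 h4
  have hV0 : 0 < V := by linarith
  obtain ⟨w, hw0, hw⟩ : ∃ w : ℝ, 0 < w ∧ w ^ 2 = V := ⟨√V, Real.sqrt_pos.2 hV0, Real.sq_sqrt hV0.le⟩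
  have hw1 : 22 ≤ w := by nlinarith
  have k1 : (V ^ 4) ^ (1 - z.re) ≤ w := by
    calc (V ^ 4) ^ (1 - z.re) ≤ (V ^ 4) ^ (1 / 8 : ℝ) :=
          Real.rpow_le_rpow_of_exponent_le (one_le_pow₀ (by linarith)) (by linarith)
      _ = w := by
          rw [← hw, ← pow_mul, ← Real.rpow_natCast, ← Real.rpow_mul hw0.le]
          norm_num
  have k2 : ‖((2 ^ (4 * j) : ℕ) : ℂ) ^ (1 - z) / (z - 1)‖ ≤ w / (V ^ 2 / 4) := by
    rw [norm_div, Complex.norm_natCast_cpow_of_pos (by positivity), e1]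
    refine div_le_div₀ hw0.le (by simpa using k1) (by positivity) ?_
    have := Complex.abs_im_le_norm (z - 1)
    simp only [Complex.sub_im, Complex.one_im, sub_zero] at this
    linarith
  have k3 : (V ^ 4) ^ (-z.re) ≤ w / V ^ 4 := by
    rw [show -z.re = 1 - z.re - 1 by ring, Real.rpow_sub_one (by positivity)]
    exact div_le_div_of_nonneg_right k1 (by positivity)
  have k4 : ‖z‖ ≤ 2 * V ^ 2 := by
    have := Complex.norm_le_abs_re_add_abs_im z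
    rw [abs_of_pos (show 0 < z.re by linarith)] at this
    nlinarith
  have k5 : 1 + 1 / z.re ≤ 3 := by
    have : 1 / z.re ≤ 2 := by rw [div_le_iff₀ (by linarith)]; linarith
    linarith
  rw [e1] at h
  have k6 : ‖z‖ * (1 + 1 / z.re) * (V ^ 4) ^ (-z.re) ≤ 2 * V ^ 2 * 3 * (w / V ^ 4) :=
    mul_le_mul (mul_le_mul k4 k5 (by have : 0 < z.re := by linarith
                                     positivity) (by positivity)) k3 (by positivity) (by positivity)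
  have k7 := norm_sub_le (∑ n ∈ Ioc 0 (2 ^ (4 * j) : ℕ), (n : ℂ) ^ (-z) +
    ((2 ^ (4 * j) : ℕ) : ℂ) ^ (1 - z) / (z - 1)) (((2 ^ (4 * j) : ℕ) : ℂ) ^ (1 - z) / (z - 1))
  rw [add_sub_cancel_right] at k7
  have k8 : 2 * V ^ 2 * 3 * (w / V ^ 4) + w / (V ^ 2 / 4) ≤ 1 / (2 * V) := by
    have : 2 * V ^ 2 * 3 * (w / V ^ 4) + w / (V ^ 2 / 4) = 10 * w / V ^ 2 := by
      field_simp; ring
    rw [this, div_le_div_iff₀ (by positivity) (by positivity)]
    nlinarith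
  push_cast
  rw [← hV]
  linarith

theorem zz_aux (e : ℝ) (he : 0 < e) (he' : e ≤ 1 / 40) : ∃ C : ℝ, 0 ≤ C ∧ ∀ T : ℝ, 1 ≤ T →
    ∀ (Q : ℕ) [NeZero Q] (ι : Type) [Fintype ι] (ρ : ι → ℂ), Sub (fun _ => (1 : DC Q)) ρ →
      (∀ j, 1 - e / 25 ≤ (ρ j).re ∧ |(ρ j).im| ≤ T) → (Fintype.card ι : ℝ) ≤ C * T ^ e := by
  classical
  obtain ⟨C, hC, hdet⟩ := detect 2 (e / 25) (by norm_num) (by positivity)
  set K0 : ℝ := (2 * (4 ^ 8 : ℕ) + 1) * (7 * Real.log (24 * 1 * ((4 ^ 8 : ℕ) + 5) ^ 2)) with hK0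
  have hK0' : 0 ≤ K0 := mul_nonneg (by positivity) (mul_nonneg (by norm_num)
    (Real.log_nonneg (by norm_num)))
  refine ⟨K0 + C * 77 * 4 ^ 5 * (5040 * (5 / (4 * e)) ^ 7 * 3) * 4, by positivity, ?_⟩
  intro T hT Q _ ι _ ρ hsub hρ
  have hex : ∀ x : ℝ, ∃ j : ℕ, x ≤ 4 ^ j := fun x =>
    (pow_unbounded_of_one_lt x (by norm_num)).imp fun _ h => h.le
  obtain ⟨m, hm1, hm2⟩ : ∃ m : ℕ, T ≤ 4 ^ m ∧ (4 : ℝ) ^ m ≤ 4 * T := by
    refine ⟨Nat.find (hex T), Nat.find_spec (hex T), ?_⟩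
    rcases Nat.eq_zero_or_pos (Nat.find (hex T)) with h | h
    · rw [h]; linarith
    · have := Nat.find_min (hex T) (show Nat.find (hex T) - 1 < Nat.find (hex T) by omega)
      rw [← Nat.sub_add_cancel h, pow_succ]
      linarith [not_le.1 this]
  set I : ℕ → Finset ι := fun j => univ.filter fun i =>
    9 ≤ j ∧ (4 : ℝ) ^ j / 4 < |(ρ i).im| ∧ |(ρ i).im| ≤ 4 ^ j with hI
  have hcov : (univ : Finset ι) ⊆ (univ.filter fun i => |(ρ i).im| ≤ (4 ^ 8 : ℕ)) ∪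
      (range (m + 1)).biUnion I := by
    intro i _
    rw [mem_union, mem_filter, mem_biUnion]
    rcases le_or_gt |(ρ i).im| (4 ^ 8 : ℕ) with h | h
    · exact Or.inl ⟨mem_univ _, h⟩
    refine Or.inr ⟨Nat.find (hex |(ρ i).im|), mem_range.2 (Nat.lt_succ_of_le
      (Nat.find_min' _ ((hρ i).2.trans hm1))), mem_filter.2 ⟨mem_univ _, ?_⟩⟩
    have k1 := Nat.find_spec (hex |(ρ i).im|)
    have k2 : 8 < Nat.find (hex |(ρ i).im|) := by
      have : (4 : ℝ) ^ 8 < 4 ^ Nat.find (hex |(ρ i).im|) := by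
        push_cast at h
        linarith
      exact (pow_lt_pow_iff_right₀ (by norm_num)).1 this
    refine ⟨k2, ?_, k1⟩
    have := Nat.find_min (hex |(ρ i).im|)
      (show Nat.find (hex |(ρ i).im|) - 1 < Nat.find (hex |(ρ i).im|) by omega)
    rw [← Nat.sub_add_cancel (show 1 ≤ Nat.find (hex |(ρ i).im|) by omega), pow_succ]
    linarith [not_le.1 this]
  have hlow := hsub.box 1 (4 ^ 8) (univ.filter fun i => |(ρ i).im| ≤ (4 ^ 8 : ℕ))
    fun i hi => ⟨rfl, by linarith [(hρ i).1], (mem_filter.1 hi).2⟩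
  rw [cd_one, ← hK0] at hlow
  have hI' : ∀ j ∈ range (m + 1), ((I j).card : ℝ) ≤
      C * 77 * 4 ^ 5 * ((m : ℝ) + 1) ^ 6 * (2 : ℝ) ^ (21 / 25 * e * (m : ℝ)) := by
    intro j hj
    have hjm : (j : ℝ) ≤ m := by exact_mod_cast Nat.le_of_lt_succ (mem_range.1 hj)
    rcases lt_or_ge j 9 with h9 | h9
    · have : I j = ∅ := filter_eq_empty_iff.2 fun i _ h => by omega
      rw [this, card_empty, Nat.cast_zero]
      positivity
    have h4 : (1 : ℝ) ≤ 4 ^ j := one_le_pow₀ (by norm_num)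
    have e2 : (4 : ℝ) ^ j = (2 ^ j) ^ 2 := by rw [← pow_mul, mul_comm, pow_mul]; norm_num
    have h := hdet ι (I j) (fun _ => ⟨1, 1⟩) ρ 1 (2 ^ j) (2 ^ (4 * j)) (4 * j) (4 ^ j)
      (77 * (j + 1)) (1 - e / 25) le_rfl Nat.one_le_two_pow
      (Nat.pow_le_pow_right (by norm_num) (by omega)) le_rfl h4 (by positivity) (by linarith)
      (by linarith) (by simp [e2])
      (fun _ _ => mem_PC.2 ⟨le_rfl, le_rfl, DirichletCharacter.isPrimitive_one_level_one⟩)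
      (fun i hi => ⟨(hρ i).1, (hsub.re_lt_one i).le, (mem_filter.1 hi).2.2.2⟩)
      (fun x t => by
        rcases le_or_gt |t| (4 ^ j + 1) with ht | ht
        · refine (hsub.window 1 t _ fun i hi =>
            ⟨rfl, by linarith [(hρ i).1], (mem_filter.1 hi).2.2⟩).trans ?_
          rw [cd_one]
          have k1 : 24 * 1 * (|t| + 5) ^ 2 ≤ (2 : ℝ) ^ (11 + 4 * j) := by
            have k2 : (|t| + 5) ^ 2 ≤ (7 * 4 ^ j) ^ 2 :=
              pow_le_pow_left₀ (by positivity) (by linarith) 2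
            have k3 : (2 : ℝ) ^ (11 + 4 * j) = 2048 * (4 ^ j) ^ 2 := by
              rw [pow_add, e2, ← pow_mul, ← pow_mul, mul_comm 4 j]; norm_num
            nlinarith [sq_nonneg ((4 : ℝ) ^ j)]
          have k4 := Real.log_le_log (by positivity) k1
          rw [Real.log_pow] at k4
          push_cast at k4
          have k5 := Real.log_two_lt_d9
          have k6 : (0 : ℝ) ≤ j := Nat.cast_nonneg j
          nlinarith
        · rw [filter_eq_empty_iff.2, card_empty, Nat.cast_zero]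
          · positivity
          · rintro i hi ⟨-, h1⟩
            have k1 := (mem_filter.1 hi).2.2.2
            have k2 := abs_sub_abs_le_abs_sub t (ρ i).im
            rw [abs_sub_comm] at k2
            linarith)
      (fun i hi => by
        have k1 := hsub.zero i
        rw [Lp_one] at k1
        have k2 := zz_small k1 (by linarith [(hρ i).1]) (hsub.re_lt_one i) h9 (mem_filter.1 hi).2.2.1
          (mem_filter.1 hi).2.2.2
        refine le_trans (le_of_eq (congrArg norm (sum_congr rfl fun n _ => ?_))) k2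
        rw [MulChar.one_apply (isUnit_of_subsingleton _), one_mul])
    refine h.trans ?_
    have e3 : ((4 : ℝ) ^ j * (((1 : ℕ) : ℝ) ^ 2 * (1 + Real.log (1 : ℕ))) *
        (((2 ^ j : ℕ) : ℝ) * 2 ^ (4 * j))) ^ (2 - 2 * (1 - e / 25) + e / 25 : ℝ) =
        (2 : ℝ) ^ (21 / 25 * e * (j : ℝ)) := by
      have : (4 : ℝ) ^ j * (((1 : ℕ) : ℝ) ^ 2 * (1 + Real.log (1 : ℕ))) *
          (((2 ^ j : ℕ) : ℝ) * 2 ^ (4 * j)) = 2 ^ (7 * j) := by
        rw [e2]; push_cast; rw [Real.log_one]; ring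
      rw [this, ← Real.rpow_natCast, ← Real.rpow_mul (by norm_num)]
      congr 1
      push_cast; ring
    rw [e3]
    have e4 : (((4 * j : ℕ) : ℝ) + 1) ^ (2 * 2 + 1) ≤ (4 * ((m : ℝ) + 1)) ^ 5 :=
      pow_le_pow_left₀ (by positivity) (by push_cast; linarith) _
    have e5 : (2 : ℝ) ^ (21 / 25 * e * (j : ℝ)) ≤ (2 : ℝ) ^ (21 / 25 * e * (m : ℝ)) :=
      Real.rpow_le_rpow_of_exponent_le (by norm_num)
        (mul_le_mul_of_nonneg_left hjm (by positivity))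
    calc _ ≤ C * (77 * ((m : ℝ) + 1)) * (4 * ((m : ℝ) + 1)) ^ 5 *
          (2 : ℝ) ^ (21 / 25 * e * (m : ℝ)) := by gcongr
      _ = _ := by ring
  have h1 : (Fintype.card ι : ℝ) ≤ ((univ.filter fun i => |(ρ i).im| ≤ (4 ^ 8 : ℕ)).card : ℝ) +
      ∑ j ∈ range (m + 1), ((I j).card : ℝ) := by
    have := (card_le_card hcov).trans ((card_union_le _ _).trans
      (Nat.add_le_add_left card_biUnion_le _))
    rw [card_univ] at this
    exact_mod_cast this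
  have h2 := sum_le_card_nsmul _ _ _ hI'
  rw [card_range, nsmul_eq_mul] at h2
  push_cast at h2
  have h3 : ((m : ℝ) + 1) ^ 7 ≤ 5040 * (5 / (4 * e)) ^ 7 * 3 * (2 : ℝ) ^ (29 / 25 * e * (m : ℝ)) := by
    have k1 := Real.pow_div_factorial_le_exp (((m : ℝ) + 1) / (5 / (4 * e))) (by positivity) 7
    have k2 : Real.exp (((m : ℝ) + 1) / (5 / (4 * e))) ≤
        3 * (2 : ℝ) ^ (29 / 25 * e * (m : ℝ)) := by
      rw [show ((m : ℝ) + 1) / (5 / (4 * e)) = 4 * e / 5 + 4 * e / 5 * m by field_simp; ring,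
        Real.exp_add, Real.rpow_def_of_pos (by norm_num)]
      refine mul_le_mul ?_ (Real.exp_le_exp.2 ?_) (by positivity) (by norm_num)
      · exact (Real.exp_le_exp.2 (by linarith)).trans (Real.exp_one_lt_d9.le.trans (by norm_num))
      · nlinarith [Real.log_two_gt_d9, mul_nonneg he.le (Nat.cast_nonneg (α := ℝ) m)]
    rw [div_pow, show ((Nat.factorial 7 : ℕ) : ℝ) = 5040 by norm_num [Nat.factorial],
      div_div, div_le_iff₀ (by positivity)] at k1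
    refine k1.trans ((mul_le_mul_of_nonneg_right k2 (by positivity)).trans (le_of_eq ?_))
    ring
  have h4 : (2 : ℝ) ^ (29 / 25 * e * (m : ℝ)) * (2 : ℝ) ^ (21 / 25 * e * (m : ℝ)) ≤
      4 * T ^ e := by
    have k1 : (2 : ℝ) ^ (29 / 25 * e * (m : ℝ)) * (2 : ℝ) ^ (21 / 25 * e * (m : ℝ)) =
        ((4 : ℝ) ^ m) ^ e := by
      rw [← Real.rpow_add (by norm_num), show (4 : ℝ) = 2 ^ 2 by norm_num, ← pow_mul,
        ← Real.rpow_natCast, ← Real.rpow_mul (by norm_num)]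
      congr 1
      push_cast; ring
    rw [k1]
    refine (Real.rpow_le_rpow (by positivity) hm2 he.le).trans ?_
    rw [Real.mul_rpow (by norm_num) (by linarith)]
    refine mul_le_mul_of_nonneg_right ?_ (by positivity)
    exact (Real.rpow_le_rpow_of_exponent_le (by norm_num) (by linarith)).trans_eq (Real.rpow_one 4)
  have h5 : 1 ≤ T ^ e := Real.one_le_rpow hT he.le
  have h6 : ((m : ℝ) + 1) * (C * 77 * 4 ^ 5 * ((m : ℝ) + 1) ^ 6 * (2 : ℝ) ^ (21 / 25 * e * (m : ℝ))) ≤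
      C * 77 * 4 ^ 5 * (5040 * (5 / (4 * e)) ^ 7 * 3) * 4 * T ^ e := by
    calc _ = C * 77 * 4 ^ 5 * (((m : ℝ) + 1) ^ 7 * (2 : ℝ) ^ (21 / 25 * e * (m : ℝ))) := by ring
      _ ≤ C * 77 * 4 ^ 5 * (5040 * (5 / (4 * e)) ^ 7 * 3 * (2 : ℝ) ^ (29 / 25 * e * (m : ℝ)) *
          (2 : ℝ) ^ (21 / 25 * e * (m : ℝ))) := by gcongr
      _ = C * 77 * 4 ^ 5 * (5040 * (5 / (4 * e)) ^ 7 * 3) * ((2 : ℝ) ^ (29 / 25 * e * (m : ℝ)) *
          (2 : ℝ) ^ (21 / 25 * e * (m : ℝ))) := by ring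
      _ ≤ C * 77 * 4 ^ 5 * (5040 * (5 / (4 * e)) ^ 7 * 3) * (4 * T ^ e) := by gcongr
      _ = _ := by ring
  have h7 := le_mul_of_one_le_right hK0' h5
  rw [add_mul]
  linarith

/-- The count holds with every positive exponent. -/
theorem zz_gen (e : ℝ) (he : 0 < e) : ∃ d0 C : ℝ, 0 < d0 ∧ 0 ≤ C ∧ ∀ T : ℝ, 1 ≤ T →
    ∀ (Q : ℕ) [NeZero Q] (ι : Type) [Fintype ι] (ρ : ι → ℂ), Sub (fun _ => (1 : DC Q)) ρ →
      (∀ j, 1 - d0 ≤ (ρ j).re ∧ |(ρ j).im| ≤ T) → (Fintype.card ι : ℝ) ≤ C * T ^ e := by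
  have h0 : 0 < min e (1 / 40) := lt_min he (by norm_num)
  obtain ⟨C, hC, h⟩ := zz_aux _ h0 (min_le_right _ _)
  exact ⟨min e (1 / 40) / 25, C, by positivity, hC, fun T hT Q _ ι _ ρ h1 h2 =>
    (h T hT Q ι ρ h1 h2).trans (mul_le_mul_of_nonneg_left
      (Real.rpow_le_rpow_of_exponent_le hT (min_le_left _ _)) hC)⟩

theorem zz : ZZ := by
  obtain ⟨d0, C, h1, -, h2⟩ := zz_gen (1 / 40) (by norm_num)
  exact ⟨d0, C, h1, h2⟩

end Pool.Agent.Lib.MP_778b46_nt.GX
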