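import Pool.Agent.Lib.MP_778b46_nt.GX.AsDef
import Pool.Agent.Lib.MP_778b46_nt.GX.Z4z

set_option autoImplicit false

noncomputable section

namespace Pool.Agent.Lib.MP_778b46_nt.GX

open Finset Filter
open scoped Classical

/-! The density estimates. -/

theorem as7_m {p : MP} {ph ph' : ℝ} (h : p.ok ph ph') (h0 : 0 ≤ ph) : ∃ A : ℝ, 0 ≤ A ∧
    ∀ l : ℝ, 0 ≤ l → Real.exp (-(2 * p.x1 * l)) ≤ A * p.m ph 0 l := by
  obtain ⟨hw, -, h1, h2, h3, h4, h5, hs⟩ := h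
  have d1 : 0 < p.x1 - p.x0 := sub_pos.2 h5
  have d2 : 0 < p.u1 - p.u0 := sub_pos.2 h1
  have d3 : 0 < Real.exp (p.sg * p.v) - Real.exp (p.sg * p.u) :=
    sub_pos.2 (Real.exp_lt_exp.2 (mul_lt_mul_of_pos_left h3 hs))
  refine ⟨(2 / (p.x1 - p.x0) + 2 / (p.u1 - p.u0)) * Real.exp (p.sg * p.x1) * (ph / 2 + 1 / p.sg) /
    (p.w * p.sg * (Real.exp (p.sg * p.v) - Real.exp (p.sg * p.u))), by positivity, fun l hl => ?_⟩
  have hb : 0 ≤ p.sg + 2 * l := by positivity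
  have e1 : ∀ y, y ≤ p.x1 → Real.exp ((p.sg + 2 * l) * y) ≤ Real.exp ((p.sg + 2 * l) * p.x1) :=
    fun y hy => Real.exp_le_exp.2 (mul_le_mul_of_nonneg_left hy hb)
  have hE0 : 0 < p.E (p.sg + 2 * l) := by
    unfold MP.E
    positivity
  have hE : p.E (p.sg + 2 * l) ≤
      (2 / (p.x1 - p.x0) + 2 / (p.u1 - p.u0)) * Real.exp ((p.sg + 2 * l) * p.x1) := by
    unfold MP.E
    rw [add_mul (2 / (p.x1 - p.x0)), div_mul_eq_mul_div, div_mul_eq_mul_div]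
    refine add_le_add (div_le_div_of_nonneg_right ?_ d1.le) (div_le_div_of_nonneg_right ?_ d2.le)
    · linarith [e1 p.x0 h5.le]
    · linarith [e1 p.u1 (by linarith), e1 p.u0 (by linarith)]
  have hD : ph / 2 + 1 / (p.sg + l) ≤ ph / 2 + 1 / p.sg :=
    add_le_add le_rfl (one_div_le_one_div_of_le hs (by linarith))
  have hm : p.w * p.sg * (Real.exp (p.sg * p.v) - Real.exp (p.sg * p.u)) /
      ((2 / (p.x1 - p.x0) + 2 / (p.u1 - p.u0)) * Real.exp ((p.sg + 2 * l) * p.x1) *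
        (ph / 2 + 1 / p.sg)) ≤ p.m ph 0 l := by
    unfold MP.m
    refine div_le_div₀ (by positivity) ?_ (by positivity)
      (mul_le_mul hE hD (by positivity) (by positivity))
    exact mul_le_mul_of_nonneg_right (mul_le_mul_of_nonneg_left (by linarith) hw.le) d3.le
  refine le_trans (le_of_eq ?_) (mul_le_mul_of_nonneg_left hm (by positivity))
  rw [add_mul p.sg, Real.exp_add, show 2 * l * p.x1 = 2 * p.x1 * l by ring, Real.exp_neg]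
  field_simp

theorem as7_one (hM : MOL (1 / 3)) (p : MP) {ph' f : ℝ} (h : p.ok (17 / 50) ph') (hf : 0 ≤ f)
    (hf' : f * (1 / 3) < ph') : ∃ η ε2 A P0 : ℝ, 0 < η ∧ 0 < ε2 ∧ ∀ P : ℝ, P0 ≤ P → 1 ≤ P →
    ∀ (Q : ℕ) [NeZero Q] (ι : Type) [Fintype ι] (χ : ι → DC Q) (ρ : ι → ℂ), Sub χ ρ →
      (∀ j, cd (χ j) ≤ P ∧ lam P (ρ j) ≤ ε2 * Real.log P ∧ |(ρ j).im| ≤ P ^ η) →
      ∀ S : Finset ι, (∀ i ∈ S, χ i ≠ 1) → (∀ i ∈ S, ∀ j ∈ S, cd (χ i / χ j) ≤ P ^ f) →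
        ∑ i ∈ S, Real.exp (-(2 * p.x1 * lam P (ρ i))) ≤ A := by
  obtain ⟨η, ε2, P0, h1, h2, h3⟩ := hM p (17 / 50) ph' f 1 h (by norm_num) hf hf' one_pos
  obtain ⟨A, hA, h4⟩ := as7_m h (by norm_num)
  refine ⟨η, ε2, A * (1 + 1), P0, h1, h2, fun P hP hP1 Q _ ι _ χ ρ hs hb S hS hc => ?_⟩
  have h5 := h3 P hP Q {i // i ∈ S} _ _ 0 (hs.subtype (· ∈ S)) le_rfl
    (fun j => ⟨hS _ j.2, (hb _).1, hs.lam_nonneg hP1 _, (hb _).2⟩) fun j k => hc _ j.2 _ k.2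
  rw [sum_coe_sort S fun i => p.m (17 / 50) 0 (lam P (ρ i))] at h5
  refine (sum_le_sum fun i _ => h4 _ (hs.lam_nonneg hP1 i)).trans ?_
  rw [← mul_sum]
  exact mul_le_mul_of_nonneg_left h5 hA

/-- `MOL` twice on the subtype of `S` (`Sub.subtype`) with `lmin = 0`, `ph = 17 / 50`, `sg = 1`, `w = 1 / 100`,
`ε1 = 1`. For `f = 2`: `ph' = 0.68`, `u0, u1, u, v, x0, x1 = 0.70, 0.71, 0.72, 0.73, 1.08, 1.09`
(`cd_mul_le`, `cd_inv`). For `f = 1 / 100`: `w = 0.001`, `ph' = 0.004` and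
`0.006, 0.007, 0.008, 0.009, 0.35, 0.355`. One has `exp (-(2 x1 l)) ≤ A' * m l` for `l ≥ 0`. -/
theorem mol_exp (hM : MOL (1 / 3)) : ∃ η ε2 A P0 : ℝ, 0 < η ∧ 0 < ε2 ∧ 1 ≤ A ∧ ∀ P : ℝ, P0 ≤ P →
    ∀ (Q : ℕ) [NeZero Q] (ι : Type) [Fintype ι] (χ : ι → DC Q) (ρ : ι → ℂ), Sub χ ρ →
      (∀ j, cd (χ j) ≤ P ∧ lam P (ρ j) ≤ ε2 * Real.log P ∧ |(ρ j).im| ≤ P ^ η) →
      ∀ S : Finset ι, (∀ i ∈ S, χ i ≠ 1) →
        ∑ i ∈ S, Real.exp (-(109 / 50 * lam P (ρ i))) ≤ A ∧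
        ((∀ i ∈ S, ∀ j ∈ S, cd (χ i / χ j) ≤ P ^ (1 / 100 : ℝ)) →
          ∑ i ∈ S, Real.exp (-(71 / 100 * lam P (ρ i))) ≤ A) := by
  obtain ⟨η1, ε1, A1, P1, a1, a2, a3⟩ := as7_one hM
    ⟨1 / 100, 70 / 100, 71 / 100, 72 / 100, 73 / 100, 108 / 100, 109 / 100, 1⟩ (ph' := 68 / 100)
    (f := 2) (by unfold MP.ok; norm_num) (by norm_num) (by norm_num)
  obtain ⟨η2, ε2, A2, P2, b1, b2, b3⟩ := as7_one hM
    ⟨1 / 1000, 6 / 1000, 7 / 1000, 8 / 1000, 9 / 1000, 35 / 100, 71 / 200, 1⟩ (ph' := 4 / 1000)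
    (f := 1 / 100) (by unfold MP.ok; norm_num) (by norm_num) (by norm_num)
  refine ⟨min η1 η2, min ε1 ε2, max 1 (max A1 A2), max 1 (max P1 P2), lt_min a1 b1, lt_min a2 b2,
    le_max_left _ _, fun P hP Q _ ι _ χ ρ hs hb S hS => ?_⟩
  obtain ⟨c1, c2⟩ := max_le_iff.1 hP
  obtain ⟨c2, c3⟩ := max_le_iff.1 c2
  have hl := Real.log_nonneg c1
  refine ⟨le_trans (le_of_eq ?_) ((a3 P c2 c1 Q ι χ ρ hs (fun j => ⟨(hb j).1, (hb j).2.1.trans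
      (mul_le_mul_of_nonneg_right (min_le_left _ _) hl), (hb j).2.2.trans
      (Real.rpow_le_rpow_of_exponent_le c1 (min_le_left _ _))⟩) S hS fun i _ j _ => ?_).trans
      ((le_max_left _ _).trans (le_max_right _ _))),
    fun hc => le_trans (le_of_eq ?_) ((b3 P c3 c1 Q ι χ ρ hs (fun j => ⟨(hb j).1, (hb j).2.1.trans
      (mul_le_mul_of_nonneg_right (min_le_right _ _) hl), (hb j).2.2.trans
      (Real.rpow_le_rpow_of_exponent_le c1 (min_le_right _ _))⟩) S hS hc).trans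
      ((le_max_right _ _).trans (le_max_right _ _)))⟩
  · norm_num
  · rw [div_eq_mul_inv, Real.rpow_two, sq]
    refine (cd_mul_le _ _).trans ?_
    rw [cd_inv]
    exact mul_le_mul (hb i).1 (hb j).1 (cd_pos _).le (by linarith)
  · norm_num

/-- `zz_gen` on subtypes; dyadic blocks `2 ^ k ≤ 1 + |γ| < 2 ^ (k + 1)` have at most
`C 2 ^ ((k + 1) / 40)` entries, and `∑ 2 ^ ((k + 1) / 40 - k / 8)` converges. -/
theorem zeta_sums {e : ℝ} (he : 0 < e) (he' : e ≤ 1 / 40) : ∃ d0 A : ℝ, 0 < d0 ∧ 1 ≤ A ∧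
    ∀ (Q : ℕ) [NeZero Q] (ι : Type) [Fintype ι] (χ : ι → DC Q) (ρ : ι → ℂ), Sub χ ρ →
      (∀ j, 1 - d0 ≤ (ρ j).re) → ∑ i ∈ PP χ, (1 + |(ρ i).im|) ^ (-(1 / 8) : ℝ) ≤ A ∧
        ∀ T : ℝ, 1 ≤ T → (∀ j, |(ρ j).im| ≤ T) → ((PP χ).card : ℝ) ≤ A * T ^ e := by
  obtain ⟨d0, C, h1, h2, h3⟩ := zz_gen e he
  have hr0 : (0 : ℝ) ≤ 2 ^ (-(1 / 10) : ℝ) := by positivity
  have hr1 : (2 : ℝ) ^ (-(1 / 10) : ℝ) < 1 :=
    Real.rpow_lt_one_of_one_lt_of_neg (by norm_num) (by norm_num)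
  refine ⟨d0, max 1 (max C (C * 2 ^ (1 / 40 : ℝ) * (1 - 2 ^ (-(1 / 10) : ℝ))⁻¹)), h1,
    le_max_left _ _, fun Q _ ι _ χ ρ hs hb => ?_⟩
  have key : ∀ (S : Finset ι) (T : ℝ), 1 ≤ T → (∀ i ∈ S, χ i = 1 ∧ |(ρ i).im| ≤ T) →
      (S.card : ℝ) ≤ C * T ^ e := by
    intro S T hT hS
    have h4 := hs.subtype (· ∈ S)
    rw [show (fun i : {i // i ∈ S} => χ i.1) = fun _ => 1 from funext fun i => (hS _ i.2).1] at h4
    have h5 := h3 T hT Q {i // i ∈ S} _ h4 fun j => ⟨hb _, (hS _ j.2).2⟩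
    rwa [Fintype.card_coe] at h5
  have pp : ∀ i, i ∈ PP χ → χ i = 1 := fun i hi => by simpa [PP] using hi
  refine ⟨?_, fun T hT hh => (key _ T hT fun i hi => ⟨pp i hi, hh i⟩).trans
    (mul_le_mul_of_nonneg_right ((le_max_left _ _).trans (le_max_right _ _)) (by positivity))⟩
  refine le_trans ?_ ((le_max_right _ _).trans (le_max_right _ _))
  rw [← sum_fiberwise_of_maps_to (g := fun i => Nat.log 2 ⌊1 + |(ρ i).im|⌋₊)
    (t := (PP χ).image fun i => Nat.log 2 ⌊1 + |(ρ i).im|⌋₊)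
    fun i hi => mem_image_of_mem (fun i => Nat.log 2 ⌊1 + |(ρ i).im|⌋₊) hi,
    ← tsum_geometric_of_lt_one hr0 hr1]
  refine le_trans ?_ (mul_le_mul_of_nonneg_left ((summable_geometric_of_lt_one hr0 hr1).sum_le_tsum
    ((PP χ).image fun i => Nat.log 2 ⌊1 + |(ρ i).im|⌋₊) fun _ _ => by positivity) (by positivity))
  rw [mul_sum]
  refine sum_le_sum fun k _ => ?_
  have h6 : ∀ i ∈ (PP χ).filter (fun i => Nat.log 2 ⌊1 + |(ρ i).im|⌋₊ = k),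
      (2 : ℝ) ^ k ≤ 1 + |(ρ i).im| ∧ |(ρ i).im| ≤ 2 ^ (k + 1) := by
    intro i hi
    have a0 := abs_nonneg (ρ i).im
    have a1 : 1 ≤ ⌊1 + |(ρ i).im|⌋₊ := Nat.le_floor (by push_cast; linarith)
    have a2 := Nat.pow_log_le_self 2 (show ⌊1 + |(ρ i).im|⌋₊ ≠ 0 by omega)
    have a3 := Nat.lt_pow_succ_log_self (show 1 < 2 by norm_num) ⌊1 + |(ρ i).im|⌋₊
    rw [(mem_filter.1 hi).2] at a2 a3
    have a4 : (2 : ℝ) ^ k ≤ ⌊1 + |(ρ i).im|⌋₊ := by exact_mod_cast a2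
    have a5 : (⌊1 + |(ρ i).im|⌋₊ : ℝ) ≤ 2 ^ (k + 1) := by exact_mod_cast a3.le
    have a6 := Nat.floor_le (show 0 ≤ 1 + |(ρ i).im| by linarith)
    have a7 := Nat.lt_floor_add_one (1 + |(ρ i).im|)
    exact ⟨by linarith, by linarith⟩
  have hT : (1 : ℝ) ≤ 2 ^ (k + 1) := one_le_pow₀ (by norm_num)
  have h7 := (key _ _ hT fun i hi => ⟨pp _ (mem_filter.1 hi).1, (h6 i hi).2⟩).trans
    (mul_le_mul_of_nonneg_left (Real.rpow_le_rpow_of_exponent_le hT he') h2)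
  refine (sum_le_card_nsmul _ _ (((2 : ℝ) ^ k) ^ (-(1 / 8) : ℝ)) fun i hi =>
    Real.rpow_le_rpow_of_nonpos (by positivity) (h6 i hi).1 (by norm_num)).trans ?_
  rw [nsmul_eq_mul]
  refine (mul_le_mul_of_nonneg_right h7 (by positivity)).trans (le_of_eq ?_)
  rw [mul_assoc, mul_assoc, ← Real.rpow_natCast, ← Real.rpow_natCast, ← Real.rpow_natCast,
    ← Real.rpow_mul (by norm_num), ← Real.rpow_mul (by norm_num), ← Real.rpow_mul (by norm_num),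
    ← Real.rpow_add (by norm_num), ← Real.rpow_add (by norm_num)]
  congr 2
  push_cast
  ring

end Pool.Agent.Lib.MP_778b46_nt.GX
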