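import Pool.Agent.Lib.MP_778b46_nt.GX.Basic
import Pool.Agent.Lib.MP_e97e2b_nt.Ln.A2b
import Pool.Agent.Lib.MP_e97e2b_nt.Siegel
import Pool.Agent.Lib.MP_e97e2b_nt.Euler1

/- Zero-free regions for bounded conductor, and the theorem of Siegel. -/

namespace Pool.Agent.Lib.MP_778b46_nt.GX

open Finset Filter Topology
open Pool.Agent.Lib.MP_e97e2b_nt
open Pool.Agent.Lib.MP_e97e2b_nt.Ln (lfun_tendsto lfun_upper a2a_bound)

theorem zf_one {q : ℕ} [NeZero q] (ψ : DC q) (Y : ℝ) : ∀ᶠ c in 𝓝[>] (0 : ℝ), ∀ z : ℂ,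
    |z.im| ≤ Y → 1 - c ≤ z.re → Lf ψ z ≠ 0 := by
  have hF := finite_zeros_of_diff (Lf_diff ψ) (Lf_ne_zero ψ (by simp)) (1 + Y)
  have h1 : ∀ᶠ c in 𝓝[>] (0 : ℝ), ∀ z ∈ {z : ℂ | ‖z‖ ≤ 1 + Y ∧ Lf ψ z = 0}, c < 1 - z.re := by
    refine (eventually_all_finite hF).2 fun z hz => mem_nhdsWithin_of_mem_nhds (Iio_mem_nhds ?_)
    exact sub_pos.2 (not_le.1 fun h => Lf_ne_zero ψ h hz.2)
  filter_upwards [h1, mem_nhdsWithin_of_mem_nhds (Iio_mem_nhds one_pos)] with c a1 a2 z b1 b2 b3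
  have a3 : z.re < 1 := not_le.1 fun h => Lf_ne_zero ψ h b3
  have a4 : |z.re| ≤ 1 := abs_le.2 ⟨by linarith [Set.mem_Iio.1 a2], a3.le⟩
  linarith [a1 z ⟨by linarith [Complex.norm_le_abs_re_add_abs_im z], b3⟩]

theorem zfs : ZFS := by
  intro R Y
  have h1 : ∀ᶠ c in 𝓝[>] (0 : ℝ), ∀ k ∈ range ⌊R⌋₊, ∀ ψ : DC (k + 1), ∀ z : ℂ,
      |z.im| ≤ Y → 1 - c ≤ z.re → Lf ψ z ≠ 0 :=
    (eventually_all_finset _).2 fun k _ => eventually_all.2 fun ψ => zf_one ψ Y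
  obtain ⟨c, h2, h3⟩ := (h1.and self_mem_nhdsWithin).exists
  refine ⟨c, h3, fun Q _ ξ z a1 a2 a3 => (ord_eq_zero_iff ξ z).2 ?_⟩
  have key : ∀ (q : ℕ) [NeZero q] (ψ : DC q), q ≤ ⌊R⌋₊ → Lf ψ z ≠ 0 := by
    intro q _ ψ hq
    obtain ⟨k, rfl⟩ := Nat.exists_eq_succ_of_ne_zero (NeZero.ne q)
    exact h2 k (mem_range.2 hq) ψ z a2 a3
  exact key _ _ (Nat.le_floor a1)

/-- The local power series of an arithmetic function. -/
noncomputable def sgLoc (p : ℕ) (F : ArithmeticFunction ℝ) : PowerSeries ℝ :=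
  PowerSeries.mk fun k => F (p ^ k)

theorem sgLoc_mul {p : ℕ} (hp : p.Prime) (F G : ArithmeticFunction ℝ) :
    sgLoc p (F * G) = sgLoc p F * sgLoc p G := by
  ext k
  simp only [sgLoc, PowerSeries.coeff_mul, PowerSeries.coeff_mk, ArithmeticFunction.mul_apply]
  rw [Nat.sum_divisorsAntidiagonal fun a b => F a * G b, Nat.sum_divisors_prime_pow hp,
    Nat.sum_antidiagonal_eq_sum_range_succ fun a b => F (p ^ a) * G (p ^ b)]
  refine sum_congr rfl fun j hj => ?_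
  rw [Nat.pow_div (Nat.lt_succ_iff.1 (mem_range.1 hj)) hp.pos]

/-- The constant function one. -/
noncomputable def sgZ : ArithmeticFunction ℝ := (ArithmeticFunction.zeta : ArithmeticFunction ℕ)

theorem sgZ_apply {n : ℕ} (hn : n ≠ 0) : sgZ n = 1 := by
  simp [sgZ, ArithmeticFunction.natCoe_apply, ArithmeticFunction.zeta_apply, hn]

theorem sgZ_mult : sgZ.IsMultiplicative := ArithmeticFunction.isMultiplicative_zeta.natCast

theorem sgLoc_z {p : ℕ} (hp : p.Prime) : sgLoc p sgZ = eu_geo 1 := by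
  ext k
  simp [sgLoc, eu_geo, sgZ_apply (pow_ne_zero k hp.ne_zero)]

theorem sgLoc_tw {p : ℕ} (hp : p.Prime) {f : ℕ → ℝ} (hf : eu_CM f) :
    sgLoc p (tw sgZ f) = eu_geo (f p) := by
  ext k
  simp [sgLoc, eu_geo, sgZ_apply (pow_ne_zero k hp.ne_zero), hf.pow]

theorem sg_tw_mult {f : ℕ → ℝ} (hf : eu_CM f) : (tw sgZ f).IsMultiplicative :=
  ⟨by rw [tw_apply, sgZ_mult.1, hf.one, mul_one], fun h => by
    rw [tw_apply, tw_apply, tw_apply, sgZ_mult.2 h, hf.mul]; ring⟩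

theorem sg_pos {F : ArithmeticFunction ℝ} (hF : F.IsMultiplicative)
    (h : ∀ p, p.Prime → eu_NN (sgLoc p F)) (n : ℕ) : 0 ≤ F n := by
  rcases eq_or_ne n 0 with rfl | hn
  · simp
  · rw [ArithmeticFunction.IsMultiplicative.multiplicative_factorization F hF hn]
    refine prod_nonneg fun p hp => ?_
    simpa [sgLoc] using h p (Nat.prime_of_mem_primeFactors hp) (n.factorization p)

theorem sg_Sm (f : ℕ → ℝ) (x : ℝ) : Sm (tw sgZ f) x = ∑ n ∈ Ioc 0 ⌊x⌋₊, f n :=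
  sum_congr rfl fun n hn => by rw [tw_apply, sgZ_apply (mem_Ioc.1 hn).1.ne', one_mul]

theorem sg_sum_le {q : ℕ} [NeZero q] (ξ : DC q) (hξ : ξ ≠ 1) (M : ℕ) :
    ‖∑ n ∈ Ioc 0 M, ξ (n : ZMod q)‖ ≤ q := by
  have h := a2a_bound ξ hξ M
  rwa [← Nat.Ico_zero_eq_range, Finset.sum_Ico_add' (fun n : ℕ => ξ (n : ZMod q)) 0 M 1,
    Finset.Ico_add_one_add_one_eq_Ioc] at h

theorem sg_sum_real {q : ℕ} [NeZero q] (ξ : DC q) (hξ : ξ ≠ 1) (f : ℕ → ℝ)
    (hf : ∀ n : ℕ, ξ n = f n) (M : ℕ) : |∑ n ∈ Ioc 0 M, f n| ≤ q := by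
  have h := sg_sum_le ξ hξ M
  simp only [hf] at h
  rwa [← Complex.ofReal_sum, Complex.norm_real, Real.norm_eq_abs] at h

theorem sg_val {q : ℕ} {ψ : DC q} (h : ψ * ψ = 1) (a : ZMod q) :
    ψ a = 0 ∨ ψ a = 1 ∨ ψ a = -1 := by
  by_cases ha : IsUnit a
  · have h1 : ψ a * ψ a = 1 := by rw [← MulChar.mul_apply, h, MulChar.one_apply ha]
    exact Or.inr (mul_self_eq_one_iff.1 h1)
  · exact Or.inl (ψ.map_nonunit ha)

theorem sg_prod {l l' : ℕ} [NeZero l] [NeZero l'] {ψ : DC l} {ψ' : DC l'} (h : ψ.IsPrimitive)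
    (h' : ψ'.IsPrimitive) (hne : l ≠ l') :
    ∃ ξ : DC (l * l'), ξ ≠ 1 ∧ ∀ n : ℕ, ξ n = ψ n * ψ' n := by
  refine ⟨DirichletCharacter.changeLevel (dvd_mul_right l l') ψ *
    DirichletCharacter.changeLevel (dvd_mul_left l' l) ψ', fun e => hne ?_, fun n => ?_⟩
  · have := congrArg DirichletCharacter.conductor (eq_inv_of_mul_eq_one_left e)
    rwa [DirichletCharacter.conductor_inv, DirichletCharacter.conductor_changeLevel,
      DirichletCharacter.conductor_changeLevel, h, h'] at this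
  · by_cases hn : n.Coprime (l * l')
    · have h1 : IsCoprime (n : ℤ) ((l * l' : ℕ) : ℤ) := Nat.isCoprime_iff_coprime.2 hn
      have h2 := ψ.changeLevel_eq_cast_of_dvd' (dvd_mul_right l l') h1
      have h3 := ψ'.changeLevel_eq_cast_of_dvd' (dvd_mul_left l' l) h1
      simp only [Int.cast_natCast] at h2 h3
      rw [MulChar.mul_apply, h2, h3]
    · rw [MulChar.map_nonunit _ (mt (ZMod.isUnit_iff_coprime n _).1 hn)]
      rw [Nat.coprime_mul_iff_right, not_and_or] at hn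
      rcases hn with hn | hn
      · rw [ψ.map_nonunit (mt (ZMod.isUnit_iff_coprime n _).1 hn), zero_mul]
      · rw [ψ'.map_nonunit (mt (ZMod.isUnit_iff_coprime n _).1 hn), mul_zero]

/-- Siegel's lower bound for the value at one. -/
theorem siegel_L (C δ : ℝ) (hδ : 0 < δ) : {l : ℕ | ∃ (_ : NeZero l) (ψ : DC l), ψ.IsPrimitive ∧
    ψ * ψ = 1 ∧ ψ ≠ 1 ∧ ‖ψ.LFunction 1‖ ≤ C * (l : ℝ) ^ (-δ)}.Finite := by
  by_contra hS
  set S := {l : ℕ | ∃ (_ : NeZero l) (ψ : DC l), ψ.IsPrimitive ∧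
    ψ * ψ = 1 ∧ ψ ≠ 1 ∧ ‖ψ.LFunction 1‖ ≤ C * (l : ℝ) ^ (-δ)} with hSd
  have h0 : ∀ l : ℕ, ∃ f : ℕ → ℝ, eu_CM f ∧ (∀ n, f n = 0 ∨ f n = 1 ∨ f n = -1) ∧
      (l ∈ S → ∃ (_ : NeZero l) (ψ : DC l), ψ.IsPrimitive ∧ ψ ≠ 1 ∧ (∀ n : ℕ, ψ n = f n) ∧
        ‖ψ.LFunction 1‖ ≤ C * (l : ℝ) ^ (-δ)) := by
    intro l
    by_cases hl : l ∈ S
    · obtain ⟨i, ψ, a1, a2, a3, a4⟩ := hl
      have e : ∀ n : ℕ, ψ n = ((ψ n).re : ℝ) := fun n => by
        rcases sg_val a2 n with h | h | h <;> simp [h]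
      refine ⟨fun n => (ψ n).re, ⟨by simp, fun a b => ?_⟩, fun n => ?_,
        fun _ => ⟨i, ψ, a1, a3, e, a4⟩⟩
      · apply Complex.ofReal_injective
        rw [Complex.ofReal_mul, ← e, ← e, ← e, Nat.cast_mul, map_mul]
      · rcases sg_val a2 n with h | h | h <;> simp [h]
    · exact ⟨fun _ => 1, ⟨rfl, fun _ _ => by simp⟩, fun _ => by simp, fun h => absurd h hl⟩
  choose f hcm hca hf using h0
  have hx1 : ∀ x : ℝ, 1 ≤ x → 1 ≤ x ^ (1 - 1 / 2 : ℝ) := fun x hx =>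
    Real.one_le_rpow hx (by norm_num)
  have hC0 := abs_nonneg C
  refine siegel sgZ 1 (1 / 2) (|C| + 1) δ one_pos (by norm_num) le_rfl hδ f S hS (fun n => ?_)
    (sgZ_apply one_ne_zero) (fun l n => ?_) (fun l => (hcm l).one) (fun x hx => ?_)
    (fun l hl x hx => ?_) (fun l hl l' hl' hne x hx => ?_) (fun l hl => ?_)
    (fun l hl l' hl' => ?_) fun l hl => ?_
  · rcases eq_or_ne n 0 with rfl | hn
    · simp
    · rw [sgZ_apply hn]; exact zero_le_one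
  · rcases hca l n with h | h | h <;> simp [h]
  · have h1 : Sm sgZ x = ⌊x⌋₊ := by
      rw [Sm, sum_congr rfl fun n hn => sgZ_apply (mem_Ioc.1 hn).1.ne']
      simp
    have h2 := Nat.floor_le (zero_le_one.trans hx)
    have h3 := Nat.lt_floor_add_one x
    rw [h1, one_mul]
    refine (abs_le.2 ⟨by linarith, by linarith⟩ : |(⌊x⌋₊ : ℝ) - x| ≤ 1).trans ?_
    nlinarith [hx1 x hx]
  · obtain ⟨i, ψ, -, a2, a3, -⟩ := hf l hl
    rw [sg_Sm]
    refine (sg_sum_real ψ a2 _ a3 _).trans ?_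
    calc (l : ℝ) = 1 * l * 1 := by ring
      _ ≤ _ := by gcongr; exacts [by linarith, hx1 x hx]
  · obtain ⟨i, ψ, a1, -, a3, -⟩ := hf l hl
    obtain ⟨i', ψ', a1', -, a3', -⟩ := hf l' hl'
    obtain ⟨ξ, b1, b2⟩ := sg_prod a1 a1' hne
    rw [sg_Sm]
    refine (sg_sum_real ξ b1 _ (fun n => by rw [b2, a3, a3', Complex.ofReal_mul]) _).trans ?_
    push_cast
    calc (l : ℝ) * l' = 1 * (l * l') * 1 := by ring
      _ ≤ _ := by gcongr; exacts [by linarith, hx1 x hx]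
  · refine sg_pos (sgZ_mult.mul (sg_tw_mult (hcm l))) fun p hp => ?_
    rw [sgLoc_mul hp, sgLoc_z hp, sgLoc_tw hp (hcm l)]
    exact eu_NN_one (hca l p)
  · refine sg_pos (sgZ_mult.mul (((sg_tw_mult (hcm l)).mul (sg_tw_mult (hcm l'))).mul
      (sg_tw_mult ((hcm l).mul' (hcm l'))))) fun p hp => ?_
    rw [sgLoc_mul hp, sgLoc_mul hp, sgLoc_mul hp, sgLoc_z hp, sgLoc_tw hp (hcm l),
      sgLoc_tw hp (hcm l'), sgLoc_tw hp ((hcm l).mul' (hcm l'))]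
    exact eu_NN_four (hca l p) (hca l' p)
  · obtain ⟨i, ψ, -, a2, a3, a4⟩ := hf l hl
    have h1 := (Complex.continuous_re.tendsto _).comp (lfun_tendsto ψ a2 (s := 1) (by simp))
    have h2 : Lv (tw sgZ (f l)) 1 = (ψ.LFunction 1).re := by
      refine Tendsto.limUnder_eq (h1.congr fun N => ?_)
      simp only [Function.comp, Complex.re_sum]
      refine sum_congr rfl fun n hn => ?_
      rw [tw_apply, sgZ_apply (mem_Ioc.1 hn).1.ne', one_mul, a3, Complex.cpow_neg_one,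
        Real.rpow_neg_one, ← Complex.ofReal_natCast, ← Complex.ofReal_inv, ← Complex.ofReal_mul,
        Complex.ofReal_re]
    rw [h2]
    refine (Complex.re_le_norm _).trans (a4.trans (mul_le_mul_of_nonneg_right ?_ (by positivity)))
    linarith [le_abs_self C]

/-- A real zero near one makes the value at one small. -/
theorem L_one_le {δ : ℝ} (h0 : 0 < δ) (h1 : δ ≤ 1 / 4) : ∃ C : ℝ, 0 ≤ C ∧ ∀ (q : ℕ) [NeZero q]
    (ψ : DC q), ψ ≠ 1 → ∀ β : ℝ, |β - 1| < δ → ψ.LFunction β = 0 →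
      ‖ψ.LFunction 1‖ ≤ C * (q : ℝ) ^ (2 * δ) * |β - 1| := by
  obtain ⟨C, hC, h⟩ := lfun_upper (1 / 2) 1 (by norm_num) le_rfl le_rfl
  refine ⟨2 * (C * (1 + 1 / δ)) / δ, by positivity, fun q _ ψ hψ β hβ hz => ?_⟩
  have hq : (1 : ℝ) ≤ q := by exact_mod_cast Nat.pos_of_ne_zero (NeZero.ne q)
  have hS : ∀ x : ℝ, 1 ≤ x → ‖∑ n ∈ Ioc 0 ⌊x⌋₊, ψ (n : ZMod q)‖ ≤
      1 * x ^ (1 - 1 / 2 : ℝ) * (q : ℝ) ^ (1 / 2 : ℝ) := by
    intro x hx
    have a1 := sg_sum_le ψ hψ ⌊x⌋₊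
    have a2 : ‖∑ n ∈ Ioc 0 ⌊x⌋₊, ψ (n : ZMod q)‖ ≤ x := by
      refine (norm_sum_le _ _).trans ((sum_le_card_nsmul _ _ 1 fun n _ => ψ.norm_le_one _).trans ?_)
      simpa using Nat.floor_le (by linarith : 0 ≤ x)
    rw [one_mul, show (1 - 1 / 2 : ℝ) = 1 / 2 by norm_num, ← Real.mul_rpow (by linarith)
      (by linarith), ← Real.sqrt_eq_rpow]
    exact Real.le_sqrt_of_sq_le (by rw [sq]; exact mul_le_mul a2 a1 (norm_nonneg _) (by linarith))
  have hM : ∀ s ∈ Metric.ball (1 : ℂ) δ,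
      ‖ψ.LFunction s‖ ≤ C * (1 + 1 / δ) * (q : ℝ) ^ (2 * δ) := by
    intro s hs
    rw [mem_ball_iff_norm] at hs
    have a1 := abs_le.1 (Complex.abs_re_le_norm (s - 1))
    simp only [Complex.sub_re, Complex.one_re] at a1
    have a2 : ‖s‖ ≤ 3 := by
      have := norm_add_le (s - 1) 1
      rw [sub_add_cancel, norm_one] at this
      linarith
    refine (h q ψ q hψ hq hS s (by linarith [a1.1]) a2).trans ?_
    have a3 : (q : ℝ) ^ max (1 - s.re) 0 ≤ (q : ℝ) ^ δ :=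
      Real.rpow_le_rpow_of_exponent_le hq (max_le (by linarith [a1.1]) h0.le)
    have a4 : 1 + Real.log q ≤ (1 + 1 / δ) * (q : ℝ) ^ δ := by
      have b1 := Real.log_le_rpow_div (by linarith : (0 : ℝ) ≤ q) h0
      have b2 := Real.one_le_rpow hq h0.le
      rw [add_mul, one_mul, one_div_mul_eq_div]
      linarith
    have a5 := Real.log_nonneg hq
    calc C * (1 + Real.log q) * (q : ℝ) ^ max (1 - s.re) 0
        ≤ C * ((1 + 1 / δ) * (q : ℝ) ^ δ) * (q : ℝ) ^ δ := by gcongr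
      _ = _ := by rw [two_mul, Real.rpow_add (by linarith)]; ring
  have e : dist (β : ℂ) 1 = |β - 1| := by
    rw [dist_eq_norm, ← Complex.ofReal_one, ← Complex.ofReal_sub, Complex.norm_real,
      Real.norm_eq_abs]
  have h2 := Complex.dist_le_div_mul_dist_of_mapsTo_ball (f := ψ.LFunction) (c := 1) (R₁ := δ)
    (R₂ := 2 * (C * (1 + 1 / δ) * (q : ℝ) ^ (2 * δ))) (z := β)
    (DirichletCharacter.differentiable_LFunction hψ).differentiableOn
    (fun s hs => by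
      rw [mem_closedBall_iff_norm]
      linarith [norm_sub_le (ψ.LFunction s) (ψ.LFunction 1), hM s hs,
        hM 1 (Metric.mem_ball_self h0)])
    (by rw [Metric.mem_ball, e]; exact hβ)
  rw [hz, dist_zero_left, e] at h2
  exact h2.trans (le_of_eq (by ring))

theorem sg : SG := by
  intro ε hε
  set δ := min (ε / 4) (1 / 4) with hδ
  have h0 : 0 < δ := lt_min (by linarith) (by norm_num)
  obtain ⟨C, hC, h1⟩ := L_one_le h0 (min_le_right _ _)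
  obtain ⟨R, hR⟩ := (siegel_L (C * δ) (ε / 2) (by linarith)).bddAbove
  obtain ⟨c, hc, h2⟩ := zfs (R + 1) 0
  refine ⟨min c δ, lt_min hc h0, fun Q _ ξ β a1 a2 => ?_⟩
  have b1 := one_le_cd ξ
  have b2 : cd ξ ^ (-ε) ≤ 1 := Real.rpow_le_one_of_one_le_of_nonpos b1 (by linarith)
  have b3 : 0 < cd ξ ^ (-ε) := Real.rpow_pos_of_pos (by linarith) _
  have b4 : β < 1 := by simpa using re_lt_one_of_ord a2
  by_contra hlt
  rw [not_le] at hlt
  have b5 : 1 - β < δ * cd ξ ^ (-ε) :=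
    hlt.trans_le (mul_le_mul_of_nonneg_right (min_le_right _ _) b3.le)
  have b6 : cd ξ ≤ R + 1 := by
    rcases eq_or_ne ξ 1 with rfl | hξ
    · rw [cd_one]
      linarith [Nat.cast_nonneg (α := ℝ) R]
    · have c1 : ξ.primitiveCharacter ≠ 1 := mt (prim_eq_one_iff ξ).1 hξ
      have c2 := (ord_ne_zero_iff ξ β).1 a2
      rw [Lp_of_ne hξ] at c2
      have e : |β - 1| = 1 - β := by rw [abs_sub_comm, abs_of_pos (by linarith)]
      have c3 := h1 _ _ c1 β (by rw [e]; nlinarith) c2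
      have c4 : ξ.conductor ≤ R := hR ⟨inferInstance, ξ.primitiveCharacter,
        ξ.primitiveCharacter_isPrimitive, prim_mul_self a1, c1, c3.trans ?_⟩
      · have : cd ξ ≤ R := Nat.cast_le.2 c4
        linarith
      · have c5 : cd ξ ^ (2 * δ) * cd ξ ^ (-ε) ≤ cd ξ ^ (-(ε / 2)) := by
          rw [← Real.rpow_add (by linarith)]
          exact Real.rpow_le_rpow_of_exponent_le b1 (by linarith [min_le_left (ε / 4) (1 / 4)])
        rw [e]
        calc C * cd ξ ^ (2 * δ) * (1 - β) ≤ C * cd ξ ^ (2 * δ) * (δ * cd ξ ^ (-ε)) := by gcongr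
          _ = C * δ * (cd ξ ^ (2 * δ) * cd ξ ^ (-ε)) := by ring
          _ ≤ C * δ * cd ξ ^ (-(ε / 2)) := by gcongr
  refine a2 (h2 Q ξ β b6 (by simp) ?_)
  have : min c δ * cd ξ ^ (-ε) ≤ c :=
    (mul_le_of_le_one_right (lt_min hc h0).le b2).trans (min_le_left _ _)
  simp only [Complex.ofReal_re]
  linarith

end Pool.Agent.Lib.MP_778b46_nt.GX
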