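import Pool.Agent.Lib.MP_778b46_nt.GX.As4
import Pool.Agent.Lib.MP_778b46_nt.GX.SG

set_option autoImplicit false

noncomputable section

namespace Pool.Agent.Lib.MP_778b46_nt.GX

open Finset Filter
open scoped Classical

/-! The case without an exceptional zero: the choice of the parameters. -/

theorem as8_sub {ι : Type} [Fintype ι] (p : ι → Prop) [DecidablePred p] (r : ι → ι → Prop)
    [∀ i, DecidablePred (r i)] (f : ι → ι → ℝ) :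
    ∑ i ∈ univ.filter p, ∑ j ∈ (univ.filter p).filter (r i), f i j =
      ∑ i : {i // p i}, ∑ j ∈ univ.filter (fun j : {i // p i} => r i.1 j.1), f i.1 j.1 := by
  rw [Finset.sum_subtype (p := p) (univ.filter p) (by simp)]
  refine Finset.sum_congr rfl fun i _ => ?_
  rw [Finset.sum_filter, Finset.sum_subtype (p := p) (univ.filter p) (by simp), Finset.sum_filter]

/-- The bound for the pairs of zeros of the characters of one modulus. -/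
def FIN (L : ℝ) : Prop :=
  ∀ s0 : ℝ, 0 < s0 → ∃ k0 : ℝ, 0 < k0 ∧ ∀ H Y R : ℝ, 10 ≤ H → 1 ≤ Y → 1 ≤ R → ∀ᶠ P : ℝ in atTop,
    ∀ (Q : ℕ) [NeZero Q] (q : ℕ) (ι : Type) [Fintype ι] (χ : ι → DC Q) (ρ : ι → ℂ),
      1 ≤ q → q ∣ Q → (q : ℝ) ≤ P →
      Full (fun ξ z => ξ.conductor ∣ q ∧ lam P z ≤ H ∧ |z.im| ≤ 5 * Y) χ ρ →
      (∀ i, |(ρ i).im| ≤ Y) → (∀ i, R < cd (χ i)) →
      (∀ i j, cd (χ i / χ j) ≤ R ^ 2 → cd (χ i / χ j) ≤ R) → (∀ i, s0 ≤ lam P (ρ i)) →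
      ∑ i, ∑ j ∈ univ.filter (fun j => cd (χ i * χ j) ≤ R),
        Real.exp (-(L * lam P (ρ i))) * Real.exp (-(L * lam P (ρ j))) ≤ 1 - k0

/-- The numerical part with an arbitrary margin. -/
def CERT2 (L φ : ℝ) : Prop :=
  ∃ psF psC : List MP, (∀ p ∈ psF, p.ok φ φ) ∧ (∀ p ∈ psC, p.ok φ (1 / 1000)) ∧
    ∀ s0 : ℝ, 0 < s0 → ∃ k0 : ℝ, 0 < k0 ∧ ∀ H : ℝ, 10 ≤ H → ∃ ε : ℝ, 0 < ε ∧
      ∀ (Γ Ω ι : Type) [CommGroup Γ] [Fintype Ω] [Fintype ι] (D : Dat Γ Ω ι),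
        Clean D φ ε H psF psC → (∀ i, s0 ≤ D.lam i) →
          ∑ i, ∑ j ∈ univ.filter (fun j => D.sm (D.ch i * D.ch j)),
            Real.exp (-(L * D.lam i)) * Real.exp (-(L * D.lam j)) ≤ 1 - k0

theorem CERT.cert2 {L φ : ℝ} (h : CERT L φ) : CERT2 L φ := by
  obtain ⟨psF, psC, h1, h2, h3⟩ := h
  exact ⟨psF, psC, h1, h2, fun s0 hs => ⟨min s0 (1 / 100), by positivity,
    fun H hH => h3 H hH s0 hs⟩⟩

/-- The clean model and the numerical part together. -/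
theorem fin_of_cert2 {L φ : ℝ} (hφ : 1 / 3 < φ) (hCL : CLN (1 / 3)) (hCE : CERT2 L φ) :
    FIN L := by
  obtain ⟨psF, psC, h1, h2, h3⟩ := hCE
  intro s0 hs
  obtain ⟨k0, hk, h3⟩ := h3 s0 hs
  refine ⟨k0, hk, fun H Y R hH hY hR => ?_⟩
  obtain ⟨ε, hε, h3⟩ := h3 H hH
  obtain ⟨P0, h4⟩ := hCL φ ε H Y R psF psC hφ hε (by linarith) hY hR h1 h2
  filter_upwards [eventually_ge_atTop P0] with P hP Q _ q ι _ χ ρ a1 a2 a3 a4 a5 a6 a7 a8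
  obtain ⟨Γ, Ω, _, _, D, b1, b2, b3⟩ := h4 P hP Q q ι χ ρ a1 a2 a3 a4 a5 a6 a7
  have := h3 Γ Ω ι D b1 fun i => by rw [b2]; exact a8 i
  simp only [b2, b3] at this
  convert this

theorem as8_small {a b k : ℝ} (hb : 0 < b) (hk : 0 < k) :
    ∀ᶠ Y : ℝ in atTop, a * Y ^ (-b) ≤ k := by
  have := (tendsto_rpow_neg_atTop hb).const_mul a
  rw [mul_zero] at this
  exact this.eventually_le_const hk

theorem as8_exp {a b k : ℝ} (hb : 0 < b) (hk : 0 < k) :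
    ∀ᶠ H : ℝ in atTop, a * Real.exp (-(b * H)) ≤ k := by
  have := (Real.tendsto_exp_neg_atTop_nhds_zero.comp
    (tendsto_id.const_mul_atTop hb)).const_mul a
  rw [mul_zero] at this
  exact this.eventually_le_const hk

/-- Take `k0` from `hCE`. Choose `H ≥ 10`, `Y0 ≥ 1`, `R0 ≥ 1` with each of the three error terms of
`as4_core` at most `k0 / 5`, `N = ⌈A exp (109 / 50 H)⌉₊`, `hCE` for the finitely many
`Y = 5 ^ k Y0` (`k ≤ N`), `R = R0 ^ 2 ^ l` (`l ≤ N ^ 2`) (`eventually_all_finset`); `zfs` with the largest `R` and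
`5 Y`. `as3_height`, `as3_cond`, `as3_E` for `S = (NP χ).filter (lam ≤ H)`; `Full.restrict`; sums over the
subtype (`Finset.sum_subtype`); `K' = 2 ^ N * (R0 ^ 2 ^ N ^ 2) ^ (2 * N)`. -/
theorem caseC {C A K c' L s0 d1 η : ℝ} (hC : 1 ≤ C) (hA : 1 ≤ A) (hc : 0 < c') (hL : 5 / 2 ≤ L)
    (hs : 0 < s0) (hd : 0 < d1) (hη : 0 < η) (hCE : FIN L) :
    ∃ K' : ℝ, 0 ≤ K' ∧ ∀ᶠ P : ℝ in atTop,
      ∀ (Q : ℕ) [NeZero Q] (ι : Type) [Fintype ι] (χ : ι → DC Q) (ρ : ι → ℂ) (T : ℝ), P ^ η ≤ T →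
      Full (fun ξ z => cd ξ ≤ P ∧ 1 - d1 ≤ z.re ∧ |z.im| ≤ T) χ ρ →
      Big χ ρ (fun i => lam P (ρ i)) P A → (∀ i, s0 ≤ lam P (ρ i)) → ∀ M : ℝ, 0 ≤ M →
      ∃ E : Finset ℕ, (E.card : ℝ) ≤ K' * M / P ∧ ∀ m : ℕ, 1 ≤ m → (m : ℝ) ≤ M → m ∉ E →
        T2 C m χ ρ (yw L fun i => lam P (ρ i)) univ + T1 C χ ρ (yw L fun i => lam P (ρ i)) univ +
          K * P ^ (-c') < 1 := by
  obtain ⟨k0, hk, hCE⟩ := hCE s0 hs
  have hk5 : 0 < k0 / 5 := by positivity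
  obtain ⟨H, hH1, hH⟩ := ((as8_exp (a := 7 * C * A ^ 2) (b := 3 / 10) (by norm_num) hk5).and
    (eventually_ge_atTop 10)).exists
  obtain ⟨Y0, hY0⟩ := eventually_atTop.1 ((as8_small (a := 7 * C * A ^ 2) (b := 1 / 8)
    (by norm_num) hk5).and (eventually_ge_atTop 1))
  obtain ⟨R0, hR0⟩ := eventually_atTop.1 ((as8_small (a := 7 * C * A ^ 2) (b := 1 / 3)
    (by norm_num) hk5).and (eventually_ge_atTop 1))
  have y1 : 1 ≤ Y0 := (hY0 Y0 le_rfl).2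
  have r1 : 1 ≤ R0 := (hR0 R0 le_rfl).2
  obtain ⟨N, hN⟩ : ∃ N : ℕ, A * Real.exp (109 / 50 * H) ≤ N := ⟨_, Nat.le_ceil _⟩
  have yk : ∀ k : ℕ, Y0 ≤ 5 ^ k * Y0 := fun k =>
    le_mul_of_one_le_left (by linarith) (one_le_pow₀ (by norm_num))
  have rl : ∀ l : ℕ, R0 ≤ R0 ^ 2 ^ l := fun l => le_self_pow₀ r1 (by positivity)
  obtain ⟨c0, hc0, hZ⟩ := zfs (R0 ^ 2 ^ N ^ 2) (5 * (5 ^ N * Y0))
  have hcc : ∀ᶠ P : ℝ in atTop, ∀ k ∈ range (N + 1), ∀ l ∈ range (N ^ 2 + 1), _ :=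
    (eventually_all_finset _).2 fun k _ => (eventually_all_finset _).2 fun l _ =>
      hCE H _ _ hH (y1.trans (yk k)) (r1.trans (rl l))
  refine ⟨2 ^ N * (R0 ^ 2 ^ N ^ 2) ^ (2 * N), by positivity, ?_⟩
  filter_upwards [hcc, as8_small (a := K) hc hk5, eventually_ge_atTop 1,
    (Real.tendsto_log_atTop.const_mul_atTop hc0).eventually_ge_atTop H,
    (Real.tendsto_log_atTop.const_mul_atTop hd).eventually_ge_atTop H,
    Real.tendsto_log_atTop.eventually_gt_atTop 0,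
    (tendsto_rpow_atTop hη).eventually_ge_atTop (5 * (5 ^ N * Y0))]
    with P hcc hKP hP hcH hdH hlog hPη Q _ ι _ χ ρ T hT hF hB hs0 M hM
  have hS := hF.sub
  obtain ⟨S, hSd⟩ : ∃ S : Finset ι, S = (NP χ).filter fun i => lam P (ρ i) ≤ H := ⟨_, rfl⟩
  have hSN : S.card ≤ N := by
    have := (as4_card hB H).trans hN
    rw [hSd]
    exact_mod_cast this
  have mS : ∀ i, i ∈ S ↔ χ i ≠ 1 ∧ lam P (ρ i) ≤ H := fun i => by simp [hSd, NP]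
  obtain ⟨k, hkN, hgy⟩ := as3_height S (fun i => |(ρ i).im|) (Y0 := Y0) (by linarith) hSN
  obtain ⟨l, hlN, hgr⟩ := as3_cond S (fun i j => cd (χ i / χ j)) r1 hSN
  have hYm : 5 ^ k * Y0 ≤ 5 ^ N * Y0 := by gcongr; norm_num
  have hRm : R0 ^ 2 ^ l ≤ R0 ^ 2 ^ N ^ 2 := pow_le_pow_right₀ r1 (by gcongr; norm_num)
  have hcc := hcc k (by simpa using Nat.lt_succ_of_le hkN) l (by simpa using Nat.lt_succ_of_le hlN)
  obtain ⟨eY, y2⟩ := hY0 _ (yk k)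
  obtain ⟨eR, r2⟩ := hR0 _ (rl l)
  generalize 5 ^ k * Y0 = Y at *
  generalize R0 ^ 2 ^ l = R at *
  obtain ⟨E, hE1, hE2⟩ := as3_E S (fun i => (χ i).conductor)
    (fun i => Nat.pos_of_ne_zero (χ i).conductor_ne_zero) hSN r2 (by linarith : 0 < P) hM
  refine ⟨E, hE1.trans (by gcongr), fun m m1 m2 m3 => ?_⟩
  obtain ⟨q, q1, q2, q3, q4⟩ := hE2 m m1 m2 m3
  have hz : ∀ i, cd (χ i) ≤ R → |(ρ i).im| ≤ 5 * Y → H < lam P (ρ i) := by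
    intro i a1 a2
    have a3 : (ρ i).re < 1 - c0 := by
      by_contra a3
      exact hS.ord_ne_zero i (hZ Q _ _ (a1.trans hRm) (by linarith) (not_lt.1 a3))
    have : c0 * Real.log P < (1 - (ρ i).re) * Real.log P := by gcongr; linarith
    exact hcH.trans_lt this
  have h1 := as4_core (m := m) (q := q) hB hA hL hC (by linarith : 0 ≤ H) y2 r2
    (fun i a1 a2 a3 => q4 i ((mS i).2 ⟨by simpa [NP] using a1, a2⟩) a3) hz
  have hR' : ∀ i, lam P (ρ i) ≤ H → |(ρ i).im| ≤ 5 * Y → R < cd (χ i) := fun i a1 a2 =>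
    lt_of_not_ge fun a3 => absurd (hz i a3 a2) (not_lt.2 a1)
  have hin : ∀ i, lam P (ρ i) ≤ H → |(ρ i).im| ≤ 5 * Y → i ∈ S := fun i a1 a2 => by
    refine (mS i).2 ⟨fun a3 => ?_, a1⟩
    have := hR' i a1 a2
    rw [a3, cd_one] at this
    linarith
  have h2 := hcc Q q _ _ _ q1 (q3 Q fun i => (χ i).conductor_dvd_level) q2
    (hF.restrict (S' := fun ξ z => ξ.conductor ∣ q ∧ lam P z ≤ H ∧ |z.im| ≤ 5 * Y) (by
      rintro ξ z ⟨a1, a2, a3⟩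
      refine ⟨le_trans (by unfold cd; exact_mod_cast Nat.le_of_dvd q1 a1) q2, ?_, by linarith⟩
      have := le_of_mul_le_mul_right (a2.trans hdH) hlog
      linarith))
    (fun i => hgy i.1 (hin _ i.2.2.1 i.2.2.2) i.2.2.2) (fun i => hR' _ i.2.2.1 i.2.2.2)
    (fun i j => hgr i.1 (hin _ i.2.2.1 i.2.2.2) j.1 (hin _ j.2.2.1 j.2.2.2)) fun i => hs0 i.1
  rw [as8_sub] at h1
  have h3 := h1.trans (add_le_add_left h2 _)
  linarith

end Pool.Agent.Lib.MP_778b46_nt.GX
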