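import Pool.Agent.Lib.MP_778b46_nt.GX.MoA
import Pool.Agent.Lib.MP_e97e2b_nt.Ln.J3
import Pool.Agent.Lib.MP_e97e2b_nt.Ln.A2b
import Pool.Agent.Lib.MP_e97e2b_nt.Ln.A5

set_option autoImplicit false

noncomputable section

namespace Pool.Agent.Lib.MP_778b46_nt.GX

open Complex Finset Filter MeasureTheory Topology
open scoped Real ContDiff ArithmeticFunction.Moebius

/-! The local count of the zeros of one `L`-function. -/

namespace Mo

open Pool.Agent.Lib.MP_e97e2b_nt.Ln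

/-- `DirichletCharacter.LSeries_twist_vonMangoldt_eq` (or `deriv_LFunction_eq_deriv_LSeries`), the bound
`‖LSeries (ξ Λ) s‖ ≤ LSeries Λ (re s)`, and `a5_near` with modulus one. -/
theorem logder_le : ∃ C : ℝ, ∀ (q : ℕ) [NeZero q] (ξ : DirichletCharacter ℂ q) (s : ℂ), 1 < s.re →
    s.re ≤ 2 → ‖deriv ξ.LFunction s / ξ.LFunction s‖ ≤ 1 / (s.re - 1) + C := by
  classical
  obtain ⟨C, -, hC⟩ := a5_near 1 1
  refine ⟨C, fun q _ ξ s hs hs2 => ?_⟩
  have key : LSeries (fun n => ξ (n : ZMod q) * (ArithmeticFunction.vonMangoldt n : ℂ)) s =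
      -deriv ξ.LFunction s / ξ.LFunction s := by
    rw [ξ.deriv_LFunction_eq_deriv_LSeries hs, ξ.LFunction_eq_LSeries hs]
    exact DirichletCharacter.LSeries_twist_vonMangoldt_eq ξ hs
  obtain ⟨σ, hσ⟩ : ∃ σ, σ = s.re := ⟨_, rfl⟩
  rw [← hσ] at hs2 ⊢
  have h1 : 0 < σ - 1 := by rw [hσ]; linarith
  have h3 : 1 < (σ : ℂ).re := by
    rw [ofReal_re]
    linarith
  have h4 : (σ : ℂ) - 1 = ((σ - 1 : ℝ) : ℂ) := by
    push_cast
    ring
  have h5 : ∀ n : ℕ, LSeries.term (fun n => (ArithmeticFunction.vonMangoldt n : ℂ)) (σ : ℂ) n =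
      ((ArithmeticFunction.vonMangoldt n * (n : ℝ) ^ (-σ) : ℝ) : ℂ) := by
    intro n
    rcases eq_or_ne n 0 with rfl | hn
    · simp
    · rw [LSeries.term_of_ne_zero hn, ← ofReal_natCast n, ← ofReal_cpow n.cast_nonneg,
        ← ofReal_div, Real.rpow_neg n.cast_nonneg, div_eq_mul_inv]
  have h6 : Summable _ := ArithmeticFunction.LSeriesSummable_vonMangoldt h3
  have h7 := hC _ h3 (by rw [h4, norm_real, Real.norm_of_nonneg h1.le]; linarith)
  have h8 : (fun n : ℕ => (1 : DirichletCharacter ℂ 1) (n : ZMod 1) *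
      (ArithmeticFunction.vonMangoldt n : ℂ)) = fun n => (ArithmeticFunction.vonMangoldt n : ℂ) := by
    funext n
    rw [Subsingleton.elim (n : ZMod 1) 1, map_one, one_mul]
  rw [h8, if_pos rfl, h4, LSeries] at h7
  rw [funext h5] at h6
  simp only [h5] at h7
  rw [← ofReal_tsum, ← ofReal_one, ← ofReal_div, ← ofReal_sub, norm_real, Real.norm_eq_abs] at h7
  have h9 := (abs_le.1 h7).2
  have h10 : ∀ n : ℕ, ‖LSeries.term (fun n => ξ (n : ZMod q) *
      (ArithmeticFunction.vonMangoldt n : ℂ)) s n‖ ≤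
        ArithmeticFunction.vonMangoldt n * (n : ℝ) ^ (-σ) := by
    intro n
    have hv := ArithmeticFunction.vonMangoldt_nonneg (n := n)
    rw [LSeries.norm_term_eq]
    split_ifs with h
    · positivity
    · rw [← hσ, Real.rpow_neg (Nat.cast_nonneg n), ← div_eq_mul_inv]
      refine div_le_div_of_nonneg_right ?_ (by positivity)
      rw [norm_mul, norm_real, Real.norm_of_nonneg hv]
      exact mul_le_of_le_one_left hv (ξ.norm_le_one _)
  have h11 := tsum_of_norm_bounded (summable_ofReal.1 h6).hasSum h10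
  have h12 : ‖deriv ξ.LFunction s / ξ.LFunction s‖ = ‖-deriv ξ.LFunction s / ξ.LFunction s‖ := by
    rw [neg_div, norm_neg]
  rw [h12, ← key, LSeries]
  linarith

/-- As `lfun_upper`, for every height: split at `M = ⌈y⌉₊`, `abel_pow` or `norm_Rg`, `lfun_tendsto`. -/
theorem lfun_up {θ C : ℝ} (hθ : 0 < θ) (hθ' : θ ≤ 1) (hC : 1 ≤ C) : ∃ C' : ℝ, 1 ≤ C' ∧
    ∀ (q : ℕ) [NeZero q] (ξ : DirichletCharacter ℂ q) (y : ℝ), ξ ≠ 1 → 1 ≤ y →
    Pb (fun n => ξ (n : ZMod q)) 0 C θ y → ∀ s : ℂ, 1 - θ / 2 ≤ s.re →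
      ‖ξ.LFunction s‖ ≤ C' * (1 + ‖s‖) * (1 + Real.log y) * y ^ (max (1 - s.re) 0) := by
  have hK : 0 ≤ C * (2 + 4 / θ) := by positivity
  refine ⟨4 + C * (2 + 4 / θ), by linarith, fun q _ ξ y hξ hy hS s hs => ?_⟩
  have hσ : 0 < s.re := by linarith
  have hy0 : 0 < y := by linarith
  obtain ⟨δ, hδ⟩ : ∃ δ, δ = max (1 - s.re) 0 := ⟨_, rfl⟩
  have hδ0 : 0 ≤ δ := hδ ▸ le_max_right _ _
  have hδ1 : 1 - s.re ≤ δ := hδ ▸ le_max_left _ _
  have hδ2 : δ ≤ θ / 2 := hδ ▸ max_le (by linarith) (by linarith)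
  rw [← hδ]
  have hyM : y ≤ (⌈y⌉₊ : ℝ) := Nat.le_ceil y
  have hMy : (⌈y⌉₊ : ℝ) ≤ 2 * y := by
    have := Nat.ceil_lt_add_one hy0.le
    linarith
  have hM1 : 1 ≤ ⌈y⌉₊ := by
    have : (1 : ℝ) ≤ (⌈y⌉₊ : ℝ) := hy.trans hyM
    exact_mod_cast this
  generalize ⌈y⌉₊ = M at hM1 hMy hyM
  have hlog : 0 ≤ Real.log y := Real.log_nonneg hy
  have hyδ : 0 < y ^ δ := Real.rpow_pos_of_pos hy0 δ
  have hS' : ∀ n : ℕ, 1 ≤ n → ‖∑ m ∈ Ioc 0 n, ξ (m : ZMod q)‖ ≤ C * y ^ θ * (n : ℝ) ^ (1 - θ) :=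
    fun n hn => by
      have h := hS n (by exact_mod_cast hn)
      rw [Nat.floor_natCast, zero_mul, sub_zero] at h
      linarith
  refine le_of_tendsto (lfun_tendsto ξ hξ hσ).norm
    (Filter.eventually_atTop.2 ⟨M, fun N hN => ?_⟩)
  have b1 := abel_pow (c := fun n => ξ (n : ZMod q)) hθ hθ' (by positivity) hS' hs hM1 hN
  have b2 : y ^ θ * (M : ℝ) ^ (1 - θ - s.re) ≤ y ^ δ := by
    calc y ^ θ * (M : ℝ) ^ (1 - θ - s.re) ≤ y ^ θ * y ^ (1 - θ - s.re) :=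
          mul_le_mul_of_nonneg_left (Real.rpow_le_rpow_of_nonpos hy0 hyM (by linarith))
            (by positivity)
      _ = y ^ (1 - s.re) := by
          rw [← Real.rpow_add hy0]
          congr 1
          ring
      _ ≤ y ^ δ := Real.rpow_le_rpow_of_exponent_le hy hδ1
  have b3 : 2 + 4 * ‖s‖ / θ ≤ (2 + 4 / θ) * (1 + ‖s‖) := by
    have h1 : 0 ≤ 4 / θ := by positivity
    have h2 : 4 * ‖s‖ / θ = 4 / θ * ‖s‖ := by ring
    have h3 := norm_nonneg s
    rw [h2]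
    nlinarith
  have b4 : C * y ^ θ * (2 + 4 * ‖s‖ / θ) * (M : ℝ) ^ (1 - θ - s.re) ≤
      C * (2 + 4 / θ) * (1 + ‖s‖) * y ^ δ := by
    calc C * y ^ θ * (2 + 4 * ‖s‖ / θ) * (M : ℝ) ^ (1 - θ - s.re) =
          C * (2 + 4 * ‖s‖ / θ) * (y ^ θ * (M : ℝ) ^ (1 - θ - s.re)) := by ring
      _ ≤ C * ((2 + 4 / θ) * (1 + ‖s‖)) * y ^ δ := by gcongr
      _ = _ := by ring
  have b5 : ∀ n ∈ Ioc 0 M, ‖ξ (n : ZMod q) * (n : ℂ) ^ (-s)‖ ≤ 2 * y ^ δ * (n : ℝ)⁻¹ := by
    intro n hn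
    obtain ⟨h0, h1⟩ := mem_Ioc.1 hn
    have hn1 : (1 : ℝ) ≤ n := by exact_mod_cast h0
    have hny : (n : ℝ) ≤ 2 * y := le_trans (by exact_mod_cast h1) hMy
    rw [norm_mul, norm_natCast_cpow_of_pos h0, neg_re]
    have h2 : (2 : ℝ) ^ δ ≤ 2 := by
      calc (2 : ℝ) ^ δ ≤ (2 : ℝ) ^ (1 : ℝ) :=
            Real.rpow_le_rpow_of_exponent_le (by norm_num) (by linarith)
        _ = 2 := Real.rpow_one 2
    calc ‖ξ (n : ZMod q)‖ * (n : ℝ) ^ (-s.re) ≤ 1 * (n : ℝ) ^ (δ - 1) :=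
          mul_le_mul (ξ.norm_le_one _) (Real.rpow_le_rpow_of_exponent_le hn1 (by linarith))
            (by positivity) zero_le_one
      _ = (n : ℝ) ^ δ * (n : ℝ)⁻¹ := by
          rw [one_mul, Real.rpow_sub_one (by linarith), div_eq_mul_inv]
      _ ≤ (2 * y) ^ δ * (n : ℝ)⁻¹ := by gcongr
      _ = (2 : ℝ) ^ δ * y ^ δ * (n : ℝ)⁻¹ := by rw [Real.mul_rpow (by norm_num) hy0.le]
      _ ≤ 2 * y ^ δ * (n : ℝ)⁻¹ := by gcongr
  have b6 := norm_sum_le_of_le _ b5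
  rw [← mul_sum] at b6
  have b7 := a2b_harm hM1 hMy
  have b8 : Real.log (2 * y) ≤ 1 + Real.log y := by
    rw [Real.log_mul (by norm_num) hy0.ne']
    have := Real.log_two_lt_d9
    linarith
  have b9 : 2 * y ^ δ * ∑ n ∈ Ioc 0 M, (n : ℝ)⁻¹ ≤ 2 * y ^ δ * (2 * (1 + Real.log y)) :=
    mul_le_mul_of_nonneg_left (by linarith) (by positivity)
  rw [← sum_Ioc_consecutive (fun n : ℕ => ξ (n : ZMod q) * (n : ℂ) ^ (-s)) (Nat.zero_le M) hN]
  refine (norm_add_le_of_le (b6.trans b9) (b1.trans b4)).trans ?_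
  have e1 : 0 ≤ ‖s‖ * ((1 + Real.log y) * y ^ δ) := by positivity
  have e2 : 0 ≤ C * (2 + 4 / θ) * (1 + ‖s‖) * (Real.log y * y ^ δ) := by positivity
  linarith

theorem mol_exp {η : ℝ} (hη : 0 < η) (A D : ℝ) :
    ∀ᶠ L : ℝ in atTop, A + D * L ≤ Real.exp (η * L) := by
  filter_upwards [eventually_ge_atTop (1 : ℝ), eventually_ge_atTop (2 * (|A| + |D|) / η ^ 2)]
    with L h1 h2
  rw [div_le_iff₀ (by positivity)] at h2
  have h3 := Real.quadratic_le_exp_of_nonneg (x := η * L) (by positivity)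
  have h4 : A ≤ |A| * L := (le_abs_self A).trans (le_mul_of_one_le_right (abs_nonneg A) h1)
  have h5 : D * L ≤ |D| * L := mul_le_mul_of_nonneg_right (le_abs_self D) (by linarith)
  have h6 := mul_le_mul_of_nonneg_right h2 (show 0 ≤ L by linarith)
  have h7 : 0 ≤ η * L := by positivity
  nlinarith

theorem mol_order (f : ℂ → ℂ) (a z : ℂ) :
    analyticOrderNatAt (fun s => f (s + a)) z = analyticOrderNatAt f (z + a) := by
  have h := analyticOrderAt_comp_of_deriv_ne_zero (f := f) (g := fun s => s + a) (z₀ := z)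
    (by fun_prop) (by simp)
  unfold analyticOrderNatAt
  exact congrArg ENat.toNat h

open Classical in
/-- `jen` for `s ↦ L (s + i γ)` with `c = 1 + 1 / L`, `R = θ / 8`, `b = 2 η L`, `P = φ L`; choose `δ`, then
`η`. `lfun_up`, `lfun_lower`, `logder_le`, `analyticOrderNatAt` of a translate. -/
theorem window {θ C φ ε : ℝ} (hθ : 0 < θ) (hθ' : θ ≤ 1) (hC : 1 ≤ C) (hφ : 0 ≤ φ) (hε : 0 < ε) :
    ∃ δ η B : ℝ, 0 < δ ∧ 0 < η ∧ 0 ≤ B ∧ ∀ᶠ L : ℝ in atTop,
      ∀ (q : ℕ) [NeZero q] (ξ : DirichletCharacter ℂ q), ξ ≠ 1 →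
      Pb (fun n => ξ (n : ZMod q)) 0 C θ (Real.exp (φ * L)) → ∀ γ : ℝ, |γ| ≤ Real.exp (η * L) →
      ∃ Z : Multiset ℂ, (∀ ρ, Z.count ρ = if ‖ρ - γ * I - (1 + 1 / L : ℝ)‖ ≤ δ then
          analyticOrderNatAt ξ.LFunction ρ else 0) ∧ (∀ ρ ∈ Z, ρ.re ≤ 1) ∧ (Z.card : ℝ) ≤ B * L ∧
        ∀ x : ℝ, 0 < x → x ≤ η * L →
          (Z.map fun ρ => (1 / ((1 + x / L : ℝ) + γ * I - ρ)).re).sum ≤ L * (φ / 2 + 1 / x + ε) := by
  obtain ⟨C0, hC0⟩ := logder_le
  obtain ⟨C', hC', hup⟩ := lfun_up hθ hθ' hC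
  obtain ⟨R, hR⟩ : ∃ R, R = θ / 8 := ⟨_, rfl⟩
  have hR0 : 0 < R := by rw [hR]; positivity
  obtain ⟨B, hB⟩ : ∃ B, B = 4 + 3 * R * φ := ⟨_, rfl⟩
  have hB0 : 0 < B := by rw [hB]; positivity
  obtain ⟨δ, hδ0, hδ1, hδ2⟩ : ∃ δ, 0 < δ ∧ δ ≤ R / 2 ∧ δ * B / R ^ 2 ≤ ε / 4 := by
    refine ⟨min (R / 2) (ε / 4 * R ^ 2 / B), by positivity, min_le_left _ _, ?_⟩
    rw [div_le_iff₀ (by positivity), ← le_div_iff₀ hB0]
    exact min_le_right _ _
  obtain ⟨η, hη0, hη1, hη2, hη3⟩ : ∃ η, 0 < η ∧ η ≤ δ / 4 ∧ 2 * η / R ≤ ε / 4 ∧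
      100 * B / δ ^ 2 * (2 * η) ≤ ε / 4 := by
    refine ⟨min (δ / 4) (min (ε / 8 * R) (ε / 8 / (100 * B / δ ^ 2))), by positivity,
      min_le_left _ _, ?_, ?_⟩
    · rw [div_le_iff₀ hR0]
      have := (min_le_right (δ / 4) _).trans
        (min_le_left (ε / 8 * R) (ε / 8 / (100 * B / δ ^ 2)))
      linarith
    · have := (min_le_right (δ / 4) _).trans
        (min_le_right (ε / 8 * R) (ε / 8 / (100 * B / δ ^ 2)))
      rw [le_div_iff₀ (by positivity)] at this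
      linarith
  have hη4 : η ≤ 1 := by linarith
  refine ⟨δ, η, B, hδ0, hη0, hB0.le, ?_⟩
  filter_upwards [eventually_ge_atTop (1 : ℝ), eventually_ge_atTop (1 / η),
    eventually_ge_atTop (4 * C0 / ε), mol_exp hη0 (5 * C') (5 * C' * φ), mol_exp hη0 1 1]
    with L g1 g2 g3 g4 g5 q _ ξ hξ hPb γ hγ
  have hL : 0 < L := by linarith
  have g2' : 1 ≤ η * L := by
    rw [div_le_iff₀ hη0] at g2
    linarith
  have g3' : C0 ≤ ε / 4 * L := by
    rw [div_le_iff₀ hε] at g3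
    linarith
  have h1L : 0 < 1 / L := by positivity
  have h1L' : 1 / L ≤ 1 := (div_le_one hL).2 g1
  have hE : 1 ≤ Real.exp (η * L) := Real.one_le_exp (by linarith)
  have hE2 : Real.exp (2 * η * L) = Real.exp (η * L) * Real.exp (η * L) := by
    rw [← Real.exp_add]
    congr 1
    ring
  have hre : ∀ s : ℂ, (s + γ * I).re = s.re := fun s => by simp
  have hdiff := DirichletCharacter.differentiable_LFunction hξ
  obtain ⟨Z, h0, z1, z2, z3, z4, -, z6⟩ := jen (fun s => ξ.LFunction (s + γ * I))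
    (hdiff.comp (by fun_prop)) (1 + 1 / L) R δ (2 * η * L) (φ * L) hR0 hδ0 hδ1 (by linarith)
    (by positivity)
    (fun s hs => by
      have a1 := (abs_re_le_norm (s - ((1 + 1 / L : ℝ) : ℂ))).trans hs
      rw [sub_re, ofReal_re, abs_le] at a1
      have a2 := hup q ξ _ hξ (Real.one_le_exp (by positivity)) hPb (s + γ * I) (by
        rw [hre]
        linarith [a1.1])
      rw [hre, Real.log_exp, ← Real.exp_mul] at a2
      have a3 : ‖s + γ * I‖ ≤ 3 + Real.exp (η * L) := by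
        have b1 := norm_add_le s (γ * I)
        rw [norm_mul, norm_I, mul_one, norm_real, Real.norm_eq_abs] at b1
        have b2 := norm_add_le (s - ((1 + 1 / L : ℝ) : ℂ)) ((1 + 1 / L : ℝ) : ℂ)
        rw [sub_add_cancel, norm_real, Real.norm_of_nonneg (by linarith)] at b2
        linarith
      have a4 : C' * (1 + ‖s + γ * I‖) * (1 + φ * L) ≤ Real.exp (2 * η * L) := by
        calc C' * (1 + ‖s + γ * I‖) * (1 + φ * L) ≤ C' * (5 * Real.exp (η * L)) * (1 + φ * L) := by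
              gcongr
              linarith
          _ = (5 * C' + 5 * C' * φ * L) * Real.exp (η * L) := by ring
          _ ≤ Real.exp (η * L) * Real.exp (η * L) := by gcongr
          _ = _ := hE2.symm
      rw [Real.exp_add]
      refine a2.trans (mul_le_mul a4 (Real.exp_le_exp.2 (mul_le_mul_of_nonneg_left
        (max_le_max (by linarith) le_rfl) (by positivity))) (by positivity) (by positivity)))
    (fun s _ hs => by
      have a1 := lfun_lower ξ (s := s + γ * I) (by rw [hre]; linarith)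
      rw [hre] at a1
      refine le_trans ?_ a1
      have a2 : 0 < s.re := by linarith
      have a3 : 1 ≤ (s.re - 1) * L := by
        rw [← div_le_iff₀ hL]
        linarith
      have a4 : 1 + L ≤ Real.exp (2 * η * L) := by
        rw [hE2]
        nlinarith
      rw [Real.exp_neg, ← one_div, div_le_div_iff₀ (Real.exp_pos _) a2]
      have a5 := mul_le_mul_of_nonneg_left a4 (show 0 ≤ s.re - 1 by linarith)
      nlinarith)
  have hM : 2 * (2 * η * L) + 3 * R * (φ * L) ≤ B * L := by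
    rw [hB]
    nlinarith
  have hinj : Function.Injective fun z : ℂ => z + γ * I := add_left_injective _
  refine ⟨Z.map fun z => z + γ * I, fun ρ => ?_, fun ρ hρ => ?_, ?_, fun x hx hxη => ?_⟩
  · have a1 := Multiset.count_map_eq_count' _ Z hinj (ρ - γ * I)
    simp only [sub_add_cancel] at a1
    rw [a1, z1, mol_order, sub_add_cancel]
  · obtain ⟨z, hz, rfl⟩ := Multiset.mem_map.1 hρ
    by_contra h
    exact DirichletCharacter.LFunction_ne_zero_of_one_le_re ξ (.inl hξ) (not_le.1 h).le (z2 z hz).2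
  · rw [Multiset.card_map]
    linarith
  · obtain ⟨s, hs⟩ : ∃ s : ℂ, s = ((1 + x / L : ℝ) : ℂ) := ⟨_, rfl⟩
    have hxL : 0 < x / L := by positivity
    have hxL' : x / L ≤ η := (div_le_iff₀ hL).2 hxη
    have h1η : 1 / L ≤ η := (div_le_iff₀ hL).2 g2'
    have hsre : (s + γ * I).re = 1 + x / L := by rw [hre, hs, ofReal_re]
    have a1 : ‖s - ((1 + 1 / L : ℝ) : ℂ)‖ ≤ 2 * η := by
      rw [hs, ← ofReal_sub, norm_real, Real.norm_eq_abs, abs_le]
      constructor <;> linarith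
    have a2 := z6 s (by linarith) (DirichletCharacter.LFunction_ne_zero_of_one_le_re ξ (.inl hξ)
      (by rw [hsre]; linarith))
    rw [deriv_comp_add_const] at a2
    have a3 := hC0 q ξ (s + γ * I) (by rw [hsre]; linarith) (by rw [hsre]; linarith)
    rw [hsre, add_sub_cancel_left, one_div_div] at a3
    have a4 := (re_le_norm _).trans a3
    have a5 := (re_le_norm _).trans a2
    rw [sub_re, add_re, neg_div, neg_re] at a5
    have a6 : 100 * (2 * (2 * η * L) + 3 * R * (φ * L)) / δ ^ 2 * ‖s - ((1 + 1 / L : ℝ) : ℂ)‖ ≤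
        ε / 4 * L := by
      calc 100 * (2 * (2 * η * L) + 3 * R * (φ * L)) / δ ^ 2 * ‖s - ((1 + 1 / L : ℝ) : ℂ)‖ ≤
            100 * (B * L) / δ ^ 2 * (2 * η) := by gcongr
        _ = 100 * B / δ ^ 2 * (2 * η) * L := by ring
        _ ≤ ε / 4 * L := by gcongr
    have a7 : δ * (2 * (2 * η * L) + 3 * R * (φ * L)) / R ^ 2 ≤ ε / 4 * L := by
      calc δ * (2 * (2 * η * L) + 3 * R * (φ * L)) / R ^ 2 ≤ δ * (B * L) / R ^ 2 := by gcongr
        _ = δ * B / R ^ 2 * L := by ring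
        _ ≤ ε / 4 * L := by gcongr
    have a8 : 2 * η * L / R ≤ ε / 4 * L := by
      calc 2 * η * L / R = 2 * η / R * L := by ring
        _ ≤ ε / 4 * L := by gcongr
    have a9 : ((Z.map fun z => z + γ * I).map fun ρ => (1 / (s + γ * I - ρ)).re).sum =
        ((Z.map fun ρ => 1 / (s - ρ)).sum).re := by
      have b1 := map_multiset_sum reAddGroupHom (Z.map fun ρ => 1 / (s - ρ))
      rw [coe_reAddGroupHom] at b1
      rw [b1, Multiset.map_map, Multiset.map_map]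
      congr 2
      funext z
      simp only [Function.comp, add_sub_add_right_eq_sub]
    rw [← hs, a9]
    have a10 : L * (φ / 2 + 1 / x + ε) = φ * L / 2 + L / x + ε * L := by ring
    rw [a10]
    linarith

open Classical in
/-- `S.val.map ρ ≤ Z` (`Multiset.le_iff_count`). -/
theorem sum_le_multiset {ι : Type} (S : Finset ι) (ρ : ι → ℂ) (Z : Multiset ℂ)
    (h : ∀ z, (S.filter fun k => ρ k = z).card ≤ Z.count z) {F : ℂ → ℝ} (hF : ∀ z ∈ Z, 0 ≤ F z) :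
    ∑ k ∈ S, F (ρ k) ≤ (Z.map F).sum := by
  have h1 : S.val.map ρ ≤ Z := by
    rw [Multiset.le_iff_count]
    intro z
    refine le_of_eq_of_le ?_ (h z)
    rw [Multiset.count_map, Finset.card_def, Finset.filter_val]
    congr 2
    funext k
    exact propext eq_comm
  obtain ⟨T, rfl⟩ := Multiset.le_iff_exists_add.1 h1
  have h2 : 0 ≤ (T.map F).sum := Multiset.sum_nonneg fun x hx => by
    obtain ⟨z, hz, rfl⟩ := Multiset.mem_map.1 hx
    exact hF z (Multiset.mem_add.2 (Or.inr hz))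
  rw [Multiset.map_add, Multiset.sum_add, Multiset.map_map]
  exact le_add_of_nonneg_right h2

open Classical in
theorem mol_side {ι : Type} (S T : Finset ι) (γ d : ι → ℝ) {r B : ℝ} (hr : 0 < r) (hB : 0 ≤ B)
    (h : ∀ j ∈ S, ((S.filter fun k => |γ k - γ j| ≤ r).card : ℝ) ≤ B) (hT : T ⊆ S)
    (hd : ∀ k ∈ T, r ≤ d k) (hγ : ∀ k j, |γ k - γ j| = |d k - d j|) :
    ∑ k ∈ T, 1 / d k ^ 2 ≤ 2 * B / r ^ 2 := by
  obtain ⟨N, hN⟩ : ∃ N : ℕ, ∀ k ∈ T, ⌊d k / r⌋₊ < N :=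
    ⟨T.sup (fun k => ⌊d k / r⌋₊) + 1, fun k hk =>
      Nat.lt_succ_of_le (Finset.le_sup (f := fun k => ⌊d k / r⌋₊) hk)⟩
  have h1 : ∀ k ∈ T, 1 ≤ d k / r := fun k hk => (one_le_div hr).2 (hd k hk)
  have hm : ∀ k ∈ T, ⌊d k / r⌋₊ ∈ Ioo 0 N := fun k hk =>
    mem_Ioo.2 ⟨Nat.floor_pos.2 (h1 k hk), hN k hk⟩
  have hb : ∀ k ∈ T, ∀ n : ℕ, ⌊d k / r⌋₊ = n → n * r ≤ d k ∧ d k < (n + 1) * r := by
    intro k hk n hn
    have h2 := Nat.floor_le (show 0 ≤ d k / r by linarith [h1 k hk])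
    have h3 := Nat.lt_floor_add_one (d k / r)
    rw [hn] at h2 h3
    exact ⟨(le_div_iff₀ hr).1 h2, (div_lt_iff₀ hr).1 h3⟩
  rw [← Finset.sum_fiberwise_of_maps_to hm]
  have h2 : ∀ n ∈ Ioo 0 N, ∑ k ∈ T.filter (fun k => ⌊d k / r⌋₊ = n), 1 / d k ^ 2 ≤
      B / r ^ 2 * ((n : ℝ) ^ 2)⁻¹ := by
    intro n hn
    have hn0 : (0 : ℝ) < n := by exact_mod_cast (mem_Ioo.1 hn).1
    have h3 : ((T.filter fun k => ⌊d k / r⌋₊ = n).card : ℝ) ≤ B := by
      rcases (T.filter fun k => ⌊d k / r⌋₊ = n).eq_empty_or_nonempty with he | ⟨j, hj⟩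
      · rw [he]
        simpa using hB
      · obtain ⟨hj1, hj2⟩ := mem_filter.1 hj
        refine le_trans (Nat.cast_le.2 (card_le_card fun k hk => ?_)) (h j (hT hj1))
        obtain ⟨hk1, hk2⟩ := mem_filter.1 hk
        obtain ⟨a1, a2⟩ := hb k hk1 n hk2
        obtain ⟨a3, a4⟩ := hb j hj1 n hj2
        refine mem_filter.2 ⟨hT hk1, ?_⟩
        rw [hγ, abs_le]
        constructor <;> linarith
    have h4 := Finset.sum_le_card_nsmul (T.filter fun k => ⌊d k / r⌋₊ = n) (fun k => 1 / d k ^ 2)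
      (1 / (n * r) ^ 2) fun k hk => by
        obtain ⟨hk1, hk2⟩ := mem_filter.1 hk
        have a1 := (hb k hk1 n hk2).1
        gcongr
    rw [nsmul_eq_mul] at h4
    refine h4.trans ((mul_le_mul_of_nonneg_right h3 (by positivity)).trans (le_of_eq ?_))
    field_simp
  refine (sum_le_sum h2).trans ?_
  rw [← mul_sum]
  have h5 := sum_Ioo_inv_sq_le (α := ℝ) 0 N
  refine (mul_le_mul_of_nonneg_left h5 (by positivity)).trans (le_of_eq ?_)
  push_cast
  ring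

open Classical in
/-- Group the `k` by `n = ⌊|γ k - γ₀| / r⌋₊ ≥ 1` and by the sign of `γ k - γ₀`; each group has at most `B`
elements; `∑ 1 / n ^ 2 ≤ 2`. -/
theorem far_sum {ι : Type} (S : Finset ι) (γ : ι → ℝ) {r B : ℝ} (hr : 0 < r) (hB : 0 ≤ B)
    (h : ∀ j ∈ S, ((S.filter fun k => |γ k - γ j| ≤ r).card : ℝ) ≤ B) (γ₀ : ℝ) :
    ∑ k ∈ S.filter (fun k => r ≤ |γ k - γ₀|), 1 / (γ k - γ₀) ^ 2 ≤ 4 * B / r ^ 2 := by
  rw [← Finset.sum_filter_add_sum_filter_not _ (fun k => 0 ≤ γ k - γ₀)]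
  have h1 := mol_side S ((S.filter fun k => r ≤ |γ k - γ₀|).filter fun k => 0 ≤ γ k - γ₀) γ
    (fun k => γ k - γ₀) hr hB h ((filter_subset _ _).trans (filter_subset _ _))
    (fun k hk => by
      obtain ⟨a1, a2⟩ := mem_filter.1 hk
      have a3 := (mem_filter.1 a1).2
      rwa [abs_of_nonneg a2] at a3)
    (fun k j => by rw [sub_sub_sub_cancel_right])
  have h2 := mol_side S ((S.filter fun k => r ≤ |γ k - γ₀|).filter fun k => ¬ 0 ≤ γ k - γ₀) γ
    (fun k => -(γ k - γ₀)) hr hB h ((filter_subset _ _).trans (filter_subset _ _))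
    (fun k hk => by
      obtain ⟨a1, a2⟩ := mem_filter.1 hk
      have a3 := (mem_filter.1 a1).2
      rwa [abs_of_neg (not_le.1 a2)] at a3)
    (fun k j => by
      rw [← abs_neg]
      congr 1
      ring)
  simp only [neg_sq] at h2
  have h3 : 4 * B / r ^ 2 = 2 * B / r ^ 2 + 2 * B / r ^ 2 := by ring
  rw [h3]
  exact add_le_add h1 h2

open Classical in
/-- With `r = δ / 2` and `η + 1 / L ≤ δ / 2`: the zeros with `|im ρ k - im ρ j| ≤ r` lie in the window at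
height `im ρ j` (`window` with `x = σ + l j`, `sum_le_multiset`); the others are treated by `far_sum` and
contribute at most `(σ + 2 η L) 4 B L / (r L) ^ 2`. -/
theorem local_count {θ C φ σ ε : ℝ} (hθ : 0 < θ) (hθ' : θ ≤ 1) (hC : 1 ≤ C) (hφ : 0 ≤ φ) (hσ : 0 < σ)
    (hε : 0 < ε) : ∃ η : ℝ, 0 < η ∧ ∀ᶠ L : ℝ in atTop,
      ∀ (q : ℕ) [NeZero q] (ξ : DirichletCharacter ℂ q), ξ ≠ 1 →
      Pb (fun n => ξ (n : ZMod q)) 0 C θ (Real.exp (φ * L)) →
      ∀ (ι : Type) (S : Finset ι) (ρ : ι → ℂ) (l : ι → ℝ),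
      (∀ z, (S.filter fun k => ρ k = z).card ≤ analyticOrderNatAt ξ.LFunction z) →
      (∀ k ∈ S, l k = (1 - (ρ k).re) * L ∧ 0 ≤ l k ∧ l k ≤ η * L ∧ |(ρ k).im| ≤ Real.exp (η * L)) →
      ∀ j ∈ S, ∑ k ∈ S, (σ + l j + l k) / ((σ + l j + l k) ^ 2 + (L * (ρ j).im - L * (ρ k).im) ^ 2) ≤
        φ / 2 + 1 / (σ + l j) + ε := by
  obtain ⟨δ, η₀, B, hδ, hη₀, hB, hw⟩ := window hθ hθ' hC hφ (half_pos hε)
  obtain ⟨η, hη0, hη1, hη2, hη3⟩ : ∃ η, 0 < η ∧ η ≤ η₀ / 2 ∧ η ≤ δ / 4 ∧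
      η * (12 * (B + 1) / (δ / 2) ^ 2) ≤ ε / 2 := by
    refine ⟨min (η₀ / 2) (min (δ / 4) (ε / 2 / (12 * (B + 1) / (δ / 2) ^ 2))), by positivity,
      min_le_left _ _, (min_le_right _ _).trans (min_le_left _ _), ?_⟩
    rw [← le_div_iff₀ (by positivity)]
    exact (min_le_right _ _).trans (min_le_right _ _)
  refine ⟨η, hη0, ?_⟩
  filter_upwards [hw, eventually_ge_atTop (1 : ℝ), eventually_ge_atTop (1 / η),
    eventually_ge_atTop (σ / η)] with L hwL g1 g2 g3 q _ ξ hξ hPb ι S ρ l hcnt hS j hj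
  have hL : 0 < L := by linarith
  have g2' : 1 / L ≤ η := by
    rw [div_le_iff₀ hη0] at g2
    rw [div_le_iff₀ hL]
    linarith
  have g3' : σ ≤ η * L := by
    rw [div_le_iff₀ hη0] at g3
    linarith
  have h1L : 0 < 1 / L := by positivity
  have hηL : η * L ≤ η₀ / 2 * L := mul_le_mul_of_nonneg_right hη1 hL.le
  have hηL0 : 0 < η * L := by positivity
  have hre : ∀ k ∈ S, (ρ k).re = 1 - l k / L := fun k hk => by
    rw [(hS k hk).1]
    field_simp
    ring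
  have hwin : ∀ i ∈ S, ∃ Z : Multiset ℂ,
      (∀ z, ((S.filter fun k => |(ρ k).im - (ρ i).im| ≤ δ / 2).filter fun k => ρ k = z).card ≤
        Z.count z) ∧ (∀ z ∈ Z, z.re ≤ 1) ∧ (Z.card : ℝ) ≤ B * L ∧
      ∀ x : ℝ, 0 < x → x ≤ η₀ * L →
        (Z.map fun z => (1 / ((1 + x / L : ℝ) + ((ρ i).im : ℝ) * I - z)).re).sum ≤
          L * (φ / 2 + 1 / x + ε / 2) := by
    intro i hi
    obtain ⟨Z, z1, z2, z3, z4⟩ := hwL q ξ hξ hPb (ρ i).im
      ((hS i hi).2.2.2.trans (Real.exp_le_exp.2 (by linarith)))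
    refine ⟨Z, fun z => ?_, z2, z3, z4⟩
    rcases ((S.filter fun k => |(ρ k).im - (ρ i).im| ≤ δ / 2).filter
      fun k => ρ k = z).eq_empty_or_nonempty with he | ⟨k, hk⟩
    · rw [he]
      simp
    · obtain ⟨a1, a2⟩ := mem_filter.1 hk
      obtain ⟨a3, a4⟩ := mem_filter.1 a1
      rw [z1, if_pos]
      · exact (card_le_card (filter_subset_filter _ (filter_subset _ _))).trans (hcnt z)
      · refine (norm_le_abs_re_add_abs_im _).trans ?_
        obtain ⟨-, b1, b2, -⟩ := hS k a3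
        have b3 : 0 ≤ l k / L := by positivity
        have b4 : l k / L ≤ η := (div_le_iff₀ hL).2 b2
        have b5 : (z - ((ρ i).im : ℝ) * I - ((1 + 1 / L : ℝ) : ℂ)).re = -(l k / L + 1 / L) := by
          rw [sub_re, sub_re, ofReal_re, ← a2, hre k a3]
          simp
          ring
        have b6 : (z - ((ρ i).im : ℝ) * I - ((1 + 1 / L : ℝ) : ℂ)).im = (ρ k).im - (ρ i).im := by
          rw [sub_im, sub_im, ofReal_im, ← a2]
          simp
        rw [b5, b6, abs_neg, abs_of_nonneg (by linarith)]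
        linarith
  have hcard : ∀ i ∈ S, ((S.filter fun k => |(ρ k).im - (ρ i).im| ≤ δ / 2).card : ℝ) ≤ B * L := by
    intro i hi
    obtain ⟨Z, z1, -, z3, -⟩ := hwin i hi
    have a1 := sum_le_multiset _ ρ Z z1 (F := fun _ => 1) fun _ _ => zero_le_one
    simp only [sum_const, nsmul_eq_mul, mul_one, Multiset.map_const', Multiset.sum_replicate] at a1
    exact a1.trans z3
  have hfar := far_sum S (fun k => (ρ k).im) (half_pos hδ) (by positivity) hcard (ρ j).im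
  obtain ⟨Z, z1, z2, -, z4⟩ := hwin j hj
  obtain ⟨-, j1, j2, -⟩ := hS j hj
  obtain ⟨x, hx⟩ : ∃ x, x = σ + l j := ⟨_, rfl⟩
  rw [← hx]
  have hx0 : 0 < x := by linarith
  have hxL : 0 < x / L := by positivity
  have hF : ∀ z : ℂ, (1 / (((1 + x / L : ℝ) : ℂ) + ((ρ j).im : ℝ) * I - z)).re =
      (1 + x / L - z.re) / ((1 + x / L - z.re) ^ 2 + ((ρ j).im - z.im) ^ 2) := fun z => by
    have b1 : (((1 + x / L : ℝ) : ℂ) + ((ρ j).im : ℝ) * I - z).re = 1 + x / L - z.re := by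
      rw [sub_re, add_re, ofReal_re]
      simp
    have b2 : (((1 + x / L : ℝ) : ℂ) + ((ρ j).im : ℝ) * I - z).im = (ρ j).im - z.im := by
      rw [sub_im, add_im, ofReal_im]
      simp
    rw [one_div, inv_re, normSq_apply, b1, b2, ← sq, ← sq]
  have hnear := (sum_le_multiset _ ρ Z z1 fun z hz => by
    rw [hF]
    have := z2 z hz
    exact div_nonneg (by linarith) (by positivity)).trans (z4 x hx0 (by linarith))
  rw [← Finset.sum_filter_add_sum_filter_not S (fun k => |(ρ k).im - (ρ j).im| ≤ δ / 2)]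
  have e1 : ∑ k ∈ S.filter (fun k => |(ρ k).im - (ρ j).im| ≤ δ / 2),
      (x + l k) / ((x + l k) ^ 2 + (L * (ρ j).im - L * (ρ k).im) ^ 2) ≤ φ / 2 + 1 / x + ε / 2 := by
    refine le_of_mul_le_mul_left (le_of_eq_of_le ?_ hnear) hL
    rw [mul_sum]
    refine sum_congr rfl fun k hk => ?_
    have a1 := (mem_filter.1 hk).1
    have a2 : 0 < x + l k := by linarith [(hS k a1).2.1]
    have a3 : 1 + x / L - (1 - l k / L) = (x + l k) / L := by ring
    rw [hF, hre k a1, a3]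
    field_simp
  have e2 : ∑ k ∈ S.filter (fun k => ¬ |(ρ k).im - (ρ j).im| ≤ δ / 2),
      (x + l k) / ((x + l k) ^ 2 + (L * (ρ j).im - L * (ρ k).im) ^ 2) ≤
      ∑ k ∈ S.filter (fun k => δ / 2 ≤ |(ρ k).im - (ρ j).im|),
        3 * η / L * (1 / ((ρ k).im - (ρ j).im) ^ 2) := by
    refine le_trans (sum_le_sum fun k hk => ?_) (sum_le_sum_of_subset_of_nonneg
      (fun k hk => mem_filter.2 ⟨(mem_filter.1 hk).1, (not_le.1 (mem_filter.1 hk).2).le⟩)
      fun k _ _ => by positivity)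
    obtain ⟨a1, a2⟩ := mem_filter.1 hk
    obtain ⟨-, k1, k2, -⟩ := hS k a1
    have a3 : (ρ k).im - (ρ j).im ≠ 0 := abs_pos.1 ((half_pos hδ).trans (not_le.1 a2))
    have a4 : (L * (ρ j).im - L * (ρ k).im) ^ 2 = L ^ 2 * ((ρ k).im - (ρ j).im) ^ 2 := by ring
    rw [a4]
    calc (x + l k) / ((x + l k) ^ 2 + L ^ 2 * ((ρ k).im - (ρ j).im) ^ 2) ≤
          (3 * η * L) / (L ^ 2 * ((ρ k).im - (ρ j).im) ^ 2) :=
          div_le_div₀ (by positivity) (by linarith) (by positivity)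
            (le_add_of_nonneg_left (sq_nonneg _))
      _ = _ := by field_simp
  rw [← mul_sum] at e2
  have e3 := mul_le_mul_of_nonneg_left hfar (show 0 ≤ 3 * η / L by positivity)
  have e4 : 3 * η / L * (4 * (B * L) / (δ / 2) ^ 2) ≤ η * (12 * (B + 1) / (δ / 2) ^ 2) := by
    calc 3 * η / L * (4 * (B * L) / (δ / 2) ^ 2) = η * (12 * B / (δ / 2) ^ 2) := by
          field_simp
          ring
      _ ≤ _ := by
          gcongr
          linarith
  linarith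

end Mo

end Pool.Agent.Lib.MP_778b46_nt.GX
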