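import Pool.Agent.Lib.MP_778b46_nt.GX.MoM
import Pool.Agent.Lib.MP_778b46_nt.GX.MoL

set_option autoImplicit false
set_option linter.unusedSectionVars false

noncomputable section

namespace Pool.Agent.Lib.MP_778b46_nt.GX

open Complex Finset Filter MeasureTheory Topology
open scoped Real ContDiff ArithmeticFunction.Moebius

/-! The mollifier inequality for Dirichlet characters. -/

namespace Mo

variable {Q : ℕ} [NeZero Q]

theorem pr_mul (χ : DC Q) (m n : ℕ) : pr χ (m * n) = pr χ m * pr χ n := by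
  simp [pr]

theorem pr_one (χ : DC Q) : pr χ 1 = 1 := by
  simp [pr]

theorem norm_pr_le (χ : DC Q) (n : ℕ) : ‖pr χ n‖ ≤ 1 := by
  exact DirichletCharacter.norm_le_one _ _

theorem one_le_cd (χ : DC Q) : 1 ≤ cd χ := by
  exact Nat.one_le_cast.2 (NeZero.one_le)

theorem prim_ne_one {χ : DC Q} (h : χ ≠ 1) : χ.primitiveCharacter ≠ 1 := by
  exact fun e => h (by rw [← χ.changeLevel_primitiveCharacter, e, map_one])

/-- If `n` is prime to both conductors choose `n'` prime to `Q` and congruent to `n` modulo their product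
(`ZMod.unitsMap_surjective` for the modulus `Q * product`, or `Nat.exists_coprime`-type lemmas); the conductor
of the quotient divides the product; `primitiveCharacter_apply_of_isCoprime`. -/
theorem pr_mul_conj (χ ψ : DC Q) (n : ℕ) : pr χ n * starRingEnd ℂ (pr ψ n) =
    if n.Coprime (χ.conductor * ψ.conductor) then pr (χ / ψ) n else 0 := by
  split_ifs with h
  · have h1 := Nat.lcm_dvd χ.conductor_dvd_level ψ.conductor_dvd_level
    obtain ⟨u, hu⟩ := ZMod.unitsMap_surjective h1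
      (ZMod.unitOfCoprime n (h.coprime_dvd_right (Nat.lcm_dvd_mul _ _)))
    have h2 : (u : ZMod Q).val ≡ n [MOD χ.conductor.lcm ψ.conductor] := by
      rw [← ZMod.natCast_eq_natCast_iff, ZMod.natCast_val, ← ZMod.unitsMap_val h1, hu,
        ZMod.coe_unitOfCoprime]
    have h3 : ∀ ξ : DC Q, ξ.conductor ∣ χ.conductor.lcm ψ.conductor → pr ξ n = ξ u := fun ξ h => by
      have := ξ.primitiveCharacter_apply_of_isCoprime
        (Nat.isCoprime_iff_coprime.2 (ZMod.val_coe_unit_coprime u))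
      rw [Int.cast_natCast, Int.cast_natCast, ZMod.natCast_zmod_val,
        (ZMod.natCast_eq_natCast_iff _ _ _).2 (h2.of_dvd h)] at this
      exact this
    rw [h3 χ (Nat.dvd_lcm_left _ _), h3 ψ (Nat.dvd_lcm_right _ _), div_eq_mul_inv,
      h3 _ (ψ.conductor_inv ▸ χ.conductor_mul_dvd_lcm_conductor ψ⁻¹), MulChar.mul_apply,
      ← ψ.star_apply']
    rfl
  · rw [Nat.coprime_mul_iff_right, not_and_or, ← ZMod.isUnit_iff_coprime,
      ← ZMod.isUnit_iff_coprime] at h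
    rcases h with h | h <;> simp [pr, MulChar.map_nonunit _ h]

/-- `TB` with `r = 1` and with `r` the product of the conductors; choose `ε` and `e₀` small, `Pb.mono`. -/
theorem pb_of_TB {ph0 ph ph' f : ℝ} (h0 : 0 < ph0) (hTB : TB ph0) (h1 : ph0 < ph) (hf : 0 ≤ f)
    (h2 : f * ph0 < ph') : ∃ e₀ θ C : ℝ, 0 < e₀ ∧ e₀ ≤ ph ∧ e₀ ≤ ph' ∧ 0 < θ ∧ θ ≤ 1 ∧ 1 ≤ C ∧
    ∀ L : ℝ, 0 ≤ L → ∀ (Q : ℕ) [NeZero Q] (χ : DC Q), cd χ ≤ Real.exp L →
      (χ ≠ 1 → Pb (pr χ) 0 C θ (Real.exp ((ph - e₀) * L))) ∧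
      ∀ ψ : DC Q, cd ψ ≤ Real.exp L → ψ ≠ χ → cd (χ / ψ) ≤ Real.exp (f * L) →
        Pb (fun n => pr χ n * starRingEnd ℂ (pr ψ n)) 0 C θ (Real.exp ((ph' - e₀) * L)) := by
  have h3 := mul_nonneg hf h0.le
  obtain ⟨g, g0, g1, g2⟩ : ∃ g : ℝ, 0 < g ∧ 2 * g ≤ ph - ph0 ∧ 2 * g ≤ ph' - f * ph0 :=
    ⟨min (ph - ph0) (ph' - f * ph0) / 2, half_pos (lt_min (by linarith) (by linarith)),
      by linarith [min_le_left (ph - ph0) (ph' - f * ph0)],
      by linarith [min_le_right (ph - ph0) (ph' - f * ph0)]⟩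
  obtain ⟨ε, e0, e1⟩ : ∃ ε : ℝ, 0 < ε ∧ (f + 2) * ε = g :=
    ⟨g / (f + 2), by positivity, by field_simp⟩
  obtain ⟨θ, C, t0, t1, hC, h⟩ := hTB ε e0
  have key : ∀ (L a b c : ℝ) (Q : ℕ) [NeZero Q] (ξ : DC Q) (r : ℕ), 0 ≤ L → ξ ≠ 1 → 1 ≤ r →
      cd ξ ≤ Real.exp (a * L) → (r : ℝ) ≤ Real.exp (b * L) → a * ph0 + (a + b) * ε ≤ c →
      Pb (fun n => if n.Coprime r then pr ξ n else 0) 0 C θ (Real.exp (c * L)) := by
    intro L a b c Q _ ξ r hL h1 hr ha hb hc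
    have := one_le_cd ξ
    refine Pb.mono (y := cd ξ ^ ph0 * (cd ξ * r) ^ ε) (fun x hx => ?_) (by linarith) t0.le
      (by positivity) ?_
    · rw [zero_mul, sub_zero, ← sum_filter]
      exact h Q ξ h1 r hr x hx
    · calc _ ≤ Real.exp (a * L) ^ ph0 * (Real.exp (a * L) * Real.exp (b * L)) ^ ε := by gcongr
        _ = Real.exp ((a * ph0 + (a + b) * ε) * L) := by
          rw [← Real.exp_add, ← Real.exp_mul, ← Real.exp_mul, ← Real.exp_add]
          congr 1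
          ring
        _ ≤ _ := by gcongr
  refine ⟨g, θ, C, g0, by linarith, by linarith, t0, by linarith, hC, fun L hL Q _ χ hχ =>
    ⟨fun h1 => ?_, fun ψ hψ h1 h2 => ?_⟩⟩
  · simpa using key L 1 0 (ph - g) Q χ 1 hL h1 le_rfl (by simpa using hχ) (by simp)
      (by nlinarith [mul_nonneg hf e0.le])
  · simp only [pr_mul_conj]
    refine key L f 2 (ph' - g) Q _ _ hL (div_ne_one.2 h1.symm) NeZero.one_le h2 ?_ (by linarith)
    rw [two_mul, Real.exp_add, Nat.cast_mul]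
    exact mul_le_mul hχ hψ (Nat.cast_nonneg _) (Real.exp_pos _).le

/-- `pb_of_TB`, `mol_abs` with `cl = χ`, `L = log P`, `vp j = ph / 2 + 1 / (sg + l j)`; `local_count` with
`φ = ph - e₀`, `ε = e₀ / 2` and `S` the class of `j`; `lfun_tendsto` (`cnt ≥ 1`, so `ord ≠ 0` and the
`L`-function vanishes at `ρ j`). -/
theorem mol {ph0 : ℝ} (h0 : 0 < ph0) (hTB : TB ph0) : MOL ph0 := by
  classical
  intro p ph ph' f ε1 hp h1 hf h2 hε
  obtain ⟨e₀, θ, C, e0, e1, e2, t0, t1, hC, hPb⟩ := pb_of_TB h0 hTB h1 hf h2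
  have hσ : 0 < p.sg := hp.2.2.2.2.2.2.2
  obtain ⟨η₁, n1, H1⟩ := mol_abs p hp e0 e1 e2 t0 t1 hC hε
  obtain ⟨η₂, n2, H2⟩ := local_count t0 t1 hC (sub_nonneg.2 e1) hσ (half_pos e0)
  obtain ⟨L0, hL0⟩ := eventually_atTop.1 ((H1.and H2).and (eventually_gt_atTop 0))
  clear H1 H2
  obtain ⟨η, n0, n3, n4, n5⟩ : ∃ η : ℝ, 0 < η ∧ η ≤ η₁ ∧ η ≤ η₂ ∧ η < 1 :=
    ⟨min (min η₁ η₂) (1 / 2), by positivity, (min_le_left _ _).trans (min_le_left _ _),
      (min_le_left _ _).trans (min_le_right _ _), (min_le_right _ _).trans_lt one_half_lt_one⟩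
  refine ⟨η, η, Real.exp L0, n0, n0, fun P hP Q _ ι _ χ ρ lmin hS hl hj hjk => ?_⟩
  obtain ⟨L, rfl⟩ : ∃ L, P = Real.exp L := ⟨_, (Real.exp_log ((Real.exp_pos _).trans_le hP)).symm⟩
  obtain ⟨⟨H1, H2⟩, hL⟩ := hL0 L (Real.exp_le_exp.1 hP)
  simp only [lam, Real.log_exp, ← Real.exp_mul, mul_comm L] at hj hjk ⊢
  have hb : ∀ η', η ≤ η' → ∀ j, (1 - (ρ j).re) * L ≤ η' * L ∧ |(ρ j).im| ≤ Real.exp (η' * L) :=
    fun η' h j => ⟨(hj j).2.2.2.1.trans (by gcongr), (hj j).2.2.2.2.trans (by gcongr)⟩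
  have ho : ∀ j z, cnt χ ρ (χ j) z ≤ analyticOrderNatAt (χ j).primitiveCharacter.LFunction z :=
    fun j z => by simpa only [ord, Lp, Lf, if_neg (prim_ne_one (hj j).1)] using hS (χ j) z
  have H := H1 ι (DC Q) χ (fun j => pr (χ j)) ρ (fun j => (1 - (ρ j).re) * L)
    (fun j => ph / 2 + 1 / (p.sg + (1 - (ρ j).re) * L)) lmin (fun j => pr_mul _)
    (fun j => pr_one _) (fun j => norm_pr_le _) (fun j k h => by rw [h])
    (fun j => (hPb L hL.le Q _ (hj j).2.1).1 (hj j).1)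
    (fun j k h => (hPb L hL.le Q _ (hj j).2.1).2 _ (hj k).2.1 h (hjk j k))
    (fun j => by
      have a1 := Pool.Agent.Lib.MP_e97e2b_nt.Ln.lfun_tendsto _ (prim_ne_one (hj j).1) (s := ρ j)
        (by nlinarith [(hj j).2.2.2.1])
      rwa [apply_eq_zero_of_analyticOrderNatAt_ne_zero (Nat.pos_iff_ne_zero.1
        ((card_pos.2 ⟨j, by simp⟩).trans_le (ho j (ρ j))))] at a1)
    hl (fun j => ⟨rfl, (hj j).2.2.1, hb _ n3 j⟩) fun j => ⟨by
      have := hl.trans (hj j).2.2.1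
      have := h0.trans h1
      positivity, by
      refine (H2 _ _ (prim_ne_one (hj j).1) ((hPb L hL.le Q _ (hj j).2.1).1 (hj j).1) ι
        (univ.filter fun k => χ k = χ j) ρ (fun j => (1 - (ρ j).re) * L) (fun z => ?_)
        (fun k _ => ⟨rfl, hl.trans (hj k).2.2.1, hb _ n4 k⟩) j (by simp)).trans_eq (by ring)
      rw [filter_filter]
      refine le_of_eq_of_le ?_ (ho j z)
      unfold cnt
      congr⟩
  have hΔ : 0 < Real.exp (p.sg * p.v) - Real.exp (p.sg * p.u) :=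
    sub_pos.2 (Real.exp_lt_exp.2 (mul_lt_mul_of_pos_left hp.2.2.2.2.1 hσ))
  rw [Gm, one_div, inv_mul_eq_div, le_div_iff₀ hΔ, sum_mul] at H
  refine le_trans (le_of_eq (sum_congr rfl fun j _ => ?_)) H
  rw [div_mul_eq_mul_div]
  rfl

end Mo

end Pool.Agent.Lib.MP_778b46_nt.GX
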