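import Pool.Agent.Lib.MP_778b46_nt.GX.As2
import Pool.Agent.Lib.MP_778b46_nt.GX.As7
import Pool.Agent.Lib.MP_778b46_nt.GX.As8
import Pool.Agent.Lib.MP_778b46_nt.GX.MoW
import Pool.Agent.Lib.MP_778b46_nt.VA.Dyad

set_option autoImplicit false

noncomputable section

namespace Pool.Agent.Lib.MP_778b46_nt.GX

open Finset Filter
open scoped Classical

/-! The assembly. -/

theorem as5_x {X th L : ℝ} (hX : 0 < X) (h : Real.log 4 ≤ (1 - L * th) * Real.log X) {z : ℂ}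
    (hz : z.re ≤ 1) : (X / 4) ^ (z.re - 1) ≤ Real.exp (-(L * lam (X ^ th) z)) := by
  rw [Real.rpow_def_of_pos (by positivity), Real.log_div hX.ne' (by norm_num), lam,
    Real.log_rpow hX]
  apply Real.exp_le_exp.2
  nlinarith [mul_le_mul_of_nonneg_left h (sub_nonneg.2 hz)]

section

variable {Q : ℕ} [NeZero Q] {ι : Type} [Fintype ι] {χ : ι → DC Q} {ρ : ι → ℂ}

theorem as5_sum {l : ι → ℝ} {P A L B : ℝ} (h : Big χ ρ l P A) (hL : 5 / 2 ≤ L)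
    (hB : ((PP χ).card : ℝ) ≤ B) : ∑ i, yw L l i ≤ A + B := by
  have e : ∑ i, yw L l i = ∑ i ∈ NP χ, yw L l i + ∑ i ∈ PP χ, yw L l i := by
    rw [add_comm, NP, PP, Finset.sum_filter_add_sum_filter_not]
  have h1 : ∑ i ∈ NP χ, yw L l i ≤ A := h.sum_yw hL fun i hi => by simpa [NP] using hi
  have h2 : ∑ i ∈ PP χ, yw L l i ≤ ∑ _i ∈ PP χ, (1 : ℝ) := by
    refine Finset.sum_le_sum fun i _ => ?_
    have := h.nonneg i
    exact Real.exp_le_one_iff.2 (by nlinarith)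
  rw [Finset.sum_const, nsmul_eq_mul, mul_one] at h2
  linarith

theorem as5_cmp {C u : ℝ} (hC : 0 ≤ C) (hu : 0 ≤ u) (m : ℕ) {x y : ι → ℝ} (hx : ∀ i, 0 ≤ x i)
    (hy : ∀ i, x i ≤ y i) :
    ∑ i, ∑ j, wt C m (χ i) (χ j) (ρ i) (ρ j) * (x i * x j) + ∑ i, wt0 C (χ i) (ρ i) * x i +
        u * (1 + ∑ i, x i) ^ 2 ≤
      T2 C m χ ρ y univ + T1 C χ ρ y univ + u * (1 + ∑ i, y i) ^ 2 := by
  have h0 : 0 ≤ ∑ i, x i := Finset.sum_nonneg fun i _ => hx i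
  have h1 : ∑ i, x i ≤ ∑ i, y i := Finset.sum_le_sum fun i _ => hy i
  refine add_le_add (add_le_add ?_ ?_) ?_
  · refine Finset.sum_le_sum fun i _ => Finset.sum_le_sum fun j _ => ?_
    exact mul_le_mul_of_nonneg_left
      (mul_le_mul (hy i) (hy j) (hx j) ((hx i).trans (hy i))) (wt_nonneg hC _ _ _ _ _)
  · exact Finset.sum_le_sum fun i _ => mul_le_mul_of_nonneg_left (hy i) (wt0_nonneg hC _ _)
  · gcongr

end

theorem as5_third {X th A η e c s : ℝ} (hX : 1 ≤ X) (hth : 0 < th) (hA : 1 ≤ A) (hη : 0 ≤ η)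
    (he : 0 ≤ e) (hc : 2 * (η * e) ≤ c / 2) (hs0 : 0 ≤ s) (hs : s ≤ A + A * (X ^ η) ^ e) :
    2 * X ^ (-c) * (1 + s) ^ 2 ≤ 18 * A ^ 2 * (X ^ th) ^ (-(c / (2 * th))) := by
  have hX0 : 0 < X := by linarith
  rw [← Real.rpow_mul hX0.le] at hs
  rw [← Real.rpow_mul hX0.le]
  have e1 : th * -(c / (2 * th)) = -(c / 2) := by field_simp
  rw [e1]
  set t := X ^ (η * e) with ht
  have t1 : 1 ≤ t := Real.one_le_rpow hX (by positivity)
  have h1 : 1 + s ≤ 3 * A * t := by nlinarith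
  have h2 : (1 + s) ^ 2 ≤ (3 * A * t) ^ 2 := by gcongr
  have h3 : X ^ (-c) * t ^ 2 ≤ X ^ (-(c / 2)) := by
    rw [ht, ← Real.rpow_natCast, ← Real.rpow_mul hX0.le, ← Real.rpow_add hX0]
    exact Real.rpow_le_rpow_of_exponent_le hX (by push_cast; linarith)
  have h4 : 0 < X ^ (-c) := Real.rpow_pos_of_pos hX0 _
  calc 2 * X ^ (-c) * (1 + s) ^ 2 ≤ 2 * X ^ (-c) * (3 * A * t) ^ 2 := by gcongr
    _ = 18 * A ^ 2 * (X ^ (-c) * t ^ 2) := by ring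
    _ ≤ _ := by gcongr

theorem as5_local {th L te : ℝ} (h0 : 0 < th) (hL : 5 / 2 ≤ L) (hL' : L < 1 / th)
    (hte : 1 - th < te) (hT : TB (1 / 3)) (hD : DH (1 / 3))
    (hM : MA th) (hE : FIN L) : ∃ K : ℝ, ∀ᶠ X : ℝ in atTop, ∃ E : Finset ℕ,
      (E.card : ℝ) ≤ K * X ^ te ∧
        ∀ m : ℕ, Even m → X ≤ m → (m : ℝ) ≤ 5 / 4 * X → m ∉ E → Gb m := by
  obtain ⟨η1, ε1, s0, CD, P1, hη1, hε1, hs0, hD⟩ := hD (17 / 10) (by norm_num) (by norm_num)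
  obtain ⟨η2, ε2, A1, P2, hη2, hε2, hA1, hm⟩ := mol_exp (Mo.mol (by norm_num) hT)
  obtain ⟨K, hK, hM⟩ := hM
  obtain ⟨e, he, he', heK⟩ : ∃ e : ℝ, 0 < e ∧ e ≤ 1 / 40 ∧ e ≤ 1 / (4 * K) :=
    ⟨min (1 / 40) (1 / (4 * K)), by positivity, min_le_left _ _, min_le_right _ _⟩
  obtain ⟨d0, A2, hd0, hA2, hz⟩ := zeta_sums he he'
  obtain ⟨d1, hd1, d1a, d1b, d1c, d1d⟩ :
      ∃ d1 : ℝ, 0 < d1 ∧ d1 ≤ 1 / 40 ∧ d1 ≤ d0 ∧ d1 ≤ ε1 ∧ d1 ≤ ε2 :=
    ⟨min (min (1 / 40) d0) (min ε1 ε2), by positivity, (min_le_left _ _).trans (min_le_left _ _),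
      (min_le_left _ _).trans (min_le_right _ _), (min_le_right _ _).trans (min_le_left _ _),
      (min_le_right _ _).trans (min_le_right _ _)⟩
  obtain ⟨ε, hε, εa, εb, εc⟩ : ∃ ε : ℝ, 0 < ε ∧ ε ≤ te - 1 + th ∧ ε ≤ th * η1 ∧ ε ≤ th * η2 :=
    ⟨min (te - 1 + th) (min (th * η1) (th * η2)), lt_min (by linarith) (by positivity),
      min_le_left _ _, (min_le_right _ _).trans (min_le_left _ _),
      (min_le_right _ _).trans (min_le_right _ _)⟩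
  obtain ⟨η, c, C, X0, hη, hηε, hηc, hC1, hM⟩ := hM d1 hd1 d1a ε hε
  obtain ⟨A, hA, hAa, hAb⟩ : ∃ A : ℝ, 1 ≤ A ∧ A1 ≤ A ∧ A2 ≤ A :=
    ⟨max A1 A2, hA1.trans (le_max_left _ _), le_max_left _ _, le_max_right _ _⟩
  have hc : 0 < c := lt_of_lt_of_le (by positivity) hηc
  have hc' : 0 < c / (2 * th) := by positivity
  have hec : 2 * (η * e) ≤ c / 2 := by
    have : η * e ≤ η * (1 / (4 * K)) := mul_le_mul_of_nonneg_left heK hη.le
    have e2 : η * (1 / (4 * K)) = η / K / 4 := by field_simp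
    linarith
  obtain ⟨s1, hs1, hB⟩ := caseB (CD := CD) (K := 18 * A ^ 2) hC1 hA hc'
  obtain ⟨K', hK', hCc⟩ := caseC (K := 18 * A ^ 2) (η := η / th) hC1 hA hc' hL
    (lt_min hs0 hs1) hd1 (by positivity) hE
  have tP : Tendsto (fun X : ℝ => X ^ th) atTop atTop := tendsto_rpow_atTop h0
  have hLt : 0 < 1 - L * th := by
    have := (lt_div_iff₀ h0).1 hL'
    linarith
  refine ⟨1 + 5 / 4 * K', ?_⟩
  filter_upwards [tP.eventually hB, tP.eventually hCc, tP.eventually_ge_atTop P1,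
    tP.eventually_ge_atTop P2, eventually_ge_atTop X0, eventually_ge_atTop 1,
    (Real.tendsto_log_atTop.const_mul_atTop hLt).eventually_ge_atTop (Real.log 4)]
    with X hB hCc hP1 hP2 hX0 hX hlog
  have hXp : 0 < X := by linarith
  have hP : 1 ≤ X ^ th := Real.one_le_rpow hX h0.le
  have hlP : 0 ≤ Real.log (X ^ th) := Real.log_nonneg hP
  obtain ⟨E, hEc, hM⟩ := hM X hX0
  obtain ⟨ι, _, χ, ρ, hF⟩ := exists_full (Q := (⌊X ^ th⌋₊).factorial)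
    (fun ξ z => cd ξ ≤ X ^ th ∧ 1 - d1 ≤ z.re ∧ |z.im| ≤ X ^ η) (1 - d1) (X ^ η)
    fun ξ z h => h.2
  have hS := hF.sub
  have key : ∀ a b : ℝ, d1 ≤ a → ε ≤ th * b → ∀ j, cd (χ j) ≤ X ^ th ∧
      lam (X ^ th) (ρ j) ≤ a * Real.log (X ^ th) ∧ |(ρ j).im| ≤ (X ^ th) ^ b := by
    intro a b ha hb j
    obtain ⟨u1, u2, u3⟩ := hF.1 j
    refine ⟨u1, mul_le_mul_of_nonneg_right (by linarith) hlP, u3.trans ?_⟩
    rw [← Real.rpow_mul hXp.le]
    exact Real.rpow_le_rpow_of_exponent_le hX (by linarith)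
  have hm := hm _ hP2 _ ι χ ρ hS (key _ _ d1d εc)
  have hD := hD _ hP1 _ ι χ ρ hS (key _ _ d1c εb)
  obtain ⟨hz1, hz2⟩ := hz _ ι χ ρ hS fun j => by linarith [(hF.1 j).2.1]
  have hBig : Big χ ρ (fun i => lam (X ^ th) (ρ i)) (X ^ th) A :=
    ⟨hS.lam_nonneg hP, fun S h => (hm S h).1.trans hAa, fun S h h' => ((hm S h).2 h').trans hAa,
      hz1.trans hAb⟩
  have hT1 : 1 ≤ X ^ η := Real.one_le_rpow hX hη.le
  have hcard : ((PP χ).card : ℝ) ≤ A * (X ^ η) ^ e :=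
    (hz2 _ hT1 fun j => (hF.1 j).2.2).trans (by gcongr)
  have h3 := as5_third hX h0 hA hη.le he.le hec
    (Finset.sum_nonneg fun i _ => (yw_pos L (fun i => lam (X ^ th) (ρ i)) i).le)
    (as5_sum hBig hL hcard)
  have main : ∀ m : ℕ, Even m → X ≤ m → (m : ℝ) ≤ 5 / 4 * X → m ∉ E →
      T2 C m χ ρ (yw L fun i => lam (X ^ th) (ρ i)) univ +
        T1 C χ ρ (yw L fun i => lam (X ^ th) (ρ i)) univ +
          18 * A ^ 2 * (X ^ th) ^ (-(c / (2 * th))) < 1 → Gb m := by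
    intro m m1 m2 m3 m4 m5
    by_contra hG
    have a1 := hM ι χ ρ hF m m1 m2 m3 m4 hG
    have a2 := as5_cmp (χ := χ) (ρ := ρ) (C := C) (u := 2 * X ^ (-c)) (by linarith) (by positivity) m
      (x := fun i => (X / 4) ^ ((ρ i).re - 1)) (y := yw L fun i => lam (X ^ th) (ρ i))
      (fun i => by positivity) fun i => as5_x hXp hlog (hS.re_lt_one i).le
    linarith
  have hE1 : (E.card : ℝ) ≤ X ^ te :=
    hEc.trans (Real.rpow_le_rpow_of_exponent_le hX (by linarith))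
  have hXte : 0 < X ^ te := Real.rpow_pos_of_pos hXp _
  by_cases hex : ∃ i, lam (X ^ th) (ρ i) ≤ min s0 s1
  · obtain ⟨i, hi⟩ := hex
    obtain ⟨b1, b2, b3, b4⟩ := hD i (hi.trans (min_le_left _ _))
    refine ⟨E, by nlinarith [mul_nonneg hK' hXte.le], fun m m1 m2 m3 m4 => main m m1 m2 m3 m4 ?_⟩
    exact hB L hL _ ι χ ρ hS hBig i (hF.1 i).1 (hi.trans (min_le_right _ _)) b1 b2 b3 b4 m
  · push Not at hex
    obtain ⟨E', c1, c2⟩ := hCc _ ι χ ρ (X ^ η)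
      (by rw [← Real.rpow_mul hXp.le, mul_div_cancel₀ _ h0.ne']) hF hBig (fun i => (hex i).le)
      (5 / 4 * X) (by positivity)
    refine ⟨E ∪ E', ?_, fun m m1 m2 m3 m4 => ?_⟩
    · have u1 : ((E ∪ E').card : ℝ) ≤ E.card + E'.card := by exact_mod_cast card_union_le _ _
      have u2 : X / X ^ th ≤ X ^ te := by
        rw [← Real.rpow_one X, ← Real.rpow_mul hXp.le, ← Real.rpow_sub hXp, Real.rpow_one]
        exact Real.rpow_le_rpow_of_exponent_le hX (by linarith)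
      have u3 : K' * (5 / 4 * X) / X ^ th = 5 / 4 * K' * (X / X ^ th) := by ring
      have u4 : 5 / 4 * K' * (X / X ^ th) ≤ 5 / 4 * K' * X ^ te := by gcongr
      linarith
    · rw [mem_union, not_or] at m4
      exact main m m1 m2 m3 m4.1 (c2 m (by exact_mod_cast hX.trans m2) m3 m4.2)

/-- The exceptional set is small if the modules hold. -/
theorem final2 {th L te : ℝ} (h0 : 0 < th) (h1 : th < 1) (hL : 5 / 2 ≤ L) (hL' : L < 1 / th)
    (hte : 1 - th < te) (hT : TB (1 / 3)) (hD : DH (1 / 3)) (hM : MA th) (hE : FIN L) :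
    EXC te := by
  obtain ⟨K, h⟩ := as5_local h0 hL hL' hte hT hD hM hE
  obtain ⟨X0, h⟩ := eventually_atTop.1 h
  refine VA.exc_of_local Gb (C := K * 4 ^ te) (N0 := max X0 1) (by linarith) fun N hN => ?_
  have n1 : 1 ≤ N := (le_max_right _ _).trans hN
  have n2 : X0 ≤ N := (le_max_left _ _).trans hN
  obtain ⟨E, e1, e2⟩ := h (4 * N) (by linarith)
  refine ⟨E, ?_, fun m m1 m2 m3 m4 => e2 m m1 m2 (by linarith) m4⟩
  rwa [Real.mul_rpow (by norm_num) (by linarith), ← mul_assoc] at e1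

theorem final {th L ph te : ℝ} (h0 : 0 < th) (h1 : th < 1) (hL : 5 / 2 ≤ L) (hL' : L < 1 / th)
    (hph : 1 / 3 < ph) (hte : 1 - th < te) (hT : TB (1 / 3)) (hD : DH (1 / 3)) (hC : CLN (1 / 3))
    (hM : MA th) (hE : CERT L ph) : EXC te :=
  final2 h0 h1 hL hL' hte hT hD hM (fin_of_cert2 hph hC hE.cert2)

end Pool.Agent.Lib.MP_778b46_nt.GX
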