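import Pool.Agent.Lib.MP_778b46_nt.GX.Defs
import Pool.Agent.Lib.MP_e97e2b_nt.Ln.A2a

/- Basic facts on primitive characters, their L-functions and lists of zeros. -/

namespace Pool.Agent.Lib.MP_778b46_nt.GX

open Complex Finset Filter Topology
open Pool.Agent.Lib.MP_e97e2b_nt.Ln (lfun_conj order_conj)

/-! ### Values of primitive characters -/

section Values

variable {Q : ℕ}

theorem pr_one (χ : DC Q) : pr χ 1 = 1 := by simp [pr]

theorem pr_mul (χ : DC Q) (m n : ℕ) : pr χ (m * n) = pr χ m * pr χ n := by simp [pr]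

theorem pr_pow (χ : DC Q) (n k : ℕ) : pr χ (n ^ k) = pr χ n ^ k := by
  induction k with
  | zero => simp [pr_one]
  | succ k ih => rw [pow_succ, pr_mul, ih, pow_succ]

theorem norm_pr_le (χ : DC Q) (n : ℕ) : ‖pr χ n‖ ≤ 1 := χ.primitiveCharacter.norm_le_one _

theorem pr_congr (χ : DC Q) {n n' : ℕ} (h : n ≡ n' [MOD χ.conductor]) : pr χ n = pr χ n' := by
  rw [pr, pr, (ZMod.natCast_eq_natCast_iff _ _ _).2 h]

theorem pr_eq_zero (χ : DC Q) {n : ℕ} (h : ¬ n.Coprime χ.conductor) : pr χ n = 0 :=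
  MulChar.map_nonunit _ (mt (ZMod.isUnit_iff_coprime n _).1 h)

theorem norm_pr (χ : DC Q) {n : ℕ} (h : n.Coprime χ.conductor) : ‖pr χ n‖ = 1 :=
  χ.primitiveCharacter.unit_norm_eq_one (ZMod.unitOfCoprime n h)

theorem pr_eq (χ : DC Q) {n : ℕ} (h : n.Coprime Q) : pr χ n = χ n := by
  have := χ.primitiveCharacter_apply_of_isCoprime (a := n) (Nat.isCoprime_iff_coprime.2 h)
  simpa [pr] using this

variable [NeZero Q]

theorem one_le_cd (χ : DC Q) : 1 ≤ cd χ := by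
  unfold cd
  exact_mod_cast Nat.pos_of_ne_zero χ.conductor_ne_zero

theorem cd_pos (χ : DC Q) : 0 < cd χ := one_pos.trans_le (one_le_cd χ)

theorem cd_one : cd (1 : DC Q) = 1 := by simp [cd, DirichletCharacter.conductor_one]

omit [NeZero Q] in
theorem cd_inv (χ : DC Q) : cd χ⁻¹ = cd χ := by rw [cd, cd, DirichletCharacter.conductor_inv]

theorem cd_mul_le (χ ψ : DC Q) : cd (χ * ψ) ≤ cd χ * cd ψ := by
  have h1 := (DirichletCharacter.conductor_mul_dvd_lcm_conductor χ ψ).trans (Nat.lcm_dvd_mul _ _)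
  have h2 := Nat.le_of_dvd (Nat.mul_pos (Nat.pos_of_ne_zero χ.conductor_ne_zero)
    (Nat.pos_of_ne_zero ψ.conductor_ne_zero)) h1
  unfold cd
  exact_mod_cast h2

theorem exists_lift {l n : ℕ} (hl : l ∣ Q) (hn : n.Coprime l) :
    ∃ n' : ℕ, n'.Coprime Q ∧ n' ≡ n [MOD l] := by
  obtain ⟨u, hu⟩ := ZMod.unitsMap_surjective hl (ZMod.unitOfCoprime n hn)
  refine ⟨(u : ZMod Q).val, ZMod.val_coe_unit_coprime u, ?_⟩
  rw [← ZMod.natCast_eq_natCast_iff, ZMod.natCast_val, ← ZMod.unitsMap_val hl, hu,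
    ZMod.coe_unitOfCoprime]

theorem pr_triv (n : ℕ) : pr (1 : DC Q) n = 1 := by
  rw [pr, DirichletCharacter.primitiveCharacter_one]
  refine MulChar.one_apply ((ZMod.isUnit_iff_coprime n _).2 ?_)
  rw [DirichletCharacter.conductor_one]
  exact Nat.coprime_one_right n

/-- Multiplicativity in the character. -/
theorem pr_mul_char (χ ψ : DC Q) {n : ℕ} (h1 : n.Coprime χ.conductor)
    (h2 : n.Coprime ψ.conductor) : pr (χ * ψ) n = pr χ n * pr ψ n := by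
  obtain ⟨n', a1, a2⟩ := exists_lift (Q := Q)
    (Nat.lcm_dvd χ.conductor_dvd_level ψ.conductor_dvd_level)
    (Nat.Coprime.coprime_dvd_right (Nat.lcm_dvd_mul _ _) (h1.mul_right h2))
  rw [← pr_congr _ (a2.of_dvd (DirichletCharacter.conductor_mul_dvd_lcm_conductor χ ψ)),
    ← pr_congr _ (a2.of_dvd (Nat.dvd_lcm_left _ _)),
    ← pr_congr _ (a2.of_dvd (Nat.dvd_lcm_right _ _)), pr_eq _ a1, pr_eq _ a1, pr_eq _ a1,
    MulChar.mul_apply]

theorem pr_inv (χ : DC Q) (n : ℕ) : pr χ⁻¹ n = starRingEnd ℂ (pr χ n) := by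
  by_cases h : n.Coprime χ.conductor
  · have h1 := pr_mul_char χ⁻¹ χ (by rwa [DirichletCharacter.conductor_inv]) h
    rw [inv_mul_cancel, pr_triv] at h1
    rw [← Complex.inv_eq_conj (norm_pr χ h)]
    exact eq_inv_of_mul_eq_one_left h1.symm
  · rw [pr_eq_zero χ h, pr_eq_zero _ (by rwa [DirichletCharacter.conductor_inv]), map_zero]

theorem pr_div_char (χ ψ : DC Q) {n : ℕ} (h1 : n.Coprime χ.conductor)
    (h2 : n.Coprime ψ.conductor) : pr (χ / ψ) n = pr χ n * starRingEnd ℂ (pr ψ n) := by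
  rw [div_eq_mul_inv, pr_mul_char _ _ h1 (by rwa [DirichletCharacter.conductor_inv]), pr_inv]

theorem prim_eq_one_iff (χ : DC Q) : χ.primitiveCharacter = 1 ↔ χ = 1 := by
  constructor
  · intro h
    rw [← χ.changeLevel_primitiveCharacter, h, map_one]
  · rintro rfl
    exact DirichletCharacter.primitiveCharacter_one

theorem prim_mul_self {χ : DC Q} (h : χ * χ = 1) :
    χ.primitiveCharacter * χ.primitiveCharacter = 1 := by
  apply DirichletCharacter.changeLevel_injective χ.conductor_dvd_level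
  rw [map_mul, χ.changeLevel_primitiveCharacter, h, map_one]

/-- A character is determined by the values of its primitive character. -/
theorem eq_of_pr {χ ψ : DC Q} (h : ∀ n : ℕ, n.Coprime Q → pr χ n = pr ψ n) : χ = ψ := by
  refine MulChar.ext fun u => ?_
  have h1 := ZMod.val_coe_unit_coprime u
  have h2 := h _ h1
  rwa [pr_eq _ h1, pr_eq _ h1, ZMod.natCast_zmod_val] at h2

end Values

/-! ### L-functions -/

section LFun

theorem Lf_one {q : ℕ} [NeZero q] :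
    Lf (1 : DC q) = DirichletCharacter.LFunctionTrivChar₁ q := if_pos rfl

theorem Lf_of_ne {q : ℕ} [NeZero q] {ξ : DC q} (h : ξ ≠ 1) : Lf ξ = ξ.LFunction := if_neg h

theorem Lf_diff {q : ℕ} [NeZero q] (ξ : DC q) : Differentiable ℂ (Lf ξ) := by
  rcases eq_or_ne ξ 1 with rfl | h
  · rw [Lf_one]
    exact DirichletCharacter.differentiable_LFunctionTrivChar₁ q
  · rw [Lf_of_ne h]
    exact DirichletCharacter.differentiable_LFunction h

theorem Lf_ne_zero {q : ℕ} [NeZero q] (ξ : DC q) {s : ℂ} (hs : 1 ≤ s.re) : Lf ξ s ≠ 0 := by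
  rcases eq_or_ne ξ 1 with rfl | h
  · rw [Lf_one]
    rcases eq_or_ne s 1 with rfl | h1
    · exact DirichletCharacter.LFunctionTrivChar₁_apply_one_ne_zero q
    · rw [DirichletCharacter.LFunctionTrivChar₁, Function.update_of_ne h1]
      exact mul_ne_zero (sub_ne_zero.2 h1)
        (DirichletCharacter.LFunction_ne_zero_of_one_le_re _ (Or.inr h1) hs)
  · rw [Lf_of_ne h]
    exact DirichletCharacter.LFunction_ne_zero_of_one_le_re _ (Or.inl h) hs

theorem Lf_congr {c c' : ℕ} [NeZero c] [NeZero c'] (ψ : DC c) (ψ' : DC c') (h : c = c')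
    (hv : ∀ n : ℕ, ψ n = ψ' n) : Lf ψ = Lf ψ' := by
  subst h
  have : ψ = ψ' := MulChar.ext' fun a => by simpa using hv a.val
  rw [this]

theorem Lf_level_one {c : ℕ} [NeZero c] (h : c = 1) (ψ : DC c) : Lf ψ = riemannZeta₁ := by
  subst h
  rw [ψ.level_one, Lf_one]
  funext s
  rcases eq_or_ne s 1 with rfl | h
  · simp
  · rw [DirichletCharacter.LFunctionTrivChar₁, Function.update_of_ne h,
      DirichletCharacter.LFunctionTrivChar_eq_mul_riemannZeta h, riemannZeta_eq_inv_sub_mul h]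
    have : s - 1 ≠ 0 := sub_ne_zero.2 h
    simp [this]

theorem zeta₁_conj (s : ℂ) : riemannZeta₁ (starRingEnd ℂ s) = starRingEnd ℂ (riemannZeta₁ s) := by
  rcases eq_or_ne s 1 with rfl | h
  · simp
  · have h' : starRingEnd ℂ s ≠ 1 := fun e => h (by simpa using congrArg (starRingEnd ℂ) e)
    have e : ∀ z : ℂ, z ≠ 1 → riemannZeta₁ z = (z - 1) * riemannZeta z := fun z hz => by
      rw [riemannZeta_eq_inv_sub_mul hz, mul_inv_cancel_left₀ (sub_ne_zero.2 hz)]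
    rw [e _ h, e _ h', riemannZeta_conj]
    simp

variable {Q : ℕ} [NeZero Q]

theorem Lp_one : Lp (1 : DC Q) = riemannZeta₁ :=
  Lf_level_one DirichletCharacter.conductor_one _

theorem Lp_of_ne {χ : DC Q} (h : χ ≠ 1) : Lp χ = χ.primitiveCharacter.LFunction :=
  Lf_of_ne (mt (prim_eq_one_iff χ).1 h)

theorem Lp_diff (χ : DC Q) : Differentiable ℂ (Lp χ) := Lf_diff _

theorem Lp_analytic (χ : DC Q) (z : ℂ) : AnalyticAt ℂ (Lp χ) z := (Lp_diff χ).analyticAt z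

theorem Lp_ne_zero (χ : DC Q) {s : ℂ} (hs : 1 ≤ s.re) : Lp χ s ≠ 0 := Lf_ne_zero _ hs

theorem Lp_conj (χ : DC Q) (s : ℂ) : Lp χ⁻¹ (starRingEnd ℂ s) = starRingEnd ℂ (Lp χ s) := by
  rcases eq_or_ne χ 1 with rfl | h
  · rw [inv_one, Lp_one, zeta₁_conj]
  · have h1 : χ.primitiveCharacter ≠ 1 := mt (prim_eq_one_iff χ).1 h
    have h2 : Lp χ⁻¹ = Lf χ.primitiveCharacter⁻¹ :=
      Lf_congr _ _ (DirichletCharacter.conductor_inv χ) fun n => by
        rw [← MulChar.star_apply']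
        exact pr_inv χ n
    rw [h2, Lf_of_ne (inv_ne_one.2 h1), lfun_conj _ h1, Lp_of_ne h]

theorem ord_conj (χ : DC Q) (z : ℂ) : ord χ⁻¹ (starRingEnd ℂ z) = ord χ z :=
  order_conj (Lp_diff χ) (Lp_conj χ) z

theorem order_ne_top (χ : DC Q) (z : ℂ) : analyticOrderAt (Lp χ) z ≠ ⊤ := by
  refine AnalyticOnNhd.analyticOrderAt_ne_top_of_isPreconnected (U := Set.univ) (x := 2)
    (fun w _ => Lp_analytic χ w) isPreconnected_univ trivial trivial ?_
  rw [analyticOrderAt_eq_zero.2 (Or.inr (Lp_ne_zero χ (by simp)))]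
  simp

theorem ord_cast (χ : DC Q) (z : ℂ) : (ord χ z : ℕ∞) = analyticOrderAt (Lp χ) z :=
  ENat.natCast_toNat (order_ne_top χ z)

theorem ord_eq_zero_iff (χ : DC Q) (z : ℂ) : ord χ z = 0 ↔ Lp χ z ≠ 0 := by
  rw [← Nat.cast_eq_zero (R := ℕ∞), ord_cast, analyticOrderAt_eq_zero]
  simp [Lp_analytic χ z]

theorem ord_ne_zero_iff (χ : DC Q) (z : ℂ) : ord χ z ≠ 0 ↔ Lp χ z = 0 := by
  rw [Ne, ord_eq_zero_iff, not_not]

theorem ord_eq_zero_of_one_le (χ : DC Q) {z : ℂ} (h : 1 ≤ z.re) : ord χ z = 0 :=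
  (ord_eq_zero_iff χ z).2 (Lp_ne_zero χ h)

theorem re_lt_one_of_ord {χ : DC Q} {z : ℂ} (h : ord χ z ≠ 0) : z.re < 1 :=
  not_le.1 (mt (ord_eq_zero_of_one_le χ) h)

theorem finite_zeros_of_diff {f : ℂ → ℂ} (hf : Differentiable ℂ f) (h2 : f 2 ≠ 0) (B : ℝ) :
    {z : ℂ | ‖z‖ ≤ B ∧ f z = 0}.Finite := by
  by_contra hc
  obtain ⟨x, -, hx⟩ := (Set.not_finite.1 hc).exists_accPt_of_subset_isCompact
    (isCompact_closedBall (0 : ℂ) B) fun z hz => by simpa using hz.1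
  exact h2 (AnalyticOnNhd.eqOn_zero_of_preconnected_of_frequently_eq_zero (U := Set.univ)
    (fun w _ => hf.analyticAt w) isPreconnected_univ (Set.mem_univ x)
    ((accPt_iff_frequently_nhdsNE.1 hx).mono fun z hz => hz.2) (Set.mem_univ 2))

theorem finite_zeros (χ : DC Q) (B : ℝ) : {z : ℂ | ‖z‖ ≤ B ∧ Lp χ z = 0}.Finite :=
  finite_zeros_of_diff (Lp_diff χ) (Lp_ne_zero χ (by simp)) B

end LFun

/-! ### Lists of zeros -/

section Lists

variable {Q : ℕ} [NeZero Q] {ι : Type} [Fintype ι] {χ : ι → DC Q} {ρ : ι → ℂ}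
  {S : DC Q → ℂ → Prop}

omit [NeZero Q] in
theorem cnt_pos (χ : ι → DC Q) (ρ : ι → ℂ) (i : ι) : 0 < cnt χ ρ (χ i) (ρ i) := by
  classical
  exact card_pos.2 ⟨i, by simp⟩

omit [NeZero Q] in
theorem cnt_eq_card (χ : ι → DC Q) (ρ : ι → ℂ) (ξ : DC Q) (z : ℂ) :
    cnt χ ρ ξ z = Nat.card {j // χ j = ξ ∧ ρ j = z} := by
  classical
  rw [Nat.card_eq_fintype_card, Fintype.card_subtype, cnt]

theorem Full.sub (h : Full S χ ρ) : Sub χ ρ := by
  intro ξ z
  by_cases h1 : S ξ z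
  · exact (h.2 ξ z h1).le
  · refine le_trans (le_of_eq ?_) (Nat.zero_le _)
    rw [cnt_eq_card, Nat.card_eq_zero]
    refine Or.inl ⟨?_⟩
    rintro ⟨j, rfl, rfl⟩
    exact h1 (h.1 j)

theorem Sub.ord_ne_zero (h : Sub χ ρ) (i : ι) : ord (χ i) (ρ i) ≠ 0 :=
  ((cnt_pos χ ρ i).trans_le (h _ _)).ne'

theorem Sub.zero (h : Sub χ ρ) (i : ι) : Lp (χ i) (ρ i) = 0 :=
  (ord_ne_zero_iff _ _).1 (h.ord_ne_zero i)

theorem Sub.re_lt_one (h : Sub χ ρ) (i : ι) : (ρ i).re < 1 := re_lt_one_of_ord (h.ord_ne_zero i)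

theorem Sub.lam_nonneg (h : Sub χ ρ) {P : ℝ} (hP : 1 ≤ P) (i : ι) : 0 ≤ lam P (ρ i) :=
  mul_nonneg (sub_nonneg.2 (h.re_lt_one i).le) (Real.log_nonneg hP)

/-- A sublist of a list of zeros. -/
theorem Sub.comp (h : Sub χ ρ) {κ : Type} [Fintype κ] {f : κ → ι} (hf : Function.Injective f) :
    Sub (χ ∘ f) (ρ ∘ f) := by
  intro ξ z
  refine le_trans ?_ (h ξ z)
  rw [cnt_eq_card, cnt_eq_card]
  exact Nat.card_le_card_of_injective (fun j => ⟨f j.1, j.2⟩)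
    fun a b hab => Subtype.ext (hf (congrArg Subtype.val hab))

theorem Sub.subtype (h : Sub χ ρ) (p : ι → Prop) [Fintype {i // p i}] :
    Sub (fun i : {i // p i} => χ i.1) (fun i => ρ i.1) := h.comp Subtype.val_injective

/-- The part of a full list that lies in a smaller region. -/
theorem Full.restrict (h : Full S χ ρ) {S' : DC Q → ℂ → Prop} (hS : ∀ ξ z, S' ξ z → S ξ z)
    [Fintype {i // S' (χ i) (ρ i)}] :
    Full S' (fun i : {i // S' (χ i) (ρ i)} => χ i.1) (fun i => ρ i.1) := by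
  refine ⟨fun i => i.2, fun ξ z hz => ?_⟩
  rw [← h.2 ξ z (hS ξ z hz), cnt_eq_card, cnt_eq_card]
  refine Nat.card_congr ⟨fun j => ⟨j.1.1, j.2⟩, fun j => ⟨⟨j.1, ?_⟩, j.2⟩, fun _ => rfl,
    fun _ => rfl⟩
  rw [j.2.1, j.2.2]
  exact hz

/-- A region may be replaced by one with the same zeros. -/
theorem Full.congr (h : Full S χ ρ) {S' : DC Q → ℂ → Prop}
    (hS : ∀ ξ z, ord ξ z ≠ 0 → (S' ξ z ↔ S ξ z)) : Full S' χ ρ := by
  refine ⟨fun i => (hS _ _ (h.sub.ord_ne_zero i)).2 (h.1 i), fun ξ z hz => ?_⟩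
  by_cases h0 : ord ξ z = 0
  · exact le_antisymm (h.sub ξ z) (h0.trans_le (Nat.zero_le _))
  · exact h.2 ξ z ((hS ξ z h0).1 hz)

theorem Full.exists_index (h : Full S χ ρ) {ξ : DC Q} {z : ℂ} (hz : S ξ z) (h0 : ord ξ z ≠ 0) :
    ∃ i, χ i = ξ ∧ ρ i = z := by
  rw [← h.2 ξ z hz, cnt_eq_card] at h0
  obtain ⟨i⟩ := (Nat.card_ne_zero.1 h0).1
  exact ⟨i.1, i.2⟩

/-- Every list of zeros in the region embeds into the full list. -/
theorem Full.exists_emb (h : Full S χ ρ) {κ : Type} [Fintype κ] {χ' : κ → DC Q} {ρ' : κ → ℂ}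
    (h' : Sub χ' ρ') (hS : ∀ k, S (χ' k) (ρ' k)) :
    ∃ f : κ → ι, Function.Injective f ∧ ∀ k, χ (f k) = χ' k ∧ ρ (f k) = ρ' k := by
  classical
  have key : ∀ c : DC Q × ℂ, Nonempty ({k // (χ' k, ρ' k) = c} ↪ {i // (χ i, ρ i) = c}) := by
    rintro ⟨ξ, z⟩
    by_cases hz : S ξ z
    · refine Function.Embedding.nonempty_of_card_le ?_
      have h1 := (h' ξ z).trans (h.2 ξ z hz).ge
      rw [cnt_eq_card, cnt_eq_card] at h1
      simpa [Prod.ext_iff] using h1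
    · have : IsEmpty {k // (χ' k, ρ' k) = (ξ, z)} := ⟨fun k => hz (by
        obtain ⟨k, hk⟩ := k
        obtain ⟨rfl, rfl⟩ := Prod.ext_iff.1 hk
        exact hS k)⟩
      exact ⟨Function.Embedding.ofIsEmpty⟩
  have e := fun c => Classical.choice (key c)
  refine ⟨fun k => (e _ ⟨k, rfl⟩).1, fun a b hab => ?_, fun k => Prod.ext_iff.1 (e _ ⟨k, rfl⟩).2⟩
  have h1 : (χ' a, ρ' a) = (χ' b, ρ' b) := by
    rw [← (e _ ⟨a, rfl⟩).2, ← (e _ ⟨b, rfl⟩).2]
    simp only at hab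
    rw [hab]
  have h2 : ∀ c (ha : (χ' a, ρ' a) = c), (e c ⟨a, ha⟩).1 = (e _ ⟨a, rfl⟩).1 := by
    rintro c rfl
    rfl
  have h3 := (e (χ' b, ρ' b)).injective (Subtype.ext ((h2 _ h1).trans hab) :
    e _ ⟨a, h1⟩ = e _ ⟨b, rfl⟩)
  exact congrArg Subtype.val h3

/-- Complex conjugation acts on the full list of a symmetric region. -/
theorem Full.exists_conj (h : Full S χ ρ) (hS : ∀ ξ z, S ξ z → S ξ⁻¹ (starRingEnd ℂ z)) :
    ∃ cj : ι ≃ ι, ∀ i, χ (cj i) = (χ i)⁻¹ ∧ ρ (cj i) = starRingEnd ℂ (ρ i) := by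
  obtain ⟨f, h1, h2⟩ := h.exists_emb (χ' := fun i => (χ i)⁻¹)
    (ρ' := fun i => starRingEnd ℂ (ρ i)) (fun ξ z => by
      have := h.sub ξ⁻¹ (starRingEnd ℂ z)
      rw [ord_conj] at this
      refine le_trans (le_of_eq ?_) this
      rw [cnt_eq_card, cnt_eq_card]
      refine Nat.card_congr (Equiv.subtypeEquivRight fun j => and_congr ?_ ?_)
      · exact inv_eq_iff_eq_inv
      · exact ⟨fun h3 => by rw [← h3, conj_conj], fun h3 => by rw [h3, conj_conj]⟩) fun i => hS _ _ (h.1 i)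
  exact ⟨Equiv.ofBijective f (Finite.injective_iff_bijective.1 h1), h2⟩

/-- The full list of a bounded region exists. -/
theorem exists_full (S : DC Q → ℂ → Prop) (a T : ℝ) (hS : ∀ ξ z, S ξ z → a ≤ z.re ∧ |z.im| ≤ T) :
    ∃ (ι : Type) (_ : Fintype ι) (χ : ι → DC Q) (ρ : ι → ℂ), Full S χ ρ := by
  classical
  have hfin : {x : DC Q × ℂ | S x.1 x.2 ∧ ord x.1 x.2 ≠ 0}.Finite := by
    refine (Set.finite_iUnion fun ξ : DC Q =>
      (finite_zeros ξ (|a| + 1 + T)).image fun z => (ξ, z)).subset ?_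
    rintro ⟨ξ, z⟩ ⟨h1, h2⟩
    refine Set.mem_iUnion.2 ⟨ξ, z, ⟨?_, (ord_ne_zero_iff ξ z).1 h2⟩, rfl⟩
    have h3 := re_lt_one_of_ord h2
    have h4 := hS ξ z h1
    have h5 : |z.re| ≤ |a| + 1 :=
      abs_le.2 ⟨by linarith [neg_abs_le a, h4.1], by linarith [abs_nonneg a]⟩
    linarith [Complex.norm_le_abs_re_add_abs_im z, h4.2]
  refine ⟨Σ x : hfin.toFinset, Fin (ord x.1.1 x.1.2), inferInstance, fun i => i.1.1.1,
    fun i => i.1.1.2, fun i => ((Set.Finite.mem_toFinset hfin).1 i.1.2).1, fun ξ z hz => ?_⟩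
  rw [cnt_eq_card]
  by_cases h0 : ord ξ z = 0
  · rw [h0, Nat.card_eq_zero]
    refine Or.inl ⟨?_⟩
    rintro ⟨⟨⟨x, hx⟩, k⟩, rfl, rfl⟩
    exact ((Set.Finite.mem_toFinset hfin).1 hx).2 h0
  · have hm : (ξ, z) ∈ hfin.toFinset := (Set.Finite.mem_toFinset hfin).2 ⟨hz, h0⟩
    refine Eq.trans (Nat.card_congr (Equiv.ofBijective (fun k : Fin (ord ξ z) =>
      (⟨⟨⟨(ξ, z), hm⟩, k⟩, rfl, rfl⟩ : {j : Σ x : hfin.toFinset, Fin (ord x.1.1 x.1.2) //
        j.1.1.1 = ξ ∧ j.1.1.2 = z})) ⟨fun a b hab => ?_, ?_⟩).symm) (by simp)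
    · simpa using hab
    · rintro ⟨⟨⟨⟨ξ', z'⟩, hx⟩, k⟩, rfl, rfl⟩
      exact ⟨k, rfl⟩

end Lists

end Pool.Agent.Lib.MP_778b46_nt.GX
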