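import Pool.Agent.Lib.MP_778b46_nt.GX.DefsMA
import Pool.Agent.Lib.MP_778b46_nt.GX.Basic
import Pool.Agent.Lib.MP_778b46_nt.MA.A1
import Pool.Agent.Lib.MP_778b46_nt.VA.Dyad

/- The major arc theorem in the form of lists of zeros. -/

namespace Pool.Agent.Lib.MP_778b46_nt.GX

open Finset

section

variable {Q : ℕ} [NeZero Q]

theorem as6_fin (ξ : DC Q) (δ T : ℝ) : (MA.zset (Lp ξ) δ T).Finite := by
  refine (finite_zeros ξ (|1 - δ| + 1 + T)).subset ?_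
  rintro z ⟨h0, h1, h2, h3⟩
  refine ⟨(Complex.norm_le_abs_re_add_abs_im z).trans ?_, h0⟩
  have : |z.re| ≤ |1 - δ| + 1 := abs_le.2
    ⟨by linarith [neg_abs_le (1 - δ)], by linarith [abs_nonneg (1 - δ)]⟩
  linarith

theorem as6_mem (ξ : DC Q) (δ T : ℝ) (z : ℂ) :
    z ∈ MA.zs (Lp ξ) δ T ↔ Lp ξ z = 0 ∧ 1 - δ ≤ z.re ∧ z.re ≤ 1 ∧ |z.im| ≤ T := by
  rw [MA.zs, dif_pos (as6_fin ξ δ T), Set.Finite.mem_toFinset]
  rfl

/-- A sum over the zeros with multiplicity is a sum over the full list. -/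
theorem as6_sum {ι : Type} [Fintype ι] {χ : ι → DC Q} {ρ : ι → ℂ} {P δ T : ℝ}
    (h : Full (fun ξ z => cd ξ ≤ P ∧ 1 - δ ≤ z.re ∧ |z.im| ≤ T) χ ρ) (F : DC Q → ℂ → ℝ) :
    ∑ ξ ∈ MA.CH Q P, ∑ z ∈ MA.zs (Lp ξ) δ T, (ord ξ z : ℝ) * F ξ z = ∑ i, F (χ i) (ρ i) := by
  classical
  rw [← sum_fiberwise_of_maps_to (s := univ) (t := MA.CH Q P) (g := χ)
    (fun i _ => mem_filter.2 ⟨mem_univ _, (h.1 i).1⟩)]
  refine sum_congr rfl fun ξ hξ => ?_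
  rw [← sum_fiberwise_of_maps_to (s := univ.filter fun i => χ i = ξ) (t := MA.zs (Lp ξ) δ T)
    (g := ρ) (fun i hi => by
      rw [as6_mem, ← (mem_filter.1 hi).2]
      exact ⟨h.sub.zero i, (h.1 i).2.1, (h.sub.re_lt_one i).le, (h.1 i).2.2⟩)]
  refine sum_congr rfl fun z hz => ?_
  rw [as6_mem] at hz
  rw [← h.2 ξ z ⟨(mem_filter.1 hξ).2, hz.2.1, hz.2.2.2⟩, filter_filter,
    sum_congr rfl (g := fun _ => F ξ z) (fun i hi => by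
      rw [(mem_filter.1 hi).2.1, (mem_filter.1 hi).2.2]), sum_const, nsmul_eq_mul, cnt]
  congr

variable {ι : Type} [Fintype ι] {χ : ι → DC Q} {ρ : ι → ℂ} {P δ T : ℝ}

theorem as6_tot (h : Full (fun ξ z => cd ξ ≤ P ∧ 1 - δ ≤ z.re ∧ |z.im| ≤ T) χ ρ) (X : ℝ) :
    MA.Tot X Q P δ T = ∑ i, (X / 4) ^ ((ρ i).re - 1) :=
  as6_sum h fun _ z => (X / 4) ^ (z.re - 1)

theorem as6_lo1 (h : Full (fun ξ z => cd ξ ≤ P ∧ 1 - δ ≤ z.re ∧ |z.im| ≤ T) χ ρ) (C X : ℝ) :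
    MA.Lo1 C X Q P δ T = ∑ i, wt0 C (χ i) (ρ i) * (X / 4) ^ ((ρ i).re - 1) := by
  rw [← as6_sum h fun ξ z => wt0 C ξ z * (X / 4) ^ (z.re - 1)]
  refine sum_congr rfl fun ξ _ => sum_congr rfl fun z _ => ?_
  simp only [MA.xw, wt0, cd, ord]
  ring

omit [NeZero Q] in
theorem as6_wt (C : ℝ) (m : ℕ) (ξ ψ : DC Q) (z z' : ℂ) :
    MA.ka C m ξ ψ * MA.kb C z z' = wt C m ξ ψ z z' := by
  have h : MA.gg m ξ ψ = gg ξ ψ m := rfl
  rw [MA.ka, MA.kb, wt, h]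
  split_ifs
  · rfl
  · exact zero_mul _

theorem as6_lo2 (h : Full (fun ξ z => cd ξ ≤ P ∧ 1 - δ ≤ z.re ∧ |z.im| ≤ T) χ ρ) (C X : ℝ)
    (m : ℕ) : MA.Lo2 C X Q P δ T m = ∑ i, ∑ j, wt C m (χ i) (χ j) (ρ i) (ρ j) *
      ((X / 4) ^ ((ρ i).re - 1) * (X / 4) ^ ((ρ j).re - 1)) := by
  rw [← as6_sum h fun ξ z => ∑ j, wt C m ξ (χ j) z (ρ j) *
    ((X / 4) ^ (z.re - 1) * (X / 4) ^ ((ρ j).re - 1))]
  refine sum_congr rfl fun ξ _ => ?_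
  rw [sum_comm]
  refine sum_congr rfl fun z _ => ?_
  rw [← as6_sum h fun ψ z' => wt C m ξ ψ z z' * ((X / 4) ^ (z.re - 1) * (X / 4) ^ (z'.re - 1)),
    mul_sum]
  refine sum_congr rfl fun ψ _ => ?_
  rw [mul_sum]
  refine sum_congr rfl fun z' _ => ?_
  simp only [as6_wt, MA.xw, ord]
  ring

end

/-- Only the diagonal term is left if `m` is not a sum of two different primes. -/
theorem as6_RR {X : ℝ} (hX : 1 ≤ X) {m : ℕ} (hm : ¬ Gb m) : MA.RR X m ≤ Real.log X ^ 2 := by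
  have hX0 : 0 < X := one_pos.trans_le hX
  have hb : ∀ n : ℕ, 0 ≤ MA.lp n * MA.w1 (n / X) ∧ MA.lp n * MA.w1 (n / X) ≤ Real.log X := by
    intro n
    have h1 := MA.a1_w1_mem (n / X)
    have h2 : 0 ≤ MA.lp n := by
      rw [MA.lp]
      split_ifs
      · exact Real.log_natCast_nonneg n
      · exact le_rfl
    refine ⟨mul_nonneg h2 h1.1, ?_⟩
    by_cases h3 : 1 ≤ (n : ℝ) / X
    · rw [MA.a1_w1_zero (Or.inr h3), mul_zero]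
      exact Real.log_nonneg hX
    · refine (mul_le_of_le_one_right h2 h1.2).trans ?_
      rw [MA.lp]
      split_ifs with hp
      · exact Real.log_le_log (Nat.cast_pos.2 hp.pos) ((div_lt_one hX0).1 (not_le.1 h3)).le
      · exact Real.log_nonneg hX
  have hp : ∀ n : ℕ, MA.lp n * MA.w1 (n / X) ≠ 0 → n.Prime := by
    intro n hn
    by_contra h
    exact hn (by rw [MA.lp, if_neg h, zero_mul])
  by_contra hcon
  refine hm (VA.distinct_of_sum m _ _ (sq_nonneg (Real.log X)) (fun x hx h => ?_) (fun x _ _ => ?_)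
    (not_le.1 hcon))
  · exact ⟨hp _ (left_ne_zero_of_mul h), hp _ (right_ne_zero_of_mul h), mem_antidiagonal.1 hx⟩
  · rw [sq]
    exact mul_le_mul (hb _).2 (hb _).2 (hb _).1 (Real.log_nonneg hX)

theorem as6_log {X : ℝ} (hX : 2 ^ 40 ≤ X) : 16 * Real.log X ^ 2 ≤ X * X ^ (-(1 / 2) : ℝ) := by
  have hX0 : 0 < X := lt_of_lt_of_le (by norm_num) hX
  have h1 : Real.log X ≤ X ^ (1 / 8 : ℝ) / (1 / 8) := Real.log_le_rpow_div hX0.le (by norm_num)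
  have h2 : (2 : ℝ) ^ 5 ≤ X ^ (1 / 8 : ℝ) := by
    calc (2 : ℝ) ^ 5 = ((2 : ℝ) ^ 40) ^ (1 / 8 : ℝ) := by
          rw [← Real.rpow_natCast, ← Real.rpow_natCast, ← Real.rpow_mul (by norm_num)]
          norm_num
      _ ≤ _ := Real.rpow_le_rpow (by norm_num) hX (by norm_num)
  have h3 : X * X ^ (-(1 / 2) : ℝ) = (X ^ (1 / 8 : ℝ)) ^ 4 := by
    rw [← Real.rpow_natCast, ← Real.rpow_mul hX0.le, mul_comm, ← Real.rpow_add_one hX0.ne']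
    norm_num
  have h4 : 0 ≤ Real.log X := Real.log_nonneg (le_trans (by norm_num) hX)
  rw [h3]
  set y := X ^ (1 / 8 : ℝ)
  have h5 : Real.log X ^ 2 ≤ (8 * y) ^ 2 := pow_le_pow_left₀ h4 (by linarith) 2
  have h6 : (2 ^ 5) ^ 2 ≤ y ^ 2 := pow_le_pow_left₀ (by norm_num) h2 2
  nlinarith [sq_nonneg y]

/-- From the form with sums over the zero sets to the form with lists. -/
theorem ma_of_sets {K ϑ : ℝ} (hK : 0 < K)
    (h : ∀ δ ε : ℝ, 0 < δ → δ ≤ 1 / 40 → 0 < ε →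
      ∃ η c C : ℝ, 0 < η ∧ η ≤ ε ∧ η / K ≤ c ∧ 1 ≤ C ∧ ∀ X : ℝ, C ≤ X → ∀ (N : ℕ) [NeZero N],
        N = ⌊X ^ ϑ⌋₊.factorial → ∃ E : Finset ℕ, (E.card : ℝ) ≤ X ^ (1 - ϑ + ε) ∧
          ∀ m : ℕ, Even m → X ≤ m → (m : ℝ) ≤ 5 / 4 * X → m ∉ E → ∃ A : ℝ, X / 16 ≤ A ∧
            A * (1 - MA.Lo2 C X N (X ^ ϑ) δ (X ^ η) m - MA.Lo1 C X N (X ^ ϑ) δ (X ^ η) -
              X ^ (-c) * (1 + MA.Tot X N (X ^ ϑ) δ (X ^ η)) ^ 2) ≤ MA.RR X m) : MA ϑ := by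
  refine ⟨max K 2, lt_max_of_lt_left hK, fun δ h0 h1 ε hε => ?_⟩
  obtain ⟨η, c, C, a1, a2, a3, a4, a5⟩ := h δ (min ε 1) h0 h1 (lt_min hε one_pos)
  refine ⟨η, min c (1 / 2), C, max C (2 ^ 40), a1, a2.trans (min_le_left _ _), le_min
    ((div_le_div_of_nonneg_left a1.le hK (le_max_left _ _)).trans a3)
    (div_le_div₀ zero_le_one (a2.trans (min_le_right _ _)) two_pos (le_max_right _ _)), a4,
    fun X hX => ?_⟩
  have b1 : (2 : ℝ) ^ 40 ≤ X := (le_max_right _ _).trans hX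
  have b2 : 1 ≤ X := le_trans (by norm_num) b1
  obtain ⟨E, e1, e2⟩ := a5 X ((le_max_left _ _).trans hX) _ rfl
  refine ⟨E, e1.trans (Real.rpow_le_rpow_of_exponent_le b2 (by linarith [min_le_left ε 1])),
    fun ι _ χ ρ hF m m1 m2 m3 m4 m5 => ?_⟩
  obtain ⟨A, c1, c2⟩ := e2 m m1 m2 m3 m4
  rw [as6_lo2 hF, as6_lo1 hF, as6_tot hF] at c2
  have c3 := c2.trans (as6_RR b2 m5)
  have c4 := as6_log b1
  have c5 : X ^ (-c) ≤ X ^ (-min c (1 / 2)) :=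
    Real.rpow_le_rpow_of_exponent_le b2 (neg_le_neg (min_le_left _ _))
  have c6 : X ^ (-(1 / 2) : ℝ) ≤ X ^ (-min c (1 / 2)) :=
    Real.rpow_le_rpow_of_exponent_le b2 (neg_le_neg (min_le_right _ _))
  have c7 : 0 ≤ ∑ i, (X / 4) ^ ((ρ i).re - 1) :=
    sum_nonneg fun i _ => Real.rpow_nonneg (by linarith) _
  have c8 : 1 ≤ (1 + ∑ i, (X / 4) ^ ((ρ i).re - 1)) ^ 2 := one_le_pow₀ (by linarith)
  have c9 : 0 < X ^ (-(1 / 2) : ℝ) := Real.rpow_pos_of_pos (by linarith) _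
  set s := (1 + ∑ i, (X / 4) ^ ((ρ i).re - 1)) ^ 2
  set u := X ^ (-min c (1 / 2))
  set v := X ^ (-(1 / 2) : ℝ)
  set w := X ^ (-c)
  have d1 : w * s ≤ u * s := mul_le_mul_of_nonneg_right c5 (by linarith)
  have d2 : v ≤ u * s := c6.trans (le_mul_of_one_le_right (by linarith) c8)
  have d3 : Real.log X ^ 2 ≤ A * v := by nlinarith
  have d4 := le_of_mul_le_mul_left (c3.trans d3) (by linarith : 0 < A)
  linarith

theorem ma_of_main (h : MA.Main) {ϑ : ℝ} (h0 : 0 < ϑ) (h1 : ϑ ≤ 7 / 20) : MA ϑ :=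
  ma_of_sets (K := 2000) (by norm_num) fun δ ε => h ϑ δ ε h0 h1

end Pool.Agent.Lib.MP_778b46_nt.GX
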