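import Mathlib

/- From the growth of the logarithmic derivative of a polynomial to a bound for its first
coefficient. -/

namespace Pool.Agent.Lib.MP_778b46_nt.GX

open Polynomial

lemma wa_tel {A : ℂ[X]} {B : PowerSeries ℂ} {u : ℂ}
    (h : (A : PowerSeries ℂ) = (PowerSeries.X - PowerSeries.C u) * B) (N : ℕ) :
    ∑ k ∈ Finset.range (N + 1), A.coeff k * u ^ k = -(u ^ (N + 1) * PowerSeries.coeff N B) := by
  induction N with
  | zero =>
    have := congrArg (PowerSeries.coeff 0) h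
    rw [Polynomial.coeff_coe, sub_mul, map_sub, PowerSeries.coeff_zero_X_mul,
      PowerSeries.coeff_C_mul] at this
    simp [this]
  | succ N ih =>
    have := congrArg (PowerSeries.coeff (N + 1)) h
    rw [Polynomial.coeff_coe, sub_mul, map_sub, PowerSeries.coeff_succ_X_mul,
      PowerSeries.coeff_C_mul] at this
    rw [Finset.sum_range_succ, ih, this]
    ring

lemma wa_root {L : ℂ[X]} (hL : L.eval 0 ≠ 0) {S : PowerSeries ℂ}
    (h : ((X * derivative L : ℂ[X]) : PowerSeries ℂ) = S * L) {C R : ℝ} (hC : 0 ≤ C) (hR : 0 < R)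
    (hS : ∀ k, ‖PowerSeries.coeff k S‖ ≤ C * R ^ k) {u : ℂ} (hu : L.IsRoot u) : 1 ≤ R * ‖u‖ := by
  by_contra hlt
  push Not at hlt
  have hL0 : L ≠ 0 := by rintro rfl; simp at hL
  have hu0 : u ≠ 0 := by rintro rfl; exact hL hu
  obtain ⟨L1, hL1, hnd⟩ := exists_eq_pow_rootMultiplicity_mul_and_not_dvd L hL0 u
  obtain ⟨ν, hν⟩ := Nat.exists_eq_succ_of_ne_zero ((rootMultiplicity_pos hL0).2 hu).ne'
  rw [hν] at hL1
  have h1 : L1.eval u ≠ 0 := fun h0 => hnd (dvd_iff_isRoot.2 h0)
  set A : ℂ[X] := X * (Polynomial.C ((ν : ℂ) + 1) * L1 + (X - Polynomial.C u) * derivative L1) with hA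
  have hAu : A.eval u ≠ 0 := by
    simp only [hA, eval_mul, eval_add, eval_X, eval_C, eval_sub, sub_self, zero_mul, add_zero]
    exact mul_ne_zero hu0 (mul_ne_zero (Nat.cast_add_one_ne_zero ν) h1)
  have e1 : X * derivative L = (X - Polynomial.C u) ^ ν * A := by
    rw [hL1, hA, derivative_mul, derivative_X_sub_C_pow]
    simp only [Nat.succ_eq_add_one, Nat.add_sub_cancel, Nat.cast_add, Nat.cast_one]
    ring
  have e2 : (A : PowerSeries ℂ) = (PowerSeries.X - PowerSeries.C u) * (S * (L1 : PowerSeries ℂ)) := by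
    have hne : ((X - Polynomial.C u : ℂ[X]) : PowerSeries ℂ) ^ ν ≠ 0 :=
      pow_ne_zero _ (fun h0 => X_sub_C_ne_zero u (Polynomial.coe_eq_zero_iff.1 h0))
    apply mul_left_cancel₀ hne
    rw [← Polynomial.coe_pow, ← Polynomial.coe_mul, ← e1, h]
    conv_lhs => rw [hL1]
    simp only [Polynomial.coe_mul, Polynomial.coe_pow, Polynomial.coe_sub, Polynomial.coe_X,
      Polynomial.coe_C, Nat.succ_eq_add_one]
    ring
  have hsum : Summable fun j : ℕ => ‖L1.coeff j‖ * R⁻¹ ^ j :=
    summable_of_ne_finset_zero (s := L1.support) fun j hj => by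
      rw [notMem_support_iff.1 hj, norm_zero, zero_mul]
  set Λ := ∑' j : ℕ, ‖L1.coeff j‖ * R⁻¹ ^ j with hΛ
  have hB : ∀ N, ‖PowerSeries.coeff N (S * (L1 : PowerSeries ℂ))‖ ≤ C * R ^ N * Λ := by
    intro N
    rw [mul_comm S, PowerSeries.coeff_mul, Finset.Nat.sum_antidiagonal_eq_sum_range_succ_mk]
    refine (norm_sum_le _ _).trans ?_
    refine le_trans ?_ (mul_le_mul_of_nonneg_left
      (hsum.sum_le_tsum (Finset.range N.succ) fun j _ => by positivity) (by positivity))
    rw [Finset.mul_sum]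
    refine Finset.sum_le_sum fun j hj => ?_
    have hj' : j ≤ N := Nat.lt_succ_iff.1 (Finset.mem_range.1 hj)
    rw [norm_mul, Polynomial.coeff_coe]
    have e3 : R ^ (N - j) = R ^ N * R⁻¹ ^ j := by
      rw [inv_pow, pow_sub₀ _ hR.ne' hj']
    calc ‖L1.coeff j‖ * ‖PowerSeries.coeff (N - j) S‖ ≤ ‖L1.coeff j‖ * (C * R ^ (N - j)) :=
          mul_le_mul_of_nonneg_left (hS _) (norm_nonneg _)
      _ = _ := by rw [e3]; ring
  have hlim : Filter.Tendsto (fun N : ℕ => ‖u‖ * C * Λ * (R * ‖u‖) ^ N) Filter.atTop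
      (nhds (‖u‖ * C * Λ * 0)) :=
    (tendsto_pow_atTop_nhds_zero_of_lt_one (by positivity) hlt).const_mul _
  rw [mul_zero] at hlim
  refine hAu (norm_le_zero_iff.1 (ge_of_tendsto hlim ?_))
  filter_upwards [Filter.eventually_ge_atTop A.natDegree] with N hN
  rw [eval_eq_sum_range' (Nat.lt_succ_of_le hN), wa_tel e2, norm_neg, norm_mul, norm_pow]
  calc ‖u‖ ^ (N + 1) * ‖PowerSeries.coeff N (S * (L1 : PowerSeries ℂ))‖ ≤ ‖u‖ ^ (N + 1) * (C * R ^ N * Λ) :=
        mul_le_mul_of_nonneg_left (hB N) (by positivity)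
    _ = _ := by rw [mul_pow]; ring

theorem wa_main (a S : ℕ → ℂ) (m : ℕ) (ha0 : a 0 = 1) (ham : ∀ n, m < n → a n = 0)
    (hN : ∀ n : ℕ, (n : ℂ) * a n = ∑ k ∈ Finset.Icc 1 n, S k * a (n - k)) {C R : ℝ} (hC : 0 ≤ C)
    (hR : 0 < R) (hS : ∀ k, 1 ≤ k → ‖S k‖ ≤ C * R ^ k) : ‖a 1‖ ≤ m * R := by
  let L : ℂ[X] := ∑ n ∈ Finset.range (m + 1), monomial n (a n)
  have hc : ∀ n, L.coeff n = a n := by
    intro n
    simp only [L, finsetSum_coeff, coeff_monomial, Finset.sum_ite_eq', Finset.mem_range]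
    split_ifs with h
    · rfl
    · exact (ham n (by omega)).symm
  have hd : L.natDegree ≤ m := natDegree_le_iff_coeff_eq_zero.2 fun n hn => by
    rw [hc, ham n hn]
  have h0 : L.eval 0 = 1 := by rw [← coeff_zero_eq_eval_zero, hc, ha0]
  have h1 : (derivative L).eval 0 = a 1 := by
    rw [← coeff_zero_eq_eval_zero, coeff_derivative, hc]
    simp
  let S' : PowerSeries ℂ := PowerSeries.mk fun k => if k = 0 then 0 else S k
  have hS' : ∀ k, ‖PowerSeries.coeff k S'‖ ≤ C * R ^ k := by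
    intro k
    rw [PowerSeries.coeff_mk]
    split_ifs with h
    · rw [norm_zero]; positivity
    · exact hS k (by omega)
  have hE : ((X * derivative L : ℂ[X]) : PowerSeries ℂ) = S' * L := by
    ext n
    rw [Polynomial.coeff_coe, PowerSeries.coeff_mul,
      Finset.Nat.sum_antidiagonal_eq_sum_range_succ_mk]
    have e1 : (X * derivative L).coeff n = (n : ℂ) * a n := by
      cases n with
      | zero => simp
      | succ n => rw [coeff_X_mul, coeff_derivative, hc]; push_cast; ring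
    rw [e1, hN, Finset.range_eq_Ico, Finset.sum_eq_sum_Ico_succ_bot (Nat.succ_pos n)]
    simp only [S', PowerSeries.coeff_mk, if_true, zero_mul, zero_add, Polynomial.coeff_coe, hc]
    refine Finset.sum_congr rfl fun k hk => ?_
    rw [if_neg (by have := (Finset.mem_Ico.1 hk).1; omega)]
  have h2 := (IsAlgClosed.splits L).eval_derivative_div_eval_of_ne_zero (x := 0)
    (by rw [h0]; exact one_ne_zero)
  rw [h0, h1, div_one] at h2
  rw [h2]
  refine (norm_multiset_sum_le _).trans ?_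
  rw [Multiset.map_map]
  refine (Multiset.sum_le_card_nsmul _ R ?_).trans ?_
  · intro y hy
    obtain ⟨u, hu, rfl⟩ := Multiset.mem_map.1 hy
    have h3 := wa_root (by rw [h0]; exact one_ne_zero) hE hC hR hS' (isRoot_of_mem_roots hu)
    have h4 : 0 < ‖u‖ := by
      by_contra h5
      have : ‖u‖ = 0 := le_antisymm (not_lt.1 h5) (norm_nonneg _)
      rw [this, mul_zero] at h3
      linarith
    simp only [Function.comp, zero_sub, norm_div, norm_one, norm_neg]
    rwa [div_le_iff₀ h4]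
  · rw [Multiset.card_map, nsmul_eq_mul]
    exact mul_le_mul_of_nonneg_right (by exact_mod_cast (card_roots' L).trans hd) hR.le

end Pool.Agent.Lib.MP_778b46_nt.GX
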