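import Mathlib

/- The L-polynomial of a multiplicative function on polynomials over a prime field and the sums
over the finite extensions. -/

namespace Pool.Agent.Lib.MP_778b46_nt.GX

open Polynomial UniqueFactorizationMonoid

lemma wb_finite (k : Type) [Field k] [Finite k] (n : ℕ) :
    {h : k[X] | h.Monic ∧ h.natDegree = n}.Finite := by
  refine Set.Finite.of_injOn (f := fun h : k[X] => fun i : Fin n => h.coeff i)
    (t := Set.univ) (Set.mapsTo_univ _ _) ?_ Set.finite_univ
  rintro f ⟨hf, hf'⟩ g ⟨hg, hg'⟩ h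
  ext i
  rcases lt_trichotomy i n with hi | rfl | hi
  · exact congrFun h ⟨i, hi⟩
  · rw [← hf', hf.coeff_natDegree, hf', ← hg', hg.coeff_natDegree]
  · rw [coeff_eq_zero_of_natDegree_lt (hf' ▸ hi), coeff_eq_zero_of_natDegree_lt (hg' ▸ hi)]

/-- the monic polynomials of degree `n` -/
noncomputable def Mo (k : Type) [Field k] [Finite k] (n : ℕ) : Finset k[X] :=
  (wb_finite k n).toFinset

lemma mem_Mo {k : Type} [Field k] [Finite k] {n : ℕ} {h : k[X]} :
    h ∈ Mo k n ↔ h.Monic ∧ h.natDegree = n := by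
  simp [Mo]

lemma wb_norm {k K : Type} [Field k] [Field K] [Algebra k K] [FiniteDimensional k K] (x : K)
    (v : k) : Algebra.norm k (algebraMap k K v - x) =
      ((minpoly k x).eval v) ^ (Module.finrank k K / (minpoly k x).natDegree) := by
  set y := x - algebraMap k K v with hy
  have hyi : IsIntegral k y := IsIntegral.of_finite k y
  have hxi : IsIntegral k x := IsIntegral.of_finite k x
  have hmp : minpoly k y = (minpoly k x).comp (X + C v) := minpoly.sub_algebraMap x v
  have hdeg : (minpoly k y).natDegree = (minpoly k x).natDegree := by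
    rw [hmp, natDegree_comp, natDegree_X_add_C, mul_one]
  have hc0 : (minpoly k y).coeff 0 = (minpoly k x).eval v := by
    rw [hmp, coeff_zero_eq_eval_zero, eval_comp]
    simp
  have h1 := Algebra.norm_eq_norm_adjoin k y
  have h2 := Algebra.PowerBasis.norm_gen_eq_coeff_zero_minpoly
    (IntermediateField.adjoin.powerBasis hyi)
  rw [IntermediateField.adjoin.powerBasis_gen, IntermediateField.adjoin.powerBasis_dim,
    IntermediateField.minpoly_gen, hdeg, hc0] at h2
  have h3 := Module.finrank_mul_finrank k (IntermediateField.adjoin k {y}) K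
  rw [IntermediateField.adjoin.finrank hyi, hdeg] at h3
  have h4 : Module.finrank k K / (minpoly k x).natDegree =
      Module.finrank (IntermediateField.adjoin k {y}) K := by
    rw [← h3, Nat.mul_div_cancel_left _ (minpoly.natDegree_pos hxi)]
  have h5 : algebraMap k K v - x = algebraMap k K (-1) * y := by
    rw [hy, map_neg, map_one]; ring
  rw [h5, map_mul, Algebra.norm_algebraMap, h1, h2, h4, ← h3, mul_pow, ← pow_mul, ← mul_assoc,
    ← mul_pow]
  simp

variable {p : ℕ} [Fact p.Prime]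

noncomputable instance gfFin (n : ℕ) : Fintype (GaloisField p n) := Fintype.ofFinite _

/-- the characteristic polynomial of an element of the field with `p ^ n` elements -/
noncomputable def cp {n : ℕ} (x : GaloisField p n) : (ZMod p)[X] :=
  minpoly (ZMod p) x ^ (n / (minpoly (ZMod p) x).natDegree)

lemma wb_dvd {n : ℕ} (hn : n ≠ 0) (x : GaloisField p n) : (minpoly (ZMod p) x).natDegree ∣ n := by
  have := minpoly.degree_dvd (IsIntegral.of_finite (ZMod p) x)
  rwa [GaloisField.finrank p hn] at this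

lemma cp_monic {n : ℕ} (x : GaloisField p n) : (cp x).Monic :=
  (minpoly.monic (IsIntegral.of_finite (ZMod p) x)).pow _

lemma cp_natDegree {n : ℕ} (hn : n ≠ 0) (x : GaloisField p n) : (cp x).natDegree = n := by
  rw [cp, natDegree_pow, Nat.div_mul_cancel (wb_dvd hn x)]

lemma cp_eval {n : ℕ} (hn : n ≠ 0) (x : GaloisField p n) (v : ZMod p) :
    (cp x).eval v = Algebra.norm (ZMod p) (algebraMap (ZMod p) (GaloisField p n) v - x) := by
  rw [wb_norm, GaloisField.finrank p hn, cp, eval_pow]

open Classical in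
lemma wb_card {n : ℕ} (hn : n ≠ 0) {P : (ZMod p)[X]} (hP : Irreducible P) (hm : P.Monic)
    (hd : P.natDegree ∣ n) :
    (Finset.univ.filter fun x : GaloisField p n => minpoly (ZMod p) x = P).card = P.natDegree := by
  have h1 : P ∣ X ^ p ^ n - X := by
    have := hP.natDegree_dvd_iff_dvd_X_pow_card_pow_sub_X.1 hd
    rwa [Nat.card_zmod] at this
  have hsep : P.Separable :=
    (galois_poly_separable p (p ^ n) (dvd_pow_self p hn)).of_dvd h1
  have hsp : (P.map (algebraMap (ZMod p) (GaloisField p n))).Splits := by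
    have h2 := FiniteField.splits_X_pow_nat_card_sub_X p (K := GaloisField p n)
    rw [GaloisField.card p n hn] at h2
    exact h2.of_dvd (Polynomial.map_ne_zero
      (FiniteField.X_pow_card_pow_sub_X_ne_zero _ hn (Fact.out : p.Prime).one_lt))
      (Polynomial.map_dvd _ h1)
  rw [← card_rootSet_eq_natDegree hsep hsp, ← Fintype.card_subtype]
  refine Fintype.card_congr (Equiv.subtypeEquivRight fun x => ?_)
  rw [mem_rootSet]
  constructor
  · rintro rfl
    exact ⟨hP.ne_zero, minpoly.aeval _ _⟩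
  · exact fun h => (minpoly.eq_of_irreducible_of_monic hP h.2 hm).symm

open Classical in
lemma wb_count {h : (ZMod p)[X]} (hm : h.Monic) :
    ∑ n ∈ Finset.Icc 1 h.natDegree,
      (Finset.univ.filter fun x : GaloisField p n => cp x ∣ h).card = h.natDegree := by
  set T := (normalizedFactors h).toFinset with hT
  have hTm : ∀ P, P ∈ T ↔ Irreducible P ∧ P.Monic ∧ P ∣ h := fun P => by
    rw [hT, Multiset.mem_toFinset, Polynomial.mem_normalizedFactors_iff hm.ne_zero]
  have hpow : ∀ P ∈ T, ∀ j : ℕ, P ^ j ∣ h ↔ j ≤ (normalizedFactors h).count P := by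
    intro P hP j
    obtain ⟨h1, h2, -⟩ := (hTm P).1 hP
    rw [pow_dvd_iff_le_emultiplicity, emultiplicity_eq_count_normalizedFactors h1 hm.ne_zero,
      h2.normalize_eq_self, Nat.cast_le]
  have h1 : ∀ n ∈ Finset.Icc 1 h.natDegree,
      (Finset.univ.filter fun x : GaloisField p n => cp x ∣ h).card =
        ∑ P ∈ T, if P.natDegree ∣ n ∧ n / P.natDegree ≤ (normalizedFactors h).count P
          then P.natDegree else 0 := by
    intro n hn
    have hn0 : n ≠ 0 := by have := (Finset.mem_Icc.1 hn).1; omega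
    rw [Finset.card_eq_sum_card_fiberwise (f := fun x => minpoly (ZMod p) x) (t := T)]
    · refine Finset.sum_congr rfl fun P hP => ?_
      obtain ⟨h1, h2, -⟩ := (hTm P).1 hP
      split_ifs with hc
      · rw [← wb_card hn0 h1 h2 hc.1]
        congr 1
        ext x
        simp only [Finset.mem_filter, Finset.mem_univ, true_and, and_iff_right_iff_imp]
        intro hx
        rw [cp, hx]
        exact (hpow P hP _).2 hc.2
      · rw [Finset.card_eq_zero, Finset.filter_eq_empty_iff]
        intro x hx hx'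
        apply hc
        have h3 := (Finset.mem_filter.1 hx).2
        rw [cp, hx'] at h3
        exact ⟨hx' ▸ wb_dvd hn0 x, (hpow P hP _).1 h3⟩
    · intro x hx
      have h3 := (Finset.mem_filter.1 (Finset.mem_coe.1 hx)).2
      have hi := IsIntegral.of_finite (ZMod p) x
      refine Finset.mem_coe.2 ((hTm _).2 ⟨minpoly.irreducible hi, minpoly.monic hi, ?_⟩)
      refine (dvd_pow_self _ ?_).trans h3
      exact (Nat.div_pos (Nat.le_of_dvd (Nat.pos_of_ne_zero hn0) (wb_dvd hn0 x))
        (minpoly.natDegree_pos hi)).ne'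
  rw [Finset.sum_congr rfl h1, Finset.sum_comm]
  have h2 : h.natDegree = ∑ P ∈ T, (normalizedFactors h).count P * P.natDegree := by
    have e := leadingCoeff_mul_prod_normalizedFactors h
    rw [hm.leadingCoeff, C_1, one_mul] at e
    conv_lhs => rw [← e]
    rw [natDegree_multiset_prod_of_monic _ fun P hP =>
      ((hTm P).1 (Multiset.mem_toFinset.2 hP)).2.1, Finset.sum_multiset_map_count]
    simp only [smul_eq_mul, hT]
  conv_rhs => rw [h2]
  refine Finset.sum_congr rfl fun P hP => ?_
  obtain ⟨h3, h4, -⟩ := (hTm P).1 hP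
  have hd : 0 < P.natDegree := h3.natDegree_pos
  rw [← Finset.sum_filter, Finset.sum_const, smul_eq_mul]
  congr 1
  set μ := (normalizedFactors h).count P
  have h5 : μ * P.natDegree ≤ h.natDegree := by
    have := natDegree_le_of_dvd ((hpow P hP μ).2 le_rfl) hm.ne_zero
    rwa [natDegree_pow] at this
  have e : (Finset.Icc 1 h.natDegree).filter (fun n => P.natDegree ∣ n ∧ n / P.natDegree ≤ μ) =
      (Finset.Icc 1 μ).image (· * P.natDegree) := by
    ext n
    simp only [Finset.mem_filter, Finset.mem_Icc, Finset.mem_image]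
    constructor
    · rintro ⟨⟨h6, -⟩, ⟨j, rfl⟩, h7⟩
      rw [Nat.mul_div_cancel_left _ hd] at h7
      refine ⟨j, ⟨?_, h7⟩, mul_comm _ _⟩
      rcases Nat.eq_zero_or_pos j with rfl | h8
      · simp at h6
      · exact h8
    · rintro ⟨j, ⟨h6, h7⟩, rfl⟩
      refine ⟨⟨Nat.mul_pos h6 hd, (Nat.mul_le_mul_right _ h7).trans h5⟩, dvd_mul_left _ _, ?_⟩
      rwa [Nat.mul_div_cancel _ hd]
  rw [e, Finset.card_image_of_injective _ (mul_left_injective₀ hd.ne')]
  simp

theorem wb_newton (lam : (ZMod p)[X] → ℂ) (hmul : ∀ f g, lam (f * g) = lam f * lam g) (N : ℕ) :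
    (N : ℂ) * ∑ h ∈ Mo (ZMod p) N, lam h = ∑ n ∈ Finset.Icc 1 N,
      (∑ x : GaloisField p n, lam (cp x)) * ∑ h ∈ Mo (ZMod p) (N - n), lam h := by
  classical
  have e1 : (N : ℂ) * ∑ h ∈ Mo (ZMod p) N, lam h = ∑ h ∈ Mo (ZMod p) N, ∑ n ∈ Finset.Icc 1 N,
      ∑ x : GaloisField p n, if cp x ∣ h then lam h else 0 := by
    rw [Finset.mul_sum]
    refine Finset.sum_congr rfl fun h hh => ?_
    obtain ⟨hm, rfl⟩ := mem_Mo.1 hh
    conv_lhs => rw [← wb_count hm]
    rw [Nat.cast_sum, Finset.sum_mul]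
    refine Finset.sum_congr rfl fun n _ => ?_
    rw [← Finset.sum_filter, Finset.sum_const, nsmul_eq_mul]
  rw [e1, Finset.sum_comm]
  refine Finset.sum_congr rfl fun n hn => ?_
  obtain ⟨hn1, hn2⟩ := Finset.mem_Icc.1 hn
  rw [Finset.sum_comm, Finset.sum_mul]
  refine Finset.sum_congr rfl fun x _ => ?_
  have hQ := cp_monic x
  have hQd := cp_natDegree (by omega) x
  rw [← Finset.sum_filter, Finset.mul_sum]
  symm
  refine Finset.sum_bij (fun h _ => cp x * h) ?_ ?_ ?_ ?_
  · intro h hh
    obtain ⟨h1, h2⟩ := mem_Mo.1 hh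
    refine Finset.mem_filter.2 ⟨mem_Mo.2 ⟨hQ.mul h1, ?_⟩, dvd_mul_right _ _⟩
    rw [hQ.natDegree_mul h1, hQd, h2]
    omega
  · intro f _ g _ h
    exact mul_left_cancel₀ hQ.ne_zero h
  · intro h hh
    obtain ⟨h1, g, rfl⟩ := Finset.mem_filter.1 hh
    obtain ⟨h2, h3⟩ := mem_Mo.1 h1
    have hg : g.Monic := hQ.of_mul_monic_left h2
    refine ⟨g, mem_Mo.2 ⟨hg, ?_⟩, rfl⟩
    rw [hQ.natDegree_mul hg, hQd] at h3
    omega
  · intro h _
    exact (hmul _ _).symm

lemma wb_shift {k : Type} [Field k] [Finite k] {E : k[X]} {N : ℕ} (hE : E.natDegree < N)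
    {h : k[X]} (hh : h ∈ Mo k N) (a : k) : h + C a * E ∈ Mo k N := by
  obtain ⟨h1, h2⟩ := mem_Mo.1 hh
  have h3 : (C a * E).natDegree < h.natDegree := by
    have := natDegree_C_mul_le a E
    omega
  exact mem_Mo.2 ⟨h1.add_of_left (degree_lt_degree h3),
    (natDegree_add_eq_left_of_natDegree_lt h3).trans h2⟩

theorem wb_vanish {k : Type} [Field k] [Finite k] {ι : Type} (V : Finset ι) (c : ι → k)
    (e : ι → ℕ) (hc : Set.InjOn c V) (ω : k →* ℂ) {v0 : ι} (hv0 : v0 ∈ V) {t : k} (ht : t ≠ 0)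
    (hω : ω (t ^ e v0) ≠ 1) {N : ℕ} (hN : V.card ≤ N) :
    ∑ h ∈ Mo k N, ω (∏ v ∈ V, h.eval (c v) ^ e v) = 0 := by
  classical
  let E := Lagrange.basis V c v0
  have hE : E.natDegree < N := by
    have h1 := Lagrange.natDegree_basis hc hv0
    have h2 := Finset.card_pos.2 ⟨v0, hv0⟩
    change (Lagrange.basis V c v0).natDegree < N
    omega
  have hE1 : E.eval (c v0) = 1 := Lagrange.eval_basis_self hc hv0
  have hE0 : ∀ v ∈ V, v ≠ v0 → E.eval (c v) = 0 := fun v hv hne =>
    Lagrange.eval_basis_of_ne hne.symm hv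
  have key : ∑ h ∈ Mo k N, ω (t ^ e v0) * ω (∏ v ∈ V, h.eval (c v) ^ e v) =
      ∑ h ∈ Mo k N, ω (∏ v ∈ V, h.eval (c v) ^ e v) := by
    refine Finset.sum_nbij' (fun h => h + C ((t - 1) * h.eval (c v0)) * E)
      (fun h => h + C ((t⁻¹ - 1) * h.eval (c v0)) * E) (fun h hh => wb_shift hE hh _)
      (fun h hh => wb_shift hE hh _) ?_ ?_ ?_
    · intro h _
      simp only [eval_add, eval_mul, eval_C, hE1, mul_one]
      rw [add_assoc, ← add_mul, ← C_add]
      have : (t - 1) * h.eval (c v0) + (t⁻¹ - 1) * (h.eval (c v0) + (t - 1) * h.eval (c v0))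
          = 0 := by
        field_simp
        ring
      rw [this, C_0, zero_mul, add_zero]
    · intro h _
      simp only [eval_add, eval_mul, eval_C, hE1, mul_one]
      rw [add_assoc, ← add_mul, ← C_add]
      have : (t⁻¹ - 1) * h.eval (c v0) + (t - 1) * (h.eval (c v0) + (t⁻¹ - 1) * h.eval (c v0))
          = 0 := by
        field_simp
        ring
      rw [this, C_0, zero_mul, add_zero]
    · intro h _
      rw [← map_mul, ← Finset.mul_prod_erase _ _ hv0, ← Finset.mul_prod_erase _ _ hv0,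
        ← mul_assoc, ← mul_pow]
      congr 2
      · congr 1
        simp only [eval_add, eval_mul, eval_C, hE1]
        ring
      · refine Finset.prod_congr rfl fun v hv => ?_
        simp only [eval_add, eval_mul, eval_C,
          hE0 v (Finset.mem_of_mem_erase hv) (Finset.ne_of_mem_erase hv), mul_zero, add_zero]
  rw [← Finset.mul_sum] at key
  have h2 : (ω (t ^ e v0) - 1) * ∑ h ∈ Mo k N, ω (∏ v ∈ V, h.eval (c v) ^ e v) = 0 := by
    rw [sub_mul, key, one_mul, sub_self]
  exact (mul_eq_zero.1 h2).resolve_left (sub_ne_zero.2 hω)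

lemma wb_zero {k : Type} [Field k] [Finite k] : Mo k 0 = {1} := by
  ext h
  rw [mem_Mo, Finset.mem_singleton]
  exact ⟨fun h => eq_one_of_monic_natDegree_zero h.1 h.2, by rintro rfl; simp⟩

lemma wb_one {k : Type} [Field k] [Fintype k] (f : k[X] → ℂ) :
    ∑ h ∈ Mo k 1, f h = ∑ x : k, f (X + C x) := by
  symm
  refine Finset.sum_bij (fun x _ => X + C x) ?_ ?_ ?_ fun _ _ => rfl
  · exact fun x _ => mem_Mo.2 ⟨monic_X_add_C x, natDegree_X_add_C x⟩
  · exact fun x _ y _ h => C_injective (add_left_cancel h)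
  · intro h hh
    obtain ⟨h1, h2⟩ := mem_Mo.1 hh
    exact ⟨h.coeff 0, Finset.mem_univ _, (h1.eq_X_add_C h2).symm⟩

end Pool.Agent.Lib.MP_778b46_nt.GX
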