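import Pool.Agent.Lib.MP_778b46_nt.GX.WeilS
import Pool.Agent.Lib.MP_778b46_nt.GX.WeilA
import Pool.Agent.Lib.MP_778b46_nt.GX.WeilL

/- Weil's bound for products of shifted multiplicative characters of any order modulo a prime. -/

namespace Pool.Agent.Lib.MP_778b46_nt.GX

open Polynomial

theorem weil_core {p : ℕ} [Fact p.Prime] (V : Finset (ZMod p)) (e : ZMod p → ℕ)
    (ω : MulChar (ZMod p) ℂ) (hn : 0 < orderOf ω)
    (hirr : ∀ s, 0 < s → s < orderOf ω → ∃ v ∈ V, ¬ orderOf ω ∣ s * e v)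
    {v0 : ZMod p} (hv0 : v0 ∈ V) {t : ZMod p} (ht : t ≠ 0) (hω : ω (t ^ e v0) ≠ 1) :
    ‖∑ x : ZMod p, ω (∏ v ∈ V, (v + x) ^ e v)‖ ≤ V.card * Real.sqrt p := by
  have hp : 0 < p := (Fact.out : p.Prime).pos
  obtain ⟨C0, hC0, hC⟩ := ws_main (orderOf ω) (∑ v ∈ V, e v) hn
  let lam : (ZMod p)[X] → ℂ := fun h => ω (∏ v ∈ V, h.eval v ^ e v)
  have hmul : ∀ f g, lam (f * g) = lam f * lam g := fun f g => by
    simp only [lam, eval_mul, mul_pow, Finset.prod_mul_distrib, map_mul]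
  have h1 : ∑ h ∈ Mo (ZMod p) 1, lam h = ∑ x : ZMod p, ω (∏ v ∈ V, (v + x) ^ e v) := by
    rw [wb_one]
    simp only [lam, eval_add, eval_X, eval_C]
  rw [← h1]
  refine wa_main (fun N => ∑ h ∈ Mo (ZMod p) N, lam h)
    (fun k => ∑ x : GaloisField p k, lam (cp x)) V.card ?_ ?_ (wb_newton lam hmul) hC0
    (Real.sqrt_pos.2 (Nat.cast_pos.2 hp)) ?_
  · simp [wb_zero, lam]
  · intro N hN
    exact wb_vanish V id e (Set.injOn_id _) ω.toMonoidHom hv0 ht hω hN.le
  · intro k hk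
    have hk0 : k ≠ 0 := by omega
    have hcard : Fintype.card (GaloisField p k) = p ^ k := by
      rw [← Nat.card_eq_fintype_card, GaloisField.card p k hk0]
    let ψ : GaloisField p k →* ℂ := ω.toMonoidHom.comp (Algebra.norm (ZMod p))
    have hψ : ∀ y, ψ y = ω (Algebra.norm (ZMod p) y) := fun y => rfl
    have h2 : ∑ x : GaloisField p k, lam (cp x) = ∑ x : GaloisField p k,
        ψ (∏ v ∈ V, (algebraMap (ZMod p) (GaloisField p k) v + x) ^ e v) := by
      refine Fintype.sum_equiv (Equiv.neg _) _ _ fun x => ?_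
      simp only [lam, hψ, map_prod, map_pow, cp_eval hk0, Equiv.neg_apply, sub_eq_add_neg]
    have h3 : Real.sqrt (Fintype.card (GaloisField p k)) = Real.sqrt p ^ k := by
      rw [hcard, Nat.cast_pow, Real.sqrt_eq_iff_mul_self_eq (by positivity) (by positivity),
        ← mul_pow, Real.mul_self_sqrt (by positivity)]
    rw [h2, ← h3]
    refine hC _ ?_ _ V _ e (algebraMap (ZMod p) (GaloisField p k)).injective.injOn rfl hirr ψ
      ?_ ?_ ?_
    · have h4 := ω.orderOf_dvd_card_sub_one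
      rw [ZMod.card] at h4
      rw [hcard]
      exact h4.trans (Nat.sub_one_dvd_pow_sub_one _ _)
    · rw [hψ, Algebra.norm_zero, MulChar.map_zero]
    · intro y hy
      rw [hψ, ← MulChar.pow_apply' _ hn.ne', pow_orderOf_eq_one]
      exact MulChar.one_apply (Algebra.norm_ne_zero_iff.2 hy).isUnit
    · obtain ⟨y, hy⟩ := FiniteField.norm_surjective (ZMod p) (GaloisField p k) (t ^ e v0)
      refine ⟨y, ?_, by rwa [hψ, hy]⟩
      rintro rfl
      rw [Algebra.norm_zero] at hy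
      exact pow_ne_zero _ ht hy.symm

lemma weil_prod {k ι : Type} [Field k] (s : Finset ι) (hs : s.Nonempty) (χ : ι → MulChar k ℂ)
    (y : k) : (∏ j ∈ s, χ j) y = ∏ j ∈ s, χ j y := by
  induction hs using Finset.Nonempty.cons_induction with
  | singleton a => simp
  | cons a s ha _ ih => rw [Finset.prod_cons, Finset.prod_cons, MulChar.mul_apply, ih]

lemma weil_gen {G k : Type} [CommGroup G] [Finite G] [IsCyclic G] (V : Finset k) (X : k → G) :
    ∃ (ω : G) (e : k → ℕ), 0 < orderOf ω ∧ (∀ v ∈ V, e v ≠ 0 ∧ ω ^ e v = X v) ∧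
      ∀ s, 0 < s → s < orderOf ω → ∃ v ∈ V, ¬ orderOf ω ∣ s * e v := by
  classical
  let H := Subgroup.closure (X '' V)
  obtain ⟨g, hg⟩ := IsCyclic.exists_generator (α := H)
  have hn : 0 < orderOf (g : G) := orderOf_pos _
  have h1 : ∀ v, ∃ a : ℕ, v ∈ V → a ≠ 0 ∧ (g : G) ^ a = X v := fun v => by
    by_cases hv : v ∈ V
    · have hX : X v ∈ H := Subgroup.subset_closure ⟨v, hv, rfl⟩
      obtain ⟨a, ha⟩ := mem_powers_iff_mem_zpowers.2 (hg ⟨X v, hX⟩)
      refine ⟨a + orderOf (g : G), fun _ => ⟨by omega, ?_⟩⟩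
      rw [pow_add, pow_orderOf_eq_one, mul_one]
      exact congrArg Subtype.val ha
    · exact ⟨0, fun h => absurd h hv⟩
  choose e he using h1
  refine ⟨g, e, hn, he, fun s hs hs' => ?_⟩
  by_contra hcon
  push Not at hcon
  have h2 : H ≤ (powMonoidHom s : G →* G).ker := by
    refine (Subgroup.closure_le _).2 ?_
    rintro _ ⟨v, hv, rfl⟩
    have h3 := orderOf_dvd_iff_pow_eq_one.1 (hcon v hv)
    rw [mul_comm, pow_mul, (he v hv).2] at h3
    exact h3
  have h4 : (g : G) ^ s = 1 := h2 g.2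
  exact absurd (Nat.le_of_dvd hs (orderOf_dvd_iff_pow_eq_one.2 h4)) (by omega)

theorem weil_card (p : ℕ) [Fact p.Prime] (iota : Type) [Fintype iota] (c : iota → ZMod p)
    (chi : iota → MulChar (ZMod p) ℂ) (j0 : iota) (hc : ∀ j, j ≠ j0 → c j ≠ c j0)
    (h0 : chi j0 ≠ 1) :
    ‖∑ x : ZMod p, ∏ j, chi j (x + c j)‖ ≤ Fintype.card iota * Real.sqrt p := by
  classical
  have hcyc : IsCyclic (MulChar (ZMod p) ℂ) :=
    isCyclic_of_surjective _ (MulChar.equiv_rootsOfUnity (ZMod p) ℂ).symm.surjective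
  let V : Finset (ZMod p) := Finset.univ.image c
  let Y : ZMod p → MulChar (ZMod p) ℂ := fun v => ∏ j ∈ Finset.univ.filter (c · = v), chi j
  obtain ⟨ω, e, hn, he, hirr⟩ := weil_gen V Y
  have hv0 : c j0 ∈ V := Finset.mem_image_of_mem _ (Finset.mem_univ _)
  have hY : Y (c j0) = chi j0 := by
    have : Finset.univ.filter (c · = c j0) = {j0} := by
      ext j
      simp only [Finset.mem_filter, Finset.mem_univ, true_and, Finset.mem_singleton]
      exact ⟨fun h => by_contra fun h' => hc j h' h, fun h => h ▸ rfl⟩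
    simp only [Y, this, Finset.prod_singleton]
  obtain ⟨t, ht⟩ := MulChar.ne_one_iff.1 h0
  have hω : ω ((t : ZMod p) ^ e (c j0)) ≠ 1 := by
    rwa [map_pow, ← MulChar.pow_apply' _ (he _ hv0).1, (he _ hv0).2, hY]
  have h1 : ∀ x : ZMod p, ∏ j, chi j (x + c j) = ω (∏ v ∈ V, (v + x) ^ e v) := fun x => by
    rw [map_prod, ← Finset.prod_fiberwise_of_maps_to (s := Finset.univ) (t := V) (g := c)
      fun j _ => Finset.mem_image_of_mem _ (Finset.mem_univ _)]
    refine Finset.prod_congr rfl fun v hv => ?_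
    obtain ⟨j, -, hj⟩ := Finset.mem_image.1 hv
    rw [map_pow, ← MulChar.pow_apply' _ (he _ hv).1, (he _ hv).2,
      weil_prod _ ⟨j, Finset.mem_filter.2 ⟨Finset.mem_univ _, hj⟩⟩]
    refine Finset.prod_congr rfl fun i hi => ?_
    rw [(Finset.mem_filter.1 hi).2, add_comm]
  rw [Finset.sum_congr rfl fun x _ => h1 x]
  refine (weil_core V e ω hn hirr hv0 t.ne_zero hω).trans ?_
  gcongr
  exact Finset.card_image_le

theorem weil_any (m : ℕ) : ∃ C : ℝ, ∀ (p : ℕ) [Fact p.Prime] (iota : Type) [Fintype iota],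
    Fintype.card iota ≤ m → ∀ (c : iota → ZMod p) (chi : iota → MulChar (ZMod p) ℂ) (j0 : iota),
      (∀ j, j ≠ j0 → c j ≠ c j0) → chi j0 ≠ 1 →
        ‖∑ x : ZMod p, ∏ j, chi j (x + c j)‖ ≤ C * Real.sqrt p :=
  ⟨m, fun p _ iota _ hm c chi j0 hc h0 => (weil_card p iota c chi j0 hc h0).trans (by gcongr)⟩

end Pool.Agent.Lib.MP_778b46_nt.GX
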