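import Pool.Agent.Lib.MP_778b46_nt.GX.BuF
import Pool.Agent.Lib.MP_778b46_nt.GX.Weil

/- Character sums cancel from the exponent one third on, for all moduli. -/

namespace Pool.Agent.Lib.MP_778b46_nt.GX

theorem tb_third : TB (1 / 3) := Bu.tb_of_weil weil_any

end Pool.Agent.Lib.MP_778b46_nt.GX
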