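import Pool.Agent.Lib.MP_c03ca8_nt.Q.LSMul

/- The Polya-Vinogradov inequality. -/

noncomputable section

namespace Pool.Agent.Lib.MP_778b46_nt.GX

open Finset Real Pool.Agent.Lib.MP_c03ca8_nt.Q

theorem pv {c : ℕ} [NeZero c] {ψ : DirichletCharacter ℂ c} (hψ : ψ.IsPrimitive) (h1 : ψ ≠ 1)
    (M : ℕ) : ‖∑ n ∈ Ioc 0 M, ψ (n : ZMod c)‖ ≤ √c * (1 + Real.log c) := by
  have hc0 : 0 < c := Nat.pos_of_ne_zero (NeZero.ne c)
  have hc1 : c ≠ 1 := by
    rintro rfl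
    exact h1 (Subsingleton.elim _ _)
  have hc : (0 : ℝ) < c := by exact_mod_cast hc0
  have : Fact (1 < c) := ⟨by omega⟩
  have hτ : ‖gaussSum ψ⁻¹ (ZMod.stdAddChar (N := c))‖ = √c := by
    rw [← lsmul_norm_gauss hψ, Real.sqrt_sq (norm_nonneg _)]
  have e1 : (∑ n ∈ Ioc 0 M, ψ (n : ZMod c)) * gaussSum ψ⁻¹ (ZMod.stdAddChar (N := c)) =
      ∑ b : ZMod c, ψ⁻¹ b * ∑ n ∈ Ioc 0 M, ZMod.stdAddChar ((n : ZMod c) * b) := by
    rw [sum_mul]
    simp only [← lsmul_gauss hψ, mul_sum]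
    rw [sum_comm]
    exact sum_congr rfl fun b _ => sum_congr rfl fun n _ => mul_comm _ _
  have e2 : ∀ b : ZMod c, ‖ψ⁻¹ b * ∑ n ∈ Ioc 0 M, ZMod.stdAddChar ((n : ZMod c) * b)‖ ≤
      c * (((b.val : ℝ)⁻¹ + (((-b).val : ℕ) : ℝ)⁻¹) / 2) := by
    intro b
    rcases eq_or_ne b 0 with rfl | hb
    · rw [MulChar.map_zero]; simp
    have hv : 0 < b.val := Nat.pos_of_ne_zero (by rwa [Ne, ZMod.val_eq_zero])
    have hv' : b.val < c := ZMod.val_lt b
    have hvr : (0 : ℝ) < b.val := by exact_mod_cast hv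
    have hvr' : (b.val : ℝ) < c := by exact_mod_cast hv'
    have ht : 0 < (b.val : ℝ) / c := by positivity
    have h := lsadd_geom (t := (b.val : ℝ) / c) (by rwa [abs_of_pos ht])
      (by rw [abs_of_pos ht, div_lt_one hc]; exact hvr') 1 M
    have e3 : ∑ n ∈ Ioc 0 M, ZMod.stdAddChar ((n : ZMod c) * b) =
        ∑ n ∈ Ico 1 (1 + M), Complex.exp (Complex.I * (2 * π * ((b.val : ℝ) / c) : ℝ)) ^ n := by
      rw [add_comm 1 M, ← Finset.Ico_add_one_add_one_eq_Ioc, zero_add]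
      refine sum_congr rfl fun n _ => ?_
      have : ((n : ZMod c) * b) = (((n * b.val : ℕ) : ℤ) : ZMod c) := by
        push_cast; rw [ZMod.natCast_zmod_val]
      rw [this, ZMod.stdAddChar_coe, ← Complex.exp_nat_mul]
      congr 1
      push_cast; ring
    have e4 : (((-b).val : ℕ) : ℝ) = c - b.val := by
      rw [ZMod.neg_val, if_neg hb, Nat.cast_sub hv'.le]
    rw [norm_mul, e3, e4]
    refine (mul_le_mul (ψ⁻¹.norm_le_one b) h (norm_nonneg _) zero_le_one).trans (le_of_eq ?_)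
    have : (c : ℝ) - b.val ≠ 0 := by linarith
    rw [abs_of_pos ht]
    field_simp
  have e5 : ∑ b : ZMod c, (b.val : ℝ)⁻¹ ≤ 1 + Real.log c := by
    have k1 : ∑ b : ZMod c, (b.val : ℝ)⁻¹ = ∑ n ∈ range c, (n : ℝ)⁻¹ :=
      sum_nbij' (fun b : ZMod c => b.val) (fun b => (b : ZMod c))
        (fun b _ => mem_range.2 (ZMod.val_lt b)) (fun _ _ => mem_univ _)
        (fun b _ => ZMod.natCast_zmod_val b) (fun b hb => ZMod.val_cast_of_lt (mem_range.1 hb))
        fun _ _ => rfl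
    have k2 := harmonic_le_one_add_log c
    rw [harmonic_eq_sum_Icc] at k2
    push_cast at k2
    have k3 : range c ⊆ insert 0 (Icc 1 c) := fun n hn => by
      simp only [mem_range, mem_insert, mem_Icc] at hn ⊢
      omega
    rw [k1]
    refine (sum_le_sum_of_subset_of_nonneg k3 fun _ _ _ => by positivity).trans ?_
    rw [sum_insert (by simp)]
    simpa using k2
  have e6 : ∑ b : ZMod c, (((-b).val : ℕ) : ℝ)⁻¹ = ∑ b : ZMod c, (b.val : ℝ)⁻¹ :=
    Equiv.sum_comp (Equiv.neg (ZMod c)) fun b => (b.val : ℝ)⁻¹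
  have e7 := norm_sum_le_of_le univ fun b _ => e2 b
  rw [← e1, norm_mul, hτ, ← mul_sum, ← sum_div, sum_add_distrib, e6] at e7
  have hs : 0 < √(c : ℝ) := Real.sqrt_pos.2 hc
  refine le_of_mul_le_mul_right (e7.trans ?_) hs
  have e8 : √(c : ℝ) * (1 + Real.log c) * √c = c * (1 + Real.log c) := by
    rw [mul_right_comm, Real.mul_self_sqrt hc.le]
  rw [e8]
  exact mul_le_mul_of_nonneg_left (by linarith) hc.le

end Pool.Agent.Lib.MP_778b46_nt.GX
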