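import Pool.Agent.Lib.MP_778b46_nt.GX.DhD

/- The repulsion of zeros by an exceptional zero. -/

namespace Pool.Agent.Lib.MP_778b46_nt.GX.Dh

open Complex Filter

theorem zt_self {P : ℝ} (hL : 0 < Real.log P) (a : ℝ) (z : ℂ) :
    zt P a z.im z = ((a - lam P z : ℝ) : ℂ) := by
  refine Complex.ext (by rw [zt_re hL, ofReal_re]) ?_
  rw [zt, im_ofReal_mul, ofReal_im, s0]
  simp only [sub_im, add_im, ofReal_im, mul_im, ofReal_re, I_im, I_re, mul_one, mul_zero, add_zero,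
    zero_add, sub_self]

theorem KK_le {T T' L c : ℝ} (hL : 0 < L) (hT : 0 ≤ T) (hT8 : T ≤ 8) (hc : 0 ≤ c)
    (h : T + c / L ≤ T') : KK T (√L) c ≤ 272 * Real.exp (T' * c) := by
  have h1 : T * c + c ^ 2 / √L ^ 2 ≤ T' * c := by
    rw [Real.sq_sqrt hL.le]
    calc T * c + c ^ 2 / L = (T + c / L) * c := by ring
      _ ≤ _ := by gcongr
  have h2 : T ^ 2 + 4 ≤ 68 := by nlinarith
  calc KK T (√L) c ≤ 4 * (68 * Real.exp (T' * c)) := by
        unfold KK
        gcongr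
    _ = _ := by ring

theorem PZ_self {T P a x : ℝ} (hL : 1 ≤ Real.log P) (hT : 0 ≤ T) (hT8 : T ≤ 8) (ha : 0 ≤ a) {z : ℂ}
    (h1 : a ≤ lam P z) (h2 : lam P z - a ≤ x) :
    T ^ 2 / 2 - 272 * Real.exp 9 * x ≤ (PZ T P a z.im z).re := by
  have hL0 : 0 < Real.log P := by linarith
  have hS := Real.sqrt_pos.2 hL0
  have a1 := Ph_lip hT hS (c := 1) zero_le_one (ζ := 0) (ζ' := ((a - lam P z : ℝ) : ℂ)) (by simp)
    (by rw [ofReal_re]; linarith)
  have a2 := KK_le (T' := 9) hL0 hT hT8 zero_le_one (by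
    have : 1 / Real.log P ≤ 1 := (div_le_one hL0).2 hL
    linarith)
  rw [zero_sub, norm_neg, norm_real, Real.norm_of_nonpos (by linarith)] at a1
  have a3 := (re_le_norm _).trans a1
  rw [mul_one] at a2
  have a4 : KK T (√(Real.log P)) 1 * -(a - lam P z) ≤ 272 * Real.exp 9 * x :=
    mul_le_mul a2 (by linarith) (by linarith) (by positivity)
  rw [sub_re, Ph_zero hT hS] at a3
  rw [PZ, zt_self hL0, ← Ph_shift hT hS (a := 1) (by rw [ofReal_re]; linarith) (by linarith)]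
  linarith

theorem lam_pos {Q : ℕ} [NeZero Q] {P : ℝ} (hL : 0 < Real.log P) {ξ : DC Q} {z : ℂ}
    (h : ord ξ z ≠ 0) : 0 < lam P z := mul_pos (sub_pos.2 (re_lt_one_of_ord h)) hL

theorem PZ_diff {T P a γ : ℝ} (hL : 0 < Real.log P) (hT : 0 ≤ T) (ha : 0 ≤ a) {z : ℂ}
    (h1 : z.re ≤ 1) (h2 : z.im = 0) : (PZ T P a γ 1).re - (PZ T P a γ z).re ≤
      KK T (√(Real.log P)) (a + 1) * lam P z := by
  have h0 : 0 ≤ lam P z := mul_nonneg (by linarith) hL.le
  have a1 := Ph_lip hT (Real.sqrt_pos.2 hL) (c := a + 1) (by linarith) (ζ := zt P a γ 1)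
    (ζ' := zt P a γ z) (by rw [zt_re hL]; simp [lam]) (by rw [zt_re hL]; linarith)
  have e : zt P a γ 1 - zt P a γ z = (lam P z : ℝ) := by
    have e1 : z = (z.re : ℝ) := Complex.ext rfl (by rw [h2, ofReal_im])
    rw [zt, zt, lam, ofReal_mul, ofReal_sub, ← e1, ofReal_one]
    ring
  rw [e, norm_real, Real.norm_of_nonneg h0] at a1
  exact (re_le_norm _).trans a1

open Classical in
/-- The value `x` for the principal character, zero otherwise. -/
noncomputable def po {Q : ℕ} (ξ : DC Q) (x : ℝ) : ℝ := if ξ = 1 then x else 0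

theorem po_pos {Q : ℕ} {ξ : DC Q} (h : ξ = 1) (x : ℝ) : po ξ x = x := if_pos h

theorem po_neg {Q : ℕ} {ξ : DC Q} (h : ξ ≠ 1) (x : ℝ) : po ξ x = 0 := if_neg h

open Classical in
/-- The form of `efg` used below. -/
def EF (T P φ ε δ U a0 : ℝ) : Prop :=
  ∀ a γ : ℝ, 0 ≤ a → a ≤ a0 →
    (∀ ρ : ℂ, ρ.re ≤ 1 → δ < ‖ρ - cc P γ‖ → ‖PZ T P a γ ρ‖ ≤ ε) ∧
    ∀ (Q : ℕ) [NeZero Q] (ξ : DC Q) (k : ℕ) (Zs : Multiset ℂ), k ≤ 2 → cd ξ ≤ P ^ k → |γ| ≤ U →
      (∀ ρ, Zs.count ρ ≤ ord ξ ρ) →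
      (∀ ρ, ‖ρ - cc P γ‖ ≤ δ → Zs.count ρ < ord ξ ρ → a < lam P ρ) →
      (EE T P a γ ξ).re ≤ po ξ (PZ T P a γ 1).re -
        (Zs.map fun ρ => (PZ T P a γ ρ).re).sum + k * (T * φ / 2) + ε * (1 + Zs.card)

/-- The form of `pos_EE` used below. -/
def PO (T P ε a0 : ℝ) : Prop :=
  ∀ a γ : ℝ, a ≤ a0 → ∀ (Q : ℕ) [NeZero Q] (ξ : DC Q), cd ξ ≤ P →
    -ε ≤ 3 * (EE T P a 0 (1 : DC Q)).re + 4 * (EE T P a γ ξ).re + (EE T P a (2 * γ) (ξ * ξ)).re ∧
      ∀ ψ : DC Q, ξ * ξ = 1 → cd ψ ≤ P ^ 2 →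
        -ε ≤ (EE T P a 0 (1 : DC Q)).re + (EE T P a 0 (ξ * 1)).re + (EE T P a γ ψ).re +
          (EE T P a γ (ξ * ψ)).re

/-- A zero very close to the line is real and belongs to a real character. -/
theorem zero_real {T P φ ε δ U a0 : ℝ} (hL : 1 ≤ Real.log P) (hT : 0 ≤ T) (hT8 : T ≤ 8)
    (hφ : 0 ≤ φ) (hε : 0 ≤ ε) (hδ : δ ≤ 1) (ha0 : 0 ≤ a0) (hgap : 5 * (T * φ / 2) + 25 * ε < T ^ 2 / 2)
    (h1 : EF T P φ ε δ U a0) (h2 : PO T P ε a0) {Q : ℕ} [NeZero Q] {ξ : DC Q} {z : ℂ}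
    (hcd : cd ξ ≤ P) (hz : ord ξ z ≠ 0) (hU : 2 * |z.im| ≤ U)
    (hs : 272 * Real.exp 9 * lam P z ≤ ε) (hζ : ξ = 1 → 1 < |z.im|) :
    ξ ≠ 1 ∧ ξ * ξ = 1 ∧ z.im = 0 := by
  classical
  have hL0 : 0 < Real.log P := by linarith
  have hS := Real.sqrt_pos.2 hL0
  have hl := lam_pos hL0 hz
  have hTφ : 0 ≤ T * φ / 2 := by positivity
  have habs := abs_nonneg z.im
  have E := fun (γ : ℝ) (ψ : DC Q) (k : ℕ) (Zs : Multiset ℂ) (a1 : k ≤ 2) (a2 : cd ψ ≤ P ^ k)
    (a3 : |γ| ≤ U) (a4 : ∀ ρ, Zs.count ρ ≤ ord ψ ρ) =>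
    (h1 0 γ le_rfl ha0).2 Q ψ k Zs a1 a2 a3 a4 fun ρ _ h => lam_pos hL0 (ξ := ψ) (by omega)
  have p := (h2 0 z.im ha0 Q ξ hcd).1
  have e0 := E 0 1 0 0 (by norm_num) (by simp [cd_one]) (by rw [abs_zero]; linarith) (by simp)
  have e1 : (PZ T P 0 0 1).re = T ^ 2 / 2 := by
    rw [PZ, zero_add, ← Ph_zero hT hS]
    simp [zt, s0]
  have e2 := PZ_self hL hT hT8 le_rfl hl.le (x := lam P z) (by linarith)
  have c1 : ∀ ρ, ({z} : Multiset ℂ).count ρ ≤ ord ξ ρ := fun ρ => by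
    rw [Multiset.count_singleton]
    split_ifs with h
    · rw [h]
      omega
    · omega
  have e3 := E z.im ξ 1 {z} (by norm_num) (by rwa [pow_one]) (by linarith) c1
  have h2U : |2 * z.im| ≤ U := by rwa [abs_mul, abs_two]
  have hcd2 : cd (ξ * ξ) ≤ P ^ 1 := by
    have a1 := Nat.le_of_dvd (Nat.pos_of_ne_zero (by simpa using ξ.conductor_ne_zero))
      (DirichletCharacter.conductor_mul_dvd_lcm_conductor ξ ξ)
    rw [Nat.lcm_self] at a1
    rw [pow_one]
    exact le_trans (by unfold cd; exact_mod_cast a1) hcd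
  have e4 := E (2 * z.im) (ξ * ξ) 1 0 (by norm_num) hcd2 h2U (by simp)
  rw [po_pos rfl] at e0
  simp only [Multiset.map_zero, Multiset.sum_zero, Multiset.card_zero, Nat.cast_zero,
    Multiset.map_singleton, Multiset.sum_singleton, Multiset.card_singleton, Nat.cast_one] at e0 e3 e4
  have n1 : ξ ≠ 1 := fun h => by
    have far : ∀ γ : ℝ, 1 < |γ| → (PZ T P 0 γ 1).re ≤ ε := fun γ hγ => by
      refine (re_le_norm _).trans ((h1 0 γ le_rfl ha0).1 1 (by simp) ?_)
      have a1 := abs_im_le_norm (1 - cc P γ)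
      have a2 : (1 - cc P γ).im = -γ := by
        simp only [cc, sub_im, one_im, add_im, ofReal_im, mul_im, ofReal_re, I_im, I_re, mul_one,
          mul_zero, add_zero, zero_add, zero_sub]
      rw [a2, abs_neg] at a1
      linarith
    have a1 := far z.im (hζ h)
    have a2 := far (2 * z.im) (by rw [abs_mul, abs_two]; linarith [hζ h])
    have e5 := E z.im ξ 0 {z} (by norm_num) (by rw [h]; simp [cd_one]) (by linarith) c1
    simp only [Multiset.map_singleton, Multiset.sum_singleton, Multiset.card_singleton,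
      Nat.cast_one, Nat.cast_zero] at e5
    rw [po_pos h] at e5
    rw [po_pos (by rw [h, mul_one])] at e4
    linarith
  rw [po_neg n1] at e3
  have n2 : ξ * ξ = 1 := by
    by_contra h
    rw [po_neg h] at e4
    linarith
  refine ⟨n1, n2, by_contra fun h => ?_⟩
  have hne : z ≠ starRingEnd ℂ z := fun h' => h (conj_eq_iff_im.1 h'.symm)
  have c2 : ord ξ (starRingEnd ℂ z) ≠ 0 := by
    have a1 := ord_conj ξ z
    rw [inv_eq_of_mul_eq_one_right n2] at a1
    rwa [a1]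
  have e5 := E z.im ξ 1 (z ::ₘ {starRingEnd ℂ z}) (by norm_num) (by rwa [pow_one]) (by linarith)
    fun ρ => by
      rw [Multiset.count_cons, Multiset.count_singleton]
      split_ifs with a1 a2 a2
      · exact absurd (a2.symm.trans a1) hne
      · rw [a1]
        omega
      · rw [a2]
        omega
      · omega
  have e6 := E (2 * z.im) (ξ * ξ) 0 0 (by norm_num) (by rw [n2]; simp [cd_one]) h2U (by simp)
  simp only [Multiset.map_cons, Multiset.sum_cons, Multiset.card_cons, Multiset.map_zero,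
    Multiset.sum_zero, Multiset.card_zero, Nat.cast_zero, Multiset.map_singleton,
    Multiset.sum_singleton, Multiset.card_singleton, Nat.cast_one, Nat.cast_add] at e5 e6
  rw [po_neg n1] at e5
  rw [po_pos n2] at e6
  have l2 : lam P (starRingEnd ℂ z) = lam P z := by simp [lam]
  have e7 : 0 ≤ (PZ T P 0 z.im (starRingEnd ℂ z)).re :=
    Ph_nonneg hT hS (by norm_num) (by rw [zt_re hL0, l2]; linarith)
  have e8 := Ph_lip hT hS (c := 0 + 1) (by norm_num) (ζ := zt P 0 (2 * z.im) 1)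
    (ζ' := zt P 0 z.im (starRingEnd ℂ z)) (by rw [zt_re hL0]; simp [lam])
    (by rw [zt_re hL0, l2]; linarith)
  have e9 : zt P 0 (2 * z.im) 1 - zt P 0 z.im (starRingEnd ℂ z) = (lam P z : ℝ) := by
    rw [zt, zt, ← mul_sub, lam, mul_comm (1 - z.re), ofReal_mul]
    congr 1
    refine Complex.ext ?_ ?_
    · simp [s0]
    · simp only [s0, sub_im, one_im, add_im, ofReal_im, mul_im, ofReal_re, I_im, I_re, conj_im]
      ring
  rw [e9, norm_real, Real.norm_of_nonneg hl.le] at e8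
  have e10 := KK_le (T' := 9) hL0 hT hT8 (c := 0 + 1) (by norm_num) (by
    have : (0 + 1) / Real.log P ≤ 1 := (div_le_one hL0).2 (by linarith)
    linarith)
  have e11 := ((re_le_norm _).trans e8).trans (mul_le_mul_of_nonneg_right e10 hl.le)
  rw [sub_re, zero_add, mul_one] at e11
  simp only [PZ, zero_add] at e5 e6 e7 e2
  linarith

/-- The induction over the distance from the line. -/
theorem repel {T T' P φ ε δ U V a0 c1 : ℝ} (hL : 1 ≤ Real.log P) (hP : 1 ≤ P) (hT : 0 ≤ T)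
    (hT8 : T' ≤ 8) (hε : 0 < ε) (hδ : δ ≤ 1) (hV : 1 ≤ V) (hc1 : 0 < c1)
    (hgap : 5 * (T * φ / 2) + 11 * ε + c1 ≤ T ^ 2 / 2) (hTT : T + (a0 + 1) / Real.log P ≤ T')
    (ha0 : 0 ≤ a0) (h1 : EF T P φ ε δ U a0) (h2 : PO T P ε a0) (N : ℕ) (hN : V + N ≤ U)
    {Q : ℕ} [NeZero Q] {ξ1 : DC Q} {z1 : ℂ} (hcd : cd ξ1 ≤ P) (hz1 : ord ξ1 z1 ≠ 0) (n1 : ξ1 ≠ 1)
    (n2 : ξ1 * ξ1 = 1) (n3 : z1.im = 0) (n : ℕ) : n ≤ N → ∀ (ξ : DC Q) (z : ℂ), cd ξ ≤ P ^ 2 →
      cd (ξ1 * ξ) ≤ P ^ 2 → ord ξ z ≠ 0 → (ξ = ξ1 → z = z1 → 1 < ord ξ z) → lam P z ≤ a0 →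
      lam P z < n * (ε / (272 * Real.exp 9)) → |z.im| + n ≤ V + N →
      Real.exp (-(T' * lam P z)) ≤ 544 * Real.exp 8 / c1 * lam P z1 := by
  classical
  have hL0 : 0 < Real.log P := by linarith
  have hq : 0 ≤ (a0 + 1) / Real.log P := by positivity
  have hs := lam_pos hL0 hz1
  induction n with
  | zero =>
    intro _ ξ z _ _ h _ _ h' _
    have := lam_pos hL0 h
    simp only [Nat.cast_zero, zero_mul] at h'
    linarith
  | succ n ih =>
    intro hn ξ z f1 f2 o1 o2 b1 b2 b3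
    by_contra bad
    obtain ⟨ω, hω⟩ : ∃ ω, ω = ε / (272 * Real.exp 9) := ⟨_, rfl⟩
    have hω0 : 0 < ω := by rw [hω]; positivity
    have hnN : (n : ℝ) + 1 ≤ N := by exact_mod_cast hn
    have hn0 : (0 : ℝ) ≤ n := Nat.cast_nonneg n
    rw [← hω] at ih b2
    push_cast at b2 b3
    have hl := lam_pos hL0 o1
    obtain ⟨a, ha⟩ : ∃ a, a = max (lam P z - ω) 0 := ⟨_, rfl⟩
    have a1 : 0 ≤ a := ha ▸ le_max_right _ _
    have a2 : a ≤ lam P z := ha ▸ max_le (by linarith) hl.le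
    have a3 : lam P z - a ≤ ω := by linarith [ha ▸ le_max_left (lam P z - ω) 0]
    obtain ⟨B, hB⟩ : ∃ B : DC Q → Multiset ℂ, B = fun ψ => if ψ = ξ1 then {z1} else 0 := ⟨_, rfl⟩
    have B1 : ∀ ψ ρ, (B ψ).count ρ = if ψ = ξ1 ∧ ρ = z1 then 1 else 0 := fun ψ ρ => by
      rw [hB]
      by_cases h : ψ = ξ1 <;> simp [h, Multiset.count_singleton]
    have B2 : ∀ ψ, ((B ψ).card : ℝ) ≤ 1 := fun ψ => by
      rw [hB]
      by_cases h : ψ = ξ1 <;> simp [h]
    have B3 : ∀ ψ ρ, (B ψ).count ρ ≤ ord ψ ρ := fun ψ ρ => by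
      rw [B1]
      split_ifs with h
      · rw [h.1, h.2]
        omega
      · omega
    have E : ∀ (γ : ℝ) (ψ : DC Q) (k : ℕ) (Zs : Multiset ℂ), k ≤ 2 → cd ψ ≤ P ^ k →
        cd (ξ1 * ψ) ≤ P ^ 2 → |γ| + (n + 1) ≤ V + N → (∀ ρ, Zs.count ρ ≤ ord ψ ρ) → B ψ ≤ Zs → _ :=
      fun γ ψ k Zs c1 c2 c3 c4 c5 c6 => (h1 a γ a1 (a2.trans b1)).2 Q ψ k Zs c1 c2 (by linarith) c5
        fun ρ d1 d2 => by
          by_contra d3
          rw [not_lt] at d3
          have d4 := (Multiset.count_le_of_le ρ c6).trans_lt d2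
          have d5 := lam_pos hL0 (ξ := ψ) (z := ρ) (by omega)
          have d6 : a = lam P z - ω := by
            rcases le_total (lam P z - ω) 0 with h | h
            · rw [max_eq_right h] at ha
              linarith
            · rw [ha, max_eq_left h]
          have d7 : |ρ.im| ≤ |γ| + 1 := by
            have e1 := (abs_im_le_norm _).trans d1
            have e2 : (ρ - cc P γ).im = ρ.im - γ := by
              simp only [cc, sub_im, add_im, ofReal_im, mul_im, ofReal_re, I_im, I_re, mul_one,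
                mul_zero, add_zero, zero_add]
            rw [e2] at e1
            linarith [abs_sub_abs_le_abs_sub ρ.im γ]
          have d8 := ih (by omega) ψ ρ (c2.trans (pow_le_pow_right₀ hP c1)) c3 (by omega)
            (fun e1 e2 => by rwa [B1, if_pos ⟨e1, e2⟩] at d4) (by linarith) (by linarith)
            (by linarith)
          refine bad (le_trans (Real.exp_le_exp.2 (neg_le_neg ?_)) d8)
          exact mul_le_mul_of_nonneg_left (by linarith) (by linarith)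
    have hP2 : P ≤ P ^ 2 := le_self_pow₀ hP two_ne_zero
    have pair : ∀ (ψ : DC Q) (γ : ℝ),
        (po ψ (PZ T P a γ 1).re - ((B ψ).map fun ρ => (PZ T P a γ ρ).re).sum) +
        (po (ξ1 * ψ) (PZ T P a γ 1).re - ((B (ξ1 * ψ)).map fun ρ => (PZ T P a γ ρ).re).sum) ≤
          KK T (√(Real.log P)) (a + 1) * lam P z1 := fun ψ γ => by
      have d1 := PZ_diff (γ := γ) hL0 hT a1 (re_lt_one_of_ord hz1).le n3
      rw [hB]
      by_cases e1 : ψ = 1
      · simp only [e1, mul_one, po_pos rfl, po_neg n1, n1.symm, if_true, if_false,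
          Multiset.map_singleton, Multiset.sum_singleton, Multiset.map_zero, Multiset.sum_zero]
        linarith
      · by_cases e2 : ψ = ξ1
        · simp only [e2, n2, po_pos rfl, po_neg n1, n1.symm, if_true, if_false,
            Multiset.map_singleton, Multiset.sum_singleton, Multiset.map_zero, Multiset.sum_zero]
          linarith
        · have e3 : ξ1 * ψ ≠ 1 := fun h => e2 (mul_left_cancel (h.trans n2.symm))
          have e4 : ξ1 * ψ ≠ ξ1 := fun h => e1 (mul_eq_left.1 h)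
          simp only [po_neg e1, e2, po_neg e3, e4, if_false, Multiset.map_zero, Multiset.sum_zero,
            sub_zero, add_zero]
          exact mul_nonneg (KK_pos _ _ _).le hs.le
    have habs := abs_nonneg z.im
    have q0 := (h2 a z.im (a2.trans b1) Q ξ1 hcd).2 ξ n2 f1
    have q1 := E 0 1 0 (B 1) (by norm_num) (by simp [cd_one]) (by rw [mul_one]; linarith)
      (by rw [abs_zero]; linarith) (B3 _) le_rfl
    have q2 := E 0 (ξ1 * 1) 1 (B (ξ1 * 1)) (by norm_num) (by rwa [mul_one, pow_one])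
      (by rw [mul_one, n2, cd_one]; linarith) (by rw [abs_zero]; linarith) (B3 _) le_rfl
    have q3 := E z.im ξ 2 (z ::ₘ B ξ) le_rfl f1 f2 b3 (fun ρ => by
      rw [Multiset.count_cons]
      split_ifs with h
      · rw [h, B1]
        split_ifs with h'
        · have := o2 h'.1 h'.2
          omega
        · omega
      · exact B3 _ _) (Multiset.le_cons_self _ _)
    have q4 := E z.im (ξ1 * ξ) 2 (B (ξ1 * ξ)) le_rfl f2 (by rwa [← mul_assoc, n2, one_mul]) b3
      (B3 _) le_rfl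
    have q5 := pair 1 0
    have q6 := pair ξ z.im
    have q7 := PZ_self hL hT (by linarith) a1 a2 a3
    have q8 : 272 * Real.exp 9 * ω = ε := by
      rw [hω]
      field_simp
    rw [Multiset.map_cons, Multiset.sum_cons, Multiset.card_cons] at q3
    push_cast at q1 q2 q3 q4
    have r1 := mul_le_mul_of_nonneg_left (B2 1) hε.le
    have r2 := mul_le_mul_of_nonneg_left (B2 (ξ1 * 1)) hε.le
    have r3 := mul_le_mul_of_nonneg_left (B2 ξ) hε.le
    have r4 := mul_le_mul_of_nonneg_left (B2 (ξ1 * ξ)) hε.le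
    have r5 : c1 ≤ 2 * (KK T (√(Real.log P)) (a + 1) * lam P z1) := by linarith
    have r6 := KK_le (T' := T') hL0 hT (by linarith) (c := a + 1) (by linarith) (by
      have : (a + 1) / Real.log P ≤ (a0 + 1) / Real.log P := by gcongr; linarith
      linarith)
    have r7 : Real.exp (T' * (a + 1)) ≤ Real.exp 8 * Real.exp (T' * lam P z) := by
      rw [← Real.exp_add, Real.exp_le_exp]
      have := mul_le_mul_of_nonneg_left a2 (show 0 ≤ T' by linarith)
      linarith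
    have r8 := mul_le_mul_of_nonneg_right (r6.trans (mul_le_mul_of_nonneg_left r7 (by norm_num)))
      hs.le
    refine bad ?_
    rw [Real.exp_neg, inv_le_iff_one_le_mul₀ (Real.exp_pos _), div_mul_eq_mul_div,
      div_mul_eq_mul_div, le_div_iff₀ hc1]
    linarith

end Pool.Agent.Lib.MP_778b46_nt.GX.Dh

namespace Pool.Agent.Lib.MP_778b46_nt.GX

open Complex Filter Dh

/-- The phenomenon of Deuring and Heilbronn. -/
theorem dh {ph0 : ℝ} (h0 : 0 < ph0) (h0' : ph0 ≤ 1 / 2) (hTB : TB ph0) (hZ : ZFS) : DH ph0 := by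
  classical
  intro T hT5 hT8
  obtain ⟨d, hd⟩ : ∃ d, d = T - 5 * ph0 := ⟨_, rfl⟩
  have hd0 : 0 < d := by linarith
  obtain ⟨T1, hT1⟩ : ∃ T1, T1 = T - d / 2 := ⟨_, rfl⟩
  have hT10 : 0 < T1 := by linarith
  obtain ⟨ε, hε⟩ : ∃ ε, ε = T1 * d / 400 := ⟨_, rfl⟩
  have hε0 : 0 < ε := by rw [hε]; positivity
  obtain ⟨δ, η, ε2, P1, hδ, hδ1, hη, hε2, hP1, hef⟩ := efg hTB (show 0 < d / 20 by positivity) hε0
  obtain ⟨P2, hpo⟩ := pos_EE hε0
  obtain ⟨c, hc, hzf⟩ := hZ 1 1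
  obtain ⟨ω, hω⟩ : ∃ ω, ω = ε / (272 * Real.exp 9) := ⟨_, rfl⟩
  have hω0 : 0 < ω := by rw [hω]; positivity
  obtain ⟨e2, g1, g2, g3, g4⟩ : ∃ e2 : ℝ, 0 < e2 ∧ e2 ≤ ε2 ∧ e2 ≤ d / 4 ∧ e2 ≤ 1 / 2 :=
    ⟨min ε2 (min (d / 4) (1 / 2)), by positivity, min_le_left _ _,
      (min_le_right _ _).trans (min_le_left _ _), (min_le_right _ _).trans (min_le_right _ _)⟩
  have t1 : Tendsto (fun P : ℝ => Real.log P / P ^ (η / 2)) atTop (nhds 0) :=
    (isLittleO_log_rpow_atTop (by positivity)).tendsto_div_nhds_zero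
  obtain ⟨P3, hP3⟩ := eventually_atTop.1 ((t1.eventually_le_const (show 0 < ω / 2 by positivity)).and
    (((tendsto_rpow_atTop (show 0 < η / 2 by positivity)).eventually_ge_atTop 4).and
      (Real.tendsto_log_atTop.eventually ((eventually_ge_atTop 1).and
        ((eventually_ge_atTop (ω / c)).and (eventually_ge_atTop (4 / d)))))))
  refine ⟨η / 2, e2, ω, 544 * Real.exp 8 / ε, max P1 (max P2 P3), by positivity, g1, hω0,
    fun P hP Q _ ι _ χ ρ hsub hρ i hi => ?_⟩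
  have hPa : P1 ≤ P := (le_max_left _ _).trans hP
  have hPb : P2 ≤ P := ((le_max_left _ _).trans (le_max_right _ _)).trans hP
  obtain ⟨k1, k2, hL, k3, k4⟩ := hP3 P (((le_max_right _ _).trans (le_max_right _ _)).trans hP)
  have hL0 : 0 < Real.log P := by linarith
  have hP1' : 1 ≤ P := by linarith
  have hPη : P ^ η = P ^ (η / 2) * P ^ (η / 2) := by
    rw [← Real.rpow_add (by linarith), add_halves]
  have H1 : EF T1 P (ph0 + d / 20) ε δ (P ^ η) (e2 * Real.log P) := fun a γ a1 a2 => by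
    have a3 := hef P hPa T1 a γ hT10.le (by linarith) a1 (a2.trans (by gcongr))
    refine ⟨a3.1, fun Q _ ξ k Zs b1 b2 b3 b4 b5 => ?_⟩
    have b6 : (k : ℝ) ≤ 2 := by exact_mod_cast b1
    have b7 := a3.2 Q ξ (k * (ph0 + d / 20)) Zs (by positivity)
      ((mul_le_mul b6 (show ph0 + d / 20 ≤ 1 by linarith) (by positivity) zero_le_two).trans_eq
        (mul_one 2)) (by
        rw [Real.rpow_mul (by linarith), Real.rpow_natCast]
        exact Real.rpow_le_rpow (cd_pos ξ).le b2 (by positivity)) b3 b4 b5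
    by_cases h : ξ = 1
    · rw [if_pos h] at b7
      rw [po_pos h]
      linarith
    · rw [if_neg h] at b7
      rw [po_neg h]
      linarith
  have g5 := mul_le_mul_of_nonneg_right g4 hL0.le
  have g6 := mul_le_mul_of_nonneg_right g3 hL0.le
  have g7 := mul_le_mul_of_nonneg_right k2 (show 0 ≤ P ^ (η / 2) by linarith)
  have H2 : PO T1 P ε (e2 * Real.log P) := fun a γ a1 =>
    hpo P hPb T1 a γ hT10.le (by linarith) (by linarith)
  have gap : 5 * (T1 * (ph0 + d / 20) / 2) + 50 * ε = T1 ^ 2 / 2 := by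
    rw [hε, hT1, hd]
    ring
  obtain ⟨r1, r2, r3⟩ := hρ i
  have hoi := hsub.ord_ne_zero i
  obtain ⟨n1, n2, n3⟩ := zero_real hL hT10.le (by linarith) (by positivity) hε0.le (by linarith)
    (by positivity) (by linarith) H1 H2 r1 hoi (by linarith) (by
      rw [hω, le_div_iff₀ (by positivity)] at hi
      linarith) fun h => by
      by_contra h'
      refine hoi (hzf Q (χ i) (ρ i) (by rw [h, cd_one]) (not_lt.1 h') ?_)
      rw [div_le_iff₀ hc] at k3
      have : (1 - (ρ i).re) * Real.log P ≤ c * Real.log P := by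
        unfold lam at hi
        linarith
      linarith [le_of_mul_le_mul_right this hL0]
  refine ⟨n1, n2, n3, fun j hj => ?_⟩
  obtain ⟨s1, s2, s3⟩ := hρ j
  have hN1 := Nat.lt_floor_add_one (Real.log P / ω)
  have hN2 := Nat.floor_le (show 0 ≤ Real.log P / ω by positivity)
  have hN3 : Real.log P / ω ≤ P ^ (η / 2) / 2 := by
    rw [div_le_iff₀ (by linarith)] at k1
    rw [div_le_iff₀ hω0]
    linarith
  refine repel hL hP1' hT10.le hT8 hε0 (by linarith) (V := P ^ (η / 2)) (by linarith) hε0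
    (by linarith) ?_ (by positivity) H1 H2 (⌊Real.log P / ω⌋₊ + 1) (by push_cast; linarith) r1 hoi
    n1 n2 n3 _ le_rfl (χ j) (ρ j) (s1.trans (le_self_pow₀ hP1' two_ne_zero))
    ((cd_mul_le _ _).trans (by rw [sq]; exact mul_le_mul r1 s1 (cd_pos _).le (by linarith)))
    (hsub.ord_ne_zero j) (fun e1 e2 => lt_of_lt_of_le ?_ (hsub _ _)) s2 ?_ (by linarith)
  · rw [div_le_iff₀ hd0] at k4
    have : (e2 * Real.log P + 1) / Real.log P ≤ d / 2 := by
      rw [div_le_iff₀ hL0]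
      linarith
    linarith
  · exact Finset.one_lt_card.2 ⟨j, by simp, i, by simp [e1, e2], hj⟩
  · rw [← hω]
    rw [div_lt_iff₀ hω0] at hN1
    push_cast
    linarith

end Pool.Agent.Lib.MP_778b46_nt.GX
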