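import Pool.Agent.Lib.MP_778b46_nt.GX.AsDef

set_option autoImplicit false

noncomputable section

namespace Pool.Agent.Lib.MP_778b46_nt.GX

open Finset Filter
open scoped Classical

/-! Bounds for the weights. -/

variable {Q : ℕ} [NeZero Q] {C : ℝ} {m : ℕ} {χ ψ : DC Q} {z z' : ℂ}

theorem as1_min_nonneg (hC : 0 ≤ C) {x : ℝ} (hx : 0 ≤ x) (e : ℝ) : 0 ≤ min 1 (C * x ^ e) :=
  le_min zero_le_one (mul_nonneg hC (Real.rpow_nonneg hx e))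

theorem as1_max_nonneg (z z' : ℂ) : 0 ≤ 1 + max |z.im| |z'.im| :=
  add_nonneg zero_le_one ((abs_nonneg _).trans (le_max_left _ _))

theorem as1_rpow_le_one (z : ℂ) {e : ℝ} (he : e ≤ 0) : (1 + |z.im|) ^ e ≤ 1 :=
  Real.rpow_le_one_of_one_le_of_nonpos (le_add_of_nonneg_right (abs_nonneg _)) he

theorem as1_rpow_nonneg (z : ℂ) (e : ℝ) : 0 ≤ (1 + |z.im|) ^ e :=
  Real.rpow_nonneg (add_nonneg zero_le_one (abs_nonneg _)) e

omit [NeZero Q] in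
theorem as1_le_left (hC : 0 ≤ C) (m : ℕ) (χ ψ : DC Q) (z z' : ℂ) :
    wt C m χ ψ z z' ≤ min 1 (C * (gg χ ψ m : ℝ) ^ (-(1 / 3) : ℝ)) := by
  have h1 := as1_min_nonneg hC (Nat.cast_nonneg (gg χ ψ m)) (-(1 / 3) : ℝ)
  rw [wt]
  split_ifs
  · exact mul_le_of_le_one_right h1 (min_le_left _ _)
  · exact h1

omit [NeZero Q] in
theorem as1_le_right (hC : 0 ≤ C) (m : ℕ) (χ ψ : DC Q) (z z' : ℂ) :
    wt C m χ ψ z z' ≤ C * (1 + max |z.im| |z'.im|) ^ (-(1 / 2) : ℝ) := by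
  have h1 := as1_min_nonneg hC (as1_max_nonneg z z') (-(1 / 2) : ℝ)
  refine le_trans ?_ (min_le_right 1 _)
  rw [wt]
  split_ifs
  · exact mul_le_of_le_one_left h1 (min_le_left _ _)
  · exact h1

theorem wt_nonneg (hC : 0 ≤ C) (m : ℕ) (χ ψ : DC Q) (z z' : ℂ) : 0 ≤ wt C m χ ψ z z' := by
  rw [wt]
  split_ifs
  · exact mul_nonneg (as1_min_nonneg hC (Nat.cast_nonneg _) _)
      (as1_min_nonneg hC (as1_max_nonneg z z') _)
  · exact le_rfl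

theorem wt_le_one (hC : 0 ≤ C) (m : ℕ) (χ ψ : DC Q) (z z' : ℂ) : wt C m χ ψ z z' ≤ 1 := by
  exact (as1_le_left hC m χ ψ z z').trans (min_le_left _ _)

theorem wt_comm (C : ℝ) (m : ℕ) (χ ψ : DC Q) (z z' : ℂ) : wt C m χ ψ z z' = wt C m ψ χ z' z := by
  rw [wt, wt, as3_gg_comm χ ψ, mul_comm χ ψ, max_comm |z.im|]

theorem wt_le_gg (hC : 0 ≤ C) {R : ℝ} (hR : 0 < R) (h : R ≤ gg χ ψ m) (z z' : ℂ) :
    wt C m χ ψ z z' ≤ C * R ^ (-(1 / 3) : ℝ) := by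
  refine ((as1_le_left hC m χ ψ z z').trans (min_le_right _ _)).trans ?_
  exact mul_le_mul_of_nonneg_left (Real.rpow_le_rpow_of_nonpos hR h (by norm_num)) hC

/-- `as3_cd_le`, `wt_le_gg`. -/
theorem wt_le_cd (hC : 0 ≤ C) {R : ℝ} (hR : 0 < R) (h : R ≤ cd (χ * ψ)) (m : ℕ) (z z' : ℂ) :
    wt C m χ ψ z z' ≤ C * R ^ (-(1 / 3) : ℝ) := by
  by_cases h0 : wt C m χ ψ z z' = 0
  · rw [h0]
    exact mul_nonneg hC (Real.rpow_nonneg hR.le _)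
  · exact wt_le_gg hC hR (h.trans (as3_cd_le h0)) z z'

theorem wt_le_im (hC : 0 ≤ C) {Y : ℝ} (hY : 0 < Y) (h : Y ≤ |z.im| ∨ Y ≤ |z'.im|) (m : ℕ)
    (χ ψ : DC Q) : wt C m χ ψ z z' ≤ C * Y ^ (-(1 / 2) : ℝ) := by
  refine (as1_le_right hC m χ ψ z z').trans (mul_le_mul_of_nonneg_left
    (Real.rpow_le_rpow_of_nonpos hY ?_ (by norm_num)) hC)
  have := le_max_iff.2 h
  linarith

theorem wt_le_prod (hC : 0 ≤ C) (m : ℕ) (χ ψ : DC Q) (z z' : ℂ) : wt C m χ ψ z z' ≤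
    C * ((1 + |z.im|) ^ (-(1 / 4) : ℝ) * (1 + |z'.im|) ^ (-(1 / 4) : ℝ)) := by
  refine (as1_le_right hC m χ ψ z z').trans (mul_le_mul_of_nonneg_left ?_ hC)
  have h1 : 0 < 1 + |z.im| := by positivity
  have h2 : 0 < 1 + |z'.im| := by positivity
  have h3 : 1 + |z.im| ≤ 1 + max |z.im| |z'.im| := by linarith [le_max_left |z.im| |z'.im|]
  have h4 : 1 + |z'.im| ≤ 1 + max |z.im| |z'.im| := by linarith [le_max_right |z.im| |z'.im|]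
  rw [show (-(1 / 2) : ℝ) = -(1 / 4) + -(1 / 4) by norm_num, Real.rpow_add (h1.trans_le h3)]
  exact mul_le_mul (Real.rpow_le_rpow_of_nonpos h1 h3 (by norm_num))
    (Real.rpow_le_rpow_of_nonpos h2 h4 (by norm_num))
    (Real.rpow_nonneg (as1_max_nonneg z z') _) (as1_rpow_nonneg z _)

theorem wt0_nonneg (hC : 0 ≤ C) (χ : DC Q) (z : ℂ) : 0 ≤ wt0 C χ z := by
  exact mul_nonneg (mul_nonneg hC (Real.rpow_nonneg (cd_pos χ).le _)) (as1_rpow_nonneg z _)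

theorem as1_wt0_left (hC : 0 ≤ C) (χ : DC Q) (z : ℂ) :
    wt0 C χ z ≤ C * cd χ ^ (-(1 / 3) : ℝ) :=
  mul_le_of_le_one_right (mul_nonneg hC (Real.rpow_nonneg (cd_pos χ).le _))
    (as1_rpow_le_one z (by norm_num))

theorem as1_wt0_right (hC : 0 ≤ C) (χ : DC Q) (z : ℂ) :
    wt0 C χ z ≤ C * (1 + |z.im|) ^ (-(1 / 2) : ℝ) :=
  mul_le_mul_of_nonneg_right (mul_le_of_le_one_right hC
    (Real.rpow_le_one_of_one_le_of_nonpos (one_le_cd χ) (by norm_num))) (as1_rpow_nonneg z _)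

theorem wt0_le (hC : 0 ≤ C) (χ : DC Q) (z : ℂ) : wt0 C χ z ≤ C := by
  exact (as1_wt0_right hC χ z).trans (mul_le_of_le_one_right hC (as1_rpow_le_one z (by norm_num)))

theorem wt0_le_cd (hC : 0 ≤ C) {R : ℝ} (hR : 0 < R) (h : R ≤ cd χ) (z : ℂ) :
    wt0 C χ z ≤ C * R ^ (-(1 / 3) : ℝ) := by
  exact (as1_wt0_left hC χ z).trans
    (mul_le_mul_of_nonneg_left (Real.rpow_le_rpow_of_nonpos hR h (by norm_num)) hC)

theorem wt0_le_im (hC : 0 ≤ C) {Y : ℝ} (hY : 0 < Y) (h : Y ≤ |z.im|) (χ : DC Q) :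
    wt0 C χ z ≤ C * Y ^ (-(1 / 2) : ℝ) := by
  exact (as1_wt0_right hC χ z).trans (mul_le_mul_of_nonneg_left
    (Real.rpow_le_rpow_of_nonpos hY (by linarith) (by norm_num)) hC)

section

variable {ι : Type} [Fintype ι] {χ : ι → DC Q} {ρ : ι → ℂ} {l : ι → ℝ} {P A L : ℝ}

theorem yw_pos (L : ℝ) (l : ι → ℝ) (i : ι) : 0 < yw L l i := by
  exact Real.exp_pos _

omit [NeZero Q] in
theorem as1_yw_le_one (h : Big χ ρ l P A) (hL : 5 / 2 ≤ L) (i : ι) : yw L l i ≤ 1 := by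
  rw [yw, Real.exp_le_one_iff]
  have := mul_nonneg (show 0 ≤ L by linarith) (h.nonneg i)
  linarith

theorem Big.sum_yw (h : Big χ ρ l P A) (hL : 5 / 2 ≤ L) {S : Finset ι} (hS : ∀ i ∈ S, χ i ≠ 1) :
    ∑ i ∈ S, yw L l i ≤ A := by
  refine le_trans (sum_le_sum fun i _ => ?_) (h.fam S hS)
  rw [yw, Real.exp_le_exp]
  have := mul_le_mul_of_nonneg_right (show 109 / 50 ≤ L by linarith) (h.nonneg i)
  linarith

theorem Big.Zk_le (h : Big χ ρ l P A) (hL : 5 / 2 ≤ L) : Zk χ ρ (yw L l) ≤ A := by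
  refine le_trans (sum_le_sum fun i _ => ?_) h.zet
  refine (mul_le_of_le_one_left (as1_rpow_nonneg _ _) (as1_yw_le_one h hL i)).trans ?_
  exact Real.rpow_le_rpow_of_exponent_le (le_add_of_nonneg_right (abs_nonneg _)) (by norm_num)

/-- If `yw L l i * (1 + |γ i|) ^ (-1 / 8) ≤ t` on `PP χ` then `Zk ≤ A t`. -/
theorem Big.Zk_le_of (h : Big χ ρ l P A) {t : ℝ} (ht : 0 ≤ t)
    (h1 : ∀ i ∈ PP χ, yw L l i * (1 + |(ρ i).im|) ^ (-(1 / 8) : ℝ) ≤ t) :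
    Zk χ ρ (yw L l) ≤ A * t := by
  refine le_trans ?_ (mul_le_mul_of_nonneg_right h.zet ht)
  rw [sum_mul]
  refine sum_le_sum fun i hi => ?_
  have h2 : 0 < 1 + |(ρ i).im| := by positivity
  rw [show (-(1 / 4) : ℝ) = -(1 / 8) + -(1 / 8) by norm_num, Real.rpow_add h2, ← mul_assoc,
    mul_comm]
  exact mul_le_mul_of_nonneg_left (h1 i hi) (as1_rpow_nonneg _ _)

omit [NeZero Q] in
theorem as1_sum_split (χ : ι → DC Q) (F : ι → ℝ) :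
    ∑ i, F i = ∑ i ∈ NP χ, F i + ∑ i ∈ PP χ, F i := by
  rw [add_comm]
  exact (sum_filter_add_sum_filter_not univ (fun i => χ i = 1) F).symm

theorem as1_block (hC : 0 ≤ C) (m : ℕ) (S S' : Finset ι) :
    ∑ i ∈ S, ∑ j ∈ S', wt C m (χ i) (χ j) (ρ i) (ρ j) * (yw L l i * yw L l j) ≤
      C * ((∑ i ∈ S, yw L l i * (1 + |(ρ i).im|) ^ (-(1 / 4) : ℝ)) *
        ∑ j ∈ S', yw L l j * (1 + |(ρ j).im|) ^ (-(1 / 4) : ℝ)) := by
  rw [sum_mul_sum, mul_sum]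
  refine sum_le_sum fun i _ => ?_
  rw [mul_sum]
  refine sum_le_sum fun j _ => ?_
  refine (mul_le_mul_of_nonneg_right (wt_le_prod hC m (χ i) (χ j) (ρ i) (ρ j))
    (mul_pos (yw_pos L l i) (yw_pos L l j)).le).trans (le_of_eq ?_)
  ring

/-- Split `univ` into `NP χ` and `PP χ`; `wt_le_prod`, `wt_comm`, `cd_one`. -/
theorem Big.split (h : Big χ ρ l P A) (hL : 5 / 2 ≤ L) (hC : 0 ≤ C) (m : ℕ) :
    T2 C m χ ρ (yw L l) univ + T1 C χ ρ (yw L l) univ ≤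
      T2 C m χ ρ (yw L l) (NP χ) + T1 C χ ρ (yw L l) (NP χ) + C * (3 * A + 1) * Zk χ ρ (yw L l) := by
  have hZ := h.Zk_le hL
  have hZ0 : 0 ≤ Zk χ ρ (yw L l) :=
    sum_nonneg fun i _ => mul_nonneg (yw_pos L l i).le (as1_rpow_nonneg _ _)
  have hN : ∑ i ∈ NP χ, yw L l i * (1 + |(ρ i).im|) ^ (-(1 / 4) : ℝ) ≤ A :=
    le_trans (sum_le_sum fun i _ => mul_le_of_le_one_right (yw_pos L l i).le
      (as1_rpow_le_one _ (by norm_num))) (h.sum_yw hL fun i hi => by simpa [NP] using hi)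
  have b1 := as1_block (χ := χ) (ρ := ρ) (l := l) (L := L) hC m (NP χ) (PP χ)
  have b2 := as1_block (χ := χ) (ρ := ρ) (l := l) (L := L) hC m (PP χ) (NP χ)
  have b3 := as1_block (χ := χ) (ρ := ρ) (l := l) (L := L) hC m (PP χ) (PP χ)
  have b4 : T1 C χ ρ (yw L l) (PP χ) ≤ C * Zk χ ρ (yw L l) := by
    rw [T1, Zk, mul_sum]
    refine sum_le_sum fun i _ => ?_
    have h2 : wt0 C (χ i) (ρ i) ≤ C * (1 + |(ρ i).im|) ^ (-(1 / 4) : ℝ) :=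
      (as1_wt0_right hC _ _).trans (mul_le_mul_of_nonneg_left
        (Real.rpow_le_rpow_of_exponent_le (le_add_of_nonneg_right (abs_nonneg _)) (by norm_num)) hC)
    refine (mul_le_mul_of_nonneg_right h2 (yw_pos L l i).le).trans (le_of_eq ?_)
    ring
  have e1 : T1 C χ ρ (yw L l) univ = T1 C χ ρ (yw L l) (NP χ) + T1 C χ ρ (yw L l) (PP χ) :=
    as1_sum_split χ _
  have e2 : T2 C m χ ρ (yw L l) univ = T2 C m χ ρ (yw L l) (NP χ) +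
      ∑ i ∈ NP χ, ∑ j ∈ PP χ, wt C m (χ i) (χ j) (ρ i) (ρ j) * (yw L l i * yw L l j) +
      (∑ i ∈ PP χ, ∑ j ∈ NP χ, wt C m (χ i) (χ j) (ρ i) (ρ j) * (yw L l i * yw L l j) +
      ∑ i ∈ PP χ, ∑ j ∈ PP χ, wt C m (χ i) (χ j) (ρ i) (ρ j) * (yw L l i * yw L l j)) := by
    rw [T2, T2, as1_sum_split χ, ← sum_add_distrib, ← sum_add_distrib]
    congr 1 <;> exact sum_congr rfl fun i _ => as1_sum_split χ _
  change _ ≤ C * (_ * Zk χ ρ (yw L l)) at b1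
  change _ ≤ C * (Zk χ ρ (yw L l) * _) at b2
  change _ ≤ C * (Zk χ ρ (yw L l) * Zk χ ρ (yw L l)) at b3
  have c1 := mul_le_mul_of_nonneg_left (mul_le_mul_of_nonneg_right hN hZ0) hC
  have c2 := mul_le_mul_of_nonneg_left (mul_le_mul_of_nonneg_left hN hZ0) hC
  have c3 := mul_le_mul_of_nonneg_left (mul_le_mul_of_nonneg_right hZ hZ0) hC
  rw [e1, e2]
  linarith

end

end Pool.Agent.Lib.MP_778b46_nt.GX
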