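import Pool.Agent.Lib.MP_778b46_nt.GX.DefsMA

set_option autoImplicit false

namespace Pool.Agent.Lib.MP_778b46_nt.GX

open Finset

/-- The count of the `n ≤ X` for which `2 n` is not a sum of two different primes. -/
theorem exc_count {θ : ℝ} (h : EXC θ) : ∃ C : ℝ, ∀ X : ℕ, 1 ≤ X →
    (Set.ncard {n : ℕ | 1 ≤ n ∧ n ≤ X ∧
      ¬ ∃ p q : ℕ, p.Prime ∧ q.Prime ∧ p ≠ q ∧ p + q = 2 * n} : ℝ) ≤ C * (X : ℝ) ^ θ := by
  classical
  obtain ⟨C, h⟩ := h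
  refine ⟨C * 2 ^ θ, fun X hX => ?_⟩
  have h1 := h (2 * X) (by omega)
  push_cast at h1
  rw [Real.mul_rpow (by norm_num) (by positivity), ← mul_assoc] at h1
  refine le_trans ?_ h1
  rw [← Set.ncard_coe_finset]
  exact_mod_cast Set.ncard_le_ncard_of_injOn (fun n => 2 * n) (fun n hn => by
    obtain ⟨a, b, c⟩ := hn
    simp only [coe_filter, mem_Icc, Set.mem_ofPred_eq]
    exact ⟨⟨by omega, by omega⟩, even_two_mul n, c⟩) (fun a _ b _ hab => by simpa using hab)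
    (Finset.finite_toSet _)

/-- The same count with the primes written as `p x`, the `x`-th prime. -/
theorem exc_count_nth {θ : ℝ} (h : EXC θ) : ∃ C : ℝ, ∀ X : ℕ, 1 ≤ X →
    (Set.ncard {n : ℕ | 1 ≤ n ∧ n ≤ X ∧ ¬ ∃ x y : ℕ, 0 < x ∧ 0 < y ∧
      Nat.nth Nat.Prime (x - 1) ≠ Nat.nth Nat.Prime (y - 1) ∧
      Nat.nth Nat.Prime (x - 1) + Nat.nth Nat.Prime (y - 1) = 2 * n} : ℝ) ≤ C * (X : ℝ) ^ θ := by
  obtain ⟨C, h⟩ := exc_count h
  refine ⟨C, fun X hX => le_trans (le_of_eq ?_) (h X hX)⟩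
  congr 2
  ext n
  refine and_congr_right fun _ => and_congr_right fun _ => not_congr ⟨?_, ?_⟩
  · rintro ⟨x, y, -, -, a, b⟩
    exact ⟨_, _, Nat.prime_nth_prime _, Nat.prime_nth_prime _, a, b⟩
  · rintro ⟨p, q, hp, hq, a, b⟩
    refine ⟨Nat.count Nat.Prime p + 1, Nat.count Nat.Prime q + 1, by omega, by omega, ?_⟩
    simpa only [Nat.add_sub_cancel, Nat.nth_count hp, Nat.nth_count hq] using And.intro a b

end Pool.Agent.Lib.MP_778b46_nt.GX
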