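import Pool.Agent.Lib.MP_778b46_nt.GX.T4f

namespace Pool.Agent.Lib.MP_778b46_nt.GX

open Finset

open Classical in
/-- The numerical part in the model with a part of low order, with an arbitrary margin. -/
def CERT3 (L φ φ1 : ℝ) : Prop :=
  ∃ psF psC qsF qsC : List MP, (∀ p ∈ psF, p.ok φ φ) ∧ (∀ p ∈ psC, p.ok φ (1 / 1000)) ∧
    (∀ p ∈ qsF, p.ok φ1 φ1) ∧ (∀ p ∈ qsC, p.ok φ1 (1 / 1000)) ∧
    ∀ s0 : ℝ, 0 < s0 → ∃ k0 : ℝ, 0 < k0 ∧ ∀ H : ℝ, 10 ≤ H → ∃ ε : ℝ, 0 < ε ∧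
      ∀ (Γ Ω ι : Type) [CommGroup Γ] [Fintype Ω] [Fintype ι] (D : Dat Γ Ω ι) (Lo : Subgroup Γ),
        Clean2 D Lo φ φ1 ε H psF psC qsF qsC → (∀ i, s0 ≤ D.lam i) →
          ∑ i, ∑ j ∈ univ.filter (fun j => D.sm (D.ch i * D.ch j)),
            Real.exp (-(L * D.lam i)) * Real.exp (-(L * D.lam j)) ≤ 1 - k0

end Pool.Agent.Lib.MP_778b46_nt.GX
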