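import Pool.Agent.Lib.MP_778b46_nt.GX.As9
import Pool.Agent.Lib.MP_778b46_nt.GX.CertD
import Pool.Agent.Lib.MP_778b46_nt.MA.T3

set_option autoImplicit false

namespace Pool.Agent.Lib.MP_778b46_nt.GX

open Finset Filter

/-- What is left: the bound for the pairs of zeros. -/
theorem exc_of_fin {L te : ℝ} (hL : 5 / 2 ≤ L) (hte : 1 - 1 / L < te) (hE : FIN L) : EXC te := by
  have L0 : 0 < L := by linarith
  have h1 : 1 / L ≤ 2 / 5 := by rw [div_le_iff₀ L0]; linarith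
  obtain ⟨th, a1, a2⟩ := exists_between (max_lt (one_div_pos.2 L0) (by linarith : 1 - te < 1 / L))
  have b1 : 0 < th := (le_max_left _ _).trans_lt a1
  have b2 : 1 - te < th := (le_max_right _ _).trans_lt a1
  exact final2 b1 (by linarith) hL ((lt_one_div L0 b1).2 a2) (by linarith) tb_third
    (dh (by norm_num) (by norm_num) tb_third zfs) (ma_all b1 (by linarith)) hE

/-- What is left: the numerical part. -/
theorem exc_of2 {L ph te : ℝ} (hL : 5 / 2 ≤ L) (hph : 1 / 3 < ph) (hte : 1 - 1 / L < te)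
    (hE : CERT2 L ph) : EXC te :=
  exc_of_fin hL hte (fin_of_cert2 hph
    (cln (by norm_num) (by norm_num) tb_third (Mo.mol (by norm_num) tb_third)) hE)

theorem fin_of_cert3 {L φ φ1 : ℝ} (hφ : 1 / 3 < φ) (hφ1 : 1 / 4 < φ1) (hCE : CERT3 L φ φ1) :
    FIN L := by
  obtain ⟨psF, psC, qsF, qsC, h1, h2, h1', h2', h3⟩ := hCE
  intro s0 hs
  obtain ⟨k0, hk, h3⟩ := h3 s0 hs
  refine ⟨k0, hk, fun H Y R hH hY hR => ?_⟩
  obtain ⟨ε, hε, h3⟩ := h3 H hH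
  obtain ⟨P0, h4⟩ := cln2 φ φ1 ε H Y R psF psC qsF qsC hφ hφ1 hε (by linarith) hY hR h1 h2 h1' h2'
  filter_upwards [eventually_ge_atTop P0] with P hP Q _ q ι _ χ ρ a1 a2 a3 a4 a5 a6 a7 a8
  obtain ⟨Γ, Ω, _, _, D, Lo, b1, b2, b3⟩ := h4 P hP Q q ι χ ρ a1 a2 a3 a4 a5 a6 a7
  have := h3 Γ Ω ι D Lo b1 fun i => by rw [b2]; exact a8 i
  simp only [b2, b3] at this
  convert this

theorem exc_of3 {L φ φ1 te : ℝ} (hL : 5 / 2 ≤ L) (hφ : 1 / 3 < φ) (hφ1 : 1 / 4 < φ1)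
    (hte : 1 - 1 / L < te) (hE : CERT3 L φ φ1) : EXC te :=
  exc_of_fin hL hte (fin_of_cert3 hφ hφ1 hE)

end Pool.Agent.Lib.MP_778b46_nt.GX
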