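import Pool.Agent.Lib.MP_778b46_nt.GX.As10
import Pool.Agent.Lib.MP_778b46_nt.GX.As11

set_option autoImplicit false

namespace Pool.Agent.Lib.MP_778b46_nt.GX

/-- The final statement from the numerical part at `L = 5 / 2`. -/
theorem exc_final {φ φ1 : ℝ} (hφ : 1 / 3 < φ) (hφ1 : 1 / 4 < φ1) (h : CERT3 (5 / 2) φ φ1) :
    ∀ ε : ℝ, 0 < ε → ∃ C : ℝ, ∀ X : ℕ, 1 ≤ X →
      (Set.ncard {n : ℕ | 1 ≤ n ∧ n ≤ X ∧ ¬ ∃ x y : ℕ, 0 < x ∧ 0 < y ∧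
        Nat.nth Nat.Prime (x - 1) ≠ Nat.nth Nat.Prime (y - 1) ∧
        Nat.nth Nat.Prime (x - 1) + Nat.nth Nat.Prime (y - 1) = 2 * n} : ℝ) ≤
          C * (X : ℝ) ^ (3 / 5 + ε) :=
  fun _ hε => exc_count_nth (exc_of3 le_rfl hφ hφ1 (by linarith) h)

end Pool.Agent.Lib.MP_778b46_nt.GX
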