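import Pool.Agent.Lib.MP_778b46_nt.GX.As1
import Pool.Agent.Lib.MP_778b46_nt.GX.SG

set_option autoImplicit false

noncomputable section

namespace Pool.Agent.Lib.MP_778b46_nt.GX

open Finset Filter
open scoped Classical

/-! The case of an exceptional zero. -/

section

variable {Q : ℕ} [NeZero Q] {ι : Type} [Fintype ι] {χ : ι → DC Q} {ρ : ι → ℂ} {l : ι → ℝ}
  {P A L C d : ℝ} {i₀ : ι}

omit [NeZero Q] in
theorem as2_NP {i : ι} : i ∈ NP χ ↔ χ i ≠ 1 := by simp [NP]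

/-- `exp (-(L l)) = exp (-(71 / 100 l)) exp (-((L - 71 / 100) l))` and `L - 71 / 100 ≥ 17 / 10 * 21 / 20`. -/
theorem as2_y (hL : 5 / 2 ≤ L) {x : ℝ} (hx : 0 ≤ x) (hd : Real.exp (-(17 / 10 * x)) ≤ d) :
    Real.exp (-(L * x)) ≤ Real.exp (-(71 / 100 * x)) * d ^ (21 / 20 : ℝ) := by
  have h1 : Real.exp (-(17 / 10 * x)) ^ (21 / 20 : ℝ) ≤ d ^ (21 / 20 : ℝ) :=
    Real.rpow_le_rpow (Real.exp_pos _).le hd (by norm_num)
  refine le_trans ?_ (mul_le_mul_of_nonneg_left h1 (Real.exp_pos _).le)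
  rw [← Real.exp_mul, ← Real.exp_add]
  exact Real.exp_le_exp.2 (by nlinarith)

/-- The `j` with `cd (ξ * χ j) ≤ P ^ (1 / 200)` form a class: `χ j / χ k = (ξ * χ j) * (ξ * χ k)⁻¹`. -/
theorem as2_class (h : Big χ ρ l P A) (hP : 1 ≤ P) (hL : 5 / 2 ≤ L) (hd0 : 0 ≤ d)
    (hd : ∀ j, j ≠ i₀ → Real.exp (-(17 / 10 * l j)) ≤ d) (ξ : DC Q) :
    ∑ j ∈ ((NP χ).erase i₀).filter (fun j => cd (ξ * χ j) ≤ P ^ (1 / 200 : ℝ)), yw L l j ≤
      A * d ^ (21 / 20 : ℝ) := by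
  have h1 := h.cls (((NP χ).erase i₀).filter fun j => cd (ξ * χ j) ≤ P ^ (1 / 200 : ℝ))
    (fun i hi => as2_NP.1 (mem_of_mem_erase (mem_filter.1 hi).1)) fun i hi j hj => by
      have e : χ i / χ j = (ξ * χ i) * (ξ * χ j)⁻¹ := by
        rw [← div_eq_mul_inv, mul_div_mul_left_eq_div]
      rw [e]
      refine (cd_mul_le _ _).trans ?_
      rw [cd_inv]
      refine (mul_le_mul (mem_filter.1 hi).2 (mem_filter.1 hj).2 (cd_pos _).le
        (by positivity)).trans (le_of_eq ?_)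
      rw [← Real.rpow_add (by linarith)]
      norm_num
  refine le_trans ?_ (mul_le_mul_of_nonneg_right h1 (Real.rpow_nonneg hd0 _))
  rw [sum_mul]
  exact sum_le_sum fun j hj =>
    as2_y hL (h.nonneg j) (hd j (ne_of_mem_erase (mem_filter.1 hj).1))

theorem as2_gen (h : Big χ ρ l P A) (hP : 1 ≤ P) (hL : 5 / 2 ≤ L) (hC : 0 ≤ C) (hd0 : 0 ≤ d)
    (hd : ∀ j, j ≠ i₀ → Real.exp (-(17 / 10 * l j)) ≤ d) (ξ : DC Q) {B : ℝ} (hB : 0 ≤ B)
    (w : ι → ℝ) (h1 : ∀ j, w j ≤ B)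
    (h2 : ∀ j (R : ℝ), 0 < R → R ≤ cd (ξ * χ j) → w j ≤ C * R ^ (-(1 / 3) : ℝ)) :
    ∑ j ∈ (NP χ).erase i₀, w j * yw L l j ≤
      B * (A * d ^ (21 / 20 : ℝ)) + C * A * P ^ (-(1 / 600) : ℝ) := by
  rw [← sum_filter_add_sum_filter_not _ fun j => cd (ξ * χ j) ≤ P ^ (1 / 200 : ℝ)]
  refine add_le_add ?_ ?_
  · refine le_trans ?_ (mul_le_mul_of_nonneg_left (as2_class h hP hL hd0 hd ξ) hB)
    rw [mul_sum]
    exact sum_le_sum fun j _ => mul_le_mul_of_nonneg_right (h1 j) (yw_pos L l j).le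
  · have h3 := h.sum_yw hL (S := ((NP χ).erase i₀).filter
      fun j => ¬cd (ξ * χ j) ≤ P ^ (1 / 200 : ℝ))
      fun i hi => as2_NP.1 (mem_of_mem_erase (mem_filter.1 hi).1)
    rw [mul_right_comm]
    refine le_trans ?_ (mul_le_mul_of_nonneg_left h3 (by positivity))
    rw [mul_sum]
    refine sum_le_sum fun j hj => mul_le_mul_of_nonneg_right ?_ (yw_pos L l j).le
    refine (h2 j _ (by positivity) (not_le.1 (mem_filter.1 hj).2).le).trans (le_of_eq ?_)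
    rw [← Real.rpow_mul (by linarith)]
    norm_num

/-- `as2_class`, `wt_le_one`, `wt_le_cd`. -/
theorem as2_row (h : Big χ ρ l P A) (hP : 1 ≤ P) (hL : 5 / 2 ≤ L) (hC : 0 ≤ C) (hd0 : 0 ≤ d)
    (hd : ∀ j, j ≠ i₀ → Real.exp (-(17 / 10 * l j)) ≤ d) (m : ℕ) (i : ι) :
    ∑ j ∈ (NP χ).erase i₀, wt C m (χ i) (χ j) (ρ i) (ρ j) * yw L l j ≤
      A * d ^ (21 / 20 : ℝ) + C * A * P ^ (-(1 / 600) : ℝ) := by
  simpa only [one_mul] using as2_gen h hP hL hC hd0 hd (χ i) zero_le_one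
    (fun j => wt C m (χ i) (χ j) (ρ i) (ρ j)) (fun j => wt_le_one hC _ _ _ _ _)
    fun j R hR hc => wt_le_cd hC hR hc _ _ _

/-- `Big.split`; the pair `(i₀, i₀)`, the rows (`as2_row`, `wt_comm`), the single terms (`as2_class` with
`ξ = 1`), `Big.Zk_le_of` with `t = d ^ (21 / 20)`. -/
theorem as2_core (h : Big χ ρ l P A) (hP : 1 ≤ P) (hA : 1 ≤ A) (hL : 5 / 2 ≤ L) (hC : 1 ≤ C)
    (hd0 : 0 ≤ d) (h0 : χ i₀ ≠ 1) (hs : l i₀ ≤ 1 / 5)
    (hd : ∀ j, j ≠ i₀ → Real.exp (-(17 / 10 * l j)) ≤ d) (m : ℕ) :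
    T2 C m χ ρ (yw L l) univ + T1 C χ ρ (yw L l) univ ≤ 1 - 2 * l i₀ +
      7 * C * A ^ 2 * d ^ (21 / 20 : ℝ) + 3 * C * A ^ 2 * P ^ (-(1 / 600) : ℝ) +
        C * cd (χ i₀) ^ (-(1 / 3) : ℝ) := by
  have hC0 : 0 ≤ C := by linarith
  have hi : i₀ ∈ NP χ := as2_NP.2 h0
  have hl := h.nonneg i₀
  have hy0 := yw_pos L l i₀
  have hy1 : yw L l i₀ ≤ 1 := Real.exp_le_one_iff.2 (by nlinarith)
  have hy2 : yw L l i₀ * yw L l i₀ ≤ 1 - 2 * l i₀ := by
    have h1 : yw L l i₀ * yw L l i₀ * Real.exp (5 * l i₀) ≤ 1 := by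
      unfold yw
      rw [← Real.exp_add, ← Real.exp_add]
      exact Real.exp_le_one_iff.2 (by nlinarith)
    have h2 := mul_le_mul_of_nonneg_left (Real.add_one_le_exp (5 * l i₀))
      (mul_pos hy0 hy0).le
    refine le_of_mul_le_mul_right (h2.trans (h1.trans ?_)) (by linarith)
    nlinarith
  have ht : 0 ≤ d ^ (21 / 20 : ℝ) := Real.rpow_nonneg hd0 _
  have hp : 0 ≤ P ^ (-(1 / 600) : ℝ) := by positivity
  have hrow := as2_row h hP hL hC0 hd0 hd m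
  have hone := as2_gen h hP hL hC0 hd0 hd 1 hC0 (fun j => wt0 C (χ j) (ρ j))
    (fun j => wt0_le hC0 _ _) fun j R hR hc => wt0_le_cd hC0 hR (by rwa [one_mul] at hc) _
  have hZ := h.Zk_le_of (L := L) ht fun i hi => by
    have h1 : i ≠ i₀ := fun e => h0 (e ▸ (by simpa [PP] using hi))
    have h2 : (1 + |(ρ i).im|) ^ (-(1 / 8) : ℝ) ≤ 1 :=
      Real.rpow_le_one_of_one_le_of_nonpos (by linarith [abs_nonneg (ρ i).im]) (by norm_num)
    have h3 : Real.exp (-(71 / 100 * l i)) ≤ 1 :=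
      Real.exp_le_one_iff.2 (by linarith [h.nonneg i])
    exact (mul_le_of_le_one_right (yw_pos L l i).le h2).trans
      ((as2_y hL (h.nonneg i) (hd i h1)).trans (mul_le_of_le_one_left ht h3))
  generalize d ^ (21 / 20 : ℝ) = t at *
  generalize P ^ (-(1 / 600) : ℝ) = u at *
  have hr0 : 0 ≤ A * t + C * A * u := by positivity
  have h2 : T2 C m χ ρ (yw L l) (NP χ) ≤ 1 - 2 * l i₀ + (A * t + C * A * u) +
      A * (A * t + C * A * u) := by
    have e : T2 C m χ ρ (yw L l) (NP χ) =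
        wt C m (χ i₀) (χ i₀) (ρ i₀) (ρ i₀) * (yw L l i₀ * yw L l i₀) +
          yw L l i₀ * ∑ j ∈ (NP χ).erase i₀, wt C m (χ i₀) (χ j) (ρ i₀) (ρ j) * yw L l j +
          ∑ i ∈ NP χ, yw L l i *
            ∑ j ∈ (NP χ).erase i₀, wt C m (χ i) (χ j) (ρ i) (ρ j) * yw L l j := by
      unfold T2
      simp only [← add_sum_erase _ (fun j => wt C m (χ _) (χ j) (ρ _) (ρ j) *
        (yw L l _ * yw L l j)) hi]
      rw [sum_add_distrib, ← add_sum_erase _ _ hi]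
      simp only [mul_sum]
      congr 1
      · congr 1
        exact sum_congr rfl fun j _ => by rw [wt_comm]; ring
      · exact sum_congr rfl fun i _ => sum_congr rfl fun j _ => by ring
    rw [e]
    refine add_le_add (add_le_add ?_ ?_) ?_
    · exact (mul_le_of_le_one_left (mul_pos hy0 hy0).le (wt_le_one hC0 _ _ _ _ _)).trans hy2
    · exact (mul_le_mul_of_nonneg_left (hrow i₀) hy0.le).trans (mul_le_of_le_one_left hr0 hy1)
    · refine le_trans ?_ (mul_le_mul_of_nonneg_right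
        (h.sum_yw hL (S := NP χ) fun i hi => as2_NP.1 hi) hr0)
      rw [sum_mul]
      exact sum_le_sum fun i _ => mul_le_mul_of_nonneg_left (hrow i) (yw_pos L l i).le
  have h1 : T1 C χ ρ (yw L l) (NP χ) ≤
      C * cd (χ i₀) ^ (-(1 / 3) : ℝ) + (C * (A * t) + C * A * u) := by
    unfold T1
    rw [← add_sum_erase _ _ hi]
    exact add_le_add ((mul_le_of_le_one_right (wt0_nonneg hC0 _ _) hy1).trans
      (wt0_le_cd hC0 (cd_pos _) le_rfl _)) hone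
  have h3 := mul_le_mul_of_nonneg_left hZ (show 0 ≤ C * (3 * A + 1) by positivity)
  have h4 := h.split hL hC0 m
  have a1 : A * t ≤ C * (A * t) := le_mul_of_one_le_left (by positivity) hC
  have a2 : C * (A * t) ≤ A * (C * (A * t)) := le_mul_of_one_le_left (by positivity) hA
  have a3 : A * (A * t) ≤ C * (A * (A * t)) := le_mul_of_one_le_left (by positivity) hC
  have a4 : C * A * u ≤ A * (C * A * u) := le_mul_of_one_le_left (by positivity) hA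
  linarith

end

/-- `as2_core` with `d = CD * s`, `s = lam P (ρ i₀) > 0` (`Sub.re_lt_one`); choose `s1 ≤ 1 / 5` with
`7 C A ^ 2 (|CD| + 1) ^ (21 / 20) s1 ^ (1 / 20) ≤ 1 / 4`. `sg` with exponent `1 / 3` gives
`cd ^ (-1 / 3) ≤ s / (c log P)`; `sg` with exponent `e = min (1 / 1200) (c' / 2)` gives
`P ^ (-e) ≤ s / c` once `log P ≥ 1`; `ρ i₀ = (ρ i₀).re`. -/
theorem caseB {C A CD K c' : ℝ} (hC : 1 ≤ C) (hA : 1 ≤ A) (hc : 0 < c') : ∃ s1 : ℝ, 0 < s1 ∧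
    ∀ᶠ P : ℝ in atTop, ∀ L : ℝ, 5 / 2 ≤ L →
      ∀ (Q : ℕ) [NeZero Q] (ι : Type) [Fintype ι] (χ : ι → DC Q) (ρ : ι → ℂ), Sub χ ρ →
      Big χ ρ (fun i => lam P (ρ i)) P A → ∀ i₀, cd (χ i₀) ≤ P → lam P (ρ i₀) ≤ s1 → χ i₀ ≠ 1 →
      χ i₀ * χ i₀ = 1 → (ρ i₀).im = 0 →
      (∀ j, j ≠ i₀ → Real.exp (-(17 / 10 * lam P (ρ j))) ≤ CD * lam P (ρ i₀)) → ∀ m : ℕ,
      T2 C m χ ρ (yw L fun i => lam P (ρ i)) univ + T1 C χ ρ (yw L fun i => lam P (ρ i)) univ +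
        K * P ^ (-c') < 1 := by
  obtain ⟨c1, hc1, g1⟩ := sg (1 / 3) (by norm_num)
  obtain ⟨e, he, e1, e2⟩ : ∃ e : ℝ, 0 < e ∧ e ≤ 1 / 1200 ∧ e ≤ c' / 2 :=
    ⟨min (1 / 1200) (c' / 2), by positivity, min_le_left _ _, min_le_right _ _⟩
  obtain ⟨c2, hc2, g2⟩ := sg e he
  obtain ⟨E, hE, hE0⟩ : ∃ E : ℝ, E = 7 * C * A ^ 2 * (|CD| + 1) ^ (21 / 20 : ℝ) ∧ 0 < E :=
    ⟨_, rfl, by positivity⟩
  obtain ⟨M, hM, hM0⟩ : ∃ M : ℝ, M = 3 * C * A ^ 2 + |K| ∧ 0 < M := ⟨_, rfl, by positivity⟩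
  refine ⟨min (1 / 5) ((1 / (4 * E)) ^ (20 : ℝ)), by positivity, ?_⟩
  filter_upwards [eventually_ge_atTop (1 : ℝ),
    Real.tendsto_log_atTop.eventually_ge_atTop (1 : ℝ),
    Real.tendsto_log_atTop.eventually_ge_atTop (4 * C / c1),
    (tendsto_rpow_neg_atTop he).eventually_le_const (show 0 < c2 / (4 * M) by positivity)]
    with P hP l1 l2 l3
  intro L hL Q _ ι _ χ ρ hS hB i₀ hcd hs h0 h2 him hd m
  have hre := sub_pos.2 (hS.re_lt_one i₀)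
  have ho : ord (χ i₀) ((ρ i₀).re : ℂ) ≠ 0 := by
    have e : ((ρ i₀).re : ℂ) = ρ i₀ := Complex.ext (by simp) (by simp [him])
    rw [e]
    exact hS.ord_ne_zero i₀
  have k1 := g1 Q _ _ h2 ho
  have k2 := g2 Q _ _ h2 ho
  have hlam : lam P (ρ i₀) = (1 - (ρ i₀).re) * Real.log P := rfl
  have hs0 : 0 < lam P (ρ i₀) := mul_pos hre (by linarith)
  have key := as2_core (d := (|CD| + 1) * lam P (ρ i₀)) hB hP hA hL hC (by positivity) h0
    (hs.trans (min_le_left _ _)) (fun j hj => (hd j hj).trans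
      (mul_le_mul_of_nonneg_right (by linarith [le_abs_self CD]) hs0.le)) m
  generalize lam P (ρ i₀) = s at hs hlam hs0 key
  have b1 : 7 * C * A ^ 2 * ((|CD| + 1) * s) ^ (21 / 20 : ℝ) ≤ s / 4 := by
    have h3 : s ^ (1 / 20 : ℝ) ≤ 1 / (4 * E) := by
      refine (Real.rpow_le_rpow hs0.le (hs.trans (min_le_right _ _)) (by norm_num)).trans
        (le_of_eq ?_)
      rw [← Real.rpow_mul (by positivity)]
      norm_num
    have h4 : s ^ (21 / 20 : ℝ) = s ^ (1 / 20 : ℝ) * s := by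
      rw [← Real.rpow_add_one hs0.ne']
      norm_num
    rw [Real.mul_rpow (by positivity) hs0.le, ← mul_assoc, ← hE, h4]
    calc _ ≤ E * (1 / (4 * E) * s) := by gcongr
      _ = s / 4 := by field_simp
  have b2 : C * cd (χ i₀) ^ (-(1 / 3) : ℝ) ≤ s / 4 := by
    have h3 := (div_le_iff₀ hc1).1 l2
    have h4 : 0 ≤ cd (χ i₀) ^ (-(1 / 3) : ℝ) := Real.rpow_nonneg (cd_pos _).le _
    have h5 := mul_le_mul_of_nonneg_right h3 h4
    have h6 := mul_le_mul_of_nonneg_right k1 (show 0 ≤ Real.log P by linarith)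
    linarith
  have b3 : 3 * C * A ^ 2 * P ^ (-(1 / 600) : ℝ) + K * P ^ (-c') ≤ s / 4 := by
    have h3 : P ^ (-e) ≤ cd (χ i₀) ^ (-e) :=
      Real.rpow_le_rpow_of_nonpos (cd_pos _) hcd (by linarith)
    have h4 : c2 * P ^ (-e) ≤ s := by
      have := mul_le_mul_of_nonneg_left h3 hc2.le
      have := mul_le_mul_of_nonneg_left l1 hre.le
      linarith
    have h5 : ∀ a : ℝ, 2 * e ≤ a → P ^ (-a) ≤ P ^ (-e) * P ^ (-e) := fun a ha => by
      rw [← Real.rpow_add (by linarith)]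
      exact Real.rpow_le_rpow_of_exponent_le hP (by linarith)
    have h6 := mul_le_mul_of_nonneg_left (h5 (1 / 600) (by linarith))
      (show 0 ≤ 3 * C * A ^ 2 by positivity)
    have h7 : K * P ^ (-c') ≤ |K| * (P ^ (-e) * P ^ (-e)) :=
      mul_le_mul (le_abs_self K) (h5 c' (by linarith)) (by positivity) (abs_nonneg K)
    have h8 := mul_le_mul_of_nonneg_right ((le_div_iff₀ (by positivity)).1 l3)
      (show 0 ≤ P ^ (-e) by positivity)
    rw [hM] at h8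
    linarith
  linarith

end Pool.Agent.Lib.MP_778b46_nt.GX
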