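import Pool.Agent.Lib.MP_778b46_nt.GX.DefsMA
import Pool.Agent.Lib.MP_778b46_nt.GX.Basic

/- Pigeonhole lemmas and the count of the integers with a large common modulus. -/

namespace Pool.Agent.Lib.MP_778b46_nt.GX

open Finset

/-- Among `N + 1` consecutive intervals one misses `N` given points. -/
theorem as3_gap {ι : Type} (S : Finset ι) (f : ι → ℝ) (a : ℕ → ℝ) (ha : Monotone a) {N : ℕ}
    (hN : S.card ≤ N) : ∃ k ≤ N, ∀ i ∈ S, f i ≤ a (k + 1) → f i ≤ a k := by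
  classical
  by_contra hcon
  push Not at hcon
  have : Nonempty ι := ⟨(hcon 0 (Nat.zero_le _)).choose⟩
  choose! g hg using hcon
  have hinj : Set.InjOn g (range (N + 1) : Finset ℕ) := by
    have key : ∀ k l, k ≤ N → l ≤ N → k < l → g k ≠ g l := by
      intro k l hk hl hkl he
      have h1 := (hg k hk).2.1
      have h2 := (hg l hl).2.2
      have h3 : a (k + 1) ≤ a l := ha hkl
      rw [he] at h1
      linarith
    intro k hk l hl he
    have hk' : k ≤ N := by simpa [Nat.lt_succ_iff] using hk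
    have hl' : l ≤ N := by simpa [Nat.lt_succ_iff] using hl
    rcases lt_trichotomy k l with h | h | h
    · exact absurd he (key k l hk' hl' h)
    · exact h
    · exact absurd he.symm (key l k hl' hk' h)
  have := card_le_card_of_injOn g (s := range (N + 1)) (t := S)
    (fun k hk => (hg k (by simpa [Nat.lt_succ_iff] using hk)).1) hinj
  rw [card_range] at this
  omega

/-- A gap between the heights. -/
theorem as3_height {ι : Type} (S : Finset ι) (f : ι → ℝ) {Y0 : ℝ} (hY : 0 ≤ Y0) {N : ℕ}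
    (hN : S.card ≤ N) : ∃ k ≤ N, ∀ i ∈ S, f i ≤ 5 * (5 ^ k * Y0) → f i ≤ 5 ^ k * Y0 := by
  obtain ⟨k, h1, h2⟩ := as3_gap S f (fun k => 5 ^ k * Y0)
    (fun k l h => mul_le_mul_of_nonneg_right (pow_le_pow_right₀ (by norm_num) h) hY) hN
  refine ⟨k, h1, fun i hi h => h2 i hi ?_⟩
  rw [pow_succ]
  linarith

/-- A gap between the conductors of the quotients. -/
theorem as3_cond {ι : Type} (S : Finset ι) (f : ι → ι → ℝ) {R0 : ℝ} (hR : 1 ≤ R0) {N : ℕ}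
    (hN : S.card ≤ N) : ∃ l ≤ N ^ 2, ∀ i ∈ S, ∀ j ∈ S,
      f i j ≤ (R0 ^ 2 ^ l) ^ 2 → f i j ≤ R0 ^ 2 ^ l := by
  obtain ⟨k, h1, h2⟩ := as3_gap (S ×ˢ S) (fun p => f p.1 p.2) (fun k => R0 ^ 2 ^ k)
    (fun k l h => pow_le_pow_right₀ hR (Nat.pow_le_pow_right (by norm_num) h)) (N := N ^ 2)
    (by rw [card_product, sq]; exact Nat.mul_le_mul hN hN)
  refine ⟨k, h1, fun i hi j hj h => h2 (i, j) (mem_product.2 ⟨hi, hj⟩) ?_⟩
  rw [pow_succ, pow_mul]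
  exact h

theorem as3_dvd_mul (r m : ℕ) : r ∣ m * (r / Nat.gcd r m) := by
  calc r = Nat.gcd r m * (r / Nat.gcd r m) := (Nat.mul_div_cancel' (Nat.gcd_dvd_left r m)).symm
    _ ∣ m * (r / Nat.gcd r m) := Nat.mul_dvd_mul_right (Nat.gcd_dvd_right r m) _

theorem as3_qd_pos {r : ℕ} (hr : 1 ≤ r) (m : ℕ) : 1 ≤ r / Nat.gcd r m :=
  Nat.div_pos (Nat.le_of_dvd hr (Nat.gcd_dvd_left r m)) (Nat.gcd_pos_of_pos_left m hr)

theorem as3_qd_dvd_of {r m g : ℕ} (hr : 1 ≤ r) (h : r ∣ m * g) : r / Nat.gcd r m ∣ g := by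
  have hp : 0 < Nat.gcd r m := Nat.gcd_pos_of_pos_left m hr
  have hc := Nat.coprime_div_gcd_div_gcd hp
  refine hc.dvd_of_dvd_mul_left ?_
  refine Nat.dvd_of_mul_dvd_mul_left hp ?_
  rw [← mul_assoc, Nat.mul_div_cancel' (Nat.gcd_dvd_left r m),
    Nat.mul_div_cancel' (Nat.gcd_dvd_right r m)]
  exact h

theorem as3_qd_dvd {a b : ℕ} (ha : 1 ≤ a) (h : a ∣ b) (m : ℕ) :
    a / Nat.gcd a m ∣ b / Nat.gcd b m :=
  as3_qd_dvd_of ha (h.trans (as3_dvd_mul b m))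

section

variable {Q : ℕ} [NeZero Q]

theorem as3_gg_pos (χ ψ : DC Q) (m : ℕ) : 1 ≤ gg χ ψ m :=
  as3_qd_pos (Nat.lcm_pos (Nat.pos_of_ne_zero χ.conductor_ne_zero)
    (Nat.pos_of_ne_zero ψ.conductor_ne_zero)) m

omit [NeZero Q] in
theorem as3_gg_comm (χ ψ : DC Q) (m : ℕ) : gg χ ψ m = gg ψ χ m := by
  rw [gg, gg, Nat.lcm_comm]

theorem as3_left_dvd (χ ψ : DC Q) (m : ℕ) :
    χ.conductor / Nat.gcd χ.conductor m ∣ gg χ ψ m :=
  as3_qd_dvd (Nat.pos_of_ne_zero χ.conductor_ne_zero) (Nat.dvd_lcm_left _ _) m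

theorem as3_right_dvd (χ ψ : DC Q) (m : ℕ) :
    ψ.conductor / Nat.gcd ψ.conductor m ∣ gg χ ψ m :=
  as3_qd_dvd (Nat.pos_of_ne_zero ψ.conductor_ne_zero) (Nat.dvd_lcm_right _ _) m

theorem as3_left_le (χ ψ : DC Q) (m : ℕ) :
    ((χ.conductor / Nat.gcd χ.conductor m : ℕ) : ℝ) ≤ gg χ ψ m :=
  Nat.cast_le.2 (Nat.le_of_dvd (as3_gg_pos χ ψ m) (as3_left_dvd χ ψ m))

theorem as3_right_le (χ ψ : DC Q) (m : ℕ) :
    ((ψ.conductor / Nat.gcd ψ.conductor m : ℕ) : ℝ) ≤ gg χ ψ m :=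
  Nat.cast_le.2 (Nat.le_of_dvd (as3_gg_pos χ ψ m) (as3_right_dvd χ ψ m))

/-- A pair of nonzero weight has a product of small conductor. -/
theorem as3_cd_le {C : ℝ} {m : ℕ} {χ ψ : DC Q} {z z' : ℂ} (h : wt C m χ ψ z z' ≠ 0) :
    cd (χ * ψ) ≤ gg χ ψ m := by
  rw [wt] at h
  split_ifs at h with h1
  · exact Nat.cast_le.2 (Nat.le_of_dvd (as3_gg_pos χ ψ m) h1)
  · exact absurd rfl h

end

theorem as3_count {q G : ℕ} {M : ℝ} (hM : 0 ≤ M) (hq : 1 ≤ q) (hG : 1 ≤ G) :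
    (((Icc 1 ⌊M⌋₊).filter fun m => q ∣ m * G).card : ℝ) ≤ M * G / q := by
  have h1 : ((Icc 1 ⌊M⌋₊).filter fun m => q ∣ m * G).card ≤
      ((Ioc 0 (⌊M⌋₊ * G)).filter fun n => q ∣ n).card := by
    refine card_le_card_of_injOn (fun m => m * G) (fun m hm => ?_) fun a _ b _ h => ?_
    · simp only [coe_filter, mem_Icc, mem_Ioc, Set.mem_ofPred_eq] at hm ⊢
      exact ⟨⟨Nat.mul_pos hm.1.1 hG, Nat.mul_le_mul_right _ hm.1.2⟩, hm.2⟩
    · exact Nat.eq_of_mul_eq_mul_right hG h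
  rw [Nat.Ioc_filter_dvd_card_eq_div] at h1
  calc _ ≤ ((⌊M⌋₊ * G / q : ℕ) : ℝ) := Nat.cast_le.2 h1
    _ ≤ ((⌊M⌋₊ * G : ℕ) : ℝ) / q := Nat.cast_div_le
    _ ≤ M * G / q := by
      push_cast
      gcongr
      exact Nat.floor_le hM

/-- Outside a small set of integers `m`, the moduli almost dividing `m` have a small common
multiple. -/
theorem as3_E {ι : Type} (S : Finset ι) (r : ι → ℕ) (hr : ∀ i, 1 ≤ r i) {N : ℕ} (hN : S.card ≤ N)
    {R P M : ℝ} (hR : 1 ≤ R) (hP0 : 0 < P) (hM : 0 ≤ M) :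
    ∃ E : Finset ℕ, (E.card : ℝ) ≤ 2 ^ N * R ^ (2 * N) * M / P ∧
      ∀ m : ℕ, 1 ≤ m → (m : ℝ) ≤ M → m ∉ E → ∃ q : ℕ, 1 ≤ q ∧ (q : ℝ) ≤ P ∧
        (∀ Q : ℕ, (∀ i, r i ∣ Q) → q ∣ Q) ∧
        ∀ i ∈ S, ((r i / Nat.gcd (r i) m : ℕ) : ℝ) ≤ R → r i ∣ q := by
  classical
  have hB : 1 ≤ R ^ N := one_le_pow₀ hR
  have hl : ∀ J : Finset ι, 1 ≤ J.lcm r := fun J =>
    Nat.pos_of_ne_zero (by
      rw [Ne, Finset.lcm_eq_zero_iff]
      rintro ⟨i, -, hi⟩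
      have := hr i
      omega)
  refine ⟨(S.powerset.filter fun J => P < (J.lcm r : ℕ)).biUnion fun J =>
    (Icc 1 ⌊R ^ N⌋₊).biUnion fun G => (Icc 1 ⌊M⌋₊).filter fun m => J.lcm r ∣ m * G, ?_, ?_⟩
  · have h1 : ∀ J ∈ S.powerset.filter fun J => P < (J.lcm r : ℕ),
        (((Icc 1 ⌊R ^ N⌋₊).biUnion fun G =>
          (Icc 1 ⌊M⌋₊).filter fun m => J.lcm r ∣ m * G).card : ℝ) ≤ R ^ (2 * N) * M / P := by
      intro J hJ
      have h2 := (mem_filter.1 hJ).2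
      calc _ ≤ ((∑ G ∈ Icc 1 ⌊R ^ N⌋₊,
            ((Icc 1 ⌊M⌋₊).filter fun m => J.lcm r ∣ m * G).card : ℕ) : ℝ) :=
            Nat.cast_le.2 card_biUnion_le
        _ ≤ ∑ G ∈ Icc 1 ⌊R ^ N⌋₊, M * R ^ N / P := by
            push_cast
            refine sum_le_sum fun G hG => (as3_count hM (hl J) (mem_Icc.1 hG).1).trans ?_
            have h3 : (G : ℝ) ≤ R ^ N :=
              (Nat.cast_le.2 (mem_Icc.1 hG).2).trans (Nat.floor_le (by linarith))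
            gcongr
        _ ≤ R ^ N * (M * R ^ N / P) := by
            rw [sum_const, Nat.card_Icc, nsmul_eq_mul, Nat.add_sub_cancel]
            gcongr
            exact Nat.floor_le (by linarith)
        _ = R ^ (2 * N) * M / P := by ring
    calc _ ≤ ((∑ J ∈ S.powerset.filter fun J => P < (J.lcm r : ℕ),
          ((Icc 1 ⌊R ^ N⌋₊).biUnion fun G =>
            (Icc 1 ⌊M⌋₊).filter fun m => J.lcm r ∣ m * G).card : ℕ) : ℝ) :=
          Nat.cast_le.2 card_biUnion_le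
      _ ≤ ∑ J ∈ S.powerset.filter fun J => P < (J.lcm r : ℕ), R ^ (2 * N) * M / P := by
          push_cast
          exact sum_le_sum h1
      _ ≤ 2 ^ N * (R ^ (2 * N) * M / P) := by
          rw [sum_const, nsmul_eq_mul]
          gcongr
          calc _ ≤ ((S.powerset.card : ℕ) : ℝ) := Nat.cast_le.2 (card_filter_le _ _)
            _ ≤ 2 ^ N := by
              rw [card_powerset]
              push_cast
              exact pow_le_pow_right₀ (by norm_num) hN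
      _ = _ := by ring
  · intro m hm1 hm2 hm
    set J := S.filter fun i => ((r i / Nat.gcd (r i) m : ℕ) : ℝ) ≤ R with hJ
    refine ⟨J.lcm r, hl J, ?_, fun Q hQ => Finset.lcm_dvd fun i _ => hQ i, fun i hi h =>
      Finset.dvd_lcm (mem_filter.2 ⟨hi, h⟩)⟩
    by_contra hcon
    refine hm (mem_biUnion.2 ⟨J, mem_filter.2 ⟨mem_powerset.2 (filter_subset _ _),
      not_le.1 hcon⟩, mem_biUnion.2 ⟨∏ i ∈ J, r i / Nat.gcd (r i) m, mem_Icc.2 ⟨?_, ?_⟩,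
        mem_filter.2 ⟨mem_Icc.2 ⟨hm1, Nat.le_floor hm2⟩, Finset.lcm_dvd fun i hi => ?_⟩⟩⟩)
    · exact one_le_prod' fun i _ => as3_qd_pos (hr i) m
    · refine Nat.le_floor ?_
      calc _ = ∏ i ∈ J, ((r i / Nat.gcd (r i) m : ℕ) : ℝ) := Nat.cast_prod _ _
        _ ≤ ∏ i ∈ J, R := prod_le_prod (fun i _ => Nat.cast_nonneg _) fun i hi =>
            (mem_filter.1 hi).2
        _ ≤ R ^ N := by
            rw [prod_const]
            exact pow_le_pow_right₀ hR ((card_filter_le _ _).trans hN)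
    · exact (as3_dvd_mul (r i) m).trans (Nat.mul_dvd_mul_left m (dvd_prod_of_mem _ hi))

end Pool.Agent.Lib.MP_778b46_nt.GX
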