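import Pool.Agent.Lib.MP_778b46_nt.GX.As1

set_option autoImplicit false

noncomputable section

namespace Pool.Agent.Lib.MP_778b46_nt.GX

open Finset Filter
open scoped Classical

/-! The case without an exceptional zero. -/

section

variable {Q : ℕ} [NeZero Q] {ι : Type} [Fintype ι] {χ : ι → DC Q} {ρ : ι → ℂ} {l : ι → ℝ}
  {P A L C H Y R : ℝ} {m q : ℕ}

omit [NeZero Q] in
theorem as4_ne {i : ι} (hi : i ∈ NP χ) : χ i ≠ 1 := (mem_filter.1 hi).2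

theorem as4_tail (h : Big χ ρ l P A) (hL : 5 / 2 ≤ L) (hH : 0 ≤ H) :
    ∑ i ∈ (NP χ).filter (fun i => H < l i), yw L l i ≤ A * Real.exp (-(3 / 10 * H)) := by
  refine le_trans (sum_le_sum (g := fun i => Real.exp (-(109 / 50 * l i)) * Real.exp (-(3 / 10 * H)))
    fun i hi => ?_) ?_
  · have h1 := (mem_filter.1 hi).2
    rw [yw, ← Real.exp_add, Real.exp_le_exp]
    nlinarith
  · rw [← sum_mul]
    exact mul_le_mul_of_nonneg_right (h.fam _ fun i hi => as4_ne (mem_filter.1 hi).1)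
      (Real.exp_pos _).le

theorem as4_card (h : Big χ ρ l P A) (H : ℝ) :
    (((NP χ).filter fun i => l i ≤ H).card : ℝ) ≤ A * Real.exp (109 / 50 * H) := by
  rw [card_eq_sum_ones, Nat.cast_sum]
  refine le_trans (sum_le_sum (g := fun i => Real.exp (-(109 / 50 * l i)) * Real.exp (109 / 50 * H))
    fun i hi => ?_) ?_
  · have h1 := (mem_filter.1 hi).2
    rw [← Real.exp_add, Nat.cast_one, Real.one_le_exp_iff]
    linarith
  · rw [← sum_mul]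
    exact mul_le_mul_of_nonneg_right (h.fam _ fun i hi => as4_ne (mem_filter.1 hi).1)
      (Real.exp_pos _).le

theorem as4_ite (p : Prop) [Decidable p] : (0 : ℝ) ≤ if p then 1 else 0 := by
  split_ifs
  · exact zero_le_one
  · exact le_rfl

/-- If both `l ≤ H`, both heights are `≤ Y`, `gg ≤ R` and the weight is not zero, then the first indicator is
one (`as3_cd_le`, `as3_left_le`, `as3_right_le`). -/
theorem as4_pair (hC : 0 ≤ C) (hY : 0 < Y) (hR : 0 < R)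
    (hq : ∀ i ∈ NP χ, l i ≤ H →
      (((χ i).conductor / Nat.gcd (χ i).conductor m : ℕ) : ℝ) ≤ R → (χ i).conductor ∣ q)
    {i j : ι} (hi : i ∈ NP χ) (hj : j ∈ NP χ) : wt C m (χ i) (χ j) (ρ i) (ρ j) ≤
      (if ((χ i).conductor ∣ q ∧ l i ≤ H ∧ |(ρ i).im| ≤ 5 * Y) ∧
          ((χ j).conductor ∣ q ∧ l j ≤ H ∧ |(ρ j).im| ≤ 5 * Y) ∧ cd (χ i * χ j) ≤ R then 1 else 0) +
        (if H < l i then 1 else 0) + (if H < l j then 1 else 0) +
        C * Y ^ (-(1 / 2) : ℝ) + C * R ^ (-(1 / 3) : ℝ) := by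
  have a1 := as4_ite (((χ i).conductor ∣ q ∧ l i ≤ H ∧ |(ρ i).im| ≤ 5 * Y) ∧
    ((χ j).conductor ∣ q ∧ l j ≤ H ∧ |(ρ j).im| ≤ 5 * Y) ∧ cd (χ i * χ j) ≤ R)
  have a2 := as4_ite (H < l i)
  have a3 := as4_ite (H < l j)
  have a4 : 0 ≤ C * Y ^ (-(1 / 2) : ℝ) := by positivity
  have a5 : 0 ≤ C * R ^ (-(1 / 3) : ℝ) := by positivity
  have w1 := wt_le_one hC m (χ i) (χ j) (ρ i) (ρ j)
  by_cases h1 : H < l i
  · rw [if_pos h1]
    linarith
  by_cases h2 : H < l j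
  · rw [if_pos h2]
    linarith
  by_cases h3 : Y ≤ |(ρ i).im| ∨ Y ≤ |(ρ j).im|
  · linarith [wt_le_im hC hY h3 m (χ i) (χ j)]
  by_cases h4 : R ≤ gg (χ i) (χ j) m
  · linarith [wt_le_gg hC hR h4 (ρ i) (ρ j)]
  by_cases h5 : wt C m (χ i) (χ j) (ρ i) (ρ j) = 0
  · linarith
  rw [not_or, not_le, not_le] at h3
  rw [not_le] at h4
  rw [not_lt] at h1 h2
  rw [if_pos ⟨⟨hq i hi h1 ((as3_left_le _ _ m).trans h4.le), h1, by linarith [h3.1]⟩,
    ⟨hq j hj h2 ((as3_right_le _ _ m).trans h4.le), h2, by linarith [h3.2]⟩,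
    (as3_cd_le h5).trans h4.le⟩]
  linarith

omit [Fintype ι] in
theorem as4_ind (S : Finset ι) (p : ι → Prop) [DecidablePred p] (y : ι → ℝ) :
    ∑ i ∈ S, (if p i then 1 else 0) * y i = ∑ i ∈ S.filter p, y i := by
  rw [sum_filter]
  exact sum_congr rfl fun i _ => by split_ifs <;> simp

theorem as4_T2 (h : Big χ ρ l P A) (hL : 5 / 2 ≤ L) (hC : 0 ≤ C) (hH : 0 ≤ H)
    (hY : 0 < Y) (hR : 0 < R)
    (hq : ∀ i ∈ NP χ, l i ≤ H →
      (((χ i).conductor / Nat.gcd (χ i).conductor m : ℕ) : ℝ) ≤ R → (χ i).conductor ∣ q) :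
    T2 C m χ ρ (yw L l) (NP χ) ≤
      ∑ i ∈ univ.filter (fun i => (χ i).conductor ∣ q ∧ l i ≤ H ∧ |(ρ i).im| ≤ 5 * Y),
        ∑ j ∈ (univ.filter fun j => (χ j).conductor ∣ q ∧ l j ≤ H ∧ |(ρ j).im| ≤ 5 * Y).filter
          (fun j => cd (χ i * χ j) ≤ R), yw L l i * yw L l j +
      (2 * Real.exp (-(3 / 10 * H)) + C * Y ^ (-(1 / 2) : ℝ) + C * R ^ (-(1 / 3) : ℝ)) * A ^ 2 := by
  have hy : ∀ i, 0 ≤ yw L l i := fun i => (yw_pos L l i).le
  have s0 : 0 ≤ ∑ i ∈ NP χ, yw L l i := sum_nonneg fun i _ => hy i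
  have s1 : ∑ i ∈ NP χ, yw L l i ≤ A := h.sum_yw hL fun i hi => as4_ne hi
  have t0 : 0 ≤ ∑ i ∈ (NP χ).filter (fun i => H < l i), yw L l i := sum_nonneg fun i _ => hy i
  have t1 := as4_tail h hL hH
  have b1 : T2 C m χ ρ (yw L l) (NP χ) ≤ ∑ i ∈ NP χ, ∑ j ∈ NP χ,
      ((if ((χ i).conductor ∣ q ∧ l i ≤ H ∧ |(ρ i).im| ≤ 5 * Y) ∧
          ((χ j).conductor ∣ q ∧ l j ≤ H ∧ |(ρ j).im| ≤ 5 * Y) ∧ cd (χ i * χ j) ≤ R then 1 else 0) *
          (yw L l i * yw L l j) +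
        ((if H < l i then 1 else 0) * yw L l i) * yw L l j +
        yw L l i * ((if H < l j then 1 else 0) * yw L l j) +
        (C * Y ^ (-(1 / 2) : ℝ) + C * R ^ (-(1 / 3) : ℝ)) * (yw L l i * yw L l j)) := by
    refine sum_le_sum fun i hi => sum_le_sum fun j hj => ?_
    refine (mul_le_mul_of_nonneg_right (as4_pair hC hY hR hq hi hj)
      (mul_nonneg (hy i) (hy j))).trans (le_of_eq ?_)
    ring
  have b2 : ∑ i ∈ NP χ, ∑ j ∈ NP χ,
      (if ((χ i).conductor ∣ q ∧ l i ≤ H ∧ |(ρ i).im| ≤ 5 * Y) ∧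
          ((χ j).conductor ∣ q ∧ l j ≤ H ∧ |(ρ j).im| ≤ 5 * Y) ∧ cd (χ i * χ j) ≤ R then 1 else 0) *
          (yw L l i * yw L l j) ≤
      ∑ i ∈ univ.filter (fun i => (χ i).conductor ∣ q ∧ l i ≤ H ∧ |(ρ i).im| ≤ 5 * Y),
        ∑ j ∈ (univ.filter fun j => (χ j).conductor ∣ q ∧ l j ≤ H ∧ |(ρ j).im| ≤ 5 * Y).filter
          (fun j => cd (χ i * χ j) ≤ R), yw L l i * yw L l j := by
    have n1 : ∀ (p : Prop) [Decidable p] (i j : ι),
        0 ≤ (if p then 1 else 0) * (yw L l i * yw L l j) :=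
      fun p _ i j => mul_nonneg (as4_ite p) (mul_nonneg (hy i) (hy j))
    refine (sum_le_sum fun i _ => sum_le_univ_sum_of_nonneg fun j => n1 _ i j).trans ?_
    refine (sum_le_univ_sum_of_nonneg fun i => sum_nonneg fun j _ => n1 _ i j).trans (le_of_eq ?_)
    rw [sum_filter]
    refine sum_congr rfl fun i _ => ?_
    rw [as4_ind univ _ fun j => yw L l i * yw L l j, filter_filter]
    split_ifs with h1
    · simp only [h1, true_and, and_self]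
    · simp only [h1, false_and, filter_false, sum_empty]
  simp only [sum_add_distrib, ← mul_sum, ← sum_mul] at b1
  rw [as4_ind] at b1
  have c1 := mul_le_mul t1 s1 s0 (t0.trans t1)
  have c2 := mul_le_mul s1 s1 s0 (s0.trans s1)
  have c3 := mul_le_mul_of_nonneg_left c2
    (by positivity : 0 ≤ C * Y ^ (-(1 / 2) : ℝ) + C * R ^ (-(1 / 3) : ℝ))
  linarith

theorem as4_T1 (h : Big χ ρ l P A) (hL : 5 / 2 ≤ L) (hC : 0 ≤ C) (hH : 0 ≤ H)
    (hY : 0 < Y) (hR : 0 < R) (hz : ∀ i, cd (χ i) ≤ R → |(ρ i).im| ≤ 5 * Y → H < l i) :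
    T1 C χ ρ (yw L l) (NP χ) ≤
      C * A * (Real.exp (-(3 / 10 * H)) + Y ^ (-(1 / 2) : ℝ) + R ^ (-(1 / 3) : ℝ)) := by
  have s1 : ∑ i ∈ NP χ, yw L l i ≤ A := h.sum_yw hL fun i hi => as4_ne hi
  have t1 := as4_tail h hL hH
  have a4 : 0 ≤ C * Y ^ (-(1 / 2) : ℝ) := by positivity
  have a5 : 0 ≤ C * R ^ (-(1 / 3) : ℝ) := by positivity
  have b1 : T1 C χ ρ (yw L l) (NP χ) ≤ ∑ i ∈ NP χ, (C * ((if H < l i then 1 else 0) * yw L l i) +
      (C * Y ^ (-(1 / 2) : ℝ) + C * R ^ (-(1 / 3) : ℝ)) * yw L l i) := by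
    refine sum_le_sum fun i _ => ?_
    rw [← mul_assoc, ← add_mul]
    refine mul_le_mul_of_nonneg_right ?_ (yw_pos L l i).le
    have a2 := mul_nonneg hC (as4_ite (H < l i))
    by_cases h1 : cd (χ i) ≤ R
    · by_cases h2 : |(ρ i).im| ≤ 5 * Y
      · rw [if_pos (hz i h1 h2)]
        linarith [wt0_le hC (χ i) (ρ i)]
      · linarith [wt0_le_im hC hY (z := ρ i) (by linarith) (χ i)]
    · linarith [wt0_le_cd hC hR (not_le.1 h1).le (ρ i)]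
  simp only [sum_add_distrib, ← mul_sum] at b1
  rw [as4_ind] at b1
  have c1 := mul_le_mul_of_nonneg_left t1 hC
  have c2 := mul_le_mul_of_nonneg_left s1 (add_nonneg a4 a5)
  linarith

theorem as4_Zk (h : Big χ ρ l P A) (hL : 5 / 2 ≤ L) (hH : 0 ≤ H)
    (hY : 0 < Y) (hR : 1 ≤ R) (hz : ∀ i, cd (χ i) ≤ R → |(ρ i).im| ≤ 5 * Y → H < l i) :
    Zk χ ρ (yw L l) ≤ A * (Y ^ (-(1 / 8) : ℝ) + Real.exp (-(3 / 10 * H))) := by
  have a1 : 0 ≤ Y ^ (-(1 / 8) : ℝ) := by positivity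
  have a2 := (Real.exp_pos (-(3 / 10 * H))).le
  refine h.Zk_le_of (add_nonneg a1 a2) fun i hi => ?_
  have h0 := h.nonneg i
  have h4 := abs_nonneg (ρ i).im
  by_cases h2 : |(ρ i).im| ≤ 5 * Y
  · have h7 : χ i = 1 := by simpa [PP] using hi
    have h1 := hz i (by rw [h7, cd_one]; exact hR) h2
    have h3 : yw L l i ≤ Real.exp (-(3 / 10 * H)) := Real.exp_le_exp.2 (by nlinarith)
    have h5 : (1 + |(ρ i).im|) ^ (-(1 / 8) : ℝ) ≤ 1 :=
      Real.rpow_le_one_of_one_le_of_nonpos (by linarith) (by norm_num)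
    linarith [mul_le_of_le_one_right (yw_pos L l i).le h5]
  · have h3 : yw L l i ≤ 1 := Real.exp_le_one_iff.2 (by nlinarith)
    have h5 : (1 + |(ρ i).im|) ^ (-(1 / 8) : ℝ) ≤ Y ^ (-(1 / 8) : ℝ) :=
      Real.rpow_le_rpow_of_nonpos hY (by linarith) (by norm_num)
    have h6 : 0 ≤ (1 + |(ρ i).im|) ^ (-(1 / 8) : ℝ) := by positivity
    linarith [mul_le_of_le_one_left h6 h3]

/-- `Big.split`, `as4_pair`, `as4_tail`, `wt0_le`, `wt0_le_cd`, `wt0_le_im`, `Big.Zk_le_of` with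
`t = Y ^ (-1 / 8) + exp (-(2 / 5 H))`. -/
theorem as4_core (h : Big χ ρ l P A) (hA : 1 ≤ A) (hL : 5 / 2 ≤ L) (hC : 1 ≤ C) (hH : 0 ≤ H)
    (hY : 1 ≤ Y) (hR : 1 ≤ R)
    (hq : ∀ i ∈ NP χ, l i ≤ H →
      (((χ i).conductor / Nat.gcd (χ i).conductor m : ℕ) : ℝ) ≤ R → (χ i).conductor ∣ q)
    (hz : ∀ i, cd (χ i) ≤ R → |(ρ i).im| ≤ 5 * Y → H < l i) :
    T2 C m χ ρ (yw L l) univ + T1 C χ ρ (yw L l) univ ≤
      ∑ i ∈ univ.filter (fun i => (χ i).conductor ∣ q ∧ l i ≤ H ∧ |(ρ i).im| ≤ 5 * Y),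
        ∑ j ∈ (univ.filter fun j => (χ j).conductor ∣ q ∧ l j ≤ H ∧ |(ρ j).im| ≤ 5 * Y).filter
          (fun j => cd (χ i * χ j) ≤ R), yw L l i * yw L l j +
      7 * C * A ^ 2 * (Real.exp (-(3 / 10 * H)) + Y ^ (-(1 / 8) : ℝ) + R ^ (-(1 / 3) : ℝ)) := by
  have hC0 : 0 ≤ C := by linarith
  have hY0 : 0 < Y := by linarith
  have hR0 : 0 < R := by linarith
  have b0 := h.split hL hC0 m
  have b2 := as4_T2 h hL hC0 hH hY0 hR0 hq
  have b1 := as4_T1 h hL hC0 hH hY0 hR0 hz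
  have b3 := mul_le_mul_of_nonneg_left (as4_Zk h hL hH hY0 hR hz)
    (by positivity : 0 ≤ C * (3 * A + 1))
  have u1 : Y ^ (-(1 / 2) : ℝ) ≤ Y ^ (-(1 / 8) : ℝ) :=
    Real.rpow_le_rpow_of_exponent_le hY (by norm_num)
  have u0 : 0 ≤ Y ^ (-(1 / 2) : ℝ) := by positivity
  have r0 : 0 ≤ R ^ (-(1 / 3) : ℝ) := by positivity
  have e0 := (Real.exp_pos (-(3 / 10 * H))).le
  generalize Y ^ (-(1 / 2) : ℝ) = v at *
  generalize Y ^ (-(1 / 8) : ℝ) = u at *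
  generalize R ^ (-(1 / 3) : ℝ) = r at *
  generalize Real.exp (-(3 / 10 * H)) = e at *
  have k1 : A ^ 2 ≤ C * A ^ 2 := le_mul_of_one_le_left (by positivity) hC
  have k2 : C * A ≤ C * A ^ 2 := mul_le_mul_of_nonneg_left (by nlinarith) hC0
  have k0 : 0 ≤ C * A := by positivity
  have d1 := mul_le_mul_of_nonneg_right k1 e0
  have d2 := mul_le_mul_of_nonneg_right k2 e0
  have d3 := mul_le_mul_of_nonneg_right k2 r0
  have d4 := mul_le_mul_of_nonneg_right k2 (u0.trans u1)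
  have d5 := mul_le_mul_of_nonneg_left u1 k0
  have d6 := mul_le_mul_of_nonneg_left u1 (k0.trans k2)
  have d7 := mul_nonneg (k0.trans k2) r0
  have d8 := mul_nonneg (k0.trans k2) (u0.trans u1)
  linarith

end

end Pool.Agent.Lib.MP_778b46_nt.GX
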