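import Pool.Agent.Lib.MP_778b46_nt.GX.ClDef

/- Mertens type estimates for the weights. -/

namespace Pool.Agent.Lib.MP_778b46_nt.GX

open Finset Filter ArithmeticFunction

theorem clc_Icc (n : ℕ) : Icc 1 n = Ioc 0 n := by
  ext m
  simp only [mem_Icc, mem_Ioc]
  omega

theorem clc_conv {w : ℕ → ℝ} (hw : ∀ s t, w (s * t) = w s * w t) (n : ℕ) :
    ∑ m ∈ Icc 1 n, w m * Real.log m =
      ∑ d ∈ Icc 1 n, w d * vonMangoldt d * ∑ l ∈ Icc 1 (n / d), w l := by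
  have h := sum_Ioc_mul_eq_sum_sum (R := ℝ) ⟨fun d => w d * vonMangoldt d, by simp⟩
    ⟨fun l => if l = 0 then 0 else w l, by simp⟩ n
  simp only [clc_Icc]
  refine (sum_congr rfl fun m hm => ?_).trans (h.trans (sum_congr rfl fun d _ => ?_))
  · rw [mul_apply, ← vonMangoldt_sum, mul_sum,
      ← Nat.sum_divisorsAntidiagonal fun d _ => w m * vonMangoldt d]
    refine sum_congr rfl fun x hx => ?_
    obtain ⟨h1, h2⟩ := Nat.mem_divisorsAntidiagonal.1 hx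
    have h3 : x.2 ≠ 0 := fun h0 => h2 (by rw [← h1, h0, mul_zero])
    simp only [coe_mk, if_neg h3]
    rw [← h1, hw]
    ring
  · simp only [coe_mk]
    congr 1
    exact sum_congr rfl fun l hl => if_neg (mem_Ioc.1 hl).1.ne'

theorem clc_psi (n : ℕ) : ∑ d ∈ Icc 1 n, vonMangoldt d ≤ (Real.log 4 + 4) * n := by
  have h := Chebyshev.psi_le_const_mul_self (x := n) (Nat.cast_nonneg n)
  rwa [Chebyshev.psi, Nat.floor_natCast, ← clc_Icc] at h

theorem clc_log_succ {n : ℕ} (hn : 1 ≤ n) :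
    Real.log ((n + 1 : ℕ) : ℝ) - Real.log n ≤ 1 / n := by
  have hn0 : (0 : ℝ) < n := by exact_mod_cast hn
  have h1 : (0 : ℝ) < ((n + 1 : ℕ) : ℝ) := by positivity
  rw [← Real.log_div h1.ne' hn0.ne']
  refine (Real.log_le_sub_one_of_pos (div_pos h1 hn0)).trans (le_of_eq ?_)
  push_cast
  field_simp
  ring

theorem clc_sum_log {n : ℕ} (hn : 1 ≤ n) :
    n * Real.log n - n ≤ ∑ m ∈ Icc 1 n, Real.log m ∧
      ∑ m ∈ Icc 1 n, Real.log m ≤ n * Real.log n := by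
  constructor
  · induction n, hn using Nat.le_induction with
    | base => simp
    | succ n hn ih =>
      have hn0 : (0 : ℝ) < n := by exact_mod_cast hn
      have h1 := clc_log_succ hn
      rw [le_div_iff₀ hn0] at h1
      rw [sum_Icc_succ_top (by omega)]
      generalize Real.log ((n + 1 : ℕ) : ℝ) = α at h1
      push_cast
      nlinarith
  · refine (sum_le_card_nsmul _ _ (Real.log n) fun m hm => ?_).trans (by simp)
    obtain ⟨h1, h2⟩ := mem_Icc.1 hm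
    exact Real.log_le_log (by exact_mod_cast h1) (by exact_mod_cast h2)

theorem clc_div {n d : ℕ} (hd : 1 ≤ d) :
    ((n / d : ℕ) : ℝ) ≤ n / d ∧ (n : ℝ) / d ≤ ((n / d : ℕ) : ℝ) + 1 := by
  refine ⟨Nat.cast_div_le, ?_⟩
  have hd0 : (0 : ℝ) < d := by exact_mod_cast hd
  rw [div_le_iff₀ hd0]
  have h5 : (n : ℝ) < ((n / d : ℕ) : ℝ) * d + d := by exact_mod_cast Nat.lt_div_mul_add (a := n) hd
  linarith

/-- The first theorem of Mertens. -/
theorem clc_mertens : ∃ C : ℝ, ∀ n : ℕ, 1 ≤ n →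
    |∑ d ∈ Icc 1 n, vonMangoldt d / d - Real.log n| ≤ C := by
  refine ⟨Real.log 4 + 4, fun n hn => ?_⟩
  have hn0 : (0 : ℝ) < n := by exact_mod_cast hn
  have h1 := clc_conv (w := fun _ => 1) (fun _ _ => (mul_one _).symm) n
  simp only [one_mul, sum_const, Nat.card_Icc, add_tsub_cancel_right, nsmul_eq_mul, mul_one] at h1
  obtain ⟨h2, h3⟩ := clc_sum_log hn
  have h4 : ∑ d ∈ Icc 1 n, vonMangoldt d * ((n / d : ℕ) : ℝ) ≤
      n * ∑ d ∈ Icc 1 n, vonMangoldt d / d := by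
    rw [mul_sum]
    refine sum_le_sum fun d hd => ?_
    have h5 := mul_le_mul_of_nonneg_left (clc_div (n := n) (mem_Icc.1 hd).1).1
      (vonMangoldt_nonneg (n := d))
    exact h5.trans (le_of_eq (by ring))
  have h5 : n * ∑ d ∈ Icc 1 n, vonMangoldt d / d ≤
      ∑ d ∈ Icc 1 n, vonMangoldt d * ((n / d : ℕ) : ℝ) + ∑ d ∈ Icc 1 n, vonMangoldt d := by
    rw [mul_sum, ← sum_add_distrib]
    refine sum_le_sum fun d hd => ?_
    have h5 := mul_le_mul_of_nonneg_left (clc_div (n := n) (mem_Icc.1 hd).1).2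
      (vonMangoldt_nonneg (n := d))
    exact (le_of_eq (by ring)).trans (h5.trans (le_of_eq (by ring)))
  have h6 := clc_psi n
  have h7 : 0 ≤ Real.log 4 := Real.log_nonneg (by norm_num)
  rw [abs_le]
  constructor
  · refine le_of_mul_le_mul_left ?_ hn0
    nlinarith
  · refine le_of_mul_le_mul_left ?_ hn0
    nlinarith

/-- The proper prime powers contribute a bounded amount. -/
theorem clc_nonprime : ∃ C : ℝ, ∀ n : ℕ,
    ∑ d ∈ (Icc 1 n).filter (fun d => ¬d.Prime), vonMangoldt d / d ≤ C := by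
  have h := vonMangoldt.summable_residueClass_non_primes_div (q := 1) 0
  have e : ∀ n : ℕ, vonMangoldt.residueClass (q := 1) 0 n = vonMangoldt n := fun n =>
    Set.indicator_of_mem (s := {n : ℕ | (n : ZMod 1) = 0}) (Subsingleton.elim (n : ZMod 1) 0) _
  simp only [e] at h
  refine ⟨_, fun n => le_trans (le_of_eq ?_) (h.sum_le_tsum (Icc 1 n) fun d _ => ?_)⟩
  · rw [sum_filter]
    refine sum_congr rfl fun d _ => ?_
    by_cases hd : d.Prime <;> simp [hd]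
  · have := vonMangoldt_nonneg (n := d)
    positivity

theorem clc_large (A : ℝ) : ∃ P0 : ℝ, 3 ≤ P0 ∧ ∀ P : ℝ, P0 ≤ P → A ≤ Real.log P :=
  ⟨max 3 (Real.exp A), le_max_left _ _, fun P hP =>
    (Real.le_log_iff_exp_le (by linarith [le_max_left 3 (Real.exp A)])).2
      ((le_max_right _ _).trans hP)⟩

theorem clc_logpos {P : ℝ} (hP : 3 ≤ P) : 0 < Real.log P := Real.log_pos (by linarith)

theorem clc_divisors (q : ℕ) {K : ℕ} (hK : 1 ≤ K) :
    ∑ n ∈ q.divisors, vonMangoldt n / n ≤ K + Real.log q / K := by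
  have hK0 : (0 : ℝ) < K := by exact_mod_cast hK
  have h1 : ∑ n ∈ q.divisors, (if n ≤ K then (1 : ℝ) else 0) ≤ K := by
    rw [sum_boole]
    have h2 : q.divisors.filter (fun n => n ≤ K) ⊆ Icc 1 K := fun n hn =>
      mem_Icc.2 ⟨Nat.pos_of_mem_divisors (mem_filter.1 hn).1, (mem_filter.1 hn).2⟩
    have h3 := card_le_card h2
    rw [Nat.card_Icc, add_tsub_cancel_right] at h3
    exact_mod_cast h3
  rw [← vonMangoldt_sum, sum_div]
  refine le_trans ?_ (add_le_add h1 le_rfl)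
  rw [← sum_add_distrib]
  refine sum_le_sum fun n hn => ?_
  have hn0 : (0 : ℝ) < n := by exact_mod_cast Nat.pos_of_mem_divisors hn
  have h0 := vonMangoldt_nonneg (n := n)
  split_ifs with h
  · have h4 : vonMangoldt n / n ≤ 1 := by
      rw [div_le_one hn0]
      linarith [vonMangoldt_le_log (n := n), Real.log_le_sub_one_of_pos hn0]
    linarith [div_nonneg h0 hK0.le]
  · rw [zero_add]
    exact div_le_div_of_nonneg_left h0 hK0 (by exact_mod_cast (not_le.1 h).le)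

theorem clc_sum_mw (P : ℝ) (s : Finset ℕ) :
    ∑ n ∈ s, mw P n = (∑ n ∈ s, vonMangoldt n / n) / Real.log P := by
  rw [sum_div]
  exact sum_congr rfl fun n _ => by rw [mw, div_div]

theorem clc_floor {x : ℝ} (hx : 1 ≤ x) : 1 ≤ ⌊x⌋₊ ∧ |Real.log ⌊x⌋₊ - Real.log x| ≤ 1 := by
  have h1 : 1 ≤ ⌊x⌋₊ := Nat.le_floor (by simpa using hx)
  have h2 : (1 : ℝ) ≤ ⌊x⌋₊ := by exact_mod_cast h1
  have h3 := Real.log_le_log (by linarith) (Nat.floor_le (by linarith : 0 ≤ x))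
  have h4 : Real.log x ≤ Real.log (2 * ⌊x⌋₊) :=
    Real.log_le_log (by linarith) (by linarith [Nat.lt_floor_add_one x])
  rw [Real.log_mul two_ne_zero (by linarith)] at h4
  have h5 := Real.log_le_sub_one_of_pos (two_pos (α := ℝ))
  exact ⟨h1, abs_le.2 ⟨by linarith, by linarith⟩⟩

/-- Non primes: `clc_nonprime`.  A prime `p` not coprime to `q` divides `q`; `p ≤ K`: at most `K` terms, each
`≤ 1`; `p > K`: `log p / p ≤ log p / K` and `∑ p ∣ q, log p ≤ log q ≤ log P`. -/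
theorem bad_primes {ε : ℝ} (hε : 0 < ε) : ∃ P0 : ℝ, 3 ≤ P0 ∧ ∀ P : ℝ, P0 ≤ P → ∀ q : ℕ, 1 ≤ q →
    (q : ℝ) ≤ P → ∀ N : ℕ, ∑ n ∈ (Ioc 0 N).filter (fun n => ¬n.Coprime q), mw P n ≤ ε := by
  obtain ⟨C, hC⟩ := clc_nonprime
  obtain ⟨K, hK⟩ := exists_nat_ge (2 / ε + 1)
  have hε2 : 0 < 2 / ε := by positivity
  have hK0 : (0 : ℝ) < K := by linarith
  have hK1 : 1 ≤ K := by exact_mod_cast (show (1 : ℝ) ≤ K by linarith)
  obtain ⟨P0, h3, hP0⟩ := clc_large ((C + K) * (2 / ε))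
  refine ⟨P0, h3, fun P hP q hq hqP N => ?_⟩
  have hL := clc_logpos (h3.trans hP)
  have h0 : ∀ n : ℕ, 0 ≤ vonMangoldt n / n := fun n =>
    div_nonneg vonMangoldt_nonneg (Nat.cast_nonneg n)
  rw [clc_sum_mw, div_le_iff₀ hL, ← sum_filter_add_sum_filter_not _ Nat.Prime]
  have h1 : ∑ n ∈ ((Ioc 0 N).filter (fun n => ¬n.Coprime q)).filter Nat.Prime,
      vonMangoldt n / n ≤ K + Real.log q / K := by
    refine le_trans (sum_le_sum_of_subset_of_nonneg (fun n hn => ?_) fun n _ _ => h0 n)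
      (clc_divisors q hK1)
    obtain ⟨h4, h5⟩ := mem_filter.1 hn
    exact Nat.mem_divisors.2 ⟨h5.dvd_iff_not_coprime.2 (mem_filter.1 h4).2, by omega⟩
  have h2 : ∑ n ∈ ((Ioc 0 N).filter (fun n => ¬n.Coprime q)).filter (fun n => ¬n.Prime),
      vonMangoldt n / n ≤ C := by
    refine le_trans (sum_le_sum_of_subset_of_nonneg (fun n hn => ?_) fun n _ _ => h0 n) (hC N)
    obtain ⟨h4, h5⟩ := mem_filter.1 hn
    exact mem_filter.2 ⟨clc_Icc N ▸ (mem_filter.1 h4).1, h5⟩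
  have h4 : Real.log q / K ≤ ε / 2 * Real.log P := by
    have h5 : Real.log q ≤ Real.log P := Real.log_le_log (by exact_mod_cast hq) hqP
    have h6 : 1 ≤ ε / 2 * K := by
      have := mul_le_mul_of_nonneg_left hK (half_pos hε).le
      have e : ε / 2 * (2 / ε + 1) = 1 + ε / 2 := by field_simp
      linarith
    rw [div_le_iff₀ hK0]
    nlinarith
  have h5 : C + K ≤ ε / 2 * Real.log P := by
    have := mul_le_mul_of_nonneg_left (hP0 P hP) (half_pos hε).le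
    have e : ε / 2 * ((C + K) * (2 / ε)) = C + K := by field_simp
    linarith
  linarith

theorem tt_nonneg {P : ℝ} (hP : 3 ≤ P) (n : ℕ) : 0 ≤ tt P n := by
  exact div_nonneg (Real.log_natCast_nonneg n) (clc_logpos hP).le

theorem tt_pos {P : ℝ} (hP : 3 ≤ P) {q n : ℕ} (hn : n ∈ Om P q) : 0 < tt P n := by
  exact div_pos (Real.log_pos (by exact_mod_cast (mem_Ioc.1 (mem_filter.1 hn).1).1))
    (clc_logpos hP)

theorem mw_nonneg {P : ℝ} (hP : 3 ≤ P) (n : ℕ) : 0 ≤ mw P n := by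
  exact div_nonneg vonMangoldt_nonneg (mul_nonneg (Nat.cast_nonneg n) (clc_logpos hP).le)

/-- For `n ≥ 1`: `tt P n ≤ v ↔ n ≤ P ^ v ↔ n ≤ ⌊P ^ v⌋₊`. -/
theorem tt_le_iff {P : ℝ} (hP : 3 ≤ P) {n : ℕ} (hn : 1 ≤ n) (v : ℝ) :
    tt P n ≤ v ↔ n ≤ ⌊P ^ v⌋₊ := by
  have hP0 : 0 < P := by linarith
  rw [tt, div_le_iff₀ (clc_logpos hP), Nat.le_floor_iff (Real.rpow_nonneg hP0.le v),
    Real.le_rpow_iff_log_le (by exact_mod_cast hn) hP0]

open Classical in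
theorem om_filter {P : ℝ} (hP : 3 ≤ P) (q : ℕ) {u v : ℝ} (hu : 0 ≤ u) (hv : v ≤ 8) :
    (Om P q).filter (fun n => u < tt P n ∧ tt P n ≤ v) =
      (Ioc ⌊P ^ u⌋₊ ⌊P ^ v⌋₊).filter fun n => n.Coprime q := by
  have h1 : (1 : ℝ) ≤ P := by linarith
  have h2 := (clc_floor (Real.one_le_rpow h1 hu)).1
  have h3 : ⌊P ^ v⌋₊ ≤ ⌊P ^ (8 : ℝ)⌋₊ := Nat.floor_le_floor (Real.rpow_le_rpow_of_exponent_le h1 hv)
  ext n
  simp only [Om, mem_filter, mem_Ioc]
  constructor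
  · rintro ⟨⟨⟨h4, -⟩, h5⟩, h6, h7⟩
    exact ⟨⟨not_le.1 fun h => not_le.2 h6 ((tt_le_iff hP h4.le u).2 h),
      (tt_le_iff hP h4.le v).1 h7⟩, h5⟩
  · rintro ⟨⟨h4, h5⟩, h6⟩
    have h7 : 1 ≤ n := by omega
    exact ⟨⟨⟨by omega, h5.trans h3⟩, h6⟩, not_le.1 fun h => not_le.2 h4 ((tt_le_iff hP h7 u).1 h),
      (tt_le_iff hP h7 v).2 h5⟩

open Classical in
/-- `om_filter`, `clc_mertens` at both ends (`log ⌊x⌋₊ = log x + O(1)` for `x ≥ 1`), `bad_primes`. -/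
theorem mert_om {ε : ℝ} (hε : 0 < ε) : ∃ P0 : ℝ, 3 ≤ P0 ∧ ∀ P : ℝ, P0 ≤ P → ∀ q : ℕ, 1 ≤ q →
    (q : ℝ) ≤ P → ∀ u v : ℝ, 0 ≤ u → u ≤ v → v ≤ 8 →
      |∑ n ∈ (Om P q).filter (fun n => u < tt P n ∧ tt P n ≤ v), mw P n - (v - u)| ≤ ε := by
  obtain ⟨C, hC⟩ := clc_mertens
  obtain ⟨P1, h31, hP1⟩ := bad_primes (half_pos hε)
  obtain ⟨P2, -, hP2⟩ := clc_large ((2 * C + 2) * (2 / ε))
  refine ⟨max P1 P2, h31.trans (le_max_left _ _), fun P hP q hq hqP u v hu huv hv => ?_⟩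
  have hP3 : 3 ≤ P := h31.trans ((le_max_left _ _).trans hP)
  have h1 : (1 : ℝ) ≤ P := by linarith
  have hL := clc_logpos hP3
  obtain ⟨ha1, ha2⟩ := clc_floor (Real.one_le_rpow h1 hu)
  obtain ⟨hb1, hb2⟩ := clc_floor (Real.one_le_rpow h1 (hu.trans huv))
  rw [Real.log_rpow (by linarith)] at ha2 hb2
  have hab : ⌊P ^ u⌋₊ ≤ ⌊P ^ v⌋₊ := Nat.floor_le_floor (Real.rpow_le_rpow_of_exponent_le h1 huv)
  rw [om_filter hP3 q hu hv]
  generalize ⌊P ^ u⌋₊ = a at *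
  generalize ⌊P ^ v⌋₊ = b at *
  have h2 := sum_filter_add_sum_filter_not (Ioc a b) (fun n => n.Coprime q) (mw P)
  have h3 : ∑ n ∈ (Ioc a b).filter (fun n => ¬n.Coprime q), mw P n ≤ ε / 2 :=
    le_trans (sum_le_sum_of_subset_of_nonneg
      (filter_subset_filter _ (Ioc_subset_Ioc_left (Nat.zero_le a))) fun n _ _ => mw_nonneg hP3 n)
      (hP1 P ((le_max_left _ _).trans hP) q hq hqP b)
  have h4 : 0 ≤ ∑ n ∈ (Ioc a b).filter (fun n => ¬n.Coprime q), mw P n :=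
    sum_nonneg fun n _ => mw_nonneg hP3 n
  have h5 := sum_Ioc_consecutive (fun n : ℕ => vonMangoldt n / (n : ℝ)) (Nat.zero_le a) hab
  have h6 := hC a ha1
  have h7 := hC b hb1
  rw [clc_Icc] at h6 h7
  have h8 : 2 * C + 2 ≤ ε / 2 * Real.log P := by
    have := mul_le_mul_of_nonneg_left (hP2 P ((le_max_right _ _).trans hP)) (half_pos hε).le
    have e : ε / 2 * ((2 * C + 2) * (2 / ε)) = 2 * C + 2 := by field_simp
    linarith
  have h9 : |∑ n ∈ Ioc a b, mw P n - (v - u)| ≤ ε / 2 := by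
    rw [clc_sum_mw, div_sub' hL.ne', abs_div, abs_of_pos hL, div_le_iff₀ hL]
    rw [abs_le] at ha2 hb2 h6 h7 ⊢
    constructor <;> linarith
  rw [abs_le] at h9 ⊢
  constructor <;> linarith

end Pool.Agent.Lib.MP_778b46_nt.GX
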