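import Pool.Agent.Lib.MP_778b46_nt.GX.ClB
import Pool.Agent.Lib.MP_778b46_nt.GX.ClC
import Pool.Agent.Lib.MP_778b46_nt.GX.Z4z

/- The explicit inequality of the model. -/

namespace Pool.Agent.Lib.MP_778b46_nt.GX

open Complex Finset Filter ArithmeticFunction
open Pool.Agent.Lib.MP_e97e2b_nt.Ln hiding Dat Clean

open Classical in
/-- Compare counts: `A = (filter (χ k = ξ ∧ p (ρ k))).val.map ρ ≤ Z`, and `Z = A + (Z - A)` where every member
of `Z - A` is outside the region `S ξ`. -/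
theorem clf_split {Q : ℕ} [NeZero Q] {ι : Type} [Fintype ι] {S : DC Q → ℂ → Prop} {χ : ι → DC Q}
    {ρ : ι → ℂ} (hF : Full S χ ρ) (ξ : DC Q) (p : ℂ → Prop) (Z : Multiset ℂ)
    (hZ : ∀ z, Z.count z = if p z then ord ξ z else 0) (F : ℂ → ℝ)
    (h0 : ∀ z, p z → ord ξ z ≠ 0 → ¬S ξ z → 0 ≤ F z) :
    ∑ k ∈ univ.filter (fun k => χ k = ξ ∧ p (ρ k)), F (ρ k) ≤ (Z.map F).sum := by
  obtain ⟨A, hA⟩ : ∃ A : Multiset ℂ,
      A = (univ.filter fun k => χ k = ξ ∧ p (ρ k)).val.map ρ := ⟨_, rfl⟩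
  have hc : ∀ z, A.count z = if p z then cnt χ ρ ξ z else 0 := by
    intro z
    rw [hA, Multiset.count_map, ← Finset.filter_val, Finset.filter_filter]
    change Finset.card _ = _
    split_ifs with hz
    · unfold cnt
      congr 1
      ext k
      simp only [Finset.mem_filter, Finset.mem_univ, true_and]
      exact ⟨fun h => ⟨h.1.1, h.2.symm⟩, fun h => ⟨⟨h.1, h.2 ▸ hz⟩, h.2.symm⟩⟩
    · rw [Finset.card_eq_zero, Finset.filter_eq_empty_iff]
      rintro k - ⟨h1, h2⟩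
      exact hz (h2 ▸ h1.2)
  have hle : A ≤ Z := Multiset.le_iff_count.2 fun z => by
    rw [hc, hZ]
    split_ifs
    · exact hF.sub ξ z
    · exact le_rfl
  have e : ∑ k ∈ univ.filter (fun k => χ k = ξ ∧ p (ρ k)), F (ρ k) = (A.map F).sum := by
    rw [hA, Multiset.map_map]
    rfl
  rw [e, ← add_tsub_cancel_of_le hle, Multiset.map_add, Multiset.sum_add]
  refine le_add_of_nonneg_right (Multiset.sum_nonneg fun x hx => ?_)
  obtain ⟨z, hz, rfl⟩ := Multiset.mem_map.1 hx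
  have h1 := Multiset.count_pos.2 hz
  rw [Multiset.count_sub, hc, hZ] at h1
  by_cases hp : p z
  · rw [if_pos hp, if_pos hp] at h1
    refine h0 z hp (by omega) fun hS => ?_
    rw [hF.2 ξ z hS] at h1
    omega
  · rw [if_neg hp, if_neg hp] at h1
    omega

/-- From all integers to the integers coprime to `q`. -/
theorem clf_om {P ε C : ℝ} (hP : 3 ≤ P) {q : ℕ} (hC : 0 ≤ C)
    (hb : ∑ n ∈ (Ioc 0 ⌊P ^ (8 : ℝ)⌋₊).filter (fun n => ¬n.Coprime q), mw P n ≤ ε)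
    (f : ℕ → ℝ) (hf : ∀ n, |f n| ≤ C) :
    ∑ n ∈ Om P q, mw P n * f n ≤ ∑ n ∈ Ioc 0 ⌊P ^ (8 : ℝ)⌋₊, mw P n * f n + ε * C := by
  have e1 : ∑ n ∈ Om P q, mw P n * f n =
      ∑ n ∈ (Ioc 0 ⌊P ^ (8 : ℝ)⌋₊).filter (fun n => n.Coprime q), mw P n * f n := by
    refine Finset.sum_subset
      (Finset.filter_subset_filter _ (Finset.Ioc_subset_Ioc_left zero_le_one)) fun n hn hn' => ?_
    simp only [Om, Finset.mem_filter, Finset.mem_Ioc] at hn hn'
    have h1 : n = 1 := by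
      by_contra h
      exact hn' ⟨⟨by omega, hn.1.2⟩, hn.2⟩
    rw [h1]
    simp [mw]
  have e2 : -(ε * C) ≤
      ∑ n ∈ (Ioc 0 ⌊P ^ (8 : ℝ)⌋₊).filter (fun n => ¬n.Coprime q), mw P n * f n := by
    refine le_trans (neg_le_neg (mul_le_mul_of_nonneg_right hb hC)) ?_
    rw [Finset.sum_mul, ← Finset.sum_neg_distrib]
    refine Finset.sum_le_sum fun n _ => ?_
    have := mul_le_mul_of_nonneg_left (abs_le.1 (hf n)).1 (mw_nonneg hP n)
    linarith
  rw [e1, ← Finset.sum_filter_add_sum_filter_not (Ioc 0 ⌊P ^ (8 : ℝ)⌋₊) (fun n => n.Coprime q)]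
  linarith

theorem clf_re (P y : ℝ) (z : ℂ) :
    ((Real.log P : ℂ) * (z - 1) - (y : ℝ) * I).re = -lam P z := by
  unfold lam
  generalize Real.log P = L
  simp
  ring

theorem clf_arg (P y : ℝ) (z : ℂ) : -(lam P z : ℂ) + (z.im * Real.log P - y : ℝ) * I =
    (Real.log P : ℂ) * (z - 1) - (y : ℝ) * I := by
  unfold lam
  generalize Real.log P = L
  apply Complex.ext
  · simp
    ring
  · simp
    ring

/-- A zero outside the disc contributes little. -/
theorem clf_far {T B H P δ y : ℝ} {g : ℝ → ℝ} (h : Tst T B g) (hT : 0 ≤ T) (hT8 : T ≤ 8)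
    (hB : 0 ≤ B) (hL : 0 < Real.log P) (hδ : 2 ≤ δ * Real.log P) {z : ℂ} (h0 : 0 ≤ lam P z)
    (h1 : lam P z ≤ H) (hz : δ < ‖z - cc P (y / Real.log P)‖) :
    (Lap g T ((Real.log P : ℂ) * (z - 1) - (y : ℝ) * I)).re ≤
      (18 + 40 * H) * B / (δ * Real.log P / 2) ^ 2 := by
  have hre := clf_re P y z
  have hLc : (Real.log P : ℂ) ≠ 0 := by exact_mod_cast hL.ne'
  have e : (Real.log P : ℂ) * (z - cc P (y / Real.log P)) =
      (Real.log P : ℂ) * (z - 1) - (y : ℝ) * I - 1 := by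
    unfold cc
    generalize Real.log P = L at hLc
    push_cast
    field_simp
    ring
  generalize (Real.log P : ℂ) * (z - 1) - (y : ℝ) * I = w at hre e ⊢
  have h2 := norm_sub_le w 1
  rw [← e, norm_mul, Complex.norm_real, Real.norm_of_nonneg hL.le, norm_one] at h2
  have h3 : δ * Real.log P / 2 ≤ ‖w‖ := by nlinarith
  have h4 : 0 < δ * Real.log P / 2 := by linarith
  have h5 := Lap_norm h hT hT8 (z := w) (by linarith) (norm_pos_iff.1 (h4.trans_le h3))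
  rw [← add_div, hre, neg_neg] at h5
  refine h5.trans (div_le_div₀ (by nlinarith) (by nlinarith) (by positivity) ?_)
  exact pow_le_pow_left₀ h4.le h3 2

open Classical in
/-- `L = log P`, `γ = y / L`, `e = min (φ - ph0) 1`; `ef_tst` with `ph = ph0 + e` if `R < cd ξ` and with a small
`ph` if `cd ξ ≤ R` (`cd ξ ^ (ph0 + e) ≤ R ^ 2 ≤ P ^ ph` for large `P`); take real parts; `0 ≤ g 0 ≤ 40 B`
(`tst_zero`).  From `Ioc 0 ⌊P ^ 8⌋₊` to `Om P q`: `mw P 1 = 0`, `bad_primes`, `cut_le`.  Zeros in the disc: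
`clf_split`; a zero in the disc has height `≤ 4 Y + δ ≤ 5 Y`, so outside the region it has `lam > H` and the
transform has nonnegative real part.  Entries of the list outside the disc: `‖z‖ ≥ δ L - 1 ≥ δ L / 2` for
`z = L (ρ - 1) - y I = L (ρ - cc P γ) + 1`, `Lap_norm` gives `≤ (18 + 40 H) B / (δ L / 2) ^ 2` for each, and
there are at most `C(Y) L` entries with `χ k = ξ` (`Sub.box` in Z4z). -/
theorem ef_om {ph0 φ ε H Y R : ℝ} (h0 : 0 < ph0) (h1 : ph0 ≤ 1 / 2) (hTB : TB ph0) (hφ : ph0 < φ)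
    (hε : 0 < ε) (hH : 0 ≤ H) (hY : 1 ≤ Y) (hR : 1 ≤ R) :
    ∃ P0 : ℝ, 3 ≤ P0 ∧ ∀ P : ℝ, P0 ≤ P →
      ∀ (Q : ℕ) [NeZero Q] (q : ℕ) (ι : Type) [Fintype ι] (χ : ι → DC Q) (ρ : ι → ℂ),
        1 ≤ q → (q : ℝ) ≤ P →
        Full (fun ξ z => ξ.conductor ∣ q ∧ lam P z ≤ H ∧ |z.im| ≤ 5 * Y) χ ρ →
        ∀ (ξ : DC Q) (y T B : ℝ) (g : ℝ → ℝ), ξ.conductor ∣ q → |y| ≤ 4 * (Y * Real.log P) →
          0 ≤ T → T ≤ 8 → Tst T B g → 0 ≤ g 0 → (∀ z : ℂ, z.re ≤ -H → 0 ≤ (Lap g T z).re) →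
          ∑ n ∈ Om P q, mw P n * cut g T (tt P n) *
              (exp (-((y * tt P n : ℝ) : ℂ) * I) * pr ξ n).re ≤
            (if ξ = 1 then (Lap g T (-((y : ℂ) * I))).re else 0) -
              ∑ k ∈ univ.filter (fun k => χ k = ξ),
                (Lap g T (-(lam P (ρ k) : ℂ) + ((ρ k).im * Real.log P - y : ℝ) * I)).re +
              (if cd ξ ≤ R then 0 else φ / 2) * g 0 + ε * B := by
  obtain ⟨ε1, hε1, hε2, hε3⟩ : ∃ ε1 : ℝ, 0 < ε1 ∧ ε1 ≤ 1 ∧ 102 * ε1 ≤ ε :=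
    ⟨min 1 (ε / 102), by positivity, min_le_left _ _, by
      have := min_le_right 1 (ε / 102)
      linarith⟩
  obtain ⟨e, he, he1, he2⟩ : ∃ e : ℝ, 0 < e ∧ e ≤ 1 ∧ ph0 + e ≤ φ :=
    ⟨min 1 (φ - ph0), lt_min one_pos (by linarith), min_le_left _ _, by
      have := min_le_right 1 (φ - ph0)
      linarith⟩
  obtain ⟨δ, η, P1, hδ, hδ1, hη, hP1, hef⟩ := ef_tst hTB he hε1
  obtain ⟨P2, -, hbad⟩ := bad_primes hε1
  obtain ⟨G, hG⟩ : ∃ G : ℕ, 5 * Y ≤ G := ⟨_, Nat.le_ceil _⟩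
  have hlog : 0 ≤ Real.log (24 * ((G : ℝ) + 5) ^ 2) :=
    Real.log_nonneg (by nlinarith [Nat.cast_nonneg (α := ℝ) G])
  obtain ⟨L0, a1, a2, a3, a4, a5, a6⟩ : ∃ L0 : ℝ, 4 * Y / η ≤ L0 ∧ R ^ 2 / ε1 ≤ L0 ∧ 2 / δ ≤ L0 ∧
      3 * H ≤ L0 ∧ Real.log (24 * ((G : ℝ) + 5) ^ 2) ≤ L0 ∧
      56 * (2 * G + 1) * (18 + 40 * H) / (δ ^ 2 * ε1) ≤ L0 := by
    have b1 : 0 ≤ 4 * Y / η := by positivity
    have b2 : 0 ≤ R ^ 2 / ε1 := by positivity
    have b3 : 0 ≤ 2 / δ := by positivity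
    have b6 : 0 ≤ 56 * (2 * (G : ℝ) + 1) * (18 + 40 * H) / (δ ^ 2 * ε1) := by positivity
    refine ⟨4 * Y / η + R ^ 2 / ε1 + 2 / δ + 3 * H + Real.log (24 * ((G : ℝ) + 5) ^ 2) +
      56 * (2 * G + 1) * (18 + 40 * H) / (δ ^ 2 * ε1), ?_, ?_, ?_, ?_, ?_, ?_⟩ <;> linarith
  refine ⟨max P1 (max P2 (Real.exp L0)), hP1.trans (le_max_left _ _), ?_⟩
  intro P hP Q _ q ι _ χ ρ hq hqP hF ξ y T B g hξ hy hT hT8 hg hg0 hpos
  obtain ⟨hPa, hPb, hPc⟩ : P1 ≤ P ∧ P2 ≤ P ∧ Real.exp L0 ≤ P := by simpa using hP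
  have hP3 : 3 ≤ P := hP1.trans hPa
  have hP0 : 0 < P := by linarith
  have hL : 0 < Real.log P := Real.log_pos (by linarith)
  have hL0 : L0 ≤ Real.log P := (Real.le_log_iff_exp_le hP0).2 hPc
  have hpow : ∀ a : ℝ, a * Real.log P ≤ P ^ a := fun a => by
    rw [Real.rpow_def_of_pos hP0, mul_comm a]
    linarith [Real.add_one_le_exp (Real.log P * a)]
  have hg40 := (abs_le.1 (tst_zero hg hT hT8)).2
  have hB : 0 ≤ B := by linarith
  have hcd : cd ξ ≤ P := le_trans (by unfold cd; exact_mod_cast Nat.le_of_dvd hq hξ) hqP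
  have hγ : |y / Real.log P| ≤ 4 * Y := by
    rw [abs_div, abs_of_pos hL, div_le_iff₀ hL]
    linarith
  have hδL : 2 ≤ δ * Real.log P := by
    have := (div_le_iff₀ hδ).1 (a3.trans hL0)
    linarith
  obtain ⟨ph, p1, p2, p3, p4⟩ : ∃ ph : ℝ, 0 ≤ ph ∧ ph ≤ 2 ∧ cd ξ ^ (ph0 + e) ≤ P ^ ph ∧
      ph / 2 ≤ (if cd ξ ≤ R then 0 else φ / 2) + ε1 / 2 := by
    by_cases hc : cd ξ ≤ R
    · refine ⟨ε1, hε1.le, by linarith, ?_, by rw [if_pos hc]; linarith⟩
      have b1 : cd ξ ^ (ph0 + e) ≤ R ^ (ph0 + e) :=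
        Real.rpow_le_rpow (cd_pos ξ).le hc (by linarith)
      have b2 : R ^ (ph0 + e) ≤ R ^ ((2 : ℕ) : ℝ) :=
        Real.rpow_le_rpow_of_exponent_le hR (by push_cast; linarith)
      rw [Real.rpow_natCast] at b2
      have b3 := (div_le_iff₀ hε1).1 (a2.trans hL0)
      have b4 := hpow ε1
      linarith
    · exact ⟨ph0 + e, by linarith, by linarith,
        Real.rpow_le_rpow (cd_pos ξ).le hcd (by linarith), by rw [if_neg hc]; linarith⟩
  obtain ⟨Z, h, hZ, hh, hmain⟩ := hef P hPa Q ξ ph (y / Real.log P) p1 p2 p3 (by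
    have b1 := (div_le_iff₀ hη).1 (a1.trans hL0)
    have b2 := hpow η
    linarith)
  have hm := (Complex.re_le_norm _).trans (hmain T B g hT hT8 hg)
  rw [div_mul_cancel₀ y hL.ne'] at hm
  have hms : ∀ (M : Multiset ℂ) (f : ℂ → ℂ), (M.map f).sum.re = (M.map fun z => (f z).re).sum :=
    fun M f => by
      induction M using Multiset.induction_on with
      | empty => simp
      | cons a M ih => simp [ih]
  rw [Complex.sub_re, Complex.add_re, Complex.sub_re, Complex.re_sum, hms, Complex.re_ofReal_mul,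
    apply_ite Complex.re, Complex.zero_re] at hm
  simp only [Complex.re_ofReal_mul, mul_assoc (mw P _)] at hm ⊢
  have s1 := clf_om hP3 (C := 40 * B) (by positivity) (hbad P hPb q hq hqP _)
    (fun n => cut g T (tt P n) * (exp (-((y * tt P n : ℝ) : ℂ) * I) * pr ξ n).re) fun n => by
      rw [abs_mul, ← mul_one (40 * B)]
      refine mul_le_mul (cut_le hg hT hT8 (tt_nonneg hP3 n)) ((Complex.abs_re_le_norm _).trans ?_)
        (abs_nonneg _) (by positivity)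
      rw [norm_mul, ← Complex.ofReal_neg, Complex.norm_exp_ofReal_mul_I, one_mul]
      exact norm_pr_le ξ n
  have s2 := clf_split hF ξ (fun z => ‖z - cc P (y / Real.log P)‖ ≤ δ) Z
    (fun z => by rw [hZ])
    (fun z => (Lap g T ((Real.log P : ℂ) * (z - 1) - (y : ℝ) * I)).re) fun z hz _ hS => by
      refine hpos _ ?_
      rw [clf_re, neg_le_neg_iff]
      by_contra hcon
      refine hS ⟨hξ, (not_le.1 hcon).le, ?_⟩
      have b1 := (Complex.abs_im_le_norm _).trans hz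
      have b2 : (z - cc P (y / Real.log P)).im = z.im - y / Real.log P := by
        unfold cc
        generalize y / Real.log P = γ
        generalize 1 + 1 / Real.log P = c
        simp
      rw [b2] at b1
      have b3 := abs_add_le (z.im - y / Real.log P) (y / Real.log P)
      rw [sub_add_cancel] at b3
      linarith
  have s3 : ∑ k ∈ univ.filter (fun k => χ k = ξ ∧ ¬‖ρ k - cc P (y / Real.log P)‖ ≤ δ),
      (Lap g T ((Real.log P : ℂ) * (ρ k - 1) - (y : ℝ) * I)).re ≤ ε1 * B := by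
    refine (Finset.sum_le_card_nsmul _ _ ((18 + 40 * H) * B / (δ * Real.log P / 2) ^ 2)
      fun k hk => clf_far hg hT hT8 hB hL hδL (hF.sub.lam_nonneg (by linarith) k) (hF.1 k).2.1
        (not_le.1 (Finset.mem_filter.1 hk).2.2)).trans ?_
    have b1 := hF.sub.box ξ G
      (univ.filter fun k => χ k = ξ ∧ ¬‖ρ k - cc P (y / Real.log P)‖ ≤ δ) fun k hk => by
        refine ⟨(Finset.mem_filter.1 hk).2.1, ?_, (hF.1 k).2.2.trans hG⟩
        have c1 : (1 - (ρ k).re) * Real.log P ≤ H := (hF.1 k).2.1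
        by_contra c2
        have c3 := mul_le_mul_of_nonneg_right (not_le.1 c2).le hL.le
        linarith
    have b2 : Real.log (24 * cd ξ * ((G : ℝ) + 5) ^ 2) ≤ 2 * Real.log P := by
      rw [mul_right_comm, Real.log_mul (by positivity) (cd_pos ξ).ne']
      have := Real.log_le_log (cd_pos ξ) hcd
      linarith
    rw [nsmul_eq_mul]
    refine (mul_le_mul_of_nonneg_right (b1.trans (mul_le_mul_of_nonneg_left
      (mul_le_mul_of_nonneg_left b2 (by norm_num)) (by positivity))) (by positivity)).trans ?_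
    have b3 := (div_le_iff₀ (by positivity)).1 (a6.trans hL0)
    generalize Real.log P = L at hL b3
    rw [← mul_div_assoc, div_le_iff₀ (by positivity)]
    have b4 := mul_le_mul_of_nonneg_right b3 (show 0 ≤ B * L / 4 by positivity)
    linarith
  simp only [clf_arg]
  rw [← Finset.sum_filter_add_sum_filter_not (univ.filter fun k => χ k = ξ)
    (fun k => ‖ρ k - cc P (y / Real.log P)‖ ≤ δ), Finset.filter_filter, Finset.filter_filter]
  have s4 := mul_le_mul_of_nonneg_left (hh.trans (add_le_add_left p4 ε1)) hg0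
  have s5 := mul_le_mul_of_nonneg_left hg40 hε1.le
  have s6 := mul_le_mul_of_nonneg_right hε3 hB
  have s7 := mul_nonneg hε1.le hB
  linarith

end Pool.Agent.Lib.MP_778b46_nt.GX
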