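import Pool.Agent.Lib.MP_778b46_nt.GX.ClE
import Pool.Agent.Lib.MP_778b46_nt.GX.ClF

/- The analytic data give a clean model. -/

namespace Pool.Agent.Lib.MP_778b46_nt.GX

open Complex Finset Filter ArithmeticFunction

/-- The characters whose conductor divides `q` (`conductor_mul_dvd_lcm_conductor`, `conductor_inv`). -/
def Gam (Q : ℕ) [NeZero Q] (q : ℕ) : Subgroup (DC Q) where
  carrier := {ξ | ξ.conductor ∣ q}
  mul_mem' := fun {a b} ha hb =>
    (DirichletCharacter.conductor_mul_dvd_lcm_conductor a b).trans (Nat.lcm_dvd ha hb)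
  one_mem' := by
    change (1 : DC Q).conductor ∣ q
    rw [DirichletCharacter.conductor_one]
    exact one_dvd q
  inv_mem' := fun {a} ha => by
    change a⁻¹.conductor ∣ q
    rwa [DirichletCharacter.conductor_inv]

theorem clg_cd {Q : ℕ} [NeZero Q] {q : ℕ} (hq : 1 ≤ q) (ξ : Gam Q q) : cd ξ.1 ≤ q := by
  unfold cd
  exact_mod_cast Nat.le_of_dvd hq ξ.2

theorem clg_cop {Q : ℕ} [NeZero Q] {q : ℕ} {P : ℝ} (n : Om P q) (ξ : Gam Q q) :
    n.1.Coprime ξ.1.conductor := (mem_filter.1 n.2).2.coprime_dvd_right ξ.2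

/-- Evaluation at an integer prime to `q`. -/
noncomputable def clg_ev (Q : ℕ) [NeZero Q] {q : ℕ} {P : ℝ} (n : Om P q) : Gam Q q →* ℂ where
  toFun ξ := pr ξ.1 n.1
  map_one' := pr_triv _
  map_mul' ξ ξ' := pr_mul_char _ _ (clg_cop n ξ) (clg_cop n ξ')

theorem clg_sum (s : Finset ℕ) (p : ℕ → Prop) {i₁ : DecidablePred p}
    {i₂ : DecidablePred fun ω : s => p ω.1} (f : ℕ → ℝ) :
    ∑ ω ∈ univ.filter (fun ω : s => p ω.1), f ω.1 = ∑ n ∈ s.filter p, f n := by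
  rw [sum_filter, sum_filter, ← sum_coe_sort s]
  exact sum_congr rfl fun ω _ => by congr

theorem clg_filter {ι : Type} [Fintype ι] {p p' : ι → Prop} {i₁ : DecidablePred p}
    {i₂ : DecidablePred p'} (h : ∀ k, p k ↔ p' k) : univ.filter p = univ.filter p' :=
  filter_congr fun k _ => h k

theorem clg_ite {p p' : Prop} {i₁ : Decidable p} {i₂ : Decidable p'} (h : p ↔ p') (a b : ℝ) :
    (if p then a else b) = if p' then a else b := if_congr h rfl rfl

theorem clg_pow {η : ℝ} (hη : 0 < η) (Y : ℝ) : ∀ᶠ P : ℝ in atTop, Y ≤ P ^ η :=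
  (tendsto_rpow_atTop hη).eventually_ge_atTop Y

/-- `MOL` for the finitely many members of a list of parameters (induction on the list; `Sub.subtype` for the
sublist `S`; `lam ≤ H ≤ ε2 log P` and `Y ≤ P ^ η` for large `P`). -/
theorem mol_list {ph0 ph ph' f ε H Y : ℝ} (hM : MOL ph0) (h1 : ph0 < ph) (hf : 0 ≤ f)
    (h2 : f * ph0 < ph') (hε : 0 < ε) (ps : List MP) (hps : ∀ p ∈ ps, p.ok ph ph') :
    ∃ P0 : ℝ, ∀ P : ℝ, P0 ≤ P →
      ∀ (Q : ℕ) [NeZero Q] (ι : Type) [Fintype ι] (χ : ι → DC Q) (ρ : ι → ℂ), Sub χ ρ →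
        (∀ j, χ j ≠ 1 ∧ cd (χ j) ≤ P ∧ lam P (ρ j) ≤ H ∧ |(ρ j).im| ≤ Y) →
        ∀ p ∈ ps, ∀ (S : Finset ι) (lmin : ℝ), 0 ≤ lmin → (∀ j ∈ S, lmin ≤ lam P (ρ j)) →
          (∀ j ∈ S, ∀ k ∈ S, cd (χ j / χ k) ≤ P ^ f) →
          ∑ j ∈ S, p.m ph lmin (lam P (ρ j)) ≤ 1 + ε := by
  have key : ∀ᶠ P : ℝ in atTop, ∀ p ∈ {p | p ∈ ps},
      ∀ (Q : ℕ) [NeZero Q] (ι : Type) [Fintype ι] (χ : ι → DC Q) (ρ : ι → ℂ), Sub χ ρ →
        (∀ j, χ j ≠ 1 ∧ cd (χ j) ≤ P ∧ lam P (ρ j) ≤ H ∧ |(ρ j).im| ≤ Y) →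
        ∀ (S : Finset ι) (lmin : ℝ), 0 ≤ lmin → (∀ j ∈ S, lmin ≤ lam P (ρ j)) →
          (∀ j ∈ S, ∀ k ∈ S, cd (χ j / χ k) ≤ P ^ f) →
          ∑ j ∈ S, p.m ph lmin (lam P (ρ j)) ≤ 1 + ε := by
    refine (eventually_all_finite ps.finite_toSet).2 fun p hp => ?_
    obtain ⟨η, ε2, P0, hη, hε2, h⟩ := hM p ph ph' f ε (hps p hp) h1 hf h2 hε
    filter_upwards [eventually_ge_atTop P0, clg_pow hη Y,
      (Real.tendsto_log_atTop.const_mul_atTop hε2).eventually_ge_atTop H] with P a b c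
    intro Q _ ι _ χ ρ hs hχ S lmin h0 hl hd
    rw [← sum_coe_sort S]
    exact h P a Q S (fun j => χ j.1) (fun j => ρ j.1) lmin (hs.subtype fun j => j ∈ S) h0
      (fun j => ⟨(hχ j).1, (hχ j).2.1, hl j j.2, (hχ j).2.2.1.trans c, (hχ j).2.2.2.trans b⟩)
      fun j k => hd j j.2 k k.2
  obtain ⟨P0, h⟩ := eventually_atTop.1 key
  exact ⟨P0, fun P hP Q _ ι _ χ ρ hs hχ p hp => h P hP p hp Q ι χ ρ hs hχ⟩

/-- `Γ = Gam Q q`, `Ω = Om P q` (as a subtype), `μ = mw P`, `t = tt P`, `ev n ξ = pr ξ n` (`pr_mul_char`,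
`pr_triv`, `norm_pr`), `ch i = χ i`, `lam i = lam P (ρ i)`, `mu i = (ρ i).im * log P`, `Ym = Y * log P`,
`sm ξ = cd ξ ≤ R`, `cj` from `Full.exists_conj`.  `sm_trans`: `cd_mul_le` and the gap hypothesis.  Fields `ef`,
`mert`, `sv`: `ef_om`, `mert_om`, `sv_om` (`Finset.sum_coe_sort`, `sum_filter`).  `molF`: `mol_list` with
`f = 1`, `ph' = φ`; `molC`: `f = 1 / 1000`, `ph' = 1 / 1000`, `R ≤ P ^ f` for large `P`. -/
theorem cln {ph0 : ℝ} (h0 : 0 < ph0) (h1 : ph0 ≤ 1 / 2) (hTB : TB ph0) (hM : MOL ph0) :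
    CLN ph0 := by
  classical
  intro φ ε H Y R psF psC hφ hε hH hY hR hpF hpC
  obtain ⟨P1, h3, hef⟩ := ef_om h0 h1 hTB hφ hε hH hY hR
  obtain ⟨P2, -, hme⟩ := mert_om hε
  obtain ⟨η, P3, hη, -, hsv⟩ := sv_om h0 hTB hφ hε
  obtain ⟨P4, hF⟩ := mol_list (f := 1) (H := H) (Y := Y) hM hφ zero_le_one (by linarith) hε psF hpF
  obtain ⟨P5, hC⟩ := mol_list (f := 1 / 1000) (H := H) (Y := Y) hM hφ (by norm_num) (by linarith) hε
    psC hpC
  refine eventually_atTop.1 ?_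
  filter_upwards [eventually_ge_atTop P1, eventually_ge_atTop P2, eventually_ge_atTop P3,
    eventually_ge_atTop P4, eventually_ge_atTop P5, clg_pow hη Y,
    clg_pow (η := 1 / 1000) (by norm_num) R] with P a1 a2 a3 a4 a5 a6 a7
  intro Q _ q ι _ χ ρ hq _ hqP hfull him hcd hgap
  have hP : 3 ≤ P := h3.trans a1
  have hL : 0 ≤ Real.log P := Real.log_nonneg (by linarith)
  obtain ⟨cj, hcj⟩ := hfull.exists_conj fun ξ z h => by
    refine ⟨by rw [DirichletCharacter.conductor_inv]; exact h.1, ?_, ?_⟩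
    · rw [lam, conj_re]
      exact h.2.1
    · rw [conj_im, abs_neg]
      exact h.2.2
  let ch : ι → Gam Q q := fun i => ⟨χ i, (hfull.1 i).1⟩
  have hne : ∀ i, χ i ≠ 1 := fun i h => by
    have := hcd i
    rw [h, cd_one] at this
    linarith
  have hle : ∀ i, cd (χ i) ≤ P := fun i => (clg_cd hq (ch i)).trans hqP
  have hdv : ∀ i j, cd (χ i / χ j) ≤ P := fun i j => (clg_cd hq (ch i / ch j)).trans hqP
  have hall : ∀ j, χ j ≠ 1 ∧ cd (χ j) ≤ P ∧ lam P (ρ j) ≤ H ∧ |(ρ j).im| ≤ Y := fun j =>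
    ⟨hne j, hle j, (hfull.1 j).2.1, him j⟩
  let D : Dat (Gam Q q) (Om P q) ι :=
    { μ := fun n => mw P n.1
      t := fun n => tt P n.1
      ev := clg_ev Q
      ch := ch
      lam := fun i => lam P (ρ i)
      mu := fun i => (ρ i).im * Real.log P
      Ym := Y * Real.log P
      sm := fun ξ => cd ξ.1 ≤ R
      cj := cj }
  refine ⟨Gam Q q, Om P q, inferInstance, inferInstance, D, ?_, fun _ => rfl, fun _ _ => Iff.rfl⟩
  refine
    { μ_nonneg := fun n => mw_nonneg hP _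
      t_pos := fun n => tt_pos hP n.2
      norm_ev := fun n ξ => norm_pr _ (clg_cop n ξ)
      lam_nonneg := fun i => hfull.sub.lam_nonneg (by linarith) i
      lam_le := fun i => (hfull.1 i).2.1
      mu_le := fun i => ?_
      cj_ch := fun i => Subtype.ext (hcj i).1
      cj_lam := fun i => ?_
      cj_mu := fun i => ?_
      sm_one := cd_one.trans_le hR
      sm_inv := fun ξ h => (cd_inv ξ.1).trans_le h
      sm_trans := fun i j k h h' => hgap i k ?_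
      sm_not := fun i => not_le.2 (hcd i)
      ef := fun ξ y T B g b1 b2 b3 b4 b5 b6 => ?_
      mert := fun u v b1 b2 b3 => ?_
      sv := fun a c τ τ' w α β b1 b2 b3 b4 b5 b6 b7 => ?_
      molF := fun p hp S lmin b1 b2 => hF P a4 Q ι χ ρ hfull.sub hall p hp S lmin b1 b2
        fun j _ k _ => (hdv j k).trans_eq (Real.rpow_one P).symm
      molC := fun p hp S lmin b1 b2 b3 => hC P a5 Q ι χ ρ hfull.sub hall p hp S lmin b1 b2
        fun j hj k hk => le_trans (b3 j hj k hk) a7 }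
  · change |(ρ i).im * Real.log P| ≤ Y * Real.log P
    rw [abs_mul, abs_of_nonneg hL]
    exact mul_le_mul_of_nonneg_right (him i) hL
  · change lam P (ρ (cj i)) = lam P (ρ i)
    rw [(hcj i).2, lam, conj_re, lam]
  · change (ρ (cj i)).im * Real.log P = -((ρ i).im * Real.log P)
    rw [(hcj i).2, conj_im, neg_mul]
  · rw [← div_mul_div_cancel (χ i) (χ j) (χ k), sq]
    exact (cd_mul_le _ _).trans (mul_le_mul h h' (cd_pos _).le (by linarith))
  · have h := hef P a1 Q q ι χ ρ hq hqP hfull ξ.1 y T B g ξ.2 b1 b2 b3 b4 b5 b6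
    rw [← sum_coe_sort (Om P q)] at h
    refine le_trans h (le_of_eq ?_)
    congr 3
    · exact clg_ite (Subtype.ext_iff (a1 := ξ) (a2 := 1)).symm _ _
    · exact sum_congr (clg_filter fun k => (Subtype.ext_iff (a1 := ch k) (a2 := ξ)).symm)
        fun _ _ => rfl
  · have h := hme P a2 q hq hqP u v b1 b2 b3
    rwa [← clg_sum] at h
  · have h := hsv P a3 Q q ι χ (fun j => (ρ j).im) (fun j => ⟨hne j, hle j, (him j).trans a6⟩) hdv
      a c τ τ' w α β b1 b2 b3 b4 b5 b6 b7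
    rw [← clg_sum] at h
    refine le_trans h (le_of_eq ?_)
    congr 3
    refine sum_congr rfl fun j _ => ?_
    exact sum_congr (clg_filter fun k => (Subtype.ext_iff (a1 := ch k) (a2 := ch j)).symm)
      fun _ _ => rfl

end Pool.Agent.Lib.MP_778b46_nt.GX
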