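import Pool.Agent.Lib.MP_778b46_nt.GX.As5
import Pool.Agent.Lib.MP_778b46_nt.GX.As6
import Pool.Agent.Lib.MP_778b46_nt.GX.BuTB
import Pool.Agent.Lib.MP_778b46_nt.GX.ClG
import Pool.Agent.Lib.MP_778b46_nt.GX.DhE

set_option autoImplicit false

namespace Pool.Agent.Lib.MP_778b46_nt.GX

/-- What is left: the circle method and the numerical part. -/
theorem exc_of {L ph te : ℝ} (hL : 20 / 7 ≤ L) (hph : 1 / 3 < ph) (hte : 1 - 1 / L < te)
    (hM : MA.Main) (hE : CERT L ph) : EXC te := by
  have L0 : 0 < L := by linarith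
  have h1 : 1 / L ≤ 7 / 20 := by rw [div_le_iff₀ L0]; linarith
  obtain ⟨th, a1, a2⟩ := exists_between (max_lt (one_div_pos.2 L0) (by linarith : 1 - te < 1 / L))
  have b1 : 0 < th := (le_max_left _ _).trans_lt a1
  have b2 : 1 - te < th := (le_max_right _ _).trans_lt a1
  exact final b1 (by linarith) (by linarith) ((lt_one_div L0 b1).2 a2) hph (by linarith) tb_third
    (dh (by norm_num) (by norm_num) tb_third zfs)
    (cln (by norm_num) (by norm_num) tb_third (Mo.mol (by norm_num) tb_third))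
    (ma_of_main hM b1 (by linarith)) hE

end Pool.Agent.Lib.MP_778b46_nt.GX
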