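import Pool.Agent.Lib.MP_778b46_nt.GX.As3

set_option autoImplicit false

noncomputable section

namespace Pool.Agent.Lib.MP_778b46_nt.GX

open Finset Filter
open scoped Classical

/-! Definitions for the assembly. -/

variable {Q : ℕ} {ι : Type} [Fintype ι]

/-- The entries with a non principal character. -/
def NP (χ : ι → DC Q) : Finset ι := univ.filter fun i => χ i ≠ 1

/-- The entries with the principal character. -/
def PP (χ : ι → DC Q) : Finset ι := univ.filter fun i => χ i = 1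

/-- The weight `exp (-(L l))`. -/
def yw (L : ℝ) (l : ι → ℝ) (i : ι) : ℝ := Real.exp (-(L * l i))

/-- The loss from the pairs in `S`. -/
def T2 (C : ℝ) (m : ℕ) (χ : ι → DC Q) (ρ : ι → ℂ) (y : ι → ℝ) (S : Finset ι) : ℝ :=
  ∑ i ∈ S, ∑ j ∈ S, wt C m (χ i) (χ j) (ρ i) (ρ j) * (y i * y j)

/-- The loss from the single zeros in `S`. -/
def T1 (C : ℝ) (χ : ι → DC Q) (ρ : ι → ℂ) (y : ι → ℝ) (S : Finset ι) : ℝ :=
  ∑ i ∈ S, wt0 C (χ i) (ρ i) * y i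

/-- The weight of the zeros of the zeta function. -/
def Zk (χ : ι → DC Q) (ρ : ι → ℂ) (y : ι → ℝ) : ℝ :=
  ∑ i ∈ PP χ, y i * (1 + |(ρ i).im|) ^ (-(1 / 4) : ℝ)

/-- The density estimates for a list. -/
structure Big (χ : ι → DC Q) (ρ : ι → ℂ) (l : ι → ℝ) (P A : ℝ) : Prop where
  nonneg : ∀ i, 0 ≤ l i
  fam : ∀ S : Finset ι, (∀ i ∈ S, χ i ≠ 1) → ∑ i ∈ S, Real.exp (-(109 / 50 * l i)) ≤ A
  cls : ∀ S : Finset ι, (∀ i ∈ S, χ i ≠ 1) →
    (∀ i ∈ S, ∀ j ∈ S, cd (χ i / χ j) ≤ P ^ (1 / 100 : ℝ)) → ∑ i ∈ S, Real.exp (-(71 / 100 * l i)) ≤ A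
  zet : ∑ i ∈ PP χ, (1 + |(ρ i).im|) ^ (-(1 / 8) : ℝ) ≤ A

end Pool.Agent.Lib.MP_778b46_nt.GX
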