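import Pool.Agent.Lib.MP_778b46_nt.GX.Bs2
import Pool.Agent.Lib.MP_778b46_nt.GX.As10
import Pool.Agent.Lib.MP_778b46_nt.GX.As11

set_option autoImplicit false

namespace Pool.Agent.Lib.MP_778b46_nt.GX.P3

/-- What is left: the circle method and the bound for the pairs of zeros. -/
theorem exc_of_fin {L te : ℝ} (hL : 12 / 5 ≤ L) (hte : 1 - 1 / L < te)
    (hM : ∀ ϑ : ℝ, 0 < ϑ → ϑ < 1 / L → MA ϑ) (hE : FIN L) : EXC te := by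
  have L0 : 0 < L := by linarith
  have h1 : 1 / L ≤ 5 / 12 := by rw [div_le_iff₀ L0]; linarith
  obtain ⟨th, a1, a2⟩ := exists_between (max_lt (one_div_pos.2 L0) (by linarith : 1 - te < 1 / L))
  have b1 : 0 < th := (le_max_left _ _).trans_lt a1
  have b2 : 1 - te < th := (le_max_right _ _).trans_lt a1
  exact final2 b1 (by linarith) hL ((lt_one_div L0 b1).2 a2) (by linarith) tb_third
    (dh (by norm_num) (by norm_num) tb_third zfs) (hM th b1 a2) hE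

/-- What is left: the circle method and the numerical part. -/
theorem exc_of3 {L φ φ1 te : ℝ} (hL : 12 / 5 ≤ L) (hφ : 1 / 3 < φ) (hφ1 : 1 / 4 < φ1)
    (hte : 1 - 1 / L < te) (hM : ∀ ϑ : ℝ, 0 < ϑ → ϑ < 5 / 12 → MA ϑ) (hE : CERT3 L φ φ1) :
    EXC te :=
  exc_of_fin hL hte (fun ϑ h0 h1 => hM ϑ h0 (h1.trans_le (by
    rw [div_le_iff₀ (by linarith)]
    linarith))) (fin_of_cert3 hφ hφ1 hE)

/-- The final statement from the circle method and the numerical part at `L`. -/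
theorem exc_finalL {L φ φ1 : ℝ} (hL : 12 / 5 ≤ L) (hM : ∀ ϑ : ℝ, 0 < ϑ → ϑ < 5 / 12 → MA ϑ)
    (hφ : 1 / 3 < φ) (hφ1 : 1 / 4 < φ1) (h : CERT3 L φ φ1) {te : ℝ} (hte : 1 - 1 / L < te) :
    ∃ C : ℝ, ∀ X : ℕ, 1 ≤ X →
      (Set.ncard {n : ℕ | 1 ≤ n ∧ n ≤ X ∧ ¬ ∃ x y : ℕ, 0 < x ∧ 0 < y ∧
        Nat.nth Nat.Prime (x - 1) ≠ Nat.nth Nat.Prime (y - 1) ∧
        Nat.nth Nat.Prime (x - 1) + Nat.nth Nat.Prime (y - 1) = 2 * n} : ℝ) ≤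
          C * (X : ℝ) ^ te :=
  exc_count_nth (exc_of3 hL hφ hφ1 hte hM h)

/-- The final statement from the circle method and the numerical part at `L = 12 / 5`. -/
theorem exc_final712 {φ φ1 : ℝ} (hM : ∀ ϑ : ℝ, 0 < ϑ → ϑ < 5 / 12 → MA ϑ) (hφ : 1 / 3 < φ)
    (hφ1 : 1 / 4 < φ1) (h : CERT3 (12 / 5) φ φ1) :
    ∀ ε : ℝ, 0 < ε → ∃ C : ℝ, ∀ X : ℕ, 1 ≤ X →
      (Set.ncard {n : ℕ | 1 ≤ n ∧ n ≤ X ∧ ¬ ∃ x y : ℕ, 0 < x ∧ 0 < y ∧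
        Nat.nth Nat.Prime (x - 1) ≠ Nat.nth Nat.Prime (y - 1) ∧
        Nat.nth Nat.Prime (x - 1) + Nat.nth Nat.Prime (y - 1) = 2 * n} : ℝ) ≤
          C * (X : ℝ) ^ (7 / 12 + ε) :=
  fun _ hε => exc_finalL le_rfl hM hφ hφ1 h (by linarith)

end Pool.Agent.Lib.MP_778b46_nt.GX.P3
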