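import Mathlib

/-! Character sums cancel from `q^(1/3+ε)` for all moduli: definitions and trivial lemmas. -/

set_option autoImplicit false

noncomputable section

namespace Pool.Agent.Lib.MP_778b46_nt.GX.Bu

open Finset

/-- Weil's bound for products of shifted multiplicative characters modulo a prime. -/
def WeilAny : Prop := ∀ m : ℕ, ∃ C : ℝ, ∀ (p : ℕ) [Fact p.Prime] (ι : Type) [Fintype ι],
  Fintype.card ι ≤ m → ∀ (c : ι → ZMod p) (χ : ι → MulChar (ZMod p) ℂ) (j0 : ι),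
    (∀ j, j ≠ j0 → c j ≠ c j0) → χ j0 ≠ 1 → ‖∑ x : ZMod p, ∏ j, χ j (x + c j)‖ ≤ C * √p

/-- Number of divisors. -/
def tu (n : ℕ) : ℝ := n.divisors.card

/-- Identity or complex conjugation. -/
def sg (b : Bool) (z : ℂ) : ℂ := if b then z else (starRingEnd ℂ) z

/-- The complete sum of Burgess' moment. -/
def cs {q : ℕ} [NeZero q] (χ : DirichletCharacter ℂ q) {ι : Type} [Fintype ι] (e : ι → Bool)
    (c : ι → ℕ) : ℂ := ∑ x : ZMod q, ∏ j, sg (e j) (χ (x + (c j : ZMod q)))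

def CubeFree (q : ℕ) : Prop := ∀ p : ℕ, p.Prime → ¬ p ^ 3 ∣ q

/-- Initial sum. -/
def SS (f : ℤ → ℂ) (N : ℕ) : ℂ := ∑ n ∈ Ioc 0 N, f (n : ℤ)

/-- Iterated differencing with steps `t * d`. -/
def DD (t : ℤ) : List ℤ → (ℤ → ℂ) → ℤ → ℂ
  | [], f => f
  | d :: l, f => DD t l fun n => f (n + t * d) * (starRingEnd ℂ) (f n)

/-- Tuples with entries in `[1, H]`. -/
def box (ι : Type) [Fintype ι] [DecidableEq ι] (H : ℕ) : Finset (ι → ℕ) :=
  Fintype.piFinset fun _ => Icc 1 H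

/-- The signs of the moment. -/
def ee2 (r : ℕ) : Fin r ⊕ Fin r → Bool := Sum.elim (fun _ => true) fun _ => false

/-- The first elementary symmetric functions. -/
def key (r : ℕ) (h : Fin r → ℕ) : Fin 5 → ℕ :=
  fun j => ∑ T ∈ powersetCard j (univ : Finset (Fin r)), ∏ i ∈ T, h i

/-- The majorant of Burgess' amplified sum. -/
def GG {q : ℕ} (χ : DirichletCharacter ℂ q) (r H : ℕ) (x : ZMod q) : ℝ :=
  ∑ κ ∈ (box (Fin r) H).image (key r),
    ‖∑ h ∈ (box (Fin r) H).filter (fun h => key r h = κ), ∏ i, χ (x + (h i : ZMod q))‖ ^ 2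

theorem tu_pos {n : ℕ} (hn : n ≠ 0) : 1 ≤ tu n := by
  unfold tu
  exact_mod_cast Finset.card_pos.2 ⟨1, Nat.one_mem_divisors.2 hn⟩

theorem tu_mono {a b : ℕ} (hb : b ≠ 0) (h : a ∣ b) : tu a ≤ tu b := by
  unfold tu
  exact_mod_cast Finset.card_le_card (Nat.divisors_subset_of_dvd hb h)

theorem tu_mul {a b : ℕ} (h : a.Coprime b) : tu (a * b) = tu a * tu b := by
  unfold tu
  rw [h.card_divisors_mul]
  push_cast
  rfl

theorem tu_pp {p a : ℕ} (hp : p.Prime) (ha : 0 < a) : 2 ≤ tu (p ^ a) := by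
  unfold tu
  rw [Nat.divisors_prime_pow hp, card_map, card_range]
  exact_mod_cast Nat.succ_le_succ ha

theorem norm_sg (b : Bool) (z : ℂ) : ‖sg b z‖ = ‖z‖ := by
  unfold sg
  split_ifs <;> simp

theorem sg_mul (b : Bool) (z w : ℂ) : sg b (z * w) = sg b z * sg b w := by
  unfold sg
  split_ifs <;> simp

theorem ss_triv (f : ℤ → ℂ) (hf : ∀ n, ‖f n‖ ≤ 1) (N : ℕ) : ‖SS f N‖ ≤ N := by
  refine (norm_sum_le _ _).trans ((sum_le_sum fun n _ => hf _).trans ?_)
  simp

theorem ss_add (f : ℤ → ℂ) (M N : ℕ) : SS f (M + N) = SS f M + SS (fun n => f (n + M)) N := by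
  induction N with
  | zero => simp [SS]
  | succ N ih =>
    unfold SS at ih ⊢
    rw [← add_assoc, sum_Ioc_succ_top (Nat.zero_le _), sum_Ioc_succ_top (Nat.zero_le _), ih,
      add_assoc]
    congr 3
    push_cast
    ring

theorem ss_shift (f : ℤ → ℂ) (hf : ∀ n, ‖f n‖ ≤ 1) (k N : ℕ) :
    ‖SS (fun n => f (n + k)) N - SS f N‖ ≤ 2 * k := by
  have h1 := ss_add f k N
  have h2 := ss_add f N k
  rw [add_comm N k, h1] at h2
  have h3 : SS (fun n => f (n + k)) N - SS f N = SS (fun n => f (n + N)) k - SS f k := by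
    linear_combination h2
  rw [h3]
  have h4 := ss_triv f hf k
  have h5 := ss_triv (fun n => f (n + N)) (fun n => hf _) k
  linarith [norm_sub_le (SS (fun n => f (n + N)) k) (SS f k)]

end Pool.Agent.Lib.MP_778b46_nt.GX.Bu
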