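import Pool.Agent.Lib.MP_778b46_nt.GX.Bu0

set_option autoImplicit false

noncomputable section

namespace Pool.Agent.Lib.MP_778b46_nt.GX.Bu

open Finset

theorem bua_ker {n d : ℕ} [NeZero n] (hd : d ∣ n) {y : ZMod n}
    (h : ZMod.castHom hd (ZMod d) y = 1) : ∃ t : ZMod n, y = 1 + d * t := by
  have h1 : ZMod.castHom hd (ZMod d) (y - 1) = 0 := by rw [map_sub, h, map_one, sub_self]
  rw [← ZMod.natCast_zmod_val (y - 1), map_natCast, ZMod.natCast_eq_zero_iff] at h1
  obtain ⟨t, ht⟩ := h1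
  refine ⟨t, ?_⟩
  have h2 := congrArg (Nat.cast : ℕ → ZMod n) ht
  rw [ZMod.natCast_zmod_val, Nat.cast_mul] at h2
  linear_combination h2

theorem bua_cond_dvd {n d : ℕ} [NeZero n] (hd : d ∣ n) (χ : DirichletCharacter ℂ n)
    (h : ∀ t : ZMod n, IsUnit (1 + d * t) → χ (1 + d * t) = 1) : χ.conductor ∣ d := by
  refine χ.conductor_dvd_of_mem_conductorSet ?_
  rw [DirichletCharacter.mem_conductorSet_iff,
    DirichletCharacter.factorsThrough_iff_ker_unitsMap hd]
  intro u hu
  rw [MonoidHom.mem_ker, Units.ext_iff] at hu ⊢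
  obtain ⟨t, ht⟩ := bua_ker hd (y := (u : ZMod n)) hu
  rw [MulChar.coe_toUnitHom, Units.val_one, ht]
  exact h t (ht ▸ u.isUnit)

theorem bua_cond_one {n : ℕ} [NeZero n] (χ : DirichletCharacter ℂ n) (t : ZMod n)
    (h : IsUnit (1 + (χ.conductor : ZMod n) * t)) : χ (1 + (χ.conductor : ZMod n) * t) = 1 := by
  have h1 := (DirichletCharacter.factorsThrough_iff_ker_unitsMap χ.conductor_dvd_level).1
    χ.factorsThrough_conductor
  have h2 : h.unit ∈ (ZMod.unitsMap χ.conductor_dvd_level).ker := by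
    rw [MonoidHom.mem_ker, Units.ext_iff]
    change ZMod.castHom χ.conductor_dvd_level (ZMod χ.conductor)
      (1 + (χ.conductor : ZMod n) * t) = 1
    rw [map_add, map_one, map_mul, map_natCast, ZMod.natCast_self, zero_mul, add_zero]
  have h3 := h1 h2
  rw [MonoidHom.mem_ker, Units.ext_iff, MulChar.coe_toUnitHom] at h3
  exact h3

/-- `b ↦ χ (1 + b x)` is a nontrivial additive character. If it were trivial, with
`d = gcd q x.val < q` every unit that is `1` modulo `d` has the form `1 + b x` (Bezout), so `χ`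
factors through `d` (`factorsThrough_iff_ker_unitsMap`). -/
theorem bu_add {q : ℕ} [NeZero q] (χ : DirichletCharacter ℂ q) (hχ : χ.IsPrimitive) (x : ZMod q)
    (hx : x * x = 0) (hx0 : x ≠ 0) : ∑ b : ZMod q, χ (1 + b * x) = 0 := by
  by_cases hall : ∀ b : ZMod q, χ (1 + b * x) = 1
  · exfalso
    have hd : Nat.gcd q x.val ∣ q := Nat.gcd_dvd_left _ _
    have hb : ((Nat.gcd q x.val : ℕ) : ZMod q) = x * (Nat.gcdB q x.val : ZMod q) := by
      have h1 := congrArg (Int.cast : ℤ → ZMod q) (Nat.gcd_eq_gcd_ab q x.val)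
      simpa using h1
    have h1 : χ.conductor ∣ Nat.gcd q x.val := bua_cond_dvd hd χ fun t _ => by
      have h2 := hall ((Nat.gcdB q x.val : ZMod q) * t)
      rw [hb]
      convert h2 using 2
      ring
    rw [hχ] at h1
    have h2 : q ∣ x.val := h1.trans (Nat.gcd_dvd_right _ _)
    exact hx0 (by rw [← ZMod.natCast_zmod_val x, ZMod.natCast_eq_zero_iff]; exact h2)
  push Not at hall
  obtain ⟨b0, hb0⟩ := hall
  have h1 : ∑ b : ZMod q, χ (1 + b * x) = χ (1 + b0 * x) * ∑ b : ZMod q, χ (1 + b * x) := by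
    rw [Finset.mul_sum, ← Equiv.sum_comp (Equiv.addRight b0)]
    refine Finset.sum_congr rfl fun b _ => ?_
    rw [← map_mul, Equiv.coe_addRight]
    congr 1
    linear_combination (-(b0 * b)) * hx
  have h2 : (χ (1 + b0 * x) - 1) * ∑ b : ZMod q, χ (1 + b * x) = 0 := by
    linear_combination -h1
  exact (mul_eq_zero.1 h2).resolve_left (sub_ne_zero.2 hb0)

theorem bu_conj {q : ℕ} [NeZero q] (χ : DirichletCharacter ℂ q) {u v : ZMod q} (h : u * v = 1) :
    (starRingEnd ℂ) (χ u) = χ v := by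
  have h1 : χ u * χ v = 1 := by rw [← map_mul, h, map_one]
  rw [starRingEnd_apply, MulChar.star_apply', MulChar.inv_apply_eq_inv']
  exact (eq_inv_of_mul_eq_one_right h1).symm

/-- Splitting a primitive character along the Chinese remainder theorem. -/
theorem bu_split {a b : ℕ} [NeZero a] [NeZero b] (h : a.Coprime b)
    (χ : DirichletCharacter ℂ (a * b)) (hχ : χ.IsPrimitive) :
    ∃ (χ1 : DirichletCharacter ℂ a) (χ2 : DirichletCharacter ℂ b), χ1.IsPrimitive ∧
      χ2.IsPrimitive ∧ ∀ x : ZMod (a * b),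
        χ x = χ1 (ZMod.chineseRemainder h x).1 * χ2 (ZMod.chineseRemainder h x).2 := by
  set e := ZMod.chineseRemainder h with he
  let f1 : ZMod a →* ZMod (a * b) :=
    (e.symm : ZMod a × ZMod b →* ZMod (a * b)).comp (MonoidHom.inl _ _)
  let f2 : ZMod b →* ZMod (a * b) :=
    (e.symm : ZMod a × ZMod b →* ZMod (a * b)).comp (MonoidHom.inr _ _)
  let χ1 : DirichletCharacter ℂ a := MulChar.ofUnitHom (χ.toUnitHom.comp (Units.map f1))
  let χ2 : DirichletCharacter ℂ b := MulChar.ofUnitHom (χ.toUnitHom.comp (Units.map f2))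
  have h1 : ∀ u : ZMod a, IsUnit u → χ1 u = χ (e.symm (u, 1)) := by
    rintro _ ⟨u, rfl⟩
    exact MulChar.ofUnitHom_coe _ u
  have h2 : ∀ u : ZMod b, IsUnit u → χ2 u = χ (e.symm (1, u)) := by
    rintro _ ⟨u, rfl⟩
    exact MulChar.ofUnitHom_coe _ u
  have hU : ∀ x : ZMod (a * b), IsUnit x ↔ IsUnit (e x).1 ∧ IsUnit (e x).2 := fun x => by
    rw [← Prod.isUnit_iff]
    exact (MulEquiv.isUnit_map e.toMulEquiv).symm
  have hm : ∀ x : ZMod (a * b), χ x = χ1 (e x).1 * χ2 (e x).2 := fun x => by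
    by_cases hx : IsUnit x
    · rw [h1 _ ((hU x).1 hx).1, h2 _ ((hU x).1 hx).2, ← map_mul, ← map_mul]
      simp
    · rw [χ.map_nonunit hx]
      rw [hU, not_and_or] at hx
      rcases hx with hx | hx
      · rw [χ1.map_nonunit hx, zero_mul]
      · rw [χ2.map_nonunit hx, mul_zero]
  have hA : NeZero (a * b) := inferInstance
  refine ⟨χ1, χ2, ?_, ?_, hm⟩
  · have hd := χ1.conductor_dvd_level
    have h3 : χ.conductor ∣ χ1.conductor * b :=
      bua_cond_dvd (mul_dvd_mul_right hd b) χ fun t ht => by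
        have e1 : (e (1 + ((χ1.conductor * b : ℕ) : ZMod (a * b)) * t)).1 =
            1 + (χ1.conductor : ZMod a) * (b * (e t).1) := by
          simp [mul_assoc]
        have e2 : (e (1 + ((χ1.conductor * b : ℕ) : ZMod (a * b)) * t)).2 = 1 := by
          simp
        have h4 := ((hU _).1 ht).1
        rw [e1] at h4
        rw [hm, e1, e2, map_one, mul_one]
        exact bua_cond_one χ1 _ h4
    rw [hχ] at h3
    exact Nat.dvd_antisymm hd (Nat.dvd_of_mul_dvd_mul_right (NeZero.pos b) h3)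
  · have hd := χ2.conductor_dvd_level
    have h3 : χ.conductor ∣ a * χ2.conductor :=
      bua_cond_dvd (mul_dvd_mul_left a hd) χ fun t ht => by
        have e1 : (e (1 + ((a * χ2.conductor : ℕ) : ZMod (a * b)) * t)).2 =
            1 + (χ2.conductor : ZMod b) * (a * (e t).2) := by
          simp [mul_assoc, mul_left_comm]
        have e2 : (e (1 + ((a * χ2.conductor : ℕ) : ZMod (a * b)) * t)).1 = 1 := by
          simp
        have h4 := ((hU _).1 ht).2
        rw [e1] at h4
        rw [hm, e1, e2, map_one, one_mul]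
        exact bua_cond_one χ2 _ h4
    rw [hχ] at h3
    exact Nat.dvd_antisymm hd (Nat.dvd_of_mul_dvd_mul_left (NeZero.pos a) h3)

end Pool.Agent.Lib.MP_778b46_nt.GX.Bu
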