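import Pool.Agent.Lib.MP_778b46_nt.GX.Bu0

set_option autoImplicit false

noncomputable section

namespace Pool.Agent.Lib.MP_778b46_nt.GX.Bu

open Finset

theorem buv_norm (f : ℤ → ℂ) (hf : ∀ n, ‖f n‖ ≤ 1) (a b : ℤ) :
    ‖f a * (starRingEnd ℂ) (f b)‖ ≤ 1 := by
  rw [norm_mul, Complex.norm_conj]
  exact mul_le_one₀ (hf a) (norm_nonneg _) (hf b)

theorem bu_vdc1 (f : ℤ → ℂ) (hf : ∀ n, ‖f n‖ ≤ 1) (t H N : ℕ) (β : ℝ) (h0 : 0 ≤ β) (h1 : β ≤ 1)
    (ht : (t * H : ℝ) ≤ β ^ 2 * N) (hH : 1 ≤ β ^ 2 * H)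
    (hB : ∀ d : ℤ, d ≠ 0 → |d| ≤ H →
      ‖SS (fun n => f (n + t * d) * (starRingEnd ℂ) (f n)) N‖ ≤ 13 * β ^ 2 * N) :
    ‖SS f N‖ ≤ 13 * β * N := by
  have hH0 : (0 : ℝ) < H := by
    rcases Nat.eq_zero_or_pos H with rfl | h
    · simp at hH; linarith
    · exact_mod_cast h
  have hN0 : (0 : ℝ) ≤ N := Nat.cast_nonneg _
  have hth : ∀ h ∈ Icc 1 H, ((t * h : ℕ) : ℝ) ≤ β ^ 2 * N := fun h hh => by
    have : (h : ℝ) ≤ H := by exact_mod_cast (mem_Icc.1 hh).2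
    push_cast
    exact (mul_le_mul_of_nonneg_left this (Nat.cast_nonneg _)).trans ht
  set W : ℕ → ℂ := fun n => ∑ h ∈ Icc 1 H, f (n + (t * h : ℕ)) with hW
  have e1 : ‖(∑ n ∈ Ioc 0 N, W n) - H * SS f N‖ ≤ H * (2 * (β ^ 2 * N)) := by
    have : (∑ n ∈ Ioc 0 N, W n) - H * SS f N =
        ∑ h ∈ Icc 1 H, (SS (fun n => f (n + (t * h : ℕ))) N - SS f N) := by
      rw [sum_sub_distrib, sum_const, Nat.card_Icc, hW, sum_comm]
      simp [SS]
    rw [this]
    refine (norm_sum_le _ _).trans ((sum_le_sum fun h hh =>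
      (ss_shift f hf (t * h) N).trans (mul_le_mul_of_nonneg_left (hth h hh) zero_le_two)).trans ?_)
    simp
  have e2 : ∑ n ∈ Ioc 0 N, ‖W n‖ ^ 2 ≤ H * (N + H * (15 * β ^ 2 * N)) := by
    have h2 : ((∑ n ∈ Ioc 0 N, ‖W n‖ ^ 2 : ℝ) : ℂ) = ∑ h ∈ Icc 1 H, ∑ h' ∈ Icc 1 H,
        SS (fun n => f (n + (t * h : ℕ)) * (starRingEnd ℂ) (f (n + (t * h' : ℕ)))) N := by
      push_cast
      simp_rw [← Complex.mul_conj', hW, map_sum, sum_mul_sum, SS]
      rw [sum_comm]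
      refine sum_congr rfl fun h _ => ?_
      rw [sum_comm]
      push_cast
      rfl
    have h3 : ∑ n ∈ Ioc 0 N, ‖W n‖ ^ 2 = ‖((∑ n ∈ Ioc 0 N, ‖W n‖ ^ 2 : ℝ) : ℂ)‖ := by
      rw [Complex.norm_real, Real.norm_of_nonneg (sum_nonneg fun _ _ => by positivity)]
    rw [h3, h2]
    refine (norm_sum_le _ _).trans ((sum_le_sum (g := fun _ => N + H * (15 * β ^ 2 * N))
      fun h hh => ?_).trans (by simp [mul_add]))
    refine (norm_sum_le _ _).trans ?_
    rw [← add_sum_erase _ _ hh]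
    refine add_le_add (ss_triv _ (fun n => buv_norm f hf _ _) N) ?_
    refine (sum_le_sum (g := fun _ => 15 * β ^ 2 * N) fun h' hh' => ?_).trans ?_
    · obtain ⟨hne, hh'⟩ := mem_erase.1 hh'
      have a1 := mem_Icc.1 hh
      have a2 := mem_Icc.1 hh'
      have h4 := hB ((h : ℤ) - h') (by omega) (by rw [abs_le]; omega)
      have h5 := ss_shift (fun n => f (n + t * ((h : ℤ) - h')) * (starRingEnd ℂ) (f n))
        (fun n => buv_norm f hf _ _) (t * h') N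
      have h6 : (fun n : ℤ => f (n + (t * h' : ℕ) + t * ((h : ℤ) - h')) *
          (starRingEnd ℂ) (f (n + (t * h' : ℕ)))) =
          fun n => f (n + (t * h : ℕ)) * (starRingEnd ℂ) (f (n + (t * h' : ℕ))) := by
        funext n
        congr 2
        push_cast
        ring
      rw [h6] at h5
      have h7 := hth h' hh'
      have h8 := norm_le_insert' (SS (fun n => f (n + (t * h : ℕ)) *
        (starRingEnd ℂ) (f (n + (t * h' : ℕ)))) N)
        (SS (fun n => f (n + t * ((h : ℤ) - h')) * (starRingEnd ℂ) (f n)) N)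
      linarith
    · rw [sum_const, nsmul_eq_mul]
      refine mul_le_mul_of_nonneg_right ?_ (by positivity)
      have := card_erase_le (s := Icc 1 H) (a := h)
      rw [Nat.card_Icc] at this
      exact_mod_cast this
  have e3 : ‖∑ n ∈ Ioc 0 N, W n‖ ≤ 4 * β * N * H := by
    refine (norm_sum_le _ _).trans (le_of_sq_le_sq ?_ (by positivity))
    refine sq_sum_le_card_mul_sum_sq.trans ?_
    rw [Nat.card_Ioc, Nat.sub_zero]
    refine (mul_le_mul_of_nonneg_left e2 hN0).trans ?_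
    have : (N : ℝ) * N * H * 1 ≤ N * N * H * (β ^ 2 * H) :=
      mul_le_mul_of_nonneg_left hH (by positivity)
    nlinarith
  have e4 : H * ‖SS f N‖ ≤ H * (13 * β * N) := by
    have h1' := norm_le_insert (∑ n ∈ Ioc 0 N, W n) (H * SS f N)
    rw [norm_mul, Complex.norm_natCast] at h1'
    have h2 : β ^ 2 * N * H ≤ β * N * H := by
      refine mul_le_mul_of_nonneg_right (mul_le_mul_of_nonneg_right ?_ hN0) hH0.le
      nlinarith
    have : 0 ≤ β * N * H := by positivity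
    nlinarith
  exact le_of_mul_le_mul_left e4 hH0

theorem bu_vdc (t H N k : ℕ) : ∀ (f : ℤ → ℂ) (_ : ∀ n, ‖f n‖ ≤ 1) (β : ℝ) (_ : 0 ≤ β) (_ : β ≤ 1)
    (_ : (t * H : ℝ) ≤ β ^ 2 ^ k * N) (_ : 1 ≤ β ^ 2 ^ k * H)
    (_ : ∀ l : List ℤ, l.length = k → (∀ d ∈ l, d ≠ 0 ∧ |d| ≤ H) →
      ‖SS (DD t l f) N‖ ≤ 13 * β ^ 2 ^ k * N), ‖SS f N‖ ≤ 13 * β * N := by
  induction k with
  | zero =>
    intro f _ β _ _ _ _ h
    simpa [DD] using h [] rfl (by simp)
  | succ k ih =>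
    intro f hf β h0 h1 ht hH h
    have e : β ^ 2 ^ (k + 1) = (β ^ 2) ^ 2 ^ k := by rw [← pow_mul, pow_succ']
    rw [e] at ht hH h
    have b0 : 0 ≤ β ^ 2 := by positivity
    have b1 : β ^ 2 ≤ 1 := pow_le_one₀ h0 h1
    have b2 : (β ^ 2) ^ 2 ^ k ≤ β ^ 2 := pow_le_of_le_one b0 b1 (by positivity)
    refine bu_vdc1 f hf t H N β h0 h1
      (ht.trans (mul_le_mul_of_nonneg_right b2 (Nat.cast_nonneg _)))
      (hH.trans (mul_le_mul_of_nonneg_right b2 (Nat.cast_nonneg _))) fun d hd hd' => ?_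
    refine ih _ (fun n => buv_norm f hf _ _) _ b0 b1 ht hH fun l hl hl' => ?_
    refine h (d :: l) (by simp [hl]) fun x hx => ?_
    rcases List.mem_cons.1 hx with rfl | hx
    · exact ⟨hd, hd'⟩
    · exact hl' x hx

theorem buv_mul (f : ℤ → ℂ) (a : ℕ) (ha : ∀ n, f (n + a) = f n) (m j : ℕ) :
    SS f (a * m + j) = m * SS f a + SS f j := by
  induction m with
  | zero => simp
  | succ m ih =>
    rw [show a * (m + 1) + j = a + (a * m + j) by ring, ss_add]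
    simp_rw [ha]
    rw [ih]
    push_cast
    ring

/-- A function with two periods. -/
theorem bu_per (f : ℤ → ℂ) (hf : ∀ n, ‖f n‖ ≤ 1) (a b N : ℕ) (ha0 : 1 ≤ a) (hb0 : 1 ≤ b)
    (ha : ∀ n, f (n + a) = f n) (hb : ∀ n, f (n + b) = f n) :
    ‖SS f N‖ ≤ N / b * ‖SS f b‖ + a := by
  have h1 := buv_mul f a ha b 0
  have h2 := buv_mul f b hb a 0
  rw [mul_comm b a, h1] at h2
  have h3 : (b : ℝ) * ‖SS f a‖ = a * ‖SS f b‖ := by
    have := congrArg norm (add_right_cancel h2)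
    simpa using this
  have h4 := buv_mul f a ha (N / a) (N % a)
  rw [Nat.div_add_mod] at h4
  have hb1 : (0 : ℝ) < b := by exact_mod_cast hb0
  have h5 : ((N % a : ℕ) : ℝ) ≤ a := by exact_mod_cast (Nat.mod_lt N ha0).le
  have h6 : ((N / a : ℕ) : ℝ) * a ≤ N := by exact_mod_cast Nat.div_mul_le_self N a
  rw [h4]
  refine (norm_add_le _ _).trans (add_le_add ?_ ((ss_triv f hf _).trans h5))
  rw [norm_mul, Complex.norm_natCast, div_mul_eq_mul_div, le_div_iff₀ hb1, mul_assoc,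
    mul_comm _ (b : ℝ), h3, ← mul_assoc]
  exact mul_le_mul_of_nonneg_right h6 (norm_nonneg _)

end Pool.Agent.Lib.MP_778b46_nt.GX.Bu
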