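import Pool.Agent.Lib.MP_778b46_nt.GX.BuT
import Pool.Agent.Lib.MP_778b46_nt.GX.BuV

set_option autoImplicit false

noncomputable section

namespace Pool.Agent.Lib.MP_778b46_nt.GX.Bu

open Finset

theorem bub_fin {q : ℕ} [NeZero q] (χ : DirichletCharacter ℂ q) (t n w c : ZMod q) (k a : ℕ)
    (E O : ZMod q) (ht : t ^ (k + 1) = 0) (hw : n * w = 1) (h1 : E - O = c * t ^ k * n ^ a)
    (h2 : ∀ φ : ZMod q →+* ZMod q ⧸ Ideal.span {t}, φ t = 0 → φ O = φ (n ^ (a + k))) :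
    χ E * (starRingEnd ℂ) (χ O) = χ (1 + c * t ^ k * w ^ k) := by
  obtain ⟨y, hy⟩ := Ideal.mem_span_singleton'.1 (Ideal.Quotient.eq.1
    (h2 (Ideal.Quotient.mk _) (Ideal.Quotient.eq_zero_iff_mem.2 (Ideal.mem_span_singleton_self t))))
  have hn : IsUnit n := IsUnit.of_mul_eq_one w hw
  have hO : IsUnit O := by
    have : O = n ^ (a + k) + y * t := by rw [hy]; ring
    rw [this]
    exact IsNilpotent.isUnit_add_left_of_commute
      ((Commute.all _ _).isNilpotent_mul_left ⟨k + 1, ht⟩) (hn.pow _) (Commute.all _ _)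
  obtain ⟨u, hu⟩ := hO.exists_right_inv
  have hk : n ^ k * w ^ k = 1 := by rw [← mul_pow, hw, one_pow]
  rw [bu_conj χ hu, ← map_mul]
  congr 1
  linear_combination u * h1 + (1 + c * t ^ k * w ^ k) * hu - c * t ^ k * n ^ a * u * hk +
    c * t ^ k * w ^ k * u * hy - c * w ^ k * u * y * ht

theorem bub_2 {q : ℕ} [NeZero q] (χ : DirichletCharacter ℂ q) (t a b n : ℤ) (w : ZMod q)
    (ht : (t : ZMod q) ^ (2 + 1) = 0) (hw : (n : ZMod q) * w = 1) :
    DD t [a, b] (fun n => χ n) n = χ (1 + ((-(a * b) * t ^ 2 : ℤ) : ZMod q) * w ^ 2) := by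
  simp only [DD, map_mul, Complex.conj_conj]
  push_cast
  generalize (t : ZMod q) = t at *
  generalize (n : ZMod q) = n at *
  generalize (a : ZMod q) = a
  generalize (b : ZMod q) = b
  rw [← bub_fin χ t n w (-(a * b)) 2 0 (n * (n + t * b + t * a))
    ((n + t * a) * (n + t * b)) ht hw
    (by linear_combination 0 * ht)
    (fun φ h => by simp only [map_mul, map_add, h, zero_mul, add_zero, map_pow]; ring)]
  simp only [map_mul]
  ring

theorem bub_3 {q : ℕ} [NeZero q] (χ : DirichletCharacter ℂ q) (t a b c n : ℤ) (w : ZMod q)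
    (ht : (t : ZMod q) ^ (3 + 1) = 0) (hw : (n : ZMod q) * w = 1) :
    DD t [a, b, c] (fun n => χ n) n = χ (1 + ((2 * (a * b * c) * t ^ 3 : ℤ) : ZMod q) * w ^ 3) := by
  simp only [DD, map_mul, Complex.conj_conj]
  push_cast
  generalize (t : ZMod q) = t at *
  generalize (n : ZMod q) = n at *
  generalize (a : ZMod q) = a
  generalize (b : ZMod q) = b
  generalize (c : ZMod q) = c
  rw [← bub_fin χ t n w (2 * (a * b * c)) 3 1 ((n + t * a) * (n + t * b) * (n + t * c) * (n +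
      t * c + t * b + t * a))
    (n * (n + t * b + t * a) * (n + t * c + t * a) * (n + t * c + t * b)) ht hw
    (by linear_combination a * b * c * (a + b + c) * ht)
    (fun φ h => by simp only [map_mul, map_add, h, zero_mul, add_zero, map_pow]; ring)]
  simp only [map_mul]
  ring

theorem bub_4 {q : ℕ} [NeZero q] (χ : DirichletCharacter ℂ q) (t a b c d n : ℤ) (w : ZMod q)
    (ht : (t : ZMod q) ^ (4 + 1) = 0) (hw : (n : ZMod q) * w = 1) :
    DD t [a, b, c, d] (fun n => χ n) n = χ (1 + ((-(6 * (a * b * c * d)) * t ^ 4 : ℤ) : ZMod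
        q) * w ^ 4) := by
  simp only [DD, map_mul, Complex.conj_conj]
  push_cast
  generalize (t : ZMod q) = t at *
  generalize (n : ZMod q) = n at *
  generalize (a : ZMod q) = a
  generalize (b : ZMod q) = b
  generalize (c : ZMod q) = c
  generalize (d : ZMod q) = d
  rw [← bub_fin χ t n w (-(6 * (a * b * c * d))) 4 4 (n * (n + t * b + t * a) * (n + t * c + t
      * a) * (n + t * d + t * a) * (n + t * c + t * b) * (n + t * d + t * b) * (n + t * d + t * c)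
      * (n + t * d + t * c + t * b + t * a))
    ((n + t * a) * (n + t * b) * (n + t * c) * (n + t * d) * (n + t * c + t * b + t * a) * (n
        + t * d + t * b + t * a) * (n + t * d + t * c + t * a) * (n + t * d + t * c + t * b)) ht
        hw
    (by linear_combination a * b * c * d * (- 12*n^3*a - 12*n^3*b - 12*n^3*c - 12*n^3*d -
        8*n^2*t*a^2 - 18*n^2*t*a*b - 18*n^2*t*a*c - 18*n^2*t*a*d - 8*n^2*t*b^2 - 18*n^2*t*b*c -
        18*n^2*t*b*d - 8*n^2*t*c^2 - 18*n^2*t*c*d - 8*n^2*t*d^2 - 2*n*t^2*a^3 - 8*n*t^2*a^2*b -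
        8*n*t^2*a^2*c - 8*n*t^2*a^2*d - 8*n*t^2*a*b^2 - 18*n*t^2*a*b*c - 18*n*t^2*a*b*d -
        8*n*t^2*a*c^2 - 18*n*t^2*a*c*d - 8*n*t^2*a*d^2 - 2*n*t^2*b^3 - 8*n*t^2*b^2*c -
        8*n*t^2*b^2*d - 8*n*t^2*b*c^2 - 18*n*t^2*b*c*d - 8*n*t^2*b*d^2 - 2*n*t^2*c^3 -
        8*n*t^2*c^2*d - 8*n*t^2*c*d^2 - 2*n*t^2*d^3 - t^3*a^3*b - t^3*a^3*c - t^3*a^3*d -
        2*t^3*a^2*b^2 - 4*t^3*a^2*b*c - 4*t^3*a^2*b*d - 2*t^3*a^2*c^2 - 4*t^3*a^2*c*d -
        2*t^3*a^2*d^2 - t^3*a*b^3 - 4*t^3*a*b^2*c - 4*t^3*a*b^2*d - 4*t^3*a*b*c^2 - 9*t^3*a*b*c*d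
        - 4*t^3*a*b*d^2 - t^3*a*c^3 - 4*t^3*a*c^2*d - 4*t^3*a*c*d^2 - t^3*a*d^3 - t^3*b^3*c -
        t^3*b^3*d - 2*t^3*b^2*c^2 - 4*t^3*b^2*c*d - 2*t^3*b^2*d^2 - t^3*b*c^3 - 4*t^3*b*c^2*d -
        4*t^3*b*c*d^2 - t^3*b*d^3 - t^3*c^3*d - 2*t^3*c^2*d^2 - t^3*c*d^3) * ht)
    (fun φ h => by simp only [map_mul, map_add, h, zero_mul, add_zero, map_pow]; ring)]
  simp only [map_mul]
  ring

/-- The differenced character: `c = ± (k-1)! ∏ d`. -/
theorem dd_eq {q : ℕ} [NeZero q] (χ : DirichletCharacter ℂ q) (t : ℤ) (H : ℕ) (l : List ℤ)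
    (hk : l.length = 2 ∨ l.length = 3 ∨ l.length = 4) (ht : (t : ZMod q) ^ (l.length + 1) = 0)
    (hl : ∀ d ∈ l, d ≠ 0 ∧ |d| ≤ H) : ∃ c : ℤ, c ≠ 0 ∧ |c| ≤ 6 * H ^ 4 ∧ ∀ (n : ℤ) (w : ZMod q),
      (n : ZMod q) * w = 1 → DD t l (fun n => χ n) n =
        χ (1 + ((c * t ^ l.length : ℤ) : ZMod q) * w ^ l.length) := by
  have one : ∀ d ∈ l, (1 : ℤ) ≤ H := fun d hd => (Int.one_le_abs (hl d hd).1).trans (hl d hd).2
  match l, hk, ht, hl, one with
  | [a, b], _, ht, hl, one =>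
    have h1 := one a (by simp)
    obtain ⟨a0, a1⟩ := hl a (by simp)
    obtain ⟨b0, b1⟩ := hl b (by simp)
    refine ⟨-(a * b), by simp [a0, b0], ?_, fun n w hw => bub_2 χ t a b n w ht hw⟩
    rw [abs_neg, abs_mul]
    calc _ ≤ 6 * (H * H * H * H : ℤ) := by
          rw [show |a| * |b| = 1 * (|a| * |b| * 1 * 1) by ring]
          gcongr
          norm_num
      _ = _ := by ring
  | [a, b, c], _, ht, hl, one =>
    have h1 := one a (by simp)
    obtain ⟨a0, a1⟩ := hl a (by simp)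
    obtain ⟨b0, b1⟩ := hl b (by simp)
    obtain ⟨c0, c1⟩ := hl c (by simp)
    refine ⟨2 * (a * b * c), by simp [a0, b0, c0], ?_, fun n w hw => bub_3 χ t a b c n w ht hw⟩
    rw [abs_mul, abs_mul, abs_mul, abs_two]
    calc _ ≤ 6 * (H * H * H * H : ℤ) := by
          rw [show |a| * |b| * |c| = |a| * |b| * |c| * 1 by ring]
          gcongr
          norm_num
      _ = _ := by ring
  | [a, b, c, d], _, ht, hl, one =>
    have h1 := one a (by simp)
    obtain ⟨a0, a1⟩ := hl a (by simp)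
    obtain ⟨b0, b1⟩ := hl b (by simp)
    obtain ⟨c0, c1⟩ := hl c (by simp)
    obtain ⟨d0, d1⟩ := hl d (by simp)
    refine ⟨-(6 * (a * b * c * d)), by simp [a0, b0, c0, d0], ?_,
      fun n w hw => bub_4 χ t a b c d n w ht hw⟩
    rw [abs_neg, abs_mul, abs_mul, abs_mul, abs_mul, abs_of_pos (by norm_num : (0 : ℤ) < 6)]
    calc _ ≤ 6 * (H * H * H * H : ℤ) := by gcongr
      _ = _ := by ring
  | [], hk, _, _, _ => simp at hk
  | [_], hk, _, _, _ => simp at hk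
  | _ :: _ :: _ :: _ :: _ :: _, hk, _, _, _ => simp at hk

theorem bub_zero (t n : ℤ) (l : List ℤ) : ∀ f : ℤ → ℂ, f n = 0 → DD t l f n = 0 := by
  induction l with
  | nil => exact fun f h => h
  | cons d l ih => exact fun f h => ih _ (by simp [h])

theorem bub_norm (t : ℤ) (l : List ℤ) : ∀ f : ℤ → ℂ, (∀ n, ‖f n‖ ≤ 1) →
    ∀ n, ‖DD t l f n‖ ≤ 1 := by
  induction l with
  | nil => exact fun f h => h
  | cons d l ih => exact fun f h => ih _ fun n => buv_norm f h _ _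

theorem bub_full {q : ℕ} [NeZero q] (F : ZMod q → ℂ) : SS (fun n => F n) q = ∑ x, F x := by
  have h1 := buv_mul (fun n => F n) q (by simp) 1 0
  have h2 : SS (fun n => F n) q = ∑ n ∈ range q, F (n + 1) := by
    rw [SS, ← Finset.Ico_add_one_add_one_eq_Ioc, sum_Ico_eq_sum_range]
    simp [add_comm]
  rw [h2, ← Equiv.sum_comp (Equiv.addRight (1 : ZMod q)) F]
  refine sum_nbij' (fun k => (k : ZMod q)) (fun a => a.val) (by simp)
    (fun a _ => mem_range.2 (ZMod.val_lt a)) (fun k hk => ZMod.val_cast_of_lt (mem_range.1 hk))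
    (fun a _ => ZMod.natCast_zmod_val a) (by simp)

theorem coreB {q : ℕ} [NeZero q] (χ : DirichletCharacter ℂ q) (hχ : χ.IsPrimitive)
    (k t H N : ℕ) (hk : k = 2 ∨ k = 3 ∨ k = 4) (ht0 : 1 ≤ t) (hq : q ∣ t ^ (k + 1)) (β : ℝ)
    (h0 : 0 ≤ β) (h1 : β ≤ 1) (ht : (t * H : ℝ) ≤ β ^ 16 * N) (hH : 1 ≤ β ^ 16 * H)
    (hs : 6 * (H : ℝ) ^ 4 * (Nat.gcd q (t ^ k) : ℕ) * tu q ^ 6 ≤ β ^ 32 * q) :
    ‖SS (fun n => χ n) N‖ ≤ 13 * β * N := by
  classical
  have hb : β ^ 16 ≤ β ^ 2 ^ k := pow_le_pow_of_le_one h0 h1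
    ((Nat.pow_le_pow_right two_pos (by omega : k ≤ 4)).trans (by norm_num))
  have hN0 : (0 : ℝ) ≤ N := Nat.cast_nonneg _
  have hq0 : (0 : ℝ) < q := by exact_mod_cast NeZero.pos q
  have hH1 : (1 : ℝ) ≤ H := by
    rcases Nat.eq_zero_or_pos H with rfl | h
    · simp at hH; linarith
    · exact_mod_cast h
  refine bu_vdc t H N k _ (fun n => χ.norm_le_one _) β h0 h1
    (ht.trans (mul_le_mul_of_nonneg_right hb hN0))
    (hH.trans (mul_le_mul_of_nonneg_right hb (Nat.cast_nonneg _))) fun l hl hl' => ?_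
  subst hl
  have htz : ((t : ℤ) : ZMod q) ^ (l.length + 1) = 0 := by
    have := (ZMod.natCast_eq_zero_iff _ q).2 hq
    simpa using this
  obtain ⟨c, hc0, hc, hF⟩ := dd_eq χ t H l hk htz hl'
  set k := l.length
  set X : ℤ := c * (t : ℤ) ^ k with hX
  have hXt : (X : ZMod q) * t = 0 := by
    rw [hX]
    push_cast at htz ⊢
    rw [mul_assoc, ← pow_succ, htz, mul_zero]
  set F : ZMod q → ℂ := fun x => if IsUnit x then χ (1 + (X : ZMod q) * x⁻¹ ^ k) else 0 with hFd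
  have hDF : DD t l (fun n => χ n) = fun n : ℤ => F n := by
    funext n
    by_cases hn : IsUnit (n : ZMod q)
    · rw [hF n _ (ZMod.mul_inv_of_unit _ hn), hFd]
      simp only [if_pos hn]
    · rw [bub_zero t n l _ (χ.map_nonunit hn), hFd]
      simp only [if_neg hn]
  have hnil : IsNilpotent (t : ZMod q) := ⟨k + 1, by simpa using htz⟩
  have hper : ∀ x, F (x + t) = F x := fun x => by
    by_cases hx : IsUnit x
    · have hx' : IsUnit (x + t) := hnil.isUnit_add_left_of_commute hx (Commute.all _ _)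
      simp only [hFd, if_pos hx, if_pos hx']
      congr 2
      have a1 := ZMod.mul_inv_of_unit _ hx
      have a2 := ZMod.mul_inv_of_unit _ hx'
      obtain ⟨y, hy⟩ := sub_dvd_pow_sub_pow (x + t)⁻¹ x⁻¹ k
      linear_combination (X : ZMod q) * hy - (x⁻¹ * (x + t)⁻¹ * y) * hXt +
        X * y * x⁻¹ * a2 - X * y * (x + t)⁻¹ * a1
    · have hx' : ¬ IsUnit (x + t) := fun h => hx (by
        simpa using hnil.neg.isUnit_add_left_of_commute h (Commute.all _ _))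
      simp only [hFd, if_neg hx, if_neg hx']
  have hT : ∑ x, F x = ∑ w : (ZMod q)ˣ, χ (1 + (X : ZMod q) * (w : ZMod q) ^ k) := by
    rw [hFd, ← sum_filter]
    refine (sum_bij (fun (w : (ZMod q)ˣ) _ => ((w⁻¹ : (ZMod q)ˣ) : ZMod q)) (by simp)
      (fun a _ b _ h => inv_injective (Units.ext h)) (fun x hx => ?_) fun w _ => ?_).symm
    · exact ⟨(mem_filter.1 hx).2.unit⁻¹, mem_univ _, by simp⟩
    · rw [ZMod.inv_coe_unit, inv_inv]
  have hXX : (X : ZMod q) * X = 0 := by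
    obtain ⟨j, hj⟩ : ∃ j, k = j + 1 := ⟨k - 1, by omega⟩
    have : (X : ZMod q) = t * (c * t ^ j) := by rw [hX, hj]; push_cast; ring
    nth_rw 2 [this]
    rw [← mul_assoc, hXt, zero_mul]
  have h2 := T_le χ hχ k (by omega) (by omega) X hXX
  have h3 : ((Int.gcd q X : ℕ) : ℝ) ≤ 6 * (H : ℝ) ^ 4 * (Nat.gcd q (t ^ k) : ℕ) := by
    have e1 : Int.gcd q X ≤ c.natAbs * Nat.gcd q (t ^ k) := by
      refine Nat.le_of_dvd (Nat.mul_pos (Int.natAbs_pos.2 hc0)
        (Nat.gcd_pos_of_pos_left _ (NeZero.pos q))) ?_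
      rw [Int.gcd, hX, Int.natAbs_mul, Int.natAbs_pow, Int.natAbs_natCast, Int.natAbs_natCast]
      exact (Nat.gcd_mul_right_dvd_mul_gcd _ _ _).trans
        (Nat.mul_dvd_mul_right (Nat.gcd_dvd_right _ _) _)
    have e2 : c.natAbs ≤ 6 * H ^ 4 := by
      rw [← Int.natCast_natAbs] at hc
      exact_mod_cast hc
    exact_mod_cast e1.trans (Nat.mul_le_mul_right _ e2)
  have h4 : ‖∑ x, F x‖ ≤ β ^ 16 * q := by
    rw [hT]
    refine le_of_sq_le_sq (h2.trans ?_) (by positivity)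
    calc _ = q * ((Int.gcd q X : ℕ) * tu q ^ 6) := by ring
      _ ≤ q * (β ^ 32 * q) := mul_le_mul_of_nonneg_left
          ((mul_le_mul_of_nonneg_right h3 (by positivity)).trans hs) hq0.le
      _ = _ := by ring
  have h5 := bu_per (fun n => F n) (fun n => by
      rw [← congrFun hDF n]; exact bub_norm t l _ (fun n => χ.norm_le_one _) n) t q N ht0
    (NeZero.pos q) (fun n => by simpa using hper n) (by simp)
  rw [bub_full] at h5
  rw [hDF]
  have h6 : (N : ℝ) / q * ‖∑ x, F x‖ ≤ β ^ 16 * N := by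
    refine (mul_le_mul_of_nonneg_left h4 (by positivity)).trans (le_of_eq ?_)
    field_simp
  have h7 : (t : ℝ) ≤ t * H := le_mul_of_one_le_right (Nat.cast_nonneg _) hH1
  have h8 := mul_le_mul_of_nonneg_right hb hN0
  have h9 : 0 ≤ β ^ 2 ^ k * N := by positivity
  linarith

end Pool.Agent.Lib.MP_778b46_nt.GX.Bu
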