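import Pool.Agent.Lib.MP_778b46_nt.GX.Bu0

set_option autoImplicit false

noncomputable section

namespace Pool.Agent.Lib.MP_778b46_nt.GX.Bu

open Finset

theorem bu_dec (q : ℕ) (hq : q ≠ 0) : ∃ q1 q2 R : ℕ, q = q1 * q2 ∧ q1.Coprime q2 ∧ CubeFree q1 ∧
    q2 ∣ R ^ 5 ∧ R ^ 3 ∣ q2 := by
  have h1 : CubeFree 1 := fun p hp h =>
    hp.one_lt.ne' (Nat.dvd_one.1 ((dvd_pow_self p three_ne_zero).trans h))
  induction q using Nat.recOnPosPrimePosCoprime with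
  | zero => exact absurd rfl hq
  | one => exact ⟨1, 1, 1, rfl, by simp, h1, by simp, by simp⟩
  | prime_pow p a hp ha =>
    by_cases h : a ≤ 2
    · refine ⟨p ^ a, 1, 1, by simp, by simp, fun l hl hd => ?_, by simp, by simp⟩
      have h2 : l = p := (Nat.prime_dvd_prime_iff_eq hl hp).1
        (hl.dvd_of_dvd_pow ((dvd_pow_self l three_ne_zero).trans hd))
      rw [h2, Nat.pow_dvd_pow_iff_le_right hp.one_lt] at hd
      omega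
    · refine ⟨1, p ^ a, p ^ (a / 3), by simp, by simp, h1, ?_, ?_⟩ <;>
        rw [← pow_mul] <;> exact pow_dvd_pow _ (by omega)
  | coprime a b ha hb hab iha ihb =>
    obtain ⟨a1, a2, R, rfl, h2, h3, h4, h5⟩ := iha (by omega)
    obtain ⟨b1, b2, S, rfl, g2, g3, g4, g5⟩ := ihb (by omega)
    have k1 := Nat.coprime_mul_iff_left.1 hab
    have k2 := Nat.coprime_mul_iff_right.1 k1.1
    have k3 := Nat.coprime_mul_iff_right.1 k1.2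
    refine ⟨a1 * b1, a2 * b2, R * S, by ring, ?_, fun l hl hd => ?_, ?_, ?_⟩
    · exact Nat.Coprime.mul_left (h2.mul_right k2.2) (k3.1.symm.mul_right g2)
    · by_cases h : l ∣ a1
      · have : (l ^ 3).Coprime b1 := (k2.1.coprime_dvd_left h).pow_left 3
        exact h3 l hl (this.dvd_of_dvd_mul_right hd)
      · have : (l ^ 3).Coprime a1 := ((hl.coprime_iff_not_dvd).2 h).pow_left 3
        exact g3 l hl (this.dvd_of_dvd_mul_left hd)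
    · rw [mul_pow]; exact mul_dvd_mul h4 g4
    · rw [mul_pow]; exact mul_dvd_mul h5 g5

theorem bud_sig (q x : ℕ) (hq : q ≠ 0) : ∃ s : ℕ, 1 ≤ s ∧ Nat.gcd q x * s = q ∧ q ∣ x * s := by
  obtain ⟨s, hs⟩ := Nat.gcd_dvd_left q x
  refine ⟨s, Nat.pos_of_ne_zero (by rintro rfl; simp at hs; exact hq hs), hs.symm, ?_⟩
  conv_lhs => rw [hs]
  exact Nat.mul_dvd_mul_right (Nat.gcd_dvd_right q x) s

theorem bu_select (q ρ : ℕ) (hq : q ≠ 0) (hρ : 1 ≤ ρ) (h5 : q ∣ ρ ^ 5) (W : ℝ) (hW : 1 ≤ W)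
    (h : (ρ : ℝ) ^ 2 * W ^ 9 ≤ q) : ∃ k t : ℕ, (k = 2 ∨ k = 3 ∨ k = 4) ∧ 1 ≤ t ∧
      q ∣ t ^ (k + 1) ∧ (t : ℝ) ≤ ρ * W ^ 4 ∧ (Nat.gcd q (t ^ k) : ℕ) * W ≤ q := by
  obtain ⟨s4, a4, b4, c4⟩ := bud_sig q (ρ ^ 4) hq
  obtain ⟨s3, a3, b3, c3⟩ := bud_sig q (ρ ^ 3) hq
  have hρ0 : (0 : ℝ) ≤ ρ := Nat.cast_nonneg _
  have hW4 : W ≤ W ^ 4 := le_self_pow₀ hW (by norm_num)
  by_cases h4 : W ≤ s4
  · refine ⟨4, ρ, by simp, hρ, h5, le_mul_of_one_le_right hρ0 (hW.trans hW4), ?_⟩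
    calc _ ≤ (Nat.gcd q (ρ ^ 4) : ℕ) * (s4 : ℝ) := by gcongr
      _ = q := by exact_mod_cast b4
  by_cases h3 : W ^ 4 ≤ s3
  · refine ⟨3, ρ * s4, by simp, Nat.mul_pos hρ a4, c4.trans ⟨s4 ^ 3, by ring⟩, ?_, ?_⟩
    · push_cast
      exact mul_le_mul_of_nonneg_left ((not_le.1 h4).le.trans hW4) hρ0
    · have e1 : Nat.gcd q ((ρ * s4) ^ 3) ≤ Nat.gcd q (ρ ^ 3) * s4 ^ 3 := by
        rw [mul_pow]
        refine Nat.le_of_dvd (Nat.mul_pos (Nat.gcd_pos_of_pos_left _ (by omega)) (by positivity)) ?_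
        exact (Nat.gcd_mul_right_dvd_mul_gcd _ _ _).trans
          (Nat.mul_dvd_mul_left _ (Nat.gcd_dvd_right _ _))
      have e2 : ((Nat.gcd q ((ρ * s4) ^ 3) : ℕ) : ℝ) ≤ (Nat.gcd q (ρ ^ 3) : ℕ) * (s4 : ℝ) ^ 3 := by
        exact_mod_cast e1
      have e3 := (not_le.1 h4).le
      calc _ ≤ (Nat.gcd q (ρ ^ 3) : ℕ) * W ^ 3 * W := by
            refine mul_le_mul_of_nonneg_right (e2.trans ?_) (by linarith)
            gcongr
        _ = (Nat.gcd q (ρ ^ 3) : ℕ) * W ^ 4 := by ring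
        _ ≤ (Nat.gcd q (ρ ^ 3) : ℕ) * (s3 : ℝ) := by gcongr
        _ = q := by exact_mod_cast b3
  · have e3 := (not_le.1 h3).le
    have e4 : ((ρ * s3 : ℕ) : ℝ) ≤ ρ * W ^ 4 := by
      push_cast
      exact mul_le_mul_of_nonneg_left e3 hρ0
    refine ⟨2, ρ * s3, by simp, Nat.mul_pos hρ a3, c3.trans ⟨s3 ^ 2, by ring⟩, e4, ?_⟩
    have e1 : ((Nat.gcd q ((ρ * s3) ^ 2) : ℕ) : ℝ) ≤ ((ρ * s3 : ℕ) : ℝ) ^ 2 := by
      exact_mod_cast Nat.gcd_le_right q (by positivity)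
    calc _ ≤ (ρ * W ^ 4) ^ 2 * W := by
          refine mul_le_mul_of_nonneg_right (e1.trans ?_) (by linarith)
          gcongr
      _ = ρ ^ 2 * W ^ 9 := by ring
      _ ≤ q := h

end Pool.Agent.Lib.MP_778b46_nt.GX.Bu
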