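import Pool.Agent.Lib.MP_778b46_nt.GX.BuK
import Pool.Agent.Lib.MP_c03ca8_nt.Q.Char

set_option autoImplicit false

noncomputable section

namespace Pool.Agent.Lib.MP_778b46_nt.GX.Bu

open Finset

theorem bue_phi {q : ℕ} (hq : q ≠ 0) :
    1 ≤ (2 : ℝ) ^ q.primeFactors.card * ((Nat.totient q : ℝ) / q) := by
  have hq0 : (q : ℝ) ≠ 0 := by exact_mod_cast hq
  have h2 := congrArg (fun x : ℚ => (x : ℝ)) (Nat.totient_eq_mul_prod_factors q)
  simp only [Rat.cast_natCast, Rat.cast_mul, Rat.cast_prod, Rat.cast_sub, Rat.cast_one,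
    Rat.cast_inv] at h2
  rw [h2, mul_div_cancel_left₀ _ hq0, ← prod_const, ← prod_mul_distrib]
  refine prod_induction _ (fun x : ℝ => 1 ≤ x) (fun a b => one_le_mul_of_one_le_of_one_le) le_rfl
    fun p hp => ?_
  have h3 : (2 : ℝ) ≤ p := by exact_mod_cast (Nat.prime_of_mem_primeFactors hp).two_le
  have h4 : (p : ℝ)⁻¹ ≤ 2⁻¹ := inv_anti₀ (by norm_num) h3
  linarith

theorem bue_two {q : ℕ} (hq : q ≠ 0) : (2 : ℝ) ^ q.primeFactors.card ≤ tu q := by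
  unfold tu
  have h : 2 ^ q.primeFactors.card ≤ q.divisors.card := by
    rw [Nat.card_divisors hq]
    refine pow_card_le_prod _ _ _ fun p hp => ?_
    have := (Nat.prime_of_mem_primeFactors hp).factorization_pos_of_dvd hq
      (Nat.dvd_of_mem_primeFactors hp)
    omega
  exact_mod_cast h

theorem cop_count (q A : ℕ) (hq : q ≠ 0) (hA : 1 ≤ A) :
    (A : ℝ) ≤ 2 * tu q ^ 2 * (((Ioc 0 A).filter fun a => Nat.Coprime a q).card : ℝ) := by
  have h1 := (abs_le.1 (Pool.Agent.Lib.MP_c03ca8_nt.Q.card_coprime (q := q) (by omega)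
    (Nat.zero_le A))).1
  have hK : (1 : ℝ) ≤ (((Ioc 0 A).filter fun a => Nat.Coprime a q).card : ℝ) := by
    exact_mod_cast Finset.card_pos.2 ⟨1, by simp [hA]⟩
  have h2 := bue_phi hq
  have h3 := bue_two hq
  have hw : (1 : ℝ) ≤ 2 ^ q.primeFactors.card := one_le_pow₀ (by norm_num)
  generalize (((Ioc 0 A).filter fun a => Nat.Coprime a q).card : ℝ) = K at *
  generalize (2 : ℝ) ^ q.primeFactors.card = w at *
  generalize (Nat.totient q : ℝ) / q = y at *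
  generalize tu q = T at *
  have hA0 : (0 : ℝ) ≤ A := Nat.cast_nonneg A
  simp only [Nat.cast_zero, sub_zero] at h1
  have h4 : (A : ℝ) ≤ w * (y * A) := by nlinarith
  have h5 : w * (y * A) ≤ w * (K + w) := mul_le_mul_of_nonneg_left (by linarith) (by linarith)
  have h6 : w ^ 2 ≤ T ^ 2 := pow_le_pow_left₀ (by linarith) h3 2
  have h7 : w * K ≤ w ^ 2 * K := mul_le_mul_of_nonneg_right (by nlinarith) (by linarith)
  have h8 : w ^ 2 ≤ w ^ 2 * K := le_mul_of_one_le_right (by positivity) hK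
  have h9 : w ^ 2 * K ≤ T ^ 2 * K := mul_le_mul_of_nonneg_right h6 (by linarith)
  nlinarith

theorem bue_class (q M : ℕ) [NeZero q] (c : ZMod q) :
    (((Ioc 0 M).filter fun v : ℕ => (v : ZMod q) = c).card : ℝ) ≤ M / q + 1 := by
  have h1 : ((Ioc 0 M).filter fun v : ℕ => (v : ZMod q) = c).card ≤ (range (M / q + 1)).card := by
    refine card_le_card_of_injOn (fun v => v / q) (fun v hv => ?_) fun v hv w hw h => ?_
    · have h2 := (mem_Ioc.1 (mem_filter.1 (mem_coe.1 hv)).1).2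
      exact mem_coe.2 (mem_range.2 (Nat.lt_succ_of_le (Nat.div_le_div_right h2)))
    · have h2 := (mem_filter.1 (mem_coe.1 hv)).2
      have h3 := (mem_filter.1 (mem_coe.1 hw)).2
      have h4 : v % q = w % q := (ZMod.natCast_eq_natCast_iff' v w q).1 (h2.trans h3.symm)
      have h5 : v / q = w / q := h
      rw [← Nat.div_add_mod v q, ← Nat.div_add_mod w q, h4, h5]
  rw [card_range] at h1
  have h2 : ((M / q : ℕ) : ℝ) ≤ M / q := Nat.cast_div_le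
  have h3 : (((Ioc 0 M).filter fun v : ℕ => (v : ZMod q) = c).card : ℝ) ≤ ((M / q + 1 : ℕ) : ℝ) := by
    exact_mod_cast h1
  push_cast at h3
  linarith

theorem bue_cnt (q N A : ℕ) [NeZero q] (D : ℝ) (hD0 : 0 ≤ D)
    (hD : ∀ m : ℕ, 1 ≤ m → m ≤ N * A → tu m ≤ D) (F : Finset ℕ) (hF : F ⊆ Ioc 0 A) (c : ZMod q) :
    ∑ n ∈ Ioc 0 N, ∑ a ∈ F, (if ((n * a : ℕ) : ZMod q) = c then (1 : ℝ) else 0) ≤
      (N * A / q + 1) * D := by
  rw [← sum_product' (f := fun n a : ℕ => if ((n * a : ℕ) : ZMod q) = c then (1 : ℝ) else 0),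
    sum_boole]
  have hm : ∀ p ∈ (Ioc 0 N ×ˢ F).filter (fun p : ℕ × ℕ => ((p.1 * p.2 : ℕ) : ZMod q) = c),
      p.1 * p.2 ∈ (Ioc 0 (N * A)).filter fun v : ℕ => (v : ZMod q) = c := by
    intro p hp
    obtain ⟨h1, h2⟩ := mem_filter.1 hp
    obtain ⟨h3, h4⟩ := mem_product.1 h1
    have h5 := mem_Ioc.1 h3
    have h6 := mem_Ioc.1 (hF h4)
    exact mem_filter.2 ⟨mem_Ioc.2 ⟨Nat.mul_pos h5.1 h6.1, Nat.mul_le_mul h5.2 h6.2⟩, h2⟩
  rw [card_eq_sum_card_fiberwise (f := fun p : ℕ × ℕ => p.1 * p.2) fun p hp => hm p hp]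
  push_cast
  refine (sum_le_card_nsmul _ _ D fun v hv => ?_).trans ?_
  · have h1 := mem_Ioc.1 (mem_filter.1 hv).1
    refine le_trans ?_ (hD v h1.1 h1.2)
    unfold tu
    refine Nat.cast_le.2 (card_le_card_of_injOn Prod.fst (fun p hp => ?_) fun p hp p' hp' h => ?_)
    · have h2 := (mem_filter.1 (mem_coe.1 hp)).2
      exact mem_coe.2 (Nat.mem_divisors.2 ⟨Dvd.intro _ h2, h1.1.ne'⟩)
    · have h2 := (mem_filter.1 (mem_coe.1 hp)).2
      have h3 := (mem_filter.1 (mem_coe.1 hp')).2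
      refine Prod.ext h ?_
      have h4 : p.1 ≠ 0 := by
        intro h0
        rw [h0, zero_mul] at h2
        omega
      apply Nat.eq_of_mul_eq_mul_left (Nat.pos_of_ne_zero h4)
      rw [h2, h, h3]
  · rw [nsmul_eq_mul]
    refine mul_le_mul_of_nonneg_right ?_ hD0
    have := bue_class q (N * A) c
    push_cast at this
    exact this

theorem bue_cs {α β : Type} [Fintype β] [DecidableEq β] (P : Finset α) (φ : α → β) (g : β → ℝ) :
    (∑ p ∈ P, g (φ p)) ^ 2 ≤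
      (∑ p ∈ P, ∑ p' ∈ P, if φ p = φ p' then (1 : ℝ) else 0) * ∑ x, g x ^ 2 := by
  have e1 : ∑ p ∈ P, g (φ p) = ∑ x, (∑ p ∈ P, if φ p = x then (1 : ℝ) else 0) * g x := by
    simp only [sum_mul]
    rw [sum_comm]
    refine sum_congr rfl fun p _ => ?_
    simp
  have e2 : ∑ x, (∑ p ∈ P, if φ p = x then (1 : ℝ) else 0) ^ 2 =
      ∑ p ∈ P, ∑ p' ∈ P, if φ p = φ p' then (1 : ℝ) else 0 := by
    simp only [pow_two, sum_mul_sum]
    rw [sum_comm]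
    refine sum_congr rfl fun p _ => ?_
    rw [sum_comm]
    refine sum_congr rfl fun p' _ => ?_
    simp only [ite_mul, one_mul, zero_mul, sum_ite_eq, mem_univ, if_true]
    simp only [eq_comm]
  rw [e1, ← e2]
  exact sum_mul_sq_le_sq_mul_sq _ _ _

/-- Cauchy-Schwarz and the multiplicative energy: `n a' ≡ n' a` modulo `q`. -/
theorem energy (q N A R : ℕ) [NeZero q] (hR : R.Coprime q) (D : ℝ) (hD0 : 0 ≤ D)
    (hD : ∀ m : ℕ, 1 ≤ m → m ≤ N * A → tu m ≤ D) (g : ZMod q → ℝ) :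
    (∑ n ∈ Ioc 0 N, ∑ a ∈ (Ioc 0 A).filter (fun a => Nat.Coprime a q),
        g ((n : ZMod q) * ((a * R : ℕ) : ZMod q)⁻¹)) ^ 2 ≤
      N * (((Ioc 0 A).filter fun a => Nat.Coprime a q).card : ℝ) * (N * A / q + 1) * D *
        ∑ x, g x ^ 2 := by
  have hF : (Ioc 0 A).filter (fun a => Nat.Coprime a q) ⊆ Ioc 0 A := filter_subset _ _
  have hc : ∀ a ∈ (Ioc 0 A).filter (fun a => Nat.Coprime a q), Nat.Coprime a q :=
    fun a ha => (mem_filter.1 ha).2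
  generalize (Ioc 0 A).filter (fun a => Nat.Coprime a q) = F at hF hc ⊢
  have h1 := bue_cs (Ioc 0 N ×ˢ F)
    (fun p : ℕ × ℕ => (p.1 : ZMod q) * ((p.2 * R : ℕ) : ZMod q)⁻¹) g
  simp only [sum_product] at h1
  refine h1.trans (mul_le_mul_of_nonneg_right ?_ (sum_nonneg fun x _ => sq_nonneg _))
  have h2 : ∀ n ∈ Ioc 0 N, ∑ a ∈ F, ∑ n' ∈ Ioc 0 N, ∑ a' ∈ F,
      (if (n : ZMod q) * ((a * R : ℕ) : ZMod q)⁻¹ = (n' : ZMod q) * ((a' * R : ℕ) : ZMod q)⁻¹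
        then (1 : ℝ) else 0) ≤ F.card * ((N * A / q + 1) * D) := by
    intro n _
    rw [sum_comm]
    have e : ∀ n' ∈ Ioc 0 N, ∑ a ∈ F, ∑ a' ∈ F,
        (if (n : ZMod q) * ((a * R : ℕ) : ZMod q)⁻¹ = (n' : ZMod q) * ((a' * R : ℕ) : ZMod q)⁻¹
          then (1 : ℝ) else 0) ≤ ∑ a' ∈ F, ∑ a ∈ F,
          (if ((n' * a : ℕ) : ZMod q) = ((n * a' : ℕ) : ZMod q) then (1 : ℝ) else 0) := by
      intro n' _
      rw [sum_comm]
      refine sum_le_sum fun a' ha' => sum_le_sum fun a ha => ?_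
      split_ifs with h3 h4 h4
      · exact le_rfl
      · exfalso
        apply h4
        have k1 := ZMod.coe_mul_inv_eq_one (a * R) ((hc a ha).mul_left hR)
        have k2 := ZMod.coe_mul_inv_eq_one (a' * R) ((hc a' ha').mul_left hR)
        generalize ((a * R : ℕ) : ZMod q)⁻¹ = u at k1 h3
        generalize ((a' * R : ℕ) : ZMod q)⁻¹ = u' at k2 h3
        push_cast at k1 k2 ⊢
        linear_combination (-(n' : ZMod q) * a) * k2 + ((n : ZMod q) * a') * k1 -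
          ((a : ZMod q) * a' * R) * h3
      · exact zero_le_one
      · exact le_rfl
    refine (sum_le_sum e).trans ?_
    rw [sum_comm, ← nsmul_eq_mul]
    exact sum_le_card_nsmul _ _ _ fun a' _ => bue_cnt q N A D hD0 hD F hF _
  refine (sum_le_card_nsmul _ _ _ h2).trans (le_of_eq ?_)
  rw [nsmul_eq_mul, Nat.card_Ioc, Nat.sub_zero]
  ring

theorem bue_avg (f : ℤ → ℂ) (hf : ∀ n, ‖f n‖ ≤ 1) (F : Finset ℕ) (R H N : ℕ) (b : ℝ)
    (hb : ∀ a ∈ F, ∀ h ∈ Icc 1 H, ((a * R * h : ℕ) : ℝ) ≤ b) :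
    F.card * H * ‖SS f N‖ ≤
      ∑ n ∈ Ioc 0 N, ∑ a ∈ F, ‖∑ h ∈ Icc 1 H, f (n + (a * R * h : ℕ))‖ + F.card * H * (2 * b) := by
  have e1 : ∑ a ∈ F, ∑ h ∈ Icc 1 H, SS (fun n => f (n + (a * R * h : ℕ))) N =
      ∑ n ∈ Ioc 0 N, ∑ a ∈ F, ∑ h ∈ Icc 1 H, f (n + (a * R * h : ℕ)) := by
    unfold SS
    rw [sum_comm (s := Ioc 0 N)]
    exact sum_congr rfl fun a _ => sum_comm
  have e2 : ((F.card * H : ℕ) : ℂ) * SS f N =
      ∑ a ∈ F, ∑ h ∈ Icc 1 H, SS (fun n => f (n + (a * R * h : ℕ))) N -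
        ∑ a ∈ F, ∑ h ∈ Icc 1 H, (SS (fun n => f (n + (a * R * h : ℕ))) N - SS f N) := by
    simp only [sum_sub_distrib, sum_const, Nat.card_Icc, Nat.add_sub_cancel, nsmul_eq_mul]
    push_cast
    ring
  have e3 : (F.card : ℝ) * H * ‖SS f N‖ = ‖((F.card * H : ℕ) : ℂ) * SS f N‖ := by
    rw [norm_mul, Complex.norm_natCast]
    push_cast
    ring
  rw [e3, e2, e1]
  refine (norm_sub_le _ _).trans (add_le_add ?_ ?_)
  · exact (norm_sum_le _ _).trans (sum_le_sum fun n _ => norm_sum_le _ _)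
  · refine (norm_sum_le _ _).trans ((sum_le_card_nsmul _ _ (H * (2 * b)) fun a ha => ?_).trans ?_)
    · refine (norm_sum_le _ _).trans ((sum_le_card_nsmul _ _ (2 * b) fun h hh => ?_).trans ?_)
      · have := hb a ha h hh
        exact (ss_shift f hf _ N).trans (by linarith)
      · rw [nsmul_eq_mul, Nat.card_Icc, Nat.add_sub_cancel]
    · rw [nsmul_eq_mul, mul_assoc]

theorem coreA {q1 q2 : ℕ} [NeZero q1] (χ1 : DirichletCharacter ℂ q1)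
    (χ2 : DirichletCharacter ℂ q2) (r R A H N : ℕ) (hr : 1 ≤ r) (hA : 1 ≤ A) (hH : 1 ≤ H)
    (hR : R.Coprime q1) (h5 : q2 ∣ R ^ 5) (D M β : ℝ) (hD0 : 0 ≤ D)
    (hD : ∀ m : ℕ, 1 ≤ m → m ≤ N * A → tu m ≤ D)
    (hM : ∑ c ∈ box (Fin r ⊕ Fin r) H, ‖cs χ1 (ee2 r) c‖ ≤ M) (hβ : 0 ≤ β)
    (h1 : (A * R * H : ℝ) ≤ β * N)
    (h2 : 2 * tu q1 ^ 2 * (2 ^ r * (H : ℝ) ^ 4 + 1) ^ 5 * (N * A / q1 + 1) * D * M ≤
      β ^ (2 * r) * (N * A * (H : ℝ) ^ (2 * r))) :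
    ‖SS (fun n => χ1 n * χ2 n) N‖ ≤ 3 * β * N := by
  have hq : q1 ≠ 0 := NeZero.ne q1
  have c1 := cop_count q1 A hq hA
  have hG : ∀ x, 0 ≤ GG χ1 r H x := fun x => sum_nonneg fun _ _ => sq_nonneg _
  obtain ⟨B, hB⟩ : ∃ B : ℝ, B = (2 ^ r * (H : ℝ) ^ 4 + 1) ^ 5 := ⟨_, rfl⟩
  have hB0 : 0 ≤ B := by rw [hB]; positivity
  have c2 := energy q1 N A R hR D hD0 hD fun x => √(B * GG χ1 r H x)
  have c3 : ∑ x, √(B * GG χ1 r H x) ^ 2 ≤ B * M := by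
    rw [sum_congr rfl fun x _ => Real.sq_sqrt (mul_nonneg hB0 (hG x)), ← mul_sum]
    exact mul_le_mul_of_nonneg_left ((GG_sum χ1 r H).trans hM) hB0
  have hK : 0 < ((Ioc 0 A).filter fun a => Nat.Coprime a q1).card :=
    Finset.card_pos.2 ⟨1, by simp [hA]⟩
  have hF : (Ioc 0 A).filter (fun a => Nat.Coprime a q1) ⊆ Ioc 0 A := filter_subset _ _
  have hc : ∀ a ∈ (Ioc 0 A).filter (fun a => Nat.Coprime a q1), Nat.Coprime a q1 :=
    fun a ha => (mem_filter.1 ha).2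
  generalize (Ioc 0 A).filter (fun a => Nat.Coprime a q1) = F at hF hc hK c1 c2
  have hf : ∀ n : ℤ, ‖χ1 n * χ2 n‖ ≤ 1 := fun n => by
    rw [norm_mul]
    exact mul_le_one₀ (χ1.norm_le_one _) (norm_nonneg _) (χ2.norm_le_one _)
  have c4 := bue_avg (fun n : ℤ => χ1 n * χ2 n) hf F R H N (β * N) fun a ha h hh => by
    refine le_trans ?_ h1
    exact_mod_cast Nat.mul_le_mul (Nat.mul_le_mul_right R (mem_Ioc.1 (hF ha)).2) (mem_Icc.1 hh).2
  obtain ⟨T, hT⟩ : ∃ T : ℕ → ℕ → ℝ, T = fun n a : ℕ => ‖∑ h ∈ Icc 1 H,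
      χ1 (((n : ℤ) + (a * R * h : ℕ) : ℤ) : ZMod q1) * χ2 (((n : ℤ) + (a * R * h : ℕ) : ℤ) : ZMod q2)‖ :=
    ⟨_, rfl⟩
  have c5 : (F.card : ℝ) * H * ‖SS (fun n : ℤ => χ1 n * χ2 n) N‖ ≤
      ∑ n ∈ Ioc 0 N, ∑ a ∈ F, T n a + F.card * H * (2 * (β * N)) := by
    rw [hT]
    exact c4
  have T0 : ∀ n a, 0 ≤ T n a := fun n a => by rw [hT]; exact norm_nonneg _
  have c6 : ∀ n : ℕ, ∀ a ∈ F, T n a ^ r ≤
      √(B * GG χ1 r H ((n : ZMod q1) * ((a * R : ℕ) : ZMod q1)⁻¹)) := by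
    intro n a ha
    have k := keys χ1 χ2 r H (a * R) hH ((hc a ha).mul_left hR)
      (h5.trans (pow_dvd_pow_of_dvd (dvd_mul_left R a) 5)) (n : ℤ)
    rw [Int.cast_natCast, ← hB] at k
    apply Real.le_sqrt_of_sq_le
    rw [← pow_mul, mul_comm r 2, hT]
    exact k
  obtain ⟨m, rfl⟩ : ∃ m, r = m + 1 := ⟨r - 1, by omega⟩
  have c7 := pow_sum_le_card_mul_sum_pow (s := Ioc 0 N ×ˢ F) (f := fun p : ℕ × ℕ => T p.1 p.2)
    (fun p _ => T0 _ _) m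
  simp only [sum_product, card_product, Nat.card_Ioc, Nat.sub_zero, Nat.cast_mul] at c7
  have c8 : ∑ n ∈ Ioc 0 N, ∑ a ∈ F, T n a ^ (m + 1) ≤ ∑ n ∈ Ioc 0 N, ∑ a ∈ F,
      √(B * GG χ1 (m + 1) H ((n : ZMod q1) * ((a * R : ℕ) : ZMod q1)⁻¹)) :=
    sum_le_sum fun n _ => sum_le_sum fun a ha => c6 n a ha
  have U0 : 0 ≤ ∑ n ∈ Ioc 0 N, ∑ a ∈ F, T n a := sum_nonneg fun n _ => sum_nonneg fun a _ => T0 _ _
  rw [← hB] at h2
  have t0 : 0 < tu q1 := zero_lt_one.trans_le (tu_pos hq)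
  have hK' : (0 : ℝ) < F.card := by exact_mod_cast hK
  have hH' : (0 : ℝ) < H := by exact_mod_cast hH
  have hN : (0 : ℝ) ≤ N := Nat.cast_nonneg N
  have hE : (0 : ℝ) ≤ N * A / q1 + 1 := by positivity
  generalize ∑ n ∈ Ioc 0 N, ∑ a ∈ F, T n a = U at c5 c7 U0
  generalize ∑ n ∈ Ioc 0 N, ∑ a ∈ F, T n a ^ (m + 1) = V at c7 c8
  generalize ∑ n ∈ Ioc 0 N, ∑ a ∈ F,
    √(B * GG χ1 (m + 1) H ((n : ZMod q1) * ((a * R : ℕ) : ZMod q1)⁻¹)) = W at c2 c8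
  generalize ∑ x, √(B * GG χ1 (m + 1) H x) ^ 2 = Y at c2 c3
  generalize (N * A / q1 + 1 : ℝ) = E at c2 h2 hE
  generalize (F.card : ℝ) = K at c1 c2 c5 c7 hK'
  generalize ‖SS (fun n : ℤ => χ1 n * χ2 n) N‖ = S at c5 ⊢
  have d1 : U ^ (m + 1) ≤ (N * K) ^ m * W :=
    c7.trans (mul_le_mul_of_nonneg_left c8 (by positivity))
  have d2 : W ^ 2 ≤ N * K * E * D * (B * M) :=
    c2.trans (mul_le_mul_of_nonneg_left c3 (by positivity))
  have d3 : E * D * (B * M) ≤ β ^ (2 * (m + 1)) * (N * K * (H : ℝ) ^ (2 * (m + 1))) := by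
    have d4 : β ^ (2 * (m + 1)) * (N * A * (H : ℝ) ^ (2 * (m + 1))) ≤
        β ^ (2 * (m + 1)) * (N * (2 * tu q1 ^ 2 * K) * (H : ℝ) ^ (2 * (m + 1))) := by gcongr
    have d5 : 0 < 2 * tu q1 ^ 2 := by positivity
    refine le_of_mul_le_mul_left ?_ d5
    calc 2 * tu q1 ^ 2 * (E * D * (B * M)) = 2 * tu q1 ^ 2 * B * E * D * M := by ring
      _ ≤ _ := h2.trans d4
      _ = _ := by ring
  have d6 : U ^ (2 * (m + 1)) ≤ (β * N * K * H) ^ (2 * (m + 1)) := by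
    calc U ^ (2 * (m + 1)) = (U ^ (m + 1)) ^ 2 := by ring
      _ ≤ ((N * K) ^ m * W) ^ 2 := pow_le_pow_left₀ (by positivity) d1 2
      _ = (N * K) ^ (2 * m) * W ^ 2 := by ring
      _ ≤ (N * K) ^ (2 * m) * (N * K * E * D * (B * M)) :=
        mul_le_mul_of_nonneg_left d2 (by positivity)
      _ = (N * K) ^ (2 * m + 1) * (E * D * (B * M)) := by ring
      _ ≤ (N * K) ^ (2 * m + 1) * (β ^ (2 * (m + 1)) * (N * K * (H : ℝ) ^ (2 * (m + 1)))) :=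
        mul_le_mul_of_nonneg_left d3 (by positivity)
      _ = (β * N * K * H) ^ (2 * (m + 1)) := by ring
  have d7 : U ≤ β * N * K * H :=
    (pow_le_pow_iff_left₀ U0 (by positivity) (by omega)).1 d6
  refine le_of_mul_le_mul_left ?_ (mul_pos hK' hH')
  linarith

end Pool.Agent.Lib.MP_778b46_nt.GX.Bu
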