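import Pool.Agent.Lib.MP_e97e2b_nt.Ln.Defs

/- Definitions and module interfaces for the exceptional set in the Goldbach problem. -/

namespace Pool.Agent.Lib.MP_778b46_nt.GX

open Complex Finset
open Pool.Agent.Lib.MP_e97e2b_nt.Ln (Lap Tst cut)

/-! ### Characters, L-functions, zero lists -/

/-- Complex Dirichlet characters. -/
abbrev DC (Q : ℕ) : Type := DirichletCharacter ℂ Q

instance {Q : ℕ} [NeZero Q] (χ : DC Q) : NeZero χ.conductor := ⟨χ.conductor_ne_zero⟩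

instance (n : ℕ) : NeZero n.factorial := ⟨n.factorial_ne_zero⟩

open Classical in
/-- The L-function, multiplied by `s - 1` for the principal character: an entire function. -/
noncomputable def Lf {q : ℕ} [NeZero q] (ξ : DC q) : ℂ → ℂ :=
  if ξ = 1 then DirichletCharacter.LFunctionTrivChar₁ q else ξ.LFunction

/-- The entire L-function of the primitive character inducing `χ`. -/
noncomputable def Lp {Q : ℕ} [NeZero Q] (χ : DC Q) : ℂ → ℂ := Lf χ.primitiveCharacter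

/-- Values of the primitive character inducing `χ`. -/
noncomputable def pr {Q : ℕ} (χ : DC Q) (n : ℕ) : ℂ :=
  χ.primitiveCharacter (n : ZMod χ.conductor)

/-- The conductor as a real number. -/
noncomputable def cd {Q : ℕ} (χ : DC Q) : ℝ := (χ.conductor : ℝ)

/-- Order of vanishing of `Lp χ` at `z`. -/
noncomputable def ord {Q : ℕ} [NeZero Q] (χ : DC Q) (z : ℂ) : ℕ := analyticOrderNatAt (Lp χ) z

open Classical in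
/-- Number of entries `(ξ, z)` of a list. -/
noncomputable def cnt {Q : ℕ} {ι : Type} [Fintype ι] (χ : ι → DC Q) (ρ : ι → ℂ) (ξ : DC Q)
    (z : ℂ) : ℕ := (univ.filter fun j => χ j = ξ ∧ ρ j = z).card

/-- A list of zeros, each repeated at most as often as its multiplicity. -/
def Sub {Q : ℕ} [NeZero Q] {ι : Type} [Fintype ι] (χ : ι → DC Q) (ρ : ι → ℂ) : Prop :=
  ∀ ξ z, cnt χ ρ ξ z ≤ ord ξ z

/-- The list of all zeros in the region `S`, with multiplicity. -/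
def Full {Q : ℕ} [NeZero Q] {ι : Type} [Fintype ι] (S : DC Q → ℂ → Prop) (χ : ι → DC Q)
    (ρ : ι → ℂ) : Prop :=
  (∀ i, S (χ i) (ρ i)) ∧ ∀ ξ z, S ξ z → cnt χ ρ ξ z = ord ξ z

/-- Scaled distance to the line of real part one. -/
noncomputable def lam (P : ℝ) (z : ℂ) : ℝ := (1 - z.re) * Real.log P

/-! ### Interfaces of the analytic modules -/

/-- Character sums cancel beyond the power `ph0` of the conductor. -/
def TB (ph0 : ℝ) : Prop :=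
  ∀ ε : ℝ, 0 < ε → ∃ th C : ℝ, 0 < th ∧ th ≤ 1 / 2 ∧ 1 ≤ C ∧
    ∀ (Q : ℕ) [NeZero Q] (ξ : DC Q), ξ ≠ 1 → ∀ r : ℕ, 1 ≤ r → ∀ x : ℝ, 1 ≤ x →
      ‖∑ n ∈ (Ioc 0 ⌊x⌋₊).filter (fun n => n.Coprime r), pr ξ n‖ ≤
        C * x ^ (1 - th) * (cd ξ ^ ph0 * (cd ξ * r) ^ ε) ^ th

/-- Few zeros of the zeta function near the line of real part one. -/
def ZZ : Prop :=
  ∃ d0 C : ℝ, 0 < d0 ∧ ∀ T : ℝ, 1 ≤ T → ∀ (Q : ℕ) [NeZero Q] (ι : Type) [Fintype ι] (ρ : ι → ℂ),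
    Sub (fun _ => (1 : DC Q)) ρ → (∀ j, 1 - d0 ≤ (ρ j).re ∧ |(ρ j).im| ≤ T) →
      (Fintype.card ι : ℝ) ≤ C * T ^ (1 / 40 : ℝ)

/-- No zeros near the line of real part one for bounded conductor and height. -/
def ZFS : Prop :=
  ∀ R Y : ℝ, ∃ c : ℝ, 0 < c ∧ ∀ (Q : ℕ) [NeZero Q] (ξ : DC Q) (z : ℂ), cd ξ ≤ R → |z.im| ≤ Y →
    1 - c ≤ z.re → ord ξ z = 0

/-- The theorem of Siegel on real zeros of real characters. -/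
def SG : Prop :=
  ∀ ε : ℝ, 0 < ε → ∃ c : ℝ, 0 < c ∧ ∀ (Q : ℕ) [NeZero Q] (ξ : DC Q) (β : ℝ), ξ * ξ = 1 →
    ord ξ (β : ℂ) ≠ 0 → c * cd ξ ^ (-ε) ≤ 1 - β

/-- Parameters of the mollifier inequality. -/
structure MP where
  w : ℝ
  u0 : ℝ
  u1 : ℝ
  u : ℝ
  v : ℝ
  x0 : ℝ
  x1 : ℝ
  sg : ℝ

/-- Admissible parameters. -/
def MP.ok (p : MP) (ph ph' : ℝ) : Prop :=
  0 < p.w ∧ 2 * p.w + ph' ≤ p.u0 ∧ p.u0 < p.u1 ∧ p.u1 < p.u ∧ p.u < p.v ∧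
    p.v + p.w + ph ≤ p.x0 ∧ p.x0 < p.x1 ∧ 0 < p.sg

/-- Bound for the transform of the trapezoid. -/
noncomputable def MP.E (p : MP) (b : ℝ) : ℝ :=
  (Real.exp (b * p.x1) + Real.exp (b * p.x0)) / (p.x1 - p.x0) +
    (Real.exp (b * p.u1) + Real.exp (b * p.u0)) / (p.u1 - p.u0)

/-- Weight of a zero in the mollifier inequality. -/
noncomputable def MP.m (p : MP) (ph lmin l : ℝ) : ℝ :=
  p.w * (p.sg + l + lmin) * (Real.exp (p.sg * p.v) - Real.exp (p.sg * p.u)) /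
    (p.E (p.sg + 2 * l) * (ph / 2 + 1 / (p.sg + l)))

/-- The mollifier inequality (a zero density estimate without logarithms). -/
def MOL (ph0 : ℝ) : Prop :=
  ∀ (p : MP) (ph ph' f ε1 : ℝ), p.ok ph ph' → ph0 < ph → 0 ≤ f → f * ph0 < ph' → 0 < ε1 →
    ∃ η ε2 P0 : ℝ, 0 < η ∧ 0 < ε2 ∧ ∀ P : ℝ, P0 ≤ P →
      ∀ (Q : ℕ) [NeZero Q] (ι : Type) [Fintype ι] (χ : ι → DC Q) (ρ : ι → ℂ) (lmin : ℝ),
        Sub χ ρ → 0 ≤ lmin →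
        (∀ j, χ j ≠ 1 ∧ cd (χ j) ≤ P ∧ lmin ≤ lam P (ρ j) ∧ lam P (ρ j) ≤ ε2 * Real.log P ∧
          |(ρ j).im| ≤ P ^ η) →
        (∀ j k, cd (χ j / χ k) ≤ P ^ f) →
        ∑ j, p.m ph lmin (lam P (ρ j)) ≤ 1 + ε1

/-- A zero very close to the line of real part one is a real zero of a real character and
repels all other zeros (Deuring and Heilbronn). -/
def DH (ph0 : ℝ) : Prop :=
  ∀ T : ℝ, 5 * ph0 < T → T ≤ 8 → ∃ η ε2 s0 C P0 : ℝ, 0 < η ∧ 0 < ε2 ∧ 0 < s0 ∧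
    ∀ P : ℝ, P0 ≤ P →
      ∀ (Q : ℕ) [NeZero Q] (ι : Type) [Fintype ι] (χ : ι → DC Q) (ρ : ι → ℂ), Sub χ ρ →
        (∀ j, cd (χ j) ≤ P ∧ lam P (ρ j) ≤ ε2 * Real.log P ∧ |(ρ j).im| ≤ P ^ η) →
        ∀ i, lam P (ρ i) ≤ s0 →
          χ i ≠ 1 ∧ χ i * χ i = 1 ∧ (ρ i).im = 0 ∧
            ∀ j, j ≠ i → Real.exp (-(T * lam P (ρ j))) ≤ C * lam P (ρ i)

/-! ### The abstract model -/

/-- Weighted points, characters, and a list of scaled zeros `-lam + i mu`. -/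
structure Dat (Γ Ω ι : Type) [CommGroup Γ] where
  μ : Ω → ℝ
  t : Ω → ℝ
  ev : Ω → Γ →* ℂ
  ch : ι → Γ
  lam : ι → ℝ
  mu : ι → ℝ
  Ym : ℝ
  sm : Γ → Prop
  cj : ι ≃ ι

section Model

variable {Γ Ω ι : Type} [CommGroup Γ] [Fintype Ω] [Fintype ι]

/-- Real part of the pairing of a test function with a character at height `y`. -/
noncomputable def Dat.E (D : Dat Γ Ω ι) (g : ℝ → ℝ) (y : ℝ) (ξ : Γ) : ℝ :=
  ∑ ω, D.μ ω * g (D.t ω) * (exp (-((y * D.t ω : ℝ) : ℂ) * I) * D.ev ω ξ).re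

/-- Linear combination of the characters of the list, twisted by their heights. -/
noncomputable def Dat.U (D : Dat Γ Ω ι) (a : ι → ℝ) (ω : Ω) : ℂ :=
  ∑ j, (a j : ℂ) * (exp (-((D.mu j * D.t ω : ℝ) : ℂ) * I) * D.ev ω (D.ch j))

open Classical in
/-- The inequalities used by the numerical part. -/
structure Clean (D : Dat Γ Ω ι) (φ ε H : ℝ) (psF psC : List MP) : Prop where
  μ_nonneg : ∀ ω, 0 ≤ D.μ ω
  t_pos : ∀ ω, 0 < D.t ω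
  norm_ev : ∀ ω ξ, ‖D.ev ω ξ‖ = 1
  lam_nonneg : ∀ i, 0 ≤ D.lam i
  lam_le : ∀ i, D.lam i ≤ H
  mu_le : ∀ i, |D.mu i| ≤ D.Ym
  cj_ch : ∀ i, D.ch (D.cj i) = (D.ch i)⁻¹
  cj_lam : ∀ i, D.lam (D.cj i) = D.lam i
  cj_mu : ∀ i, D.mu (D.cj i) = -D.mu i
  sm_one : D.sm 1
  sm_inv : ∀ ξ, D.sm ξ → D.sm ξ⁻¹
  sm_trans : ∀ i j k, D.sm (D.ch i / D.ch j) → D.sm (D.ch j / D.ch k) → D.sm (D.ch i / D.ch k)
  sm_not : ∀ i, ¬ D.sm (D.ch i)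
  ef : ∀ (ξ : Γ) (y T B : ℝ) (g : ℝ → ℝ), |y| ≤ 4 * D.Ym → 0 ≤ T → T ≤ 8 → Tst T B g →
    0 ≤ g 0 → (∀ z : ℂ, z.re ≤ -H → 0 ≤ (Lap g T z).re) →
    D.E (cut g T) y ξ ≤ (if ξ = 1 then (Lap g T (-((y : ℂ) * I))).re else 0) -
      ∑ k ∈ univ.filter (fun k => D.ch k = ξ),
        (Lap g T (-(D.lam k : ℂ) + (D.mu k - y : ℝ) * I)).re +
      (if D.sm ξ then 0 else φ / 2) * g 0 + ε * B
  mert : ∀ u v : ℝ, 0 ≤ u → u ≤ v → v ≤ 8 →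
    |∑ ω ∈ univ.filter (fun ω => u < D.t ω ∧ D.t ω ≤ v), D.μ ω - (v - u)| ≤ ε
  sv : ∀ (a : ι → ℝ) (c τ τ' w α β : ℝ), (∀ j, 0 ≤ a j) → 0 < w → φ + 2 * w ≤ τ → τ ≤ τ' →
    τ' ≤ 8 → 0 ≤ α + β * τ → 0 ≤ α + β * τ' →
    ∑ ω ∈ univ.filter (fun ω => τ < D.t ω ∧ D.t ω ≤ τ'),
        D.μ ω * (α + β * D.t ω) * ‖(c : ℂ) + D.U a ω‖ ^ 2 ≤
      τ' / w * (c ^ 2 * (∫ t in τ..τ', (α + β * t)) +
          ∑ j, ∑ k ∈ univ.filter (fun k => D.ch k = D.ch j),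
            a j * a k * ∫ t in τ..τ', (α + β * t) * Real.cos ((D.mu j - D.mu k) * t)) +
        ε * (|α| + |β|) * (|c| + ∑ j, a j) ^ 2
  molF : ∀ p ∈ psF, ∀ (S : Finset ι) (lmin : ℝ), 0 ≤ lmin → (∀ j ∈ S, lmin ≤ D.lam j) →
    ∑ j ∈ S, p.m φ lmin (D.lam j) ≤ 1 + ε
  molC : ∀ p ∈ psC, ∀ (S : Finset ι) (lmin : ℝ), 0 ≤ lmin → (∀ j ∈ S, lmin ≤ D.lam j) →
    (∀ j ∈ S, ∀ k ∈ S, D.sm (D.ch j / D.ch k)) → ∑ j ∈ S, p.m φ lmin (D.lam j) ≤ 1 + ε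

end Model

/-- The analytic data give a clean model. -/
def CLN (ph0 : ℝ) : Prop :=
  ∀ (φ ε H Y R : ℝ) (psF psC : List MP), ph0 < φ → 0 < ε → 0 ≤ H → 1 ≤ Y → 1 ≤ R →
    (∀ p ∈ psF, p.ok φ φ) → (∀ p ∈ psC, p.ok φ (1 / 1000)) →
    ∃ P0 : ℝ, ∀ P : ℝ, P0 ≤ P →
      ∀ (Q : ℕ) [NeZero Q] (q : ℕ) (ι : Type) [Fintype ι] (χ : ι → DC Q) (ρ : ι → ℂ),
        1 ≤ q → q ∣ Q → (q : ℝ) ≤ P →
        Full (fun ξ z => ξ.conductor ∣ q ∧ lam P z ≤ H ∧ |z.im| ≤ 5 * Y) χ ρ →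
        (∀ i, |(ρ i).im| ≤ Y) → (∀ i, R < cd (χ i)) →
        (∀ i j, cd (χ i / χ j) ≤ R ^ 2 → cd (χ i / χ j) ≤ R) →
        ∃ (Γ Ω : Type) (_ : CommGroup Γ) (_ : Fintype Ω) (D : Dat Γ Ω ι),
          Clean D φ ε H psF psC ∧ (∀ i, D.lam i = lam P (ρ i)) ∧
            ∀ i j, D.sm (D.ch i * D.ch j) ↔ cd (χ i * χ j) ≤ R

open Classical in
/-- The numerical part: in a clean model the pairs of zeros do not exhaust the main term. -/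
def CERT (L φ : ℝ) : Prop :=
  ∃ psF psC : List MP, (∀ p ∈ psF, p.ok φ φ) ∧ (∀ p ∈ psC, p.ok φ (1 / 1000)) ∧
    ∀ H : ℝ, 10 ≤ H → ∀ s0 : ℝ, 0 < s0 → ∃ ε : ℝ, 0 < ε ∧
      ∀ (Γ Ω ι : Type) [CommGroup Γ] [Fintype Ω] [Fintype ι] (D : Dat Γ Ω ι),
        Clean D φ ε H psF psC → (∀ i, s0 ≤ D.lam i) →
          ∑ i, ∑ j ∈ univ.filter (fun j => D.sm (D.ch i * D.ch j)),
              Real.exp (-(L * D.lam i)) * Real.exp (-(L * D.lam j)) ≤ 1 - min s0 (1 / 100)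

end Pool.Agent.Lib.MP_778b46_nt.GX
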