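import Pool.Agent.Lib.MP_778b46_nt.GX.BuN
import Pool.Agent.Lib.MP_778b46_nt.GX.Defs

set_option autoImplicit false

noncomputable section

namespace Pool.Agent.Lib.MP_778b46_nt.GX.Bu

open Finset

theorem buf_both (hW : WeilAny) (m : ℕ) (hm : 263 ≤ m) : ∃ E : ℝ, 2 ≤ E ∧ ∀ (q N : ℕ) [NeZero q]
    (χ : DirichletCharacter ℂ q) (Z β : ℝ), χ.IsPrimitive → 1 ≤ Z → (q : ℝ) = (Z ^ m) ^ 3 →
    Z ^ m * Z ^ 130 ≤ N → (N : ℝ) ≤ (Z ^ m) ^ 6 → 0 ≤ β → β ≤ 1 →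
    E ≤ β ^ (2 * (3 * m + 30)) * Z → ‖SS (fun n => χ n) N‖ ≤ 13 * β * N := by
  obtain ⟨E1, a1, hA⟩ := caseA hW m
  obtain ⟨E2, a2, hB⟩ := caseB m hm
  refine ⟨max E1 E2, le_max_of_le_left a1, fun q N _ χ Z β hχ hZ hq hN hN' h0 h1 hE => ?_⟩
  obtain ⟨q1, q2, R, rfl, hc, hf, h5, h3⟩ := bu_dec q (NeZero.ne q)
  have n1 : q1 ≠ 0 := left_ne_zero_of_mul (NeZero.ne (q1 * q2))
  have n2 : q2 ≠ 0 := right_ne_zero_of_mul (NeZero.ne (q1 * q2))
  have : NeZero q1 := ⟨n1⟩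
  have : NeZero q2 := ⟨n2⟩
  by_cases h : Z ^ 100 ≤ q1
  · obtain ⟨χ1, χ2, p1, -, hs⟩ := bu_split hc χ hχ
    have e : (fun n : ℤ => χ n) = fun n : ℤ => χ1 n * χ2 n := by
      funext n
      rw [hs, map_intCast]
      simp
    rw [e]
    refine (hA q1 q2 R N χ1 χ2 Z β p1 hf hc h5 h3 n2 hZ hq h hN hN' h0 h1
      ((le_max_left _ _).trans hE)).trans ?_
    gcongr
    norm_num
  · have hR : R ≠ 0 := by
      rintro rfl
      simp [n2] at h3
    have hR' : (R : ℝ) ≤ Z ^ m := by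
      refine le_of_pow_le_pow_left₀ three_ne_zero (by positivity) (hq ▸ ?_)
      exact_mod_cast (Nat.le_of_dvd (Nat.pos_of_ne_zero n2) h3).trans
        (Nat.le_mul_of_pos_left _ (Nat.pos_of_ne_zero n1))
    refine hB (q1 * q2) (R * q1) N χ Z β hχ (Nat.pos_of_ne_zero (mul_ne_zero hR n1)) ?_ hZ hq ?_ hN
      h0 h1 (((le_max_right _ _).trans hE).trans ?_)
    · rw [mul_pow, mul_comm q1]
      exact mul_dvd_mul h5 (dvd_pow_self _ (by norm_num))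
    · push_cast
      exact mul_le_mul hR' (not_le.1 h).le (Nat.cast_nonneg _) (by positivity)
    · exact mul_le_mul_of_nonneg_right (pow_le_pow_of_le_one h0 h1 (by omega)) (by linarith)

theorem bu_prim (hW : WeilAny) (ε : ℝ) (hε : 0 < ε) : ∃ η C : ℝ, 0 < η ∧ 1 ≤ C ∧
    ∀ (q : ℕ) [NeZero q] (χ : DirichletCharacter ℂ q), χ.IsPrimitive → ∀ N : ℕ,
      (q : ℝ) ^ (1 / 3 + ε) ≤ N → (N : ℝ) ≤ (q : ℝ) ^ 2 →
        ‖SS (fun n => χ n) N‖ ≤ C * N * (q : ℝ) ^ (-η) := by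
  obtain ⟨m0, hm0⟩ := exists_nat_ge (130 / (3 * ε))
  set m := max m0 263 with hmd
  have hm : 263 ≤ m := le_max_right _ _
  have hm1 : (0 : ℝ) < m := by exact_mod_cast (by omega : 0 < m)
  have hm2 : 130 / (3 * (m : ℝ)) ≤ ε := by
    have : (m0 : ℝ) ≤ m := by exact_mod_cast le_max_left _ _
    rw [div_le_iff₀ (by positivity)] at hm0 ⊢
    nlinarith
  obtain ⟨E, hE, h⟩ := buf_both hW m hm
  set L : ℕ := 2 * (3 * m + 30) with hL
  have hL0 : L ≠ 0 := by omega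
  have hL1 : (0 : ℝ) < L := by exact_mod_cast Nat.pos_of_ne_zero hL0
  have hE1 : 1 ≤ E ^ (L : ℝ)⁻¹ := Real.one_le_rpow (by linarith) (by positivity)
  refine ⟨(3 * (m : ℝ))⁻¹ * (L : ℝ)⁻¹, 13 * E ^ (L : ℝ)⁻¹, by positivity, by linarith,
    fun q _ χ hχ N hN hN' => ?_⟩
  have hq1 : (1 : ℝ) ≤ q := by exact_mod_cast NeZero.pos q
  have hq0 : (0 : ℝ) < q := by linarith
  set Z : ℝ := (q : ℝ) ^ (3 * (m : ℝ))⁻¹ with hZ
  have hZ1 : 1 ≤ Z := Real.one_le_rpow hq1 (by positivity)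
  have hp : ∀ j : ℕ, Z ^ j = (q : ℝ) ^ (j / (3 * (m : ℝ))) := fun j => by
    rw [hZ, ← Real.rpow_natCast, ← Real.rpow_mul hq0.le, inv_mul_eq_div]
  have e1 : (q : ℝ) = (Z ^ m) ^ 3 := by
    rw [← pow_mul, hp]
    push_cast
    rw [mul_comm, div_self (by positivity), Real.rpow_one]
  have e2 : Z ^ m * Z ^ 130 ≤ N := by
    refine le_trans ?_ hN
    rw [hp, hp, ← Real.rpow_add hq0]
    refine Real.rpow_le_rpow_of_exponent_le hq1 (add_le_add (le_of_eq ?_) (by exact_mod_cast hm2))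
    field_simp
  have e3 : (N : ℝ) ≤ (Z ^ m) ^ 6 := hN'.trans (le_of_eq (by rw [e1]; ring))
  set β : ℝ := (E / Z) ^ (L : ℝ)⁻¹ with hβ
  have hEZ : 0 ≤ E / Z := div_nonneg (by linarith) (by linarith)
  have b0 : 0 ≤ β := Real.rpow_nonneg hEZ _
  have e4 : 13 * E ^ (L : ℝ)⁻¹ * N * (q : ℝ) ^ (-((3 * (m : ℝ))⁻¹ * (L : ℝ)⁻¹)) = 13 * β * N := by
    rw [hβ, Real.div_rpow (by linarith) (by linarith), Real.rpow_neg hq0.le, Real.rpow_mul hq0.le]
    ring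
  rw [e4]
  by_cases b1 : β ≤ 1
  · refine h q N χ Z β hχ hZ1 e1 e2 e3 b0 b1 (le_of_eq ?_)
    rw [hβ, Real.rpow_inv_natCast_pow hEZ hL0]
    field_simp
  · refine (ss_triv _ (fun n => χ.norm_le_one _) N).trans ?_
    have : (0 : ℝ) ≤ N := Nat.cast_nonneg _
    nlinarith

theorem bu_prim' (hW : WeilAny) (ε : ℝ) (hε : 0 < ε) : ∃ θ C : ℝ, 0 < θ ∧ θ ≤ 1 / 2 ∧ 1 ≤ C ∧
    ∀ (q : ℕ) [NeZero q] (χ : DirichletCharacter ℂ q), χ.IsPrimitive → χ ≠ 1 → ∀ N : ℕ,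
      ‖∑ n ∈ Ioc 0 N, χ n‖ ≤ C * (N : ℝ) ^ (1 - θ) * ((q : ℝ) ^ (1 / 3 + ε)) ^ θ := by
  obtain ⟨η, C, hη, hC, h⟩ := bu_prim hW ε hε
  set θ := min (η / 2) (1 / 2) with hθ
  have t0 : 0 < θ := lt_min (by linarith) (by norm_num)
  have t1 : θ ≤ η / 2 := min_le_left _ _
  have t2 : θ ≤ 1 / 2 := min_le_right _ _
  refine ⟨θ, C, t0, t2, hC, fun q _ χ hχ h1 N => ?_⟩
  rcases Nat.eq_zero_or_pos N with rfl | hN
  · simp only [Ioc_self, sum_empty, norm_zero]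
    positivity
  have hq1 : (1 : ℝ) ≤ q := by exact_mod_cast NeZero.pos q
  have hN1 : (1 : ℝ) ≤ N := by exact_mod_cast hN
  have hN0 : (0 : ℝ) < N := by linarith
  set y := (q : ℝ) ^ (1 / 3 + ε) with hy
  have hy1 : 1 ≤ y ^ θ := Real.one_le_rpow (Real.one_le_rpow hq1 (by positivity)) t0.le
  have hS : ∑ n ∈ Ioc 0 N, χ n = SS (fun n => χ n) N := by simp [SS]
  have hp : 0 ≤ (N : ℝ) ^ (1 - θ) := by positivity
  have hs : (N : ℝ) = (N : ℝ) ^ (1 - θ) * (N : ℝ) ^ θ := by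
    rw [← Real.rpow_add hN0]; simp
  by_cases c1 : y ≤ N
  · by_cases c2 : (N : ℝ) ≤ (q : ℝ) ^ 2
    · rw [hS]
      refine (h q χ hχ N c1 c2).trans (le_trans ?_ (le_mul_of_one_le_right (by positivity) hy1))
      have e1 : (N : ℝ) ^ θ * (q : ℝ) ^ (-η) ≤ 1 := by
        have e2 : (N : ℝ) ^ θ ≤ (q : ℝ) ^ η := by
          refine (Real.rpow_le_rpow hN0.le c2 t0.le).trans ?_
          rw [← Real.rpow_natCast, ← Real.rpow_mul (by linarith)]
          exact Real.rpow_le_rpow_of_exponent_le hq1 (by push_cast; linarith)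
        rw [Real.rpow_neg (by linarith), ← div_eq_mul_inv, div_le_one (by positivity)]
        exact e2
      calc _ = C * (N : ℝ) ^ (1 - θ) * ((N : ℝ) ^ θ * (q : ℝ) ^ (-η)) := by
            conv_lhs => rw [hs]
            ring
        _ ≤ _ := mul_le_of_le_one_right (by positivity) e1
    · refine (MP_c03ca8_nt.Q.char_interval (NeZero.pos q) χ h1 0 N).trans ?_
      have e1 : (q : ℝ) ≤ (N : ℝ) ^ (1 - θ) := by
        refine le_trans ?_ (Real.rpow_le_rpow_of_exponent_le hN1 (by linarith : 1 / 2 ≤ 1 - θ))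
        rw [← Real.sqrt_eq_rpow]
        exact Real.le_sqrt_of_sq_le (not_le.1 c2).le
      exact e1.trans ((le_mul_of_one_le_left hp hC).trans
        (le_mul_of_one_le_right (by positivity) hy1))
  · rw [hS]
    refine (ss_triv _ (fun n => χ.norm_le_one _) N).trans (hs.le.trans ?_)
    exact mul_le_mul (le_mul_of_one_le_left hp hC)
      (Real.rpow_le_rpow hN0.le (not_le.1 c1).le t0.le) (by positivity) (by positivity)

theorem buf_pow (q : ℕ) (hq : q ≠ 0) : (2 : ℝ) ^ q.primeFactors.card ≤ tu q := by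
  unfold tu
  rw [Nat.card_divisors hq, ← prod_const]
  push_cast
  refine prod_le_prod (fun _ _ => zero_le_two) fun p hp => ?_
  have : (1 : ℝ) ≤ q.factorization p := by
    exact_mod_cast (Nat.prime_of_mem_primeFactors hp).factorization_pos_of_dvd hq
      (Nat.dvd_of_mem_primeFactors hp)
  linarith

/-- Theorem B, assuming Weil's bound. -/
theorem tb_of_weil (hW : WeilAny) : TB (1 / 3) := by
  intro ε hε
  obtain ⟨θ, C, t0, t2, hC, h⟩ := bu_prim' hW ε hε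
  obtain ⟨C', hC', hd⟩ := MP_2a1a00_nt.card_divisors_le (ε * θ) (by positivity)
  have hC1 : 1 ≤ C' := by simpa using hd 1
  refine ⟨θ, C * C', t0, t2, one_le_mul_of_one_le_of_one_le hC hC1,
    fun q _ ξ h1 r hr x hx => ?_⟩
  have hψ : ξ.primitiveCharacter ≠ 1 := fun h0 => h1 (by
    rw [← ξ.changeLevel_primitiveCharacter, h0, map_one])
  have hr0 : (0 : ℝ) < r := by exact_mod_cast hr
  have hf0 : (0 : ℝ) < ξ.conductor := by exact_mod_cast NeZero.pos ξ.conductor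
  unfold pr cd
  set B := C * x ^ (1 - θ) * ((ξ.conductor : ℝ) ^ (1 / 3 + ε)) ^ θ with hB
  have e1 : ‖∑ n ∈ (Ioc 0 ⌊x⌋₊).filter (fun n => n.Coprime r),
      ξ.primitiveCharacter (n : ZMod ξ.conductor)‖ ≤ 2 ^ r.primeFactors.card * B := by
    rw [MP_c03ca8_nt.Q.char_sum_ie hr fun k => ξ.primitiveCharacter k]
    refine (norm_sum_le _ _).trans ((sum_le_sum (g := fun _ => B) fun E _ => ?_).trans (by simp))
    simp_rw [Nat.cast_mul, map_mul]
    rw [← mul_sum, norm_mul, norm_mul, norm_pow, norm_neg, norm_one, one_pow, one_mul, Nat.zero_div]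
    refine (mul_le_of_le_one_left (norm_nonneg _) (DirichletCharacter.norm_le_one _ _)).trans
      ((h _ _ ξ.primitiveCharacter_isPrimitive hψ _).trans ?_)
    have : ((⌊x⌋₊ / ∏ p ∈ E, p : ℕ) : ℝ) ≤ x :=
      (Nat.cast_le.2 (Nat.div_le_self _ _)).trans (Nat.floor_le (by linarith))
    have t3 : 0 ≤ 1 - θ := by linarith
    rw [hB]
    gcongr
  have e2 : (2 : ℝ) ^ r.primeFactors.card ≤ C' * ((r : ℝ) ^ ε) ^ θ := by
    rw [← Real.rpow_mul hr0.le]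
    exact (buf_pow r (by omega)).trans (hd r)
  have hx0 : 0 ≤ x ^ (1 - θ) := Real.rpow_nonneg (by linarith) _
  refine e1.trans ((mul_le_mul_of_nonneg_right e2 (by positivity)).trans (le_of_eq ?_))
  rw [Real.mul_rpow hf0.le hr0.le, ← mul_assoc ((ξ.conductor : ℝ) ^ (1 / 3 : ℝ)),
    ← Real.rpow_add hf0, Real.mul_rpow (by positivity) (by positivity), hB]
  ring

end Pool.Agent.Lib.MP_778b46_nt.GX.Bu
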