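import Pool.Agent.Lib.MP_778b46_nt.GX.BuA

set_option autoImplicit false

noncomputable section

namespace Pool.Agent.Lib.MP_778b46_nt.GX.Bu

open Finset

theorem buk_prod {A : Type} [CommRing A] {r : ℕ} (n t : A) (h : Fin r → ℕ) :
    ∏ i, (n + t * (h i : A)) = ∑ j ∈ range (r + 1), t ^ j * n ^ (r - j) *
      ((∑ T ∈ powersetCard j (univ : Finset (Fin r)), ∏ i ∈ T, h i : ℕ) : A) := by
  simp only [add_comm n]
  rw [Finset.prod_add, sum_powerset, card_univ, Fintype.card_fin]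
  refine sum_congr rfl fun j _ => ?_
  push_cast
  rw [mul_sum]
  refine sum_congr rfl fun T hT => ?_
  have hc := (mem_powersetCard.1 hT).2
  rw [prod_mul_distrib, prod_const, prod_const, card_univ_sdiff, hc, Fintype.card_fin]
  ring

theorem key_card (r H : ℕ) (hH : 1 ≤ H) :
    (((box (Fin r) H).image (key r)).card : ℝ) ≤ (2 ^ r * (H : ℝ) ^ 4 + 1) ^ 5 := by
  have h1 : (box (Fin r) H).image (key r) ⊆
      Fintype.piFinset fun _ : Fin 5 => range (2 ^ r * H ^ 4 + 1) := by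
    intro κ hκ
    obtain ⟨h, hh, rfl⟩ := mem_image.1 hκ
    refine Fintype.mem_piFinset.2 fun j => mem_range.2 (Nat.lt_succ_of_le ?_)
    have h2 : ∀ T ∈ powersetCard j (univ : Finset (Fin r)), ∏ i ∈ T, h i ≤ H ^ 4 := by
      intro T hT
      refine (prod_le_pow_card T h H fun i _ =>
        (mem_Icc.1 (Fintype.mem_piFinset.1 hh i)).2).trans ?_
      rw [(mem_powersetCard.1 hT).2]
      exact Nat.pow_le_pow_right hH (Nat.le_of_lt_succ j.2)
    refine (sum_le_card_nsmul _ _ _ h2).trans ?_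
    rw [smul_eq_mul, card_powersetCard, card_univ, Fintype.card_fin]
    exact Nat.mul_le_mul_right _ (Nat.choose_le_two_pow _ _)
  have h3 := card_le_card h1
  rw [Fintype.card_piFinset, prod_const, card_range, card_univ, Fintype.card_fin] at h3
  exact_mod_cast h3

/-- Modulo `t ^ 5` the product depends only on the key (`Finset.prod_add`). -/
theorem key_prod {A : Type} [CommRing A] {r : ℕ} (n t : A) (ht : t ^ 5 = 0) (h h' : Fin r → ℕ)
    (hk : key r h = key r h') : ∏ i, (n + t * (h i : A)) = ∏ i, (n + t * (h' i : A)) := by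
  rw [buk_prod, buk_prod]
  refine sum_congr rfl fun j _ => ?_
  by_cases hj : j < 5
  · exact congrArg (fun m : ℕ => t ^ j * n ^ (r - j) * (m : A)) (congrFun hk ⟨j, hj⟩)
  · rw [pow_eq_zero_of_le (not_lt.1 hj) ht, zero_mul, zero_mul, zero_mul]

theorem keys {q1 q2 : ℕ} [NeZero q1] (χ1 : DirichletCharacter ℂ q1)
    (χ2 : DirichletCharacter ℂ q2) (r H t : ℕ) (hH : 1 ≤ H) (ht : t.Coprime q1) (h5 : q2 ∣ t ^ 5)
    (n : ℤ) :
    ‖∑ h ∈ Icc 1 H, χ1 ((n + (t * h : ℕ) : ℤ) : ZMod q1) * χ2 ((n + (t * h : ℕ) : ℤ) : ZMod q2)‖ ^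
        (2 * r) ≤
      (2 ^ r * (H : ℝ) ^ 4 + 1) ^ 5 * GG χ1 r H ((n : ZMod q1) * (t : ZMod q1)⁻¹) := by
  set x : ZMod q1 := (n : ZMod q1) * (t : ZMod q1)⁻¹ with hx
  have ht5 : (t : ZMod q2) ^ 5 = 0 := by
    rw [← Nat.cast_pow]
    exact (ZMod.natCast_eq_zero_iff _ _).2 h5
  have e1 : ∀ h : ℕ, χ1 ((n + (t * h : ℕ) : ℤ) : ZMod q1) = χ1 t * χ1 (x + h) := fun h => by
    rw [← map_mul]
    congr 1
    have := ZMod.coe_mul_inv_eq_one t ht
    push_cast
    rw [hx]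
    linear_combination -(n : ZMod q1) * this
  have e2 : ∀ h : ℕ, ((n + (t * h : ℕ) : ℤ) : ZMod q2) = n + t * h := fun h => by
    push_cast
    rfl
  rw [mul_comm 2 r, pow_mul, ← norm_pow, sum_pow']
  change ‖∑ p ∈ box (Fin r) H, _‖ ^ 2 ≤ _
  rw [← sum_fiberwise_of_maps_to (g := key r) (t := (box (Fin r) H).image (key r))
    fun p hp => mem_image_of_mem _ hp]
  have e3 : ∀ κ ∈ (box (Fin r) H).image (key r),
      ‖∑ p ∈ (box (Fin r) H).filter (fun p => key r p = κ),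
        ∏ i, χ1 ((n + (t * p i : ℕ) : ℤ) : ZMod q1) * χ2 ((n + (t * p i : ℕ) : ℤ) : ZMod q2)‖ ≤
      ‖∑ p ∈ (box (Fin r) H).filter (fun p => key r p = κ), ∏ i, χ1 (x + (p i : ZMod q1))‖ := by
    intro κ hκ
    obtain ⟨h0, -, rfl⟩ := mem_image.1 hκ
    have e4 : ∀ p ∈ (box (Fin r) H).filter (fun p => key r p = key r h0),
        ∏ i, χ1 ((n + (t * p i : ℕ) : ℤ) : ZMod q1) * χ2 ((n + (t * p i : ℕ) : ℤ) : ZMod q2) =
        χ1 ((t : ZMod q1) ^ r) * χ2 (∏ i, ((n : ZMod q2) + t * (h0 i : ZMod q2))) *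
          ∏ i, χ1 (x + (p i : ZMod q1)) := by
      intro p hp
      rw [← key_prod (n : ZMod q2) t ht5 p h0 (mem_filter.1 hp).2]
      simp only [e1, e2, prod_mul_distrib, prod_const, card_univ, Fintype.card_fin, map_pow,
        map_prod]
      ring
    rw [sum_congr rfl e4, ← mul_sum, norm_mul, norm_mul]
    refine mul_le_of_le_one_left (norm_nonneg _) ?_
    exact mul_le_one₀ (χ1.norm_le_one _) (norm_nonneg _) (χ2.norm_le_one _)
  refine (pow_le_pow_left₀ (norm_nonneg _) ((norm_sum_le _ _).trans (sum_le_sum e3)) 2).trans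
    (sq_sum_le_card_mul_sum_sq.trans ?_)
  exact mul_le_mul_of_nonneg_right (key_card r H hH) (sum_nonneg fun _ _ => sq_nonneg _)

theorem GG_sum {q : ℕ} [NeZero q] (χ : DirichletCharacter ℂ q) (r H : ℕ) :
    ∑ x : ZMod q, GG χ r H x ≤ ∑ c ∈ box (Fin r ⊕ Fin r) H, ‖cs χ (ee2 r) c‖ := by
  have e1 : ∀ h h' : Fin r → ℕ, cs χ (ee2 r) (Sum.elim h h') = ∑ x : ZMod q,
      (∏ i, χ (x + (h i : ZMod q))) * (starRingEnd ℂ) (∏ i, χ (x + (h' i : ZMod q))) := by
    intro h h'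
    unfold cs
    refine sum_congr rfl fun x _ => ?_
    rw [Fintype.prod_sum_type, map_prod]
    simp [ee2, sg]
  have e2 : ((∑ x : ZMod q, GG χ r H x : ℝ) : ℂ) = ∑ κ ∈ (box (Fin r) H).image (key r),
      ∑ h ∈ (box (Fin r) H).filter (fun h => key r h = κ),
        ∑ h' ∈ (box (Fin r) H).filter (fun h => key r h = κ), cs χ (ee2 r) (Sum.elim h h') := by
    unfold GG
    rw [sum_comm, Complex.ofReal_sum]
    refine sum_congr rfl fun κ _ => ?_
    simp only [e1, Complex.ofReal_sum, Complex.ofReal_pow, ← Complex.mul_conj']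
    simp only [map_sum (starRingEnd ℂ), sum_mul_sum]
    rw [sum_comm]
    exact sum_congr rfl fun h _ => sum_comm
  have e3 : ∑ c ∈ box (Fin r ⊕ Fin r) H, ‖cs χ (ee2 r) c‖ =
      ∑ h ∈ box (Fin r) H, ∑ h' ∈ box (Fin r) H, ‖cs χ (ee2 r) (Sum.elim h h')‖ := by
    rw [← sum_product']
    refine sum_nbij' (fun c => (c ∘ Sum.inl, c ∘ Sum.inr)) (fun p => Sum.elim p.1 p.2)
      (fun c hc => ?_) (fun p hp => ?_) (fun c _ => Sum.elim_comp_inl_inr c) (fun p _ => rfl)
      (fun c _ => by rw [Sum.elim_comp_inl_inr])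
    · exact mem_product.2 ⟨Fintype.mem_piFinset.2 fun i => Fintype.mem_piFinset.1 hc _,
        Fintype.mem_piFinset.2 fun i => Fintype.mem_piFinset.1 hc _⟩
    · refine Fintype.mem_piFinset.2 fun i => ?_
      rcases i with i | i
      · exact Fintype.mem_piFinset.1 (mem_product.1 hp).1 i
      · exact Fintype.mem_piFinset.1 (mem_product.1 hp).2 i
  refine (Real.le_norm_self _).trans ?_
  rw [← Complex.norm_real, e2, e3, ← sum_fiberwise_of_maps_to (s := box (Fin r) H) (g := key r)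
    (t := (box (Fin r) H).image (key r)) fun p hp => mem_image_of_mem _ hp]
  refine (norm_sum_le _ _).trans (sum_le_sum fun κ _ => ?_)
  refine (norm_sum_le _ _).trans (sum_le_sum fun h _ => (norm_sum_le _ _).trans ?_)
  exact sum_le_sum_of_subset_of_nonneg (filter_subset _ _) fun _ _ _ => norm_nonneg _

end Pool.Agent.Lib.MP_778b46_nt.GX.Bu
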