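import Pool.Agent.Lib.MP_778b46_nt.GX.BuA

set_option autoImplicit false

noncomputable section

namespace Pool.Agent.Lib.MP_778b46_nt.GX.Bu

open Finset

theorem cs_triv {q : ℕ} [NeZero q] (χ : DirichletCharacter ℂ q) {ι : Type} [Fintype ι]
    (e : ι → Bool) (c : ι → ℕ) : ‖cs χ e c‖ ≤ q := by
  refine (norm_sum_le _ _).trans ((sum_le_card_nsmul _ _ 1 fun x _ => ?_).trans (by simp))
  rw [norm_prod]
  exact prod_le_one (fun _ _ => norm_nonneg _) fun j _ => by
    rw [norm_sg]
    exact χ.norm_le_one _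

theorem bum1_prod {R ι : Type} [CommRing R] {π : R} (h : π * π = 0) (s : Finset ι) (b : ι → R) :
    ∏ j ∈ s, (1 + π * b j) = 1 + π * ∑ j ∈ s, b j := by
  classical
  induction s using Finset.induction_on with
  | empty => simp
  | insert a s ha ih =>
    rw [prod_insert ha, sum_insert ha, ih]
    linear_combination b a * (∑ j ∈ s, b j) * h

/-- Modulo `p ^ 2`: average over `x ↦ x + p z`; the sum over `z` vanishes unless
`p * ∑ ± (x + c j)⁻¹ = 0`, which has at most `card ι` solutions `x` modulo `p`. -/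
theorem cs_pp {p : ℕ} [Fact p.Prime] (χ : DirichletCharacter ℂ (p ^ 2)) (hχ : χ.IsPrimitive)
    {ι : Type} [Fintype ι] (e : ι → Bool) (c : ι → ℕ) (j0 : ι)
    (hc : ∀ j, j ≠ j0 → (c j : ZMod p) ≠ (c j0 : ZMod p)) :
    ‖cs χ e c‖ ≤ Fintype.card ι * p := by
  classical
  have hp := (Fact.out : p.Prime)
  have hπ : (p : ZMod (p ^ 2)) * p = 0 := by rw [← Nat.cast_mul, ← sq, ZMod.natCast_self]
  let φ := ZMod.castHom (dvd_pow_self p two_ne_zero) (ZMod p)
  let ε : ι → ℤ := fun j => if e j then 1 else -1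
  let P : Polynomial (ZMod p) := ∑ j, Polynomial.C (ε j : ZMod p) *
    ∏ i ∈ univ.erase j, (Polynomial.X + Polynomial.C (c i : ZMod p))
  have hP : P ≠ 0 := fun h => by
    have h1 := congrArg (Polynomial.eval (-(c j0 : ZMod p))) h
    simp only [P, Polynomial.eval_finsetSum, Polynomial.eval_mul, Polynomial.eval_prod,
      Polynomial.eval_add, Polynomial.eval_X, Polynomial.eval_C, Polynomial.eval_zero] at h1
    rw [sum_eq_single j0 (fun j _ hj => mul_eq_zero_of_right _
      (prod_eq_zero (mem_erase.2 ⟨hj.symm, mem_univ _⟩) (neg_add_cancel _))) (by simp)] at h1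
    refine mul_ne_zero ?_ (prod_ne_zero_iff.2 fun i hi => ?_) h1
    · simp only [ε]
      split_ifs <;> simp
    · exact fun h => hc i (mem_erase.1 hi).1 (neg_add_eq_zero.1 h).symm
  have hd : P.natDegree ≤ Fintype.card ι := Polynomial.natDegree_sum_le_of_forall_le _ _ fun j _ =>
    (Polynomial.natDegree_C_mul_le _ _).trans ((Polynomial.natDegree_prod_le _ _).trans (by
      simp only [Polynomial.natDegree_X_add_C, sum_const, smul_eq_mul, mul_one]
      exact card_le_univ _))
  let F : ZMod (p ^ 2) → ℂ := fun x => ∏ j, sg (e j) (χ (x + (c j : ZMod (p ^ 2))))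
  have hF : ∀ x, ‖F x‖ ≤ 1 := fun x => by
    rw [norm_prod]
    exact prod_le_one (fun _ _ => norm_nonneg _) fun j _ => by
      rw [norm_sg]
      exact χ.norm_le_one _
  have h0 : ∀ x, φ x ∉ P.roots.toFinset → ∑ z : ZMod (p ^ 2), F (x + p * z) = 0 := fun x hx => by
    by_cases hu : ∀ j, IsUnit (x + (c j : ZMod (p ^ 2)))
    · choose u hu using fun j => (hu j).exists_right_inv
      have h1 : ∀ z, F (x + p * z) = F x * χ (1 + z * (p * ∑ j, ε j * u j)) := fun z => by
        rw [mul_left_comm, mul_sum, ← bum1_prod hπ, map_prod, ← prod_mul_distrib]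
        refine prod_congr rfl fun j _ => ?_
        rw [show x + p * z + c j = (x + c j) * (1 + p * (z * u j)) by
          linear_combination -(p * z) * hu j, map_mul, sg_mul]
        congr 1
        simp only [sg, ε]
        split_ifs
        · simp
        · exact bu_conj χ (by push_cast; linear_combination -(z * u j) ^ 2 * hπ)
      simp only [h1, ← mul_sum]
      refine mul_eq_zero_of_right _ (bu_add χ hχ _
        (by linear_combination (∑ j, ε j * u j) ^ 2 * hπ) fun h => hx ?_)
      have h2 : φ (∑ j, ε j * u j) = 0 := by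
        generalize (∑ j, (ε j : ZMod (p ^ 2)) * u j) = L at h
        rw [← ZMod.natCast_zmod_val L] at h ⊢
        rw [← Nat.cast_mul, ZMod.natCast_eq_zero_iff] at h
        rw [map_natCast, ZMod.natCast_eq_zero_iff]
        exact Nat.dvd_of_mul_dvd_mul_left hp.pos ((sq p).symm.dvd.trans h)
      have h3 : P.eval (φ x) = φ ((∑ j, ε j * u j) * ∏ i, (x + c i)) := by
        simp only [P, Polynomial.eval_finsetSum, Polynomial.eval_mul, Polynomial.eval_prod,
          Polynomial.eval_add, Polynomial.eval_X, Polynomial.eval_C]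
        rw [sum_mul, map_sum]
        refine sum_congr rfl fun j _ => ?_
        rw [← mul_prod_erase _ _ (mem_univ j), mul_assoc, ← mul_assoc (u j), mul_comm (u j), hu,
          one_mul]
        simp only [map_mul, map_intCast, map_prod, map_add, map_natCast]
      rw [Multiset.mem_toFinset, Polynomial.mem_roots hP, Polynomial.IsRoot, h3, map_mul, h2,
        zero_mul]
    · obtain ⟨j, hj⟩ := not_forall.1 hu
      refine sum_eq_zero fun z _ => prod_eq_zero (mem_univ j) ?_
      rw [χ.map_nonunit fun h => hj ?_]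
      · simp [sg]
      · have h1 : IsNilpotent (-((p : ZMod (p ^ 2)) * z)) := ⟨2, by linear_combination z ^ 2 * hπ⟩
        convert h1.isUnit_add_right_of_commute h (Commute.all _ _) using 1
        ring
  have h1 : #{x | φ x ∈ P.roots.toFinset} ≤ p * Fintype.card ι :=
    (card_le_mul_card_image_of_maps_to (f := φ) (fun x hx => (mem_filter.1 hx).2) p fun y _ => by
      refine (card_le_card_of_injOn (t := range p) (fun x => x.val / p) (fun x _ => ?_)
        fun x hx x' hx' h => ?_).trans_eq (card_range p)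
      · exact mem_coe.2 (mem_range.2 (Nat.div_lt_of_lt_mul (sq p ▸ x.val_lt)))
      · have h2 := (mem_filter.1 hx).2.trans (mem_filter.1 hx').2.symm
        rw [← ZMod.natCast_zmod_val x, ← ZMod.natCast_zmod_val x', map_natCast, map_natCast,
          ZMod.natCast_eq_natCast_iff'] at h2
        apply ZMod.val_injective
        rw [← Nat.div_add_mod x.val p, ← Nat.div_add_mod x'.val p, h2]
        exact congrArg (p * · + _) h).trans (Nat.mul_le_mul_left p
      ((Multiset.toFinset_card_le _).trans ((Polynomial.card_roots' P).trans hd)))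
  have h2 : (p ^ 2 : ℕ) * cs χ e c =
      ∑ x with φ x ∈ P.roots.toFinset, ∑ z : ZMod (p ^ 2), F (x + p * z) := by
    rw [sum_filter_of_ne fun x _ h => by_contra fun h' => h (h0 x h'), sum_comm]
    have h3 : ∀ z : ZMod (p ^ 2), ∑ x, F (x + (p : ZMod (p ^ 2)) * z) = ∑ x, F x := fun z =>
      Equiv.sum_comp (Equiv.addRight ((p : ZMod (p ^ 2)) * z)) F
    simp only [h3]
    simp [cs, F]
  have h3 : ((p ^ 2 : ℕ) : ℝ) * ‖cs χ e c‖ ≤ (p ^ 2 : ℕ) * (Fintype.card ι * p) := by
    rw [← Complex.norm_natCast, ← norm_mul, h2, Complex.norm_natCast]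
    refine (norm_sum_le _ _).trans ((sum_le_card_nsmul _ _ ((p ^ 2 : ℕ) : ℝ) fun x _ =>
      (norm_sum_le _ _).trans ((sum_le_card_nsmul _ _ 1 fun z _ => hF _).trans (by simp))).trans ?_)
    rw [nsmul_eq_mul, mul_comm, mul_comm _ (p : ℝ)]
    exact mul_le_mul_of_nonneg_left (by exact_mod_cast h1) (by positivity)
  exact le_of_mul_le_mul_left h3 (by exact_mod_cast pow_pos hp.pos 2)

/-- The complete sum for a cube-free modulus (induction `Nat.recOnPosPrimePosCoprime`). -/
theorem cs_le (hW : WeilAny) (m : ℕ) : ∃ J : ℕ, ∀ (q : ℕ) [NeZero q], CubeFree q →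
    ∀ χ : DirichletCharacter ℂ q, χ.IsPrimitive → ∀ (ι : Type) [Fintype ι] [DecidableEq ι],
      Fintype.card ι ≤ m → ∀ (e : ι → Bool) (c : ι → ℕ) (j0 : ι),
        ‖cs χ e c‖ ≤ tu q ^ J * √q *
          (Nat.gcd (∏ j ∈ univ.erase j0, ((c j : ℤ) - c j0).natAbs) q : ℕ) := by
  obtain ⟨C, hC⟩ := hW m
  obtain ⟨J, hJ⟩ := pow_unbounded_of_one_lt (max C m) (one_lt_two (α := ℝ))
  refine ⟨J, fun q _ hq χ hχ ι _ _ hι e c j0 => ?_⟩
  generalize hA : ∏ j ∈ univ.erase j0, ((c j : ℤ) - c j0).natAbs = A
  induction q using Nat.recOnPosPrimePosCoprime with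
  | zero => exact absurd rfl (NeZero.ne 0)
  | one => simpa [tu] using cs_triv χ e c
  | prime_pow p a hp ha =>
    have := Fact.mk hp
    have ha2 : a ≤ 2 := by
      by_contra h
      exact hq p hp (pow_dvd_pow p (by omega))
    have h1 : max C m ≤ tu (p ^ a) ^ J :=
      hJ.le.trans (pow_le_pow_left₀ zero_le_two (tu_pp hp ha) J)
    have h2 := one_le_pow₀ (n := J) (tu_pos (NeZero.ne (p ^ a)))
    have h3 := Nat.gcd_pos_of_pos_right A (pow_pos hp.pos a)
    by_cases hd : p ∣ A
    · have h4 : (p : ℝ) ≤ A.gcd (p ^ a) := by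
        exact_mod_cast Nat.le_of_dvd h3 (Nat.dvd_gcd hd (dvd_pow_self p ha.ne'))
      have h5 : √(p ^ a : ℕ) ≤ (p : ℝ) := Real.sqrt_le_iff.2 ⟨by positivity, by
        exact_mod_cast Nat.pow_le_pow_right hp.pos ha2⟩
      refine (cs_triv χ e c).trans ?_
      calc ((p ^ a : ℕ) : ℝ) = 1 * √(p ^ a : ℕ) * √(p ^ a : ℕ) := by
            rw [one_mul, Real.mul_self_sqrt (by positivity)]
        _ ≤ _ := by gcongr; exact h5.trans h4
    have h4 : ∀ j, j ≠ j0 → (c j : ZMod p) ≠ (c j0 : ZMod p) := fun j hj h => hd (by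
      rw [← hA]
      refine (Int.natCast_dvd.1 ?_).trans (dvd_prod_of_mem _ (mem_erase.2 ⟨hj, mem_univ j⟩))
      exact (ZMod.intCast_eq_intCast_iff_dvd_sub _ _ _).1 (by exact_mod_cast h.symm))
    refine le_trans ?_ (le_mul_of_one_le_right (by positivity) (by exact_mod_cast h3))
    obtain rfl | rfl : a = 1 ∨ a = 2 := by omega
    · revert χ h1
      rename_i hz
      revert hz
      rw [pow_one]
      intro _ χ hχ h1
      have h5 : χ ≠ 1 := fun h => hp.ne_one (by
        rw [← hχ, h, DirichletCharacter.conductor_one])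
      have h6 := hC p ι hι (fun j => c j) (fun j => if e j then χ else χ⁻¹) j0 h4 (by
        split_ifs
        · exact h5
        · exact inv_ne_one.2 h5)
      refine le_trans (le_of_eq ?_) (h6.trans (mul_le_mul_of_nonneg_right
        ((le_max_left _ _).trans h1) (by positivity)))
      refine congrArg norm (sum_congr rfl fun x _ => prod_congr rfl fun j _ => ?_)
      simp only [sg]
      split_ifs
      · rfl
      · exact χ.star_apply' _
    · refine (cs_pp χ hχ e c j0 h4).trans ?_
      rw [Nat.cast_pow, Real.sqrt_sq (by positivity)]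
      exact mul_le_mul_of_nonneg_right ((Nat.cast_le.2 hι).trans ((le_max_right _ _).trans h1))
        (by positivity)
  | coprime a b ha hb h iha ihb =>
    have : NeZero a := ⟨by omega⟩
    have : NeZero b := ⟨by omega⟩
    obtain ⟨χ1, χ2, h1, h2, h3⟩ := bu_split h χ hχ
    have h4 : cs χ e c = cs χ1 e c * cs χ2 e c := by
      rw [cs, cs, cs, sum_mul_sum, ← Fintype.sum_prod_type',
        ← Equiv.sum_comp (ZMod.chineseRemainder h).toEquiv]
      refine sum_congr rfl fun x _ => ?_
      rw [← prod_mul_distrib]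
      refine prod_congr rfl fun j _ => ?_
      rw [h3, sg_mul, map_add, map_natCast]
      simp
    rw [h4, norm_mul, tu_mul h, Nat.Coprime.gcd_mul A h, Nat.cast_mul, Nat.cast_mul,
      Real.sqrt_mul (by positivity), mul_pow, mul_mul_mul_comm (tu a ^ J),
      mul_mul_mul_comm (tu a ^ J * _)]
    exact mul_le_mul (iha _ (fun p hp hd => hq p hp (hd.mul_right b)) χ1 h1)
      (ihb _ (fun p hp hd => hq p hp (hd.mul_left a)) χ2 h2) (norm_nonneg _)
      (by have := tu_pos (NeZero.ne a); positivity)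

end Pool.Agent.Lib.MP_778b46_nt.GX.Bu
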