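import Pool.Agent.Lib.MP_778b46_nt.GX.BuM1

set_option autoImplicit false

noncomputable section

namespace Pool.Agent.Lib.MP_778b46_nt.GX.Bu

open Finset

theorem buM2_count (d H y : ℕ) (hy : y ∈ Icc 1 H) :
    d * (((Icc 1 H).erase y).filter fun x : ℕ => d ∣ ((x : ℤ) - y).natAbs).card ≤ 2 * H := by
  have hsub : (((Icc 1 H).erase y).filter fun x : ℕ => d ∣ ((x : ℤ) - y).natAbs) ⊆
      ((Ioc 0 H).filter fun m => d ∣ m).image (fun m => y + m) ∪
        ((Ioc 0 H).filter fun m => d ∣ m).image (fun m => y - m) := by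
    intro x hx
    rw [mem_filter, mem_erase, mem_Icc] at hx
    rw [mem_Icc] at hy
    obtain ⟨⟨h1, h2, h3⟩, h4⟩ := hx
    have h5 : ((x : ℤ) - y).natAbs ∈ (Ioc 0 H).filter fun m => d ∣ m :=
      mem_filter.2 ⟨mem_Ioc.2 ⟨by omega, by omega⟩, h4⟩
    rcases le_total y x with h | h
    · exact mem_union_left _ (mem_image.2 ⟨_, h5, by omega⟩)
    · exact mem_union_right _ (mem_image.2 ⟨_, h5, by omega⟩)
  have h1 := (card_le_card hsub).trans ((card_union_le _ _).trans
    (add_le_add card_image_le card_image_le))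
  rw [Nat.Ioc_filter_dvd_card_eq_div] at h1
  have h2 := Nat.mul_div_le H d
  calc _ ≤ d * (H / d + H / d) := Nat.mul_le_mul_left _ h1
    _ ≤ 2 * H := by rw [mul_add]; omega

theorem gcd_sum (q H y : ℕ) (hq : q ≠ 0) (hy : y ∈ Icc 1 H) :
    ∑ x ∈ (Icc 1 H).erase y, ((Nat.gcd ((x : ℤ) - y).natAbs q : ℕ) : ℝ) ≤ 2 * H * tu q := by
  have h1 : ∑ x ∈ (Icc 1 H).erase y, Nat.gcd ((x : ℤ) - y).natAbs q ≤
      2 * H * q.divisors.card := by
    calc _ ≤ ∑ x ∈ (Icc 1 H).erase y, ∑ d ∈ q.divisors,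
          if d ∣ ((x : ℤ) - y).natAbs then d else 0 := by
          refine sum_le_sum fun x _ => ?_
          have h2 := single_le_sum (f := fun d => if d ∣ ((x : ℤ) - y).natAbs then d else 0)
            (fun _ _ => Nat.zero_le _)
            (Nat.mem_divisors.2 ⟨Nat.gcd_dvd_right ((x : ℤ) - y).natAbs q, hq⟩)
          rwa [if_pos (Nat.gcd_dvd_left _ _)] at h2
      _ ≤ ∑ _d ∈ q.divisors, 2 * H := by
          rw [sum_comm]
          refine sum_le_sum fun d _ => ?_
          rw [← sum_filter, sum_const, smul_eq_mul, mul_comm]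
          exact buM2_count d H y hy
      _ = 2 * H * q.divisors.card := by rw [sum_const, smul_eq_mul, mul_comm]
  unfold tu
  exact_mod_cast h1

/-- Tuples without a simple entry (as `MP_e97e2b_nt.mo_count`). -/
theorem bad_count (r H : ℕ) : ((box (Fin r ⊕ Fin r) H).filter
    fun c => ¬ ∃ j0, ∀ j, j ≠ j0 → c j ≠ c j0).card ≤ H ^ r * r ^ (2 * r) := by
  classical
  have hsub : ((box (Fin r ⊕ Fin r) H).filter
      fun c => ¬ ∃ j0, ∀ j, j ≠ j0 → c j ≠ c j0) ⊆
      ((Fintype.piFinset fun _ : Fin r => Icc 1 H) ×ˢ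
        (univ : Finset (Fin r ⊕ Fin r → Fin r))).image fun p => p.1 ∘ p.2 := by
    intro t ht
    rw [mem_filter, box, Fintype.mem_piFinset] at ht
    obtain ⟨ht1, ht2⟩ := ht
    have hcard : 2 * (univ.image t).card ≤ (univ : Finset (Fin r ⊕ Fin r)).card := by
      refine mul_card_image_le_card _ 2 fun a ha => ?_
      obtain ⟨j₀, -, rfl⟩ := mem_image.mp ha
      obtain ⟨j, hj1, hj2⟩ : ∃ j, j ≠ j₀ ∧ t j = t j₀ := by
        by_contra hcon
        exact ht2 ⟨j₀, fun j hj h => hcon ⟨j, hj, h⟩⟩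
      exact one_lt_card.mpr ⟨j, by simp [hj2], j₀, by simp, hj1⟩
    rw [card_univ, Fintype.card_sum, Fintype.card_fin] at hcard
    obtain ⟨em⟩ : Nonempty ((univ.image t) ↪ Fin r) := by
      apply Function.Embedding.nonempty_of_card_le
      rw [Fintype.card_coe, Fintype.card_fin]
      omega
    refine mem_image.mpr ⟨(Function.extend em Subtype.val
      (fun k => t (Sum.inl k)), fun j => em ⟨t j, by simp⟩), ?_, ?_⟩
    · simp only [mem_product, Fintype.mem_piFinset, mem_univ, and_true]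
      intro k
      by_cases hk : ∃ a, em a = k
      · obtain ⟨a, rfl⟩ := hk
        rw [em.injective.extend_apply]
        obtain ⟨j, -, hj⟩ := mem_image.mp a.2
        rw [← hj]
        exact ht1 j
      · rw [Function.extend_apply' _ _ _ hk]
        exact ht1 _
    · funext j
      simp only [Function.comp_apply]
      rw [em.injective.extend_apply]
  refine (card_le_card hsub).trans (card_image_le.trans ?_)
  simp [Fintype.card_piFinset, two_mul]

theorem buM2_gcd_prod {ι : Type} (s : Finset ι) (a : ι → ℕ) (q : ℕ) :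
    Nat.gcd (∏ j ∈ s, a j) q ∣ ∏ j ∈ s, Nat.gcd (a j) q := by
  classical
  induction s using Finset.induction_on with
  | empty => simp
  | insert i s hi ih =>
    rw [prod_insert hi, prod_insert hi]
    exact (Nat.gcd_mul_left_dvd_mul_gcd _ _ _).trans (Nat.mul_dvd_mul_left _ ih)

/-- The weight of a pair of entries. -/
def buM2_g (q x y : ℕ) : ℝ := if x = y then 0 else ((Nat.gcd ((x : ℤ) - y).natAbs q : ℕ) : ℝ)

theorem buM2_g_nonneg (q x y : ℕ) : 0 ≤ buM2_g q x y := by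
  unfold buM2_g
  split_ifs
  · exact le_rfl
  · exact Nat.cast_nonneg _

theorem buM2_g_sum (q H y : ℕ) (hq : q ≠ 0) (hy : y ∈ Icc 1 H) :
    ∑ x ∈ Icc 1 H, buM2_g q x y ≤ 2 * H * tu q := by
  rw [← add_sum_erase _ _ hy, buM2_g, if_pos rfl, zero_add]
  refine le_trans (le_of_eq (sum_congr rfl fun x hx => ?_)) (gcd_sum q H y hq hy)
  rw [buM2_g, if_neg (ne_of_mem_erase hx)]

theorem buM2_box_sum {ι : Type} [Fintype ι] [DecidableEq ι] (q H : ℕ) (hq : q ≠ 0) (j0 : ι) :
    ∑ c ∈ box ι H, ∏ j ∈ univ.erase j0, buM2_g q (c j) (c j0) ≤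
      (2 * H * tu q) ^ Fintype.card ι := by
  have ht := tu_pos hq
  have hH : (0 : ℝ) ≤ H := Nat.cast_nonneg _
  have h0 : (0 : ℝ) ≤ 2 * H * tu q := by positivity
  calc _ = ∑ c ∈ box ι H, ∑ y ∈ Icc 1 H,
        ∏ j, if j = j0 then (if c j = y then 1 else 0) else buM2_g q (c j) y := by
        refine sum_congr rfl fun c hc => ?_
        have hc0 : c j0 ∈ Icc 1 H := Fintype.mem_piFinset.1 hc j0
        rw [sum_eq_single_of_mem (c j0) hc0]
        · rw [← mul_prod_erase _ _ (mem_univ j0), if_pos rfl, if_pos rfl, one_mul]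
          exact prod_congr rfl fun j hj => (if_neg (ne_of_mem_erase hj)).symm
        · intro y _ hy
          exact prod_eq_zero (mem_univ j0) (by rw [if_pos rfl, if_neg hy.symm])
    _ ≤ ∑ _y ∈ Icc 1 H, ∏ _j ∈ univ.erase j0, 2 * H * tu q := by
        rw [sum_comm]
        refine sum_le_sum fun y hy => ?_
        rw [box, ← prod_univ_sum (fun _ : ι => Icc 1 H)
          (fun j x => if j = j0 then (if x = y then (1 : ℝ) else 0) else buM2_g q x y),
          ← mul_prod_erase _ _ (mem_univ j0)]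
        simp only [if_true, sum_ite_eq', hy, one_mul]
        refine prod_le_prod (fun j hj => ?_) fun j hj => ?_
        · simp only [if_neg (ne_of_mem_erase hj)]
          exact sum_nonneg fun x _ => buM2_g_nonneg _ _ _
        · simp only [if_neg (ne_of_mem_erase hj)]
          exact buM2_g_sum q H y hq hy
    _ ≤ (2 * H * tu q) * ∏ _j ∈ univ.erase j0, 2 * H * tu q := by
        rw [sum_const, Nat.card_Icc, add_tsub_cancel_right, nsmul_eq_mul]
        exact mul_le_mul_of_nonneg_right (by nlinarith) (prod_nonneg fun _ _ => h0)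
    _ = (2 * H * tu q) ^ Fintype.card ι := by
        rw [mul_prod_erase _ (fun _ => 2 * H * tu q) (mem_univ j0), prod_const, card_univ]

/-- Burgess' moment bound for cube-free moduli. -/
theorem moment (hW : WeilAny) (r : ℕ) : ∃ (J : ℕ) (C : ℝ), 0 ≤ C ∧ ∀ (q : ℕ) [NeZero q],
    CubeFree q → ∀ χ : DirichletCharacter ℂ q, χ.IsPrimitive → ∀ H : ℕ,
      ∑ c ∈ box (Fin r ⊕ Fin r) H, ‖cs χ (ee2 r) c‖ ≤
        C * ((H : ℝ) ^ r * q + tu q ^ J * (H : ℝ) ^ (2 * r) * √q) := by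
  obtain ⟨J, hJ⟩ := cs_le hW (2 * r)
  refine ⟨J + 2 * r, r ^ (2 * r) + 2 * r * 2 ^ (2 * r), by positivity, fun q _ hq χ hχ H => ?_⟩
  have hq0 : q ≠ 0 := NeZero.ne q
  have ht := tu_pos hq0
  have hcard : Fintype.card (Fin r ⊕ Fin r) = 2 * r := by simp [two_mul]
  have hA : 0 ≤ tu q ^ J * √q := by positivity
  have h1 : ∀ c : Fin r ⊕ Fin r → ℕ, ‖cs χ (ee2 r) c‖ ≤
      (if ¬ ∃ j0, ∀ j, j ≠ j0 → c j ≠ c j0 then (q : ℝ) else 0) +
        tu q ^ J * √q * ∑ j0, ∏ j ∈ univ.erase j0, buM2_g q (c j) (c j0) := by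
    intro c
    have hn : ∀ j0, 0 ≤ ∏ j ∈ univ.erase j0, buM2_g q (c j) (c j0) := fun j0 =>
      prod_nonneg fun j _ => buM2_g_nonneg _ _ _
    by_cases hb : ∃ j0, ∀ j, j ≠ j0 → c j ≠ c j0
    · rw [if_neg (not_not.2 hb), zero_add]
      obtain ⟨j0, hj0⟩ := hb
      refine (hJ q hq χ hχ _ hcard.le (ee2 r) c j0).trans (mul_le_mul_of_nonneg_left ?_ hA)
      refine le_trans ?_ (single_le_sum (fun j _ => hn j) (mem_univ j0))
      have h2 := Nat.le_of_dvd (prod_pos fun j _ => Nat.gcd_pos_of_pos_right _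
        (Nat.pos_of_ne_zero hq0)) (buM2_gcd_prod (univ.erase j0)
          (fun j => ((c j : ℤ) - c j0).natAbs) q)
      refine (Nat.cast_le.2 h2).trans (le_of_eq ?_)
      rw [Nat.cast_prod]
      exact prod_congr rfl fun j hj => by rw [buM2_g, if_neg (hj0 j (ne_of_mem_erase hj))]
    · rw [if_pos hb]
      exact (cs_triv χ _ c).trans
        (le_add_of_nonneg_right (mul_nonneg hA (sum_nonneg fun j _ => hn j)))
  refine (sum_le_sum fun c _ => h1 c).trans ?_
  rw [sum_add_distrib, ← sum_filter, sum_const, nsmul_eq_mul, ← mul_sum, sum_comm]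
  have h2 : (((box (Fin r ⊕ Fin r) H).filter
      fun c => ¬ ∃ j0, ∀ j, j ≠ j0 → c j ≠ c j0).card : ℝ) ≤ (H : ℝ) ^ r * r ^ (2 * r) := by
    exact_mod_cast bad_count r H
  have h3 : ∑ j0 : Fin r ⊕ Fin r, ∑ c ∈ box (Fin r ⊕ Fin r) H,
      ∏ j ∈ univ.erase j0, buM2_g q (c j) (c j0) ≤ 2 * r * (2 * H * tu q) ^ (2 * r) := by
    refine (sum_le_sum fun j0 _ => buM2_box_sum q H hq0 j0).trans (le_of_eq ?_)
    rw [sum_const, card_univ, hcard, nsmul_eq_mul]
    push_cast
    rfl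
  have h4 := mul_le_mul_of_nonneg_right h2 (Nat.cast_nonneg q : (0 : ℝ) ≤ q)
  have h5 := mul_le_mul_of_nonneg_left h3 hA
  refine (add_le_add h4 h5).trans ?_
  have h6 : (0 : ℝ) ≤ 2 * r * 2 ^ (2 * r) * ((H : ℝ) ^ r * q) := by positivity
  have h7 : (0 : ℝ) ≤ r ^ (2 * r) * (tu q ^ (J + 2 * r) * (H : ℝ) ^ (2 * r) * √q) := by positivity
  rw [mul_pow, mul_pow]
  rw [pow_add] at h7 ⊢
  linarith

end Pool.Agent.Lib.MP_778b46_nt.GX.Bu
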