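import Pool.Agent.Lib.MP_778b46_nt.GX.BuM2
import Pool.Agent.Lib.MP_778b46_nt.GX.BuE
import Pool.Agent.Lib.MP_778b46_nt.GX.BuB
import Pool.Agent.Lib.MP_778b46_nt.GX.BuD
import Pool.Agent.Lib.MP_2a1a00_nt.Div

set_option autoImplicit false

noncomputable section

namespace Pool.Agent.Lib.MP_778b46_nt.GX.Bu

open Finset

theorem BuN_tu_nonneg (n : ℕ) : 0 ≤ tu n := Nat.cast_nonneg _

theorem tu_pow (J L : ℕ) (hL : 1 ≤ L) : ∃ C : ℝ, 1 ≤ C ∧ ∀ (n : ℕ) (Z : ℝ), 1 ≤ Z →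
    (n : ℝ) ≤ Z ^ L → tu n ^ J ≤ C * Z := by
  rcases Nat.eq_zero_or_pos J with rfl | hJ
  · exact ⟨1, le_rfl, fun n Z hZ _ => by simpa using hZ⟩
  have hk : 0 < J * L := Nat.mul_pos hJ hL
  have hK : (1 : ℝ) ≤ ((((J * L) ^ (J * L)) ^ 2 ^ (J * L) : ℕ) : ℝ) := by
    exact_mod_cast Nat.one_le_pow _ _ (Nat.pow_pos hk)
  refine ⟨_, hK, fun n Z hZ hn => ?_⟩
  rcases eq_or_ne n 0 with rfl | hn0
  · rw [tu, Nat.divisors_zero, card_empty, Nat.cast_zero, zero_pow hJ.ne']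
    positivity
  have h1 : tu n ^ (J * L) ≤ n * ((((J * L) ^ (J * L)) ^ 2 ^ (J * L) : ℕ) : ℝ) := by
    unfold tu
    exact_mod_cast Pool.Agent.Lib.MP_2a1a00_nt.div_card_pow hk hn0
  generalize ((((J * L) ^ (J * L)) ^ 2 ^ (J * L) : ℕ) : ℝ) = K at hK h1 ⊢
  refine le_of_pow_le_pow_left₀ (n := L) (by omega) (by positivity) ?_
  rw [← pow_mul, mul_pow, mul_comm (K ^ L)]
  exact h1.trans (mul_le_mul hn (le_self_pow₀ hK (by omega)) (by positivity) (by positivity))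

theorem BuN_floor {x : ℝ} (hx : 1 ≤ x) : 1 ≤ ⌊x⌋₊ ∧ (⌊x⌋₊ : ℝ) ≤ x ∧ x ≤ 2 * ⌊x⌋₊ := by
  have h1 : 1 ≤ ⌊x⌋₊ := Nat.le_floor (by exact_mod_cast hx)
  have h2 : (1 : ℝ) ≤ ⌊x⌋₊ := by exact_mod_cast h1
  exact ⟨h1, Nat.floor_le (by linarith), by linarith [Nat.lt_floor_add_one x]⟩

theorem BuN_b1 {m : ℕ} {Z H X q : ℝ} (hZ : 1 ≤ Z) (hH : Z ≤ 2 * H) (hX : 1 ≤ X) (hq0 : 0 < q)
    (hq : q ≤ (Z ^ m) ^ 3) : Z ^ 23 * ((X / q + 1) * (H ^ (3 * m + 30) * q)) ≤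
      2 * 2 ^ (3 * m + 30) * (X * H ^ (2 * (3 * m + 30))) := by
  have hH0 : 0 ≤ H := by linarith
  have hP : (1 : ℝ) ≤ (Z ^ m) ^ 3 := one_le_pow₀ (one_le_pow₀ hZ)
  have h1 : X + q ≤ 2 * X * (Z ^ m) ^ 3 := by nlinarith
  have h2 : Z ^ 23 * (Z ^ m) ^ 3 ≤ 2 ^ (3 * m + 30) * H ^ (3 * m + 30) := by
    rw [← mul_pow, ← pow_mul, ← pow_add]
    exact (pow_le_pow_right₀ hZ (by omega)).trans (pow_le_pow_left₀ (by linarith) hH _)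
  calc Z ^ 23 * ((X / q + 1) * (H ^ (3 * m + 30) * q))
      = Z ^ 23 * (X + q) * H ^ (3 * m + 30) := by field_simp
    _ ≤ Z ^ 23 * (2 * X * (Z ^ m) ^ 3) * H ^ (3 * m + 30) := by gcongr
    _ = 2 * X * (Z ^ 23 * (Z ^ m) ^ 3) * H ^ (3 * m + 30) := by ring
    _ ≤ 2 * X * (2 ^ (3 * m + 30) * H ^ (3 * m + 30)) * H ^ (3 * m + 30) := by gcongr
    _ = _ := by ring

theorem BuN_b2 {Z X q : ℝ} (hZ : 1 ≤ Z) (hX : 0 ≤ X) (hq : Z ^ 100 ≤ q)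
    (h : √q * Z ^ 258 ≤ 2 * X) : Z ^ 24 * ((X / q + 1) * √q) ≤ 3 * X := by
  have hq0 : 0 < q := lt_of_lt_of_le (by positivity) hq
  have hs : Z ^ 24 ≤ √q := Real.le_sqrt_of_sq_le
    (by rw [← pow_mul]; exact (pow_le_pow_right₀ hZ (by norm_num)).trans hq)
  have hs0 : 0 ≤ √q := Real.sqrt_nonneg _
  have h1 : Z ^ 24 * (X / q * √q) ≤ X :=
    calc Z ^ 24 * (X / q * √q) ≤ √q * (X / q * √q) := by gcongr
      _ = X / q * (√q * √q) := by ring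
      _ = X := by rw [Real.mul_self_sqrt hq0.le]; field_simp
  have h2 : Z ^ 24 * √q ≤ 2 * X := by
    rw [mul_comm]
    exact (mul_le_mul_of_nonneg_left (pow_le_pow_right₀ hZ (by norm_num)) hs0).trans h
  linarith [show Z ^ 24 * ((X / q + 1) * √q) = Z ^ 24 * (X / q * √q) + Z ^ 24 * √q by ring]

theorem caseA (hW : WeilAny) (m : ℕ) : ∃ E : ℝ, 2 ≤ E ∧ ∀ (q1 q2 R N : ℕ) [NeZero q1]
    (χ1 : DirichletCharacter ℂ q1) (χ2 : DirichletCharacter ℂ q2) (Z β : ℝ), χ1.IsPrimitive →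
    CubeFree q1 → q1.Coprime q2 → q2 ∣ R ^ 5 → R ^ 3 ∣ q2 → q2 ≠ 0 → 1 ≤ Z →
    ((q1 * q2 : ℕ) : ℝ) = (Z ^ m) ^ 3 → Z ^ 100 ≤ q1 → Z ^ m * Z ^ 130 ≤ N →
    (N : ℝ) ≤ (Z ^ m) ^ 6 → 0 ≤ β → β ≤ 1 → E ≤ β ^ (2 * (3 * m + 30)) * Z →
    ‖SS (fun n => χ1 n * χ2 n) N‖ ≤ 3 * β * N := by
  obtain ⟨J, C, hC, hM⟩ := moment hW (3 * m + 30)
  obtain ⟨C1, hC1, h1⟩ := tu_pow 1 (12 * m + 1) (by omega)
  obtain ⟨C2, hC2, h2⟩ := tu_pow 2 (3 * m + 1) (by omega)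
  obtain ⟨C3, hC3, h3⟩ := tu_pow J (3 * m + 1) (by omega)
  obtain ⟨K, hK⟩ : ∃ K : ℝ, K = 2 * C2 * (2 ^ (3 * m + 30 + 1)) ^ 5 * C1 * C := ⟨_, rfl⟩
  have hK0 : 0 ≤ K := by rw [hK]; positivity
  have hK1 : 0 ≤ K * (2 * 2 ^ (3 * m + 30) + 3 * C3) := by positivity
  refine ⟨K * (2 * 2 ^ (3 * m + 30) + 3 * C3) + 2, by linarith, ?_⟩
  intro q1 q2 R N _ χ1 χ2 Z β hχ hcf hco h5 hR3 hq2 hZ hq hq1 hN hN' hβ hβ1 hE
  have hR0 : R ≠ 0 := by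
    rintro rfl
    exact hq2 (by simpa using hR3)
  have hR1 : (1 : ℝ) ≤ R := by exact_mod_cast Nat.pos_of_ne_zero hR0
  have hq10 : (1 : ℝ) ≤ q1 := by exact_mod_cast Nat.pos_of_ne_zero (NeZero.ne q1)
  have hP : (1 : ℝ) ≤ Z ^ m := one_le_pow₀ hZ
  have hRq : (q1 : ℝ) * R ^ 3 ≤ (Z ^ m) ^ 3 := by
    rw [← hq]
    exact_mod_cast Nat.mul_le_mul_left q1 (Nat.le_of_dvd (Nat.pos_of_ne_zero hq2) hR3)
  have hR31 : (1 : ℝ) ≤ R ^ 3 := one_le_pow₀ hR1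
  have hqP : (q1 : ℝ) ≤ (Z ^ m) ^ 3 := by nlinarith
  have hRP : (R : ℝ) ≤ Z ^ m :=
    le_of_pow_le_pow_left₀ (n := 3) (by norm_num) (by positivity) (by nlinarith)
  have hRZ : (R : ℝ) * Z ^ 2 ≤ N :=
    (mul_le_mul hRP (pow_le_pow_right₀ hZ (by norm_num)) (by positivity) (by positivity)).trans hN
  have hRZ0 : 0 < (R : ℝ) * Z ^ 2 := by positivity
  have hRZ1 : 1 ≤ (R : ℝ) * Z ^ 2 := one_le_mul_of_one_le_of_one_le hR1 (one_le_pow₀ hZ)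
  obtain ⟨hA1, hA2, hA3⟩ := BuN_floor ((one_le_div hRZ0).2 hRZ)
  obtain ⟨hH1, hH2, hH3⟩ := BuN_floor hZ
  generalize ⌊(N : ℝ) / (R * Z ^ 2)⌋₊ = A at hA1 hA2 hA3
  generalize ⌊Z⌋₊ = H at hH1 hH2 hH3
  rw [le_div_iff₀ hRZ0] at hA2
  rw [div_le_iff₀ hRZ0] at hA3
  have hA0 : (1 : ℝ) ≤ A := by exact_mod_cast hA1
  have hN1 : (1 : ℝ) ≤ N := hRZ1.trans hRZ
  have hAN : (A : ℝ) ≤ N := by nlinarith
  have hq3 : (q1 : ℝ) ≤ Z ^ (3 * m + 1) := by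
    refine hqP.trans ?_
    rw [← pow_mul]
    exact pow_le_pow_right₀ hZ (by omega)
  have hβZ : 1 ≤ β * Z := by
    have := pow_le_of_le_one hβ hβ1 (n := 2 * (3 * m + 30)) (by omega)
    have := mul_le_mul_of_nonneg_right this (zero_le_one.trans hZ)
    linarith
  refine coreA χ1 χ2 (3 * m + 30) R A H N (by omega) hA1 hH1
    (Nat.Coprime.coprime_dvd_left ((dvd_pow_self R (by norm_num)).trans hR3) hco.symm) h5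
    (C1 * Z) _ β (by positivity) (fun n _ hn => ?_) (hM q1 hcf χ1 hχ H) hβ ?_ ?_
  · have hn' : (n : ℝ) ≤ N * A := by exact_mod_cast hn
    have := h1 n Z hZ (hn'.trans ((mul_le_mul hN' (hAN.trans hN') (by positivity)
      (by positivity)).trans (by
        rw [← pow_mul, ← pow_add]; exact pow_le_pow_right₀ hZ (by omega))))
    rwa [pow_one] at this
  · refine le_of_mul_le_mul_right ?_ (zero_lt_one.trans_le hZ)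
    calc (A * R * H : ℝ) * Z ≤ A * R * Z * Z := by gcongr
      _ = A * (R * Z ^ 2) := by ring
      _ ≤ N := hA2
      _ ≤ β * Z * N := le_mul_of_one_le_left (by positivity) hβZ
      _ = _ := by ring
  have hX : (1 : ℝ) ≤ N * A := one_le_mul_of_one_le_of_one_le hN1 hA0
  have hsR : √q1 * R ≤ (Z ^ m) ^ 2 := by
    refine le_of_pow_le_pow_left₀ (n := 2) (by norm_num) (by positivity) ?_
    rw [mul_pow, Real.sq_sqrt (by positivity), ← pow_mul]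
    calc (q1 : ℝ) * R ^ 2 ≤ q1 * R ^ 3 := by gcongr; norm_num
      _ ≤ (Z ^ m) ^ 3 := hRq
      _ ≤ _ := pow_le_pow_right₀ hP (by norm_num)
  have hs : √q1 * Z ^ 258 ≤ 2 * (N * A : ℝ) := by
    refine le_of_mul_le_mul_right ?_ hRZ0
    calc √q1 * Z ^ 258 * (R * Z ^ 2) = √q1 * R * Z ^ 260 := by ring
      _ ≤ (Z ^ m) ^ 2 * Z ^ 260 := by gcongr
      _ = (Z ^ m * Z ^ 130) * (Z ^ m * Z ^ 130) := by ring
      _ ≤ N * (2 * A * (R * Z ^ 2)) :=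
        mul_le_mul hN (hN.trans hA3) (by positivity) (by positivity)
      _ = _ := by ring
  have b1 := BuN_b1 hZ hH3 hX (zero_lt_one.trans_le hq10) hqP
  have b2 := BuN_b2 hZ (zero_le_one.trans hX) hq1 hs
  have a1 := h2 q1 Z hZ hq3
  have a3 := h3 q1 Z hZ hq3
  have a2 : (2 : ℝ) ^ (3 * m + 30) * (H : ℝ) ^ 4 + 1 ≤ 2 ^ (3 * m + 30 + 1) * Z ^ 4 := by
    have e1 : (1 : ℝ) ≤ 2 ^ (3 * m + 30) * Z ^ 4 :=
      one_le_mul_of_one_le_of_one_le (one_le_pow₀ one_le_two) (one_le_pow₀ hZ)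
    have e2 : (2 : ℝ) ^ (3 * m + 30) * (H : ℝ) ^ 4 ≤ 2 ^ (3 * m + 30) * Z ^ 4 := by gcongr
    rw [pow_succ 2 (3 * m + 30)]
    linarith
  have t0 := BuN_tu_nonneg q1
  generalize 3 * m + 30 = r at *
  generalize (N * A : ℝ) = X at *
  refine le_of_mul_le_mul_left ?_ (zero_lt_one.trans_le hZ)
  calc Z * (2 * tu q1 ^ 2 * (2 ^ r * (H : ℝ) ^ 4 + 1) ^ 5 * (X / q1 + 1) * (C1 * Z) *
        (C * ((H : ℝ) ^ r * q1 + tu q1 ^ J * (H : ℝ) ^ (2 * r) * √q1)))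
      ≤ Z * (2 * (C2 * Z) * (2 ^ (r + 1) * Z ^ 4) ^ 5 * (X / q1 + 1) * (C1 * Z) *
        (C * ((H : ℝ) ^ r * q1 + C3 * Z * (H : ℝ) ^ (2 * r) * √q1))) := by gcongr
    _ = K * (Z ^ 23 * ((X / q1 + 1) * ((H : ℝ) ^ r * q1)) +
        C3 * (H : ℝ) ^ (2 * r) * (Z ^ 24 * ((X / q1 + 1) * √q1))) := by rw [hK]; ring
    _ ≤ K * (2 * 2 ^ r * (X * (H : ℝ) ^ (2 * r)) + C3 * (H : ℝ) ^ (2 * r) * (3 * X)) := by gcongr
    _ = K * (2 * 2 ^ r + 3 * C3) * (X * (H : ℝ) ^ (2 * r)) := by ring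
    _ ≤ β ^ (2 * r) * Z * (X * (H : ℝ) ^ (2 * r)) :=
      mul_le_mul_of_nonneg_right (by linarith) (by positivity)
    _ = _ := by ring

theorem caseB (m : ℕ) (hm : 263 ≤ m) : ∃ E : ℝ, 2 ≤ E ∧ ∀ (q ρ N : ℕ) [NeZero q]
    (χ : DirichletCharacter ℂ q) (Z β : ℝ), χ.IsPrimitive → 1 ≤ ρ → q ∣ ρ ^ 5 → 1 ≤ Z →
    (q : ℝ) = (Z ^ m) ^ 3 → (ρ : ℝ) ≤ Z ^ m * Z ^ 100 → Z ^ m * Z ^ 130 ≤ N →
    0 ≤ β → β ≤ 1 → E ≤ β ^ 16 * Z → ‖SS (fun n => χ n) N‖ ≤ 13 * β * N := by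
  obtain ⟨C, hC, h6⟩ := tu_pow 6 (3 * m) (by omega)
  refine ⟨6 * C, by linarith, ?_⟩
  intro q ρ N _ χ Z β hχ hρ h5 hZ hq hρ' hN hβ hβ1 hE
  have hZ0 : 0 < Z := zero_lt_one.trans_le hZ
  obtain ⟨k, t, hk, ht1, ht, ht', hg⟩ := bu_select q ρ (NeZero.ne q) hρ h5 (Z ^ 7)
    (one_le_pow₀ hZ) (by
      calc (ρ : ℝ) ^ 2 * (Z ^ 7) ^ 9 ≤ (Z ^ m * Z ^ 100) ^ 2 * (Z ^ 7) ^ 9 := by gcongr
        _ = (Z ^ m) ^ 2 * Z ^ 263 := by ring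
        _ ≤ (Z ^ m) ^ 2 * Z ^ m := by gcongr
        _ = q := by rw [hq]; ring)
  obtain ⟨-, hH2, hH3⟩ := BuN_floor hZ
  generalize ⌊Z⌋₊ = H at hH2 hH3
  have hb : 0 ≤ β ^ 16 := by positivity
  refine coreB χ hχ k t H N hk ht1 ht β hβ hβ1 ?_ ?_ ?_
  · calc (t * H : ℝ) ≤ Z ^ m * Z ^ 100 * (Z ^ 7) ^ 4 * Z :=
          mul_le_mul (ht'.trans (by gcongr)) hH2 (by positivity) (by positivity)
      _ = 1 * (Z ^ m * Z ^ 129) := by ring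
      _ ≤ β ^ 16 * Z * (Z ^ m * Z ^ 129) := by gcongr; linarith
      _ = β ^ 16 * (Z ^ m * Z ^ 130) := by ring
      _ ≤ _ := by gcongr
  · have := mul_le_mul_of_nonneg_left hH3 hb
    linarith
  · have a1 := h6 q Z hZ (by rw [hq, ← pow_mul, mul_comm])
    have t0 := BuN_tu_nonneg q
    have a2 : 6 * C ≤ (β ^ 16 * Z) ^ 2 := by nlinarith
    refine le_of_mul_le_mul_left ?_ (pow_pos hZ0 2)
    calc Z ^ 2 * (6 * (H : ℝ) ^ 4 * (Nat.gcd q (t ^ k) : ℕ) * tu q ^ 6)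
        ≤ Z ^ 2 * (6 * Z ^ 4 * (Nat.gcd q (t ^ k) : ℕ) * (C * Z)) := by gcongr
      _ = 6 * C * ((Nat.gcd q (t ^ k) : ℕ) * Z ^ 7) := by ring
      _ ≤ (β ^ 16 * Z) ^ 2 * q := mul_le_mul a2 hg (by positivity) (by positivity)
      _ = _ := by ring

end Pool.Agent.Lib.MP_778b46_nt.GX.Bu
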