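import Pool.Agent.Lib.MP_778b46_nt.GX.BuA

set_option autoImplicit false

noncomputable section

namespace Pool.Agent.Lib.MP_778b46_nt.GX.Bu

open Finset

theorem but_index {G : Type} [CommGroup G] [Finite G] (H : Subgroup G) [IsCyclic H] {k : ℕ}
    (hk : 1 ≤ k) : Nat.card {w : G // w ^ k = 1} ≤ H.index * k := by
  set K := (powMonoidHom k : G →* G).ker with hK
  have h1 : Nat.card {w : G // w ^ k = 1} = Nat.card K := rfl
  rw [h1, ← (H.subgroupOf K).index_mul_card]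
  refine Nat.mul_le_mul (Nat.le_of_dvd (Nat.pos_of_ne_zero Subgroup.index_ne_zero_of_finite)
    (Subgroup.relIndex_dvd_index_of_normal H K)) ?_
  refine le_trans ?_ ((IsCyclic.card_powMonoidHom_ker H k).le.trans (Nat.gcd_le_right _ hk))
  refine Nat.card_le_card_of_injective
    (fun x => ⟨⟨(x.1 : G), x.2⟩, Subtype.ext x.1.2⟩) fun x y h => ?_
  exact Subtype.ext (Subtype.ext (congrArg (fun z => (z.1 : G)) h))

theorem but_cyc {G : Type} [CommGroup G] [Finite G] [IsCyclic G] {k : ℕ} (hk : 1 ≤ k) :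
    Nat.card {w : G // w ^ k = 1} ≤ k := by
  simpa using but_index (⊤ : Subgroup G) hk

theorem but_pp {p n k : ℕ} (hp : p.Prime) (hk : 1 ≤ k) :
    Nat.card {w : (ZMod (p ^ n))ˣ // w ^ k = 1} ≤ 2 * k := by
  have : NeZero (p ^ n) := ⟨pow_ne_zero _ hp.ne_zero⟩
  by_cases hc : IsCyclic (ZMod (p ^ n))ˣ
  · exact (but_cyc hk).trans (by omega)
  obtain rfl : p = 2 := by
    by_contra h2
    exact hc (ZMod.isCyclic_units_of_prime_pow p hp h2 n)
  obtain ⟨m, rfl⟩ : ∃ m, n = m + 2 := by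
    rw [ZMod.isCyclic_units_two_pow_iff] at hc
    exact ⟨n - 2, by omega⟩
  have h5 : Nat.Coprime 5 (2 ^ (m + 2)) := Nat.Coprime.pow_right _ (by norm_num)
  have ho : orderOf (ZMod.unitOfCoprime 5 h5) = 2 ^ m := by
    rw [← orderOf_units, ZMod.coe_unitOfCoprime, Nat.cast_ofNat, ZMod.orderOf_five]
  have hi := (Subgroup.zpowers (ZMod.unitOfCoprime 5 h5)).index_mul_card
  rw [Nat.card_zpowers, ho, Nat.card_eq_fintype_card, ZMod.card_units_eq_totient,
    Nat.totient_prime_pow Nat.prime_two (by omega)] at hi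
  have hi2 : (Subgroup.zpowers (ZMod.unitOfCoprime 5 h5)).index = 2 := by
    refine Nat.eq_of_mul_eq_mul_right (Nat.two_pow_pos m) (hi.trans ?_)
    simp [pow_succ, mul_comm]
  have h := but_index (Subgroup.zpowers (ZMod.unitOfCoprime 5 h5)) hk
  rwa [hi2] at h

theorem but_nu {k : ℕ} (hk : 1 ≤ k) (hk4 : k ≤ 4) (m : ℕ) (hm : m ≠ 0) :
    (Nat.card {w : (ZMod m)ˣ // w ^ k = 1} : ℝ) ≤ tu m ^ 3 := by
  induction m using Nat.recOnPosPrimePosCoprime with
  | prime_pow p n hp hn =>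
    have h1 : Nat.card {w : (ZMod (p ^ n))ˣ // w ^ k = 1} ≤ 8 := (but_pp hp hk).trans (by omega)
    have h2 := pow_le_pow_left₀ (by norm_num) (tu_pp hp hn) 3
    have h3 : (Nat.card {w : (ZMod (p ^ n))ˣ // w ^ k = 1} : ℝ) ≤ 8 := by exact_mod_cast h1
    linarith
  | zero => exact absurd rfl hm
  | one =>
    have h1 : Nat.card {w : (ZMod 1)ˣ // w ^ k = 1} ≤ 1 :=
      Finite.card_le_one_iff_subsingleton.2 inferInstance
    have h2 : (Nat.card {w : (ZMod 1)ˣ // w ^ k = 1} : ℝ) ≤ 1 := by exact_mod_cast h1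
    exact h2.trans (one_le_pow₀ (tu_pos one_ne_zero))
  | coprime a b ha hb hab iha ihb =>
    let e := (Units.mapEquiv (ZMod.chineseRemainder hab).toMulEquiv).trans MulEquiv.prodUnits
    have h1 : Nat.card {w : (ZMod (a * b))ˣ // w ^ k = 1} =
        Nat.card {w : (ZMod a)ˣ // w ^ k = 1} * Nat.card {w : (ZMod b)ˣ // w ^ k = 1} := by
      rw [← Nat.card_prod]
      refine Nat.card_congr ((e.toEquiv.subtypeEquiv fun w => ?_).trans Equiv.subtypeProdEquivProd)
      rw [← e.map_eq_one_iff, map_pow, Prod.ext_iff]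
      rfl
    rw [h1, tu_mul hab, mul_pow, Nat.cast_mul]
    exact mul_le_mul (iha (by omega)) (ihb (by omega)) (Nat.cast_nonneg _)
      (pow_nonneg (Nat.cast_nonneg _) 3)

theorem but_ann (q : ℕ) [NeZero q] (X : ℤ) :
    ((univ : Finset (ZMod q)).filter fun a => a * (X : ZMod q) = 0).card = Int.gcd q X := by
  have h := IsAddCyclic.card_nsmulAddMonoidHom_ker (ZMod q) X.natAbs
  rw [Nat.card_zmod] at h
  rw [Int.gcd, Int.natAbs_natCast, ← h, ← Fintype.card_subtype, ← Nat.card_eq_fintype_card]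
  refine Nat.card_congr (Equiv.subtypeEquivRight fun a => ?_)
  rw [AddMonoidHom.mem_ker, nsmulAddMonoidHom_apply, nsmul_eq_mul, mul_comm a]
  rcases Int.natAbs_eq X with h1 | h1
  · conv_lhs => rw [h1, Int.cast_natCast]
  · conv_lhs => rw [h1, Int.cast_neg, Int.cast_natCast, neg_mul, neg_eq_zero]

theorem but_cast (q : ℕ) [NeZero q] (X : ℤ) : ∃ (s : ℕ) (h : s ∣ q),
    ∀ a : ZMod q, a * (X : ZMod q) = 0 ↔ ZMod.castHom h (ZMod s) a = 0 := by
  have hg : 0 < Int.gcd q X := Int.gcd_pos_of_ne_zero_left _ (by exact_mod_cast NeZero.ne q)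
  obtain ⟨s, Y, h1, h2, h3⟩ := Int.exists_gcd_one hg
  have h4 : s.natAbs ∣ q := by
    rw [← Int.natCast_dvd_natCast, Int.natAbs_dvd]
    exact ⟨_, h2⟩
  refine ⟨s.natAbs, h4, fun a => ?_⟩
  obtain ⟨n, rfl⟩ := ZMod.intCast_surjective a
  rw [map_intCast, ← Int.cast_mul, ZMod.intCast_zmod_eq_zero_iff_dvd,
    ZMod.intCast_zmod_eq_zero_iff_dvd, Int.natAbs_dvd]
  generalize Int.gcd q X = g at hg h2 h3
  rw [h2, h3, ← mul_assoc, mul_dvd_mul_iff_right (by exact_mod_cast hg.ne')]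
  exact ⟨(Int.isCoprime_iff_gcd_eq_one.2 h1).dvd_of_dvd_mul_right, fun h => h.mul_right _⟩

/-- At most `8 ^ ω(m)` solutions of `w ^ k = 1`. -/
theorem nu_le (k m : ℕ) [NeZero m] (hk : 1 ≤ k) (hk4 : k ≤ 4) :
    (((univ : Finset (ZMod m)ˣ).filter fun w => w ^ k = 1).card : ℝ) ≤ tu m ^ 3 := by
  rw [← Fintype.card_subtype, ← Nat.card_eq_fintype_card]
  exact but_nu hk hk4 m (NeZero.ne m)

theorem mu_le (k q : ℕ) [NeZero q] (hk : 1 ≤ k) (hk4 : k ≤ 4) (X : ℤ) :
    (((univ : Finset (ZMod q)ˣ).filter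
      fun w : (ZMod q)ˣ => (X : ZMod q) * (w : ZMod q) ^ k = X).card : ℝ) ≤ (Int.gcd q X : ℕ) * tu q ^ 3 := by
  obtain ⟨s, hs, h⟩ := but_cast q X
  have : NeZero s := ⟨ne_zero_of_dvd_ne_zero (NeZero.ne q) hs⟩
  have h1 : ((univ : Finset (ZMod q)ˣ).filter
      fun w : (ZMod q)ˣ => (X : ZMod q) * (w : ZMod q) ^ k = X).card ≤
      Int.gcd q X * ((univ : Finset (ZMod s)ˣ).filter fun w => w ^ k = 1).card := by
    refine card_le_mul_card_image_of_maps_to (f := ZMod.unitsMap hs) (fun w hw => ?_) _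
      fun u _ => ?_
    · rw [mem_filter] at hw ⊢
      refine ⟨mem_univ _, Units.ext ?_⟩
      have h2 := (h ((w : ZMod q) ^ k - 1)).1 (by linear_combination hw.2)
      rw [map_sub, map_pow, map_one, sub_eq_zero] at h2
      exact h2
    · obtain ⟨w₀, rfl⟩ := ZMod.unitsMap_surjective hs u
      rw [← but_ann q X]
      refine card_le_card_of_injOn (fun w => (w : ZMod q) - w₀) (fun w hw => ?_) fun w _ w' _ e =>
        Units.ext (sub_left_injective e)
      rw [coe_filter] at hw ⊢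
      refine ⟨mem_univ _, (h _).2 ?_⟩
      rw [map_sub, sub_eq_zero]
      exact congrArg Units.val hw.2
  have h2 := (nu_le k s hk hk4).trans
    (pow_le_pow_left₀ (Nat.cast_nonneg _) (tu_mono (NeZero.ne q) hs) 3)
  refine le_trans ?_ (mul_le_mul_of_nonneg_left h2 (Nat.cast_nonneg _))
  exact_mod_cast h1

theorem but_fib {q : ℕ} [NeZero q] (k : ℕ) (x y : ZMod q) :
    ((univ : Finset (ZMod q)ˣ).filter fun w : (ZMod q)ˣ => x * (w : ZMod q) ^ k = y).card ≤
      ((univ : Finset (ZMod q)ˣ).filter fun w : (ZMod q)ˣ => x * (w : ZMod q) ^ k = x).card := by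
  rcases ((univ : Finset (ZMod q)ˣ).filter
    fun w : (ZMod q)ˣ => x * (w : ZMod q) ^ k = y).eq_empty_or_nonempty with h | ⟨z, hz⟩
  · rw [h]
    exact Nat.zero_le _
  refine card_le_card_of_injOn (fun w => w * z⁻¹) (fun w hw => ?_) fun w _ w' _ e =>
    mul_right_cancel e
  rw [coe_filter] at hw ⊢
  refine ⟨mem_univ _, ?_⟩
  rw [Units.val_mul, mul_pow, ← mul_assoc, hw.2, ← (mem_filter.1 hz).2, mul_assoc, ← mul_pow,
    Units.mul_inv, one_pow, mul_one]

theorem but_mean {q : ℕ} [NeZero q] (χ : DirichletCharacter ℂ q) (hχ : χ.IsPrimitive) (k : ℕ)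
    (x : ZMod q) (hx : x * x = 0) :
    ∑ b : ZMod q, ‖∑ w : (ZMod q)ˣ, χ (1 + b * x * (w : ZMod q) ^ k)‖ ^ 2 ≤
      q * (Fintype.card (ZMod q)ˣ *
        ((univ : Finset (ZMod q)ˣ).filter fun w : (ZMod q)ˣ => x * (w : ZMod q) ^ k = x).card) := by
  have h1 : ∀ w w' : (ZMod q)ˣ, ∑ b : ZMod q, χ (1 + b * x * (w : ZMod q) ^ k) *
      (starRingEnd ℂ) (χ (1 + b * x * (w' : ZMod q) ^ k)) =
      if x * (w : ZMod q) ^ k = x * (w' : ZMod q) ^ k then (q : ℂ) else 0 := by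
    intro w w'
    have h2 : ∀ b : ZMod q, χ (1 + b * x * (w : ZMod q) ^ k) *
        (starRingEnd ℂ) (χ (1 + b * x * (w' : ZMod q) ^ k)) =
        χ (1 + b * (x * (w : ZMod q) ^ k - x * (w' : ZMod q) ^ k)) := by
      intro b
      rw [bu_conj χ (v := 1 - b * x * (w' : ZMod q) ^ k)
        (by linear_combination -(b * (w' : ZMod q) ^ k) ^ 2 * hx), ← map_mul]
      congr 1
      linear_combination -(b ^ 2 * (w : ZMod q) ^ k * (w' : ZMod q) ^ k) * hx
    simp_rw [h2]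
    split_ifs with h
    · simp [h]
    · exact bu_add χ hχ _ (by linear_combination ((w : ZMod q) ^ k - (w' : ZMod q) ^ k) ^ 2 * hx)
        (sub_ne_zero.2 h)
  have h2 : ((∑ b : ZMod q, ‖∑ w : (ZMod q)ˣ, χ (1 + b * x * (w : ZMod q) ^ k)‖ ^ 2 : ℝ) : ℂ) =
      ((∑ w' : (ZMod q)ˣ, q * ((univ : Finset (ZMod q)ˣ).filter
        fun w : (ZMod q)ˣ => x * (w : ZMod q) ^ k = x * (w' : ZMod q) ^ k).card : ℕ) : ℂ) := by
    push_cast
    simp_rw [← Complex.mul_conj', map_sum, sum_mul_sum]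
    rw [sum_comm]
    simp_rw [sum_comm (s := (univ : Finset (ZMod q))), h1]
    rw [sum_comm]
    refine sum_congr rfl fun w' _ => ?_
    rw [← sum_filter, sum_const, nsmul_eq_mul, mul_comm]
  have h3 := sum_le_card_nsmul (univ : Finset (ZMod q)ˣ) _ _ fun w' _ =>
    Nat.mul_le_mul_left q (but_fib k x (x * (w' : ZMod q) ^ k))
  rw [← Complex.ofReal_natCast, Complex.ofReal_inj] at h2
  rw [h2]
  rw [card_univ, smul_eq_mul, mul_left_comm] at h3
  exact_mod_cast h3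

/-- Mean square of `T b = ∑ w, χ (1 + b X w ^ k)` over `b`, and `T (z ^ k) = T 1`. -/
theorem T_le {q : ℕ} [NeZero q] (χ : DirichletCharacter ℂ q) (hχ : χ.IsPrimitive) (k : ℕ)
    (hk : 1 ≤ k) (hk4 : k ≤ 4) (X : ℤ) (hX : (X : ZMod q) * X = 0) :
    ‖∑ w : (ZMod q)ˣ, χ (1 + (X : ZMod q) * (w : ZMod q) ^ k)‖ ^ 2 ≤
      q * (Int.gcd q X : ℕ) * tu q ^ 6 := by
  have hm := but_mean χ hχ k _ hX
  have hmu := mu_le k q hk hk4 X
  have hfib := but_fib k (X : ZMod q)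
  have hann := but_ann q X
  have hg : (0 : ℝ) < (Int.gcd q X : ℕ) := by
    exact_mod_cast Int.gcd_pos_of_ne_zero_left X (by exact_mod_cast NeZero.ne q)
  have hφ : (0 : ℝ) < Fintype.card (ZMod q)ˣ := by exact_mod_cast Fintype.card_pos
  generalize (X : ZMod q) = x at *
  generalize Int.gcd q X = g at *
  generalize ((univ : Finset (ZMod q)ˣ).filter
    fun w : (ZMod q)ˣ => x * (w : ZMod q) ^ k = x).card = μ at *
  set F : ZMod q → ℝ := fun b => ‖∑ w : (ZMod q)ˣ, χ (1 + b * x * (w : ZMod q) ^ k)‖ ^ 2 with hF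
  set T := ‖∑ w : (ZMod q)ˣ, χ (1 + x * (w : ZMod q) ^ k)‖ ^ 2 with hT
  have h1 : ∀ (z : (ZMod q)ˣ) (b : ZMod q), x * (z : ZMod q) ^ k = b * x → F b = T := by
    intro z b hb
    rw [hF, hT, ← Equiv.sum_comp (Equiv.mulLeft z)]
    simp only [Equiv.coe_mulLeft, Units.val_mul, mul_pow, ← hb, mul_assoc]
  have h2 : ∀ z : (ZMod q)ˣ,
      g * T = ∑ b : ZMod q, if x * (z : ZMod q) ^ k = b * x then F b else 0 := by
    intro z
    rw [← sum_filter, sum_congr rfl fun b hb => h1 z b (mem_filter.1 hb).2, sum_const,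
      nsmul_eq_mul, ← hann]
    congr 2
    refine card_equiv (Equiv.addRight ((z : ZMod q) ^ k)) fun a => ?_
    simp only [mem_filter, mem_univ, true_and, Equiv.coe_addRight]
    constructor <;> intro h <;> linear_combination -h
  have h3 : Fintype.card (ZMod q)ˣ * (g * T) ≤ μ * ∑ b, F b := by
    rw [← card_univ, ← nsmul_eq_mul, ← sum_const, sum_congr rfl fun z _ => h2 z, sum_comm, mul_sum]
    refine sum_le_sum fun b _ => ?_
    rw [← sum_filter, sum_const, nsmul_eq_mul]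
    exact mul_le_mul_of_nonneg_right (by exact_mod_cast hfib _) (sq_nonneg _)
  have h4 : g * T ≤ q * μ ^ 2 := by
    refine le_of_mul_le_mul_left (h3.trans ?_) hφ
    refine (mul_le_mul_of_nonneg_left hm (Nat.cast_nonneg μ)).trans_eq (by ring)
  refine le_of_mul_le_mul_left (h4.trans ?_) hg
  refine (mul_le_mul_of_nonneg_left (pow_le_pow_left₀ (Nat.cast_nonneg μ) hmu 2)
    (Nat.cast_nonneg q)).trans_eq (by ring)

end Pool.Agent.Lib.MP_778b46_nt.GX.Bu
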