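import Pool.Agent.Lib.MP_778b46_nt.GX.G1

/- Interfaces inside the numerical part. -/

namespace Pool.Agent.Lib.MP_778b46_nt.GX

open Finset

/-- A property of models. -/
abbrev MProp : Type 1 :=
  ∀ (Γ Ω ι : Type) [CommGroup Γ] [Fintype Ω] [Fintype ι], Dat Γ Ω ι → Prop

/-- The property holds in every clean model with a small error. -/
def Ev (φ : ℝ) (psF psC : List MP) (p : MProp) : Prop :=
  ∀ H : ℝ, 10 ≤ H → ∃ ε0 : ℝ, 0 < ε0 ∧ ∀ ε : ℝ, 0 < ε → ε ≤ ε0 →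
    ∀ (Γ Ω ι : Type) [CommGroup Γ] [Fintype Ω] [Fintype ι] (D : Dat Γ Ω ι),
      Clean D φ ε H psF psC → p Γ Ω ι D

section

variable {Γ Ω ι : Type} [CommGroup Γ] [Fintype Ω] [Fintype ι]

/-- All other zeros of the characters of the members of `S` lie beyond the line `l`. -/
def Dat.Cl (D : Dat Γ Ω ι) (l : ℝ) (S : Finset ι) : Prop :=
  ∀ j ∈ S, ∀ k, D.ch k = D.ch j → k ≠ j → l ≤ D.lam k

/-- Family inequality with line `l` and weight `w`. -/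
def Dat.Fam (D : Dat Γ Ω ι) (l : ℝ) (w : ℝ → ℝ) : Prop :=
  ∀ S : Finset ι, D.Cl l S → ∑ j ∈ S, w (D.lam j) ≤ 1

/-- Class inequality with line `l` and weight `w`. -/
def Dat.Cls (D : Dat Γ Ω ι) (l : ℝ) (w : ℝ → ℝ) : Prop :=
  ∀ S : Finset ι, D.Cl l S → (∀ j ∈ S, ∀ k ∈ S, D.sm (D.ch j / D.ch k)) →
    ∑ j ∈ S, w (D.lam j) ≤ 1

open Classical in
/-- The sum to be bounded. -/
noncomputable def Dat.Tot (D : Dat Γ Ω ι) (L : ℝ) : ℝ :=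
  ∑ i, ∑ j ∈ univ.filter (fun j => D.sm (D.ch i * D.ch j)),
    Real.exp (-(L * D.lam i)) * Real.exp (-(L * D.lam j))

/-- At most `n` primary zeros in `[sa, sb]`, in different classes; all others beyond `l`. -/
def Dat.Prim (D : Dat Γ Ω ι) (n : ℕ) (sa sb l : ℝ) : Prop :=
  ∃ Pr : Finset ι, Pr.card ≤ n ∧ (∀ p ∈ Pr, sa ≤ D.lam p ∧ D.lam p ≤ sb) ∧
    (∀ j, j ∉ Pr → l ≤ D.lam j) ∧ ∀ p ∈ Pr, ∀ p' ∈ Pr, D.sm (D.ch p / D.ch p') → p = p'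

end

/-- Lower bound for the real part of the transform of the triangle. -/
noncomputable def rho (T x y : ℝ) : ℝ :=
  (T * x - Real.exp (-(x * T)) - 1) / (x ^ 2 + y) + 2 * y / (x ^ 2 + y) ^ 2

/-- Conditions on a weight coming from a Gram inequality with the function `g1`. -/
def WtG (φ T l b d0 G A C lo : ℝ) (w : ℝ → ℝ) : Prop :=
  ∀ x : ℝ, lo ≤ x → w x ≤ 0 ∨ ∃ α d : ℝ, 0 ≤ α ∧ 0 < d ∧ d ≤ RR T (x - l) 0 - φ / 2 - d0 ∧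
    α * A ≤ d - G * C / d ∧ (l ≤ x → α * (1 + (x - l) * T / 2) ≤ 2 - b * T) ∧ w x * G ≤ α * d

/-- Conditions on a weight coming from the hybrid inequality with triangles. -/
def WtH (φ T l d0 G A C y1 y0 lo : ℝ) (w : ℝ → ℝ) : Prop :=
  ∀ x : ℝ, lo ≤ x → w x ≤ 0 ∨ ∃ α d : ℝ, 0 ≤ α ∧ 0 < d ∧
    d ≤ MP_e97e2b_nt.Ln.JJ T (l - x) - T * φ / 2 - d0 ∧ α * A ≤ d - G * C / d ∧
    (l ≤ x → 0 ≤ (T * (x - l) - Real.exp (-((x - l) * T)) - 1) * (x - l) ^ 2 +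
        y1 * (T * (x - l) - Real.exp (-((x - l) * T)) + 3) ∧
      α * A ≤ 2 * rho T (x - l) y1 ∧ α * A ≤ 2 * rho T (x - l) y0) ∧ w x * G ≤ α * d

/-- A piecewise linear function given by knots `(t, κ)`. -/
noncomputable def pl (kn : List (ℝ × ℝ)) (t : ℝ) : ℝ := (kn.map fun p => p.2 * max (t - p.1) 0).sum

section Row

variable {κF κC : Type} [Fintype κF] [Fintype κC]

open Classical in
/-- Combination of the family weights with line at most `a`. -/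
noncomputable def Phi (y lF : κF → ℝ) (wF : κF → ℝ → ℝ) (a x : ℝ) : ℝ :=
  ∑ k ∈ univ.filter (fun k => lF k ≤ a), y k * wF k x

/-- Classes without primary zero whose first zero lies in `[lo, hi)`. -/
def TypeOK (L : ℝ) (y lF : κF → ℝ) (wF : κF → ℝ → ℝ) (lC : κC → ℝ) (wC : κC → ℝ → ℝ)
    (lo hi : ℝ) : Prop :=
  ∀ σ : ℝ, Real.exp (-(L * hi)) ≤ σ → ∃ (p q ν : ℝ) (θ : κC → ℝ), 0 ≤ ν ∧ (∀ m, 0 ≤ θ m) ∧
    (∀ m, lo < lC m → θ m = 0) ∧ σ ^ 2 ≤ p * σ - q ∧ ∑ m, θ m - ν ≤ q ∧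
    ∀ x : ℝ, lo ≤ x → p * Real.exp (-(L * x)) + (if x < hi then ν else 0) ≤
      Phi y lF wF lo x + ∑ m, θ m * wC m x

/-- Classes without primary zero whose first zero lies beyond `lo`. -/
def LastOK (L : ℝ) (y lF : κF → ℝ) (wF : κF → ℝ → ℝ) (lC : κC → ℝ) (wC : κC → ℝ → ℝ)
    (lo : ℝ) : Prop :=
  ∀ σ : ℝ, 0 ≤ σ → ∃ (p q : ℝ) (θ : κC → ℝ), (∀ m, 0 ≤ θ m) ∧
    (∀ m, lo < lC m → θ m = 0) ∧ σ ^ 2 ≤ p * σ - q ∧ ∑ m, θ m ≤ q ∧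
    ∀ x : ℝ, lo ≤ x → p * Real.exp (-(L * x)) ≤ Phi y lF wF lo x + ∑ m, θ m * wC m x

/-- Classes with one primary zero. -/
def PrimOK (L : ℝ) (y lF : κF → ℝ) (wF : κF → ℝ → ℝ) (lC : κC → ℝ) (wC : κC → ℝ → ℝ)
    (sa sb l y0 : ℝ) : Prop :=
  ∀ σ : ℝ, Real.exp (-(L * sb)) ≤ σ → ∃ (p q : ℝ) (θ : κC → ℝ), (∀ m, 0 ≤ θ m) ∧
    (∀ m, sa < lC m → θ m = 0) ∧ σ ^ 2 ≤ p * σ - q ∧
    (∀ x : ℝ, l ≤ x → p * Real.exp (-(L * x)) ≤ Phi y lF wF sa x + ∑ m, θ m * wC m x) ∧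
    ∀ x : ℝ, sa ≤ x → x ≤ sb → p * Real.exp (-(L * x)) + ∑ m, θ m ≤
      q + y0 + Phi y lF wF l x + ∑ m, θ m * wC m x

end Row

/-- The conclusion of one row of the certificate. -/
def RowP (L : ℝ) (n : ℕ) (sa sb l : ℝ) : MProp := fun _ _ _ _ _ _ D =>
  D.Prim n sa sb l → D.Tot L ≤ 1 - 1 / 100

end Pool.Agent.Lib.MP_778b46_nt.GX
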