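import Pool.Agent.Lib.MP_778b46_nt.GX.Ce0

/- Properties holding in all clean models; the mollifier weights. -/

namespace Pool.Agent.Lib.MP_778b46_nt.GX

open Finset

theorem Ev.and {φ : ℝ} {psF psC : List MP} {p q : MProp} (hp : Ev φ psF psC p)
    (hq : Ev φ psF psC q) :
    Ev φ psF psC fun Γ Ω ι _ _ _ D => p Γ Ω ι D ∧ q Γ Ω ι D := by
  intro H hH
  obtain ⟨a, a0, ha⟩ := hp H hH
  obtain ⟨b, b0, hb⟩ := hq H hH
  exact ⟨min a b, lt_min a0 b0, fun ε h0 h1 Γ Ω ι _ _ _ D hD =>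
    ⟨ha ε h0 (h1.trans (min_le_left _ _)) Γ Ω ι D hD,
      hb ε h0 (h1.trans (min_le_right _ _)) Γ Ω ι D hD⟩⟩

/-- May use `Clean` again. -/
theorem Ev.mono {φ : ℝ} {psF psC : List MP} {p q : MProp} (hp : Ev φ psF psC p)
    (h : ∀ (Γ Ω ι : Type) [CommGroup Γ] [Fintype Ω] [Fintype ι] (D : Dat Γ Ω ι) (ε H : ℝ),
      Clean D φ ε H psF psC → p Γ Ω ι D → q Γ Ω ι D) : Ev φ psF psC q := by
  intro H hH
  obtain ⟨a, a0, ha⟩ := hp H hH
  exact ⟨a, a0, fun ε h0 h1 Γ Ω ι _ _ _ D hD => h Γ Ω ι D ε H hD (ha ε h0 h1 Γ Ω ι D hD)⟩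

theorem Ev.of_clean {φ : ℝ} {psF psC : List MP} {q : MProp}
    (h : ∀ (Γ Ω ι : Type) [CommGroup Γ] [Fintype Ω] [Fintype ι] (D : Dat Γ Ω ι) (ε H : ℝ),
      Clean D φ ε H psF psC → q Γ Ω ι D) : Ev φ psF psC q :=
  fun H _ => ⟨1, one_pos, fun ε _ _ Γ Ω ι _ _ _ D hD => h Γ Ω ι D ε H hD⟩

theorem Ev.finset {φ : ℝ} {psF psC : List MP} {κ : Type} {p : κ → MProp} (s : Finset κ)
    (hp : ∀ k ∈ s, Ev φ psF psC (p k)) :
    Ev φ psF psC fun Γ Ω ι _ _ _ D => ∀ k ∈ s, p k Γ Ω ι D := by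
  classical
  induction s using Finset.induction_on with
  | empty => exact Ev.of_clean fun _ _ _ _ _ _ _ _ _ _ k hk => absurd hk (notMem_empty k)
  | insert a s _ ih =>
    exact ((hp a (mem_insert_self a s)).and (ih fun k hk => hp k (mem_insert_of_mem hk))).mono
      fun _ _ _ _ _ _ _ _ _ _ h => forall_mem_insert _ _ _ |>.2 h

theorem Ev.all {φ : ℝ} {psF psC : List MP} {κ : Type} [Fintype κ] {p : κ → MProp}
    (hp : ∀ k, Ev φ psF psC (p k)) :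
    Ev φ psF psC fun Γ Ω ι _ _ _ D => ∀ k, p k Γ Ω ι D :=
  (Ev.finset univ fun k _ => hp k).mono fun _ _ _ _ _ _ _ _ _ _ h k => h k (mem_univ k)

theorem Ev.list {φ : ℝ} {psF psC : List MP} {κ : Type} {p : κ → MProp} (s : List κ)
    (hp : ∀ k ∈ s, Ev φ psF psC (p k)) :
    Ev φ psF psC fun Γ Ω ι _ _ _ D => ∀ k ∈ s, p k Γ Ω ι D := by
  classical
  exact (Ev.finset s.toFinset fun k hk => hp k (List.mem_toFinset.1 hk)).mono
    fun _ _ _ _ _ _ _ _ _ _ h k hk => h k (List.mem_toFinset.2 hk)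

theorem ce1e_sum {ι : Type} {S : Finset ι} {lam : ι → ℝ} {f : ℝ → ℝ} {lmin d0 ε : ℝ} (hd : 0 < d0)
    (hε : ε ≤ d0) (h : ∑ j ∈ S.filter (fun j => lmin ≤ lam j), f (lam j) ≤ 1 + ε) :
    ∑ j ∈ S, (if lmin ≤ lam j then f (lam j) / (1 + d0) else 0) ≤ 1 := by
  rw [← sum_filter, ← sum_div, div_le_one (by linarith)]
  linarith

theorem famM {φ d0 lmin : ℝ} {p : MP} {psF : List MP} (psC : List MP) (hp : p ∈ psF)
    (hd : 0 < d0) (hl : 0 ≤ lmin) :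
    Ev φ psF psC fun _ _ _ _ _ _ D =>
      D.Fam 0 fun x => if lmin ≤ x then p.m φ lmin x / (1 + d0) else 0 :=
  fun _ _ => ⟨d0, hd, fun _ _ h1 _ _ _ _ _ _ _ hD _ _ =>
    ce1e_sum hd h1 (hD.molF p hp _ lmin hl fun _ hj => (mem_filter.1 hj).2)⟩

theorem clsM {φ d0 lmin : ℝ} {p : MP} (psF : List MP) {psC : List MP} (hp : p ∈ psC)
    (hd : 0 < d0) (hl : 0 ≤ lmin) :
    Ev φ psF psC fun _ _ _ _ _ _ D =>
      D.Cls 0 fun x => if lmin ≤ x then p.m φ lmin x / (1 + d0) else 0 :=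
  fun _ _ => ⟨d0, hd, fun _ _ h1 _ _ _ _ _ _ _ hD _ _ hS =>
    ce1e_sum hd h1 (hD.molC p hp _ lmin hl (fun _ hj => (mem_filter.1 hj).2)
      fun j hj k hk => hS j (mem_filter.1 hj).1 k (mem_filter.1 hk).1)⟩

/-- The mollifier weight decays more slowly than `exp (-L x)`. -/
theorem m_mono {φ ph' lmin L x0 x : ℝ} {p : MP} (hφ : 0 ≤ φ) (hph : 0 ≤ ph') (hp : p.ok φ ph')
    (hl : 0 ≤ lmin) (hL : 2 * p.x1 ≤ L) (h0 : 0 ≤ x0) (hx : x0 ≤ x) :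
    0 ≤ p.m φ lmin x0 ∧
      p.m φ lmin x0 * Real.exp (-(L * x)) ≤ p.m φ lmin x * Real.exp (-(L * x0)) := by
  obtain ⟨a1, a2, a3, a4, a5, a6, a7, a8⟩ := hp
  have b1 : 0 < p.x1 - p.x0 := sub_pos.2 a7
  have b2 : 0 < p.u1 - p.u0 := sub_pos.2 a3
  have hE : ∀ b, 0 < p.E b := fun b => by
    rw [MP.E]
    positivity
  have hK : 0 ≤ Real.exp (p.sg * p.v) - Real.exp (p.sg * p.u) :=
    sub_nonneg.2 (Real.exp_le_exp.2 (mul_le_mul_of_nonneg_left a5.le a8.le))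
  have hx0 : 0 ≤ x := h0.trans hx
  have hV : ∀ y, 0 ≤ y → 0 < φ / 2 + 1 / (p.sg + y) := fun y hy => by positivity
  have hm : 0 ≤ p.m φ lmin x0 := by
    have := hE (p.sg + 2 * x0)
    have := hV x0 h0
    rw [MP.m]
    positivity
  refine ⟨hm, ?_⟩
  have h1 : ∀ c, c ≤ p.x1 → Real.exp ((p.sg + 2 * x) * c) * Real.exp (-(L * x)) ≤
      Real.exp ((p.sg + 2 * x0) * c) * Real.exp (-(L * x0)) := fun c hc => by
    rw [← Real.exp_add, ← Real.exp_add]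
    exact Real.exp_le_exp.2 (by nlinarith)
  have h2 : p.E (p.sg + 2 * x) * Real.exp (-(L * x)) ≤
      p.E (p.sg + 2 * x0) * Real.exp (-(L * x0)) := by
    simp only [MP.E, add_mul, div_mul_eq_mul_div]
    simp only [add_mul] at h1
    exact add_le_add
      (div_le_div_of_nonneg_right (add_le_add (h1 _ le_rfl) (h1 _ a7.le)) b1.le)
      (div_le_div_of_nonneg_right
        (add_le_add (h1 _ (by linarith)) (h1 _ (by linarith))) b2.le)
  have h3 : φ / 2 + 1 / (p.sg + x) ≤ φ / 2 + 1 / (p.sg + x0) := by gcongr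
  have h4 := hE (p.sg + 2 * x)
  have h5 := hE (p.sg + 2 * x0)
  have h6 := hV x hx0
  have h7 := hV x0 h0
  rw [MP.m, MP.m, div_mul_eq_mul_div, div_mul_eq_mul_div, div_le_div_iff₀ (by positivity)
    (by positivity)]
  calc _ = p.w * (p.sg + x0 + lmin) * (Real.exp (p.sg * p.v) - Real.exp (p.sg * p.u)) *
        ((p.E (p.sg + 2 * x) * Real.exp (-(L * x))) * (φ / 2 + 1 / (p.sg + x))) := by ring
    _ ≤ p.w * (p.sg + x + lmin) * (Real.exp (p.sg * p.v) - Real.exp (p.sg * p.u)) *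
        ((p.E (p.sg + 2 * x0) * Real.exp (-(L * x0))) * (φ / 2 + 1 / (p.sg + x0))) := by gcongr
    _ = _ := by ring

end Pool.Agent.Lib.MP_778b46_nt.GX
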