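import Pool.Agent.Lib.MP_778b46_nt.GX.GmE

/- Family and class inequalities with the function `g1`. -/

namespace Pool.Agent.Lib.MP_778b46_nt.GX

open Complex Finset
open Pool.Agent.Lib.MP_e97e2b_nt.Ln (Lap Tst cut)

theorem sq_cost {f k h : ℝ} (hk : 0 ≤ k) (hh : 0 ≤ h) (h1 : f ^ 2 ≤ k * h) (z : ℂ) :
    -(2 * (f * z.re)) ≤ k * ‖z‖ ^ 2 + h := by
  rw [Complex.sq_norm, normSq_apply]
  have h2 := mul_nonneg hk (mul_self_nonneg z.im)
  rcases hk.eq_or_lt with rfl | hk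
  · have : f = 0 := by nlinarith
    simpa [this] using hh
  · have : 0 ≤ k * (k * (z.re * z.re) + h + 2 * (f * z.re)) := by
      nlinarith [sq_nonneg (k * z.re + f)]
    have := (mul_nonneg_iff_of_pos_left hk).1 this
    linarith

theorem cost_sq (φ : ℝ) {H : ℝ} {f k h : ℝ → ℝ} {T b a : ℝ} (hk : Adm k T b) (hh : Adm h T a)
    (ha : a ≤ H) (h1 : ∀ t, 0 ≤ t → t ≤ T → f t ^ 2 ≤ k t * h t) :
    Cost φ H (cut f T) (cut k T) (RL h T 0 0) fun _ => 0 := by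
  classical
  obtain ⟨B, hB⟩ := hh.tst
  have hB0 : 0 ≤ B := by
    obtain ⟨g1, g2, -, -, -, -, h, -⟩ := hB
    exact (abs_nonneg _).trans h
  refine ⟨B, hB0, fun Γ Ω ι _ _ _ D ε psF psC hε hD a ha' => ?_⟩
  rcases isEmpty_or_nonempty ι with hι | ⟨⟨i⟩⟩
  · have h3 : 0 ≤ RL h T 0 0 := by
      rw [RL_eq hh.cont]
      refine intervalIntegral.integral_nonneg hh.T_nonneg fun t ht => ?_
      simpa using hh.nonneg t ht.1 ht.2
    simp only [Dat.U, Dat.Fm, univ_eq_empty, sum_empty]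
    simp
    positivity
  have h2 := hD.ef_adm hh hB ha 1 (y := 0)
    (by linarith [hD.mu_one i, abs_nonneg (D.mu i), abs_zero (α := ℝ)])
  rw [if_pos rfl, if_pos hD.sm_one, filter_false_of_mem fun k _ => hD.ne_one k, sum_empty] at h2
  have h3 : -(2 * ∑ ω, D.μ ω * cut f T (D.t ω) * (D.U a ω).re) ≤
      ∑ ω, D.μ ω * cut k T (D.t ω) * ‖D.U a ω‖ ^ 2 + D.E (cut h T) 0 1 := by
    rw [Dat.E, ← sum_add_distrib, mul_sum, ← sum_neg_distrib]
    refine sum_le_sum fun ω _ => ?_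
    have ht := (hD.t_pos ω).le
    have k2 := sq_cost (f := cut f T (D.t ω)) (hk.cut_nonneg ht) (hh.cut_nonneg ht) (by
      unfold cut
      split_ifs with h
      exacts [h1 _ ht h, by simp]) (D.U a ω)
    have k3 := mul_le_mul_of_nonneg_left k2 (hD.μ_nonneg ω)
    simp only [zero_mul, ofReal_zero, neg_zero, exp_zero, map_one, mul_one, one_re]
    linarith
  have h4 : D.Fm a (fun _ => 0) = 0 := by simp [Dat.Fm]
  have h5 : 0 ≤ ε * B * (∑ j, a j) ^ 2 := by positivity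
  linarith

theorem RL_gT {T : ℝ} (hT : 0 < T) (a x y : ℝ) : RL (gT T a) T x y = RR T (x - a) y := by
  rw [RL, Lap_gT_re hT, RR]
  simp only [add_re, neg_re, ofReal_re, mul_re, I_re, mul_zero, ofReal_im, I_im, mul_one, sub_self,
    add_zero, add_im, neg_im, neg_zero, mul_im, zero_add]
  rw [show -(-x + a) = x - a by ring]

theorem adm_gT {T a : ℝ} (hT : 1 / 2 ≤ T) (hT' : T ≤ 8) (ha : 0 ≤ a) : Adm (gT T a) T a := by
  have hT0 : 0 < T := by linarith
  refine ⟨hT0.le, hT', ⟨_, gT_tst hT hT' ha le_rfl⟩, fun t => gT_nonneg hT0 a, fun x y hx => ?_⟩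
  rw [RL_gT hT0]
  exact RR_nonneg hT0.le (by linarith) y

theorem cost_gT (φ : ℝ) {T l b H : ℝ} (hT : 1 / 2 ≤ T) (hT' : T ≤ 8) (hb : 0 ≤ b) (hbl : b ≤ l)
    (hl : l ≤ 5) (hH : 10 ≤ H) :
    Cost φ H (cut (gT T l) T) (cut (gT T b) T) (RR T (-(2 * l - b)) 0) fun _ => 0 := by
  have h := cost_sq φ (H := H) (f := gT T l) (adm_gT hT hT' hb)
    (adm_gT (a := 2 * l - b) hT hT' (by linarith)) (by linarith) fun t _ _ => le_of_eq (by
      have : Real.exp (l * t) * Real.exp (l * t) =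
          Real.exp (b * t) * Real.exp ((2 * l - b) * t) := by
        rw [← Real.exp_add, ← Real.exp_add]
        congr 1
        ring
      unfold gT
      linear_combination g1 (t / T) ^ 2 * this)
  rwa [RL_gT (by linarith), zero_sub] at h

theorem WtG.wtA {φ T l b d0 G A C lo c : ℝ} {w : ℝ → ℝ} (hw : WtG φ T l b d0 G A C lo w)
    (hT : 0 < T) (hb : 0 ≤ b) (hbT : b * T ≤ 2) (hc : 0 ≤ c) :
    WtA (gT T l) T (φ / 2 * gT T l 0 + d0) l G A C lo (fun y => RL (gT T b) T 0 y + 0 - c) w := by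
  intro x hx
  refine (hw x hx).imp_right fun ⟨α, d, h1, h2, h3, h4, h5, h6⟩ =>
    ⟨α, d, h1, h2, ?_, h4, fun hl y => ?_, h6⟩
  · rw [RL_gT hT, gT_zero]
    linarith
  · simp only [RL_gT hT, zero_sub]
    have k0 : 0 ≤ (x - l) * T := mul_nonneg (by linarith) hT.le
    have k1 := RR_lower hT.le (sub_nonneg.2 hl) y
    have k2 := RR_upper hT.le hb hbT y
    have k3 := RR_nonneg hT.le (sub_nonneg.2 hl) y
    have k4 := mul_nonneg h1 hc
    rcases le_total (RR T (-b) y) 0 with q | q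
    · nlinarith [mul_nonneg h1 (neg_nonneg.2 q)]
    · have k5 := mul_le_mul_of_nonneg_right (h5 hl) q
      have k6 : (1 + (x - l) * T / 2) * (α * RR T (-b) y) ≤
          (1 + (x - l) * T / 2) * (2 * RR T (x - l) y) := by linarith
      have k7 := le_of_mul_le_mul_left k6 (by linarith)
      linarith

theorem RR_pos {T x : ℝ} (hT : 0 < T) (hx : 0 ≤ x) : 0 < RR T (-x) 0 := by
  have h1 := RR_anti hT.le (neg_nonpos.2 hx)
  rw [RR_zero] at h1
  linarith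

/-- Family inequality with `f = gT T l`, `k = gT T b`, `f ^ 2 / k = gT T (2 l - b)`. -/
theorem famG {φ T l b d0 G A C lo : ℝ} {w : ℝ → ℝ} (psF psC : List MP) (hφ : 0 ≤ φ)
    (hT : 1 / 2 ≤ T) (hT' : T ≤ 8) (hb : 0 ≤ b) (hbl : b ≤ l) (hl : l ≤ 5) (hbT : b * T ≤ 2)
    (hlo : b ≤ lo) (hd : 0 < d0) (hG : RR T (-(2 * l - b)) 0 + d0 ≤ G) (hC : φ / 2 + d0 ≤ C)
    (hA : RR T (-b) 0 - φ / 2 ≤ A) (hA0 : 0 < A) (hw : WtG φ T l b d0 G A C lo w) :
    Ev φ psF psC fun _ _ _ _ _ _ D => (∀ i, lo ≤ D.lam i) → D.Fam l w := by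
  have hT0 : 0 < T := by linarith
  have h1 := RR_pos (x := 2 * l - b) hT0 (by linarith)
  refine evW psF psC (adm_gT hT hT' (hb.trans hbl)) (adm_gT hT hT' hb) (by linarith) (by linarith)
    (fun H hH => cost_gT φ hT hT' hb hbl hl hH) hd hG (by linarith) hA0 hφ ?_ ?_
    (hw.wtA hT0 hb hbT (by rw [gT_zero]; linarith)) hlo
  · rw [RL_gT hT0, gT_zero, zero_sub]
    linarith
  · rw [gT_zero]
    linarith

/-- Class inequality: the quotients are small, have no zeros and cost nothing. -/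
theorem clsG {φ T l b d0 G A C : ℝ} {w : ℝ → ℝ} (psF psC : List MP) (_hφ : 0 ≤ φ)
    (hT : 1 / 2 ≤ T) (hT' : T ≤ 8) (hb : 0 ≤ b) (hbl : b ≤ l) (hl : l ≤ 5) (hbT : b * T ≤ 2)
    (hd : 0 < d0) (hG : RR T (-(2 * l - b)) 0 + d0 ≤ G) (hC : d0 ≤ C)
    (hA : RR T (-b) 0 ≤ A) (hw : WtG φ T l b d0 G A C 0 w) :
    Ev φ psF psC fun _ _ _ _ _ _ D => D.Cls l w := by
  have hT0 : 0 < T := by linarith
  have h1 := RR_pos (x := 2 * l - b) hT0 (by linarith)
  have h2 := RR_pos hT0 hb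
  refine evC psF psC (adm_gT hT hT' (hb.trans hbl)) (adm_gT hT hT' hb) (by linarith) (by linarith)
    (fun H hH => cost_gT φ hT hT' hb hbl hl hH) hd hG (by linarith) (by linarith) ?_ hC
    (by simpa only [sub_zero] using hw.wtA hT0 hb hbT le_rfl)
  rw [RL_gT hT0, zero_sub]
  linarith

end Pool.Agent.Lib.MP_778b46_nt.GX
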