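import Pool.Agent.Lib.MP_778b46_nt.GX.GmB

/- The Gram inequality of the model for general test functions. -/

namespace Pool.Agent.Lib.MP_778b46_nt.GX

open Complex Finset Filter Topology
open Pool.Agent.Lib.MP_e97e2b_nt.Ln (Lap Tst cut)

/-- Real part of the Laplace transform at `-x + i y`. -/
noncomputable def RL (g : ℝ → ℝ) (T x y : ℝ) : ℝ := (Lap g T (-(x : ℂ) + (y : ℝ) * I)).re

/-- A test function on `[0, T]` whose transform has nonnegative real part left of `-a`. -/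
structure Adm (g : ℝ → ℝ) (T a : ℝ) : Prop where
  T_nonneg : 0 ≤ T
  T_le : T ≤ 8
  tst : ∃ B, Tst T B g
  nonneg : ∀ t, 0 ≤ t → t ≤ T → 0 ≤ g t
  pos : ∀ x y : ℝ, a ≤ x → 0 ≤ RL g T x y

theorem RL_eq {g : ℝ → ℝ} (hg : Continuous g) (T x y : ℝ) :
    RL g T x y = ∫ t in (0 : ℝ)..T, g t * Real.exp (-(x * t)) * Real.cos (y * t) := by
  unfold RL Lap
  have hc : Continuous fun t : ℝ => (g t : ℂ) * exp ((-(x : ℂ) + y * I) * t) := by fun_prop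
  rw [← reCLM_apply, ← reCLM.intervalIntegral_comp_comm (hc.intervalIntegrable _ _)]
  congr 1
  funext t
  rw [reCLM_apply, re_ofReal_mul, exp_re, mul_assoc]
  simp

theorem Adm.cont {g : ℝ → ℝ} {T a : ℝ} (h : Adm g T a) : Continuous g := by
  obtain ⟨B, g1, g2, h1, -⟩ := h.tst
  exact continuous_iff_continuousAt.2 fun t => (h1 t).continuousAt

theorem RL_neg {g : ℝ → ℝ} (hg : Continuous g) (T x y : ℝ) : RL g T x (-y) = RL g T x y := by
  simp only [RL_eq hg, neg_mul, Real.cos_neg]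

theorem Adm.cut_nonneg {g : ℝ → ℝ} {T a : ℝ} (h : Adm g T a) {t : ℝ} (ht : 0 ≤ t) :
    0 ≤ cut g T t := by
  unfold cut
  split_ifs with h1
  exacts [h.nonneg t ht h1, le_rfl]

theorem Adm.zero {g : ℝ → ℝ} {T a : ℝ} (h : Adm g T a) : 0 ≤ g 0 := h.nonneg 0 le_rfl h.T_nonneg

theorem Adm.mono {g : ℝ → ℝ} {T a b : ℝ} (h : Adm g T a) (hab : a ≤ b) : Adm g T b :=
  ⟨h.1, h.2, h.3, h.4, fun x y hx => h.5 x y (hab.trans hx)⟩

section

variable {Γ Ω ι : Type} [CommGroup Γ] [Fintype Ω] [Fintype ι] {D : Dat Γ Ω ι} {φ ε H : ℝ}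
  {psF psC : List MP}

open Classical in
theorem Clean.ef_adm (h : Clean D φ ε H psF psC) {g : ℝ → ℝ} {T a B : ℝ} (hg : Adm g T a)
    (hB : Tst T B g) (ha : a ≤ H) (ξ : Γ) {y : ℝ} (hy : |y| ≤ 4 * D.Ym) :
    D.E (cut g T) y ξ ≤ (if ξ = 1 then RL g T 0 y else 0) -
      ∑ k ∈ univ.filter (fun k => D.ch k = ξ), RL g T (D.lam k) (D.mu k - y) +
      (if D.sm ξ then 0 else φ / 2) * g 0 + ε * B := by
  have h1 := h.ef ξ y T B g hy hg.T_nonneg hg.T_le hB hg.zero fun z hz => by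
    have h2 := hg.pos (-z.re) z.im (by linarith)
    rwa [RL, ofReal_neg, neg_neg, re_add_im] at h2
  rw [← RL_neg hg.cont T 0 y]
  simpa only [RL, ofReal_zero, neg_zero, zero_add, ofReal_neg, neg_mul] using h1

theorem Clean.mu_one (h : Clean D φ ε H psF psC) (i : ι) : |D.mu i| ≤ 4 * D.Ym := by
  linarith [h.mu_le i, abs_nonneg (D.mu i)]

theorem Clean.mu_two (h : Clean D φ ε H psF psC) (i j : ι) : |D.mu i - D.mu j| ≤ 4 * D.Ym := by
  linarith [h.mu_le i, h.mu_le j, abs_nonneg (D.mu i), abs_sub (D.mu i) (D.mu j)]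

theorem Clean.ne_one (h : Clean D φ ε H psF psC) (i : ι) : D.ch i ≠ 1 :=
  fun e => h.sm_not i (e ▸ h.sm_one)

open Classical in
/-- The linear side. -/
theorem Clean.lin_le (h : Clean D φ ε H psF psC) {g : ℝ → ℝ} {T l B : ℝ} (hg : Adm g T l)
    (hB : Tst T B g) (hl : l ≤ H) (S : Finset ι) (j : ι)
    (hS : ∀ k, k ∉ S → D.ch k = D.ch j → l ≤ D.lam k) :
    D.E (cut g T) (D.mu j) (D.ch j) ≤
      -∑ k ∈ S.filter (fun k => D.ch k = D.ch j), RL g T (D.lam k) (D.mu k - D.mu j) +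
        φ / 2 * g 0 + ε * B := by
  have h1 := h.ef_adm hg hB hl (D.ch j) (h.mu_one j)
  rw [if_neg (h.ne_one j), if_neg (h.sm_not j)] at h1
  have h2 : ∑ k ∈ S.filter (fun k => D.ch k = D.ch j), RL g T (D.lam k) (D.mu k - D.mu j) ≤
      ∑ k ∈ univ.filter (fun k => D.ch k = D.ch j), RL g T (D.lam k) (D.mu k - D.mu j) :=
    sum_le_sum_of_subset_of_nonneg (filter_subset_filter _ (subset_univ S)) fun k hk hk' =>
      hg.pos _ _ (hS k (fun e => hk' (mem_filter.2 ⟨e, (mem_filter.1 hk).2⟩)) (mem_filter.1 hk).2)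
  linarith

open Classical in
/-- The quadratic side. -/
theorem Clean.pair_le (h : Clean D φ ε H psF psC) {g : ℝ → ℝ} {T b B : ℝ} (hg : Adm g T b)
    (hB : Tst T B g) (hb : b ≤ H) (i j : ι) (hm : D.sm (D.ch i / D.ch j) ∨ ∀ k, b ≤ D.lam k) :
    D.E (cut g T) (D.mu i - D.mu j) (D.ch i / D.ch j) ≤
      (if D.ch j = D.ch i then RL g T 0 (D.mu i - D.mu j) else 0) +
        (if D.sm (D.ch i / D.ch j) then 0 else φ / 2 * g 0) + ε * B := by
  have h1 := h.ef_adm hg hB hb (D.ch i / D.ch j) (h.mu_two i j)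
  have h2 : 0 ≤ ∑ k ∈ univ.filter (fun k => D.ch k = D.ch i / D.ch j),
      RL g T (D.lam k) (D.mu k - (D.mu i - D.mu j)) := sum_nonneg fun k hk => by
    rcases hm with hm | hm
    · exact absurd ((mem_filter.1 hk).2 ▸ hm) (h.sm_not k)
    · exact hg.pos _ _ (hm k)
  simp only [div_eq_one, eq_comm (a := D.ch i), ite_mul, zero_mul] at h1
  linarith

end

/-- The cost of comparing the linear form of `f` with the quadratic forms of `k` and `κ`. -/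
def Cost (φ H : ℝ) (f k : ℝ → ℝ) (G : ℝ) (κ : ℝ → ℝ) : Prop :=
  ∃ C : ℝ, 0 ≤ C ∧
    ∀ (Γ Ω ι : Type) [CommGroup Γ] [Fintype Ω] [Fintype ι] (D : Dat Γ Ω ι) (ε : ℝ)
      (psF psC : List MP), 0 ≤ ε → Clean D φ ε H psF psC → ∀ a : ι → ℝ, (∀ j, 0 ≤ a j) →
      -(2 * ∑ ω, D.μ ω * f (D.t ω) * (D.U a ω).re) ≤
        ∑ ω, D.μ ω * k (D.t ω) * ‖D.U a ω‖ ^ 2 + G + D.Fm a κ + ε * C * (1 + (∑ j, a j) ^ 2)

theorem Cost.mono {φ H G G' : ℝ} {f k κ κ' : ℝ → ℝ} (h : Cost φ H f k G κ) (hG : G ≤ G')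
    (hκ : ∀ y, κ y ≤ κ' y) : Cost φ H f k G' κ' := by
  obtain ⟨C, h0, h⟩ := h
  refine ⟨C, h0, fun Γ Ω ι _ _ _ D ε psF psC hε hC a ha => ?_⟩
  linarith [h Γ Ω ι D ε psF psC hε hC a ha, Fm_le D ha hκ]

theorem cost_slices {φ : ℝ} (hφ : 0 ≤ φ) (H : ℝ) {f k z : ℝ → ℝ} {T T2 l b : ℝ} (hf : Adm f T l)
    (hk : Adm k T2 b) (hz : Continuous z) (N : ℕ) (τ fh kl zl w : ℕ → ℝ) (h0 : τ 0 = 0)
    (hN : τ N = T) (h : ∀ i, i < N →
      SlOK φ (cut f T) (cut k T2) z (τ i) (τ (i + 1)) (fh i) (kl i) (zl i) (w i)) :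
    Cost φ H (cut f T) (cut k T2)
      (∑ i ∈ range N, (τ (i + 1) - τ i) * (fh i ^ 2 / (kl i + zl i * (w i / (τ (i + 1) - w i)))))
      fun y => ∫ t in (0 : ℝ)..T, z t * Real.cos (y * t) := by
  obtain ⟨C, hC, h1⟩ := slices hφ hz N τ fh kl zl w h0 (hN ▸ hf.T_le) h
    (fun t ht => hf.cut_nonneg ht) (fun t ht => if_neg (not_le.2 (hN ▸ ht)))
    fun t ht => hk.cut_nonneg ht
  exact ⟨C, hC, fun Γ Ω ι _ _ _ D ε psF psC hε hD a ha => hN ▸ h1 Γ Ω ι D ε H psF psC hε hD a ha⟩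

theorem cost_self (φ : ℝ) {H : ℝ} {f : ℝ → ℝ} {T l : ℝ} (hf : Adm f T l) (hl : l ≤ H)
    : Cost φ H (cut f T) (cut f T) (RL f T 0 0) fun _ => 0 := by
  classical
  obtain ⟨B, hB⟩ := hf.tst
  have hB0 : 0 ≤ B := by
    obtain ⟨g1, g2, -, -, -, -, h, -⟩ := hB
    exact (abs_nonneg _).trans h
  refine ⟨B, hB0, fun Γ Ω ι _ _ _ D ε psF psC hε hD a ha => ?_⟩
  rcases isEmpty_or_nonempty ι with hι | ⟨⟨i⟩⟩
  · have h3 : 0 ≤ RL f T 0 0 := by
      rw [RL_eq hf.cont]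
      refine intervalIntegral.integral_nonneg hf.T_nonneg fun t ht => ?_
      simpa using hf.nonneg t ht.1 ht.2
    simp only [Dat.U, Dat.Fm, univ_eq_empty, sum_empty]
    simp
    positivity
  have h1 := hD.ef_adm hf hB hl 1 (y := 0) (by linarith [hD.mu_one i, abs_nonneg (D.mu i), abs_zero (α := ℝ)])
  rw [if_pos rfl, if_pos hD.sm_one, filter_false_of_mem fun k _ => hD.ne_one k, sum_empty] at h1
  have h2 : -(2 * ∑ ω, D.μ ω * cut f T (D.t ω) * (D.U a ω).re) ≤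
      ∑ ω, D.μ ω * cut f T (D.t ω) * ‖D.U a ω‖ ^ 2 + D.E (cut f T) 0 1 := by
    rw [Dat.E, ← sum_add_distrib, mul_sum, ← sum_neg_distrib]
    refine sum_le_sum fun ω _ => ?_
    have k1 := mul_nonneg (hD.μ_nonneg ω) (hf.cut_nonneg (hD.t_pos ω).le)
    have k2 : -(2 * (D.U a ω).re) ≤ ‖D.U a ω‖ ^ 2 + 1 := by
      rw [Complex.sq_norm, normSq_apply]
      nlinarith [sq_nonneg ((D.U a ω).re + 1), mul_self_nonneg (D.U a ω).im]
    have k3 := mul_le_mul_of_nonneg_left k2 k1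
    simp only [zero_mul, ofReal_zero, neg_zero, exp_zero, map_one, mul_one, one_re]
    linarith
  have h3 : D.Fm a (fun _ => 0) = 0 := by simp [Dat.Fm]
  have h4 : 0 ≤ ε * B * (∑ j, a j) ^ 2 := by positivity
  linarith

open Classical in
/-- The raw Gram inequality. -/
theorem raw {φ H G : ℝ} {f k κ : ℝ → ℝ} {T T2 l b : ℝ} (hf : Adm f T l) (hk : Adm k T2 b)
    (hl : l ≤ H) (hb : b ≤ H) (hc : Cost φ H (cut f T) (cut k T2) G κ) {δ : ℝ} (hδ : 0 < δ) :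
    ∀ᶠ ε in 𝓝[>] (0 : ℝ), ∀ (Γ Ω ι : Type) [CommGroup Γ] [Fintype Ω] [Fintype ι]
      (D : Dat Γ Ω ι) (psF psC : List MP), Clean D φ ε H psF psC → ∀ S : Finset ι,
      (∀ j ∈ S, ∀ k, k ∉ S → D.ch k = D.ch j → l ≤ D.lam k) →
      ((∀ i ∈ S, ∀ j ∈ S, D.sm (D.ch i / D.ch j)) ∨ ∀ k, b ≤ D.lam k) →
      ∀ a : ι → ℝ, (∀ j, 0 ≤ a j) → (∀ j, j ∉ S → a j = 0) →
      2 * ∑ j, a j * (∑ i ∈ S.filter (fun i => D.ch i = D.ch j),
          RL f T (D.lam i) (D.mu i - D.mu j) - φ / 2 * f 0 - δ) ≤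
        G + δ + δ * (∑ j, a j) ^ 2 +
          φ / 2 * k 0 * ∑ i, ∑ j ∈ univ.filter (fun j => ¬D.sm (D.ch i / D.ch j)), a i * a j +
          D.Fm a fun y => RL k T2 0 y + κ y := by
  obtain ⟨B, hB⟩ := hf.tst
  obtain ⟨B2, hB2⟩ := hk.tst
  obtain ⟨C, hC0, hc⟩ := hc
  have ev : ∀ c : ℝ, ∀ᶠ ε in 𝓝[>] (0 : ℝ), ε * c ≤ δ := fun c => by
    have : Tendsto (fun ε : ℝ => ε * c) (𝓝[>] 0) (𝓝 (0 * c)) :=
      (tendsto_id.mul_const c).mono_left nhdsWithin_le_nhds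
    rw [zero_mul] at this
    exact this.eventually_le_const hδ
  filter_upwards [ev B, ev (B2 + C), ev C, self_mem_nhdsWithin] with ε e1 e2 e3 e4
  intro Γ Ω ι _ _ _ D psF psC hD S hS hm a ha ha'
  have h1 := hc Γ Ω ι D ε psF psC (le_of_lt e4) hD a ha
  rw [lin_eq, quad_eq D hD.norm_ev] at h1
  have h2 : ∑ j, a j * (∑ i ∈ S.filter (fun i => D.ch i = D.ch j),
      RL f T (D.lam i) (D.mu i - D.mu j) - φ / 2 * f 0 - δ) ≤
      -∑ j, a j * D.E (cut f T) (D.mu j) (D.ch j) := by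
    rw [← sum_neg_distrib]
    refine sum_le_sum fun j _ => ?_
    by_cases hj : j ∈ S
    · rw [← mul_neg]
      refine mul_le_mul_of_nonneg_left ?_ (ha j)
      linarith [hD.lin_le hf hB hl S j (hS j hj)]
    · simp [ha' j hj]
  have h3 : ∑ i, ∑ j, a i * a j * D.E (cut k T2) (D.mu i - D.mu j) (D.ch i / D.ch j) ≤
      ε * B2 * (∑ j, a j) ^ 2 +
        φ / 2 * k 0 * ∑ i, ∑ j ∈ univ.filter (fun j => ¬D.sm (D.ch i / D.ch j)), a i * a j +
        D.Fm a fun y => RL k T2 0 y := by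
    rw [sq, sum_mul_sum, Dat.Fm]
    simp only [mul_sum, sum_filter, ← sum_add_distrib]
    refine sum_le_sum fun i _ => sum_le_sum fun j _ => ?_
    by_cases hi : i ∈ S
    · by_cases hj : j ∈ S
      · have k1 := mul_le_mul_of_nonneg_left (hD.pair_le hk hB2 hb i j
          (hm.imp_left fun e => e i hi j hj)) (mul_nonneg (ha i) (ha j))
        split_ifs at k1 ⊢ <;> linarith
      · simp [ha' j hj]
    · simp [ha' i hi]
  have h4 := mul_le_mul_of_nonneg_right e2 (sq_nonneg (∑ j, a j))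
  rw [Fm_add]
  linarith

end Pool.Agent.Lib.MP_778b46_nt.GX
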