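import Pool.Agent.Lib.MP_778b46_nt.GX.Ce0
import Pool.Agent.Lib.MP_778b46_nt.GX.GmD
import Pool.Agent.Lib.MP_e97e2b_nt.Ln.K2

/- Tilted triangles and piecewise linear functions as test functions. -/

namespace Pool.Agent.Lib.MP_778b46_nt.GX

open Complex Finset
open Pool.Agent.Lib.MP_e97e2b_nt.Ln

/-- The tilted triangle. -/
noncomputable def tT (η T a t : ℝ) : ℝ := η * ((T - t) * Real.exp (a * t))

theorem tT_zero (η T a : ℝ) : tT η T a 0 = η * T := by simp [tT]

theorem tT_cont (η T a : ℝ) : Continuous (tT η T a) := by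
  unfold tT
  fun_prop

theorem RL_tT (η T a x y : ℝ) :
    RL (tT η T a) T x y = η * (II T (((a - x : ℝ) : ℂ) + y * I)).re := by
  rw [RL_eq (tT_cont η T a), II_re, ← intervalIntegral.integral_const_mul]
  refine intervalIntegral.integral_congr fun t _ => ?_
  simp only [tT, add_re, ofReal_re, mul_re, I_re, mul_zero, ofReal_im, I_im, mul_one, sub_self,
    add_zero, add_im, mul_im, zero_add]
  rw [show (a - x) * t = a * t + -(x * t) by ring, Real.exp_add]
  ring

theorem RL_tT_zero (η T a x : ℝ) : RL (tT η T a) T x 0 = η * JJ T (a - x) := by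
  rw [RL_tT, ofReal_zero, zero_mul, add_zero, II_ofReal, ofReal_re]

theorem adm_tT {η T a : ℝ} (hη : 0 ≤ η) (hT : 0 ≤ T) (hT8 : T ≤ 8) : Adm (tT η T a) T a := by
  refine ⟨hT, hT8, ?_, fun t _ ht => ?_, fun x y hx => ?_⟩
  · have hc : Continuous fun t : ℝ => η * (((T - t) * a ^ 2 - 2 * a) * Real.exp (a * t)) := by
      fun_prop
    obtain ⟨B, hB⟩ := (isCompact_Icc (a := (0 : ℝ)) (b := T)).exists_bound_of_continuousOn
      hc.continuousOn
    refine ⟨max B |η * (((T - T) * a - 1) * Real.exp (a * T))|,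
      fun t => η * (((T - t) * a - 1) * Real.exp (a * t)),
      fun t => η * (((T - t) * a ^ 2 - 2 * a) * Real.exp (a * t)),
      fun t => (k2_der T a t).1.const_mul η, fun t => (k2_der T a t).2.const_mul η, hc, ?_,
      le_max_right _ _, fun t h0 h1 => (hB t ⟨h0, h1⟩).trans (le_max_left _ _)⟩
    simp [tT]
  · exact mul_nonneg hη (mul_nonneg (sub_nonneg.2 ht) (Real.exp_pos _).le)
  · rw [RL_tT]
    refine mul_nonneg hη (II_re_nonneg hT ?_)
    simpa using hx

/-- Real part of the closed form. -/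
theorem tri_re (T a y : ℝ) (h : 0 < a ^ 2 + y ^ 2) :
    (II T ((a : ℂ) + y * I)).re =
      (exp (((a : ℂ) + y * I) * T) / ((a : ℂ) + y * I) ^ 2).re +
        (y ^ 2 - a ^ 2) / (a ^ 2 + y ^ 2) ^ 2 - T * a / (a ^ 2 + y ^ 2) := by
  have hn : normSq ((a : ℂ) + y * I) = a ^ 2 + y ^ 2 := normSq_add_mul_I a y
  have hz : (a : ℂ) + y * I ≠ 0 := fun e => by
    rw [e, map_zero] at hn
    exact h.ne hn
  have e1 : (exp (((a : ℂ) + y * I) * T) - 1 - ((a : ℂ) + y * I) * T) / ((a : ℂ) + y * I) ^ 2 =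
      exp (((a : ℂ) + y * I) * T) / ((a : ℂ) + y * I) ^ 2 - (((a : ℂ) + y * I) ^ 2)⁻¹ -
        T * ((a : ℂ) + y * I)⁻¹ := by
    field_simp
  have e2 : (((a : ℂ) + y * I) ^ 2).re = a ^ 2 - y ^ 2 := by
    simp only [sq, mul_re, add_re, ofReal_re, I_re, mul_zero, ofReal_im, I_im, mul_one, sub_self,
      add_zero, add_im, mul_im, zero_add]
  have e3 : ((a : ℂ) + y * I).re = a := by simp
  rw [II_closed T hz, e1, sub_re, sub_re, re_ofReal_mul, inv_re, inv_re, map_pow, hn, e2, e3]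
  ring

theorem tri_osc (T a y : ℝ) :
    |(exp (((a : ℂ) + y * I) * T) / ((a : ℂ) + y * I) ^ 2).re| ≤
      Real.exp (a * T) / (a ^ 2 + y ^ 2) := by
  refine (abs_re_le_norm _).trans (le_of_eq ?_)
  rw [norm_div, norm_exp, norm_pow, Complex.sq_norm, normSq_add_mul_I, re_mul_ofReal]
  simp

theorem tri_upper (T a y : ℝ) (h : 0 < a ^ 2 + y ^ 2) :
    (II T ((a : ℂ) + y * I)).re ≤ (Real.exp (a * T) + 1 - a * T) / (a ^ 2 + y ^ 2) := by
  have h1 := (abs_le.1 (tri_osc T a y)).2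
  have h2 : (y ^ 2 - a ^ 2) / (a ^ 2 + y ^ 2) ^ 2 ≤ 1 / (a ^ 2 + y ^ 2) := by
    rw [div_le_div_iff₀ (by positivity) h]
    have := mul_nonneg h.le (sq_nonneg a)
    nlinarith
  rw [tri_re T a y h, sub_div (Real.exp (a * T) + 1), add_div, mul_comm T a]
  linarith

theorem tri_lower (T x y : ℝ) (h : 0 < x ^ 2 + y ^ 2) :
    rho T x (y ^ 2) ≤ (II T (((-x : ℝ) : ℂ) + y * I)).re := by
  have h' : 0 < (-x) ^ 2 + y ^ 2 := by rwa [neg_sq]
  have h1 := (abs_le.1 (tri_osc T (-x) y)).1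
  rw [tri_re T (-x) y h']
  rw [neg_sq, neg_mul] at h1
  have e : rho T x (y ^ 2) = -(Real.exp (-(x * T)) / (x ^ 2 + y ^ 2)) +
      (y ^ 2 - (-x) ^ 2) / ((-x) ^ 2 + y ^ 2) ^ 2 - T * -x / ((-x) ^ 2 + y ^ 2) := by
    rw [rho, neg_sq]
    field_simp
    ring
  rw [e]
  linarith

/-- The real part decreases in the height up to `π / T`. -/
theorem tri_anti {T a y y' : ℝ} (hT : 0 ≤ T) (hy : |y| ≤ y') (hy' : y' * T ≤ Real.pi) :
    (II T ((a : ℂ) + y' * I)).re ≤ (II T ((a : ℂ) + y * I)).re := by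
  rw [II_re, II_re]
  refine intervalIntegral.integral_mono_on hT (Continuous.intervalIntegrable (by fun_prop) _ _)
    (Continuous.intervalIntegrable (by fun_prop) _ _) fun t ht => ?_
  simp only [add_re, ofReal_re, mul_re, I_re, mul_zero, ofReal_im, I_im, mul_one, sub_self,
    add_zero, add_im, mul_im, zero_add]
  refine mul_le_mul_of_nonneg_left ?_ (mul_nonneg (sub_nonneg.2 ht.2) (Real.exp_pos _).le)
  rw [← Real.cos_abs (y * t), abs_mul, abs_of_nonneg ht.1]
  exact Real.cos_le_cos_of_nonneg_of_le_pi (mul_nonneg (abs_nonneg _) ht.1)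
    ((mul_le_mul_of_nonneg_left ht.2 ((abs_nonneg _).trans hy)).trans hy')
    (mul_le_mul_of_nonneg_right hy ht.1)

/-- In the variable `u = 1 / (x ^ 2 + Y)` the function `rho` is a concave quadratic. -/
theorem rho_eq (T x Y : ℝ) (h : 0 < x ^ 2 + Y) :
    rho T x Y = (T * x - Real.exp (-(x * T)) + 1) * (x ^ 2 + Y)⁻¹ -
      2 * x ^ 2 * ((x ^ 2 + Y)⁻¹) ^ 2 := by
  rw [rho]
  field_simp
  ring

theorem rho_between {T x y1 y0 Y m : ℝ} (h1 : 0 < y1) (ha : y1 ≤ Y) (hb : Y ≤ y0)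
    (m1 : m ≤ rho T x y1) (m0 : m ≤ rho T x y0) : m ≤ rho T x Y := by
  have p1 : 0 < x ^ 2 + y1 := by positivity
  have p2 : 0 < x ^ 2 + Y := by linarith
  have p0 : 0 < x ^ 2 + y0 := by linarith
  rw [rho_eq _ _ _ p1] at m1
  rw [rho_eq _ _ _ p0] at m0
  rw [rho_eq _ _ _ p2]
  have q1 : (x ^ 2 + Y)⁻¹ ≤ (x ^ 2 + y1)⁻¹ := inv_anti₀ p1 (by linarith)
  have q0 : (x ^ 2 + y0)⁻¹ ≤ (x ^ 2 + Y)⁻¹ := inv_anti₀ p2 (by linarith)
  generalize (x ^ 2 + Y)⁻¹ = u at *
  generalize (x ^ 2 + y1)⁻¹ = u1 at *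
  generalize (x ^ 2 + y0)⁻¹ = u0 at *
  generalize T * x - Real.exp (-(x * T)) + 1 = c at *
  rcases le_total 0 (c - 2 * x ^ 2 * (u + u0)) with hc | hc
  · have := mul_nonneg (sub_nonneg.2 q0) hc
    nlinarith
  · have k1 : 0 ≤ 2 * x ^ 2 * (u1 - u0) := mul_nonneg (by positivity) (by linarith)
    have k2 : 0 ≤ (u1 - u) * (2 * x ^ 2 * (u + u1) - c) :=
      mul_nonneg (sub_nonneg.2 q1) (by linarith)
    nlinarith

theorem rho_far {T x y1 y0 Y : ℝ} (h1 : 0 < y1) (ha : y1 ≤ y0) (hb : y0 ≤ Y)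
    (hc : 0 ≤ (T * x - Real.exp (-(x * T)) - 1) * x ^ 2 +
      y1 * (T * x - Real.exp (-(x * T)) + 3)) : y0 * rho T x y0 ≤ Y * rho T x Y := by
  have key : ∀ Z : ℝ, 0 < Z → Z * rho T x Z =
      (T * x - Real.exp (-(x * T)) - 1) * (Z / (x ^ 2 + Z)) + 2 * (Z / (x ^ 2 + Z)) ^ 2 := by
    intro Z hZ
    have : 0 < x ^ 2 + Z := by positivity
    rw [rho]
    field_simp
  have mono : ∀ Z Z' : ℝ, 0 < Z → Z ≤ Z' → Z / (x ^ 2 + Z) ≤ Z' / (x ^ 2 + Z') := by
    intro Z Z' hZ hZ'
    have : 0 < Z' := by linarith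
    rw [div_le_div_iff₀ (by positivity) (by positivity)]
    have := mul_le_mul_of_nonneg_right hZ' (sq_nonneg x)
    nlinarith
  have p0 : 0 < y0 := by linarith
  have hc' : 0 ≤ (T * x - Real.exp (-(x * T)) - 1) + 4 * (y1 / (x ^ 2 + y1)) := by
    have p1 : 0 < x ^ 2 + y1 := by positivity
    have e : (T * x - Real.exp (-(x * T)) - 1) + 4 * (y1 / (x ^ 2 + y1)) =
        ((T * x - Real.exp (-(x * T)) - 1) * x ^ 2 +
          y1 * (T * x - Real.exp (-(x * T)) + 3)) / (x ^ 2 + y1) := by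
      field_simp
      ring
    rw [e]
    positivity
  rw [key y0 p0, key Y (by linarith)]
  have q1 := mono y1 y0 h1 ha
  have q2 := mono y0 Y p0 hb
  generalize Y / (x ^ 2 + Y) = v at *
  generalize y0 / (x ^ 2 + y0) = v0 at *
  generalize y1 / (x ^ 2 + y1) = v1 at *
  generalize T * x - Real.exp (-(x * T)) - 1 = c at *
  have : 0 ≤ (v - v0) * (c + 2 * (v + v0)) := mul_nonneg (sub_nonneg.2 q2) (by linarith)
  nlinarith

/-- The cap on the weights: a kernel bounded by `A` and by `A y0 / y ^ 2`. -/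
theorem tri_cap {T x α A K y1 y0 y : ℝ} (hT : 0 ≤ T) (hα : 0 ≤ α) (h1 : 0 < y1)
    (h1' : y1 * T ^ 2 ≤ 9.8) (hy : y1 ≤ y0)
    (hc : 0 ≤ (T * x - Real.exp (-(x * T)) - 1) * x ^ 2 +
      y1 * (T * x - Real.exp (-(x * T)) + 3))
    (m1 : α * A ≤ 2 * rho T x y1) (m0 : α * A ≤ 2 * rho T x y0) (hK : K ≤ A)
    (hK' : y ≠ 0 → K * y ^ 2 ≤ A * y0) :
    α * K ≤ 2 * (II T (((-x : ℝ) : ℂ) + y * I)).re := by
  have k0 := mul_le_mul_of_nonneg_left hK hα
  rcases le_total (y ^ 2) y1 with ha | ha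
  · have e : √y1 ^ 2 = y1 := Real.sq_sqrt h1.le
    have l1 := tri_lower T x √y1 (by rw [e]; positivity)
    rw [e] at l1
    have l2 : √y1 * T ≤ Real.pi := by
      refine (abs_le_of_sq_le_sq' ?_ Real.pi_pos.le).2
      rw [mul_pow, e]
      have := Real.pi_gt_d2
      nlinarith
    have l3 := tri_anti (a := -x) hT (Real.abs_le_sqrt ha) l2
    linarith
  · have p : 0 < y ^ 2 := by linarith
    have l1 := tri_lower T x y (by positivity)
    rcases le_total (y ^ 2) y0 with hb | hb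
    · have l2 := rho_between (T := T) (x := x) (m := α * A / 2) h1 ha hb (by linarith) (by linarith)
      linarith
    · have l2 := rho_far h1 hy hb hc
      have l3 := mul_le_mul_of_nonneg_left (hK' fun e => by simp [e] at p) hα
      have l4 := mul_le_mul_of_nonneg_left m0 (h1.le.trans hy)
      have l5 : α * K * y ^ 2 ≤ 2 * rho T x (y ^ 2) * y ^ 2 := by nlinarith
      linarith [le_of_mul_le_mul_right l5 p]

/-! ### Piecewise linear functions -/

theorem pl_nil (t : ℝ) : pl [] t = 0 := by simp [pl]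

theorem pl_cons (p : ℝ × ℝ) (kn : List (ℝ × ℝ)) (t : ℝ) :
    pl (p :: kn) t = p.2 * max (t - p.1) 0 + pl kn t := by simp [pl]

theorem pl_cont (kn : List (ℝ × ℝ)) : Continuous (pl kn) := by
  induction kn with
  | nil => exact continuous_const.congr fun t => (pl_nil t).symm
  | cons p kn ih =>
    have : Continuous fun t : ℝ => p.2 * max (t - p.1) 0 + pl kn t := by fun_prop
    exact this.congr fun t => (pl_cons p kn t).symm

/-- On an interval without knots in the interior the function is affine. -/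
theorem pl_aff (kn : List (ℝ × ℝ)) {u v t : ℝ} (h : ∀ p ∈ kn, p.1 ≤ u ∨ v ≤ p.1) (h1 : u ≤ t)
    (h2 : t ≤ v) : (v - u) * pl kn t = (v - t) * pl kn u + (t - u) * pl kn v := by
  induction kn with
  | nil => simp [pl_nil]
  | cons p kn ih =>
    have k := ih fun q hq => h q (List.mem_cons_of_mem _ hq)
    rw [pl_cons, pl_cons, pl_cons]
    rcases h p List.mem_cons_self with hp | hp
    · rw [max_eq_left (by linarith), max_eq_left (by linarith), max_eq_left (by linarith)]
      linarith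
    · rw [max_eq_right (by linarith), max_eq_right (by linarith), max_eq_right (by linarith)]
      linarith

theorem pl_ge (kn : List (ℝ × ℝ)) {u v t m : ℝ} (h : ∀ p ∈ kn, p.1 ≤ u ∨ v ≤ p.1) (huv : u < v)
    (h1 : u ≤ t) (h2 : t ≤ v) (m1 : m ≤ pl kn u) (m2 : m ≤ pl kn v) : m ≤ pl kn t := by
  have k := pl_aff kn h h1 h2
  have k1 := mul_le_mul_of_nonneg_left m1 (sub_nonneg.2 h2)
  have k2 := mul_le_mul_of_nonneg_left m2 (sub_nonneg.2 h1)
  refine le_of_mul_le_mul_left ?_ (sub_pos.2 huv)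
  linarith

theorem ramp_int {c T : ℝ} (g : ℝ → ℝ) (hg : Continuous g) (h0 : 0 ≤ c) (h1 : c ≤ T) :
    ∫ t in (0 : ℝ)..T, max (t - c) 0 * g t = ∫ t in c..T, (t - c) * g t := by
  have hc : Continuous fun t : ℝ => max (t - c) 0 * g t := by fun_prop
  rw [← intervalIntegral.integral_add_adjacent_intervals (b := c) (hc.intervalIntegrable _ _)
    (hc.intervalIntegrable _ _)]
  have e1 : ∫ t in (0 : ℝ)..c, max (t - c) 0 * g t = ∫ t in (0 : ℝ)..c, (0 : ℝ) := by
    refine intervalIntegral.integral_congr fun t ht => ?_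
    rw [Set.uIcc_of_le h0] at ht
    simp only [max_eq_right (sub_nonpos.2 ht.2), zero_mul]
  have e2 : ∫ t in c..T, max (t - c) 0 * g t = ∫ t in c..T, (t - c) * g t := by
    refine intervalIntegral.integral_congr fun t ht => ?_
    rw [Set.uIcc_of_le h1] at ht
    simp only [max_eq_left (sub_nonneg.2 ht.1)]
  rw [e1, e2, intervalIntegral.integral_zero, zero_add]

theorem pl_int (kn : List (ℝ × ℝ)) {T : ℝ} (g : ℝ → ℝ) (hg : Continuous g)
    (h : ∀ p ∈ kn, 0 ≤ p.1 ∧ p.1 ≤ T) :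
    ∫ t in (0 : ℝ)..T, pl kn t * g t =
      (kn.map fun p => p.2 * ∫ t in p.1..T, (t - p.1) * g t).sum := by
  induction kn with
  | nil => simp [pl_nil]
  | cons p kn ih =>
    have k := ih fun q hq => h q (List.mem_cons_of_mem _ hq)
    have hp := h p List.mem_cons_self
    have hc := pl_cont kn
    rw [List.map_cons, List.sum_cons, ← k, ← ramp_int g hg hp.1 hp.2,
      ← intervalIntegral.integral_const_mul,
      ← intervalIntegral.integral_add (Continuous.intervalIntegrable (by fun_prop) _ _)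
        (Continuous.intervalIntegrable (by fun_prop) _ _)]
    refine intervalIntegral.integral_congr fun t _ => ?_
    simp only [pl_cons]
    ring

theorem ramp_zero (c T : ℝ) : ∫ t in c..T, (t - c) * Real.cos (0 * t) = (T - c) ^ 2 / 2 := by
  have h : ∀ t ∈ Set.uIcc c T, HasDerivAt (fun t : ℝ => (t - c) * (t - c) / 2)
      ((t - c) * Real.cos (0 * t)) t := fun t _ => by
    refine ((((hasDerivAt_id t).sub_const c).mul ((hasDerivAt_id t).sub_const c)).div_const
      2).congr_deriv ?_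
    simp only [id, zero_mul, Real.cos_zero]
    ring
  rw [intervalIntegral.integral_eq_sub_of_hasDerivAt h (Continuous.intervalIntegrable
    (by fun_prop) _ _)]
  ring

theorem ramp_cos (c T : ℝ) {y : ℝ} (hy : y ≠ 0) :
    (∫ t in c..T, (t - c) * Real.cos (y * t)) * y ^ 2 =
      (T * (y * Real.sin (y * T)) + Real.cos (y * T)) - c * (y * Real.sin (y * T)) -
        Real.cos (y * c) := by
  have h : ∀ t ∈ Set.uIcc c T, HasDerivAt
      (fun t : ℝ => (t - c) * Real.sin (y * t) / y + Real.cos (y * t) / y ^ 2)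
      ((t - c) * Real.cos (y * t)) t := fun t _ => by
    have b : HasDerivAt (fun t => y * t) y t := by simpa using (hasDerivAt_id t).const_mul y
    refine (((((hasDerivAt_id t).sub_const c).mul b.sin).div_const y).add
      (b.cos.div_const (y ^ 2))).congr_deriv ?_
    simp only [id]
    field_simp
    ring
  rw [intervalIntegral.integral_eq_sub_of_hasDerivAt h (Continuous.intervalIntegrable
    (by fun_prop) _ _)]
  field_simp
  ring

theorem pl_far (kn : List (ℝ × ℝ)) (T : ℝ) {y : ℝ} (hy : y ≠ 0) :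
    (kn.map fun p => p.2 * ∫ t in p.1..T, (t - p.1) * Real.cos (y * t)).sum * y ^ 2 ≤
      (kn.map fun p => p.2).sum * (T * (y * Real.sin (y * T)) + Real.cos (y * T)) -
        (kn.map fun p => p.2 * p.1).sum * (y * Real.sin (y * T)) +
        (kn.map fun p => |p.2|).sum := by
  induction kn with
  | nil => simp
  | cons p kn ih =>
    simp only [List.map_cons, List.sum_cons]
    have k1 := ramp_cos p.1 T hy
    have k2 : -(p.2 * Real.cos (y * p.1)) ≤ |p.2| := by
      refine (neg_le_abs _).trans ?_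
      rw [abs_mul]
      exact mul_le_of_le_one_right (abs_nonneg _) (Real.abs_cos_le_one _)
    rw [add_mul, mul_assoc, k1]
    linarith

end Pool.Agent.Lib.MP_778b46_nt.GX
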