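import Pool.Agent.Lib.MP_778b46_nt.GX.GmE
import Pool.Agent.Lib.MP_778b46_nt.GX.Tri

/- The hybrid inequality with triangles in the form of weights. -/

namespace Pool.Agent.Lib.MP_778b46_nt.GX

open Finset
open Pool.Agent.Lib.MP_e97e2b_nt.Ln (JJ II cut norm_II_le)

theorem ce1h_knot {h : ℝ} (hh : 0 < h) (kn : List (ℕ × ℝ)) (i : ℕ) :
    ∀ p ∈ kn.map fun p : ℕ × ℝ => ((p.1 : ℝ) * h, p.2), p.1 ≤ (i : ℝ) * h ∨ (i + 1) * h ≤ p.1 := by
  intro p hp
  obtain ⟨q, -, rfl⟩ := List.mem_map.1 hp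
  rcases le_or_gt q.1 i with h1 | h1
  · exact Or.inl (mul_le_mul_of_nonneg_right (Nat.cast_le.2 h1) hh.le)
  · refine Or.inr (mul_le_mul_of_nonneg_right ?_ hh.le)
    exact_mod_cast h1

theorem ce1h_nonneg {h : ℝ} (hh : 0 < h) {N : ℕ} {kn : List (ℕ × ℝ)}
    (hz : ∀ i ≤ N, 0 ≤ pl (kn.map fun p => (p.1 * h, p.2)) (i * h)) {t : ℝ} (h0 : 0 ≤ t)
    (h1 : t ≤ N * h) : 0 ≤ pl (kn.map fun p => (p.1 * h, p.2)) t := by
  induction N with
  | zero =>
    have e : t = (0 : ℕ) * h := le_antisymm h1 (by simpa using h0)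
    rw [e]
    exact hz 0 le_rfl
  | succ n ih =>
    rcases le_total t (n * h) with h2 | h2
    · exact ih (fun i hi => hz i (hi.trans (Nat.le_succ n))) h2
    · have k := hz (n + 1) le_rfl
      push_cast at k h1
      exact pl_ge _ (ce1h_knot hh kn n) (by linarith) h2 h1 (hz n (Nat.le_succ n)) k

/-- Hybrid inequality: `f t = tri T t * exp (l t)`, `k t = η * tri T2 t * exp (b t)`, `z = pl kn`,
slices `[i h, (i + 1) h]`, `T = N h`, level `w = (i h - φ) / 2`, so that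
`w / (τ' - w) = (i h - φ) / ((i + 2) h + φ)`.  The knots are multiples of `h` at most `T`. -/
theorem famH {φ h T2 η l b d0 G A C y1 y0 lo : ℝ} {N : ℕ} {kn : List (ℕ × ℝ)} {w : ℝ → ℝ}
    {fh kl zl : ℕ → ℝ} (psF psC : List MP) (hφ : 0 ≤ φ) (hh : 0 < h) (hN : N * h ≤ T2)
    (hT2 : T2 ≤ 8) (hη : 0 ≤ η) (hb : 0 ≤ b) (hb' : b ≤ 5) (hl0 : 0 ≤ l) (hl : l ≤ 5)
    (hlo : b ≤ lo) (hd : 0 < d0) (hkn : ∀ p ∈ kn, p.1 ≤ N)
    (hk0 : (kn.map fun p => p.2).sum = 0) (hk1 : (kn.map fun p => p.2 * (p.1 : ℝ)).sum = 0)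
    (hz : ∀ i ≤ N, 0 ≤ pl (kn.map fun p => (p.1 * h, p.2)) (i * h))
    (hf : ∀ i < N, (N * h - i * h) * Real.exp (l * ((i + 1) * h)) ≤ fh i)
    (hk : ∀ i < N, 0 < kl i ∧ kl i ≤ η * (T2 - (i + 1) * h) * Real.exp (b * (i * h)))
    (hzl : ∀ i < N, zl i = 0 ∨ (φ < i * h ∧ 0 ≤ zl i ∧
      zl i ≤ pl (kn.map fun p => (p.1 * h, p.2)) (i * h) ∧
      zl i ≤ pl (kn.map fun p => (p.1 * h, p.2)) ((i + 1) * h)))
    (hG : ∑ i ∈ range N, h * (fh i ^ 2 / (kl i + zl i * ((i * h - φ) / ((i + 2) * h + φ)))) + d0 ≤ G)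
    (hC : η * T2 * φ / 2 + d0 ≤ C)
    (hA : η * JJ T2 b - η * T2 * φ / 2 + (kn.map fun p => p.2 * (N * h - p.1 * h) ^ 2 / 2).sum ≤ A)
    (hA0 : 0 < A) (hy1 : 0 < y1) (hy1' : y1 * (N * h) ^ 2 ≤ 9.8) (hy : y1 ≤ y0)
    (hJ : η * (Real.exp (b * T2) + 1 - b * T2) + (kn.map fun p => |p.2|).sum ≤ A * y0)
    (hw : WtH φ (N * h) l d0 G A C y1 y0 lo w) :
    Ev φ psF psC fun _ _ _ _ _ _ D => (∀ i, lo ≤ D.lam i) → D.Fam l w := by
  set kr : List (ℝ × ℝ) := kn.map fun p => (p.1 * h, p.2) with hkr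
  have hT : 0 ≤ (N : ℝ) * h := by positivity
  have hT20 : 0 ≤ T2 := hT.trans hN
  have af : Adm (tT 1 (N * h) l) (N * h) l := adm_tT zero_le_one hT (hN.trans hT2)
  have ak : Adm (tT η T2 b) T2 b := adm_tT hη hT20 hT2
  have hpos : ∀ i < N, 0 < kl i + zl i * ((i * h - φ) / ((i + 2) * h + φ)) := fun i hi => by
    rcases hzl i hi with e | ⟨e1, e2, -⟩
    · rw [e, zero_mul, add_zero]
      exact (hk i hi).1
    · have := sub_pos.2 e1
      have := (hk i hi).1
      positivity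
  have hrat : ∀ i : ℕ, (i * h - φ) / 2 / (((i + 1 : ℕ) : ℝ) * h - (i * h - φ) / 2) =
      (i * h - φ) / ((i + 2) * h + φ) := fun i => by
    have e : ((i + 1 : ℕ) : ℝ) * h - (i * h - φ) / 2 = ((i + 2) * h + φ) / 2 := by
      push_cast
      ring
    rw [e, div_div_div_cancel_right₀ two_ne_zero]
  have hc : ∀ H : ℝ, 10 ≤ H → Cost φ H (cut (tT 1 (N * h) l) (N * h)) (cut (tT η T2 b) T2)
      (∑ i ∈ range N, h * (fh i ^ 2 / (kl i + zl i * ((i * h - φ) / ((i + 2) * h + φ)))))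
      fun y => ∫ t in (0 : ℝ)..N * h, pl kr t * Real.cos (y * t) := fun H _ => by
    refine (cost_slices hφ H af ak (pl_cont kr) N (fun i => i * h) fh kl zl
      (fun i => (i * h - φ) / 2) (by simp) rfl fun i hi => ?_).mono
      (le_of_eq (sum_congr rfl fun i _ => ?_)) fun _ => le_rfl
    · have hi' : ((i : ℝ) + 1) * h ≤ N * h :=
        mul_le_mul_of_nonneg_right (by exact_mod_cast hi) hh.le
      have hi0 : 0 ≤ (i : ℝ) * h := by positivity
      have e : ((i + 1 : ℕ) : ℝ) * h = (i + 1) * h := by push_cast; rfl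
      refine ⟨by rw [e]; linarith, fun t h1 h2 => ?_, fun t h1 h2 => ?_, fun t h1 h2 => ?_,
        (hk i hi).1.le, ?_, ?_, by rw [hrat]; exact hpos i hi⟩
      · rw [e] at h2
        rw [cut, if_pos (h2.trans hi'), tT, one_mul]
        refine le_trans (mul_le_mul (by linarith) (Real.exp_le_exp.2
          (mul_le_mul_of_nonneg_left h2 hl0)) (Real.exp_pos _).le (by linarith)) (hf i hi)
      · rw [e] at h2
        rw [cut, if_pos (h2.trans (hi'.trans hN)), tT]
        refine (hk i hi).2.trans ?_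
        rw [mul_assoc]
        exact mul_le_mul_of_nonneg_left (mul_le_mul (by linarith) (Real.exp_le_exp.2
          (mul_le_mul_of_nonneg_left h1 hb)) (Real.exp_pos _).le (by linarith)) hη
      · rw [e] at h2
        rcases hzl i hi with e0 | ⟨-, -, e1, e2⟩
        · rw [e0]
          exact ce1h_nonneg hh hz (hi0.trans h1) (h2.trans hi')
        · exact pl_ge _ (ce1h_knot hh kn i) (by linarith) h1 h2 e1 e2
      · rcases hzl i hi with e0 | ⟨-, e1, -⟩
        exacts [e0.ge, e1]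
      · refine (hzl i hi).imp_right fun e1 => ⟨by linarith [e1.1], by linarith⟩
    · rw [hrat]
      push_cast
      ring
  have hG0 : 0 < G := by
    have : 0 ≤ ∑ i ∈ range N,
        h * (fh i ^ 2 / (kl i + zl i * ((i * h - φ) / ((i + 2) * h + φ)))) :=
      sum_nonneg fun i hi => mul_nonneg hh.le (div_nonneg (sq_nonneg _) (hpos i (mem_range.1 hi)).le)
    linarith
  have hkr' : ∀ p ∈ kr, 0 ≤ p.1 ∧ p.1 ≤ N * h := fun p hp => by
    obtain ⟨q, hq, rfl⟩ := List.mem_map.1 hp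
    exact ⟨by positivity, mul_le_mul_of_nonneg_right (Nat.cast_le.2 (hkn q hq)) hh.le⟩
  have hA' : RL (tT η T2 b) T2 0 0 + (∫ t in (0 : ℝ)..N * h, pl kr t * Real.cos (0 * t)) -
      φ / 2 * tT η T2 b 0 ≤ A := by
    rw [RL_tT_zero, sub_zero, tT_zero, pl_int kr _ (by fun_prop) hkr']
    simp only [ramp_zero, hkr, List.map_map, Function.comp_def, ← mul_div_assoc]
    linarith
  have hc0 : 0 ≤ φ / 2 * tT η T2 b 0 := mul_nonneg (by linarith) ak.zero
  refine evW (C := C) psF psC af ak (by linarith) (by linarith) hc hd hG hG0 hA0 hφ hA'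
    (by rw [tT_zero]; linarith) (fun x hx => (hw x hx).imp_right ?_) hlo
  rintro ⟨α, d, h1, h2, h3, h4, h5, h6⟩
  refine ⟨α, d, h1, h2, ?_, h4, fun hlx y => ?_, h6⟩
  · rw [RL_tT_zero, tT_zero]
    linarith
  · obtain ⟨c1, c2, c3⟩ := h5 hlx
    rw [RL_tT 1, one_mul, show l - x = -(x - l) by ring]
    refine tri_cap hT h1 hy1 hy1' hy c1 c2 c3 (le_trans ?_ hA') fun hy0 => ?_
    · have k1 : RL (tT η T2 b) T2 0 y ≤ RL (tT η T2 b) T2 0 0 := by
        rw [RL_tT_zero, RL_tT]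
        refine mul_le_mul_of_nonneg_left ((Complex.re_le_norm _).trans
          ((norm_II_le hT20 _).trans (le_of_eq ?_))) hη
        simp
      have k2 : ∫ t in (0 : ℝ)..N * h, pl kr t * Real.cos (y * t) ≤
          ∫ t in (0 : ℝ)..N * h, pl kr t * Real.cos (0 * t) := by
        have := pl_cont kr
        refine intervalIntegral.integral_mono_on hT (Continuous.intervalIntegrable (by fun_prop) _ _)
          (Continuous.intervalIntegrable (by fun_prop) _ _) fun t ht => ?_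
        rw [zero_mul, Real.cos_zero]
        exact mul_le_mul_of_nonneg_left (Real.cos_le_one _) (ce1h_nonneg hh hz ht.1 ht.2)
      linarith
    · have p : 0 < y ^ 2 := by positivity
      have k0 : 0 ≤ Real.exp (b * T2) + 1 - b * T2 := by linarith [Real.add_one_le_exp (b * T2)]
      have k1 : RL (tT η T2 b) T2 0 y * y ^ 2 ≤ η * (Real.exp (b * T2) + 1 - b * T2) := by
        rw [RL_tT, sub_zero, mul_assoc]
        refine mul_le_mul_of_nonneg_left ((le_div_iff₀ p).1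
          ((tri_upper T2 b y (by positivity)).trans ?_)) hη
        exact div_le_div_of_nonneg_left k0 p (by linarith [sq_nonneg b])
      have k2 := pl_far kr (N * h) hy0
      have e1 : (kr.map fun p => p.2).sum = 0 := by
        simpa only [hkr, List.map_map, Function.comp_def] using hk0
      have e2 : (kr.map fun p => p.2 * p.1).sum = 0 := by
        simp only [hkr, List.map_map, Function.comp_def, ← mul_assoc, List.sum_map_mul_right, hk1,
          zero_mul]
      have e3 : (kr.map fun p => |p.2|).sum = (kn.map fun p => |p.2|).sum := by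
        simp only [hkr, List.map_map, Function.comp_def]
      rw [e1, e2, e3, ← pl_int kr _ (by fun_prop) hkr'] at k2
      have k3 := mul_nonneg hc0 p.le
      rw [sub_mul, add_mul]
      linarith

end Pool.Agent.Lib.MP_778b46_nt.GX
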