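import Pool.Agent.Lib.MP_778b46_nt.GX.Ce0

/- One row of the certificate, and the range of a very small real first zero. -/

namespace Pool.Agent.Lib.MP_778b46_nt.GX

open Finset

variable {Γ Ω ι : Type} [CommGroup Γ] [Fintype Ω] [Fintype ι]
variable {κF κC : Type} [Fintype κF] [Fintype κC]

open Classical in
/-- The class of a zero. -/
noncomputable def ce2cls (D : Dat Γ Ω ι) (i : ι) : Finset ι :=
  univ.filter fun j => D.sm (D.ch i / D.ch j)

omit [Fintype Ω] in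
theorem ce2_mem {D : Dat Γ Ω ι} {i j : ι} : j ∈ ce2cls D i ↔ D.sm (D.ch i / D.ch j) := by
  simp [ce2cls]

section

variable {D : Dat Γ Ω ι} {φ ε H : ℝ} {psF psC : List MP} (hD : Clean D φ ε H psF psC)
include hD

theorem ce2_symm {i j : ι} (h : D.sm (D.ch i / D.ch j)) : D.sm (D.ch j / D.ch i) := by
  have := hD.sm_inv _ h
  rwa [inv_div] at this

theorem ce2_self (i : ι) : i ∈ ce2cls D i := by
  rw [ce2_mem, div_self']
  exact hD.sm_one

theorem ce2_pair {i j k : ι} (hj : j ∈ ce2cls D i) (hk : k ∈ ce2cls D i) :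
    D.sm (D.ch j / D.ch k) :=
  hD.sm_trans j i k (ce2_symm hD (ce2_mem.1 hj)) (ce2_mem.1 hk)

theorem ce2_eq {i j : ι} (hj : j ∈ ce2cls D i) : ce2cls D j = ce2cls D i := by
  ext k
  exact ⟨fun h => ce2_mem.2 (hD.sm_trans i j k (ce2_mem.1 hj) (ce2_mem.1 h)),
    fun h => ce2_mem.2 (ce2_pair hD hj h)⟩

theorem ce2_tot (L : ℝ) : D.Tot L =
    ∑ i, Real.exp (-(L * D.lam i)) * ∑ j ∈ ce2cls D i, Real.exp (-(L * D.lam j)) := by
  classical
  refine sum_congr rfl fun i _ => ?_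
  rw [mul_sum]
  symm
  refine sum_equiv D.cj (fun j => ?_) fun j _ => by rw [hD.cj_lam]
  rw [ce2_mem, mem_filter, hD.cj_ch, div_eq_mul_inv]
  simp

open Classical in
theorem ce2_sum (g : Finset ι → ι → ℝ) :
    ∑ i, g (ce2cls D i) i = ∑ K ∈ univ.image (ce2cls D), ∑ i ∈ K, g K i := by
  rw [← sum_fiberwise_of_maps_to (s := univ) (t := univ.image (ce2cls D)) (g := ce2cls D)
    fun i hi => mem_image_of_mem _ hi]
  refine sum_congr rfl fun K hK => ?_
  obtain ⟨j, -, rfl⟩ := mem_image.1 hK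
  refine sum_congr ?_ fun i hi => by rw [ce2_eq hD hi]
  ext i
  rw [mem_filter]
  exact ⟨fun h => h.2 ▸ ce2_self hD i, fun h => ⟨mem_univ _, ce2_eq hD h⟩⟩

/-- The class inequalities for a subset of a class. -/
theorem ce2_cls {lC : κC → ℝ} {wC : κC → ℝ → ℝ} (hC : ∀ m, D.Cls (lC m) (wC m)) {θ : κC → ℝ}
    (h0 : ∀ m, 0 ≤ θ m) {lo : ℝ} (h1 : ∀ m, lo < lC m → θ m = 0) {i : ι} {K : Finset ι}
    (hK : K ⊆ ce2cls D i) (hlo : ∀ j ∈ ce2cls D i, lo ≤ D.lam j) :
    ∑ j ∈ K, ∑ m, θ m * wC m (D.lam j) ≤ ∑ m, θ m := by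
  rw [sum_comm]
  refine sum_le_sum fun m _ => ?_
  rw [← mul_sum]
  rcases lt_or_ge lo (lC m) with h | h
  · rw [h1 m h, zero_mul]
  · refine mul_le_of_le_one_right (h0 m) (hC m K (fun j hj k hk _ => h.trans (hlo k ?_))
      fun j hj k hk => ce2_pair hD (hK hj) (hK hk))
    rw [ce2_mem, hk]
    exact ce2_mem.1 (hK hj)

end

omit [Fintype Ω] in
/-- The family inequalities with a line for each zero. -/
theorem ce2_fam {D : Dat Γ Ω ι} {y lF : κF → ℝ} {wF : κF → ℝ → ℝ} (hy : ∀ k, 0 ≤ y k)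
    (hF : ∀ k, D.Fam (lF k) (wF k)) {a : ι → ℝ}
    (ha : ∀ j k, D.ch k = D.ch j → k ≠ j → a j ≤ D.lam k) :
    ∑ i, Phi y lF wF (a i) (D.lam i) ≤ ∑ k, y k := by
  classical
  simp only [Phi, sum_filter]
  rw [sum_comm]
  refine sum_le_sum fun k _ => ?_
  rw [← sum_filter, ← mul_sum]
  exact mul_le_of_le_one_right (hy k)
    (hF k _ fun j hj k' h1 h2 => (mem_filter.1 hj).2.trans (ha j k' h1 h2))

theorem ce2_type {b : ℕ → ℝ} {x : ℝ} (h0 : b 0 ≤ x) (N : ℕ) :
    b N ≤ x ∨ ∃ t < N, b t ≤ x ∧ x < b (t + 1) := by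
  induction N with
  | zero => exact Or.inl h0
  | succ N ih =>
    rcases le_or_gt (b (N + 1)) x with h | h
    · exact Or.inl h
    · rcases ih with h1 | ⟨t, h1, h2⟩
      · exact Or.inr ⟨N, Nat.lt_succ_self N, h1, h⟩
      · exact Or.inr ⟨t, h1.trans (Nat.lt_succ_self N), h2⟩

/-- Classes of the equivalence relation `sm (ch i / ch j)`; `Tot = ∑ over classes of S ^ 2` by `cj`.
For a class without primary zero take the type of its first zero and `σ = S`; then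
`S ^ 2 ≤ ∑ over the class of Phi`.  For the constraint `k` let `S k` be the union of the classes whose
line is at least `lF k`, together with the primary zeros if `lF k ≤ l`; it is closed at `lF k`. -/
theorem row_thm {D : Dat Γ Ω ι} {φ ε H : ℝ} {psF psC : List MP} (hD : Clean D φ ε H psF psC)
    {L sa sb l y0 : ℝ} {n N : ℕ} {y lF : κF → ℝ} {wF : κF → ℝ → ℝ} {lC : κC → ℝ}
    {wC : κC → ℝ → ℝ} {b : ℕ → ℝ} (hL : 0 ≤ L) (hsl : sa ≤ l) (hy : ∀ k, 0 ≤ y k) (hy0 : 0 ≤ y0)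
    (hF : ∀ k, D.Fam (lF k) (wF k)) (hC : ∀ m, D.Cls (lC m) (wC m)) (hb0 : b 0 = l)
    (hT : ∀ t < N, TypeOK L y lF wF lC wC (b t) (b (t + 1)))
    (hN : LastOK L y lF wF lC wC (b N)) (hP : n = 0 ∨ PrimOK L y lF wF lC wC sa sb l y0)
    (hb : ∀ t, l ≤ b t) (hPr : D.Prim n sa sb l) : D.Tot L ≤ ∑ k, y k + n * y0 := by
  classical
  obtain ⟨Pr, p1, p2, p3, p4⟩ := hPr
  have hx : ∀ j, 0 ≤ Real.exp (-(L * D.lam j)) := fun j => (Real.exp_pos _).le
  have hch : ∀ {i j k}, j ∈ ce2cls D i → D.ch k = D.ch j → k ∈ ce2cls D i := fun hj hk => by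
    rw [ce2_mem, hk]
    exact ce2_mem.1 hj
  have hsa : ∀ j, sa ≤ D.lam j := fun j => by
    by_cases h : j ∈ Pr
    · exact (p2 j h).1
    · exact hsl.trans (p3 j h)
  have key : ∀ K ∈ univ.image (ce2cls D), ∃ a : ι → ℝ,
      (∀ j ∈ K, ∀ k, D.ch k = D.ch j → k ≠ j → a j ≤ D.lam k) ∧
      ∑ i ∈ K, Real.exp (-(L * D.lam i)) * ∑ j ∈ K, Real.exp (-(L * D.lam j)) ≤
        ∑ i ∈ K, (Phi y lF wF (a i) (D.lam i) + if i ∈ Pr then y0 else 0) := by
    intro K hK
    obtain ⟨i, -, hi⟩ := mem_image.1 hK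
    rw [← sum_mul, ← sq]
    by_cases hp : ∃ p0 ∈ K, p0 ∈ Pr
    · obtain ⟨p0, q1, q2⟩ := hp
      have hn : ∀ j ∈ K, j ≠ p0 → j ∉ Pr := fun j hj h1 h2 =>
        h1 (p4 j h2 p0 q2 (ce2_pair hD (hi ▸ hj) (hi ▸ q1)))
      obtain ⟨p, q, θ, a1, a2, a3, a4, a5⟩ := (hP.resolve_left fun h => by
        have := card_pos.2 ⟨p0, q2⟩
        omega) (∑ j ∈ K, Real.exp (-(L * D.lam j))) (le_trans (Real.exp_le_exp.2
          (neg_le_neg (mul_le_mul_of_nonneg_left (p2 p0 q2).2 hL)))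
          (single_le_sum (f := fun j => Real.exp (-(L * D.lam j))) (fun j _ => hx j) q1))
      refine ⟨fun j => if j = p0 then l else sa, fun j hj k h1 h2 => ?_, ?_⟩
      · beta_reduce
        split_ifs with h
        · exact p3 k (hn k (hi ▸ hch (hi ▸ hj) h1) (h ▸ h2))
        · exact hsa k
      · have b1 := ce2_cls hD hC a1 a2 (K := K) hi.ge fun j _ => hsa j
        have b2 : ∑ j ∈ K.erase p0, p * Real.exp (-(L * D.lam j)) ≤
            ∑ j ∈ K.erase p0, ((Phi y lF wF (if j = p0 then l else sa) (D.lam j) +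
              if j ∈ Pr then y0 else 0) + ∑ m, θ m * wC m (D.lam j)) := by
          refine sum_le_sum fun j hj => ?_
          have h1 := hn j (mem_erase.1 hj).2 (mem_erase.1 hj).1
          rw [if_neg (mem_erase.1 hj).1, if_neg h1, add_zero]
          exact a4 _ (p3 j h1)
        have b3 := a5 _ (p2 p0 q2).1 (p2 p0 q2).2
        refine a3.trans ?_
        rw [sum_add_distrib] at b2
        rw [← add_sum_erase _ _ q1] at b1
        beta_reduce
        rw [mul_sum, ← add_sum_erase _ _ q1, ← add_sum_erase _ _ q1, if_pos rfl, if_pos q2]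
        linarith
    · push Not at hp
      obtain ⟨i0, q1, q2⟩ := exists_min_image K D.lam ⟨i, hi ▸ ce2_self hD i⟩
      have fin : ∀ (lo p q ν : ℝ) (θ : κC → ℝ), lo ≤ D.lam i0 → (∀ m, 0 ≤ θ m) →
          (∀ m, lo < lC m → θ m = 0) →
          (∑ j ∈ K, Real.exp (-(L * D.lam j))) ^ 2 ≤
            p * ∑ j ∈ K, Real.exp (-(L * D.lam j)) - q → ∑ m, θ m - ν ≤ q →
          ∑ j ∈ K, p * Real.exp (-(L * D.lam j)) + ν ≤
            ∑ j ∈ K, (Phi y lF wF lo (D.lam j) + ∑ m, θ m * wC m (D.lam j)) →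
          ∃ a : ι → ℝ, (∀ j ∈ K, ∀ k, D.ch k = D.ch j → k ≠ j → a j ≤ D.lam k) ∧
            (∑ j ∈ K, Real.exp (-(L * D.lam j))) ^ 2 ≤
              ∑ i ∈ K, (Phi y lF wF (a i) (D.lam i) + if i ∈ Pr then y0 else 0) := by
        intro lo p q ν θ a0 a1 a2 a3 a4 a5
        refine ⟨fun _ => lo, fun j hj k h1 _ => a0.trans (q2 k (hi ▸ hch (hi ▸ hj) h1)), ?_⟩
        have b1 := ce2_cls hD hC a1 a2 (K := K) hi.ge fun j hj => a0.trans (q2 j (hi ▸ hj))
        rw [sum_add_distrib] at a5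
        rw [mul_sum] at a3
        rw [sum_add_distrib, sum_eq_zero (f := fun i => if i ∈ Pr then y0 else 0)
          fun j hj => if_neg (hp j hj)]
        linarith
      rcases ce2_type (hb0.le.trans (p3 i0 (hp i0 q1))) N with h | ⟨t, h1, h2, h3⟩
      · obtain ⟨p, q, θ, a1, a2, a3, a4, a5⟩ := hN _ (sum_nonneg (s := K) fun j _ => hx j)
        refine fin _ p q 0 θ h a1 a2 a3 (by linarith) ?_
        rw [add_zero]
        exact sum_le_sum fun j hj => a5 _ (h.trans (q2 j hj))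
      · obtain ⟨p, q, ν, θ, a0, a1, a2, a3, a4, a5⟩ := hT t h1
          (∑ j ∈ K, Real.exp (-(L * D.lam j))) (le_trans (Real.exp_le_exp.2
            (neg_le_neg (mul_le_mul_of_nonneg_left h3.le hL)))
            (single_le_sum (f := fun j => Real.exp (-(L * D.lam j))) (fun j _ => hx j) q1))
        refine fin _ p q ν θ h2 a1 a2 a3 a4
          (le_trans ?_ (sum_le_sum fun j hj => a5 _ (h2.trans (q2 j hj))))
        rw [sum_add_distrib]
        refine add_le_add le_rfl (le_trans (le_of_eq (if_pos h3).symm) (single_le_sum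
          (f := fun j => if D.lam j < b (t + 1) then ν else 0) (fun j _ => ?_) q1))
        split_ifs
        · exact a0
        · exact le_rfl
  choose! a ha1 ha2 using key
  rw [ce2_tot hD, ce2_sum hD fun K i => Real.exp (-(L * D.lam i)) *
    ∑ j ∈ K, Real.exp (-(L * D.lam j))]
  refine (sum_le_sum ha2).trans ?_
  rw [← ce2_sum hD fun K i => Phi y lF wF (a K i) (D.lam i) + if i ∈ Pr then y0 else 0,
    sum_add_distrib]
  refine add_le_add (ce2_fam hy hF fun j =>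
    ha1 _ (mem_image_of_mem _ (mem_univ j)) j (ce2_self hD j)) ?_
  rw [sum_ite_mem, univ_inter, sum_const, nsmul_eq_mul]
  exact mul_le_mul_of_nonneg_right (Nat.cast_le.2 p1) hy0

/-- With `R K` the sum of `x` over a class without `i`:
`R K ≤ U s / s1`, `∑ R K ≤ W`, `Tot ≤ exp (-2 L s) + (2 + W) U s / s1`, and concavity of
`1 - exp (-2 L s)`. -/
theorem unif_thm {D : Dat Γ Ω ι} {φ ε H : ℝ} {psF psC : List MP} (hD : Clean D φ ε H psF psC)
    {L T l1 s1 U W : ℝ} {y θ : κF → ℝ} {wF wC : κF → ℝ → ℝ} (hL : 0 ≤ L) (hs1 : 0 < s1)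
    (hy : ∀ k, 0 ≤ y k) (hθ : ∀ k, 0 ≤ θ k) (hF : ∀ k, D.Fam 0 (wF k)) (hC : ∀ k, D.Cls 0 (wC k))
    (hW : ∑ k, y k ≤ W) (hU : ∑ k, θ k ≤ U)
    (h1 : ∀ x, l1 ≤ x → Real.exp (-(L * x)) ≤ ∑ k, y k * wF k x)
    (h2 : ∀ x, l1 ≤ x → Real.exp (-((L - T) * x) - T * l1) ≤ ∑ k, θ k * wC k x)
    (h3 : (2 + W) * U + s1 ≤ 1 - Real.exp (-(2 * L * s1))) (i : ι) (hi : D.lam i ≤ s1)
    (hj : ∀ j, j ≠ i → l1 ≤ D.lam j ∧
      Real.exp (-(T * D.lam j)) * s1 ≤ Real.exp (-(T * l1)) * D.lam i) :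
    D.Tot L ≤ 1 - D.lam i := by
  classical
  have hx : ∀ j, 0 ≤ Real.exp (-(L * D.lam j)) := fun j => (Real.exp_pos _).le
  have s0 := hD.lam_nonneg i
  set t := D.lam i / s1 with ht
  have t0 : 0 ≤ t := div_nonneg s0 hs1.le
  have t1 : t ≤ 1 := (div_le_one hs1).2 hi
  have t2 : t * s1 = D.lam i := div_mul_cancel₀ _ hs1.ne'
  have hU0 : 0 ≤ U := (sum_nonneg fun k _ => hθ k).trans hU
  have hR : ∀ a, ∑ j ∈ (ce2cls D a).erase i, Real.exp (-(L * D.lam j)) ≤ t * U := by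
    intro a
    refine le_trans ?_ (mul_le_mul_of_nonneg_left ((ce2_cls hD hC hθ (lo := 0)
      (fun _ h => absurd h (lt_irrefl _)) (erase_subset i (ce2cls D a))
      fun j _ => hD.lam_nonneg j).trans hU) t0)
    rw [mul_sum]
    refine sum_le_sum fun j hj' => ?_
    obtain ⟨c1, c2⟩ := hj j (mem_erase.1 hj').1
    refine le_trans ?_ (mul_le_mul_of_nonneg_left (h2 _ c1) t0)
    have e1 : Real.exp (-(L * D.lam j)) =
        Real.exp (-((L - T) * D.lam j)) * Real.exp (-(T * D.lam j)) := by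
      rw [← Real.exp_add]
      congr 1
      ring
    have e2 : Real.exp (-(T * D.lam j)) ≤ t * Real.exp (-(T * l1)) := by
      rw [ht, div_mul_eq_mul_div, le_div_iff₀ hs1, mul_comm (D.lam i)]
      exact c2
    rw [e1, sub_eq_add_neg (-_), Real.exp_add, mul_left_comm]
    exact mul_le_mul_of_nonneg_left e2 (Real.exp_pos _).le
  have hS : ∑ j ∈ univ.erase i, Real.exp (-(L * D.lam j)) ≤ W := by
    refine le_trans (sum_le_sum fun j hj' => h1 _ (hj j (mem_erase.1 hj').1).1) ?_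
    rw [sum_comm]
    refine le_trans (sum_le_sum fun k _ => ?_) hW
    rw [← mul_sum]
    exact mul_le_of_le_one_right (hy k) (hF k _ fun j _ k' _ _ => hD.lam_nonneg k')
  set x := Real.exp (-(L * D.lam i)) with hxi
  have x0 : 0 ≤ x := hx i
  have x1 : x ≤ 1 := Real.exp_le_one_iff.2 (neg_nonpos.2 (mul_nonneg hL s0))
  have hA : ∀ a, Real.exp (-(L * D.lam a)) * ∑ j ∈ ce2cls D a, Real.exp (-(L * D.lam j)) ≤
      Real.exp (-(L * D.lam a)) * (t * U) +
        x * if a ∈ ce2cls D i then Real.exp (-(L * D.lam a)) else 0 := by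
    intro a
    have := mul_le_mul_of_nonneg_left (hR a) (hx a)
    split_ifs with h
    · rw [← add_sum_erase _ _ (ce2_eq hD h ▸ ce2_self hD i : i ∈ ce2cls D a)]
      linarith
    · rw [erase_eq_of_notMem fun h' : i ∈ ce2cls D a =>
        h (ce2_mem.2 (ce2_symm hD (ce2_mem.1 h')))] at this
      linarith
  rw [ce2_tot hD]
  refine (sum_le_sum fun a _ => hA a).trans ?_
  rw [sum_add_distrib, ← sum_mul, ← mul_sum, sum_ite_mem, univ_inter,
    ← add_sum_erase _ _ (mem_univ i), ← add_sum_erase _ _ (ce2_self hD i)]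
  have c1 := convexOn_exp.2 (Set.mem_univ (-(2 * L * s1))) (Set.mem_univ 0) t0 (sub_nonneg.2 t1)
    (add_sub_cancel _ _)
  have c2 : x * x = Real.exp (t • -(2 * L * s1) + (1 - t) • 0) := by
    rw [hxi, ← Real.exp_add, ← t2]
    congr 1
    simp only [smul_eq_mul]
    ring
  rw [← c2, Real.exp_zero, smul_eq_mul, smul_eq_mul] at c1
  have tU := mul_nonneg t0 hU0
  have c3 := mul_le_mul_of_nonneg_right hS tU
  have c4 := mul_le_mul_of_nonneg_left (hR i) x0
  have c5 := mul_le_mul_of_nonneg_right x1 tU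
  have c6 := mul_le_mul_of_nonneg_left h3 t0
  rw [← hxi]
  nlinarith

end Pool.Agent.Lib.MP_778b46_nt.GX
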