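import Pool.Agent.Lib.MP_778b46_nt.GX.G1

/- A zero free region inside the clean model. -/

namespace Pool.Agent.Lib.MP_778b46_nt.GX

open Complex Finset
open Pool.Agent.Lib.MP_e97e2b_nt.Ln (Lap Tst cut)

variable {Γ Ω ι : Type} [CommGroup Γ] [Fintype Ω] [Fintype ι]

/-- The twisted character value. -/
noncomputable def Dat.vv (D : Dat Γ Ω ι) (y : ℝ) (ξ : Γ) (ω : Ω) : ℂ :=
  exp (-((y * D.t ω : ℝ) : ℂ) * I) * D.ev ω ξ

omit [Fintype Ω] [Fintype ι] in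
theorem vv_mul (D : Dat Γ Ω ι) (y y' : ℝ) (ξ ξ' : Γ) (ω : Ω) :
    D.vv (y + y') (ξ * ξ') ω = D.vv y ξ ω * D.vv y' ξ' ω := by
  unfold Dat.vv
  rw [map_mul, mul_mul_mul_comm, ← Complex.exp_add]
  congr 2
  push_cast
  ring

omit [Fintype Ω] [Fintype ι] in
theorem vv_one (D : Dat Γ Ω ι) (ω : Ω) : D.vv 0 1 ω = 1 := by simp [Dat.vv]

omit [Fintype Ω] [Fintype ι] in
theorem vv_normSq (D : Dat Γ Ω ι) (h : ∀ ω ξ, ‖D.ev ω ξ‖ = 1) (y : ℝ) (ξ : Γ) (ω : Ω) :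
    (D.vv y ξ ω).re ^ 2 + (D.vv y ξ ω).im ^ 2 = 1 := by
  have h1 : ‖D.vv y ξ ω‖ = 1 := by
    unfold Dat.vv
    rw [norm_mul, h, norm_exp]
    simp
  have h2 := normSq_eq_norm_sq (D.vv y ξ ω)
  rw [h1, normSq_apply] at h2
  linarith

omit [Fintype Ω] [Fintype ι] in
theorem vv_div (D : Dat Γ Ω ι) (h : ∀ ω ξ, ‖D.ev ω ξ‖ = 1) (y y' : ℝ) (ξ ξ' : Γ) (ω : Ω) :
    (D.vv (y - y') (ξ / ξ') ω).re =
      (D.vv y ξ ω).re * (D.vv y' ξ' ω).re + (D.vv y ξ ω).im * (D.vv y' ξ' ω).im := by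
  have h1 := vv_mul D (y - y') y' (ξ / ξ') ξ' ω
  rw [sub_add_cancel, div_mul_cancel] at h1
  have h2 := vv_normSq D h y' ξ' ω
  rw [h1, mul_re, mul_im]
  linear_combination (-(D.vv (y - y') (ξ / ξ') ω).re) * h2

omit [Fintype ι] in
theorem E_vv (D : Dat Γ Ω ι) (g : ℝ → ℝ) (y : ℝ) (ξ : Γ) :
    D.E g y ξ = ∑ ω, D.μ ω * g (D.t ω) * (D.vv y ξ ω).re := rfl

omit [Fintype ι] in
/-- The square of a quadratic polynomial in the real part. -/
theorem E_quartic (D : Dat Γ Ω ι) (h : ∀ ω ξ, ‖D.ev ω ξ‖ = 1) {g : ℝ → ℝ}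
    (hg : ∀ ω, 0 ≤ D.μ ω * g (D.t ω)) (p q y : ℝ) (ξ : Γ) :
    0 ≤ (3 / 8 + (p ^ 2 + 2 * q) / 2 + q ^ 2) * D.E g 0 1 + (3 * p / 2 + 2 * p * q) * D.E g y ξ +
      (1 / 2 + (p ^ 2 + 2 * q) / 2) * D.E g (y + y) (ξ * ξ) +
      p / 2 * D.E g (y + y + y) (ξ * ξ * ξ) + 1 / 8 * D.E g (y + y + y + y) (ξ * ξ * ξ * ξ) := by
  simp only [E_vv, mul_sum, ← sum_add_distrib, vv_mul, vv_one]
  refine sum_nonneg fun ω _ => ?_
  have h1 := vv_normSq D h y ξ ω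
  have h2 := mul_nonneg (hg ω) (sq_nonneg ((D.vv y ξ ω).re ^ 2 + p * (D.vv y ξ ω).re + q))
  refine h2.trans (le_of_eq ?_)
  simp only [mul_re, mul_im, one_re]
  generalize (D.vv y ξ ω).re = a at *
  generalize (D.vv y ξ ω).im = b at *
  generalize D.μ ω * g (D.t ω) = m at *
  have h3 : b ^ 2 = 1 - a ^ 2 := by linarith
  have h4 : b ^ 4 = (1 - a ^ 2) ^ 2 := by rw [← h3]; ring
  linear_combination m * ((1 / 2 + (p ^ 2 + 2 * q) / 2) + 3 * p / 2 * a + 3 / 4 * a ^ 2) * h3 -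
    m / 8 * h4

omit [Fintype ι] in
/-- The product of two linear factors. -/
theorem E_prod (D : Dat Γ Ω ι) (h : ∀ ω ξ, ‖D.ev ω ξ‖ = 1) {g : ℝ → ℝ}
    (hg : ∀ ω, 0 ≤ D.μ ω * g (D.t ω)) (y y' : ℝ) (ξ ξ' : Γ) :
    0 ≤ D.E g 0 1 + D.E g y ξ + D.E g y' ξ' + 1 / 2 * D.E g (y + y') (ξ * ξ') +
      1 / 2 * D.E g (y - y') (ξ / ξ') := by
  simp only [E_vv, mul_sum, ← sum_add_distrib, vv_mul, vv_one, vv_div D h]
  refine sum_nonneg fun ω _ => ?_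
  have h1 := vv_normSq D h y ξ ω
  have h2 := vv_normSq D h y' ξ' ω
  have h3 : 0 ≤ 1 + (D.vv y ξ ω).re := by nlinarith [sq_nonneg (D.vv y ξ ω).im]
  have h4 : 0 ≤ 1 + (D.vv y' ξ' ω).re := by nlinarith [sq_nonneg (D.vv y' ξ' ω).im]
  refine (mul_nonneg (hg ω) (mul_nonneg h3 h4)).trans (le_of_eq ?_)
  simp only [mul_re, one_re]
  ring

variable {D : Dat Γ Ω ι} {φ ε H : ℝ} {psF psC : List MP}

theorem Clean.ch_ne_one (h : Clean D φ ε H psF psC) (i : ι) : D.ch i ≠ 1 :=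
  fun e => h.sm_not i (e ▸ h.sm_one)

theorem Clean.w_nonneg (h : Clean D φ ε H psF psC) {T : ℝ} (hT : 0 < T) (a : ℝ) (ω : Ω) :
    0 ≤ D.μ ω * cut (gT T a) T (D.t ω) :=
  mul_nonneg (h.μ_nonneg ω) (cut_gT_nonneg hT a (h.t_pos ω).le)

open Classical in
/-- The explicit formula, keeping only the zeros of `A`. -/
theorem Clean.efA (h : Clean D φ ε H psF psC) (ξ : Γ) {y T a : ℝ} (hy : |y| ≤ 4 * D.Ym)
    (hT : 1 / 2 ≤ T) (hT8 : T ≤ 8) (ha : 0 ≤ a) (haH : a ≤ H) (A : Finset ι)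
    (hA : ∀ k ∈ A, D.ch k = ξ) (hB : ∀ k, k ∉ A → D.ch k = ξ → a ≤ D.lam k) :
    D.E (cut (gT T a) T) y ξ ≤ (if ξ = 1 then RR T (-a) y else 0) -
      ∑ k ∈ A, RR T (D.lam k - a) (D.mu k - y) + (if D.sm ξ then 0 else φ / 2) + ε * BH H := by
  refine (h.ef_gT ξ hy hT hT8 ha haH).trans ?_
  have : ∑ k ∈ A, RR T (D.lam k - a) (D.mu k - y) ≤
      ∑ k ∈ univ.filter (fun k => D.ch k = ξ), RR T (D.lam k - a) (D.mu k - y) :=
    sum_le_sum_of_subset_of_nonneg (fun k hk => mem_filter.2 ⟨mem_univ _, hA k hk⟩)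
      fun k hk hk' => RR_nonneg (by linarith) (sub_nonneg.2 (hB k hk' (mem_filter.1 hk).2)) _
  linarith

open Classical in
/-- The principal character. -/
theorem Clean.ef_one (h : Clean D φ ε H psF psC) {ξ : Γ} (e : ξ = 1) {y T a : ℝ}
    (hy : |y| ≤ 4 * D.Ym) (hT : 1 / 2 ≤ T) (hT8 : T ≤ 8) (ha : 0 ≤ a) (haH : a ≤ H) :
    D.E (cut (gT T a) T) y ξ ≤ RR T (-a) y + ε * BH H := by
  have := h.efA ξ hy hT hT8 ha haH ∅ (by simp) fun k _ hk => absurd (hk.trans e) (h.ch_ne_one k)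
  rwa [if_pos e, if_pos (e ▸ h.sm_one), sum_empty, sub_zero, add_zero] at this

open Classical in
/-- A character different from the principal one. -/
theorem Clean.ef_ne (h : Clean D φ ε H psF psC) (hφ : 0 ≤ φ) {ξ : Γ} (e : ξ ≠ 1) {y T a : ℝ}
    (hy : |y| ≤ 4 * D.Ym) (hT : 1 / 2 ≤ T) (hT8 : T ≤ 8) (ha : 0 ≤ a) (haH : a ≤ H)
    (A : Finset ι) (hA : ∀ k ∈ A, D.ch k = ξ) (hB : ∀ k, k ∉ A → D.ch k = ξ → a ≤ D.lam k) :
    D.E (cut (gT T a) T) y ξ ≤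
      -∑ k ∈ A, RR T (D.lam k - a) (D.mu k - y) + φ / 2 + ε * BH H := by
  have := h.efA ξ hy hT hT8 ha haH A hA hB
  rw [if_neg e, zero_sub] at this
  split_ifs at this <;> linarith

theorem RR_two {T s : ℝ} (hT : 0 ≤ T) (hs : 0 ≤ s) (h : s * T ≤ 1) (y : ℝ) :
    RR T (-s) y ≤ 2 * RR T 0 y := by
  have h1 := RR_upper hT hs (by linarith) y
  have h2 := RR_nonneg hT le_rfl y
  by_contra h3
  nlinarith

open Classical in
/-- The inequality behind the zero free region. -/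
theorem Clean.zf_core (h : Clean D φ ε H psF psC) (hφ : 0 ≤ φ) {i : ι}
    (hi : ∀ k, D.lam i ≤ D.lam k) (hn : ¬ (D.ch i * D.ch i = 1 ∧ D.mu i = 0)) {T p q : ℝ}
    (hT : 1 / 2 ≤ T) (hT8 : T ≤ 8) (hs : D.lam i * T ≤ 1) (hp : 1 / 2 ≤ p)
    (h1 : p ≤ 1 / 2 + (p ^ 2 + 2 * q) / 2) (h2 : 1 + (p ^ 2 + 2 * q) ≤ 2 * p + 2 * p * q)
    (hq : 0 ≤ q) :
    0 ≤ (3 / 8 + (p ^ 2 + 2 * q) / 2 + q ^ 2) * RR T (-D.lam i) 0 -
      (3 * p / 2 + 2 * p * q) * RR T 0 0 + (2 * p + 2 * p * q + 1 / 8) * (φ / 2) +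
      (1 / 2 + (p ^ 2 + 2 * q) / 2) * (if D.sm (D.ch i * D.ch i) then 0 else φ / 2) +
      (1 + p + q) ^ 2 * (ε * BH H) := by
  have hT0 : 0 < T := by linarith
  have ha := h.lam_nonneg i
  have haH := h.lam_le i
  have hm := abs_le.1 (h.mu_le i)
  have hY : 0 ≤ D.Ym := (abs_nonneg _).trans (h.mu_le i)
  have key := E_quartic D h.norm_ev (h.w_nonneg hT0 (D.lam i)) p q (D.mu i) (D.ch i)
  have y0 : |(0 : ℝ)| ≤ 4 * D.Ym := by rw [abs_zero]; linarith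
  have y1 : |D.mu i| ≤ 4 * D.Ym := abs_le.2 ⟨by linarith, by linarith⟩
  have y2 : |D.mu i + D.mu i| ≤ 4 * D.Ym := abs_le.2 ⟨by linarith, by linarith⟩
  have y3 : |D.mu i + D.mu i + D.mu i| ≤ 4 * D.Ym := abs_le.2 ⟨by linarith, by linarith⟩
  have y4 : |D.mu i + D.mu i + D.mu i + D.mu i| ≤ 4 * D.Ym := abs_le.2 ⟨by linarith, by linarith⟩
  have e0 := h.ef_one rfl y0 hT hT8 ha haH
  have hne := h.ch_ne_one i
  have k2 := RR_two hT0.le ha hs (D.mu i + D.mu i)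
  have k3 := RR_two hT0.le ha hs (D.mu i + D.mu i + D.mu i)
  have k4 := RR_two hT0.le ha hs (D.mu i + D.mu i + D.mu i + D.mu i)
  have r2 := RR_nonneg hT0.le le_rfl (D.mu i + D.mu i)
  have r3 := RR_nonneg hT0.le le_rfl (D.mu i + D.mu i + D.mu i)
  have r4 := RR_nonneg hT0.le le_rfl (D.mu i + D.mu i + D.mu i + D.mu i)
  have n2 : RR T 0 (-D.mu i - D.mu i) = RR T 0 (D.mu i + D.mu i) := by
    rw [← RR_neg]; congr 1; ring
  have n2' : RR T 0 (D.mu i - (D.mu i + D.mu i + D.mu i)) = RR T 0 (D.mu i + D.mu i) := by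
    rw [← RR_neg]; congr 1; ring
  have n3 : RR T 0 (-D.mu i - (D.mu i + D.mu i)) = RR T 0 (D.mu i + D.mu i + D.mu i) := by
    rw [← RR_neg]; congr 1; ring
  have n4 : RR T 0 (-D.mu i - (D.mu i + D.mu i + D.mu i)) =
      RR T 0 (D.mu i + D.mu i + D.mu i + D.mu i) := by
    rw [← RR_neg]; congr 1; ring
  have hd : 0 ≤ if D.sm (D.ch i * D.ch i) then 0 else φ / 2 := by split_ifs <;> linarith
  have c0 : 0 ≤ 3 / 8 + (p ^ 2 + 2 * q) / 2 + q ^ 2 := by positivity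
  have c1 : 0 ≤ 3 * p / 2 + 2 * p * q := by positivity
  have c2 : 0 ≤ 1 / 2 + (p ^ 2 + 2 * q) / 2 := by positivity
  have c3 : 0 ≤ p / 2 := by positivity
  have f0 := mul_le_mul_of_nonneg_left e0 c0
  by_cases q2 : D.ch i * D.ch i = 1
  · have hmu : D.mu i ≠ 0 := fun e => hn ⟨q2, e⟩
    have hcj : i ≠ D.cj i := fun e => hmu (by have := h.cj_mu i; rw [← e] at this; linarith)
    have hch : D.ch (D.cj i) = D.ch i := by rw [h.cj_ch, inv_eq_of_mul_eq_one_right q2]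
    have q3 : D.ch i * D.ch i * D.ch i = D.ch i := by rw [q2, one_mul]
    have e1 := h.ef_ne hφ hne y1 hT hT8 ha haH {i, D.cj i} (by simp [hch]) fun k _ _ => hi k
    have e2 := h.ef_one q2 y2 hT hT8 ha haH
    have e3 := h.ef_ne hφ (q3.trans_ne hne) y3 hT hT8 ha haH {i, D.cj i} (by simp [hch, q3])
      fun k _ _ => hi k
    have e4 := h.ef_one (q3.symm ▸ q2 : D.ch i * D.ch i * D.ch i * D.ch i = 1) y4 hT hT8 ha haH
    rw [sum_pair hcj, h.cj_lam, h.cj_mu, sub_self] at e1 e3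
    rw [sub_self, n2] at e1
    rw [n2', n4] at e3
    have f1 := mul_le_mul_of_nonneg_left e1 c1
    have f2 := mul_le_mul_of_nonneg_left (e2.trans (add_le_add_left k2 _)) c2
    have f3 := mul_le_mul_of_nonneg_left e3 c3
    have g1 := mul_le_mul_of_nonneg_right h2 r2
    have g2 := mul_le_mul_of_nonneg_right hp r4
    have g3 := mul_nonneg c2 hd
    linarith
  have e1 := h.ef_ne hφ hne y1 hT hT8 ha haH {i} (by simp) fun k _ _ => hi k
  rw [sum_singleton, sub_self, sub_self] at e1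
  have f1 := mul_le_mul_of_nonneg_left e1 c1
  by_cases q3 : D.ch i * D.ch i * D.ch i = 1
  · have hch : D.ch (D.cj i) = D.ch i * D.ch i := by rw [h.cj_ch, inv_eq_of_mul_eq_one_left q3]
    have e2 := h.efA (D.ch i * D.ch i) y2 hT hT8 ha haH {D.cj i} (by simp [hch]) fun k _ _ => hi k
    have e3 := h.ef_one q3 y3 hT hT8 ha haH
    have e4 := h.ef_ne hφ (ξ := D.ch i * D.ch i * D.ch i * D.ch i) (by rwa [q3, one_mul]) y4 hT
      hT8 ha haH ∅ (by simp) fun k _ _ => hi k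
    rw [if_neg q2, sum_singleton, h.cj_lam, h.cj_mu, sub_self, n3] at e2
    rw [sum_empty] at e4
    have f2 := mul_le_mul_of_nonneg_left e2 c2
    have f3 := mul_le_mul_of_nonneg_left (e3.trans (add_le_add_left k3 _)) c3
    have g1 := mul_le_mul_of_nonneg_right h1 r3
    have g2 := mul_nonneg c3 hφ
    linarith
  have e2 := h.efA (D.ch i * D.ch i) y2 hT hT8 ha haH ∅ (by simp) fun k _ _ => hi k
  rw [if_neg q2, sum_empty] at e2
  have f2 := mul_le_mul_of_nonneg_left e2 c2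
  by_cases q4 : D.ch i * D.ch i * D.ch i * D.ch i = 1
  · have hch : D.ch (D.cj i) = D.ch i * D.ch i * D.ch i := by
      rw [h.cj_ch, inv_eq_of_mul_eq_one_left q4]
    have e3 := h.ef_ne hφ q3 y3 hT hT8 ha haH {D.cj i} (by simp [hch]) fun k _ _ => hi k
    have e4 := h.ef_one q4 y4 hT hT8 ha haH
    rw [sum_singleton, h.cj_lam, h.cj_mu, sub_self, n4] at e3
    have f3 := mul_le_mul_of_nonneg_left e3 c3
    have g2 := mul_le_mul_of_nonneg_right hp r4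
    linarith
  have e3 := h.ef_ne hφ q3 y3 hT hT8 ha haH ∅ (by simp) fun k _ _ => hi k
  have e4 := h.ef_ne hφ q4 y4 hT hT8 ha haH ∅ (by simp) fun k _ _ => hi k
  rw [sum_empty] at e3 e4
  have f3 := mul_le_mul_of_nonneg_left e3 c3
  linarith

theorem RF_real {x : ℝ} (hx : x ≠ 0) : RF x 0 =
    (x ^ 5 - 10 * x ^ 3 + 30 * x ^ 2 - 120 + 30 * (x + 2) ^ 2 * Real.exp (-x)) / x ^ 6 := by
  have h : (x : ℂ) ≠ 0 := ofReal_ne_zero.2 hx
  unfold RF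
  rw [ofReal_zero, zero_mul, add_zero, F1_closed h, ← ofReal_re (_ / x ^ 6)]
  congr 1
  push_cast
  field_simp
  ring

theorem RF_neg_one : RF (-1) 0 ≤ 548455 / 1000000 := by
  rw [RF_real (by norm_num), neg_neg]
  linarith [Real.exp_one_lt_d9]

theorem RR_le_one {T s : ℝ} (hT : 0 ≤ T) (h : s * T ≤ 1) :
    RR T (-s) 0 ≤ T * (548455 / 1000000) := by
  rw [RR, zero_mul]
  exact mul_le_mul_of_nonneg_left ((RF_anti (by linarith)).trans RF_neg_one) hT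

/-- The lowest zero is far from the line unless it is a real zero of a real character. -/
theorem Clean.zf1 (h : Clean D φ ε H psF psC) (hφ : 0 ≤ φ) (hφ' : φ ≤ 334 / 1000)
    (he : ε * BH H ≤ 1 / 4000) {i : ι} (hi : ∀ k, D.lam i ≤ D.lam k)
    (hn : ¬ (D.ch i * D.ch i = 1 ∧ D.mu i = 0)) : 294 / 1000 < D.lam i := by
  by_contra hl
  have hs : D.lam i * (34 / 10) ≤ 1 := by linarith
  have h1 := h.zf_core hφ hi hn (T := 34 / 10) (p := 116 / 100) (q := 23 / 100) (by norm_num)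
    (by norm_num) hs (by norm_num) (by norm_num) (by norm_num) (by norm_num)
  have h2 := RR_le_one (by norm_num) hs
  rw [RR_zero] at h1
  split_ifs at h1 <;> linarith

/-- The same when the square of the character is small. -/
theorem Clean.zf2 (h : Clean D φ ε H psF psC) (hφ : 0 ≤ φ) (hφ' : φ ≤ 334 / 1000)
    (he : ε * BH H ≤ 1 / 4000) {i : ι} (hi : ∀ k, D.lam i ≤ D.lam k)
    (hn : ¬ (D.ch i * D.ch i = 1 ∧ D.mu i = 0)) (hsm : D.sm (D.ch i * D.ch i)) :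
    434 / 1000 < D.lam i := by
  by_contra hl
  have hs : D.lam i * (23 / 10) ≤ 1 := by linarith
  have h1 := h.zf_core hφ hi hn (T := 23 / 10) (p := 114 / 100) (q := 21 / 100) (by norm_num)
    (by norm_num) hs (by norm_num) (by norm_num) (by norm_num) (by norm_num)
  have h2 := RR_le_one (by norm_num) hs
  rw [RR_zero, if_pos hsm] at h1
  linarith

end Pool.Agent.Lib.MP_778b46_nt.GX
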