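import Pool.Agent.Lib.MP_778b46_nt.GX.Unif
import Pool.Agent.Lib.MP_778b46_nt.GX.Zf

/- The case split according to the first zero. -/

namespace Pool.Agent.Lib.MP_778b46_nt.GX

open Finset

variable {φ L : ℝ} {psF psC : List MP}

/-- Repulsion by the first zero of all zeros but its conjugate. -/
def Dh1P (sb l : ℝ) : MProp := fun _ _ _ _ _ _ D =>
  ∀ i, (∀ k, D.lam i ≤ D.lam k) → D.lam i ≤ sb → ∀ j, j ≠ i → j ≠ D.cj i → l ≤ D.lam j

/-- Repulsion by a real first zero of a real character. -/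
def Dh2P (sb l : ℝ) : MProp := fun _ _ _ _ _ _ D =>
  ∀ i, (∀ k, D.lam i ≤ D.lam k) → D.ch i * D.ch i = 1 → D.mu i = 0 → D.lam i ≤ sb →
    ∀ j, j ≠ i → l ≤ D.lam j

/-- The same in linear form. -/
def DhLP (T l1 s1 : ℝ) : MProp := fun _ _ _ _ _ _ D =>
  ∀ i, (∀ k, D.lam i ≤ D.lam k) → D.ch i * D.ch i = 1 → D.mu i = 0 → D.lam i ≤ s1 →
    ∀ j, j ≠ i → Real.exp (-(T * D.lam j)) * s1 ≤ Real.exp (-(T * l1)) * D.lam i

/-- The bound when the first zero lies in `[a, b]`. -/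
def MinP (L a b : ℝ) : MProp := fun _ _ _ _ _ _ D =>
  ∀ i, (∀ k, D.lam i ≤ D.lam k) → a ≤ D.lam i → D.lam i ≤ b →
    D.Tot L ≤ 1 - min (D.lam i) (1 / 100)

/-- The zero free region. -/
def ZfP (z1 z2 : ℝ) : MProp := fun _ _ _ _ _ _ D =>
  ∀ i, (∀ k, D.lam i ≤ D.lam k) → ¬ (D.ch i * D.ch i = 1 ∧ D.mu i = 0) →
    z1 < D.lam i ∧ (D.sm (D.ch i * D.ch i) → z2 < D.lam i)

theorem Ev.of_small {q : MProp} {c : ℝ} (hc : 0 < c)
    (h : ∀ (Γ Ω ι : Type) [CommGroup Γ] [Fintype Ω] [Fintype ι] (D : Dat Γ Ω ι) (ε H : ℝ),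
      10 ≤ H → 0 < ε → ε * BH H ≤ c → Clean D φ ε H psF psC → q Γ Ω ι D) : Ev φ psF psC q := by
  intro H hH
  have hB : 0 < BH H := BH_pos (by linarith)
  exact ⟨c / BH H, div_pos hc hB, fun ε h0 h1 Γ Ω ι _ _ _ D hD =>
    h Γ Ω ι D ε H hH h0 ((le_div_iff₀ hB).1 h1) hD⟩

theorem zf_ev (hφ : 0 ≤ φ) (hφ' : φ ≤ 334 / 1000) :
    Ev φ psF psC (ZfP (294 / 1000) (434 / 1000)) :=
  Ev.of_small (c := 1 / 4000) (by norm_num) fun _ _ _ _ _ _ _ _ _ _ _ he hD _ hi hn =>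
    ⟨hD.zf1 hφ hφ' he hi hn, hD.zf2 hφ hφ' he hi hn⟩

theorem MinP.union {a b c d : ℝ} (h1 : Ev φ psF psC (MinP L a b)) (h2 : Ev φ psF psC (MinP L c d))
    (h : c ≤ b) : Ev φ psF psC (MinP L a d) :=
  (h1.and h2).mono fun _ _ _ _ _ _ D _ _ _ h' i hi ha hd =>
    (le_total (D.lam i) b).elim (h'.1 i hi ha) fun hb => h'.2 i hi (h.trans hb) hd

theorem ce3_min {x t : ℝ} (h : t ≤ 1 - 1 / 100) : t ≤ 1 - min x (1 / 100) :=
  h.trans (sub_le_sub_left (min_le_right _ _) _)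

/-- The range of a very small first zero. -/
theorem minP_unif {z1 z2 T l1 s1 : ℝ} (hZ : Ev φ psF psC (ZfP z1 z2)) (hs : s1 ≤ z1) (hs0 : 0 < s1)
    (hT : 0 < T) (hD : Ev φ psF psC (DhLP T l1 s1)) (hU : Ev φ psF psC (UnifP L T l1 s1)) :
    Ev φ psF psC (MinP L 0 s1) := by
  refine ((hZ.and hD).and hU).mono fun _ _ _ _ _ _ D _ _ _ h i hi _ hb => ?_
  have hr : D.ch i * D.ch i = 1 ∧ D.mu i = 0 := by
    by_contra hn
    linarith [(h.1.1 i hi hn).1]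
  refine (h.2 i hb fun j hj => ?_).trans (sub_le_sub_left (min_le_left _ _) _)
  have h1 := h.1.2 i hi hr.1 hr.2 hb j hj
  refine ⟨?_, h1⟩
  have h2 := Real.exp_le_exp.1 (le_of_mul_le_mul_right
    (h1.trans (mul_le_mul_of_nonneg_left hb (Real.exp_pos _).le)) hs0)
  exact le_of_mul_le_mul_left (neg_le_neg_iff.1 h2) hT

/-- A real first zero: one primary zero. -/
theorem minP_real {z1 z2 a b l : ℝ} {n : ℕ} (hZ : Ev φ psF psC (ZfP z1 z2)) (hb : b ≤ z1)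
    (hn : 1 ≤ n) {a' b' : ℝ} (ha' : a' ≤ a) (hb' : b ≤ b') (hD : Ev φ psF psC (Dh2P b' l))
    (hR : Ev φ psF psC (RowP L n a' b' l)) : Ev φ psF psC (MinP L a b) := by
  refine ((hZ.and hD).and hR).mono fun _ _ _ _ _ _ D _ _ _ h i hi h1 h2 => ?_
  have hr : D.ch i * D.ch i = 1 ∧ D.mu i = 0 := by
    by_contra hn
    linarith [(h.1.1 i hi hn).1]
  refine ce3_min (h.2 ⟨{i}, by simpa using hn, fun p hp => ?_, fun j hj => ?_, fun p hp p' hp' _ =>
    (mem_singleton.1 hp).trans (mem_singleton.1 hp').symm⟩)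
  · rw [mem_singleton.1 hp]
    exact ⟨ha'.trans h1, h2.trans hb'⟩
  · exact h.1.2 i hi hr.1 hr.2 (h2.trans hb') j (notMem_singleton.1 hj)

/-- The first zero and its conjugate: two primary zeros in different classes, or one. -/
theorem minP_pair {z1 z2 a b l l' : ℝ} (hZ : Ev φ psF psC (ZfP z1 z2)) (hb : b ≤ z2) (hl : b < l')
    (hD1 : Ev φ psF psC (Dh1P b l)) (hD2 : Ev φ psF psC (Dh2P b l'))
    (hR : Ev φ psF psC (RowP L 2 a b l)) : Ev φ psF psC (MinP L a b) := by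
  classical
  refine (((hZ.and hD1).and hD2).and hR).mono fun _ _ _ _ _ _ D _ _ hD h i hi h1 h2 => ?_
  have key : D.sm (D.ch i * D.ch i) → D.cj i = i := by
    intro hs
    have hr : D.ch i * D.ch i = 1 ∧ D.mu i = 0 := by
      by_contra hn
      linarith [(h.1.1.1 i hi hn).2 hs]
    by_contra hc
    have := h.1.2 i hi hr.1 hr.2 h2 _ hc
    rw [hD.cj_lam] at this
    linarith
  refine ce3_min (h.2 ⟨{i, D.cj i}, card_le_two, fun p hp => ?_, fun j hj => ?_,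
    fun p hp p' hp' hs => ?_⟩)
  · rcases mem_insert.1 hp with rfl | hp
    · exact ⟨h1, h2⟩
    · rw [mem_singleton.1 hp, hD.cj_lam]
      exact ⟨h1, h2⟩
  · rw [mem_insert, mem_singleton, not_or] at hj
    exact h.1.1.2 i hi h2 j hj.1 hj.2
  · rw [mem_insert, mem_singleton] at hp hp'
    rcases hp with rfl | rfl <;> rcases hp' with h' | h' <;> rw [h'] at hs ⊢
    · rw [hD.cj_ch, div_inv_eq_mul] at hs
      exact (key hs).symm
    · have := ce2_symm hD hs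
      rw [hD.cj_ch, div_inv_eq_mul] at this
      exact key this

/-- Repulsion by a first zero which is not a real zero of a real character. -/
def Dh1N (sb l : ℝ) : MProp := fun _ _ _ _ _ _ D =>
  ∀ i, (∀ k, D.lam i ≤ D.lam k) → ¬ (D.ch i * D.ch i = 1 ∧ D.mu i = 0) → D.lam i ≤ sb →
    ∀ j, j ≠ i → j ≠ D.cj i → l ≤ D.lam j

/-- Separate rows for a real first zero and for a pair of conjugate first zeros. -/
theorem minP_split {z1 z2 a b l l' a' b' : ℝ} {n : ℕ} (hZ : Ev φ psF psC (ZfP z1 z2)) (hb : b ≤ z2)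
    (hD1 : Ev φ psF psC (Dh1N b l)) (hR : Ev φ psF psC (RowP L 2 a b l)) (hn : 1 ≤ n)
    (ha' : a' ≤ a) (hb' : b ≤ b') (hD2 : Ev φ psF psC (Dh2P b' l'))
    (hR' : Ev φ psF psC (RowP L n a' b' l')) : Ev φ psF psC (MinP L a b) := by
  classical
  refine ((((hZ.and hD1).and hD2).and hR).and hR').mono
    fun _ _ _ _ _ _ D _ _ hD h i hi h1 h2 => ce3_min ?_
  by_cases hr : D.ch i * D.ch i = 1 ∧ D.mu i = 0
  · refine h.2 ⟨{i}, by simpa using hn, fun p hp => ?_, fun j hj => ?_, fun p hp p' hp' _ =>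
      (mem_singleton.1 hp).trans (mem_singleton.1 hp').symm⟩
    · rw [mem_singleton.1 hp]
      exact ⟨ha'.trans h1, h2.trans hb'⟩
    · exact h.1.1.2 i hi hr.1 hr.2 (h2.trans hb') j (notMem_singleton.1 hj)
  have key : ¬ D.sm (D.ch i * D.ch i) := fun hs => by linarith [(h.1.1.1.1 i hi hr).2 hs]
  refine h.1.2 ⟨{i, D.cj i}, card_le_two, fun p hp => ?_, fun j hj => ?_,
    fun p hp p' hp' hs => ?_⟩
  · rcases mem_insert.1 hp with rfl | hp
    · exact ⟨h1, h2⟩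
    · rw [mem_singleton.1 hp, hD.cj_lam]
      exact ⟨h1, h2⟩
  · rw [mem_insert, mem_singleton, not_or] at hj
    exact h.1.1.1.2 i hi hr h2 j hj.1 hj.2
  · rw [mem_insert, mem_singleton] at hp hp'
    rcases hp with rfl | rfl <;> rcases hp' with h' | h' <;> rw [h'] at hs ⊢
    · rw [hD.cj_ch, div_inv_eq_mul] at hs
      exact absurd hs key
    · have := ce2_symm hD hs
      rw [hD.cj_ch, div_inv_eq_mul] at this
      exact absurd this key

/-- The ranges `[0, l]` and `[l, ∞)` give the numerical part. -/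
theorem cert_of_min {l l' sa sb : ℝ} (hF : ∀ p ∈ psF, p.ok φ φ)
    (hC : ∀ p ∈ psC, p.ok φ (1 / 1000)) (hM : Ev φ psF psC (MinP L 0 l)) (hl : l' ≤ l)
    (hR : Ev φ psF psC (RowP L 0 sa sb l')) : CERT L φ := by
  refine ⟨psF, psC, hF, hC, fun H hH s0 hs0 => ?_⟩
  obtain ⟨ε, e0, e1⟩ := (hM.and hR) H hH
  refine ⟨ε, e0, fun Γ Ω ι _ _ _ D hD hs => ?_⟩
  obtain ⟨h1, h2⟩ := e1 ε e0 le_rfl Γ Ω ι D hD
  change D.Tot L ≤ _
  by_cases h : ∀ j, l ≤ D.lam j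
  · exact ce3_min (h2 ⟨∅, le_rfl, by simp, fun j _ => hl.trans (h j), by simp⟩)
  · push Not at h
    obtain ⟨j, hj⟩ := h
    obtain ⟨i, -, hi⟩ := exists_min_image univ D.lam ⟨j, mem_univ j⟩
    exact (h1 i (fun k => hi k (mem_univ k)) (hD.lam_nonneg i)
      ((hi j (mem_univ j)).trans hj.le)).trans
      (sub_le_sub_left (min_le_min (hs i) le_rfl) _)

/-- The rows of the certificate give the numerical part. -/
theorem cert_of_rows (hφ : 0 ≤ φ) (hφ' : φ ≤ 0.334) (hL : 2.92 ≤ L) (hF : ∀ p ∈ psF, p.ok φ φ)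
    (hC : ∀ p ∈ psC, p.ok φ (1 / 1000)) (uF : pUF ∈ psF) (uC : pUC ∈ psC) {l' sa sb : ℝ}
    (hl : 0.43 < l') (d0 : Ev φ psF psC (DhLP 1.4 5.65 0.006))
    (d1 : Ev φ psF psC (Dh2P 0.02 4.32)) (d2 : Ev φ psF psC (Dh2P 0.1 2.5))
    (d3 : Ev φ psF psC (Dh2P 0.3 1.28)) (d4 : Ev φ psF psC (Dh1P 0.43 0.744))
    (d5 : Ev φ psF psC (Dh2P 0.43 l')) (r1 : Ev φ psF psC (RowP L 1 0.006 0.02 4.32))
    (r2 : Ev φ psF psC (RowP L 1 0.02 0.1 2.5)) (r3 : Ev φ psF psC (RowP L 1 0.1 0.3 1.28))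
    (rB : Ev φ psF psC (RowP L 2 0.294 0.43 0.744)) (rG : Ev φ psF psC (RowP L 0 sa sb 0.43)) :
    CERT L φ := by
  have hZ : Ev φ psF psC (ZfP (294 / 1000) (434 / 1000)) := zf_ev hφ (by linarith)
  refine cert_of_min hF hC (MinP.union (MinP.union (MinP.union (MinP.union
    (minP_unif hZ (by norm_num) (by norm_num) (by norm_num) d0 (unif_num uF uC hφ hφ' hL))
    (minP_real hZ (by norm_num) le_rfl le_rfl le_rfl d1 r1) le_rfl)
    (minP_real hZ (by norm_num) le_rfl le_rfl le_rfl d2 r2) le_rfl)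
    (minP_real (b := 0.294) hZ (by norm_num) le_rfl le_rfl (by norm_num) d3 r3) le_rfl)
    (minP_pair hZ (by norm_num) hl d4 d5 rB) le_rfl) le_rfl rG

end Pool.Agent.Lib.MP_778b46_nt.GX
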