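import Pool.Agent.Lib.MP_778b46_nt.GX.Ev2
import Pool.Agent.Lib.MP_778b46_nt.GX.CertD

/- The case split according to the kind and the position of the first zero. -/

namespace Pool.Agent.Lib.MP_778b46_nt.GX

open Finset

variable {φ φ1 L : ℝ} {psF psC qsF qsC : List MP}

/-- A property of a zero. -/
abbrev Kind : Type 1 := ∀ (Γ Ω ι : Type) [CommGroup Γ], Dat Γ Ω ι → Subgroup Γ → ι → Prop

/-- A real zero of a real character. -/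
def KR : Kind := fun _ _ _ _ D _ i => D.ch i * D.ch i = 1 ∧ D.mu i = 0

/-- The conjugate zero lies in another class. -/
def KD : Kind := fun _ _ _ _ D _ i => ¬ D.sm (D.ch i * D.ch i)

/-- The conjugate zero is another zero of the same class. -/
def KS : Kind := fun _ _ _ _ D _ i =>
  D.sm (D.ch i * D.ch i) ∧ ¬ (D.ch i * D.ch i = 1 ∧ D.mu i = 0)

/-- A property `p` of the first zero, if it has kind `K` and lies in `[a, b]`. -/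
def Fst (K : Kind) (a b : ℝ) (p : ∀ (Γ Ω ι : Type) [CommGroup Γ] [Fintype Ω] [Fintype ι],
    Dat Γ Ω ι → Subgroup Γ → ι → Prop) : MProp2 := fun Γ Ω ι _ _ _ D Lo =>
  ∀ i, (∀ k, D.lam i ≤ D.lam k) → K Γ Ω ι D Lo i → a ≤ D.lam i → D.lam i ≤ b → p Γ Ω ι D Lo i

/-- The bound for a first zero of kind `K` in `[a, b]`. -/
def Min2 (K : Kind) (L a b : ℝ) : MProp2 :=
  Fst K a b fun _ _ _ _ _ _ D _ i => D.Tot L ≤ 1 - min (D.lam i) (1 / 1000)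

theorem Min2.union {K : Kind} {a b c d : ℝ} (h1 : Ev2 φ φ1 psF psC qsF qsC (Min2 K L a b))
    (h2 : Ev2 φ φ1 psF psC qsF qsC (Min2 K L c d)) (h : c ≤ b) :
    Ev2 φ φ1 psF psC qsF qsC (Min2 K L a d) :=
  (h1.and h2).mono fun _ _ _ _ _ _ D _ _ _ _ h' i hi hk ha hd =>
    (le_total (D.lam i) b).elim (h'.1 i hi hk ha) fun hb => h'.2 i hi hk (h.trans hb) hd

/-- Splitting a kind into two. -/
theorem Min2.split {K K1 K2 : Kind} {a b : ℝ} (h1 : Ev2 φ φ1 psF psC qsF qsC (Min2 K1 L a b))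
    (h2 : Ev2 φ φ1 psF psC qsF qsC (Min2 K2 L a b))
    (h : ∀ (Γ Ω ι : Type) [CommGroup Γ] (D : Dat Γ Ω ι) (Lo : Subgroup Γ) (i : ι),
      K Γ Ω ι D Lo i → K1 Γ Ω ι D Lo i ∨ K2 Γ Ω ι D Lo i) :
    Ev2 φ φ1 psF psC qsF qsC (Min2 K L a b) :=
  (h1.and h2).mono fun _ _ _ _ _ _ D Lo _ _ _ h' i hi hk ha hb =>
    (h _ _ _ D Lo i hk).elim (fun k => h'.1 i hi k ha hb) fun k => h'.2 i hi k ha hb

theorem ce4_min {x t V : ℝ} (hV : V ≤ 0.999) (h : t ≤ V) : t ≤ 1 - min x (1 / 1000) := by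
  linarith [min_le_right x (1 / 1000)]

/-- No zero lies before `l`. -/
def GenP (L V l : ℝ) : MProp2 := fun _ _ _ _ _ _ D _ => (∀ j, l ≤ D.lam j) → D.Tot L ≤ V

theorem cert3_of_min {l V : ℝ} (hF : ∀ p ∈ psF, p.ok φ φ) (hC : ∀ p ∈ psC, p.ok φ (1 / 1000))
    (hF1 : ∀ p ∈ qsF, p.ok φ1 φ1) (hC1 : ∀ p ∈ qsC, p.ok φ1 (1 / 1000))
    (hR : Ev2 φ φ1 psF psC qsF qsC (Min2 KR L 0 l))
    (hD : Ev2 φ φ1 psF psC qsF qsC (Min2 KD L 0 l))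
    (hS : Ev2 φ φ1 psF psC qsF qsC (Min2 KS L 0 l)) (hV : V ≤ 0.999)
    (hG : Ev2 φ φ1 psF psC qsF qsC (GenP L V l)) : CERT3 L φ φ1 := by
  refine ⟨psF, psC, qsF, qsC, hF, hC, hF1, hC1, fun s0 hs0 =>
    ⟨min s0 (1 / 1000), by positivity, fun H hH => ?_⟩⟩
  obtain ⟨ε, e0, e1⟩ := (((hR.and hD).and hS).and hG) H hH
  refine ⟨ε, e0, fun Γ Ω ι _ _ _ D Lo hc hs => ?_⟩
  obtain ⟨⟨⟨h1, h2⟩, h3⟩, h4⟩ := e1 ε e0 le_rfl Γ Ω ι D Lo hc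
  change D.Tot L ≤ _
  by_cases h : ∀ j, l ≤ D.lam j
  · exact ce4_min hV (h4 h)
  push Not at h
  obtain ⟨j, hj⟩ := h
  obtain ⟨i, -, hi⟩ := exists_min_image univ D.lam ⟨j, mem_univ j⟩
  have hi' := fun k => hi k (mem_univ k)
  have h0 := hc.cl.lam_nonneg i
  have hl := (hi' j).trans hj.le
  refine le_trans ?_ (sub_le_sub_left (min_le_min (hs i) le_rfl) _)
  by_cases k1 : D.ch i * D.ch i = 1 ∧ D.mu i = 0
  · exact h1 i hi' k1 h0 hl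
  by_cases k2 : D.sm (D.ch i * D.ch i)
  · exact h3 i hi' ⟨k2, k1⟩ h0 hl
  · exact h2 i hi' k2 h0 hl

theorem genP_of {l V sa sb lc lp : ℝ} {r : ℕ}
    (h : Ev2 φ φ1 psF psC qsF qsC fun Γ Ω ι _ _ _ D _ => RowP2 L V 0 r sa sb l lc lp Γ Ω ι D) :
    Ev2 φ φ1 psF psC qsF qsC (GenP L V l) :=
  h.mono fun _ _ _ _ _ _ _ _ _ _ _ h hl =>
    h ⟨∅, by simp, by simp, by simp, by simp, by simp, fun k _ => hl k⟩

/-! ### Real first zero -/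

theorem min2_unif {s1 : ℝ} (h : Ev φ psF psC (Unif2P L 1 s1)) :
    Ev2 φ φ1 psF psC qsF qsC (Min2 KR L 0 s1) :=
  (h.up φ1 qsF qsC).mono fun _ _ _ _ _ _ D _ _ _ _ h i hi hk _ hb => by
    linarith [h i hi hk.1 hk.2 hb, min_le_left (D.lam i) (1 / 1000)]

/-- Repulsion of the zeros of the characters outside `Lo` by a real first zero. -/
def Dh2N (sb l : ℝ) : MProp2 := fun _ _ _ _ _ _ D Lo =>
  ∀ i, (∀ k, D.lam i ≤ D.lam k) → D.ch i * D.ch i = 1 → D.mu i = 0 → D.lam i ≤ sb →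
    ∀ j, D.ch j ∉ Lo → l ≤ D.lam j

theorem dh2P_of_LN {b l l1 l2 : ℝ} (h1 : l ≤ l1) (h2 : l ≤ l2)
    (hL : Ev2 φ φ1 psF psC qsF qsC (Dh2L b l1)) (hN : Ev2 φ φ1 psF psC qsF qsC (Dh2N b l2)) :
    Ev2 φ φ1 psF psC qsF qsC fun Γ Ω ι _ _ _ D _ => Dh2P b l Γ Ω ι D :=
  (hL.and hN).mono fun _ _ _ _ _ _ D Lo _ _ _ h i hi hr hm hb j hj =>
    (em (D.ch j ∈ Lo)).elim (fun k => h1.trans (h.1 i hi hr hm hb j hj k))
      fun k => h2.trans (h.2 i hi hr hm hb j k)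

/-- A real first zero in `[a, b]` with the levels `lc` (class) and `l`. -/
theorem min2_real {a b l lc V : ℝ} (hV : V ≤ 0.999)
    (hC : Ev2 φ φ1 psF psC qsF qsC fun Γ Ω ι _ _ _ D _ => Dh2C b lc Γ Ω ι D)
    (hL : Ev2 φ φ1 psF psC qsF qsC fun Γ Ω ι _ _ _ D _ => Dh2P b l Γ Ω ι D)
    (hR : Ev2 φ φ1 psF psC qsF qsC fun Γ Ω ι _ _ _ D _ => RowR L V a b l lc Γ Ω ι D) :
    Ev2 φ φ1 psF psC qsF qsC (Min2 KR L a b) := by
  refine ((hC.and hL).and hR).mono fun _ _ _ _ _ _ D Lo _ _ hD h i hi hk ha hb =>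
    ce4_min hV (h.2 i hk.1 hk.2 ha hb (h.1.1 i hi hk.1 hk.2 hb) fun j hj =>
      h.1.2 i hi hk.1 hk.2 hb j fun e => hj ?_)
  rw [e, div_self']
  exact hD.cl.sm_one

theorem Ev.dh2N {sb l : ℝ} (h : Ev φ psF psC (Dh2P sb l)) (φ1 : ℝ) (qsF qsC : List MP) :
    Ev2 φ φ1 psF psC qsF qsC (Dh2N sb l) :=
  (h.up φ1 qsF qsC).mono fun _ _ _ _ _ _ _ _ _ _ hD h i hi hr hm hs j hj =>
    h i hi hr hm hs j fun e => hj (e ▸ hD.real_mem hr)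

/-- A row for `Prim2` is a row for a real primary zero. -/
theorem RowP2.rowR {Γ Ω ι : Type} [CommGroup Γ] [Fintype Ω] [Fintype ι] {D : Dat Γ Ω ι} {ε H : ℝ}
    (hD : Clean D φ ε H psF psC) {V sa sb l lc : ℝ} (h : RowP2 L V 1 1 sa sb l lc lc Γ Ω ι D) :
    RowR L V sa sb l lc Γ Ω ι D := fun _ _ _ h1 h2 h3 h4 => h ⟨_, prim3_one hD h1 h2 h3 h4⟩

/-! ### A pair of conjugate first zeros -/

/-- The levels of the other zeros: same character `lp`, same class `lc`, other classes `l`. -/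
def Lev (K : Kind) (a b l lc lp : ℝ) : MProp2 :=
  Fst K a b fun _ _ _ _ _ _ D _ i => (∀ k, D.ch k = D.ch i → k ≠ i → lp ≤ D.lam k) ∧
    (∀ k, k ≠ i → k ≠ D.cj i → D.sm (D.ch i / D.ch k) → lc ≤ D.lam k) ∧
    ∀ k, ¬ D.sm (D.ch i / D.ch k) → ¬ D.sm (D.ch i * D.ch k) → l ≤ D.lam k

section

variable {Γ Ω ι : Type} [CommGroup Γ] [Fintype Ω] [Fintype ι] {D : Dat Γ Ω ι} {ε H : ℝ}

open Classical in
theorem ce4_prim (hD : Clean D φ ε H psF psC) {i : ι} {n r : ℕ} {a b l lc lp : ℝ}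
    (hl : b < lc) (hn : 2 ≤ n * r) (ha : a ≤ D.lam i) (hb : D.lam i ≤ b)
    (hA : ∀ p ∈ ({i, D.cj i} : Finset ι), ∃ A : Finset ι, A.card = r ∧
      ∀ k, k ∈ A ↔ k ∈ ({i, D.cj i} : Finset ι) ∧ D.sm (D.ch p / D.ch k))
    (h1 : ∀ k, D.ch k = D.ch i → k ≠ i → lp ≤ D.lam k)
    (h2 : ∀ k, k ≠ i → k ≠ D.cj i → D.sm (D.ch i / D.ch k) → lc ≤ D.lam k)
    (h3 : ∀ k, ¬ D.sm (D.ch i / D.ch k) → ¬ D.sm (D.ch i * D.ch k) → l ≤ D.lam k) :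
    D.Prim3 {i, D.cj i} n r a b l lc lp := by
  have hc : D.cj (D.cj i) = i := by
    by_contra hc
    have := h2 _ hc (fun e => hc (by rw [D.cj.injective e, D.cj.injective e]))
      (by rw [hD.cj_ch, hD.cj_ch, inv_inv, div_self']; exact hD.sm_one)
    rw [hD.cj_lam, hD.cj_lam] at this
    linarith
  refine ⟨card_le_two.trans hn, ?_, hA, ?_, ?_, fun k hk => ?_⟩
  · simp only [mem_insert, mem_singleton, forall_eq_or_imp, forall_eq, hD.cj_lam]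
    exact ⟨⟨ha, hb⟩, ha, hb⟩
  · simp only [mem_insert, mem_singleton, forall_eq_or_imp, forall_eq]
    refine ⟨h1, fun k hk hn => ?_⟩
    rw [← hD.cj_lam k]
    refine h1 _ (by rw [hD.cj_ch, hk, hD.cj_ch, inv_inv]) fun e => hn (D.cj.injective ?_)
    rw [e, hc]
  · simp only [mem_insert, mem_singleton, forall_eq_or_imp, forall_eq, not_or]
    refine ⟨fun k hk => h2 k hk.1 hk.2, fun k hk hs => ?_⟩
    rw [← hD.cj_lam k]
    refine h2 _ (fun e => hk.2 (D.cj.injective (by rw [e, hc])))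
      (fun e => hk.1 (D.cj.injective e)) ?_
    have := hD.sm_inv _ hs
    rwa [hD.cj_ch, ← inv_div_inv, inv_div, inv_div_inv, ← inv_div_inv, inv_inv, ← hD.cj_ch] at this
  · refine h3 k (hk i (mem_insert_self _ _)) fun hs => hk (D.cj i) (by simp) ?_
    have := hD.sm_inv _ hs
    rwa [mul_inv, ← div_eq_mul_inv, ← hD.cj_ch] at this

open Classical in
theorem ce4_primD (hD : Clean D φ ε H psF psC) {i : ι} {a b l lc lp : ℝ} (hl : b < lc)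
    (hk : ¬ D.sm (D.ch i * D.ch i)) (ha : a ≤ D.lam i) (hb : D.lam i ≤ b)
    (h : (∀ k, D.ch k = D.ch i → k ≠ i → lp ≤ D.lam k) ∧
      (∀ k, k ≠ i → k ≠ D.cj i → D.sm (D.ch i / D.ch k) → lc ≤ D.lam k) ∧
      ∀ k, ¬ D.sm (D.ch i / D.ch k) → ¬ D.sm (D.ch i * D.ch k) → l ≤ D.lam k) :
    D.Prim3 {i, D.cj i} 2 1 a b l lc lp := by
  have e : ∀ p, D.sm (D.ch p / D.ch p) := fun p => by rw [div_self']; exact hD.sm_one
  have n1 : ¬ D.sm (D.ch i / D.ch (D.cj i)) := by rwa [hD.cj_ch, div_inv_eq_mul]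
  refine ce4_prim hD hl le_rfl ha hb (fun p hp => ⟨{p}, rfl, fun k => ?_⟩) h.1 h.2.1 h.2.2
  rw [mem_singleton]
  refine ⟨fun h => by rw [h]; exact ⟨hp, e _⟩, fun ⟨h1, h2⟩ => ?_⟩
  rw [mem_insert, mem_singleton] at hp h1
  rcases hp with rfl | rfl <;> rcases h1 with h1 | h1 <;> rw [h1] at h2 ⊢
  · exact absurd h2 n1
  · exact absurd (ce2_symm hD h2) n1

open Classical in
theorem ce4_primS (hD : Clean D φ ε H psF psC) {i : ι} {a b l lc lp : ℝ} (hl : b < lc)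
    (hk : D.sm (D.ch i * D.ch i)) (hk' : ¬ (D.ch i * D.ch i = 1 ∧ D.mu i = 0)) (ha : a ≤ D.lam i)
    (hb : D.lam i ≤ b) (h : (∀ k, D.ch k = D.ch i → k ≠ i → lp ≤ D.lam k) ∧
      (∀ k, k ≠ i → k ≠ D.cj i → D.sm (D.ch i / D.ch k) → lc ≤ D.lam k) ∧
      ∀ k, ¬ D.sm (D.ch i / D.ch k) → ¬ D.sm (D.ch i * D.ch k) → l ≤ D.lam k) :
    D.Prim3 {i, D.cj i} 1 2 a b l lc lp := by
  have e : ∀ p, D.sm (D.ch p / D.ch p) := fun p => by rw [div_self']; exact hD.sm_one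
  have n1 : D.sm (D.ch i / D.ch (D.cj i)) := by rwa [hD.cj_ch, div_inv_eq_mul]
  have h1 : i ≠ D.cj i := fun e => hk' ⟨by
    have := hD.cj_ch i
    rw [← e] at this
    exact mul_eq_one_iff_eq_inv.2 this, by have := hD.cj_mu i; rw [← e] at this; linarith⟩
  refine ce4_prim hD hl le_rfl ha hb (fun p hp => ⟨{i, D.cj i}, card_pair h1, fun k =>
    ⟨fun hk => ⟨hk, ?_⟩, And.left⟩⟩) h.1 h.2.1 h.2.2
  rw [mem_insert, mem_singleton] at hp hk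
  rcases hp with rfl | rfl <;> rcases hk with h1 | h1 <;> rw [h1]
  exacts [e _, n1, ce2_symm hD n1, e _]

end

theorem min2_pairD {K : Kind} {a b l lc lp V : ℝ} (hV : V ≤ 0.999) (hl : b < lc)
    (hK : ∀ (Γ Ω ι : Type) [CommGroup Γ] (D : Dat Γ Ω ι) (Lo : Subgroup Γ) (i : ι),
      K Γ Ω ι D Lo i → KD Γ Ω ι D Lo i) (hL : Ev2 φ φ1 psF psC qsF qsC (Lev K a b l lc lp))
    (hR : Ev2 φ φ1 psF psC qsF qsC fun Γ Ω ι _ _ _ D _ => RowP2 L V 2 1 a b l lc lp Γ Ω ι D) :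
    Ev2 φ φ1 psF psC qsF qsC (Min2 K L a b) :=
  (hL.and hR).mono fun _ _ _ _ _ _ D Lo _ _ hD h i hi hk ha hb =>
    ce4_min hV (h.2 ⟨_, ce4_primD hD.cl hl (hK _ _ _ D Lo i hk) ha hb (h.1 i hi hk ha hb)⟩)

/-- A row whose primary zeros belong to members of `Lo`. -/
def RowL (L V : ℝ) (n r : ℕ) (sa sb l lc lp : ℝ) : MProp2 := fun _ _ _ _ _ _ D Lo =>
  ∀ Pr, (∀ p ∈ Pr, D.ch p ∈ Lo) → D.Prim3 Pr n r sa sb l lc lp → D.Tot L ≤ V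

theorem min2_pairS {K : Kind} {a b l lc lp V : ℝ} (hV : V ≤ 0.999) (hl : b < lc)
    (hK : ∀ (Γ Ω ι : Type) [CommGroup Γ] (D : Dat Γ Ω ι) (Lo : Subgroup Γ) (i : ι),
      K Γ Ω ι D Lo i → KS Γ Ω ι D Lo i) (hL : Ev2 φ φ1 psF psC qsF qsC (Lev K a b l lc lp))
    (hR : Ev2 φ φ1 psF psC qsF qsC (RowL L V 1 2 a b l lc lp)) :
    Ev2 φ φ1 psF psC qsF qsC (Min2 K L a b) := by
  classical
  refine (hL.and hR).mono fun _ _ _ _ _ _ D Lo _ _ hD h i hi hk ha hb => ?_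
  obtain ⟨k1, k2⟩ := hK _ _ _ D Lo i hk
  refine ce4_min hV (h.2 _ ?_ (ce4_primS hD.cl hl k1 k2 ha hb (h.1 i hi hk ha hb)))
  simp only [mem_insert, mem_singleton, forall_eq_or_imp, forall_eq, hD.cl.cj_ch, inv_mem_iff]
  exact ⟨hD.sq_mem k1, hD.sq_mem k1⟩

theorem RowL.rowR {a b l lc V : ℝ} (hR : Ev2 φ φ1 psF psC qsF qsC (RowL L V 1 1 a b l lc lc)) :
    Ev2 φ φ1 psF psC qsF qsC fun Γ Ω ι _ _ _ D _ => RowR L V a b l lc Γ Ω ι D :=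
  hR.mono fun _ _ _ _ _ _ _ _ _ _ hD h _ hr _ h1 h2 h3 h4 =>
    h _ (fun _ hp => mem_singleton.1 hp ▸ hD.real_mem hr) (prim3_one hD.cl h1 h2 h3 h4)

/-- The zero free regions. -/
theorem min2_zfD {z1 z2 : ℝ} (h : Ev φ psF psC (ZfP z1 z2)) :
    Ev2 φ φ1 psF psC qsF qsC (Min2 KD L 0 z1) :=
  (h.up φ1 qsF qsC).mono fun _ _ _ _ _ _ _ _ _ _ hD h i hi hk _ hb =>
    absurd (h i hi fun e => hk (e.1 ▸ hD.cl.sm_one)).1 (not_lt.2 hb)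

theorem min2_zfS {z1 z2 : ℝ} (h : Ev φ psF psC (ZfP z1 z2)) :
    Ev2 φ φ1 psF psC qsF qsC (Min2 KS L 0 z2) :=
  (h.up φ1 qsF qsC).mono fun _ _ _ _ _ _ _ _ _ _ _ h i hi hk _ hb =>
    absurd ((h i hi hk.2).2 hk.1) (not_lt.2 hb)

/-- The same from the submodel. -/
theorem min2_zfL {K : Kind} {z1 z2 : ℝ} (h : Ev φ1 qsF qsC (ZfP z1 z2))
    (hK : ∀ (Γ Ω ι : Type) [CommGroup Γ] (D : Dat Γ Ω ι) (Lo : Subgroup Γ) (i : ι),
      K Γ Ω ι D Lo i → D.ch i ∈ Lo ∧ KD Γ Ω ι D Lo i) :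
    Ev2 φ φ1 psF psC qsF qsC (Min2 K L 0 z1) ∧ Ev2 φ φ1 psF psC qsF qsC (Min2 KS L 0 z2) :=
  ⟨(h.lo φ psF psC).mono fun _ _ _ _ _ _ D Lo _ _ hD h i hi hk _ hb =>
    absurd (h hD.cl.cj_ch ⟨i, (hK _ _ _ D Lo i hk).1⟩ (fun k => hi k.1) fun e =>
      (hK _ _ _ D Lo i hk).2 ((show D.ch i * D.ch i = 1 from congrArg Subtype.val e.1) ▸
        hD.cl.sm_one)).1 (not_lt.2 hb),
  (h.lo φ psF psC).mono fun _ _ _ _ _ _ _ _ _ _ hD h i hi hk _ hb =>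
    absurd ((h hD.cl.cj_ch ⟨i, hD.sq_mem hk.1⟩ (fun k => hi k.1) fun e =>
      hk.2 ⟨congrArg Subtype.val e.1, e.2⟩).2 hk.1) (not_lt.2 hb)⟩

end Pool.Agent.Lib.MP_778b46_nt.GX
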