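import Pool.Agent.Lib.MP_778b46_nt.GX.G1
import Pool.Agent.Lib.MP_778b46_nt.GX.GmD
import Pool.Agent.Lib.MP_6cad4c_al.Iv

/- Definitions for the numerical certificate: weights of zeros and fixed point arithmetic. -/

namespace Pool.Agent.Lib.MP_778b46_nt.GX

open Finset Filter Topology
open Pool.Agent.Lib.MP_6cad4c_al

/-! ### Weights -/

/-- A property of clean models that holds once the error is small. -/
def Evt (φ : ℝ) (psF psC : List MP)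
    (P : ∀ (Γ Ω ι : Type) [CommGroup Γ] [Fintype Ω] [Fintype ι], Dat Γ Ω ι → Prop) : Prop :=
  ∀ H : ℝ, 10 ≤ H → ∀ᶠ ε in 𝓝[>] (0 : ℝ),
    ∀ (Γ Ω ι : Type) [CommGroup Γ] [Fintype Ω] [Fintype ι] (D : Dat Γ Ω ι),
      Clean D φ ε H psF psC → P Γ Ω ι D

section

variable {Γ Ω ι : Type} [CommGroup Γ] [Fintype Ω] [Fintype ι]

/-- Two zeros lie in the same class. -/
def Dat.cl (D : Dat Γ Ω ι) (i j : ι) : Prop := D.sm (D.ch i / D.ch j)

/-- The weight `W` has total at most `V` on classes right of the line `a`. -/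
def FamP (D : Dat Γ Ω ι) (a V : ℝ) (W : ℝ → ℝ) : Prop :=
  ∀ S : Finset ι, (∀ j ∈ S, ∀ k, D.cl k j → a ≤ D.lam k) → ∑ j ∈ S, W (D.lam j) ≤ V

/-- The weight `W` has total at most `V` in each class right of the line `a`. -/
def ClsP (D : Dat Γ Ω ι) (a V : ℝ) (W : ℝ → ℝ) : Prop :=
  ∀ S : Finset ι, (∀ i ∈ S, ∀ j ∈ S, D.cl i j) → (∀ j ∈ S, ∀ k, D.cl k j → a ≤ D.lam k) →
    ∑ j ∈ S, W (D.lam j) ≤ V

open Classical in
/-- The quantity bounded in `CERT`. -/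
noncomputable def Obj (D : Dat Γ Ω ι) (L : ℝ) : ℝ :=
  ∑ i, ∑ j ∈ univ.filter (fun j => D.sm (D.ch i * D.ch j)),
    Real.exp (-(L * D.lam i)) * Real.exp (-(L * D.lam j))

open Classical in
/-- Hypotheses of one row: all zeros are right of `b`; at most `n` zeros are left of `l`, they are left
of `sb` and lie in different classes. -/
structure Hyp (D : Dat Γ Ω ι) (b sb l : ℝ) (n : ℕ) : Prop where
  low : ∀ k, b ≤ D.lam k
  gap : ∀ k, D.lam k < l → D.lam k < sb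
  cnt : (univ.filter fun k => D.lam k < l).card ≤ n
  one : ∀ i k, D.lam i < l → D.lam k < l → D.cl i k → i = k

end

/-- The bound `V` holds under the hypotheses of a row. -/
def RowB (φ L : ℝ) (psF psC : List MP) (b sb l : ℝ) (n : ℕ) (V : ℝ) : Prop :=
  Evt φ psF psC fun _ _ _ _ _ _ D => Hyp D b sb l n → Obj D L ≤ V

/-- Weight from a Gram inequality with the test function `gT T a`; `e` bounds `φ / 2 + δ`. -/
noncomputable def Wg (e T a G C A : ℝ) (cap : ℝ → ℝ) (l : ℝ) : ℝ :=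
  if 0 < RR T (l - a) 0 - e then
    max 0 (min ((RR T (l - a) 0 - e - G * C / (RR T (l - a) 0 - e)) / A) (cap ((l - a) * T))) *
      (RR T (l - a) 0 - e) / G
  else 0

/-- Cap when the kernel is `gT T b`. -/
noncomputable def capS (m x : ℝ) : ℝ := m / (1 + x / 2)

/-- Cap for the hybrid kernel. -/
noncomputable def capH (T A J x : ℝ) : ℝ := 2 * T * x / (A * (x ^ 2 + 10) + T ^ 2 * J)

/-- Weight from the mollifier inequality. -/
noncomputable def Wm (φ δ : ℝ) (p : MP) (lmin l : ℝ) : ℝ :=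
  if lmin ≤ l then p.m φ lmin l / (1 + δ) else 0

/-- Weight from counting. -/
noncomputable def Wn (w l0 l : ℝ) : ℝ := if l < l0 then w else 0

/-- Piecewise linear function with support `[p, r]` and top at `q`. -/
noncomputable def tent (p q r t : ℝ) : ℝ := max 0 (min ((t - p) / (q - p)) ((r - t) / (r - q)))

/-! ### Fixed point arithmetic -/

/-- Real value of a fixed point number. -/
noncomputable def rv (n : ℕ) : ℝ := (n : ℝ) / 2 ^ 80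

def dlo (a b : ℕ) : ℕ := Nat.div (Nat.shiftLeft a 80) b

def dhi (a b : ℕ) : ℕ := Nat.add (Nat.div (Nat.shiftLeft a 80) b) 1

/-- `2 ^ 60`, the fixed point form of the margin `δ = 2 ^ (-20)`. -/
def DL : ℕ := 1152921504606846976

/-- `2 ^ 73` -/
def XM : ℕ := 9444732965739290427392

def rfLo3 (x x2 x3 : ℕ) : ℕ :=
  Nat.div (Nat.shiftLeft (Nat.sub
    (Nat.add (Nat.add (Nat.shiftLeft (Nat.mul x2 x3) 80) (Nat.shiftLeft (Nat.mul 30 x2) 320))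
      (Nat.shiftLeft (Nat.mul (nexpLo x) (Nat.add (Nat.add (Nat.mul 30 x2)
        (Nat.shiftLeft (Nat.mul 120 x) 80)) (Nat.shiftLeft 120 160))) 240))
    (Nat.add (Nat.shiftLeft (Nat.mul 10 x3) 240) (Nat.shiftLeft 120 480))) 80) (Nat.mul x3 x3)

def rfLo2 (x x2 : ℕ) : ℕ := rfLo3 x x2 (Nat.mul x x2)

def rfLo1 (x : ℕ) : ℕ := rfLo2 x (Nat.mul x x)

/-- Lower bound for `RF x 0`. -/
def rfLo (x : ℕ) : ℕ := rfLo1 (nmax x XM)

def rfHi3 (x x2 x3 : ℕ) : ℕ :=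
  Nat.add (Nat.div (Nat.shiftLeft (Nat.sub
    (Nat.add (Nat.add (Nat.shiftLeft (Nat.mul 10 x3) 240) (Nat.shiftLeft (Nat.mul 30 x2) 320))
      (Nat.shiftLeft (Nat.mul (expHi x) (Nat.sub (Nat.add (Nat.mul 30 x2) (Nat.shiftLeft 120 160))
        (Nat.shiftLeft (Nat.mul 120 x) 80))) 240))
    (Nat.add (Nat.shiftLeft (Nat.mul x2 x3) 80) (Nat.shiftLeft 120 480))) 80) (Nat.mul x3 x3)) 1

def rfHi2 (x x2 : ℕ) : ℕ := rfHi3 x x2 (Nat.mul x x2)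

def rfHi1 (x : ℕ) : ℕ := rfHi2 x (Nat.mul x x)

/-- Upper bound for `RF (-x) 0`. -/
def rfHi (x : ℕ) : ℕ := rfHi1 (nmax x XM)

def g1Lo1 (t s : ℕ) : ℕ := mlo (mlo s (mlo s s)) (Nat.add (Nat.add ONE (Nat.mul 3 t)) (mlo t t))

def g1Hi1 (t s : ℕ) : ℕ := mhi (mhi s (mhi s s)) (Nat.add (Nat.add ONE (Nat.mul 3 t)) (mhi t t))

def g1Lo (t : ℕ) : ℕ := g1Lo1 t (Nat.sub ONE t)

def g1Hi (t : ℕ) : ℕ := g1Hi1 t (Nat.sub ONE t)

/-- Mollifier parameters in fixed point form. -/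
structure MN where
  w : ℕ
  u0 : ℕ
  u1 : ℕ
  u : ℕ
  v : ℕ
  x0 : ℕ
  x1 : ℕ
  sg : ℕ

noncomputable def MN.mp (p : MN) : MP :=
  ⟨rv p.w, rv p.u0, rv p.u1, rv p.u, rv p.v, rv p.x0, rv p.x1, rv p.sg⟩

/-- Admissibility; `f` bounds `ph`, `f'` bounds `ph'`. -/
def MN.ok (p : MN) (f f' : ℕ) : Bool :=
  Nat.ble 1 p.w && Nat.ble (Nat.add (Nat.mul 2 p.w) f') p.u0 && Nat.ble (Nat.add p.u0 1) p.u1 &&
    Nat.ble (Nat.add p.u1 1) p.u && Nat.ble (Nat.add p.u 1) p.v &&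
    Nat.ble (Nat.add (Nat.add p.v p.w) f) p.x0 && Nat.ble (Nat.add p.x0 1) p.x1 && Nat.ble 1 p.sg &&
    Nat.ble p.x1 (Nat.mul 2 ONE) && Nat.ble p.sg (Nat.mul 20 ONE)

/-- Lower bound for `w (exp (sg v) - exp (sg u)) / (1 + δ)`. -/
def MN.n0 (p : MN) : ℕ :=
  Nat.div (Nat.mul p.w (Nat.sub (expLo (mlo p.sg p.v)) (expHi (mhi p.sg p.u)))) (Nat.add ONE DL)

def MN.eHi (p : MN) (b : ℕ) : ℕ :=
  Nat.add (dhi (Nat.add (expHi (mhi b p.x1)) (expHi (mhi b p.x0))) (Nat.sub p.x1 p.x0))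
    (dhi (Nat.add (expHi (mhi b p.u1)) (expHi (mhi b p.u0))) (Nat.sub p.u1 p.u0))

/-- Lower bound for `p.m φ lmin l / (1 + δ)` on `[la, lb]`; `ph` bounds `φ / 2`. -/
def MN.lo (p : MN) (ph n0 lmin la lb : ℕ) : ℕ :=
  dlo (mlo n0 (Nat.add (Nat.add p.sg la) lmin))
    (mhi (p.eHi (Nat.add p.sg (Nat.mul 2 lb))) (Nat.add ph (dhi ONE (Nat.add p.sg la))))

/-- Data of a hybrid kernel: `T = 256 h`. -/
structure HN where
  h : ℕ
  a : ℕ
  b : ℕ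
  eta : ℕ
  T2 : ℕ
  p : ℕ
  q : ℕ
  r : ℕ

def HN.fh (k : HN) (i : ℕ) : ℕ :=
  mhi (g1Hi (Nat.shiftLeft i 72)) (expHi (mhi k.a (Nat.mul (Nat.add i 1) k.h)))

def HN.kl (k : HN) (i : ℕ) : ℕ :=
  mlo k.eta (mlo (g1Lo (dhi (Nat.mul (Nat.add i 1) k.h) k.T2)) (expLo (mlo k.b (Nat.mul i k.h))))

def HN.zl (k : HN) (i : ℕ) : ℕ :=
  nmin (dlo (Nat.sub (Nat.mul i k.h) k.p) (Nat.sub k.q k.p))
    (dlo (Nat.sub k.r (Nat.mul (Nat.add i 1) k.h)) (Nat.sub k.r k.q))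

def HN.w (k : HN) (ph i : ℕ) : ℕ := Nat.shiftRight (Nat.sub (Nat.mul i k.h) (Nat.mul 2 ph)) 1

def HN.den (k : HN) (ph i : ℕ) : ℕ :=
  Nat.add (k.kl i) (mlo (k.zl i)
    (dlo (k.w ph i) (Nat.sub (Nat.mul (Nat.add i 1) k.h) (k.w ph i))))

def slTerm (h f d : ℕ) : ℕ := cond (Nat.ble 1 d) (dhi (mhi h (mhi f f)) d) TWO

noncomputable def HN.sum (k : HN) (ph n : ℕ) : ℕ :=
  Nat.rec (motive := fun _ => ℕ) 0 (fun i ih => Nat.add ih (slTerm k.h (k.fh i) (k.den ph i))) n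

/-- The sum over the slices is at most `G`, and the parameters are in range. -/
noncomputable def HN.ok (k : HN) (ph G : ℕ) : Bool :=
  Nat.ble ONE (Nat.mul 512 k.h) && Nat.ble (Nat.mul 256 k.h) k.T2 && Nat.ble k.T2 (Nat.mul 8 ONE) &&
    Nat.ble k.a (Nat.mul 10 ONE) && Nat.ble k.b (Nat.mul 10 ONE) &&
    Nat.ble (Nat.add (Nat.mul 2 ph) 2) k.p && Nat.ble (Nat.add k.p 1) k.q &&
    Nat.ble (Nat.add k.q 1) k.r && Nat.ble k.r (Nat.mul 256 k.h) &&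
    Nat.ble (Nat.add G 1) TWO && Nat.ble (k.sum ph 256) G

end Pool.Agent.Lib.MP_778b46_nt.GX
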