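import Pool.Agent.Lib.MP_778b46_nt.GX.CkB

/- Data of one row of the certificate. -/

namespace Pool.Agent.Lib.MP_778b46_nt.GX.Ck

def rowR1 : Row where
  L := 2940000
  ph := 334000
  d0 := 1
  n := 1
  sa := 6000
  sb := 20000
  l := 4320000
  y0 := 984948672000
  xs := [4320000, 4324000, 4328000, 4332000, 4336000, 4340000, 4344000, 4348000, 4352000, 4356000,
    4360000, 4364000, 4368000, 4372000, 4376000, 4380000, 4384000, 4388000, 4392000, 4396000,
    4400000, 4404000, 4408000, 4412000, 4416000, 4420000, 4445000, 4470000, 4495000, 4520000,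
    4570000, 4620000, 4670000, 4720000, 4770000, 4820000, 4870000, 4920000, 4970000, 5000000,
    5050000, 5100000, 5150000, 5200000, 5250000, 5300000, 5350000, 5400000, 5450000, 5500000,
    5550000, 5600000, 5650000, 5700000, 5750000, 5800000, 5850000, 5900000, 5950000, 6000000,
    6050000, 6100000, 6150000, 6200000, 6250000, 6300000, 6350000, 6400000, 6450000, 6500000,
    6550000, 6600000, 6650000, 6700000, 6750000, 6800000, 6850000, 6900000, 6950000, 7000000]
  xp := [6000, 6500, 7000, 7500, 8000, 8500, 9000, 9500, 10000, 10500, 11000, 12000, 13000, 14000,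
    15000, 16000, 17000, 18000, 19000, 20001]
  F := [(326624000, .m ⟨33000, 400000, 404000, 404100, 501900, 868900, 973300, 3000000, 4320000⟩)]
  C := [.m ⟨26700, 54400, 56700, 56800, 135700, 496400, 584000, 2960000, 5550000⟩,
    .g 800000 4270000 2000000 2217886 526850 1,
    .g 4000000 6000 6000 1677005 1677004 1]
  ty := [(5000000, [⟨0, 5, []⟩,
      ⟨139, 0, [(1, 109145)]⟩,
      ⟨814, 0, [(0, 676836280), (1, 134721828)]⟩])]
  last := [⟨0, 0, []⟩,
    ⟨90, 0, [(1, 16297)]⟩,
    ⟨713, 0, [(0, 676836280), (1, 34242826)]⟩]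
  prim := [⟨942892, 0, [(0, 13229871428), (2, 5052293011)]⟩,
    ⟨993000, 991443745895, [(0, 6836965235), (2, 2610599005)]⟩]

theorem rowR1_1 : rowR1.ok1 = true := by decide +kernel

theorem rowR1_2 : rowR1.ok2 = true := by decide +kernel

theorem rowR1_3 : rowR1.ok3 = true := by decide +kernel

theorem rowR1_4 : rowR1.ok4 = true := by decide +kernel

end Pool.Agent.Lib.MP_778b46_nt.GX.Ck
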