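import Pool.Agent.Lib.MP_778b46_nt.GX.CkB

/- Data of one row of the certificate. -/

namespace Pool.Agent.Lib.MP_778b46_nt.GX.Ck

def rowR2 : Row where
  L := 2940000
  ph := 334000
  d0 := 1
  n := 1
  sa := 20000
  sb := 100000
  l := 2500000
  y0 := 918096571000
  xs := [2500000, 2504000, 2508000, 2512000, 2516000, 2520000, 2524000, 2528000, 2532000, 2536000,
    2540000, 2544000, 2548000, 2552000, 2556000, 2560000, 2564000, 2568000, 2572000, 2576000,
    2580000, 2584000, 2588000, 2592000, 2596000, 2600000, 2612000, 2624000, 2636000, 2648000,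
    2660000, 2672000, 2684000, 2696000, 2708000, 2720000, 2732000, 2744000, 2756000, 2768000,
    2780000, 2792000, 2804000, 2816000, 2828000, 2840000, 2852000, 2864000, 2876000, 2888000,
    2900000, 2912000, 2924000, 2936000, 2948000, 2960000, 2972000, 2984000, 2996000, 3000000,
    3012000, 3024000, 3036000, 3048000, 3060000, 3072000, 3084000, 3096000, 3108000, 3120000,
    3132000, 3144000, 3156000, 3168000, 3180000, 3192000, 3204000, 3216000, 3228000, 3240000,
    3252000, 3264000, 3276000, 3288000, 3300000, 3312000, 3324000, 3336000, 3348000, 3360000,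
    3372000, 3384000, 3396000, 3408000, 3433000, 3458000, 3483000, 3508000, 3533000, 3558000,
    3583000, 3600000, 3625000, 3650000, 3675000, 3700000, 3725000, 3750000, 3775000, 3800000,
    3825000, 3850000, 3875000, 3900000, 3925000, 3950000, 3975000, 4000000, 4025000, 4050000,
    4075000, 4100000, 4125000, 4150000, 4175000, 4200000, 4225000, 4250000, 4275000, 4300000,
    4325000, 4350000, 4375000, 4400000, 4425000, 4450000, 4475000, 4500000, 4550000, 4600000,
    4650000, 4700000, 4750000, 4800000, 4850000, 4900000, 4950000, 5000000, 5050000, 5100000,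
    5150000, 5200000, 5250000, 5300000, 5350000, 5400000, 5450000, 5500000, 5550000, 5600000,
    5650000, 5700000, 5750000, 5800000, 5850000, 5900000, 5950000, 6000000, 6050000, 6100000,
    6150000, 6200000, 6250000, 6300000, 6350000, 6400000, 6450000, 6500000, 6550000, 6600000,
    6650000, 6700000, 6750000, 6800000, 6850000, 6900000, 6950000, 7000000]
  xp := [20000, 22500, 25000, 27500, 30000, 32500, 35000, 37500, 40000, 42500, 45000, 50000, 55000,
    60000, 65000, 70000, 75000, 80000, 85000, 90000, 95000, 100001]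
  F := [(9010750000, .h ⟨6980, 256, 6940000, 860, 2100000, 20000, 3069200, 8328800, 585139100, 857861, 998,
      [(48, 2017848), (119, -2586493), (153, 7393), (188, -959724), (222, -25385), (256, 1546361)]⟩),
    (18061944000, .m ⟨47200, 428400, 437100, 437200, 577200, 958400, 1096200, 3070000, 2500000⟩),
    (11109020000, .h ⟨7290, 256, 4340000, 443, 2300000, 20000, 2813700, 29840400, 1658884700, 1037750, 323,
      [(46, 12470413), (57, -13253834), (107, 917296), (157, -132532), (206, -2096604), (256, 2095261)]⟩)]
  C := [.m ⟨25900, 52800, 54900, 55000, 131500, 491400, 576800, 2950000, 5700000⟩,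
    .g 800000 2500000 2000000 687905 526850 1,
    .g 2000000 20000 20000 841975 841974 1,
    .g 4000000 20000 20000 1701497 1701496 1]
  ty := [(3000000, [⟨147, 0, [(1, 28297)]⟩,
      ⟨1790, 0, [(1, 6893247)]⟩,
      ⟨3900, 0, [(1, 24146665)]⟩,
      ⟨6310, 0, [(1, 63736824)]⟩,
      ⟨10200, 0, [(0, 1572825762), (1, 8509687628)]⟩]),
    (3600000, [⟨25, 0, []⟩,
      ⟨1830, 0, [(1, 8210264)]⟩,
      ⟨4580, 0, [(0, 1572825762), (1, 2990603453)]⟩])]
  last := [⟨0, 0, []⟩,
    ⟨2480, 0, [(0, 1572825762), (1, 900516498)]⟩]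
  prim := [⟨745274, 0, [(0, 10386959864), (2, 26438666217), (3, 12494721358)]⟩,
    ⟨960000, 958302524790, [(0, 6177684253), (2, 15490209731), (3, 7381259620)]⟩]

theorem rowR2_1 : rowR2.ok1 = true := by decide +kernel

theorem rowR2_2 : rowR2.ok2 = true := by decide +kernel

theorem rowR2_3 : rowR2.ok3 = true := by decide +kernel

theorem rowR2_4 : rowR2.ok4 = true := by decide +kernel

end Pool.Agent.Lib.MP_778b46_nt.GX.Ck
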