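import Pool.Agent.Lib.MP_778b46_nt.GX.Dl2

/- Repulsion of zeros by a first zero that is not a real zero of a real character. -/

namespace Pool.Agent.Lib.MP_778b46_nt.GX

open Complex Finset
open Pool.Agent.Lib.MP_e97e2b_nt.Ln (Lap Tst cut)

section Model

variable {Γ Ω ι : Type} [CommGroup Γ] [Fintype Ω] [Fintype ι]

omit [Fintype ι] in
theorem E_inv (D : Dat Γ Ω ι) (h : ∀ ω ξ, ‖D.ev ω ξ‖ = 1) (g : ℝ → ℝ) (y : ℝ) (ξ : Γ) :
    D.E g (-y) ξ⁻¹ = D.E g y ξ := by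
  rw [← zero_sub, ← one_div]
  simp only [E_vv, vv_div D h, vv_one, one_re, one_im, one_mul, zero_mul, add_zero]

omit [Fintype ι] in
/-- The product of a square and a linear factor. -/
theorem E_sqlin (D : Dat Γ Ω ι) (h : ∀ ω ξ, ‖D.ev ω ξ‖ = 1) {g : ℝ → ℝ}
    (hg : ∀ ω, 0 ≤ D.μ ω * g (D.t ω)) (p y y' : ℝ) (ξ ξ' : Γ) :
    0 ≤ (1 / 2 + p ^ 2) * D.E g 0 1 + 2 * p * D.E g y ξ + 1 / 2 * D.E g (y + y) (ξ * ξ) +
      (1 / 2 + p ^ 2) * D.E g y' ξ' + p * D.E g (y + y') (ξ * ξ') + p * D.E g (y - y') (ξ / ξ') +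
      1 / 4 * D.E g (y + y + y') (ξ * ξ * ξ') + 1 / 4 * D.E g (y + y - y') (ξ * ξ / ξ') := by
  simp only [E_vv, mul_sum, ← sum_add_distrib, vv_mul, vv_one, vv_div D h]
  refine sum_nonneg fun ω _ => ?_
  have h1 := vv_normSq D h y ξ ω
  have h2 := vv_normSq D h y' ξ' ω
  have h4 : 0 ≤ 1 + (D.vv y' ξ' ω).re := by nlinarith [sq_nonneg (D.vv y' ξ' ω).im]
  refine (mul_nonneg (hg ω) (mul_nonneg (sq_nonneg ((D.vv y ξ ω).re + p)) h4)).trans (le_of_eq ?_)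
  simp only [mul_re, mul_im, one_re]
  linear_combination D.μ ω * g (D.t ω) * (1 + (D.vv y' ξ' ω).re) / 2 * h1

theorem RR_diff {T s s' l l' : ℝ} (hT : 0 < T) (hs : s ≤ s') (h0 : 0 ≤ l) (hl : l ≤ l') :
    RR T (-s) 0 - RR T (l - s) 0 ≤ RR T (-s') 0 - RR T (l' - s') 0 := by
  have := g1_cont
  simp only [RR_eq hT, zero_mul, Real.cos_zero, mul_one]
  rw [← intervalIntegral.integral_sub (Continuous.intervalIntegrable (by fun_prop) _ _)
    (Continuous.intervalIntegrable (by fun_prop) _ _),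
    ← intervalIntegral.integral_sub (Continuous.intervalIntegrable (by fun_prop) _ _)
    (Continuous.intervalIntegrable (by fun_prop) _ _)]
  refine intervalIntegral.integral_mono_on hT.le (Continuous.intervalIntegrable (by fun_prop) _ _)
    (Continuous.intervalIntegrable (by fun_prop) _ _) fun t ht => ?_
  rw [← mul_sub, ← mul_sub]
  refine mul_le_mul_of_nonneg_left ?_
    (g1_nonneg (div_nonneg ht.1 hT.le) ((div_le_one hT).2 ht.2))
  have e : ∀ a b : ℝ, Real.exp (-(-a * t)) - Real.exp (-((b - a) * t)) =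
      Real.exp (a * t) * (1 - Real.exp (-(b * t))) := fun a b => by
    rw [mul_sub (Real.exp _), ← Real.exp_add, mul_one]
    congr 2 <;> ring
  rw [e, e]
  have h1 : Real.exp (-(l * t)) ≤ 1 := Real.exp_le_one_iff.2 (by nlinarith [ht.1])
  exact mul_le_mul (Real.exp_le_exp.2 (by nlinarith [ht.1]))
    (sub_le_sub_left (Real.exp_le_exp.2 (by nlinarith [ht.1])) _) (by linarith)
    (Real.exp_pos _).le

variable {D : Dat Γ Ω ι} {φ ε H : ℝ} {psF psC : List MP}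

open Classical in
/-- The explicit formula with three zeros kept. -/
theorem Clean.ef3 (h : Clean D φ ε H psF psC) {c : ℝ} (hc0 : 0 ≤ c) (hc : φ / 2 ≤ c) {i j : ι}
    (hi : ∀ k, D.lam i ≤ D.lam k) (h1 : i ≠ D.cj i) (h2 : j ≠ i) (h3 : j ≠ D.cj i) (ξ : Γ)
    {y T : ℝ} (hy : |y| ≤ 4 * D.Ym) (hT : 1 / 2 ≤ T) (hT8 : T ≤ 8) :
    D.E (cut (gT T (D.lam i)) T) y ξ ≤ (if ξ = 1 then RR T (-D.lam i) y - c else 0) -
      (if D.ch i = ξ then RR T 0 (D.mu i - y) else 0) -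
      (if (D.ch i)⁻¹ = ξ then RR T 0 (-D.mu i - y) else 0) -
      (if D.ch j = ξ then RR T (D.lam j - D.lam i) (D.mu j - y) else 0) + c + ε * BH H := by
  have := h.efA ξ hy hT hT8 (h.lam_nonneg i) (h.lam_le i)
    (({j, i, D.cj i} : Finset ι).filter fun k => D.ch k = ξ) (fun k hk => (mem_filter.1 hk).2)
    fun k _ _ => hi k
  rw [sum_filter, sum_insert (by simp [h2, h3]), sum_pair h1, h.cj_ch, h.cj_lam, h.cj_mu,
    sub_self] at this
  have e : (if ξ = 1 then RR T (-D.lam i) y else 0) + (if D.sm ξ then 0 else φ / 2) ≤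
      (if ξ = 1 then RR T (-D.lam i) y - c else 0) + c := by
    by_cases e : ξ = 1
    · rw [if_pos e, if_pos e, if_pos (e ▸ h.sm_one)]
      linarith
    · rw [if_neg e, if_neg e]
      split_ifs <;> linarith
  linarith

theorem dl_pole {K R N R0 u ub w Z p c : ℝ} (hR : 0 ≤ R) (hN : 0 ≤ N) (hR0 : R ≤ R0)
    (hK : (1 - u) * K ≤ R) (hZ : R ≤ (Z - u) * N) (hu : u ≤ ub) (hub : ub < 1) (hp : 0 ≤ p)
    (hc : 0 ≤ c) (hw0 : 0 ≤ w) (hw1 : w ≤ 1) (hw : w * (Z - ub) ≤ 1 - ub)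
    (h : p * R0 ≤ (1 - ub) * ((3 / 4 + p ^ 2) * R0 + p * c) + p * w * R0) :
    p * (K - c) ≤ (1 / 2 + p ^ 2) * R + 1 / 4 * R + p * N := by
  have h1 : w * R ≤ (1 - u) * N := by
    have a := mul_le_mul_of_nonneg_left hZ hw0
    have b : w * (Z - u) ≤ 1 - u := by nlinarith
    nlinarith
  have h2 : p * R ≤ (1 - ub) * ((3 / 4 + p ^ 2) * R + p * c) + p * w * R := by
    have a : 0 ≤ (1 - ub) * (p * c) := mul_nonneg (by linarith) (by positivity)
    rcases le_total 0 (p - (1 - ub) * (3 / 4 + p ^ 2) - p * w) with b | b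
    · nlinarith [mul_le_mul_of_nonneg_left hR0 b]
    · nlinarith [mul_nonpos_of_nonpos_of_nonneg b hR]
  have h3 : (1 - ub) * ((3 / 4 + p ^ 2) * R + p * c) ≤ (1 - u) * ((3 / 4 + p ^ 2) * R + p * c) :=
    mul_le_mul_of_nonneg_right (by linarith) (by positivity)
  have h4 := mul_le_mul_of_nonneg_left hK hp
  have h5 := mul_le_mul_of_nonneg_left h1 hp
  refine le_of_mul_le_mul_left ?_ (by linarith : 0 < 1 - u)
  linarith

theorem dl_pole' {K R u ub p c : ℝ} (hR : 0 ≤ R) (hK : (1 - u) * K ≤ R) (hu : u ≤ ub)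
    (hub : ub < 1) (hc : 0 ≤ c) (h : 1 / 4 ≤ p * (1 - ub)) : 1 / 4 * (K - c) ≤ p * R := by
  have hp : 0 ≤ p := by nlinarith
  have h1 : 1 / 4 ≤ p * (1 - u) := h.trans (mul_le_mul_of_nonneg_left (by linarith) hp)
  have h2 := mul_le_mul_of_nonneg_right h1 hR
  have h3 : 0 ≤ (1 - u) * c := mul_nonneg (by linarith) hc
  refine le_of_mul_le_mul_left ?_ (by linarith : 0 < 1 - u)
  linarith

theorem dl_ite {P : Prop} [Decidable P] {x : ℝ} (h : 0 ≤ x) : 0 ≤ if P then x else 0 := by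
  split_ifs
  exacts [h, le_rfl]

open Classical in
theorem Clean.dhb_core (h : Clean D φ ε H psF psC) {c e sb l T p w : ℝ} (hc0 : 0 ≤ c)
    (hc : φ / 2 ≤ c) (he : ε * BH H ≤ e) {i j : ι} (hi : ∀ k, D.lam i ≤ D.lam k)
    (hn : ¬ (D.ch i * D.ch i = 1 ∧ D.mu i = 0)) (hs : D.lam i ≤ sb) (h2 : j ≠ i)
    (h3 : j ≠ D.cj i) (hl : D.lam j ≤ l) (hT : 1 / 2 ≤ T) (hT8 : T ≤ 8) (hub : sb * T / 2 < 1)
    (hp : 1 / 4 ≤ p * (1 - sb * T / 2)) (hw0 : 0 ≤ w) (hw1 : w ≤ 1)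
    (hw : w * (1 + l * T / 2 - sb * T / 2) ≤ 1 - sb * T / 2)
    (hq : p * (5 / 12 * T) ≤ (1 - sb * T / 2) * ((3 / 4 + p ^ 2) * (5 / 12 * T) + p * c) +
      p * w * (5 / 12 * T)) :
    0 ≤ (1 / 2 + p ^ 2) * (RR T (-sb) 0 - RR T (l - sb) 0) - 2 * p * (5 / 12 * T) +
      (3 / 2 + p ^ 2 + 4 * p) * c + (2 + 2 * p ^ 2 + 4 * p) * e := by
  have hT0 : 0 < T := by linarith
  have ha := h.lam_nonneg i
  have hm := abs_le.1 (h.mu_le i)
  have hm' := abs_le.1 (h.mu_le j)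
  have hY : 0 ≤ D.Ym := (abs_nonneg _).trans (h.mu_le i)
  have hp0 : 0 ≤ p := by nlinarith
  have h1 : i ≠ D.cj i := fun e => hn ⟨by
    have := h.cj_ch i
    rw [← e] at this
    exact mul_eq_one_iff_eq_inv.2 this, by have := h.cj_mu i; rw [← e] at this; linarith⟩
  have hu : D.lam i * T / 2 ≤ sb * T / 2 := by nlinarith
  have hK : ∀ y, (1 - D.lam i * T / 2) * RR T (-D.lam i) y ≤ RR T 0 y := fun y =>
    RR_upper hT0.le ha (by linarith) y
  have hR : ∀ y, 0 ≤ RR T 0 y := RR_nonneg hT0.le le_rfl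
  have hN : ∀ y, 0 ≤ RR T (D.lam j - D.lam i) y := RR_nonneg hT0.le (sub_nonneg.2 (hi j))
  have P1 : ∀ y, p * (RR T (-D.lam i) y - c) ≤
      (1 / 2 + p ^ 2) * RR T 0 y + 1 / 4 * RR T 0 y + p * RR T (D.lam j - D.lam i) y := fun y =>
    dl_pole (hR y) (hN y) ((RR_le hT0.le 0 y).trans (RR_zero T).le) (hK y)
      ((RR_lower hT0.le (sub_nonneg.2 (hi j)) y).trans
        (mul_le_mul_of_nonneg_right (by nlinarith) (hN y))) hu hub hp0 hc0 hw0 hw1 hw hq
  have P2 : ∀ y, 1 / 4 * (RR T (-D.lam i) y - c) ≤ p * RR T 0 y := fun y =>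
    dl_pole' (hR y) (hK y) hu hub hc0 hp
  have sy : ∀ x y y' : ℝ, y' = -y → RR T x y' = RR T x y := fun x y y' e => by rw [e, RR_neg]
  have key := E_sqlin D h.norm_ev (h.w_nonneg hT0 (D.lam i)) p (D.mu i) (D.mu j) (D.ch i) (D.ch j)
  have inv := E_inv D h.norm_ev (cut (gT T (D.lam i)) T) (D.mu i) (D.ch i)
  have F := fun (ξ : Γ) (y : ℝ) (a : -(4 * D.Ym) ≤ y) (b : y ≤ 4 * D.Ym) =>
    h.ef3 hc0 hc hi h1 h2 h3 ξ (abs_le.2 ⟨a, b⟩) hT hT8
  have e0 := h.ef_one (y := 0) rfl (by rw [abs_zero]; linarith) hT hT8 ha (h.lam_le i)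
  have e1 := F (D.ch i) (D.mu i) (by linarith) (by linarith)
  have e1' := F (D.ch i)⁻¹ (-D.mu i) (by linarith) (by linarith)
  have e2 := F (D.ch i * D.ch i) (D.mu i + D.mu i) (by linarith) (by linarith)
  have e3 := F (D.ch j) (D.mu j) (by linarith) (by linarith)
  have e4 := F (D.ch i * D.ch j) (D.mu i + D.mu j) (by linarith) (by linarith)
  have e5 := F (D.ch i / D.ch j) (D.mu i - D.mu j) (by linarith) (by linarith)
  have e6 := F (D.ch i * D.ch i * D.ch j) (D.mu i + D.mu i + D.mu j) (by linarith) (by linarith)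
  have e7 := F (D.ch i * D.ch i / D.ch j) (D.mu i + D.mu i - D.mu j) (by linarith) (by linarith)
  rw [if_neg (h.ch_ne_one i), if_pos rfl, sub_self, RR_zero] at e1
  rw [if_neg (inv_ne_one.2 (h.ch_ne_one i)), if_pos rfl, sub_self, RR_zero, inv] at e1'
  rw [if_neg (h.ch_ne_one j), if_pos rfl, sub_self] at e3
  have iR := fun (P : Prop) (y : ℝ) => dl_ite (P := P) (hR y)
  have iN := fun (P : Prop) (y : ℝ) => dl_ite (P := P) (hN y)
  have q2 : 1 / 2 * (if D.ch i * D.ch i = 1 then RR T (-D.lam i) (D.mu i + D.mu i) - c else 0) ≤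
      p * (if (D.ch i)⁻¹ = D.ch i then RR T 0 (-D.mu i - D.mu i) else 0) +
      p * (if D.ch i = (D.ch i)⁻¹ then RR T 0 (D.mu i - -D.mu i) else 0) := by
    by_cases e : D.ch i * D.ch i = 1
    · rw [if_pos e, if_pos (inv_eq_of_mul_eq_one_right e), if_pos (eq_inv_of_mul_eq_one_left e),
        sy _ (D.mu i + D.mu i) (-D.mu i - D.mu i) (by ring), sub_neg_eq_add]
      linarith [P2 (D.mu i + D.mu i)]
    · rw [if_neg e, mul_zero]
      exact add_nonneg (mul_nonneg hp0 (iR _ _)) (mul_nonneg hp0 (iR _ _))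
  have q4 : p * (if D.ch i * D.ch j = 1 then RR T (-D.lam i) (D.mu i + D.mu j) - c else 0) ≤
      (1 / 2 + p ^ 2) * (if (D.ch i)⁻¹ = D.ch j then RR T 0 (-D.mu i - D.mu j) else 0) +
      1 / 4 * (if D.ch i = D.ch i * D.ch i * D.ch j then
        RR T 0 (D.mu i - (D.mu i + D.mu i + D.mu j)) else 0) +
      p * (if D.ch j = (D.ch i)⁻¹ then RR T (D.lam j - D.lam i) (D.mu j - -D.mu i) else 0) := by
    by_cases e : D.ch i * D.ch j = 1
    · rw [if_pos e, if_pos (inv_eq_of_mul_eq_one_right e), if_pos (eq_inv_of_mul_eq_one_right e),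
        if_pos (by rw [mul_assoc, e, mul_one]), sy _ (D.mu i + D.mu j) (-D.mu i - D.mu j) (by ring),
        sy _ (D.mu i + D.mu j) (D.mu i - (D.mu i + D.mu i + D.mu j)) (by ring), sub_neg_eq_add,
        add_comm (D.mu j)]
      exact P1 _
    · rw [if_neg e, mul_zero]
      exact add_nonneg (add_nonneg (mul_nonneg (by positivity) (iR _ _))
        (mul_nonneg (by positivity) (iR _ _))) (mul_nonneg hp0 (iN _ _))
  have q5 : p * (if D.ch i / D.ch j = 1 then RR T (-D.lam i) (D.mu i - D.mu j) - c else 0) ≤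
      (1 / 2 + p ^ 2) * (if D.ch i = D.ch j then RR T 0 (D.mu i - D.mu j) else 0) +
      1 / 4 * (if D.ch i = D.ch i * D.ch i / D.ch j then
        RR T 0 (D.mu i - (D.mu i + D.mu i - D.mu j)) else 0) +
      p * (if D.ch j = D.ch i then RR T (D.lam j - D.lam i) (D.mu j - D.mu i) else 0) := by
    by_cases e : D.ch i / D.ch j = 1
    · rw [if_pos e, if_pos (div_eq_one.1 e), if_pos (div_eq_one.1 e).symm,
        if_pos (by rw [mul_div_assoc, e, mul_one]),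
        sy _ (D.mu i - D.mu j) (D.mu j - D.mu i) (by ring),
        sy _ (D.mu i - D.mu j) (D.mu i - (D.mu i + D.mu i - D.mu j)) (by ring)]
      exact P1 _
    · rw [if_neg e, mul_zero]
      exact add_nonneg (add_nonneg (mul_nonneg (by positivity) (iR _ _))
        (mul_nonneg (by positivity) (iR _ _))) (mul_nonneg hp0 (iN _ _))
  have q6 : 1 / 4 * (if D.ch i * D.ch i * D.ch j = 1 then
        RR T (-D.lam i) (D.mu i + D.mu i + D.mu j) - c else 0) ≤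
      p * (if (D.ch i)⁻¹ = D.ch i * D.ch j then RR T 0 (-D.mu i - (D.mu i + D.mu j)) else 0) := by
    by_cases e : D.ch i * D.ch i * D.ch j = 1
    · rw [if_pos e, if_pos (inv_eq_of_mul_eq_one_right (by rw [← mul_assoc, e])),
        sy _ (D.mu i + D.mu i + D.mu j) (-D.mu i - (D.mu i + D.mu j)) (by ring)]
      exact P2 _
    · rw [if_neg e, mul_zero]
      exact mul_nonneg hp0 (iR _ _)
  have q7 : 1 / 4 * (if D.ch i * D.ch i / D.ch j = 1 then
        RR T (-D.lam i) (D.mu i + D.mu i - D.mu j) - c else 0) ≤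
      p * (if (D.ch i)⁻¹ = D.ch i / D.ch j then RR T 0 (-D.mu i - (D.mu i - D.mu j)) else 0) := by
    by_cases e : D.ch i * D.ch i / D.ch j = 1
    · rw [if_pos e, if_pos (inv_eq_of_mul_eq_one_right (by rw [← mul_div_assoc, e])),
        sy _ (D.mu i + D.mu i - D.mu j) (-D.mu i - (D.mu i - D.mu j)) (by ring)]
      exact P2 _
    · rw [if_neg e, mul_zero]
      exact mul_nonneg hp0 (iR _ _)
  have c0 : 0 ≤ 1 / 2 + p ^ 2 := by positivity
  have f0 := mul_le_mul_of_nonneg_left e0 c0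
  have f1 := mul_le_mul_of_nonneg_left e1 hp0
  have f1' := mul_le_mul_of_nonneg_left e1' hp0
  have f3 := mul_le_mul_of_nonneg_left e3 c0
  have f4 := mul_le_mul_of_nonneg_left e4 hp0
  have f5 := mul_le_mul_of_nonneg_left e5 hp0
  have g0 := mul_le_mul_of_nonneg_left (RR_diff hT0 hs (h.lam_nonneg j) hl) c0
  have g1 := mul_le_mul_of_nonneg_left he (by positivity : 0 ≤ 2 + 2 * p ^ 2 + 4 * p)
  linarith [iR (D.ch i = D.ch i * D.ch i) (D.mu i - (D.mu i + D.mu i)),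
    iR ((D.ch i)⁻¹ = D.ch i * D.ch i) (-D.mu i - (D.mu i + D.mu i)),
    iN (D.ch j = D.ch i * D.ch i) (D.mu j - (D.mu i + D.mu i)),
    mul_nonneg hp0 (iR (D.ch i = D.ch i * D.ch j) (D.mu i - (D.mu i + D.mu j))),
    mul_nonneg hp0 (iN (D.ch j = D.ch i * D.ch j) (D.mu j - (D.mu i + D.mu j))),
    mul_nonneg hp0 (iR (D.ch i = D.ch i / D.ch j) (D.mu i - (D.mu i - D.mu j))),
    mul_nonneg hp0 (iN (D.ch j = D.ch i / D.ch j) (D.mu j - (D.mu i - D.mu j))),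
    iR ((D.ch i)⁻¹ = D.ch i * D.ch i * D.ch j) (-D.mu i - (D.mu i + D.mu i + D.mu j)),
    iN (D.ch j = D.ch i * D.ch i * D.ch j) (D.mu j - (D.mu i + D.mu i + D.mu j)),
    iR ((D.ch i)⁻¹ = D.ch i * D.ch i / D.ch j) (-D.mu i - (D.mu i + D.mu i - D.mu j)),
    iN (D.ch j = D.ch i * D.ch i / D.ch j) (D.mu j - (D.mu i + D.mu i - D.mu j))]

end Model

/-- Truncated exponential series. -/
def dlS (x : ℚ) : ℚ := ∑ m ∈ range 40, x ^ m / m.factorial

/-- Bound for the remainder. -/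
def dlE (x : ℚ) : ℚ := |x| ^ 40 / (Nat.factorial 40) * 2

theorem dl_exp {x : ℚ} (hx : |x| ≤ 20) : |Real.exp x - dlS x| ≤ dlE x := by
  have hx' : |(x : ℝ)| ≤ 20 := by exact_mod_cast hx
  have h := Complex.exp_bound' (x := ((x : ℝ) : ℂ)) (n := 40) (by
    rw [norm_real, Real.norm_eq_abs]
    push_cast
    linarith)
  have e : cexp ((x : ℝ) : ℂ) - ∑ m ∈ range 40, ((x : ℝ) : ℂ) ^ m / m.factorial =
      ((Real.exp x - dlS x : ℝ) : ℂ) := by
    unfold dlS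
    push_cast
    rfl
  rw [e, norm_real, norm_real, Real.norm_eq_abs, Real.norm_eq_abs] at h
  refine h.trans (le_of_eq ?_)
  unfold dlE
  push_cast
  rfl

/-- The closed form with a rational value for the exponential. -/
def dlP (x E : ℚ) : ℚ := (x ^ 5 - 10 * x ^ 3 + 30 * x ^ 2 - 120 + 30 * (x + 2) ^ 2 * E) / x ^ 6

/-- Rational upper bound for `RR T x 0`. -/
def rrU (T x : ℚ) : ℚ := T * dlP (x * T) (dlS (-(x * T)) + dlE (-(x * T)))

/-- Rational lower bound for `RR T x 0`. -/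
def rrL (T x : ℚ) : ℚ := T * dlP (x * T) (dlS (-(x * T)) - dlE (-(x * T)))

theorem rr_bds {T x : ℚ} (hT : 0 ≤ T) (h0 : x * T ≠ 0) (h1 : |x * T| ≤ 20) :
    (rrL T x : ℝ) ≤ RR T x 0 ∧ RR T x 0 ≤ rrU T x := by
  have h := abs_le.1 (dl_exp (x := -(x * T)) (by rwa [abs_neg]))
  have h0' : (x : ℝ) * T ≠ 0 := by exact_mod_cast h0
  have hT' : (0 : ℝ) ≤ T := by exact_mod_cast hT
  have h6 : (0 : ℝ) ≤ ((x : ℝ) * T) ^ 6 := by positivity
  have h2 : (0 : ℝ) ≤ 30 * ((x : ℝ) * T + 2) ^ 2 := by positivity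
  rw [RR, zero_mul, RF_real h0']
  unfold rrL rrU dlP
  push_cast at h ⊢
  constructor
  · refine mul_le_mul_of_nonneg_left (div_le_div_of_nonneg_right ?_ h6) hT'
    linarith [mul_le_mul_of_nonneg_left h.1 h2]
  · refine mul_le_mul_of_nonneg_left (div_le_div_of_nonneg_right ?_ h6) hT'
    linarith [mul_le_mul_of_nonneg_left h.2 h2]

/-- The numerical conditions. -/
def dhbOk (sb l T p w : ℚ) : Prop :=
  1 / 2 ≤ T ∧ T ≤ 8 ∧ 0 < sb ∧ sb < l ∧ l ≤ 2 ∧ sb * T / 2 < 1 ∧ 1 / 4 ≤ p * (1 - sb * T / 2) ∧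
    0 ≤ w ∧ w ≤ 1 ∧ w * (1 + l * T / 2 - sb * T / 2) ≤ 1 - sb * T / 2 ∧
    p * (5 / 12 * T) ≤ (1 - sb * T / 2) * ((3 / 4 + p ^ 2) * (5 / 12 * T) + p * (167 / 1000)) +
      p * w * (5 / 12 * T) ∧
    (1 / 2 + p ^ 2) * (rrU T (-sb) - rrL T (l - sb)) - 2 * p * (5 / 12 * T) +
      (3 / 2 + p ^ 2 + 4 * p) * (167 / 1000) + (2 + 2 * p ^ 2 + 4 * p) * (1 / 100000) < 0

instance (sb l T p w : ℚ) : Decidable (dhbOk sb l T p w) := by
  unfold dhbOk
  infer_instance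

variable {φ : ℝ} {psF psC : List MP}

theorem dhb_ev (hφ : φ ≤ 334 / 1000) {sb l T p w : ℚ} (h : dhbOk sb l T p w) :
    Ev φ psF psC (Dh1N sb l) := by
  obtain ⟨a1, a2, a3, a4, a5, a6, a7, a8, a9, a10, a11, a12⟩ := h
  have hT : 0 < T := by linarith
  have b1 := (rr_bds (x := -sb) hT.le (by nlinarith) (abs_le.2 ⟨by nlinarith, by nlinarith⟩)).2
  have b2 := (rr_bds (x := l - sb) hT.le (mul_pos (by linarith) hT).ne'
    (abs_le.2 ⟨by nlinarith, by nlinarith⟩)).1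
  refine Ev.of_small (c := 1 / 100000) (by norm_num)
    fun _ _ _ _ _ _ D ε H _ _ he hD i hi hn hs j h2 h3 => ?_
  by_contra hl
  have a1' := (Rat.cast_le (K := ℝ)).2 a1
  have a7' := (Rat.cast_le (K := ℝ)).2 a7
  have a11' := (Rat.cast_le (K := ℝ)).2 a11
  have c := (Rat.cast_lt (K := ℝ)).2 a12
  push_cast at a1' a7' a11' c b1 b2
  have key := hD.dhb_core (c := 167 / 1000) (T := T) (p := p) (w := w) (by norm_num) (by linarith)
    he hi hn hs h2 h3 (not_le.1 hl).le a1' (by exact_mod_cast a2) (by exact_mod_cast a6) a7'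
    (by exact_mod_cast a8) (by exact_mod_cast a9) (by exact_mod_cast a10) a11'
  have c0 : (0 : ℝ) ≤ 1 / 2 + p ^ 2 := by positivity
  linarith [mul_le_mul_of_nonneg_left (sub_le_sub b1 b2) c0]

theorem dhb_43 (hφ : φ ≤ 0.334) : Ev φ psF psC (Dh1N 0.43 1.06) := by
  have := dhb_ev (φ := φ) (psF := psF) (psC := psC) (by linarith) (sb := 0.43) (l := 1.06) (T := 2.65) (p := 0.82)
    (w := 0.234) (by decide +kernel)
  norm_num at this ⊢
  exact this

theorem dhb_35 (hφ : φ ≤ 0.334) : Ev φ psF psC (Dh1N 0.35 1.25) := by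
  have := dhb_ev (φ := φ) (psF := psF) (psC := psC) (by linarith) (sb := 0.35) (l := 1.25) (T := 2.85) (p := 0.81)
    (w := 0.219) (by decide +kernel)
  norm_num at this ⊢
  exact this

theorem dhb_50 (hφ : φ ≤ 0.334) : Ev φ psF psC (Dh1N 0.5 0.94) := by
  have := dhb_ev (φ := φ) (psF := psF) (psC := psC) (by linarith) (sb := 0.5) (l := 0.94) (T := 2.4) (p := 0.84)
    (w := 0.261) (by decide +kernel)
  norm_num at this ⊢
  exact this

theorem Dh1P_of {sb l l1 l2 : ℝ} (h1 : Ev φ psF psC (Dh1N sb l1)) (h2 : Ev φ psF psC (Dh2P sb l2))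
    (a1 : l ≤ l1) (a2 : l ≤ l2) : Ev φ psF psC (Dh1P sb l) :=
  (h1.and h2).mono fun _ _ _ _ _ _ D _ _ _ h i hi hs j b1 b2 => by
    by_cases e : D.ch i * D.ch i = 1 ∧ D.mu i = 0
    · exact a2.trans (h.2 i hi e.1 e.2 hs j b1)
    · exact a1.trans (h.1 i hi e hs j b1 b2)

theorem dh1_43 (hφ : 0 ≤ φ) (hφ' : φ ≤ 0.334) {l : ℝ} (hl : l ≤ 0.77) :
    Ev φ psF psC (Dh1P 0.43 l) :=
  Dh1P_of (dhb_43 hφ') (dl2_d hφ hφ') (by linarith) hl

end Pool.Agent.Lib.MP_778b46_nt.GX
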