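import Pool.Agent.Lib.MP_778b46_nt.GX.CkD
import Pool.Agent.Lib.MP_778b46_nt.GX.CkRG
import Pool.Agent.Lib.MP_778b46_nt.GX.CkRB
import Pool.Agent.Lib.MP_778b46_nt.GX.CkRR1
import Pool.Agent.Lib.MP_778b46_nt.GX.CkRR2
import Pool.Agent.Lib.MP_778b46_nt.GX.CkRR3
import Pool.Agent.Lib.MP_778b46_nt.GX.Dl

/- The numerical part for `L = 2.94`. -/

namespace Pool.Agent.Lib.MP_778b46_nt.GX

open Ck

noncomputable def certF : List MP :=
  pUF :: (rowG.psF ++ (rowB.psF ++ (rowR1.psF ++ (rowR2.psF ++ rowR3.psF))))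

noncomputable def certC : List MP :=
  pUC :: (rowG.psC ++ (rowB.psC ++ (rowR1.psC ++ (rowR2.psC ++ rowR3.psC))))

theorem cert : CERT (147 / 50) (167 / 500) := by
  have e : ∀ (n : ℕ) (x : ℝ), (n : ℝ) = x * 10 ^ 6 → r6 n = x := fun n x h => by
    rw [r6, h, mul_div_cancel_right₀ _ (by positivity)]
  have eL : r6 2940000 = 147 / 50 := e _ _ (by norm_num)
  have eP : r6 334000 = 167 / 500 := e _ _ (by norm_num)
  have h0 : (0 : ℝ) ≤ 167 / 500 := by norm_num
  have h1 : (167 / 500 : ℝ) ≤ 0.334 := by norm_num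
  have rG : Ev (r6 334000) certF certC (RowP (r6 2940000) 0 (r6 430000) (r6 430000) (r6 430000)) :=
    row_of_ok rowG_1 rowG_2 rowG_3 rowG_4 (fun p hp => by simp [certF, hp])
      fun p hp => by simp [certC, hp]
  have rB : Ev (r6 334000) certF certC (RowP (r6 2940000) 2 (r6 294000) (r6 430000) (r6 744000)) :=
    row_of_ok rowB_1 rowB_2 rowB_3 rowB_4 (fun p hp => by simp [certF, hp])
      fun p hp => by simp [certC, hp]
  have r1 : Ev (r6 334000) certF certC (RowP (r6 2940000) 1 (r6 6000) (r6 20000) (r6 4320000)) :=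
    row_of_ok rowR1_1 rowR1_2 rowR1_3 rowR1_4 (fun p hp => by simp [certF, hp])
      fun p hp => by simp [certC, hp]
  have r2 : Ev (r6 334000) certF certC (RowP (r6 2940000) 1 (r6 20000) (r6 100000) (r6 2500000)) :=
    row_of_ok rowR2_1 rowR2_2 rowR2_3 rowR2_4 (fun p hp => by simp [certF, hp])
      fun p hp => by simp [certC, hp]
  have r3 : Ev (r6 334000) certF certC (RowP (r6 2940000) 1 (r6 100000) (r6 300000) (r6 1280000)) :=
    row_of_ok rowR3_1 rowR3_2 rowR3_3 rowR3_4 (fun p hp => by simp [certF, hp])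
      fun p hp => by simp [certC, hp]
  rw [eL, eP] at rG rB r1 r2 r3
  rw [e 294000 0.294 (by norm_num), e 430000 0.43 (by norm_num), e 744000 0.744 (by norm_num)] at rB
  rw [e 6000 0.006 (by norm_num), e 20000 0.02 (by norm_num), e 4320000 4.32 (by norm_num)] at r1
  rw [e 20000 0.02 (by norm_num), e 100000 0.1 (by norm_num), e 2500000 2.5 (by norm_num)] at r2
  rw [e 100000 0.1 (by norm_num), e 300000 0.3 (by norm_num), e 1280000 1.28 (by norm_num)] at r3
  rw [e 430000 0.43 (by norm_num)] at rG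
  refine cert_of_rows h0 h1 (by norm_num) (fun p hp => ?_) (fun p hp => ?_) List.mem_cons_self
    List.mem_cons_self (by norm_num) (dl2_L h0 h1) (dl2_a h0 h1) (dl2_b h0 h1) (dl2_c h0 h1)
    (dh1_43 h0 h1 (by norm_num)) (dl2_d h0 h1) r1 r2 r3 rB rG
  · simp only [certF, List.mem_cons, List.mem_append] at hp
    rcases hp with rfl | h | h | h | h | h
    exacts [pUF_ok h1, eP ▸ psF_ok rowG_1 p h, eP ▸ psF_ok rowB_1 p h, eP ▸ psF_ok rowR1_1 p h,
      eP ▸ psF_ok rowR2_1 p h, eP ▸ psF_ok rowR3_1 p h]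
  · simp only [certC, List.mem_cons, List.mem_append] at hp
    rcases hp with rfl | h | h | h | h | h
    exacts [pUC_ok h1, eP ▸ psC_ok rowG_1 p h, eP ▸ psC_ok rowB_1 p h, eP ▸ psC_ok rowR1_1 p h,
      eP ▸ psC_ok rowR2_1 p h, eP ▸ psC_ok rowR3_1 p h]

end Pool.Agent.Lib.MP_778b46_nt.GX
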