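import Pool.Agent.Lib.MP_778b46_nt.GX.RqC
import Pool.Agent.Lib.MP_778b46_nt.GX.RqD
import Pool.Agent.Lib.MP_778b46_nt.GX.RqG
import Pool.Agent.Lib.MP_778b46_nt.GX.RqR1
import Pool.Agent.Lib.MP_778b46_nt.GX.RqR2

/- The certificate for `L = 5 / 2`. -/

namespace Pool.Agent.Lib.MP_778b46_nt.GX

open Cq

theorem cert3 : CERT3 (5 / 2) 0.3334 0.2501 :=
  cert3_rows [((PR.of rowR1_1 rowR1_2 rowR1_3).real, 1.88, 0.9, 1.36, 0.96),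
    ((PR.of rowR2_1 rowR2_2 rowR2_3).real, 2.04, 0.9, 1.48, 1.06)]
    [PR.of rowDC_1 rowDC_2 rowDC_3] (PR.of rowG_1 rowG_2 rowG_3) (by decide +kernel)

end Pool.Agent.Lib.MP_778b46_nt.GX
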