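import Pool.Agent.Lib.MP_778b46_nt.GX.Ce0
import Pool.Agent.Lib.MP_6cad4c_al.Iv
import Pool.Agent.Lib.MP_e97e2b_nt.Ln.K1

/- Certified fixed point bounds for the transforms. -/

namespace Pool.Agent.Lib.MP_778b46_nt.GX.Ck

open Pool.Agent.Lib.MP_6cad4c_al
open Pool.Agent.Lib.MP_e97e2b_nt.Ln (JJ JJ_closed JJ_mono)

/-- A number given in millionths. -/
noncomputable def r6 (n : ℕ) : ℝ := n / 10 ^ 6

/-- Data of a hybrid inequality. -/
structure HD where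
  hh : ℕ
  N : ℕ
  T2 : ℕ
  eta : ℕ
  l : ℕ
  b : ℕ
  y1 : ℕ
  y0 : ℕ
  G : ℕ
  A : ℕ
  C : ℕ
  kn : List (ℕ × ℤ)

def E6 : ℕ := 1000000

def E12 : ℕ := 1000000000000

theorem cE6 : (E6 : ℝ) = 10 ^ 6 := by norm_num [E6]

theorem cE12 : (E12 : ℝ) = 10 ^ 12 := by norm_num [E12]

theorem r6_nonneg (n : ℕ) : 0 ≤ r6 n := by unfold r6; positivity

theorem r6_pos {n : ℕ} (h : 0 < n) : 0 < r6 n := by unfold r6; positivity

theorem r6_le {a b : ℕ} : r6 a ≤ r6 b ↔ a ≤ b := by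
  rw [r6, r6, div_le_div_iff_of_pos_right (by positivity), Nat.cast_le]

theorem r6_lt {a b : ℕ} : r6 a < r6 b ↔ a < b := by
  rw [r6, r6, div_lt_div_iff_of_pos_right (by positivity), Nat.cast_lt]

theorem r6_mul (a b : ℕ) : r6 a * r6 b = ((a.mul b : ℕ) : ℝ) / E12 := by
  rw [iv_mul, cE12, r6, r6]
  ring

theorem r6_add (a b : ℕ) : r6 (a.add b) = r6 a + r6 b := by rw [r6, r6, r6, iv_add, add_div]

theorem r6_sub {a b : ℕ} (h : b ≤ a) : r6 (a.sub b) = r6 a - r6 b := by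
  rw [r6, r6, r6, ← sub_div, ← Nat.cast_sub h]
  rfl

theorem r6_sub' (a b : ℕ) : r6 (a.sub b) = max (r6 a - r6 b) 0 := by
  rcases le_total b a with h | h
  · rw [r6_sub h, max_eq_left (sub_nonneg.2 (r6_le.2 h))]
  · rw [max_eq_right (sub_nonpos.2 (r6_le.2 h)), show a.sub b = 0 from Nat.sub_eq_zero_of_le h, r6,
      Nat.cast_zero, zero_div]

theorem ble {a b : ℕ} (h : Nat.ble a b = true) : (a : ℝ) ≤ b :=
  Nat.cast_le.2 (Nat.le_of_ble_eq_true h)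

theorem blt {a b : ℕ} (h : Nat.ble a b = false) : (b : ℝ) < a :=
  Nat.cast_lt.2 (not_le.1 fun h' => by rw [Nat.ble_eq_true_of_le h'] at h; exact absurd h (by simp))

theorem cpow (a k : ℕ) : ((a.pow k : ℕ) : ℝ) = (a : ℝ) ^ k := Nat.cast_pow a k

/-- Lower bound for a truncated difference followed by a division. -/
theorem sd_le {p q c : ℕ} {x : ℝ} (hx : 0 ≤ x) (h : (p : ℝ) - q ≤ x * c) :
    (((p.sub q).div c : ℕ) : ℝ) ≤ x := by
  refine (iv_div_le _ _).trans (div_le_of_le_mul₀ (Nat.cast_nonneg _) hx ?_)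
  rw [iv_sub]
  exact max_le h (by positivity)

theorem le_sd {p q c : ℕ} {x : ℝ} (hc : 0 < c) (h : x * c ≤ (p : ℝ) - q) :
    x ≤ ((((p.sub q).div c).add 1 : ℕ) : ℝ) := by
  rw [iv_add, Nat.cast_one]
  refine le_trans ?_ (iv_le_div _ _ hc)
  rw [le_div_iff₀ (Nat.cast_pos.2 hc), iv_sub]
  exact h.trans (le_max_left _ _)

theorem d_le {p c : ℕ} {x : ℝ} (hx : 0 ≤ x) (h : (p : ℝ) ≤ x * c) : ((p.div c : ℕ) : ℝ) ≤ x :=
  (iv_div_le _ _).trans (div_le_of_le_mul₀ (Nat.cast_nonneg _) hx h)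

theorem le_d {p c : ℕ} {x : ℝ} (hc : 0 < c) (h : x * c ≤ p) : x ≤ (((p.div c).add 1 : ℕ) : ℝ) := by
  rw [iv_add, Nat.cast_one]
  exact le_trans ((le_div_iff₀ (Nat.cast_pos.2 hc)).2 h) (iv_le_div _ _ hc)

/-! Exponentials of `n / 10 ^ 12`, scaled by `2 ^ 80`. -/

def eLo (n : ℕ) : ℕ := expLo (PI.rat n E12).lo

def eHi (n : ℕ) : ℕ := expHi (PI.rat n E12).hi

def nLo (n : ℕ) : ℕ := nexpLo (PI.rat n E12).hi

def nHi (n : ℕ) : ℕ := nexpHi (PI.rat n E12).lo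

def BIG : ℕ := 999000000000000

theorem pE12 : 0 < E12 := by norm_num [E12]

theorem pE6 : 0 < E6 := by norm_num [E6]

theorem eLo_le (n : ℕ) : (eLo n : ℝ) ≤ Real.exp (n / E12) * 2 ^ 80 :=
  le_expLo (PI.rat_mem n E12 pE12).1

theorem le_eHi {n : ℕ} (h : n ≤ BIG) : Real.exp (n / E12) * 2 ^ 80 ≤ eHi n := by
  refine expHi_ge (PI.rat_mem n E12 pE12).2 ?_
  show Nat.shiftLeft n 80 / E12 + 1 ≤ 1000 * ONE
  rw [show Nat.shiftLeft n 80 = n * 2 ^ 80 from Nat.shiftLeft_eq n 80]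
  unfold BIG at h
  unfold E12 ONE
  omega

theorem nLo_le (n : ℕ) : (nLo n : ℝ) ≤ Real.exp (-(n / E12)) * 2 ^ 80 :=
  (PI.nexp_mem (PI.rat_mem n E12 pE12)).1

theorem le_nHi (n : ℕ) : Real.exp (-(n / E12)) * 2 ^ 80 ≤ nHi n :=
  (PI.nexp_mem (PI.rat_mem n E12 pE12)).2

/-! The transform of `g1` on the real line. -/

theorem RF_closed {w : ℝ} (hw : w ≠ 0) : RF w 0 * w ^ 6 =
    w ^ 5 - 10 * w ^ 3 + 30 * w ^ 2 - 120 + Real.exp (-w) * (30 * (w + 2) ^ 2) := by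
  have h := F1_closed (Complex.ofReal_ne_zero.2 hw)
  have e : F1 w = ((1 / w - 10 / w ^ 3 + 30 / w ^ 4 - 120 / w ^ 6 +
      Real.exp (-w) * (30 / w ^ 4 + 120 / w ^ 5 + 120 / w ^ 6) : ℝ) : ℂ) := by
    rw [h]
    push_cast
    rfl
  rw [RF, Complex.ofReal_zero, zero_mul, add_zero, e, Complex.ofReal_re]
  field_simp
  ring

theorem RF_pos (w : ℝ) : 0 ≤ RF w 0 := (abs_nonneg _).trans (RF_abs_le w 0)

def rfP (n : ℕ) : ℕ :=
  (((((n.pow 5).mul E12).add ((n.mul n).mul (Nat.mul 30 (E12.pow 4)))).mul ONE).add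
    (((Nat.mul 30 (E12.pow 4)).mul ((n.add (Nat.mul 2 E12)).pow 2)).mul (nLo n))).sub
    (((((n.mul E12).pow 3).mul 10).add (Nat.mul 120 (E12.pow 6))).mul ONE) |>.div (n.pow 6)

def rfN (n e : ℕ) : ℕ :=
  ((((((n.mul E12).pow 3).mul 10).add ((n.mul n).mul (Nat.mul 30 (E12.pow 4)))).mul ONE).add
    (((Nat.mul 30 (E12.pow 4)).mul
      (((n.sub (Nat.mul 2 E12)).add ((Nat.mul 2 E12).sub n)).pow 2)).mul e)).sub
    ((((n.pow 5).mul E12).add (Nat.mul 120 (E12.pow 6))).mul ONE) |>.div (n.pow 6)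

theorem rfP_le {n : ℕ} (hn : 0 < n) : (rfP n : ℝ) ≤ RF (n / E12) 0 * 2 ^ 80 := by
  have h0 : (0 : ℝ) < E12 := Nat.cast_pos.2 pE12
  have h1 := RF_closed (w := n / E12) (by positivity)
  have h2 := nLo_le n
  refine sd_le (mul_nonneg (RF_pos _) iv_pos.le) ?_
  simp only [iv_add, iv_mul, cpow, iv_ONE, Nat.cast_ofNat]
  generalize (2 : ℝ) ^ 80 = S at *
  generalize (E12 : ℝ) = D at *
  have h3 : RF (n / D) 0 * n ^ 6 = n ^ 5 * D - 10 * (n * D) ^ 3 + 30 * n ^ 2 * D ^ 4 - 120 * D ^ 6 +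
      Real.exp (-(n / D)) * (30 * D ^ 4 * (n + 2 * D) ^ 2) := by
    calc _ = RF (n / D) 0 * (n / D) ^ 6 * D ^ 6 := by field_simp
      _ = _ := by rw [h1]; field_simp
  have h4 := mul_le_mul_of_nonneg_left h2 (show 0 ≤ 30 * D ^ 4 * (n + 2 * D) ^ 2 by positivity)
  rw [mul_right_comm (RF _ _), h3]
  linarith

theorem rfN_eq {n : ℕ} (hn : 0 < n) : RF (-(n / E12)) 0 * n ^ 6 = -(n ^ 5 * E12) +
    10 * (n * E12) ^ 3 + 30 * n ^ 2 * E12 ^ 4 - 120 * E12 ^ 6 + Real.exp (n / E12) *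
      (30 * E12 ^ 4 * (max ((n : ℝ) - 2 * E12) 0 + max (2 * E12 - (n : ℝ)) 0) ^ 2) := by
  have h0 : (0 : ℝ) < E12 := Nat.cast_pos.2 pE12
  have h1 := RF_closed (w := -(n / E12)) (neg_ne_zero.2 (by positivity))
  generalize (E12 : ℝ) = D at *
  have h2 : (max ((n : ℝ) - 2 * D) 0 + max (2 * D - (n : ℝ)) 0) ^ 2 = (n - 2 * D) ^ 2 := by
    rcases le_total (n : ℝ) (2 * D) with h | h
    · rw [max_eq_right (sub_nonpos.2 h), max_eq_left (sub_nonneg.2 h)]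
      ring
    · rw [max_eq_left (sub_nonneg.2 h), max_eq_right (sub_nonpos.2 h), add_zero]
  calc _ = RF (-(n / D)) 0 * (-(n / D)) ^ 6 * D ^ 6 := by field_simp
    _ = _ := by rw [h1, h2, neg_neg]; field_simp; ring

theorem rfN_le {n : ℕ} (hn : 0 < n) : (rfN n (eLo n) : ℝ) ≤ RF (-(n / E12)) 0 * 2 ^ 80 := by
  refine sd_le (mul_nonneg (RF_pos _) iv_pos.le) ?_
  simp only [iv_add, iv_mul, cpow, iv_ONE, iv_sub, Nat.cast_ofNat]
  have h4 := mul_le_mul_of_nonneg_left (eLo_le n) (show 0 ≤ 30 * (E12 : ℝ) ^ 4 *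
    (max ((n : ℝ) - 2 * E12) 0 + max (2 * E12 - (n : ℝ)) 0) ^ 2 by positivity)
  rw [mul_right_comm (RF _ _), rfN_eq hn]
  generalize (2 : ℝ) ^ 80 = S at *
  linarith

theorem le_rfN {n : ℕ} (hn : 0 < n) (h : n ≤ BIG) :
    RF (-(n / E12)) 0 * 2 ^ 80 ≤ (((rfN n (eHi n)).add 1 : ℕ) : ℝ) := by
  refine le_sd (Nat.pow_pos hn) ?_
  simp only [iv_add, iv_mul, cpow, iv_ONE, iv_sub, Nat.cast_ofNat]
  have h4 := mul_le_mul_of_nonneg_left (le_eHi h) (show 0 ≤ 30 * (E12 : ℝ) ^ 4 *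
    (max ((n : ℝ) - 2 * E12) 0 + max (2 * E12 - (n : ℝ)) 0) ^ 2 by positivity)
  rw [mul_right_comm (RF _ _), rfN_eq hn]
  generalize (2 : ℝ) ^ 80 = S at *
  linarith

def E10 : ℕ := 10000000000

theorem nmax_pos (a : ℕ) {b : ℕ} (h : 0 < b) : 0 < nmax a b := by
  show 0 < a + (b - a)
  omega

/-- Lower bound at `(a - b) / 10 ^ 12`. -/
def rfLo (a b : ℕ) : ℕ :=
  cond (Nat.ble (a.add E10) b) (rfN (b.sub a) (eLo (b.sub a))) (rfP (nmax (a.sub b) E10))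

theorem rfLo_le (a b : ℕ) {x : ℝ} (h : x ≤ a / E12 - b / E12) :
    (rfLo a b : ℝ) ≤ RF x 0 * 2 ^ 80 := by
  have h0 : (0 : ℝ) < E12 := Nat.cast_pos.2 pE12
  unfold rfLo
  cases hb : Nat.ble (a.add E10) b with
  | true =>
    have h1 : a + 10000000000 ≤ b := Nat.le_of_ble_eq_true hb
    refine (rfN_le (show 0 < b - a by omega)).trans (mul_le_mul_of_nonneg_right (RF_anti ?_)
      iv_pos.le)
    rw [Nat.cast_sub (by omega), sub_div]
    linarith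
  | false =>
    refine (rfP_le (nmax_pos _ (by norm_num [E10]))).trans (mul_le_mul_of_nonneg_right (RF_anti ?_)
      iv_pos.le)
    rw [iv_nmax, iv_sub]
    refine h.trans ((sub_div _ _ _).symm.trans_le ?_)
    gcongr
    exact (le_max_left _ _).trans (le_max_left _ _)

/-- Lower bound for `RR T x 0`, `x ≤ a - b`. -/
def rrLo (T a b : ℕ) : ℕ := (T.mul (rfLo (a.mul T) (b.mul T))).div E6

theorem rrLo_le (T a b : ℕ) {x : ℝ} (h : x ≤ r6 a - r6 b) :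
    (rrLo T a b : ℝ) ≤ RR (r6 T) x 0 * 2 ^ 80 := by
  have h1 := rfLo_le (a.mul T) (b.mul T) (x := x * r6 T) (by
    rw [← r6_mul, ← r6_mul, ← sub_mul]
    exact mul_le_mul_of_nonneg_right h (r6_nonneg T))
  rw [RR, zero_mul]
  refine d_le (mul_nonneg (mul_nonneg (r6_nonneg T) (RF_pos _)) iv_pos.le) ?_
  rw [iv_mul, cE6]
  refine (mul_le_mul_of_nonneg_left h1 (Nat.cast_nonneg T)).trans_eq ?_
  generalize RF (x * r6 T) 0 = y
  rw [r6]
  ring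

/-- Upper bound for `RR T (-n) 0`. -/
def rrHi (T n : ℕ) : ℕ :=
  ((T.mul ((rfN (nmax (n.mul T) E10) (eHi (nmax (n.mul T) E10))).add 1)).div E6).add 1

theorem le_rrHi {T n : ℕ} (h : n.mul T ≤ BIG) : RR (r6 T) (-r6 n) 0 * 2 ^ 80 ≤ rrHi T n := by
  have h0 : (0 : ℝ) < E12 := Nat.cast_pos.2 pE12
  have h1 := le_rfN (n := nmax (n.mul T) E10) (nmax_pos _ (by norm_num [E10])) (by
    show n.mul T + (E10 - n.mul T) ≤ BIG
    unfold E10 BIG at *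
    omega)
  have h2 : RF (-r6 n * r6 T) 0 ≤ RF (-((nmax (n.mul T) E10 : ℕ) / E12)) 0 := RF_anti (by
    rw [neg_mul, r6_mul, neg_le_neg_iff, iv_nmax]
    gcongr
    exact le_max_left _ _)
  rw [RR, zero_mul]
  refine le_d pE6 ?_
  rw [iv_mul, cE6]
  refine le_trans (le_of_eq ?_) (mul_le_mul_of_nonneg_left
    ((mul_le_mul_of_nonneg_right h2 iv_pos.le).trans h1) (Nat.cast_nonneg T))
  generalize RF (-r6 n * r6 T) 0 = y
  rw [r6]
  ring

/-! The transform of the triangle. -/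

theorem JJ_eq (T : ℕ) {n : ℕ} (hn : 0 < n) (s : ℝ) (hs : s ^ 2 = 1) :
    JJ (r6 T) (s * r6 n) * n ^ 2 =
      Real.exp (s * ((n.mul T : ℕ) / E12)) * E12 - E12 - s * (n * T) := by
  have h0 : s ≠ 0 := fun h => by simp [h] at hs
  rw [JJ_closed _ (mul_ne_zero h0 (r6_pos hn).ne'), mul_assoc s, r6_mul, mul_pow, hs, iv_mul, cE12,
    r6]
  field_simp

/-- Lower bound for `JJ T x`, `a - b ≤ x`. -/
def jjLo (T a b : ℕ) : ℕ :=
  cond (Nat.ble (b.add 1000) a)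
    ((((eLo ((a.sub b).mul T)).mul E12).sub ((E12.add ((a.sub b).mul T)).mul ONE)).div
      ((a.sub b).pow 2))
    (((((nLo ((nmax (b.sub a) 1000).mul T)).mul E12).add
      (((nmax (b.sub a) 1000).mul T).mul ONE)).sub (E12.mul ONE)).div ((nmax (b.sub a) 1000).pow 2))

theorem jjLo_le (T a b : ℕ) {x : ℝ} (h : r6 a - r6 b ≤ x) :
    (jjLo T a b : ℝ) ≤ JJ (r6 T) x * 2 ^ 80 := by
  have h0 : (0 : ℝ) ≤ E12 := Nat.cast_nonneg _
  have hp := fun y => mul_nonneg (MP_e97e2b_nt.Ln.JJ_nonneg (r6_nonneg T) y) iv_pos.le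
  unfold jjLo
  cases hb : Nat.ble (b.add 1000) a with
  | true =>
    have h1 : b + 1000 ≤ a := Nat.le_of_ble_eq_true hb
    have h2 := JJ_eq T (n := a.sub b) (show 0 < a - b by omega) 1 (by norm_num)
    rw [one_mul, one_mul, one_mul] at h2
    refine le_trans (sd_le (hp (r6 (a.sub b))) ?_) (mul_le_mul_of_nonneg_right
      (JJ_mono (r6_nonneg T) ((r6_sub (by omega)).trans_le h)) iv_pos.le)
    have h3 := mul_le_mul_of_nonneg_right (eLo_le ((a.sub b).mul T)) h0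
    rw [cpow, mul_right_comm, h2, iv_mul, iv_mul, iv_add, iv_ONE]
    rw [iv_mul] at *
    linarith
  | false =>
    have h2 := JJ_eq T (n := nmax (b.sub a) 1000) (nmax_pos _ (by norm_num)) (-1) (by norm_num)
    rw [neg_one_mul, neg_one_mul, neg_one_mul] at h2
    refine le_trans (sd_le (hp (-r6 (nmax (b.sub a) 1000))) ?_) (mul_le_mul_of_nonneg_right
      (JJ_mono (r6_nonneg T) (le_trans ?_ h)) iv_pos.le)
    · have h3 := mul_le_mul_of_nonneg_right (nLo_le ((nmax (b.sub a) 1000).mul T)) h0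
      rw [cpow, mul_right_comm, h2, iv_add, iv_mul, iv_mul, iv_mul E12, iv_ONE]
      rw [iv_mul] at *
      linarith
    · have h3 : r6 (b.sub a) ≤ r6 (nmax (b.sub a) 1000) := r6_le.2 (Nat.le_add_right _ _)
      rw [r6_sub'] at h3
      linarith [le_max_left (r6 b - r6 a) 0]

/-- Upper bound for `JJ T n`. -/
def jjHi (T n : ℕ) : ℕ :=
  ((((eHi ((nmax n 1000).mul T)).mul E12).sub ((E12.add ((nmax n 1000).mul T)).mul ONE)).div
    ((nmax n 1000).pow 2)).add 1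

theorem le_jjHi {T n : ℕ} (h : (nmax n 1000).mul T ≤ BIG) :
    JJ (r6 T) (r6 n) * 2 ^ 80 ≤ jjHi T n := by
  have h0 : 0 < nmax n 1000 := nmax_pos _ (by norm_num)
  have h2 := JJ_eq T h0 1 (by norm_num)
  rw [one_mul, one_mul, one_mul] at h2
  refine le_trans (mul_le_mul_of_nonneg_right (JJ_mono (r6_nonneg T)
    (r6_le.2 (Nat.le_add_right n (Nat.sub 1000 n)))) iv_pos.le) (le_sd (Nat.pow_pos h0) ?_)
  have h3 := mul_le_mul_of_nonneg_right (le_eHi h) (Nat.cast_nonneg E12 : (0 : ℝ) ≤ _)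
  change JJ (r6 T) (r6 (nmax n 1000)) * _ * _ ≤ _
  rw [cpow, mul_right_comm, h2, iv_mul (eHi _), iv_mul _ ONE, iv_add, iv_ONE]
  rw [iv_mul] at h3 ⊢
  linarith

end Pool.Agent.Lib.MP_778b46_nt.GX.Ck
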