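import Pool.Agent.Lib.MP_778b46_nt.GX.ZhL
import Pool.Agent.Lib.MP_778b46_nt.GX.CkA

/- The table of levels behind two conjugate first zeros of the same class. -/

namespace Pool.Agent.Lib.MP_778b46_nt.GX

open Ck

variable {φ φ1 : ℝ} {psF psC qsF qsC : List MP}

theorem levKS_650 (h1 : φ ≤ 0.3334) (h2 : φ1 ≤ 0.2501) : Ev2 φ φ1 psF psC qsF qsC
    (Lev KS (0.609 : ℚ) (0.65 : ℚ) (1.502 : ℚ) (2.271 : ℚ) (0.609 : ℚ)) :=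
  lev_ks (zh_f h1) (zh_f1 h2)
    ⟨1.1, 0.86, 0, 0.702, 0.0026, 0.0105, 0.0081, 0, 0.00891, 0, 0, 0.9804⟩
    [(1.085, ⟨2.2, 0.7, 1, 0.676, 0.0003, 0.0003, 0.0003, 0.0003, 0, 0, 0, 2.4⟩),
     (1.333, ⟨1.95, 0.64, 1, 0.805, 0.0026, 0.0023, 0.0054, 0.0037, 0, 0, 0, 2.28⟩),
     (1.439, ⟨1.8, 0.64, 1, 0.912, 0.0073, 0.009, 0.0116, 0.0061, 0.00525, 0, 0, 2.28⟩),
     (1.483, ⟨1.75, 0.62, 1, 0.962, 0.0108, 0.0118, 0.0141, 0.0073, 0.00905, 0, 0, 2.24⟩),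
     (1.502, ⟨1.75, 0.62, 1, 0.983, 0.013, 0.0135, 0.0156, 0.0079, 0.01167, 0, 0, 2.24⟩)]
    (by decide +kernel)

theorem levKS_700 (h1 : φ ≤ 0.3334) (h2 : φ1 ≤ 0.2501) : Ev2 φ φ1 psF psC qsF qsC
    (Lev KS (0.609 : ℚ) (0.7 : ℚ) (1.309 : ℚ) (2.08 : ℚ) (0.609 : ℚ)) :=
  lev_ks (zh_f h1) (zh_f1 h2)
    ⟨1.1, 0.88, 0, 0.702, 0.0016, 0.0055, 0.0053, 0, 0.00583, 0, 0, 0.9856⟩
    [(1.01, ⟨2.15, 0.74, 1, 0.75, 0.0003, 0.0003, 0.0003, 0.0003, 0, 0, 0, 2.48⟩),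
     (1.176, ⟨1.95, 0.68, 1, 0.86, 0.0011, 0.0014, 0.0026, 0.0025, 0, 0, 0, 2.36⟩),
     (1.261, ⟨1.85, 0.66, 1, 0.927, 0.0028, 0.0027, 0.006, 0.0039, 0, 0, 0, 2.32⟩),
     (1.295, ⟨1.8, 0.68, 1, 0.97, 0.0038, 0.0052, 0.0082, 0.0047, 0, 0, 0, 2.36⟩),
     (1.309, ⟨1.8, 0.64, 1, 0.987, 0.004, 0.0059, 0.0085, 0.005, 0, 0, 0, 2.28⟩)]
    (by decide +kernel)

theorem levKS_750 (h1 : φ ≤ 0.3334) (h2 : φ1 ≤ 0.2501) : Ev2 φ φ1 psF psC qsF qsC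
    (Lev KS (0.609 : ℚ) (0.75 : ℚ) (1.115 : ℚ) (1.898 : ℚ) (0.609 : ℚ)) :=
  lev_ks (zh_f h1) (zh_f1 h2)
    ⟨1.15, 0.9, 0, 0.689, 0.0007, 0.0012, 0.0031, 0, 0.00357, 0, 0, 0.99⟩
    [(0.943, ⟨2.1, 0.74, 1, 0.831, 0.0003, 0.0003, 0.0003, 0.0003, 0, 0, 0, 2.48⟩),
     (1.042, ⟨1.95, 0.74, 1, 0.911, 0.0003, 0.0005, 0.0006, 0.0015, 0, 0, 0, 2.48⟩),
     (1.091, ⟨1.95, 0.68, 1, 0.954, 0.0008, 0.0012, 0.002, 0.0023, 0, 0, 0, 2.36⟩),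
     (1.115, ⟨1.9, 0.68, 1, 0.977, 0.0013, 0.0015, 0.0029, 0.0027, 0, 0, 0, 2.36⟩)]
    (by decide +kernel)

theorem levKS_800 (h1 : φ ≤ 0.3334) (h2 : φ1 ≤ 0.2501) : Ev2 φ φ1 psF psC qsF qsC
    (Lev KS (0.609 : ℚ) (0.8 : ℚ) (0.945 : ℚ) (1.707 : ℚ) (0.609 : ℚ)) :=
  lev_ks (zh_f h1) (zh_f1 h2)
    ⟨1.15, 0.94, 0, 0.695, 0.0003, 0.0004, 0.0013, 0, 0.0015, 0, 0, 0.9964⟩
    [(0.887, ⟨1.95, 0.8, 0, 0.921, 0.0003, 0.0003, 0.0003, 0, 0.00059, 0, 0, 0.96⟩),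
     (0.927, ⟨1.9, 0.78, 0, 0.963, 0.0003, 0.0003, 0.0013, 0, 0.00247, 0, 0, 0.9516⟩),
     (0.945, ⟨1.85, 0.78, 0, 0.983, 0.0003, 0.0003, 0.0017, 0, 0.00315, 0, 0, 0.9516⟩)]
    (by decide +kernel)

/-- Right end point, level of the other classes, level of the own class. -/
def ksTab : List (ℕ × ℕ × ℕ) :=
  [(650000, 1502000, 2271000),
    (700000, 1309000, 2080000),
    (750000, 1115000, 1898000),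
    (800000, 945000, 1707000)]

theorem ksTab_lev : ∀ x ∈ ksTab, Ev2 (r6 333400) (r6 250100) psF psC qsF qsC
    (Lev KS (r6 609000) (r6 x.1) (r6 x.2.1) (r6 x.2.2) (r6 609000)) := by
  have h1 : r6 333400 ≤ 0.3334 := by norm_num [r6]
  have h2 : r6 250100 ≤ 0.2501 := by norm_num [r6]
  simp only [ksTab, List.forall_mem_cons]
  refine ⟨?_, ?_, ?_, ?_, by simp⟩
  · convert levKS_650 h1 h2 using 2 <;> norm_num [r6]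
  · convert levKS_700 h1 h2 using 2 <;> norm_num [r6]
  · convert levKS_750 h1 h2 using 2 <;> norm_num [r6]
  · convert levKS_800 h1 h2 using 2 <;> norm_num [r6]

/-- The levels for a row, read off from the table. -/
theorem ks_lev {sa sb l lc lp : ℕ} (h : 609000 ≤ sa ∧ lp ≤ sa ∧ ∃ x ∈ ksTab, sb ≤ x.1 ∧
    l ≤ x.2.1 ∧ lc ≤ x.2.2) : Ev2 (r6 333400) (r6 250100) psF psC qsF qsC
      (Lev KS (r6 sa) (r6 sb) (r6 l) (r6 lc) (r6 lp)) := by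
  obtain ⟨h0, h4, x, hx, h1, h2, h3⟩ := h
  exact Ev2.mono (ksTab_lev x hx) fun _ _ _ _ _ _ _ _ _ _ _ h i hi hk ha hb =>
    have e := h i hi hk ((r6_le.2 h0).trans ha) (hb.trans (r6_le.2 h1))
    ⟨fun k _ _ => (r6_le.2 h4).trans (ha.trans (hi k)),
      fun k a b c => (r6_le.2 h3).trans (e.2.1 k a b c),
      fun k a b => (r6_le.2 h2).trans (e.2.2 k a b)⟩

end Pool.Agent.Lib.MP_778b46_nt.GX
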