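import Pool.Agent.Lib.MP_778b46_nt.GX.RsR
import Pool.Agent.Lib.MP_778b46_nt.GX.RsD1
import Pool.Agent.Lib.MP_778b46_nt.GX.RsD2
import Pool.Agent.Lib.MP_778b46_nt.GX.RsD3
import Pool.Agent.Lib.MP_778b46_nt.GX.RsD4
import Pool.Agent.Lib.MP_778b46_nt.GX.RsG
import Pool.Agent.Lib.MP_778b46_nt.GX.RsS1
import Pool.Agent.Lib.MP_778b46_nt.GX.ZhM

/- The certificate for `L = 12 / 5`. -/

namespace Pool.Agent.Lib.MP_778b46_nt.GX

open Cq

theorem cert4 : CERT3 (12 / 5) 0.3334 0.2501 := by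
  convert cert3_MR rsR
    [MR.pairD (CR.of rsD1_1 rsD1_2 rsD1_3) (by decide +kernel),
      MR.pairD (CR.of rsD2_1 rsD2_2 rsD2_3) (by decide +kernel),
      MR.pairD (CR.of rsD3_1 rsD3_2 rsD3_3) (by decide +kernel),
      MR.pairD (CR.of rsD4_1 rsD4_2 rsD4_3) (by decide +kernel)]
    [MR.pairS (CR.of rsS1_1 rsS1_2 rsS1_3) (by decide +kernel)
      fun _ => ks_lev (by decide +kernel)]
    (CR.of rsG_1 rsG_2 rsG_3) (by decide +kernel) using 1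
  norm_num [Ck.r6]

end Pool.Agent.Lib.MP_778b46_nt.GX
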