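import Pool.Agent.Lib.MP_778b46_nt.GX.CkH

/- The checker for one row of the certificate: definitions. -/

namespace Pool.Agent.Lib.MP_778b46_nt.GX.Ck

open Pool.Agent.Lib.MP_6cad4c_al
open Pool.Agent.Lib.MP_e97e2b_nt.Ln (JJ)

/-- Parameters of a mollifier inequality. -/
structure MD where
  w : ℕ
  u0 : ℕ
  u1 : ℕ
  u : ℕ
  v : ℕ
  x0 : ℕ
  x1 : ℕ
  sg : ℕ
  lmin : ℕ

/-- A constraint. -/
inductive Con where
  | g (T l b G A C : ℕ)
  | h (d : HD)
  | m (d : MD)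

noncomputable def MD.p (d : MD) : MP :=
  ⟨r6 d.w, r6 d.u0, r6 d.u1, r6 d.u, r6 d.v, r6 d.x0, r6 d.x1, r6 d.sg⟩

noncomputable def wt (G A C d cap : ℝ) : ℝ := max 0 (min ((d - G * C / d) / A) cap) * max 0 d / G

noncomputable def dG (ph d0 T l : ℕ) (x : ℝ) : ℝ := RR (r6 T) (x - r6 l) 0 - r6 ph / 2 - r6 d0

noncomputable def dH (ph d0 T l : ℕ) (x : ℝ) : ℝ :=
  JJ (r6 T) (r6 l - x) - r6 T * r6 ph / 2 - r6 d0

/-- The weight of a constraint. -/
noncomputable def Con.w (ph d0 : ℕ) : Con → ℝ → ℝ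
  | .g T l b G A C, x => wt (r6 G) (r6 A) (r6 C) (dG ph d0 T l x)
      (if r6 l ≤ x then (2 - r6 b * r6 T) / (1 + (x - r6 l) * r6 T / 2) else dG ph d0 T l x / r6 A)
  | .h d, x => wt (r6 d.G) (r6 d.A) (r6 d.C) (dH ph d0 (d.N.mul d.hh) d.l x)
      (if r6 d.l ≤ x then 2 * min (rho (r6 (d.N.mul d.hh)) (x - r6 d.l) (r6 d.y1))
        (rho (r6 (d.N.mul d.hh)) (x - r6 d.l) (r6 d.y0)) / r6 d.A
      else dH ph d0 (d.N.mul d.hh) d.l x / r6 d.A)
  | .m d, x => if r6 d.lmin ≤ x then d.p.m (r6 ph) (r6 d.lmin) x / (1 + r6 d0) else 0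

def Con.line : Con → ℕ
  | .g _ l _ _ _ _ => l
  | .h d => d.l
  | .m _ => 0

def wv (G A C d cap : ℕ) : ℕ :=
  (((nmin (((d.sub ((((G.mul C).mul TWO).div (E12.mul d)).add 1)).mul E6).div A) cap).mul d).mul
    E6).div (G.mul ONE)

def phT (ph d0 T : ℕ) : ℕ :=
  ((((T.mul ph).add ((d0.mul E6).mul 2)).mul ONE).div (E12.mul 2)).add 1

def rhoLo (c u0 u1 y : ℕ) : ℕ :=
  (((c.mul ((u0.mul u0).add (y.mul E6))).sub (((u1.mul u1).mul 2).mul ONE)).mul E12).div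
    (((u1.mul u1).add (y.mul E6)).pow 2)

def c2Lo (T u : ℕ) : ℕ := ((((u.mul T).mul ONE).div E12).add ONE).sub (nHi (u.mul T))

def capG (T l b' b : ℕ) : ℕ :=
  ((((E12.mul 2).sub (b'.mul T)).mul 2).mul ONE).div ((E12.mul 2).add ((b.sub l).mul T))

def capH (T l A y1 y0 a b : ℕ) : ℕ :=
  (((nmin (rhoLo (c2Lo T (a.sub l)) (a.sub l) (b.sub l) y1)
    (rhoLo (c2Lo T (a.sub l)) (a.sub l) (b.sub l) y0)).mul 2).mul E6).div A

/-- The step part on the cell `[a, b)`; `b = 0` stands for an unbounded cell. -/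
def Con.vS (ph d0 a b : ℕ) : Con → ℕ
  | .g T l b' G A C => cond (Nat.ble b 0) 0
      (wv G A C ((rrLo T b l).sub (phT ph d0 E6)) (cond (Nat.ble b l) TWO (capG T l b' b)))
  | .h d => cond (Nat.ble b 0) 0
      (wv d.G d.A d.C ((jjLo (d.N.mul d.hh) d.l b).sub (phT ph d0 (d.N.mul d.hh)))
        (cond (Nat.ble b d.l) TWO (capH (d.N.mul d.hh) d.l d.A d.y1 d.y0 a b)))
  | .m _ => 0

def eE (b p q : ℕ) : ℕ := ((((eHi (b.mul q)).add (eHi (b.mul p))).mul E6).div (q.sub p)).add 1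

def MD.lo (d : MD) (ph d0 a : ℕ) : ℕ :=
  (((((d.w.mul ((d.sg.add a).add d.lmin)).mul ((eLo (d.sg.mul d.v)).sub (eHi (d.sg.mul d.u)))).mul
    ONE).mul 2).mul (d.sg.add a)).div
    ((((eE (d.sg.add (a.mul 2)) d.x0 d.x1).add (eE (d.sg.add (a.mul 2)) d.u0 d.u1)).mul
      ((ph.mul (d.sg.add a)).add (E12.mul 2))).mul (E6.add d0))

/-- The mollifier part at the left end of a cell. -/
def Con.vM (ph d0 a : ℕ) : Con → ℕ
  | .m d => cond (Nat.ble d.lmin a && Nat.ble ((d.sg.add (a.mul 2)).mul d.x1) BIG) (d.lo ph d0 a) 0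
  | _ => 0

def MD.ok (d : MD) (L ph ph' : ℕ) : Bool :=
  Nat.blt 0 d.w && Nat.ble ((d.w.mul 2).add ph') d.u0 && Nat.blt d.u0 d.u1 && Nat.blt d.u1 d.u &&
    Nat.blt d.u d.v && Nat.ble ((d.v.add d.w).add ph) d.x0 && Nat.blt d.x0 d.x1 &&
    Nat.blt 0 d.sg && Nat.ble (d.x1.mul 2) L

/-- What the cell bounds need. -/
def Con.Pos (L ph : ℕ) : Con → Prop
  | .g _ _ _ G A _ => 0 < G ∧ 0 < A
  | .h d => 0 < d.G ∧ 0 < d.A ∧ 0 < d.y1 ∧ 0 < d.y0
  | .m d => ∃ ph', d.ok L ph ph' = true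

/-- Membership in a cell. -/
def In (a b : ℕ) (x : ℝ) : Prop := r6 a ≤ x ∧ (b = 0 ∨ x < r6 b)

/-- A chord. -/
structure Ch where
  u : ℕ
  nu : ℕ
  th : List (ℕ × ℕ)

/-- A row. -/
structure Row where
  L : ℕ
  ph : ℕ
  d0 : ℕ
  n : ℕ
  sa : ℕ
  sb : ℕ
  l : ℕ
  y0 : ℕ
  xs : List ℕ
  xp : List ℕ
  F : List (ℕ × Con)
  C : List Con
  ty : List (ℕ × List Ch)
  last : List Ch
  prim : List Ch

def dfl : Con := .g 0 0 0 0 0 0

noncomputable def sumF (v : Con → ℕ) (t : ℕ) (F : List (ℕ × Con)) : ℕ :=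
  List.rec 0 (fun e _ ih => cond (Nat.ble e.2.line t) ((e.1.mul (v e.2)).add ih) ih) F

noncomputable def sumC (v : Con → ℕ) (C : List Con) (th : List (ℕ × ℕ)) : ℕ :=
  List.rec 0 (fun e _ ih => (e.2.mul (v (C.getD e.1 dfl))).add ih) th

noncomputable def sumT (th : List (ℕ × ℕ)) : ℕ := List.rec 0 (fun e _ ih => e.2.add ih) th

def thOK (C : List Con) (t : ℕ) (th : List (ℕ × ℕ)) : Bool :=
  th.all fun e => Nat.blt e.1 C.length && Nat.ble (C.getD e.1 dfl).line t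

def two (p e s nu k W M : ℕ) : Bool :=
  Nat.ble ((p.mul e).add (nu.mul ONE)) (((k.mul ONE).add W).add M) &&
    Nat.ble (((p.mul e).mul s).add (nu.mul TWO)) ((((k.mul ONE).add W).mul ONE).add (M.mul s))

noncomputable def Row.cell (R : Row) (F : List (ℕ × Con)) (t : ℕ) (th : List (ℕ × ℕ))
    (p nu k a b : ℕ) : Bool :=
  two p (nHi (R.L.mul a)) (cond (Nat.ble b 0) 0 (nLo (R.L.mul (b.sub a)))) nu k
    ((sumF (Con.vS R.ph R.d0 a b) t F).add (sumC (Con.vS R.ph R.d0 a b) R.C th))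
    ((sumF (Con.vM R.ph R.d0 a) t F).add (sumC (Con.vM R.ph R.d0 a) R.C th))

/-- The test `f` on all cells of the grid `a :: xs`. -/
noncomputable def allC (f : ℕ → ℕ → Bool) (xs : List ℕ) : ℕ → Bool :=
  List.rec (motive := fun _ => ℕ → Bool) (fun a => f a 0) (fun b _ ih a => f a b && ih b) xs

noncomputable def Row.scan (R : Row) (F : List (ℕ × Con)) (t : ℕ) (th : List (ℕ × ℕ))
    (p nu lo hi : ℕ) : Bool :=
  allC (fun a b => (Nat.blt 0 b && Nat.ble b lo) ||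
    R.cell F t th p (cond (Nat.blt a hi) nu 0) 0 a b) R.xs.tail R.l

noncomputable def Row.scanP (R : Row) (F : List (ℕ × Con)) (th : List (ℕ × ℕ)) (p k : ℕ) : Bool :=
  allC (fun a b => Nat.blt R.sb a || R.cell F R.l th p (sumT th) k a b) R.xp.tail R.sa

noncomputable def chain (f : Ch → ℕ → Bool) (g : Ch → Bool) (l : List Ch) : Ch → Bool :=
  List.rec (motive := fun _ => Ch → Bool) g (fun c' _ ih c => f c c'.u && ih c') l

def nuOf (hi : ℕ) (c : Ch) : ℕ := cond (Nat.ble hi 0) 0 c.nu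

/-- A type with bin `[lo, hi)`, or the last type if `hi = 0`. -/
noncomputable def Row.tyOK (R : Row) (lo hi : ℕ) : List Ch → Bool
  | [] => false
  | c :: l => Nat.ble (c.u.mul ONE) (cond (Nat.ble hi 0) 0 ((nLo (R.L.mul hi)).mul E6)) &&
      chain (fun c u => thOK R.C lo c.th && Nat.ble (sumT c.th) ((c.u.mul u).add (nuOf hi c)) &&
          R.scan R.F lo c.th ((c.u.add u).mul E6) (nuOf hi c) lo hi)
        (fun c => thOK R.C lo c.th && Nat.blt (sumT c.th) ((c.u.mul E6).add (nuOf hi c)) &&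
          R.scan [] lo c.th E12 (nuOf hi c) lo hi) l c

noncomputable def Row.prOK (R : Row) : List Ch → Bool
  | [] => false
  | c :: l => Nat.ble (c.u.mul ONE) ((nLo (R.L.mul R.sb)).mul E6) &&
      chain (fun c u => thOK R.C R.sa c.th && R.scan R.F R.sa c.th ((c.u.add u).mul E6) 0 0 0 &&
          R.scanP R.F c.th ((c.u.add u).mul E6) ((c.u.mul u).add R.y0))
        (fun c => thOK R.C R.sa c.th && Nat.blt c.nu (c.u.mul E6) && R.scan [] 0 c.th E12 0 0 0 &&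
          R.scanP [] c.th E12 c.nu) l c

def gOK (T l b G A d0 : ℕ) : Bool :=
  Nat.ble 500000 T && Nat.ble T 8000000 && Nat.ble b l && Nat.ble l 5000000 &&
    Nat.ble (b.mul T) (E12.mul 2) && Nat.blt 0 G && Nat.blt 0 A &&
    Nat.ble (((rrHi T ((l.mul 2).sub b)).mul E6).add (d0.mul ONE)) (G.mul ONE)

noncomputable def Row.conF (R : Row) : Con → Bool
  | .g T l b G A C => gOK T l b G A R.d0 && Nat.ble b R.sa &&
      Nat.ble (R.ph.add (R.d0.mul 2)) (C.mul 2) &&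
      Nat.ble (((rrHi T b).mul E6).mul 2) (((A.mul 2).add R.ph).mul ONE)
  | .h d => d.ok R.ph R.d0 R.sa && Nat.blt 0 d.G && Nat.blt 0 d.A && Nat.blt 0 d.y1 &&
      Nat.blt 0 d.y0
  | .m d => d.ok R.L R.ph R.ph

def Row.conC (R : Row) : Con → Bool
  | .g T l b G A C => gOK T l b G A R.d0 && Nat.ble R.d0 C &&
      Nat.ble ((rrHi T b).mul E6) (A.mul ONE)
  | .h _ => false
  | .m d => d.ok R.L R.ph 1000

/-- Left end of the bin of type `t`. -/
def Row.bn (R : Row) (t : ℕ) : ℕ := nmax R.l ((0 :: R.ty.map fun e => e.1).getD t 0)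

/-- The constraints and the total. -/
noncomputable def Row.ok1 (R : Row) : Bool :=
  Nat.blt 0 R.d0 && Nat.blt 0 R.l && Nat.ble R.sa R.l && R.F.all (fun e => R.conF e.2) &&
    R.C.all R.conC &&
    Nat.ble ((sumT (R.F.map fun e => (0, e.1))).add (R.n.mul R.y0)) 990000000000

/-- The type number `t`. -/
noncomputable def Row.okT (R : Row) (t : ℕ) : Bool :=
  R.tyOK (R.bn t) (R.bn (t + 1)) (R.ty.getD t (0, [])).2

noncomputable def Row.ok2 (R : Row) : Bool := (List.range R.ty.length).all R.okT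

noncomputable def Row.ok3 (R : Row) : Bool := R.tyOK (R.bn R.ty.length) 0 R.last

noncomputable def Row.ok4 (R : Row) : Bool := Nat.ble R.n 0 || R.prOK R.prim

noncomputable def Con.ps : Con → List MP
  | .m d => [d.p]
  | _ => []

noncomputable def Row.psF (R : Row) : List MP := R.F.flatMap fun e => e.2.ps

noncomputable def Row.psC (R : Row) : List MP := R.C.flatMap Con.ps

end Pool.Agent.Lib.MP_778b46_nt.GX.Ck
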