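import Pool.Agent.Lib.MP_778b46_nt.GX.CkB
import Pool.Agent.Lib.MP_778b46_nt.GX.Ce1E

/- Certified lower bounds for the weights on cells. -/

namespace Pool.Agent.Lib.MP_778b46_nt.GX.Ck

open Pool.Agent.Lib.MP_6cad4c_al
open Pool.Agent.Lib.MP_e97e2b_nt.Ln (JJ)

theorem wt_nonneg {G : ℝ} (hG : 0 ≤ G) (A C d cap : ℝ) : 0 ≤ wt G A C d cap :=
  div_nonneg (mul_nonneg (le_max_left _ _) (le_max_left _ _)) hG

theorem wt_cases {G A : ℝ} (hG : 0 < G) (hA : 0 < A) (C d cap : ℝ) : wt G A C d cap ≤ 0 ∨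
    ∃ α, 0 ≤ α ∧ 0 < d ∧ α * A ≤ d - G * C / d ∧ α ≤ cap ∧ wt G A C d cap * G ≤ α * d := by
  unfold wt
  rcases le_or_gt d 0 with h | h
  · left
    rw [max_eq_left h, mul_zero, zero_div]
  rcases le_total (min ((d - G * C / d) / A) cap) 0 with h' | h'
  · left
    rw [max_eq_left h', zero_mul, zero_div]
  refine Or.inr ⟨_, h', h, (le_div_iff₀ hA).1 (min_le_left _ _), min_le_right _ _, ?_⟩
  rw [max_eq_right h', max_eq_right h.le, div_mul_cancel₀ _ hG.ne']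

theorem wtG (ph d0 T l b C : ℕ) {G A : ℕ} (hG : 0 < G) (hA : 0 < A) (lo : ℝ) :
    WtG (r6 ph) (r6 T) (r6 l) (r6 b) (r6 d0) (r6 G) (r6 A) (r6 C) lo
      ((Con.g T l b G A C).w ph d0) := fun x _ =>
  (wt_cases (r6_pos hG) (r6_pos hA) _ _ _).imp_right fun ⟨α, h1, h2, h3, h4, h5⟩ =>
    ⟨α, _, h1, h2, le_rfl, h3, fun h => by
      rw [if_pos h] at h4
      have := mul_nonneg (sub_nonneg.2 h) (r6_nonneg T)
      exact (le_div_iff₀ (by linarith)).1 h4, h5⟩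

theorem rho_eq (T u : ℝ) {y : ℝ} (hy : 0 < y) : rho T u y =
    ((T * u - Real.exp (-(u * T)) + 1) * (u ^ 2 + y) - 2 * u ^ 2) / (u ^ 2 + y) ^ 2 := by
  unfold rho
  field_simp
  ring

theorem wtH (ph d0 : ℕ) (d : HD) (hG : 0 < d.G) (hA : 0 < d.A) (hy : 0 < d.y1) (lo : ℝ) :
    WtH (r6 ph) (r6 (d.N.mul d.hh)) (r6 d.l) (r6 d0) (r6 d.G) (r6 d.A) (r6 d.C) (r6 d.y1) (r6 d.y0)
      lo ((Con.h d).w ph d0) := fun x _ =>
  (wt_cases (r6_pos hG) (r6_pos hA) _ _ _).imp_right fun ⟨α, h1, h2, h3, h4, h5⟩ =>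
    ⟨α, _, h1, h2, le_rfl, h3, fun h => by
      rw [if_pos h, le_div_iff₀ (r6_pos hA)] at h4
      have a1 := min_le_left (rho (r6 (d.N.mul d.hh)) (x - r6 d.l) (r6 d.y1))
        (rho (r6 (d.N.mul d.hh)) (x - r6 d.l) (r6 d.y0))
      have a2 := min_le_right (rho (r6 (d.N.mul d.hh)) (x - r6 d.l) (r6 d.y1))
        (rho (r6 (d.N.mul d.hh)) (x - r6 d.l) (r6 d.y0))
      have a3 := r6_pos hy
      refine ⟨?_, by linarith, by linarith⟩
      have a4 : 0 ≤ rho (r6 (d.N.mul d.hh)) (x - r6 d.l) (r6 d.y1) := by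
        linarith [mul_nonneg h1 (r6_nonneg d.A)]
      rw [rho_eq _ _ a3, le_div_iff₀ (by positivity), zero_mul] at a4
      linarith, h5⟩

theorem wv_le {G A : ℕ} (hG : 0 < G) (hA : 0 < A) (C : ℕ) {d cap : ℕ} {x y : ℝ}
    (hd : (d : ℝ) ≤ max x 0 * 2 ^ 80) (hc : (cap : ℝ) ≤ max y 0 * 2 ^ 80 ∨ x / r6 A ≤ y) :
    (wv G A C d cap : ℝ) ≤ wt (r6 G) (r6 A) (r6 C) x y * 2 ^ 80 := by
  have g0 := r6_pos hG
  have a0 := r6_pos hA
  have c0 := r6_nonneg C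
  have S0 := iv_pos
  refine d_le (mul_nonneg (wt_nonneg g0.le _ _ _ _) S0.le) ?_
  rcases Nat.eq_zero_or_pos d with rfl | d0
  · simp only [iv_mul, Nat.cast_zero, mul_zero, zero_mul]
    exact mul_nonneg (mul_nonneg (wt_nonneg g0.le _ _ _ _) S0.le) (by positivity)
  have d1 : (0 : ℝ) < d := Nat.cast_pos.2 d0
  have x0 : 0 < x := by
    by_contra h
    rw [max_eq_right (not_lt.1 h), zero_mul] at hd
    linarith
  rw [max_eq_left x0.le] at hd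
  have h1 : r6 G * r6 C / x * 2 ^ 80 ≤
      (((((G.mul C).mul TWO).div (E12.mul d)).add 1 : ℕ) : ℝ) := by
    refine le_d (Nat.mul_pos pE12 d0) ?_
    rw [iv_mul E12, iv_mul _ TWO, iv_TWO, r6_mul]
    have e0 : (0 : ℝ) < E12 := Nat.cast_pos.2 pE12
    calc _ ≤ ((G.mul C : ℕ) : ℝ) / E12 / x * 2 ^ 80 * (E12 * (x * 2 ^ 80)) := by gcongr
      _ = _ := by field_simp
  have h2 : ((((d.sub ((((G.mul C).mul TWO).div (E12.mul d)).add 1)).mul E6).div A : ℕ) : ℝ) ≤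
      max 0 ((x - r6 G * r6 C / x) / r6 A) * 2 ^ 80 := by
    refine d_le (by positivity) ?_
    rw [iv_mul, iv_sub, cE6, ← le_div_iff₀ (by positivity), mul_div_assoc, ← r6]
    refine max_le ?_ (by positivity)
    calc _ ≤ (x - r6 G * r6 C / x) / r6 A * 2 ^ 80 * r6 A := by
          rw [mul_right_comm, div_mul_cancel₀ _ a0.ne']
          linarith
      _ ≤ _ := by gcongr; exact le_max_right _ _
  have h3 : ((nmin (((d.sub ((((G.mul C).mul TWO).div (E12.mul d)).add 1)).mul E6).div A) cap : ℕ) :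
      ℝ) ≤ max 0 (min ((x - r6 G * r6 C / x) / r6 A) y) * 2 ^ 80 := by
    rw [iv_nmin]
    rcases le_total ((x - r6 G * r6 C / x) / r6 A) y with h | h
    · rw [min_eq_left h]
      exact (min_le_left _ _).trans h2
    rcases hc with hc | hc
    · rw [min_eq_right h, max_comm]
      exact (min_le_right _ _).trans hc
    · rw [min_eq_left (le_trans (div_le_div_of_nonneg_right (sub_le_self _ (by positivity)) a0.le)
        hc)]
      exact (min_le_left _ _).trans h2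
  rw [iv_mul, iv_mul, iv_mul, iv_ONE, cE6, wt, max_eq_right x0.le]
  refine (mul_le_mul_of_nonneg_right (mul_le_mul h3 hd d1.le (by positivity))
    (by positivity)).trans_eq ?_
  generalize max 0 (min ((x - r6 G * r6 C / x) / r6 A) y) = z
  have : (G : ℝ) ≠ 0 := (Nat.cast_pos.2 hG).ne'
  rw [r6]
  field_simp

theorem le_phT (ph d0 T : ℕ) : (r6 T * r6 ph / 2 + r6 d0) * 2 ^ 80 ≤ phT ph d0 T := by
  refine le_d (Nat.mul_pos pE12 two_pos) (le_of_eq ?_)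
  simp only [iv_mul, iv_add, iv_ONE, cE6, cE12, r6, Nat.cast_ofNat]
  ring

theorem sub_le {p q : ℕ} {x y : ℝ} (hp : (p : ℝ) ≤ x * 2 ^ 80) (hq : y * 2 ^ 80 ≤ q) :
    ((p.sub q : ℕ) : ℝ) ≤ max (x - y) 0 * 2 ^ 80 := by
  rw [iv_sub, max_mul_of_nonneg _ _ iv_pos.le, zero_mul, sub_mul]
  exact max_le_max (sub_le_sub hp hq) le_rfl

theorem capG_le (T l b' b : ℕ) {x : ℝ} (h : r6 l ≤ x) (h' : x ≤ r6 b) : (capG T l b' b : ℝ) ≤
    max ((2 - r6 b' * r6 T) / (1 + (x - r6 l) * r6 T / 2)) 0 * 2 ^ 80 := by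
  have t0 := r6_nonneg T
  have u0 := mul_nonneg (sub_nonneg.2 h) t0
  refine d_le (by positivity) ?_
  have h1 : (x - r6 l) * r6 T * 10 ^ 12 ≤ (((b.sub l).mul T : ℕ) : ℝ) := by
    rw [← le_div_iff₀ (by positivity), ← cE12, ← r6_mul, r6_sub (r6_le.1 (h.trans h'))]
    gcongr
  have h2 : ((b'.mul T : ℕ) : ℝ) = r6 b' * r6 T * 10 ^ 12 := by
    rw [r6_mul, cE12, div_mul_cancel₀ _ (by positivity)]
  rw [iv_mul, iv_mul, iv_sub, iv_add, iv_mul E12, iv_ONE, cE12, h2, Nat.cast_ofNat]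
  rcases le_total (2 - r6 b' * r6 T) 0 with k | k
  · rw [max_eq_right (by linarith), zero_mul, zero_mul]
    positivity
  · rw [max_eq_left (by linarith), max_eq_left (by positivity)]
    calc _ = (2 - r6 b' * r6 T) / (1 + (x - r6 l) * r6 T / 2) * 2 ^ 80 *
          (10 ^ 12 * 2 + (x - r6 l) * r6 T * 10 ^ 12) := by
          generalize (x - r6 l) * r6 T = z at *
          field_simp
      _ ≤ _ := by gcongr

theorem rhoLo_le {c u0 u1 y : ℕ} (hy : 0 < y) {T u : ℝ} (h0 : r6 u0 ≤ u) (h1 : u ≤ r6 u1)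
    (hc : (c : ℝ) ≤ (T * u - Real.exp (-(u * T)) + 1) * 2 ^ 80) :
    (rhoLo c u0 u1 y : ℝ) ≤ max (rho T u (r6 y)) 0 * 2 ^ 80 := by
  have y0 := r6_pos hy
  have a0 := r6_nonneg u0
  have a1 := a0.trans h0
  have e : ∀ n : ℕ, (((n.mul n).add (y.mul E6) : ℕ) : ℝ) = (r6 n ^ 2 + r6 y) * 10 ^ 12 := fun n => by
    rw [iv_add, iv_mul, iv_mul, cE6, r6, r6]
    ring
  have e' : (((u1.mul u1).mul 2 : ℕ) : ℝ) = 2 * r6 u1 ^ 2 * 10 ^ 12 := by
    rw [iv_mul, iv_mul, r6, Nat.cast_ofNat]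
    ring
  refine d_le (by positivity) ?_
  rw [iv_mul, iv_sub, iv_mul, iv_mul _ ONE, cpow, e, e, e', iv_ONE, cE12, rho_eq _ _ y0,
    max_mul_of_nonneg _ _ (by positivity : (0 : ℝ) ≤ 10 ^ 12), zero_mul]
  refine max_le ?_ (by positivity)
  generalize T * u - Real.exp (-(u * T)) + 1 = z at *
  have S0 := iv_pos
  generalize (2 : ℝ) ^ 80 = S at *
  have c0 : (0 : ℝ) ≤ c := Nat.cast_nonneg c
  have k1 : c * (r6 u0 ^ 2 + r6 y) ≤ z * S * (u ^ 2 + r6 y) := by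
    gcongr
    exact c0.trans hc
  have k2 : u ^ 2 * S ≤ r6 u1 ^ 2 * S := by gcongr
  calc _ ≤ (z * (u ^ 2 + r6 y) - 2 * u ^ 2) / (u ^ 2 + r6 y) ^ 2 * S *
        ((u ^ 2 + r6 y) * 10 ^ 12) ^ 2 := by
        have k3 : ∀ a b : ℝ, b ≠ 0 → a / b ^ 2 * S * (b * 10 ^ 12) ^ 2 = a * S * 10 ^ 24 :=
          fun a b hb => by field_simp
        rw [k3 _ _ (by positivity)]
        linarith
    _ ≤ max ((z * (u ^ 2 + r6 y) - 2 * u ^ 2) / (u ^ 2 + r6 y) ^ 2) 0 * S *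
        ((u ^ 2 + r6 y) * 10 ^ 12) ^ 2 := by gcongr; exact le_max_left _ _
    _ ≤ _ := by gcongr

theorem c2Lo_le (T u0 : ℕ) {u : ℝ} (h : r6 u0 ≤ u) :
    (c2Lo T u0 : ℝ) ≤ (r6 T * u - Real.exp (-(u * r6 T)) + 1) * 2 ^ 80 := by
  have t0 := r6_nonneg T
  have h1 := le_nHi (u0.mul T)
  have h2 := iv_div_le ((u0.mul T).mul ONE) E12
  have h3 : r6 u0 * r6 T ≤ u * r6 T := by gcongr
  have h4 : Real.exp (-(u * r6 T)) ≤ 1 :=
    Real.exp_le_one_iff.2 (neg_nonpos.2 ((mul_nonneg (r6_nonneg u0) t0).trans h3))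
  have h5 := mul_le_mul_of_nonneg_right (Real.exp_le_exp.2 (neg_le_neg h3)) iv_pos.le
  rw [iv_mul, iv_ONE, mul_div_right_comm] at h2
  rw [← r6_mul] at h1 h2
  rw [c2Lo, iv_sub, iv_add, iv_ONE]
  have h6 := mul_le_mul_of_nonneg_right h3 iv_pos.le
  refine max_le (by linarith) (mul_nonneg ?_ iv_pos.le)
  nlinarith [mul_nonneg (r6_nonneg u0) t0]

theorem capH_le (T l a b : ℕ) {A y1 y0 : ℕ} (hA : 0 < A) (h1 : 0 < y1) (h0 : 0 < y0) {x : ℝ}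
    (h : r6 l ≤ x) (ha : r6 a ≤ x) (hb : x ≤ r6 b) : (capH T l A y1 y0 a b : ℝ) ≤
      max (2 * min (rho (r6 T) (x - r6 l) (r6 y1)) (rho (r6 T) (x - r6 l) (r6 y0)) / r6 A) 0 *
        2 ^ 80 := by
  have a0 := r6_pos hA
  have k0 : r6 (a.sub l) ≤ x - r6 l := by
    rw [r6_sub']
    exact max_le (by linarith) (by linarith)
  have k1 : x - r6 l ≤ r6 (b.sub l) := by
    rw [r6_sub']
    exact le_max_of_le_left (by linarith)
  have k2 := rhoLo_le h1 k0 k1 (c2Lo_le T _ k0)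
  have k3 := rhoLo_le h0 k0 k1 (c2Lo_le T _ k0)
  refine d_le (by positivity) ?_
  rw [iv_mul, iv_mul, iv_nmin, cE6, ← le_div_iff₀ (by positivity), mul_div_assoc, ← r6,
    Nat.cast_ofNat]
  have key : ∀ (p : ℝ) (z : ℝ), p ≤ max z 0 * 2 ^ 80 →
      p * 2 ≤ max (2 * z / r6 A) 0 * 2 ^ 80 * r6 A := fun p z hp => by
    rcases le_total z 0 with k | k
    · rw [max_eq_right k, zero_mul] at hp
      exact (show p * 2 ≤ 0 by linarith).trans (by positivity)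
    · rw [max_eq_left k] at hp
      rw [max_eq_left (by positivity), mul_right_comm, div_mul_cancel₀ _ a0.ne']
      linarith
  refine key _ _ ?_
  rcases le_total (rho (r6 T) (x - r6 l) (r6 y1)) (rho (r6 T) (x - r6 l) (r6 y0)) with k | k
  · rw [min_eq_left k]
    exact (min_le_left _ _).trans k2
  · rw [min_eq_right k]
    exact (min_le_right _ _).trans k3

theorem MD.ok_nat {d : MD} {L ph ph' : ℕ} (h : d.ok L ph ph' = true) : 0 < d.w ∧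
    d.w * 2 + ph' ≤ d.u0 ∧ d.u0 < d.u1 ∧ d.u1 < d.u ∧ d.u < d.v ∧ d.v + d.w + ph ≤ d.x0 ∧
    d.x0 < d.x1 ∧ 0 < d.sg ∧ d.x1 * 2 ≤ L := by
  simp only [MD.ok, Bool.and_eq_true, Nat.blt_eq, Nat.ble_eq, and_assoc] at h
  exact h

theorem MD.ok_real {d : MD} {L ph ph' : ℕ} (h : d.ok L ph ph' = true) :
    d.p.ok (r6 ph) (r6 ph') ∧ 2 * d.p.x1 ≤ r6 L := by
  obtain ⟨a1, a2, a3, a4, a5, a6, a7, a8, a9⟩ := MD.ok_nat h
  have e : ∀ n : ℕ, r6 (n * 2) = 2 * r6 n := fun n => by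
    rw [r6, r6]
    push_cast
    ring
  refine ⟨⟨r6_pos a1, ?_, r6_lt.2 a3, r6_lt.2 a4, r6_lt.2 a5, ?_, r6_lt.2 a7, r6_pos a8⟩, ?_⟩
  · exact (by rw [← e, ← r6_add]; exact r6_le.2 a2 : 2 * r6 d.w + r6 ph' ≤ r6 d.u0)
  · exact (by rw [← r6_add, ← r6_add]; exact r6_le.2 a6 : r6 d.v + r6 d.w + r6 ph ≤ r6 d.x0)
  · exact (by rw [← e]; exact r6_le.2 a9 : 2 * r6 d.x1 ≤ r6 L)

theorem le_eE {b p q : ℕ} (h : p < q) (hb : b.mul q ≤ BIG) :
    (Real.exp (r6 b * r6 q) + Real.exp (r6 b * r6 p)) / (r6 q - r6 p) * 2 ^ 80 ≤ eE b p q := by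
  refine le_d (Nat.sub_pos_of_lt h) ?_
  have h1 := le_eHi hb
  have h2 := le_eHi (n := b.mul p) ((Nat.mul_le_mul_left b h.le).trans hb)
  have h3 := (r6_pos (n := q.sub p) (Nat.sub_pos_of_lt h)).ne'
  rw [← r6_mul] at h1 h2
  rw [iv_mul, iv_add, cE6, ← r6_sub h.le, ← div_le_iff₀ (by positivity), mul_div_assoc, ← r6,
    mul_right_comm, div_mul_cancel₀ _ h3]
  linarith

theorem MD.lo_le {d : MD} {L ph ph' : ℕ} (h : d.ok L ph ph' = true) (d0 a : ℕ)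
    (hb : (d.sg.add (a.mul 2)).mul d.x1 ≤ BIG) :
    (d.lo ph d0 a : ℝ) ≤ d.p.m (r6 ph) (r6 d.lmin) (r6 a) / (1 + r6 d0) * 2 ^ 80 := by
  obtain ⟨a1, a2, a3, a4, a5, a6, a7, a8, a9⟩ := MD.ok_nat h
  have b1 := le_eE a7 hb
  have b2 := le_eE a3 ((Nat.mul_le_mul_left (d.sg.add (a.mul 2)) (by omega)).trans hb)
  have b3 := sub_le (eLo_le (d.sg.mul d.v)) (le_eHi (n := d.sg.mul d.u)
    ((Nat.mul_le_mul (Nat.le_add_right _ _) (by omega)).trans hb))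
  have e : r6 (d.sg.add (a.mul 2)) = r6 d.sg + 2 * r6 a := by
    rw [r6_add, r6, r6, r6, iv_mul, Nat.cast_ofNat]
    ring
  have s0 := r6_pos a8
  have hK : 0 ≤ Real.exp (r6 d.sg * r6 d.v) - Real.exp (r6 d.sg * r6 d.u) :=
    sub_nonneg.2 (Real.exp_le_exp.2 (mul_le_mul_of_nonneg_left (r6_le.2 a5.le) s0.le))
  rw [← r6_mul, ← r6_mul, max_eq_left hK] at b3
  rw [e] at b1 b2
  have c1 := sub_pos.2 (r6_lt.2 a7)
  have c2 := sub_pos.2 (r6_lt.2 a3)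
  have hE : 0 < d.p.E (r6 d.sg + 2 * r6 a) := by
    unfold MP.E MD.p
    positivity
  have b4 : d.p.E (r6 d.sg + 2 * r6 a) * 2 ^ 80 ≤ _ := (add_mul _ _ _).trans_le (add_le_add b1 b2)
  have m : d.p.m (r6 ph) (r6 d.lmin) (r6 a) = r6 d.w * (r6 d.sg + r6 a + r6 d.lmin) *
      (Real.exp (r6 d.sg * r6 d.v) - Real.exp (r6 d.sg * r6 d.u)) /
      (d.p.E (r6 d.sg + 2 * r6 a) * (r6 ph / 2 + 1 / (r6 d.sg + r6 a))) := rfl
  rw [m]
  generalize d.p.E (r6 d.sg + 2 * r6 a) = E at *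
  generalize Real.exp (r6 d.sg * r6 d.v) - Real.exp (r6 d.sg * r6 d.u) = K at *
  have S0 := iv_pos
  have g0 : (0 : ℝ) < d.sg := Nat.cast_pos.2 a8
  unfold r6
  refine d_le (by positivity) ?_
  simp only [iv_mul, iv_add, iv_ONE, cE6, cE12, Nat.cast_ofNat]
  generalize (2 : ℝ) ^ 80 = S at *
  calc _ ≤ d.w * (d.sg + a + d.lmin) * (K * S) * S * 2 * (d.sg + a) := by gcongr
    _ = d.w / 10 ^ 6 * (d.sg / 10 ^ 6 + a / 10 ^ 6 + d.lmin / 10 ^ 6) * K /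
        (E * (ph / 10 ^ 6 / 2 + 1 / (d.sg / 10 ^ 6 + a / 10 ^ 6))) / (1 + d0 / 10 ^ 6) * S *
        (E * S * (ph * (d.sg + a) + 10 ^ 12 * 2) * (10 ^ 6 + d0)) := by
      field_simp
    _ ≤ _ := by gcongr

theorem Con.w_nonneg {L ph : ℕ} (d0 : ℕ) {c : Con} (h : c.Pos L ph) (x : ℝ) : 0 ≤ c.w ph d0 x := by
  cases c with
  | g T l b G A C => exact wt_nonneg (r6_nonneg _) _ _ _ _
  | h d => exact wt_nonneg (r6_nonneg _) _ _ _ _
  | m d =>
    obtain ⟨ph', h⟩ := h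
    show 0 ≤ ite _ _ _
    split_ifs with hx
    · exact div_nonneg (m_mono (r6_nonneg _) (r6_nonneg _) (MD.ok_real h).1 (r6_nonneg _)
        (MD.ok_real h).2 ((r6_nonneg _).trans hx) le_rfl).1 (by linarith [r6_nonneg d0])
    · exact le_rfl

theorem r6_E6 : r6 E6 = 1 := by rw [r6, cE6, div_self (by positivity)]

theorem ble_false {l b : ℕ} {x : ℝ} (h : r6 l ≤ x) (h' : x < r6 b) : Nat.ble b l = false :=
  Bool.eq_false_iff.2 fun e => absurd (r6_le.2 (Nat.le_of_ble_eq_true e)) (by linarith)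

theorem lowG (ph d0 T l b' C b : ℕ) {G A : ℕ} (hG : 0 < G) (hA : 0 < A) {x : ℝ} (h1 : x < r6 b) :
    (wv G A C ((rrLo T b l).sub (phT ph d0 E6)) (cond (Nat.ble b l) TWO (capG T l b' b)) : ℝ) ≤
      (Con.g T l b' G A C).w ph d0 x * 2 ^ 80 := by
  have h2 := sub_le (rrLo_le T b l (x := x - r6 l) (by linarith)) (le_phT ph d0 E6)
  rw [r6_E6, one_mul, ← sub_sub] at h2
  refine wv_le hG hA C h2 ?_
  split_ifs with k
  · rw [ble_false k h1, cond_false]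
    exact Or.inl (capG_le T l b' b k h1.le)
  · exact Or.inr le_rfl

theorem lowH (ph d0 a b : ℕ) {d : HD} (h : 0 < d.G ∧ 0 < d.A ∧ 0 < d.y1 ∧ 0 < d.y0) {x : ℝ}
    (h0 : r6 a ≤ x) (h1 : x < r6 b) :
    (wv d.G d.A d.C ((jjLo (d.N.mul d.hh) d.l b).sub (phT ph d0 (d.N.mul d.hh)))
      (cond (Nat.ble b d.l) TWO (capH (d.N.mul d.hh) d.l d.A d.y1 d.y0 a b)) : ℝ) ≤
      (Con.h d).w ph d0 x * 2 ^ 80 := by
  have h2 := sub_le (jjLo_le (d.N.mul d.hh) d.l b (x := r6 d.l - x) (by linarith))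
    (le_phT ph d0 (d.N.mul d.hh))
  rw [← sub_sub] at h2
  refine wv_le h.1 h.2.1 _ h2 ?_
  split_ifs with k
  · rw [ble_false k h1, cond_false]
    exact Or.inl (capH_le _ _ a b h.2.1 h.2.2.1 h.2.2.2 k h0 h1.le)
  · exact Or.inr le_rfl

theorem lowM {L ph ph' : ℕ} (d0 a : ℕ) {d : MD} (h : d.ok L ph ph' = true) (e : d.lmin ≤ a)
    (e' : (d.sg.add (a.mul 2)).mul d.x1 ≤ BIG) {x : ℝ} (hx : r6 a ≤ x) :
    (d.lo ph d0 a : ℝ) * Real.exp (-(r6 L * (x - r6 a))) ≤ (Con.m d).w ph d0 x * 2 ^ 80 := by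
  have h1 := MD.lo_le h d0 a e'
  have h2 := (m_mono (r6_nonneg _) (r6_nonneg _) (MD.ok_real h).1 (r6_nonneg d.lmin)
    (MD.ok_real h).2 (r6_nonneg a) hx).2
  have h3 : 0 < 1 + r6 d0 := by linarith [r6_nonneg d0]
  rw [Con.w, if_pos ((r6_le.2 e).trans hx)]
  refine (mul_le_mul_of_nonneg_right h1 (Real.exp_pos _).le).trans ?_
  rw [mul_right_comm, div_mul_eq_mul_div]
  gcongr
  rw [mul_sub, neg_sub, sub_eq_add_neg, add_comm, Real.exp_add, ← mul_assoc,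
    ← le_div_iff₀ (Real.exp_pos _), div_eq_mul_inv, ← Real.exp_neg]
  exact h2

theorem cond_le {c : Bool} {p q : ℕ} {x : ℝ} (hp : c = true → (p : ℝ) ≤ x)
    (hq : c = false → (q : ℝ) ≤ x) : ((cond c p q : ℕ) : ℝ) ≤ x := by
  cases c
  exacts [hq rfl, hp rfl]

theorem Con.low {L ph : ℕ} (d0 : ℕ) {c : Con} (h : c.Pos L ph) {a b : ℕ} {x : ℝ} (hx : In a b x) :
    (c.vS ph d0 a b : ℝ) + c.vM ph d0 a * Real.exp (-(r6 L * (x - r6 a))) ≤
      c.w ph d0 x * 2 ^ 80 := by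
  have hw := mul_nonneg (Con.w_nonneg d0 h x) iv_pos.le
  have hb : Nat.ble b 0 = false → x < r6 b := fun e => hx.2.resolve_left fun e' => by
    rw [e'] at e
    exact absurd e (by decide)
  cases c with
  | g T l b' G A C =>
    rw [show Con.vM ph d0 a (.g T l b' G A C) = 0 from rfl, Nat.cast_zero, zero_mul, add_zero, Con.vS]
    exact cond_le (fun _ => Nat.cast_zero.trans_le hw) fun e =>
      lowG ph d0 T l b' C b h.1 h.2 (hb e)
  | h d =>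
    rw [show Con.vM ph d0 a (.h d) = 0 from rfl, Nat.cast_zero, zero_mul, add_zero, Con.vS]
    exact cond_le (fun _ => Nat.cast_zero.trans_le hw) fun e => lowH ph d0 a b h hx.1 (hb e)
  | m d =>
    obtain ⟨ph', h⟩ := h
    rw [show Con.vS ph d0 a b (.m d) = 0 from rfl, Nat.cast_zero, zero_add, Con.vM,
      ← le_div_iff₀ (Real.exp_pos _)]
    refine cond_le (fun e => ?_) fun _ => Nat.cast_zero.trans_le (by positivity)
    rw [Bool.and_eq_true, Nat.ble_eq, Nat.ble_eq] at e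
    exact (le_div_iff₀ (Real.exp_pos _)).2 (lowM d0 a h e.1 e.2 hx.1)

end Pool.Agent.Lib.MP_778b46_nt.GX.Ck
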