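import Pool.Agent.Lib.MP_778b46_nt.GX.CkC
import Pool.Agent.Lib.MP_778b46_nt.GX.Ce1G
import Pool.Agent.Lib.MP_778b46_nt.GX.Ce2

/- Soundness of the checker. -/

namespace Pool.Agent.Lib.MP_778b46_nt.GX.Ck

open Finset
open Pool.Agent.Lib.MP_6cad4c_al

noncomputable def r12 (n : ℕ) : ℝ := n / 10 ^ 12

theorem r12_nonneg (n : ℕ) : 0 ≤ r12 n := by unfold r12; positivity

theorem r12_mul (a b : ℕ) : r12 (a.mul b) = r6 a * r6 b := by rw [r6_mul, cE12, r12]

theorem r12_add (a b : ℕ) : r12 (a.add b) = r12 a + r12 b := by rw [r12, r12, r12, iv_add, add_div]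

theorem r12_le {a b : ℕ} (h : a ≤ b) : r12 a ≤ r12 b := by
  unfold r12
  gcongr

theorem r12_lt {a b : ℕ} (h : a < b) : r12 a < r12 b := by
  unfold r12
  gcongr

theorem r12_E6 (a : ℕ) : r12 (a.mul E6) = r6 a := by rw [r12_mul, r6_E6, mul_one]

theorem r12_zero : r12 0 = 0 := by rw [r12, Nat.cast_zero, zero_div]

theorem r12_E12 : r12 E12 = 1 := by rw [r12, cE12, div_self (by positivity)]

/-- The family part. -/
noncomputable def fF (g : Con → ℝ) (t : ℕ) (F : List (ℕ × Con)) : ℝ :=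
  (F.map fun e => if e.2.line ≤ t then r12 e.1 * g e.2 else 0).sum

/-- The class part. -/
noncomputable def fC (g : Con → ℝ) (C : List Con) (th : List (ℕ × ℕ)) : ℝ :=
  (th.map fun e => r12 e.2 * g (C.getD e.1 dfl)).sum

theorem term_le {y p q : ℕ} {s g : ℝ} (h : (p : ℝ) + q * s ≤ g * 2 ^ 80) :
    ((y.mul p : ℕ) : ℝ) + (y.mul q : ℕ) * s ≤ r12 y * g * 10 ^ 12 * 2 ^ 80 := by
  rw [iv_mul, iv_mul, mul_assoc, ← mul_add]
  refine (mul_le_mul_of_nonneg_left h (Nat.cast_nonneg y)).trans_eq ?_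
  rw [r12]
  ring

theorem sumF_le {v v' : Con → ℕ} {g : Con → ℝ} {s : ℝ} (t : ℕ) (F : List (ℕ × Con))
    (h : ∀ e ∈ F, (v e.2 : ℝ) + v' e.2 * s ≤ g e.2 * 2 ^ 80) :
    (sumF v t F : ℝ) + sumF v' t F * s ≤ fF g t F * 10 ^ 12 * 2 ^ 80 := by
  induction F with
  | nil => simp [sumF, fF]
  | cons e F ih =>
    have h1 := ih fun e he => h e (List.mem_cons_of_mem _ he)
    have h2 := term_le (y := e.1) (h e List.mem_cons_self)
    have e1 : ∀ v : Con → ℕ, sumF v t (e :: F) =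
        cond (Nat.ble e.2.line t) ((e.1.mul (v e.2)).add (sumF v t F)) (sumF v t F) := fun _ => rfl
    rw [e1, e1, fF, List.map_cons, List.sum_cons, ← fF]
    split_ifs with k
    · rw [Nat.ble_eq_true_of_le k, cond_true, cond_true, iv_add, iv_add]
      linarith
    · rw [Bool.eq_false_iff.2 fun e' => k (Nat.le_of_ble_eq_true e'), cond_false, cond_false,
        zero_add]
      exact h1

theorem sumC_le {v v' : Con → ℕ} {g : Con → ℝ} {s : ℝ} (C : List Con) (th : List (ℕ × ℕ))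
    (h : ∀ e ∈ th, (v (C.getD e.1 dfl) : ℝ) + v' (C.getD e.1 dfl) * s ≤ g (C.getD e.1 dfl) * 2 ^ 80) :
    (sumC v C th : ℝ) + sumC v' C th * s ≤ fC g C th * 10 ^ 12 * 2 ^ 80 := by
  induction th with
  | nil => simp [sumC, fC]
  | cons e F ih =>
    have h1 := ih fun e he => h e (List.mem_cons_of_mem _ he)
    have h2 := term_le (y := e.2) (h e List.mem_cons_self)
    have e1 : ∀ v : Con → ℕ, sumC v C (e :: F) = (e.2.mul (v (C.getD e.1 dfl))).add (sumC v C F) :=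
      fun _ => rfl
    rw [e1, e1, fC, List.map_cons, List.sum_cons, ← fC, iv_add, iv_add]
    linarith

theorem sumT_eq (th : List (ℕ × ℕ)) : r12 (sumT th) = (th.map fun e => r12 e.2).sum := by
  induction th with
  | nil => exact r12_zero
  | cons e F ih =>
    rw [show sumT (e :: F) = e.2.add (sumT F) from rfl, r12_add, ih, List.map_cons, List.sum_cons]

theorem two_le {p e s nu k W M : ℕ} (h : two p e s nu k W M = true) {E z : ℝ}
    (hE : E * 2 ^ 80 ≤ e) (hs : (s : ℝ) ≤ z * 2 ^ 80) (hz : z ≤ 1) :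
    (r12 p * (E * z) + r12 nu - r12 k) * 10 ^ 12 * 2 ^ 80 ≤ W + M * z := by
  rw [two, Bool.and_eq_true] at h
  have h1 := ble h.1
  have h2 := ble h.2
  simp only [iv_add, iv_mul, iv_ONE, iv_TWO] at h1 h2
  have S0 := iv_pos
  generalize (2 : ℝ) ^ 80 = S at *
  have s0 : (0 : ℝ) ≤ s := Nat.cast_nonneg s
  have z0 : 0 ≤ z := nonneg_of_mul_nonneg_left (s0.trans hs) S0
  have h3 : p * e * z + nu * S ≤ k * S + W + M * z := by
    rcases le_total ((p : ℝ) * e) M with k1 | k1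
    · refine le_of_mul_le_mul_right ?_ S0
      nlinarith [mul_le_mul_of_nonneg_left hs (sub_nonneg.2 k1)]
    · nlinarith [mul_le_mul_of_nonneg_left hz (sub_nonneg.2 k1)]
  have h4 := mul_le_mul_of_nonneg_right (mul_le_mul_of_nonneg_left hE (Nat.cast_nonneg p)) z0
  unfold r12
  linarith

theorem allC_spec {f : ℕ → ℕ → Bool} (xs : List ℕ) (a : ℕ) (h : allC f xs a = true) {x : ℝ}
    (hx : r6 a ≤ x) : ∃ a b, In a b x ∧ f a b = true := by
  induction xs generalizing a with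
  | nil => exact ⟨a, 0, ⟨hx, Or.inl rfl⟩, h⟩
  | cons b xs ih =>
    rw [show allC f (b :: xs) a = (f a b && allC f xs b) from rfl, Bool.and_eq_true] at h
    rcases lt_or_ge x (r6 b) with k | k
    exacts [⟨a, b, ⟨hx, Or.inr k⟩, h.1⟩, ih b h.2 k]

theorem chain_spec {f : Ch → ℕ → Bool} {g : Ch → Bool} {Q : ℝ → Prop}
    (hf : ∀ c u σ, f c u = true → r6 c.u ≤ σ → σ ≤ r6 u → Q σ)
    (hg : ∀ c σ, g c = true → r6 c.u ≤ σ → Q σ) (l : List Ch) (c : Ch)
    (h : chain f g l c = true) {σ : ℝ} (hσ : r6 c.u ≤ σ) : Q σ := by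
  induction l generalizing c with
  | nil => exact hg c σ h hσ
  | cons c' l ih =>
    rw [show chain f g (c' :: l) c = (f c c'.u && chain f g l c') from rfl, Bool.and_eq_true] at h
    rcases le_total σ (r6 c'.u) with k | k
    exacts [hf c _ σ h.1 hσ k, ih c' h.2 k]

variable {R : Row}

/-- All constraints have positive constants. -/
def Row.Pos (R : Row) : Prop := (∀ e ∈ R.F, e.2.Pos R.L R.ph) ∧ ∀ c ∈ R.C, c.Pos R.L R.ph

theorem thOK_spec {C : List Con} {t : ℕ} {th : List (ℕ × ℕ)} (h : thOK C t th = true) :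
    ∀ e ∈ th, e.1 < C.length ∧ (C.getD e.1 dfl).line ≤ t := fun e he => by
  simpa only [Bool.and_eq_true, Nat.blt_eq, Nat.ble_eq] using List.all_eq_true.1 h e he

theorem cell_spec (hR : R.Pos) {F : List (ℕ × Con)} (hF : F ⊆ R.F) {t t' : ℕ} {th : List (ℕ × ℕ)}
    (ht : thOK R.C t' th = true) {p nu k a b : ℕ} (h : R.cell F t th p nu k a b = true) {x : ℝ}
    (hx : In a b x) : r12 p * Real.exp (-(r6 R.L * x)) + r12 nu ≤
      r12 k + fF (fun c => c.w R.ph R.d0 x) t F + fC (fun c => c.w R.ph R.d0 x) R.C th := by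
  have L0 := r6_nonneg R.L
  have h1 := sumF_le (v := Con.vS R.ph R.d0 a b) (v' := Con.vM R.ph R.d0 a)
    (g := fun c => c.w R.ph R.d0 x) t F fun e he => Con.low R.d0 (hR.1 e (hF he)) hx
  have h2 := sumC_le (v := Con.vS R.ph R.d0 a b) (v' := Con.vM R.ph R.d0 a)
    (g := fun c => c.w R.ph R.d0 x) R.C th fun e he => Con.low R.d0 (hR.2 _ (by
    rw [List.getD_eq_getElem _ _ (thOK_spec ht e he).1]
    exact List.getElem_mem _)) hx
  have h3 := two_le h (z := Real.exp (-(r6 R.L * (x - r6 a)))) (le_nHi _)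
    (cond_le (fun _ => Nat.cast_zero.trans_le (by positivity)) fun e => by
      have k := hx.2.resolve_left fun e' => by
        rw [e'] at e
        exact absurd e (by decide)
      refine (nLo_le _).trans (mul_le_mul_of_nonneg_right (Real.exp_le_exp.2 ?_) iv_pos.le)
      rw [← r6_mul, r6_sub (r6_le.1 (hx.1.trans k.le)), neg_le_neg_iff]
      gcongr)
    (Real.exp_le_one_iff.2 (neg_nonpos.2 (mul_nonneg L0 (sub_nonneg.2 hx.1))))
  rw [← r6_mul, ← Real.exp_add, iv_add, iv_add,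
    show -(r6 R.L * r6 a) + -(r6 R.L * (x - r6 a)) = -(r6 R.L * x) by ring] at h3
  have S0 := iv_pos
  generalize (2 : ℝ) ^ 80 = S at *
  refine le_of_mul_le_mul_right (le_of_mul_le_mul_right ?_ S0) (by positivity : (0 : ℝ) < 10 ^ 12)
  linarith

theorem scan_spec (hR : R.Pos) {F : List (ℕ × Con)} (hF : F ⊆ R.F) {t t' : ℕ} {th : List (ℕ × ℕ)}
    (ht : thOK R.C t' th = true) {p nu lo hi : ℕ} (h : R.scan F t th p nu lo hi = true) {x : ℝ}
    (hl : r6 R.l ≤ x) (hx : r6 lo ≤ x) :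
    r12 p * Real.exp (-(r6 R.L * x)) + (if x < r6 hi then r12 nu else 0) ≤
      fF (fun c => c.w R.ph R.d0 x) t F + fC (fun c => c.w R.ph R.d0 x) R.C th := by
  obtain ⟨a, b, h1, h2⟩ := allC_spec _ _ h hl
  rw [Bool.or_eq_true, Bool.and_eq_true, Nat.blt_eq, Nat.ble_eq] at h2
  have h3 := cell_spec hR hF ht (h2.resolve_left fun e => by
    rcases h1.2 with k | k
    · omega
    · linarith [r6_le.2 e.2]) h1
  rw [r12_zero, zero_add] at h3
  refine le_trans (add_le_add le_rfl ?_) h3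
  split_ifs with k
  · rw [Nat.blt_eq.mpr (r6_lt.1 (h1.1.trans_lt k)), cond_true]
  · exact r12_nonneg _

theorem scanP_spec (hR : R.Pos) {F : List (ℕ × Con)} (hF : F ⊆ R.F) {t' : ℕ} {th : List (ℕ × ℕ)}
    (ht : thOK R.C t' th = true) {p k : ℕ} (h : R.scanP F th p k = true) {x : ℝ}
    (hl : r6 R.sa ≤ x) (hx : x ≤ r6 R.sb) :
    r12 p * Real.exp (-(r6 R.L * x)) + r12 (sumT th) ≤
      r12 k + fF (fun c => c.w R.ph R.d0 x) R.l F + fC (fun c => c.w R.ph R.d0 x) R.C th := by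
  obtain ⟨a, b, h1, h2⟩ := allC_spec _ _ h hl
  rw [Bool.or_eq_true, Nat.blt_eq] at h2
  exact cell_spec hR hF ht (h2.resolve_left fun e => by linarith [r6_lt.2 e, h1.1]) h1

noncomputable def Row.y (R : Row) (k : Fin R.F.length) : ℝ := r12 R.F[k.1].1

noncomputable def Row.lF (R : Row) (k : Fin R.F.length) : ℝ := r6 R.F[k.1].2.line

noncomputable def Row.wF (R : Row) (k : Fin R.F.length) : ℝ → ℝ := R.F[k.1].2.w R.ph R.d0

noncomputable def Row.lC (R : Row) (k : Fin R.C.length) : ℝ := r6 R.C[k.1].line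

noncomputable def Row.wC (R : Row) (k : Fin R.C.length) : ℝ → ℝ := R.C[k.1].w R.ph R.d0

theorem Phi_eq (R : Row) (t : ℕ) (x : ℝ) :
    Phi R.y R.lF R.wF (r6 t) x = fF (fun c => c.w R.ph R.d0 x) t R.F := by
  rw [Phi, sum_filter, fF, ← Fin.sum_univ_fun_getElem]
  refine sum_congr rfl fun k _ => ?_
  simp only [Row.lF, r6_le]
  rfl

theorem fF_nonneg (hR : R.Pos) (t : ℕ) (x : ℝ) : 0 ≤ fF (fun c => c.w R.ph R.d0 x) t R.F :=
  List.sum_nonneg fun z hz => by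
    obtain ⟨e, he, rfl⟩ := List.mem_map.1 hz
    split_ifs
    exacts [mul_nonneg (r12_nonneg _) (Con.w_nonneg _ (hR.1 e he) x), le_rfl]

theorem exists_th {t : ℕ} {th : List (ℕ × ℕ)} (h : thOK R.C t th = true) {c : ℝ} (hc : 0 ≤ c) :
    ∃ θ : Fin R.C.length → ℝ, (∀ m, 0 ≤ θ m) ∧ (∀ m, r6 t < R.lC m → θ m = 0) ∧
      ∑ m, θ m = c * r12 (sumT th) ∧
      ∀ x, ∑ m, θ m * R.wC m x = c * fC (fun c => c.w R.ph R.d0 x) R.C th := by
  have h' := thOK_spec h
  clear h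
  rw [sumT_eq]
  induction th with
  | nil => exact ⟨0, fun _ => le_rfl, fun _ _ => rfl, by simp, fun x => by simp [fC]⟩
  | cons e th ih =>
    obtain ⟨θ, h1, h2, h3, h4⟩ := ih fun e he => h' e (List.mem_cons_of_mem _ he)
    obtain ⟨k1, k2⟩ := h' e List.mem_cons_self
    rw [List.getD_eq_getElem _ _ k1] at k2
    refine ⟨fun m => (if m = ⟨e.1, k1⟩ then c * r12 e.2 else 0) + θ m, fun m => ?_,
      fun m hm => ?_, ?_, fun x => ?_⟩
    · have := r12_nonneg e.2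
      have := h1 m
      positivity
    · beta_reduce
      rw [h2 m hm, if_neg, add_zero]
      rintro rfl
      exact absurd (r6_le.2 k2) (not_le.2 hm)
    · rw [sum_add_distrib, h3, sum_ite_eq', if_pos (mem_univ _), List.map_cons, List.sum_cons,
        mul_add]
    · simp only [add_mul, ite_mul, zero_mul]
      rw [sum_add_distrib, h4, sum_ite_eq', if_pos (mem_univ _), fC, fC, List.map_cons,
        List.sum_cons, mul_add, List.getD_eq_getElem _ _ k1, mul_assoc]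
      rfl

theorem first_le {u n : ℕ} (h : Nat.ble (u.mul ONE) ((nLo (R.L.mul n)).mul E6) = true) :
    r6 u ≤ Real.exp (-(r6 R.L * r6 n)) := by
  have h1 := ble h
  have h2 := nLo_le (R.L.mul n)
  rw [iv_mul, iv_mul, iv_ONE, cE6] at h1
  rw [← r6_mul] at h2
  rw [r6, div_le_iff₀ (by positivity)]
  refine le_of_mul_le_mul_right ?_ iv_pos
  linarith

theorem top_eq {σ U : ℝ} (h : U < σ) :
    σ ^ 2 ≤ σ ^ 2 / (σ - U) * σ - σ ^ 2 / (σ - U) * U ∧ 0 ≤ σ ^ 2 / (σ - U) :=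
  ⟨by rw [← mul_sub, div_mul_cancel₀ _ (sub_pos.2 h).ne'], div_nonneg (sq_nonneg _) (sub_pos.2 h).le⟩

theorem ty_spec (hR : R.Pos) {lo hi : ℕ} (hlo : R.l ≤ lo) {l : List Ch}
    (h : R.tyOK lo hi l = true) {σ : ℝ} (h0 : 0 ≤ σ)
    (hσ : hi ≠ 0 → Real.exp (-(r6 R.L * r6 hi)) ≤ σ) :
    ∃ (p q ν : ℝ) (θ : Fin R.C.length → ℝ), (hi = 0 → ν = 0) ∧ 0 ≤ ν ∧ (∀ m, 0 ≤ θ m) ∧
      (∀ m, r6 lo < R.lC m → θ m = 0) ∧ σ ^ 2 ≤ p * σ - q ∧ ∑ m, θ m - ν ≤ q ∧
      ∀ x : ℝ, r6 lo ≤ x → p * Real.exp (-(r6 R.L * x)) + (if x < r6 hi then ν else 0) ≤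
        Phi R.y R.lF R.wF (r6 lo) x + ∑ m, θ m * R.wC m x := by
  cases l with
  | nil => exact absurd h (by simp [Row.tyOK])
  | cons c l =>
    rw [Row.tyOK, Bool.and_eq_true] at h
    have hn : ∀ c, hi = 0 → r12 (nuOf hi c) = 0 := fun c e => by
      rw [e]
      exact r12_zero
    refine chain_spec (Q := fun σ => ∃ (p q ν : ℝ) (θ : Fin R.C.length → ℝ), (hi = 0 → ν = 0) ∧
      0 ≤ ν ∧ (∀ m, 0 ≤ θ m) ∧ (∀ m, r6 lo < R.lC m → θ m = 0) ∧ σ ^ 2 ≤ p * σ - q ∧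
      ∑ m, θ m - ν ≤ q ∧ ∀ x : ℝ, r6 lo ≤ x → p * Real.exp (-(r6 R.L * x)) +
        (if x < r6 hi then ν else 0) ≤ Phi R.y R.lF R.wF (r6 lo) x + ∑ m, θ m * R.wC m x)
      (fun c u σ h h1 h2 => ?_) (fun c σ h h1 => ?_) l c h.2 ?_
    · simp only [Bool.and_eq_true, Nat.ble_eq] at h
      obtain ⟨θ, a1, a2, a3, a4⟩ := exists_th h.1.1 zero_le_one
      have a5 := r12_le h.1.2
      rw [r12_add, r12_mul] at a5
      refine ⟨r6 c.u + r6 u, r6 c.u * r6 u, _, θ, hn c, r12_nonneg _, a1, a2, by nlinarith,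
        by linarith, fun x hx => ?_⟩
      have a6 := scan_spec hR (fun _ e => e) h.1.1 h.2 ((r6_le.2 hlo).trans hx) hx
      rwa [r12_E6, r6_add, ← Phi_eq, ← one_mul (fC _ _ _), ← a4] at a6
    · simp only [Bool.and_eq_true, Nat.blt_eq] at h
      have a5 := r12_lt h.1.2
      rw [r12_add, r12_E6] at a5
      obtain ⟨b1, b2⟩ := top_eq (σ := σ) (U := r12 (sumT c.th) - r12 (nuOf hi c)) (by linarith)
      obtain ⟨θ, a1, a2, a3, a4⟩ := exists_th h.1.1 b2
      refine ⟨_, _, _ * r12 (nuOf hi c), θ, fun e => by rw [hn c e, mul_zero],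
        mul_nonneg b2 (r12_nonneg _), a1, a2, b1, by rw [a3, mul_sub], fun x hx => ?_⟩
      have a6 := mul_le_mul_of_nonneg_left
        (scan_spec hR (List.nil_subset _) h.1.1 h.2 ((r6_le.2 hlo).trans hx) hx) b2
      rw [r12_E12, one_mul, fF, List.map_nil, List.sum_nil, zero_add, mul_add, mul_ite,
        mul_zero] at a6
      rw [a4, Phi_eq]
      linarith [fF_nonneg hR lo x]
    · rcases eq_or_ne hi 0 with e | e
      · have a1 := ble h.1
        rw [e, show Nat.ble 0 0 = true from rfl, cond_true, iv_mul, iv_ONE, Nat.cast_zero] at a1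
        have a2 : (c.u : ℝ) ≤ 0 := nonpos_of_mul_nonpos_left a1 iv_pos
        exact (div_nonpos_of_nonpos_of_nonneg a2 (by positivity)).trans h0
      · have a1 := h.1
        rw [Bool.eq_false_iff.2 fun e' => e (Nat.le_zero.1 (Nat.le_of_ble_eq_true e')),
          cond_false] at a1
        exact (first_le a1).trans (hσ e)

theorem pr_spec (hR : R.Pos) {l : List Ch} (h : R.prOK l = true) :
    PrimOK (r6 R.L) R.y R.lF R.wF R.lC R.wC (r6 R.sa) (r6 R.sb) (r6 R.l) (r12 R.y0) := by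
  cases l with
  | nil => exact absurd h (by simp [Row.prOK])
  | cons c l =>
    rw [Row.prOK, Bool.and_eq_true] at h
    intro σ hσ
    have z0 : ∀ x, r6 R.l ≤ x → r6 0 ≤ x := fun x hx => (r6_le.2 (Nat.zero_le _)).trans hx
    refine chain_spec (Q := fun σ => ∃ (p q : ℝ) (θ : Fin R.C.length → ℝ), (∀ m, 0 ≤ θ m) ∧
      (∀ m, r6 R.sa < R.lC m → θ m = 0) ∧ σ ^ 2 ≤ p * σ - q ∧
      (∀ x : ℝ, r6 R.l ≤ x → p * Real.exp (-(r6 R.L * x)) ≤
        Phi R.y R.lF R.wF (r6 R.sa) x + ∑ m, θ m * R.wC m x) ∧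
      ∀ x : ℝ, r6 R.sa ≤ x → x ≤ r6 R.sb → p * Real.exp (-(r6 R.L * x)) + ∑ m, θ m ≤
        q + r12 R.y0 + Phi R.y R.lF R.wF (r6 R.l) x + ∑ m, θ m * R.wC m x)
      (fun c u σ h h1 h2 => ?_) (fun c σ h h1 => ?_) l c h.2 ((first_le h.1).trans hσ)
    · simp only [Bool.and_eq_true] at h
      obtain ⟨θ, a1, a2, a3, a4⟩ := exists_th h.1.1 zero_le_one
      refine ⟨r6 c.u + r6 u, r6 c.u * r6 u, θ, a1, a2, by nlinarith, fun x hx => ?_,
        fun x hx hx' => ?_⟩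
      · have a6 := scan_spec hR (fun _ e => e) h.1.1 h.1.2 hx (z0 x hx)
        rwa [r12_E6, r6_add, ← Phi_eq, ← one_mul (fC _ _ _), ← a4, r12_zero, ite_self,
          add_zero] at a6
      · have a6 := scanP_spec hR (fun _ e => e) h.1.1 h.2 hx hx'
        rwa [r12_E6, r6_add, ← Phi_eq, ← one_mul (fC _ _ _), ← a4, r12_add, r12_mul,
          ← one_mul (r12 (sumT _)), ← a3] at a6
    · simp only [Bool.and_eq_true, Nat.blt_eq] at h
      have a5 := r12_lt h.1.1.2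
      rw [r12_E6] at a5
      obtain ⟨b1, b2⟩ := top_eq (σ := σ) (U := r12 c.nu) (by linarith)
      obtain ⟨θ, a1, a2, a3, a4⟩ := exists_th h.1.1.1 b2
      refine ⟨_, _, θ, a1, a2, b1, fun x hx => ?_, fun x hx hx' => ?_⟩
      · have a6 := mul_le_mul_of_nonneg_left
          (scan_spec hR (List.nil_subset _) h.1.1.1 h.1.2 hx (z0 x hx)) b2
        rw [r12_E12, one_mul, fF, List.map_nil, List.sum_nil, zero_add, r12_zero, ite_self,
          add_zero] at a6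
        rw [a4, Phi_eq]
        linarith [fF_nonneg hR R.sa x]
      · have a6 := mul_le_mul_of_nonneg_left
          (scanP_spec hR (List.nil_subset _) h.1.1.1 h.2 hx hx') b2
        rw [r12_E12, one_mul, fF, List.map_nil, List.sum_nil, add_zero, mul_add, mul_add] at a6
        rw [a4, a3, Phi_eq]
        linarith [fF_nonneg hR R.l x, r12_nonneg R.y0]

theorem gOK_spec {T l b G A d0 : ℕ} (h : gOK T l b G A d0 = true) : 1 / 2 ≤ r6 T ∧ r6 T ≤ 8 ∧
    r6 b ≤ r6 l ∧ r6 l ≤ 5 ∧ r6 b * r6 T ≤ 2 ∧ 0 < G ∧ 0 < A ∧ b.mul T ≤ BIG ∧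
    RR (r6 T) (-(2 * r6 l - r6 b)) 0 + r6 d0 ≤ r6 G := by
  simp only [gOK, Bool.and_eq_true, Nat.blt_eq, and_assoc] at h
  obtain ⟨a1, a2, a3, a4, a5, a6, a7, a8⟩ := h
  replace a8 := ble a8
  rw [Nat.ble_eq] at a1 a2 a3 a4 a5
  have e2 : E12.mul 2 = 2000000000000 := rfl
  have b1 := le_rrHi (T := T) (n := (l.mul 2).sub b) (by
    refine (Nat.mul_le_mul (show l * 2 - b ≤ 10000000 by omega) a2).trans ?_
    norm_num [BIG])
  have b2 : r6 ((l.mul 2).sub b) = 2 * r6 l - r6 b := by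
    rw [r6_sub (a := l.mul 2) (show b ≤ l * 2 by omega), r6, r6, r6, iv_mul, Nat.cast_ofNat]
    ring
  refine ⟨le_of_eq_of_le (by norm_num [r6]) (r6_le.2 a1), (r6_le.2 a2).trans_eq (by norm_num [r6]),
    r6_le.2 a3, (r6_le.2 a4).trans_eq (by norm_num [r6]), ?_, a6, a7,
    a5.trans (by rw [e2]; norm_num [BIG]), ?_⟩
  · rw [← r12_mul]
    exact (r12_le a5).trans_eq (by rw [e2]; norm_num [r12])
  · rw [b2] at b1
    rw [iv_add, iv_mul, iv_mul, iv_mul, iv_ONE, cE6] at a8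
    refine le_of_mul_le_mul_right ?_ iv_pos
    unfold r6 at *
    linarith

theorem conF_pos {c : Con} (h : R.conF c = true) : c.Pos R.L R.ph := by
  cases c with
  | g T l b G A C =>
    simp only [Row.conF, Bool.and_eq_true] at h
    exact ⟨(gOK_spec h.1.1.1).2.2.2.2.2.1, (gOK_spec h.1.1.1).2.2.2.2.2.2.1⟩
  | h d =>
    simp only [Row.conF, Bool.and_eq_true, Nat.blt_eq] at h
    exact ⟨h.1.1.1.2, h.1.1.2, h.1.2, h.2⟩
  | m d => exact ⟨_, h⟩

theorem conC_pos {c : Con} (h : R.conC c = true) : c.Pos R.L R.ph := by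
  cases c with
  | g T l b G A C =>
    simp only [Row.conC, Bool.and_eq_true] at h
    exact ⟨(gOK_spec h.1.1).2.2.2.2.2.1, (gOK_spec h.1.1).2.2.2.2.2.2.1⟩
  | h d => exact absurd h (by simp [Row.conC])
  | m d => exact ⟨_, h⟩

theorem r6_zero : r6 0 = 0 := by rw [r6, Nat.cast_zero, zero_div]

theorem conF_ev (hd : 0 < R.d0) {c : Con} (h : R.conF c = true) {psF : List MP} (psC : List MP)
    (hp : ∀ p ∈ c.ps, p ∈ psF) : Ev (r6 R.ph) psF psC fun _ _ _ _ _ _ D =>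
      (∀ i, r6 R.sa ≤ D.lam i) → D.Fam (r6 c.line) (c.w R.ph R.d0) := by
  cases c with
  | g T l b G A C =>
    simp only [Row.conF, Bool.and_eq_true] at h
    obtain ⟨a1, a2, a3, a4, a5, a6, a7, a8, a9⟩ := gOK_spec h.1.1.1
    have b1 := ble h.1.2
    have b2 := ble h.2
    have b3 := le_rrHi a8
    simp only [iv_add, iv_mul, iv_ONE, cE6, Nat.cast_ofNat] at b1 b2
    refine famG psF psC (r6_nonneg _) a1 a2 (r6_nonneg b) a3 a4 a5
      (r6_le.2 (Nat.le_of_ble_eq_true h.1.1.2)) (r6_pos hd) a9 ?_ ?_ (r6_pos a7)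
      (wtG _ _ T l b C a6 a7 _)
    · unfold r6
      linarith
    · refine le_of_mul_le_mul_right ?_ iv_pos
      generalize RR (r6 T) (-r6 b) 0 = z at *
      unfold r6
      linarith
  | h d =>
    simp only [Row.conF, Bool.and_eq_true, Nat.blt_eq] at h
    exact HD.sound h.1.1.1.1 psF psC (wtH _ _ d h.1.1.1.2 h.1.1.2 h.1.2 _)
  | m d =>
    rw [Con.line, r6_zero]
    exact (famM psC (hp _ List.mem_cons_self) (r6_pos hd) (r6_nonneg d.lmin)).mono
      fun _ _ _ _ _ _ _ _ _ _ h _ => h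

theorem conC_ev (hd : 0 < R.d0) {c : Con} (h : R.conC c = true) (psF : List MP) {psC : List MP}
    (hp : ∀ p ∈ c.ps, p ∈ psC) : Ev (r6 R.ph) psF psC fun _ _ _ _ _ _ D =>
      D.Cls (r6 c.line) (c.w R.ph R.d0) := by
  cases c with
  | g T l b G A C =>
    simp only [Row.conC, Bool.and_eq_true] at h
    obtain ⟨a1, a2, a3, a4, a5, a6, a7, a8, a9⟩ := gOK_spec h.1.1
    have b2 := ble h.2
    have b3 := le_rrHi a8
    simp only [iv_mul, iv_ONE, cE6] at b2
    refine clsG psF psC (r6_nonneg _) a1 a2 (r6_nonneg b) a3 a4 a5 (r6_pos hd) a9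
      (r6_le.2 (Nat.le_of_ble_eq_true h.1.2)) ?_ (wtG _ _ T l b C a6 a7 _)
    refine le_of_mul_le_mul_right ?_ iv_pos
    generalize RR (r6 T) (-r6 b) 0 = z at *
    unfold r6
    linarith
  | h d => exact absurd h (by simp [Row.conC])
  | m d =>
    rw [Con.line, r6_zero]
    exact clsM psF (hp _ List.mem_cons_self) (r6_pos hd) (r6_nonneg d.lmin)

theorem ok1_spec (h : R.ok1 = true) : 0 < R.d0 ∧ 0 < R.l ∧ R.sa ≤ R.l ∧
    (∀ e ∈ R.F, R.conF e.2 = true) ∧ (∀ c ∈ R.C, R.conC c = true) ∧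
    ∑ k, R.y k + R.n * r12 R.y0 ≤ 1 - 1 / 100 := by
  simp only [Row.ok1, Bool.and_eq_true, Nat.blt_eq, Nat.ble_eq, List.all_eq_true, and_assoc] at h
  obtain ⟨a1, a2, a3, a4, a5, a6⟩ := h
  refine ⟨a1, a2, a3, a4, a5, ?_⟩
  have b1 := r12_le a6
  rw [r12_add, sumT_eq, List.map_map, ← Fin.sum_univ_fun_getElem, r12 , iv_mul,
    mul_div_assoc] at b1
  exact b1.trans_eq (by norm_num [r12])

theorem psF_ok (h : R.ok1 = true) : ∀ p ∈ R.psF, p.ok (r6 R.ph) (r6 R.ph) := fun p hp => by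
  obtain ⟨e, he, hp⟩ := List.mem_flatMap.1 hp
  have h1 := (ok1_spec h).2.2.2.1 e he
  generalize e.2 = c at *
  cases c with
  | m d => exact List.mem_singleton.1 hp ▸ (MD.ok_real h1).1
  | g => exact absurd hp List.not_mem_nil
  | h => exact absurd hp List.not_mem_nil

theorem psC_ok (h : R.ok1 = true) : ∀ p ∈ R.psC, p.ok (r6 R.ph) (1 / 1000) := fun p hp => by
  obtain ⟨c, he, hp⟩ := List.mem_flatMap.1 hp
  have h1 := (ok1_spec h).2.2.2.2.1 c he
  cases c with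
  | m d =>
    rw [show (1 / 1000 : ℝ) = r6 1000 by norm_num [r6]]
    exact List.mem_singleton.1 hp ▸ (MD.ok_real h1).1
  | g => exact absurd hp List.not_mem_nil
  | h => exact absurd hp List.not_mem_nil

theorem row_of_ok (h1 : R.ok1 = true) (h2 : R.ok2 = true) (h3 : R.ok3 = true) (h4 : R.ok4 = true)
    {psF psC : List MP} (hF : ∀ p ∈ R.psF, p ∈ psF) (hC : ∀ p ∈ R.psC, p ∈ psC) :
    Ev (r6 R.ph) psF psC (RowP (r6 R.L) R.n (r6 R.sa) (r6 R.sb) (r6 R.l)) := by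
  obtain ⟨a1, a2, a3, a4, a5, a6⟩ := ok1_spec h1
  have hR : R.Pos := ⟨fun e he => conF_pos (a4 e he), fun c hc => conC_pos (a5 c hc)⟩
  have hb : ∀ t, R.l ≤ R.bn t := fun t => Nat.le_add_right _ _
  refine ((Ev.list R.F fun e he => conF_ev a1 (a4 e he) psC fun p hp =>
    hF p (List.mem_flatMap.2 ⟨e, he, hp⟩)).and (Ev.list R.C fun c hc => conC_ev a1 (a5 c hc) psF
    fun p hp => hC p (List.mem_flatMap.2 ⟨c, hc, hp⟩))).mono
    fun Γ Ω ι _ _ _ D ε H hD h hPr => le_trans ?_ a6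
  have hl : ∀ i, r6 R.sa ≤ D.lam i := fun i => by
    obtain ⟨Pr, -, b1, b2, -⟩ := hPr
    by_cases hi : i ∈ Pr
    exacts [(b1 i hi).1, (r6_le.2 a3).trans (b2 i hi)]
  refine row_thm hD (N := R.ty.length) (lF := R.lF) (wF := R.wF) (lC := R.lC) (wC := R.wC)
    (b := fun t => r6 (R.bn t)) (r6_nonneg _) (r6_le.2 a3) (fun k => r12_nonneg _) (r12_nonneg _)
    (fun k => h.1 _ (List.getElem_mem _) hl) (fun m => h.2 _ (List.getElem_mem _))
    (congrArg r6 (show R.l + (0 - R.l) = R.l by omega)) (fun t ht σ hσ => ?_) (fun σ hσ => ?_) ?_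
    (fun t => r6_le.2 (hb t)) hPr
  · obtain ⟨p, q, ν, θ, -, b⟩ := ty_spec hR (hb t)
      (List.all_eq_true.1 h2 t (List.mem_range.2 ht)) ((Real.exp_pos _).le.trans hσ) fun _ => hσ
    exact ⟨p, q, ν, θ, b⟩
  · obtain ⟨p, q, ν, θ, b0, -, b1, b2, b3, b4, b5⟩ := ty_spec hR (hb _) h3 hσ fun e => absurd rfl e
    rw [b0 rfl] at b4 b5
    exact ⟨p, q, θ, b1, b2, b3, by linarith, fun x hx => by simpa using b5 x hx⟩
  · rw [Row.ok4, Bool.or_eq_true, Nat.ble_eq, Nat.le_zero] at h4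
    exact h4.imp_right (pr_spec hR)

end Pool.Agent.Lib.MP_778b46_nt.GX.Ck
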