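import Pool.Agent.Lib.MP_778b46_nt.GX.Ce1H
import Pool.Agent.Lib.MP_778b46_nt.GX.CkA

/- Kernel check of the hypotheses of the hybrid inequality. -/

namespace Pool.Agent.Lib.MP_778b46_nt.GX.Ck

open Finset
open Pool.Agent.Lib.MP_6cad4c_al
open Pool.Agent.Lib.MP_e97e2b_nt.Ln (JJ)

/-- Sum of `f p` times the positive part of the coefficient. -/
noncomputable def knP (f : ℕ → ℕ) (kn : List (ℕ × ℤ)) : ℕ :=
  List.rec (motive := fun _ => ℕ) 0 (fun p _ ih => Nat.add (Nat.mul (Int.toNat p.2) (f p.1)) ih) kn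

/-- Sum of `f p` times the negative part of the coefficient. -/
noncomputable def knN (f : ℕ → ℕ) (kn : List (ℕ × ℤ)) : ℕ :=
  List.rec (motive := fun _ => ℕ) 0
    (fun p _ ih => Nat.add (Nat.mul (Int.toNat (Int.neg p.2)) (f p.1)) ih) kn

noncomputable def knLe (N : ℕ) (kn : List (ℕ × ℤ)) : Bool :=
  List.rec (motive := fun _ => Bool) true (fun p _ ih => Nat.ble p.1 N && ih) kn

def f12Lo (n : ℕ) : ℕ := Nat.div (Nat.shiftLeft n 80) 1000000000000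

def f12Hi (n : ℕ) : ℕ := Nat.add (Nat.div (Nat.shiftLeft n 80) 1000000000000) 1

noncomputable def HD.z (k : HD) (i : ℕ) : ℕ :=
  Nat.sub (knP (fun p => Nat.sub i p) k.kn) (knN (fun p => Nat.sub i p) k.kn)

noncomputable def HD.zok (k : HD) (i : ℕ) : Bool :=
  Nat.ble (knN (fun p => Nat.sub i p) k.kn) (knP (fun p => Nat.sub i p) k.kn)

def HD.fh (k : HD) (i : ℕ) : ℕ :=
  mhi (f12Hi (Nat.mul (Nat.mul (Nat.sub k.N i) k.hh) 1000000))
    (eHi (Nat.mul k.l (Nat.mul (Nat.add i 1) k.hh)))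

def HD.kl (k : HD) (i : ℕ) : ℕ :=
  mlo (f12Lo (Nat.mul k.eta (Nat.sub k.T2 (Nat.mul (Nat.add i 1) k.hh))))
    (eLo (Nat.mul k.b (Nat.mul i k.hh)))

noncomputable def HD.zl (k : HD) (phi i : ℕ) : ℕ :=
  cond (Nat.ble (Nat.mul i k.hh) phi) 0
    (f12Lo (Nat.mul k.hh (nmin (k.z i) (k.z (Nat.add i 1)))))

noncomputable def HD.den (k : HD) (phi i : ℕ) : ℕ :=
  Nat.add (k.kl i) (Nat.div (Nat.mul (k.zl phi i) (Nat.sub (Nat.mul i k.hh) phi))
    (Nat.add (Nat.mul (Nat.add i 2) k.hh) phi))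

def hdSq (h f d : ℕ) : ℕ := Nat.add (Nat.div (Nat.mul h (Nat.mul f f)) d) 1

/-- Upper bound for the sum over the slices, scaled by `10 ^ 6 * 2 ^ 80`. -/
noncomputable def HD.sum (k : HD) (phi n : ℕ) : ℕ :=
  Nat.rec (motive := fun _ => ℕ) 0 (fun i ih => Nat.add ih (hdSq k.hh (k.fh i) (k.den phi i))) n

noncomputable def HD.all (k : HD) (n : ℕ) : Bool :=
  Nat.rec (motive := fun _ => Bool) true
    (fun i ih => Nat.ble 1 (k.kl i) && k.zok (Nat.add i 1) && ih) n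

noncomputable def HD.ok (k : HD) (phi d0 lo : ℕ) : Bool :=
  (Nat.ble 1 k.hh && Nat.ble (Nat.mul k.N k.hh) k.T2 && Nat.ble k.T2 8000000 &&
    Nat.ble k.b 5000000 && Nat.ble k.l 5000000 && Nat.ble k.b lo && Nat.ble 1 d0 && knLe k.N k.kn &&
    Nat.beq (knP (fun _ => 1) k.kn) (knN (fun _ => 1) k.kn) &&
    Nat.beq (knP (fun p => p) k.kn) (knN (fun p => p) k.kn)) &&
  (Nat.ble (Nat.add (Nat.mul (Nat.mul k.eta k.T2) phi) (Nat.mul d0 2000000000000))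
      (Nat.mul k.C 2000000000000) &&
    Nat.ble (Nat.add (Nat.mul (Nat.mul k.eta (jjHi k.T2 k.b)) 2000000000000)
        (Nat.shiftLeft (Nat.mul (knP (fun p => Nat.mul (Nat.sub k.N p) (Nat.sub k.N p)) k.kn)
          (Nat.mul k.hh k.hh)) 80))
      (Nat.shiftLeft (Nat.add (Nat.add (Nat.mul k.A 2000000000000) (Nat.mul (Nat.mul k.eta k.T2) phi))
        (Nat.mul (knN (fun p => Nat.mul (Nat.sub k.N p) (Nat.sub k.N p)) k.kn)
          (Nat.mul k.hh k.hh))) 80) &&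
    Nat.ble 1 k.A && Nat.ble 1 k.y1 &&
    Nat.ble (Nat.mul k.y1 (Nat.mul (Nat.mul k.N k.hh) (Nat.mul k.N k.hh))) 9800000000000000000 &&
    Nat.ble k.y1 k.y0 &&
    Nat.ble (Nat.mul (Nat.add (Nat.mul k.eta (Nat.add (eHi (Nat.mul k.b k.T2)) ONE))
        (Nat.shiftLeft (Nat.add (knP (fun _ => 1) k.kn) (knN (fun _ => 1) k.kn)) 80)) 1000000000000)
      (Nat.shiftLeft (Nat.add (Nat.mul (Nat.mul k.A k.y0) 1000000)
        (Nat.mul (Nat.mul k.eta k.b) k.T2)) 80)) &&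
  (k.all k.N && Nat.ble (Nat.add (k.sum phi k.N) (Nat.shiftLeft d0 80)) (Nat.shiftLeft k.G 80))

theorem ckh_shl (a k : ℕ) : ((Nat.shiftLeft a k : ℕ) : ℝ) = a * 2 ^ k := by
  show ((a <<< k : ℕ) : ℝ) = _
  rw [Nat.shiftLeft_eq]
  push_cast
  ring

theorem f12Lo_le (n : ℕ) : (f12Lo n : ℝ) ≤ (n : ℝ) / 10 ^ 12 * 2 ^ 80 := by
  refine (iv_div_le _ _).trans (le_of_eq ?_)
  rw [ckh_shl]
  push_cast
  ring

theorem le_f12Hi (n : ℕ) : (n : ℝ) / 10 ^ 12 * 2 ^ 80 ≤ (f12Hi n : ℝ) := by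
  unfold f12Hi
  rw [iv_add, Nat.cast_one]
  refine le_trans (le_of_eq ?_) (iv_le_div _ _ (by norm_num))
  rw [ckh_shl]
  push_cast
  ring

theorem kn_sub (f : ℕ → ℕ) (kn : List (ℕ × ℤ)) :
    (knP f kn : ℝ) - knN f kn = (kn.map fun p => (p.2 : ℝ) * f p.1).sum := by
  induction kn with
  | nil => simp [knP, knN]
  | cons p t ih =>
    have h : ((Int.toNat p.2 : ℕ) : ℝ) - ((Int.toNat (Int.neg p.2) : ℕ) : ℝ) = p.2 := by
      have := Int.toNat_sub_toNat_neg p.2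
      exact_mod_cast this
    rw [List.map_cons, List.sum_cons, ← ih, ← h]
    show ((Nat.add _ (knP f t) : ℕ) : ℝ) - ((Nat.add _ (knN f t) : ℕ) : ℝ) = _
    simp only [iv_add, iv_mul]
    ring

theorem kn_add (kn : List (ℕ × ℤ)) :
    (knP (fun _ => 1) kn : ℝ) + knN (fun _ => 1) kn = (kn.map fun p => |(p.2 : ℝ)|).sum := by
  induction kn with
  | nil => simp [knP, knN]
  | cons p t ih =>
    have h : ((Int.toNat p.2 : ℕ) : ℝ) + ((Int.toNat (Int.neg p.2) : ℕ) : ℝ) = |(p.2 : ℝ)| := by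
      have h1 := Int.toNat_add_toNat_neg_eq_natAbs p.2
      have h2 : ((Int.natAbs p.2 : ℕ) : ℝ) = |(p.2 : ℝ)| := by
        rw [← Int.cast_natCast, Int.natCast_natAbs, Int.cast_abs]
      rw [← h2, ← h1, Nat.cast_add]
      rfl
    rw [List.map_cons, List.sum_cons, ← ih, ← h]
    show ((Nat.add (Nat.mul (Int.toNat p.2) 1) (knP (fun _ => 1) t) : ℕ) : ℝ) +
      ((Nat.add (Nat.mul (Int.toNat (Int.neg p.2)) 1) (knN (fun _ => 1) t) : ℕ) : ℝ) = _
    simp only [iv_add, iv_mul]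
    push_cast
    ring

theorem knLe_spec {N : ℕ} {kn : List (ℕ × ℤ)} (h : knLe N kn = true) : ∀ p ∈ kn, p.1 ≤ N := by
  induction kn with
  | nil => simp
  | cons p t ih =>
    have h' : (Nat.ble p.1 N && knLe N t) = true := h
    rw [Bool.and_eq_true, Nat.ble_eq] at h'
    intro q hq
    rcases List.mem_cons.1 hq with rfl | hq
    exacts [h'.1, ih h'.2 q hq]

theorem HD.all_spec {k : HD} {n : ℕ} (h : k.all n = true) :
    ∀ i < n, 1 ≤ k.kl i ∧ k.zok (i + 1) = true := by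
  induction n with
  | zero => simp
  | succ n ih =>
    have h' : (Nat.ble 1 (k.kl n) && k.zok (Nat.add n 1) && k.all n) = true := h
    simp only [Bool.and_eq_true, Nat.ble_eq] at h'
    intro i hi
    rcases Nat.lt_succ_iff_lt_or_eq.1 hi with hi | rfl
    exacts [ih h'.2 i hi, h'.1]

theorem HD.sum_eq (k : HD) (phi n : ℕ) :
    (k.sum phi n : ℝ) = ∑ i ∈ range n, (hdSq k.hh (k.fh i) (k.den phi i) : ℝ) := by
  induction n with
  | zero => simp [HD.sum]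
  | succ n ih =>
    rw [sum_range_succ, ← ih]
    exact iv_add _ _

theorem ckh_list (kn : List (ℕ × ℤ)) (F : ℕ × ℤ → ℝ) (f : ℕ → ℕ) (c : ℝ)
    (h : ∀ p ∈ kn, F p = c * ((p.2 : ℝ) * f p.1)) :
    (kn.map F).sum = c * ((knP f kn : ℝ) - knN f kn) := by
  rw [kn_sub, ← List.sum_map_mul_left]
  exact congrArg _ (List.map_congr_left h)

theorem HD.pl_eq (k : HD) (i : ℕ) :
    pl ((k.kn.map fun p => (p.1, (p.2 : ℝ) / 10 ^ 6)).map
        fun p => (p.1 * ((k.hh : ℝ) / 10 ^ 6), p.2)) (i * ((k.hh : ℝ) / 10 ^ 6)) =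
      (k.hh : ℝ) / 10 ^ 12 *
        ((knP (fun p => Nat.sub i p) k.kn : ℝ) - knN (fun p => Nat.sub i p) k.kn) := by
  unfold pl
  rw [List.map_map, List.map_map]
  refine ckh_list _ _ _ _ fun p _ => ?_
  have h : (0 : ℝ) ≤ (k.hh : ℝ) / 10 ^ 6 := by positivity
  simp only [Function.comp, iv_sub]
  rw [← sub_mul, ← zero_mul ((k.hh : ℝ) / 10 ^ 6), ← max_mul_of_nonneg _ _ h, zero_mul]
  ring

theorem HD.z_eq {k : HD} {i : ℕ} (h : k.zok i = true) :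
    (k.z i : ℝ) = (knP (fun p => Nat.sub i p) k.kn : ℝ) - knN (fun p => Nat.sub i p) k.kn := by
  unfold HD.zok at h
  rw [Nat.ble_eq] at h
  exact Nat.cast_sub h

theorem HD.zok_zero (k : HD) : k.zok 0 = true := by
  unfold HD.zok
  rw [Nat.ble_eq]
  have : knN (fun p => Nat.sub 0 p) k.kn = 0 := by
    induction k.kn with
    | nil => rfl
    | cons p t ih =>
      show Nat.add (Nat.mul _ (Nat.sub 0 p.1)) (knN _ t) = 0
      rw [ih]
      simp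
  rw [this]
  exact Nat.zero_le _

theorem HD.term_le {k : HD} {phi i : ℕ} (h1 : 1 ≤ k.kl i) :
    r6 k.hh * (((k.fh i : ℝ) / 2 ^ 80) ^ 2 / ((k.kl i : ℝ) / 2 ^ 80 + (k.zl phi i : ℝ) / 2 ^ 80 *
      ((i * r6 k.hh - r6 phi) / ((i + 2) * r6 k.hh + r6 phi)))) ≤
      (hdSq k.hh (k.fh i) (k.den phi i) : ℝ) / (10 ^ 6 * 2 ^ 80) := by
  have hd : 0 < k.den phi i := lt_of_lt_of_le h1 (Nat.le_add_right _ _)
  have hd' : (0 : ℝ) < k.den phi i := Nat.cast_pos.2 hd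
  have h2 : (k.den phi i : ℝ) / 2 ^ 80 ≤ (k.kl i : ℝ) / 2 ^ 80 + (k.zl phi i : ℝ) / 2 ^ 80 *
      ((i * r6 k.hh - r6 phi) / ((i + 2) * r6 k.hh + r6 phi)) := by
    have e : (i * r6 k.hh - r6 phi) / ((i + 2) * r6 k.hh + r6 phi) =
        ((i : ℝ) * k.hh - phi) / ((i + 2) * k.hh + phi) := by
      rw [← div_div_div_cancel_right₀ (show (10 : ℝ) ^ 6 ≠ 0 by positivity) ((i : ℝ) * k.hh - phi)]
      unfold r6
      congr 1 <;> ring
    rw [e, HD.den, iv_add, add_div, div_mul_eq_mul_div]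
    refine add_le_add_right (div_le_div_of_nonneg_right ((iv_div_le _ _).trans ?_) iv_pos.le) _
    simp only [iv_add, iv_mul, iv_sub, Nat.cast_ofNat]
    unfold HD.zl
    cases hb : Nat.ble (Nat.mul i k.hh) phi with
    | true => simp
    | false =>
      have := blt hb
      rw [iv_mul] at this
      rw [max_eq_left (by linarith), mul_div_assoc]
  have h3 := iv_le_div (Nat.mul k.hh (Nat.mul (k.fh i) (k.fh i))) _ hd
  unfold hdSq
  rw [iv_add, Nat.cast_one]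
  refine le_trans ?_ (div_le_div_of_nonneg_right h3 (by positivity))
  refine (mul_le_mul_of_nonneg_left (div_le_div_of_nonneg_left (sq_nonneg _)
    (div_pos hd' iv_pos) h2) (r6_nonneg _)).trans (le_of_eq ?_)
  rw [iv_mul, iv_mul, r6]
  have hP := iv_pos.ne'
  generalize (2 : ℝ) ^ 80 = P at *
  field_simp

theorem HD.fh_spec {k : HD} {i : ℕ} (hi : i < k.N) (hB : k.l * ((i + 1) * k.hh) ≤ BIG) :
    (k.N * r6 k.hh - i * r6 k.hh) * Real.exp (r6 k.l * ((i + 1) * r6 k.hh)) ≤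
      (k.fh i : ℝ) / 2 ^ 80 := by
  rw [le_div_iff₀ iv_pos]
  have h1 := le_f12Hi (Nat.mul (Nat.mul (Nat.sub k.N i) k.hh) 1000000)
  have h2 := le_eHi (n := Nat.mul k.l (Nat.mul (Nat.add i 1) k.hh)) hB
  have h3 := iv_mhi_ge (Real.exp_pos _).le h1 h2
  unfold HD.fh
  refine le_trans (le_of_eq ?_) h3
  have e : ((Nat.sub k.N i : ℕ) : ℝ) = k.N - i := Nat.cast_sub hi.le
  simp only [iv_mul, iv_add, e, cE12, r6, Nat.cast_one, Nat.cast_ofNat]
  congr 2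
  · ring
  · congr 1
    ring

theorem HD.kl_spec {k : HD} {i : ℕ} (hi : (i + 1) * k.hh ≤ k.T2) :
    (k.kl i : ℝ) / 2 ^ 80 ≤
      r6 k.eta * (r6 k.T2 - (i + 1) * r6 k.hh) * Real.exp (r6 k.b * (i * r6 k.hh)) := by
  rw [div_le_iff₀ iv_pos]
  have h3 := iv_mlo_le (f12Lo_le (Nat.mul k.eta (Nat.sub k.T2 (Nat.mul (Nat.add i 1) k.hh))))
    (eLo_le (Nat.mul k.b (Nat.mul i k.hh)))
  unfold HD.kl
  refine h3.trans (le_of_eq ?_)
  have e : ((Nat.sub k.T2 (Nat.mul (Nat.add i 1) k.hh) : ℕ) : ℝ) = k.T2 - (i + 1) * k.hh := by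
    have := Nat.cast_sub (R := ℝ) hi
    push_cast at this
    exact this
  simp only [iv_mul, e, cE12, r6]
  congr 2
  · ring
  · congr 1
    ring

theorem HD.sound {k : HD} {phi d0 lo : ℕ} (h : k.ok phi d0 lo = true) (psF psC : List MP)
    {w : ℝ → ℝ} (hw : WtH (r6 phi) (r6 (k.N.mul k.hh)) (r6 k.l) (r6 d0) (r6 k.G) (r6 k.A) (r6 k.C)
      (r6 k.y1) (r6 k.y0) (r6 lo) w) :
    Ev (r6 phi) psF psC fun _ _ _ _ _ _ D => (∀ i, r6 lo ≤ D.lam i) → D.Fam (r6 k.l) w := by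
  have h12 : (0 : ℝ) ≤ (k.hh : ℝ) / 10 ^ 12 := by positivity
  have h80 : (0 : ℝ) < 10 ^ 6 * 2 ^ 80 := by positivity
  have h06 : (0 : ℝ) < 10 ^ 6 := by positivity
  unfold HD.ok at h
  simp only [Bool.and_eq_true, Nat.ble_eq, Nat.beq_eq] at h
  obtain ⟨⟨⟨⟨⟨⟨⟨⟨⟨⟨⟨a1, a2⟩, a3⟩, a4⟩, a5⟩, a6⟩, a7⟩, a8⟩, a9⟩, a10⟩,
    ⟨⟨⟨⟨⟨b1, b2⟩, b3⟩, b4⟩, b5⟩, b6⟩, b7⟩, c1, c2⟩ := h
  have hT : r6 (k.N.mul k.hh) = k.N * r6 k.hh := by
    rw [r6, r6, iv_mul, mul_div_assoc]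
  rw [hT] at hw
  have hall := HD.all_spec c1
  have hz : ∀ i ≤ k.N, k.zok i = true := fun i hi => by
    cases i with
    | zero => exact k.zok_zero
    | succ i => exact (hall i hi).2
  have hpl : ∀ i ≤ k.N, pl ((k.kn.map fun p => (p.1, (p.2 : ℝ) / 10 ^ 6)).map
      fun p => (p.1 * r6 k.hh, p.2)) (i * r6 k.hh) = (k.hh : ℝ) / 10 ^ 12 * k.z i := fun i hi => by
    rw [HD.z_eq (hz i hi)]
    exact k.pl_eq i
  have hP := iv_pos
  have hle : ∀ i < k.N, (i + 1) * k.hh ≤ k.T2 := fun i hi =>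
    (Nat.mul_le_mul_right _ hi).trans a2
  have hbT : k.b.mul k.T2 ≤ BIG := (Nat.mul_le_mul a4 a3).trans (by norm_num [BIG])
  refine famH (h := r6 k.hh) (T2 := r6 k.T2) (η := r6 k.eta) (b := r6 k.b) (N := k.N)
    (kn := k.kn.map fun p => (p.1, (p.2 : ℝ) / 10 ^ 6)) (fh := fun i => (k.fh i : ℝ) / 2 ^ 80)
    (kl := fun i => (k.kl i : ℝ) / 2 ^ 80) (zl := fun i => (k.zl phi i : ℝ) / 2 ^ 80) psF psC
    (r6_nonneg _) (r6_pos a1) (hT ▸ r6_le.2 a2) ((r6_le.2 a3).trans (by norm_num [r6]))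
    (r6_nonneg _) (r6_nonneg _) ((r6_le.2 a4).trans (by norm_num [r6])) (r6_nonneg _)
    ((r6_le.2 a5).trans (by norm_num [r6])) (r6_le.2 a6) (r6_pos a7) ?_ ?_ ?_ ?_ ?_ ?_ ?_ ?_ ?_ ?_
    (r6_pos b3) (r6_pos b4) ?_ (r6_le.2 b6) ?_ hw
  · intro p hp
    obtain ⟨q, hq, rfl⟩ := List.mem_map.1 hp
    exact knLe_spec a8 q hq
  · rw [List.map_map, ckh_list _ _ (fun _ => 1) (1 / 10 ^ 6) fun p _ => by simp; ring, a9]
    simp
  · rw [List.map_map, ckh_list _ _ (fun p => p) (1 / 10 ^ 6) fun p _ => by simp; ring, a10]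
    simp
  · intro i hi
    rw [hpl i hi]
    exact mul_nonneg h12 (Nat.cast_nonneg _)
  · exact fun i hi => HD.fh_spec hi
      ((Nat.mul_le_mul a5 ((hle i hi).trans a3)).trans (by norm_num [BIG]))
  · exact fun i hi => ⟨div_pos (Nat.cast_pos.2 (hall i hi).1) hP, HD.kl_spec (hle i hi)⟩
  · intro i hi
    unfold HD.zl
    cases hb : Nat.ble (Nat.mul i k.hh) phi with
    | true => simp
    | false =>
      have h0 := blt hb
      rw [iv_mul] at h0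
      have h1 := f12Lo_le (Nat.mul k.hh (nmin (k.z i) (k.z (Nat.add i 1))))
      rw [iv_mul, iv_nmin, ← div_le_iff₀ hP, mul_div_right_comm] at h1
      have h2 := hpl (i + 1) hi
      rw [Nat.cast_add, Nat.cast_one] at h2
      refine Or.inr ⟨?_, div_nonneg (Nat.cast_nonneg _) hP.le, ?_, ?_⟩
      · rw [r6, r6, ← mul_div_assoc]
        exact div_lt_div_of_pos_right h0 h06
      · rw [hpl i hi.le]
        exact h1.trans (mul_le_mul_of_nonneg_left (min_le_left _ _) h12)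
      · rw [h2]
        exact h1.trans (mul_le_mul_of_nonneg_left (min_le_right _ _) h12)
  · have h1 := sum_le_sum fun i (hi : i ∈ range k.N) =>
      HD.term_le (phi := phi) (hall i (mem_range.1 hi)).1
    rw [← sum_div, ← HD.sum_eq] at h1
    have h2 : ((Nat.add (k.sum phi k.N) (Nat.shiftLeft d0 80) : ℕ) : ℝ) ≤
      ((Nat.shiftLeft k.G 80 : ℕ) : ℝ) := Nat.cast_le.2 c2
    rw [iv_add, ckh_shl, ckh_shl] at h2
    have h3 : (k.sum phi k.N : ℝ) / (10 ^ 6 * 2 ^ 80) ≤ r6 k.G - r6 d0 := by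
      rw [div_le_iff₀ h80, r6, r6]
      generalize (2 : ℝ) ^ 80 = P at *
      linarith
    linarith
  · have h1 : ((Nat.add _ _ : ℕ) : ℝ) ≤ ((Nat.mul _ _ : ℕ) : ℝ) := Nat.cast_le.2 b1
    simp only [iv_add, iv_mul, Nat.cast_ofNat] at h1
    unfold r6
    linarith
  · have h1 : ((Nat.add _ _ : ℕ) : ℝ) ≤ ((Nat.shiftLeft _ _ : ℕ) : ℝ) := Nat.cast_le.2 b2
    simp only [iv_add, iv_mul, ckh_shl, Nat.cast_ofNat] at h1
    have h2 := le_jjHi (T := k.T2) (n := k.b) (by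
      refine (Nat.mul_le_mul (show nmax k.b 1000 ≤ 5000000 from ?_) a3).trans (by norm_num [BIG])
      show k.b + (1000 - k.b) ≤ _
      omega)
    rw [List.map_map, ckh_list _ _ (fun p => Nat.mul (Nat.sub k.N p) (Nat.sub k.N p))
      ((k.hh : ℝ) * k.hh / (2 * 10 ^ 18)) fun p hp => by
        have e : ((Nat.sub k.N p.1 : ℕ) : ℝ) = k.N - p.1 := Nat.cast_sub (knLe_spec a8 p hp)
        simp only [Function.comp, iv_mul, e, r6]
        ring]
    have h3 := mul_le_mul_of_nonneg_left h2 (Nat.cast_nonneg k.eta : (0 : ℝ) ≤ _)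
    refine le_of_mul_le_mul_right ?_ hP
    generalize JJ (r6 k.T2) (r6 k.b) = J at *
    unfold r6
    generalize (2 : ℝ) ^ 80 = P at *
    linarith
  · have h1 : ((Nat.mul _ _ : ℕ) : ℝ) ≤ ((9800000000000000000 : ℕ) : ℝ) := Nat.cast_le.2 b5
    simp only [iv_mul, Nat.cast_ofNat] at h1
    unfold r6
    linarith
  · have h1 : ((Nat.mul _ _ : ℕ) : ℝ) ≤ ((Nat.shiftLeft _ _ : ℕ) : ℝ) := Nat.cast_le.2 b7
    simp only [iv_add, iv_mul, ckh_shl, iv_ONE, Nat.cast_ofNat] at h1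
    have h2 := le_eHi hbT
    rw [← r6_mul] at h2
    have h4 : ((k.kn.map fun p => (p.1, (p.2 : ℝ) / 10 ^ 6)).map fun p => |p.2|).sum =
        1 / 10 ^ 6 * ((knP (fun _ => 1) k.kn : ℝ) + knN (fun _ => 1) k.kn) := by
      rw [List.map_map, kn_add, ← List.sum_map_mul_left]
      refine congrArg _ (List.map_congr_left fun p _ => ?_)
      simp only [Function.comp, abs_div, abs_of_pos h06]
      ring
    rw [h4]
    have h3 := mul_le_mul_of_nonneg_left h2 (Nat.cast_nonneg k.eta : (0 : ℝ) ≤ _)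
    refine le_of_mul_le_mul_right ?_ hP
    generalize Real.exp (r6 k.b * r6 k.T2) = J at *
    unfold r6
    generalize (2 : ℝ) ^ 80 = P at *
    linarith

end Pool.Agent.Lib.MP_778b46_nt.GX.Ck
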