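import Pool.Agent.Lib.MP_e97e2b_nt.Ln.A4b

/- The explicit formula for triangles from a local partial fraction expansion at any height. -/

namespace Pool.Agent.Lib.MP_778b46_nt.GX

open Complex Finset MeasureTheory Pool.Agent.Lib.MP_e97e2b_nt.Ln

theorem perron2 : ∃ C : ℝ, 0 < C ∧ ∀ (a : ℕ → ℂ) (L M r γ u : ℝ) (N : ℕ) (Zr : Multiset ℂ)
    (e : ℂ → ℂ) (h0 : ℂ), 1 ≤ L → 1 ≤ M → 0 < r → r ≤ 1 → 1 ≤ r * L → 0 ≤ u → u ≤ 8 →
    Real.exp (u * L) ≤ N + 1 → (∀ ρ, ‖e ρ‖ ≤ 1) → ‖h0‖ ≤ M * L → (Zr.card : ℝ) ≤ M * L →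
    (∀ ρ ∈ Zr, ρ.re ≤ 1) → Summable (fun n : ℕ => ‖a n‖ * (n : ℝ) ^ (-(1 + 1 / L))) →
    ∑' n : ℕ, ‖a n‖ * (n : ℝ) ^ (-(1 + 1 / L)) ≤ M * L →
    (∀ v : ℝ, |v - γ| ≤ r → ‖LSeries a (((1 + 1 / L : ℝ) : ℂ) + v * I) -
      (Zr.map fun ρ => e ρ * (1 / (((1 + 1 / L : ℝ) : ℂ) + v * I - ρ))).sum - h0‖ ≤
        M * L * |v - γ|) →
    ‖∑ n ∈ Ioc 0 N, ((1 / (n * L) * tri u (Real.log n / L) : ℝ) : ℂ) *
          (exp (-((γ * Real.log n : ℝ) : ℂ) * I) * a n) -
        (Zr.map fun ρ => e ρ * II u (L * (ρ - 1) - (γ * L : ℝ) * I)).sum - u * (h0 / L)‖ ≤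
      C * (M / (r ^ 2 * Real.sqrt L)) := by
  refine ⟨4 * Real.exp 8, by positivity, ?_⟩
  intro a L M r γ u N Zr e h0 hL hM hr hr1 hrL hu hu8 hN he hh0 hcard hZ hs hsum hloc
  have hL0 : 0 < L := by linarith
  have hLc : (L : ℂ) ≠ 0 := by exact_mod_cast hL0.ne'
  have hnL : ‖(L : ℂ)‖ = L := by rw [Complex.norm_real, Real.norm_of_nonneg hL0.le]
  have hp := Real.pi_pos
  obtain ⟨W, hW, hWL, hW2⟩ : ∃ W : ℝ, 1 ≤ W ∧ Real.sqrt L = W ∧ L = W ^ 2 :=
    ⟨_, Real.one_le_sqrt.2 hL, rfl, (Real.sq_sqrt hL0.le).symm⟩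
  have hW0 : 0 < W := by linarith
  obtain ⟨z, hz⟩ : ∃ z : ℂ → ℂ, ∀ ρ, z ρ = L * (ρ - 1) - (γ * L : ℝ) * I := ⟨_, fun _ => rfl⟩
  have hzre : ∀ ρ ∈ Zr, (z ρ).re ≤ 0 := fun ρ hρ => by
    have := hZ ρ hρ
    simp only [hz, sub_re, mul_re, ofReal_re, one_re, ofReal_im, zero_mul, sub_zero, I_re, mul_zero,
      I_im, mul_one]
    nlinarith
  simp only [← hz]
  obtain ⟨i1, v1⟩ := a4b_first a hL0 γ u N hN hs
  obtain ⟨i2, v2⟩ := a4b_ms Zr (fun ρ (y : ℝ) => exp ((1 + y * I) * u) / (1 + y * I) ^ 2 *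
    (e ρ * (1 / (1 + y * I - z ρ)))) fun ρ hρ => by
      simpa only [mul_left_comm (e ρ)] using (kern_two_int u (hzre ρ hρ)).const_mul (e ρ)
  rw [Multiset.map_congr rfl (g := fun ρ => 2 * Real.pi * (e ρ * II u (z ρ))) fun ρ hρ => by
      simp only [← mul_left_comm (e ρ)]
      rw [integral_const_mul, kern_two hu (hzre ρ hρ)],
    Multiset.sum_map_mul_left] at v2
  simp only [Multiset.sum_map_mul_left (a := exp _ / _)] at i2 v2
  have i3 := (kern_one_int u).mul_const (h0 / L)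
  have v3 : ∫ y : ℝ, exp ((1 + y * I) * u) / (1 + y * I) ^ 2 * (h0 / L) =
      2 * Real.pi * (u * (h0 / L)) := by
    rw [integral_mul_const, kern_one, max_eq_left hu, mul_assoc]
  obtain ⟨Y, hY⟩ : ∃ Y : ℝ, Y = r * W ^ 2 := ⟨_, rfl⟩
  obtain ⟨α, hα⟩ : ∃ α : ℝ, α = r ^ 2 * W ^ 3 := ⟨_, rfl⟩
  have hY0 : 0 < Y := by rw [hY]; positivity
  have hα0 : 0 < α := by rw [hα]; positivity
  obtain ⟨j2, w2⟩ := a4b_ms Zr (fun ρ (y : ℝ) => α / Y ^ 2 * (1 / (Y ^ 2 + (y - 0) ^ 2)) +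
    1 / (2 * α) * (1 / (1 ^ 2 + (y - (z ρ).im) ^ 2))) fun ρ _ =>
      ((a4b_cau_int hY0 0).const_mul _).add ((a4b_cau_int one_pos _).const_mul _)
  rw [Multiset.map_congr rfl (g := fun _ => α / Y ^ 2 * (Real.pi / Y) +
    1 / (2 * α) * (Real.pi / 1)) fun ρ _ => by
      rw [integral_add ((a4b_cau_int hY0 0).const_mul _) ((a4b_cau_int one_pos _).const_mul _),
        integral_const_mul, integral_const_mul, a4b_cau hY0, a4b_cau one_pos],
    Multiset.map_const', Multiset.sum_replicate, nsmul_eq_mul] at w2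
  have j1 : Integrable fun y : ℝ =>
      (M / L * (W / 2)) * (1 / (1 ^ 2 + (y - 0) ^ 2)) +
        (M / L * (Y ^ 2 / W) + 4 * M) * (1 / (Y ^ 2 + (y - 0) ^ 2)) :=
    ((a4b_cau_int one_pos 0).const_mul _).add ((a4b_cau_int hY0 0).const_mul _)
  have w1 : ∫ y : ℝ, ((M / L * (W / 2)) * (1 / (1 ^ 2 + (y - 0) ^ 2)) +
        (M / L * (Y ^ 2 / W) + 4 * M) * (1 / (Y ^ 2 + (y - 0) ^ 2))) =
      (M / L * (W / 2)) * (Real.pi / 1) +
        (M / L * (Y ^ 2 / W) + 4 * M) * (Real.pi / Y) := by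
    rw [integral_add ((a4b_cau_int one_pos 0).const_mul _) ((a4b_cau_int hY0 0).const_mul _),
      integral_const_mul, integral_const_mul, a4b_cau hY0, a4b_cau one_pos]
  have hb := norm_integral_le_of_norm_le (f := fun y : ℝ =>
      exp ((1 + y * I) * u) / (1 + y * I) ^ 2 *
        (LSeries a (((1 + 1 / L : ℝ) : ℂ) + ((γ + y / L : ℝ) : ℂ) * I) / L) -
      exp ((1 + y * I) * u) / (1 + y * I) ^ 2 *
        (Zr.map fun ρ => e ρ * (1 / (1 + y * I - z ρ))).sum -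
      exp ((1 + y * I) * u) / (1 + y * I) ^ 2 * (h0 / L)) ((j1.add j2).const_mul (Real.exp 8))
    (ae_of_all _ fun y => by
      have hk : ‖exp ((1 + y * I) * u) / (1 + y * I) ^ 2‖ ≤ Real.exp 8 * (1 / (1 + y ^ 2)) := by
        rw [a4b_k_norm, mul_one_div]
        gcongr
      generalize exp ((1 + y * I) * u) / (1 + y * I) ^ 2 = k at hk
      simp only [Pi.add_apply]
      rw [show ∀ A P H : ℂ, k * A - k * P - k * H = k * (A - P - H) from
        fun A P H => by ring, norm_mul]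
      refine (mul_le_mul_of_nonneg_right hk (norm_nonneg _)).trans ?_
      rw [mul_assoc]
      refine mul_le_mul_of_nonneg_left ?_ (Real.exp_pos _).le
      have hc1 : 0 ≤ 1 / (1 ^ 2 + (y - 0) ^ 2) := by positivity
      have hc2 : 0 ≤ 1 / (Y ^ 2 + (y - 0) ^ 2) := by positivity
      rcases le_total |y| Y with hy | hy
      · have h1 := hloc (γ + y / L) (by
          rw [add_sub_cancel_left, abs_div, abs_of_pos hL0, div_le_iff₀ hL0, hW2, ← hY]
          exact hy)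
        have h2 : (Zr.map fun ρ => e ρ * (1 / (1 + y * I - z ρ))).sum = (Zr.map fun ρ =>
            e ρ * (1 / (((1 + 1 / L : ℝ) : ℂ) + ((γ + y / L : ℝ) : ℂ) * I - ρ))).sum / L := by
          rw [div_eq_mul_one_div _ (L : ℂ), ← Multiset.sum_map_mul_right]
          refine congrArg _ (Multiset.map_congr rfl fun ρ _ => ?_)
          rw [mul_assoc, one_div_mul_one_div, hz]
          congr 2
          push_cast
          field_simp
          ring
        rw [h2, show ∀ A P H : ℂ, A / L - P / L - H / L = (A - P - H) / L from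
          fun A P H => by ring, norm_div, hnL]
        have h4 : M * L * |γ + y / L - γ| / L ≤ M / L * |y| := by
          rw [add_sub_cancel_left, abs_div, abs_of_pos hL0]
          exact le_of_eq (by field_simp)
        have h5 := a4b_near hY0 hW0 hy
        have h6 : 0 ≤ (Zr.map fun ρ => α / Y ^ 2 * (1 / (Y ^ 2 + (y - 0) ^ 2)) +
            1 / (2 * α) * (1 / (1 ^ 2 + (y - (z ρ).im) ^ 2))).sum :=
          Multiset.sum_nonneg fun x hx => by
            obtain ⟨ρ, _, rfl⟩ := Multiset.mem_map.1 hx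
            positivity
        have h7 : 0 ≤ 4 * M * (1 / (Y ^ 2 + (y - 0) ^ 2)) := by positivity
        have h8 := mul_le_mul_of_nonneg_left h5 (show 0 ≤ M / L by positivity)
        calc _ ≤ 1 / (1 + y ^ 2) * (M / L * |y|) :=
              mul_le_mul_of_nonneg_left ((div_le_div_of_nonneg_right h1 hL0.le).trans h4)
                (by positivity)
          _ = M / L * (1 / (1 + y ^ 2) * |y|) := by ring
          _ ≤ _ := by nlinarith
      · have h1 : ‖LSeries a (((1 + 1 / L : ℝ) : ℂ) + ((γ + y / L : ℝ) : ℂ) * I) / L‖ ≤ M := by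
          rw [norm_div, hnL, div_le_iff₀ hL0]
          exact (a4b_L_norm a hs _).trans hsum
        have h2 : ‖h0 / L‖ ≤ M := by
          rw [norm_div, hnL, div_le_iff₀ hL0]
          exact hh0
        have h3 : ‖(Zr.map fun ρ => e ρ * (1 / (1 + y * I - z ρ))).sum‖ ≤
            (Zr.map fun ρ => ‖1 / (1 + y * I - z ρ)‖).sum := by
          refine (norm_multiset_sum_le _).trans ?_
          rw [Multiset.map_map]
          refine Multiset.sum_map_le_sum_map _ _ fun ρ _ => ?_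
          simp only [Function.comp]
          rw [norm_mul]
          exact mul_le_of_le_one_left (norm_nonneg _) (he ρ)
        have h4 : 1 / (1 + y ^ 2) * (Zr.map fun ρ => ‖1 / (1 + y * I - z ρ)‖).sum ≤
            (Zr.map fun ρ => α / Y ^ 2 * (1 / (Y ^ 2 + (y - 0) ^ 2)) +
              1 / (2 * α) * (1 / (1 ^ 2 + (y - (z ρ).im) ^ 2))).sum := by
          rw [← Multiset.sum_map_mul_left]
          exact Multiset.sum_map_le_sum_map _ _ fun ρ hρ => a4b_pole hY0 hα0 hy (hzre ρ hρ)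
        have h5 := mul_le_mul_of_nonneg_left (a4b_far hY0 hy) (show 0 ≤ 2 * M by positivity)
        have h6 : 0 ≤ (M / L * (W / 2)) * (1 / (1 ^ 2 + (y - 0) ^ 2)) := by
          positivity
        have h7 : 0 ≤ M / L * (Y ^ 2 / W) * (1 / (Y ^ 2 + (y - 0) ^ 2)) := by positivity
        calc _ ≤ 1 / (1 + y ^ 2) * (M + (Zr.map fun ρ => ‖1 / (1 + y * I - z ρ)‖).sum + M) :=
              mul_le_mul_of_nonneg_left ((norm_sub_le _ _).trans
                (add_le_add ((norm_sub_le _ _).trans (add_le_add h1 h3)) h2)) (by positivity)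
          _ = 2 * M * (1 / (1 + y ^ 2)) +
              1 / (1 + y ^ 2) * (Zr.map fun ρ => ‖1 / (1 + y * I - z ρ)‖).sum := by ring
          _ ≤ _ := by nlinarith)
  have e1 := integral_sub (i1.sub i2) i3
  simp only [Pi.sub_apply] at e1
  rw [e1, integral_sub i1 i2, v1, v2, v3, integral_const_mul] at hb
  simp only [Pi.add_apply] at hb
  rw [integral_add j1 j2, w1, w2, show ∀ A P H : ℂ, 2 * Real.pi * A - 2 * Real.pi * P -
    2 * Real.pi * H = 2 * Real.pi * (A - P - H) from fun A P H => by ring, norm_mul] at hb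
  have hn : ‖(2 * Real.pi : ℂ)‖ = 2 * Real.pi := by
    rw [norm_mul, Complex.norm_real, Real.norm_of_nonneg hp.le]
    simp
  have hnum := a4b_num hM hW hr hr1 (hW2 ▸ hcard)
  rw [← hY, ← hα, ← hW2] at hnum
  rw [hn] at hb
  rw [hWL]
  refine le_of_mul_le_mul_left (hb.trans ?_) (show 0 < 2 * Real.pi by positivity)
  have h2 : 0 ≤ M / (r ^ 2 * W) := by positivity
  calc _ ≤ Real.exp 8 * (Real.pi * (7 * (M / (r ^ 2 * W)))) :=
        mul_le_mul_of_nonneg_left (by linarith) (Real.exp_pos _).le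
    _ = Real.exp 8 * Real.pi * (7 * (M / (r ^ 2 * W))) := by ring
    _ ≤ Real.exp 8 * Real.pi * (8 * (M / (r ^ 2 * W))) := by
        gcongr
        norm_num
    _ = _ := by ring

end Pool.Agent.Lib.MP_778b46_nt.GX
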