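import Pool.Agent.Lib.MP_778b46_nt.GX.JenA
import Pool.Agent.Lib.MP_778b46_nt.GX.Basic
import Pool.Agent.Lib.MP_778b46_nt.GX.Z4a

/- Partial fractions for the logarithmic derivative of `Lp ξ` at any height. -/

namespace Pool.Agent.Lib.MP_778b46_nt.GX

open Complex Finset Filter Pool.Agent.Lib.MP_e97e2b_nt.Ln

open ArithmeticFunction

/-- The centre of the disc at height `γ`. -/
noncomputable def cc (P γ : ℝ) : ℂ := ((1 + 1 / Real.log P : ℝ) : ℂ) + γ * I

theorem jen_shift (f : ℂ → ℂ) (a z : ℂ) :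
    analyticOrderNatAt (fun s => f (s + a)) z = analyticOrderNatAt f (z + a) := by
  unfold analyticOrderNatAt
  congr 1
  exact analyticOrderAt_comp_of_deriv_ne_zero (f := f) (g := fun s => s + a) (by fun_prop)
    (by simp)

theorem jenC (f : ℂ → ℂ) (hf : Differentiable ℂ f) (c γ R δ b P : ℝ) (hR : 0 < R) (hδ : 0 < δ)
    (hδR : δ ≤ R / 2) (hb : 1 ≤ b) (hP : 0 ≤ P)
    (hup : ∀ s : ℂ, ‖s - (c + γ * I)‖ ≤ 3 * R → ‖f s‖ ≤ Real.exp (b + P * max (c - s.re) 0))
    (hlo : ∀ s : ℂ, ‖s - (c + γ * I)‖ ≤ 3 * R → c ≤ s.re → Real.exp (-b) ≤ ‖f s‖) :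
    ∃ (Z : Multiset ℂ) (H : ℂ → ℂ),
      (∀ ρ, Z.count ρ = if ‖ρ - (c + γ * I)‖ ≤ δ then analyticOrderNatAt f ρ else 0) ∧
      (∀ ρ ∈ Z, ‖ρ - (c + γ * I)‖ ≤ δ ∧ f ρ = 0) ∧ (Z.card : ℝ) ≤ 2 * b + 3 * R * P ∧
      (H (c + γ * I)).re ≤ P / 2 + b / R + δ * (2 * b + 3 * R * P) / R ^ 2 ∧
      ‖H (c + γ * I)‖ ≤ 100 * (2 * b + 3 * R * P) / δ ∧
      DifferentiableOn ℂ H (Metric.ball ((c : ℂ) + γ * I) (3 * δ / 4)) ∧
      (∀ s : ℂ, ‖s - (c + γ * I)‖ ≤ δ / 2 → f s ≠ 0 →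
        -deriv f s / f s + (Z.map fun ρ => 1 / (s - ρ)).sum = H s) ∧
      ∀ s : ℂ, ‖s - (c + γ * I)‖ ≤ δ / 2 →
        ‖H s - H (c + γ * I)‖ ≤ 100 * (2 * b + 3 * R * P) / δ ^ 2 * ‖s - (c + γ * I)‖ := by
  have e1 : ∀ s : ℂ, s + γ * I - (c + γ * I) = s - c := fun s => by ring
  have e2 : ∀ s : ℂ, s - γ * I - c = s - (c + γ * I) := fun s => by ring
  have e3 : ∀ s : ℂ, (s + γ * I).re = s.re := fun s => by simp
  obtain ⟨Z, H, z1, z2, z3, z4, z5, z6, z7, z8⟩ := jenH (fun s => f (s + γ * I))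
    (hf.comp (by fun_prop)) c R δ b P hR hδ hδR hb hP
    (fun s hs => by simpa only [e3] using hup (s + γ * I) (by rwa [e1]))
    (fun s hs h => hlo (s + γ * I) (by rwa [e1]) (by rwa [e3]))
  refine ⟨Z.map fun z => z + γ * I, fun s => H (s - γ * I), fun ρ => ?_, fun ρ hρ => ?_, ?_, ?_,
    ?_, ?_, fun s hs h => ?_, fun s hs => ?_⟩
  · have h1 := Multiset.count_map_eq_count' (fun z : ℂ => z + γ * I) Z
      (add_left_injective _) (ρ - γ * I)
    simp only [sub_add_cancel] at h1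
    rw [h1, z1, jen_shift, sub_add_cancel, e2]
  · obtain ⟨z, hz, rfl⟩ := Multiset.mem_map.1 hρ
    rw [e1]
    exact z2 z hz
  · rwa [Multiset.card_map]
  · simpa only [add_sub_cancel_right] using z4
  · simpa only [add_sub_cancel_right] using z5
  · refine z6.comp (by fun_prop) fun s hs => ?_
    rw [Metric.mem_ball, dist_eq_norm] at hs ⊢
    rwa [e2]
  · have h1 := z7 (s - γ * I) (by rwa [e2]) (by rwa [sub_add_cancel])
    rw [deriv_comp_add_const, sub_add_cancel] at h1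
    refine Eq.trans ?_ h1
    rw [Multiset.map_map]
    congr 3
    funext z
    simp only [Function.comp]
    ring
  · have h1 := z8 (s - γ * I) (by rwa [e2])
    rw [e2] at h1
    simpa only [add_sub_cancel_right] using h1

theorem jen_series {Q : ℕ} [NeZero Q] (ξ : DC Q) [Decidable (ξ = 1)] {s : ℂ} (hs : 1 < s.re) :
    LSeries (fun n => pr ξ n * (vonMangoldt n : ℂ)) s =
      (if ξ = 1 then 1 / (s - 1) else 0) + -deriv (Lp ξ) s / Lp ξ s := by
  have key : ∀ {m : ℕ} [NeZero m] (ψ : DC m),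
      LSeries (fun n => ψ (n : ZMod m) * (vonMangoldt n : ℂ)) s =
      -deriv ψ.LFunction s / ψ.LFunction s := by
    intro m _ ψ
    rw [ψ.deriv_LFunction_eq_deriv_LSeries hs, ψ.LFunction_eq_LSeries hs]
    exact DirichletCharacter.LSeries_twist_vonMangoldt_eq ψ hs
  have k := key ξ.primitiveCharacter
  unfold pr
  rw [k]
  by_cases h : ξ = 1
  · have h' := (prim_eq_one_iff ξ).2 h
    have hs1 : s ≠ 1 := fun h => ((h ▸ hs).trans_eq one_re).false
    have h3 := DirichletCharacter.LFunction_ne_zero_of_one_le_re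
      (1 : DirichletCharacter ℂ ξ.conductor) (.inr hs1) hs.le
    have h4 := sub_ne_zero_of_ne hs1
    rw [if_pos h, Lp, h', Lf_one,
      DirichletCharacter.deriv_LFunctionTrivChar₁_apply_of_ne_one _ hs1,
      DirichletCharacter.LFunctionTrivChar₁, Function.update_of_ne hs1,
      DirichletCharacter.LFunctionTrivChar]
    field_simp
    ring
  · rw [if_neg h, Lp_of_ne h, zero_add]

theorem jen_lower {Q : ℕ} [NeZero Q] (ξ : DC Q) {L : ℝ} (hL : 1 ≤ L) {s : ℂ}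
    (hs : 1 + 1 / L ≤ s.re) : 1 / (2 * L ^ 2) ≤ ‖Lp ξ s‖ := by
  have hL0 : 0 < L := by linarith
  have h1L : 0 < 1 / L := by positivity
  have h1 : 1 < s.re := by linarith
  have h5 : 1 ≤ L * (s.re - 1) := by
    have := mul_le_mul_of_nonneg_left (show 1 / L ≤ s.re - 1 by linarith) hL0.le
    rwa [mul_one_div_cancel hL0.ne'] at this
  have h2 : 1 / (2 * L) ≤ (s.re - 1) / s.re := by
    rw [div_le_div_iff₀ (by positivity) (by linarith)]
    nlinarith
  have h3 := h2.trans (lfun_lower ξ.primitiveCharacter h1)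
  by_cases h : ξ = 1
  · have h' := (prim_eq_one_iff ξ).2 h
    have hs1 : s ≠ 1 := fun h => ((h ▸ h1).trans_eq one_re).false
    rw [h'] at h3
    rw [Lp, h', Lf_one, DirichletCharacter.LFunctionTrivChar₁, Function.update_of_ne hs1,
      norm_mul, DirichletCharacter.LFunctionTrivChar]
    have h6 : 1 / L ≤ ‖s - 1‖ := by
      have := abs_re_le_norm (s - 1)
      rw [sub_re, one_re] at this
      linarith [le_abs_self (s.re - 1)]
    calc 1 / (2 * L ^ 2) = 1 / L * (1 / (2 * L)) := by field_simp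
      _ ≤ _ := mul_le_mul h6 h3 (by positivity) (norm_nonneg _)
  · rw [Lp_of_ne h]
    refine le_trans ?_ h3
    gcongr
    nlinarith

theorem jen_upper {ph0 : ℝ} (hTB : TB ph0) {e : ℝ} (he : 0 < e) : ∃ th C : ℝ, 0 < th ∧
    th ≤ 1 / 2 ∧ 1 ≤ C ∧ ∀ (Q : ℕ) [NeZero Q] (ξ : DC Q) (y K : ℝ) (s : ℂ), 1 ≤ y →
      cd ξ ^ (ph0 + e) ≤ y → 1 - th / 2 ≤ s.re → 1 ≤ K → ‖s‖ ≤ K →
      ‖Lp ξ s‖ ≤ C * K ^ 2 * (1 + Real.log y) * y ^ (max (1 - s.re) 0) := by
  obtain ⟨th, C, h0, h1, hC, hB⟩ := hTB e he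
  obtain ⟨C', hC', hup⟩ := lfun_upperK th C h0 h1 hC
  refine ⟨th, C' + 48, h0, h1, by linarith, fun Q _ ξ y K s hy hcd hs hK hsK => ?_⟩
  have hlog := Real.log_nonneg hy
  have hyp : 1 ≤ y ^ (max (1 - s.re) 0) := Real.one_le_rpow hy (le_max_right _ _)
  by_cases h : ξ = 1
  · have h2 := LF_upper ξ.primitiveCharacter (s := s) (by linarith)
    have h3 : ((ξ.conductor : ℕ) : ℝ) = 1 := by
      rw [h]
      exact cd_one
    rw [h3] at h2
    have h4 : (1 + ‖s‖) ^ 2 ≤ (2 * K) ^ 2 := by gcongr; linarith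
    calc ‖Lp ξ s‖ ≤ 12 * 1 * (1 + ‖s‖) ^ 2 := h2
      _ ≤ 48 * K ^ 2 * 1 * 1 := by nlinarith
      _ ≤ _ := by gcongr <;> linarith
  · rw [Lp_of_ne h]
    have h2 := hup _ ξ.primitiveCharacter y (mt (prim_eq_one_iff ξ).1 h) hy (fun x hx => by
      have h3 := hB Q ξ h 1 le_rfl x hx
      rw [filter_true_of_mem (fun n _ => Nat.coprime_one_right n), Nat.cast_one, mul_one,
        ← Real.rpow_add (cd_pos ξ)] at h3
      refine h3.trans ?_
      have := Real.rpow_nonneg (cd_pos ξ).le (ph0 + e)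
      gcongr) s K hs hK hsK
    refine h2.trans ?_
    gcongr
    · linarith
    · nlinarith

open Classical in
/-- Partial fractions at height `γ`, with the sharp constant `ph / 2`. -/
theorem pf {ph0 : ℝ} (hTB : TB ph0) {e ε : ℝ} (he : 0 < e) (hε : 0 < ε) :
    ∃ δ η M P0 : ℝ, 0 < δ ∧ δ ≤ 1 / 24 ∧ 0 < η ∧ 1 ≤ M ∧ 3 ≤ P0 ∧ ∀ P : ℝ, P0 ≤ P →
      ∀ (Q : ℕ) [NeZero Q] (ξ : DC Q) (ph γ : ℝ), 0 ≤ ph → ph ≤ 2 →
        cd ξ ^ (ph0 + e) ≤ P ^ ph → |γ| ≤ P ^ η →
        ∃ (Z : Multiset ℂ) (H : ℂ → ℂ),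
          (∀ ρ, Z.count ρ = if ‖ρ - cc P γ‖ ≤ δ then ord ξ ρ else 0) ∧
          (∀ ρ ∈ Z, ‖ρ - cc P γ‖ ≤ δ ∧ ρ.re < 1) ∧ (Z.card : ℝ) ≤ M * Real.log P ∧
          (H (cc P γ)).re ≤ (ph / 2 + ε) * Real.log P ∧ ‖H (cc P γ)‖ ≤ M * Real.log P ∧
          DifferentiableOn ℂ H (Metric.ball (cc P γ) (3 * δ / 4)) ∧
          (∀ s : ℂ, ‖s - cc P γ‖ ≤ δ / 2 →
            ‖H s - H (cc P γ)‖ ≤ M * Real.log P * ‖s - cc P γ‖) ∧
          ∀ s : ℂ, ‖s - cc P γ‖ ≤ δ / 2 → 1 < s.re →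
            LSeries (fun n => pr ξ n * (vonMangoldt n : ℂ)) s =
              (if ξ = 1 then 1 / (s - 1) else 0) - (Z.map fun ρ => 1 / (s - ρ)).sum + H s := by
  obtain ⟨θ, C, hθ, hθ', hC, hup⟩ := jen_upper hTB he
  set e1 : ℝ := min ε 1 with he1
  have he0 : 0 < e1 := lt_min hε one_pos
  have he1' : e1 ≤ 1 := min_le_right _ _
  have he1ε : e1 ≤ ε := min_le_left _ _
  set R : ℝ := θ / 6 with hR
  have hR0 : 0 < R := by positivity
  have hR1 : R ≤ 1 / 12 := by linarith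
  set δ : ℝ := e1 * R ^ 2 / 2 with hδ
  have hδ0 : 0 < δ := by positivity
  have heR : e1 * R ≤ 1 / 12 := by nlinarith
  have hδR : δ ≤ R / 2 := by
    have h2 := mul_le_mul_of_nonneg_right heR hR0.le
    rw [hδ]
    nlinarith
  set η : ℝ := e1 * R / 8 with hη
  have hη0 : 0 < η := by positivity
  have p1 : 0 < 100 / δ := by positivity
  have p2 : 0 < 100 / δ ^ 2 := by positivity
  have tL := Real.tendsto_log_atTop
  have t4 : Tendsto (fun P : ℝ => (Real.log C + 6) * (Real.log P)⁻¹ +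
      2 * (Real.log (Real.log P) / Real.log P)) atTop (nhds 0) := by
    have := ((tendsto_inv_atTop_zero.comp tL).const_mul (Real.log C + 6)).add
      ((Real.isLittleO_log_id_atTop.tendsto_div_nhds_zero.comp tL).const_mul 2)
    simpa using this
  obtain ⟨P0, hP0⟩ := eventually_atTop.1 (((tL.eventually_ge_atTop 1).and
    (t4.eventually_le_const (show 0 < e1 * R / 4 by positivity))).and (eventually_ge_atTop 3))
  refine ⟨δ, η, 1 + 100 / δ + 100 / δ ^ 2, max P0 3, hδ0, by linarith, hη0, by linarith,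
    le_max_right _ _, fun P hP Q _ ξ ph γ hph hph2 hcd hγ => ?_⟩
  obtain ⟨⟨g1, g2⟩, g3⟩ := hP0 P ((le_max_left _ _).trans hP)
  have hP0' : 0 < P := by linarith
  set L := Real.log P with hL
  have hL0 : 0 < L := by linarith
  have h1L : 0 < 1 / L := by positivity
  have h1L' : 1 / L ≤ 1 := by rw [div_le_one hL0]; exact g1
  set b : ℝ := Real.log C + 6 + 2 * Real.log L + 2 * η * L with hb
  have hlC := Real.log_nonneg hC
  have hlL := Real.log_nonneg g1
  have hηL : 0 ≤ η * L := by positivity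
  have hb1 : 1 ≤ b := by linarith
  have hb2 : b ≤ e1 * R / 2 * L := by
    have h1 : Real.log C + 6 + 2 * Real.log L =
        ((Real.log C + 6) * L⁻¹ + 2 * (Real.log L / L)) * L := by field_simp
    have h2 := mul_le_mul_of_nonneg_right g2 hL0.le
    rw [hb, h1, hη]
    linarith
  have hPη : P ^ η = Real.exp (η * L) := by rw [Real.rpow_def_of_pos hP0', mul_comm]
  have hPph : P ^ ph = Real.exp (ph * L) := by rw [Real.rpow_def_of_pos hP0', mul_comm]
  have eb : Real.exp b = C * Real.exp 6 * L ^ 2 * Real.exp (η * L) ^ 2 := by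
    rw [hb, Real.exp_add, Real.exp_add, Real.exp_add, Real.exp_log (by linarith), two_mul,
      Real.exp_add, Real.exp_log hL0, mul_assoc 2, two_mul, Real.exp_add]
    ring
  have e6 : 48 ≤ Real.exp 6 := by
    have h1 : Real.exp 6 = Real.exp 1 ^ 6 := by rw [← Real.exp_nat_mul]; norm_num
    have h2 : (2 : ℝ) ^ 6 ≤ Real.exp 1 ^ 6 := by
      gcongr
      linarith [Real.add_one_le_exp 1]
    rw [h1]
    linarith
  have hE1 : 1 ≤ Real.exp (η * L) := Real.one_le_exp hηL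
  have hphL : 0 ≤ ph * L := by positivity
  obtain ⟨Z, H, z1, z2, z3, z4, z5, z6, z7, z8⟩ := jenC (Lp ξ) (Lp_diff ξ) (1 + 1 / L) γ R δ b
    (ph * L) hR0 hδ0 hδR hb1 hphL
    (fun s hs => by
      have h1 := (abs_re_le_norm _).trans hs
      simp only [sub_re, add_re, ofReal_re, mul_re, I_re, mul_zero, ofReal_im, I_im, mul_one,
        sub_self, add_zero, abs_le] at h1
      have h2 : ‖s‖ ≤ 4 * Real.exp (η * L) := by
        have h3 := norm_add_le (s - (((1 + 1 / L : ℝ) : ℂ) + γ * I)) (((1 + 1 / L : ℝ) : ℂ) + γ * I)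
        have h4 := norm_add_le ((1 + 1 / L : ℝ) : ℂ) (γ * I)
        rw [norm_mul, norm_I, mul_one, norm_real, norm_real, Real.norm_eq_abs, Real.norm_eq_abs,
          abs_of_pos (by linarith)] at h4
        rw [sub_add_cancel] at h3
        rw [hPη] at hγ
        linarith
      have h3 := hup Q ξ (P ^ ph) (4 * Real.exp (η * L)) s
        (Real.one_le_rpow (by linarith) hph) hcd (by linarith) (by linarith) h2
      refine h3.trans ?_
      rw [hPph, Real.log_exp, ← Real.exp_mul, Real.exp_add, eb]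
      have h4 : max (1 - s.re) 0 ≤ max ((1 + 1 / L) - s.re) 0 := max_le_max (by linarith) le_rfl
      have h5 : 1 + ph * L ≤ 3 * L ^ 2 := by
        have k1 := mul_le_mul_of_nonneg_right hph2 hL0.le
        have k2 : L ≤ L ^ 2 := le_self_pow₀ g1 two_ne_zero
        linarith
      calc _ ≤ C * (4 * Real.exp (η * L)) ^ 2 * (3 * L ^ 2) *
            Real.exp (ph * L * max ((1 + 1 / L) - s.re) 0) := by gcongr
        _ = C * 48 * L ^ 2 * Real.exp (η * L) ^ 2 *
            Real.exp (ph * L * max ((1 + 1 / L) - s.re) 0) := by ring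
        _ ≤ _ := by gcongr)
    (fun s _ hs => by
      refine le_trans ?_ (jen_lower ξ g1 hs)
      rw [Real.exp_neg, eb, ← one_div]
      refine one_div_le_one_div_of_le (by positivity) ?_
      calc 2 * L ^ 2 ≤ 1 * 48 * L ^ 2 * 1 ^ 2 := by linarith [sq_nonneg L]
        _ ≤ _ := by gcongr)
  have hN : 2 * b + 3 * R * (ph * L) ≤ L := by
    have h1 : R * (ph * L) ≤ 1 / 12 * (2 * L) :=
      mul_le_mul hR1 (mul_le_mul_of_nonneg_right hph2 hL0.le) hphL (by norm_num)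
    have h2 := mul_le_mul_of_nonneg_right heR hL0.le
    linarith
  refine ⟨Z, H, z1, fun ρ hρ => ⟨(z2 ρ hρ).1, ?_⟩, ?_, ?_, ?_, z6, fun s hs => ?_,
    fun s hs h1 => ?_⟩
  · exact re_lt_one_of_ord ((ord_ne_zero_iff ξ ρ).2 (z2 ρ hρ).2)
  · exact (z3.trans hN).trans (le_mul_of_one_le_left hL0.le (by linarith))
  · refine z4.trans ?_
    have a1 : b / R ≤ e1 / 2 * L := by
      rw [div_le_iff₀ hR0]
      linarith
    have a2 : δ * (2 * b + 3 * R * (ph * L)) / R ^ 2 ≤ e1 / 2 * L := by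
      rw [div_le_iff₀ (by positivity)]
      calc _ ≤ δ * L := mul_le_mul_of_nonneg_left hN hδ0.le
        _ = _ := by rw [hδ]; ring
    have a3 := mul_le_mul_of_nonneg_right he1ε hL0.le
    linarith
  · refine z5.trans ?_
    calc _ ≤ 100 * L / δ := by gcongr
      _ = 100 / δ * L := by ring
      _ ≤ _ := mul_le_mul_of_nonneg_right (by linarith) hL0.le
  · refine (z8 s hs).trans (mul_le_mul_of_nonneg_right ?_ (norm_nonneg _))
    calc _ ≤ 100 * L / δ ^ 2 := by gcongr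
      _ = 100 / δ ^ 2 * L := by ring
      _ ≤ _ := mul_le_mul_of_nonneg_right (by linarith) hL0.le
  · rw [jen_series ξ h1, ← z7 s hs (Lp_ne_zero ξ h1.le)]
    ring

end Pool.Agent.Lib.MP_778b46_nt.GX
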