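import Pool.Agent.Lib.MP_778b46_nt.GX.ClDef
import Pool.Agent.Lib.MP_778b46_nt.GX.ClA
import Pool.Agent.Lib.MP_778b46_nt.GX.Jen
import Pool.Agent.Lib.MP_e97e2b_nt.Ln.A5
import Pool.Agent.Lib.MP_e97e2b_nt.Ln.C1

/- The explicit formula for twice differentiable test functions at any height. -/

namespace Pool.Agent.Lib.MP_778b46_nt.GX

open Complex Finset Filter ArithmeticFunction
open Pool.Agent.Lib.MP_e97e2b_nt.Ln hiding Dat Clean

open Classical in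
/-- `pf`, then `perron2` with `a n = pr ξ n * Λ n`, `L = log P`, `r = δ / 2`, `N = ⌊P ^ 8⌋₊`, `h0 = H (cc P γ)`,
`Zr = Z` and `e = -1` if `ξ ≠ 1`; `Zr = 1 ::ₘ Z` and `e ρ = if ρ = 1 then 1 else -1` if `ξ = 1` (members of `Z`
have real part `< 1`); `lambda_sum`; `h = h0 / L`.  Template: `ef_one` in Ln/A6b. -/
theorem ef_tri {ph0 : ℝ} (hTB : TB ph0) {e ε : ℝ} (he : 0 < e) (hε : 0 < ε) :
    ∃ δ η P0 : ℝ, 0 < δ ∧ δ ≤ 1 / 24 ∧ 0 < η ∧ 3 ≤ P0 ∧ ∀ P : ℝ, P0 ≤ P →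
      ∀ (Q : ℕ) [NeZero Q] (ξ : DC Q) (ph γ : ℝ), 0 ≤ ph → ph ≤ 2 →
        cd ξ ^ (ph0 + e) ≤ P ^ ph → |γ| ≤ P ^ η →
        ∃ (Z : Multiset ℂ) (h : ℂ),
          (∀ ρ, Z.count ρ = if ‖ρ - cc P γ‖ ≤ δ then ord ξ ρ else 0) ∧ h.re ≤ ph / 2 + ε ∧
          ∀ u : ℝ, 0 ≤ u → u ≤ 8 →
            ‖∑ n ∈ Ioc 0 ⌊P ^ (8 : ℝ)⌋₊, ((mw P n * tri u (tt P n) : ℝ) : ℂ) *
                (exp (-((γ * Real.log P * tt P n : ℝ) : ℂ) * I) * pr ξ n) -
              (if ξ = 1 then II u (-(((γ * Real.log P : ℝ) : ℂ) * I)) else 0) +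
              (Z.map fun ρ => II u (Real.log P * (ρ - 1) - (γ * Real.log P : ℝ) * I)).sum -
              u * h‖ ≤ ε := by
  obtain ⟨δ, η, M, P0, hδ, hδ', hη, hM, hP0, hpf⟩ := pf hTB he hε
  obtain ⟨M1, L0, hM1, hlam⟩ := lambda_sum
  obtain ⟨Cp, hCp, hper⟩ := perron2
  have hr : 0 < δ / 2 := by positivity
  have tL := Real.tendsto_log_atTop
  have t3 : Tendsto (fun P : ℝ => (Real.sqrt (Real.log P))⁻¹) atTop (nhds 0) :=
    tendsto_inv_atTop_zero.comp (Real.tendsto_sqrt_atTop.comp tL)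
  have t5 : Tendsto (fun P : ℝ => Cp * ((M + M1) / (δ / 2) ^ 2 * (Real.sqrt (Real.log P))⁻¹))
      atTop (nhds 0) := by
    simpa using (t3.const_mul ((M + M1) / (δ / 2) ^ 2)).const_mul Cp
  have ev := (((tL.eventually_ge_atTop 1).and (tL.eventually_ge_atTop L0)).and
    ((tL.eventually_ge_atTop (δ / 2)⁻¹).and (t5.eventually_le_const hε)))
  obtain ⟨P1, hP1⟩ := eventually_atTop.1 ev
  refine ⟨δ, η, max P0 P1, hδ, hδ', hη, le_max_of_le_left hP0, ?_⟩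
  intro P hP Q _ ξ ph γ h1 h2 h3 h4
  obtain ⟨⟨g1, g2⟩, g3, g5⟩ := hP1 P ((le_max_right _ _).trans hP)
  have hPP := (le_max_left _ _).trans hP
  have hPpos : 0 < P := by linarith
  obtain ⟨Z, H, z1, z2, z3, z4, z5, -, z7, z8⟩ := hpf P hPP Q ξ ph γ h1 h2 h3 h4
  unfold mw tt
  unfold cc at z4 z5 z7 z8
  set L := Real.log P with hLd
  have hL : 0 < L := by linarith
  refine ⟨Z, H (((1 + 1 / L : ℝ) : ℂ) + γ * I) / L, z1, ?_, fun u hu hu8 => ?_⟩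
  · rw [div_ofReal_re, div_le_iff₀ hL]
    exact z4
  have hz : ∀ φ : ℂ → ℂ, ((if ξ = 1 then 1 ::ₘ Z else Z).map
      fun ρ => (if ρ = 1 then 1 else -1) * φ ρ).sum =
        (if ξ = 1 then φ 1 else 0) - (Z.map φ).sum := by
    intro φ
    have a1 : (Z.map fun ρ => (if ρ = 1 then 1 else -1) * φ ρ).sum = -(Z.map φ).sum := by
      rw [← Multiset.sum_map_neg]
      refine congrArg _ (Multiset.map_congr rfl fun ρ hρ => ?_)
      rw [if_neg, neg_one_mul]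
      rintro rfl
      simpa using (z2 1 hρ).2
    split_ifs
    · rw [Multiset.map_cons, Multiset.sum_cons, a1, if_pos rfl, one_mul, sub_eq_add_neg]
    · rw [a1, zero_sub]
  obtain ⟨hs1, hs2⟩ := hlam L g2 g1
  have hle : ∀ n : ℕ, ‖pr ξ n * (vonMangoldt n : ℂ)‖ *
      (n : ℝ) ^ (-(1 + 1 / L)) ≤ vonMangoldt n * (n : ℝ) ^ (-(1 + 1 / L)) := by
    intro n
    refine mul_le_mul_of_nonneg_right ?_ (Real.rpow_nonneg (Nat.cast_nonneg _) _)
    rw [norm_mul, Complex.norm_real, Real.norm_eq_abs, abs_of_nonneg vonMangoldt_nonneg]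
    exact mul_le_of_le_one_left vonMangoldt_nonneg (norm_pr_le ξ n)
  have hsm : Summable fun n : ℕ => ‖pr ξ n * (vonMangoldt n : ℂ)‖ * (n : ℝ) ^ (-(1 + 1 / L)) :=
    Summable.of_nonneg_of_le (fun n => by positivity) hle hs1
  have hML : M * L ≤ (M + M1) * L := mul_le_mul_of_nonneg_right (by linarith) hL.le
  have hp := hper (fun n => pr ξ n * (vonMangoldt n : ℂ)) L (M + M1) (δ / 2) γ u ⌊P ^ (8 : ℝ)⌋₊
    (if ξ = 1 then 1 ::ₘ Z else Z) (fun ρ => if ρ = 1 then 1 else -1)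
    (H (((1 + 1 / L : ℝ) : ℂ) + γ * I)) g1 (by linarith) hr (by linarith)
    (by
      have := mul_le_mul_of_nonneg_left g3 hr.le
      rwa [mul_inv_cancel₀ hr.ne'] at this)
    hu hu8
    (by
      have e1 : Real.exp (L * 8) = P ^ (8 : ℝ) := (Real.rpow_def_of_pos hPpos _).symm
      have e2 : Real.exp (u * L) ≤ Real.exp (L * 8) := Real.exp_le_exp.2 (by nlinarith)
      have e3 := Nat.lt_floor_add_one (P ^ (8 : ℝ))
      linarith)
    (fun ρ => by split_ifs <;> simp)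
    (z5.trans hML)
    (by
      split_ifs
      · rw [Multiset.card_cons]
        push_cast
        nlinarith
      · exact z3.trans hML)
    (fun ρ hρ => by
      split_ifs at hρ
      · rcases Multiset.mem_cons.1 hρ with rfl | h
        · simp
        · exact (z2 ρ h).2.le
      · exact (z2 ρ hρ).2.le)
    hsm (((hsm.tsum_le_tsum hle hs1).trans hs2).trans
      (mul_le_mul_of_nonneg_right (by linarith) hL.le))
    (by
      intro v hv
      have hre : 1 < ((((1 + 1 / L : ℝ) : ℂ) + v * I)).re := by simp [hL]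
      have hn : ‖(((1 + 1 / L : ℝ) : ℂ) + v * I) - (((1 + 1 / L : ℝ) : ℂ) + γ * I)‖ = |v - γ| := by
        rw [add_sub_add_left_eq_sub, ← sub_mul, norm_mul, norm_I, mul_one, ← ofReal_sub,
          Complex.norm_real, Real.norm_eq_abs]
      have h6 := z7 _ (hn.trans_le hv)
      rw [hz fun ρ => 1 / (((1 + 1 / L : ℝ) : ℂ) + v * I - ρ), z8 _ (hn.trans_le hv) hre,
        add_sub_cancel_left]
      rw [hn] at h6
      exact h6.trans (mul_le_mul_of_nonneg_right hML (abs_nonneg _)))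
  rw [hz fun ρ => II u (L * (ρ - 1) - (γ * L : ℝ) * I), sub_self, mul_zero, zero_sub] at hp
  have e1 : ∑ n ∈ Ioc 0 ⌊P ^ (8 : ℝ)⌋₊, ((1 / (n * L) * tri u (Real.log n / L) : ℝ) : ℂ) *
      (exp (-((γ * Real.log n : ℝ) : ℂ) * I) * (pr ξ n * (vonMangoldt n : ℂ))) =
      ∑ n ∈ Ioc 0 ⌊P ^ (8 : ℝ)⌋₊, ((vonMangoldt n / (n * L) * tri u (Real.log n / L) : ℝ) : ℂ) *
        (exp (-((γ * L * (Real.log n / L) : ℝ) : ℂ) * I) * pr ξ n) := by
    refine Finset.sum_congr rfl fun n _ => ?_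
    rw [show γ * L * (Real.log n / L) = γ * Real.log n by field_simp]
    push_cast
    ring
  rw [e1, ← sub_add] at hp
  refine hp.trans (le_trans (le_of_eq ?_) g5)
  rw [← div_div, div_eq_mul_inv _ (Real.sqrt L)]

theorem clb_sum_rep {T : ℝ} (hT : 0 ≤ T) (g g1 g2 : ℝ → ℝ) (h1 : ∀ t, HasDerivAt g (g1 t) t)
    (h2 : ∀ t, HasDerivAt g1 (g2 t) t) (hc : Continuous g2) (hgT : g T = 0)
    (s : Finset ℕ) (m t : ℕ → ℝ) (ht : ∀ n, 0 ≤ t n) (w : ℕ → ℂ) :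
    ∑ n ∈ s, ((m n * cut g T (t n) : ℝ) : ℂ) * w n =
      -(g1 T : ℂ) * (∑ n ∈ s, ((m n * tri T (t n) : ℝ) : ℂ) * w n) +
        ∫ a in (0 : ℝ)..T, (g2 a : ℂ) * ∑ n ∈ s, ((m n * tri a (t n) : ℝ) : ℂ) * w n := by
  simp_rw [Finset.mul_sum]
  rw [intervalIntegral.integral_finsetSum, ← Finset.sum_add_distrib]
  · refine Finset.sum_congr rfl fun n _ => ?_
    rw [c1_cut_rep hT g g1 g2 h1 h2 hc hgT (ht n)]
    have e : ∫ a in (0 : ℝ)..T, (g2 a : ℂ) * (((m n * tri a (t n) : ℝ) : ℂ) * w n) =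
        (m n * w n) * ((∫ a in (0 : ℝ)..T, g2 a * tri a (t n) : ℝ) : ℂ) := by
      rw [← intervalIntegral.integral_ofReal, ← intervalIntegral.integral_const_mul]
      congr 1
      ext a
      push_cast
      ring
    rw [e]
    push_cast
    ring
  · intro n _
    have := c1_tri_cont (t n)
    exact Continuous.intervalIntegrable (by fun_prop) _ _

theorem clb_sum_cont (s : Finset ℕ) (m t : ℕ → ℝ) (w : ℕ → ℂ) :
    Continuous fun a : ℝ => ∑ n ∈ s, ((m n * tri a (t n) : ℝ) : ℂ) * w n := by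
  refine continuous_finsetSum _ fun n _ => ?_
  have := c1_tri_cont (t n)
  fun_prop

theorem clb_mult_cont (Z : Multiset ℂ) (ψ : ℂ → ℂ) :
    Continuous fun a : ℝ => (Z.map fun z => II a (ψ z)).sum := by
  simpa only [Multiset.map_map, Function.comp_def, sub_zero] using c1_mult_cont (Z.map ψ) 0

theorem clb_mult_rep {T : ℝ} (hT : 0 ≤ T) (g g1 g2 : ℝ → ℝ) (h1 : ∀ t, HasDerivAt g (g1 t) t)
    (h2 : ∀ t, HasDerivAt g1 (g2 t) t) (hc : Continuous g2) (hgT : g T = 0)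
    (Z : Multiset ℂ) (ψ : ℂ → ℂ) :
    (Z.map fun z => Lap g T (ψ z)).sum = -(g1 T : ℂ) * (Z.map fun z => II T (ψ z)).sum +
      ∫ a in (0 : ℝ)..T, (g2 a : ℂ) * (Z.map fun z => II a (ψ z)).sum := by
  simpa only [Multiset.map_map, Function.comp_def, sub_zero] using
    c1_mult_rep hT g g1 g2 h1 h2 hc hgT (Z.map ψ) 0

theorem clb_ite_cont (p : Prop) [Decidable p] (z : ℂ) :
    Continuous fun a : ℝ => if p then II a z else 0 := by
  split_ifs
  · exact c1_II_cont z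
  · exact continuous_const

theorem clb_ite_rep {T : ℝ} (hT : 0 ≤ T) (g g1 g2 : ℝ → ℝ) (h1 : ∀ t, HasDerivAt g (g1 t) t)
    (h2 : ∀ t, HasDerivAt g1 (g2 t) t) (hc : Continuous g2) (hgT : g T = 0)
    (p : Prop) [Decidable p] (z : ℂ) :
    (if p then Lap g T z else 0) = -(g1 T : ℂ) * (if p then II T z else 0) +
      ∫ a in (0 : ℝ)..T, (g2 a : ℂ) * (if p then II a z else 0) := by
  split_ifs
  · exact Lap_rep hT g g1 g2 h1 h2 hc hgT z
  · simp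

theorem clb_comb {g2 : ℝ → ℝ} (hc : Continuous g2) {A B C : ℝ → ℂ} (hA : Continuous A)
    (hB : Continuous B) (hC : Continuous C) (c h : ℂ) (T : ℝ) :
    c * A T + (∫ a in (0 : ℝ)..T, (g2 a : ℂ) * A a) -
        (c * B T + ∫ a in (0 : ℝ)..T, (g2 a : ℂ) * B a) +
        (c * C T + ∫ a in (0 : ℝ)..T, (g2 a : ℂ) * C a) -
        (c * T + ∫ a in (0 : ℝ)..T, (g2 a : ℂ) * a) * h =
      c * (A T - B T + C T - T * h) +
        ∫ a in (0 : ℝ)..T, (g2 a : ℂ) * (A a - B a + C a - a * h) := by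
  simp only [mul_add, mul_sub, ← mul_assoc]
  rw [intervalIntegral.integral_sub (Continuous.intervalIntegrable (by fun_prop) _ _)
    (Continuous.intervalIntegrable (by fun_prop) _ _),
    intervalIntegral.integral_add (Continuous.intervalIntegrable (by fun_prop) _ _)
    (Continuous.intervalIntegrable (by fun_prop) _ _),
    intervalIntegral.integral_sub (Continuous.intervalIntegrable (by fun_prop) _ _)
    (Continuous.intervalIntegrable (by fun_prop) _ _), intervalIntegral.integral_mul_const]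
  ring

open Classical in
/-- `ef_tri` with `ε / 9`; `c1_cut_rep` (copy `c1_sum_rep` for a plain finite sum, `tt P n ≥ 0`), `Lap_rep`,
`c1_mult_rep`, `c1_zero_rep`, `c1_master`.  Template: `raw_one` in Ln/C1. -/
theorem ef_tst {ph0 : ℝ} (hTB : TB ph0) {e ε : ℝ} (he : 0 < e) (hε : 0 < ε) :
    ∃ δ η P0 : ℝ, 0 < δ ∧ δ ≤ 1 / 24 ∧ 0 < η ∧ 3 ≤ P0 ∧ ∀ P : ℝ, P0 ≤ P →
      ∀ (Q : ℕ) [NeZero Q] (ξ : DC Q) (ph γ : ℝ), 0 ≤ ph → ph ≤ 2 →
        cd ξ ^ (ph0 + e) ≤ P ^ ph → |γ| ≤ P ^ η →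
        ∃ (Z : Multiset ℂ) (h : ℂ),
          (∀ ρ, Z.count ρ = if ‖ρ - cc P γ‖ ≤ δ then ord ξ ρ else 0) ∧ h.re ≤ ph / 2 + ε ∧
          ∀ (T B : ℝ) (g : ℝ → ℝ), 0 ≤ T → T ≤ 8 → Tst T B g →
            ‖∑ n ∈ Ioc 0 ⌊P ^ (8 : ℝ)⌋₊, ((mw P n * cut g T (tt P n) : ℝ) : ℂ) *
                (exp (-((γ * Real.log P * tt P n : ℝ) : ℂ) * I) * pr ξ n) -
              (if ξ = 1 then Lap g T (-(((γ * Real.log P : ℝ) : ℂ) * I)) else 0) +
              (Z.map fun ρ => Lap g T (Real.log P * (ρ - 1) - (γ * Real.log P : ℝ) * I)).sum -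
              g 0 * h‖ ≤ ε * B := by
  obtain ⟨δ, η, P0, hδ, hδ', hη, hP0, h⟩ := ef_tri hTB he (show 0 < ε / 9 by positivity)
  refine ⟨δ, η, P0, hδ, hδ', hη, hP0, ?_⟩
  intro P hP Q _ ξ ph γ h1 h2 h3 h4
  obtain ⟨Z, h0, z1, z2, z3⟩ := h P hP Q ξ ph γ h1 h2 h3 h4
  refine ⟨Z, h0, z1, by linarith, ?_⟩
  rintro T B g hT hT8 ⟨g1, g2, d1, d2, hc, hgT, hB, hB2⟩
  have m := c1_master (ε := ε / 9) hT hT8 g2 _ hB hB2 fun t ht htT => z3 t ht (htT.trans hT8)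
  have htt : ∀ n : ℕ, 0 ≤ tt P n := fun n =>
    div_nonneg (Real.log_natCast_nonneg n) (Real.log_nonneg (by linarith))
  rw [clb_sum_rep hT g g1 g2 d1 d2 hc hgT _ _ _ htt, clb_mult_rep hT g g1 g2 d1 d2 hc hgT,
    clb_ite_rep hT g g1 g2 d1 d2 hc hgT, c1_zero_rep hT g g1 g2 d1 d2 hc hgT]
  have k1 := clb_sum_cont (Ioc 0 ⌊P ^ (8 : ℝ)⌋₊) (mw P) (tt P)
    fun n => exp (-((γ * Real.log P * tt P n : ℝ) : ℂ) * I) * pr ξ n
  have k2 := clb_mult_cont Z fun ρ => Real.log P * (ρ - 1) - (γ * Real.log P : ℝ) * I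
  have k3 := clb_ite_cont (ξ = 1) (-(((γ * Real.log P : ℝ) : ℂ) * I))
  refine le_trans (le_of_eq (congrArg _ ?_)) (m.trans (le_of_eq (by ring)))
  exact clb_comb hc k1 k3 k2 _ _ _

/-- The identity `key` in the proof of `Lap_far` (Ln/C1) and `tst_zero`. -/
theorem Lap_norm {T B : ℝ} {g : ℝ → ℝ} (h : Tst T B g) (hT : 0 ≤ T) (hT8 : T ≤ 8) {z : ℂ}
    (hz : z.re ≤ 0) (hz0 : z ≠ 0) :
    (Lap g T z).re ≤ 18 * B / ‖z‖ ^ 2 + 40 * B * (-z.re) / ‖z‖ ^ 2 := by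
  have hg0 := tst_zero h hT hT8
  obtain ⟨g1, g2, h1, h2, hc, hgT, hB, hB2⟩ := h
  have e := c1_zero_rep hT g g1 g2 h1 h2 hc hgT
  have hn : 0 < ‖z‖ := norm_pos_iff.2 hz0
  have m := c1_master (ε := 2 / ‖z‖ ^ 2) hT hT8 g2 (fun a => (exp (z * a) - 1) / z ^ 2) hB hB2 (by
    intro t ht _
    rw [norm_div, norm_pow]
    refine div_le_div_of_nonneg_right ?_ (by positivity)
    have : ‖exp (z * t)‖ ≤ 1 := by
      rw [Complex.norm_exp, Real.exp_le_one_iff]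
      simp only [mul_re, ofReal_re, ofReal_im, mul_zero, sub_zero]
      exact mul_nonpos_of_nonpos_of_nonneg hz ht
    calc _ ≤ ‖exp (z * t)‖ + ‖(1 : ℂ)‖ := norm_sub_le _ _
      _ ≤ 2 := by rw [norm_one]; linarith)
  have key : Lap g T z = (-(g1 T : ℂ) * ((exp (z * T) - 1) / z ^ 2) +
      ∫ a in (0 : ℝ)..T, (g2 a : ℂ) * ((exp (z * a) - 1) / z ^ 2)) - (g 0 : ℂ) * z⁻¹ := by
    rw [Lap_rep hT g g1 g2 h1 h2 hc hgT, e]
    have e2 : ∫ a in (0 : ℝ)..T, (g2 a : ℂ) * II a z =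
        (∫ a in (0 : ℝ)..T, (g2 a : ℂ) * ((exp (z * a) - 1) / z ^ 2)) -
          (∫ a in (0 : ℝ)..T, (g2 a : ℂ) * a) * z⁻¹ := by
      rw [← intervalIntegral.integral_mul_const, ← intervalIntegral.integral_sub
        (Continuous.intervalIntegrable (by fun_prop) _ _)
        (Continuous.intervalIntegrable (by fun_prop) _ _)]
      congr 1
      ext a
      rw [II_closed a hz0]
      field_simp
    rw [e2, II_closed T hz0]
    field_simp
    ring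
  rw [key, sub_re]
  have b1 := (abs_le.1 ((Complex.abs_re_le_norm _).trans m)).2
  have b2 : -((g 0 : ℂ) * z⁻¹).re ≤ 40 * B * (-z.re) / ‖z‖ ^ 2 := by
    rw [re_ofReal_mul, inv_re, Complex.normSq_eq_norm_sq, ← mul_neg, ← neg_div, mul_div_assoc]
    exact mul_le_mul_of_nonneg_right ((le_abs_self _).trans hg0)
      (div_nonneg (neg_nonneg.2 hz) (by positivity))
  have b3 : 9 * B * (2 / ‖z‖ ^ 2) = 18 * B / ‖z‖ ^ 2 := by ring
  linarith

/-- `c1_cut_rep`: `|cut g T t| ≤ 8 B + ∫ B a da ≤ 40 B`, as in `tst_zero`. -/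
theorem cut_le {T B : ℝ} {g : ℝ → ℝ} (h : Tst T B g) (hT : 0 ≤ T) (hT8 : T ≤ 8) {t : ℝ}
    (ht : 0 ≤ t) : |cut g T t| ≤ 40 * B := by
  obtain ⟨g1, g2, h1, h2, hc, hgT, hB, hB2⟩ := h
  have hB0 : 0 ≤ B := (abs_nonneg _).trans hB
  have htri : ∀ a : ℝ, 0 ≤ a → |tri a t| ≤ a := fun a ha => by
    unfold tri
    rw [abs_of_nonneg (le_max_right _ _)]
    exact max_le (by linarith) ha
  rw [c1_cut_rep hT g g1 g2 h1 h2 hc hgT ht]
  have a1 : |-g1 T * tri T t| ≤ B * 8 := by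
    rw [abs_mul, abs_neg]
    exact mul_le_mul hB ((htri T hT).trans hT8) (abs_nonneg _) hB0
  have a2 : ‖∫ a in (0 : ℝ)..T, g2 a * tri a t‖ ≤ ∫ a in (0 : ℝ)..T, B * a := by
    apply intervalIntegral.norm_integral_le_of_norm_le hT
    · refine Filter.Eventually.of_forall fun a ha => ?_
      rw [Real.norm_eq_abs, abs_mul]
      exact mul_le_mul (hB2 a ha.1.le ha.2) (htri a ha.1.le) (abs_nonneg _) hB0
    · exact Continuous.intervalIntegrable (by fun_prop) _ _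
  rw [intervalIntegral.integral_const_mul, integral_id, Real.norm_eq_abs] at a2
  have a3 : T ^ 2 ≤ 64 := by nlinarith
  have a4 : B * ((T ^ 2 - 0 ^ 2) / 2) ≤ B * 32 := mul_le_mul_of_nonneg_left (by linarith) hB0
  calc _ ≤ _ := abs_add_le _ _
    _ ≤ B * 8 + B * 32 := add_le_add a1 (a2.trans a4)
    _ = 40 * B := by ring

end Pool.Agent.Lib.MP_778b46_nt.GX
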