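import Pool.Agent.Lib.MP_778b46_nt.GX.Basic

/- The arithmetic data of the model. -/

namespace Pool.Agent.Lib.MP_778b46_nt.GX

open Finset ArithmeticFunction

/-- Position of `n` on the logarithmic scale. -/
noncomputable def tt (P : ℝ) (n : ℕ) : ℝ := Real.log n / Real.log P

/-- Weight of `n`. -/
noncomputable def mw (P : ℝ) (n : ℕ) : ℝ := vonMangoldt n / (n * Real.log P)

/-- The integers that carry the weights. -/
noncomputable def Om (P : ℝ) (q : ℕ) : Finset ℕ :=
  (Ioc 1 ⌊P ^ (8 : ℝ)⌋₊).filter fun n => n.Coprime q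

end Pool.Agent.Lib.MP_778b46_nt.GX
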