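import Pool.Agent.Lib.MP_778b46_nt.GX.MoE
import Pool.Agent.Lib.MP_e97e2b_nt.Ln.S0
import Pool.Agent.Lib.MP_e97e2b_nt.Ln.S3
import Pool.Agent.Lib.MP_e97e2b_nt.Ln.S4

set_option autoImplicit false

noncomputable section

namespace Pool.Agent.Lib.MP_778b46_nt.GX

open Complex Finset Filter MeasureTheory Topology
open scoped Real ContDiff ArithmeticFunction.Moebius

/-! Sums with Selberg weights over a slice, uniformly in the level. -/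

namespace Mo

open Pool.Agent.Lib.MP_e97e2b_nt.Ln (tau)

variable {f : ℕ → ℂ} {a : ℂ} {C θ y L φ e₀ : ℝ}

theorem mot_local {p : ℕ} (hp : p.Prime) (J : ℕ) :
    ∑ k ∈ Icc 1 J, ((p ^ k : ℕ) : ℝ)⁻¹ ≤ (p : ℝ)⁻¹ / (1 - (p : ℝ)⁻¹) := by
  have hp1 : (1 : ℝ) < p := by exact_mod_cast hp.one_lt
  have hx1 : (p : ℝ)⁻¹ < 1 := inv_lt_one_of_one_lt₀ hp1
  have hx0 : 0 ≤ (p : ℝ)⁻¹ := by positivity
  have key : (1 - (p : ℝ)⁻¹) * ∑ k ∈ Icc 1 J, ((p ^ k : ℕ) : ℝ)⁻¹ =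
      (p : ℝ)⁻¹ - (p : ℝ)⁻¹ ^ (J + 1) := by
    induction J with
    | zero => simp
    | succ J ih =>
      rw [sum_Icc_succ_top (by omega), mul_add, ih, Nat.cast_pow, ← inv_pow]
      ring
  rw [le_div_iff₀' (by linarith), key]
  linarith [pow_nonneg hx0 (J + 1)]

theorem mot_GG (D : ℕ) : ∑ n ∈ Icc 1 D, (n : ℝ)⁻¹ ≤
    Pool.Agent.Lib.MP_e97e2b_nt.Ln.GG (fun p => (p : ℝ)⁻¹) 1 D := by
  have hmap : ∀ n ∈ Icc 1 D, ∏ p ∈ n.primeFactors, p ∈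
      (Icc 1 D).filter (fun d => Squarefree d ∧ d.Coprime 1) := by
    intro n hn
    obtain ⟨n0, nD⟩ := mem_Icc.1 hn
    have hd := Nat.prod_primeFactors_dvd n
    refine mem_filter.2 ⟨mem_Icc.2 ⟨Nat.pos_of_dvd_of_pos hd n0, (Nat.le_of_dvd n0 hd).trans nD⟩,
      ?_, Nat.coprime_one_right _⟩
    refine squarefree_prod_of_pairwise_isCoprime (fun a ha b hb hab => ?_)
      fun p hp => (Nat.prime_of_mem_primeFactors hp).squarefree
    simp only [← Nat.coprime_iff_isRelPrime]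
    exact (Nat.coprime_primes (Nat.prime_of_mem_primeFactors ha)
      (Nat.prime_of_mem_primeFactors hb)).mpr hab
  rw [← sum_fiberwise_of_maps_to hmap, Pool.Agent.Lib.MP_e97e2b_nt.Ln.GG]
  refine sum_le_sum fun d _ => ?_
  refine (Pool.Agent.Lib.MP_e97e2b_nt.Ln.s4_fiber (H := fun n => (n : ℝ)⁻¹)
    (fun n => by positivity) (by simp) (fun a b _ => ?_) D d.primeFactors _ fun n hn => ?_).trans ?_
  · rw [Nat.cast_mul, mul_inv]
  · obtain ⟨hn1, hn2⟩ := mem_filter.1 hn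
    obtain ⟨n0, nD⟩ := mem_Icc.1 hn1
    exact ⟨n0, nD, by rw [← hn2, Nat.primeFactors_prod_primeFactors]⟩
  · exact prod_le_prod (fun p _ => sum_nonneg fun k _ => by positivity) fun p hp =>
      mot_local (Nat.prime_of_mem_primeFactors hp) D

theorem mot_sqf {d e : ℕ} (hd : Squarefree d) (he : Squarefree e) : Squarefree (Nat.lcm d e) := by
  rw [Nat.squarefree_iff_factorization_le_one (Nat.lcm_ne_zero hd.ne_zero he.ne_zero),
    Nat.factorization_lcm hd.ne_zero he.ne_zero]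
  intro p
  rw [Finsupp.sup_apply]
  exact sup_le (hd.natFactorization_le_one p) (he.natFactorization_le_one p)

/-- `Ln.selberg` with `g p = 1 / p`, `q = 1`; the Selberg sum is at least `∑_{n ≤ W} 1 / n` (group `n` by its
set of prime factors, compare `s4_fiber` in `Ln/S4`), and `log_add_one_le_harmonic`. -/
theorem exists_sel {W : ℕ} (hW : 1 ≤ W) : ∃ (ρ : ℕ → ℝ) (G : ℝ), ρ 1 = 1 ∧ (∀ d, ρ d ≠ 0 → d ≤ W) ∧
    (∀ d, |ρ d| ≤ tau d ^ 2) ∧ Real.log (W + 1) ≤ G ∧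
    (∑ d ∈ Icc 1 W, ∑ e ∈ Icc 1 W, ρ d * ρ e / (Nat.lcm d e : ℝ)) * G = 1 := by
  obtain ⟨ρ, hρ, -, h2⟩ := Pool.Agent.Lib.MP_e97e2b_nt.Ln.selberg (fun p => (p : ℝ)⁻¹) 1 W hW
    fun p hp _ => by
      have h2 : (2 : ℝ) ≤ p := by exact_mod_cast hp.two_le
      exact ⟨by positivity, (inv_anti₀ two_pos h2).trans (by norm_num)⟩
  refine ⟨ρ, _, hρ.one, fun d hd => (hρ.supp d hd).1, hρ.bdd, le_trans ?_ (mot_GG W), ?_⟩
  · have h := log_add_one_le_harmonic W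
    rw [harmonic_eq_sum_Icc] at h
    push_cast at h
    exact h
  · rw [← h2]
    congr 1
    refine sum_congr rfl fun d _ => sum_congr rfl fun e _ => ?_
    by_cases hd : ρ d = 0
    · simp [hd]
    by_cases he : ρ e = 0
    · simp [he]
    rw [prod_inv_distrib, ← Nat.cast_prod, Nat.prod_primeFactors_of_squarefree
      (mot_sqf (hρ.supp d hd).2.1 (hρ.supp e he).2.1), div_eq_mul_inv]

/-- Substitute `u = exp (L t) / D` (`intervalIntegral.integral_comp_mul_deriv`). -/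
theorem int_lin (hL : 0 < L) {D : ℕ} (hD : 1 ≤ D) (τ τ' α β γ : ℝ) :
    ∫ u in (Real.exp (τ * L) / D)..(Real.exp (τ' * L) / D),
        (u : ℂ) ^ (-(1 + γ * I)) * ((α + β * (Real.log (D * u) / L) : ℝ) : ℂ) =
      (D : ℂ) ^ (γ * I) * L * ∫ t in τ..τ', ((α + β * t : ℝ) : ℂ) * cexp (-((γ * L * t : ℝ) * I)) := by
  have hD0 : (0 : ℝ) < D := by exact_mod_cast hD
  have hd : ∀ t : ℝ, HasDerivAt (fun t : ℝ => Real.exp (t * L) / D) (Real.exp (t * L) / D * L) t :=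
    fun t => (((hasDerivAt_mul_const L).exp).div_const (D : ℝ)).congr_deriv (by ring)
  rw [← intervalIntegral.integral_deriv_smul_comp_of_deriv_nonneg
    (f := fun t : ℝ => Real.exp (t * L) / D) (f' := fun t => Real.exp (t * L) / D * L)
    (fun t _ => (hd t).continuousAt.continuousWithinAt) (fun t _ => hd t)
    (fun t _ => by positivity), ← intervalIntegral.integral_const_mul]
  refine intervalIntegral.integral_congr fun t _ => ?_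
  have h1 := moa_exp_pow (t * L) (1 + γ * I) hD
  have h2 : ((Real.exp (t * L) / D : ℝ) : ℂ) ≠ 0 := ofReal_ne_zero.2 (by positivity)
  rw [sub_eq_add_neg, cpow_add _ _ h2, cpow_one, add_sub_cancel_left] at h1
  have h3 : cexp ((1 - (1 + γ * I)) * ((t * L : ℝ) : ℂ)) = cexp (-((γ * L * t : ℝ) * I)) := by
    congr 1
    push_cast
    ring
  simp only [Function.comp_apply, real_smul]
  rw [mul_div_cancel₀ _ hD0.ne', Real.log_exp, mul_div_cancel_right₀ _ hL.ne', ofReal_mul, ← h3]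
  linear_combination (L * ((α + β * t : ℝ) : ℂ)) * h1

theorem mot_ii (s : ℂ) {D : ℕ} (hD : 1 ≤ D) (L α β : ℝ) {u v : ℝ} (hu : 0 < u) (hv : 0 < v) :
    IntervalIntegrable (fun x : ℝ => (x : ℂ) ^ s * ((α + β * (Real.log (D * x) / L) : ℝ) : ℂ))
      volume u v := by
  have hD0 : (0 : ℝ) < D := by exact_mod_cast hD
  refine ((moa_cont _ hu hv).mul (continuous_ofReal.comp_continuousOn ?_)).intervalIntegrable
  refine continuousOn_const.add (continuousOn_const.mul (ContinuousOn.div_const ?_ _))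
  exact (continuousOn_const.mul continuousOn_id).log fun x hx =>
    (mul_pos hD0 ((lt_min hu hv).trans_le hx.1)).ne'

theorem mot_t (hL : 0 < L) {τ : ℝ} (h2 : τ ≤ 8) {D : ℕ} (hD : 1 ≤ D) {x : ℝ} (hx : 1 ≤ x)
    (hx' : x ≤ Real.exp (τ * L) / D) :
    0 ≤ Real.log (D * x) / L ∧ Real.log (D * x) / L ≤ 8 := by
  have hD1 : (1 : ℝ) ≤ D := by exact_mod_cast hD
  have h1 := one_le_mul_of_one_le_of_one_le hD1 hx
  refine ⟨div_nonneg (Real.log_nonneg h1) hL.le, ?_⟩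
  rw [div_le_iff₀ hL, Real.log_le_iff_le_exp (by linarith)]
  exact ((le_div_iff₀' (by linarith)).1 hx').trans (moe_exp hL h2)

theorem mot_st {t : ℝ} (h : 0 ≤ t ∧ t ≤ 8) (α β : ℝ) :
    ((α + β * t : ℝ) : ℂ) = ((α + 8 * β : ℝ) : ℂ) - ((8 * β : ℝ) : ℂ) * st 0 8 t := by
  unfold st
  rw [min_eq_right (by linarith [h.1]), max_eq_right (by linarith [h.2])]
  push_cast
  ring

theorem mot_end (hθ' : θ ≤ 1) (hL : 0 < L) {τ : ℝ} (h2 : τ ≤ 8) {D : ℕ} (hD : 1 ≤ D) {M x : ℝ}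
    (hM : 1 ≤ M) (hx : M ≤ ⌊x⌋₊) (hx0 : 0 ≤ x) (hx' : x ≤ Real.exp (τ * L) / D) (α β γ : ℝ) :
    ‖∫ u in (⌊x⌋₊ : ℝ)..x, (u : ℂ) ^ (-(1 + γ * I)) *
      ((α + β * (Real.log (D * u) / L) : ℝ) : ℂ)‖ ≤ 8 * (|α| + |β|) * M ^ (-θ) := by
  have f1 := Nat.floor_le hx0
  have f2 := Nat.lt_floor_add_one x
  have hM0 : 0 ≤ M := by linarith
  refine (intervalIntegral.norm_integral_le_of_norm_le_const (C := 8 * (|α| + |β|) * M ^ (-θ))
    fun u hu => ?_).trans (mul_le_of_le_one_right (by positivity) ?_)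
  · rw [Set.uIoc_of_le f1] at hu
    have hu1 : M ≤ u := hx.trans hu.1.le
    obtain ⟨t0, t8⟩ := mot_t hL h2 hD (hM.trans hu1) (hu.2.trans hx')
    rw [norm_mul, norm_cpow_eq_rpow_re_of_pos (by linarith), norm_real, Real.norm_eq_abs, mul_comm]
    refine mul_le_mul ((abs_add_le _ _).trans ?_) ?_ (Real.rpow_nonneg (hM0.trans hu1) _)
      (by positivity)
    · rw [abs_mul, abs_of_nonneg t0]
      have := mul_le_mul_of_nonneg_left t8 (abs_nonneg β)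
      linarith [abs_nonneg α]
    · exact (Real.rpow_le_rpow_of_nonpos (by linarith) hu1 (by simp)).trans
        (Real.rpow_le_rpow_of_exponent_le hM (by simpa using hθ'))
  · rw [abs_of_nonneg (by linarith)]
    linarith

theorem mot_comb {S1 S2 I1 I2 E1 E2 X Y Z a : ℂ} {c1 c2 K K' : ℝ} (ha : ‖a‖ ≤ 1)
    (b1 : ‖S1 - a * I1‖ ≤ K) (b2 : ‖S2 - a * I2‖ ≤ K) (b3 : ‖E1‖ ≤ K') (b4 : ‖E2‖ ≤ K')
    (j1 : E1 + X = Z) (j2 : Y + E2 = Z) (j3 : Y = c1 * I1 - c2 * I2) :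
    ‖c1 * S1 - c2 * S2 - a * X‖ ≤ (|c1| + |c2|) * K + 2 * K' := by
  have e : c1 * S1 - c2 * S2 - a * X = c1 * (S1 - a * I1) - c2 * (S2 - a * I2) + a * (E1 - E2) := by
    linear_combination (-a) * (j1 - j2 + j3)
  have h1 := mul_le_mul_of_nonneg_left b1 (abs_nonneg c1)
  have h2 := mul_le_mul_of_nonneg_left b2 (abs_nonneg c2)
  have h3 := (mul_le_of_le_one_left (norm_nonneg _) ha).trans
    ((norm_sub_le E1 E2).trans (add_le_add b3 b4))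
  rw [e]
  refine ((norm_add_le _ _).trans (add_le_add (norm_sub_le _ _) le_rfl)).trans ?_
  rw [norm_mul, norm_mul, norm_mul, norm_real, norm_real, Real.norm_eq_abs, Real.norm_eq_abs]
  linarith

/-- `sum_sub_main` with `k = 1` and with `k u = st 0 8 (log (D u) / L)`, which is `1 - t / 8` for
`0 ≤ t ≤ 8`; moving the two ends of the integral to the integer parts costs at most
`2 (|α| + 8 |β|) / M`, `M = ⌊exp (τ L) / D⌋₊`; `floor_pow_le`, `int_lin`. -/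
theorem lin_D (hθ : 0 < θ) (hθ' : θ ≤ 1) (hC : 1 ≤ C) (hy : 1 ≤ y) (ha : ‖a‖ ≤ 1) (hf : Pb f a C θ y)
    (hL : 0 < L) {τ τ' : ℝ} (h1 : τ ≤ τ') (h2 : τ' ≤ 8) {D : ℕ} (hD : 1 ≤ D)
    (hD' : (D : ℝ) ≤ Real.exp (τ * L)) (α β γ : ℝ) :
    ‖∑ m ∈ Ioc ⌊Real.exp (τ * L) / D⌋₊ ⌊Real.exp (τ' * L) / D⌋₊,
        f m * (m : ℂ) ^ (-(1 + γ * I)) * ((α + β * (Real.log (D * m : ℕ) / L) : ℝ) : ℂ) -
      a * ((D : ℂ) ^ (γ * I) * L *
        ∫ t in τ..τ', ((α + β * t : ℝ) : ℂ) * cexp (-((γ * L * t : ℝ) * I)))‖ ≤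
      20 * (|α| + |β|) * Ce C θ (1 + γ * I) * y ^ θ * (Real.exp (τ * L) / D) ^ (-θ) := by
  have hD0 : (0 : ℝ) < D := by exact_mod_cast hD
  have hx : 1 ≤ Real.exp (τ * L) / D := (one_le_div hD0).2 hD'
  have hxx : Real.exp (τ * L) / D ≤ Real.exp (τ' * L) / D :=
    div_le_div_of_nonneg_right (moe_exp hL h1) hD0.le
  have tt : ∀ u, 1 ≤ u → u ≤ Real.exp (τ' * L) / D → _ := fun u a1 a2 => mot_t hL h2 hD a1 a2
  have e1 := fun (M x : ℝ) (a1 : 1 ≤ M) (a2 : M ≤ ⌊x⌋₊) (a3 : 0 ≤ x)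
    (a4 : x ≤ Real.exp (τ' * L) / D) => mot_end hθ' hL h2 hD a1 a2 a3 a4 α β γ
  rw [← int_lin hL hD]
  generalize Real.exp (τ * L) / D = x at hx hxx ⊢
  generalize Real.exp (τ' * L) / D = x' at hxx tt e1 ⊢
  have hM : 1 ≤ ⌊x⌋₊ := Nat.le_floor (by exact_mod_cast hx)
  have hMN : ⌊x⌋₊ ≤ ⌊x'⌋₊ := Nat.floor_le_floor hxx
  have hM' : (1 : ℝ) ≤ ⌊x⌋₊ := by exact_mod_cast hM
  have hMN' : (⌊x⌋₊ : ℝ) ≤ ⌊x'⌋₊ := by exact_mod_cast hMN
  have hN' : (⌊x'⌋₊ : ℝ) ≤ x' := Nat.floor_le (by linarith)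
  have hs : 1 - θ / 2 ≤ (1 + γ * I : ℂ).re := by simpa using (half_pos hθ).le
  have hre : 1 - θ - (1 + γ * I : ℂ).re = -θ := by simp
  have b1 := sum_sub_main hθ hθ' hC hy ha hf hs (k := fun _ => 1) antitoneOn_const
    (fun _ => zero_le_one) (fun _ => le_rfl) hM hMN
  have b2 := sum_sub_main hθ hθ' hC hy ha hf hs (moa_anti hL (show (0 : ℝ) < 8 by norm_num) hD)
    (fun _ => st_nonneg _ _ _) (fun _ => st_le_one _ _ _) hM hMN
  have b3 := e1 _ x hM' le_rfl (by linarith) hxx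
  have b4 := e1 _ x' hM' hMN' (by linarith) le_rfl
  rw [hre] at b1 b2
  have i1 := moa_ii (-(1 + γ * I)) (k := fun _ => 1) antitoneOn_const hM' (hM'.trans hMN')
  have i2 := moa_ii (-(1 + γ * I)) (moa_anti hL (show (0 : ℝ) < 8 by norm_num) hD) hM'
    (hM'.trans hMN')
  have j1 := intervalIntegral.integral_add_adjacent_intervals
    (mot_ii (-(1 + γ * I)) hD L α β (u := ⌊x⌋₊) (v := x) (by linarith) (by linarith))
    (mot_ii (-(1 + γ * I)) hD L α β (u := x) (v := x') (by linarith) (by linarith))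
  have j2 := intervalIntegral.integral_add_adjacent_intervals
    (mot_ii (-(1 + γ * I)) hD L α β (u := ⌊x⌋₊) (v := ⌊x'⌋₊) (by linarith) (by linarith))
    (mot_ii (-(1 + γ * I)) hD L α β (u := ⌊x'⌋₊) (v := x') (by linarith) (by linarith))
  have j3 : ∫ u in (⌊x⌋₊ : ℝ)..⌊x'⌋₊, (u : ℂ) ^ (-(1 + γ * I)) *
      ((α + β * (Real.log (D * u) / L) : ℝ) : ℂ) =
      ((α + 8 * β : ℝ) : ℂ) * (∫ u in (⌊x⌋₊ : ℝ)..⌊x'⌋₊, (u : ℂ) ^ (-(1 + γ * I)) * ((1 : ℝ) : ℂ)) -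
        ((8 * β : ℝ) : ℂ) * ∫ u in (⌊x⌋₊ : ℝ)..⌊x'⌋₊, (u : ℂ) ^ (-(1 + γ * I)) *
          st 0 8 (Real.log (D * u) / L) := by
    rw [← intervalIntegral.integral_const_mul, ← intervalIntegral.integral_const_mul,
      ← intervalIntegral.integral_sub (i1.const_mul _) (i2.const_mul _)]
    refine intervalIntegral.integral_congr fun u hu => ?_
    rw [Set.uIcc_of_le hMN'] at hu
    simp only [mot_st (tt u (hM'.trans hu.1) (hu.2.trans hN')), ofReal_one]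
    ring
  have j4 : ∑ m ∈ Ioc ⌊x⌋₊ ⌊x'⌋₊, f m * (m : ℂ) ^ (-(1 + γ * I)) *
      ((α + β * (Real.log (D * m : ℕ) / L) : ℝ) : ℂ) =
      ((α + 8 * β : ℝ) : ℂ) * (∑ m ∈ Ioc ⌊x⌋₊ ⌊x'⌋₊, f m * (m : ℂ) ^ (-(1 + γ * I)) * ((1 : ℝ) : ℂ)) -
        ((8 * β : ℝ) : ℂ) * ∑ m ∈ Ioc ⌊x⌋₊ ⌊x'⌋₊, f m * (m : ℂ) ^ (-(1 + γ * I)) *
          st 0 8 (Real.log (D * m) / L) := by
    rw [mul_sum, mul_sum, ← sum_sub_distrib]
    refine sum_congr rfl fun m hm => ?_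
    obtain ⟨m1, m2⟩ := mem_Ioc.1 hm
    rw [Nat.cast_mul, mot_st (tt m (by exact_mod_cast hM.trans m1.le)
      (le_trans (by exact_mod_cast m2) hN')), ofReal_one]
    ring
  rw [j4]
  refine (mot_comb ha b1 b2 b3 b4 j1 j2 j3).trans ?_
  have c1 : |α + 8 * β| + |8 * β| ≤ 16 * (|α| + |β|) := by
    have := abs_add_le α (8 * β)
    rw [abs_mul, abs_of_pos (show (0 : ℝ) < 8 by norm_num)] at this ⊢
    linarith [abs_nonneg α]
  have c2 : 40 ≤ Ce C θ (1 + γ * I) := by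
    unfold Ce
    rw [le_div_iff₀ hθ]
    nlinarith [norm_nonneg (1 + γ * I : ℂ)]
  have c3 : 40 ≤ Ce C θ (1 + γ * I) * y ^ θ :=
    c2.trans (le_mul_of_one_le_right (by linarith) (Real.one_le_rpow hy hθ.le))
  have c4 := floor_pow_le (e := -θ) hx (by linarith) (by linarith)
  have c5 : 0 ≤ (⌊x⌋₊ : ℝ) ^ (-θ) := by positivity
  have c6 : 0 ≤ |α| + |β| := by positivity
  rw [mul_assoc (20 * _), div_mul_eq_mul_div]
  generalize Ce C θ (1 + γ * I) * y ^ θ = K at c3 ⊢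
  have c7 := mul_le_mul_of_nonneg_right c1 (show 0 ≤ K / 4 * (⌊x⌋₊ : ℝ) ^ (-θ) by positivity)
  have c8 := mul_le_mul_of_nonneg_left c4 (show 0 ≤ 10 * (|α| + |β|) * K by positivity)
  have c9 := mul_le_mul_of_nonneg_left c3 (mul_nonneg c6 c5)
  have c10 := mul_nonneg c6 c5
  linarith

theorem mot_dvd {D : ℕ} (hD : 1 ≤ D) (A B : ℕ) (F : ℕ → ℂ) :
    ∑ n ∈ Ioc A B, (if D ∣ n then F n else 0) = ∑ m ∈ Ioc (A / D) (B / D), F (D * m) := by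
  rw [← sum_filter, ← sum_image (f := F) (g := fun m => D * m)
    fun m _ m' _ h => Nat.eq_of_mul_eq_mul_left hD h]
  congr 1
  ext n
  rw [mem_filter, mem_image, mem_Ioc]
  constructor
  · rintro ⟨⟨h1, h2⟩, m, rfl⟩
    refine ⟨m, mem_Ioc.2 ⟨(Nat.div_lt_iff_lt_mul hD).2 ?_, (Nat.le_div_iff_mul_le hD).2 ?_⟩, rfl⟩
    · rwa [mul_comm]
    · rwa [mul_comm]
  · rintro ⟨m, hm, rfl⟩
    obtain ⟨h1, h2⟩ := mem_Ioc.1 hm
    rw [Nat.div_lt_iff_lt_mul hD, mul_comm] at h1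
    rw [Nat.le_div_iff_mul_le hD, mul_comm] at h2
    exact ⟨⟨h1, h2⟩, dvd_mul_right _ _⟩

theorem mot_term (hm : ∀ m n, f (m * n) = f m * f n) (h1 : ∀ n, ‖f n‖ ≤ 1)
    (ha : ∀ n, 1 ≤ n → a * f n = a) {k : ℕ → ℝ} {T : Finset ℕ} {D : ℕ} (hD : 1 ≤ D) {Λ : ℂ}
    {ε γ : ℝ} (h : ‖∑ m ∈ T, f m * (m : ℂ) ^ (-(1 + γ * I)) * k (D * m) -
      a * ((D : ℂ) ^ (γ * I) * Λ)‖ ≤ ε) :
    ‖∑ m ∈ T, f (D * m) * ((D * m : ℕ) : ℂ) ^ (-(1 + γ * I)) * k (D * m) -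
      a * ((D : ℂ)⁻¹ * Λ)‖ ≤ ε * (D : ℝ)⁻¹ := by
  have hD0 : (D : ℂ) ≠ 0 := Nat.cast_ne_zero.2 (by omega)
  have e1 : (D : ℂ) ^ (-(1 + γ * I)) * (D : ℂ) ^ (γ * I) = (D : ℂ)⁻¹ := by
    rw [← Complex.cpow_add _ _ hD0, show -(1 + γ * I) + γ * I = -1 by ring, Complex.cpow_neg_one]
  have e2 : ∑ m ∈ T, f (D * m) * ((D * m : ℕ) : ℂ) ^ (-(1 + γ * I)) * k (D * m) -
      a * ((D : ℂ)⁻¹ * Λ) = f D * (D : ℂ) ^ (-(1 + γ * I)) *
        (∑ m ∈ T, f m * (m : ℂ) ^ (-(1 + γ * I)) * k (D * m) - a * ((D : ℂ) ^ (γ * I) * Λ)) := by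
    rw [mul_sub, mul_sum]
    congr 1
    · refine sum_congr rfl fun m _ => ?_
      rw [hm, Nat.cast_mul, Complex.natCast_mul_natCast_cpow]
      ring
    · rw [← e1]
      linear_combination (-((D : ℂ) ^ (-(1 + γ * I)) * (D : ℂ) ^ (γ * I) * Λ)) * ha D hD
  have e3 : (-(1 + γ * I : ℂ)).re = -1 := by simp
  rw [e2, norm_mul, norm_mul, Complex.norm_natCast_cpow_of_pos hD, e3, Real.rpow_neg_one, mul_comm]
  exact mul_le_mul h (mul_le_of_le_one_left (by positivity) (h1 D)) (by positivity)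
    ((norm_nonneg _).trans h)

theorem mot_expand {ρ : ℕ → ℝ} {W : ℕ} (hρ : ∀ d, ρ d ≠ 0 → d ≤ W) {R : ℝ} (hR0 : 0 ≤ R)
    (hR : ∀ d ∈ Icc 1 W, |ρ d| ≤ R) (A B : ℕ) (F : ℕ → ℂ) {Λ : ℂ} {ε : ℝ} (hε : 0 ≤ ε)
    (hD : ∀ D : ℕ, 1 ≤ D → D ≤ W * W →
      ‖∑ m ∈ Ioc (A / D) (B / D), F (D * m) - a * ((D : ℂ)⁻¹ * Λ)‖ ≤ ε * (D : ℝ)⁻¹) :
    ‖∑ n ∈ Ioc A B, (((∑ d ∈ n.divisors, ρ d) ^ 2 : ℝ) : ℂ) * F n -
      a * ((∑ d ∈ Icc 1 W, ∑ e ∈ Icc 1 W, ρ d * ρ e / (Nat.lcm d e : ℝ) : ℝ) * Λ)‖ ≤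
      R * R * ε * (1 + Real.log W) ^ 3 := by
  have e0 : ∀ n : ℕ, n ≠ 0 → ∑ d ∈ n.divisors, ρ d = ∑ d ∈ Icc 1 W, if d ∣ n then ρ d else 0 := by
    intro n hn
    rw [← sum_filter]
    refine (sum_subset (fun d hd => Nat.mem_divisors.2 ⟨(mem_filter.1 hd).2, hn⟩)
      fun d hd hd' => ?_).symm
    by_contra h
    exact hd' (mem_filter.2 ⟨mem_Icc.2 ⟨Nat.pos_of_mem_divisors hd, hρ d h⟩,
      Nat.dvd_of_mem_divisors hd⟩)
  have e1 : ∑ n ∈ Ioc A B, (((∑ d ∈ n.divisors, ρ d) ^ 2 : ℝ) : ℂ) * F n =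
      ∑ d ∈ Icc 1 W, ∑ e ∈ Icc 1 W, ((ρ d * ρ e : ℝ) : ℂ) *
        ∑ m ∈ Ioc (A / Nat.lcm d e) (B / Nat.lcm d e), F (Nat.lcm d e * m) := by
    have e2 : ∀ n ∈ Ioc A B, (((∑ d ∈ n.divisors, ρ d) ^ 2 : ℝ) : ℂ) * F n =
        ∑ d ∈ Icc 1 W, ∑ e ∈ Icc 1 W, ((ρ d * ρ e : ℝ) : ℂ) *
          if Nat.lcm d e ∣ n then F n else 0 := by
      intro n hn
      have hn0 : n ≠ 0 := by have := (mem_Ioc.1 hn).1; omega
      rw [e0 n hn0, sq, sum_mul_sum, Complex.ofReal_sum, sum_mul]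
      refine sum_congr rfl fun d _ => ?_
      rw [Complex.ofReal_sum, sum_mul]
      refine sum_congr rfl fun e _ => ?_
      by_cases hd : d ∣ n <;> by_cases he : e ∣ n <;> simp [hd, he, Nat.lcm_dvd_iff]
    rw [sum_congr rfl e2, sum_comm]
    refine sum_congr rfl fun d hd => ?_
    rw [sum_comm]
    refine sum_congr rfl fun e he => ?_
    rw [← mul_sum, mot_dvd (Nat.lcm_pos (mem_Icc.1 hd).1 (mem_Icc.1 he).1)]
  have e3 : a * ((∑ d ∈ Icc 1 W, ∑ e ∈ Icc 1 W, ρ d * ρ e / (Nat.lcm d e : ℝ) : ℝ) * Λ) =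
      ∑ d ∈ Icc 1 W, ∑ e ∈ Icc 1 W, ((ρ d * ρ e : ℝ) : ℂ) * (a * ((Nat.lcm d e : ℂ)⁻¹ * Λ)) := by
    rw [Complex.ofReal_sum, sum_mul, mul_sum]
    refine sum_congr rfl fun d _ => ?_
    rw [Complex.ofReal_sum, sum_mul, mul_sum]
    refine sum_congr rfl fun e _ => ?_
    push_cast
    ring
  rw [e1, e3, ← sum_sub_distrib]
  refine le_trans ?_ (mul_le_mul_of_nonneg_left (sum_inv_lcm W) (by positivity))
  rw [mul_sum]
  refine (norm_sum_le _ _).trans (sum_le_sum fun d hd => ?_)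
  rw [← sum_sub_distrib, mul_sum]
  refine (norm_sum_le _ _).trans (sum_le_sum fun e he => ?_)
  have hp := Nat.lcm_pos (mem_Icc.1 hd).1 (mem_Icc.1 he).1
  have c4 : Nat.lcm d e ≤ W * W :=
    (Nat.le_of_dvd (Nat.mul_pos (mem_Icc.1 hd).1 (mem_Icc.1 he).1) (Nat.lcm_dvd_mul d e)).trans
      (Nat.mul_le_mul (mem_Icc.1 hd).2 (mem_Icc.1 he).2)
  rw [← mul_sub, norm_mul, Complex.norm_real, Real.norm_eq_abs, abs_mul, mul_assoc (R * R)]
  exact mul_le_mul (mul_le_mul (hR d hd) (hR e he) (abs_nonneg _) hR0) (hD _ hp c4) (norm_nonneg _)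
    (by positivity)

/-- `exists_sel` with `W = ⌊exp (w L)⌋₊`, `B n = ∑ d ∈ n.divisors, ρ d`. Expand the square as in `expand`
(`Nat.floor_div_natCast`, `Nat.Ioc_filter_dvd_card_eq_div`-type reindexing), `lin_D`, `err_D` or a direct
estimate, `tau_bound`, `sum_inv_lcm`; note `w ≤ 4`. -/
theorem selsum (hθ : 0 < θ) (hθ' : θ ≤ 1) (hC : 1 ≤ C) (he : 0 < e₀) (hφ : e₀ ≤ φ) {ε : ℝ} (hε : 0 < ε) :
    ∃ η : ℝ, 0 < η ∧ ∀ᶠ L : ℝ in atTop, ∀ w : ℝ, 0 < w → ∃ (B : ℕ → ℝ) (G : ℝ), w * L ≤ G ∧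
      (∀ n : ℕ, n.Prime → Real.exp (w * L) < n → B n = 1) ∧
      ∀ (f : ℕ → ℂ) (a : ℂ), (∀ m n, f (m * n) = f m * f n) → (∀ n, ‖f n‖ ≤ 1) → ‖a‖ ≤ 1 →
        (∀ n, 1 ≤ n → a * f n = a) → Pb f a C θ (Real.exp ((φ - e₀) * L)) →
        ∀ τ τ' α β γ : ℝ, φ + 2 * w ≤ τ → τ ≤ τ' → τ' ≤ 8 → |γ| ≤ Real.exp (η * L) →
        ‖∑ n ∈ Ioc ⌊Real.exp (τ * L)⌋₊ ⌊Real.exp (τ' * L)⌋₊, ((B n ^ 2 : ℝ) : ℂ) *
            (f n * (n : ℂ) ^ (-(1 + γ * I)) * ((α + β * (Real.log n / L) : ℝ) : ℂ)) -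
          a * ((L / G : ℝ) * ∫ t in τ..τ', ((α + β * t : ℝ) : ℂ) * cexp (-((γ * L * t : ℝ) * I)))‖ ≤
          ε * (|α| + |β|) := by
  have hc : 0 < θ * e₀ := by positivity
  obtain ⟨C1, hC1, hτ⟩ := Pool.Agent.Lib.MP_e97e2b_nt.Ln.tau_bound 2 (θ * e₀ / 32) (by positivity)
  refine ⟨θ * e₀ / 4, by positivity, ?_⟩
  have t1 := (tendsto_rpow_mul_exp_neg_mul_atTop_nhds_zero 3 (θ * e₀ / 2) (half_pos hc)).const_mul
    (C1 * C1 * (20 * (120 * C / θ)) * 5 ^ 3)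
  rw [mul_zero] at t1
  filter_upwards [t1.eventually (ge_mem_nhds hε), eventually_ge_atTop 1] with L hLε hL1
  intro w hw
  have hL : 0 < L := by linarith
  have hE : 1 ≤ Real.exp (w * L) := Real.one_le_exp (by positivity)
  have hW : 1 ≤ ⌊Real.exp (w * L)⌋₊ := Nat.le_floor (by exact_mod_cast hE)
  have hW1 : (⌊Real.exp (w * L)⌋₊ : ℝ) ≤ Real.exp (w * L) := Nat.floor_le (by linarith)
  have hW2 := Nat.lt_floor_add_one (Real.exp (w * L))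
  generalize ⌊Real.exp (w * L)⌋₊ = W at hW hW1 hW2
  have hW' : (1 : ℝ) ≤ W := by exact_mod_cast hW
  obtain ⟨ρ, G, r1, r2, r3, r4, r5⟩ := exists_sel hW
  have hG : w * L ≤ G := le_trans ((Real.le_log_iff_exp_le (by linarith)).2 hW2.le) r4
  have hG0 : 0 < G := (mul_pos hw hL).trans_le hG
  refine ⟨fun n => ∑ d ∈ n.divisors, ρ d, G, hG, fun n hn hn' => ?_, ?_⟩
  · have h0 : ρ n = 0 := by
      by_contra h
      have h1 : (n : ℝ) ≤ W := by exact_mod_cast r2 n h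
      linarith
    simp only [hn.sum_divisors, r1, h0, zero_add]
  intro f a hm h1 ha ha' hf τ τ' α β γ g1 g2 g3 g4
  have hw4 : w * L ≤ 4 * L := mul_le_mul_of_nonneg_right (by linarith) hL.le
  have hy : 1 ≤ Real.exp ((φ - e₀) * L) := Real.one_le_exp (mul_nonneg (by linarith) hL.le)
  have hCe := moe_Ce hθ hC (1 + γ * I)
  have hR : ∀ d ∈ Icc 1 W, |ρ d| ≤ C1 * Real.exp (θ * e₀ / 8 * L) := by
    intro d hd
    obtain ⟨d1, d2⟩ := mem_Icc.1 hd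
    refine (r3 d).trans ((hτ d d1).trans (mul_le_mul_of_nonneg_left ?_ (by linarith)))
    have d3 : (d : ℝ) ≤ Real.exp (4 * L) :=
      le_trans (by exact_mod_cast d2) (hW1.trans (Real.exp_le_exp.2 hw4))
    refine (Real.rpow_le_rpow (Nat.cast_nonneg d) d3 (by positivity)).trans (le_of_eq ?_)
    rw [← Real.exp_mul]
    congr 1
    ring
  have k := mot_expand (a := a) r2 (by positivity) hR ⌊Real.exp (τ * L)⌋₊ ⌊Real.exp (τ' * L)⌋₊
    (fun n => f n * (n : ℂ) ^ (-(1 + γ * I)) * ((α + β * (Real.log n / L) : ℝ) : ℂ))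
    (Λ := L * ∫ t in τ..τ', ((α + β * t : ℝ) : ℂ) * cexp (-((γ * L * t : ℝ) * I)))
    (ε := 20 * (|α| + |β|) * Ce C θ (1 + γ * I) * Real.exp (-(θ * e₀ * L))) (by positivity) (by
      intro D hD hD'
      have d1 : (D : ℝ) ≤ Real.exp (2 * w * L) := by
        rw [two_mul, add_mul, Real.exp_add]
        exact le_trans (by exact_mod_cast hD') (mul_le_mul hW1 hW1 (by linarith) (by linarith))
      have k1 := lin_D hθ hθ' hC hy ha hf hL g2 g3 hD (d1.trans (moe_exp hL (by linarith))) α β γ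
      have k2 := err_D (φ := φ) (e₀ := e₀) (α := τ) hθ.le hL (by linarith) hD d1 1
      rw [sub_self, mul_zero, zero_sub, Real.rpow_zero, mul_one,
        show 1 - θ - 1 = -θ by ring] at k2
      rw [Nat.floor_div_natCast, Nat.floor_div_natCast, mul_assoc ((D : ℂ) ^ (γ * I)),
        mul_assoc _ (Real.exp _ ^ θ)] at k1
      exact mot_term (k := fun n => α + β * (Real.log n / L)) hm h1 ha' hD
        (k1.trans (mul_le_mul_of_nonneg_left k2 (by positivity))))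
  rw [eq_div_of_mul_eq hG0.ne' r5] at k
  refine le_trans (le_of_eq ?_) (k.trans ?_)
  · congr 3
    push_cast
    ring
  have b0 : 1 ≤ Real.exp (θ * e₀ / 4 * L) := Real.one_le_exp (by positivity)
  have b1 : Ce C θ (1 + γ * I) ≤ 120 * C / θ * Real.exp (θ * e₀ / 4 * L) := by
    have b2 := norm_add_le (1 : ℂ) (γ * I)
    rw [norm_one, norm_mul, norm_I, mul_one, norm_real, Real.norm_eq_abs] at b2
    have b3 : 1 + ‖(1 + γ * I : ℂ)‖ ≤ 3 * Real.exp (θ * e₀ / 4 * L) := by linarith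
    unfold Ce
    calc 40 * C * (1 + ‖(1 + γ * I : ℂ)‖) / θ ≤ 40 * C * (3 * Real.exp (θ * e₀ / 4 * L)) / θ := by
          gcongr
      _ = _ := by ring
  have b4 : 1 + Real.log W ≤ 5 * L := by
    have := (Real.log_le_iff_le_exp (by linarith)).2 hW1
    linarith
  have b5 : 0 ≤ 1 + Real.log W := by linarith [Real.log_nonneg hW']
  have b6 : Real.exp (θ * e₀ / 8 * L) * Real.exp (θ * e₀ / 8 * L) * Real.exp (θ * e₀ / 4 * L) *
      Real.exp (-(θ * e₀ * L)) = Real.exp (-(θ * e₀ / 2) * L) := by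
    rw [← Real.exp_add, ← Real.exp_add, ← Real.exp_add]
    congr 1
    ring
  have b7 : L ^ (3 : ℝ) = L ^ 3 := by exact_mod_cast Real.rpow_natCast L 3
  rw [b7, ← b6] at hLε
  have hC0 : 0 ≤ C := by linarith
  calc _ ≤ C1 * Real.exp (θ * e₀ / 8 * L) * (C1 * Real.exp (θ * e₀ / 8 * L)) *
        (20 * (|α| + |β|) * (120 * C / θ * Real.exp (θ * e₀ / 4 * L)) *
          Real.exp (-(θ * e₀ * L))) * (5 * L) ^ 3 := by gcongr
    _ ≤ _ := le_trans (le_of_eq (by ring))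
        (mul_le_mul_of_nonneg_right hLε (show 0 ≤ |α| + |β| by positivity))

end Mo

end Pool.Agent.Lib.MP_778b46_nt.GX
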