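import Pool.Agent.Lib.MP_778b46_nt.GX.ClC
import Pool.Agent.Lib.MP_778b46_nt.GX.MoT
import Pool.Agent.Lib.MP_778b46_nt.GX.MoW

/- The sieve majorant on a slice. -/

namespace Pool.Agent.Lib.MP_778b46_nt.GX

open Complex Finset Filter ArithmeticFunction

theorem cle_exp (u v : ℝ) : exp (-(u : ℂ) * I) * starRingEnd ℂ (exp (-(v : ℂ) * I)) =
    exp (-((u - v : ℝ) : ℂ) * I) := by
  rw [← exp_conj, ← Complex.exp_add]
  simp only [map_mul, map_neg, conj_ofReal, conj_I, ofReal_sub]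
  congr 1
  ring

theorem cle_cos (u : ℝ) : (exp (-(u : ℂ) * I)).re = Real.cos u := by
  rw [← ofReal_neg, exp_ofReal_mul_I_re, Real.cos_neg]

theorem cle_form {ι κ : Type} [Fintype ι] [DecidableEq κ] (cl : ι → κ) (a y : ι → ℝ) (t : ℝ) :
    0 ≤ ∑ j, ∑ k ∈ univ.filter (fun k => cl k = cl j), a j * a k * Real.cos ((y j - y k) * t) := by
  have h := Mo.mos_group cl fun j => (a j : ℂ) * exp (-((y j * t : ℝ) : ℂ) * I)
  refine le_of_le_of_eq (sum_nonneg fun _ _ => sq_nonneg _) (h.symm.trans ?_)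
  simp only [re_sum]
  refine sum_congr rfl fun j _ => sum_congr rfl fun k _ => ?_
  rw [map_mul, conj_ofReal, mul_mul_mul_comm, cle_exp, ← ofReal_mul, re_ofReal_mul, cle_cos,
    sub_mul]

theorem cle_int {ι κ : Type} [Fintype ι] [DecidableEq κ] (cl : ι → κ) (a y : ι → ℝ)
    {τ τ' α β : ℝ} (h : τ ≤ τ') (h0 : ∀ t, τ ≤ t → t ≤ τ' → 0 ≤ α + β * t) :
    0 ≤ ∑ j, ∑ k ∈ univ.filter (fun k => cl k = cl j), a j * a k *
      ∫ t in τ..τ', (α + β * t) * Real.cos ((y j - y k) * t) := by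
  have e : ∑ j, ∑ k ∈ univ.filter (fun k => cl k = cl j), a j * a k *
      ∫ t in τ..τ', (α + β * t) * Real.cos ((y j - y k) * t) = ∫ t in τ..τ', (α + β * t) *
        ∑ j, ∑ k ∈ univ.filter (fun k => cl k = cl j), a j * a k * Real.cos ((y j - y k) * t) := by
    simp only [mul_sum]
    rw [intervalIntegral.integral_finsetSum fun j _ =>
      (continuous_finsetSum _ fun k _ => by fun_prop).intervalIntegrable _ _]
    refine sum_congr rfl fun j _ => ?_
    rw [intervalIntegral.integral_finsetSum fun k _ =>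
      (by fun_prop : Continuous _).intervalIntegrable _ _]
    refine sum_congr rfl fun k _ => ?_
    rw [← intervalIntegral.integral_const_mul]
    exact intervalIntegral.integral_congr fun t _ => by ring
  rw [e]
  exact intervalIntegral.integral_nonneg h fun t ht =>
    mul_nonneg (h0 t ht.1 ht.2) (cle_form cl a y t)

theorem cle_exch {ι : Type} [Fintype ι] (S : Finset ℕ) (T : ι → Finset ι) (W : ℕ → ℝ) (a : ι → ℝ)
    (G : ι → ι → ℕ → ℂ) :
    ∑ n ∈ S, W n * (∑ j, ∑ k ∈ T j, ((a j * a k : ℝ) : ℂ) * G j k n).re =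
      ∑ j, ∑ k ∈ T j, a j * a k * (∑ n ∈ S, (W n : ℂ) * G j k n).re := by
  simp only [re_sum, re_ofReal_mul, mul_sum]
  rw [sum_comm]
  refine sum_congr rfl fun j _ => ?_
  rw [sum_comm]
  exact sum_congr rfl fun k _ => sum_congr rfl fun n _ => by ring

theorem cle_quad {ι κ : Type} [Fintype ι] [DecidableEq κ] (S : Finset ℕ) (W : ℕ → ℝ)
    (hW : ∀ n ∈ S, 0 ≤ W n) (cl : ι → κ) (f e : ι → ℕ → ℂ) (hf : ∀ j k, cl j = cl k → f j = f k)
    (h1 : ∀ j n, ‖f j n‖ ≤ 1) (a : ι → ℝ) (m : ι → ι → ℝ) (δ : ℝ)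
    (hs : ∀ j k, |(∑ n ∈ S, (W n : ℂ) * (e j n * starRingEnd ℂ (e k n))).re - m j k| ≤ δ)
    (hd : ∀ j k, cl k ≠ cl j → ‖∑ n ∈ S, (W n : ℂ) *
      (f j n * starRingEnd ℂ (f k n) * (e j n * starRingEnd ℂ (e k n)))‖ ≤ δ) :
    ∑ n ∈ S, W n * ‖∑ j, (a j : ℂ) * (e j n * f j n)‖ ^ 2 ≤
      ∑ j, ∑ k ∈ univ.filter (fun k => cl k = cl j), a j * a k * m j k +
        δ * (∑ j, |a j|) ^ 2 := by
  have e1 := cle_exch S (fun j => univ.filter fun k => cl k = cl j) W a
    fun j k n => e j n * starRingEnd ℂ (e k n)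
  have e2 := cle_exch S (fun j => univ.filter fun k => ¬cl k = cl j) W a
    fun j k n => f j n * starRingEnd ℂ (f k n) * (e j n * starRingEnd ℂ (e k n))
  have e3 : δ * (∑ j, |a j|) ^ 2 =
      ∑ j, ∑ k ∈ univ.filter (fun k => cl k = cl j), |a j * a k| * δ +
        ∑ j, ∑ k ∈ univ.filter (fun k => ¬cl k = cl j), |a j * a k| * δ := by
    rw [← sum_add_distrib, sq, sum_mul_sum, mul_sum]
    refine sum_congr rfl fun j _ => ?_
    rw [sum_filter_add_sum_filter_not, mul_sum]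
    exact sum_congr rfl fun k _ => by rw [abs_mul, mul_comm]
  have key : ∀ x y d : ℝ, |y| ≤ d → x * y ≤ |x| * d := fun x y d h =>
    (le_abs_self _).trans (by rw [abs_mul]; exact mul_le_mul_of_nonneg_left h (abs_nonneg _))
  rw [e3, ← add_assoc, ← sum_add_distrib]
  refine le_trans ?_ (add_le_add (e1.trans_le (sum_le_sum fun j _ => ?_))
    (e2.trans_le (sum_le_sum fun j _ => sum_le_sum fun k hk => ?_)))
  · rw [← sum_add_distrib]
    refine sum_le_sum fun n hn => ?_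
    rw [← mul_add, Mo.mos_split cl]
    refine mul_le_mul_of_nonneg_left (add_le_add ?_ (le_of_eq ?_)) (hW n hn)
    · have h2 := Mo.class_pos cl (fun j => f j n) (fun j => a j * e j n)
        (fun j k h => by rw [hf j k h]) fun j => h1 j n
      refine le_of_eq_of_le ?_ (h2.trans_eq ?_) <;> congr 1 <;>
        refine sum_congr rfl fun j _ => sum_congr rfl fun k _ => ?_ <;>
        simp only [map_mul, conj_ofReal, ofReal_mul] <;> ring
    · congr 1
      refine sum_congr rfl fun j _ => sum_congr rfl fun k _ => ?_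
      simp only [map_mul, conj_ofReal, ofReal_mul]
      ring
  · rw [← sum_add_distrib]
    refine sum_le_sum fun k _ => ?_
    linarith [key (a j * a k) _ _ (hs j k)]
  · exact key _ _ _ ((abs_re_le_norm _).trans (hd j k (mem_filter.1 hk).2))

theorem cle_pow {n : ℕ} (hn : 0 < n) {L : ℝ} (hL : 0 < L) (u v : ℝ) :
    (n : ℂ) ^ (-(1 + ((u - v : ℝ) : ℂ) * I)) = ((n : ℝ)⁻¹ : ℝ) *
      (exp (-((u * L * (Real.log n / L) : ℝ) : ℂ) * I) *
        starRingEnd ℂ (exp (-((v * L * (Real.log n / L) : ℝ) : ℂ) * I))) := by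
  have h0 : (n : ℂ) ≠ 0 := Nat.cast_ne_zero.2 hn.ne'
  have e : u * L * (Real.log n / L) - v * L * (Real.log n / L) = (u - v) * Real.log n := by
    field_simp
  rw [cle_exp, e, neg_add, cpow_add _ _ h0, cpow_neg_one, cpow_def_of_ne_zero h0,
    ← natCast_log]
  push_cast
  congr 2
  ring

open Classical in
theorem cle_core {ph0 φ ε : ℝ} (h0 : 0 < ph0) (hTB : TB ph0) (hφ : ph0 < φ) (hε : 0 < ε) :
    ∃ η : ℝ, 0 < η ∧ ∀ᶠ L : ℝ in atTop,
      ∀ (Q : ℕ) [NeZero Q] (ι : Type) [Fintype ι] (χ : ι → DC Q) (γ : ι → ℝ),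
        (∀ j, cd (χ j) ≤ Real.exp L ∧ |γ j| ≤ Real.exp (η * L)) →
        (∀ j k, cd (χ j / χ k) ≤ Real.exp L) →
        ∀ (a : ι → ℝ) (τ τ' w α β : ℝ) (S : Finset ℕ), 0 < w → φ + 2 * w ≤ τ → τ ≤ τ' →
          τ' ≤ 8 → 0 ≤ α + β * τ → 0 ≤ α + β * τ' →
          S ⊆ Ioc ⌊Real.exp (τ * L)⌋₊ ⌊Real.exp (τ' * L)⌋₊ →
          ∑ n ∈ S, vonMangoldt n / (n * L) * (α + β * (Real.log n / L)) * ‖∑ j, (a j : ℂ) *
                (exp (-((γ j * L * (Real.log n / L) : ℝ) : ℂ) * I) * pr (χ j) n)‖ ^ 2 ≤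
            τ' / w * (∑ j, ∑ k ∈ univ.filter (fun k => χ k = χ j), a j * a k *
                ∫ t in τ..τ', (α + β * t) * Real.cos ((γ j * L - γ k * L) * t)) +
              ε * (|α| + |β|) * (∑ j, |a j|) ^ 2 := by
  obtain ⟨e₀, θ, C, e0, e1, -, t0, t1, hC, hPb⟩ :=
    Mo.pb_of_TB h0 hTB hφ zero_le_one (ph' := φ) (by linarith)
  obtain ⟨η, n0, H⟩ := Mo.selsum t0 t1 hC e0 e1 (ε := ε / 16) (by positivity)
  obtain ⟨C1, hC1⟩ := clc_nonprime
  refine ⟨η / 2, half_pos n0, ?_⟩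
  filter_upwards [H, eventually_gt_atTop 0, eventually_ge_atTop (16 * |C1| / ε),
    eventually_ge_atTop (2 / η)] with L H hL hL1 hL2 Q _ ι _ χ γ hj hjk a τ τ' w α β S hw h1 h2 h3
    h4 h5 hS
  obtain ⟨B, G, hG, hB, H⟩ := H w hw
  have hφ0 : 0 < φ := h0.trans hφ
  have hlin : ∀ t, τ ≤ t → t ≤ τ' → 0 ≤ α + β * t := fun t a b => by
    rcases le_total 0 β with h | h <;> nlinarith
  set T := Ioc ⌊Real.exp (τ * L)⌋₊ ⌊Real.exp (τ' * L)⌋₊ with hT
  have hmem : ∀ n ∈ T, 0 < n ∧ Real.exp (τ * L) < n ∧ τ ≤ Real.log n / L ∧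
      Real.log n / L ≤ τ' := fun n hn => by
    obtain ⟨a1, a2⟩ := mem_Ioc.1 hn
    have b1 : Real.exp (τ * L) < n := (Nat.floor_lt (Real.exp_pos _).le).1 a1
    have b2 : (n : ℝ) ≤ Real.exp (τ' * L) := (Nat.le_floor_iff (Real.exp_pos _).le).1 a2
    have b3 : (0 : ℝ) < n := (Real.exp_pos _).trans b1
    exact ⟨by omega, b1, (le_div_iff₀ hL).2 ((Real.lt_log_iff_exp_lt b3).2 b1).le,
      (div_le_iff₀ hL).2 ((Real.log_le_iff_le_exp b3).2 b2)⟩
  have hγ : ∀ j k, |γ j - γ k| ≤ Real.exp (η * L) := fun j k => by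
    have a1 : 2 ≤ Real.exp (η / 2 * L) := by
      have := Real.add_one_le_exp (η / 2 * L)
      have := (div_le_iff₀ n0).1 hL2
      linarith
    have a2 : Real.exp (η * L) = Real.exp (η / 2 * L) * Real.exp (η / 2 * L) := by
      rw [← Real.exp_add]
      congr 1
      ring
    have := abs_sub (γ j) (γ k)
    nlinarith [(hj j).2, (hj k).2]
  set W : ℕ → ℝ := fun n => B n ^ 2 * (α + β * (Real.log n / L)) * (n : ℝ)⁻¹ with hW
  have hW0 : ∀ n ∈ T, 0 ≤ W n := fun n hn => by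
    have := hlin _ (hmem n hn).2.2.1 (hmem n hn).2.2.2
    positivity
  set e : ι → ℕ → ℂ := fun j n => exp (-((γ j * L * (Real.log n / L) : ℝ) : ℂ) * I) with he
  have hsum : ∀ (f : ℕ → ℂ) (j k : ι), ∑ n ∈ T, (W n : ℂ) * (f n * (e j n * starRingEnd ℂ (e k n))) =
      ∑ n ∈ T, ((B n ^ 2 : ℝ) : ℂ) * (f n * (n : ℂ) ^ (-(1 + ((γ j - γ k : ℝ) : ℂ) * I)) *
        ((α + β * (Real.log n / L) : ℝ) : ℂ)) := fun f j k => sum_congr rfl fun n hn => by
    rw [cle_pow (hmem n hn).1 hL]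
    simp only [hW, he, ofReal_mul]
    ring
  have hq := cle_quad T W hW0 χ (fun j => pr (χ j)) e (fun j k h => by rw [h])
    (fun j n => norm_pr_le _ n) a
    (fun j k => L / G * ∫ t in τ..τ', (α + β * t) * Real.cos ((γ j * L - γ k * L) * t))
    (ε / 16 * (|α| + |β|)) (fun j k => by
      have a1 := H (fun _ => 1) 1 (by simp) (by simp) (by simp) (by simp)
        (Mo.Pb_one hC t0.le t1 (Real.one_le_exp (mul_nonneg (sub_nonneg.2 e1) hL.le)))
        τ τ' α β (γ j - γ k) h1 h2 h3 (hγ j k)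
      rw [← hsum (fun _ => 1) j k] at a1
      refine le_of_eq_of_le ?_ ((abs_re_le_norm _).trans a1)
      simp only [one_mul, sub_re, re_ofReal_mul]
      congr 3
      rw [← reCLM_apply, ← reCLM.intervalIntegral_comp_comm
        ((by fun_prop : Continuous _).intervalIntegrable _ _)]
      refine intervalIntegral.integral_congr fun t _ => ?_
      simp only [reCLM_apply, re_ofReal_mul, ← neg_mul, cle_cos, sub_mul])
    (fun j k hne => by
      have a1 := H (fun n => pr (χ j) n * starRingEnd ℂ (pr (χ k) n)) 0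
        (fun m n => by simp only [pr_mul, map_mul]; ring)
        (fun n => by
          rw [norm_mul, RCLike.norm_conj]
          exact mul_le_one₀ (norm_pr_le _ n) (norm_nonneg _) (norm_pr_le _ n))
        (by simp) (by simp)
        ((hPb L hL.le Q _ (hj j).1).2 _ (hj k).1 hne (by simpa using hjk j k))
        τ τ' α β (γ j - γ k) h1 h2 h3 (hγ j k)
      rwa [zero_mul, sub_zero, ← hsum] at a1)
  have hF := cle_int χ a (fun j => γ j * L) h2 hlin
  set A := ∑ j, |a j| with hA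
  set K := |α| + |β| with hK
  have hK0 : 0 ≤ K := by positivity
  have hτ : 0 < τ := by linarith
  have hpt : ∀ n ∈ T, vonMangoldt n / (n * L) * (α + β * (Real.log n / L)) *
      ‖∑ j, (a j : ℂ) * (e j n * pr (χ j) n)‖ ^ 2 ≤
      τ' * (W n * ‖∑ j, (a j : ℂ) * (e j n * pr (χ j) n)‖ ^ 2) +
        8 * K * A ^ 2 / L * if ¬n.Prime then vonMangoldt n / n else 0 := fun n hn => by
    obtain ⟨a1, a2, a3, a4⟩ := hmem n hn
    have a5 := hlin _ a3 a4
    have a6 := hW0 n hn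
    have a7 : (0 : ℝ) < n := Nat.cast_pos.2 a1
    split_ifs with hp
    · have a8 : B n = 1 := hB n hp (lt_of_le_of_lt (by gcongr; linarith) a2)
      rw [mul_zero, add_zero, ← mul_assoc, vonMangoldt_apply_prime hp]
      refine mul_le_mul_of_nonneg_right ?_ (sq_nonneg _)
      calc _ = Real.log n / L * W n := by
            simp only [hW, a8]
            field_simp
        _ ≤ _ := mul_le_mul_of_nonneg_right a4 a6
    · have a8 : ‖∑ j, (a j : ℂ) * (e j n * pr (χ j) n)‖ ≤ A := by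
        refine norm_sum_le_of_le _ fun j _ => ?_
        rw [norm_mul, norm_mul, norm_real, Real.norm_eq_abs, he]
        simp only [← ofReal_neg, norm_exp_ofReal_mul_I, one_mul]
        exact mul_le_of_le_one_right (abs_nonneg _) (norm_pr_le _ n)
      have a9 : α + β * (Real.log n / L) ≤ 8 * K := by
        have := le_abs_self α
        have := le_abs_self β
        have := abs_nonneg α
        have := abs_nonneg β
        nlinarith
      have b1 : 0 ≤ vonMangoldt n := vonMangoldt_nonneg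
      refine le_add_of_nonneg_of_le (mul_nonneg (by linarith) (by positivity)) ?_
      calc _ ≤ vonMangoldt n / (n * L) * (8 * K) * A ^ 2 := by gcongr
        _ = _ := by field_simp
  have hnp : ∑ n ∈ T, (if ¬n.Prime then vonMangoldt n / n else 0 : ℝ) ≤ |C1| := by
    rw [← sum_filter]
    refine le_trans (sum_le_sum_of_subset_of_nonneg (filter_subset_filter _ fun n hn => ?_)
      fun n _ _ => div_nonneg vonMangoldt_nonneg (Nat.cast_nonneg _))
      ((hC1 ⌊Real.exp (τ' * L)⌋₊).trans (le_abs_self _))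
    exact mem_Icc.2 ⟨(hmem n hn).1, (mem_Ioc.1 hn).2⟩
  refine (sum_le_sum_of_subset_of_nonneg hS fun n hn _ => ?_).trans ((sum_le_sum hpt).trans ?_)
  · have := hlin _ (hmem n hn).2.2.1 (hmem n hn).2.2.2
    have : 0 ≤ vonMangoldt n := vonMangoldt_nonneg
    positivity
  rw [sum_add_distrib, ← mul_sum, ← mul_sum]
  simp only [mul_left_comm _ (L / G), ← mul_sum] at hq
  set F := ∑ j, ∑ k ∈ univ.filter (fun k => χ k = χ j), a j * a k *
    ∫ t in τ..τ', (α + β * t) * Real.cos ((γ j * L - γ k * L) * t) with hF'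
  have hG0 : 0 < G := (mul_pos hw hL).trans_le hG
  have c1 : L / G ≤ 1 / w := by
    rw [div_le_div_iff₀ hG0 hw]
    linarith
  have c2 : 8 * K * A ^ 2 / L * |C1| ≤ ε / 2 * K * A ^ 2 := by
    have := (div_le_iff₀ hε).1 hL1
    rw [div_mul_eq_mul_div, div_le_iff₀ hL]
    nlinarith [mul_nonneg hK0 (sq_nonneg A)]
  have c3 : τ' * (ε / 16 * K * A ^ 2) ≤ ε / 2 * K * A ^ 2 := by
    nlinarith [mul_nonneg hε.le (mul_nonneg hK0 (sq_nonneg A))]
  have c4 : τ' * (L / G * F) ≤ τ' / w * F := by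
    rw [← mul_assoc, div_eq_mul_one_div τ']
    have : 0 ≤ τ' := by linarith
    gcongr
  have c5 := mul_le_mul_of_nonneg_left hq (show 0 ≤ τ' by linarith)
  have c6 := mul_le_mul_of_nonneg_left hnp (show 0 ≤ 8 * K * A ^ 2 / L by positivity)
  rw [mul_add] at c5
  linarith

open Classical in
theorem sv_om {ph0 φ ε : ℝ} (h0 : 0 < ph0) (hTB : TB ph0) (hφ : ph0 < φ) (hε : 0 < ε) :
    ∃ η P0 : ℝ, 0 < η ∧ 3 ≤ P0 ∧ ∀ P : ℝ, P0 ≤ P →
      ∀ (Q : ℕ) [NeZero Q] (q : ℕ) (ι : Type) [Fintype ι] (χ : ι → DC Q) (γ : ι → ℝ),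
        (∀ j, χ j ≠ 1 ∧ cd (χ j) ≤ P ∧ |γ j| ≤ P ^ η) → (∀ j k, cd (χ j / χ k) ≤ P) →
        ∀ (a : ι → ℝ) (c τ τ' w α β : ℝ), (∀ j, 0 ≤ a j) → 0 < w → φ + 2 * w ≤ τ → τ ≤ τ' →
          τ' ≤ 8 → 0 ≤ α + β * τ → 0 ≤ α + β * τ' →
          ∑ n ∈ (Om P q).filter (fun n => τ < tt P n ∧ tt P n ≤ τ'),
              mw P n * (α + β * tt P n) * ‖(c : ℂ) + ∑ j, (a j : ℂ) *
                (exp (-((γ j * Real.log P * tt P n : ℝ) : ℂ) * I) * pr (χ j) n)‖ ^ 2 ≤
            τ' / w * (c ^ 2 * (∫ t in τ..τ', (α + β * t)) +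
              ∑ j, ∑ k ∈ univ.filter (fun k => χ k = χ j), a j * a k *
                ∫ t in τ..τ', (α + β * t) *
                  Real.cos ((γ j * Real.log P - γ k * Real.log P) * t)) +
              ε * (|α| + |β|) * (|c| + ∑ j, a j) ^ 2 := by
  obtain ⟨η, n0, H⟩ := cle_core h0 hTB hφ hε
  obtain ⟨L0, hL0⟩ := eventually_atTop.1 H
  refine ⟨η, max 3 (Real.exp L0), n0, le_max_left _ _, fun P hP Q _ q ι _ χ γ hj hjk a c τ τ' w α β
    ha hw h1 h2 h3 h4 h5 => ?_⟩
  have hP3 : 3 ≤ P := (le_max_left _ _).trans hP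
  have hP0 : 0 < P := by linarith
  have hpow : ∀ u : ℝ, Real.exp (u * Real.log P) = P ^ u := fun u => by
    rw [Real.rpow_def_of_pos hP0, mul_comm]
  have H := hL0 (Real.log P) ((Real.le_log_iff_exp_le hP0).2 ((le_max_right _ _).trans hP)) Q
    (Option ι) (fun o => o.elim 1 χ) (fun o => o.elim 0 γ) (fun o => by
      rw [Real.exp_log hP0, hpow]
      cases o with
      | none => exact ⟨by simp only [Option.elim, cd_one]; linarith, by
          simp only [Option.elim, abs_zero]; positivity⟩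
      | some j => exact (hj j).2) (fun o o' => by
      rw [Real.exp_log hP0]
      cases o <;> cases o' <;> simp only [Option.elim, div_one, one_div, cd_inv, cd_one]
      exacts [by linarith, (hj _).2.1, (hj _).2.1, hjk _ _])
    (fun o => o.elim c a) τ τ' w α β ((Om P q).filter fun n => τ < tt P n ∧ tt P n ≤ τ') hw h1 h2
    h3 h4 h5 (by
      rw [hpow, hpow]
      exact (om_filter hP3 q (u := τ) (by linarith) h3).subset.trans (filter_subset _ _))
  simp only [sum_filter, Fintype.sum_option, Option.elim, pr_triv, fun j => (hj j).1,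
    fun j => (hj j).1.symm, abs_of_nonneg (ha _), if_true, if_false, zero_mul, sub_self,
    Real.cos_zero, mul_one, ofReal_zero, neg_zero, Complex.exp_zero, sum_const_zero, add_zero,
    zero_add] at H
  simp only [sum_filter, mw, tt, sq c] at H ⊢
  exact H

end Pool.Agent.Lib.MP_778b46_nt.GX
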