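import Pool.Agent.Lib.MP_778b46_nt.GX.Row2
import Pool.Agent.Lib.MP_778b46_nt.GX.CkA

/- Kernel check of a row of the certificate: cells, columns and chords. -/

namespace Pool.Agent.Lib.MP_778b46_nt.GX.Cq

open Finset Ck
open Pool.Agent.Lib.MP_6cad4c_al

/-- The value `p - n + m s`, scaled by `2 ^ 80`. -/
structure V where
  p : ℕ
  n : ℕ
  m : ℕ

/-- The interval `[a, b)`, or `[a, ∞)` if `b = 0`, with bounds for two exponentials. -/
structure Cell where
  a : ℕ
  b : ℕ
  e : ℕ
  s : ℕ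

noncomputable def V.val (v : V) (s : ℝ) : ℝ := ((v.p : ℝ) - v.n + v.m * s) / 2 ^ 80

def Cell.mem (c : Cell) (x : ℝ) : Prop := r6 c.a ≤ x ∧ (c.b = 0 ∨ x < r6 c.b)

def Cell.lb (L : ℝ) (c : Cell) (v : V) (f : ℝ → ℝ) : Prop :=
  ∀ x, c.mem x → v.val (Real.exp (-(L * (x - r6 c.a)))) ≤ f x

/-- The list of values bounds `f` from below on the cells. -/
def Bd (L : ℝ) : List Cell → List V → (ℝ → ℝ) → Prop
  | c :: cs, v :: vs, f => c.lb L v f ∧ Bd L cs vs f
  | _, _, _ => True

noncomputable def nth {α : Type} (d : α) (l : List α) : ℕ → α :=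
  List.rec (motive := fun _ => ℕ → α) (fun _ => d)
    (fun a _ ih k => Nat.rec (motive := fun _ => α) a (fun m _ => ih m) k) l

noncomputable def mp {α β : Type} (f : α → β) (l : List α) : List β :=
  List.rec (motive := fun _ => List β) [] (fun a _ ih => f a :: ih) l

noncomputable def allL {α : Type} (f : α → Bool) (l : List α) : Bool :=
  List.rec (motive := fun _ => Bool) true (fun a _ ih => f a && ih) l

noncomputable def len {α : Type} (l : List α) : ℕ :=
  List.rec (motive := fun _ => ℕ) 0 (fun _ _ ih => Nat.succ ih) l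

noncomputable def sumN (f : ℕ → ℕ) (n : ℕ) : ℕ :=
  Nat.rec (motive := fun _ => ℕ) 0 (fun k ih => ih.add (f k)) n

noncomputable def look (th : List (ℕ × ℕ)) (m : ℕ) : ℕ :=
  List.rec (motive := fun _ => ℕ) 0 (fun a _ ih => cond (Nat.beq a.1 m) a.2 ih) th

def V.axpy (k : ℕ) (u v : V) : V :=
  ⟨u.p.add (k.mul v.p), u.n.add (k.mul v.n), u.m.add (k.mul v.m)⟩

noncomputable def axpy (k : ℕ) (u : List V) : List V → List V :=
  List.rec (motive := fun _ => List V → List V) (fun _ => [])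
    (fun a _ ih v => List.rec (motive := fun _ => List V) [] (fun b t _ => V.axpy k a b :: ih t) v) u

noncomputable def acc (coef : ℕ → ℕ) (col : ℕ → List V) (w : List V) (n : ℕ) : List V :=
  Nat.rec (motive := fun _ => List V) w (fun k ih =>
    Nat.rec (motive := fun _ => List V) ih (fun c _ => axpy (Nat.succ c) ih (col k)) (coef k)) n

noncomputable def allC (f : Cell → V → Bool) (cs : List Cell) : List V → Bool :=
  List.rec (motive := fun _ => List V → Bool) (fun _ => true)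
    (fun c _ ih w => List.rec (motive := fun _ => Bool) false (fun v t _ => f c v && ih t) w) cs

def tst0 (X A B M s : ℕ) : Bool :=
  Nat.ble (X.add A) (B.add M) && Nat.ble ((X.mul s).add (A.mul ONE)) ((B.mul ONE).add (M.mul s))

def tst (P Kp Kn r : ℕ) (c : Cell) (v : V) : Bool :=
  tst0 (P.mul c.e) ((Kp.mul ONE).add (r.mul v.n)) ((Kn.mul ONE).add (r.mul v.p)) (r.mul v.m) c.s

def cellA (lo hi P nu : ℕ) (c : Cell) (v : V) : Bool :=
  (Nat.ble 1 c.b && Nat.ble c.b lo) || tst P (cond (Nat.ble hi c.a) 0 nu) 0 1 c v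

def cellB (lo up P Kp Kn r : ℕ) (c : Cell) (v : V) : Bool :=
  (Nat.ble 1 c.b && Nat.ble c.b lo) || Nat.ble (Nat.succ up) c.a || tst P Kp Kn r c v

def mkCell (L a b : ℕ) : Cell :=
  ⟨a, b, nHi (L.mul a), cond (Nat.ble b 0) 0 (nLo (L.mul (b.sub a)))⟩

noncomputable def cells (L : ℕ) (xs : List ℕ) : List Cell :=
  List.rec (motive := fun _ => List Cell) [] (fun a t ih => mkCell L a (nth 0 t 0) :: ih) xs

/-- The cells cover `[x0, ∞)` and their bounds are correct. -/
structure Grid (L : ℝ) (x0 : ℕ) (cs : List Cell) : Prop where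
  pos : 0 ≤ L
  e : ∀ c ∈ cs, Real.exp (-(L * r6 c.a)) * 2 ^ 80 ≤ c.e
  s : ∀ c ∈ cs, ∀ x, c.mem x → (c.s : ℝ) ≤ Real.exp (-(L * (x - r6 c.a))) * 2 ^ 80
  cov : ∀ x, r6 x0 ≤ x → ∃ c ∈ cs, c.mem x

theorem nth_mp {α β : Type} (f : α → β) (d : α) (l : List α) (k : ℕ) :
    nth (f d) (mp f l) k = f (nth d l k) := by
  induction l generalizing k with
  | nil => rfl
  | cons a t ih => cases k with
    | zero => rfl
    | succ m => exact ih m

theorem nth_mem {α : Type} (d : α) (l : List α) (k : ℕ) : nth d l k = d ∨ nth d l k ∈ l := by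
  induction l generalizing k with
  | nil => exact Or.inl rfl
  | cons a t ih => cases k with
    | zero => exact Or.inr List.mem_cons_self
    | succ m => exact (ih m).imp id (List.mem_cons_of_mem a)

theorem allL_mem {α : Type} {f : α → Bool} {l : List α} (h : allL f l = true) :
    ∀ a ∈ l, f a = true := by
  induction l with
  | nil => simp
  | cons a t ih =>
    have h' := Bool.and_eq_true_iff.1 (show (f a && allL f t) = true from h)
    exact List.forall_mem_cons.2 ⟨h'.1, ih h'.2⟩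

theorem sumN_eq (f : ℕ → ℕ) (n : ℕ) : (sumN f n : ℝ) = ∑ k ∈ range n, (f k : ℝ) := by
  induction n with
  | zero => simp [sumN]
  | succ k ih => rw [sum_range_succ, ← ih, ← iv_add]; rfl

variable {L : ℝ}

theorem Bd.mono {cs : List Cell} {w : List V} {f g : ℝ → ℝ} (h : Bd L cs w f)
    (hg : ∀ x, f x ≤ g x) : Bd L cs w g := by
  induction cs generalizing w with
  | nil => trivial
  | cons c cs ih => cases w with
    | nil => trivial
    | cons v t => exact ⟨fun x hx => (h.1 x hx).trans (hg x), ih h.2⟩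

theorem bd_nil (cs : List Cell) (f : ℝ → ℝ) : Bd L cs [] f := by cases cs <;> trivial

theorem bd_mp {cs : List Cell} {g : Cell → V} {f : ℝ → ℝ} (h : ∀ c : Cell, c.lb L (g c) f) :
    Bd L cs (mp g cs) f := by
  induction cs with
  | nil => trivial
  | cons c cs ih => exact ⟨h c, ih⟩

/-- A weight with a pointwise property is obtained from admissible values on the cells. -/
theorem bd_exists (P : ℝ → ℝ → Prop) (f0 : ℝ → ℝ) (h0 : ∀ x, P x (f0 x)) (g : Cell → V)
    (h : ∀ c x, c.mem x → ∃ t, P x t ∧ (g c).val (Real.exp (-(L * (x - r6 c.a)))) ≤ t)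
    (cs : List Cell) : ∃ f, (∀ x, P x (f x)) ∧ Bd L cs (mp g cs) f := by
  classical
  induction cs with
  | nil => exact ⟨f0, h0, trivial⟩
  | cons c cs ih =>
    obtain ⟨f, h1, h2⟩ := ih
    choose t ht using h c
    refine ⟨fun x => if hx : c.mem x then max (t x hx) (f x) else f x, fun x => ?_,
      fun x hx => ?_, h2.mono fun x => ?_⟩
    · dsimp only
      split_ifs with hx
      · rcases max_choice (t x hx) (f x) with e | e <;> rw [e]
        exacts [(ht x hx).1, h1 x]
      · exact h1 x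
    · dsimp only
      rw [dif_pos hx]
      exact (ht x hx).2.trans (le_max_left _ _)
    · split_ifs
      exacts [le_max_right _ _, le_rfl]

theorem Bd.axpy {cs : List Cell} {u v : List V} {f g : ℝ → ℝ} (k : ℕ) (hu : Bd L cs u f)
    (hv : Bd L cs v g) : Bd L cs (axpy k u v) fun x => f x + k * g x := by
  induction cs generalizing u v with
  | nil => trivial
  | cons c cs ih => cases u with
    | nil => trivial
    | cons a s => cases v with
      | nil => trivial
      | cons b t =>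
        refine ⟨fun x hx => le_trans (le_of_eq ?_) (add_le_add (hu.1 x hx)
          (mul_le_mul_of_nonneg_left (hv.1 x hx) (Nat.cast_nonneg k))), ih hu.2 hv.2⟩
        simp only [V.val, V.axpy, iv_add, iv_mul]
        ring

theorem Bd.acc {cs : List Cell} {w : List V} {f : ℝ → ℝ} (coef : ℕ → ℕ) {col : ℕ → List V}
    {g : ℕ → ℝ → ℝ} (hw : Bd L cs w f) (h : ∀ k, Bd L cs (col k) (g k)) (n : ℕ) :
    Bd L cs (acc coef col w n) fun x => f x + ∑ k ∈ range n, coef k * g k x := by
  induction n with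
  | zero => exact hw.mono fun x => by simp
  | succ k ih =>
    show Bd L cs (Nat.rec (motive := fun _ => List V) (Cq.acc coef col w k)
      (fun c _ => Cq.axpy (Nat.succ c) (Cq.acc coef col w k) (col k)) (coef k)) _
    simp only [sum_range_succ]
    cases coef k with
    | zero => exact ih.mono fun x => by simp
    | succ c => exact (ih.axpy (c + 1) (h k)).mono fun x => by rw [add_assoc]

theorem allC_bd {t : Cell → V → Bool} {cs : List Cell} {w : List V} {f : ℝ → ℝ}
    (h : allC t cs w = true) (hw : Bd L cs w f) : ∀ c ∈ cs, ∃ v, t c v = true ∧ c.lb L v f := by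
  induction cs generalizing w with
  | nil => simp
  | cons c cs ih => cases w with
    | nil => exact absurd h Bool.false_ne_true
    | cons v s =>
      have h' := Bool.and_eq_true_iff.1 (show (t c v && allC t cs s) = true from h)
      exact List.forall_mem_cons.2 ⟨⟨v, h'.1, hw.1⟩, ih h'.2 hw.2⟩

theorem tst_sound {x0 P Kp Kn r : ℕ} {cs : List Cell} (hG : Grid L x0 cs) {c : Cell} (hc : c ∈ cs)
    {v : V} {f : ℝ → ℝ} (h : tst P Kp Kn r c v = true) (hv : c.lb L v f) {x : ℝ} (hx : c.mem x) :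
    P * Real.exp (-(L * x)) + Kp ≤ Kn + r * f x := by
  obtain ⟨h1, h2⟩ := Bool.and_eq_true_iff.1 h
  have h1 := ble h1
  have h2 := ble h2
  have h3 := mul_le_mul_of_nonneg_left (hv x hx) (Nat.cast_nonneg r)
  have h4 := hG.s c hc x hx
  have h5 := mul_le_mul_of_nonneg_left (hG.e c hc) (Nat.cast_nonneg P)
  have h6 : Real.exp (-(L * (x - r6 c.a))) ≤ 1 :=
    Real.exp_le_one_iff.2 (neg_nonpos.2 (mul_nonneg hG.pos (sub_nonneg.2 hx.1)))
  have h7 : Real.exp (-(L * x)) = Real.exp (-(L * r6 c.a)) * Real.exp (-(L * (x - r6 c.a))) := by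
    rw [← Real.exp_add]
    congr 1
    ring
  have h8 := (Real.exp_pos (-(L * (x - r6 c.a)))).le
  simp only [iv_add, iv_mul, iv_ONE, V.val] at h1 h2 h3
  rw [h7]
  have hS := iv_pos
  generalize Real.exp (-(L * (x - r6 c.a))) = σ at *
  generalize (2 : ℝ) ^ 80 = S at *
  have h9 : P * c.e * σ + (Kp * S + r * v.n) ≤ Kn * S + r * v.p + r * v.m * σ := by
    rcases le_total ((P : ℝ) * c.e) (r * v.m) with h0 | h0
    · refine le_of_mul_le_mul_right ?_ hS
      nlinarith [mul_le_mul_of_nonneg_left h4 (sub_nonneg.2 h0)]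
    · nlinarith [mul_le_mul_of_nonneg_left h6 (sub_nonneg.2 h0)]
  rw [← mul_div_assoc, div_le_iff₀ hS] at h3
  refine le_of_mul_le_mul_right ?_ hS
  nlinarith [mul_le_mul_of_nonneg_right h5 h8]

theorem skip_not {c : Cell} {lo : ℕ} {x : ℝ} (hx : c.mem x) (h : r6 lo ≤ x) :
    ¬ (Nat.ble 1 c.b && Nat.ble c.b lo) = true := fun h1 => by
  obtain ⟨h2, h3⟩ := Bool.and_eq_true_iff.1 h1
  have h2 := Nat.le_of_ble_eq_true h2
  rcases hx.2 with e | e
  · omega
  · linarith [r6_le.2 (Nat.le_of_ble_eq_true h3)]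

theorem rngA {x0 lo hi P nu : ℕ} {cs : List Cell} (hG : Grid L x0 cs) (h0 : x0 ≤ lo) {w : List V}
    {f : ℝ → ℝ} (h : allC (cellA lo hi P nu) cs w = true) (hw : Bd L cs w f) (x : ℝ)
    (hx : r6 lo ≤ x) : P * Real.exp (-(L * x)) + (if x < r6 hi then (nu : ℝ) else 0) ≤ f x := by
  obtain ⟨c, hc, hm⟩ := hG.cov x ((r6_le.2 h0).trans hx)
  obtain ⟨v, h1, h2⟩ := allC_bd h hw c hc
  have h3 := tst_sound hG hc ((Bool.or_eq_true_iff.1 h1).resolve_left (skip_not hm hx)) h2 hm
  rw [Nat.cast_zero, Nat.cast_one, zero_add, one_mul] at h3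
  refine le_trans (add_le_add le_rfl ?_) h3
  split_ifs with h4
  · have h5 : Nat.ble hi c.a = false := by
      rw [← Bool.not_eq_true, Nat.ble_eq, ← r6_le, not_le]
      exact hm.1.trans_lt h4
    rw [h5, cond_false]
  · exact Nat.cast_nonneg _

theorem rngB {x0 lo up P Kp Kn r : ℕ} {cs : List Cell} (hG : Grid L x0 cs) (h0 : x0 ≤ lo)
    {w : List V} {f : ℝ → ℝ} (h : allC (cellB lo up P Kp Kn r) cs w = true) (hw : Bd L cs w f)
    (x : ℝ) (hx : r6 lo ≤ x) (hx' : x ≤ r6 up) :
    P * Real.exp (-(L * x)) + Kp ≤ Kn + r * f x := by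
  obtain ⟨c, hc, hm⟩ := hG.cov x ((r6_le.2 h0).trans hx)
  obtain ⟨v, h1, h2⟩ := allC_bd h hw c hc
  refine tst_sound hG hc ((Bool.or_eq_true_iff.1 h1).resolve_left fun h3 => ?_) h2 hm
  have h4 := Nat.le_of_ble_eq_true ((Bool.or_eq_true_iff.1 h3).resolve_left (skip_not hm hx))
  have h5 := r6_le.1 (hm.1.trans hx')
  omega

theorem grid_cells (L : ℕ) {xs : List ℕ} (h : xs ≠ []) : Grid (r6 L) (nth 0 xs 0) (cells L xs) := by
  have key : ∀ xs : List ℕ, ∀ c ∈ cells L xs, ∃ a b, c = mkCell L a b := fun xs => by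
    induction xs with
    | nil => exact fun c hc => absurd hc List.not_mem_nil
    | cons a t ih => exact List.forall_mem_cons.2 ⟨⟨_, _, rfl⟩, ih⟩
  refine ⟨r6_nonneg L, fun c hc => ?_, fun c hc x hx => ?_, fun x hx => ?_⟩
  · obtain ⟨a, b, rfl⟩ := key xs c hc
    rw [r6_mul]
    exact le_nHi _
  · obtain ⟨a, b, rfl⟩ := key xs c hc
    show ((cond (Nat.ble b 0) 0 (nLo (L.mul (b.sub a))) : ℕ) : ℝ) ≤
      Real.exp (-(r6 L * (x - r6 a))) * _
    cases hb : Nat.ble b 0 with
    | true => rw [cond_true, Nat.cast_zero]; positivity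
    | false =>
      refine (nLo_le _).trans (mul_le_mul_of_nonneg_right (Real.exp_le_exp.2 ?_) iv_pos.le)
      rw [← r6_mul, neg_le_neg_iff, r6_sub']
      refine mul_le_mul_of_nonneg_left (le_trans ?_ (le_max_left _ _)) (r6_nonneg L)
      rcases hx.2 with e | e
      · rw [show b = 0 from e] at hb
        exact absurd hb (by decide)
      · exact sub_le_sub_right e.le _
  · induction xs with
    | nil => exact absurd rfl h
    | cons a t ih =>
      by_cases h1 : nth 0 t 0 = 0 ∨ x < r6 (nth 0 t 0)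
      · exact ⟨_, List.mem_cons_self, hx, h1⟩
      · rw [not_or, not_lt] at h1
        obtain ⟨c, hc, hm⟩ := ih (fun e => h1.1 (e ▸ rfl)) h1.2
        exact ⟨c, List.mem_cons_of_mem _ hc, hm⟩

/-! Chains of chords. -/

/-- A chord starting at `u`, with multipliers for the class constraints. -/
structure Ch where
  u : ℕ
  nu : ℕ
  th : List (ℕ × ℕ)
  sel : List ℕ

noncomputable def chain (ck : Bool → ℕ → ℕ → Ch → Bool) (l : List Ch) : Ch → Bool :=
  List.rec (motive := fun _ => Ch → Bool)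
    (fun c => Nat.ble 1 c.u && ck false E12 ((c.u.mul E6).sub 1) c)
    (fun d _ ih c => ck true ((c.u.add d.u).mul E6) (c.u.mul d.u) c && ih d) l

noncomputable def chain1 (ck : Bool → ℕ → ℕ → Ch → Bool) (X : ℕ) (l : List Ch) : Bool :=
  List.rec (motive := fun _ => Bool) false (fun c t _ =>
    Nat.ble (c.u.mul ONE) (X.mul E6) && Nat.ble 1 (len t) && chain ck t c) l

theorem chain_sound {ck : Bool → ℕ → ℕ → Ch → Bool} {G : Bool → ℝ → ℝ → Prop}
    (h1 : ∀ t P q c, ck t P q c = true → G t (P / E12) (q / E12))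
    (h2 : ∀ p q q' M, G true p q → G false 1 q' → 0 ≤ M → G true (p + M) (q + M * q'))
    {l : List Ch} {c : Ch} (h : chain ck l c = true) (hb : l ≠ [] ∨ ∃ p q, G true p q) (σ : ℝ)
    (hσ : r6 c.u ≤ σ) : ∃ p q, σ ^ 2 ≤ p * σ - q ∧ G true p q := by
  have h0 : (0 : ℝ) < E12 := Nat.cast_pos.2 pE12
  induction l generalizing c with
  | nil =>
    obtain ⟨p, q, h3⟩ := hb.resolve_left fun e => e rfl
    obtain ⟨h4, h5⟩ := Bool.and_eq_true_iff.1 h
    have h6 := h1 _ _ _ _ h5
    rw [div_self h0.ne'] at h6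
    have h7 : (((c.u.mul E6).sub 1 : ℕ) : ℝ) / E12 < σ := by
      refine lt_of_lt_of_le ?_ hσ
      have := ble h4
      rw [iv_sub, iv_mul, cE6, cE12, r6, div_lt_iff₀ (by positivity)]
      push_cast at this ⊢
      exact max_lt (by linarith) (by linarith)
    generalize (((c.u.mul E6).sub 1 : ℕ) : ℝ) / E12 = q' at *
    refine ⟨_, _, ?_, h2 p q q' (max 0 ((σ ^ 2 - p * σ + q) / (σ - q'))) h3 h6 (le_max_left _ _)⟩
    have := (div_le_iff₀ (sub_pos.2 h7)).1 (le_max_right 0 ((σ ^ 2 - p * σ + q) / (σ - q')))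
    linarith
  | cons d t ih =>
    obtain ⟨h4, h5⟩ := Bool.and_eq_true_iff.1 h
    have h6 := h1 _ _ _ _ h4
    rcases le_total σ (r6 d.u) with h7 | h7
    · refine ⟨_, _, ?_, h6⟩
      rw [← r6_mul, show E6 = 1000000 from rfl, ← r6_mul, r6_add,
        show r6 1000000 = 1 by norm_num [r6]]
      nlinarith [mul_nonneg (sub_nonneg.2 hσ) (sub_nonneg.2 h7)]
    · exact ih h5 (Or.inr ⟨_, _, h6⟩) h7

theorem chain1_sound {ck : Bool → ℕ → ℕ → Ch → Bool} {G : Bool → ℝ → ℝ → Prop}
    (h1 : ∀ t P q c, ck t P q c = true → G t (P / E12) (q / E12))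
    (h2 : ∀ p q q' M, G true p q → G false 1 q' → 0 ≤ M → G true (p + M) (q + M * q'))
    {X : ℕ} {l : List Ch} (h : chain1 ck X l = true) (σ : ℝ) (hσ : (X : ℝ) ≤ σ * 2 ^ 80) :
    ∃ p q, σ ^ 2 ≤ p * σ - q ∧ G true p q := by
  cases l with
  | nil => exact absurd h Bool.false_ne_true
  | cons c t =>
    obtain ⟨h3, h4⟩ := Bool.and_eq_true_iff.1 h
    obtain ⟨h5, h6⟩ := Bool.and_eq_true_iff.1 h3
    refine chain_sound h1 h2 h4 (Or.inl fun e => ?_) σ ?_
    · subst e
      exact absurd h6 (by decide)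
    · have := ble h5
      rw [iv_mul, iv_mul, iv_ONE, cE6] at this
      rw [r6, div_le_iff₀ (by positivity)]
      refine le_of_mul_le_mul_right ?_ iv_pos
      nlinarith

end Pool.Agent.Lib.MP_778b46_nt.GX.Cq
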