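import Pool.Agent.Lib.MP_778b46_nt.GX.CqA

/- Kernel check of a row of the certificate: the three kinds of classes. -/

namespace Pool.Agent.Lib.MP_778b46_nt.GX.Cq

open Finset Ck
open Pool.Agent.Lib.MP_6cad4c_al

/-- A family constraint: multiplier, line, kind, and variants (cost, column). -/
structure FE where
  y : ℕ
  l : ℕ
  lone : Bool
  vs : List (ℕ × List V)

/-- The columns of a row. -/
structure Env where
  L : ℕ
  x0 : ℕ
  cs : List Cell
  z : List V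
  nF : ℕ
  nC : ℕ
  F : List FE
  C : List (ℕ × List V)

namespace Env

variable (E : Env)

noncomputable def fe (k : ℕ) : FE := nth ⟨0, 0, false, []⟩ E.F k

noncomputable def var (k v : ℕ) : ℕ × List V := nth (0, []) (E.fe k).vs v

noncomputable def ce (m : ℕ) : ℕ × List V := nth (0, []) E.C m

noncomputable def cF (A : FE → Bool) (k : ℕ) : ℕ := cond (A (E.fe k)) (E.fe k).y 0

noncomputable def th (lo : ℕ) (c : Ch) (m : ℕ) : ℕ := cond (Nat.ble (E.ce m).1 lo) (look c.th m) 0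

noncomputable def vC (lo : ℕ) (c : Ch) : List V := acc (E.th lo c) (fun m => (E.ce m).2) E.z E.nC

noncomputable def vF (t : Bool) (A : FE → Bool) (c : Ch) (w : List V) : List V :=
  cond t (acc (E.cF A) (fun k => (E.var k (nth 0 c.sel k)).2) w E.nF) w

noncomputable def cost (t : Bool) (A : FE → Bool) (c : Ch) : ℕ :=
  cond t (sumN (fun k => (E.cF A k).mul (E.var k (nth 0 c.sel k)).1) E.nF) 0

noncomputable def up (n : ℕ) : ℕ := (n.add 999999999999).div E12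

noncomputable def ckT (fl : Bool) (lo hi : ℕ) (t : Bool) (P q : ℕ) (c : Ch) : Bool :=
  Nat.ble ((sumN (E.th lo c) E.nC).add (up (E.cost t (fun f => Nat.ble f.l lo) c)))
      (q.add (cond fl 0 c.nu)) &&
    allC (cellA lo hi P (cond fl 0 c.nu)) E.cs (E.vF t (fun f => Nat.ble f.l lo) c (E.vC lo c))

noncomputable def ckP (r sa sb lc lp y0 : ℕ) (t : Bool) (P q : ℕ) (c : Ch) : Bool :=
  allC (cellA lc 0 P 0) E.cs (E.vF t (fun f => Nat.ble f.l sa) c (E.vC sa c)) &&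
    allC (cellB sa sb (r.mul P) ((sumN (E.th sa c) E.nC).add
        (up (E.cost t (fun f => Nat.ble f.l sa || (f.lone && Nat.ble f.l lp)) c)))
      (q.add (cond t y0 0)) r) E.cs
      (E.vF t (fun f => Nat.ble f.l sa || (f.lone && Nat.ble f.l lp)) c (E.vC sa c))

noncomputable def tys (last : List Ch) (ty : List (ℕ × List Ch)) : ℕ → Bool :=
  List.rec (motive := fun _ => ℕ → Bool)
    (fun lo => Nat.ble E.x0 lo && chain1 (E.ckT true lo lo) 0 last)
    (fun t _ ih lo => Nat.ble E.x0 lo && chain1 (E.ckT false lo t.1) (nLo (E.L.mul t.1)) t.2 &&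
      ih t.1) ty

noncomputable def y (k : Fin E.nF) : ℝ := (E.fe k).y / E12

noncomputable def lF (k : Fin E.nF) : ℝ := r6 (E.fe k).l

def lone (k : Fin E.nF) : Prop := (E.fe k).lone = true

noncomputable def wF (W : ℕ → ℕ → ℝ → ℝ) (k : Fin E.nF) (t : ℝ) : ℝ → ℝ := W k ⌊t⌋₊

noncomputable def co (k : Fin E.nF) (t : ℝ) : ℝ := (E.var k ⌊t⌋₊).1 / E12

noncomputable def lC (m : Fin E.nC) : ℝ := r6 (E.ce m).1

def wC (U : ℕ → ℝ → ℝ) (m : Fin E.nC) : ℝ → ℝ := U m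

/-- The columns bound the weights from below. -/
structure Ok (W : ℕ → ℕ → ℝ → ℝ) (U : ℕ → ℝ → ℝ) : Prop where
  grid : Grid (r6 E.L) E.x0 E.cs
  z : Bd (r6 E.L) E.cs E.z fun _ => 0
  f : ∀ k v, Bd (r6 E.L) E.cs (E.var k v).2 (W k v)
  c : ∀ m, Bd (r6 E.L) E.cs (E.ce m).2 (U m)

variable {E} {W : ℕ → ℕ → ℝ → ℝ} {U : ℕ → ℝ → ℝ}

theorem e12 : (0 : ℝ) < E12 := Nat.cast_pos.2 pE12

theorem le_up (n : ℕ) : (n : ℝ) / E12 ≤ up n := by
  rw [div_le_iff₀ e12, ← Nat.cast_mul, Nat.cast_le]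
  show n ≤ (n + 999999999999) / 1000000000000 * 1000000000000
  omega

theorem sumF {A : FE → Bool} {B : Fin E.nF → Prop} [DecidablePred B]
    (h : ∀ k, B k ↔ A (E.fe k) = true) (g : ℕ → ℝ) :
    ∑ k ∈ range E.nF, (E.cF A k : ℝ) * g k = E12 * ∑ k ∈ univ.filter B, E.y k * g k := by
  rw [sum_filter, mul_sum, ← Fin.sum_univ_eq_sum_range]
  refine sum_congr rfl fun k _ => ?_
  unfold cF y
  split_ifs with h1
  · rw [(h k).1 h1, cond_true]
    field_simp [e12.ne']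
  · rw [Bool.eq_false_iff.2 fun e => h1 ((h k).2 e), cond_false]
    simp

theorem bd_vF (h : E.Ok W U) (t : Bool) {A : FE → Bool} {B : Fin E.nF → Prop}
    (hB : ∀ k, B k ↔ A (E.fe k) = true) (lo : ℕ) (c : Ch) :
    Bd (r6 E.L) E.cs (E.vF t A c (E.vC lo c)) fun x => E12 *
      (cond t (PhiJ E.y (E.wF W) B (fun k => (nth 0 c.sel k : ℕ)) x) 0 +
        ∑ m : Fin E.nC, (E.th lo c m : ℝ) / E12 * E.wC U m x) := by
  classical
  have h1 : Bd (r6 E.L) E.cs (E.vC lo c) fun x =>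
      E12 * ∑ m : Fin E.nC, (E.th lo c m : ℝ) / E12 * E.wC U m x :=
    (h.z.acc (E.th lo c) h.c E.nC).mono fun x => by
      rw [zero_add, mul_sum, ← Fin.sum_univ_eq_sum_range]
      refine le_of_eq (sum_congr rfl fun k _ => ?_)
      unfold wC
      field_simp [e12.ne']
  cases t with
  | false => exact h1.mono fun x => by rw [cond_false, zero_add]
  | true =>
    refine (h1.acc (E.cF A) (fun k => h.f k (nth 0 c.sel k)) E.nF).mono fun x => le_of_eq ?_
    rw [sumF hB, cond_true, mul_add, add_comm]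
    simp only [PhiJ, wF, Nat.floor_natCast]

theorem cost_le (t : Bool) {A : FE → Bool} {B : Fin E.nF → Prop}
    (hB : ∀ k, B k ↔ A (E.fe k) = true) (c : Ch) :
    E12 * cond t (CostJ E.y E.co B fun k => (nth 0 c.sel k : ℕ)) 0 ≤ up (E.cost t A c) := by
  classical
  refine le_trans (le_of_eq ?_) (le_up _)
  cases t with
  | false => simp [cost]
  | true =>
    rw [cost, cond_true, cond_true, sumN_eq]
    simp only [iv_mul, CostJ, co, Nat.floor_natCast]
    rw [sumF hB, mul_div_assoc, sum_div]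
    simp only [mul_div_assoc]

theorem sum_th (lo : ℕ) (c : Ch) :
    (sumN (E.th lo c) E.nC : ℝ) = E12 * ∑ m : Fin E.nC, (E.th lo c m : ℝ) / E12 := by
  rw [sumN_eq, mul_sum, ← Fin.sum_univ_eq_sum_range]
  exact sum_congr rfl fun k _ => by field_simp [e12.ne']

theorem th_zero (lo : ℕ) (c : Ch) (m : Fin E.nC) (h : r6 lo < E.lC m) :
    (E.th lo c m : ℝ) / E12 = 0 := by
  have : Nat.ble (E.ce m).1 lo = false := by
    rw [← Bool.not_eq_true, Nat.ble_eq, not_le]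
    exact r6_lt.1 h
  rw [th, this, cond_false, Nat.cast_zero, zero_div]

theorem bleF (lo : ℕ) (k : Fin E.nF) : E.lF k ≤ r6 lo ↔ Nat.ble (E.fe k).l lo = true := by
  rw [Nat.ble_eq, lF, r6_le]

variable (E W U) in
/-- Certificate for classes without primary zero. -/
def GT (fl : Bool) (lo hi : ℝ) (t : Bool) (p q : ℝ) : Prop :=
  ∃ (ν : ℝ) (θ : Fin E.nC → ℝ) (τ : Fin E.nF → ℝ), (fl = true → ν = 0) ∧ 0 ≤ ν ∧ (∀ m, 0 ≤ θ m) ∧
    (∀ m, lo < E.lC m → θ m = 0) ∧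
    ∑ m, θ m - ν + cond t (CostJ E.y E.co (fun k => E.lF k ≤ lo) τ) 0 ≤ q ∧
    ∀ x, lo ≤ x → p * Real.exp (-(r6 E.L * x)) + (if x < hi then ν else 0) ≤
      cond t (PhiJ E.y (E.wF W) (fun k => E.lF k ≤ lo) τ x) 0 + ∑ m, θ m * E.wC U m x

theorem ckT_sound (h : E.Ok W U) {fl : Bool} {lo hi : ℕ} (h0 : E.x0 ≤ lo) (t : Bool) (P q : ℕ)
    (c : Ch) (hc : E.ckT fl lo hi t P q c = true) :
    E.GT W U fl (r6 lo) (r6 hi) t (P / E12) (q / E12) := by
  obtain ⟨h1, h2⟩ := Bool.and_eq_true_iff.1 hc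
  have h1 := ble h1
  have h3 := cost_le (E := E) t (A := fun f => Nat.ble f.l lo) (bleF lo) c
  have h4 := rngA h.grid h0 h2 (bd_vF h t (A := fun f => Nat.ble f.l lo) (bleF lo) lo c)
  have h5 := e12
  rw [iv_add, iv_add, sum_th] at h1
  refine ⟨(cond fl 0 c.nu : ℕ) / E12, fun m => E.th lo c m / E12, fun k => (nth 0 c.sel k : ℕ),
    fun e => by simp [e], by positivity, fun m => by positivity, th_zero lo c, ?_, fun x hx => ?_⟩
  · rw [le_div_iff₀ h5, add_mul, sub_mul, div_mul_cancel₀ _ h5.ne']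
    linarith
  · refine le_of_mul_le_mul_left (le_trans (le_of_eq ?_) (h4 x hx)) h5
    rw [mul_add, mul_ite, mul_zero]
    field_simp

theorem GT.comb {fl : Bool} {lo hi : ℝ} (p q q' M : ℝ) (h : E.GT W U fl lo hi true p q)
    (h' : E.GT W U fl lo hi false 1 q') (hM : 0 ≤ M) :
    E.GT W U fl lo hi true (p + M) (q + M * q') := by
  obtain ⟨ν, θ, τ, a1, a2, a3, a4, a5, a6⟩ := h
  obtain ⟨ν', θ', τ', b1, b2, b3, b4, b5, b6⟩ := h'
  refine ⟨ν + M * ν', fun m => θ m + M * θ' m, τ, fun e => by simp [a1 e, b1 e], by positivity,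
    fun m => add_nonneg (a3 m) (mul_nonneg hM (b3 m)), fun m e => by simp [a4 m e, b4 m e], ?_,
    fun x hx => ?_⟩
  · rw [sum_add_distrib, ← mul_sum]
    rw [cond_false] at b5
    nlinarith [mul_le_mul_of_nonneg_left b5 hM]
  · have c1 := a6 x hx
    have c2 := mul_le_mul_of_nonneg_left (b6 x hx) hM
    simp only [add_mul, sum_add_distrib, mul_assoc, ← mul_sum, cond_false] at c1 c2 ⊢
    split_ifs at c1 c2 ⊢ <;> linarith

theorem tys_sound (h : E.Ok W U) {last : List Ch} {ty : List (ℕ × List Ch)} {lo : ℕ}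
    (hc : E.tys last ty lo = true) : ∃ (N : ℕ) (b : ℕ → ℝ), b 0 = r6 lo ∧
      (∀ t < N, TypeOK2 (r6 E.L) E.y E.lF (E.wF W) E.co E.lC (E.wC U) (b t) (b (t + 1))) ∧
      LastOK2 (r6 E.L) E.y E.lF (E.wF W) E.co E.lC (E.wC U) (b N) := by
  induction ty generalizing lo with
  | nil =>
    obtain ⟨h1, h2⟩ := Bool.and_eq_true_iff.1 hc
    refine ⟨0, fun _ => r6 lo, rfl, fun t ht => absurd ht (Nat.not_lt_zero t), fun σ hσ => ?_⟩
    obtain ⟨p, q, h3, ν, θ, τ, a1, -, a3, a4, a5, a6⟩ := chain1_sound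
      (ckT_sound h (Nat.le_of_ble_eq_true h1)) GT.comb h2 σ (by rw [Nat.cast_zero]; positivity)
    rw [a1 rfl, sub_zero] at a5
    refine ⟨p, q, θ, τ, a3, a4, h3, a5, fun x hx => ?_⟩
    have := a6 x hx
    rwa [if_neg (not_lt.2 hx), add_zero] at this
  | cons t s ih =>
    obtain ⟨h0, h4⟩ := Bool.and_eq_true_iff.1 hc
    obtain ⟨h1, h2⟩ := Bool.and_eq_true_iff.1 h0
    obtain ⟨N, b, b1, b2, b3⟩ := ih h4
    refine ⟨N + 1, fun n => Nat.casesOn n (r6 lo) b, rfl, fun n hn => ?_, b3⟩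
    cases n with
    | succ n => exact b2 n (by omega)
    | zero =>
      intro σ hσ
      have hσ : Real.exp (-(r6 E.L * b 0)) ≤ σ := hσ
      rw [b1, r6_mul] at hσ
      obtain ⟨p, q, h3, ν, θ, τ, -, a2, a3, a4, a5, a6⟩ := chain1_sound
        (ckT_sound h (Nat.le_of_ble_eq_true h1)) GT.comb h2 σ
        ((nLo_le _).trans (mul_le_mul_of_nonneg_right hσ iv_pos.le))
      rw [← b1] at a6
      exact ⟨p, q, ν, θ, τ, a2, a3, a4, h3, a5, a6⟩

variable (E W U) in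
/-- Certificate for classes with primary zeros. -/
def GP (r : ℕ) (sa sb lc lp y0 : ℝ) (t : Bool) (p q : ℝ) : Prop :=
  ∃ (θ : Fin E.nC → ℝ) (τ : Fin E.nF → ℝ), (∀ m, 0 ≤ θ m) ∧ (∀ m, sa < E.lC m → θ m = 0) ∧
    (∀ x, lc ≤ x → p * Real.exp (-(r6 E.L * x)) ≤
      cond t (PhiJ E.y (E.wF W) (fun k => E.lF k ≤ sa) τ x) 0 + ∑ m, θ m * E.wC U m x) ∧
    ∀ x, sa ≤ x → x ≤ sb → r * (p * Real.exp (-(r6 E.L * x))) + ∑ m, θ m +
      cond t (CostJ E.y E.co (fun k => E.lF k ≤ sa ∨ (E.lone k ∧ E.lF k ≤ lp)) τ) 0 ≤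
        q + cond t y0 0 + r * (cond t (PhiJ E.y (E.wF W)
          (fun k => E.lF k ≤ sa ∨ (E.lone k ∧ E.lF k ≤ lp)) τ x) 0 + ∑ m, θ m * E.wC U m x)

theorem ckP_sound (h : E.Ok W U) {r sa sb lc lp y0 : ℕ} (h0 : E.x0 ≤ sa) (h0' : sa ≤ lc)
    (t : Bool) (P q : ℕ) (c : Ch) (hc : E.ckP r sa sb lc lp y0 t P q c = true) :
    E.GP W U r (r6 sa) (r6 sb) (r6 lc) (r6 lp) (y0 / E12) t (P / E12) (q / E12) := by
  obtain ⟨h1, h2⟩ := Bool.and_eq_true_iff.1 hc
  have hB : ∀ k : Fin E.nF, (E.lF k ≤ r6 sa ∨ (E.lone k ∧ E.lF k ≤ r6 lp)) ↔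
      (Nat.ble (E.fe k).l sa || ((E.fe k).lone && Nat.ble (E.fe k).l lp)) = true := fun k => by
    rw [Bool.or_eq_true, Bool.and_eq_true, bleF, bleF, lone]
  have h3 := cost_le (E := E) t (A := fun f => Nat.ble f.l sa || (f.lone && Nat.ble f.l lp)) hB c
  have h4 := rngA h.grid (h0.trans h0') h1 (bd_vF h t (A := fun f => Nat.ble f.l sa) (bleF sa) sa c)
  have h6 := rngB h.grid h0 h2
    (bd_vF h t (A := fun f => Nat.ble f.l sa || (f.lone && Nat.ble f.l lp)) hB sa c)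
  have h5 := e12
  refine ⟨fun m => E.th sa c m / E12, fun k => (nth 0 c.sel k : ℕ), fun m => by positivity,
    th_zero sa c, fun x hx => ?_, fun x hx hx' => ?_⟩
  · refine le_of_mul_le_mul_left (le_trans (le_of_eq ?_) (h4 x hx)) h5
    rw [Nat.cast_zero, ite_self, add_zero]
    field_simp
  · have h7 := h6 x hx hx'
    have h8 : ((cond t y0 0 : ℕ) : ℝ) = E12 * cond t (y0 / E12 : ℝ) 0 := by
      cases t
      · simp
      · rw [cond_true, cond_true]
        field_simp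
    rw [iv_mul, iv_add, iv_add, sum_th, h8] at h7
    refine le_of_mul_le_mul_left ?_ h5
    have h9 : E12 * (r * (P / E12 * Real.exp (-(r6 E.L * x)))) =
        r * P * Real.exp (-(r6 E.L * x)) := by field_simp
    have h10 : E12 * (q / E12 : ℝ) = q := by field_simp
    rw [mul_add, mul_add, mul_add, mul_add, h9, h10, mul_left_comm (E12 : ℝ) r]
    linarith

theorem GP.comb {r : ℕ} {sa sb lc lp y0 : ℝ} (p q q' M : ℝ)
    (h : E.GP W U r sa sb lc lp y0 true p q) (h' : E.GP W U r sa sb lc lp y0 false 1 q')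
    (hM : 0 ≤ M) : E.GP W U r sa sb lc lp y0 true (p + M) (q + M * q') := by
  obtain ⟨θ, τ, a3, a4, a5, a6⟩ := h
  obtain ⟨θ', τ', b3, b4, b5, b6⟩ := h'
  refine ⟨fun m => θ m + M * θ' m, τ, fun m => add_nonneg (a3 m) (mul_nonneg hM (b3 m)),
    fun m e => by simp [a4 m e, b4 m e], fun x hx => ?_, fun x hx hx' => ?_⟩
  · have c1 := a5 x hx
    have c2 := mul_le_mul_of_nonneg_left (b5 x hx) hM
    simp only [add_mul, sum_add_distrib, mul_assoc, ← mul_sum, cond_false] at c1 c2 ⊢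
    linarith
  · have c1 := a6 x hx hx'
    have c2 := mul_le_mul_of_nonneg_left (b6 x hx hx') hM
    simp only [add_mul, sum_add_distrib, mul_assoc, ← mul_sum, cond_false] at c1 c2 ⊢
    linarith

theorem prim_sound (h : E.Ok W U) {r sa sb lc lp y0 : ℕ} (h0 : E.x0 ≤ sa) (h0' : sa ≤ lc)
    {l : List Ch} (hc : chain1 (E.ckP r sa sb lc lp y0) (r.mul (nLo (E.L.mul sb))) l = true) :
    PrimOK2 (r6 E.L) E.y E.lF E.lone (E.wF W) E.co E.lC (E.wC U) r (r6 sa) (r6 sb) (r6 lc) (r6 lp)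
      (y0 / E12) := fun σ hσ => by
  obtain ⟨p, q, h3, θ, τ, a3, a4, a5, a6⟩ := chain1_sound (ckP_sound h h0 h0') GP.comb hc σ (by
    rw [r6_mul] at hσ
    rw [iv_mul]
    exact (mul_le_mul_of_nonneg_left (nLo_le _) (Nat.cast_nonneg r)).trans
      ((mul_assoc _ _ _).symm.trans_le (mul_le_mul_of_nonneg_right hσ iv_pos.le)))
  exact ⟨p, q, θ, τ, a3, a4, h3, a5, a6⟩

end Env

end Pool.Agent.Lib.MP_778b46_nt.GX.Cq
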