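import Pool.Agent.Lib.MP_778b46_nt.GX.Row2

/- One row of the certificate with a separate list of class inequalities for the primary classes. -/

namespace Pool.Agent.Lib.MP_778b46_nt.GX

open Finset

variable {Γ Ω ι : Type} [CommGroup Γ] [Fintype Ω] [Fintype ι]
variable {κF κC : Type} [Fintype κF] [Fintype κC]

/-- The conditions of `Prim2` for a given set of primary zeros. -/
def Dat.Prim3 (D : Dat Γ Ω ι) (Pr : Finset ι) (n r : ℕ) (sa sb l lc lp : ℝ) : Prop :=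
  Pr.card ≤ n * r ∧ (∀ p ∈ Pr, sa ≤ D.lam p ∧ D.lam p ≤ sb) ∧
    (∀ p ∈ Pr, ∃ A : Finset ι, A.card = r ∧ ∀ k, k ∈ A ↔ k ∈ Pr ∧ D.sm (D.ch p / D.ch k)) ∧
    (∀ p ∈ Pr, ∀ k, D.ch k = D.ch p → k ≠ p → lp ≤ D.lam k) ∧
    (∀ p ∈ Pr, ∀ k, k ∉ Pr → D.sm (D.ch p / D.ch k) → lc ≤ D.lam k) ∧
    ∀ k, (∀ p ∈ Pr, ¬ D.sm (D.ch p / D.ch k)) → l ≤ D.lam k

theorem row_thm3 {κP : Type} [Fintype κP] {D : Dat Γ Ω ι} {φ ε H : ℝ} {psF psC : List MP} (hD : Clean D φ ε H psF psC)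
    {L sa sb l lc lp y0 : ℝ} {n r N : ℕ} {y lF : κF → ℝ} {lone : κF → Prop}
    {wF : κF → ℝ → ℝ → ℝ} {cF : κF → ℝ → ℝ} {lC : κC → ℝ} {wC : κC → ℝ → ℝ} {b : ℕ → ℝ}
    {lP : κP → ℝ} {wP : κP → ℝ → ℝ} {Pr : Finset ι}
    (hL : 0 ≤ L) (hsl : sa ≤ lc) (hy : ∀ k, 0 ≤ y k) (hy0 : 0 ≤ y0) (hc : ∀ k t, 0 ≤ cF k t)
    (hF : ∀ k, D.FamJ (lF k) (lone k) (wF k) (cF k)) (hC : ∀ m, D.ClsS (lC m) (wC m))
    (hb0 : b 0 ≤ l) (hT : ∀ t < N, TypeOK2 L y lF wF cF lC wC (b t) (b (t + 1)))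
    (hN : LastOK2 L y lF wF cF lC wC (b N))
    (hP : n = 0 ∨ PrimOK2 L y lF lone wF cF lP wP r sa sb lc lp y0)
    (hPr : D.Prim3 Pr n r sa sb l lc lp)
    (hPc : ∀ p ∈ Pr, ∀ m, D.Sat (lP m) (ce2cls D p) → ∑ j ∈ ce2cls D p, wP m (D.lam j) ≤ 1) :
    D.Tot L ≤ ∑ k, y k + n * y0 := by
  classical
  obtain ⟨p1, p2, p3, p4, p5, p6⟩ := hPr
  have hx : ∀ j, 0 ≤ Real.exp (-(L * D.lam j)) := fun j => (Real.exp_pos _).le
  have hch : ∀ {i j k}, j ∈ ce2cls D i → D.ch k = D.ch j → k ∈ ce2cls D i := fun hj hk => by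
    rw [ce2_mem, hk]
    exact ce2_mem.1 hj
  have key : ∀ K ∈ univ.image (ce2cls D), ∃ (A : κF → Finset ι) (B : κF → Prop) (τ : κF → ℝ),
      (∀ k, A k ⊆ K ∧ (¬ B k → A k = ∅) ∧
        (D.Sat (lF k) (A k) ∨ (lone k ∧ D.Cl (lF k) (A k)))) ∧
      ∑ i ∈ K, Real.exp (-(L * D.lam i)) * ∑ j ∈ K, Real.exp (-(L * D.lam j)) ≤
        (∑ k, y k * ∑ j ∈ A k, wF k (τ k) (D.lam j) - CostJ y cF B τ) +
          ∑ i ∈ K, if i ∈ Pr then y0 / r else 0 := by
    intro K hK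
    obtain ⟨i, -, hi⟩ := mem_image.1 hK
    rw [← sum_mul, ← sq]
    have sat : ∀ lo a : ℝ, a ≤ lo → (∀ j ∈ K, lo ≤ D.lam j) → D.Sat a K := fun lo a h1 h2 j hj =>
      ⟨h1.trans (h2 j hj), fun k hk => hi ▸ hch (hi ▸ hj) hk⟩
    by_cases hp : ∃ p0 ∈ K, p0 ∈ Pr
    · obtain ⟨p0, q1, q2⟩ := hp
      obtain ⟨A0, q3, q4⟩ := p3 p0 q2
      have hK0 : ce2cls D p0 = K := hi ▸ ce2_eq hD (hi ▸ q1)
      have hA0 : A0 = K.filter fun k => k ∈ Pr := by
        ext k
        rw [q4, mem_filter, ← hK0, ce2_mem, and_comm]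
      have hr : (0 : ℝ) < r := by
        rw [← q3, hA0]
        exact Nat.cast_pos.2 (card_pos.2 ⟨p0, mem_filter.2 ⟨q1, q2⟩⟩)
      have hlc : ∀ j ∈ K, j ∉ Pr → lc ≤ D.lam j := fun j hj h =>
        p5 p0 q2 j h (ce2_mem.1 (hK0 ▸ hj))
      have hsa : ∀ j ∈ K, sa ≤ D.lam j := fun j hj => by
        by_cases h : j ∈ Pr
        exacts [(p2 j h).1, hsl.trans (hlc j hj h)]
      have hsub : A0 ⊆ K := hA0 ▸ filter_subset _ _
      have hPr' : ∀ j ∈ A0, j ∈ Pr := fun j hj => ((q4 j).1 hj).1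
      obtain ⟨p, q, θ, τ, a1, a2, a3, a4, a5⟩ := (hP.resolve_left fun h => by
        have := card_pos.2 ⟨p0, q2⟩
        rw [h, zero_mul] at p1
        omega) (∑ j ∈ K, Real.exp (-(L * D.lam j))) (by
          refine le_trans ?_ (sum_le_sum_of_subset_of_nonneg hsub fun j _ _ => hx j)
          rw [← q3, ← nsmul_eq_mul]
          exact card_nsmul_le_sum _ _ _ fun j hj => Real.exp_le_exp.2
            (neg_le_neg (mul_le_mul_of_nonneg_left (p2 j (hPr' j hj)).2 hL)))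
      refine ⟨fun k => if lF k ≤ sa then K else if lone k ∧ lF k ≤ lp then A0 else ∅,
        fun k => lF k ≤ sa ∨ (lone k ∧ lF k ≤ lp), τ, fun k => ?_, ?_⟩
      · beta_reduce
        split_ifs with h1 h2
        · exact ⟨Subset.rfl, fun h => absurd (Or.inl h1) h, Or.inl (sat sa _ h1 hsa)⟩
        · exact ⟨hsub, fun h => absurd (Or.inr h2) h, Or.inr ⟨h2.1, fun j hj k h3 h4 =>
            h2.2.trans (p4 j (hPr' j hj) k h3 h4)⟩⟩
        · exact ⟨empty_subset _, fun _ => rfl, Or.inl fun j hj => absurd hj (notMem_empty j)⟩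
      · have b1 : ∑ j ∈ K, ∑ m, θ m * wP m (D.lam j) ≤ ∑ m, θ m := by
          rw [sum_comm]
          refine sum_le_sum fun m _ => ?_
          rw [← mul_sum]
          rcases lt_or_ge sa (lP m) with h | h
          · rw [a2 m h, zero_mul]
          · exact mul_le_of_le_one_right (a1 m) (hK0 ▸ hPc p0 q2 m (hK0 ▸ sat sa _ h hsa))
        rw [← sum_sdiff hsub] at b1
        have b2 : ∑ j ∈ K \ A0, p * Real.exp (-(L * D.lam j)) ≤ ∑ j ∈ K \ A0,
            (PhiJ y wF (fun k => lF k ≤ sa) τ (D.lam j) + ∑ m, θ m * wP m (D.lam j)) :=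
          sum_le_sum fun j hj => a4 _ (hlc j (mem_sdiff.1 hj).1 fun h =>
            (mem_sdiff.1 hj).2 (hA0 ▸ mem_filter.2 ⟨(mem_sdiff.1 hj).1, h⟩))
        set c0 := q + y0 - ∑ m, θ m - CostJ y cF (fun k => lF k ≤ sa ∨ (lone k ∧ lF k ≤ lp)) τ
          with hc0
        have b3 : ∑ j ∈ A0, p * Real.exp (-(L * D.lam j)) ≤ ∑ j ∈ A0,
            (PhiJ y wF (fun k => lF k ≤ sa ∨ (lone k ∧ lF k ≤ lp)) τ (D.lam j) +
              ∑ m, θ m * wP m (D.lam j) + c0 / r) := sum_le_sum fun j hj => by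
          have h1 := a5 _ (p2 j (hPr' j hj)).1 (p2 j (hPr' j hj)).2
          refine le_of_mul_le_mul_left ?_ hr
          rw [mul_add (r : ℝ) _ (c0 / r), mul_div_cancel₀ _ hr.ne']
          linarith
        have b4 : ∑ i ∈ K, (if i ∈ Pr then y0 / r else 0) = y0 := by
          rw [← sum_filter, ← hA0, sum_const, q3, nsmul_eq_mul, mul_div_cancel₀ _ hr.ne']
        have b5 : ∑ k, y k * ∑ j ∈ (if lF k ≤ sa then K else if lone k ∧ lF k ≤ lp then A0 else ∅),
            wF k (τ k) (D.lam j) =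
            ∑ j ∈ K \ A0, PhiJ y wF (fun k => lF k ≤ sa) τ (D.lam j) + ∑ j ∈ A0,
              PhiJ y wF (fun k => lF k ≤ sa ∨ (lone k ∧ lF k ≤ lp)) τ (D.lam j) := by
          rw [row2_phi, row2_phi, ← sum_add_distrib]
          refine sum_congr rfl fun k _ => ?_
          by_cases h1 : lF k ≤ sa
          · rw [if_pos h1, if_pos h1, if_pos (Or.inl h1), ← mul_add, sum_sdiff hsub]
          · by_cases h2 : lone k ∧ lF k ≤ lp
            · rw [if_neg h1, if_neg h1, if_pos h2, if_pos (Or.inr h2), sum_empty, mul_zero, zero_add]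
            · rw [if_neg h1, if_neg h1, if_neg h2, if_neg (not_or.2 ⟨h1, h2⟩), sum_empty, mul_zero,
                add_zero]
        rw [sum_add_distrib] at b2
        rw [sum_add_distrib, sum_add_distrib, sum_const, q3, nsmul_eq_mul,
          mul_div_cancel₀ _ hr.ne'] at b3
        rw [mul_sum, ← sum_sdiff hsub (f := fun j => p * Real.exp (-(L * D.lam j)))] at a3
        rw [b4, b5]
        linarith
    · push Not at hp
      obtain ⟨i0, q1, q2⟩ := exists_min_image K D.lam ⟨i, hi ▸ ce2_self hD i⟩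
      have fin : ∀ (lo p q ν : ℝ) (θ : κC → ℝ) (τ : κF → ℝ), lo ≤ D.lam i0 → (∀ m, 0 ≤ θ m) →
          (∀ m, lo < lC m → θ m = 0) →
          (∑ j ∈ K, Real.exp (-(L * D.lam j))) ^ 2 ≤
            p * ∑ j ∈ K, Real.exp (-(L * D.lam j)) - q →
          ∑ m, θ m - ν + CostJ y cF (fun k => lF k ≤ lo) τ ≤ q →
          ∑ j ∈ K, p * Real.exp (-(L * D.lam j)) + ν ≤ ∑ j ∈ K,
            (PhiJ y wF (fun k => lF k ≤ lo) τ (D.lam j) + ∑ m, θ m * wC m (D.lam j)) →
          ∃ (A : κF → Finset ι) (B : κF → Prop) (τ : κF → ℝ),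
            (∀ k, A k ⊆ K ∧ (¬ B k → A k = ∅) ∧
              (D.Sat (lF k) (A k) ∨ (lone k ∧ D.Cl (lF k) (A k)))) ∧
            (∑ j ∈ K, Real.exp (-(L * D.lam j))) ^ 2 ≤
              (∑ k, y k * ∑ j ∈ A k, wF k (τ k) (D.lam j) - CostJ y cF B τ) +
                ∑ i ∈ K, if i ∈ Pr then y0 / r else 0 := by
        intro lo p q ν θ τ a0 a1 a2 a3 a4 a5
        refine ⟨fun k => if lF k ≤ lo then K else ∅, fun k => lF k ≤ lo, τ, fun k => ?_, ?_⟩
        · beta_reduce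
          split_ifs with h1
          · exact ⟨Subset.rfl, fun h => absurd h1 h,
              Or.inl (sat lo _ h1 fun j hj => a0.trans (q2 j hj))⟩
          · exact ⟨empty_subset _, fun _ => rfl, Or.inl fun j hj => absurd hj (notMem_empty j)⟩
        · have b1 := row2_cls hD hC a1 a2 (i := i) fun j hj => a0.trans (q2 j (hi ▸ hj))
          rw [hi] at b1
          rw [sum_add_distrib, row2_phi] at a5
          rw [mul_sum] at a3
          rw [sum_eq_zero (f := fun i => if i ∈ Pr then y0 / r else 0)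
            fun j hj => if_neg (hp j hj)]
          linarith
      have hl : l ≤ D.lam i0 := p6 i0 fun p h1 h2 => hp p (by
        rw [← hi, ← ce2_eq hD (hi ▸ q1 : i0 ∈ ce2cls D i), ce2_mem]
        exact ce2_symm hD h2) h1
      rcases ce2_type (hb0.trans hl) N with h | ⟨t, h1, h2, h3⟩
      · obtain ⟨p, q, θ, τ, a1, a2, a3, a4, a5⟩ := hN _ (sum_nonneg (s := K) fun j _ => hx j)
        refine fin _ p q 0 θ τ h a1 a2 a3 (by linarith) ?_
        rw [add_zero]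
        exact sum_le_sum fun j hj => a5 _ (h.trans (q2 j hj))
      · obtain ⟨p, q, ν, θ, τ, a0, a1, a2, a3, a4, a5⟩ := hT t h1
          (∑ j ∈ K, Real.exp (-(L * D.lam j))) (le_trans (Real.exp_le_exp.2
            (neg_le_neg (mul_le_mul_of_nonneg_left h3.le hL)))
            (single_le_sum (f := fun j => Real.exp (-(L * D.lam j))) (fun j _ => hx j) q1))
        refine fin _ p q ν θ τ h2 a1 a2 a3 a4
          (le_trans ?_ (sum_le_sum fun j hj => a5 _ (h2.trans (q2 j hj))))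
        rw [sum_add_distrib]
        refine add_le_add le_rfl (le_trans (le_of_eq (if_pos h3).symm) (single_le_sum
          (f := fun j => if D.lam j < b (t + 1) then ν else 0) (fun j _ => ?_) q1))
        split_ifs
        · exact a0
        · exact le_rfl
  choose! A B τ h1 h2 using key
  have h3 := row2_fam hD hy hc hF A B τ h1
  have h4 : ∑ K ∈ univ.image (ce2cls D), ∑ i ∈ K, (if i ∈ Pr then y0 / r else 0) ≤ n * y0 := by
    rw [← ce2_sum hD fun _ i => if i ∈ Pr then y0 / r else 0, ← sum_filter, filter_mem_eq_inter,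
      univ_inter, sum_const, nsmul_eq_mul]
    rcases Nat.eq_zero_or_pos r with h | h
    · rw [h, Nat.cast_zero, div_zero, mul_zero]
      positivity
    · have hr : (0 : ℝ) < r := Nat.cast_pos.2 h
      have h5 : (Pr.card : ℝ) ≤ n * r := by exact_mod_cast p1
      refine (mul_le_mul_of_nonneg_right h5 (div_nonneg hy0 hr.le)).trans (le_of_eq ?_)
      rw [mul_assoc, mul_div_cancel₀ _ hr.ne']
  rw [ce2_tot hD, ce2_sum hD fun K i =>
    Real.exp (-(L * D.lam i)) * ∑ j ∈ K, Real.exp (-(L * D.lam j))]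
  refine (sum_le_sum h2).trans ?_
  rw [sum_add_distrib]
  exact add_le_add h3 h4

end Pool.Agent.Lib.MP_778b46_nt.GX
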