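import Pool.Agent.Lib.MP_778b46_nt.GX.Dl3

/- The range of a very small first zero, with a separate level for its class. -/

namespace Pool.Agent.Lib.MP_778b46_nt.GX

open Finset

section

variable {Γ Ω ι : Type} [CommGroup Γ] [Fintype Ω] [Fintype ι]

theorem un2_lin {T l s1 s x : ℝ} (hT : 0 < T) (hs1 : 0 < s1) (hs : s ≤ s1)
    (h : Real.exp (-(T * x)) * s1 ≤ Real.exp (-(T * l)) * s) :
    l ≤ x ∧ Real.exp (-(T * x)) ≤ s / s1 * Real.exp (-(T * l)) := by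
  have h2 := Real.exp_le_exp.1 (le_of_mul_le_mul_right
    (h.trans (mul_le_mul_of_nonneg_left hs (Real.exp_pos _).le)) hs1)
  refine ⟨le_of_mul_le_mul_left (neg_le_neg_iff.1 h2) hT, ?_⟩
  rw [div_mul_eq_mul_div, le_div_iff₀ hs1, mul_comm s]
  exact h

/-- With `t = s / s1`: the class of `i` gives `(x + t V) ^ 2`, the other classes `t W U`. -/
theorem unif2_thm {D : Dat Γ Ω ι} {φ ε H : ℝ} {psF psC : List MP} (hD : Clean D φ ε H psF psC)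
    {L T τ l1 Tc lc s1 κ U V W : ℝ} {wF wC wP : ℝ → ℝ} (hL : 0 ≤ L) (hs1 : 0 < s1) (hT : 0 < T)
    (hTc : 0 < Tc) (hτ : 0 ≤ τ) (hτ' : τ ≤ T) (hW : 0 ≤ W) (hU : 0 ≤ U) (hV : 0 ≤ V)
    (hF : D.Fam 0 wF) (hC : D.Cls 0 wC) (hP : D.Cls 0 wP)
    (h1 : ∀ x, l1 ≤ x → Real.exp (-((L - (T - τ)) * x) - (T - τ) * l1) ≤ W * wF x)
    (h2 : ∀ x, l1 ≤ x → Real.exp (-((L - τ) * x) - τ * l1) ≤ U * wC x)
    (h3 : ∀ x, lc ≤ x → Real.exp (-((L - Tc) * x) - Tc * lc) ≤ V * wP x)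
    (h4 : 2 * V + V ^ 2 + W * U + κ * s1 ≤ 1 - Real.exp (-(2 * L * s1))) (i : ι)
    (hi : D.lam i ≤ s1)
    (hj : ∀ j, j ≠ i → Real.exp (-(T * D.lam j)) * s1 ≤ Real.exp (-(T * l1)) * D.lam i)
    (hk : ∀ j, j ≠ i → D.sm (D.ch i / D.ch j) →
      Real.exp (-(Tc * D.lam j)) * s1 ≤ Real.exp (-(Tc * lc)) * D.lam i) :
    D.Tot L ≤ 1 - κ * D.lam i := by
  classical
  have hx : ∀ j, 0 ≤ Real.exp (-(L * D.lam j)) := fun j => (Real.exp_pos _).le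
  have s0 := hD.lam_nonneg i
  set t := D.lam i / s1 with ht
  have t0 : 0 ≤ t := div_nonneg s0 hs1.le
  have t1 : t ≤ 1 := (div_le_one hs1).2 hi
  have t2 : t * s1 = D.lam i := div_mul_cancel₀ _ hs1.ne'
  have cls : ∀ {w : ℝ → ℝ}, D.Cls 0 w → ∀ a, ∀ K ⊆ ce2cls D a, ∑ j ∈ K, w (D.lam j) ≤ 1 :=
    fun hw a K hK => hw K (fun _ _ k _ _ => hD.lam_nonneg k) fun j hj k hk =>
      ce2_pair hD (hK hj) (hK hk)
  have hR : ∑ j ∈ (ce2cls D i).erase i, Real.exp (-(L * D.lam j)) ≤ t * V := by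
    refine le_trans ?_ (mul_le_mul_of_nonneg_left (mul_le_of_le_one_right hV
      (cls hP i _ (erase_subset i _))) t0)
    rw [mul_sum, mul_sum]
    refine sum_le_sum fun j hj' => ?_
    obtain ⟨c1, c2⟩ := un2_lin hTc hs1 hi (hk j (mem_erase.1 hj').1 (ce2_mem.1 (mem_erase.1 hj').2))
    refine le_trans ?_ (mul_le_mul_of_nonneg_left (h3 _ c1) t0)
    rw [show -(L * D.lam j) = -((L - Tc) * D.lam j) + -(Tc * D.lam j) by ring, Real.exp_add,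
      sub_eq_add_neg (-_), Real.exp_add, mul_left_comm]
    exact mul_le_mul_of_nonneg_left c2 (Real.exp_pos _).le
  have hA : ∀ a, a ∉ ce2cls D i →
      Real.exp (-(L * D.lam a)) * ∑ j ∈ ce2cls D a, Real.exp (-(L * D.lam j)) ≤
        t * U * (W * wF (D.lam a)) := by
    intro a ha
    have ai : a ≠ i := fun e => ha (e ▸ ce2_self hD i)
    obtain ⟨a1, a2⟩ := un2_lin hT hs1 hi (hj a ai)
    have a3 := h1 _ a1
    set A := Real.exp (-((L - (T - τ)) * D.lam a) - (T - τ) * l1) with hA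
    have A0 : 0 ≤ A := (Real.exp_pos _).le
    refine le_trans ?_ (mul_le_mul_of_nonneg_left a3 (mul_nonneg t0 hU))
    rw [mul_right_comm]
    refine le_trans ?_ (mul_le_mul_of_nonneg_left (mul_le_of_le_one_right hU
      (cls hC a _ subset_rfl)) (mul_nonneg t0 A0))
    rw [mul_sum, mul_sum, mul_sum]
    refine sum_le_sum fun b hb => ?_
    have bi : b ≠ i := fun e => ha (ce2_mem.2 (ce2_symm hD (ce2_mem.1 (e ▸ hb))))
    obtain ⟨b1, b2⟩ := un2_lin hT hs1 hi (hj b bi)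
    refine le_trans ?_ (mul_le_mul_of_nonneg_left (h2 _ b1) (mul_nonneg t0 A0))
    have key : Real.exp (-((T - τ) * D.lam a + τ * D.lam b)) ≤ t * Real.exp (-(T * l1)) := by
      rcases le_total (D.lam a) (D.lam b) with h | h
      · exact (Real.exp_le_exp.2 (by nlinarith)).trans a2
      · exact (Real.exp_le_exp.2 (by nlinarith)).trans b2
    calc _ = Real.exp (-((T - τ) * D.lam a + τ * D.lam b)) *
          Real.exp (-((L - (T - τ)) * D.lam a) - (L - τ) * D.lam b) := by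
          rw [← Real.exp_add, ← Real.exp_add]
          congr 1
          ring
      _ ≤ _ := mul_le_mul_of_nonneg_right key (Real.exp_pos _).le
      _ = _ := by
          rw [hA, mul_assoc, mul_assoc, ← Real.exp_add, ← Real.exp_add]
          congr 2
          ring
  have hB : ∑ a ∈ (ce2cls D i)ᶜ, Real.exp (-(L * D.lam a)) *
      ∑ j ∈ ce2cls D a, Real.exp (-(L * D.lam j)) ≤ t * U * W := by
    refine (sum_le_sum fun a ha => hA a (mem_compl.1 ha)).trans ?_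
    rw [← mul_sum, ← mul_sum]
    exact mul_le_mul_of_nonneg_left (mul_le_of_le_one_right hW
      (hF _ fun _ _ k _ _ => hD.lam_nonneg k)) (mul_nonneg t0 hU)
  rw [ce2_tot hD, ← sum_add_sum_compl (ce2cls D i),
    sum_congr rfl fun a ha => by rw [ce2_eq hD ha], ← sum_mul,
    ← add_sum_erase _ _ (ce2_self hD i)]
  set x := Real.exp (-(L * D.lam i)) with hxi
  have x0 : 0 ≤ x := hx i
  have x1 : x ≤ 1 := Real.exp_le_one_iff.2 (neg_nonpos.2 (mul_nonneg hL s0))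
  have c1 := convexOn_exp.2 (Set.mem_univ (-(2 * L * s1))) (Set.mem_univ 0) t0 (sub_nonneg.2 t1)
    (add_sub_cancel _ _)
  have c2 : x * x = Real.exp (t • -(2 * L * s1) + (1 - t) • 0) := by
    rw [hxi, ← Real.exp_add, ← t2]
    congr 1
    simp only [smul_eq_mul]
    ring
  rw [← c2, Real.exp_zero, smul_eq_mul, smul_eq_mul] at c1
  set R := ∑ j ∈ (ce2cls D i).erase i, Real.exp (-(L * D.lam j))
  have R0 : 0 ≤ R := sum_nonneg fun j _ => hx j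
  have c3 : R ≤ V := hR.trans (mul_le_of_le_one_left hV t1)
  have c4 := mul_le_mul hR c3 R0 (mul_nonneg t0 hV)
  have c5 := mul_le_mul x1 hR R0 zero_le_one
  have c6 := mul_le_mul_of_nonneg_left h4 t0
  rw [← t2]
  nlinarith

end

/-- The bound when the first zero is real and very small. -/
def Unif2P (L κ s1 : ℝ) : MProp := fun _ _ _ _ _ _ D =>
  ∀ i, (∀ k, D.lam i ≤ D.lam k) → D.ch i * D.ch i = 1 → D.mu i = 0 → D.lam i ≤ s1 →
    D.Tot L ≤ 1 - κ * D.lam i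

variable {φ : ℝ} {psF psC : List MP}

theorem unif2_ev {L T τ l1 Tc lc s1 κ U V W d0 : ℝ} {pF pC pP : MP} (hF : pF ∈ psF)
    (hC : pC ∈ psC) (hP : pP ∈ psC) (okF : pF.ok φ φ) (okC : pC.ok φ (1 / 1000))
    (okP : pP.ok φ (1 / 1000)) (hφ : 0 ≤ φ) (hd : 0 < d0) (hl : 0 ≤ l1) (hlc : 0 ≤ lc)
    (hs : 0 < s1) (hL : 0 ≤ L) (hT : 0 < T) (hTc : 0 < Tc) (hτ : 0 ≤ τ) (hτ' : τ ≤ T)
    (h1 : 2 * pF.x1 ≤ L - (T - τ)) (h2 : 2 * pC.x1 ≤ L - τ) (h3 : 2 * pP.x1 ≤ L - Tc)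
    (hW0 : 0 ≤ W) (hU0 : 0 ≤ U) (hV0 : 0 ≤ V)
    (hW : (1 + d0) * Real.exp (-(L * l1)) ≤ W * pF.m φ l1 l1)
    (hU : (1 + d0) * Real.exp (-(L * l1)) ≤ U * pC.m φ l1 l1)
    (hV : (1 + d0) * Real.exp (-(L * lc)) ≤ V * pP.m φ lc lc)
    (h4 : 2 * V + V ^ 2 + W * U + κ * s1 ≤ 1 - Real.exp (-(2 * L * s1)))
    (d1 : Ev φ psF psC (DhLP T l1 s1)) (d2 : Ev φ psF psC (DhLC Tc lc s1)) :
    Ev φ psF psC (Unif2P L κ s1) := by
  refine (((((famM psC hF hd hl).and (clsM psF hC hd hl)).and (clsM psF hP hd hlc)).and d1).and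
    d2).mono fun Γ Ω ι _ _ _ D ε H hD h i hi hr hm hs' => ?_
  refine unif2_thm hD hL hs hT hTc hτ hτ' hW0 hU0 hV0 h.1.1.1.1 h.1.1.1.2 h.1.1.2
    (fun x hx => ?_) (fun x hx => ?_) (fun x hx => ?_) h4 i hs' (h.1.2 i hi hr hm hs')
    (h.2 i hi hr hm hs')
  · exact un_dom hφ hφ okF hl h1 hd hW0 (by convert hW using 3; ring) hx
  · exact un_dom hφ (by norm_num) okC hl h2 hd hU0 (by convert hU using 3; ring) hx
  · exact un_dom hφ (by norm_num) okP hlc h3 hd hV0 (by convert hV using 3; ring) hx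

/-- Mollifier parameters with rational entries. -/
structure MQ where
  w : ℚ
  u0 : ℚ
  u1 : ℚ
  u : ℚ
  v : ℚ
  x0 : ℚ
  x1 : ℚ
  sg : ℚ

/-- The real parameters. -/
noncomputable def MQ.mp (p : MQ) : MP := ⟨p.w, p.u0, p.u1, p.u, p.v, p.x0, p.x1, p.sg⟩

/-- Admissibility. -/
def MQ.ok (p : MQ) (f f' : ℚ) : Prop :=
  0 < p.w ∧ 2 * p.w + f' ≤ p.u0 ∧ p.u0 < p.u1 ∧ p.u1 < p.u ∧ p.u < p.v ∧
    p.v + p.w + f ≤ p.x0 ∧ p.x0 < p.x1 ∧ 0 < p.sg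

instance (p : MQ) (f f' : ℚ) : Decidable (p.ok f f') := by
  unfold MQ.ok
  infer_instance

theorem MQ.ok_mp {p : MQ} {f f' : ℚ} {ph' : ℝ} (h : p.ok f f') (h1 : φ ≤ f) (h2 : ph' ≤ f') :
    p.mp.ok φ ph' := by
  obtain ⟨a1, a2, a3, a4, a5, a6, a7, a8⟩ := h
  have b2 := (Rat.cast_le (K := ℝ)).2 a2
  have b6 := (Rat.cast_le (K := ℝ)).2 a6
  push_cast at b2 b6
  unfold MQ.mp MP.ok
  dsimp only
  exact ⟨by exact_mod_cast a1, by linarith, by exact_mod_cast a3, by exact_mod_cast a4,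
    by exact_mod_cast a5, by linarith, by exact_mod_cast a7, by exact_mod_cast a8⟩

theorem un2_S {x : ℚ} (hx : 0 ≤ x) : (dlS x : ℝ) ≤ Real.exp x ∧ (0 : ℝ) < dlS x := by
  have h0 : (0 : ℝ) ≤ x := by exact_mod_cast hx
  have e : (dlS x : ℝ) = ∑ m ∈ range 40, (x : ℝ) ^ m / m.factorial := by
    unfold dlS
    push_cast
    rfl
  rw [e]
  exact ⟨Real.sum_le_exp_of_nonneg h0 _, sum_pos' (fun m _ => by positivity)
    ⟨0, by simp, by simp⟩⟩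

theorem un2_neg {x : ℚ} {y : ℝ} (hx : 0 ≤ x) (h : y = -x) : Real.exp y ≤ ((1 / dlS x : ℚ) : ℝ) := by
  push_cast
  exact un_neg (un2_S hx).2 (un2_S hx).1 h.le

/-- The numerical condition for `(1 + 1 / 10000) exp (-L l) ≤ W m (l, l)`. -/
def MQ.dom (p : MQ) (f L l W : ℚ) : Prop :=
  0 ≤ l ∧ 0 ≤ W ∧ (p.sg + 2 * l) * p.x1 ≤ L * l ∧ 1 ≤ dlS (p.sg * (p.v - p.u)) ∧
    (1 + 1 / 10000) * (((1 / dlS (L * l - (p.sg + 2 * l) * p.x1) +
        1 / dlS (L * l - (p.sg + 2 * l) * p.x0)) / (p.x1 - p.x0) +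
      (1 / dlS (L * l - (p.sg + 2 * l) * p.u1) + 1 / dlS (L * l - (p.sg + 2 * l) * p.u0)) /
        (p.u1 - p.u0)) * (f / 2 + 1 / (p.sg + l))) ≤
      W * (p.w * (p.sg + l + l) * (dlS (p.sg * p.u) * (dlS (p.sg * (p.v - p.u)) - 1)))

instance (p : MQ) (f L l W : ℚ) : Decidable (p.dom f L l W) := by
  unfold MQ.dom
  infer_instance

theorem MQ.dom_spec {p : MQ} {f f' L l W : ℚ} (hφ : 0 ≤ φ) (hφ' : φ ≤ f) (hf : 0 ≤ f')
    (ho : p.ok f f') (h : p.dom f L l W) :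
    (1 + 1 / 10000) * Real.exp (-((L : ℝ) * l)) ≤ W * p.mp.m φ l l := by
  have hf0 : 0 ≤ f := by exact_mod_cast hφ.trans hφ'
  have ok := MQ.ok_mp ho hφ' (le_refl (f' : ℝ))
  obtain ⟨a1, a2, a3, a4, a5, a6, a7, a8⟩ := ho
  obtain ⟨b1, b2, b3, b4, b5⟩ := h
  have c0 : 0 ≤ p.sg + 2 * l := by linarith
  have c1 := (Rat.cast_le (K := ℝ)).2 b5
  have c2 := (Rat.cast_le (K := ℝ)).2 b4
  have e : ∀ z : ℚ, z ≤ p.x1 → Real.exp (((p.sg : ℝ) + 2 * l) * z - L * l) ≤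
      ((1 / dlS (L * l - (p.sg + 2 * l) * z) : ℚ) : ℝ) := fun z hz =>
    un2_neg (by nlinarith) (by push_cast; ring)
  have k1 := (un2_S (x := p.sg * p.u) (by nlinarith)).1
  have k2 := (un2_S (x := p.sg * (p.v - p.u)) (by nlinarith)).1
  refine un_m (k2 := (dlS (p.sg * (p.v - p.u)) : ℝ) - 1) (V := f / 2 + 1 / (p.sg + l)) hφ ok
    (by exact_mod_cast b1) (by norm_num) (by exact_mod_cast b2) (e _ le_rfl) (e _ a7.le)
    (e _ (by linarith)) (e _ (by linarith)) (by push_cast at c2; linarith)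
    (k1.trans (by push_cast; rfl)) (by push_cast at k2; simpa [MQ.mp] using k2)
    (by simp only [MQ.mp]; linarith) ?_
  push_cast at c1 ⊢
  exact c1

/-- All numerical conditions. -/
def un2Ok (f L κ s1 T δ τ l1 Tc δc lc W U V : ℚ) (pF pC pP : MQ) : Prop :=
  pF.ok f f ∧ pC.ok f (1 / 1000) ∧ pP.ok f (1 / 1000) ∧ 0 ≤ L ∧ 0 ≤ τ ∧ τ ≤ T ∧
    2 * pF.x1 ≤ L - (T - τ) ∧ 2 * pC.x1 ≤ L - τ ∧ 2 * pP.x1 ≤ L - Tc ∧
    pF.dom f L l1 W ∧ pC.dom f L l1 U ∧ pP.dom f L lc V ∧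
    2 * V + V ^ 2 + W * U + κ * s1 ≤ 1 - 1 / dlS (2 * L * s1) ∧
    dlLOk f 1 (3 / 2) s1 l1 T δ ∧ dlLOk f 2 1 s1 l1 T δ ∧ dlLOk f 2 1 s1 lc Tc δc

instance (f L κ s1 T δ τ l1 Tc δc lc W U V : ℚ) (pF pC pP : MQ) :
    Decidable (un2Ok f L κ s1 T δ τ l1 Tc δc lc W U V pF pC pP) := by
  unfold un2Ok
  infer_instance

theorem unif2_of {f L κ s1 T δ τ l1 Tc δc lc W U V : ℚ} {pF pC pP : MQ} (hφ : 0 ≤ φ) (hφ' : φ ≤ f)
    (hF : pF.mp ∈ psF) (hC : pC.mp ∈ psC) (hP : pP.mp ∈ psC)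
    (h : un2Ok f L κ s1 T δ τ l1 Tc δc lc W U V pF pC pP) : Ev φ psF psC (Unif2P L κ s1) := by
  obtain ⟨a1, a2, a3, a4, a5, a6, a7, a8, a9, b1, b2, b3, b4, b5, b6, b7⟩ := h
  have hf0 : 0 ≤ f := by exact_mod_cast hφ.trans hφ'
  obtain ⟨c1, -, -, c2, -⟩ := dlLOk_spec hφ' (by norm_num) (by norm_num) b6
  obtain ⟨c3, -⟩ := dlLOk_spec hφ' (by norm_num) (by norm_num) b7
  have c4 := (Rat.cast_le (K := ℝ)).2 b4
  have c5 := un2_neg (x := 2 * L * s1) (y := -(2 * (L : ℝ) * s1)) (by have := b5.1; positivity)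
    (by push_cast; ring)
  push_cast at c4 c5
  exact unif2_ev (τ := τ) (W := W) (U := U) (V := V) hF hC hP (MQ.ok_mp a1 hφ' hφ')
    (MQ.ok_mp a2 hφ' (by norm_num)) (MQ.ok_mp a3 hφ' (by norm_num)) hφ (by norm_num)
    (by exact_mod_cast b1.1) (by exact_mod_cast b3.1) c2 (by exact_mod_cast a4) (by linarith)
    (by linarith) (by exact_mod_cast a5) (by exact_mod_cast a6)
    (by simp only [MQ.mp]; exact_mod_cast a7) (by simp only [MQ.mp]; exact_mod_cast a8)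
    (by simp only [MQ.mp]; exact_mod_cast a9) (by exact_mod_cast b1.2.1) (by exact_mod_cast b2.2.1)
    (by exact_mod_cast b3.2.1) (MQ.dom_spec hφ hφ' hf0 a1 b1)
    (MQ.dom_spec hφ hφ' (by norm_num) a2 b2) (MQ.dom_spec hφ hφ' (by norm_num) a3 b3)
    (by linarith) (dhLP_of hφ hφ' b5 b6) (dhLC_of hφ hφ' b7)

theorem Clean.tot_anti {Γ Ω ι : Type} [CommGroup Γ] [Fintype Ω] [Fintype ι] {D : Dat Γ Ω ι}
    {ε H L L' : ℝ} (hD : Clean D φ ε H psF psC) (h : L ≤ L') : D.Tot L' ≤ D.Tot L := by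
  have e : ∀ i, Real.exp (-(L' * D.lam i)) ≤ Real.exp (-(L * D.lam i)) := fun i =>
    Real.exp_le_exp.2 (neg_le_neg (mul_le_mul_of_nonneg_right h (hD.lam_nonneg i)))
  exact sum_le_sum fun i _ => sum_le_sum fun j _ =>
    mul_le_mul (e i) (e j) (Real.exp_pos _).le (Real.exp_pos _).le

/-- Family parameters. -/
def qUF : MQ := ⟨0.0207, 0.3754, 0.3764, 0.3765, 0.4375, 0.7922, 0.8626, 2.92⟩

/-- Class parameters. -/
def qUC : MQ := ⟨0.0207, 0.0424, 0.0434, 0.0435, 0.1045, 0.4592, 0.5296, 2.92⟩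

theorem qUF_ok (h : φ ≤ 0.334) : qUF.mp.ok φ φ :=
  MQ.ok_mp (f := 0.334) (f' := 0.334) (by decide +kernel) (by norm_num; linarith)
    (by norm_num; linarith)

theorem qUC_ok (h : φ ≤ 0.334) : qUC.mp.ok φ (1 / 1000) :=
  MQ.ok_mp (f := 0.334) (f' := 0.001) (by decide +kernel) (by norm_num; linarith) (by norm_num)

/-- The instance `s1 = 1 / 1000` for `5 / 2 ≤ L`. -/
theorem unif2_num {L : ℝ} (hφ : 0 ≤ φ) (hφ' : φ ≤ 0.334) (hL : 5 / 2 ≤ L) (hF : qUF.mp ∈ psF)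
    (hC : qUC.mp ∈ psC) : Ev φ psF psC (Unif2P L 1 (1 / 1000)) := by
  have h := unif2_of (f := 0.334) (L := 5 / 2) (κ := 1) (s1 := 1 / 1000) (T := 1.36) (δ := 0.01)
    (τ := 0.7) (l1 := 7.61) (Tc := 0.9) (δc := 0.01) (lc := 10.9) (W := 0.76) (U := 0.0048)
    (V := 0.0001) hφ (by norm_num; linarith) hF hC hC (by decide +kernel)
  push_cast at h
  exact h.mono fun _ _ _ _ _ _ D _ _ hD h i a b c d => (hD.tot_anti hL).trans (h i a b c d)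

/-- The same as a range of the case split. -/
theorem minP_unif2 {L z1 z2 s1 : ℝ} (hZ : Ev φ psF psC (ZfP z1 z2)) (hs : s1 ≤ z1)
    (hU : Ev φ psF psC (Unif2P L 1 s1)) : Ev φ psF psC (MinP L 0 s1) := by
  refine (hZ.and hU).mono fun _ _ _ _ _ _ D _ _ _ h i hi _ hb => ?_
  have hr : D.ch i * D.ch i = 1 ∧ D.mu i = 0 := by
    by_contra hn
    linarith [(h.1 i hi hn).1]
  have := h.2 i hi hr.1 hr.2 hb
  linarith [min_le_left (D.lam i) (1 / 100)]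

end Pool.Agent.Lib.MP_778b46_nt.GX
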