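import Pool.Agent.Lib.MP_778b46_nt.GX.T4f
import Pool.Agent.Lib.MP_778b46_nt.GX.Unif2
import Pool.Agent.Lib.MP_778b46_nt.GX.Row3

/- Properties of models with a distinguished subgroup of characters of low order. -/

namespace Pool.Agent.Lib.MP_778b46_nt.GX

open Finset

/-- A property of models with a subgroup. -/
abbrev MProp2 : Type 1 :=
  ∀ (Γ Ω ι : Type) [CommGroup Γ] [Fintype Ω] [Fintype ι], Dat Γ Ω ι → Subgroup Γ → Prop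

/-- The property holds in every clean model with a small error. -/
def Ev2 (φ φ1 : ℝ) (psF psC qsF qsC : List MP) (p : MProp2) : Prop :=
  ∀ H : ℝ, 10 ≤ H → ∃ ε0 : ℝ, 0 < ε0 ∧ ∀ ε : ℝ, 0 < ε → ε ≤ ε0 →
    ∀ (Γ Ω ι : Type) [CommGroup Γ] [Fintype Ω] [Fintype ι] (D : Dat Γ Ω ι) (Lo : Subgroup Γ),
      Clean2 D Lo φ φ1 ε H psF psC qsF qsC → p Γ Ω ι D Lo

variable {φ φ1 : ℝ} {psF psC qsF qsC : List MP}

theorem Ev2.and {p q : MProp2} (hp : Ev2 φ φ1 psF psC qsF qsC p)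
    (hq : Ev2 φ φ1 psF psC qsF qsC q) :
    Ev2 φ φ1 psF psC qsF qsC fun Γ Ω ι _ _ _ D Lo => p Γ Ω ι D Lo ∧ q Γ Ω ι D Lo := by
  intro H hH
  obtain ⟨a, a0, ha⟩ := hp H hH
  obtain ⟨b, b0, hb⟩ := hq H hH
  exact ⟨min a b, lt_min a0 b0, fun ε h0 h1 Γ Ω ι _ _ _ D Lo hD =>
    ⟨ha ε h0 (h1.trans (min_le_left _ _)) Γ Ω ι D Lo hD,
      hb ε h0 (h1.trans (min_le_right _ _)) Γ Ω ι D Lo hD⟩⟩

theorem Ev2.mono {p q : MProp2} (hp : Ev2 φ φ1 psF psC qsF qsC p)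
    (h : ∀ (Γ Ω ι : Type) [CommGroup Γ] [Fintype Ω] [Fintype ι] (D : Dat Γ Ω ι) (Lo : Subgroup Γ)
      (ε H : ℝ), Clean2 D Lo φ φ1 ε H psF psC qsF qsC → p Γ Ω ι D Lo → q Γ Ω ι D Lo) :
    Ev2 φ φ1 psF psC qsF qsC q := by
  intro H hH
  obtain ⟨a, a0, ha⟩ := hp H hH
  exact ⟨a, a0, fun ε h0 h1 Γ Ω ι _ _ _ D Lo hD =>
    h Γ Ω ι D Lo ε H hD (ha ε h0 h1 Γ Ω ι D Lo hD)⟩

theorem Ev2.of_small {q : MProp2} {c : ℝ} (hc : 0 < c)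
    (h : ∀ (Γ Ω ι : Type) [CommGroup Γ] [Fintype Ω] [Fintype ι] (D : Dat Γ Ω ι) (Lo : Subgroup Γ)
      (ε H : ℝ), 10 ≤ H → 0 < ε → ε * BH H ≤ c → Clean2 D Lo φ φ1 ε H psF psC qsF qsC →
        q Γ Ω ι D Lo) : Ev2 φ φ1 psF psC qsF qsC q := by
  intro H hH
  have hB : 0 < BH H := BH_pos (by linarith)
  exact ⟨c / BH H, div_pos hc hB, fun ε h0 h1 Γ Ω ι _ _ _ D Lo hD =>
    h Γ Ω ι D Lo ε H hH h0 ((le_div_iff₀ hB).1 h1) hD⟩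

theorem Ev2.finset {κ : Type} {p : κ → MProp2} (s : Finset κ)
    (hp : ∀ k ∈ s, Ev2 φ φ1 psF psC qsF qsC (p k)) :
    Ev2 φ φ1 psF psC qsF qsC fun Γ Ω ι _ _ _ D Lo => ∀ k ∈ s, p k Γ Ω ι D Lo := by
  classical
  induction s using Finset.induction_on with
  | empty =>
    exact Ev2.of_small one_pos fun _ _ _ _ _ _ _ _ _ _ _ _ _ _ k hk => absurd hk (notMem_empty k)
  | insert a s _ ih =>
    exact ((hp a (mem_insert_self a s)).and (ih fun k hk => hp k (mem_insert_of_mem hk))).mono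
      fun _ _ _ _ _ _ _ _ _ _ _ h => forall_mem_insert _ _ _ |>.2 h

theorem Ev2.all {κ : Type} [Fintype κ] {p : κ → MProp2}
    (hp : ∀ k, Ev2 φ φ1 psF psC qsF qsC (p k)) :
    Ev2 φ φ1 psF psC qsF qsC fun Γ Ω ι _ _ _ D Lo => ∀ k, p k Γ Ω ι D Lo :=
  (Ev2.finset univ fun k _ => hp k).mono fun _ _ _ _ _ _ _ _ _ _ _ h k => h k (mem_univ k)

theorem Ev2.list {κ : Type} {p : κ → MProp2} (s : List κ)
    (hp : ∀ k ∈ s, Ev2 φ φ1 psF psC qsF qsC (p k)) :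
    Ev2 φ φ1 psF psC qsF qsC fun Γ Ω ι _ _ _ D Lo => ∀ k ∈ s, p k Γ Ω ι D Lo := by
  classical
  exact (Ev2.finset s.toFinset fun k hk => hp k (List.mem_toFinset.1 hk)).mono
    fun _ _ _ _ _ _ _ _ _ _ _ h k hk => h k (List.mem_toFinset.2 hk)

/-- A property of the whole model. -/
theorem Ev.up {p : MProp} (hp : Ev φ psF psC p) (φ1 : ℝ) (qsF qsC : List MP) :
    Ev2 φ φ1 psF psC qsF qsC fun Γ Ω ι _ _ _ D _ => p Γ Ω ι D := by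
  intro H hH
  obtain ⟨a, a0, ha⟩ := hp H hH
  exact ⟨a, a0, fun ε h0 h1 Γ Ω ι _ _ _ D _ hD => ha ε h0 h1 Γ Ω ι D hD.cl⟩

open Classical in
/-- A property of the submodel. -/
theorem Ev.lo {p : MProp} (hp : Ev φ1 qsF qsC p) (φ : ℝ) (psF psC : List MP) :
    Ev2 φ φ1 psF psC qsF qsC fun _ Ω _ _ _ _ D Lo =>
      ∀ h, p Lo Ω {i // D.ch i ∈ Lo} (D.sub Lo h) := by
  intro H hH
  obtain ⟨a, a0, ha⟩ := hp H hH
  exact ⟨a, a0, fun ε h0 h1 Γ Ω ι _ _ _ D Lo hD _ => ha ε h0 h1 _ Ω _ _ hD.lo⟩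

section

variable {Γ Ω ι : Type} [CommGroup Γ] [Fintype Ω] [Fintype ι] {D : Dat Γ Ω ι} {Lo : Subgroup Γ}
  {ε H : ℝ}

theorem Clean2.sm_mem (h : Clean2 D Lo φ φ1 ε H psF psC qsF qsC) {ξ : Γ} (hs : D.sm ξ) : ξ ∈ Lo :=
  h.mem ξ 1 (one_dvd _) (by rwa [pow_one])

theorem Clean2.sq_mem (h : Clean2 D Lo φ φ1 ε H psF psC qsF qsC) {ξ : Γ} (hs : D.sm (ξ * ξ)) :
    ξ ∈ Lo := h.mem ξ 2 (by norm_num) (by rwa [sq])

theorem Clean2.real_mem (h : Clean2 D Lo φ φ1 ε H psF psC qsF qsC) {ξ : Γ} (hs : ξ * ξ = 1) :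
    ξ ∈ Lo := h.sq_mem (hs ▸ h.cl.sm_one)

theorem Clean2.cls_mem (h : Clean2 D Lo φ φ1 ε H psF psC qsF qsC) {ξ ξ' : Γ} (hi : ξ ∈ Lo)
    (hs : D.sm (ξ / ξ')) : ξ' ∈ Lo := by
  have := Lo.div_mem hi (h.sm_mem hs)
  rwa [div_div_cancel] at this

/-- Class inequality for saturated sets of zeros of members of `Lo`. -/
def Dat.ClsL (D : Dat Γ Ω ι) (Lo : Subgroup Γ) (l : ℝ) (w : ℝ → ℝ) : Prop :=
  ∀ S : Finset ι, (∀ j ∈ S, D.ch j ∈ Lo) → D.Sat l S →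
    (∀ j ∈ S, ∀ k ∈ S, D.sm (D.ch j / D.ch k)) → ∑ j ∈ S, w (D.lam j) ≤ 1

/-- Family inequality for zeros of members of `Lo`. -/
def Dat.FamL (D : Dat Γ Ω ι) (Lo : Subgroup Γ) (l : ℝ) (w : ℝ → ℝ) : Prop :=
  ∀ S : Finset ι, (∀ j ∈ S, D.ch j ∈ Lo) → D.Cl l S → ∑ j ∈ S, w (D.lam j) ≤ 1

omit [Fintype Ω] [Fintype ι] in
open Classical in
theorem Dat.ClsS.clsL {h : ∀ i, D.ch (D.cj i) = (D.ch i)⁻¹} {l : ℝ} {w : ℝ → ℝ}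
    (hc : (D.sub Lo h).ClsS l w) : D.ClsL Lo l w := fun S h1 h2 h3 => by
  rw [← sum_subtype_of_mem (p := fun i => D.ch i ∈ Lo) _ h1]
  exact hc _ (fun j hj => ⟨(h2 j (mem_subtype.1 hj)).1, fun k hk => mem_subtype.2
    ((h2 j (mem_subtype.1 hj)).2 k (congrArg Subtype.val hk))⟩)
    fun j hj k hk => h3 j (mem_subtype.1 hj) k (mem_subtype.1 hk)

omit [Fintype Ω] [Fintype ι] in
open Classical in
theorem Dat.Fam.famL {h : ∀ i, D.ch (D.cj i) = (D.ch i)⁻¹} {l : ℝ} {w : ℝ → ℝ}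
    (hc : (D.sub Lo h).Fam l w) : D.FamL Lo l w := fun S h1 h2 => by
  rw [← sum_subtype_of_mem (p := fun i => D.ch i ∈ Lo) _ h1]
  exact hc _ fun j hj k hk hne => h2 j (mem_subtype.1 hj) k (congrArg Subtype.val hk)
    fun e => hne (Subtype.ext e)

omit [Fintype Ω] [Fintype ι] in
theorem Dat.ClsS.toL {l : ℝ} {w : ℝ → ℝ} (hc : D.ClsS l w) (Lo : Subgroup Γ) : D.ClsL Lo l w :=
  fun S _ => hc S

/-- The form used for the primary classes in `row_thm3`. -/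
theorem Clean2.cls_at (h : Clean2 D Lo φ φ1 ε H psF psC qsF qsC) {l : ℝ} {w : ℝ → ℝ}
    (hc : D.ClsL Lo l w) {p : ι} (hp : D.ch p ∈ Lo) (hs : D.Sat l (ce2cls D p)) :
    ∑ j ∈ ce2cls D p, w (D.lam j) ≤ 1 :=
  hc _ (fun _ hj => h.cls_mem hp (ce2_mem.1 hj)) hs fun _ hj _ hk => ce2_pair h.cl hj hk

end

theorem Ev.clsL {l : ℝ} {w : ℝ → ℝ} (hp : Ev φ1 qsF qsC fun _ _ _ _ _ _ D => D.Cls l w) (φ : ℝ)
    (psF psC : List MP) : Ev2 φ φ1 psF psC qsF qsC fun _ _ _ _ _ _ D Lo => D.ClsL Lo l w :=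
  (hp.lo φ psF psC).mono fun _ _ _ _ _ _ _ _ _ _ hD h => (h hD.cl.cj_ch).clsS.clsL

/-- The class level with the constant `φ1`. -/
theorem Ev.dh2C {sb lc : ℝ} (hp : Ev φ1 qsF qsC (Dh2C sb lc)) (φ : ℝ) (psF psC : List MP) :
    Ev2 φ φ1 psF psC qsF qsC fun Γ Ω ι _ _ _ D _ => Dh2C sb lc Γ Ω ι D :=
  (hp.lo φ psF psC).mono fun _ _ _ _ _ _ _ _ _ _ hD h i hi hr hm hs j hj hc =>
    h hD.cl.cj_ch ⟨i, hD.real_mem hr⟩ (fun k => hi k.1) (Subtype.ext hr) hm hs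
      ⟨j, hD.cls_mem (hD.real_mem hr) hc⟩ (fun e => hj (congrArg Subtype.val e)) hc

theorem Ev.dhLC {T lc s1 : ℝ} (hp : Ev φ1 qsF qsC (DhLC T lc s1)) (φ : ℝ) (psF psC : List MP) :
    Ev2 φ φ1 psF psC qsF qsC fun Γ Ω ι _ _ _ D _ => DhLC T lc s1 Γ Ω ι D :=
  (hp.lo φ psF psC).mono fun _ _ _ _ _ _ _ _ _ _ hD h i hi hr hm hs j hj hc =>
    h hD.cl.cj_ch ⟨i, hD.real_mem hr⟩ (fun k => hi k.1) (Subtype.ext hr) hm hs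
      ⟨j, hD.cls_mem (hD.real_mem hr) hc⟩ (fun e => hj (congrArg Subtype.val e)) hc

/-- Repulsion of the zeros of members of `Lo` by a real first zero. -/
def Dh2L (sb l : ℝ) : MProp2 := fun _ _ _ _ _ _ D Lo =>
  ∀ i, (∀ k, D.lam i ≤ D.lam k) → D.ch i * D.ch i = 1 → D.mu i = 0 → D.lam i ≤ sb →
    ∀ j, j ≠ i → D.ch j ∈ Lo → l ≤ D.lam j

theorem Ev.dh2L {sb l : ℝ} (hp : Ev φ1 qsF qsC (Dh2P sb l)) (φ : ℝ) (psF psC : List MP) :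
    Ev2 φ φ1 psF psC qsF qsC (Dh2L sb l) :=
  (hp.lo φ psF psC).mono fun _ _ _ _ _ _ _ _ _ _ hD h i hi hr hm hs j hj hc =>
    h hD.cl.cj_ch ⟨i, hD.real_mem hr⟩ (fun k => hi k.1) (Subtype.ext hr) hm hs ⟨j, hc⟩
      fun e => hj (congrArg Subtype.val e)

/-- A row with one real primary zero of a real character. -/
def RowR (L V sa sb l lc : ℝ) : MProp := fun _ _ _ _ _ _ D =>
  ∀ i, D.ch i * D.ch i = 1 → D.mu i = 0 → sa ≤ D.lam i → D.lam i ≤ sb →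
    (∀ j, j ≠ i → D.sm (D.ch i / D.ch j) → lc ≤ D.lam j) →
    (∀ j, ¬ D.sm (D.ch i / D.ch j) → l ≤ D.lam j) → D.Tot L ≤ V

theorem prim3_one {Γ Ω ι : Type} [CommGroup Γ] [Fintype Ω] [Fintype ι] {D : Dat Γ Ω ι} {ε H : ℝ}
    (hD : Clean D φ ε H psF psC) {i : ι} {sa sb l lc : ℝ} (h1 : sa ≤ D.lam i) (h2 : D.lam i ≤ sb)
    (h3 : ∀ j, j ≠ i → D.sm (D.ch i / D.ch j) → lc ≤ D.lam j)
    (h4 : ∀ j, ¬ D.sm (D.ch i / D.ch j) → l ≤ D.lam j) : D.Prim3 {i} 1 1 sa sb l lc lc := by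
  have e : D.sm (D.ch i / D.ch i) := by rw [div_self']; exact hD.sm_one
  simp only [Dat.Prim3, mem_singleton, forall_eq, card_singleton]
  exact ⟨le_rfl, ⟨h1, h2⟩, ⟨{i}, rfl, fun k => by
    rw [mem_singleton]
    exact ⟨fun h => ⟨h, h ▸ e⟩, And.left⟩⟩, fun k hk hn => h3 k hn (hk ▸ e),
    fun k hn => h3 k hn, h4⟩

end Pool.Agent.Lib.MP_778b46_nt.GX
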