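import Pool.Agent.Lib.MP_778b46_nt.GX.CqB
import Pool.Agent.Lib.MP_778b46_nt.GX.Ev2
import Pool.Agent.Lib.MP_778b46_nt.GX.CkD

/- Kernel check of a row of the certificate: the row level. -/

namespace Pool.Agent.Lib.MP_778b46_nt.GX.Cq

open Finset Ck
open Pool.Agent.Lib.MP_6cad4c_al

/-- A property of models with a subgroup and a set of primary zeros. -/
abbrev MProp3 : Type 1 :=
  ∀ (Γ Ω ι : Type) [CommGroup Γ] [Fintype Ω] [Fintype ι], Dat Γ Ω ι → Subgroup Γ → Finset ι → Prop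

/-- The four lists of mollifier parameters. -/
structure LL where
  psF : List MP
  psC : List MP
  qsF : List MP
  qsC : List MP

def LL.sub (A B : LL) : Prop := A.psF ⊆ B.psF ∧ A.psC ⊆ B.psC ∧ A.qsF ⊆ B.qsF ∧ A.qsC ⊆ B.qsC

def LL.ok (A : LL) (φ φ1 : ℝ) : Prop :=
  (∀ p ∈ A.psF, p.ok φ φ) ∧ (∀ p ∈ A.psC, p.ok φ (1 / 1000)) ∧ (∀ p ∈ A.qsF, p.ok φ1 φ1) ∧
    ∀ p ∈ A.qsC, p.ok φ1 (1 / 1000)

def LL.join (l : List LL) : LL :=
  ⟨l.flatMap LL.psF, l.flatMap LL.psC, l.flatMap LL.qsF, l.flatMap LL.qsC⟩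

theorem LL.sub.trans {A B C : LL} (h : A.sub B) (h' : B.sub C) : A.sub C :=
  ⟨fun _ e => h'.1 (h.1 e), fun _ e => h'.2.1 (h.2.1 e), fun _ e => h'.2.2.1 (h.2.2.1 e),
    fun _ e => h'.2.2.2 (h.2.2.2 e)⟩

theorem LL.sub_join {A : LL} {l : List LL} (h : A ∈ l) : A.sub (join l) :=
  ⟨fun _ e => List.mem_flatMap.2 ⟨A, h, e⟩, fun _ e => List.mem_flatMap.2 ⟨A, h, e⟩,
    fun _ e => List.mem_flatMap.2 ⟨A, h, e⟩, fun _ e => List.mem_flatMap.2 ⟨A, h, e⟩⟩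

theorem LL.ok_join {φ φ1 : ℝ} {l : List LL} (h : ∀ A ∈ l, A.ok φ φ1) : (join l).ok φ φ1 := by
  refine ⟨fun p e => ?_, fun p e => ?_, fun p e => ?_, fun p e => ?_⟩ <;>
    obtain ⟨A, h1, h2⟩ := List.mem_flatMap.1 e
  exacts [(h A h1).1 p h2, (h A h1).2.1 p h2, (h A h1).2.2.1 p h2, (h A h1).2.2.2 p h2]

theorem LL.ok_nil (φ φ1 : ℝ) : LL.ok ⟨[], [], [], []⟩ φ φ1 := by simp [LL.ok]

/-- The parameters of a row; `aux` is free for additional hypotheses. -/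
structure Par where
  L : ℕ
  ph : ℕ
  ph1 : ℕ
  d0 : ℕ
  n : ℕ
  r : ℕ
  sa : ℕ
  sb : ℕ
  l : ℕ
  lc : ℕ
  lp : ℕ
  aux : List ℕ

def Par.Ok (X : Par) : Prop := 0 < X.d0 ∧ X.sa ≤ X.l ∧ X.sa ≤ X.lc

/-- The property holds for all sets of primary zeros allowed in the row. -/
def EvH (Ex : Par → MProp3) (X : Par) (M : LL) (p : MProp3) : Prop :=
  Ev2 (r6 X.ph) (r6 X.ph1) M.psF M.psC M.qsF M.qsC fun Γ Ω ι _ _ _ D Lo => ∀ Pr,
    Ex X Γ Ω ι D Lo Pr → D.Prim3 Pr X.n X.r (r6 X.sa) (r6 X.sb) (r6 X.l) (r6 X.lc) (r6 X.lp) →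
      p Γ Ω ι D Lo Pr

/-- Correct columns of a family constraint. -/
def SF (Ex : Par → MProp3) (X : Par) (M : LL) (cs : List Cell) (l : ℕ) (lone : Bool)
    (vs : List (ℕ × List V)) : Prop :=
  ∃ W : ℕ → ℝ → ℝ, (∀ v, Bd (r6 X.L) cs (nth (0, []) vs v).2 (W v)) ∧
    EvH Ex X M fun _ _ _ _ _ _ D _ _ => D.FamJ (r6 l) (lone = true) (fun t => W ⌊t⌋₊)
      fun t => (nth (0, []) vs ⌊t⌋₊).1 / E12

/-- Correct column of a class constraint. -/
def SC (Ex : Par → MProp3) (X : Par) (M : LL) (cs : List Cell) (l : ℕ) (col : List V) : Prop :=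
  ∃ U : ℝ → ℝ, Bd (r6 X.L) cs col U ∧ EvH Ex X M fun _ _ _ _ _ _ D _ _ => D.ClsS (r6 l) U

/-- Correct column of a constraint for the primary classes. -/
def SP (Ex : Par → MProp3) (X : Par) (M : LL) (cs : List Cell) (l : ℕ) (col : List V) : Prop :=
  ∃ U : ℝ → ℝ, Bd (r6 X.L) cs col U ∧ EvH Ex X M fun _ _ _ _ _ _ D _ Pr =>
    ∀ p ∈ Pr, D.Sat (r6 l) (ce2cls D p) → ∑ j ∈ ce2cls D p, U (D.lam j) ≤ 1

section

variable {Γ Ω ι : Type} [CommGroup Γ] [Fintype Ω] [Fintype ι] {D : Dat Γ Ω ι}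

omit [Fintype Ω] [Fintype ι] in
theorem prim_ge {X : Par} (hX : X.Ok) {Pr : Finset ι}
    (h : D.Prim3 Pr X.n X.r (r6 X.sa) (r6 X.sb) (r6 X.l) (r6 X.lc) (r6 X.lp)) (i : ι) :
    r6 X.sa ≤ D.lam i :=
  Dat.Prim2.ge ⟨Pr, h⟩ (r6_le.2 hX.2.1) (r6_le.2 hX.2.2) i

omit [Fintype Ω] in
/-- Finitely many values of the parameter. -/
theorem famJ_var {l : ℝ} {lone : Prop} {w : ℝ → ℝ → ℝ} {c : ℝ → ℝ} (h : D.FamJ l lone w c)
    (t : ℕ → ℝ) {c' : ℕ → ℝ} (hc : ∀ v, c (t v) ≤ c' v) :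
    D.FamJ l lone (fun s => w (t ⌊s⌋₊)) fun s => c' ⌊s⌋₊ := fun S τ hS =>
  (h S (fun K => t ⌊τ K⌋₊) hS).trans (add_le_add le_rfl (sum_le_sum fun _ _ => hc _))

end

variable {Ex Ex' : Par → MProp3} {X : Par} {M : LL} {cs : List Cell}

theorem EvH.of {p : MProp2} {q : MProp3}
    (hp : Ev2 (r6 X.ph) (r6 X.ph1) M.psF M.psC M.qsF M.qsC p)
    (h : ∀ (Γ Ω ι : Type) [CommGroup Γ] [Fintype Ω] [Fintype ι] (D : Dat Γ Ω ι) (Lo : Subgroup Γ)
      (ε H : ℝ) (Pr : Finset ι), Clean2 D Lo (r6 X.ph) (r6 X.ph1) ε H M.psF M.psC M.qsF M.qsC →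
      p Γ Ω ι D Lo → Ex X Γ Ω ι D Lo Pr →
      D.Prim3 Pr X.n X.r (r6 X.sa) (r6 X.sb) (r6 X.l) (r6 X.lc) (r6 X.lp) → q Γ Ω ι D Lo Pr) :
    EvH Ex X M q :=
  hp.mono fun Γ Ω ι _ _ _ D Lo ε H hD h1 Pr => h Γ Ω ι D Lo ε H Pr hD h1

theorem EvH.triv {q : MProp3}
    (h : ∀ (Γ Ω ι : Type) [CommGroup Γ] [Fintype Ω] [Fintype ι] (D : Dat Γ Ω ι) (Lo : Subgroup Γ)
      (Pr : Finset ι), q Γ Ω ι D Lo Pr) : EvH Ex X M q :=
  Ev2.of_small one_pos fun Γ Ω ι _ _ _ D Lo _ _ _ _ _ _ Pr _ _ => h Γ Ω ι D Lo Pr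

theorem EvH.weak {q : MProp3} (hq : EvH Ex X M q)
    (h : ∀ (Γ Ω ι : Type) [CommGroup Γ] [Fintype Ω] [Fintype ι] (D : Dat Γ Ω ι) (Lo : Subgroup Γ)
      (Pr : Finset ι), Ex' X Γ Ω ι D Lo Pr → Ex X Γ Ω ι D Lo Pr) : EvH Ex' X M q :=
  Ev2.mono hq fun Γ Ω ι _ _ _ D Lo _ _ _ h1 Pr h2 => h1 Pr (h Γ Ω ι D Lo Pr h2)

theorem SC.sp {l : ℕ} {col : List V} (h : SC Ex X M cs l col) : SP Ex X M cs l col := by
  obtain ⟨U, h1, h2⟩ := h
  exact ⟨U, h1, EvH.of h2 fun _ _ _ _ _ _ _ _ _ _ Pr hD h3 h4 h5 p _ hs =>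
    h3 Pr h4 h5 _ hs fun _ hj _ hk => ce2_pair hD.cl hj hk⟩

/-- A family constraint without parameter. -/
theorem SF.one {l : ℕ} {lone : Bool} {col : List V} {w : ℝ → ℝ} (h1 : Bd (r6 X.L) cs col w)
    (h2 : EvH Ex X M fun _ _ _ _ _ _ D _ _ =>
      D.FamJ (r6 l) (lone = true) (fun _ => w) fun _ => 0) : SF Ex X M cs l lone [(0, col)] := by
  refine ⟨fun _ => w, fun v => ?_, EvH.of h2 fun _ _ _ _ _ _ _ _ _ _ Pr _ h3 h4 h5 =>
    famJ_var (c' := fun v => ((nth (0, []) [(0, col)] v : ℕ × List V).1 : ℝ) / E12) (h3 Pr h4 h5)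
      (fun _ => 0) fun _ => by positivity⟩
  cases v
  exacts [h1, bd_nil _ _]

theorem core {E : Env} {P : List (ℕ × List V)} {nP y0 V : ℕ} {ty : List (ℕ × List Ch)}
    {last prim : List Ch} (hX : X.Ok) (hL : E.L = X.L) (hG : Grid (r6 E.L) E.x0 E.cs)
    (hz : Bd (r6 E.L) E.cs E.z fun _ => 0) (hF : ∀ e ∈ E.F, SF Ex X M E.cs e.l e.lone e.vs)
    (hC : ∀ e ∈ E.C, SC Ex X M E.cs e.1 e.2) (hP : ∀ e ∈ P, SP Ex X M E.cs e.1 e.2)
    (h2 : E.tys last ty X.l = true)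
    (h3 : X.n = 0 ∨ E.x0 ≤ X.sa ∧ chain1 (Env.ckP { E with C := P, nC := nP } X.r X.sa X.sb X.lc
      X.lp y0) (X.r.mul (nLo (E.L.mul X.sb))) prim = true)
    (hV : (sumN (fun k => (E.fe k).y) E.nF).add (X.n.mul y0) ≤ V) :
    EvH Ex X M fun _ _ _ _ _ _ D _ _ => D.Tot (r6 X.L) ≤ V / E12 := by
  have a1 : ∀ k, SF Ex X M E.cs (E.fe k).l (E.fe k).lone (E.fe k).vs := fun k => by
    refine (nth_mem _ E.F k).elim (fun e => ?_) (hF _)
    rw [Env.fe, e]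
    exact ⟨fun _ _ => 0, fun _ => bd_nil _ _, EvH.triv fun _ _ _ _ _ _ _ _ _ S τ _ => by
      rw [sum_const_zero]
      positivity⟩
  have a2 : ∀ k, SC Ex X M E.cs (E.ce k).1 (E.ce k).2 := fun k => by
    refine (nth_mem _ E.C k).elim (fun e => ?_) (hC _)
    rw [Env.ce, e]
    exact ⟨fun _ => 0, bd_nil _ _, EvH.triv fun _ _ _ _ _ _ _ _ _ S _ _ => by simp⟩
  have a3 : ∀ k, SP Ex X M E.cs (nth (0, []) P k).1 (nth (0, []) P k).2 := fun k => by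
    refine (nth_mem _ P k).elim (fun e => ?_) (hP _)
    rw [e]
    exact ⟨fun _ => 0, bd_nil _ _, EvH.triv fun _ _ _ _ _ _ _ _ _ S _ _ => by simp⟩
  choose W b1 c1 using a1
  choose U b2 c2 using a2
  choose U' b3 c3 using a3
  rw [← hL] at b1 b2 b3 ⊢
  obtain ⟨N, b, d1, d2, d3⟩ := Env.tys_sound (W := W) (U := U) ⟨hG, hz, b1, b2⟩ h2
  have d4 := h3.imp_right fun h => Env.prim_sound (E := { E with C := P, nC := nP }) (W := W)
    (U := U') ⟨hG, hz, b1, b3⟩ h.1 hX.2.2 h.2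
  refine EvH.of ((Ev2.all fun k : Fin E.nF => c1 k).and ((Ev2.all fun k : Fin E.nC => c2 k).and
    (Ev2.all fun k : Fin nP => c3 k))) fun Γ Ω ι _ _ _ D Lo ε H Pr hD h e1 e2 => ?_
  have h0 := Env.e12
  refine (row_thm3 hD.cl (r6_nonneg _) (r6_le.2 hX.2.2) (fun k => by unfold Env.y; positivity)
    (by positivity) (fun k t => by positivity) (fun k => h.1 k Pr e1 e2)
    (fun k => h.2.1 k Pr e1 e2) d1.le d2 d3 d4 e2 fun p hp m => h.2.2 m Pr e1 e2 p hp).trans ?_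
  have h1 : (((sumN (fun k => (E.fe k).y) E.nF).add (X.n.mul y0) : ℕ) : ℝ) ≤ V := Nat.cast_le.2 hV
  rw [iv_add, iv_mul, sumN_eq, ← Fin.sum_univ_eq_sum_range fun k => ((E.fe k).y : ℝ)] at h1
  simp only [Env.y]
  rw [← sum_div, ← mul_div_assoc, ← add_div]
  gcongr

/-- A kind of constraints with columns, tests and proofs. -/
structure Kit (Ex : Par → MProp3) (α : Type) where
  ln : Par → α → ℕ
  lone : α → Bool
  vs : Par → List Cell → α → List (ℕ × List V)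
  col : Par → List Cell → α → List V
  okF : Par → α → Bool
  okC : Par → α → Bool
  okP : Par → α → Bool
  mF : α → LL
  mC : α → LL
  sF : ∀ X a, X.Ok → okF X a = true → (mF a).ok (r6 X.ph) (r6 X.ph1) ∧ ∀ M xs, (mF a).sub M →
    SF Ex X M (cells X.L xs) (ln X a) (lone a) (vs X (cells X.L xs) a)
  sC : ∀ X a, X.Ok → okC X a = true → (mC a).ok (r6 X.ph) (r6 X.ph1) ∧ ∀ M xs, (mC a).sub M →
    SC Ex X M (cells X.L xs) (ln X a) (col X (cells X.L xs) a)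
  sP : ∀ X a, X.Ok → okP X a = true → (mC a).ok (r6 X.ph) (r6 X.ph1) ∧ ∀ M xs, (mC a).sub M →
    SP Ex X M (cells X.L xs) (ln X a) (col X (cells X.L xs) a)

variable {α β : Type}

/-- Two kinds of constraints. -/
def Kit.sum (A : Kit Ex α) (B : Kit Ex β) : Kit Ex (α ⊕ β) where
  ln X := Sum.elim (A.ln X) (B.ln X)
  lone := Sum.elim A.lone B.lone
  vs X cs := Sum.elim (A.vs X cs) (B.vs X cs)
  col X cs := Sum.elim (A.col X cs) (B.col X cs)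
  okF X := Sum.elim (A.okF X) (B.okF X)
  okC X := Sum.elim (A.okC X) (B.okC X)
  okP X := Sum.elim (A.okP X) (B.okP X)
  mF := Sum.elim A.mF B.mF
  mC := Sum.elim A.mC B.mC
  sF X := Sum.rec (A.sF X) (B.sF X)
  sC X := Sum.rec (A.sC X) (B.sC X)
  sP X := Sum.rec (A.sP X) (B.sP X)

/-- The same constraints under a stronger hypothesis. -/
def Kit.mono (A : Kit Ex α)
    (h : ∀ (X : Par) (Γ Ω ι : Type) [CommGroup Γ] [Fintype Ω] [Fintype ι] (D : Dat Γ Ω ι)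
      (Lo : Subgroup Γ) (Pr : Finset ι), Ex' X Γ Ω ι D Lo Pr → Ex X Γ Ω ι D Lo Pr) : Kit Ex' α :=
  { A with
    sF := fun X a h1 h2 => (A.sF X a h1 h2).imp_right fun e M xs h3 =>
      (e M xs h3).imp fun _ => And.imp_right fun e' => e'.weak (h X)
    sC := fun X a h1 h2 => (A.sC X a h1 h2).imp_right fun e M xs h3 =>
      (e M xs h3).imp fun _ => And.imp_right fun e' => e'.weak (h X)
    sP := fun X a h1 h2 => (A.sP X a h1 h2).imp_right fun e M xs h3 =>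
      (e M xs h3).imp fun _ => And.imp_right fun e' => e'.weak (h X) }

/-- A row. -/
structure Row2D (α : Type) extends Par where
  y0 : ℕ
  V : ℕ
  xs : List ℕ
  F : List (ℕ × α)
  C : List α
  P : List α
  ty : List (ℕ × List Ch)
  last : List Ch
  prim : List Ch

namespace Row2D

variable (K : Kit Ex α) (R : Row2D α)

noncomputable def grid : List Cell := cells R.L R.xs

noncomputable def cl (C : List α) : List (ℕ × List Cq.V) :=
  mp (fun c => (K.ln R.toPar c, K.col R.toPar R.grid c)) C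

noncomputable def env (C : List α) : Env :=
  ⟨R.L, nth 0 R.xs 0, R.grid, mp (fun _ => ⟨0, 0, 0⟩) R.grid, len R.F, len C,
    mp (fun e => ⟨e.1, K.ln R.toPar e.2, K.lone e.2, K.vs R.toPar R.grid e.2⟩) R.F, cl K R C⟩

/-- The parameters, the constraints and the total. -/
noncomputable def ok1 : Bool :=
  Nat.ble 1 R.d0 && Nat.ble R.sa R.l && Nat.ble R.sa R.lc && Nat.ble 1 (len R.xs) &&
    Nat.ble ((sumN (fun k => ((env K R R.C).fe k).y) (len R.F)).add (R.n.mul R.y0)) R.V &&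
    allL (fun e => K.okF R.toPar e.2) R.F && allL (K.okC R.toPar) R.C && allL (K.okP R.toPar) R.P

/-- The classes without primary zero. -/
noncomputable def ok2 : Bool := (env K R R.C).tys R.last R.ty R.l

/-- The primary classes. -/
noncomputable def ok3 : Bool :=
  Nat.ble R.n 0 || (Nat.ble (nth 0 R.xs 0) R.sa &&
    chain1 ((env K R R.P).ckP R.r R.sa R.sb R.lc R.lp R.y0) (R.r.mul (nLo (R.L.mul R.sb))) R.prim)

/-- The mollifier parameters used by the row. -/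
def ll : LL := LL.join (R.F.map (fun e => K.mF e.2) ++ (R.C ++ R.P).map K.mC)

end Row2D

theorem mp_all {f : α → β} {l : List α} {p : β → Prop} (h : ∀ a ∈ l, p (f a)) :
    ∀ b ∈ mp f l, p b := by
  induction l with
  | nil => exact fun b hb => absurd hb List.not_mem_nil
  | cons a t ih =>
    exact List.forall_mem_cons.2 ⟨h a List.mem_cons_self, ih fun a e => h a (List.mem_cons_of_mem _ e)⟩

variable {K : Kit Ex α} {R : Row2D α}

theorem ok1_spec (h : R.ok1 K = true) : R.toPar.Ok ∧ R.xs ≠ [] ∧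
    (sumN (fun k => ((R.env K R.C).fe k).y) (len R.F)).add (R.n.mul R.y0) ≤ R.V ∧
    (∀ e ∈ R.F, K.okF R.toPar e.2 = true) ∧ (∀ c ∈ R.C, K.okC R.toPar c = true) ∧
    ∀ c ∈ R.P, K.okP R.toPar c = true := by
  simp only [Row2D.ok1, Bool.and_eq_true, Nat.ble_eq, and_assoc] at h
  obtain ⟨a1, a2, a3, a4, a5, a6, a7, a8⟩ := h
  refine ⟨⟨a1, a2, a3⟩, fun e => ?_, a5, allL_mem a6, allL_mem a7, allL_mem a8⟩
  rw [e] at a4
  exact absurd a4 (by decide)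

theorem ll_ok (h : R.ok1 K = true) : (R.ll K).ok (r6 R.ph) (r6 R.ph1) := by
  obtain ⟨a1, -, -, a4, a5, a6⟩ := ok1_spec h
  refine LL.ok_join fun A hA => ?_
  simp only [List.mem_append, List.mem_map] at hA
  rcases hA with ⟨e, he, rfl⟩ | ⟨c, hc | hc, rfl⟩
  exacts [(K.sF _ _ a1 (a4 e he)).1, (K.sC _ _ a1 (a5 c hc)).1, (K.sP _ _ a1 (a6 c hc)).1]

theorem row2_of_ok (h1 : R.ok1 K = true) (h2 : R.ok2 K = true) (h3 : R.ok3 K = true) {M : LL}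
    (hM : (R.ll K).sub M) :
    EvH Ex R.toPar M fun _ _ _ _ _ _ D _ _ => D.Tot (r6 R.L) ≤ R.V / E12 := by
  obtain ⟨a1, a2, a3, a4, a5, a6⟩ := ok1_spec h1
  have b : ∀ c, c ∈ R.C ∨ c ∈ R.P → (K.mC c).sub M := fun c hc => (LL.sub_join
    (List.mem_append_right _ (List.mem_map_of_mem (List.mem_append.2 hc)))).trans hM
  refine core (E := R.env K R.C) (P := R.cl K R.P) (nP := len R.P) (prim := R.prim) a1 rfl
    (grid_cells _ a2) (bd_mp fun c x _ => by simp [V.val]) (mp_all fun e he => ?_)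
    (mp_all fun c hc => ?_) (mp_all fun c hc => ?_) h2 ?_ a3
  · exact (K.sF _ _ a1 (a4 e he)).2 M _ ((LL.sub_join (List.mem_append_left _
      (List.mem_map_of_mem (f := fun e : ℕ × α => K.mF e.2) he))).trans hM)
  · exact (K.sC _ _ a1 (a5 c hc)).2 M _ (b c (Or.inl hc))
  · exact (K.sP _ _ a1 (a6 c hc)).2 M _ (b c (Or.inr hc))
  · rw [Row2D.ok3, Bool.or_eq_true, Bool.and_eq_true, Nat.ble_eq, Nat.ble_eq, Nat.le_zero] at h3
    exact h3

/-! The constraints of the first checker. -/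

def Par.row (X : Par) (ph : ℕ) : Row := ⟨X.L, ph, X.d0, 0, X.sa, 0, 0, 0, [], [], [], [], [], [], []⟩

noncomputable def colO (ph d0 : ℕ) (c : Con) (cs : List Cell) : List V :=
  mp (fun e => ⟨c.vS ph d0 e.a e.b, 0, c.vM ph d0 e.a⟩) cs

theorem bd_colO {L ph : ℕ} (d0 : ℕ) {c : Con} (h : c.Pos L ph) (cs : List Cell) :
    Bd (r6 L) cs (colO ph d0 c cs) (c.w ph d0) := bd_mp fun e x hx => by
  rw [V.val, Nat.cast_zero, sub_zero, div_le_iff₀ iv_pos]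
  exact Con.low d0 h hx

theorem okF_ps {ph : ℕ} {c : Con} (h : (X.row ph).conF c = true) :
    ∀ p ∈ c.ps, p.ok (r6 ph) (r6 ph) := fun p hp => by
  cases c with
  | m d => exact List.mem_singleton.1 hp ▸ (MD.ok_real h).1
  | g => exact absurd hp List.not_mem_nil
  | h => exact absurd hp List.not_mem_nil

theorem okC_ps {ph : ℕ} {c : Con} (h : (X.row ph).conC c = true) :
    ∀ p ∈ c.ps, p.ok (r6 ph) (1 / 1000) := fun p hp => by
  cases c with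
  | m d =>
    rw [show (1 / 1000 : ℝ) = r6 1000 by norm_num [r6]]
    exact List.mem_singleton.1 hp ▸ (MD.ok_real h).1
  | g => exact absurd hp List.not_mem_nil
  | h => exact absurd hp List.not_mem_nil

theorem scO (hX : X.Ok) {c : Con} (h : (X.row X.ph).conC c = true) (hM : c.ps ⊆ M.psC) :
    SC Ex X M cs c.line (colO X.ph X.d0 c cs) :=
  ⟨_, bd_colO _ (conC_pos h) _, EvH.of ((conC_ev (R := X.row X.ph) hX.1 h _ hM).up _ _ _)
    fun _ _ _ _ _ _ _ _ _ _ _ _ e _ _ => e.clsS⟩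

/-- Constraints with the constant `ph`. -/
noncomputable def kitO (Ex : Par → MProp3) : Kit Ex Con where
  ln _ c := c.line
  lone _ := true
  vs X cs c := [(0, colO X.ph X.d0 c cs)]
  col X cs c := colO X.ph X.d0 c cs
  okF X c := (X.row X.ph).conF c
  okC X c := (X.row X.ph).conC c
  okP X c := (X.row X.ph).conC c
  mF c := ⟨c.ps, [], [], []⟩
  mC c := ⟨[], c.ps, [], []⟩
  sF X c hX h := ⟨⟨okF_ps h, by simp⟩, fun M xs hM => SF.one (bd_colO _ (conF_pos h) _)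
    (EvH.of ((conF_ev (R := X.row X.ph) hX.1 h _ hM.1).up _ _ _)
      fun _ _ _ _ _ _ _ _ _ _ _ _ e _ e' => (e (prim_ge hX e')).famJ _)⟩
  sC X c hX h := ⟨⟨by simp, okC_ps h, by simp⟩, fun M xs hM => scO hX h hM.2.1⟩
  sP X c hX h := ⟨⟨by simp, okC_ps h, by simp⟩, fun M xs hM => (scO hX h hM.2.1).sp⟩

/-- No additional hypothesis. -/
def Ex0 : Par → MProp3 := fun _ _ _ _ _ _ _ _ _ _ => True

/-- The characters of the primary zeros have low order. -/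
def ExL : Par → MProp3 := fun _ _ _ _ _ _ _ D Lo Pr => ∀ p ∈ Pr, D.ch p ∈ Lo

/-- One primary zero, a real zero of a real character. -/
def ExR : Par → MProp3 := fun _ _ _ _ _ _ _ D Lo Pr =>
  ∃ i, Pr = {i} ∧ D.ch i * D.ch i = 1 ∧ D.mu i = 0 ∧ D.ch i ∈ Lo

/-- Constraints with the constant `ph1` for the primary classes. -/
noncomputable def kitL : Kit ExL Con where
  ln _ c := c.line
  lone _ := true
  vs _ _ _ := []
  col X cs c := colO X.ph1 X.d0 c cs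
  okF _ _ := false
  okC _ _ := false
  okP X c := (X.row X.ph1).conC c
  mF _ := ⟨[], [], [], []⟩
  mC c := ⟨[], [], [], c.ps⟩
  sF _ _ _ h := absurd h Bool.false_ne_true
  sC _ _ _ h := absurd h Bool.false_ne_true
  sP X c hX h := ⟨⟨by simp, by simp, by simp, okC_ps h⟩, fun M xs hM =>
    ⟨_, bd_colO _ (conC_pos h) _, EvH.of ((conC_ev (R := X.row X.ph1) hX.1 h _ hM.2.2.2).clsL _ _ _)
      fun _ _ _ _ _ _ _ _ _ _ _ hD e e' _ p hp => hD.cls_at e (e' p hp)⟩⟩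

noncomputable def kitOL : Kit ExL (Con ⊕ Con) := (kitO ExL).sum kitL

theorem exR_L (X : Par) (Γ Ω ι : Type) [CommGroup Γ] [Fintype Ω] [Fintype ι] (D : Dat Γ Ω ι)
    (Lo : Subgroup Γ) (Pr : Finset ι) (h : ExR X Γ Ω ι D Lo Pr) : ExL X Γ Ω ι D Lo Pr := by
  obtain ⟨i, rfl, -, -, h⟩ := h
  exact fun p hp => mem_singleton.1 hp ▸ h

theorem EvH.rowP {L V : ℝ} (h : EvH Ex0 X M fun _ _ _ _ _ _ D _ _ => D.Tot L ≤ V) :
    Ev2 (r6 X.ph) (r6 X.ph1) M.psF M.psC M.qsF M.qsC fun Γ Ω ι _ _ _ D _ =>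
      RowP2 L V X.n X.r (r6 X.sa) (r6 X.sb) (r6 X.l) (r6 X.lc) (r6 X.lp) Γ Ω ι D :=
  Ev2.mono h fun _ _ _ _ _ _ _ _ _ _ _ e ⟨Pr, e'⟩ => e Pr trivial e'

theorem EvH.rowR {L V : ℝ} (h : EvH ExR X M fun _ _ _ _ _ _ D _ _ => D.Tot L ≤ V) (h1 : X.n = 1)
    (h2 : X.r = 1) (h3 : X.lp = X.lc) :
    Ev2 (r6 X.ph) (r6 X.ph1) M.psF M.psC M.qsF M.qsC fun Γ Ω ι _ _ _ D _ =>
      RowR L V (r6 X.sa) (r6 X.sb) (r6 X.l) (r6 X.lc) Γ Ω ι D :=
  Ev2.mono h fun _ _ _ _ _ _ _ _ _ _ hD e i a1 a2 a3 a4 a5 a6 =>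
    e {i} ⟨i, rfl, a1, a2, hD.real_mem a1⟩ (by
      rw [h1, h2, h3]
      exact prim3_one hD.cl a3 a4 a5 a6)

end Pool.Agent.Lib.MP_778b46_nt.GX.Cq
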