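import Pool.Agent.Lib.MP_778b46_nt.GX.DhE

/- The repulsion of zeros by an exceptional zero, with the exponent `4 ph0`. -/

namespace Pool.Agent.Lib.MP_778b46_nt.GX.Dh

open Complex Filter

/-- The class of characters used in the induction. -/
def C4 {Q : ℕ} (P : ℝ) (ξ1 ψ : DC Q) : Prop :=
  ∃ k k' : ℕ, k ≤ 2 ∧ k' ≤ 2 ∧ k + k' ≤ 3 ∧ cd ψ ≤ P ^ k ∧ cd (ξ1 * ψ) ≤ P ^ k'

/-- The induction over the distance from the line. -/
theorem repel4 {T T' P φ ε δ U V a0 c1 : ℝ} (hL : 1 ≤ Real.log P) (hP : 1 ≤ P) (hT : 0 ≤ T)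
    (hT8 : T' ≤ 8) (hε : 0 < ε) (hδ : δ ≤ 1) (hV : 1 ≤ V) (hc1 : 0 < c1)
    (hφ : 0 ≤ φ) (hgap : 4 * (T * φ / 2) + 11 * ε + c1 ≤ T ^ 2 / 2) (hTT : T + (a0 + 1) / Real.log P ≤ T')
    (ha0 : 0 ≤ a0) (h1 : EF T P φ ε δ U a0) (h2 : PO T P ε a0) (N : ℕ) (hN : V + N ≤ U)
    {Q : ℕ} [NeZero Q] {ξ1 : DC Q} {z1 : ℂ} (hcd : cd ξ1 ≤ P) (hz1 : ord ξ1 z1 ≠ 0) (n1 : ξ1 ≠ 1)
    (n2 : ξ1 * ξ1 = 1) (n3 : z1.im = 0) (n : ℕ) : n ≤ N → ∀ (ξ : DC Q) (z : ℂ),
      C4 P ξ1 ξ → ord ξ z ≠ 0 → (ξ = ξ1 → z = z1 → 1 < ord ξ z) → lam P z ≤ a0 →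
      lam P z < n * (ε / (272 * Real.exp 9)) → |z.im| + n ≤ V + N →
      Real.exp (-(T' * lam P z)) ≤ 544 * Real.exp 8 / c1 * lam P z1 := by
  classical
  have hL0 : 0 < Real.log P := by linarith
  have hq : 0 ≤ (a0 + 1) / Real.log P := by positivity
  have hs := lam_pos hL0 hz1
  induction n with
  | zero =>
    intro _ ξ z _ h _ _ h' _
    have := lam_pos hL0 h
    simp only [Nat.cast_zero, zero_mul] at h'
    linarith
  | succ n ih =>
    rintro hn ξ z ⟨k, k', f3, f4, f5, f1, f2⟩ o1 o2 b1 b2 b3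
    by_contra bad
    obtain ⟨ω, hω⟩ : ∃ ω, ω = ε / (272 * Real.exp 9) := ⟨_, rfl⟩
    have hω0 : 0 < ω := by rw [hω]; positivity
    have hnN : (n : ℝ) + 1 ≤ N := by exact_mod_cast hn
    have hn0 : (0 : ℝ) ≤ n := Nat.cast_nonneg n
    rw [← hω] at ih b2
    push_cast at b2 b3
    have hl := lam_pos hL0 o1
    obtain ⟨a, ha⟩ : ∃ a, a = max (lam P z - ω) 0 := ⟨_, rfl⟩
    have a1 : 0 ≤ a := ha ▸ le_max_right _ _
    have a2 : a ≤ lam P z := ha ▸ max_le (by linarith) hl.le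
    have a3 : lam P z - a ≤ ω := by linarith [ha ▸ le_max_left (lam P z - ω) 0]
    obtain ⟨B, hB⟩ : ∃ B : DC Q → Multiset ℂ, B = fun ψ => if ψ = ξ1 then {z1} else 0 := ⟨_, rfl⟩
    have B1 : ∀ ψ ρ, (B ψ).count ρ = if ψ = ξ1 ∧ ρ = z1 then 1 else 0 := fun ψ ρ => by
      rw [hB]
      by_cases h : ψ = ξ1 <;> simp [h, Multiset.count_singleton]
    have B2 : ∀ ψ, ((B ψ).card : ℝ) ≤ 1 := fun ψ => by
      rw [hB]
      by_cases h : ψ = ξ1 <;> simp [h]
    have B3 : ∀ ψ ρ, (B ψ).count ρ ≤ ord ψ ρ := fun ψ ρ => by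
      rw [B1]
      split_ifs with h
      · rw [h.1, h.2]
        omega
      · omega
    have E : ∀ (γ : ℝ) (ψ : DC Q) (k : ℕ) (Zs : Multiset ℂ), k ≤ 2 → cd ψ ≤ P ^ k →
        C4 P ξ1 ψ → |γ| + (n + 1) ≤ V + N → (∀ ρ, Zs.count ρ ≤ ord ψ ρ) → B ψ ≤ Zs → _ :=
      fun γ ψ k Zs c1 c2 c3 c4 c5 c6 => (h1 a γ a1 (a2.trans b1)).2 Q ψ k Zs c1 c2 (by linarith) c5
        fun ρ d1 d2 => by
          by_contra d3
          rw [not_lt] at d3
          have d4 := (Multiset.count_le_of_le ρ c6).trans_lt d2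
          have d5 := lam_pos hL0 (ξ := ψ) (z := ρ) (by omega)
          have d6 : a = lam P z - ω := by
            rcases le_total (lam P z - ω) 0 with h | h
            · rw [max_eq_right h] at ha
              linarith
            · rw [ha, max_eq_left h]
          have d7 : |ρ.im| ≤ |γ| + 1 := by
            have e1 := (abs_im_le_norm _).trans d1
            have e2 : (ρ - cc P γ).im = ρ.im - γ := by
              simp only [cc, sub_im, add_im, ofReal_im, mul_im, ofReal_re, I_im, I_re, mul_one,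
                mul_zero, add_zero, zero_add]
            rw [e2] at e1
            linarith [abs_sub_abs_le_abs_sub ρ.im γ]
          have d8 := ih (by omega) ψ ρ c3 (by omega)
            (fun e1 e2 => by rwa [B1, if_pos ⟨e1, e2⟩] at d4) (by linarith) (by linarith)
            (by linarith)
          refine bad (le_trans (Real.exp_le_exp.2 (neg_le_neg ?_)) d8)
          exact mul_le_mul_of_nonneg_left (by linarith) (by linarith)
    have pair : ∀ (ψ : DC Q) (γ : ℝ),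
        (po ψ (PZ T P a γ 1).re - ((B ψ).map fun ρ => (PZ T P a γ ρ).re).sum) +
        (po (ξ1 * ψ) (PZ T P a γ 1).re - ((B (ξ1 * ψ)).map fun ρ => (PZ T P a γ ρ).re).sum) ≤
          KK T (√(Real.log P)) (a + 1) * lam P z1 := fun ψ γ => by
      have d1 := PZ_diff (γ := γ) hL0 hT a1 (re_lt_one_of_ord hz1).le n3
      rw [hB]
      by_cases e1 : ψ = 1
      · simp only [e1, mul_one, po_pos rfl, po_neg n1, n1.symm, if_true, if_false,
          Multiset.map_singleton, Multiset.sum_singleton, Multiset.map_zero, Multiset.sum_zero]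
        linarith
      · by_cases e2 : ψ = ξ1
        · simp only [e2, n2, po_pos rfl, po_neg n1, n1.symm, if_true, if_false,
            Multiset.map_singleton, Multiset.sum_singleton, Multiset.map_zero, Multiset.sum_zero]
          linarith
        · have e3 : ξ1 * ψ ≠ 1 := fun h => e2 (mul_left_cancel (h.trans n2.symm))
          have e4 : ξ1 * ψ ≠ ξ1 := fun h => e1 (mul_eq_left.1 h)
          simp only [po_neg e1, e2, po_neg e3, e4, if_false, Multiset.map_zero, Multiset.sum_zero,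
            sub_zero, add_zero]
          exact mul_nonneg (KK_pos _ _ _).le hs.le
    have habs := abs_nonneg z.im
    have q0 := (h2 a z.im (a2.trans b1) Q ξ1 hcd).2 ξ n2 (f1.trans (pow_le_pow_right₀ hP f3))
    have q1 := E 0 1 0 (B 1) (by norm_num) (by simp [cd_one])
      ⟨0, 1, by norm_num, by norm_num, by norm_num, by simp [cd_one], by rwa [mul_one, pow_one]⟩
      (by rw [abs_zero]; linarith) (B3 _) le_rfl
    have q2 := E 0 (ξ1 * 1) 1 (B (ξ1 * 1)) (by norm_num) (by rwa [mul_one, pow_one])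
      ⟨1, 0, by norm_num, by norm_num, by norm_num, by rwa [mul_one, pow_one],
        by rw [mul_one, n2, cd_one, pow_zero]⟩ (by rw [abs_zero]; linarith) (B3 _) le_rfl
    have q3 := E z.im ξ k (z ::ₘ B ξ) f3 f1 ⟨k, k', f3, f4, f5, f1, f2⟩ b3 (fun ρ => by
      rw [Multiset.count_cons]
      split_ifs with h
      · rw [h, B1]
        split_ifs with h'
        · have := o2 h'.1 h'.2
          omega
        · omega
      · exact B3 _ _) (Multiset.le_cons_self _ _)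
    have q4 := E z.im (ξ1 * ξ) k' (B (ξ1 * ξ)) f4 f2
      ⟨k', k, f4, f3, by omega, f2, by rwa [← mul_assoc, n2, one_mul]⟩ b3
      (B3 _) le_rfl
    have q5 := pair 1 0
    have q6 := pair ξ z.im
    have q7 := PZ_self hL hT (by linarith) a1 a2 a3
    have q8 : 272 * Real.exp 9 * ω = ε := by
      rw [hω]
      field_simp
    rw [Multiset.map_cons, Multiset.sum_cons, Multiset.card_cons] at q3
    push_cast at q1 q2 q3 q4
    have r1 := mul_le_mul_of_nonneg_left (B2 1) hε.le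
    have r2 := mul_le_mul_of_nonneg_left (B2 (ξ1 * 1)) hε.le
    have r3 := mul_le_mul_of_nonneg_left (B2 ξ) hε.le
    have r4 := mul_le_mul_of_nonneg_left (B2 (ξ1 * ξ)) hε.le
    have r0 : ((k : ℝ) + k') * (T * φ / 2) ≤ 3 * (T * φ / 2) :=
      mul_le_mul_of_nonneg_right (by exact_mod_cast f5) (by positivity)
    have r5 : c1 ≤ 2 * (KK T (√(Real.log P)) (a + 1) * lam P z1) := by linarith
    have r6 := KK_le (T' := T') hL0 hT (by linarith) (c := a + 1) (by linarith) (by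
      have : (a + 1) / Real.log P ≤ (a0 + 1) / Real.log P := by gcongr; linarith
      linarith)
    have r7 : Real.exp (T' * (a + 1)) ≤ Real.exp 8 * Real.exp (T' * lam P z) := by
      rw [← Real.exp_add, Real.exp_le_exp]
      have := mul_le_mul_of_nonneg_left a2 (show 0 ≤ T' by linarith)
      linarith
    have r8 := mul_le_mul_of_nonneg_right (r6.trans (mul_le_mul_of_nonneg_left r7 (by norm_num)))
      hs.le
    refine bad ?_
    rw [Real.exp_neg, inv_le_iff_one_le_mul₀ (Real.exp_pos _), div_mul_eq_mul_div,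
      div_mul_eq_mul_div, le_div_iff₀ hc1]
    linarith

end Pool.Agent.Lib.MP_778b46_nt.GX.Dh

namespace Pool.Agent.Lib.MP_778b46_nt.GX

open Complex Filter Dh

/-- As `DH`, for every `T > 4 ph0`. -/
def DH4 (ph0 : ℝ) : Prop :=
  ∀ T : ℝ, 4 * ph0 < T → T ≤ 8 → ∃ η ε2 s0 C P0 : ℝ, 0 < η ∧ 0 < ε2 ∧ 0 < s0 ∧
    ∀ P : ℝ, P0 ≤ P →
      ∀ (Q : ℕ) [NeZero Q] (ι : Type) [Fintype ι] (χ : ι → DC Q) (ρ : ι → ℂ), Sub χ ρ →
        (∀ j, cd (χ j) ≤ P ∧ lam P (ρ j) ≤ ε2 * Real.log P ∧ |(ρ j).im| ≤ P ^ η) →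
        ∀ i, lam P (ρ i) ≤ s0 →
          χ i ≠ 1 ∧ χ i * χ i = 1 ∧ (ρ i).im = 0 ∧
            ∀ j, j ≠ i → Real.exp (-(T * lam P (ρ j))) ≤ C * lam P (ρ i)

/-- The phenomenon of Deuring and Heilbronn. -/
theorem dh4 {ph0 : ℝ} (h0 : 0 < ph0) (h0' : ph0 ≤ 1 / 2) (hTB : TB ph0) (hZ : ZFS) : DH4 ph0 := by
  classical
  intro T hT5 hT8
  obtain ⟨d, hd⟩ : ∃ d, d = T - 4 * ph0 := ⟨_, rfl⟩
  have hd0 : 0 < d := by linarith
  obtain ⟨T1, hT1⟩ : ∃ T1, T1 = T - d / 2 := ⟨_, rfl⟩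
  have hT10 : 0 < T1 := by linarith
  obtain ⟨ε, hε⟩ : ∃ ε, ε = T1 * d / 400 := ⟨_, rfl⟩
  have hε0 : 0 < ε := by rw [hε]; positivity
  obtain ⟨δ, η, ε2, P1, hδ, hδ1, hη, hε2, hP1, hef⟩ := efg hTB (show 0 < d / 20 by positivity) hε0
  obtain ⟨P2, hpo⟩ := pos_EE hε0
  obtain ⟨η0, e0, s0, C0, P0, hη0, he0, hs0, hreal⟩ := dh h0 h0' hTB hZ 8 (by linarith) le_rfl
  obtain ⟨ω, hω⟩ : ∃ ω, ω = ε / (272 * Real.exp 9) := ⟨_, rfl⟩
  have hω0 : 0 < ω := by rw [hω]; positivity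
  obtain ⟨e2, g1, g2, g3, g4, g0⟩ :
      ∃ e2 : ℝ, 0 < e2 ∧ e2 ≤ ε2 ∧ e2 ≤ d / 4 ∧ e2 ≤ 1 / 2 ∧ e2 ≤ e0 :=
    ⟨min (min ε2 e0) (min (d / 4) (1 / 2)), by positivity,
      (min_le_left _ _).trans (min_le_left _ _), (min_le_right _ _).trans (min_le_left _ _),
      (min_le_right _ _).trans (min_le_right _ _), (min_le_left _ _).trans (min_le_right _ _)⟩
  have t1 : Tendsto (fun P : ℝ => Real.log P / P ^ (η / 2)) atTop (nhds 0) :=
    (isLittleO_log_rpow_atTop (by positivity)).tendsto_div_nhds_zero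
  obtain ⟨P3, hP3⟩ := eventually_atTop.1 ((t1.eventually_le_const (show 0 < ω / 2 by positivity)).and
    (((tendsto_rpow_atTop (show 0 < η / 2 by positivity)).eventually_ge_atTop 4).and
      (Real.tendsto_log_atTop.eventually ((eventually_ge_atTop 1).and
        (eventually_ge_atTop (4 / d))))))
  refine ⟨min (η / 2) η0, e2, s0, 544 * Real.exp 8 / ε, max P0 (max P1 (max P2 P3)),
    by positivity, g1, hs0, fun P hP Q _ ι _ χ ρ hsub hρ i hi => ?_⟩
  obtain ⟨hP0, hP⟩ := max_le_iff.1 hP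
  have hPa : P1 ≤ P := (le_max_left _ _).trans hP
  have hPb : P2 ≤ P := ((le_max_left _ _).trans (le_max_right _ _)).trans hP
  obtain ⟨k1, k2, hL, k4⟩ := hP3 P (((le_max_right _ _).trans (le_max_right _ _)).trans hP)
  have hL0 : 0 < Real.log P := by linarith
  have hP1' : 1 ≤ P := by linarith
  obtain ⟨n1, n2, n3, -⟩ := hreal P hP0 Q ι χ ρ hsub (fun j => ⟨(hρ j).1,
    (hρ j).2.1.trans (by gcongr), (hρ j).2.2.trans
      (Real.rpow_le_rpow_of_exponent_le hP1' (min_le_right _ _))⟩) i hi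
  replace hρ : ∀ j, cd (χ j) ≤ P ∧ lam P (ρ j) ≤ e2 * Real.log P ∧ |(ρ j).im| ≤ P ^ (η / 2) :=
    fun j => ⟨(hρ j).1, (hρ j).2.1,
      (hρ j).2.2.trans (Real.rpow_le_rpow_of_exponent_le hP1' (min_le_left _ _))⟩
  have hPη : P ^ η = P ^ (η / 2) * P ^ (η / 2) := by
    rw [← Real.rpow_add (by linarith), add_halves]
  have H1 : EF T1 P (ph0 + d / 20) ε δ (P ^ η) (e2 * Real.log P) := fun a γ a1 a2 => by
    have a3 := hef P hPa T1 a γ hT10.le (by linarith) a1 (a2.trans (by gcongr))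
    refine ⟨a3.1, fun Q _ ξ k Zs b1 b2 b3 b4 b5 => ?_⟩
    have b6 : (k : ℝ) ≤ 2 := by exact_mod_cast b1
    have b7 := a3.2 Q ξ (k * (ph0 + d / 20)) Zs (by positivity)
      ((mul_le_mul b6 (show ph0 + d / 20 ≤ 1 by linarith) (by positivity) zero_le_two).trans_eq
        (mul_one 2)) (by
        rw [Real.rpow_mul (by linarith), Real.rpow_natCast]
        exact Real.rpow_le_rpow (cd_pos ξ).le b2 (by positivity)) b3 b4 b5
    by_cases h : ξ = 1
    · rw [if_pos h] at b7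
      rw [po_pos h]
      linarith
    · rw [if_neg h] at b7
      rw [po_neg h]
      linarith
  have g5 := mul_le_mul_of_nonneg_right g4 hL0.le
  have g6 := mul_le_mul_of_nonneg_right g3 hL0.le
  have g7 := mul_le_mul_of_nonneg_right k2 (show 0 ≤ P ^ (η / 2) by linarith)
  have H2 : PO T1 P ε (e2 * Real.log P) := fun a γ a1 =>
    hpo P hPb T1 a γ hT10.le (by linarith) (by linarith)
  have gap : 4 * (T1 * (ph0 + d / 20) / 2) + 60 * ε = T1 ^ 2 / 2 := by
    rw [hε, hT1, hd]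
    ring
  obtain ⟨r1, r2, r3⟩ := hρ i
  have hoi := hsub.ord_ne_zero i
  refine ⟨n1, n2, n3, fun j hj => ?_⟩
  obtain ⟨s1, s2, s3⟩ := hρ j
  have hN1 := Nat.lt_floor_add_one (Real.log P / ω)
  have hN2 := Nat.floor_le (show 0 ≤ Real.log P / ω by positivity)
  have hN3 : Real.log P / ω ≤ P ^ (η / 2) / 2 := by
    rw [div_le_iff₀ (by linarith)] at k1
    rw [div_le_iff₀ hω0]
    linarith
  refine repel4 hL hP1' hT10.le hT8 hε0 (by linarith) (V := P ^ (η / 2)) (by linarith) hε0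
    (by positivity) (by linarith) ?_ (by positivity) H1 H2 (⌊Real.log P / ω⌋₊ + 1) (by push_cast; linarith) r1 hoi
    n1 n2 n3 _ le_rfl (χ j) (ρ j) ⟨1, 2, by norm_num, le_rfl, le_rfl, by rwa [pow_one],
      (cd_mul_le _ _).trans (by rw [sq]; exact mul_le_mul r1 s1 (cd_pos _).le (by linarith))⟩
    (hsub.ord_ne_zero j) (fun e1 e2 => lt_of_lt_of_le ?_ (hsub _ _)) s2 ?_ (by linarith)
  · rw [div_le_iff₀ hd0] at k4
    have : (e2 * Real.log P + 1) / Real.log P ≤ d / 2 := by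
      rw [div_le_iff₀ hL0]
      linarith
    linarith
  · exact Finset.one_lt_card.2 ⟨j, by simp, i, by simp [e1, e2], hj⟩
  · rw [← hω]
    rw [div_lt_iff₀ hω0] at hN1
    push_cast
    linarith

end Pool.Agent.Lib.MP_778b46_nt.GX
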