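import Pool.Agent.Lib.MP_778b46_nt.GX.Cs1

set_option autoImplicit false

noncomputable section

namespace Pool.Agent.Lib.MP_778b46_nt.GX.P4

open Finset Filter
open scoped Classical

/-! The case without an exceptional zero and the assembly, for `21 / 10 ≤ L`. -/

section

variable {Q : ℕ} [NeZero Q] {ι : Type} [Fintype ι] {χ : ι → DC Q} {ρ : ι → ℂ} {l : ι → ℝ}
  {P A L C H Y R : ℝ} {m q : ℕ}

theorem as4_tail (h : Big χ ρ l P A) (hL : 21 / 10 ≤ L) (hH : 0 ≤ H) :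
    ∑ i ∈ (NP χ).filter (fun i => H < l i), yw L l i ≤ A * Real.exp (-(1 / 25 * H)) := by
  refine le_trans (sum_le_sum (g := fun i => Real.exp (-(103 / 50 * l i)) * Real.exp (-(1 / 25 * H)))
    fun i hi => ?_) ?_
  · have h1 := (mem_filter.1 hi).2
    rw [yw, ← Real.exp_add, Real.exp_le_exp]
    nlinarith
  · rw [← sum_mul]
    exact mul_le_mul_of_nonneg_right (h.fam _ fun i hi => as4_ne (mem_filter.1 hi).1)
      (Real.exp_pos _).le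

theorem as4_T2 (h : Big χ ρ l P A) (hL : 21 / 10 ≤ L) (hC : 0 ≤ C) (hH : 0 ≤ H)
    (hY : 0 < Y) (hR : 0 < R)
    (hq : ∀ i ∈ NP χ, l i ≤ H →
      (((χ i).conductor / Nat.gcd (χ i).conductor m : ℕ) : ℝ) ≤ R → (χ i).conductor ∣ q) :
    T2 C m χ ρ (yw L l) (NP χ) ≤
      ∑ i ∈ univ.filter (fun i => (χ i).conductor ∣ q ∧ l i ≤ H ∧ |(ρ i).im| ≤ 5 * Y),
        ∑ j ∈ (univ.filter fun j => (χ j).conductor ∣ q ∧ l j ≤ H ∧ |(ρ j).im| ≤ 5 * Y).filter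
          (fun j => cd (χ i * χ j) ≤ R), yw L l i * yw L l j +
      (2 * Real.exp (-(1 / 25 * H)) + C * Y ^ (-(1 / 2) : ℝ) + C * R ^ (-(1 / 3) : ℝ)) * A ^ 2 := by
  have hy : ∀ i, 0 ≤ yw L l i := fun i => (yw_pos L l i).le
  have s0 : 0 ≤ ∑ i ∈ NP χ, yw L l i := sum_nonneg fun i _ => hy i
  have s1 : ∑ i ∈ NP χ, yw L l i ≤ A := sum_yw h hL fun i hi => as4_ne hi
  have t0 : 0 ≤ ∑ i ∈ (NP χ).filter (fun i => H < l i), yw L l i := sum_nonneg fun i _ => hy i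
  have t1 := as4_tail h hL hH
  have b1 : T2 C m χ ρ (yw L l) (NP χ) ≤ ∑ i ∈ NP χ, ∑ j ∈ NP χ,
      ((if ((χ i).conductor ∣ q ∧ l i ≤ H ∧ |(ρ i).im| ≤ 5 * Y) ∧
          ((χ j).conductor ∣ q ∧ l j ≤ H ∧ |(ρ j).im| ≤ 5 * Y) ∧ cd (χ i * χ j) ≤ R then 1 else 0) *
          (yw L l i * yw L l j) +
        ((if H < l i then 1 else 0) * yw L l i) * yw L l j +
        yw L l i * ((if H < l j then 1 else 0) * yw L l j) +
        (C * Y ^ (-(1 / 2) : ℝ) + C * R ^ (-(1 / 3) : ℝ)) * (yw L l i * yw L l j)) := by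
    refine sum_le_sum fun i hi => sum_le_sum fun j hj => ?_
    refine (mul_le_mul_of_nonneg_right (as4_pair hC hY hR hq hi hj)
      (mul_nonneg (hy i) (hy j))).trans (le_of_eq ?_)
    ring
  have b2 : ∑ i ∈ NP χ, ∑ j ∈ NP χ,
      (if ((χ i).conductor ∣ q ∧ l i ≤ H ∧ |(ρ i).im| ≤ 5 * Y) ∧
          ((χ j).conductor ∣ q ∧ l j ≤ H ∧ |(ρ j).im| ≤ 5 * Y) ∧ cd (χ i * χ j) ≤ R then 1 else 0) *
          (yw L l i * yw L l j) ≤
      ∑ i ∈ univ.filter (fun i => (χ i).conductor ∣ q ∧ l i ≤ H ∧ |(ρ i).im| ≤ 5 * Y),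
        ∑ j ∈ (univ.filter fun j => (χ j).conductor ∣ q ∧ l j ≤ H ∧ |(ρ j).im| ≤ 5 * Y).filter
          (fun j => cd (χ i * χ j) ≤ R), yw L l i * yw L l j := by
    have n1 : ∀ (p : Prop) [Decidable p] (i j : ι),
        0 ≤ (if p then 1 else 0) * (yw L l i * yw L l j) :=
      fun p _ i j => mul_nonneg (as4_ite p) (mul_nonneg (hy i) (hy j))
    refine (sum_le_sum fun i _ => sum_le_univ_sum_of_nonneg fun j => n1 _ i j).trans ?_
    refine (sum_le_univ_sum_of_nonneg fun i => sum_nonneg fun j _ => n1 _ i j).trans (le_of_eq ?_)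
    rw [sum_filter]
    refine sum_congr rfl fun i _ => ?_
    rw [as4_ind univ _ fun j => yw L l i * yw L l j, filter_filter]
    split_ifs with h1
    · simp only [h1, true_and, and_self]
    · simp only [h1, false_and, filter_false, sum_empty]
  simp only [sum_add_distrib, ← mul_sum, ← sum_mul] at b1
  rw [as4_ind] at b1
  have c1 := mul_le_mul t1 s1 s0 (t0.trans t1)
  have c2 := mul_le_mul s1 s1 s0 (s0.trans s1)
  have c3 := mul_le_mul_of_nonneg_left c2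
    (by positivity : 0 ≤ C * Y ^ (-(1 / 2) : ℝ) + C * R ^ (-(1 / 3) : ℝ))
  linarith

theorem as4_T1 (h : Big χ ρ l P A) (hL : 21 / 10 ≤ L) (hC : 0 ≤ C) (hH : 0 ≤ H)
    (hY : 0 < Y) (hR : 0 < R) (hz : ∀ i, cd (χ i) ≤ R → |(ρ i).im| ≤ 5 * Y → H < l i) :
    T1 C χ ρ (yw L l) (NP χ) ≤
      C * A * (Real.exp (-(1 / 25 * H)) + Y ^ (-(1 / 2) : ℝ) + R ^ (-(1 / 3) : ℝ)) := by
  have s1 : ∑ i ∈ NP χ, yw L l i ≤ A := sum_yw h hL fun i hi => as4_ne hi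
  have t1 := as4_tail h hL hH
  have a4 : 0 ≤ C * Y ^ (-(1 / 2) : ℝ) := by positivity
  have a5 : 0 ≤ C * R ^ (-(1 / 3) : ℝ) := by positivity
  have b1 : T1 C χ ρ (yw L l) (NP χ) ≤ ∑ i ∈ NP χ, (C * ((if H < l i then 1 else 0) * yw L l i) +
      (C * Y ^ (-(1 / 2) : ℝ) + C * R ^ (-(1 / 3) : ℝ)) * yw L l i) := by
    refine sum_le_sum fun i _ => ?_
    rw [← mul_assoc, ← add_mul]
    refine mul_le_mul_of_nonneg_right ?_ (yw_pos L l i).le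
    have a2 := mul_nonneg hC (as4_ite (H < l i))
    by_cases h1 : cd (χ i) ≤ R
    · by_cases h2 : |(ρ i).im| ≤ 5 * Y
      · rw [if_pos (hz i h1 h2)]
        linarith [wt0_le hC (χ i) (ρ i)]
      · linarith [wt0_le_im hC hY (z := ρ i) (by linarith) (χ i)]
    · linarith [wt0_le_cd hC hR (not_le.1 h1).le (ρ i)]
  simp only [sum_add_distrib, ← mul_sum] at b1
  rw [as4_ind] at b1
  have c1 := mul_le_mul_of_nonneg_left t1 hC
  have c2 := mul_le_mul_of_nonneg_left s1 (add_nonneg a4 a5)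
  linarith

theorem as4_Zk (h : Big χ ρ l P A) (hL : 21 / 10 ≤ L) (hH : 0 ≤ H)
    (hY : 0 < Y) (hR : 1 ≤ R) (hz : ∀ i, cd (χ i) ≤ R → |(ρ i).im| ≤ 5 * Y → H < l i) :
    Zk χ ρ (yw L l) ≤ A * (Y ^ (-(1 / 8) : ℝ) + Real.exp (-(1 / 25 * H))) := by
  have a1 : 0 ≤ Y ^ (-(1 / 8) : ℝ) := by positivity
  have a2 := (Real.exp_pos (-(1 / 25 * H))).le
  refine h.old.Zk_le_of (add_nonneg a1 a2) fun i hi => ?_
  have h0 := h.nonneg i
  have h4 := abs_nonneg (ρ i).im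
  by_cases h2 : |(ρ i).im| ≤ 5 * Y
  · have h7 : χ i = 1 := by simpa [PP] using hi
    have h1 := hz i (by rw [h7, cd_one]; exact hR) h2
    have h3 : yw L l i ≤ Real.exp (-(1 / 25 * H)) := Real.exp_le_exp.2 (by nlinarith)
    have h5 : (1 + |(ρ i).im|) ^ (-(1 / 8) : ℝ) ≤ 1 :=
      Real.rpow_le_one_of_one_le_of_nonpos (by linarith) (by norm_num)
    linarith [mul_le_of_le_one_right (yw_pos L l i).le h5]
  · have h3 : yw L l i ≤ 1 := Real.exp_le_one_iff.2 (by nlinarith)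
    have h5 : (1 + |(ρ i).im|) ^ (-(1 / 8) : ℝ) ≤ Y ^ (-(1 / 8) : ℝ) :=
      Real.rpow_le_rpow_of_nonpos hY (by linarith) (by norm_num)
    have h6 : 0 ≤ (1 + |(ρ i).im|) ^ (-(1 / 8) : ℝ) := by positivity
    linarith [mul_le_of_le_one_left h6 h3]

/-- `Big.split`, `as4_pair`, `as4_tail`, `wt0_le`, `wt0_le_cd`, `wt0_le_im`, `Big.Zk_le_of` with
`t = Y ^ (-1 / 8) + exp (-(2 / 5 H))`. -/
theorem as4_core (h : Big χ ρ l P A) (hA : 1 ≤ A) (hL : 21 / 10 ≤ L) (hC : 1 ≤ C) (hH : 0 ≤ H)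
    (hY : 1 ≤ Y) (hR : 1 ≤ R)
    (hq : ∀ i ∈ NP χ, l i ≤ H →
      (((χ i).conductor / Nat.gcd (χ i).conductor m : ℕ) : ℝ) ≤ R → (χ i).conductor ∣ q)
    (hz : ∀ i, cd (χ i) ≤ R → |(ρ i).im| ≤ 5 * Y → H < l i) :
    T2 C m χ ρ (yw L l) univ + T1 C χ ρ (yw L l) univ ≤
      ∑ i ∈ univ.filter (fun i => (χ i).conductor ∣ q ∧ l i ≤ H ∧ |(ρ i).im| ≤ 5 * Y),
        ∑ j ∈ (univ.filter fun j => (χ j).conductor ∣ q ∧ l j ≤ H ∧ |(ρ j).im| ≤ 5 * Y).filter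
          (fun j => cd (χ i * χ j) ≤ R), yw L l i * yw L l j +
      7 * C * A ^ 2 * (Real.exp (-(1 / 25 * H)) + Y ^ (-(1 / 8) : ℝ) + R ^ (-(1 / 3) : ℝ)) := by
  have hC0 : 0 ≤ C := by linarith
  have hY0 : 0 < Y := by linarith
  have hR0 : 0 < R := by linarith
  have b0 := split h hL hC0 m
  have b2 := as4_T2 h hL hC0 hH hY0 hR0 hq
  have b1 := as4_T1 h hL hC0 hH hY0 hR0 hz
  have b3 := mul_le_mul_of_nonneg_left (as4_Zk h hL hH hY0 hR hz)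
    (by positivity : 0 ≤ C * (3 * A + 1))
  have u1 : Y ^ (-(1 / 2) : ℝ) ≤ Y ^ (-(1 / 8) : ℝ) :=
    Real.rpow_le_rpow_of_exponent_le hY (by norm_num)
  have u0 : 0 ≤ Y ^ (-(1 / 2) : ℝ) := by positivity
  have r0 : 0 ≤ R ^ (-(1 / 3) : ℝ) := by positivity
  have e0 := (Real.exp_pos (-(1 / 25 * H))).le
  generalize Y ^ (-(1 / 2) : ℝ) = v at *
  generalize Y ^ (-(1 / 8) : ℝ) = u at *
  generalize R ^ (-(1 / 3) : ℝ) = r at *
  generalize Real.exp (-(1 / 25 * H)) = e at *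
  have k1 : A ^ 2 ≤ C * A ^ 2 := le_mul_of_one_le_left (by positivity) hC
  have k2 : C * A ≤ C * A ^ 2 := mul_le_mul_of_nonneg_left (by nlinarith) hC0
  have k0 : 0 ≤ C * A := by positivity
  have d1 := mul_le_mul_of_nonneg_right k1 e0
  have d2 := mul_le_mul_of_nonneg_right k2 e0
  have d3 := mul_le_mul_of_nonneg_right k2 r0
  have d4 := mul_le_mul_of_nonneg_right k2 (u0.trans u1)
  have d5 := mul_le_mul_of_nonneg_left u1 k0
  have d6 := mul_le_mul_of_nonneg_left u1 (k0.trans k2)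
  have d7 := mul_nonneg (k0.trans k2) r0
  have d8 := mul_nonneg (k0.trans k2) (u0.trans u1)
  linarith

end

/-- Take `k0` from `hCE`. Choose `H ≥ 10`, `Y0 ≥ 1`, `R0 ≥ 1` with each of the three error terms of
`as4_core` at most `k0 / 5`, `N = ⌈A exp (109 / 50 H)⌉₊`, `hCE` for the finitely many
`Y = 5 ^ k Y0` (`k ≤ N`), `R = R0 ^ 2 ^ l` (`l ≤ N ^ 2`) (`eventually_all_finset`); `zfs` with the largest `R` and
`5 Y`. `as3_height`, `as3_cond`, `as3_E` for `S = (NP χ).filter (lam ≤ H)`; `Full.restrict`; sums over the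
subtype (`Finset.sum_subtype`); `K' = 2 ^ N * (R0 ^ 2 ^ N ^ 2) ^ (2 * N)`. -/
theorem caseC {C A K c' L s0 d1 η : ℝ} (hC : 1 ≤ C) (hA : 1 ≤ A) (hc : 0 < c') (hL : 21 / 10 ≤ L)
    (hs : 0 < s0) (hd : 0 < d1) (hη : 0 < η) (hCE : FIN L) :
    ∃ K' : ℝ, 0 ≤ K' ∧ ∀ᶠ P : ℝ in atTop,
      ∀ (Q : ℕ) [NeZero Q] (ι : Type) [Fintype ι] (χ : ι → DC Q) (ρ : ι → ℂ) (T : ℝ), P ^ η ≤ T →
      Full (fun ξ z => cd ξ ≤ P ∧ 1 - d1 ≤ z.re ∧ |z.im| ≤ T) χ ρ →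
      Big χ ρ (fun i => lam P (ρ i)) P A → (∀ i, s0 ≤ lam P (ρ i)) → ∀ M : ℝ, 0 ≤ M →
      ∃ E : Finset ℕ, (E.card : ℝ) ≤ K' * M / P ∧ ∀ m : ℕ, 1 ≤ m → (m : ℝ) ≤ M → m ∉ E →
        T2 C m χ ρ (yw L fun i => lam P (ρ i)) univ + T1 C χ ρ (yw L fun i => lam P (ρ i)) univ +
          K * P ^ (-c') < 1 := by
  obtain ⟨k0, hk, hCE⟩ := hCE s0 hs
  have hk5 : 0 < k0 / 5 := by positivity
  obtain ⟨H, hH1, hH⟩ := ((as8_exp (a := 7 * C * A ^ 2) (b := 1 / 25) (by norm_num) hk5).and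
    (eventually_ge_atTop 10)).exists
  obtain ⟨Y0, hY0⟩ := eventually_atTop.1 ((as8_small (a := 7 * C * A ^ 2) (b := 1 / 8)
    (by norm_num) hk5).and (eventually_ge_atTop 1))
  obtain ⟨R0, hR0⟩ := eventually_atTop.1 ((as8_small (a := 7 * C * A ^ 2) (b := 1 / 3)
    (by norm_num) hk5).and (eventually_ge_atTop 1))
  have y1 : 1 ≤ Y0 := (hY0 Y0 le_rfl).2
  have r1 : 1 ≤ R0 := (hR0 R0 le_rfl).2
  obtain ⟨N, hN⟩ : ∃ N : ℕ, A * Real.exp (109 / 50 * H) ≤ N := ⟨_, Nat.le_ceil _⟩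
  have yk : ∀ k : ℕ, Y0 ≤ 5 ^ k * Y0 := fun k =>
    le_mul_of_one_le_left (by linarith) (one_le_pow₀ (by norm_num))
  have rl : ∀ l : ℕ, R0 ≤ R0 ^ 2 ^ l := fun l => le_self_pow₀ r1 (by positivity)
  obtain ⟨c0, hc0, hZ⟩ := zfs (R0 ^ 2 ^ N ^ 2) (5 * (5 ^ N * Y0))
  have hcc : ∀ᶠ P : ℝ in atTop, ∀ k ∈ range (N + 1), ∀ l ∈ range (N ^ 2 + 1), _ :=
    (eventually_all_finset _).2 fun k _ => (eventually_all_finset _).2 fun l _ =>
      hCE H _ _ hH (y1.trans (yk k)) (r1.trans (rl l))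
  refine ⟨2 ^ N * (R0 ^ 2 ^ N ^ 2) ^ (2 * N), by positivity, ?_⟩
  filter_upwards [hcc, as8_small (a := K) hc hk5, eventually_ge_atTop 1,
    (Real.tendsto_log_atTop.const_mul_atTop hc0).eventually_ge_atTop H,
    (Real.tendsto_log_atTop.const_mul_atTop hd).eventually_ge_atTop H,
    Real.tendsto_log_atTop.eventually_gt_atTop 0,
    (tendsto_rpow_atTop hη).eventually_ge_atTop (5 * (5 ^ N * Y0))]
    with P hcc hKP hP hcH hdH hlog hPη Q _ ι _ χ ρ T hT hF hB hs0 M hM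
  have hS := hF.sub
  obtain ⟨S, hSd⟩ : ∃ S : Finset ι, S = (NP χ).filter fun i => lam P (ρ i) ≤ H := ⟨_, rfl⟩
  have hSN : S.card ≤ N := by
    have := (as4_card hB.old H).trans hN
    rw [hSd]
    exact_mod_cast this
  have mS : ∀ i, i ∈ S ↔ χ i ≠ 1 ∧ lam P (ρ i) ≤ H := fun i => by simp [hSd, NP]
  obtain ⟨k, hkN, hgy⟩ := as3_height S (fun i => |(ρ i).im|) (Y0 := Y0) (by linarith) hSN
  obtain ⟨l, hlN, hgr⟩ := as3_cond S (fun i j => cd (χ i / χ j)) r1 hSN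
  have hYm : 5 ^ k * Y0 ≤ 5 ^ N * Y0 := by gcongr; norm_num
  have hRm : R0 ^ 2 ^ l ≤ R0 ^ 2 ^ N ^ 2 := pow_le_pow_right₀ r1 (by gcongr; norm_num)
  have hcc := hcc k (by simpa using Nat.lt_succ_of_le hkN) l (by simpa using Nat.lt_succ_of_le hlN)
  obtain ⟨eY, y2⟩ := hY0 _ (yk k)
  obtain ⟨eR, r2⟩ := hR0 _ (rl l)
  generalize 5 ^ k * Y0 = Y at *
  generalize R0 ^ 2 ^ l = R at *
  obtain ⟨E, hE1, hE2⟩ := as3_E S (fun i => (χ i).conductor)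
    (fun i => Nat.pos_of_ne_zero (χ i).conductor_ne_zero) hSN r2 (by linarith : 0 < P) hM
  refine ⟨E, hE1.trans (by gcongr), fun m m1 m2 m3 => ?_⟩
  obtain ⟨q, q1, q2, q3, q4⟩ := hE2 m m1 m2 m3
  have hz : ∀ i, cd (χ i) ≤ R → |(ρ i).im| ≤ 5 * Y → H < lam P (ρ i) := by
    intro i a1 a2
    have a3 : (ρ i).re < 1 - c0 := by
      by_contra a3
      exact hS.ord_ne_zero i (hZ Q _ _ (a1.trans hRm) (by linarith) (not_lt.1 a3))
    have : c0 * Real.log P < (1 - (ρ i).re) * Real.log P := by gcongr; linarith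
    exact hcH.trans_lt this
  have h1 := as4_core (m := m) (q := q) hB hA hL hC (by linarith : 0 ≤ H) y2 r2
    (fun i a1 a2 a3 => q4 i ((mS i).2 ⟨by simpa [NP] using a1, a2⟩) a3) hz
  have hR' : ∀ i, lam P (ρ i) ≤ H → |(ρ i).im| ≤ 5 * Y → R < cd (χ i) := fun i a1 a2 =>
    lt_of_not_ge fun a3 => absurd (hz i a3 a2) (not_lt.2 a1)
  have hin : ∀ i, lam P (ρ i) ≤ H → |(ρ i).im| ≤ 5 * Y → i ∈ S := fun i a1 a2 => by
    refine (mS i).2 ⟨fun a3 => ?_, a1⟩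
    have := hR' i a1 a2
    rw [a3, cd_one] at this
    linarith
  have h2 := hcc Q q _ _ _ q1 (q3 Q fun i => (χ i).conductor_dvd_level) q2
    (hF.restrict (S' := fun ξ z => ξ.conductor ∣ q ∧ lam P z ≤ H ∧ |z.im| ≤ 5 * Y) (by
      rintro ξ z ⟨a1, a2, a3⟩
      refine ⟨le_trans (by unfold cd; exact_mod_cast Nat.le_of_dvd q1 a1) q2, ?_, by linarith⟩
      have := le_of_mul_le_mul_right (a2.trans hdH) hlog
      linarith))
    (fun i => hgy i.1 (hin _ i.2.2.1 i.2.2.2) i.2.2.2) (fun i => hR' _ i.2.2.1 i.2.2.2)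
    (fun i j => hgr i.1 (hin _ i.2.2.1 i.2.2.2) j.1 (hin _ j.2.2.1 j.2.2.2)) fun i => hs0 i.1
  rw [as8_sub] at h1
  have h3 := h1.trans (add_le_add_left h2 _)
  linarith

section

variable {Q : ℕ} [NeZero Q] {ι : Type} [Fintype ι] {χ : ι → DC Q} {ρ : ι → ℂ}

theorem as5_sum {l : ι → ℝ} {P A L B : ℝ} (h : Big χ ρ l P A) (hL : 21 / 10 ≤ L)
    (hB : ((PP χ).card : ℝ) ≤ B) : ∑ i, yw L l i ≤ A + B := by
  have e : ∑ i, yw L l i = ∑ i ∈ NP χ, yw L l i + ∑ i ∈ PP χ, yw L l i := by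
    rw [add_comm, NP, PP, Finset.sum_filter_add_sum_filter_not]
  have h1 : ∑ i ∈ NP χ, yw L l i ≤ A := sum_yw h hL fun i hi => by simpa [NP] using hi
  have h2 : ∑ i ∈ PP χ, yw L l i ≤ ∑ _i ∈ PP χ, (1 : ℝ) := by
    refine Finset.sum_le_sum fun i _ => ?_
    have := h.nonneg i
    exact Real.exp_le_one_iff.2 (by nlinarith)
  rw [Finset.sum_const, nsmul_eq_mul, mul_one] at h2
  linarith

end

theorem as5_local {th L te : ℝ} (h0 : 0 < th) (hL : 21 / 10 ≤ L) (hL' : L < 1 / th)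
    (hte : 1 - th < te) (hT : TB (1 / 3)) (hD : DH4 (1 / 3))
    (hM : MA th) (hE : FIN L) : ∃ K : ℝ, ∀ᶠ X : ℝ in atTop, ∃ E : Finset ℕ,
      (E.card : ℝ) ≤ K * X ^ te ∧
        ∀ m : ℕ, Even m → X ≤ m → (m : ℝ) ≤ 5 / 4 * X → m ∉ E → Gb m := by
  obtain ⟨η1, ε1, s0, CD, P1, hη1, hε1, hs0, hD⟩ := hD (34 / 25) (by norm_num) (by norm_num)
  obtain ⟨η2, ε2, A1, P2, hη2, hε2, hA1, hm⟩ := mol_exp (Mo.mol (by norm_num) hT)
  obtain ⟨K, hK, hM⟩ := hM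
  obtain ⟨e, he, he', heK⟩ : ∃ e : ℝ, 0 < e ∧ e ≤ 1 / 40 ∧ e ≤ 1 / (4 * K) :=
    ⟨min (1 / 40) (1 / (4 * K)), by positivity, min_le_left _ _, min_le_right _ _⟩
  obtain ⟨d0, A2, hd0, hA2, hz⟩ := zeta_sums he he'
  obtain ⟨d1, hd1, d1a, d1b, d1c, d1d⟩ :
      ∃ d1 : ℝ, 0 < d1 ∧ d1 ≤ 1 / 40 ∧ d1 ≤ d0 ∧ d1 ≤ ε1 ∧ d1 ≤ ε2 :=
    ⟨min (min (1 / 40) d0) (min ε1 ε2), by positivity, (min_le_left _ _).trans (min_le_left _ _),
      (min_le_left _ _).trans (min_le_right _ _), (min_le_right _ _).trans (min_le_left _ _),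
      (min_le_right _ _).trans (min_le_right _ _)⟩
  obtain ⟨ε, hε, εa, εb, εc⟩ : ∃ ε : ℝ, 0 < ε ∧ ε ≤ te - 1 + th ∧ ε ≤ th * η1 ∧ ε ≤ th * η2 :=
    ⟨min (te - 1 + th) (min (th * η1) (th * η2)), lt_min (by linarith) (by positivity),
      min_le_left _ _, (min_le_right _ _).trans (min_le_left _ _),
      (min_le_right _ _).trans (min_le_right _ _)⟩
  obtain ⟨η, c, C, X0, hη, hηε, hηc, hC1, hM⟩ := hM d1 hd1 d1a ε hε
  obtain ⟨A, hA, hAa, hAb⟩ : ∃ A : ℝ, 1 ≤ A ∧ A1 ≤ A ∧ A2 ≤ A :=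
    ⟨max A1 A2, hA1.trans (le_max_left _ _), le_max_left _ _, le_max_right _ _⟩
  have hc : 0 < c := lt_of_lt_of_le (by positivity) hηc
  have hc' : 0 < c / (2 * th) := by positivity
  have hec : 2 * (η * e) ≤ c / 2 := by
    have : η * e ≤ η * (1 / (4 * K)) := mul_le_mul_of_nonneg_left heK hη.le
    have e2 : η * (1 / (4 * K)) = η / K / 4 := by field_simp
    linarith
  obtain ⟨s1, hs1, hB⟩ := caseB (CD := CD) (K := 18 * A ^ 2) hC1 hA hc'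
  obtain ⟨K', hK', hCc⟩ := caseC (K := 18 * A ^ 2) (η := η / th) hC1 hA hc' hL
    (lt_min hs0 hs1) hd1 (by positivity) hE
  have tP : Tendsto (fun X : ℝ => X ^ th) atTop atTop := tendsto_rpow_atTop h0
  have hLt : 0 < 1 - L * th := by
    have := (lt_div_iff₀ h0).1 hL'
    linarith
  refine ⟨1 + 5 / 4 * K', ?_⟩
  filter_upwards [tP.eventually hB, tP.eventually hCc, tP.eventually_ge_atTop P1,
    tP.eventually_ge_atTop P2, eventually_ge_atTop X0, eventually_ge_atTop 1,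
    (Real.tendsto_log_atTop.const_mul_atTop hLt).eventually_ge_atTop (Real.log 4)]
    with X hB hCc hP1 hP2 hX0 hX hlog
  have hXp : 0 < X := by linarith
  have hP : 1 ≤ X ^ th := Real.one_le_rpow hX h0.le
  have hlP : 0 ≤ Real.log (X ^ th) := Real.log_nonneg hP
  obtain ⟨E, hEc, hM⟩ := hM X hX0
  obtain ⟨ι, _, χ, ρ, hF⟩ := exists_full (Q := (⌊X ^ th⌋₊).factorial)
    (fun ξ z => cd ξ ≤ X ^ th ∧ 1 - d1 ≤ z.re ∧ |z.im| ≤ X ^ η) (1 - d1) (X ^ η)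
    fun ξ z h => h.2
  have hS := hF.sub
  have key : ∀ a b : ℝ, d1 ≤ a → ε ≤ th * b → ∀ j, cd (χ j) ≤ X ^ th ∧
      lam (X ^ th) (ρ j) ≤ a * Real.log (X ^ th) ∧ |(ρ j).im| ≤ (X ^ th) ^ b := by
    intro a b ha hb j
    obtain ⟨u1, u2, u3⟩ := hF.1 j
    refine ⟨u1, mul_le_mul_of_nonneg_right (by linarith) hlP, u3.trans ?_⟩
    rw [← Real.rpow_mul hXp.le]
    exact Real.rpow_le_rpow_of_exponent_le hX (by linarith)
  have hm := hm _ hP2 _ ι χ ρ hS (key _ _ d1d εc)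
  have hD := hD _ hP1 _ ι χ ρ hS (key _ _ d1c εb)
  obtain ⟨hz1, hz2⟩ := hz _ ι χ ρ hS fun j => by linarith [(hF.1 j).2.1]
  have hBig : Big χ ρ (fun i => lam (X ^ th) (ρ i)) (X ^ th) A :=
    ⟨hS.lam_nonneg hP, fun S h => (hm S h).1.trans hAa, fun S h h' => ((hm S h).2 h').trans hAa,
      hz1.trans hAb⟩
  have hT1 : 1 ≤ X ^ η := Real.one_le_rpow hX hη.le
  have hcard : ((PP χ).card : ℝ) ≤ A * (X ^ η) ^ e :=
    (hz2 _ hT1 fun j => (hF.1 j).2.2).trans (by gcongr)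
  have h3 := as5_third hX h0 hA hη.le he.le hec
    (Finset.sum_nonneg fun i _ => (yw_pos L (fun i => lam (X ^ th) (ρ i)) i).le)
    (as5_sum hBig hL hcard)
  have main : ∀ m : ℕ, Even m → X ≤ m → (m : ℝ) ≤ 5 / 4 * X → m ∉ E →
      T2 C m χ ρ (yw L fun i => lam (X ^ th) (ρ i)) univ +
        T1 C χ ρ (yw L fun i => lam (X ^ th) (ρ i)) univ +
          18 * A ^ 2 * (X ^ th) ^ (-(c / (2 * th))) < 1 → Gb m := by
    intro m m1 m2 m3 m4 m5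
    by_contra hG
    have a1 := hM ι χ ρ hF m m1 m2 m3 m4 hG
    have a2 := as5_cmp (χ := χ) (ρ := ρ) (C := C) (u := 2 * X ^ (-c)) (by linarith) (by positivity) m
      (x := fun i => (X / 4) ^ ((ρ i).re - 1)) (y := yw L fun i => lam (X ^ th) (ρ i))
      (fun i => by positivity) fun i => as5_x hXp hlog (hS.re_lt_one i).le
    linarith
  have hE1 : (E.card : ℝ) ≤ X ^ te :=
    hEc.trans (Real.rpow_le_rpow_of_exponent_le hX (by linarith))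
  have hXte : 0 < X ^ te := Real.rpow_pos_of_pos hXp _
  by_cases hex : ∃ i, lam (X ^ th) (ρ i) ≤ min s0 s1
  · obtain ⟨i, hi⟩ := hex
    obtain ⟨b1, b2, b3, b4⟩ := hD i (hi.trans (min_le_left _ _))
    refine ⟨E, by nlinarith [mul_nonneg hK' hXte.le], fun m m1 m2 m3 m4 => main m m1 m2 m3 m4 ?_⟩
    exact hB L hL _ ι χ ρ hS hBig i (hF.1 i).1 (hi.trans (min_le_right _ _)) b1 b2 b3 b4 m
  · push Not at hex
    obtain ⟨E', c1, c2⟩ := hCc _ ι χ ρ (X ^ η)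
      (by rw [← Real.rpow_mul hXp.le, mul_div_cancel₀ _ h0.ne']) hF hBig (fun i => (hex i).le)
      (5 / 4 * X) (by positivity)
    refine ⟨E ∪ E', ?_, fun m m1 m2 m3 m4 => ?_⟩
    · have u1 : ((E ∪ E').card : ℝ) ≤ E.card + E'.card := by exact_mod_cast card_union_le _ _
      have u2 : X / X ^ th ≤ X ^ te := by
        rw [← Real.rpow_one X, ← Real.rpow_mul hXp.le, ← Real.rpow_sub hXp, Real.rpow_one]
        exact Real.rpow_le_rpow_of_exponent_le hX (by linarith)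
      have u3 : K' * (5 / 4 * X) / X ^ th = 5 / 4 * K' * (X / X ^ th) := by ring
      have u4 : 5 / 4 * K' * (X / X ^ th) ≤ 5 / 4 * K' * X ^ te := by gcongr
      linarith
    · rw [mem_union, not_or] at m4
      exact main m m1 m2 m3 m4.1 (c2 m (by exact_mod_cast hX.trans m2) m3 m4.2)

/-- The exceptional set is small if the modules hold. -/
theorem final2 {th L te : ℝ} (h0 : 0 < th) (h1 : th < 1) (hL : 21 / 10 ≤ L) (hL' : L < 1 / th)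
    (hte : 1 - th < te) (hT : TB (1 / 3)) (hD : DH4 (1 / 3)) (hM : MA th) (hE : FIN L) :
    EXC te := by
  obtain ⟨K, h⟩ := as5_local h0 hL hL' hte hT hD hM hE
  obtain ⟨X0, h⟩ := eventually_atTop.1 h
  refine VA.exc_of_local Gb (C := K * 4 ^ te) (N0 := max X0 1) (by linarith) fun N hN => ?_
  have n1 : 1 ≤ N := (le_max_right _ _).trans hN
  have n2 : X0 ≤ N := (le_max_left _ _).trans hN
  obtain ⟨E, e1, e2⟩ := h (4 * N) (by linarith)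
  refine ⟨E, ?_, fun m m1 m2 m3 m4 => e2 m m1 m2 (by linarith) m4⟩
  rwa [Real.mul_rpow (by norm_num) (by linarith), ← mul_assoc] at e1

end Pool.Agent.Lib.MP_778b46_nt.GX.P4
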