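import Pool.Agent.Lib.MP_778b46_nt.GX.Cs2
import Pool.Agent.Lib.MP_778b46_nt.GX.As10
import Pool.Agent.Lib.MP_778b46_nt.GX.As11

set_option autoImplicit false

namespace Pool.Agent.Lib.MP_778b46_nt.GX.P4

/-- What is left: the circle method and the bound for the pairs of zeros. -/
theorem exc_of_fin {L te : ℝ} (hL : 21 / 10 ≤ L) (hte : 1 - 1 / L < te)
    (hM : ∀ ϑ : ℝ, 0 < ϑ → ϑ < 1 / L → MA ϑ) (hE : FIN L) : EXC te := by
  have L0 : 0 < L := by linarith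
  have h1 : 1 / L ≤ 10 / 21 := by rw [div_le_iff₀ L0]; linarith
  obtain ⟨th, a1, a2⟩ := exists_between (max_lt (one_div_pos.2 L0) (by linarith : 1 - te < 1 / L))
  have b1 : 0 < th := (le_max_left _ _).trans_lt a1
  have b2 : 1 - te < th := (le_max_right _ _).trans_lt a1
  exact final2 b1 (by linarith) hL ((lt_one_div L0 b1).2 a2) (by linarith) tb_third
    (dh4 (by norm_num) (by norm_num) tb_third zfs) (hM th b1 a2) hE

/-- The final statement from the circle method below `1 / L` and the numerical part at `L`. -/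
theorem exc_finalL {L φ φ1 : ℝ} (hL : 21 / 10 ≤ L) (hM : ∀ ϑ : ℝ, 0 < ϑ → ϑ < 1 / L → MA ϑ)
    (hφ : 1 / 3 < φ) (hφ1 : 1 / 4 < φ1) (h : CERT3 L φ φ1) {te : ℝ} (hte : 1 - 1 / L < te) :
    ∃ C : ℝ, ∀ X : ℕ, 1 ≤ X →
      (Set.ncard {n : ℕ | 1 ≤ n ∧ n ≤ X ∧ ¬ ∃ x y : ℕ, 0 < x ∧ 0 < y ∧
        Nat.nth Nat.Prime (x - 1) ≠ Nat.nth Nat.Prime (y - 1) ∧
        Nat.nth Nat.Prime (x - 1) + Nat.nth Nat.Prime (y - 1) = 2 * n} : ℝ) ≤
          C * (X : ℝ) ^ te :=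
  exc_count_nth (exc_of_fin hL hte hM (fin_of_cert3 hφ hφ1 h))

end Pool.Agent.Lib.MP_778b46_nt.GX.P4
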