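import Pool.Agent.Lib.MP_778b46_nt.GX.Defs

/- The interface of the circle method and the final statement. -/

namespace Pool.Agent.Lib.MP_778b46_nt.GX

open Finset

/-- `lcm (r₁, r₂) / gcd (lcm (r₁, r₂), m)`. -/
noncomputable def gg {Q : ℕ} (χ ψ : DC Q) (m : ℕ) : ℕ :=
  Nat.lcm χ.conductor ψ.conductor / Nat.gcd (Nat.lcm χ.conductor ψ.conductor) m

open Classical in
/-- Weight of a pair of zeros. -/
noncomputable def wt {Q : ℕ} (C : ℝ) (m : ℕ) (χ ψ : DC Q) (z z' : ℂ) : ℝ :=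
  if (χ * ψ).conductor ∣ gg χ ψ m then
    min 1 (C * (gg χ ψ m : ℝ) ^ (-(1 / 3) : ℝ)) *
      min 1 (C * (1 + max |z.im| |z'.im|) ^ (-(1 / 2) : ℝ))
  else 0

/-- Weight of a zero paired with the pole. -/
noncomputable def wt0 {Q : ℕ} (C : ℝ) (χ : DC Q) (z : ℂ) : ℝ :=
  C * cd χ ^ (-(1 / 3) : ℝ) * (1 + |z.im|) ^ (-(1 / 2) : ℝ)

/-- `m` is a sum of two different primes. -/
def Gb (m : ℕ) : Prop := ∃ p q : ℕ, p.Prime ∧ q.Prime ∧ p ≠ q ∧ p + q = m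

/-- Circle method: outside a small set, an even `m` which is not a sum of two different primes
forces many zeros near the line of real part one. -/
def MA (ϑ : ℝ) : Prop :=
  ∃ K : ℝ, 0 < K ∧ ∀ d1 : ℝ, 0 < d1 → d1 ≤ 1 / 40 → ∀ ε : ℝ, 0 < ε →
    ∃ η c C X0 : ℝ, 0 < η ∧ η ≤ ε ∧ η / K ≤ c ∧ 1 ≤ C ∧ ∀ X : ℝ, X0 ≤ X → ∃ E : Finset ℕ, (E.card : ℝ) ≤ X ^ (1 - ϑ + ε) ∧
      ∀ (ι : Type) [Fintype ι] (χ : ι → DC (⌊X ^ ϑ⌋₊).factorial) (ρ : ι → ℂ),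
        Full (fun ξ z => cd ξ ≤ X ^ ϑ ∧ 1 - d1 ≤ z.re ∧ |z.im| ≤ X ^ η) χ ρ →
        ∀ m : ℕ, Even m → X ≤ m → (m : ℝ) ≤ 5 / 4 * X → m ∉ E → ¬ Gb m →
          1 ≤ ∑ i, ∑ j, wt C m (χ i) (χ j) (ρ i) (ρ j) *
                ((X / 4) ^ ((ρ i).re - 1) * (X / 4) ^ ((ρ j).re - 1)) +
              ∑ i, wt0 C (χ i) (ρ i) * (X / 4) ^ ((ρ i).re - 1) +
              2 * X ^ (-c) * (1 + ∑ i, (X / 4) ^ ((ρ i).re - 1)) ^ 2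

open Classical in
/-- The exceptional set has at most `C X ^ θ` elements up to `X`. -/
def EXC (θ : ℝ) : Prop :=
  ∃ C : ℝ, ∀ X : ℕ, 1 ≤ X →
    (((Icc 1 X).filter fun m => Even m ∧ ¬ Gb m).card : ℝ) ≤ C * (X : ℝ) ^ θ

end Pool.Agent.Lib.MP_778b46_nt.GX
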