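import Pool.Agent.Lib.MP_778b46_nt.GX.Basic
import Pool.Agent.Lib.MP_2a1a00_nt.V.Ga
import Pool.Agent.Lib.MP_e97e2b_nt.Ln.K1

/- The triangle smoothed by a Gaussian: the kernel of the explicit formula with a large tilt. -/

namespace Pool.Agent.Lib.MP_778b46_nt.GX.Dh

open Complex MeasureTheory Set
open Pool.Agent.Lib.MP_e97e2b_nt.Ln (VV VV_closed)
open Pool.Agent.Lib.MP_2a1a00_nt

/-- Two sided Laplace transform of the triangle. -/
noncomputable def G0 (T : ℝ) (z : ℂ) : ℂ := VV T z * VV T (-z)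

/-- The kernel. -/
noncomputable def W (T S : ℝ) (z : ℂ) : ℂ := G0 T z * gW S z

/-- The smoothed triangle. -/
noncomputable def gg (T S t : ℝ) : ℝ := ∫ u in (0 : ℝ)..T, ∫ v in (0 : ℝ)..T, ph S (u - t - v)

/-- One sided transform of the smoothed triangle, as an integral over the line `re = c`. -/
noncomputable def Ph (T S c : ℝ) (ζ : ℂ) : ℂ := Ln (fun z => W T S z / (z - ζ)) c

variable {T S : ℝ}

theorem VV_diff (T : ℝ) : Differentiable ℂ (VV T) := by
  have e : VV T = dslope (fun z : ℂ => exp (z * T)) 0 := by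
    funext z
    rcases eq_or_ne z 0 with rfl | hz
    · rw [dslope_same]
      have h : HasDerivAt (fun z : ℂ => exp (z * T)) (exp (0 * T) * (1 * T)) 0 :=
        ((hasDerivAt_id (0 : ℂ)).mul_const (T : ℂ)).cexp
      rw [h.deriv]
      simp [VV]
    · rw [VV_closed _ hz, dslope_of_ne _ hz, slope_def_field]
      simp
  rw [e, ← differentiableOn_univ, differentiableOn_dslope Filter.univ_mem]
  fun_prop

theorem G0_diff (T : ℝ) : Differentiable ℂ (G0 T) :=
  (VV_diff T).mul ((VV_diff T).comp differentiable_neg)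

theorem W_diff (T S : ℝ) : Differentiable ℂ (W T S) := (G0_diff T).mul (differentiable_gW S)

theorem W_neg (T S : ℝ) (z : ℂ) : W T S (-z) = W T S z := by
  simp only [W, G0, gW, neg_neg, neg_div, neg_sq]
  ring

theorem W_zero (T S : ℝ) : W T S 0 = (T : ℂ) ^ 2 := by
  simp [W, G0, gW, VV, sq]

theorem norm_VV_le (hT : 0 ≤ T) (z : ℂ) : ‖VV T z‖ ≤ T * Real.exp (T * max z.re 0) := by
  have h := intervalIntegral.norm_integral_le_of_norm_le_const (a := 0) (b := T)
    (f := fun t : ℝ => exp (z * t)) (C := Real.exp (T * max z.re 0)) fun t ht => by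
      rw [uIoc_of_le hT] at ht
      rw [norm_exp, Real.exp_le_exp]
      simp only [mul_re, ofReal_re, ofReal_im, mul_zero, sub_zero]
      have h1 := le_max_left z.re 0
      have h2 := le_max_right z.re 0
      nlinarith [ht.1, ht.2]
  rw [sub_zero, abs_of_nonneg hT, mul_comm] at h
  exact h

theorem norm_G0_le (hT : 0 ≤ T) (z : ℂ) :
    ‖G0 T z‖ ≤ (T ^ 2 + 4) * Real.exp (T * |z.re|) / (1 + z.im ^ 2) := by
  have h1 : ‖G0 T z‖ ≤ T ^ 2 * Real.exp (T * |z.re|) := by
    rw [G0, norm_mul]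
    refine (mul_le_mul (norm_VV_le hT z) (norm_VV_le hT (-z)) (norm_nonneg _)
      (by positivity)).trans (le_of_eq ?_)
    have e : T * |z.re| = T * max z.re 0 + T * max (-z).re 0 := by
      rw [neg_re, ← mul_add]
      congr 1
      rcases le_total 0 z.re with h | h
      · rw [abs_of_nonneg h, max_eq_left h, max_eq_right (by linarith), add_zero]
      · rw [abs_of_nonpos h, max_eq_right h, max_eq_left (by linarith), zero_add]
    rw [e, Real.exp_add]
    ring
  have h2 : ‖G0 T z‖ * z.im ^ 2 ≤ 4 * Real.exp (T * |z.re|) := by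
    rcases eq_or_ne z 0 with rfl | hz
    · simp only [zero_im]
      have := Real.exp_pos (T * |(0 : ℂ).re|)
      nlinarith
    · have e : G0 T z * z ^ 2 = exp (z * T) + exp (-z * T) - 2 := by
        have e1 : exp (z * T) * exp (-z * T) = 1 := by
          rw [← exp_add]
          simp
        rw [G0, VV_closed _ hz, VV_closed _ (neg_ne_zero.2 hz)]
        generalize exp (-z * T) = B at e1 ⊢
        field_simp
        linear_combination (-1 : ℂ) * e1
      have h3 : z.im ^ 2 ≤ ‖z‖ ^ 2 := by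
        rw [← sq_abs z.im]
        exact pow_le_pow_left₀ (abs_nonneg _) (abs_im_le_norm z) 2
      have h4 : ‖G0 T z‖ * ‖z‖ ^ 2 ≤ 4 * Real.exp (T * |z.re|) := by
        rw [← norm_pow, ← norm_mul, e]
        have a1 : ‖exp (z * T)‖ ≤ Real.exp (T * |z.re|) := by
          rw [norm_exp, Real.exp_le_exp]
          simp only [mul_re, ofReal_re, ofReal_im, mul_zero, sub_zero]
          nlinarith [le_abs_self z.re]
        have a2 : ‖exp (-z * T)‖ ≤ Real.exp (T * |z.re|) := by
          rw [norm_exp, Real.exp_le_exp]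
          simp only [mul_re, neg_re, neg_im, ofReal_re, ofReal_im, mul_zero, sub_zero]
          nlinarith [neg_abs_le z.re]
        have a3 : (1 : ℝ) ≤ Real.exp (T * |z.re|) := Real.one_le_exp (by positivity)
        have a4 := norm_sub_le (exp (z * T) + exp (-z * T)) 2
        have a5 := norm_add_le (exp (z * T)) (exp (-z * T))
        have a6 : ‖(2 : ℂ)‖ = 2 := by simp
        linarith
      exact (mul_le_mul_of_nonneg_left h3 (norm_nonneg _)).trans h4
  rw [le_div_iff₀ (by positivity)]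
  linarith

theorem norm_W_le (hT : 0 ≤ T) (hS : 0 < S) (z : ℂ) : ‖W T S z‖ ≤
    (T ^ 2 + 4) * Real.exp (T * |z.re| + (z.re ^ 2 - z.im ^ 2) / S ^ 2) / (1 + z.im ^ 2) := by
  rw [W, norm_mul, norm_gW hS, Real.exp_add]
  refine (mul_le_mul_of_nonneg_right (norm_G0_le hT z) (Real.exp_pos _).le).trans (le_of_eq ?_)
  ring

theorem dec_W (hT : 0 ≤ T) (hS : 0 < S) {h : ℂ → ℂ} {a b C : ℝ}
    (hd : DifferentiableOn ℂ h (St a b)) (hC : ∀ s ∈ St a b, ‖h s‖ ≤ C) :
    Dec (fun z => W T S z * h z) a b := by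
  have e : (fun z => W T S z * h z) = fun z => (G0 T z * h z) * gW S z := by
    funext z
    rw [W]
    ring
  rw [e]
  refine dec_gW (C := (T ^ 2 + 4) * Real.exp (T * (|a| + |b|)) * C) (K := 0) hS
    ((G0_diff T).differentiableOn.mul hd) fun s hs => ?_
  rw [Real.rpow_zero, mul_one, norm_mul]
  refine mul_le_mul ((norm_G0_le hT s).trans ?_) (hC s hs) (norm_nonneg _) (by positivity)
  refine (div_le_self (by positivity) (by nlinarith [sq_nonneg s.im])).trans ?_
  have h1 : |s.re| ≤ |a| + |b| := by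
    rw [abs_le]
    constructor <;> linarith [hs.1, hs.2, neg_abs_le a, le_abs_self b, abs_nonneg a, abs_nonneg b]
  gcongr

theorem dec_W0 (hT : 0 ≤ T) (hS : 0 < S) (a b : ℝ) : Dec (W T S) a b := by
  simpa using dec_W hT hS (h := fun _ => 1) (a := a) (b := b) (C := 1) (by fun_prop) (by simp)

theorem int_W (hT : 0 ≤ T) (hS : 0 < S) (c : ℝ) : Integrable fun v : ℝ => W T S (c + v * I) :=
  (dec_W0 hT hS c c).integrable le_rfl le_rfl

theorem dec_div (hT : 0 ≤ T) (hS : 0 < S) {a b : ℝ} {ζ : ℂ} (h : ζ.re < a) :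
    Dec (fun z => W T S z / (z - ζ)) a b := by
  have h1 : ∀ s ∈ St a b, a - ζ.re ≤ ‖s - ζ‖ := fun s hs => by
    have := re_le_norm (s - ζ)
    rw [sub_re] at this
    linarith [hs.1]
  simp only [div_eq_mul_inv]
  refine dec_W hT hS (C := (a - ζ.re)⁻¹) (DifferentiableOn.inv (by fun_prop) fun s hs =>
    norm_pos_iff.1 (by linarith [h1 s hs])) fun s hs => ?_
  rw [norm_inv]
  exact inv_anti₀ (by linarith) (h1 s hs)

theorem Ph_shift (hT : 0 ≤ T) (hS : 0 < S) {a b : ℝ} {ζ : ℂ} (h : ζ.re < a) (hab : a ≤ b) :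
    Ph T S a ζ = Ph T S b ζ := (dec_div hT hS h).shift hab

theorem Ph_zero (hT : 0 ≤ T) (hS : 0 < S) : (Ph T S 1 0).re = T ^ 2 / 2 := by
  have h1 := (dec_W0 hT hS (-1) 1).simple (by norm_num) (by norm_num)
  have h2 := Ln_neg (fun s => W T S s / s) 1
  have h3 : Ln (fun s => W T S (-s) / -s) 1 = -1 * Ln (fun s => W T S s / s) 1 := by
    rw [← Ln_const_mul]
    exact Ln_congr fun v => by rw [W_neg, div_neg, neg_one_mul]
  have h4 : Ph T S 1 0 = ((T ^ 2 / 2 : ℝ) : ℂ) := by
    rw [W_zero, ← h2, h3] at h1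
    simp only [Ph, sub_zero]
    push_cast
    linear_combination h1 / 2
  rw [h4, ofReal_re]

theorem W_im (T S v : ℝ) : ∃ r : ℝ, 0 ≤ r ∧ W T S (v * I) = r := by
  have e : VV T (-(v * I)) = starRingEnd ℂ (VV T (v * I)) := by
    have h := MP_e97e2b_nt.Ln.Lap_conj (fun _ => 1) T (v * I)
    simpa [MP_e97e2b_nt.Ln.Lap, VV] using h
  have e2 : gW S (v * I) = ((Real.exp (-(v / S) ^ 2) : ℝ) : ℂ) := by
    rw [gW, ofReal_exp]
    congr 1
    push_cast
    linear_combination ((v : ℂ) ^ 2 / S ^ 2) * I_mul_I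
  refine ⟨normSq (VV T (v * I)) * Real.exp (-(v / S) ^ 2),
    mul_nonneg (normSq_nonneg _) (Real.exp_pos _).le, ?_⟩
  rw [W, G0, e, mul_conj, e2, ofReal_mul]

theorem Ph_nonneg (hT : 0 ≤ T) (hS : 0 < S) {c : ℝ} (hc : 0 ≤ c) {ζ : ℂ} (h : ζ.re < 0) :
    0 ≤ (Ph T S c ζ).re := by
  rw [← Ph_shift hT hS h hc, Ph, Ln, re_ofReal_mul]
  refine mul_nonneg (by positivity) ?_
  have hi := (dec_div (b := 0) hT hS h).integrable le_rfl le_rfl
  have e := integral_re hi
  simp only [RCLike.re_to_complex] at e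
  rw [← e]
  refine integral_nonneg fun v => ?_
  obtain ⟨r, hr, e1⟩ := W_im T S v
  simp only [ofReal_zero, zero_add, e1, div_eq_mul_inv, re_ofReal_mul, inv_re, Pi.zero_apply]
  refine mul_nonneg hr (mul_nonneg ?_ (inv_nonneg.2 (normSq_nonneg _)))
  simp
  linarith

theorem int_inv (A : ℝ) (hA : 0 ≤ A) : ∫ v : ℝ, A * (1 + v ^ 2)⁻¹ ≤ 4 * A := by
  rw [integral_const_mul, integral_univ_inv_one_add_sq]
  nlinarith [Real.pi_lt_four]

/-- The constant in the bounds on the line `re = c`. -/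
noncomputable def KK (T S c : ℝ) : ℝ := 4 * ((T ^ 2 + 4) * Real.exp (T * c + c ^ 2 / S ^ 2))

theorem KK_pos (T S c : ℝ) : 0 < KK T S c := by
  unfold KK
  positivity

theorem norm_W_line (hT : 0 ≤ T) (hS : 0 < S) {c : ℝ} (hc : 0 ≤ c) (v : ℝ) :
    ‖W T S (c + v * I)‖ ≤
      (T ^ 2 + 4) * Real.exp (T * c + (c ^ 2 - v ^ 2) / S ^ 2) * (1 + v ^ 2)⁻¹ := by
  have h := norm_W_le hT hS (c + v * I)
  simpa [abs_of_nonneg hc, div_eq_mul_inv] using h

theorem Ph_lip (hT : 0 ≤ T) (hS : 0 < S) {c : ℝ} (hc : 0 ≤ c) {ζ ζ' : ℂ} (h : ζ.re + 1 ≤ c)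
    (h' : ζ'.re + 1 ≤ c) : ‖Ph T S c ζ - Ph T S c ζ'‖ ≤ KK T S c * ‖ζ - ζ'‖ := by
  have h1 : ∀ w : ℂ, w.re + 1 ≤ c → ∀ v : ℝ, 1 ≤ ‖(c + v * I : ℂ) - w‖ := fun w hw v => by
    have := re_le_norm ((c + v * I : ℂ) - w)
    simp at this
    linarith
  rw [Ph, Ph, ← Ln_sub ((dec_div (b := c) hT hS (by linarith)).integrable le_rfl le_rfl)
    ((dec_div (b := c) hT hS (by linarith)).integrable le_rfl le_rfl)]
  refine (norm_Ln_le 0 (k := fun v => ((T ^ 2 + 4) * Real.exp (T * c + c ^ 2 / S ^ 2) * ‖ζ - ζ'‖) *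
    (1 + v ^ 2)⁻¹) (integrable_inv_one_add_sq.const_mul _) fun v => ?_).trans
    ((int_inv _ (by positivity)).trans (le_of_eq (by rw [KK]; ring)))
  rw [zero_add]
  have a1 := h1 ζ h v
  have a2 := h1 ζ' h' v
  have n1 : (c + v * I : ℂ) - ζ ≠ 0 := norm_pos_iff.1 (by linarith)
  have n2 : (c + v * I : ℂ) - ζ' ≠ 0 := norm_pos_iff.1 (by linarith)
  have e : W T S (c + v * I) / (c + v * I - ζ) - W T S (c + v * I) / (c + v * I - ζ') =
      W T S (c + v * I) * (ζ - ζ') / ((c + v * I - ζ) * (c + v * I - ζ')) := by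
    field_simp
    ring
  rw [e, norm_div, norm_mul, norm_mul]
  refine (div_le_self (by positivity) (by nlinarith)).trans ?_
  have a3 := norm_W_line hT hS hc v
  have a4 : Real.exp (T * c + (c ^ 2 - v ^ 2) / S ^ 2) ≤ Real.exp (T * c + c ^ 2 / S ^ 2) := by
    gcongr
    nlinarith [sq_nonneg v]
  calc ‖W T S (c + v * I)‖ * ‖ζ - ζ'‖ ≤
        (T ^ 2 + 4) * Real.exp (T * c + c ^ 2 / S ^ 2) * (1 + v ^ 2)⁻¹ * ‖ζ - ζ'‖ := by
        refine mul_le_mul_of_nonneg_right (a3.trans ?_) (norm_nonneg _)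
        gcongr
    _ = _ := by ring

/-- Interchange of the line integral with an integral of exponentials. -/
theorem Ln_swap (hT : 0 ≤ T) (G : ℂ → ℂ) (c e : ℝ) (he : |e| ≤ 1) (hG : Continuous G)
    (hi : Integrable fun v : ℝ => G (c + v * I)) :
    Ln (fun z => VV T (e * z) * G z) c =
      ∫ u in (0 : ℝ)..T, Ln (fun z => exp (z * (e * u : ℝ)) * G z) c := by
  unfold Ln
  rw [intervalIntegral.integral_const_mul]
  congr 1
  have e1 : ∀ v : ℝ, VV T (e * (c + v * I)) * G (c + v * I) =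
      ∫ u in Ioc (0 : ℝ) T, exp ((c + v * I) * (e * u : ℝ)) * G (c + v * I) := fun v => by
    rw [VV, intervalIntegral.integral_of_le hT, ← integral_mul_const]
    congr 1
    funext u
    congr 2
    push_cast
    ring
  simp only [e1]
  rw [intervalIntegral.integral_of_le hT]
  refine integral_integral_swap ?_
  have h2 : Integrable (fun _ : ℝ => Real.exp (|c| * T)) (volume.restrict (Ioc (0 : ℝ) T)) :=
    integrable_const _
  refine (hi.norm.mul_prod h2).mono' ?_ ?_
  · exact (by fun_prop : Continuous (Function.uncurry fun (v : ℝ) (u : ℝ) =>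
      exp ((c + v * I) * (e * u : ℝ)) * G (c + v * I))).aestronglyMeasurable
  · have h3 : ∀ᵐ p : ℝ × ℝ ∂(volume.prod (volume.restrict (Ioc (0 : ℝ) T))), p.2 ∈ Ioc (0 : ℝ) T :=
      Measure.quasiMeasurePreserving_snd.ae (ae_restrict_mem measurableSet_Ioc)
    filter_upwards [h3] with p hp
    simp only [Function.uncurry, norm_mul, norm_exp]
    rw [mul_comm]
    refine mul_le_mul_of_nonneg_left (Real.exp_le_exp.2 ?_) (norm_nonneg _)
    simp only [mul_re, add_re, ofReal_re, ofReal_im, I_re, I_im, mul_zero, sub_zero, mul_one,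
      add_zero, sub_self]
    have a1 : |c * (e * p.2)| ≤ |c| * T := by
      rw [abs_mul, abs_mul, abs_of_pos hp.1]
      refine mul_le_mul_of_nonneg_left ?_ (abs_nonneg c)
      nlinarith [hp.1, hp.2]
    exact (le_abs_self _).trans a1

theorem Ln_gg (hT : 0 ≤ T) (hS : 0 < S) (c t : ℝ) :
    Ln (fun z => exp (z * (-t : ℝ)) * W T S z) c = (gg T S t : ℝ) := by
  have hd : ∀ (x : ℝ) (h : ℂ → ℂ) (C : ℝ), Differentiable ℂ h → (∀ s ∈ St c c, ‖h s‖ ≤ C) →
      Integrable fun v : ℝ => h (c + v * I) * (exp ((c + v * I) * x) * gW S (c + v * I)) := by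
    intro x h C h1 h2
    have h3 := dec_gW (g := fun z => h z * exp (z * x)) (a := c) (b := c)
      (C := C * Real.exp (c * x)) (K := 0) hS (h1.mul (by fun_prop)).differentiableOn fun s hs => by
        have e : s.re = c := le_antisymm hs.2 hs.1
        rw [Real.rpow_zero, mul_one, norm_mul, norm_exp]
        simp only [mul_re, ofReal_re, ofReal_im, mul_zero, sub_zero, e]
        exact mul_le_mul_of_nonneg_right (h2 s hs) (Real.exp_pos _).le
    simpa only [mul_assoc] using h3.integrable le_rfl le_rfl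
  have hcg := (differentiable_gW S).continuous
  have hcv := (VV_diff T).continuous
  have h1 := Ln_swap hT (fun z => VV T (-z) * (exp (z * (-t : ℝ)) * gW S z)) c 1 (by simp)
    (by fun_prop) (hd (-t) (fun z => VV T (-z)) (T * Real.exp (T * max (-c) 0))
      ((VV_diff T).comp differentiable_neg) fun s hs => by
        have e : s.re = c := le_antisymm hs.2 hs.1
        simpa [e] using norm_VV_le hT (-s))
  have h2 : ∀ u : ℝ, Ln (fun z => exp (z * (1 * u : ℝ)) *
      (VV T (-z) * (exp (z * (-t : ℝ)) * gW S z))) c =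
        ((∫ v in (0 : ℝ)..T, ph S (u - t - v) : ℝ) : ℂ) := fun u => by
    have h3 := Ln_swap hT (fun z => exp (z * (u - t : ℝ)) * gW S z) c (-1) (by simp) (by fun_prop)
      (by simpa using hd (u - t) (fun _ => 1) 1 (by fun_prop) (by simp))
    have h4 : ∀ v : ℝ, Ln (fun z => exp (z * (-1 * v : ℝ)) * (exp (z * (u - t : ℝ)) * gW S z)) c =
        (ph S (u - t - v) : ℝ) := fun v => by
      rw [← Ln_ph hS (u - t - v) c]
      refine Ln_congr fun y => ?_
      rw [← mul_assoc, ← exp_add]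
      congr 2
      push_cast
      ring
    simp only [h4] at h3
    rw [← intervalIntegral.integral_ofReal, ← h3]
    refine Ln_congr fun y => ?_
    have e : exp ((c + y * I) * (u - t : ℝ)) =
        exp ((c + y * I) * (1 * u : ℝ)) * exp ((c + y * I) * (-t : ℝ)) := by
      rw [← exp_add]
      congr 1
      push_cast
      ring
    rw [e, show ((-1 : ℝ) : ℂ) * (c + y * I) = -(c + y * I) by push_cast; ring]
    ring
  simp only [h2] at h1
  rw [gg, ← intervalIntegral.integral_ofReal, ← h1]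
  refine Ln_congr fun y => ?_
  rw [W, G0, ofReal_one, one_mul]
  ring

theorem gg_nonneg (hT : 0 ≤ T) (hS : 0 < S) (t : ℝ) : 0 ≤ gg T S t :=
  intervalIntegral.integral_nonneg hT fun _ _ =>
    intervalIntegral.integral_nonneg hT fun _ _ => (ph_pos hS _).le

theorem gg_le (hT : 0 ≤ T) (hS : 0 < S) (t : ℝ) : gg T S t ≤ T := by
  have h := intervalIntegral.norm_integral_le_of_norm_le_const (a := 0) (b := T) (C := 1)
    (f := fun u : ℝ => ∫ v in (0 : ℝ)..T, ph S (u - t - v)) fun u _ => by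
      rw [Real.norm_of_nonneg (intervalIntegral.integral_nonneg hT fun _ _ => (ph_pos hS _).le),
        intervalIntegral.integral_of_le hT, ← (ph_int hS).2,
        ← integral_sub_left_eq_self (ph S) volume (u - t)]
      exact setIntegral_le_integral ((ph_int hS).1.comp_sub_left (u - t))
        (Filter.Eventually.of_forall fun v => (ph_pos hS _).le)
  rw [sub_zero, abs_of_nonneg hT, one_mul] at h
  exact (le_abs_self _).trans h

end Pool.Agent.Lib.MP_778b46_nt.GX.Dh
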