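import Pool.Agent.Lib.MP_778b46_nt.GX.DhA

/- The contour shift inside a small rectangle and the interchange with a Dirichlet series. -/

namespace Pool.Agent.Lib.MP_778b46_nt.GX.Dh

open Complex MeasureTheory Set
open Pool.Agent.Lib.MP_2a1a00_nt

variable {T S : ℝ}

/-- The error term. -/
noncomputable def Err (T S c Y m B : ℝ) : ℝ :=
  (T ^ 2 + 4) * (m * (4 * c + S) +
    (4 * B + 2 * c * m * (c + Y)) * Real.exp (T * c + (c ^ 2 - Y ^ 2) / S ^ 2))

theorem gauss_le (hS : 0 < S) : Integrable (fun v : ℝ => Real.exp (-(1 / S ^ 2) * v ^ 2)) ∧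
    ∫ v : ℝ, Real.exp (-(1 / S ^ 2) * v ^ 2) ≤ 2 * S := by
  refine ⟨integrable_exp_neg_mul_sq (by positivity), ?_⟩
  rw [integral_gaussian, Real.sqrt_le_iff]
  refine ⟨by positivity, ?_⟩
  rw [div_div_eq_mul_div, div_one]
  nlinarith [Real.pi_lt_four, sq_nonneg S]

theorem core (hT : 0 ≤ T) (hS : 0 < S) {c Y m B : ℝ} (hc : 0 ≤ c) (hY : 0 ≤ Y) (hm : 0 ≤ m)
    (hB : 0 ≤ B) {U H : ℂ → ℂ} (hU : Continuous fun v : ℝ => U (c + v * I))
    (hUB : ∀ v : ℝ, ‖U (c + v * I)‖ ≤ B) (hH : DifferentiableOn ℂ H {z | ‖z - c‖ ≤ c + Y})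
    (hHm : ∀ z : ℂ, ‖z - c‖ ≤ c + Y → ‖H z‖ ≤ m * ‖z - c‖)
    (hUH : ∀ v : ℝ, |v| ≤ Y → U (c + v * I) = H (c + v * I)) :
    ‖Ln (fun z => W T S z * U z) c‖ ≤ Err T S c Y m B := by
  obtain ⟨E, hE⟩ : ∃ E, E = Real.exp (T * c + (c ^ 2 - Y ^ 2) / S ^ 2) := ⟨_, rfl⟩
  have hE0 : 0 < E := hE ▸ Real.exp_pos _
  obtain ⟨A, hA⟩ : ∃ A, A = T ^ 2 + 4 := ⟨_, rfl⟩
  have hA0 : 0 < A := by rw [hA]; positivity
  have hi : Integrable fun v : ℝ => W T S (c + v * I) * U (c + v * I) :=
    (int_W hT hS c).mul_bdd hU.aestronglyMeasurable (Filter.Eventually.of_forall hUB)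
  have hsp := integral_add_compl (measurableSet_Ioc (a := -Y) (b := Y)) hi
  have hn : ∀ x y : ℝ, 0 ≤ x → x ≤ c → ‖(x + y * I : ℂ) - c‖ ≤ c + |y| := fun x y h1 h2 => by
    refine (norm_le_abs_re_add_abs_im _).trans ?_
    simp only [sub_re, add_re, ofReal_re, mul_re, I_re, mul_zero, ofReal_im, I_im, mul_one, sub_self,
      add_zero, sub_im, add_im, mul_im, zero_add, sub_zero]
    rw [abs_of_nonpos (by linarith)]
    linarith
  have t1 : ‖∫ v in (Ioc (-Y) Y)ᶜ, W T S (c + v * I) * U (c + v * I)‖ ≤ 4 * (A * E * B) := by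
    have hk : Integrable fun v : ℝ => A * E * B * (1 + v ^ 2)⁻¹ :=
      integrable_inv_one_add_sq.const_mul _
    refine (norm_integral_le_of_norm_le hk.integrableOn ?_).trans
      ((setIntegral_le_integral hk (Filter.Eventually.of_forall fun v => by positivity)).trans
        (int_inv _ (by positivity)))
    filter_upwards [ae_restrict_mem measurableSet_Ioc.compl] with v hv
    have h1 : Y ^ 2 ≤ v ^ 2 := by
      rw [mem_compl_iff, mem_Ioc, not_and_or, not_lt, not_le] at hv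
      rcases hv with h | h <;> nlinarith
    have h2 : Real.exp (T * c + (c ^ 2 - v ^ 2) / S ^ 2) ≤ E := by
      rw [hE]
      gcongr
    have h3 := norm_W_line hT hS hc v
    rw [← hA] at h3
    rw [norm_mul]
    calc ‖W T S (c + v * I)‖ * ‖U (c + v * I)‖ ≤ A * E * (1 + v ^ 2)⁻¹ * B := by
          refine mul_le_mul (h3.trans ?_) (hUB v) (norm_nonneg _) (by positivity)
          gcongr
      _ = _ := by ring
  have hYY : -Y ≤ Y := by linarith
  have t2 : ∫ v in Ioc (-Y) Y, W T S (c + v * I) * U (c + v * I) =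
      ∫ v in (-Y)..Y, W T S (c + v * I) * H (c + v * I) := by
    rw [intervalIntegral.integral_of_le hYY]
    exact setIntegral_congr_fun measurableSet_Ioc fun v hv => by
      simp only [hUH v (abs_le.2 ⟨hv.1.le, hv.2⟩)]
  have rect := integral_boundary_rect_eq_zero_of_differentiableOn (fun z => W T S z * H z)
    ⟨0, -Y⟩ ⟨c, Y⟩ ((W_diff T S).differentiableOn.mul (hH.mono fun z hz => by
      obtain ⟨h1, h2⟩ := hz
      simp only [mem_preimage, uIcc_of_le hc, uIcc_of_le hYY] at h1 h2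
      have h3 := hn z.re z.im h1.1 h1.2
      rw [re_add_im] at h3
      exact h3.trans (by linarith [abs_le.2 ⟨h2.1, h2.2⟩])))
  simp only [smul_eq_mul] at rect
  have t3 : ∀ y : ℝ, |y| = Y →
      ‖∫ x in (0 : ℝ)..c, W T S (x + y * I) * H (x + y * I)‖ ≤ A * E * (m * (c + Y)) * c := by
    intro y hy
    have h := intervalIntegral.norm_integral_le_of_norm_le_const (a := 0) (b := c)
      (f := fun x : ℝ => W T S (x + y * I) * H (x + y * I)) (C := A * E * (m * (c + Y)))
      fun x hx => by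
        rw [uIoc_of_le hc] at hx
        have h1 := hn x y hx.1.le hx.2
        rw [hy] at h1
        have h2 := norm_W_line hT hS hx.1.le y
        have h3 : Real.exp (T * x + (x ^ 2 - y ^ 2) / S ^ 2) ≤ E := by
          rw [hE, ← sq_abs y, hy]
          have := hx.1
          have := hx.2
          gcongr
        have h4 : (1 + y ^ 2)⁻¹ ≤ 1 := inv_le_one_of_one_le₀ (by nlinarith [sq_nonneg y])
        rw [← hA] at h2
        rw [norm_mul]
        refine mul_le_mul (h2.trans ?_) ((hHm _ h1).trans (by gcongr)) (norm_nonneg _)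
          (by positivity)
        calc A * Real.exp (T * x + (x ^ 2 - y ^ 2) / S ^ 2) * (1 + y ^ 2)⁻¹ ≤ A * E * 1 := by gcongr
          _ = A * E := mul_one _
    rwa [sub_zero, abs_of_nonneg hc] at h
  have t4 : ‖∫ y in (-Y)..Y, W T S ((0 : ℝ) + y * I) * H ((0 : ℝ) + y * I)‖ ≤
      A * (m * (4 * c + S)) := by
    obtain ⟨g1, g2⟩ := gauss_le hS
    have hk1 : Integrable fun v : ℝ => A * m * c * (1 + v ^ 2)⁻¹ :=
      integrable_inv_one_add_sq.const_mul _
    have hk2 := g1.const_mul (A * m / 2)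
    rw [intervalIntegral.integral_of_le hYY]
    refine (norm_integral_le_of_norm_le (hk1.add hk2).integrableOn ?_).trans
      ((setIntegral_le_integral (hk1.add hk2)
        (Filter.Eventually.of_forall fun v => by simp only [Pi.add_apply]; positivity)).trans ?_)
    · filter_upwards [ae_restrict_mem measurableSet_Ioc] with v hv
      have h0 : |v| ≤ Y := abs_le.2 ⟨hv.1.le, hv.2⟩
      have h1 := hn 0 v le_rfl hc
      have h2 := norm_W_line hT hS le_rfl v
      have h3 : T * 0 + (0 ^ 2 - v ^ 2) / S ^ 2 = -(1 / S ^ 2) * v ^ 2 := by ring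
      rw [← hA, h3] at h2
      have h4 := (hHm _ (h1.trans (by linarith))).trans (mul_le_mul_of_nonneg_left h1 hm)
      have h5 : Real.exp (-(1 / S ^ 2) * v ^ 2) ≤ 1 := by
        rw [Real.exp_le_one_iff]
        have : 0 ≤ 1 / S ^ 2 * v ^ 2 := by positivity
        linarith
      have h6 : (1 + v ^ 2)⁻¹ * |v| ≤ 1 / 2 := by
        rw [inv_mul_le_iff₀ (by positivity), ← sq_abs v]
        nlinarith [sq_nonneg (|v| - 1)]
      have h7 := Real.exp_pos (-(1 / S ^ 2) * v ^ 2)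
      have h8 : 0 < (1 + v ^ 2)⁻¹ := by positivity
      simp only [Pi.add_apply]
      rw [norm_mul]
      refine (mul_le_mul h2 h4 (norm_nonneg _) (by positivity)).trans ?_
      generalize Real.exp (-(1 / S ^ 2) * v ^ 2) = e at h5 h7
      generalize (1 + v ^ 2)⁻¹ = k at h6 h8
      have a1 : A * m * c * k * e ≤ A * m * c * k * 1 := by gcongr
      have a2 : A * m * e * (k * |v|) ≤ A * m * e * (1 / 2) := by gcongr
      nlinarith
    · simp only [Pi.add_apply]
      rw [integral_add hk1 hk2, integral_const_mul (A * m / 2)]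
      have a1 := int_inv (A * m * c) (by positivity)
      have a2 : A * m / 2 * ∫ v : ℝ, Real.exp (-(1 / S ^ 2) * v ^ 2) ≤ A * m / 2 * (2 * S) := by
        gcongr
      linarith
  have t5 : ‖∫ v in (-Y)..Y, W T S (c + v * I) * H (c + v * I)‖ ≤
      A * (m * (4 * c + S)) + 2 * (A * E * (m * (c + Y)) * c) := by
    have b1 := t3 (-Y) (by rw [abs_neg, abs_of_nonneg hY])
    have b2 := t3 Y (abs_of_nonneg hY)
    generalize (∫ v in (-Y)..Y, W T S (c + v * I) * H (c + v * I)) = r at rect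
    generalize (∫ y in (-Y)..Y, W T S ((0 : ℝ) + y * I) * H ((0 : ℝ) + y * I)) = l at rect t4
    generalize (∫ x in (0 : ℝ)..c, W T S (x + (-Y : ℝ) * I) * H (x + (-Y : ℝ) * I)) = p at rect b1
    generalize (∫ x in (0 : ℝ)..c, W T S (x + Y * I) * H (x + Y * I)) = q at rect b2
    have e : r = l + I * (p - q) := by linear_combination (-I) * rect + (r - l) * I_mul_I
    rw [e]
    refine (norm_add_le _ _).trans ?_
    rw [norm_mul, norm_I, one_mul]
    linarith [norm_sub_le p q]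
  have h2 : 1 / (2 * Real.pi) ≤ 1 := by
    rw [div_le_one (by positivity)]
    linarith [Real.pi_gt_three]
  rw [Ln, norm_mul, norm_real, Real.norm_of_nonneg (by positivity), ← hsp, t2, Err, ← hE, ← hA]
  refine (mul_le_of_le_one_left (norm_nonneg _) h2).trans ((norm_add_le _ _).trans ?_)
  linarith

theorem Ln_W (hT : 0 ≤ T) (hS : 0 < S) (c : ℝ) : Ln (W T S) c = (gg T S 0 : ℝ) := by
  simpa using Ln_gg hT hS c 0

theorem one_le_line {c : ℝ} {w : ℂ} (hw : w.re + 1 ≤ c) (v : ℝ) : 1 ≤ ‖(c + v * I : ℂ) - w‖ := by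
  have := re_le_norm ((c + v * I : ℂ) - w)
  simp at this
  linarith

/-- A far point contributes little. -/
theorem Ph_far (hT : 0 ≤ T) (hS : 0 < S) {c Y D : ℝ} (hc : 0 ≤ c) (hY : 0 ≤ Y) (hD : 0 < D)
    (hD2 : 2 * (c + Y) ≤ D) {ζ : ℂ} (h : ζ.re + 1 ≤ c) (hζ : D ≤ ‖(c : ℂ) - ζ‖) :
    ‖Ph T S c ζ‖ ≤ Err T S c Y (2 / D ^ 2) 2 + T / D := by
  have h0 : (c : ℂ) - ζ ≠ 0 := norm_pos_iff.1 (by linarith)
  have h1 : ∀ z : ℂ, ‖z - c‖ ≤ c + Y → D / 2 ≤ ‖z - ζ‖ := fun z hz => by
    have := norm_sub_le (z - ζ) (z - c)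
    rw [show z - ζ - (z - c) = c - ζ by ring] at this
    linarith
  have hl : ∀ v : ℝ, (c + v * I : ℂ) - ζ ≠ 0 := fun v =>
    norm_pos_iff.1 (by linarith [one_le_line h v])
  have h2 := core hT hS hc hY (m := 2 / D ^ 2) (B := 2) (by positivity) (by norm_num)
    (U := fun z => (z - ζ)⁻¹ - ((c : ℂ) - ζ)⁻¹) (H := fun z => (z - ζ)⁻¹ - ((c : ℂ) - ζ)⁻¹)
    ((Continuous.inv₀ (by fun_prop) hl).sub continuous_const)
    (fun v => by
      have a1 := inv_le_one_of_one_le₀ (one_le_line h v)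
      have a2 := inv_le_one_of_one_le₀ (one_le_line h 0)
      simp only [ofReal_zero, zero_mul, add_zero] at a2
      refine (norm_sub_le _ _).trans ?_
      rw [norm_inv, norm_inv]
      linarith)
    ((DifferentiableOn.inv (by fun_prop) fun z hz =>
      norm_pos_iff.1 (by linarith [h1 z hz])).sub_const _)
    (fun z hz => by
      have a1 := h1 z hz
      have a2 : z - ζ ≠ 0 := norm_pos_iff.1 (by linarith)
      have e : (z - ζ)⁻¹ - ((c : ℂ) - ζ)⁻¹ = -(z - c) / ((z - ζ) * (c - ζ)) := by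
        field_simp
        ring
      rw [e, norm_div, norm_neg, norm_mul]
      calc ‖z - c‖ / (‖z - ζ‖ * ‖(c : ℂ) - ζ‖) ≤ ‖z - c‖ / (D / 2 * D) := by gcongr
        _ = 2 / D ^ 2 * ‖z - c‖ := by field_simp)
    (fun _ _ => rfl)
  have e : Ph T S c ζ = Ln (fun z => W T S z * ((z - ζ)⁻¹ - ((c : ℂ) - ζ)⁻¹)) c +
      ((c : ℂ) - ζ)⁻¹ * (gg T S 0 : ℝ) := by
    have i1 := (dec_div (b := c) hT hS (show ζ.re < c by linarith)).integrable le_rfl le_rfl
    have i2 := (int_W hT hS c).const_mul ((c : ℂ) - ζ)⁻¹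
    rw [← Ln_W hT hS c, ← Ln_const_mul, ← sub_eq_iff_eq_add, Ph, ← Ln_sub i1 i2]
    exact Ln_congr fun v => by ring
  rw [e]
  refine norm_add_le_of_le h2 ?_
  rw [norm_mul, norm_inv, norm_real, Real.norm_of_nonneg (gg_nonneg hT hS 0), inv_mul_eq_div]
  have := gg_le hT hS 0
  gcongr

theorem term_shift (a : ℕ → ℂ) (L : ℝ) (s0 z : ℂ) (n : ℕ) : LSeries.term a (s0 + z / L) n =
    LSeries.term a s0 n * exp (z * (-(Real.log n / L) : ℝ)) := by
  rcases eq_or_ne n 0 with rfl | hn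
  · simp
  · have h0 : (n : ℂ) ≠ 0 := Nat.cast_ne_zero.2 hn
    rw [LSeries.term_of_ne_zero hn, LSeries.term_of_ne_zero hn, cpow_add _ _ h0,
      cpow_def_of_ne_zero h0 (z / L), div_mul_eq_div_div, div_eq_mul_inv _ (exp _), ← exp_neg,
      ← natCast_log]
    congr 2
    push_cast
    ring

theorem hasSum_Ln (hT : 0 ≤ T) (hS : 0 < S) (a : ℕ → ℂ) (L : ℝ) (s0 : ℂ) (c : ℝ)
    (hs : LSeriesSummable a (s0 + c / L)) :
    HasSum (fun n => LSeries.term a s0 n * (gg T S (Real.log n / L) : ℝ))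
      (Ln (fun z => W T S z * LSeries a (s0 + z / L)) c) := by
  have hW := int_W hT hS c
  have hn : ∀ (n : ℕ) (v : ℝ), ‖LSeries.term a (s0 + (c + v * I) / L) n‖ =
      ‖LSeries.term a (s0 + c / L) n‖ := fun n v => by
    rw [LSeries.norm_term_eq, LSeries.norm_term_eq]
    simp [div_eq_mul_inv, ← ofReal_inv]
  have hi : ∀ n : ℕ, Integrable fun v : ℝ =>
      W T S (c + v * I) * LSeries.term a (s0 + (c + v * I) / L) n := fun n => by
    refine hW.mul_bdd ?_ (Filter.Eventually.of_forall fun v => (hn n v).le)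
    simp only [term_shift]
    exact (by fun_prop : Continuous fun v : ℝ =>
      LSeries.term a s0 n * exp ((c + v * I) * (-(Real.log n / L) : ℝ))).aestronglyMeasurable
  have h1 := hasSum_integral_of_summable_integral_norm hi (by
    simp only [norm_mul, hn, integral_mul_const]
    exact hs.norm.mul_left _)
  have h2 := h1.mul_left ((1 / (2 * Real.pi) : ℝ) : ℂ)
  simp only [tsum_mul_left] at h2
  have e : ∀ n : ℕ, ((1 / (2 * Real.pi) : ℝ) : ℂ) *
      ∫ v : ℝ, W T S (c + v * I) * LSeries.term a (s0 + (c + v * I) / L) n =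
        LSeries.term a s0 n * (gg T S (Real.log n / L) : ℝ) := fun n => by
    rw [← Ln_gg hT hS c, ← Ln_const_mul]
    refine Ln_congr (g₁ := fun z => W T S z * LSeries.term a (s0 + z / L) n) fun v => ?_
    rw [term_shift]
    ring
  simp only [e] at h2
  exact h2

end Pool.Agent.Lib.MP_778b46_nt.GX.Dh
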