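import Pool.Agent.Lib.MP_778b46_nt.GX.DhB
import Pool.Agent.Lib.MP_778b46_nt.GX.Jen
import Pool.Agent.Lib.MP_e97e2b_nt.Ln.A5

/- The explicit inequality with a tilt up to a small multiple of `log P`. -/

namespace Pool.Agent.Lib.MP_778b46_nt.GX.Dh

open Complex MeasureTheory Set Filter ArithmeticFunction
open Pool.Agent.Lib.MP_2a1a00_nt

theorem err_small {δ M K ε : ℝ} (hδ : 0 < δ) (hδ1 : δ ≤ 1) (hM : 0 < M) (hK : 0 ≤ K) (hε : 0 < ε) :
    ∃ ε2 : ℝ, 0 < ε2 ∧ ε2 ≤ δ / 16 ∧ ∀ᶠ L : ℝ in atTop, ∀ T c m B : ℝ, 0 ≤ T → T ≤ 8 → 0 ≤ c →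
      c ≤ 2 * ε2 * L → 0 ≤ m → m ≤ M / L → 0 ≤ B → B ≤ K * L →
      Err T (√L) c (δ / 8 * L) m B ≤ ε := by
  obtain ⟨ε2, h0, h1, h2⟩ : ∃ ε2 : ℝ, 0 < ε2 ∧ ε2 ≤ δ ^ 2 / 2560 ∧ ε2 ≤ ε / (1632 * M) :=
    ⟨min _ _, lt_min (by positivity) (by positivity), min_le_left _ _, min_le_right _ _⟩
  have h3 : ε2 ≤ δ / 16 := by nlinarith
  have t1 : Tendsto (fun L : ℝ => 68 * M * (√L)⁻¹) atTop (nhds 0) := by
    simpa using (tendsto_inv_atTop_zero.comp Real.tendsto_sqrt_atTop).const_mul (68 * M)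
  have t2 : Tendsto (fun L : ℝ => 68 * (4 * K + 2 * M) * (L * Real.exp (-(δ ^ 2 / 128) * L)))
      atTop (nhds 0) := by
    have h := tendsto_rpow_mul_exp_neg_mul_atTop_nhds_zero 1 (δ ^ 2 / 128) (by positivity)
    simpa using h.const_mul (68 * (4 * K + 2 * M))
  refine ⟨ε2, h0, h3, ?_⟩
  filter_upwards [t1.eventually_le_const (show 0 < ε / 3 by positivity),
    t2.eventually_le_const (show 0 < ε / 3 by positivity), eventually_ge_atTop 1]
    with L g1 g2 g3 T c m B hT hT8 hc hc2 hm hm2 hB hB2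
  have hL : 0 < L := by linarith
  have hs : 0 < √L := Real.sqrt_pos.2 hL
  have hsq : √L ^ 2 = L := Real.sq_sqrt hL.le
  have hmL : m * L ≤ M := (le_div_iff₀ hL).1 hm2
  have a0 : T ^ 2 + 4 ≤ 68 := by nlinarith
  have a1 : m * (4 * c) ≤ ε / 204 := by
    have b1 : ε2 * (1632 * M) ≤ ε := (le_div_iff₀ (by positivity)).1 h2
    have b2 : m * (4 * c) ≤ m * (4 * (2 * ε2 * L)) := by gcongr
    have b3 : ε2 * (m * L) ≤ ε2 * M := by gcongr
    linarith
  have a2 : m * √L ≤ M * (√L)⁻¹ := by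
    rw [← div_eq_mul_inv, le_div_iff₀ hs, mul_assoc, ← sq, hsq]
    exact hmL
  have hcL : c ≤ L / 8 := by nlinarith
  have a3 : 4 * B + 2 * c * m * (c + δ / 8 * L) ≤ (4 * K + 2 * M) * L := by
    have b1 : c + δ / 8 * L ≤ L := by nlinarith
    have b2 : 2 * c * m * (c + δ / 8 * L) ≤ 2 * L * m * L := by gcongr; linarith
    have b3 : L * (m * L) ≤ L * M := by gcongr
    linarith
  have a4 : T * c + (c ^ 2 - (δ / 8 * L) ^ 2) / √L ^ 2 ≤ -(δ ^ 2 / 128) * L := by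
    have b1 : T * c ≤ 8 * (2 * ε2 * L) := by gcongr
    have b2 : (c ^ 2 - (δ / 8 * L) ^ 2) / √L ^ 2 ≤ (4 * ε2 - δ ^ 2 / 64) * L := by
      rw [hsq, div_le_iff₀ hL]
      have c1 : c ^ 2 ≤ (2 * ε2 * L) * L := by
        rw [sq]
        exact mul_le_mul hc2 (by linarith) hc (by positivity)
      have c2 : 0 ≤ ε2 * L * L := by positivity
      nlinarith
    have b3 : ε2 * L ≤ δ ^ 2 / 2560 * L := by gcongr
    linarith
  have a5 := Real.exp_le_exp.2 a4
  calc Err T (√L) c (δ / 8 * L) m B ≤ 68 * (m * (4 * c + √L) +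
        (4 * K + 2 * M) * L * Real.exp (-(δ ^ 2 / 128) * L)) := by
        unfold Err
        gcongr
    _ ≤ ε := by linarith

theorem Ln_sum {T S : ℝ} (hT : 0 ≤ T) (hS : 0 < S) {c : ℝ} (Z : Multiset ℂ) (ζ : ℂ → ℂ)
    (h : ∀ ρ ∈ Z, (ζ ρ).re + 1 ≤ c) :
    (Continuous fun v : ℝ => (Z.map fun ρ => 1 / ((c + v * I : ℂ) - ζ ρ)).sum) ∧
    (∀ v : ℝ, ‖(Z.map fun ρ => 1 / ((c + v * I : ℂ) - ζ ρ)).sum‖ ≤ Z.card) ∧
    (Integrable fun v : ℝ =>
      W T S (c + v * I) * (Z.map fun ρ => 1 / ((c + v * I : ℂ) - ζ ρ)).sum) ∧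
    Ln (fun z => W T S z * (Z.map fun ρ => 1 / (z - ζ ρ)).sum) c =
      (Z.map fun ρ => Ph T S c (ζ ρ)).sum := by
  induction Z using Multiset.induction_on with
  | empty => simp [Ln, continuous_const]
  | cons ρ Z ih =>
    obtain ⟨i1, i2, i3, i4⟩ := ih fun ρ hρ => h ρ (Multiset.mem_cons_of_mem hρ)
    have h1 := h ρ (Multiset.mem_cons_self _ _)
    have h2 := (dec_div (b := c) hT hS (show (ζ ρ).re < c by linarith)).integrable le_rfl le_rfl
    simp only [Multiset.map_cons, Multiset.sum_cons, Multiset.card_cons, mul_add, mul_one_div]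
    refine ⟨(Continuous.div continuous_const (by fun_prop) fun v =>
      norm_pos_iff.1 (by linarith [one_le_line h1 v])).add i1, fun v => ?_, h2.add i3, ?_⟩
    · refine (norm_add_le _ _).trans ?_
      rw [one_div, norm_inv]
      push_cast
      linarith [inv_le_one_of_one_le₀ (one_le_line h1 v), i2 v]
    · rw [Ln_add h2 i3, i4, Ph]

/-- The tilted point at height `γ`. -/
noncomputable def s0 (P a γ : ℝ) : ℂ := ((1 - a / Real.log P : ℝ) : ℂ) + γ * I

/-- The scaled position of `ρ`. -/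
noncomputable def zt (P a γ : ℝ) (ρ : ℂ) : ℂ := Real.log P * (ρ - s0 P a γ)

/-- The contribution of a zero or a pole at `ρ`. -/
noncomputable def PZ (T P a γ : ℝ) (ρ : ℂ) : ℂ := Ph T (√(Real.log P)) (a + 1) (zt P a γ ρ)

/-- The smoothed sum over prime powers. -/
noncomputable def EE {Q : ℕ} (T P a γ : ℝ) (ξ : DC Q) : ℂ :=
  Ln (fun z => W T (√(Real.log P)) z *
    LSeries (fun n => pr ξ n * (vonMangoldt n : ℂ)) (s0 P a γ + z / Real.log P)) (a + 1) /
      Real.log P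

theorem zt_re {P : ℝ} (hL : 0 < Real.log P) (a γ : ℝ) (ρ : ℂ) :
    (zt P a γ ρ).re = a - lam P ρ := by
  simp only [zt, s0, lam, sub_re, add_re, ofReal_re, mul_re, I_re, mul_zero,
    ofReal_im, I_im, mul_one, sub_self, add_zero]
  field_simp
  ring

theorem s0_add {P : ℝ} (hL : 0 < Real.log P) (a γ : ℝ) (z : ℂ) :
    s0 P a γ + z / Real.log P - cc P γ = (z - (a + 1 : ℝ)) / Real.log P := by
  have h : (Real.log P : ℂ) ≠ 0 := ofReal_ne_zero.2 hL.ne'
  simp only [s0, cc, ofReal_sub, ofReal_add, ofReal_div, ofReal_one]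
  field_simp
  ring

theorem sub_zt {P : ℝ} (hL : 0 < Real.log P) (a γ : ℝ) (ρ z : ℂ) :
    z - zt P a γ ρ = Real.log P * (s0 P a γ + z / Real.log P - ρ) := by
  have h : (Real.log P : ℂ) ≠ 0 := ofReal_ne_zero.2 hL.ne'
  rw [zt]
  field_simp
  ring

theorem ser_cont {Q : ℕ} [NeZero Q] (ξ : DC Q) {u : ℝ → ℂ} (hu : Continuous u)
    (h : ∀ v, 1 < (u v).re) :
    Continuous fun v => LSeries (fun n => pr ξ n * (vonMangoldt n : ℂ)) (u v) := by
  classical
  simp only [fun v => jen_series ξ (h v)]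
  refine Continuous.add ?_ (((Lp_diff ξ).deriv.continuous.comp hu).neg.div
    ((Lp_diff ξ).continuous.comp hu) fun v => Lp_ne_zero ξ (h v).le)
  split_ifs
  · refine Continuous.div continuous_const (by fun_prop) fun v h1 => ?_
    have h2 := h v
    rw [sub_eq_zero.1 h1, one_re] at h2
    exact lt_irrefl _ h2
  · exact continuous_const

open Classical in
theorem ms_step (Z Zs : Multiset ℂ) (p : ℂ → Prop) (o : ℂ → ℕ) (F : ℂ → ℝ) {ε : ℝ} (hε : 0 ≤ ε)
    (z1 : ∀ ρ, Z.count ρ = if p ρ then o ρ else 0) (h1 : ∀ ρ, Zs.count ρ ≤ o ρ)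
    (h2 : ∀ ρ, p ρ → Zs.count ρ < o ρ → 0 ≤ F ρ) (h3 : ∀ ρ, ¬ p ρ → o ρ ≠ 0 → F ρ ≤ ε) :
    (Zs.map F).sum - ε * Zs.card ≤ (Z.map F).sum := by
  have a1 : Zs.filter p ≤ Z := Multiset.le_iff_count.2 fun ρ => by
    rw [Multiset.count_filter, z1]
    split_ifs
    exacts [h1 ρ, le_rfl]
  obtain ⟨Z2, hZ2⟩ := Multiset.le_iff_exists_add.1 a1
  have a2 : 0 ≤ (Z2.map F).sum := Multiset.sum_nonneg fun x hx => by
    obtain ⟨ρ, hρ, rfl⟩ := Multiset.mem_map.1 hx
    have b0 := Multiset.count_pos.2 hρ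
    have b2 := z1 ρ
    rw [hZ2, Multiset.count_add, Multiset.count_filter] at b2
    by_cases b1 : p ρ
    · rw [if_pos b1, if_pos b1] at b2
      exact h2 ρ b1 (by omega)
    · rw [if_neg b1, if_neg b1] at b2
      omega
  have a3 : ((Zs.filter fun ρ => ¬ p ρ).map F).sum ≤ ε * Zs.card := by
    refine (Multiset.sum_le_card_nsmul _ ε fun x hx => ?_).trans ?_
    · obtain ⟨ρ, hρ, rfl⟩ := Multiset.mem_map.1 hx
      obtain ⟨b1, b2⟩ := Multiset.mem_filter.1 hρ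
      exact h3 ρ b2 ((Multiset.count_pos.2 b1).trans_le (h1 ρ)).ne'
    · rw [Multiset.card_map, nsmul_eq_mul, mul_comm]
      gcongr
      exact Multiset.filter_le _ _
  have a4 := congrArg (fun Z' : Multiset ℂ => (Z'.map F).sum) (Multiset.filter_add_not p Zs)
  simp only [Multiset.map_add, Multiset.sum_add] at a4
  rw [hZ2, Multiset.map_add, Multiset.sum_add]
  linarith

open Classical in
/-- The explicit inequality; the error does not grow with the tilt `a`. -/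
theorem efg {ph0 : ℝ} (hTB : TB ph0) {e ε : ℝ} (he : 0 < e) (hε : 0 < ε) :
    ∃ δ η ε2 P0 : ℝ, 0 < δ ∧ δ ≤ 1 / 24 ∧ 0 < η ∧ 0 < ε2 ∧ 3 ≤ P0 ∧ ∀ P : ℝ, P0 ≤ P →
      ∀ T a γ : ℝ, 0 ≤ T → T ≤ 8 → 0 ≤ a → a ≤ ε2 * Real.log P →
        (∀ ρ : ℂ, ρ.re ≤ 1 → δ < ‖ρ - cc P γ‖ → ‖PZ T P a γ ρ‖ ≤ ε) ∧
        ∀ (Q : ℕ) [NeZero Q] (ξ : DC Q) (ph : ℝ) (Zs : Multiset ℂ), 0 ≤ ph → ph ≤ 2 →
          cd ξ ^ (ph0 + e) ≤ P ^ ph → |γ| ≤ P ^ η → (∀ ρ, Zs.count ρ ≤ ord ξ ρ) →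
          (∀ ρ, ‖ρ - cc P γ‖ ≤ δ → Zs.count ρ < ord ξ ρ → a < lam P ρ) →
          (EE T P a γ ξ).re ≤ (if ξ = 1 then (PZ T P a γ 1).re else 0) -
            (Zs.map fun ρ => (PZ T P a γ ρ).re).sum + T * ph / 2 + ε * (1 + Zs.card) := by
  obtain ⟨δ, η, M, P1, hδ, hδ1, hη, hM, hP1, hpf⟩ := pf hTB he (show 0 < ε / 16 by positivity)
  obtain ⟨C, L0, hC, hsum⟩ := MP_e97e2b_nt.Ln.lambda_sum
  obtain ⟨ε2, h0, h1, hev⟩ := err_small (M := M) (K := C + 1 + 2 * M) hδ (by linarith)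
    (by linarith) (by linarith) (show 0 < ε / 2 by positivity)
  obtain ⟨P2, hP2⟩ := eventually_atTop.1 (Real.tendsto_log_atTop.eventually
    (hev.and ((eventually_ge_atTop (max L0 1)).and ((eventually_ge_atTop (1 / ε2)).and
      ((eventually_ge_atTop (2 / δ ^ 2)).and (eventually_ge_atTop (16 / (ε * δ))))))))
  refine ⟨δ, η, ε2, max P1 P2, hδ, hδ1, hη, h0, hP1.trans (le_max_left _ _),
    fun P hP T a γ hT hT8 ha ha2 => ?_⟩
  obtain ⟨g1, g2, g3, g4, g5⟩ := hP2 P ((le_max_right _ _).trans hP)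
  have hL1 : 1 ≤ Real.log P := (le_max_right _ _).trans g2
  have hL : 0 < Real.log P := by linarith
  have hLc : (Real.log P : ℂ) ≠ 0 := ofReal_ne_zero.2 hL.ne'
  have hnL : ‖(Real.log P : ℂ)‖ = Real.log P := by rw [norm_real, Real.norm_of_nonneg hL.le]
  have hS : 0 < √(Real.log P) := Real.sqrt_pos.2 hL
  have hc : a + 1 ≤ 2 * ε2 * Real.log P := by
    rw [div_le_iff₀ h0] at g3
    linarith
  have hcY : a + 1 + δ / 8 * Real.log P ≤ δ / 2 * Real.log P := by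
    have := mul_le_mul_of_nonneg_right h1 hL.le
    have := mul_pos hδ hL
    linarith
  have hK := mul_le_mul_of_nonneg_left hL1 (show 0 ≤ C + 1 + M by linarith)
  have hK2 := mul_le_mul_of_nonneg_left hL1 (show 0 ≤ M by linarith)
  have hre : ∀ ρ : ℂ, ρ.re ≤ 1 → (zt P a γ ρ).re + 1 ≤ a + 1 := fun ρ hρ => by
    have : 0 ≤ lam P ρ := mul_nonneg (by linarith) hL.le
    rw [zt_re hL]
    linarith
  have far : ∀ ρ : ℂ, ρ.re ≤ 1 → δ < ‖ρ - cc P γ‖ → ‖PZ T P a γ ρ‖ ≤ ε := fun ρ hρ hf => by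
    have a1 : δ * Real.log P ≤ ‖((a + 1 : ℝ) : ℂ) - zt P a γ ρ‖ := by
      have e1 := s0_add hL a γ (a + 1 : ℝ)
      rw [sub_self, zero_div, sub_eq_zero] at e1
      rw [sub_zt hL, e1, norm_mul, hnL, norm_sub_rev, mul_comm]
      gcongr
    have a2 := Ph_far hT hS (c := a + 1) (Y := δ / 8 * Real.log P) (by linarith) (by positivity)
      (by positivity) (by linarith) (hre ρ hρ) a1
    have a3 := g1 T (a + 1) (2 / (δ * Real.log P) ^ 2) 2 hT hT8 (by linarith) hc (by positivity)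
      (by
        rw [div_le_div_iff₀ (by positivity) hL]
        rw [div_le_iff₀ (by positivity)] at g4
        have b1 := mul_le_mul_of_nonneg_right g4 hL.le
        have b2 : 1 * (δ * Real.log P) ^ 2 ≤ M * (δ * Real.log P) ^ 2 := by gcongr
        linarith) (by norm_num) (by linarith)
    have a4 : T / (δ * Real.log P) ≤ ε / 2 := by
      rw [div_le_iff₀ (by positivity)] at g5 ⊢
      linarith
    rw [PZ]
    linarith
  refine ⟨far, fun Q _ ξ ph Zs hph hph2 hcd hγ hZ1 hZ2 => ?_⟩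
  obtain ⟨Z, H, z1, z2, z3, z4, z5, z6, z7, z8⟩ :=
    hpf P ((le_max_left _ _).trans hP) Q ξ ph γ hph hph2 hcd hγ
  obtain ⟨l1, l2⟩ := hsum (Real.log P) ((le_max_left _ _).trans g2) hL1
  obtain ⟨m1, m2, m3, m4⟩ := Ln_sum hT hS (c := a + 1) Z (zt P a γ) fun ρ hρ => hre ρ (z2 ρ hρ).2.le
  obtain ⟨Z1, hZ1d⟩ : ∃ Z1 : Multiset ℂ, Z1 = if ξ = 1 then {1} else 0 := ⟨_, rfl⟩
  obtain ⟨n1, n2, n3, n4⟩ := Ln_sum hT hS (c := a + 1) Z1 (zt P a γ) fun ρ hρ => hre ρ (by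
    rw [hZ1d] at hρ
    split_ifs at hρ
    · rw [Multiset.mem_singleton.1 hρ, one_re]
    · simp at hρ)
  have n5 : (Z1.card : ℝ) ≤ 1 := by
    rw [hZ1d]
    split_ifs <;> simp
  obtain ⟨G, hG⟩ : ∃ G : ℂ → ℂ, G = fun z =>
    LSeries (fun n => pr ξ n * (vonMangoldt n : ℂ)) (s0 P a γ + z / Real.log P) := ⟨_, rfl⟩
  have hline : ∀ v : ℝ, (s0 P a γ + (((a + 1 : ℝ) : ℂ) + v * I) / Real.log P).re =
      1 + 1 / Real.log P := fun v => by
    have e1 := s0_add hL a γ ((a + 1 : ℝ) + v * I)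
    rw [sub_eq_iff_eq_add] at e1
    rw [e1]
    simp [cc, div_eq_mul_inv, ← ofReal_inv]
  have h1L : 0 < 1 / Real.log P := by positivity
  have G1 : Continuous fun v : ℝ => G ((a + 1 : ℝ) + v * I) := by
    rw [hG]
    exact ser_cont ξ (by fun_prop) fun v => by rw [hline]; linarith
  have G2 : ∀ v : ℝ, ‖G ((a + 1 : ℝ) + v * I)‖ ≤ C * Real.log P := fun v => by
    rw [hG]
    refine (tsum_of_norm_bounded l1.hasSum fun n => ?_).trans l2
    rw [LSeries.norm_term_eq, hline]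
    split_ifs with hn
    · rw [hn]
      simp
    · rw [Real.rpow_neg (Nat.cast_nonneg n), ← div_eq_mul_inv, norm_mul, norm_real,
        Real.norm_of_nonneg vonMangoldt_nonneg]
      exact div_le_div_of_nonneg_right
        (mul_le_of_le_one_left vonMangoldt_nonneg (norm_pr_le ξ n)) (by positivity)
  have hz : ∀ z : ℂ, ‖z - (a + 1 : ℝ)‖ ≤ a + 1 + δ / 8 * Real.log P →
      ‖s0 P a γ + z / Real.log P - cc P γ‖ ≤ δ / 2 := fun z hz => by
    rw [s0_add hL, norm_div, hnL, div_le_iff₀ hL]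
    linarith
  have key := core hT hS (c := a + 1) (Y := δ / 8 * Real.log P) (m := M / Real.log P)
    (B := (C + 1 + 2 * M) * Real.log P) (by linarith) (by positivity) (by positivity)
    (by positivity)
    (U := fun z => (G z / Real.log P - (Z1.map fun ρ => 1 / (z - zt P a γ ρ)).sum +
      (Z.map fun ρ => 1 / (z - zt P a γ ρ)).sum) - H (cc P γ) / Real.log P)
    (H := fun z => (H (s0 P a γ + z / Real.log P) - H (cc P γ)) / Real.log P)
    ((((G1.div_const _).sub n1).add m1).sub continuous_const)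
    (fun v => by
      have a1 : ‖G ((a + 1 : ℝ) + v * I) / Real.log P‖ ≤ C := by
        rw [norm_div, hnL, div_le_iff₀ hL]
        exact G2 v
      have a2 : ‖H (cc P γ) / Real.log P‖ ≤ M := by
        rw [norm_div, hnL, div_le_iff₀ hL]
        exact z5
      refine (norm_sub_le_of_le (norm_add_le_of_le (norm_sub_le_of_le a1 ((n2 v).trans n5))
        ((m2 v).trans z3)) a2).trans ?_
      linarith)
    (((z6.comp (by fun_prop) fun z hz' => by
      rw [Metric.mem_ball, dist_eq_norm]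
      linarith [hz z hz']).sub_const _).div_const _)
    (fun z hz' => by
      have a1 := z7 _ (hz z hz')
      rw [s0_add hL, norm_div, hnL] at a1
      rw [norm_div, hnL, div_le_iff₀ hL]
      refine a1.trans (le_of_eq ?_)
      field_simp)
    (fun v hv => by
      have a1 := z8 _ (hz ((a + 1 : ℝ) + v * I) (by
        rw [add_sub_cancel_left, norm_mul, norm_I, mul_one, norm_real, Real.norm_eq_abs]
        linarith)) (by rw [hline]; linarith)
      have a2 : ∀ Z' : Multiset ℂ,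
          (Z'.map fun ρ => 1 / (((a + 1 : ℝ) : ℂ) + v * I - zt P a γ ρ)).sum =
          (Z'.map fun ρ => 1 / (s0 P a γ + (((a + 1 : ℝ) : ℂ) + v * I) / Real.log P - ρ)).sum /
            Real.log P := fun Z' => by
        rw [← Multiset.sum_map_div]
        congr 2
        funext ρ
        rw [sub_zt hL, div_div, mul_comm]
      simp only [a2, hG, a1, hZ1d]
      split_ifs <;> simp <;> ring)
  have key2 := key.trans (g1 T (a + 1) _ _ hT hT8 (by linarith) hc (by positivity) le_rfl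
    (by positivity) le_rfl)
  have hW := int_W hT hS (a + 1)
  have iG : Integrable fun v : ℝ => (Real.log P : ℂ)⁻¹ *
      (W T (√(Real.log P)) ((a + 1 : ℝ) + v * I) * G ((a + 1 : ℝ) + v * I)) :=
    (hW.mul_bdd G1.aestronglyMeasurable (Eventually.of_forall G2)).const_mul _
  have e1 : Ln (fun z => W T (√(Real.log P)) z *
      ((G z / Real.log P - (Z1.map fun ρ => 1 / (z - zt P a γ ρ)).sum +
      (Z.map fun ρ => 1 / (z - zt P a γ ρ)).sum) - H (cc P γ) / Real.log P)) (a + 1) =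
      EE T P a γ ξ - (Z1.map fun ρ => PZ T P a γ ρ).sum + (Z.map fun ρ => PZ T P a γ ρ).sum -
        H (cc P γ) / Real.log P * (gg T (√(Real.log P)) 0 : ℝ) := by
    have e2 : EE T P a γ ξ =
        Ln (fun z => (Real.log P : ℂ)⁻¹ * (W T (√(Real.log P)) z * G z)) (a + 1) := by
      rw [Ln_const_mul, EE, hG, div_eq_inv_mul]
    simp only [PZ]
    rw [e2, ← m4, ← n4, ← Ln_W hT hS (a + 1), ← Ln_const_mul, ← Ln_sub iG n3,
      ← Ln_add (iG.sub n3) m3, ← Ln_sub ((iG.sub n3).add m3) (hW.const_mul _)]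
    exact Ln_congr fun v => by ring
  rw [e1] at key2
  have k1 := (le_abs_self _).trans ((abs_re_le_norm _).trans key2)
  have k2 : ∀ Z' : Multiset ℂ, ((Z'.map fun ρ => PZ T P a γ ρ).sum).re =
      (Z'.map fun ρ => (PZ T P a γ ρ).re).sum := fun Z' => by
    induction Z' using Multiset.induction_on with
    | empty => simp
    | cons x Z' ih => simp [ih]
  have k3 : (Z1.map fun ρ => (PZ T P a γ ρ).re).sum =
      if ξ = 1 then (PZ T P a γ 1).re else 0 := by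
    rw [hZ1d]
    split_ifs <;> simp
  have k4 : (H (cc P γ) / Real.log P * (gg T (√(Real.log P)) 0 : ℝ)).re ≤ T * ph / 2 + ε / 2 := by
    rw [re_mul_ofReal, div_ofReal_re]
    have a1 : (H (cc P γ)).re / Real.log P ≤ ph / 2 + ε / 16 := (div_le_iff₀ hL).2 z4
    have a2 := mul_le_mul_of_nonneg_right a1 (gg_nonneg hT hS 0)
    have a3 := mul_le_mul_of_nonneg_left (gg_le hT hS 0) (show 0 ≤ ph / 2 + ε / 16 by positivity)
    have a4 := mul_le_mul_of_nonneg_left hT8 hε.le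
    linarith
  have k5 := ms_step Z Zs (fun ρ => ‖ρ - cc P γ‖ ≤ δ) (ord ξ) (fun ρ => (PZ T P a γ ρ).re) hε.le
    z1 hZ1 (fun ρ b1 b2 => Ph_nonneg hT hS (by linarith) (by
      rw [zt_re hL]
      linarith [hZ2 ρ b1 b2]))
    fun ρ b1 b2 => (re_le_norm _).trans (far ρ (re_lt_one_of_ord b2).le (not_le.1 b1))
  rw [sub_re, add_re, sub_re, k2, k2, k3] at k1
  linarith

end Pool.Agent.Lib.MP_778b46_nt.GX.Dh
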