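import Pool.Agent.Lib.MP_778b46_nt.GX.DhC

/- Positivity: the sums over prime powers with nonnegative combinations of characters. -/

namespace Pool.Agent.Lib.MP_778b46_nt.GX.Dh

open Complex Filter ArithmeticFunction Finset

theorem disc_pow (r : ℕ) (hr : r ≠ 0) (s : Finset ℕ) :
    ∑ n ∈ s.filter (fun n => ¬ n.Coprime r), vonMangoldt n * (n : ℝ) ^ (-(1 / 2) : ℝ) ≤
      ∑ p ∈ r.primeFactors, 4 * (Real.log p * (p : ℝ) ^ (-(1 / 2) : ℝ)) := by
  classical
  obtain ⟨N, hN⟩ : ∃ N : ℕ, ∀ n ∈ s, n ≤ N := ⟨s.sup id, fun n hn => le_sup (f := id) hn⟩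
  have hf : ∀ n : ℕ, 0 ≤ vonMangoldt n * (n : ℝ) ^ (-(1 / 2) : ℝ) := fun n =>
    mul_nonneg vonMangoldt_nonneg (by positivity)
  rw [← sum_filter_of_ne (p := fun n => IsPrimePow n) fun n _ h =>
    vonMangoldt_ne_zero_iff.1 (left_ne_zero_of_mul h)]
  have h1 : (s.filter fun n => ¬ n.Coprime r).filter (fun n => IsPrimePow n) ⊆
      (r.primeFactors ×ˢ range N).image fun x => x.1 ^ (x.2 + 1) := by
    intro n hn
    simp only [mem_filter] at hn
    obtain ⟨⟨h2, h3⟩, h4⟩ := hn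
    obtain ⟨p, k, hp, hk, rfl⟩ := (isPrimePow_nat_iff _).1 h4
    refine mem_image.2 ⟨(p, k - 1), mem_product.2 ⟨Nat.mem_primeFactors.2 ⟨hp, ?_, hr⟩,
      mem_range.2 ?_⟩, by simp only [Nat.sub_add_cancel hk]⟩
    · by_contra h
      exact h3 (Nat.Coprime.pow_left k ((Nat.Prime.coprime_iff_not_dvd hp).2 h))
    · have := Nat.lt_pow_self (n := k) hp.one_lt
      have := hN _ h2
      omega
  refine (sum_le_sum_of_subset_of_nonneg h1 fun n _ _ => hf n).trans
    ((sum_image_le_of_nonneg fun n _ => hf n).trans ?_)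
  rw [sum_product]
  refine sum_le_sum fun p hp => ?_
  have hp1 := Nat.prime_of_mem_primeFactors hp
  have hp2 : (2 : ℝ) ≤ p := by exact_mod_cast hp1.two_le
  obtain ⟨x, hx⟩ : ∃ x : ℝ, x = (p : ℝ) ^ (-(1 / 2) : ℝ) := ⟨_, rfl⟩
  have hx0 : 0 ≤ x := by rw [hx]; positivity
  have hx1 : x ≤ 3 / 4 := by
    have a1 : x ^ 2 = (p : ℝ)⁻¹ := by
      rw [hx, ← Real.rpow_natCast, ← Real.rpow_mul (by linarith), ← Real.rpow_neg_one]
      norm_num
    have a2 : (p : ℝ)⁻¹ ≤ 2⁻¹ := inv_anti₀ (by norm_num) hp2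
    nlinarith
  have e : ∀ k : ℕ, vonMangoldt (p ^ (k + 1)) * ((p ^ (k + 1) : ℕ) : ℝ) ^ (-(1 / 2) : ℝ) =
      Real.log p * x * x ^ k := fun k => by
    rw [vonMangoldt_apply_pow (Nat.succ_ne_zero k), vonMangoldt_apply_prime hp1, Nat.cast_pow,
      ← Real.rpow_pow_comm (by linarith), ← hx]
    ring
  simp only [e]
  rw [← mul_sum, ← hx, mul_comm]
  refine mul_le_mul_of_nonneg_right ?_ (mul_nonneg (Real.log_nonneg (by linarith)) hx0)
  have a3 := geom_sum_mul_neg x N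
  have a4 : 0 ≤ ∑ k ∈ range N, x ^ k := sum_nonneg fun k _ => by positivity
  have a5 : 0 ≤ x ^ N := by positivity
  nlinarith

theorem disc_log (r : ℕ) (hr : r ≠ 0) (z : ℕ) (hz : z ≠ 0) :
    ∑ p ∈ r.primeFactors, Real.log p * (p : ℝ) ^ (-(1 / 2) : ℝ) ≤
      2 * z ^ 2 + Real.log r / z := by
  have hz0 : (0 : ℝ) < z := by positivity
  rw [← sum_filter_add_sum_filter_not _ (fun p => p < z ^ 2)]
  refine add_le_add ?_ ?_
  · refine (sum_le_card_nsmul _ _ 2 fun p hp => ?_).trans ?_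
    · have h1 : (0 : ℝ) < p := by
        exact_mod_cast (Nat.prime_of_mem_primeFactors (mem_filter.1 hp).1).pos
      have h2 := Real.log_le_rpow_div h1.le (show (0 : ℝ) < 1 / 2 by norm_num)
      have h3 : (p : ℝ) ^ (1 / 2 : ℝ) * (p : ℝ) ^ (-(1 / 2) : ℝ) = 1 := by
        rw [← Real.rpow_add h1]
        simp
      have h4 := mul_le_mul_of_nonneg_right h2 (Real.rpow_nonneg h1.le (-(1 / 2) : ℝ))
      linarith
    · have h1 : (r.primeFactors.filter fun p => p < z ^ 2).card ≤ z ^ 2 := by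
        refine (card_le_card fun p hp => mem_range.2 (mem_filter.1 hp).2).trans ?_
        rw [card_range]
      have h2 : ((r.primeFactors.filter fun p => p < z ^ 2).card : ℝ) ≤ z ^ 2 := by
        exact_mod_cast h1
      rw [nsmul_eq_mul]
      linarith
  · have h1 : ∑ p ∈ r.primeFactors, Real.log p ≤ Real.log r := by
      rw [← Real.log_prod fun p hp => by
        exact_mod_cast (Nat.prime_of_mem_primeFactors hp).ne_zero, ← Nat.cast_prod]
      refine Real.log_le_log ?_ ?_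
      · exact_mod_cast prod_pos fun p hp => (Nat.prime_of_mem_primeFactors hp).pos
      · exact_mod_cast Nat.le_of_dvd (Nat.pos_of_ne_zero hr) (Nat.prod_primeFactors_dvd r)
    refine le_trans ?_ (div_le_div_of_nonneg_right h1 hz0.le)
    rw [sum_div]
    refine (sum_le_sum fun p hp => ?_).trans (sum_le_sum_of_subset_of_nonneg (filter_subset _ _)
      fun p _ _ => div_nonneg (Real.log_natCast_nonneg p) hz0.le)
    have h2 : ((z : ℝ)) ^ 2 ≤ p := by exact_mod_cast not_lt.1 (mem_filter.1 hp).2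
    rw [div_eq_mul_inv]
    refine mul_le_mul_of_nonneg_left ?_ (Real.log_natCast_nonneg p)
    refine (Real.rpow_le_rpow_of_nonpos (by positivity) h2 (by norm_num)).trans (le_of_eq ?_)
    rw [← Real.rpow_natCast, ← Real.rpow_mul hz0.le, ← Real.rpow_neg_one (z : ℝ)]
    norm_num

/-- The weight of a prime power. -/
noncomputable def wt (T P a : ℝ) (n : ℕ) : ℝ :=
  vonMangoldt n * (n : ℝ) ^ (-(1 - a / Real.log P)) *
    gg T (√(Real.log P)) (Real.log n / Real.log P) / Real.log P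

/-- The function `n ^ (- i γ)`. -/
noncomputable def ch (γ : ℝ) (n : ℕ) : ℂ := exp (-((γ * Real.log n : ℝ) : ℂ) * I)

theorem norm_ch (γ : ℝ) (n : ℕ) : ‖ch γ n‖ = 1 := by
  rw [ch, ← ofReal_neg, norm_exp_ofReal_mul_I]

theorem ch_zero (n : ℕ) : ch 0 n = 1 := by simp [ch]

theorem ch_two (γ : ℝ) (n : ℕ) : ch (2 * γ) n = ch γ n ^ 2 := by
  rw [ch, ch, ← exp_nat_mul]
  congr 1
  push_cast
  ring

theorem hasSum_EE {Q : ℕ} [NeZero Q] {T P : ℝ} (hT : 0 ≤ T) (hL : 0 < Real.log P) (a γ : ℝ)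
    (ξ : DC Q) : HasSum (fun n => wt T P a n * (pr ξ n * ch γ n).re) (EE T P a γ ξ).re := by
  have h1L : 0 < 1 / Real.log P := by positivity
  have h1 := hasSum_Ln hT (Real.sqrt_pos.2 hL) (fun n => pr ξ n * (vonMangoldt n : ℂ))
    (Real.log P) (s0 P a γ) (a + 1) (by
      have e1 := s0_add hL a γ (a + 1 : ℝ)
      rw [sub_self, zero_div, sub_eq_zero] at e1
      rw [e1]
      exact DirichletCharacter.LSeriesSummable_twist_vonMangoldt ξ.primitiveCharacter
        (by simpa [cc] using hL))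
  have h2 := hasSum_re (h1.div_const (Real.log P : ℂ))
  have e : ∀ n : ℕ, (LSeries.term (fun n => pr ξ n * (vonMangoldt n : ℂ)) (s0 P a γ) n *
      (gg T (√(Real.log P)) (Real.log n / Real.log P) : ℝ) / (Real.log P : ℂ)).re =
        wt T P a n * (pr ξ n * ch γ n).re := fun n => by
    rcases eq_or_ne n 0 with rfl | hn
    · simp [wt]
    · have h0 : (n : ℂ) ≠ 0 := Nat.cast_ne_zero.2 hn
      have h3 : (0 : ℝ) < n := by positivity
      rw [← re_ofReal_mul, LSeries.term_of_ne_zero hn, wt, ch, Real.rpow_def_of_pos h3,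
        cpow_def_of_ne_zero h0, ← natCast_log, div_eq_mul_inv _ (exp _), ← exp_neg, s0]
      have e2 : -((Real.log n : ℂ) * (((1 - a / Real.log P : ℝ) : ℂ) + γ * I)) =
          ((Real.log n * -(1 - a / Real.log P) : ℝ) : ℂ) + -((γ * Real.log n : ℝ) : ℂ) * I := by
        simp only [ofReal_mul, ofReal_neg]
        ring
      rw [e2, exp_add, ← ofReal_exp]
      congr 1
      simp only [ofReal_mul, ofReal_div]
      ring
  simp only [e] at h2
  exact h2

theorem pos_sum {ε : ℝ} (hε : 0 < ε) : ∃ P0 : ℝ, ∀ P : ℝ, P0 ≤ P → ∀ T a : ℝ, 0 ≤ T → T ≤ 8 →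
    a ≤ Real.log P / 2 → ∀ r : ℕ, r ≠ 0 → (r : ℝ) ≤ P ^ 3 → ∀ (F : ℕ → ℝ) (A : ℝ),
      HasSum (fun n => wt T P a n * F n) A → (∀ n : ℕ, n.Coprime r → 0 ≤ F n) →
      (∀ n, -2 ≤ F n) → -ε ≤ A := by
  obtain ⟨z, hz⟩ := exists_nat_gt (384 / ε)
  have hz0 : (0 : ℝ) < z := lt_trans (by positivity) hz
  obtain ⟨P0, hP0⟩ := eventually_atTop.1 ((Real.tendsto_log_atTop.eventually
    (eventually_ge_atTop (256 * (z : ℝ) ^ 2 / ε))).and (eventually_ge_atTop 1))
  refine ⟨P0, fun P hP T a hT hT8 ha r hr hrP F A hA h1 h2 => ge_of_tendsto' hA fun s => ?_⟩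
  obtain ⟨g1, g2⟩ := hP0 P hP
  have hL : 0 < Real.log P := lt_of_lt_of_le (by positivity) g1
  have hS := Real.sqrt_pos.2 hL
  have w0 : ∀ n, 0 ≤ wt T P a n := fun n => div_nonneg (mul_nonneg
    (mul_nonneg vonMangoldt_nonneg (by positivity)) (gg_nonneg hT hS _)) hL.le
  have w1 : ∀ n, wt T P a n ≤ 8 / Real.log P * (vonMangoldt n * (n : ℝ) ^ (-(1 / 2) : ℝ)) := by
    intro n
    rcases eq_or_ne n 0 with rfl | hn
    · simp [wt]
    · have a1 : (n : ℝ) ^ (-(1 - a / Real.log P)) ≤ (n : ℝ) ^ (-(1 / 2) : ℝ) := by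
        refine Real.rpow_le_rpow_of_exponent_le (by exact_mod_cast Nat.pos_of_ne_zero hn) ?_
        have : a / Real.log P ≤ 1 / 2 := by
          rw [div_le_iff₀ hL]
          linarith
        linarith
      have a2 := (gg_le hT hS (Real.log n / Real.log P)).trans hT8
      have a3 := gg_nonneg hT hS (Real.log n / Real.log P)
      have a4 : (0 : ℝ) ≤ vonMangoldt n := vonMangoldt_nonneg
      calc wt T P a n ≤ vonMangoldt n * (n : ℝ) ^ (-(1 / 2) : ℝ) * 8 / Real.log P := by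
            unfold wt
            gcongr
        _ = _ := by ring
  have b1 := (disc_pow r hr s).trans (le_of_eq (mul_sum _ _ _).symm)
  have b2 := disc_log r hr z (by exact_mod_cast hz0.ne')
  have b3 : Real.log r ≤ 3 * Real.log P := by
    have := Real.log_le_log (by positivity) hrP
    rwa [Real.log_pow] at this
  have b4 : Real.log r / z ≤ ε / 128 * Real.log P := by
    rw [div_lt_iff₀ hε] at hz
    rw [div_le_iff₀ hz0]
    nlinarith
  have b5 : 2 * (z : ℝ) ^ 2 ≤ ε / 128 * Real.log P := by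
    rw [div_le_iff₀ hε] at g1
    linarith
  have b6 : ∑ n ∈ s.filter (fun n => ¬ n.Coprime r), wt T P a n ≤ ε / 2 := by
    refine (sum_le_sum fun n _ => w1 n).trans ?_
    rw [← mul_sum, div_mul_eq_mul_div, div_le_iff₀ hL]
    linarith
  rw [← sum_filter_add_sum_filter_not s (fun n => n.Coprime r)]
  have b7 : 0 ≤ ∑ n ∈ s.filter (fun n => n.Coprime r), wt T P a n * F n :=
    sum_nonneg fun n hn => mul_nonneg (w0 n) (h1 n (mem_filter.1 hn).2)
  have b8 : ∑ n ∈ s.filter (fun n => ¬ n.Coprime r), wt T P a n * -2 ≤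
      ∑ n ∈ s.filter (fun n => ¬ n.Coprime r), wt T P a n * F n :=
    sum_le_sum fun n _ => mul_le_mul_of_nonneg_left (h2 n) (w0 n)
  rw [← sum_mul] at b8
  linarith

theorem re_ge {Q : ℕ} (ξ : DC Q) (γ : ℝ) (n : ℕ) : -1 ≤ (pr ξ n * ch γ n).re := by
  have h1 := abs_re_le_norm (pr ξ n * ch γ n)
  rw [norm_mul, norm_ch, mul_one] at h1
  linarith [norm_pr_le ξ n, neg_abs_le (pr ξ n * ch γ n).re]

/-- The two positivity inequalities. -/
theorem pos_EE {ε : ℝ} (hε : 0 < ε) : ∃ P0 : ℝ, ∀ P : ℝ, P0 ≤ P → ∀ T a γ : ℝ, 0 ≤ T → T ≤ 8 →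
    a ≤ Real.log P / 2 → ∀ (Q : ℕ) [NeZero Q] (ξ : DC Q), cd ξ ≤ P →
      -ε ≤ 3 * (EE T P a 0 (1 : DC Q)).re + 4 * (EE T P a γ ξ).re +
        (EE T P a (2 * γ) (ξ * ξ)).re ∧
      ∀ ψ : DC Q, ξ * ξ = 1 → cd ψ ≤ P ^ 2 →
        -ε ≤ (EE T P a 0 (1 : DC Q)).re + (EE T P a 0 (ξ * 1)).re + (EE T P a γ ψ).re +
          (EE T P a γ (ξ * ψ)).re := by
  obtain ⟨P0, h⟩ := pos_sum hε
  refine ⟨max P0 3, fun P hP T a γ hT hT8 ha Q _ ξ hξ => ?_⟩
  have hP3 : 3 ≤ P := (le_max_right _ _).trans hP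
  have hL : 0 < Real.log P := Real.log_pos (by linarith)
  have h' := h P ((le_max_left _ _).trans hP) T a hT hT8 ha
  refine ⟨h' ξ.conductor ξ.conductor_ne_zero (hξ.trans (le_self_pow₀ (by linarith) (by norm_num)))
    (fun n => 3 * (pr (1 : DC Q) n * ch 0 n).re + 4 * (pr ξ n * ch γ n).re +
      (pr (ξ * ξ) n * ch (2 * γ) n).re) _ ?_ (fun n hn => ?_) fun n => ?_, fun ψ h2 hψ =>
    h' (ξ.conductor * ψ.conductor) (mul_ne_zero ξ.conductor_ne_zero ψ.conductor_ne_zero) ?_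
      (fun n => (pr (1 : DC Q) n * ch 0 n).re + (pr (ξ * 1) n * ch 0 n).re + (pr ψ n * ch γ n).re +
        (pr (ξ * ψ) n * ch γ n).re) _ ?_ (fun n hn => ?_) fun n => ?_⟩
  · simpa only [mul_add, mul_left_comm] using
      (((hasSum_EE hT hL a 0 (1 : DC Q)).mul_left 3).add ((hasSum_EE hT hL a γ ξ).mul_left 4)).add
        (hasSum_EE hT hL a (2 * γ) (ξ * ξ))
  · have e : pr (ξ * ξ) n * ch (2 * γ) n = (pr ξ n * ch γ n) ^ 2 := by
      rw [pr_mul_char ξ ξ hn hn, ch_two]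
      ring
    have a1 : ‖pr ξ n * ch γ n‖ = 1 := by rw [norm_mul, norm_ch, norm_pr ξ hn, mul_one]
    rw [e, pr_triv, ch_zero, mul_one, one_re]
    generalize pr ξ n * ch γ n = v at a1
    have a2 := Complex.sq_norm v
    rw [a1, normSq_apply] at a2
    rw [sq, mul_re]
    nlinarith [sq_nonneg (v.re + 1)]
  · rw [pr_triv, ch_zero, mul_one, one_re]
    linarith [re_ge ξ γ n, re_ge (ξ * ξ) (2 * γ) n]
  · have := mul_le_mul hξ hψ (cd_pos ψ).le (by linarith)
    push_cast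
    calc _ ≤ P * P ^ 2 := this
      _ = P ^ 3 := by ring
  · simpa only [mul_add] using (((hasSum_EE hT hL a 0 (1 : DC Q)).add
      (hasSum_EE hT hL a 0 (ξ * 1))).add (hasSum_EE hT hL a γ ψ)).add (hasSum_EE hT hL a γ (ξ * ψ))
  · obtain ⟨c1, c2⟩ := Nat.coprime_mul_iff_right.1 hn
    have a1 := pr_mul_char ξ ξ c1 c1
    rw [h2, pr_triv] at a1
    have a2 := re_ge ψ γ n
    rw [pr_mul_char ξ ψ c1 c2, pr_triv, ch_zero, mul_one, mul_one, mul_one, one_re, mul_assoc]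
    rcases mul_self_eq_one_iff.1 a1.symm with a3 | a3
    · rw [a3, one_mul, one_re]
      linarith
    · rw [a3, neg_one_mul, neg_re, neg_re, one_re]
      linarith
  · have a1 := re_ge (ξ * 1) 0 n
    rw [pr_triv, ch_zero, mul_one, one_re]
    rw [ch_zero] at a1
    linarith [re_ge ψ γ n, re_ge (ξ * ψ) γ n]

end Pool.Agent.Lib.MP_778b46_nt.GX.Dh
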