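import Pool.Agent.Lib.MP_778b46_nt.GX.Ce3

/- Repulsion of zeros by a real first zero of a real character. -/

namespace Pool.Agent.Lib.MP_778b46_nt.GX

open Finset
open Pool.Agent.Lib.MP_e97e2b_nt.Ln (cut)

theorem dl2_cont (T : ℝ) : Continuous fun t : ℝ => g1 (t / T) := g1_cont.comp (by fun_prop)

theorem dl2_diff {T : ℝ} (hT : 0 < T) (x x' y : ℝ) : RR T x y - RR T x' y =
    ∫ t in (0 : ℝ)..T, g1 (t / T) * (Real.exp (-(x * t)) - Real.exp (-(x' * t))) *
      Real.cos (y * t) := by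
  have hc := dl2_cont T
  rw [RR_eq hT, RR_eq hT, ← intervalIntegral.integral_sub (Continuous.intervalIntegrable
    (by fun_prop) _ _) (Continuous.intervalIntegrable (by fun_prop) _ _)]
  refine intervalIntegral.integral_congr fun t _ => ?_
  ring

theorem dl2_g {T t : ℝ} (hT : 0 < T) (ht : t ∈ Set.Icc 0 T) : 0 ≤ g1 (t / T) :=
  g1_nonneg (div_nonneg ht.1 hT.le) ((div_le_one hT).2 ht.2)

/-- Comparison of differences of transforms. -/
theorem dl2_cmp {T x x' u u' c : ℝ} (hT : 0 < T) (hx : x ≤ x') (y : ℝ)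
    (h : ∀ t, 0 ≤ t → t ≤ T → Real.exp (-(x * t)) - Real.exp (-(x' * t)) ≤
      c * (Real.exp (-(u * t)) - Real.exp (-(u' * t)))) :
    RR T x y - RR T x' y ≤ c * (RR T u 0 - RR T u' 0) := by
  have hc := dl2_cont T
  rw [dl2_diff hT, dl2_diff hT, ← intervalIntegral.integral_const_mul]
  refine intervalIntegral.integral_mono_on hT.le (Continuous.intervalIntegrable (by fun_prop) _ _)
    (Continuous.intervalIntegrable (by fun_prop) _ _) fun t ht => ?_
  have h1 : 0 ≤ Real.exp (-(x * t)) - Real.exp (-(x' * t)) :=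
    sub_nonneg.2 (Real.exp_le_exp.2 (neg_le_neg (mul_le_mul_of_nonneg_right hx ht.1)))
  have h2 := dl2_g hT ht
  rw [zero_mul, Real.cos_zero, mul_one, mul_left_comm]
  exact (mul_le_of_le_one_right (mul_nonneg h2 h1) (Real.cos_le_one _)).trans
    (mul_le_mul_of_nonneg_left (h t ht.1 ht.2) h2)

theorem dl2_mono {T s a sb l : ℝ} (hT : 0 < T) (hs : 0 ≤ s) (h1 : s ≤ sb) (h2 : a ≤ l) :
    RR T (-a) 0 - RR T (s - a) 0 ≤ RR T (-l) 0 - RR T (sb - l) 0 := by
  refine (dl2_cmp (c := 1) hT (by linarith) 0 fun t h0 _ => ?_).trans (one_mul _).le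
  have e : ∀ b u : ℝ, Real.exp (-(-b * t)) - Real.exp (-((u - b) * t)) =
      Real.exp (b * t) * (1 - Real.exp (-(u * t))) := fun b u => by
    rw [show -((u - b) * t) = b * t + -(u * t) by ring, Real.exp_add, neg_mul, neg_neg]
    ring
  rw [one_mul, e, e]
  have k1 : Real.exp (-(s * t)) ≤ 1 := Real.exp_le_one_iff.2 (neg_nonpos.2 (mul_nonneg hs h0))
  have k2 : Real.exp (-(sb * t)) ≤ Real.exp (-(s * t)) :=
    Real.exp_le_exp.2 (neg_le_neg (mul_le_mul_of_nonneg_right h1 h0))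
  exact mul_le_mul (Real.exp_le_exp.2 (mul_le_mul_of_nonneg_right h2 h0)) (by linarith)
    (by linarith) (Real.exp_pos _).le

theorem dl2_lin {T s a l δ m : ℝ} (hT : 0 < T) (hs : 0 ≤ s) (hδ : 0 < δ) (hm : 0 ≤ m)
    (h2 : (a - l) * T ≤ m) :
    RR T (-a) 0 - RR T (s - a) 0 ≤
      s / δ * Real.exp m * (RR T (-(l + δ)) 0 - RR T (-l) 0) := by
  refine dl2_cmp hT (by linarith) 0 fun t h0 h1 => ?_
  have e1 : Real.exp (-(-a * t)) - Real.exp (-((s - a) * t)) =
      Real.exp ((a - l) * t) * (Real.exp (l * t) * (1 - Real.exp (-(s * t)))) := by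
    rw [show -((s - a) * t) = (a - l) * t + l * t + -(s * t) by ring,
      show -(-a * t) = (a - l) * t + l * t by ring]
    simp only [Real.exp_add]
    ring
  have e2 : s / δ * Real.exp m * (Real.exp (-(-(l + δ) * t)) - Real.exp (-(-l * t))) =
      Real.exp m * (Real.exp (l * t) * (s / δ * (Real.exp (δ * t) - 1))) := by
    rw [show -(-(l + δ) * t) = l * t + δ * t by ring, Real.exp_add, neg_mul, neg_neg]
    ring
  have k1 : Real.exp (-(s * t)) ≤ 1 := Real.exp_le_one_iff.2 (neg_nonpos.2 (mul_nonneg hs h0))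
  have k2 : 1 - Real.exp (-(s * t)) ≤ s / δ * (Real.exp (δ * t) - 1) := by
    have a1 := Real.add_one_le_exp (-(s * t))
    have a2 := mul_le_mul_of_nonneg_left (le_sub_iff_add_le.2 (Real.add_one_le_exp (δ * t)))
      (div_nonneg hs hδ.le)
    have a3 : s / δ * (δ * t) = s * t := by field_simp
    linarith
  have k3 : (a - l) * t ≤ m := by
    rcases le_total 0 (a - l) with h | h
    · exact (mul_le_mul_of_nonneg_left h1 h).trans h2
    · exact (mul_nonpos_of_nonpos_of_nonneg h h0).trans hm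
  rw [e1, e2]
  exact mul_le_mul (Real.exp_le_exp.2 k3) (mul_le_mul_of_nonneg_left k2 (Real.exp_pos _).le)
    (mul_nonneg (Real.exp_pos _).le (by linarith)) (Real.exp_pos _).le

section

variable {Γ Ω ι : Type} [CommGroup Γ] [Fintype Ω] [Fintype ι] {D : Dat Γ Ω ι} {φ ε H : ℝ}
  {psF psC : List MP}

open Classical in
/-- The product of the two linear factors, with the second zero as the tilt. -/
theorem Clean.dl2_core (h : Clean D φ ε H psF psC) (hφ : 0 ≤ φ) {i j : ι}
    (hr : D.ch i * D.ch i = 1) (hm : D.mu i = 0) (hj : j ≠ i)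
    (hmin : ∀ k, k ≠ i → D.lam j ≤ D.lam k) {T : ℝ} (hT : 1 / 2 ≤ T) (hT8 : T ≤ 8) :
    (D.ch j ≠ D.ch i → 5 / 12 * T ≤ (RR T (-D.lam j) 0 - RR T (D.lam i - D.lam j) 0) +
      3 / 2 * φ + 4 * (ε * BH H)) ∧
    (D.ch j = D.ch i → 5 / 12 * T ≤ 2 * (RR T (-D.lam j) 0 - RR T (D.lam i - D.lam j) 0) +
      φ + 4 * (ε * BH H)) := by
  have hT0 : 0 < T := by linarith
  have ha := h.lam_nonneg j
  have haH := h.lam_le j
  have hb := abs_le.1 (h.mu_le j)
  have hY : 0 ≤ D.Ym := (abs_nonneg _).trans (h.mu_le j)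
  have key := E_prod D h.norm_ev (h.w_nonneg hT0 (D.lam j)) 0 (D.mu j) (D.ch i) (D.ch j)
  have y0 : |(0 : ℝ)| ≤ 4 * D.Ym := by rw [abs_zero]; linarith
  have y1 : |D.mu j| ≤ 4 * D.Ym := abs_le.2 ⟨by linarith, by linarith⟩
  have y2 : |0 + D.mu j| ≤ 4 * D.Ym := abs_le.2 ⟨by linarith, by linarith⟩
  have y3 : |0 - D.mu j| ≤ 4 * D.Ym := abs_le.2 ⟨by linarith, by linarith⟩
  have e0 := h.ef_one rfl y0 hT hT8 ha haH
  have e1 := h.ef_ne hφ (h.ch_ne_one i) y0 hT hT8 ha haH {i} (by simp)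
    fun k hk _ => hmin k (notMem_singleton.1 hk)
  rw [sum_singleton, hm, sub_self] at e1
  have hinv : (D.ch i)⁻¹ = D.ch i := inv_eq_of_mul_eq_one_right hr
  refine ⟨fun hne => ?_, fun he => ?_⟩
  · have e2 := h.ef_ne hφ (h.ch_ne_one j) y1 hT hT8 ha haH {j} (by simp)
      fun k _ hk => hmin k fun e => hne (by rw [← hk, e])
    rw [sum_singleton, sub_self, sub_self, RR_zero] at e2
    have e3 := h.ef_ne hφ (ξ := D.ch i * D.ch j)
      (fun e => hne (by rw [← hinv]; exact (inv_eq_of_mul_eq_one_right e).symm)) y2 hT hT8 ha haH ∅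
      (by simp) fun k _ hk => hmin k fun e => h.ch_ne_one j (by
        rw [e] at hk
        exact mul_eq_left.1 hk.symm)
    have e4 := h.ef_ne hφ (ξ := D.ch i / D.ch j) (fun e => hne (div_eq_one.1 e).symm) y3 hT hT8 ha
      haH ∅ (by simp) fun k _ hk => hmin k fun e => h.ch_ne_one j (by
        rw [e] at hk
        exact div_eq_self.1 hk.symm)
    rw [sum_empty] at e3 e4
    linarith
  · have e2 := h.ef_ne hφ (h.ch_ne_one j) y1 hT hT8 ha haH {j, i} (by simp [he])
      fun k hk _ => hmin k fun e => hk (by simp [e])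
    rw [sum_pair hj, sub_self, sub_self, RR_zero, hm, zero_sub, RR_neg] at e2
    have e3 := h.ef_one (ξ := D.ch i * D.ch j) (by rw [he, hr]) y2 hT hT8 ha haH
    have e4 := h.ef_one (ξ := D.ch i / D.ch j) (by rw [he, div_self']) y3 hT hT8 ha haH
    rw [zero_add] at e3
    rw [zero_sub, RR_neg] at e4
    have e5 := dl2_cmp (c := 1) (x := -D.lam j) (x' := D.lam i - D.lam j) hT0
      (by linarith [h.lam_nonneg i]) (D.mu j) fun t _ _ => (one_mul _).ge
    rw [zero_add, zero_sub] at key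
    linarith

end

variable {φ : ℝ} {psF psC : List MP}

theorem dl2_min {ι : Type} [Fintype ι] (f : ι → ℝ) {i j : ι} (hj : j ≠ i) :
    ∃ j', j' ≠ i ∧ ∀ k, k ≠ i → f j' ≤ f k := by
  classical
  obtain ⟨j', h1, h2⟩ := exists_min_image (univ.filter fun k => k ≠ i) f ⟨j, by simpa using hj⟩
  exact ⟨j', (mem_filter.1 h1).2, fun k hk => h2 k (by simpa using hk)⟩

theorem dl2_ev {sb l T T' c : ℝ} (hφ : 0 ≤ φ) (hc : 0 < c) (hT : 1 / 2 ≤ T) (hT8 : T ≤ 8)
    (hT' : 1 / 2 ≤ T') (hT8' : T' ≤ 8)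
    (h1 : RR T (-l) 0 - RR T (sb - l) 0 + 3 / 2 * φ + 4 * c < 5 / 12 * T)
    (h2 : 2 * (RR T' (-l) 0 - RR T' (sb - l) 0) + φ + 4 * c < 5 / 12 * T') :
    Ev φ psF psC (Dh2P sb l) := by
  refine Ev.of_small hc fun _ _ _ _ _ _ D ε H _ _ he hD i _ hr hm hs j hj => ?_
  obtain ⟨j', hj', hmin⟩ := dl2_min D.lam hj
  refine le_trans (not_lt.1 fun hl => ?_) (hmin j hj)
  by_cases hch : D.ch j' = D.ch i
  · have k1 := (hD.dl2_core hφ hr hm hj' hmin hT' hT8').2 hch
    have k2 := dl2_mono (T := T') (by linarith) (hD.lam_nonneg i) hs hl.le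
    linarith
  · have k1 := (hD.dl2_core hφ hr hm hj' hmin hT hT8).1 hch
    have k2 := dl2_mono (T := T) (by linarith) (hD.lam_nonneg i) hs hl.le
    linarith

theorem dl2_lin_ev {s1 l1 T δ c : ℝ} (hφ : 0 ≤ φ) (hc : 0 < c) (hT : 1 / 2 ≤ T) (hT8 : T ≤ 8)
    (hδ : 0 < δ) (hs1 : 0 < s1)
    (h1 : s1 / δ * (RR T (-(l1 + δ)) 0 - RR T (-l1) 0) + 3 / 2 * φ + 4 * c < 5 / 12 * T)
    (h2 : 2 * (s1 / δ * (RR T (-(l1 + δ)) 0 - RR T (-l1) 0)) + φ + 4 * c < 5 / 12 * T) :
    Ev φ psF psC (DhLP T l1 s1) := by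
  refine Ev.of_small hc fun _ _ _ _ _ _ D ε H _ _ he hD i _ hr hm hs j hj => ?_
  obtain ⟨j', hj', hmin⟩ := dl2_min D.lam hj
  have hT0 : 0 < T := by linarith
  have hs0 := hD.lam_nonneg i
  set M := RR T (-(l1 + δ)) 0 - RR T (-l1) 0 with hM
  have hM0 : 0 ≤ M := sub_nonneg.2 (RR_anti hT0.le (by linarith))
  have k0 : s1 / δ * M < RR T (-D.lam j') 0 - RR T (D.lam i - D.lam j') 0 := by
    have k1 := hD.dl2_core hφ hr hm hj' hmin hT hT8
    by_cases hch : D.ch j' = D.ch i
    · linarith [k1.2 hch]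
    · linarith [k1.1 hch]
  have k1 : ∀ m, 0 ≤ m → (D.lam j' - l1) * T ≤ m → s1 < D.lam i * Real.exp m := fun m h0 hm' => by
    have k2 := k0.trans_le (dl2_lin hT0 hs0 hδ h0 hm')
    have k3 := lt_of_mul_lt_mul_right k2 hM0
    rwa [div_mul_eq_mul_div, div_lt_div_iff_of_pos_right hδ] at k3
  rcases le_total ((D.lam j' - l1) * T) 0 with h0 | h0
  · have k2 := k1 0 le_rfl h0
    rw [Real.exp_zero, mul_one] at k2
    linarith
  · have k2 := (k1 _ h0 le_rfl).le
    have k3 : Real.exp (-(T * D.lam j)) ≤ Real.exp (-(T * D.lam j')) :=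
      Real.exp_le_exp.2 (neg_le_neg (mul_le_mul_of_nonneg_left (hmin j hj) hT0.le))
    calc _ ≤ Real.exp (-(T * D.lam j')) * (D.lam i * Real.exp ((D.lam j' - l1) * T)) :=
          mul_le_mul k3 k2 hs1.le (Real.exp_pos _).le
      _ = _ := by
          rw [show -(T * l1) = -(T * D.lam j') + (D.lam j' - l1) * T by ring, Real.exp_add]
          ring

/-! ### Numerical instances -/

theorem dl2_up {T x w E : ℝ} (hT : 0 ≤ T) (hw : x * T = -w) (h0 : w ≠ 0) (hE : Real.exp w ≤ E) :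
    RR T x 0 ≤ T * ((-w ^ 5 + 10 * w ^ 3 + 30 * w ^ 2 - 120 + 30 * (2 - w) ^ 2 * E) / w ^ 6) := by
  rw [RR, zero_mul, hw, RF_real (neg_ne_zero.2 h0), neg_neg, show (-w) ^ 6 = w ^ 6 by ring]
  refine mul_le_mul_of_nonneg_left (div_le_div_of_nonneg_right ?_ (by positivity)) hT
  have := mul_le_mul_of_nonneg_left hE (show 0 ≤ 30 * (2 - w) ^ 2 by positivity)
  linarith

theorem dl2_lo {T x w E : ℝ} (hT : 0 ≤ T) (hw : x * T = -w) (h0 : w ≠ 0) (hE : E ≤ Real.exp w) :
    T * ((-w ^ 5 + 10 * w ^ 3 + 30 * w ^ 2 - 120 + 30 * (2 - w) ^ 2 * E) / w ^ 6) ≤ RR T x 0 := by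
  rw [RR, zero_mul, hw, RF_real (neg_ne_zero.2 h0), neg_neg, show (-w) ^ 6 = w ^ 6 by ring]
  refine mul_le_mul_of_nonneg_left (div_le_div_of_nonneg_right ?_ (by positivity)) hT
  have := mul_le_mul_of_nonneg_left hE (show 0 ≤ 30 * (2 - w) ^ 2 by positivity)
  linarith

theorem dl2_eU {w b E : ℝ} (h0 : 0 ≤ w) (h1 : w ≤ 8)
    (hb : ∑ m ∈ range 14, (w / 8) ^ m / m.factorial + (w / 8) ^ 14 * 15 / (87178291200 * 14) ≤ b)
    (hE : b ^ 8 ≤ E) : Real.exp w ≤ E := by
  have k := Real.exp_bound' (x := w / 8) (by linarith) (by linarith) (n := 14) (by norm_num)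
  have k2 : Real.exp (w / 8) ≤ b := by
    refine k.trans (le_trans (le_of_eq ?_) hb)
    norm_num [Nat.factorial]
  rw [show w = (8 : ℕ) * (w / 8) by push_cast; ring, Real.exp_nat_mul]
  exact (pow_le_pow_left₀ (Real.exp_pos _).le k2 8).trans hE

theorem dl2_eL {w b E : ℝ} (h0 : 0 ≤ w) (hb0 : 0 ≤ b)
    (hb : b ≤ ∑ m ∈ range 14, (w / 8) ^ m / m.factorial) (hE : E ≤ b ^ 8) : E ≤ Real.exp w := by
  have k := hb.trans (Real.sum_le_exp_of_nonneg (by linarith) 14)
  rw [show w = (8 : ℕ) * (w / 8) by push_cast; ring, Real.exp_nat_mul]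
  exact hE.trans (pow_le_pow_left₀ hb0 k 8)

theorem dl2_a (hφ : 0 ≤ φ) (hφ' : φ ≤ 0.334) : Ev φ psF psC (Dh2P 0.02 4.32) := by
  have : RR 1.45 (-4.32) 0 ≤ 6.73043756 := (dl2_up (w := 6.264) (E := 525.31600720656) (by norm_num) (by norm_num)
    (by norm_num) (dl2_eU (b := 2.18802650874389) (by norm_num) (by norm_num)
      (by norm_num [sum_range_succ, Nat.factorial]) (by norm_num))).trans (by norm_num)
  have : 6.62955406 ≤ RR 1.45 (0.02 - 4.32) 0 := le_trans (by norm_num) (dl2_lo (w := 6.235) (E := 510.30061844758)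
    (by norm_num) (by norm_num) (by norm_num) (dl2_eL (b := 2.18010927131194) (by norm_num) (by norm_num)
      (by norm_num [sum_range_succ, Nat.factorial]) (by norm_num)))
  have : RR 1.3 (-4.32) 0 ≤ 4.342537 := (dl2_up (w := 5.616) (E := 274.78802987705) (by norm_num) (by norm_num)
    (by norm_num) (dl2_eU (b := 2.01778424307719) (by norm_num) (by norm_num)
      (by norm_num [sum_range_succ, Nat.factorial]) (by norm_num))).trans (by norm_num)
  have : 4.2872031 ≤ RR 1.3 (0.02 - 4.32) 0 := le_trans (by norm_num) (dl2_lo (w := 5.59) (E := 267.73561971355)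
    (by norm_num) (by norm_num) (by norm_num) (dl2_eL (b := 2.01123708917504) (by norm_num) (by norm_num)
      (by norm_num [sum_range_succ, Nat.factorial]) (by norm_num)))
  exact dl2_ev (T := 1.45) (T' := 1.3) (c := 0.00001) hφ (by norm_num) (by norm_num) (by norm_num)
    (by norm_num) (by norm_num) (by linarith) (by linarith)

theorem dl2_b (hφ : 0 ≤ φ) (hφ' : φ ≤ 0.334) : Ev φ psF psC (Dh2P 0.1 2.5) := by
  have : RR 1.6 (-2.5) 0 ≤ 2.54991329 := (dl2_up (w := 4) (E := 54.59815003315) (by norm_num) (by norm_num)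
    (by norm_num) (dl2_eU (b := 1.64872127070013) (by norm_num) (by norm_num)
      (by norm_num [sum_range_succ, Nat.factorial]) (by norm_num))).trans (by norm_num)
  have : 2.38497545 ≤ RR 1.6 (0.1 - 2.5) 0 := le_trans (by norm_num) (dl2_lo (w := 3.84) (E := 46.52547443978)
    (by norm_num) (by norm_num) (by norm_num) (dl2_eL (b := 1.61607440219289) (by norm_num) (by norm_num)
      (by norm_num [sum_range_succ, Nat.factorial]) (by norm_num)))
  have : RR 1.3 (-2.5) 0 ≤ 1.52953416 := (dl2_up (w := 3.25) (E := 25.7903399172) (by norm_num) (by norm_num)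
    (by norm_num) (dl2_eU (b := 1.50117780000013) (by norm_num) (by norm_num)
      (by norm_num [sum_range_succ, Nat.factorial]) (by norm_num))).trans (by norm_num)
  have : 1.45490002 ≤ RR 1.3 (0.1 - 2.5) 0 := le_trans (by norm_num) (dl2_lo (w := 3.12) (E := 22.64637964317)
    (by norm_num) (by norm_num) (by norm_num) (dl2_eL (b := 1.47698079388264) (by norm_num) (by norm_num)
      (by norm_num [sum_range_succ, Nat.factorial]) (by norm_num)))
  exact dl2_ev (T := 1.6) (T' := 1.3) (c := 0.00001) hφ (by norm_num) (by norm_num) (by norm_num)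
    (by norm_num) (by norm_num) (by linarith) (by linarith)

theorem dl2_c (hφ : 0 ≤ φ) (hφ' : φ ≤ 0.334) : Ev φ psF psC (Dh2P 0.3 1.28) := by
  have : RR 1.8 (-1.28) 0 ≤ 1.49688655 := (dl2_up (w := 2.304) (E := 10.0141590846) (by norm_num) (by norm_num)
    (by norm_num) (dl2_eU (b := 1.33375730412339) (by norm_num) (by norm_num)
      (by norm_num [sum_range_succ, Nat.factorial]) (by norm_num))).trans (by norm_num)
  have : 1.24931698 ≤ RR 1.8 (0.3 - 1.28) 0 := le_trans (by norm_num) (dl2_lo (w := 1.764) (E := 5.83573370554)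
    (by norm_num) (by norm_num) (by norm_num) (dl2_eL (b := 1.24669992473822) (by norm_num) (by norm_num)
      (by norm_num [sum_range_succ, Nat.factorial]) (by norm_num)))
  have : RR 1.3 (-1.28) 0 ≤ 0.87373808 := (dl2_up (w := 1.664) (E := 5.28039021847) (by norm_num) (by norm_num)
    (by norm_num) (dl2_eU (b := 1.23121316954887) (by norm_num) (by norm_num)
      (by norm_num [sum_range_succ, Nat.factorial]) (by norm_num))).trans (by norm_num)
  have : 0.7737575 ≤ RR 1.3 (0.3 - 1.28) 0 := le_trans (by norm_num) (dl2_lo (w := 1.274) (E := 3.57512449744)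
    (by norm_num) (by norm_num) (by norm_num) (dl2_eL (b := 1.172631067806) (by norm_num) (by norm_num)
      (by norm_num [sum_range_succ, Nat.factorial]) (by norm_num)))
  exact dl2_ev (T := 1.8) (T' := 1.3) (c := 0.00001) hφ (by norm_num) (by norm_num) (by norm_num)
    (by norm_num) (by norm_num) (by linarith) (by linarith)

theorem dl2_d (hφ : 0 ≤ φ) (hφ' : φ ≤ 0.334) : Ev φ psF psC (Dh2P 0.43 0.77) := by
  have : RR 2 (-0.77) 0 ≤ 1.29241006 := (dl2_up (w := 1.54) (E := 4.66459027099) (by norm_num) (by norm_num)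
    (by norm_num) (dl2_eU (b := 1.21227650370745) (by norm_num) (by norm_num)
      (by norm_num [sum_range_succ, Nat.factorial]) (by norm_num))).trans (by norm_num)
  have : 1.00060122 ≤ RR 2 (0.43 - 0.77) 0 := le_trans (by norm_num) (dl2_lo (w := 0.68) (E := 1.97387773223)
    (by norm_num) (by norm_num) (by norm_num) (dl2_eL (b := 1.08871706669839) (by norm_num) (by norm_num)
      (by norm_num [sum_range_succ, Nat.factorial]) (by norm_num)))
  have : RR 1.4 (-0.77) 0 ≤ 0.78569183 := (dl2_up (w := 1.078) (E := 2.9387960774) (by norm_num) (by norm_num)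
    (by norm_num) (dl2_eU (b := 1.14425068591903) (by norm_num) (by norm_num)
      (by norm_num [sum_range_succ, Nat.factorial]) (by norm_num))).trans (by norm_num)
  have : 0.66187501 ≤ RR 1.4 (0.43 - 0.77) 0 := le_trans (by norm_num) (dl2_lo (w := 0.476) (E := 1.60962301595)
    (by norm_num) (by norm_num) (by norm_num) (dl2_eL (b := 1.06130576097953) (by norm_num) (by norm_num)
      (by norm_num [sum_range_succ, Nat.factorial]) (by norm_num)))
  exact dl2_ev (T := 2) (T' := 1.4) (c := 0.00001) hφ (by norm_num) (by norm_num) (by norm_num)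
    (by norm_num) (by norm_num) (by linarith) (by linarith)

theorem dl2_L (hφ : 0 ≤ φ) (hφ' : φ ≤ 0.334) : Ev φ psF psC (DhLP 1.4 5.65 0.006) := by
  have : RR 1.4 (-(5.65 + 0.05)) 0 ≤ 16.85615674 := (dl2_up (w := 7.98) (E := 2921.93106408161) (by norm_num) (by norm_num)
    (by norm_num) (dl2_eU (b := 2.71149461144419) (by norm_num) (by norm_num)
      (by norm_num [sum_range_succ, Nat.factorial]) (by norm_num))).trans (by norm_num)
  have : 16.17812854 ≤ RR 1.4 (-5.65) 0 := le_trans (by norm_num) (dl2_lo (w := 7.91) (E := 2724.39046625573)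
    (by norm_num) (by norm_num) (by norm_num) (dl2_eL (b := 2.68787253089949) (by norm_num) (by norm_num)
      (by norm_num [sum_range_succ, Nat.factorial]) (by norm_num)))
  exact dl2_lin_ev (δ := 0.05) (c := 0.00001) hφ (by norm_num) (by norm_num) (by norm_num)
    (by norm_num) (by norm_num) (by linarith) (by linarith)

end Pool.Agent.Lib.MP_778b46_nt.GX
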