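import Pool.Agent.Lib.MP_778b46_nt.GX.Dl

/- Repulsion inside the class of a real first zero of a real character. -/

namespace Pool.Agent.Lib.MP_778b46_nt.GX

open Finset
open Pool.Agent.Lib.MP_e97e2b_nt.Ln (cut)

/-- Repulsion of the zeros in the class of a real first zero. -/
def Dh2C (sb lc : ℝ) : MProp := fun _ _ _ _ _ _ D =>
  ∀ i, (∀ k, D.lam i ≤ D.lam k) → D.ch i * D.ch i = 1 → D.mu i = 0 → D.lam i ≤ sb →
    ∀ j, j ≠ i → D.sm (D.ch i / D.ch j) → lc ≤ D.lam j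

/-- The same in linear form. -/
def DhLC (T lc s1 : ℝ) : MProp := fun _ _ _ _ _ _ D =>
  ∀ i, (∀ k, D.lam i ≤ D.lam k) → D.ch i * D.ch i = 1 → D.mu i = 0 → D.lam i ≤ s1 →
    ∀ j, j ≠ i → D.sm (D.ch i / D.ch j) →
      Real.exp (-(T * D.lam j)) * s1 ≤ Real.exp (-(T * lc)) * D.lam i

section

variable {Γ Ω ι : Type} [CommGroup Γ] [Fintype Ω] [Fintype ι] {D : Dat Γ Ω ι} {φ ε H : ℝ}
  {psF psC : List MP}

/-- A small character different from the principal one has no zeros in the list. -/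
theorem Clean.ef_sm (h : Clean D φ ε H psF psC) {ξ : Γ} (e : ξ ≠ 1) (hs : D.sm ξ) {y T a : ℝ}
    (hy : |y| ≤ 4 * D.Ym) (hT : 1 / 2 ≤ T) (hT8 : T ≤ 8) (ha : 0 ≤ a) (haH : a ≤ H) :
    D.E (cut (gT T a) T) y ξ ≤ ε * BH H := by
  have := h.efA ξ hy hT hT8 ha haH ∅ (by simp) fun k _ hk => absurd (hk ▸ hs) (h.sm_not k)
  rwa [if_neg e, if_pos hs, sum_empty, sub_zero, add_zero, zero_add] at this

open Classical in
theorem Clean.dl3_core (h : Clean D φ ε H psF psC) (hφ : 0 ≤ φ) {i j : ι}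
    (hr : D.ch i * D.ch i = 1) (hm : D.mu i = 0) (hj : j ≠ i) (hs : D.sm (D.ch i / D.ch j))
    (hmin : ∀ k, k ≠ i → D.sm (D.ch i / D.ch k) → D.lam j ≤ D.lam k) {T : ℝ} (hT : 1 / 2 ≤ T)
    (hT8 : T ≤ 8) :
    5 / 12 * T ≤ 2 * (RR T (-D.lam j) 0 - RR T (D.lam i - D.lam j) 0) + φ + 4 * (ε * BH H) := by
  have hT0 : 0 < T := by linarith
  have ha := h.lam_nonneg j
  have haH := h.lam_le j
  have hb := abs_le.1 (h.mu_le j)
  have hY : 0 ≤ D.Ym := (abs_nonneg _).trans (h.mu_le j)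
  have key := E_prod D h.norm_ev (h.w_nonneg hT0 (D.lam j)) 0 (D.mu j) (D.ch i) (D.ch j)
  have y0 : |(0 : ℝ)| ≤ 4 * D.Ym := by rw [abs_zero]; linarith
  have y1 : |D.mu j| ≤ 4 * D.Ym := abs_le.2 ⟨by linarith, by linarith⟩
  have y2 : |0 + D.mu j| ≤ 4 * D.Ym := abs_le.2 ⟨by linarith, by linarith⟩
  have y3 : |0 - D.mu j| ≤ 4 * D.Ym := abs_le.2 ⟨by linarith, by linarith⟩
  have e0 := h.ef_one rfl y0 hT hT8 ha haH
  have e1 := h.ef_ne hφ (h.ch_ne_one i) y0 hT hT8 ha haH {i} (by simp)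
    fun k hk e => hmin k (notMem_singleton.1 hk) (by rw [e, div_self']; exact h.sm_one)
  rw [sum_singleton, hm, sub_self] at e1
  have hinv : (D.ch i)⁻¹ = D.ch i := inv_eq_of_mul_eq_one_right hr
  have hD : RR T (D.lam i - D.lam j) 0 ≤ RR T (-D.lam j) 0 :=
    RR_anti hT0.le (by linarith [h.lam_nonneg i])
  by_cases he : D.ch j = D.ch i
  · have e2 := h.ef_ne hφ (h.ch_ne_one j) y1 hT hT8 ha haH {j, i} (by simp [he])
      fun k hk e => hmin k (fun e => hk (by simp [e])) (e ▸ hs)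
    rw [sum_pair hj, sub_self, sub_self, RR_zero, hm, zero_sub, RR_neg] at e2
    have e3 := h.ef_one (ξ := D.ch i * D.ch j) (by rw [he, hr]) y2 hT hT8 ha haH
    have e4 := h.ef_one (ξ := D.ch i / D.ch j) (by rw [he, div_self']) y3 hT hT8 ha haH
    rw [zero_add] at e3
    rw [zero_sub, RR_neg] at e4
    have e5 := dl2_cmp (c := 1) (x := -D.lam j) (x' := D.lam i - D.lam j) hT0
      (by linarith [h.lam_nonneg i]) (D.mu j) fun t _ _ => (one_mul _).ge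
    rw [zero_add, zero_sub] at key
    linarith
  · have e2 := h.ef_ne hφ (h.ch_ne_one j) y1 hT hT8 ha haH {j} (by simp)
      fun k _ hk => hmin k (fun e => he (by rw [← hk, e])) (hk ▸ hs)
    rw [sum_singleton, sub_self, sub_self, RR_zero] at e2
    have e3 := h.ef_sm (ξ := D.ch i * D.ch j)
      (fun e => he (by rw [← hinv]; exact (inv_eq_of_mul_eq_one_right e).symm))
      (by
        have := h.sm_inv _ hs
        rwa [inv_div, div_eq_mul_inv, hinv, mul_comm] at this) y2 hT hT8 ha haH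
    have e4 := h.ef_sm (ξ := D.ch i / D.ch j) (fun e => he (div_eq_one.1 e).symm) hs y3 hT hT8 ha
      haH
    linarith

end

variable {φ : ℝ} {psF psC : List MP}

theorem dl3_min {ι : Type} [Fintype ι] (f : ι → ℝ) {p : ι → Prop} {j : ι} (hj : p j) :
    ∃ j', p j' ∧ ∀ k, p k → f j' ≤ f k := by
  classical
  obtain ⟨j', h1, h2⟩ := exists_min_image (univ.filter p) f ⟨j, by simpa using hj⟩
  exact ⟨j', (mem_filter.1 h1).2, fun k hk => h2 k (by simpa using hk)⟩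

theorem dl3_ev {sb l T c : ℝ} (hφ : 0 ≤ φ) (hc : 0 < c) (hT : 1 / 2 ≤ T) (hT8 : T ≤ 8)
    (h2 : 2 * (RR T (-l) 0 - RR T (sb - l) 0) + φ + 4 * c < 5 / 12 * T) :
    Ev φ psF psC (Dh2C sb l) := by
  refine Ev.of_small hc fun _ _ _ _ _ _ D ε H _ _ he hD i _ hr hm hs j hj hsm => ?_
  obtain ⟨j', hj', hmin⟩ := dl3_min D.lam (p := fun k => k ≠ i ∧ D.sm (D.ch i / D.ch k)) ⟨hj, hsm⟩
  refine le_trans (not_lt.1 fun hl => ?_) (hmin j ⟨hj, hsm⟩)
  have k1 := hD.dl3_core hφ hr hm hj'.1 hj'.2 (fun k a b => hmin k ⟨a, b⟩) hT hT8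
  have k2 := dl2_mono (T := T) (by linarith) (hD.lam_nonneg i) hs hl.le
  linarith

theorem dl3_lin_ev {s1 l1 T δ c : ℝ} (hφ : 0 ≤ φ) (hc : 0 < c) (hT : 1 / 2 ≤ T) (hT8 : T ≤ 8)
    (hδ : 0 < δ) (hs1 : 0 < s1)
    (h2 : 2 * (s1 / δ * (RR T (-(l1 + δ)) 0 - RR T (-l1) 0)) + φ + 4 * c < 5 / 12 * T) :
    Ev φ psF psC (DhLC T l1 s1) := by
  refine Ev.of_small hc fun _ _ _ _ _ _ D ε H _ _ he hD i _ hr hm hs j hj hsm => ?_
  obtain ⟨j', hj', hmin⟩ := dl3_min D.lam (p := fun k => k ≠ i ∧ D.sm (D.ch i / D.ch k)) ⟨hj, hsm⟩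
  have hT0 : 0 < T := by linarith
  have hs0 := hD.lam_nonneg i
  set M := RR T (-(l1 + δ)) 0 - RR T (-l1) 0 with hM
  have hM0 : 0 ≤ M := sub_nonneg.2 (RR_anti hT0.le (by linarith))
  have k0 : s1 / δ * M < RR T (-D.lam j') 0 - RR T (D.lam i - D.lam j') 0 := by
    linarith [hD.dl3_core hφ hr hm hj'.1 hj'.2 (fun k a b => hmin k ⟨a, b⟩) hT hT8]
  have k1 : ∀ m, 0 ≤ m → (D.lam j' - l1) * T ≤ m → s1 < D.lam i * Real.exp m := fun m h0 hm' => by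
    have k2 := k0.trans_le (dl2_lin hT0 hs0 hδ h0 hm')
    have k3 := lt_of_mul_lt_mul_right k2 hM0
    rwa [div_mul_eq_mul_div, div_lt_div_iff_of_pos_right hδ] at k3
  rcases le_total ((D.lam j' - l1) * T) 0 with h0 | h0
  · have k2 := k1 0 le_rfl h0
    rw [Real.exp_zero, mul_one] at k2
    linarith
  · have k2 := (k1 _ h0 le_rfl).le
    have k3 : Real.exp (-(T * D.lam j)) ≤ Real.exp (-(T * D.lam j')) :=
      Real.exp_le_exp.2 (neg_le_neg (mul_le_mul_of_nonneg_left (hmin j ⟨hj, hsm⟩) hT0.le))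
    calc _ ≤ Real.exp (-(T * D.lam j')) * (D.lam i * Real.exp ((D.lam j' - l1) * T)) :=
          mul_le_mul k3 k2 hs1.le (Real.exp_pos _).le
      _ = _ := by
          rw [show -(T * l1) = -(T * D.lam j') + (D.lam j' - l1) * T by ring, Real.exp_add]
          ring

/-! ### Rational checks -/

/-- Upper bound for the difference of the transforms. -/
def dlD (sb l T : ℚ) : ℚ := rrU T (-l) - rrL T (sb - l)

theorem dlD_ge {sb l T : ℚ} (hT : 1 / 2 ≤ T) (h0 : 0 ≤ sb) (h1 : sb < l) (h2 : l * T ≤ 20) :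
    RR T (-l) 0 - RR T (sb - l) 0 ≤ dlD sb l T := by
  have b1 := (rr_bds (x := -l) (T := T) (by linarith) (by nlinarith)
    (abs_le.2 ⟨by nlinarith, by nlinarith⟩)).2
  have b2 := (rr_bds (x := sb - l) (T := T) (by linarith) (by nlinarith)
    (abs_le.2 ⟨by nlinarith, by nlinarith⟩)).1
  unfold dlD
  push_cast at b1 b2 ⊢
  linarith

/-- Conditions for the class level: `k = 2`, `q = 1`; for the general level also `k = 1`,
`q = 3 / 2`. -/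
def dlOk (f k q sb l T : ℚ) : Prop :=
  1 / 2 ≤ T ∧ T ≤ 8 ∧ 0 ≤ sb ∧ sb < l ∧ l * T ≤ 20 ∧
    k * dlD sb l T + q * f + 4 * (1 / 1000000) < 5 / 12 * T

instance (f k q sb l T : ℚ) : Decidable (dlOk f k q sb l T) := by
  unfold dlOk
  infer_instance

theorem dlOk_spec {f k q sb l T : ℚ} (hφ : φ ≤ f) (hk : 0 ≤ k) (hq : 0 ≤ q)
    (h : dlOk f k q sb l T) : (1 / 2 : ℝ) ≤ T ∧ (T : ℝ) ≤ 8 ∧
      k * (RR T (-l) 0 - RR T (sb - l) 0) + q * φ + 4 * (1 / 1000000) < 5 / 12 * T := by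
  obtain ⟨a1, a2, a3, a4, a5, a6⟩ := h
  have b1 := (Rat.cast_le (K := ℝ)).2 a1
  have b2 := (Rat.cast_lt (K := ℝ)).2 a6
  push_cast at b1 b2
  have b3 := mul_le_mul_of_nonneg_left (dlD_ge a1 a3 a4 a5) (show (0 : ℝ) ≤ k by exact_mod_cast hk)
  have b4 := mul_le_mul_of_nonneg_left hφ (show (0 : ℝ) ≤ q by exact_mod_cast hq)
  exact ⟨b1, by exact_mod_cast a2, by linarith⟩

theorem dh2C_of {f sb l T : ℚ} (hφ : 0 ≤ φ) (hφ' : φ ≤ f) (h : dlOk f 2 1 sb l T) :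
    Ev φ psF psC (Dh2C sb l) := by
  obtain ⟨a1, a2, a3⟩ := dlOk_spec hφ' (by norm_num) (by norm_num) h
  push_cast at a3
  exact dl3_ev (c := 1 / 1000000) hφ (by norm_num) a1 a2 (by linarith)

theorem dh2P_of {f sb l T T' : ℚ} (hφ : 0 ≤ φ) (hφ' : φ ≤ f) (h : dlOk f 1 (3 / 2) sb l T)
    (h' : dlOk f 2 1 sb l T') : Ev φ psF psC (Dh2P sb l) := by
  obtain ⟨a1, a2, a3⟩ := dlOk_spec hφ' (by norm_num) (by norm_num) h
  obtain ⟨b1, b2, b3⟩ := dlOk_spec hφ' (by norm_num) (by norm_num) h'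
  push_cast at a3 b3
  exact dl2_ev (c := 1 / 1000000) hφ (by norm_num) a1 a2 b1 b2 (by linarith) (by linarith)

/-- Conditions for the linear forms. -/
def dlLOk (f k q s1 l T δ : ℚ) : Prop :=
  0 < s1 ∧ 0 < δ ∧ dlOk f (k * (s1 / δ)) q δ (l + δ) T

instance (f k q s1 l T δ : ℚ) : Decidable (dlLOk f k q s1 l T δ) := by
  unfold dlLOk
  infer_instance

theorem dlLOk_spec {f k q s1 l T δ : ℚ} (hφ : φ ≤ f) (hk : 0 ≤ k) (hq : 0 ≤ q)
    (h : dlLOk f k q s1 l T δ) : (1 / 2 : ℝ) ≤ T ∧ (T : ℝ) ≤ 8 ∧ (0 : ℝ) < δ ∧ (0 : ℝ) < s1 ∧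
      k * (s1 / δ * (RR T (-(l + δ)) 0 - RR T (-l) 0)) + q * φ + 4 * (1 / 1000000) <
        5 / 12 * T := by
  obtain ⟨a1, a2, a3⟩ := h
  obtain ⟨b1, b2, b3⟩ := dlOk_spec hφ (by positivity) hq a3
  push_cast at b3
  rw [show (δ : ℝ) - (l + δ) = -l by ring, mul_assoc] at b3
  exact ⟨b1, b2, by exact_mod_cast a2, by exact_mod_cast a1, b3⟩

theorem dhLC_of {f s1 l T δ : ℚ} (hφ : 0 ≤ φ) (hφ' : φ ≤ f) (h : dlLOk f 2 1 s1 l T δ) :
    Ev φ psF psC (DhLC T l s1) := by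
  obtain ⟨a1, a2, a3, a4, a5⟩ := dlLOk_spec hφ' (by norm_num) (by norm_num) h
  push_cast at a5
  exact dl3_lin_ev (c := 1 / 1000000) hφ (by norm_num) a1 a2 a3 a4 (by linarith)

theorem dhLP_of {f s1 l T δ : ℚ} (hφ : 0 ≤ φ) (hφ' : φ ≤ f)
    (h : dlLOk f 1 (3 / 2) s1 l T δ) (h' : dlLOk f 2 1 s1 l T δ) : Ev φ psF psC (DhLP T l s1) := by
  obtain ⟨a1, a2, a3, a4, a5⟩ := dlLOk_spec hφ' (by norm_num) (by norm_num) h
  obtain ⟨-, -, -, -, b5⟩ := dlLOk_spec hφ' (by norm_num) (by norm_num) h'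
  push_cast at a5 b5
  exact dl2_lin_ev (c := 1 / 1000000) hφ (by norm_num) a1 a2 a3 a4 (by linarith) (by linarith)

end Pool.Agent.Lib.MP_778b46_nt.GX
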