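import Pool.Agent.Lib.MP_778b46_nt.GX.Ev2

/- Repulsion by a real first zero when the second zero belongs to a character of large order. -/

namespace Pool.Agent.Lib.MP_778b46_nt.GX

open Finset Pool.Agent.Lib.MP_e97e2b_nt.Ln

variable {φ φ1 : ℝ} {psF psC qsF qsC : List MP}

section

variable {Γ Ω ι : Type} [CommGroup Γ] [Fintype Ω] [Fintype ι] {D : Dat Γ Ω ι} {Lo : Subgroup Γ}
  {ε H : ℝ}

open Classical in
theorem Clean2.dl4_core (h : Clean2 D Lo φ φ1 ε H psF psC qsF qsC) (hφ : 0 ≤ φ) (hφ1 : 0 ≤ φ1)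
    {i j : ι} (hr : D.ch i * D.ch i = 1) (hm : D.mu i = 0) (hj : D.ch j ∉ Lo)
    (hmin : ∀ k, k ≠ i → D.lam j ≤ D.lam k) {T : ℝ} (hT : 1 / 2 ≤ T) (hT8 : T ≤ 8) :
    5 / 12 * T ≤ (RR T (-D.lam j) 0 - RR T (D.lam i - D.lam j) 0) + φ1 / 2 + φ + 4 * (ε * BH H) ∧
    ∀ p, 0 ≤ p → 2 * p * (5 / 12 * T) ≤ (1 / 2 + p ^ 2) *
      (RR T (-D.lam j) 0 - RR T (D.lam i - D.lam j) 0 + φ1 / 2) + (2 * p + 1 / 2) * φ +
        (2 + 4 * p + 2 * p ^ 2) * (ε * BH H) := by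
  have hT0 : 0 < T := by linarith
  have ha := h.cl.lam_nonneg j
  have haH := h.cl.lam_le j
  have hb := abs_le.1 (h.cl.mu_le j)
  have hY : 0 ≤ D.Ym := (abs_nonneg _).trans (h.cl.mu_le j)
  have y0 : |(0 : ℝ)| ≤ 4 * D.Ym := by rw [abs_zero]; linarith
  have n4 : D.ch j ^ 4 ≠ 1 := fun e => hj (h.mem _ 4 (by norm_num) (e ▸ h.cl.sm_one))
  have n2 : D.ch j ^ 2 ≠ 1 := fun e => n4 (by rw [show 4 = 2 * 2 from rfl, pow_mul, e, one_pow])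
  have hi2 : D.ch i ^ 2 = 1 := by rw [sq, hr]
  have e0 := h.cl.ef_one rfl y0 hT hT8 ha haH
  have hi := h.real_mem hr
  have e1 : D.E (cut (gT T (D.lam j)) T) 0 (D.ch i) ≤
      -RR T (D.lam i - D.lam j) 0 + φ1 / 2 + ε * BH H := by
    have := h.lo.ef_ne hφ1 (h.lo.ch_ne_one ⟨i, hi⟩) y0 hT hT8 ha haH {⟨i, hi⟩} (by simp)
      fun k hk _ => hmin k fun e => hk (mem_singleton.2 (Subtype.ext e))
    rw [sum_singleton] at this
    change _ ≤ -RR T (D.lam i - D.lam j) (D.mu i - 0) + _ + _ at this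
    rwa [hm, sub_self] at this
  have gen : ∀ (ξ : Γ) (y : ℝ), ξ ^ 2 ≠ 1 → -(2 * D.Ym) ≤ y → y ≤ 2 * D.Ym →
      D.E (cut (gT T (D.lam j)) T) y ξ ≤ φ / 2 + ε * BH H := fun ξ y hξ y1 y2 => by
    have := h.cl.ef_ne hφ (ξ := ξ) (fun e => hξ (by rw [e, one_pow]))
      (abs_le.2 ⟨by linarith, by linarith⟩ : |y| ≤ 4 * D.Ym) hT hT8 ha haH ∅ (by simp)
      fun k _ hk => hmin k fun e => hξ (by rw [← hk, e, hi2])
    rwa [sum_empty, neg_zero, zero_add] at this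
  have e2 := h.cl.ef_ne hφ (h.cl.ch_ne_one j) (abs_le.2 ⟨by linarith, by linarith⟩ :
    |D.mu j| ≤ 4 * D.Ym) hT hT8 ha haH {j} (by simp) fun k _ hk => hmin k fun e =>
      hj (by rw [← hk, e]; exact hi)
  rw [sum_singleton, sub_self, sub_self, RR_zero] at e2
  have e3 := gen (D.ch j * D.ch i) (D.mu j + 0) (by rwa [mul_pow, hi2, mul_one])
    (by linarith) (by linarith)
  have e4 := gen (D.ch j / D.ch i) (D.mu j - 0) (by rwa [div_pow, hi2, div_one])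
    (by linarith) (by linarith)
  have q : (D.ch j * D.ch j) ^ 2 = D.ch j ^ 4 := by rw [← sq, ← pow_mul]
  refine ⟨?_, fun p hp => ?_⟩
  · have := E_prod D h.cl.norm_ev (h.cl.w_nonneg hT0 (D.lam j)) (D.mu j) 0 (D.ch j) (D.ch i)
    linarith
  have e5 := gen (D.ch j * D.ch j) (D.mu j + D.mu j) (by rwa [q]) (by linarith) (by linarith)
  have e6 := gen (D.ch j * D.ch j * D.ch i) (D.mu j + D.mu j + 0)
    (by rwa [mul_pow, hi2, mul_one, q]) (by linarith) (by linarith)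
  have e7 := gen (D.ch j * D.ch j / D.ch i) (D.mu j + D.mu j - 0)
    (by rwa [div_pow, hi2, div_one, q]) (by linarith) (by linarith)
  have := E_sqlin D h.cl.norm_ev (h.cl.w_nonneg hT0 (D.lam j)) p (D.mu j) 0 (D.ch j) (D.ch i)
  have hq : 0 ≤ 1 / 2 + p ^ 2 := by positivity
  linarith [mul_le_mul_of_nonneg_left e0 hq, mul_le_mul_of_nonneg_left e1 hq,
    mul_le_mul_of_nonneg_left e2 hp, mul_le_mul_of_nonneg_left e3 hp,
    mul_le_mul_of_nonneg_left e4 hp]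

end

/-- Linear factor if `p = 0`, the square with parameter `p` otherwise. -/
theorem dl4_ev {sb l l1 T p c : ℝ} (hφ : 0 ≤ φ) (hφ1 : 0 ≤ φ1) (hc : 0 < c) (hT : 1 / 2 ≤ T)
    (hT8 : T ≤ 8) (hp : 0 ≤ p) (hl : l ≤ l1) (hL : Ev2 φ φ1 psF psC qsF qsC (Dh2L sb l1))
    (h1 : RR T (-l) 0 - RR T (sb - l) 0 + φ1 / 2 + φ + 4 * c < 5 / 12 * T ∨
      (1 / 2 + p ^ 2) * (RR T (-l) 0 - RR T (sb - l) 0 + φ1 / 2) + (2 * p + 1 / 2) * φ +
        (2 + 4 * p + 2 * p ^ 2) * c < 2 * p * (5 / 12 * T)) :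
    Ev2 φ φ1 psF psC qsF qsC fun Γ Ω ι _ _ _ D _ => Dh2P sb l Γ Ω ι D := by
  refine (hL.and (Ev2.of_small (q := fun _ _ _ _ _ _ D Lo => ∀ i j, D.ch i * D.ch i = 1 →
    D.mu i = 0 → D.lam i ≤ sb → D.ch j ∉ Lo → (∀ k, k ≠ i → D.lam j ≤ D.lam k) → l ≤ D.lam j) hc
    fun _ _ _ _ _ _ D Lo ε H _ _ he hD i j hr hm hs hj hmin => not_lt.1 fun hl => ?_)).mono
    fun _ _ _ _ _ _ D Lo _ _ _ h i hi hr hm hs j hj => ?_
  · obtain ⟨k1, k2⟩ := hD.dl4_core hφ hφ1 hr hm hj hmin hT hT8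
    have k3 := dl2_mono (T := T) (by linarith) (hD.cl.lam_nonneg i) hs hl.le
    rcases h1 with h1 | h1
    · linarith
    · have hq : 0 ≤ 1 / 2 + p ^ 2 := by positivity
      have hq' : 0 ≤ 2 + 4 * p + 2 * p ^ 2 := by positivity
      linarith [k2 p hp, mul_le_mul_of_nonneg_left k3 hq, mul_le_mul_of_nonneg_left he hq']
  · obtain ⟨j', hj', hmin⟩ := dl2_min D.lam hj
    refine le_trans ?_ (hmin j hj)
    by_cases hm' : D.ch j' ∈ Lo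
    · exact hl.trans (h.1 i hi hr hm hs j' hj' hm')
    · exact h.2 i j' hr hm hs hm' hmin

/-- Rational conditions for the levels `l` (all zeros) and `lc` (class of the first zero). -/
def dl4Ok (f f1 sb l lc T p T1 Tc : ℚ) : Prop :=
  0 ≤ p ∧ l ≤ lc ∧ dlOk f1 1 (3 / 2) sb l T1 ∧ dlOk f1 2 1 sb l Tc ∧ dlOk f1 2 1 sb lc Tc ∧
    1 / 2 ≤ T ∧ T ≤ 8 ∧ l * T ≤ 20 ∧
    (dlD sb l T + f1 / 2 + f + 4 * (1 / 1000000) < 5 / 12 * T ∨
      (1 / 2 + p ^ 2) * (dlD sb l T + f1 / 2) + (2 * p + 1 / 2) * f +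
        (2 + 4 * p + 2 * p ^ 2) * (1 / 1000000) < 2 * p * (5 / 12 * T))

instance (f f1 sb l lc T p T1 Tc : ℚ) : Decidable (dl4Ok f f1 sb l lc T p T1 Tc) := by
  unfold dl4Ok
  infer_instance

theorem dl4_of {f f1 sb l lc T p T1 Tc : ℚ} (hφ : 0 ≤ φ) (hφ' : φ ≤ f) (hφ1 : 0 ≤ φ1)
    (hφ1' : φ1 ≤ f1) (h : dl4Ok f f1 sb l lc T p T1 Tc) :
    (Ev2 φ φ1 psF psC qsF qsC fun Γ Ω ι _ _ _ D _ => Dh2C sb lc Γ Ω ι D) ∧
      Ev2 φ φ1 psF psC qsF qsC fun Γ Ω ι _ _ _ D _ => Dh2P sb l Γ Ω ι D := by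
  obtain ⟨a1, -, a3, a4, a5, a6, a7, a8, a9⟩ := h
  have hp : (0 : ℝ) ≤ p := by exact_mod_cast a1
  have b1 := (Rat.cast_le (K := ℝ)).2 a6
  have b2 := dlD_ge a6 a3.2.2.1 a3.2.2.2.1 a8
  push_cast at b1
  refine ⟨(dh2C_of hφ1 hφ1' a5).dh2C φ psF psC, dl4_ev (c := 1 / 1000000) (p := p) hφ hφ1
    (by norm_num) b1 (by exact_mod_cast a7) hp le_rfl
    ((dh2P_of hφ1 hφ1' a3 a4).dh2L φ psF psC) (a9.imp (fun h => ?_) fun h => ?_)⟩
  all_goals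
    have b3 := (Rat.cast_lt (K := ℝ)).2 h
    push_cast at b3
  · linarith
  · have hq : (0 : ℝ) ≤ 1 / 2 + p ^ 2 := by positivity
    have hq' : (0 : ℝ) ≤ 2 * p + 1 / 2 := by positivity
    linarith [mul_le_mul_of_nonneg_left b2 hq, mul_le_mul_of_nonneg_left hφ1' hq,
      mul_le_mul_of_nonneg_left hφ' hq']

end Pool.Agent.Lib.MP_778b46_nt.GX
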