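import Pool.Agent.Lib.MP_778b46_nt.GX.Defs

/- The test function `g1`, the autocorrelation of a parabola, and its Laplace transform. -/

namespace Pool.Agent.Lib.MP_778b46_nt.GX

open Complex Finset
open Pool.Agent.Lib.MP_e97e2b_nt.Ln (Lap Tst cut)

/-- The basic test function on `[0, 1]`. -/
noncomputable def g1 (t : ℝ) : ℝ := 1 - 5 * t ^ 2 + 5 * t ^ 3 - t ^ 5

/-- The rescaled and tilted test function on `[0, T]`. -/
noncomputable def gT (T a t : ℝ) : ℝ := g1 (t / T) * Real.exp (a * t)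

/-- Laplace transform of `g1`. -/
noncomputable def F1 (w : ℂ) : ℂ := Lap g1 1 (-w)

/-- Real part of the Laplace transform of `g1`. -/
noncomputable def RF (x y : ℝ) : ℝ := (F1 (x + y * I)).re

theorem g1_eq (t : ℝ) : g1 t = (1 - t) ^ 3 * (1 + 3 * t + t ^ 2) := by
  unfold g1
  ring

theorem g1_nonneg {t : ℝ} (h0 : 0 ≤ t) (h1 : t ≤ 1) : 0 ≤ g1 t := by
  rw [g1_eq]
  exact mul_nonneg (pow_nonneg (by linarith) 3) (by positivity)

theorem g1_zero : g1 0 = 1 := by simp [g1]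

theorem g1_one : g1 1 = 0 := by norm_num [g1]

theorem g1_cont : Continuous g1 := by
  unfold g1
  fun_prop

theorem g1_anti {s t : ℝ} (h0 : 0 ≤ s) (hst : s ≤ t) (h1 : t ≤ 1) : g1 t ≤ g1 s := by
  have hd : ∀ u : ℝ, HasDerivAt g1 (-(5 * u * (1 - u) ^ 2 * (2 + u))) u := by
    intro u
    have := ((((hasDerivAt_pow 2 u).const_mul 5).const_sub 1).add
      ((hasDerivAt_pow 3 u).const_mul 5)).sub (hasDerivAt_pow 5 u)
    refine HasDerivAt.congr_deriv this ?_
    simp
    ring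
  have := antitoneOn_of_deriv_nonpos (convex_Icc (0 : ℝ) 1) g1_cont.continuousOn
    (fun u _ => (hd u).differentiableAt.differentiableWithinAt) fun u hu => by
      rw [interior_Icc] at hu
      rw [(hd u).deriv]
      have := hu.1
      exact neg_nonpos.2 (by positivity)
  exact this ⟨h0, hst.trans h1⟩ ⟨h0.trans hst, h1⟩ hst

theorem g1_le_one {t : ℝ} (h0 : 0 ≤ t) (h1 : t ≤ 1) : g1 t ≤ 1 :=
  (g1_anti le_rfl h0 h1).trans g1_zero.le

theorem RF_eq (x y : ℝ) :
    RF x y = ∫ t in (0 : ℝ)..1, g1 t * Real.exp (-(x * t)) * Real.cos (y * t) := by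
  unfold RF F1 Lap
  have hc : Continuous fun t : ℝ => (g1 t : ℂ) * exp (-((x : ℂ) + y * I) * t) := by
    have := g1_cont
    fun_prop
  rw [← reCLM_apply, ← ContinuousLinearMap.intervalIntegral_comp_comm _
    (hc.intervalIntegrable _ _)]
  refine intervalIntegral.integral_congr fun t _ => ?_
  simp only [reCLM_apply, exp_re, mul_re, mul_im, ofReal_re, ofReal_im, mul_zero,
    sub_zero, zero_add, neg_re, neg_im, add_re, add_im, I_re, I_im, mul_one, add_zero, neg_mul,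
    Real.cos_neg, zero_mul]
  ring

theorem RF_neg (x y : ℝ) : RF x (-y) = RF x y := by
  simp only [RF_eq, neg_mul, Real.cos_neg]

theorem RF_abs (x y : ℝ) : RF x |y| = RF x y := by
  rcases abs_choice y with h | h <;> rw [h]
  exact RF_neg x y

theorem RF_anti {x x' : ℝ} (h : x ≤ x') : RF x' 0 ≤ RF x 0 := by
  have := g1_cont
  simp only [RF_eq, zero_mul, Real.cos_zero, mul_one]
  refine intervalIntegral.integral_mono_on zero_le_one
    (Continuous.intervalIntegrable (by fun_prop) _ _)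
    (Continuous.intervalIntegrable (by fun_prop) _ _) fun t ht => ?_
  exact mul_le_mul_of_nonneg_left (Real.exp_le_exp.2 (by nlinarith [ht.1])) (g1_nonneg ht.1 ht.2)

theorem RF_abs_le (x y : ℝ) : |RF x y| ≤ RF x 0 := by
  have := g1_cont
  simp only [RF_eq, zero_mul, Real.cos_zero, mul_one]
  refine (intervalIntegral.abs_integral_le_integral_abs zero_le_one).trans ?_
  refine intervalIntegral.integral_mono_on zero_le_one
    (Continuous.intervalIntegrable (by fun_prop) _ _)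
    (Continuous.intervalIntegrable (by fun_prop) _ _) fun t ht => ?_
  have h := mul_nonneg (g1_nonneg ht.1 ht.2) (Real.exp_pos (-(x * t))).le
  rw [abs_mul, abs_of_nonneg h]
  exact mul_le_of_le_one_right h (Real.abs_cos_le_one _)

theorem RF_le (x y : ℝ) : RF x y ≤ RF x 0 := (le_abs_self _).trans (RF_abs_le x y)

theorem RF_zero : RF 0 0 = 5 / 12 := by
  simp only [RF_eq, zero_mul, Real.cos_zero, mul_one, neg_zero, Real.exp_zero]
  have : ∫ t in (0 : ℝ)..1, g1 t = (1 - 5 / 3 * 1 ^ 3 + 5 / 4 * 1 ^ 4 - 1 / 6 * 1 ^ 6) -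
      (0 - 5 / 3 * 0 ^ 3 + 5 / 4 * 0 ^ 4 - 1 / 6 * 0 ^ 6) := by
    refine intervalIntegral.integral_eq_sub_of_hasDerivAt
      (f := fun t : ℝ => t - 5 / 3 * t ^ 3 + 5 / 4 * t ^ 4 - 1 / 6 * t ^ 6) (fun t _ => ?_)
      (g1_cont.intervalIntegrable _ _)
    have := (((hasDerivAt_id t).sub ((hasDerivAt_pow 3 t).const_mul (5 / 3))).add
      ((hasDerivAt_pow 4 t).const_mul (5 / 4))).sub ((hasDerivAt_pow 6 t).const_mul (1 / 6))
    refine HasDerivAt.congr_deriv this ?_
    simp [g1]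
    ring
  rw [this]
  norm_num

theorem g1_ofReal (s : ℝ) : HasDerivAt (fun t : ℝ => (t : ℂ)) 1 s := ofRealCLM.hasDerivAt

theorem ep_deriv (c d a0 a1 a2 a3 a4 a5 : ℂ) (t : ℝ) :
    HasDerivAt (fun t : ℝ => exp (c * t + d) *
        (a0 + a1 * t + a2 * t ^ 2 + a3 * t ^ 3 + a4 * t ^ 4 + a5 * t ^ 5))
      (exp (c * t + d) * (c * (a0 + a1 * t + a2 * t ^ 2 + a3 * t ^ 3 + a4 * t ^ 4 + a5 * t ^ 5) +
        (a1 + 2 * a2 * t + 3 * a3 * t ^ 2 + 4 * a4 * t ^ 3 + 5 * a5 * t ^ 4))) t := by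
  have h := g1_ofReal t
  have h1 := ((h.const_mul c).add_const d).cexp
  have h2 := (((((h.const_mul a1).const_add a0).add ((h.pow 2).const_mul a2)).add
    ((h.pow 3).const_mul a3)).add ((h.pow 4).const_mul a4)).add ((h.pow 5).const_mul a5)
  refine HasDerivAt.congr_deriv (h1.mul h2) ?_
  simp
  ring

theorem F1_closed {w : ℂ} (hw : w ≠ 0) :
    F1 w = 1 / w - 10 / w ^ 3 + 30 / w ^ 4 - 120 / w ^ 6 +
      exp (-w) * (30 / w ^ 4 + 120 / w ^ 5 + 120 / w ^ 6) := by
  unfold F1 Lap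
  have hc : Continuous fun t : ℝ => (g1 t : ℂ) * exp (-w * t) := by
    have := g1_cont
    fun_prop
  rw [intervalIntegral.integral_eq_sub_of_hasDerivAt (fun t _ => HasDerivAt.congr_deriv
    (ep_deriv (-w) 0 (-(1 / w) + 10 / w ^ 3 - 30 / w ^ 4 + 120 / w ^ 6)
      (10 / w ^ 2 - 30 / w ^ 3 + 120 / w ^ 5) (5 / w - 15 / w ^ 2 + 60 / w ^ 4)
      (-(5 / w) + 20 / w ^ 3) (5 / w ^ 2) (1 / w) t) ?_) (hc.intervalIntegrable _ _)]
  · simp
    ring
  · simp only [g1, add_zero]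
    push_cast
    field_simp
    ring

/-- Transform of the parabola cut at `s`. -/
noncomputable def Ph (w : ℂ) (s : ℝ) : ℂ :=
  (s - s ^ 2) / w + (1 - 2 * s) / w ^ 2 - 2 / w ^ 3 + exp (w * s + -w) * (1 / w ^ 2 + 2 / w ^ 3)

theorem Ph_one (w : ℂ) : Ph w 1 = 0 := by
  simp [Ph]
  ring

theorem Ph_cont (w : ℂ) : Continuous (Ph w) := by
  unfold Ph
  fun_prop

theorem Ph_deriv {w : ℂ} (hw : w ≠ 0) (s : ℝ) :
    HasDerivAt (Ph w) (w * Ph w s - (s - s ^ 2)) s := by
  have h1 := ep_deriv 0 0 (1 / w ^ 2 - 2 / w ^ 3) (1 / w - 2 / w ^ 2) (-(1 / w)) 0 0 0 s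
  have h2 := ep_deriv w (-w) (1 / w ^ 2 + 2 / w ^ 3) 0 0 0 0 0 s
  refine HasDerivAt.congr_deriv ((h1.add h2).congr_of_eventuallyEq
    (Filter.Eventually.of_forall fun t => ?_)) ?_
  · simp [Ph]
    ring
  · simp only [Ph, zero_mul, add_zero, exp_zero, mul_zero]
    field_simp
    ring

theorem Ph_int {w : ℂ} (hw : w ≠ 0) :
    ∫ s in (0 : ℝ)..1, ((s : ℂ) - s ^ 2) * Ph w s = F1 w / 30 := by
  have hc : Continuous fun s : ℝ => ((s : ℂ) - s ^ 2) * Ph w s := by
    have := Ph_cont w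
    fun_prop
  rw [intervalIntegral.integral_eq_sub_of_hasDerivAt (fun t _ => HasDerivAt.congr_deriv
    ((ep_deriv 0 0 0 0 (1 / (2 * w ^ 2) - 1 / w ^ 3) (1 / (3 * w) - 1 / w ^ 2 + 2 / (3 * w ^ 3))
      (-(1 / (2 * w)) + 1 / (2 * w ^ 2)) (1 / (5 * w)) t).add
    (ep_deriv w (-w) ((1 / w ^ 2 + 2 / w ^ 3) * (-(1 / w ^ 2) - 2 / w ^ 3))
      ((1 / w ^ 2 + 2 / w ^ 3) * (1 / w + 2 / w ^ 2)) ((1 / w ^ 2 + 2 / w ^ 3) * (-(1 / w)))
      0 0 0 t)) ?_) (hc.intervalIntegrable _ _), F1_closed hw]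
  · simp
    field_simp
    ring
  · simp only [Ph, zero_mul, add_zero, exp_zero, mul_zero]
    field_simp
    ring

/-- Fourier transform of the parabola. -/
noncomputable def Jp (y : ℝ) : ℂ := ∫ s in (0 : ℝ)..1, ((s : ℂ) - s ^ 2) * exp (-(y * I) * s)

theorem g1_key {x y : ℝ} (hw : (x : ℂ) + y * I ≠ 0) :
    ∃ m : ℂ, Jp y = Ph (x + y * I) 0 + x * m ∧ ∃ e : ℝ, 0 ≤ e ∧
      RF x y / 15 = normSq (Ph (x + y * I) 0) + 2 * x * normSq m + 2 * x * e := by
  set w : ℂ := x + y * I with hwd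
  set P : ℝ → ℂ := fun s => exp (-(y * I) * s) * Ph w s with hP
  have hPc : Continuous P := by
    have := Ph_cont w
    fun_prop
  have hPd : ∀ s : ℝ, HasDerivAt P (x * P s - ((s : ℂ) - s ^ 2) * exp (-(y * I) * s)) s := by
    intro s
    refine HasDerivAt.congr_deriv
      (((g1_ofReal s).const_mul (-(y * I))).cexp.mul (Ph_deriv hw s)) ?_
    simp only [hP, hwd]
    ring
  have hP1 : P 1 = 0 := by simp [hP, Ph_one]
  have hP0 : P 0 = Ph w 0 := by simp [hP]
  have hf : Continuous fun s : ℝ => ((s : ℂ) - s ^ 2) * exp (-(y * I) * s) := by fun_prop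
  set m : ℂ := ∫ s in (0 : ℝ)..1, P s with hm
  have h1 := intervalIntegral.integral_eq_sub_of_hasDerivAt (a := 0) (b := 1) (fun s _ => hPd s)
    (((hPc.const_mul _).sub hf).intervalIntegrable _ _)
  rw [intervalIntegral.integral_sub ((hPc.const_mul _).intervalIntegrable _ _)
    (hf.intervalIntegrable _ _), intervalIntegral.integral_const_mul, hP1, hP0, ← hm] at h1
  refine ⟨m, ?_, ∫ s in (0 : ℝ)..1, normSq (P s - m),
    intervalIntegral.integral_nonneg zero_le_one fun s _ => normSq_nonneg _, ?_⟩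
  · unfold Jp
    linear_combination -h1
  have hn : ∀ s : ℝ, HasDerivAt (fun s => normSq (P s))
      (2 * x * normSq (P s) - 2 * (((s : ℂ) - s ^ 2) * Ph w s).re) s := by
    intro s
    have a := reCLM.hasFDerivAt.comp_hasDerivAt s (hPd s)
    have b := imCLM.hasFDerivAt.comp_hasDerivAt s (hPd s)
    refine HasDerivAt.congr_deriv (((a.mul a).add (b.mul b)).congr_of_eventuallyEq
      (Filter.Eventually.of_forall fun t => by simp [normSq_apply])) ?_
    have e1 : ((s : ℂ) - s ^ 2) = ((s - s ^ 2 : ℝ) : ℂ) := by push_cast; ring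
    have e2 : normSq (exp (-(y * I) * s)) = 1 := by
      rw [normSq_eq_norm_sq, norm_exp]
      simp
    rw [normSq_apply] at e2
    simp only [Function.comp_apply, reCLM_apply, imCLM_apply, e1, hP, normSq_apply, sub_re, sub_im,
      mul_re, mul_im, ofReal_re, ofReal_im, zero_mul, sub_zero, add_zero]
    linear_combination (-2 * (s - s ^ 2) * (Ph w s).re) * e2
  have hq : Continuous fun s : ℝ => ((s : ℂ) - s ^ 2) * Ph w s := by
    have := Ph_cont w
    fun_prop
  have hnc : Continuous fun s => normSq (P s) := continuous_normSq.comp hPc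
  have hqr : Continuous fun s : ℝ => (((s : ℂ) - s ^ 2) * Ph w s).re := continuous_re.comp hq
  have h2 := intervalIntegral.integral_eq_sub_of_hasDerivAt (a := 0) (b := 1) (fun s _ => hn s)
    (((hnc.const_mul _).sub (hqr.const_mul _)).intervalIntegrable _ _)
  have h3 : ∫ s in (0 : ℝ)..1, (((s : ℂ) - s ^ 2) * Ph w s).re = RF x y / 30 := by
    have := reCLM.intervalIntegral_comp_comm (hq.intervalIntegrable (μ := MeasureTheory.volume) 0 1)
    simp only [reCLM_apply] at this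
    rw [this, Ph_int hw, RF, ← hwd]
    simp
  rw [intervalIntegral.integral_sub ((hnc.const_mul _).intervalIntegrable _ _)
    ((hqr.const_mul _).intervalIntegrable _ _),
    intervalIntegral.integral_const_mul, intervalIntegral.integral_const_mul, h3, hP1, hP0] at h2
  have h4 : ∫ s in (0 : ℝ)..1, normSq (P s - m) =
      (∫ s in (0 : ℝ)..1, normSq (P s)) - normSq m := by
    have hc2 : Continuous fun s => P s * starRingEnd ℂ m := by fun_prop
    have hc3 : Continuous fun s => (P s * starRingEnd ℂ m).re := continuous_re.comp hc2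
    have hc4 : Continuous fun s => normSq (P s) + normSq m := hnc.add continuous_const
    have e := reCLM.intervalIntegral_comp_comm
      (hc2.intervalIntegrable (μ := MeasureTheory.volume) 0 1)
    simp only [reCLM_apply] at e
    rw [intervalIntegral.integral_mul_const, ← hm, mul_conj, ofReal_re] at e
    simp only [normSq_sub]
    rw [intervalIntegral.integral_sub (hc4.intervalIntegrable _ _)
      ((hc3.const_mul _).intervalIntegrable _ _),
      intervalIntegral.integral_add (hnc.intervalIntegrable _ _)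
      (continuous_const.intervalIntegrable _ _), intervalIntegral.integral_const_mul, e]
    simp
    ring
  rw [h4]
  simp only [map_zero] at h2
  linarith

theorem RF_zero_eq (y : ℝ) : RF 0 y = 15 * normSq (Jp y) := by
  by_cases hy : y = 0
  · subst hy
    have : Jp 0 = 1 / 6 := by
      unfold Jp
      simp only [ofReal_zero, zero_mul, neg_zero, exp_zero, mul_one]
      rw [intervalIntegral.integral_eq_sub_of_hasDerivAt (fun t _ => HasDerivAt.congr_deriv
        (ep_deriv 0 0 0 0 (1 / 2) (-(1 / 3)) 0 0 t) ?_)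
        (Continuous.intervalIntegrable (by fun_prop) _ _)]
      · norm_num
      · simp
        ring
    rw [RF_zero, this]
    norm_num [normSq_apply]
  · have hw : ((0 : ℝ) : ℂ) + y * I ≠ 0 := fun h => hy (by simpa using congrArg im h)
    obtain ⟨m, h1, e, -, h2⟩ := g1_key hw
    rw [h1]
    simp only [ofReal_zero, zero_mul, add_zero, mul_zero] at h2 ⊢
    linarith

theorem RF_zero_nonneg (y : ℝ) : 0 ≤ RF 0 y := by
  rw [RF_zero_eq]
  exact mul_nonneg (by norm_num) (normSq_nonneg _)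

theorem g1_cs (x : ℝ) (A m : ℂ) :
    (1 + x / 2) * (normSq A + 2 * x * normSq m) - normSq (A + x * m) =
      x / 2 * normSq (A - 2 * m) := by
  simp only [normSq_apply, add_re, add_im, mul_re, mul_im, ofReal_re, ofReal_im, sub_re, sub_im,
    re_ofNat, im_ofNat]
  ring

/-- Lower bound to the right of the imaginary axis. -/
theorem RF_lower {x : ℝ} (hx : 0 ≤ x) (y : ℝ) : RF 0 y ≤ (1 + x / 2) * RF x y := by
  rcases hx.eq_or_lt with h | h
  · subst h
    simp
  have hw : (x : ℂ) + y * I ≠ 0 := fun h' => h.ne' (by simpa using congrArg re h')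
  obtain ⟨m, h1, e, he, h2⟩ := g1_key hw
  have h3 := g1_cs x (Ph (x + y * I) 0) m
  rw [RF_zero_eq, h1]
  have h4 := mul_nonneg hx (normSq_nonneg (Ph (x + y * I) 0 - 2 * m))
  have h5 : 0 ≤ (1 + x / 2) * (x * e) := by positivity
  have h6 : RF x y = 15 * (normSq (Ph (x + y * I) 0) + 2 * x * normSq m + 2 * x * e) := by
    linarith
  rw [h6]
  nlinarith

theorem RF_nonneg {x : ℝ} (hx : 0 ≤ x) (y : ℝ) : 0 ≤ RF x y :=
  nonneg_of_mul_nonneg_right ((RF_zero_nonneg y).trans (RF_lower hx y)) (by positivity)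

/-- Upper bound to the left of the imaginary axis. -/
theorem RF_upper {x : ℝ} (hx : 0 ≤ x) (hx2 : x ≤ 2) (y : ℝ) :
    (1 - x / 2) * RF (-x) y ≤ RF 0 y := by
  rcases hx.eq_or_lt with h | h
  · subst h
    simp
  have hw : ((-x : ℝ) : ℂ) + y * I ≠ 0 := fun h' => h.ne' (by simpa using congrArg re h')
  obtain ⟨m, h1, e, he, h2⟩ := g1_key hw
  have h3 := g1_cs (-x) (Ph ((-x : ℝ) + y * I) 0) m
  rw [RF_zero_eq, h1]
  have h4 := mul_nonneg hx (normSq_nonneg (Ph ((-x : ℝ) + y * I) 0 - 2 * m))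
  have h5 : 0 ≤ (1 - x / 2) * (x * e) := mul_nonneg (by linarith) (by positivity)
  have h6 : RF (-x) y =
      15 * (normSq (Ph ((-x : ℝ) + y * I) 0) + 2 * -x * normSq m + 2 * -x * e) := by
    linarith
  rw [h6]
  nlinarith

theorem Lap_gT {T : ℝ} (hT : 0 < T) (a : ℝ) (z : ℂ) :
    Lap (gT T a) T z = T * F1 (-((z + a) * T)) := by
  unfold F1 Lap
  have h := intervalIntegral.smul_integral_comp_mul_left
    (f := fun t : ℝ => (gT T a t : ℂ) * exp (z * t)) (a := 0) (b := 1) T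
  rw [mul_zero, mul_one] at h
  rw [← h, real_smul]
  congr 1
  refine intervalIntegral.integral_congr fun t _ => ?_
  simp only [gT, mul_div_cancel_left₀ t hT.ne', neg_neg]
  push_cast
  rw [mul_assoc, ← exp_add]
  congr 2
  ring

theorem Lap_gT_re {T : ℝ} (hT : 0 < T) (a : ℝ) (z : ℂ) :
    (Lap (gT T a) T z).re = T * RF (-(z.re + a) * T) (z.im * T) := by
  rw [Lap_gT hT, re_ofReal_mul, ← RF_neg, RF]
  congr 3
  apply Complex.ext <;> simp
  ring

/-- The cosine transform of `g1 (t / T) exp (-x t)` on `[0, T]`. -/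
noncomputable def RR (T x D : ℝ) : ℝ := T * RF (x * T) (D * T)

theorem RR_eq_Lap {T : ℝ} (hT : 0 < T) (x D : ℝ) :
    RR T x D = (Lap (gT T (-x)) T (D * I)).re := by
  rw [Lap_gT_re hT]
  simp [RR]

theorem RR_neg (T x D : ℝ) : RR T x (-D) = RR T x D := by
  rw [RR, RR, neg_mul, RF_neg]

theorem RR_nonneg {T x : ℝ} (hT : 0 ≤ T) (hx : 0 ≤ x) (D : ℝ) : 0 ≤ RR T x D :=
  mul_nonneg hT (RF_nonneg (mul_nonneg hx hT) _)

theorem RR_le {T : ℝ} (hT : 0 ≤ T) (x D : ℝ) : RR T x D ≤ RR T x 0 := by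
  rw [RR, RR, zero_mul]
  exact mul_le_mul_of_nonneg_left (RF_le _ _) hT

theorem RR_abs_le {T : ℝ} (hT : 0 ≤ T) (x D : ℝ) : |RR T x D| ≤ RR T x 0 := by
  rw [RR, RR, zero_mul, abs_mul, abs_of_nonneg hT]
  exact mul_le_mul_of_nonneg_left (RF_abs_le _ _) hT

theorem RR_anti {T x x' : ℝ} (hT : 0 ≤ T) (h : x ≤ x') : RR T x' 0 ≤ RR T x 0 := by
  rw [RR, RR, zero_mul]
  exact mul_le_mul_of_nonneg_left (RF_anti (mul_le_mul_of_nonneg_right h hT)) hT

theorem RR_zero (T : ℝ) : RR T 0 0 = 5 / 12 * T := by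
  rw [RR, zero_mul, RF_zero, mul_comm]

theorem RR_lower {T x : ℝ} (hT : 0 ≤ T) (hx : 0 ≤ x) (D : ℝ) :
    RR T 0 D ≤ (1 + x * T / 2) * RR T x D := by
  have := mul_le_mul_of_nonneg_left (RF_lower (mul_nonneg hx hT) (D * T)) hT
  rw [RR, RR, zero_mul]
  linarith

theorem RR_upper {T x : ℝ} (hT : 0 ≤ T) (hx : 0 ≤ x) (hx2 : x * T ≤ 2) (D : ℝ) :
    (1 - x * T / 2) * RR T (-x) D ≤ RR T 0 D := by
  have := mul_le_mul_of_nonneg_left (RF_upper (mul_nonneg hx hT) hx2 (D * T)) hT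
  rw [RR, RR, zero_mul, neg_mul]
  linarith

theorem RR_eq {T : ℝ} (hT : 0 < T) (x D : ℝ) :
    RR T x D = ∫ t in (0 : ℝ)..T, g1 (t / T) * Real.exp (-(x * t)) * Real.cos (D * t) := by
  have h := intervalIntegral.smul_integral_comp_mul_left
    (f := fun t : ℝ => g1 (t / T) * Real.exp (-(x * t)) * Real.cos (D * t)) (a := 0) (b := 1) T
  rw [mul_zero, mul_one] at h
  rw [← h, RR, RF_eq, smul_eq_mul]
  congr 1
  refine intervalIntegral.integral_congr fun t _ => ?_
  simp only [mul_div_cancel_left₀ t hT.ne', mul_assoc]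

theorem gT_zero (T a : ℝ) : gT T a 0 = 1 := by simp [gT, g1]

theorem gT_nonneg {T t : ℝ} (hT : 0 < T) (a : ℝ) (h0 : 0 ≤ t) (h1 : t ≤ T) : 0 ≤ gT T a t :=
  mul_nonneg (g1_nonneg (div_nonneg h0 hT.le) ((div_le_one hT).2 h1)) (Real.exp_pos _).le

theorem cut_gT_nonneg {T t : ℝ} (hT : 0 < T) (a : ℝ) (h0 : 0 ≤ t) : 0 ≤ cut (gT T a) T t := by
  unfold cut
  split_ifs with h
  exacts [gT_nonneg hT a h0 h, le_rfl]

/-- Bound for the second derivative of the test functions. -/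
noncomputable def BH (H : ℝ) : ℝ := Real.exp (8 * H) * (240 + 120 * H + H ^ 2)

theorem BH_pos {H : ℝ} (hH : 0 ≤ H) : 0 < BH H := by
  unfold BH
  positivity

theorem gT_tst {T a H : ℝ} (hT : 1 / 2 ≤ T) (hT8 : T ≤ 8) (ha : 0 ≤ a) (haH : a ≤ H) :
    Tst T (BH H) (gT T a) := by
  have hT0 : 0 < T := by linarith
  have hd : ∀ t : ℝ, HasDerivAt (fun t : ℝ => t / T) (1 / T) t := fun t =>
    (hasDerivAt_id t).div_const T
  have he : ∀ t : ℝ, HasDerivAt (fun t : ℝ => Real.exp (a * t)) (Real.exp (a * t) * (a * 1)) t :=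
    fun t => ((hasDerivAt_id t).const_mul a).exp
  have h0 : ∀ t : ℝ, HasDerivAt (fun t : ℝ => g1 (t / T))
      ((-10 * (t / T) + 15 * (t / T) ^ 2 - 5 * (t / T) ^ 4) / T) t := by
    intro t
    refine HasDerivAt.congr_deriv ((((((hd t).pow 2).const_mul 5).const_sub 1).add
      (((hd t).pow 3).const_mul 5)).sub ((hd t).pow 5)) ?_
    simp
    ring
  have h1 : ∀ t : ℝ, HasDerivAt
      (fun t : ℝ => (-10 * (t / T) + 15 * (t / T) ^ 2 - 5 * (t / T) ^ 4) / T)
      ((-10 + 30 * (t / T) - 20 * (t / T) ^ 3) / T ^ 2) t := by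
    intro t
    refine HasDerivAt.congr_deriv (((((hd t).const_mul (-10)).add
      (((hd t).pow 2).const_mul 15)).sub (((hd t).pow 4).const_mul 5)).div_const T) ?_
    simp
    ring
  have hB := BH_pos (ha.trans haH)
  refine ⟨fun t => ((-10 * (t / T) + 15 * (t / T) ^ 2 - 5 * (t / T) ^ 4) / T + a * g1 (t / T)) *
      Real.exp (a * t),
    fun t => ((-10 + 30 * (t / T) - 20 * (t / T) ^ 3) / T ^ 2 +
      2 * a * ((-10 * (t / T) + 15 * (t / T) ^ 2 - 5 * (t / T) ^ 4) / T) + a ^ 2 * g1 (t / T)) *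
      Real.exp (a * t), fun t => ?_, fun t => ?_, ?_, ?_, ?_, fun t ht0 ht1 => ?_⟩
  · refine HasDerivAt.congr_deriv ((h0 t).mul (he t)) ?_
    ring
  · refine HasDerivAt.congr_deriv (((h1 t).add ((h0 t).const_mul a)).mul (he t)) ?_
    simp only [Pi.add_apply]
    ring
  · have := g1_cont
    fun_prop
  · simp [gT, div_self hT0.ne', g1_one]
  · simp only [div_self hT0.ne', g1_one]
    norm_num
    exact hB.le
  · beta_reduce
    have u0 : 0 ≤ t / T := div_nonneg ht0 hT0.le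
    have u1 : t / T ≤ 1 := (div_le_one hT0).2 ht1
    have g0 := g1_nonneg u0 u1
    have g2 := g1_le_one u0 u1
    generalize t / T = u at *
    have p2 : u ^ 2 ≤ 1 := pow_le_one₀ u0 u1
    have p3 : u ^ 3 ≤ 1 := pow_le_one₀ u0 u1
    have p4 : u ^ 4 ≤ 1 := pow_le_one₀ u0 u1
    have q2 : 0 ≤ u ^ 2 := by positivity
    have q3 : 0 ≤ u ^ 3 := by positivity
    have q4 : 0 ≤ u ^ 4 := by positivity
    have e1 : |(-10 + 30 * u - 20 * u ^ 3) / T ^ 2| ≤ 240 := by
      rw [abs_div, abs_of_pos (pow_pos hT0 2), div_le_iff₀ (pow_pos hT0 2)]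
      refine le_trans (abs_le.2 ⟨by linarith, by linarith⟩ : _ ≤ (60 : ℝ)) (by nlinarith)
    have e2 : |(-10 * u + 15 * u ^ 2 - 5 * u ^ 4) / T| ≤ 60 := by
      rw [abs_div, abs_of_pos hT0, div_le_iff₀ hT0]
      refine le_trans (abs_le.2 ⟨by linarith, by linarith⟩ : _ ≤ (30 : ℝ)) (by linarith)
    have e3 : Real.exp (a * t) ≤ Real.exp (8 * H) := Real.exp_le_exp.2 (by nlinarith)
    rw [abs_mul, abs_of_pos (Real.exp_pos _), BH, mul_comm]
    refine mul_le_mul e3 ?_ (abs_nonneg _) (Real.exp_pos _).le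
    have e4 : |2 * a * ((-10 * u + 15 * u ^ 2 - 5 * u ^ 4) / T)| ≤ 120 * H := by
      rw [abs_mul, abs_of_nonneg (by positivity : 0 ≤ 2 * a)]
      nlinarith [abs_nonneg ((-10 * u + 15 * u ^ 2 - 5 * u ^ 4) / T)]
    have e5 : |a ^ 2 * g1 u| ≤ H ^ 2 := by
      rw [abs_of_nonneg (by positivity)]
      nlinarith [pow_le_pow_left₀ ha haH 2, sq_nonneg a]
    exact (abs_add_three _ _ _).trans (by linarith)

section Model

variable {Γ Ω ι : Type} [CommGroup Γ] [Fintype Ω] [Fintype ι]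

open Classical in
/-- The explicit formula for the test functions `gT T a`. -/
theorem Clean.ef_gT {D : Dat Γ Ω ι} {φ ε H : ℝ} {psF psC : List MP} (h : Clean D φ ε H psF psC)
    (ξ : Γ) {y T a : ℝ} (hy : |y| ≤ 4 * D.Ym) (hT : 1 / 2 ≤ T) (hT8 : T ≤ 8) (ha : 0 ≤ a)
    (haH : a ≤ H) :
    D.E (cut (gT T a) T) y ξ ≤ (if ξ = 1 then RR T (-a) y else 0) -
      ∑ k ∈ univ.filter (fun k => D.ch k = ξ), RR T (D.lam k - a) (D.mu k - y) +
      (if D.sm ξ then 0 else φ / 2) + ε * BH H := by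
  have hT0 : 0 < T := by linarith
  have h1 := h.ef ξ y T (BH H) (gT T a) hy hT0.le hT8 (gT_tst hT hT8 ha haH)
    (by rw [gT_zero]; exact zero_le_one) fun z hz => by
      rw [Lap_gT_re hT0]
      exact mul_nonneg hT0.le (RF_nonneg (mul_nonneg (by linarith) hT0.le) _)
  rw [gT_zero, mul_one] at h1
  refine h1.trans (le_of_eq ?_)
  congr 3
  · rw [Lap_gT_re hT0, ← RF_neg, RR]
    simp
  · refine sum_congr rfl fun k _ => ?_
    rw [Lap_gT_re hT0]
    have e1 : (-(D.lam k : ℂ) + (D.mu k - y : ℝ) * I).re = -D.lam k := by simp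
    have e2 : (-(D.lam k : ℂ) + (D.mu k - y : ℝ) * I).im = D.mu k - y := by simp
    rw [e1, e2, show -(-D.lam k + a) = D.lam k - a by ring, RR]

end Model

end Pool.Agent.Lib.MP_778b46_nt.GX
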