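import Pool.Agent.Lib.MP_778b46_nt.GX.Defs

/- Algebra of the pairings in the model. -/

namespace Pool.Agent.Lib.MP_778b46_nt.GX

open Complex Finset

variable {Γ Ω ι : Type} [CommGroup Γ] [Fintype Ω] [Fintype ι]

open Classical in
/-- The quadratic form on pairs of zeros of the same character. -/
noncomputable def Dat.Fm (D : Dat Γ Ω ι) (a : ι → ℝ) (κ : ℝ → ℝ) : ℝ :=
  ∑ j, ∑ k ∈ univ.filter (fun k => D.ch k = D.ch j), a j * a k * κ (D.mu j - D.mu k)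

open Classical in
omit [Fintype Ω] in
theorem gma_Fm (D : Dat Γ Ω ι) (a : ι → ℝ) (κ : ℝ → ℝ) : D.Fm a κ =
    ∑ j, ∑ k, a j * a k * if D.ch k = D.ch j then κ (D.mu j - D.mu k) else 0 := by
  unfold Dat.Fm
  simp only [Finset.sum_filter, mul_ite, mul_zero]

omit [Fintype Ω] [Fintype ι] in
theorem gma_conj (D : Dat Γ Ω ι) (h : ∀ ω ξ, ‖D.ev ω ξ‖ = 1) (ω : Ω) (y y' t : ℝ) (ξ ξ' : Γ) :
    exp (-((y * t : ℝ) : ℂ) * I) * D.ev ω ξ *
        starRingEnd ℂ (exp (-((y' * t : ℝ) : ℂ) * I) * D.ev ω ξ') =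
      exp (-(((y - y') * t : ℝ) : ℂ) * I) * D.ev ω (ξ / ξ') := by
  have h1 : D.ev ω (ξ / ξ') = D.ev ω ξ * starRingEnd ℂ (D.ev ω ξ') := by
    have h2 : D.ev ω (ξ / ξ') * D.ev ω ξ' = D.ev ω ξ := by rw [← map_mul, div_mul_cancel]
    rw [← h2, mul_assoc, Complex.mul_conj', h]
    simp
  rw [h1, map_mul, ← Complex.exp_conj, mul_mul_mul_comm, ← Complex.exp_add]
  congr 2
  simp only [map_mul, map_neg, Complex.conj_ofReal, Complex.conj_I]
  push_cast
  ring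

theorem lin_eq (D : Dat Γ Ω ι) (a : ι → ℝ) (f : ℝ → ℝ) :
    ∑ ω, D.μ ω * f (D.t ω) * (D.U a ω).re = ∑ j, a j * D.E f (D.mu j) (D.ch j) := by
  unfold Dat.U Dat.E
  simp only [Complex.re_sum, Complex.re_ofReal_mul, Finset.mul_sum]
  rw [Finset.sum_comm]
  exact Finset.sum_congr rfl fun j _ => Finset.sum_congr rfl fun ω _ => by ring

/-- `‖U‖ ^ 2 = re (U * conj U)`, `conj (ev ξ) = ev ξ⁻¹` because `‖ev ξ‖ = 1`. -/
theorem quad_eq (D : Dat Γ Ω ι) (h : ∀ ω ξ, ‖D.ev ω ξ‖ = 1) (a : ι → ℝ) (k : ℝ → ℝ) :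
    ∑ ω, D.μ ω * k (D.t ω) * ‖D.U a ω‖ ^ 2 =
      ∑ i, ∑ j, a i * a j * D.E k (D.mu i - D.mu j) (D.ch i / D.ch j) := by
  have e : ∀ ω, ‖D.U a ω‖ ^ 2 = ∑ i, ∑ j, a i * a j *
      (exp (-(((D.mu i - D.mu j) * D.t ω : ℝ) : ℂ) * I) * D.ev ω (D.ch i / D.ch j)).re := by
    intro ω
    have h1 : ‖D.U a ω‖ ^ 2 = (D.U a ω * starRingEnd ℂ (D.U a ω)).re := by
      rw [Complex.mul_conj', ← Complex.ofReal_pow, Complex.ofReal_re]
    rw [h1]
    unfold Dat.U
    rw [map_sum, Finset.sum_mul_sum, Complex.re_sum]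
    refine Finset.sum_congr rfl fun i _ => ?_
    rw [Complex.re_sum]
    refine Finset.sum_congr rfl fun j _ => ?_
    rw [map_mul, Complex.conj_ofReal, mul_mul_mul_comm, gma_conj D h, ← Complex.ofReal_mul,
      Complex.re_ofReal_mul]
  unfold Dat.E
  simp only [e, Finset.mul_sum]
  rw [Finset.sum_comm]
  refine Finset.sum_congr rfl fun i _ => ?_
  rw [Finset.sum_comm]
  exact Finset.sum_congr rfl fun j _ => Finset.sum_congr rfl fun ω _ => by ring

/-- Group by the character (`Finset.sum_fiberwise_of_maps_to` over `univ.image D.ch`); each group gives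
`(∑ a cos) ^ 2 + (∑ a sin) ^ 2` by `Real.cos_sub`. -/
theorem Fm_cos_nonneg (D : Dat Γ Ω ι) (a : ι → ℝ) (t : ℝ) :
    0 ≤ D.Fm a fun y => Real.cos (y * t) := by
  classical
  unfold Dat.Fm
  rw [← Finset.sum_fiberwise_of_maps_to (s := univ) (t := univ.image D.ch) (g := D.ch)
    fun j hj => Finset.mem_image_of_mem _ hj]
  refine Finset.sum_nonneg fun ξ _ => ?_
  have e : ∑ j ∈ univ.filter (fun j => D.ch j = ξ), ∑ k ∈ univ.filter (fun k => D.ch k = D.ch j),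
      a j * a k * Real.cos ((D.mu j - D.mu k) * t) =
      (∑ j ∈ univ.filter (fun j => D.ch j = ξ), a j * Real.cos (D.mu j * t)) ^ 2 +
        (∑ j ∈ univ.filter (fun j => D.ch j = ξ), a j * Real.sin (D.mu j * t)) ^ 2 := by
    rw [sq, sq, Finset.sum_mul_sum, Finset.sum_mul_sum, ← Finset.sum_add_distrib]
    refine Finset.sum_congr rfl fun j hj => ?_
    rw [(Finset.mem_filter.1 hj).2, ← Finset.sum_add_distrib]
    refine Finset.sum_congr rfl fun k _ => ?_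
    rw [sub_mul, Real.cos_sub]
    ring
  exact le_of_le_of_eq (add_nonneg (sq_nonneg _) (sq_nonneg _)) (by convert e.symm)

theorem Fm_integral (D : Dat Γ Ω ι) (a : ι → ℝ) {z : ℝ → ℝ} (hz : Continuous z) (u v : ℝ) :
    (D.Fm a fun y => ∫ t in u..v, z t * Real.cos (y * t)) =
      ∫ t in u..v, z t * D.Fm a fun y => Real.cos (y * t) := by
  unfold Dat.Fm
  simp only [Finset.mul_sum]
  rw [intervalIntegral.integral_finsetSum fun j _ =>
    Continuous.intervalIntegrable (by fun_prop) _ _]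
  refine Finset.sum_congr rfl fun j _ => ?_
  rw [intervalIntegral.integral_finsetSum fun k _ =>
    Continuous.intervalIntegrable (by fun_prop) _ _]
  refine Finset.sum_congr rfl fun k _ => ?_
  rw [← intervalIntegral.integral_const_mul]
  exact intervalIntegral.integral_congr fun t _ => by ring

/-- `Fm_integral`, `Fm_cos_nonneg`, `intervalIntegral.integral_mono_on`. -/
theorem Fm_mono (D : Dat Γ Ω ι) (a : ι → ℝ) {z z' : ℝ → ℝ} (hz : Continuous z)
    (hz' : Continuous z') {u v : ℝ} (huv : u ≤ v) (h : ∀ t, u ≤ t → t ≤ v → z t ≤ z' t) :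
    (D.Fm a fun y => ∫ t in u..v, z t * Real.cos (y * t)) ≤
      D.Fm a fun y => ∫ t in u..v, z' t * Real.cos (y * t) := by
  have hc : Continuous fun t => D.Fm a fun y => Real.cos (y * t) := by
    unfold Dat.Fm
    fun_prop
  rw [Fm_integral D a hz, Fm_integral D a hz']
  exact intervalIntegral.integral_mono_on huv ((hz.mul hc).intervalIntegrable _ _)
    ((hz'.mul hc).intervalIntegrable _ _) fun t ht =>
      mul_le_mul_of_nonneg_right (h t ht.1 ht.2) (Fm_cos_nonneg D a t)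

theorem Fm_add (D : Dat Γ Ω ι) (a : ι → ℝ) (κ κ' : ℝ → ℝ) :
    (D.Fm a fun y => κ y + κ' y) = D.Fm a κ + D.Fm a κ' := by
  unfold Dat.Fm
  simp only [mul_add, Finset.sum_add_distrib]

theorem Fm_le (D : Dat Γ Ω ι) {a : ι → ℝ} (ha : ∀ j, 0 ≤ a j) {κ κ' : ℝ → ℝ}
    (h : ∀ y, κ y ≤ κ' y) : D.Fm a κ ≤ D.Fm a κ' := by
  unfold Dat.Fm
  exact Finset.sum_le_sum fun j _ => Finset.sum_le_sum fun k _ =>
    mul_le_mul_of_nonneg_left (h _) (mul_nonneg (ha j) (ha k))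

theorem Fm_sum (D : Dat Γ Ω ι) (a : ι → ℝ) (N : ℕ) (κ : ℕ → ℝ → ℝ) :
    (D.Fm a fun y => ∑ i ∈ range N, κ i y) = ∑ i ∈ range N, D.Fm a (κ i) := by
  induction N with
  | zero => simp [Dat.Fm]
  | succ N ih => simp only [Finset.sum_range_succ, Fm_add, ih]

open Classical in
/-- `quad_eq` and the bound for each pair with `a i * a j ≠ 0`. -/
theorem quad_le (D : Dat Γ Ω ι) (h : ∀ ω ξ, ‖D.ev ω ξ‖ = 1) {a : ι → ℝ} (ha : ∀ j, 0 ≤ a j)
    (k κ : ℝ → ℝ) (C0 : ℝ) (hk : ∀ i j, a i ≠ 0 → a j ≠ 0 →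
      D.E k (D.mu i - D.mu j) (D.ch i / D.ch j) ≤
        C0 + if D.ch j = D.ch i then κ (D.mu i - D.mu j) else 0) :
    ∑ ω, D.μ ω * k (D.t ω) * ‖D.U a ω‖ ^ 2 ≤ C0 * (∑ j, a j) ^ 2 + D.Fm a κ := by
  rw [quad_eq D h, gma_Fm, sq, Finset.sum_mul_sum, Finset.mul_sum, ← Finset.sum_add_distrib]
  refine Finset.sum_le_sum fun i _ => ?_
  rw [Finset.mul_sum, ← Finset.sum_add_distrib]
  refine Finset.sum_le_sum fun j _ => ?_
  by_cases hi : a i = 0
  · simp [hi]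
  by_cases hj : a j = 0
  · simp [hj]
  have := mul_le_mul_of_nonneg_left (hk i j hi hj) (mul_nonneg (ha i) (ha j))
  linarith

end Pool.Agent.Lib.MP_778b46_nt.GX
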