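import Pool.Agent.Lib.MP_778b46_nt.GX.GmA

/- The hybrid of the explicit formula and the sieve majorant, slice by slice. -/

namespace Pool.Agent.Lib.MP_778b46_nt.GX

open Complex Finset

/-- Data on one slice `(τ, τ']`: an upper bound `fh` for `f`, lower bounds `kl`, `zl` for `k`, `z`, and the
level `w` of the sieve. -/
structure SlOK (φ : ℝ) (f k z : ℝ → ℝ) (τ τ' fh kl zl w : ℝ) : Prop where
  le : τ ≤ τ'
  f_le : ∀ t, τ ≤ t → t ≤ τ' → f t ≤ fh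
  le_k : ∀ t, τ ≤ t → t ≤ τ' → kl ≤ k t
  le_z : ∀ t, τ ≤ t → t ≤ τ' → zl ≤ z t
  kl_nonneg : 0 ≤ kl
  zl_nonneg : 0 ≤ zl
  lev : zl = 0 ∨ (0 < w ∧ φ + 2 * w ≤ τ)
  pos : 0 < kl + zl * (w / (τ' - w))

theorem gmb_m_nonneg {kl h r : ℝ} (hkl : 0 ≤ kl) (hh : 0 ≤ h) (hr : 0 ≤ r) (hr1 : r ≤ 1) :
    0 ≤ kl + h - h * r ^ 2 := by
  have : 0 ≤ h * (1 - r ^ 2) := mul_nonneg hh (by nlinarith)
  linarith

/-- With `S = kl + h (1 + r)`, `fh = u S`, `x = re P`: if `x ≤ 0` use the identity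
`u ^ 2 (kl + h - h r ^ 2) + 2 u S x + kl x ^ 2 + h (x - r u) ^ 2 = (kl + h) (x + u) ^ 2`; if `x > 0` the left
side is `≤ 0`. -/
theorem slice_point {f k kl h r u : ℝ} (hf : 0 ≤ f) (hf' : f ≤ u * (kl + h * (1 + r)))
    (hk : kl ≤ k) (hkl : 0 ≤ kl) (hh : 0 ≤ h) (hr : 0 ≤ r) (hr1 : r ≤ 1) (P : ℂ) :
    -(2 * (f * P.re)) ≤
      k * ‖P‖ ^ 2 + h * ‖((-(r * u) : ℝ) : ℂ) + P‖ ^ 2 + u ^ 2 * (kl + h - h * r ^ 2) := by
  have e1 : ‖P‖ ^ 2 = P.re ^ 2 + P.im ^ 2 := by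
    rw [Complex.sq_norm, normSq_apply]; ring
  have e2 : ‖((-(r * u) : ℝ) : ℂ) + P‖ ^ 2 = (P.re - r * u) ^ 2 + P.im ^ 2 := by
    rw [Complex.sq_norm, normSq_apply]
    simp only [add_re, ofReal_re, add_im, ofReal_im]
    ring
  rw [e1, e2]
  have a1 : kl * P.re ^ 2 ≤ k * (P.re ^ 2 + P.im ^ 2) :=
    mul_le_mul hk (by nlinarith [sq_nonneg P.im]) (sq_nonneg _) (hkl.trans hk)
  have a2 : h * (P.re - r * u) ^ 2 ≤ h * ((P.re - r * u) ^ 2 + P.im ^ 2) :=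
    mul_le_mul_of_nonneg_left (by nlinarith [sq_nonneg P.im]) hh
  rcases le_total P.re 0 with hx | hx
  · have a3 := mul_le_mul_of_nonneg_right hf' (neg_nonneg.2 hx)
    have a4 : 0 ≤ (kl + h) * (P.re + u) ^ 2 := by positivity
    nlinarith
  · have a3 : 0 ≤ f * P.re := mul_nonneg hf hx
    have a4 : 0 ≤ u ^ 2 * (kl + h - h * r ^ 2) :=
      mul_nonneg (sq_nonneg _) (gmb_m_nonneg hkl hh hr hr1)
    have a5 : 0 ≤ kl * P.re ^ 2 := by positivity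
    have a6 : 0 ≤ h * (P.re - r * u) ^ 2 := by positivity
    linarith

open Classical in
theorem gmb_core {φ : ℝ} {f k z : ℝ → ℝ} {τ τ' fh kl zl w : ℝ}
    (h : SlOK φ f k z τ τ' fh kl zl w) (h0 : 0 ≤ τ) (h8 : τ' ≤ 8)
    (hf : ∀ t, τ ≤ t → t ≤ τ' → 0 ≤ f t) {hh r u : ℝ} (h1 : 0 ≤ hh) (h2 : 0 ≤ r) (h3 : r ≤ 1)
    (h4 : fh ≤ u * (kl + hh * (1 + r))) {Γ Ω ι : Type} [CommGroup Γ] [Fintype Ω] [Fintype ι]
    {D : Dat Γ Ω ι} {ε H : ℝ} {psF psC : List MP} (hD : Clean D φ ε H psF psC) (a : ι → ℝ) :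
    -(2 * ∑ ω ∈ univ.filter (fun ω => τ < D.t ω ∧ D.t ω ≤ τ'),
        D.μ ω * f (D.t ω) * (D.U a ω).re) ≤
      ∑ ω ∈ univ.filter (fun ω => τ < D.t ω ∧ D.t ω ≤ τ'), D.μ ω * k (D.t ω) * ‖D.U a ω‖ ^ 2 +
        ∑ ω ∈ univ.filter (fun ω => τ < D.t ω ∧ D.t ω ≤ τ'),
          D.μ ω * (hh + 0 * D.t ω) * ‖((-(r * u) : ℝ) : ℂ) + D.U a ω‖ ^ 2 +
        u ^ 2 * (kl + hh - hh * r ^ 2) * (τ' - τ + ε) := by
  have hm : 0 ≤ u ^ 2 * (kl + hh - hh * r ^ 2) :=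
    mul_nonneg (sq_nonneg _) (gmb_m_nonneg h.kl_nonneg h1 h2 h3)
  have hmert := (abs_le.1 (hD.mert τ τ' h0 h.le h8)).2
  have hb := mul_le_mul_of_nonneg_left (show ∑ ω ∈ univ.filter
    (fun ω => τ < D.t ω ∧ D.t ω ≤ τ'), D.μ ω ≤ τ' - τ + ε by linarith) hm
  refine le_trans ?_ (add_le_add le_rfl hb)
  rw [mul_sum, mul_sum, ← sum_neg_distrib, ← sum_add_distrib, ← sum_add_distrib]
  refine sum_le_sum fun ω hω => ?_
  obtain ⟨t1, t2⟩ := (mem_filter.1 hω).2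
  have := mul_le_mul_of_nonneg_left (slice_point (hf _ t1.le t2) ((h.f_le _ t1.le t2).trans h4)
    (h.le_k _ t1.le t2) h.kl_nonneg h1 h2 h3 (D.U a ω)) (hD.μ_nonneg ω)
  linarith

theorem gmb_Fm_const {Γ Ω ι : Type} [CommGroup Γ] [Fintype Ω] [Fintype ι] (D : Dat Γ Ω ι)
    (a : ι → ℝ) (c : ℝ) (κ : ℝ → ℝ) : (D.Fm a fun y => c * κ y) = c * D.Fm a κ := by
  simp only [Dat.Fm, mul_sum]
  exact sum_congr rfl fun j _ => sum_congr rfl fun k _ => by ring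

theorem gmb_Fm_le {Γ Ω ι : Type} [CommGroup Γ] [Fintype Ω] [Fintype ι] (D : Dat Γ Ω ι)
    (a : ι → ℝ) {z : ℝ → ℝ} (hz : Continuous z) {τ τ' zl : ℝ} (h : τ ≤ τ')
    (h1 : ∀ t, τ ≤ t → t ≤ τ' → zl ≤ z t) :
    zl * (D.Fm a fun y => ∫ t in τ..τ', Real.cos (y * t)) ≤
      D.Fm a fun y => ∫ t in τ..τ', z t * Real.cos (y * t) := by
  refine le_trans (le_of_eq ?_) (Fm_mono D a (z := fun _ => zl) continuous_const hz h h1)
  simp only [intervalIntegral.integral_const_mul]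
  exact (gmb_Fm_const D a zl _).symm

open Classical in
/-- One slice.  If `zl = 0`: `slice_point` with `h = 0`, `r = 0`, and `mert`.  Else `h = zl w / τ'`,
`r = w / (τ' - w) ≤ 1`, `u = fh / (kl + zl r)` (note `h (1 + r) = zl r`), `c = -(r u)`; `sv` with `α = h`,
`β = 0`; `τ' / w * h = zl`; `mert` for the constant `m = u ^ 2 (kl + h - h r ^ 2) ≥ 0`;
`m + zl c ^ 2 = fh ^ 2 / (kl + zl r)`; `Fm_mono`; `(|c| + A) ^ 2 ≤ 2 c ^ 2 + 2 A ^ 2`. -/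
theorem slice_one {φ : ℝ} (hφ : 0 ≤ φ) {f k z : ℝ → ℝ} (hz : Continuous z) {τ τ' fh kl zl w : ℝ}
    (h : SlOK φ f k z τ τ' fh kl zl w) (h0 : 0 ≤ τ) (h8 : τ' ≤ 8)
    (hf : ∀ t, τ ≤ t → t ≤ τ' → 0 ≤ f t) : ∃ C : ℝ, 0 ≤ C ∧
    ∀ (Γ Ω ι : Type) [CommGroup Γ] [Fintype Ω] [Fintype ι] (D : Dat Γ Ω ι) (ε H : ℝ)
      (psF psC : List MP), 0 ≤ ε → Clean D φ ε H psF psC → ∀ a : ι → ℝ, (∀ j, 0 ≤ a j) →
      -(2 * ∑ ω ∈ univ.filter (fun ω => τ < D.t ω ∧ D.t ω ≤ τ'),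
          D.μ ω * f (D.t ω) * (D.U a ω).re) ≤
        ∑ ω ∈ univ.filter (fun ω => τ < D.t ω ∧ D.t ω ≤ τ'), D.μ ω * k (D.t ω) * ‖D.U a ω‖ ^ 2 +
          (τ' - τ) * (fh ^ 2 / (kl + zl * (w / (τ' - w)))) +
          (D.Fm a fun y => ∫ t in τ..τ', z t * Real.cos (y * t)) +
          ε * C * (1 + (∑ j, a j) ^ 2) := by
  rcases h.lev with hz0 | ⟨hw, hτ⟩
  · have hkl : 0 < kl := by simpa [hz0] using h.pos
    refine ⟨fh ^ 2 / kl, by positivity, fun Γ Ω ι _ _ _ D ε H psF psC hε hD a ha => ?_⟩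
    have c1 := gmb_core h h0 h8 hf (hh := 0) (r := 0) (u := fh / kl) le_rfl le_rfl zero_le_one
      (le_of_eq (by field_simp; ring)) hD a
    have c2 := gmb_Fm_le D a hz h.le h.le_z
    have e1 : (fh / kl) ^ 2 * (kl + 0 - 0 * (0 : ℝ) ^ 2) = fh ^ 2 / kl := by
      field_simp; ring
    have c3 : 0 ≤ ε * (fh ^ 2 / kl) * (∑ j, a j) ^ 2 := by positivity
    rw [e1] at c1
    simp only [zero_mul, add_zero, mul_zero, sum_const_zero] at c1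
    rw [hz0] at c2 ⊢
    simp only [zero_mul, add_zero] at c2 ⊢
    nlinarith
  · have hle := h.le
    have hτw : 0 < τ' - w := by linarith
    have hτ' : 0 < τ' := by linarith
    have hzl := h.zl_nonneg
    have hkl := h.kl_nonneg
    have hS := h.pos
    obtain ⟨r, hr⟩ : ∃ r, r = w / (τ' - w) := ⟨_, rfl⟩
    obtain ⟨hh, hhh⟩ : ∃ hh, hh = zl * w / τ' := ⟨_, rfl⟩
    rw [← hr] at hS ⊢
    obtain ⟨u, hu⟩ : ∃ u, u = fh / (kl + zl * r) := ⟨_, rfl⟩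
    have hr0 : 0 ≤ r := by rw [hr]; positivity
    have hr1 : r ≤ 1 := by rw [hr, div_le_one hτw]; linarith
    have hh0 : 0 ≤ hh := by rw [hhh]; positivity
    have e0 : hh * (1 + r) = zl * r := by
      rw [hhh, hr]; field_simp; ring
    have e1 : τ' / w * hh = zl := by
      rw [hhh]; field_simp
    have e2 : fh ^ 2 / (kl + zl * r) = u ^ 2 * (kl + zl * r) := by
      rw [hu]; field_simp
    have hm : 0 ≤ u ^ 2 * (kl + hh - hh * r ^ 2) :=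
      mul_nonneg (sq_nonneg _) (gmb_m_nonneg hkl hh0 hr0 hr1)
    have e3 : u ^ 2 * (kl + hh - hh * r ^ 2) + zl * (r * u) ^ 2 = u ^ 2 * (kl + zl * r) := by
      linear_combination (u ^ 2 * (1 - r)) * e0
    refine ⟨u ^ 2 * (kl + hh - hh * r ^ 2) + 2 * hh * ((r * u) ^ 2 + 1), by positivity,
      fun Γ Ω ι _ _ _ D ε H psF psC hε hD a ha => ?_⟩
    have c1 := gmb_core h h0 h8 hf (u := u) hh0 hr0 hr1
      (le_of_eq (by rw [e0, hu]; field_simp)) hD a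
    have c2 := gmb_Fm_le D a hz h.le h.le_z
    have c3 := hD.sv a (-(r * u)) τ τ' w hh 0 ha hw hτ hle h8 (by simpa using hh0)
      (by simpa using hh0)
    have e4 : (∑ j, ∑ k ∈ univ.filter (fun k => D.ch k = D.ch j), a j * a k *
        ∫ t in τ..τ', (hh + 0 * t) * Real.cos ((D.mu j - D.mu k) * t)) =
        hh * D.Fm a fun y => ∫ t in τ..τ', Real.cos (y * t) := by
      rw [← gmb_Fm_const]
      simp only [zero_mul, add_zero, intervalIntegral.integral_const_mul, Dat.Fm]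
    have e5 : (∫ t in τ..τ', (hh + 0 * t)) = (τ' - τ) * hh := by simp
    rw [e4, e5, abs_zero, add_zero, abs_of_nonneg hh0] at c3
    obtain ⟨A, hA⟩ : ∃ A, A = ∑ j, a j := ⟨_, rfl⟩
    obtain ⟨G, hG⟩ : ∃ G, G = D.Fm a fun y => ∫ t in τ..τ', Real.cos (y * t) := ⟨_, rfl⟩
    rw [← hA, ← hG] at c3
    rw [← hG] at c2
    rw [← hA]
    have e6 : τ' / w * ((-(r * u)) ^ 2 * ((τ' - τ) * hh) + hh * G) =
        zl * (r * u) ^ 2 * (τ' - τ) + zl * G := by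
      rw [← e1]; ring
    have c4 : (|-(r * u)| + A) ^ 2 ≤ 2 * ((r * u) ^ 2 + 1) * (1 + A ^ 2) := by
      have := sq_abs (-(r * u))
      nlinarith [sq_nonneg (|-(r * u)| - A), mul_nonneg (sq_nonneg (r * u)) (sq_nonneg A)]
    have c5 := mul_le_mul_of_nonneg_left c4 (mul_nonneg hε hh0)
    have c6 : 0 ≤ ε * (u ^ 2 * (kl + hh - hh * r ^ 2)) * A ^ 2 := by positivity
    rw [e6] at c3
    rw [e2, ← e3]
    linarith

open Classical in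
theorem gmb_split {Ω : Type} [Fintype Ω] (t g : Ω → ℝ) {b c : ℝ} (hb : 0 ≤ b) (hc : b ≤ c) :
    ∑ ω ∈ univ.filter (fun ω => 0 < t ω ∧ t ω ≤ c), g ω =
      ∑ ω ∈ univ.filter (fun ω => 0 < t ω ∧ t ω ≤ b), g ω +
        ∑ ω ∈ univ.filter (fun ω => b < t ω ∧ t ω ≤ c), g ω := by
  simp only [sum_filter, ← sum_add_distrib]
  refine sum_congr rfl fun ω _ => ?_
  by_cases h1 : t ω ≤ b
  · simp [h1, h1.trans hc, not_lt.2 h1]
  · simp [h1, not_le.1 h1, hb.trans_lt (not_le.1 h1)]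

open Classical in
theorem gmb_ind {φ : ℝ} (hφ : 0 ≤ φ) {f k z : ℝ → ℝ} (hz : Continuous z)
    (τ fh kl zl w : ℕ → ℝ) (h0 : τ 0 = 0) (hf : ∀ t, 0 ≤ t → 0 ≤ f t) (N : ℕ) (h8 : τ N ≤ 8)
    (h : ∀ i, i < N → SlOK φ f k z (τ i) (τ (i + 1)) (fh i) (kl i) (zl i) (w i)) :
    0 ≤ τ N ∧ ∃ C : ℝ, 0 ≤ C ∧
    ∀ (Γ Ω ι : Type) [CommGroup Γ] [Fintype Ω] [Fintype ι] (D : Dat Γ Ω ι) (ε H : ℝ)
      (psF psC : List MP), 0 ≤ ε → Clean D φ ε H psF psC → ∀ a : ι → ℝ, (∀ j, 0 ≤ a j) →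
      -(2 * ∑ ω ∈ univ.filter (fun ω => 0 < D.t ω ∧ D.t ω ≤ τ N),
          D.μ ω * f (D.t ω) * (D.U a ω).re) ≤
        ∑ ω ∈ univ.filter (fun ω => 0 < D.t ω ∧ D.t ω ≤ τ N), D.μ ω * k (D.t ω) * ‖D.U a ω‖ ^ 2 +
          ∑ i ∈ range N, (τ (i + 1) - τ i) * (fh i ^ 2 / (kl i + zl i * (w i / (τ (i + 1) - w i)))) +
          (D.Fm a fun y => ∫ t in (0 : ℝ)..τ N, z t * Real.cos (y * t)) +
          ε * C * (1 + (∑ j, a j) ^ 2) := by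
  induction N with
  | zero =>
    refine ⟨h0.ge, 0, le_rfl, fun Γ Ω ι _ _ _ D ε H psF psC _ _ a _ => ?_⟩
    have e : univ.filter (fun ω => 0 < D.t ω ∧ D.t ω ≤ τ 0) = ∅ :=
      filter_eq_empty_iff.2 fun ω _ hω => absurd (h0 ▸ hω.2) (not_le.2 hω.1)
    rw [e, h0]
    simp [Dat.Fm]
  | succ N ih =>
    have hN := h N (Nat.lt_succ_self N)
    obtain ⟨h1, C1, hC1, H1⟩ := ih (hN.le.trans h8) fun i hi => h i (hi.trans (Nat.lt_succ_self N))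
    obtain ⟨C2, hC2, H2⟩ := slice_one hφ hz hN h1 h8 fun t ht _ => hf t (h1.trans ht)
    refine ⟨h1.trans hN.le, C1 + C2, add_nonneg hC1 hC2,
      fun Γ Ω ι _ _ _ D ε H psF psC hε hD a ha => ?_⟩
    have a1 := H1 Γ Ω ι D ε H psF psC hε hD a ha
    have a2 := H2 Γ Ω ι D ε H psF psC hε hD a ha
    have e : (D.Fm a fun y => ∫ t in (0 : ℝ)..τ (N + 1), z t * Real.cos (y * t)) =
        (D.Fm a fun y => ∫ t in (0 : ℝ)..τ N, z t * Real.cos (y * t)) +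
          D.Fm a fun y => ∫ t in τ N..τ (N + 1), z t * Real.cos (y * t) := by
      rw [← Fm_add]
      congr 1
      funext y
      have hc : Continuous fun t => z t * Real.cos (y * t) := by fun_prop
      exact (intervalIntegral.integral_add_adjacent_intervals (hc.intervalIntegrable _ _)
        (hc.intervalIntegrable _ _)).symm
    rw [gmb_split D.t _ h1 hN.le, gmb_split D.t _ h1 hN.le, sum_range_succ, e]
    linarith

/-- Induction on `N` for the sums over `0 < t ≤ τ N` (`slice_one`, `integral_add_adjacent_intervals`,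
`Fm_add`); `t_pos`; for `t > τ N` one has `f = 0` and `k ≥ 0`. -/
theorem slices {φ : ℝ} (hφ : 0 ≤ φ) {f k z : ℝ → ℝ} (hz : Continuous z) (N : ℕ)
    (τ fh kl zl w : ℕ → ℝ) (h0 : τ 0 = 0) (h8 : τ N ≤ 8)
    (h : ∀ i, i < N → SlOK φ f k z (τ i) (τ (i + 1)) (fh i) (kl i) (zl i) (w i))
    (hf : ∀ t, 0 ≤ t → 0 ≤ f t) (hf' : ∀ t, τ N < t → f t = 0) (hk : ∀ t, 0 ≤ t → 0 ≤ k t) :
    ∃ C : ℝ, 0 ≤ C ∧
    ∀ (Γ Ω ι : Type) [CommGroup Γ] [Fintype Ω] [Fintype ι] (D : Dat Γ Ω ι) (ε H : ℝ)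
      (psF psC : List MP), 0 ≤ ε → Clean D φ ε H psF psC → ∀ a : ι → ℝ, (∀ j, 0 ≤ a j) →
      -(2 * ∑ ω, D.μ ω * f (D.t ω) * (D.U a ω).re) ≤
        ∑ ω, D.μ ω * k (D.t ω) * ‖D.U a ω‖ ^ 2 +
          ∑ i ∈ range N, (τ (i + 1) - τ i) * (fh i ^ 2 / (kl i + zl i * (w i / (τ (i + 1) - w i)))) +
          (D.Fm a fun y => ∫ t in (0 : ℝ)..τ N, z t * Real.cos (y * t)) +
          ε * C * (1 + (∑ j, a j) ^ 2) := by
  classical
  obtain ⟨-, C, hC, H1⟩ := gmb_ind hφ hz τ fh kl zl w h0 hf N h8 h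
  refine ⟨C, hC, fun Γ Ω ι _ _ _ D ε H psF psC hε hD a ha => ?_⟩
  have a1 := H1 Γ Ω ι D ε H psF psC hε hD a ha
  have e1 : ∑ ω ∈ univ.filter (fun ω => 0 < D.t ω ∧ D.t ω ≤ τ N),
      D.μ ω * f (D.t ω) * (D.U a ω).re = ∑ ω, D.μ ω * f (D.t ω) * (D.U a ω).re := by
    refine sum_subset (filter_subset _ _) fun ω _ hω => ?_
    rw [hf' _ (not_le.1 fun h1 => hω (mem_filter.2 ⟨mem_univ _, hD.t_pos ω, h1⟩)), mul_zero,
      zero_mul]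
  have e2 : ∑ ω ∈ univ.filter (fun ω => 0 < D.t ω ∧ D.t ω ≤ τ N),
      D.μ ω * k (D.t ω) * ‖D.U a ω‖ ^ 2 ≤ ∑ ω, D.μ ω * k (D.t ω) * ‖D.U a ω‖ ^ 2 :=
    sum_le_sum_of_subset_of_nonneg (filter_subset _ _) fun ω _ _ =>
      mul_nonneg (mul_nonneg (hD.μ_nonneg ω) (hk _ (hD.t_pos ω).le)) (sq_nonneg _)
  rw [e1] at a1
  linarith

end Pool.Agent.Lib.MP_778b46_nt.GX
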