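import Mathlib

/- Finite inequalities: removal of the cross terms in a Gram inequality, and duality. -/

namespace Pool.Agent.Lib.MP_778b46_nt.GX

open Finset

variable {ι κ : Type} [Fintype ι] [DecidableEq ι] [DecidableEq κ]

/-- Suppose `V = (∑ α d) / G > 1` and take `a = α / V`.  With `W = 1 / V`, `s = ∑ α / d`:
`(∑ α) ^ 2 ≤ (∑ α d) s = G V s` (Cauchy-Schwarz), `X := A ∑ α ^ 2 ≤ G V - G C s`, so
`2 G ≤ G + W C G s + W ^ 2 X` gives `G ≤ W (G V - X) + W ^ 2 X`, that is `W (1 - W) X ≤ 0`; but `X > 0`. -/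
theorem wtrick0 (J : Finset ι) (α d : ι → ℝ) {G C A : ℝ} (hG : 0 < G) (hC : 0 ≤ C) (hA : 0 < A)
    (hα : ∀ j ∈ J, 0 ≤ α j) (hd : ∀ j ∈ J, 0 < d j)
    (h1 : ∀ j ∈ J, α j * A ≤ d j - G * C / d j)
    (h2 : ∀ W : ℝ, 0 < W → W < 1 → 2 * ∑ j ∈ J, W * α j * d j ≤
      G + C * (∑ j ∈ J, W * α j) ^ 2 + A * ∑ j ∈ J, (W * α j) ^ 2) :
    ∑ j ∈ J, α j * d j ≤ G := by
  by_contra hlt
  push Not at hlt
  set S := ∑ j ∈ J, α j * d j with hS
  have hS0 : 0 < S := hG.trans hlt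
  have hW0 : 0 < G / S := div_pos hG hS0
  have hW1 : G / S < 1 := (div_lt_one hS0).2 hlt
  have h := h2 (G / S) hW0 hW1
  set W := G / S with hW
  have hWS : W * S = G := by rw [hW]; field_simp
  have e1 : ∑ j ∈ J, W * α j * d j = W * S := by
    rw [hS, mul_sum]; exact sum_congr rfl fun j _ => by ring
  have e2 : ∑ j ∈ J, W * α j = W * ∑ j ∈ J, α j := by rw [mul_sum]
  have e3 : ∑ j ∈ J, (W * α j) ^ 2 = W ^ 2 * ∑ j ∈ J, α j ^ 2 := by
    rw [mul_sum]; exact sum_congr rfl fun j _ => by ring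
  have hcs : (∑ j ∈ J, α j) ^ 2 ≤ S * ∑ j ∈ J, α j / d j := by
    refine sum_sq_le_sum_mul_sum_of_sq_eq_mul J (fun j hj => mul_nonneg (hα j hj) (hd j hj).le)
      (fun j hj => div_nonneg (hα j hj) (hd j hj).le) (fun j hj => ?_)
    have := (hd j hj).ne'
    field_simp
  have hX : A * ∑ j ∈ J, α j ^ 2 ≤ S - G * C * ∑ j ∈ J, α j / d j := by
    rw [hS, mul_sum, mul_sum, ← sum_sub_distrib]
    refine sum_le_sum fun j hj => ?_
    have := mul_le_mul_of_nonneg_left (h1 j hj) (hα j hj)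
    calc A * α j ^ 2 = α j * (α j * A) := by ring
      _ ≤ α j * (d j - G * C / d j) := this
      _ = α j * d j - G * C * (α j / d j) := by ring
  have hXpos : 0 < ∑ j ∈ J, α j ^ 2 := by
    obtain ⟨j, hj, hj0⟩ : ∃ j ∈ J, α j * d j ≠ 0 := exists_ne_zero_of_sum_ne_zero hS0.ne'
    exact sum_pos' (fun i _ => sq_nonneg _)
      ⟨j, hj, pow_pos (lt_of_le_of_ne (hα j hj) (left_ne_zero_of_mul hj0).symm) 2⟩
  rw [e1, e2, e3, hWS] at h
  set s := ∑ j ∈ J, α j / d j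
  set σ := ∑ j ∈ J, α j
  set Y := ∑ j ∈ J, α j ^ 2
  have k1 : C * (W * σ) ^ 2 ≤ W * (G * C * s) := by
    calc C * (W * σ) ^ 2 = C * W ^ 2 * σ ^ 2 := by ring
      _ ≤ C * W ^ 2 * (S * s) := mul_le_mul_of_nonneg_left hcs (by positivity)
      _ = W * ((W * S) * C * s) := by ring
      _ = W * (G * C * s) := by rw [hWS]
  have k2 : W * (G * C * s) ≤ W * (S - A * Y) := mul_le_mul_of_nonneg_left (by linarith) hW0.le
  have k3 : 0 < W * (1 - W) * (A * Y) := mul_pos (mul_pos hW0 (by linarith)) (mul_pos hA hXpos)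
  nlinarith

/-- Primary zeros `Pr` get the fixed weight `ap`, the zeros of `J` the weights `W α j`, all others zero.
Expand `raw` for this `a` into the blocks `Pr × Pr`, `Pr × J`, `J × Pr`, `J × J`, each split into diagonal and
off diagonal part.  In `J × J`: `(W α j) (W α k) K j k ≤ (W α j) (2 R j k)` (if `K j k ≥ 0` use `W ≤ 1` and
`hjj`, else `R ≥ 0`).  In `Pr × Pr` symmetrise.  Then `wtrick0`. -/
theorem wtrick (cl : ι → κ) (J Pr : Finset ι) (hdis : Disjoint J Pr) (R K : ι → ι → ℝ)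
    (α d ℓ : ι → ℝ) {e G G' C A ap d1 ℓ2 : ℝ} (hsym : ∀ j k, K j k = K k j)
    (raw : ∀ a : ι → ℝ, (∀ j, 0 ≤ a j) → (∀ j, j ∉ J ∪ Pr → a j = 0) →
      2 * ∑ j, a j * (∑ k ∈ (J ∪ Pr).filter (fun k => cl k = cl j), R j k - e) ≤
        G + C * (∑ j, a j) ^ 2 +
          ∑ j, ∑ k ∈ univ.filter (fun k => cl k = cl j), a j * a k * K j k)
    (hG : 0 < G') (hC : 0 ≤ C) (hA : 0 < A) (hap : 0 ≤ ap) (hℓ2 : 0 ≤ ℓ2)
    (hK : ∀ j, K j j ≤ A) (hd1 : ∀ p ∈ Pr, d1 ≤ R p p - e)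
    (hpp : ∀ p ∈ Pr, ∀ p' ∈ Pr, p ≠ p' → cl p' = cl p → -ℓ2 ≤ R p p' + R p' p - ap * K p p')
    (hpj : ∀ p ∈ Pr, ∀ j ∈ J, 0 ≤ R p j)
    (hjp : ∀ j ∈ J, -ℓ j ≤ ∑ p ∈ Pr.filter (fun p => cl p = cl j), (R j p - ap * K j p))
    (hjj : ∀ j ∈ J, ∀ k ∈ J, 0 ≤ R j k ∧ α j * K k j ≤ 2 * R k j)
    (hG' : G - 2 * Pr.card * ap * d1 + C * (Pr.card * ap) ^ 2 + Pr.card * A * ap ^ 2 +
      Pr.card * (Pr.card - 1) * ap * ℓ2 ≤ G')
    (hα : ∀ j ∈ J, 0 ≤ α j) (hd : ∀ j ∈ J, 0 < d j)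
    (hd' : ∀ j ∈ J, d j ≤ R j j - e - Pr.card * ap * C - ℓ j)
    (h1 : ∀ j ∈ J, α j * A ≤ d j - G' * C / d j) :
    ∑ j ∈ J, α j * d j ≤ G' := by
  refine wtrick0 J α d hG hC hA hα hd h1 fun W hW0 hW1 => ?_
  set a : ι → ℝ := fun j => if j ∈ J then W * α j else if j ∈ Pr then ap else 0 with ha
  have haJ : ∀ j ∈ J, a j = W * α j := fun j hj => by simp [ha, hj]
  have haP : ∀ p ∈ Pr, a p = ap := fun p hp => by
    have : p ∉ J := fun h => disjoint_left.1 hdis h hp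
    simp [ha, hp, this]
  have ha0 : ∀ j, j ∉ J ∪ Pr → a j = 0 := fun j hj => by
    rw [mem_union, not_or] at hj
    simp [ha, hj.1, hj.2]
  have hapos : ∀ j, 0 ≤ a j := fun j => by
    by_cases h : j ∈ J
    · rw [haJ j h]; exact mul_nonneg hW0.le (hα j h)
    · by_cases h' : j ∈ Pr
      · rw [haP j h']; exact hap
      · rw [ha0 j (by simp [h, h'])]
  have split : ∀ f : ι → ℝ,
      ∑ j, a j * f j = ∑ j ∈ J, W * α j * f j + ∑ p ∈ Pr, ap * f p := fun f => by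
    rw [← sum_subset (subset_univ (J ∪ Pr)) (fun j _ hj => by rw [ha0 j hj, zero_mul]),
      sum_union hdis]
    congr 1
    · exact sum_congr rfl fun j hj => by rw [haJ j hj]
    · exact sum_congr rfl fun j hj => by rw [haP j hj]
  set Rc : ι → ι → ℝ := fun j k => if cl k = cl j then R j k else 0 with hRc
  set Kc : ι → ι → ℝ := fun j k => if cl k = cl j then K j k else 0 with hKc
  have hKs : ∀ j k, Kc j k = Kc k j := fun j k => by
    simp only [hKc]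
    by_cases h : cl k = cl j
    · rw [if_pos h, if_pos h.symm, hsym]
    · rw [if_neg h, if_neg (fun h' => h h'.symm)]
  have h := raw a hapos ha0
  have r1 : ∀ j, ∑ k ∈ (J ∪ Pr).filter (fun k => cl k = cl j), R j k =
      ∑ k ∈ J, Rc j k + ∑ k ∈ Pr, Rc j k := fun j => by
    rw [sum_filter, sum_union hdis]
  have r2 : ∀ j, ∑ k ∈ univ.filter (fun k => cl k = cl j), a j * a k * K j k =
      a j * (∑ k ∈ J, W * α k * Kc j k + ∑ k ∈ Pr, ap * Kc j k) := fun j => by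
    rw [← split (Kc j), mul_sum, sum_filter]
    refine sum_congr rfl fun k _ => ?_
    simp only [hKc]
    split_ifs
    · ring
    · simp
  have r3 : ∑ j, a j = ∑ j ∈ J, W * α j + Pr.card * ap := by
    have := split (fun _ => 1)
    simpa [mul_comm] using this
  simp only [r1, r2] at h
  rw [split, split, r3] at h
  -- the four blocks
  have i1 : ∀ j ∈ J, ∑ k ∈ J, W * α k * Kc j k ≤
      2 * ∑ k ∈ J, Rc j k + (A * (W * α j) - 2 * R j j) := fun j hj => by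
    have e : A * (W * α j) - 2 * R j j =
        ∑ k ∈ J, if k = j then A * (W * α j) - 2 * R j j else 0 := by
      rw [sum_ite_eq' J j, if_pos hj]
    rw [e, mul_sum, ← sum_add_distrib]
    refine sum_le_sum fun k hk => ?_
    simp only [hRc, hKc]
    by_cases hkj : k = j
    · subst hkj
      simp only [if_true]
      have := mul_le_mul_of_nonneg_left (hK k) (mul_nonneg hW0.le (hα k hk))
      linarith
    · rw [if_neg hkj]
      split_ifs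
      · have q1 := (hjj j hj k hk).1
        have q2 := (hjj k hk j hj).2
        rcases le_total 0 (α k * K j k) with q | q
        · nlinarith
        · nlinarith
      · simp
  have i2 : ∑ p ∈ Pr, ap * ∑ k ∈ J, W * α k * Kc p k =
      ∑ j ∈ J, W * α j * ∑ p ∈ Pr, ap * Kc j p := by
    simp only [mul_sum]
    rw [sum_comm]
    exact sum_congr rfl fun j _ => sum_congr rfl fun p _ => by rw [hKs p j]; ring
  have i3 : 0 ≤ ∑ p ∈ Pr, ap * ∑ k ∈ J, Rc p k := by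
    refine sum_nonneg fun p hp => mul_nonneg hap (sum_nonneg fun k hk => ?_)
    simp only [hRc]
    split_ifs
    · exact hpj p hp k hk
    · exact le_rfl
  have i4 : Pr.card * (-(Pr.card * ℓ2) + (2 * (d1 + e) - ap * A + ℓ2)) ≤
      2 * ∑ p ∈ Pr, ∑ k ∈ Pr, Rc p k - ∑ p ∈ Pr, ∑ k ∈ Pr, ap * Kc p k := by
    have e1 : 2 * ∑ p ∈ Pr, ∑ k ∈ Pr, Rc p k - ∑ p ∈ Pr, ∑ k ∈ Pr, ap * Kc p k =
        ∑ p ∈ Pr, ∑ k ∈ Pr, (Rc p k + Rc k p - ap * Kc p k) := by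
      simp only [sum_sub_distrib, sum_add_distrib]
      rw [sum_comm (s := Pr) (t := Pr) (f := fun p k => Rc k p)]
      ring
    rw [e1, ← nsmul_eq_mul, ← sum_const]
    refine sum_le_sum fun p hp => ?_
    have e2 : -(Pr.card * ℓ2) + (2 * (d1 + e) - ap * A + ℓ2) =
        ∑ k ∈ Pr, (-ℓ2 + if k = p then 2 * (d1 + e) - ap * A + ℓ2 else 0) := by
      rw [sum_add_distrib, sum_ite_eq' Pr p, if_pos hp, sum_const, nsmul_eq_mul]
      ring
    rw [e2]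
    refine sum_le_sum fun k hk => ?_
    simp only [hRc, hKc]
    by_cases hkp : k = p
    · subst hkp
      simp only [if_true]
      have q1 := hd1 k hk
      have q2 := mul_le_mul_of_nonneg_left (hK k) hap
      linarith
    · rw [if_neg hkp]
      by_cases hc : cl k = cl p
      · rw [if_pos hc, if_pos hc.symm, if_pos hc]
        have := hpp p hp k hk (fun h' => hkp h'.symm) hc
        linarith
      · rw [if_neg hc, if_neg (fun h' => hc h'.symm), if_neg hc]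
        linarith
  have i5 : ∀ j ∈ J, -ℓ j ≤ ∑ p ∈ Pr, Rc j p - ∑ p ∈ Pr, ap * Kc j p := fun j hj => by
    refine (hjp j hj).trans (le_of_eq ?_)
    rw [sum_filter, ← sum_sub_distrib]
    refine sum_congr rfl fun p _ => ?_
    simp only [hRc, hKc]
    split_ifs
    · rfl
    · simp
  have i6 : 2 * ∑ j ∈ J, W * α j * d j ≤
      2 * ∑ j ∈ J, W * α j * (∑ k ∈ J, Rc j k + ∑ k ∈ Pr, Rc j k - e) -
        ∑ j ∈ J, W * α j * (∑ k ∈ J, W * α k * Kc j k + ∑ k ∈ Pr, ap * Kc j k) -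
        ∑ j ∈ J, W * α j * ∑ p ∈ Pr, ap * Kc j p -
        2 * (Pr.card * ap * C) * ∑ j ∈ J, W * α j + A * ∑ j ∈ J, (W * α j) ^ 2 := by
    rw [mul_sum, mul_sum, mul_sum, mul_sum, ← sum_sub_distrib, ← sum_sub_distrib,
      ← sum_sub_distrib, ← sum_add_distrib]
    refine sum_le_sum fun j hj => ?_
    have q0 : 0 ≤ W * α j := mul_nonneg hW0.le (hα j hj)
    have q1 := i1 j hj
    have q2 := i5 j hj
    have q3 := hd' j hj
    have q4 : 2 * d j ≤ 2 * (∑ k ∈ J, Rc j k + ∑ k ∈ Pr, Rc j k - e) -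
        (∑ k ∈ J, W * α k * Kc j k + ∑ k ∈ Pr, ap * Kc j k) - ∑ p ∈ Pr, ap * Kc j p -
        2 * (Pr.card * ap * C) + A * (W * α j) := by linarith
    have q5 := mul_le_mul_of_nonneg_left q4 q0
    linarith
  have s1 : ∑ p ∈ Pr, ap * (∑ k ∈ J, Rc p k + ∑ k ∈ Pr, Rc p k - e) =
      ∑ p ∈ Pr, ap * ∑ k ∈ J, Rc p k + ap * ∑ p ∈ Pr, ∑ k ∈ Pr, Rc p k - Pr.card * ap * e := by
    rw [mul_sum Pr (fun p => ∑ k ∈ Pr, Rc p k), ← sum_add_distrib, mul_assoc, ← nsmul_eq_mul,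
      ← sum_const, ← sum_sub_distrib]
    exact sum_congr rfl fun p _ => by ring
  have s2 : ∑ p ∈ Pr, ap * (∑ k ∈ J, W * α k * Kc p k + ∑ k ∈ Pr, ap * Kc p k) =
      ∑ p ∈ Pr, ap * ∑ k ∈ J, W * α k * Kc p k + ap * ∑ p ∈ Pr, ∑ k ∈ Pr, ap * Kc p k := by
    rw [mul_sum Pr (fun p => ∑ k ∈ Pr, ap * Kc p k), ← sum_add_distrib]
    exact sum_congr rfl fun p _ => by ring
  rw [s1, s2, i2] at h
  have i7 := mul_le_mul_of_nonneg_left i4 hap
  nlinarith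

/-- `x i * x j ≤ (Φ i Θ j + Φ j Θ i) / 2` (both sides nonnegative, compare squares), symmetry of `r`. -/
theorem dual_gen (S : Finset ι) (r : ι → ι → Prop) [DecidableRel r] (hr : ∀ i j, r i j → r j i)
    (x Φ Θ : ι → ℝ) (hx : ∀ i ∈ S, 0 ≤ x i) (hΦ : ∀ i ∈ S, 0 ≤ Φ i) (hΘ : ∀ i ∈ S, 0 ≤ Θ i)
    (h : ∀ i ∈ S, x i ^ 2 ≤ Φ i * Θ i) (h1 : ∀ i ∈ S, ∑ j ∈ S.filter (r i), Θ j ≤ 1) :
    ∑ i ∈ S, ∑ j ∈ S.filter (r i), x i * x j ≤ ∑ i ∈ S, Φ i := by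
  have key : ∀ i ∈ S, ∀ j ∈ S, x i * x j ≤ (Φ i * Θ j + Φ j * Θ i) / 2 := by
    intro i hi j hj
    have a0 : 0 ≤ Φ i * Θ j := mul_nonneg (hΦ i hi) (hΘ j hj)
    have b0 : 0 ≤ Φ j * Θ i := mul_nonneg (hΦ j hj) (hΘ i hi)
    refine abs_le_of_sq_le_sq' ?_ (by positivity) |>.2
    have : x i ^ 2 * x j ^ 2 ≤ (Φ i * Θ i) * (Φ j * Θ j) :=
      mul_le_mul (h i hi) (h j hj) (sq_nonneg _) (mul_nonneg (hΦ i hi) (hΘ i hi))
    nlinarith [sq_nonneg (Φ i * Θ j - Φ j * Θ i)]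
  have b1 : ∑ i ∈ S, ∑ j ∈ S.filter (r i), Φ i * Θ j ≤ ∑ i ∈ S, Φ i := by
    refine sum_le_sum fun i hi => ?_
    rw [← mul_sum]
    exact mul_le_of_le_one_right (hΦ i hi) (h1 i hi)
  have b2 : ∑ i ∈ S, ∑ j ∈ S.filter (r i), Φ j * Θ i =
      ∑ i ∈ S, ∑ j ∈ S.filter (r i), Φ i * Θ j := by
    simp only [sum_filter]
    rw [sum_comm]
    refine sum_congr rfl fun i _ => sum_congr rfl fun j _ => ?_
    by_cases hij : r i j
    · rw [if_pos hij, if_pos (hr i j hij)]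
    · rw [if_neg hij, if_neg (fun h' => hij (hr j i h'))]
  calc ∑ i ∈ S, ∑ j ∈ S.filter (r i), x i * x j
      ≤ ∑ i ∈ S, ∑ j ∈ S.filter (r i), (Φ i * Θ j + Φ j * Θ i) / 2 :=
        sum_le_sum fun i hi => sum_le_sum fun j hj => key i hi j (mem_filter.1 hj).1
    _ = (∑ i ∈ S, ∑ j ∈ S.filter (r i), Φ i * Θ j +
          ∑ i ∈ S, ∑ j ∈ S.filter (r i), Φ j * Θ i) / 2 := by
        simp only [← sum_div, sum_add_distrib]
    _ ≤ ∑ i ∈ S, Φ i := by rw [b2]; linarith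

/-- `(X + U) ^ 2 = X ^ 2 + (2 X + U) U`. -/
theorem dual_prim (S : Finset ι) (x Φ Θ Ψ : ι → ℝ) {X X' U θ : ℝ} (hx : ∀ i ∈ S, 0 ≤ x i)
    (hX : X ≤ X') (h1 : ∀ i ∈ S, x i ≤ Ψ i) (hU : ∑ i ∈ S, Ψ i ≤ U)
    (h2 : ∀ i ∈ S, (2 * X' + U) * x i ≤ Φ i + Θ i) (hθ : ∑ i ∈ S, Θ i ≤ θ) :
    (X + ∑ i ∈ S, x i) ^ 2 ≤ X ^ 2 + θ + ∑ i ∈ S, Φ i := by
  have t0 : 0 ≤ ∑ i ∈ S, x i := sum_nonneg hx
  have t1 : ∑ i ∈ S, x i ≤ U := (sum_le_sum h1).trans hU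
  have t2 : (2 * X' + U) * ∑ i ∈ S, x i ≤ ∑ i ∈ S, Φ i + ∑ i ∈ S, Θ i := by
    rw [mul_sum, ← sum_add_distrib]
    exact sum_le_sum h2
  have t3 : (2 * X + ∑ i ∈ S, x i) * ∑ i ∈ S, x i ≤ (2 * X' + U) * ∑ i ∈ S, x i :=
    mul_le_mul_of_nonneg_right (by linarith) t0
  nlinarith

end Pool.Agent.Lib.MP_778b46_nt.GX
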