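import Pool.Agent.Lib.MP_778b46_nt.GX.GmC
import Pool.Agent.Lib.MP_778b46_nt.GX.GmD
import Pool.Agent.Lib.MP_778b46_nt.GX.Ce0

/- The Gram inequality of the model in the form of weights. -/

namespace Pool.Agent.Lib.MP_778b46_nt.GX

open Finset Filter Topology
open Pool.Agent.Lib.MP_e97e2b_nt.Ln (Lap Tst cut)

theorem Ev.of_eventually {φ : ℝ} {psF psC : List MP} {p : MProp}
    (h : ∀ H : ℝ, 10 ≤ H → ∀ᶠ ε in 𝓝[>] (0 : ℝ),
      ∀ (Γ Ω ι : Type) [CommGroup Γ] [Fintype Ω] [Fintype ι] (D : Dat Γ Ω ι),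
        Clean D φ ε H psF psC → p Γ Ω ι D) : Ev φ psF psC p := fun H hH => by
  obtain ⟨u, hu, h1⟩ := (mem_nhdsGT_iff_exists_Ioc_subset).1 (h H hH)
  exact ⟨u, hu, fun ε h2 h3 => h1 ⟨h2, h3⟩⟩

section

variable {Γ Ω ι : Type} [CommGroup Γ] [Fintype ι]

open Classical in
/-- The cross terms of the quadratic side are absorbed by those of the linear side. -/
theorem offdiag (D : Dat Γ Ω ι) (J : Finset ι) (a A : ι → ℝ) (R : ℝ → ℝ → ℝ) (K : ι → ℝ → ℝ)
    (ha : ∀ j, 0 ≤ a j) (ha' : ∀ j, j ∉ J → a j = 0) (hA : ∀ j ∈ J, K j 0 ≤ A j)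
    (hc : ∀ j ∈ J, ∀ k ∈ J, j ≠ k → D.ch k = D.ch j →
      a j * K j (D.mu j - D.mu k) ≤ 2 * R (D.lam j) (D.mu j - D.mu k)) :
    ∑ j, ∑ k ∈ univ.filter (fun k => D.ch k = D.ch j), a j * a k * K j (D.mu j - D.mu k) +
        2 * ∑ j, a j * R (D.lam j) 0 ≤
      ∑ j, A j * a j ^ 2 + 2 * ∑ j, a j * ∑ i ∈ J.filter (fun i => D.ch i = D.ch j),
        R (D.lam i) (D.mu i - D.mu j) := by
  have e1 : ∑ j, a j * ∑ i ∈ J.filter (fun i => D.ch i = D.ch j), R (D.lam i) (D.mu i - D.mu j) =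
      ∑ j, ∑ k, if D.ch k = D.ch j ∧ j ∈ J then a k * R (D.lam j) (D.mu j - D.mu k) else 0 := by
    rw [sum_comm]
    refine sum_congr rfl fun j _ => ?_
    rw [mul_sum, ← sum_filter]
    refine sum_congr ?_ fun _ _ => rfl
    ext i
    simp [eq_comm, and_comm]
  rw [e1, mul_sum, mul_sum, ← sum_add_distrib, ← sum_add_distrib]
  refine sum_le_sum fun j _ => ?_
  by_cases hj : j ∈ J
  · have e2 : A j * a j ^ 2 - 2 * (a j * R (D.lam j) 0) =
        ∑ k, if k = j then A j * a j ^ 2 - 2 * (a j * R (D.lam j) 0) else 0 := by simp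
    have h3 : ∑ k ∈ univ.filter (fun k => D.ch k = D.ch j), a j * a k * K j (D.mu j - D.mu k) ≤
        (∑ k, if k = j then A j * a j ^ 2 - 2 * (a j * R (D.lam j) 0) else 0) +
        2 * ∑ k, if D.ch k = D.ch j ∧ j ∈ J then a k * R (D.lam j) (D.mu j - D.mu k) else 0 := by
      rw [sum_filter, mul_sum, ← sum_add_distrib]
      refine sum_le_sum fun k _ => ?_
      by_cases hkj : k = j
      · subst hkj
        have := mul_le_mul_of_nonneg_left (hA k hj) (sq_nonneg (a k))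
        simp only [hj, if_true, and_self, sub_self]
        nlinarith
      by_cases hch : D.ch k = D.ch j
      · simp only [hkj, hch, hj, if_true, if_false, and_self, zero_add]
        by_cases hk : k ∈ J
        · have := mul_le_mul_of_nonneg_left (hc j hj k hk (Ne.symm hkj) hch) (ha k)
          linarith
        · simp [ha' k hk]
      · simp [hkj, hch]
    linarith
  · simp [ha' j hj, hj]

end

section

variable {Γ Ω ι : Type} [CommGroup Γ] [Fintype Ω] [Fintype ι] {D : Dat Γ Ω ι} {φ ε H : ℝ}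
  {psF psC : List MP}

open Classical in
theorem Clean.notsm_le (h : Clean D φ ε H psF psC) {a : ι → ℝ} (ha : ∀ j, 0 ≤ a j) :
    ∑ i, ∑ j ∈ univ.filter (fun j => ¬D.sm (D.ch i / D.ch j)), a i * a j +
      D.Fm a (fun _ => 1) ≤ (∑ j, a j) ^ 2 := by
  rw [sq, sum_mul_sum, Dat.Fm, ← sum_add_distrib]
  refine sum_le_sum fun i _ => ?_
  rw [sum_filter, sum_filter, ← sum_add_distrib]
  refine sum_le_sum fun j _ => ?_
  have := mul_nonneg (ha i) (ha j)
  by_cases h1 : D.ch j = D.ch i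
  · simp [h1, h.sm_one]
  · rw [if_neg h1]
    split_ifs <;> linarith

end

/-- Pointwise conditions on a weight. -/
def WtA (f : ℝ → ℝ) (T e l G A C lo : ℝ) (K w : ℝ → ℝ) : Prop :=
  ∀ x : ℝ, lo ≤ x → w x ≤ 0 ∨ ∃ α d : ℝ, 0 ≤ α ∧ 0 < d ∧ d ≤ RL f T x 0 - e ∧
    α * A ≤ d - G * C / d ∧ (l ≤ x → ∀ y, α * K y ≤ 2 * RL f T x y) ∧ w x * G ≤ α * d

open Classical in
theorem gramW {φ H G0 G A C c d0 lo : ℝ} {f k κ w : ℝ → ℝ} {T T2 l b : ℝ} (hf : Adm f T l)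
    (hk : Adm k T2 b) (hl : l ≤ H) (hb : b ≤ H) (hc : Cost φ H (cut f T) (cut k T2) G0 κ)
    (hd : 0 < d0) (hG : G0 + d0 ≤ G) (hG0 : 0 < G) (hA0 : 0 < A) (hc0 : 0 ≤ c)
    (hA : RL k T2 0 0 + κ 0 - c ≤ A) (hC : c + d0 ≤ C)
    (hw : WtA f T (φ / 2 * f 0 + d0) l G A C lo (fun y => RL k T2 0 y + κ y - c) w) :
    ∀ᶠ ε in 𝓝[>] (0 : ℝ), ∀ (Γ Ω ι : Type) [CommGroup Γ] [Fintype Ω] [Fintype ι]
      (D : Dat Γ Ω ι) (psF psC : List MP), Clean D φ ε H psF psC → ∀ S : Finset ι, D.Cl l S →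
      (∀ j ∈ S, lo ≤ D.lam j) →
      ((c = 0 ∧ ∀ i ∈ S, ∀ j ∈ S, D.sm (D.ch i / D.ch j)) ∨
        (c = φ / 2 * k 0 ∧ ∀ i, b ≤ D.lam i)) → ∑ j ∈ S, w (D.lam j) ≤ 1 := by
  filter_upwards [raw hf hk hl hb hc hd] with ε h1
  intro Γ Ω ι _ _ _ D psF psC hD S hS hlo hm
  set J := S.filter fun j => 0 < w (D.lam j) with hJ
  have hJS : ∀ j ∈ J, j ∈ S := fun j hj => (mem_filter.1 hj).1
  have h2 : ∀ j, ∃ α d : ℝ, j ∈ J → 0 ≤ α ∧ 0 < d ∧
      d ≤ RL f T (D.lam j) 0 - (φ / 2 * f 0 + d0) ∧ α * A ≤ d - G * C / d ∧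
      (l ≤ D.lam j → ∀ y, α * (RL k T2 0 y + κ y - c) ≤ 2 * RL f T (D.lam j) y) ∧
      w (D.lam j) * G ≤ α * d := fun j => by
    by_cases hj : j ∈ J
    · rcases hw (D.lam j) (hlo j (hJS j hj)) with h | ⟨α, d, h⟩
      · exact absurd (mem_filter.1 hj).2 (not_lt.2 h)
      · exact ⟨α, d, fun _ => h⟩
    · exact ⟨0, 0, fun h => absurd h hj⟩
  choose α d h2 using h2
  have h3 : ∑ j ∈ J, α j * d j ≤ G := by
    refine wtrick0 J α d hG0 (C := C) (by linarith) hA0 (fun j hj => (h2 j hj).1)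
      (fun j hj => (h2 j hj).2.1) (fun j hj => (h2 j hj).2.2.2.1) fun W hW0 hW1 => ?_
    set a : ι → ℝ := fun j => if j ∈ J then W * α j else 0 with ha
    have ha0 : ∀ j, 0 ≤ a j := fun j => by
      simp only [ha]
      split_ifs with hj
      exacts [mul_nonneg hW0.le (h2 j hj).1, le_rfl]
    have ha1 : ∀ j, j ∉ J → a j = 0 := fun j hj => if_neg hj
    have ha2 : ∀ j ∈ J, a j = W * α j := fun j hj => if_pos hj
    have k1 := h1 Γ Ω ι D psF psC hD J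
      (fun j hj i hi e => hS j (hJS j hj) i e fun e' => hi (e' ▸ hj))
      (hm.imp (fun e i hi j hj => e.2 i (hJS i hi) j (hJS j hj)) fun e => e.2) a ha0 ha1
    have k2 := offdiag D J a (fun _ => A) (RL f T) (fun _ y => RL k T2 0 y + κ y - c) ha0 ha1
      (fun _ _ => hA) fun j hj i hi hne e => by
        have q0 : l ≤ D.lam j := hS i (hJS i hi) j e.symm hne
        have q1 := (h2 j hj).2.2.2.2.1 q0 (D.mu j - D.mu i)
        have q2 := hf.pos _ (D.mu j - D.mu i) q0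
        rw [ha2 j hj, mul_assoc]
        nlinarith
    have k3 : φ / 2 * k 0 * ∑ i, ∑ j ∈ univ.filter (fun j => ¬D.sm (D.ch i / D.ch j)), a i * a j ≤
        c * (∑ j, a j) ^ 2 - c * D.Fm a fun _ => 1 := by
      rcases hm with ⟨e, hm⟩ | ⟨e, -⟩
      · rw [e, sum_eq_zero fun i _ => sum_eq_zero fun j hj => ?_]
        · simp
        · by_contra hne
          have q1 : i ∈ J := by_contra fun q => hne (by rw [ha1 i q, zero_mul])
          have q2 : j ∈ J := by_contra fun q => hne (by rw [ha1 j q, mul_zero])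
          exact (mem_filter.1 hj).2 (hm i (hJS i q1) j (hJS j q2))
      · rw [← e, ← mul_sub]
        exact mul_le_mul_of_nonneg_left (by linarith [hD.notsm_le ha0]) hc0
    have k4 : (D.Fm a fun y => RL k T2 0 y + κ y) =
        (D.Fm a fun y => RL k T2 0 y + κ y - c) + c * D.Fm a fun _ => 1 := by
      simp only [Dat.Fm, mul_sum, ← sum_add_distrib]
      exact sum_congr rfl fun _ _ => sum_congr rfl fun _ _ => by ring
    have e0 : ∀ g : ι → ℝ, (∀ j, j ∉ J → g j = 0) → ∑ j ∈ J, g j = ∑ j, g j := fun g hg =>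
      sum_subset (subset_univ J) fun j _ hj => hg j hj
    have e1 : ∑ j ∈ J, W * α j = ∑ j, a j := by
      rw [← e0 a ha1]
      exact sum_congr rfl fun j hj => (ha2 j hj).symm
    have e2 : A * ∑ j ∈ J, (W * α j) ^ 2 = ∑ j, A * a j ^ 2 := by
      rw [← e0 (fun j => A * a j ^ 2) fun j hj => by simp [ha1 j hj], mul_sum]
      exact sum_congr rfl fun j hj => by rw [ha2 j hj]
    have e3 : ∑ j ∈ J, W * α j * d j ≤
        ∑ j, a j * RL f T (D.lam j) 0 - (φ / 2 * f 0 + d0) * ∑ j, a j := by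
      rw [mul_sum, ← sum_sub_distrib, ← e0 (fun j => a j * RL f T (D.lam j) 0 -
        (φ / 2 * f 0 + d0) * a j) fun j hj => by simp [ha1 j hj]]
      refine sum_le_sum fun j hj => ?_
      have := mul_le_mul_of_nonneg_left (h2 j hj).2.2.1 (ha0 j)
      rw [← ha2 j hj]
      linarith
    have e4 : ∑ j, a j * (∑ i ∈ J.filter (fun i => D.ch i = D.ch j),
        RL f T (D.lam i) (D.mu i - D.mu j) - φ / 2 * f 0 - d0) =
        ∑ j, a j * ∑ i ∈ J.filter (fun i => D.ch i = D.ch j), RL f T (D.lam i) (D.mu i - D.mu j) -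
          (φ / 2 * f 0 + d0) * ∑ j, a j := by
      rw [mul_sum, ← sum_sub_distrib]
      exact sum_congr rfl fun j _ => by ring
    have k5 := mul_le_mul_of_nonneg_right hC (sq_nonneg (∑ j, a j))
    rw [e4, k4] at k1
    rw [e1, e2]
    unfold Dat.Fm at k1 k3
    linarith
  have h4 : ∑ j ∈ S, w (D.lam j) ≤ ∑ j ∈ J, w (D.lam j) := by
    rw [hJ, sum_filter]
    exact sum_le_sum fun j _ => by split_ifs with h <;> linarith
  have h5 : (∑ j ∈ J, w (D.lam j)) * G ≤ 1 * G := by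
    rw [sum_mul, one_mul]
    exact (sum_le_sum fun j hj => (h2 j hj).2.2.2.2.2).trans h3
  exact h4.trans (le_of_mul_le_mul_right h5 hG0)

/-- The family inequality for general test functions. -/
theorem evW (psF psC : List MP) {φ G0 G A C d0 T T2 l b lo : ℝ} {f k κ w : ℝ → ℝ}
    (hf : Adm f T l) (hk : Adm k T2 b) (hl : l ≤ 10) (hb : b ≤ 10)
    (hc : ∀ H : ℝ, 10 ≤ H → Cost φ H (cut f T) (cut k T2) G0 κ) (hd : 0 < d0) (hG : G0 + d0 ≤ G)
    (hG0 : 0 < G) (hA0 : 0 < A) (hφ : 0 ≤ φ) (hA : RL k T2 0 0 + κ 0 - φ / 2 * k 0 ≤ A)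
    (hC : φ / 2 * k 0 + d0 ≤ C)
    (hw : WtA f T (φ / 2 * f 0 + d0) l G A C lo (fun y => RL k T2 0 y + κ y - φ / 2 * k 0) w)
    (hlo : b ≤ lo) :
    Ev φ psF psC fun _ _ _ _ _ _ D => (∀ i, lo ≤ D.lam i) → D.Fam l w := by
  refine Ev.of_eventually fun H hH => ?_
  filter_upwards [gramW hf hk (hl.trans hH) (hb.trans hH) (hc H hH) hd hG hG0 hA0
    (mul_nonneg (by linarith) hk.zero) hA hC hw] with ε h
  intro Γ Ω ι _ _ _ D hD h1 S hS
  exact h Γ Ω ι D psF psC hD S hS (fun j _ => h1 j) (Or.inr ⟨rfl, fun i => hlo.trans (h1 i)⟩)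

/-- The class inequality for general test functions. -/
theorem evC (psF psC : List MP) {φ G0 G A C d0 T T2 l b : ℝ} {f k κ w : ℝ → ℝ}
    (hf : Adm f T l) (hk : Adm k T2 b) (hl : l ≤ 10) (hb : b ≤ 10)
    (hc : ∀ H : ℝ, 10 ≤ H → Cost φ H (cut f T) (cut k T2) G0 κ) (hd : 0 < d0) (hG : G0 + d0 ≤ G)
    (hG0 : 0 < G) (hA0 : 0 < A) (hA : RL k T2 0 0 + κ 0 ≤ A) (hC : d0 ≤ C)
    (hw : WtA f T (φ / 2 * f 0 + d0) l G A C 0 (fun y => RL k T2 0 y + κ y) w) :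
    Ev φ psF psC fun _ _ _ _ _ _ D => D.Cls l w := by
  refine Ev.of_eventually fun H hH => ?_
  filter_upwards [gramW (c := 0) (C := C) (lo := 0) (w := w) hf hk (hl.trans hH) (hb.trans hH) (hc H hH) hd hG hG0 hA0
    le_rfl (by linarith) (by linarith) (by simpa only [sub_zero] using hw)] with ε h
  intro Γ Ω ι _ _ _ D hD S hS h1
  exact h Γ Ω ι D psF psC hD S hS (fun j _ => hD.lam_nonneg j) (Or.inl ⟨rfl, h1⟩)

end Pool.Agent.Lib.MP_778b46_nt.GX
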