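import Pool.Agent.Lib.MP_778b46_nt.GX.Ce2

/- One row of the certificate, general form: two levels, one or two primary zeros in a class,
weights of both signs, and a parameter for each class. -/

namespace Pool.Agent.Lib.MP_778b46_nt.GX

open Finset

section

variable {Γ Ω ι : Type} [CommGroup Γ] [Fintype Ω] [Fintype ι]

/-- `S` consists of all zeros of some characters, and they lie beyond the line `l`. -/
def Dat.Sat (D : Dat Γ Ω ι) (l : ℝ) (S : Finset ι) : Prop :=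
  ∀ j ∈ S, l ≤ D.lam j ∧ ∀ k, D.ch k = D.ch j → k ∈ S

open Classical in
/-- Family inequality with a parameter `τ K` and a cost `c (τ K)` for each class `K`. -/
def Dat.FamJ (D : Dat Γ Ω ι) (l : ℝ) (lone : Prop) (w : ℝ → ℝ → ℝ) (c : ℝ → ℝ) : Prop :=
  ∀ (S : Finset ι) (τ : Finset ι → ℝ), D.Sat l S ∨ (lone ∧ D.Cl l S) →
    ∑ j ∈ S, w (τ (ce2cls D j)) (D.lam j) ≤ 1 + ∑ K ∈ S.image (ce2cls D), c (τ K)

/-- Class inequality for saturated sets. -/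
def Dat.ClsS (D : Dat Γ Ω ι) (l : ℝ) (w : ℝ → ℝ) : Prop :=
  ∀ S : Finset ι, D.Sat l S → (∀ j ∈ S, ∀ k ∈ S, D.sm (D.ch j / D.ch k)) →
    ∑ j ∈ S, w (D.lam j) ≤ 1

/-- At most `n` classes with exactly `r` primary zeros in `[sa, sb]`.  The other zeros lie beyond
`lp` (characters of the primary zeros), `lc` (their classes), `l` (other classes). -/
def Dat.Prim2 (D : Dat Γ Ω ι) (n r : ℕ) (sa sb l lc lp : ℝ) : Prop :=
  ∃ Pr : Finset ι, Pr.card ≤ n * r ∧ (∀ p ∈ Pr, sa ≤ D.lam p ∧ D.lam p ≤ sb) ∧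
    (∀ p ∈ Pr, ∃ A : Finset ι, A.card = r ∧ ∀ k, k ∈ A ↔ k ∈ Pr ∧ D.sm (D.ch p / D.ch k)) ∧
    (∀ p ∈ Pr, ∀ k, D.ch k = D.ch p → k ≠ p → lp ≤ D.lam k) ∧
    (∀ p ∈ Pr, ∀ k, k ∉ Pr → D.sm (D.ch p / D.ch k) → lc ≤ D.lam k) ∧
    ∀ k, (∀ p ∈ Pr, ¬ D.sm (D.ch p / D.ch k)) → l ≤ D.lam k

omit [Fintype Ω] [Fintype ι] in
theorem Dat.Sat.cl {D : Dat Γ Ω ι} {l : ℝ} {S : Finset ι} (h : D.Sat l S) : D.Cl l S :=
  fun j hj k hk _ => (h k ((h j hj).2 k hk)).1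

omit [Fintype Ω] in
theorem Dat.Fam.famJ {D : Dat Γ Ω ι} {l : ℝ} {w : ℝ → ℝ} (h : D.Fam l w) (lone : Prop) :
    D.FamJ l lone (fun _ => w) fun _ => 0 := fun S _ hS => by
  rw [sum_const_zero, add_zero]
  exact h S (hS.elim Dat.Sat.cl And.right)

omit [Fintype Ω] [Fintype ι] in
theorem Dat.Cls.clsS {D : Dat Γ Ω ι} {l : ℝ} {w : ℝ → ℝ} (h : D.Cls l w) : D.ClsS l w :=
  fun S hS => h S hS.cl

omit [Fintype Ω] [Fintype ι] in
theorem Dat.Prim2.ge {D : Dat Γ Ω ι} {n r : ℕ} {sa sb l lc lp : ℝ}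
    (h : D.Prim2 n r sa sb l lc lp) (h1 : sa ≤ l) (h2 : sa ≤ lc) (i : ι) : sa ≤ D.lam i := by
  obtain ⟨Pr, -, p2, -, -, p5, p6⟩ := h
  by_cases hi : i ∈ Pr
  · exact (p2 i hi).1
  by_cases hp : ∃ p ∈ Pr, D.sm (D.ch p / D.ch i)
  · obtain ⟨p, q1, q2⟩ := hp
    exact h2.trans (p5 p q1 i hi q2)
  · exact h1.trans (p6 i fun p q1 q2 => hp ⟨p, q1, q2⟩)

end

section

variable {κF κC : Type} [Fintype κF] [Fintype κC]

open Classical in
/-- Combination of the family weights with index in `A`. -/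
noncomputable def PhiJ (y : κF → ℝ) (wF : κF → ℝ → ℝ → ℝ) (A : κF → Prop) (τ : κF → ℝ)
    (x : ℝ) : ℝ := ∑ k ∈ univ.filter A, y k * wF k (τ k) x

open Classical in
/-- Combination of the costs with index in `A`. -/
noncomputable def CostJ (y : κF → ℝ) (cF : κF → ℝ → ℝ) (A : κF → Prop) (τ : κF → ℝ) : ℝ :=
  ∑ k ∈ univ.filter A, y k * cF k (τ k)

/-- Classes without primary zero whose first zero lies in `[lo, hi)`. -/
def TypeOK2 (L : ℝ) (y lF : κF → ℝ) (wF : κF → ℝ → ℝ → ℝ) (cF : κF → ℝ → ℝ) (lC : κC → ℝ)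
    (wC : κC → ℝ → ℝ) (lo hi : ℝ) : Prop :=
  ∀ σ : ℝ, Real.exp (-(L * hi)) ≤ σ → ∃ (p q ν : ℝ) (θ : κC → ℝ) (τ : κF → ℝ), 0 ≤ ν ∧
    (∀ m, 0 ≤ θ m) ∧ (∀ m, lo < lC m → θ m = 0) ∧ σ ^ 2 ≤ p * σ - q ∧
    ∑ m, θ m - ν + CostJ y cF (fun k => lF k ≤ lo) τ ≤ q ∧
    ∀ x : ℝ, lo ≤ x → p * Real.exp (-(L * x)) + (if x < hi then ν else 0) ≤
      PhiJ y wF (fun k => lF k ≤ lo) τ x + ∑ m, θ m * wC m x

/-- Classes without primary zero whose first zero lies beyond `lo`. -/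
def LastOK2 (L : ℝ) (y lF : κF → ℝ) (wF : κF → ℝ → ℝ → ℝ) (cF : κF → ℝ → ℝ) (lC : κC → ℝ)
    (wC : κC → ℝ → ℝ) (lo : ℝ) : Prop :=
  ∀ σ : ℝ, 0 ≤ σ → ∃ (p q : ℝ) (θ : κC → ℝ) (τ : κF → ℝ), (∀ m, 0 ≤ θ m) ∧
    (∀ m, lo < lC m → θ m = 0) ∧ σ ^ 2 ≤ p * σ - q ∧
    ∑ m, θ m + CostJ y cF (fun k => lF k ≤ lo) τ ≤ q ∧
    ∀ x : ℝ, lo ≤ x → p * Real.exp (-(L * x)) ≤
      PhiJ y wF (fun k => lF k ≤ lo) τ x + ∑ m, θ m * wC m x

/-- Classes with `r` primary zeros. -/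
def PrimOK2 (L : ℝ) (y lF : κF → ℝ) (lone : κF → Prop) (wF : κF → ℝ → ℝ → ℝ) (cF : κF → ℝ → ℝ)
    (lC : κC → ℝ) (wC : κC → ℝ → ℝ) (r : ℕ) (sa sb lc lp y0 : ℝ) : Prop :=
  ∀ σ : ℝ, r * Real.exp (-(L * sb)) ≤ σ → ∃ (p q : ℝ) (θ : κC → ℝ) (τ : κF → ℝ),
    (∀ m, 0 ≤ θ m) ∧ (∀ m, sa < lC m → θ m = 0) ∧ σ ^ 2 ≤ p * σ - q ∧
    (∀ x : ℝ, lc ≤ x → p * Real.exp (-(L * x)) ≤
      PhiJ y wF (fun k => lF k ≤ sa) τ x + ∑ m, θ m * wC m x) ∧
    ∀ x : ℝ, sa ≤ x → x ≤ sb → r * (p * Real.exp (-(L * x))) + ∑ m, θ m +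
      CostJ y cF (fun k => lF k ≤ sa ∨ (lone k ∧ lF k ≤ lp)) τ ≤ q + y0 +
        r * (PhiJ y wF (fun k => lF k ≤ sa ∨ (lone k ∧ lF k ≤ lp)) τ x + ∑ m, θ m * wC m x)

end

/-- The conclusion of one row of the certificate. -/
def RowP2 (L V : ℝ) (n r : ℕ) (sa sb l lc lp : ℝ) : MProp := fun _ _ _ _ _ _ D =>
  D.Prim2 n r sa sb l lc lp → D.Tot L ≤ V

variable {Γ Ω ι : Type} [CommGroup Γ] [Fintype Ω] [Fintype ι]
variable {κF κC : Type} [Fintype κF] [Fintype κC]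

theorem row2_cls {D : Dat Γ Ω ι} {φ ε H : ℝ} {psF psC : List MP} (hD : Clean D φ ε H psF psC)
    {lC : κC → ℝ} {wC : κC → ℝ → ℝ} (hC : ∀ m, D.ClsS (lC m) (wC m)) {θ : κC → ℝ}
    (h0 : ∀ m, 0 ≤ θ m) {lo : ℝ} (h1 : ∀ m, lo < lC m → θ m = 0) {i : ι}
    (hlo : ∀ j ∈ ce2cls D i, lo ≤ D.lam j) :
    ∑ j ∈ ce2cls D i, ∑ m, θ m * wC m (D.lam j) ≤ ∑ m, θ m := by
  rw [sum_comm]
  refine sum_le_sum fun m _ => ?_
  rw [← mul_sum]
  rcases lt_or_ge lo (lC m) with h | h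
  · rw [h1 m h, zero_mul]
  · refine mul_le_of_le_one_right (h0 m) (hC m _ (fun j hj => ⟨h.trans (hlo j hj), fun k hk => ?_⟩)
      fun j hj k hk => ce2_pair hD hj hk)
    rw [ce2_mem, hk]
    exact ce2_mem.1 hj

open Classical in
/-- Summation of the family inequalities.  For the class `K` and the constraint `k` the set
`A K k ⊆ K` takes part; it is empty, saturated, or closed for a constraint of the lone kind. -/
theorem row2_fam {D : Dat Γ Ω ι} {φ ε H : ℝ} {psF psC : List MP} (hD : Clean D φ ε H psF psC)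
    {y lF : κF → ℝ} {lone : κF → Prop} {wF : κF → ℝ → ℝ → ℝ} {cF : κF → ℝ → ℝ}
    (hy : ∀ k, 0 ≤ y k) (hc : ∀ k t, 0 ≤ cF k t)
    (hF : ∀ k, D.FamJ (lF k) (lone k) (wF k) (cF k)) (A : Finset ι → κF → Finset ι)
    (B : Finset ι → κF → Prop) (τ : Finset ι → κF → ℝ)
    (h1 : ∀ K ∈ univ.image (ce2cls D), ∀ k, A K k ⊆ K ∧ (¬ B K k → A K k = ∅) ∧
      (D.Sat (lF k) (A K k) ∨ (lone k ∧ D.Cl (lF k) (A K k)))) :
    ∑ K ∈ univ.image (ce2cls D), (∑ k, y k * ∑ j ∈ A K k, wF k (τ K k) (D.lam j) -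
      CostJ y cF (B K) (τ K)) ≤ ∑ k, y k := by
  simp only [CostJ, sum_filter, ← sum_sub_distrib]
  rw [sum_comm]
  refine sum_le_sum fun k _ => ?_
  set S : Finset ι := univ.filter fun j => j ∈ A (ce2cls D j) k with hS
  have hm : ∀ j, ce2cls D j ∈ univ.image (ce2cls D) := fun j => mem_image_of_mem _ (mem_univ j)
  have hch : ∀ {j i : ι}, D.ch i = D.ch j → ce2cls D i = ce2cls D j := fun h => by
    simp only [ce2cls, h]
  have hS1 : D.Sat (lF k) S ∨ (lone k ∧ D.Cl (lF k) S) := by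
    by_cases hl : lone k
    · refine Or.inr ⟨hl, fun j hj => ?_⟩
      exact ((h1 _ (hm j) k).2.2.elim Dat.Sat.cl And.right) j (mem_filter.1 hj).2
    · refine Or.inl fun j hj => ?_
      have h2 := ((h1 _ (hm j) k).2.2.resolve_right fun h => hl h.1) j (mem_filter.1 hj).2
      exact ⟨h2.1, fun i hi => mem_filter.2 ⟨mem_univ _, hch hi ▸ h2.2 i hi⟩⟩
  have h2 := hF k S (fun K => τ K k) hS1
  have h3 : ∑ j ∈ S, wF k (τ (ce2cls D j) k) (D.lam j) =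
      ∑ K ∈ univ.image (ce2cls D), ∑ j ∈ A K k, wF k (τ K k) (D.lam j) := by
    rw [hS, sum_filter, ce2_sum hD fun K j => if j ∈ A K k then wF k (τ K k) (D.lam j) else 0]
    refine sum_congr rfl fun K hK => ?_
    rw [← sum_filter, filter_mem_eq_inter, inter_eq_right.2 (h1 K hK k).1]
  have h4 : ∑ K ∈ S.image (ce2cls D), cF k (τ K k) ≤
      ∑ K ∈ univ.image (ce2cls D), if B K k then cF k (τ K k) else 0 := by
    rw [← sum_filter]
    refine sum_le_sum_of_subset_of_nonneg (fun K hK => ?_) fun K _ _ => hc k _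
    obtain ⟨j, hj, rfl⟩ := mem_image.1 hK
    refine mem_filter.2 ⟨hm j, not_not.1 fun h => ?_⟩
    have := (mem_filter.1 hj).2
    rw [(h1 _ (hm j) k).2.1 h] at this
    exact notMem_empty _ this
  have h5 : ∑ K ∈ univ.image (ce2cls D), (y k * ∑ j ∈ A K k, wF k (τ K k) (D.lam j) -
      if B K k then y k * cF k (τ K k) else 0) = y k *
        (∑ K ∈ univ.image (ce2cls D), ∑ j ∈ A K k, wF k (τ K k) (D.lam j) -
          ∑ K ∈ univ.image (ce2cls D), if B K k then cF k (τ K k) else 0) := by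
    rw [← sum_sub_distrib, mul_sum]
    refine sum_congr rfl fun K _ => ?_
    split_ifs <;> ring
  rw [h5]
  exact mul_le_of_le_one_right (hy k) (by linarith)

open Classical in
theorem row2_phi (y : κF → ℝ) (wF : κF → ℝ → ℝ → ℝ) (B : κF → Prop) (τ : κF → ℝ) (x : ι → ℝ)
    (K : Finset ι) : ∑ j ∈ K, PhiJ y wF B τ (x j) =
      ∑ k, y k * ∑ j ∈ (if B k then K else ∅), wF k (τ k) (x j) := by
  simp only [PhiJ, sum_filter]
  rw [sum_comm]
  refine sum_congr rfl fun k _ => ?_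
  split_ifs
  · rw [mul_sum]
  · simp

theorem row_thm2 {D : Dat Γ Ω ι} {φ ε H : ℝ} {psF psC : List MP} (hD : Clean D φ ε H psF psC)
    {L sa sb l lc lp y0 : ℝ} {n r N : ℕ} {y lF : κF → ℝ} {lone : κF → Prop}
    {wF : κF → ℝ → ℝ → ℝ} {cF : κF → ℝ → ℝ} {lC : κC → ℝ} {wC : κC → ℝ → ℝ} {b : ℕ → ℝ}
    (hL : 0 ≤ L) (hsl : sa ≤ lc) (hy : ∀ k, 0 ≤ y k) (hy0 : 0 ≤ y0) (hc : ∀ k t, 0 ≤ cF k t)
    (hF : ∀ k, D.FamJ (lF k) (lone k) (wF k) (cF k)) (hC : ∀ m, D.ClsS (lC m) (wC m))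
    (hb0 : b 0 ≤ l) (hT : ∀ t < N, TypeOK2 L y lF wF cF lC wC (b t) (b (t + 1)))
    (hN : LastOK2 L y lF wF cF lC wC (b N))
    (hP : n = 0 ∨ PrimOK2 L y lF lone wF cF lC wC r sa sb lc lp y0)
    (hPr : D.Prim2 n r sa sb l lc lp) : D.Tot L ≤ ∑ k, y k + n * y0 := by
  classical
  obtain ⟨Pr, p1, p2, p3, p4, p5, p6⟩ := hPr
  have hx : ∀ j, 0 ≤ Real.exp (-(L * D.lam j)) := fun j => (Real.exp_pos _).le
  have hch : ∀ {i j k}, j ∈ ce2cls D i → D.ch k = D.ch j → k ∈ ce2cls D i := fun hj hk => by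
    rw [ce2_mem, hk]
    exact ce2_mem.1 hj
  have key : ∀ K ∈ univ.image (ce2cls D), ∃ (A : κF → Finset ι) (B : κF → Prop) (τ : κF → ℝ),
      (∀ k, A k ⊆ K ∧ (¬ B k → A k = ∅) ∧
        (D.Sat (lF k) (A k) ∨ (lone k ∧ D.Cl (lF k) (A k)))) ∧
      ∑ i ∈ K, Real.exp (-(L * D.lam i)) * ∑ j ∈ K, Real.exp (-(L * D.lam j)) ≤
        (∑ k, y k * ∑ j ∈ A k, wF k (τ k) (D.lam j) - CostJ y cF B τ) +
          ∑ i ∈ K, if i ∈ Pr then y0 / r else 0 := by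
    intro K hK
    obtain ⟨i, -, hi⟩ := mem_image.1 hK
    rw [← sum_mul, ← sq]
    have sat : ∀ lo a : ℝ, a ≤ lo → (∀ j ∈ K, lo ≤ D.lam j) → D.Sat a K := fun lo a h1 h2 j hj =>
      ⟨h1.trans (h2 j hj), fun k hk => hi ▸ hch (hi ▸ hj) hk⟩
    by_cases hp : ∃ p0 ∈ K, p0 ∈ Pr
    · obtain ⟨p0, q1, q2⟩ := hp
      obtain ⟨A0, q3, q4⟩ := p3 p0 q2
      have hK0 : ce2cls D p0 = K := hi ▸ ce2_eq hD (hi ▸ q1)
      have hA0 : A0 = K.filter fun k => k ∈ Pr := by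
        ext k
        rw [q4, mem_filter, ← hK0, ce2_mem, and_comm]
      have hr : (0 : ℝ) < r := by
        rw [← q3, hA0]
        exact Nat.cast_pos.2 (card_pos.2 ⟨p0, mem_filter.2 ⟨q1, q2⟩⟩)
      have hlc : ∀ j ∈ K, j ∉ Pr → lc ≤ D.lam j := fun j hj h =>
        p5 p0 q2 j h (ce2_mem.1 (hK0 ▸ hj))
      have hsa : ∀ j ∈ K, sa ≤ D.lam j := fun j hj => by
        by_cases h : j ∈ Pr
        exacts [(p2 j h).1, hsl.trans (hlc j hj h)]
      have hsub : A0 ⊆ K := hA0 ▸ filter_subset _ _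
      have hPr' : ∀ j ∈ A0, j ∈ Pr := fun j hj => ((q4 j).1 hj).1
      obtain ⟨p, q, θ, τ, a1, a2, a3, a4, a5⟩ := (hP.resolve_left fun h => by
        have := card_pos.2 ⟨p0, q2⟩
        rw [h, zero_mul] at p1
        omega) (∑ j ∈ K, Real.exp (-(L * D.lam j))) (by
          refine le_trans ?_ (sum_le_sum_of_subset_of_nonneg hsub fun j _ _ => hx j)
          rw [← q3, ← nsmul_eq_mul]
          exact card_nsmul_le_sum _ _ _ fun j hj => Real.exp_le_exp.2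
            (neg_le_neg (mul_le_mul_of_nonneg_left (p2 j (hPr' j hj)).2 hL)))
      refine ⟨fun k => if lF k ≤ sa then K else if lone k ∧ lF k ≤ lp then A0 else ∅,
        fun k => lF k ≤ sa ∨ (lone k ∧ lF k ≤ lp), τ, fun k => ?_, ?_⟩
      · beta_reduce
        split_ifs with h1 h2
        · exact ⟨Subset.rfl, fun h => absurd (Or.inl h1) h, Or.inl (sat sa _ h1 hsa)⟩
        · exact ⟨hsub, fun h => absurd (Or.inr h2) h, Or.inr ⟨h2.1, fun j hj k h3 h4 =>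
            h2.2.trans (p4 j (hPr' j hj) k h3 h4)⟩⟩
        · exact ⟨empty_subset _, fun _ => rfl, Or.inl fun j hj => absurd hj (notMem_empty j)⟩
      · have b1 := row2_cls hD hC a1 a2 (i := i) fun j hj => hsa j (hi ▸ hj)
        rw [hi, ← sum_sdiff hsub] at b1
        have b2 : ∑ j ∈ K \ A0, p * Real.exp (-(L * D.lam j)) ≤ ∑ j ∈ K \ A0,
            (PhiJ y wF (fun k => lF k ≤ sa) τ (D.lam j) + ∑ m, θ m * wC m (D.lam j)) :=
          sum_le_sum fun j hj => a4 _ (hlc j (mem_sdiff.1 hj).1 fun h =>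
            (mem_sdiff.1 hj).2 (hA0 ▸ mem_filter.2 ⟨(mem_sdiff.1 hj).1, h⟩))
        set c0 := q + y0 - ∑ m, θ m - CostJ y cF (fun k => lF k ≤ sa ∨ (lone k ∧ lF k ≤ lp)) τ
          with hc0
        have b3 : ∑ j ∈ A0, p * Real.exp (-(L * D.lam j)) ≤ ∑ j ∈ A0,
            (PhiJ y wF (fun k => lF k ≤ sa ∨ (lone k ∧ lF k ≤ lp)) τ (D.lam j) +
              ∑ m, θ m * wC m (D.lam j) + c0 / r) := sum_le_sum fun j hj => by
          have h1 := a5 _ (p2 j (hPr' j hj)).1 (p2 j (hPr' j hj)).2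
          refine le_of_mul_le_mul_left ?_ hr
          rw [mul_add (r : ℝ) _ (c0 / r), mul_div_cancel₀ _ hr.ne']
          linarith
        have b4 : ∑ i ∈ K, (if i ∈ Pr then y0 / r else 0) = y0 := by
          rw [← sum_filter, ← hA0, sum_const, q3, nsmul_eq_mul, mul_div_cancel₀ _ hr.ne']
        have b5 : ∑ k, y k * ∑ j ∈ (if lF k ≤ sa then K else if lone k ∧ lF k ≤ lp then A0 else ∅),
            wF k (τ k) (D.lam j) =
            ∑ j ∈ K \ A0, PhiJ y wF (fun k => lF k ≤ sa) τ (D.lam j) + ∑ j ∈ A0,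
              PhiJ y wF (fun k => lF k ≤ sa ∨ (lone k ∧ lF k ≤ lp)) τ (D.lam j) := by
          rw [row2_phi, row2_phi, ← sum_add_distrib]
          refine sum_congr rfl fun k _ => ?_
          by_cases h1 : lF k ≤ sa
          · rw [if_pos h1, if_pos h1, if_pos (Or.inl h1), ← mul_add, sum_sdiff hsub]
          · by_cases h2 : lone k ∧ lF k ≤ lp
            · rw [if_neg h1, if_neg h1, if_pos h2, if_pos (Or.inr h2), sum_empty, mul_zero, zero_add]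
            · rw [if_neg h1, if_neg h1, if_neg h2, if_neg (not_or.2 ⟨h1, h2⟩), sum_empty, mul_zero,
                add_zero]
        rw [sum_add_distrib] at b2
        rw [sum_add_distrib, sum_add_distrib, sum_const, q3, nsmul_eq_mul,
          mul_div_cancel₀ _ hr.ne'] at b3
        rw [mul_sum, ← sum_sdiff hsub (f := fun j => p * Real.exp (-(L * D.lam j)))] at a3
        rw [b4, b5]
        linarith
    · push Not at hp
      obtain ⟨i0, q1, q2⟩ := exists_min_image K D.lam ⟨i, hi ▸ ce2_self hD i⟩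
      have fin : ∀ (lo p q ν : ℝ) (θ : κC → ℝ) (τ : κF → ℝ), lo ≤ D.lam i0 → (∀ m, 0 ≤ θ m) →
          (∀ m, lo < lC m → θ m = 0) →
          (∑ j ∈ K, Real.exp (-(L * D.lam j))) ^ 2 ≤
            p * ∑ j ∈ K, Real.exp (-(L * D.lam j)) - q →
          ∑ m, θ m - ν + CostJ y cF (fun k => lF k ≤ lo) τ ≤ q →
          ∑ j ∈ K, p * Real.exp (-(L * D.lam j)) + ν ≤ ∑ j ∈ K,
            (PhiJ y wF (fun k => lF k ≤ lo) τ (D.lam j) + ∑ m, θ m * wC m (D.lam j)) →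
          ∃ (A : κF → Finset ι) (B : κF → Prop) (τ : κF → ℝ),
            (∀ k, A k ⊆ K ∧ (¬ B k → A k = ∅) ∧
              (D.Sat (lF k) (A k) ∨ (lone k ∧ D.Cl (lF k) (A k)))) ∧
            (∑ j ∈ K, Real.exp (-(L * D.lam j))) ^ 2 ≤
              (∑ k, y k * ∑ j ∈ A k, wF k (τ k) (D.lam j) - CostJ y cF B τ) +
                ∑ i ∈ K, if i ∈ Pr then y0 / r else 0 := by
        intro lo p q ν θ τ a0 a1 a2 a3 a4 a5
        refine ⟨fun k => if lF k ≤ lo then K else ∅, fun k => lF k ≤ lo, τ, fun k => ?_, ?_⟩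
        · beta_reduce
          split_ifs with h1
          · exact ⟨Subset.rfl, fun h => absurd h1 h,
              Or.inl (sat lo _ h1 fun j hj => a0.trans (q2 j hj))⟩
          · exact ⟨empty_subset _, fun _ => rfl, Or.inl fun j hj => absurd hj (notMem_empty j)⟩
        · have b1 := row2_cls hD hC a1 a2 (i := i) fun j hj => a0.trans (q2 j (hi ▸ hj))
          rw [hi] at b1
          rw [sum_add_distrib, row2_phi] at a5
          rw [mul_sum] at a3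
          rw [sum_eq_zero (f := fun i => if i ∈ Pr then y0 / r else 0)
            fun j hj => if_neg (hp j hj)]
          linarith
      have hl : l ≤ D.lam i0 := p6 i0 fun p h1 h2 => hp p (by
        rw [← hi, ← ce2_eq hD (hi ▸ q1 : i0 ∈ ce2cls D i), ce2_mem]
        exact ce2_symm hD h2) h1
      rcases ce2_type (hb0.trans hl) N with h | ⟨t, h1, h2, h3⟩
      · obtain ⟨p, q, θ, τ, a1, a2, a3, a4, a5⟩ := hN _ (sum_nonneg (s := K) fun j _ => hx j)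
        refine fin _ p q 0 θ τ h a1 a2 a3 (by linarith) ?_
        rw [add_zero]
        exact sum_le_sum fun j hj => a5 _ (h.trans (q2 j hj))
      · obtain ⟨p, q, ν, θ, τ, a0, a1, a2, a3, a4, a5⟩ := hT t h1
          (∑ j ∈ K, Real.exp (-(L * D.lam j))) (le_trans (Real.exp_le_exp.2
            (neg_le_neg (mul_le_mul_of_nonneg_left h3.le hL)))
            (single_le_sum (f := fun j => Real.exp (-(L * D.lam j))) (fun j _ => hx j) q1))
        refine fin _ p q ν θ τ h2 a1 a2 a3 a4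
          (le_trans ?_ (sum_le_sum fun j hj => a5 _ (h2.trans (q2 j hj))))
        rw [sum_add_distrib]
        refine add_le_add le_rfl (le_trans (le_of_eq (if_pos h3).symm) (single_le_sum
          (f := fun j => if D.lam j < b (t + 1) then ν else 0) (fun j _ => ?_) q1))
        split_ifs
        · exact a0
        · exact le_rfl
  choose! A B τ h1 h2 using key
  have h3 := row2_fam hD hy hc hF A B τ h1
  have h4 : ∑ K ∈ univ.image (ce2cls D), ∑ i ∈ K, (if i ∈ Pr then y0 / r else 0) ≤ n * y0 := by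
    rw [← ce2_sum hD fun _ i => if i ∈ Pr then y0 / r else 0, ← sum_filter, filter_mem_eq_inter,
      univ_inter, sum_const, nsmul_eq_mul]
    rcases Nat.eq_zero_or_pos r with h | h
    · rw [h, Nat.cast_zero, div_zero, mul_zero]
      positivity
    · have hr : (0 : ℝ) < r := Nat.cast_pos.2 h
      have h5 : (Pr.card : ℝ) ≤ n * r := by exact_mod_cast p1
      refine (mul_le_mul_of_nonneg_right h5 (div_nonneg hy0 hr.le)).trans (le_of_eq ?_)
      rw [mul_assoc, mul_div_cancel₀ _ hr.ne']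
  rw [ce2_tot hD, ce2_sum hD fun K i =>
    Real.exp (-(L * D.lam i)) * ∑ j ∈ K, Real.exp (-(L * D.lam j))]
  refine (sum_le_sum h2).trans ?_
  rw [sum_add_distrib]
  exact add_le_add h3 h4

end Pool.Agent.Lib.MP_778b46_nt.GX
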