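import Pool.Agent.Lib.MP_778b46_nt.GX.GmE
import Pool.Agent.Lib.MP_778b46_nt.GX.Row2

/- The Gram inequality with a gain inside the classes. -/

namespace Pool.Agent.Lib.MP_778b46_nt.GX

open Finset Filter Topology
open Pool.Agent.Lib.MP_e97e2b_nt.Ln (Lap Tst cut)

theorem gmf_cs {d d' e e' r : ℝ} (hd : 0 ≤ d) (hd' : 0 ≤ d') (hr : 0 ≤ r) (h : e ^ 2 + r ≤ d ^ 2)
    (h' : e' ^ 2 + r ≤ d' ^ 2) : e * e' + r ≤ d * d' := by
  refine le_trans (le_abs_self _) (abs_le_of_sq_le_sq' ?_ (mul_nonneg hd hd')).2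
  rw [sq_abs, mul_pow]
  calc (e * e' + r) ^ 2 ≤ (e ^ 2 + r) * (e' ^ 2 + r) := by
        nlinarith [mul_nonneg hr (sq_nonneg (e - e'))]
    _ ≤ d ^ 2 * d' ^ 2 := mul_le_mul h h' (by positivity) (sq_nonneg _)

/-- Take the scale `W = min 1 (G / ∑ α d)`. -/
theorem wtrickJ {ι : Type} (J : Finset ι) (α d e : ι → ℝ) {G C Q : ℝ} (hG : 0 < G) (hC : 0 ≤ C)
    (hα : ∀ j ∈ J, 0 ≤ α j) (hd : ∀ j ∈ J, 0 ≤ d j)
    (he : ∀ j ∈ J, e j ^ 2 + G * C ≤ d j ^ 2)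
    (h2 : ∀ W : ℝ, 0 < W → W ≤ 1 → 2 * W * ∑ j ∈ J, α j * d j ≤
      G + W ^ 2 * (C * (∑ j ∈ J, α j) ^ 2 + Q)) :
    2 * ∑ j ∈ J, α j * e j - Q ≤ G := by
  have hr : 0 ≤ G * C := mul_nonneg hG.le hC
  have k1 : (∑ j ∈ J, α j * e j) ^ 2 + G * C * (∑ j ∈ J, α j) ^ 2 ≤ (∑ j ∈ J, α j * d j) ^ 2 := by
    rw [sq, sq, sq, sum_mul_sum, sum_mul_sum, sum_mul_sum]
    simp only [mul_sum, ← sum_add_distrib]
    refine sum_le_sum fun i hi => sum_le_sum fun j hj => ?_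
    have := mul_le_mul_of_nonneg_left (gmf_cs (hd i hi) (hd j hj) hr (he i hi) (he j hj))
      (mul_nonneg (hα i hi) (hα j hj))
    linarith
  have k0 : 0 ≤ ∑ j ∈ J, α j * d j := sum_nonneg fun j hj => mul_nonneg (hα j hj) (hd j hj)
  set S := ∑ j ∈ J, α j * d j
  set E := ∑ j ∈ J, α j * e j
  set σ := (∑ j ∈ J, α j) ^ 2 with hσ
  have hσ0 : 0 ≤ σ := sq_nonneg _
  have k2 : E ≤ S := (abs_le_of_sq_le_sq' (by nlinarith [mul_nonneg hr hσ0]) k0).2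
  rcases le_total S G with h | h
  · have k3 := h2 1 one_pos le_rfl
    have k4 : G * (C * σ) ≤ G * (2 * (S - E)) := by
      nlinarith [mul_nonneg (sub_nonneg.2 k2) (show 0 ≤ 2 * G - S - E by linarith)]
    have k5 := le_of_mul_le_mul_left k4 hG
    linarith
  · have hS : 0 < S := hG.trans_le h
    have k3 := h2 (G / S) (div_pos hG hS) ((div_le_one hS).2 h)
    have e1 : 2 * (G / S) * S = 2 * G := by field_simp
    rw [e1, div_pow, div_mul_eq_mul_div] at k3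
    have k4 : G * S ^ 2 ≤ G ^ 2 * (C * σ + Q) :=
      (le_div_iff₀ (by positivity)).1 (by linarith)
    have k5 : S ^ 2 ≤ G * (C * σ + Q) := le_of_mul_le_mul_left (by linarith) hG
    have k6 : G * (2 * E - Q) ≤ G * G := by nlinarith [sq_nonneg (E - G)]
    exact le_of_mul_le_mul_left k6 hG

section

variable {Γ Ω ι : Type} [CommGroup Γ] [Fintype Ω] [Fintype ι] {D : Dat Γ Ω ι} {φ ε H : ℝ}
  {psF psC : List MP}

open Classical in
/-- The pairs inside the classes. -/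
theorem Clean.joint (h : Clean D φ ε H psF psC) {a : ι → ℝ} (ha : ∀ j, 0 ≤ a j) (S : Finset ι)
    (ha' : ∀ j, j ∉ S → a j = 0) (θ t : Finset ι → ℝ) (h0 : ∀ K, 0 ≤ θ K) (h1 : ∀ K, θ K ≤ 1) :
    ∑ i, ∑ j ∈ univ.filter (fun j => ¬D.sm (D.ch i / D.ch j)), a i * a j +
        ∑ j, ∑ k ∈ univ.filter (fun k => D.ch k = D.ch j), a j * a k * θ (ce2cls D j) +
        2 * ∑ j, a j * ((1 - θ (ce2cls D j)) * t (ce2cls D j)) ≤
      (∑ j, a j) ^ 2 + ∑ K ∈ S.image (ce2cls D), (1 - θ K) * t K ^ 2 := by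
  have e1 : (∑ j, a j) ^ 2 = ∑ i, ∑ j ∈ univ.filter (fun j => ¬D.sm (D.ch i / D.ch j)), a i * a j +
      ∑ i, a i * ∑ j ∈ ce2cls D i, a j := by
    rw [sq, sum_mul_sum, ← sum_add_distrib]
    refine sum_congr rfl fun i _ => ?_
    rw [mul_sum, ce2cls, add_comm, sum_filter_add_sum_filter_not]
  have e2 : ∑ j, ∑ k ∈ univ.filter (fun k => D.ch k = D.ch j), a j * a k * θ (ce2cls D j) ≤
      ∑ j, θ (ce2cls D j) * (a j * ∑ k ∈ ce2cls D j, a k) := by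
    refine sum_le_sum fun j _ => ?_
    rw [← sum_mul, mul_comm, ← mul_sum]
    refine mul_le_mul_of_nonneg_left (mul_le_mul_of_nonneg_left
      (sum_le_sum_of_subset_of_nonneg (fun k hk => ?_) fun k _ _ => ha k) (ha j)) (h0 _)
    rw [ce2_mem, (mem_filter.1 hk).2, div_self']
    exact h.sm_one
  have e3 := ce2_sum h fun K j => 2 * (a j * ((1 - θ K) * t K)) -
    (1 - θ K) * (a j * ∑ k ∈ K, a k)
  have e4 : ∑ K ∈ univ.image (ce2cls D), ∑ j ∈ K, (2 * (a j * ((1 - θ K) * t K)) -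
      (1 - θ K) * (a j * ∑ k ∈ K, a k)) ≤ ∑ K ∈ S.image (ce2cls D), (1 - θ K) * t K ^ 2 := by
    rw [← sum_subset (image_subset_image (subset_univ S)) fun K hK hK' => ?_]
    · refine sum_le_sum fun K _ => ?_
      rw [sum_sub_distrib, ← mul_sum, ← mul_sum, ← sum_mul, ← sum_mul]
      nlinarith [mul_nonneg (sub_nonneg.2 (h1 K)) (sq_nonneg (∑ k ∈ K, a k - t K))]
    · obtain ⟨i, -, rfl⟩ := mem_image.1 hK
      refine sum_eq_zero fun j hj => ?_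
      rw [ha' j fun q => hK' (mem_image.2 ⟨j, q, ce2_eq h hj⟩)]
      ring
  have e5 : ∑ i, a i * ∑ j ∈ ce2cls D i, a j =
      ∑ j, θ (ce2cls D j) * (a j * ∑ k ∈ ce2cls D j, a k) +
        ∑ j, (1 - θ (ce2cls D j)) * (a j * ∑ k ∈ ce2cls D j, a k) := by
    rw [← sum_add_distrib]
    exact sum_congr rfl fun j _ => by ring
  rw [sum_sub_distrib, ← mul_sum] at e3
  linarith

end

/-- Conditions on a weight which depends on a parameter for each class. -/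
def WtJ (f : ℝ → ℝ) (T e0 l G C c0 lo : ℝ) (K : ℝ → ℝ) (w : ℝ → ℝ → ℝ) (c : ℝ → ℝ) : Prop :=
  ∀ τ : ℝ, ∃ θ t A : ℝ, 0 ≤ θ ∧ θ ≤ 1 ∧ K 0 - θ * c0 ≤ A ∧ (1 - θ) * c0 * t ^ 2 ≤ c τ * G ∧
    ∀ x : ℝ, lo ≤ x → w τ x ≤ 0 ∨ ∃ α d e : ℝ, 0 ≤ α ∧ 0 ≤ d ∧ d ≤ RL f T x 0 - e0 ∧
      e ^ 2 + G * C ≤ d ^ 2 ∧ (l ≤ x → ∀ y, α * (K y - θ * c0) ≤ 2 * RL f T x y) ∧
      w τ x * G ≤ 2 * α * (e + (1 - θ) * c0 * t) - A * α ^ 2

open Classical in
/-- The family inequality with the gain inside the classes.  The kernel may be replaced by `K` if the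
difference is positive definite. -/
theorem evJ (psF psC : List MP) {φ G0 G C d0 T T2 l b lo : ℝ} {f k κ K : ℝ → ℝ}
    {w : ℝ → ℝ → ℝ} {c : ℝ → ℝ} (hf : Adm f T l) (hk : Adm k T2 b) (hl : l ≤ 10) (hb : b ≤ 10)
    (hc : ∀ H : ℝ, 10 ≤ H → Cost φ H (cut f T) (cut k T2) G0 κ) (hd : 0 < d0) (hG : G0 + d0 ≤ G)
    (hG0 : 0 < G) (hφ : 0 ≤ φ) (hC : φ / 2 * k 0 + d0 ≤ C)
    (hK : ∀ (Γ Ω ι : Type) [CommGroup Γ] [Fintype Ω] [Fintype ι] (D : Dat Γ Ω ι) (a : ι → ℝ),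
      (D.Fm a fun y => RL k T2 0 y + κ y) ≤ D.Fm a K)
    (hw : WtJ f T (φ / 2 * f 0 + d0) l G C (φ / 2 * k 0) lo K w c) (hlo : b ≤ lo) :
    Ev φ psF psC fun _ _ _ _ _ _ D => (∀ i, lo ≤ D.lam i) → ∀ lone, D.FamJ l lone w c := by
  refine Ev.of_eventually fun H hH => ?_
  filter_upwards [raw hf hk (hl.trans hH) (hb.trans hH) (hc H hH) hd] with ε h1
  intro Γ Ω ι _ _ _ D hD hlo' lone S τ hS0
  have hS : D.Cl l S := hS0.elim Dat.Sat.cl And.right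
  set c0 := φ / 2 * k 0 with hc0
  have c00 : 0 ≤ c0 := mul_nonneg (by linarith) hk.zero
  choose θ t A q1 q2 q3 q4 q5 using hw
  set τ' : ι → ℝ := fun j => τ (ce2cls D j) with hτ'
  set J := S.filter fun j => 0 < w (τ' j) (D.lam j) with hJ
  have hJS : ∀ j ∈ J, j ∈ S := fun j hj => (mem_filter.1 hj).1
  have h2 : ∀ j, ∃ α d e : ℝ, j ∈ J → 0 ≤ α ∧ 0 ≤ d ∧
      d ≤ RL f T (D.lam j) 0 - (φ / 2 * f 0 + d0) ∧ e ^ 2 + G * C ≤ d ^ 2 ∧
      (l ≤ D.lam j → ∀ y, α * (K y - θ (τ' j) * c0) ≤ 2 * RL f T (D.lam j) y) ∧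
      w (τ' j) (D.lam j) * G ≤
        2 * α * (e + (1 - θ (τ' j)) * c0 * t (τ' j)) - A (τ' j) * α ^ 2 := fun j => by
    by_cases hj : j ∈ J
    · rcases q5 (τ' j) (D.lam j) (hlo' j) with h | ⟨α, d, e, h⟩
      · exact absurd (mem_filter.1 hj).2 (not_lt.2 h)
      · exact ⟨α, d, e, fun _ => h⟩
    · exact ⟨0, 0, 0, fun h => absurd h hj⟩
  choose α d e h2 using h2
  have h3 := wtrickJ J α d e (C := C) (Q := ∑ j ∈ J, A (τ' j) * α j ^ 2 -
      2 * ∑ j ∈ J, α j * ((1 - θ (τ' j)) * c0 * t (τ' j)) +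
      ∑ K ∈ S.image (ce2cls D), (1 - θ (τ K)) * c0 * t (τ K) ^ 2) hG0 (by linarith)
    (fun j hj => (h2 j hj).1) (fun j hj => (h2 j hj).2.1) (fun j hj => (h2 j hj).2.2.2.1)
    fun W hW0 hW1 => by
    set a : ι → ℝ := fun j => if j ∈ J then W * α j else 0 with ha
    have ha0 : ∀ j, 0 ≤ a j := fun j => by
      simp only [ha]
      split_ifs with hj
      exacts [mul_nonneg hW0.le (h2 j hj).1, le_rfl]
    have ha1 : ∀ j, j ∉ J → a j = 0 := fun j hj => if_neg hj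
    have ha2 : ∀ j ∈ J, a j = W * α j := fun j hj => if_pos hj
    have k1 := h1 Γ Ω ι D psF psC hD J
      (fun j hj i hi e => hS j (hJS j hj) i e fun e' => hi (e' ▸ hj))
      (Or.inr fun i => hlo.trans (hlo' i)) a ha0 ha1
    have k2 := offdiag D J a (fun j => A (τ' j)) (RL f T) (fun j y => K y - θ (τ' j) * c0) ha0 ha1
      (fun j _ => q3 _) fun j hj i hi hne e => by
        have p0 : l ≤ D.lam j := hS i (hJS i hi) j e.symm hne
        have p1 := (h2 j hj).2.2.2.2.1 p0 (D.mu j - D.mu i)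
        have p2 := hf.pos _ (D.mu j - D.mu i) p0
        rw [ha2 j hj, mul_assoc]
        nlinarith
    have k3 := mul_le_mul_of_nonneg_left (hD.joint ha0 S (fun j hj => ha1 j fun q => hj (hJS j q))
      (fun K => θ (τ K)) (fun K => W * t (τ K)) (fun _ => q1 _) fun _ => q2 _) c00
    have k4 : D.Fm a K = ∑ j, ∑ k ∈ univ.filter (fun k => D.ch k = D.ch j),
        a j * a k * (K (D.mu j - D.mu k) - θ (τ' j) * c0) +
        c0 * ∑ j, ∑ k ∈ univ.filter (fun k => D.ch k = D.ch j), a j * a k * θ (τ' j) := by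
      simp only [Dat.Fm, mul_sum, ← sum_add_distrib]
      exact sum_congr rfl fun _ _ => sum_congr rfl fun _ _ => by ring
    have e0 : ∀ g g' : ι → ℝ, (∀ j, j ∉ J → g j = 0) → (∀ j ∈ J, g j = g' j) →
        ∑ j, g j = ∑ j ∈ J, g' j := fun g g' hg hg' => by
      rw [← sum_subset (subset_univ J) fun j _ hj => hg j hj]
      exact sum_congr rfl hg'
    have e1 : ∑ j, a j = W * ∑ j ∈ J, α j := by rw [e0 a _ ha1 ha2, mul_sum]
    have e2 : ∑ j, A (τ' j) * a j ^ 2 = W ^ 2 * ∑ j ∈ J, A (τ' j) * α j ^ 2 := by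
      rw [mul_sum]
      exact e0 _ _ (fun j hj => by simp [ha1 j hj]) fun j hj => by rw [ha2 j hj]; ring
    have e3 : W * ∑ j ∈ J, α j * d j ≤
        ∑ j, a j * RL f T (D.lam j) 0 - (φ / 2 * f 0 + d0) * ∑ j, a j := by
      rw [mul_sum, mul_sum, ← sum_sub_distrib, e0 (fun j => a j * RL f T (D.lam j) 0 -
        (φ / 2 * f 0 + d0) * a j) _ (fun j hj => by simp [ha1 j hj]) fun _ _ => rfl]
      refine sum_le_sum fun j hj => ?_
      have := mul_le_mul_of_nonneg_left (h2 j hj).2.2.1 (ha0 j)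
      rw [← mul_assoc, ← ha2 j hj]
      linarith
    have e4 : ∑ j, a j * (∑ i ∈ J.filter (fun i => D.ch i = D.ch j),
        RL f T (D.lam i) (D.mu i - D.mu j) - φ / 2 * f 0 - d0) =
        ∑ j, a j * ∑ i ∈ J.filter (fun i => D.ch i = D.ch j), RL f T (D.lam i) (D.mu i - D.mu j) -
          (φ / 2 * f 0 + d0) * ∑ j, a j := by
      rw [mul_sum, ← sum_sub_distrib]
      exact sum_congr rfl fun j _ => by ring
    have e5 : c0 * ∑ j, a j * ((1 - θ (τ (ce2cls D j))) * (W * t (τ (ce2cls D j)))) =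
        W ^ 2 * ∑ j ∈ J, α j * ((1 - θ (τ' j)) * c0 * t (τ' j)) := by
      rw [mul_sum, mul_sum]
      exact e0 _ _ (fun j hj => by simp [ha1 j hj]) fun j hj => by rw [ha2 j hj]; ring
    have e6 : c0 * ∑ K ∈ S.image (ce2cls D), (1 - θ (τ K)) * (W * t (τ K)) ^ 2 =
        W ^ 2 * ∑ K ∈ S.image (ce2cls D), (1 - θ (τ K)) * c0 * t (τ K) ^ 2 := by
      rw [mul_sum, mul_sum]
      exact sum_congr rfl fun _ _ => by ring
    have k5 := mul_le_mul_of_nonneg_right hC (sq_nonneg (∑ j, a j))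
    have k6 := hK Γ Ω ι D a
    rw [e4] at k1
    rw [e2] at k2
    rw [mul_add, mul_add, mul_add, mul_left_comm c0 2, e5, e6] at k3
    have e7 : W ^ 2 * (C * (∑ j ∈ J, α j) ^ 2) = C * (∑ j, a j) ^ 2 := by rw [e1]; ring
    rw [mul_add, mul_add, mul_sub, e7]
    linarith
  have h4 : ∑ j ∈ S, w (τ' j) (D.lam j) ≤ ∑ j ∈ J, w (τ' j) (D.lam j) := by
    rw [hJ, sum_filter]
    exact sum_le_sum fun j _ => by split_ifs with h <;> linarith
  have h5 : (∑ j ∈ J, w (τ' j) (D.lam j)) * G ≤ 2 * ∑ j ∈ J, α j * e j +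
      2 * ∑ j ∈ J, α j * ((1 - θ (τ' j)) * c0 * t (τ' j)) - ∑ j ∈ J, A (τ' j) * α j ^ 2 := by
    rw [sum_mul, mul_sum, mul_sum, ← sum_add_distrib, ← sum_sub_distrib]
    exact sum_le_sum fun j hj => by linarith [(h2 j hj).2.2.2.2.2]
  have h6 : ∑ K ∈ S.image (ce2cls D), (1 - θ (τ K)) * c0 * t (τ K) ^ 2 ≤
      (∑ K ∈ S.image (ce2cls D), c (τ K)) * G := by
    rw [sum_mul]
    exact sum_le_sum fun K _ => q4 _
  exact h4.trans (le_of_mul_le_mul_right (by linarith) hG0)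

end Pool.Agent.Lib.MP_778b46_nt.GX
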