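import Pool.Agent.Lib.MP_778b46_nt.GX.GmF

/- The class inequality with zeros on both sides of the line, and mixtures of family weights. -/

namespace Pool.Agent.Lib.MP_778b46_nt.GX

open Finset Filter Topology
open Pool.Agent.Lib.MP_e97e2b_nt.Ln (Lap Tst cut)

/-- Take the scale `W = 1` or `W = η / (δ σ)`. -/
theorem wtrickD {G δ η σ Y X : ℝ} (hG : 0 < G) (hδ : 0 < δ) (hη : 0 < η) (h1 : δ * G ≤ η ^ 2)
    (hσ : 0 ≤ σ) (hY : 0 ≤ Y)
    (h2 : ∀ W : ℝ, 0 < W → W ≤ 1 → 2 * W * (X + η * σ) ≤ G + W ^ 2 * (δ * σ ^ 2 + Y)) :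
    2 * X - Y ≤ G := by
  rcases le_total (δ * σ) η with h | h
  · have := h2 1 one_pos le_rfl
    nlinarith [mul_le_mul_of_nonneg_right h hσ, mul_nonneg hη.le hσ]
  · by_contra hlt
    have p : 0 < δ * σ := hη.trans_le h
    have hW0 : 0 < η / (δ * σ) := div_pos hη p
    have hW1 : η / (δ * σ) ≤ 1 := (div_le_one p).2 h
    have k := h2 _ hW0 hW1
    have e : η / (δ * σ) * (δ * σ) = η := div_mul_cancel₀ _ p.ne'
    set W := η / (δ * σ)
    have k1 : W * Y < W * (2 * X) := mul_lt_mul_of_pos_left (by linarith) hW0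
    have k2 : W ^ 2 * Y ≤ W * Y := mul_le_mul_of_nonneg_right (by nlinarith) hY
    have k3 : 2 * W * η * σ < G + W ^ 2 * δ * σ ^ 2 := by linarith
    have k4 := mul_lt_mul_of_pos_left k3 hδ
    have e1 : δ * (2 * W * η * σ) = 2 * η ^ 2 := by linear_combination 2 * η * e
    have e2 : δ * (G + W ^ 2 * δ * σ ^ 2) = δ * G + η ^ 2 := by
      linear_combination (W * (δ * σ) + η) * e
    linarith

section

variable {Γ Ω ι : Type} [CommGroup Γ] [Fintype Ω] [Fintype ι] {D : Dat Γ Ω ι} {φ ε H : ℝ}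
  {psF psC : List MP}

open Classical in
/-- The zeros of one character seen from the height of one of them. -/
theorem Clean.near (h : Clean D φ ε H psF psC) {g : ℝ → ℝ} {T l B : ℝ} (hg : Adm g T l)
    (hB : Tst T B g) (hl : l ≤ H) {S : Finset ι} (hS : D.Sat l S) {i : ι} (hi : i ∈ S) :
    ∑ k ∈ S.filter (fun k => D.ch k = D.ch i), RL g T (D.lam k) (D.mu k - D.mu i) ≤
      φ / 2 * g 0 + RL g T 0 0 + 2 * (ε * B) := by
  have h1 := h.lin_le hg hB hl S i fun k hk e => absurd ((hS i hi).2 k e) hk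
  have h2 := h.ef_adm hg hB hl 1 (y := 0)
    (by linarith [h.mu_one i, abs_nonneg (D.mu i), abs_zero (α := ℝ)])
  rw [if_pos rfl, if_pos h.sm_one, filter_false_of_mem fun k _ => h.ne_one k, sum_empty] at h2
  have h3 : -D.E (cut g T) (D.mu i) (D.ch i) ≤ D.E (cut g T) 0 1 := by
    rw [Dat.E, Dat.E, ← sum_neg_distrib]
    refine sum_le_sum fun ω _ => ?_
    have k1 := mul_nonneg (h.μ_nonneg ω) (hg.cut_nonneg (h.t_pos ω).le)
    have k2 := (Complex.abs_re_le_norm (Complex.exp (-((D.mu i * D.t ω : ℝ) : ℂ) * Complex.I) *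
      D.ev ω (D.ch i)))
    rw [norm_mul, h.norm_ev, ← Complex.ofReal_neg, Complex.norm_exp_ofReal_mul_I, mul_one] at k2
    have k3 := mul_le_mul_of_nonneg_left (neg_le_of_abs_le k2) k1
    simp only [zero_mul, Complex.ofReal_zero, neg_zero, Complex.exp_zero, map_one, mul_one,
      Complex.one_re]
    rw [← Complex.ofReal_neg]
    linarith
  linarith

end

/-- Conditions on a weight in a class; `R`, `K`, `R0` are the transforms. -/
def WtD (R R0 : ℝ → ℝ → ℝ) (K : ℝ → ℝ) (e0 B0 a0 G A : ℝ) (w : ℝ → ℝ) : Prop :=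
  ∃ α : ℝ → ℝ, ∀ x : ℝ, a0 ≤ x → 0 ≤ α x ∧ ∃ e κ B : ℝ, 0 ≤ κ ∧ (α x = 0 ∨ e ≤ R x 0 - e0) ∧
    (∀ x' y : ℝ, a0 ≤ x' → α x' * -R x y ≤ κ * R0 x' y ∧
      α x' * (α x * K y / 2 - R x y) ≤ κ * R0 x' y) ∧
    B0 - R0 x 0 ≤ B ∧ w x * G ≤ 2 * α x * e - A * α x ^ 2 - 2 * κ * B

open Classical in
/-- The class inequality.  The zeros left of the line of `f` are paid with the explicit formula
for `g`. -/
theorem evD (psF psC : List MP) {φ G0 G A d0 T T2 T0 l b a0 : ℝ} {f k g κ w : ℝ → ℝ}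
    (hf : Adm f T l) (hk : Adm k T2 b) (hg : Adm g T0 a0) (hl : l ≤ 10) (hb : b ≤ 10)
    (ha0' : a0 ≤ 10) (hc : ∀ H : ℝ, 10 ≤ H → Cost φ H (cut f T) (cut k T2) G0 κ) (hd : 0 < d0)
    (hG : G0 + d0 ≤ G) (hG0 : 0 < G) (hA0 : 0 ≤ A) (hA : RL k T2 0 0 + κ 0 ≤ A)
    (hw : WtD (RL f T) (RL g T0) (fun y => RL k T2 0 y + κ y) (φ / 2 * f 0 + d0)
      (φ / 2 * g 0 + RL g T0 0 0 + d0) a0 G A w) :
    Ev φ psF psC fun _ _ _ _ _ _ D => D.ClsS a0 w := by
  refine Ev.of_eventually fun H hH => ?_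
  obtain ⟨Bg, hBg⟩ := hg.tst
  set δ := min (d0 / 2) ((d0 / 2) ^ 2 / G) with hδ
  have δ0 : 0 < δ := lt_min (by linarith) (by positivity)
  have δ1 : δ ≤ d0 / 2 := min_le_left _ _
  have δ2 : δ * G ≤ (d0 / 2) ^ 2 := (le_div_iff₀ hG0).1 (min_le_right _ _)
  have ev : ∀ᶠ ε in 𝓝[>] (0 : ℝ), ε * Bg ≤ δ := by
    have : Tendsto (fun ε : ℝ => ε * Bg) (𝓝[>] 0) (𝓝 (0 * Bg)) :=
      (tendsto_id.mul_const Bg).mono_left nhdsWithin_le_nhds
    rw [zero_mul] at this
    exact this.eventually_le_const δ0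
  filter_upwards [raw hf hk (hl.trans hH) (hb.trans hH) (hc H hH) δ0, ev] with ε h1 ev
  intro Γ Ω ι _ _ _ D hD S hS hm
  obtain ⟨α, hw⟩ := hw
  have h2 := fun j : S => hw (D.lam j) (hS j j.2).1
  choose p0 e' κ' B' h2 using h2
  set e : ι → ℝ := fun j => if h : j ∈ S then e' ⟨j, h⟩ else 0 with he
  set c : ι → ℝ := fun j => if h : j ∈ S then κ' ⟨j, h⟩ else 0 with hc'
  set B : ι → ℝ := fun j => if h : j ∈ S then B' ⟨j, h⟩ else 0 with hB
  have h3 : ∀ j ∈ S, 0 ≤ α (D.lam j) ∧ 0 ≤ c j ∧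
      (α (D.lam j) = 0 ∨ e j ≤ RL f T (D.lam j) 0 - (φ / 2 * f 0 + d0)) ∧
      (∀ x' y : ℝ, a0 ≤ x' → α x' * -RL f T (D.lam j) y ≤ c j * RL g T0 x' y ∧
        α x' * (α (D.lam j) * (RL k T2 0 y + κ y) / 2 - RL f T (D.lam j) y) ≤
          c j * RL g T0 x' y) ∧
      φ / 2 * g 0 + RL g T0 0 0 + d0 - RL g T0 (D.lam j) 0 ≤ B j ∧
      w (D.lam j) * G ≤ 2 * α (D.lam j) * e j - A * α (D.lam j) ^ 2 - 2 * c j * B j :=
    fun j hj => by
      simp only [he, hc', hB, dif_pos hj]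
      exact ⟨p0 ⟨j, hj⟩, h2 ⟨j, hj⟩⟩
  clear_value e c B
  have h4 := wtrickD (X := ∑ j ∈ S, (α (D.lam j) * e j - c j * B j))
    (σ := ∑ j ∈ S, α (D.lam j)) (Y := ∑ j ∈ S, A * α (D.lam j) ^ 2) hG0 δ0
    (show 0 < d0 / 2 by linarith) δ2 (sum_nonneg fun j hj => (h3 j hj).1)
    (sum_nonneg fun j _ => mul_nonneg hA0 (sq_nonneg _)) fun W hW0 hW1 => by
    set a : ι → ℝ := fun j => if j ∈ S then W * α (D.lam j) else 0 with ha
    have ha0 : ∀ j, 0 ≤ a j := fun j => by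
      simp only [ha]
      split_ifs with hj
      exacts [mul_nonneg hW0.le (h3 j hj).1, le_rfl]
    have ha1 : ∀ j, j ∉ S → a j = 0 := fun j hj => if_neg hj
    have ha2 : ∀ j ∈ S, a j = W * α (D.lam j) := fun j hj => if_pos hj
    have k1 := h1 Γ Ω ι D psF psC hD S (fun j hj i hi e => absurd ((hS j hj).2 i e) hi)
      (Or.inl hm) a ha0 ha1
    have k2 : ∑ i, ∑ j ∈ univ.filter (fun j => ¬D.sm (D.ch i / D.ch j)), a i * a j = 0 := by
      refine sum_eq_zero fun i _ => sum_eq_zero fun j hj => ?_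
      by_contra hne
      have q1 : i ∈ S := by_contra fun q => hne (by rw [ha1 i q, zero_mul])
      have q2 : j ∈ S := by_contra fun q => hne (by rw [ha1 j q, mul_zero])
      exact (mem_filter.1 hj).2 (hm i q1 j q2)
    have e0 : ∀ u u' : ι → ℝ, (∀ j, j ∉ S → u j = 0) → (∀ j ∈ S, u j = u' j) →
        ∑ j, u j = ∑ j ∈ S, u' j := fun u u' hu hu' => by
      rw [← sum_subset (subset_univ S) fun j _ hj => hu j hj]
      exact sum_congr rfl hu'
    have e1 : ∑ j, a j = W * ∑ j ∈ S, α (D.lam j) := by rw [e0 a _ ha1 ha2, mul_sum]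
    have e2 : ∑ j, a j * (∑ i ∈ S.filter (fun i => D.ch i = D.ch j),
        RL f T (D.lam i) (D.mu i - D.mu j) - φ / 2 * f 0 - δ) =
        ∑ i ∈ S, (∑ j ∈ S.filter (fun j => D.ch j = D.ch i),
          a j * RL f T (D.lam i) (D.mu i - D.mu j) - (φ / 2 * f 0 + δ) * a i) := by
      rw [e0 _ _ (fun j hj => by rw [ha1 j hj, zero_mul]) fun _ _ => rfl, sum_sub_distrib]
      simp only [sum_filter]
      rw [sum_comm, ← sum_sub_distrib]
      refine sum_congr rfl fun j _ => ?_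
      rw [sub_sub, mul_sub, mul_sum, mul_comm (a j) (_ + _)]
      congr 1
      exact sum_congr rfl fun i _ => by simp only [eq_comm (a := D.ch i), mul_ite, mul_zero]
    have e3 : (D.Fm a fun y => RL k T2 0 y + κ y) = ∑ i ∈ S, ∑ j ∈ S.filter
        (fun j => D.ch j = D.ch i), a i * a j * (RL k T2 0 (D.mu i - D.mu j) + κ (D.mu i - D.mu j)) := by
      refine e0 _ _ (fun j hj => by simp [ha1 j hj]) fun i _ => ?_
      exact (sum_subset (filter_subset_filter _ (subset_univ S)) fun j hj hj' => by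
        rw [ha1 j fun q => hj' (mem_filter.2 ⟨q, (mem_filter.1 hj).2⟩), mul_zero, zero_mul]).symm
    have k3 : ∀ i ∈ S, ∑ j ∈ S.filter (fun j => D.ch j = D.ch i),
        a i * a j * (RL k T2 0 (D.mu i - D.mu j) + κ (D.mu i - D.mu j)) +
        2 * W * (α (D.lam i) * e i - c i * B i + d0 / 2 * α (D.lam i)) ≤
        W ^ 2 * (A * α (D.lam i) ^ 2) + 2 * (∑ j ∈ S.filter (fun j => D.ch j = D.ch i),
          a j * RL f T (D.lam i) (D.mu i - D.mu j) - (φ / 2 * f 0 + δ) * a i) := fun i hi => by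
      obtain ⟨r1, r2, r3, r4, r5, -⟩ := h3 i hi
      have hi' : i ∈ S.filter (fun j => D.ch j = D.ch i) := mem_filter.2 ⟨hi, rfl⟩
      have n1 := hD.near hg hBg (ha0'.trans hH) hS hi
      rw [← add_sum_erase _ _ hi', sub_self] at n1
      rw [← add_sum_erase _ _ hi', ← add_sum_erase _ _ hi', sub_self]
      have n2 : ∑ j ∈ (S.filter fun j => D.ch j = D.ch i).erase i,
          a i * a j * (RL k T2 0 (D.mu i - D.mu j) + κ (D.mu i - D.mu j)) ≤
          2 * ∑ j ∈ (S.filter fun j => D.ch j = D.ch i).erase i,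
            a j * RL f T (D.lam i) (D.mu i - D.mu j) + 2 * (W * c i) *
          ∑ j ∈ (S.filter fun j => D.ch j = D.ch i).erase i,
            RL g T0 (D.lam j) (D.mu j - D.mu i) := by
        rw [mul_sum, mul_sum, ← sum_add_distrib]
        refine sum_le_sum fun j hj => ?_
        have hj' : j ∈ S := (mem_filter.1 (mem_of_mem_erase hj)).1
        obtain ⟨s1, s2⟩ := r4 (D.lam j) (D.mu i - D.mu j) (hS j hj').1
        rw [← neg_sub (D.mu i) (D.mu j), RL_neg hg.cont, ha2 i hi, ha2 j hj']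
        have s3 := mul_le_mul_of_nonneg_left s1 (mul_nonneg hW0.le (sub_nonneg.2 hW1))
        have s4 := mul_le_mul_of_nonneg_left s2 (mul_nonneg hW0.le hW0.le)
        linarith
      have n3 := mul_le_mul_of_nonneg_left (show ∑ j ∈ (S.filter fun j => D.ch j = D.ch i).erase i,
        RL g T0 (D.lam j) (D.mu j - D.mu i) ≤ B i by linarith) (mul_nonneg hW0.le r2)
      have n4 := mul_le_mul_of_nonneg_left hA (mul_nonneg (ha0 i) (ha0 i))
      have n5 : a i * (e i + d0 / 2) ≤ a i * (RL f T (D.lam i) 0 - (φ / 2 * f 0 + δ)) := by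
        rcases r3 with r3 | r3
        · rw [ha2 i hi, r3, mul_zero, zero_mul, zero_mul]
        · exact mul_le_mul_of_nonneg_left (by linarith) (ha0 i)
      rw [ha2 i hi] at n4 n5 n2 ⊢
      linarith
    have k4 := sum_le_sum k3
    rw [sum_add_distrib, sum_add_distrib, ← e3, ← mul_sum _ _ (2 * W), ← mul_sum _ _ (W ^ 2),
      ← mul_sum _ _ (2 : ℝ), ← e2, sum_add_distrib, ← mul_sum _ _ (d0 / 2)] at k4
    rw [k2, e1] at k1
    linarith
  have h5 : (∑ j ∈ S, w (D.lam j)) * G ≤ 2 * ∑ j ∈ S, (α (D.lam j) * e j - c j * B j) -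
      ∑ j ∈ S, A * α (D.lam j) ^ 2 := by
    rw [sum_mul, mul_sum, ← sum_sub_distrib]
    exact sum_le_sum fun j hj => by linarith [(h3 j hj).2.2.2.2.2]
  exact le_of_mul_le_mul_right (by linarith) hG0

section

variable {Γ Ω ι : Type} [CommGroup Γ] [Fintype ι] {D : Dat Γ Ω ι}

open Classical in
/-- A class may use a mixture of parameters: `m τ` lists pairs of a mass and a parameter. -/
theorem Dat.FamJ.mix {l : ℝ} {lone : Prop} {w : ℝ → ℝ → ℝ}
    {c : ℝ → ℝ} (h : D.FamJ l lone w c) (m : ℝ → List (ℝ × ℝ))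
    (h0 : ∀ τ, ∀ p ∈ m τ, 0 ≤ p.1) (h1 : ∀ τ, ((m τ).map fun p => p.1).sum ≤ 1) :
    D.FamJ l lone (fun τ x => ((m τ).map fun p => p.1 * w p.2 x).sum)
      fun τ => ((m τ).map fun p => p.1 * c p.2).sum := by
  intro S τ hS
  have k1 : ∀ (K : Finset ι) (q : List (ℝ × ℝ)), (∀ p ∈ q, 0 ≤ p.1) → ∃ t : ℝ,
      ∑ j ∈ S.filter (fun j => ce2cls D j = K), (q.map fun p => p.1 * w p.2 (D.lam j)).sum -
        (q.map fun p => p.1 * c p.2).sum ≤ (q.map fun p => p.1).sum *
        max 0 (∑ j ∈ S.filter (fun j => ce2cls D j = K), w t (D.lam j) - c t) := by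
    intro K q hq
    induction q with
    | nil => exact ⟨0, by simp⟩
    | cons p q ih =>
      obtain ⟨t, ht⟩ := ih fun r hr => hq r (List.mem_cons_of_mem _ hr)
      have p0 := hq p List.mem_cons_self
      have q0 : 0 ≤ (q.map fun p => p.1).sum := List.sum_nonneg fun x hx => by
        obtain ⟨r, hr, rfl⟩ := List.mem_map.1 hx
        exact hq r (List.mem_cons_of_mem _ hr)
      simp only [List.map_cons, List.sum_cons, sum_add_distrib, ← mul_sum]
      rcases le_total (∑ j ∈ S.filter (fun j => ce2cls D j = K), w t (D.lam j) - c t)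
        (∑ j ∈ S.filter (fun j => ce2cls D j = K), w p.2 (D.lam j) - c p.2) with r | r
      · refine ⟨p.2, ?_⟩
        have r1 := mul_le_mul_of_nonneg_left (max_le_max_left 0 r) q0
        have r2 := mul_le_mul_of_nonneg_left (le_max_right 0
          (∑ j ∈ S.filter (fun j => ce2cls D j = K), w p.2 (D.lam j) - c p.2)) p0
        linarith
      · refine ⟨t, ?_⟩
        have r2 := mul_le_mul_of_nonneg_left (r.trans (le_max_right 0 _)) p0
        linarith
  choose t ht using fun K => k1 K (m (τ K)) (h0 _)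
  set v : Finset ι → ℝ := fun K =>
    ∑ j ∈ S.filter (fun j => ce2cls D j = K), w (t K) (D.lam j) - c (t K) with hv
  set S' := S.filter fun j => 0 < v (ce2cls D j) with hS'
  have k2 := h S' t (hS.imp (fun q j hj => ⟨(q j (mem_filter.1 hj).1).1, fun k hk =>
      mem_filter.2 ⟨(q j (mem_filter.1 hj).1).2 k hk, by
        rw [show ce2cls D k = ce2cls D j by unfold ce2cls; rw [hk]]
        exact (mem_filter.1 hj).2⟩⟩)
    fun q => ⟨q.1, fun j hj => q.2 j (mem_filter.1 hj).1⟩)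
  have e1 : S'.image (ce2cls D) = (S.image (ce2cls D)).filter fun K => 0 < v K := by
    rw [hS', filter_image]
  have e2 : ∀ (U : Finset ι) (u : Finset ι → ι → ℝ), ∑ j ∈ U, u (ce2cls D j) j =
      ∑ K ∈ U.image (ce2cls D), ∑ j ∈ U.filter (fun j => ce2cls D j = K), u K j := fun U u => by
    rw [← sum_fiberwise_of_maps_to (s := U) (t := U.image (ce2cls D)) (g := ce2cls D)
      fun i hi => mem_image_of_mem _ hi]
    exact sum_congr rfl fun K _ => sum_congr rfl fun j hj => by rw [(mem_filter.1 hj).2]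
  rw [e2 S' fun K j => w (t K) (D.lam j), ← sub_le_iff_le_add, ← sum_sub_distrib, e1] at k2
  rw [e2 S fun K j => ((m (τ K)).map fun p => p.1 * w p.2 (D.lam j)).sum, ← sub_le_iff_le_add,
    ← sum_sub_distrib]
  refine le_trans (sum_le_sum fun K _ => (ht K).trans
    (mul_le_of_le_one_left (le_max_left _ _) (h1 _))) (le_trans (le_of_eq ?_) k2)
  rw [sum_filter]
  refine sum_congr rfl fun K _ => ?_
  split_ifs with q
  · rw [max_eq_right q.le, hS', filter_filter, filter_congr (q := fun j => ce2cls D j = K)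
      fun j _ => ⟨And.right, fun r => ⟨r ▸ q, r⟩⟩]
  · exact max_eq_left (not_lt.1 q)

end

end Pool.Agent.Lib.MP_778b46_nt.GX
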