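import Pool.Agent.Lib.MP_e97e2b_nt.Ln.J3
import Pool.Agent.Lib.MP_e97e2b_nt.Ln.A2b

/- Partial fractions of the logarithmic derivative with a holomorphic remainder, and the size of
`L`-functions near the line of real part one at any height. -/

namespace Pool.Agent.Lib.MP_778b46_nt.GX

open Complex Finset Pool.Agent.Lib.MP_e97e2b_nt.Ln

theorem jenH (f : ℂ → ℂ) (hf : Differentiable ℂ f) (c R δ b P : ℝ) (hR : 0 < R) (hδ : 0 < δ)
    (hδR : δ ≤ R / 2) (hb : 1 ≤ b) (hP : 0 ≤ P)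
    (hup : ∀ s : ℂ, ‖s - c‖ ≤ 3 * R → ‖f s‖ ≤ Real.exp (b + P * max (c - s.re) 0))
    (hlo : ∀ s : ℂ, ‖s - c‖ ≤ 3 * R → c ≤ s.re → Real.exp (-b) ≤ ‖f s‖) :
    ∃ (Z : Multiset ℂ) (H : ℂ → ℂ),
      (∀ ρ, Z.count ρ = if ‖ρ - c‖ ≤ δ then analyticOrderNatAt f ρ else 0) ∧
      (∀ ρ ∈ Z, ‖ρ - c‖ ≤ δ ∧ f ρ = 0) ∧ (Z.card : ℝ) ≤ 2 * b + 3 * R * P ∧
      (H c).re ≤ P / 2 + b / R + δ * (2 * b + 3 * R * P) / R ^ 2 ∧
      ‖H c‖ ≤ 100 * (2 * b + 3 * R * P) / δ ∧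
      DifferentiableOn ℂ H (Metric.ball (c : ℂ) (3 * δ / 4)) ∧
      (∀ s : ℂ, ‖s - c‖ ≤ δ / 2 → f s ≠ 0 →
        -deriv f s / f s + (Z.map fun ρ => 1 / (s - ρ)).sum = H s) ∧
      ∀ s : ℂ, ‖s - c‖ ≤ δ / 2 →
        ‖H s - H c‖ ≤ 100 * (2 * b + 3 * R * P) / δ ^ 2 * ‖s - c‖ := by
  have hM : 0 < 2 * b + 3 * R * P := by positivity
  have hfc := hlo c (by simp; positivity) (by simp)
  have hfc0 : f c ≠ 0 := norm_pos_iff.mp ((Real.exp_pos _).trans_le hfc)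
  obtain ⟨R', A, g, hR1, hR2, hcount, hA, hg, hg0, hid⟩ := blaschke f hf c hfc0 R hR
  have hR' : 0 < R' := by linarith
  have h4 : 4 * δ ≤ R' := by linarith
  have hR'c : (R' : ℂ) ≠ 0 := by exact_mod_cast hR'.ne'
  have hw0 : ∀ ρ ∈ A, ρ - c ≠ 0 := fun ρ hρ h => by
    have := (hA ρ hρ).2
    rw [sub_eq_zero.mp h] at this
    exact hfc0 this
  have hre : ∀ ρ ∈ A, (ρ - c).re < 0 := fun ρ hρ => by
    by_contra h
    have h1 := hlo ρ (by linarith [(hA ρ hρ).1]) (by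
      rw [sub_re, ofReal_re] at h
      linarith)
    rw [(hA ρ hρ).2, norm_zero] at h1
    exact absurd h1 (not_le.mpr (Real.exp_pos _))
  have hP2 : ∀ s : ℂ, (∀ ρ ∈ A, s ≠ ρ) → (A.map fun ρ => (R' : ℂ) * (s - ρ)).prod ≠ 0 := by
    intro s hs
    refine Multiset.prod_ne_zero fun h => ?_
    obtain ⟨ρ, hρ, h1⟩ := Multiset.mem_map.mp h
    exact mul_ne_zero hR'c (sub_ne_zero.mpr (hs ρ hρ)) h1
  have hcirc : ∀ s : ℂ, ‖s - c‖ = R' → ‖g s‖ = ‖f s‖ := by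
    intro s hs
    have h1 := j3_norm A (fun ρ => (R' : ℂ) ^ 2 - starRingEnd ℂ (ρ - c) * (s - c))
      (fun ρ => (R' : ℂ) * (s - ρ)) (fun _ => 0) fun ρ _ => by
        have e : (R' : ℂ) ^ 2 - starRingEnd ℂ (ρ - c) * (s - c) =
            starRingEnd ℂ (s - ρ) * (s - c) := by
          have e1 := Complex.conj_mul' (s - c)
          rw [hs] at e1
          rw [← e1]
          simp only [map_sub]
          ring
        rw [e, norm_mul, norm_mul, RCLike.norm_conj, hs, norm_real, Real.norm_eq_abs,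
          abs_of_pos hR', Real.exp_zero]
        ring
    have h2 := congrArg norm (hid s)
    have h3 := norm_ne_zero_iff.mpr (hP2 s fun ρ hρ h => by
      have := (hA ρ hρ).1
      rw [← h, hs] at this
      exact lt_irrefl _ this)
    rw [norm_mul, norm_mul, h1] at h2
    simp only [Multiset.map_const', Multiset.sum_replicate, smul_zero, Real.exp_zero,
      mul_one] at h2
    exact (mul_right_cancel₀ h3 h2).symm
  set L : ℂ → ℝ := fun ρ => Real.log (R' / ‖ρ - c‖) with hL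
  have hL0 : ∀ ρ ∈ A, 0 ≤ L ρ := fun ρ hρ =>
    Real.log_nonneg ((one_le_div (norm_pos_iff.mpr (hw0 ρ hρ))).mpr (hA ρ hρ).1.le)
  have hS0 : 0 ≤ (A.map L).sum := Multiset.sum_nonneg fun x hx => by
    obtain ⟨ρ, hρ, rfl⟩ := Multiset.mem_map.mp hx
    exact hL0 ρ hρ
  have hcen : ‖g c‖ = ‖f c‖ * Real.exp (A.map L).sum := by
    have h1 := j3_norm A (fun ρ => (R' : ℂ) ^ 2 - starRingEnd ℂ (ρ - c) * (c - c))
      (fun ρ => (R' : ℂ) * (c - ρ)) L fun ρ hρ => by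
        have hn := norm_pos_iff.mpr (hw0 ρ hρ)
        simp only [hL]
        rw [Real.exp_log (div_pos hR' hn), sub_self, mul_zero, sub_zero, norm_pow, norm_mul,
          norm_real, Real.norm_eq_abs, abs_of_pos hR', norm_sub_rev (c : ℂ) ρ]
        field_simp
    have h2 := congrArg norm (hid c)
    have h3 := norm_ne_zero_iff.mpr (hP2 c fun ρ hρ h => hw0 ρ hρ (by rw [h, sub_self]))
    rw [norm_mul, norm_mul, h1] at h2
    refine mul_right_cancel₀ h3 ?_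
    rw [← h2]
    ring
  have hgc : Real.exp (-b) ≤ ‖g c‖ := by
    rw [hcen]
    exact hfc.trans (le_mul_of_one_le_right (norm_nonneg _) (Real.one_le_exp hS0))
  obtain ⟨k1, k2, k3⟩ := logder g hg c R' b P hR' hb hP hg0
    (fun s hs => by rw [hcirc s hs]; exact hup s (by linarith))
    (fun s hs hs' => by rw [hcirc s hs]; exact hlo s (by linarith) hs') hgc
  have hRP : R' * P ≤ 3 * R * P := mul_le_mul_of_nonneg_right hR2.le hP
  have hS : (A.map L).sum ≤ 2 * b + 3 * R * P := by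
    have h1 : Real.exp (-b) * Real.exp (A.map L).sum ≤ Real.exp (b + R' * P) := by
      refine le_trans ?_ k2
      rw [hcen]
      exact mul_le_mul_of_nonneg_right hfc (Real.exp_pos _).le
    rw [← Real.exp_add, Real.exp_le_exp] at h1
    linarith
  set E : ℂ → ℂ → ℂ := fun ρ s =>
    starRingEnd ℂ (ρ - c) / ((R' : ℂ) ^ 2 - starRingEnd ℂ (ρ - c) * (s - c)) with hE
  set T : ℂ → ℂ → ℂ := fun ρ s => if ‖ρ - c‖ ≤ δ then E ρ s else 1 / (s - ρ) + E ρ s with hT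
  set H : ℂ → ℂ := fun s => -(deriv g s / g s) - (A.map fun ρ => T ρ s).sum with hH
  have hden : ∀ ρ ∈ A, ∀ s : ℂ, ‖s - c‖ ≤ δ →
      (R' : ℂ) ^ 2 - starRingEnd ℂ (ρ - c) * (s - c) ≠ 0 := fun ρ hρ s hs =>
    norm_pos_iff.mp (lt_of_lt_of_le (by positivity) (j3_den hδ h4 (hA ρ hρ).1 hs))
  have hTb : ∀ ρ ∈ A, ∀ s : ℂ, ‖s - c‖ ≤ 3 * δ / 4 → ‖T ρ s‖ ≤ 11 / δ * L ρ := by
    intro ρ hρ s hs
    simp only [hT, hE, hL]
    split_ifs with h
    · exact j3_near hδ h4 (hw0 ρ hρ) h (by linarith)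
    · have := j3_far hδ h4 (not_le.mp h) (hA ρ hρ).1 hs
      rwa [sub_sub_sub_cancel_right] at this
  have hHb : ∀ s : ℂ, ‖s - c‖ ≤ 3 * δ / 4 → ‖H s‖ ≤ 13 * (2 * b + 3 * R * P) / δ := by
    intro s hs
    have h1 := k3 s (by linarith)
    have h2 := j3_sum_le A (fun ρ => T ρ s) L (11 / δ) fun ρ hρ => hTb ρ hρ s hs
    have h3 := norm_sub_le (-(deriv g s / g s)) (A.map fun ρ => T ρ s).sum
    rw [norm_neg] at h3
    have h5 : 8 * (2 * b + R' * P) / R' ≤ 8 * (2 * b + 3 * R * P) / (4 * δ) := by gcongr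
    have h6 : 11 / δ * (A.map L).sum ≤ 11 / δ * (2 * b + 3 * R * P) := by gcongr
    have h7 : 8 * (2 * b + 3 * R * P) / (4 * δ) + 11 / δ * (2 * b + 3 * R * P) =
        13 * (2 * b + 3 * R * P) / δ := by
      field_simp
      ring
    simp only [hH]
    linarith
  have hHd : DifferentiableOn ℂ H (Metric.ball (c : ℂ) (3 * δ / 4)) := by
    have hb' : ∀ s ∈ Metric.ball (c : ℂ) (3 * δ / 4), ‖s - c‖ < 3 * δ / 4 := fun s hs => by
      rwa [Metric.mem_ball, dist_eq_norm] at hs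
    refine DifferentiableOn.fun_sub (DifferentiableOn.fun_neg ?_) (j3_diff A T _ fun ρ hρ => ?_)
    · exact DifferentiableOn.fun_div hg.deriv.differentiableOn hg.differentiableOn
        fun s hs => hg0 s (by linarith [hb' s hs])
    · have hEd : DifferentiableOn ℂ (E ρ) (Metric.ball (c : ℂ) (3 * δ / 4)) :=
        DifferentiableOn.fun_div (by fun_prop) (by fun_prop)
          fun s hs => hden ρ hρ s (by linarith [hb' s hs])
      by_cases h : ‖ρ - c‖ ≤ δ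
      · simp only [hT, if_pos h]
        exact hEd
      · simp only [hT, if_neg h]
        refine DifferentiableOn.fun_add (DifferentiableOn.fun_div (by fun_prop) (by fun_prop)
          fun s hs h1 => h ?_) hEd
        rw [← sub_eq_zero.mp h1]
        linarith [hb' s hs]
  have hc0 : ‖(c : ℂ) - c‖ ≤ 3 * δ / 4 := by
    rw [sub_self, norm_zero]
    positivity
  refine ⟨A.filter fun ρ => ‖ρ - c‖ ≤ δ, H, fun ρ => ?_, fun ρ hρ => ?_, ?_, ?_, ?_, hHd,
    fun s hs hfs => ?_, fun s hs => ?_⟩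
  · rw [Multiset.count_filter]
    split_ifs with h
    · rw [hcount, if_pos (by linarith)]
    · rfl
  · obtain ⟨h1, h2⟩ := Multiset.mem_filter.mp hρ
    exact ⟨h2, (hA ρ h1).2⟩
  · exact (j3_card_le A _ L hL0 fun ρ hρ h => j3_log h4 (hw0 ρ hρ) h).trans hS
  · have h1 := j3_re_le A (fun ρ => T ρ c) L (δ / R ^ 2) fun ρ hρ => by
      simp only [hT, hE]
      split_ifs with h
      · have e1 := abs_re_le_norm (starRingEnd ℂ (ρ - c) /
          ((R' : ℂ) ^ 2 - starRingEnd ℂ (ρ - c) * (c - c)))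
        have e2 := neg_abs_le (starRingEnd ℂ (ρ - c) /
          ((R' : ℂ) ^ 2 - starRingEnd ℂ (ρ - c) * (c - c))).re
        have e3 : ‖starRingEnd ℂ (ρ - c) / ((R' : ℂ) ^ 2 - starRingEnd ℂ (ρ - c) * (c - c))‖ ≤
            δ / R ^ 2 := by
          rw [sub_self, mul_zero, sub_zero, norm_div, RCLike.norm_conj, norm_pow, norm_real,
            Real.norm_eq_abs, abs_of_pos hR']
          gcongr
          linarith
        have e4 : δ / R ^ 2 ≤ δ / R ^ 2 * L ρ :=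
          le_mul_of_one_le_right (by positivity) (j3_log h4 (hw0 ρ hρ) h)
        linarith
      · have e1 := j3_far_re (hw0 ρ hρ) (hA ρ hρ).1 (hre ρ hρ)
        have e2 : 0 ≤ δ / R ^ 2 * L ρ := mul_nonneg (by positivity) (hL0 ρ hρ)
        rw [zero_sub, neg_sub] at e1
        rw [sub_self]
        linarith
    have h2 : δ / R ^ 2 * (A.map L).sum ≤ δ / R ^ 2 * (2 * b + 3 * R * P) := by gcongr
    have h3 : 2 * b / R' ≤ b / R := by
      rw [div_le_div_iff₀ hR' hR]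
      nlinarith
    have h5 : δ / R ^ 2 * (2 * b + 3 * R * P) = δ * (2 * b + 3 * R * P) / R ^ 2 := by ring
    rw [neg_div] at k1
    simp only [hH, sub_re]
    linarith
  · refine (hHb c hc0).trans ?_
    gcongr
    norm_num
  · have hsA : ∀ ρ ∈ A, s ≠ ρ := fun ρ hρ h => hfs (h ▸ (hA ρ hρ).2)
    have hgs : g s ≠ 0 := hg0 s (by linarith)
    have d1 := j3_prod A (fun ρ z => (R' : ℂ) ^ 2 - starRingEnd ℂ (ρ - c) * (z - c))
      (fun ρ => -starRingEnd ℂ (ρ - c)) s fun ρ hρ => ⟨by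
        simpa using (((hasDerivAt_id s).sub_const (c : ℂ)).const_mul
          (starRingEnd ℂ (ρ - c))).const_sub ((R' : ℂ) ^ 2), hden ρ hρ s (by linarith)⟩
    have d2 := j3_prod A (fun ρ z => (R' : ℂ) * (z - ρ)) (fun _ => (R' : ℂ)) s fun ρ hρ => ⟨by
        simpa using ((hasDerivAt_id s).sub_const ρ).const_mul (R' : ℂ),
      mul_ne_zero hR'c (sub_ne_zero.mpr (hsA ρ hρ))⟩
    have d3 := (hf s).hasDerivAt.fun_mul d1
    have d4 := (hg s).hasDerivAt.fun_mul d2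
    rw [funext hid] at d3
    have d5 := d3.unique d4
    have d6 := hid s
    have d7 := hP2 s hsA
    have s1 : (A.map fun ρ => -starRingEnd ℂ (ρ - c) /
        ((R' : ℂ) ^ 2 - starRingEnd ℂ (ρ - c) * (s - c))).sum = -(A.map fun ρ => E ρ s).sum := by
      rw [← Multiset.sum_map_neg]
      congr 2
      funext ρ
      simp only [hE, neg_div]
    have s2 : (A.map fun ρ => (R' : ℂ) / ((R' : ℂ) * (s - ρ))).sum =
        (A.map fun ρ => 1 / (s - ρ)).sum := by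
      congr 2
      funext ρ
      rw [div_mul_eq_div_div, div_self hR'c]
    rw [s1, s2] at d5
    have s3 := j3_split A (fun ρ => ‖ρ - c‖ ≤ δ) (fun ρ => 1 / (s - ρ)) (fun ρ => E ρ s)
    have key : -deriv f s / f s +
        ((A.filter fun ρ : ℂ => ‖ρ - c‖ ≤ δ).map fun ρ : ℂ => 1 / (s - ρ)).sum = H s := by
      simp only [hH, hT]
      rw [s3]
      generalize (A.map fun ρ => (R' : ℂ) ^ 2 - starRingEnd ℂ (ρ - c) * (s - c)).prod = p1
        at d5 d6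
      generalize (A.map fun ρ => (R' : ℂ) * (s - ρ)).prod = p2 at d5 d6 d7
      generalize (A.map fun ρ => E ρ s).sum = e1 at d5 ⊢
      generalize (A.map fun ρ => 1 / (s - ρ)).sum = e2 at d5 ⊢
      have q1 : p1 = g s * p2 / f s := by
        rw [← d6]
        field_simp
      have q2 : deriv f s / f s - e1 = deriv g s / g s + e2 := by
        rw [q1] at d5
        field_simp at d5 ⊢
        linear_combination d5
      rw [neg_div]
      linear_combination -q2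
    exact key
  · have hmaps : Set.MapsTo H (Metric.ball (c : ℂ) (3 * δ / 4))
        (Metric.closedBall (H c) (26 * (2 * b + 3 * R * P) / δ)) := by
      intro z hz
      rw [Metric.mem_ball, dist_eq_norm] at hz
      rw [Metric.mem_closedBall, dist_eq_norm]
      have h1 := hHb z hz.le
      have h2 := hHb c hc0
      have h3 := norm_sub_le (H z) (H c)
      have h5 : 26 * (2 * b + 3 * R * P) / δ =
          13 * (2 * b + 3 * R * P) / δ + 13 * (2 * b + 3 * R * P) / δ := by ring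
      linarith
    have hsch := Complex.dist_le_div_mul_dist_of_mapsTo_ball hHd hmaps (z := s) (by
      rw [Metric.mem_ball, dist_eq_norm]
      linarith)
    rw [dist_eq_norm, dist_eq_norm] at hsch
    refine hsch.trans (mul_le_mul_of_nonneg_right ?_ (norm_nonneg _))
    have h1 : 26 * (2 * b + 3 * R * P) / δ / (3 * δ / 4) =
        104 / 3 * (2 * b + 3 * R * P) / δ ^ 2 := by
      field_simp
      ring
    rw [h1]
    gcongr
    norm_num

theorem lfun_upperK (θ C : ℝ) (hθ : 0 < θ) (hθ' : θ ≤ 1 / 2) (hC : 1 ≤ C) : ∃ C' : ℝ, 1 ≤ C' ∧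
    ∀ (q : ℕ) [NeZero q] (ξ : DirichletCharacter ℂ q) (y : ℝ), ξ ≠ 1 → 1 ≤ y →
    (∀ x : ℝ, 1 ≤ x → ‖∑ n ∈ Ioc 0 ⌊x⌋₊, ξ (n : ZMod q)‖ ≤ C * x ^ (1 - θ) * y ^ θ) →
    ∀ (s : ℂ) (K : ℝ), 1 - θ / 2 ≤ s.re → 1 ≤ K → ‖s‖ ≤ K →
      ‖ξ.LFunction s‖ ≤ C' * K * (1 + Real.log y) * y ^ (max (1 - s.re) 0) := by
  have hCθ : 0 ≤ C * (2 / (θ / 2)) := by positivity
  refine ⟨C + 1 + C * (2 / (θ / 2)), by linarith, fun q _ ξ y hξ hy hS s K hs hK hs3 => ?_⟩
  have hK0 : 0 < K := by linarith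
  have hσ : 0 < s.re := by linarith
  have hy0 : 0 < y := by linarith
  obtain ⟨δ, hδ⟩ : ∃ δ, δ = max (1 - s.re) 0 := ⟨_, rfl⟩
  have hδ0 : 0 ≤ δ := hδ ▸ le_max_right _ _
  have hδ1 : 1 - s.re ≤ δ := hδ ▸ le_max_left _ _
  have hδ2 : δ ≤ θ / 2 := hδ ▸ max_le (by linarith) (by linarith)
  rw [← hδ]
  have hM1 : 1 ≤ ⌊y⌋₊ := Nat.le_floor (by exact_mod_cast hy)
  have hMy : (⌊y⌋₊ : ℝ) ≤ y := Nat.floor_le hy0.le
  have hyM : y < ⌊y⌋₊ + 1 := Nat.lt_floor_add_one y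
  generalize ⌊y⌋₊ = M at hM1 hMy hyM
  have hM1' : (1 : ℝ) ≤ M := by exact_mod_cast hM1
  have hlog : 0 ≤ Real.log y := Real.log_nonneg hy
  have hyδ : 0 < y ^ δ := Real.rpow_pos_of_pos hy0 δ
  have hS' : ∀ n : ℕ, 1 ≤ n → ‖∑ m ∈ Ioc 0 n, ξ (m : ZMod q)‖ ≤ C * (n : ℝ) ^ (1 - θ) * y ^ θ :=
    fun n hn => by simpa using hS n (by exact_mod_cast hn)
  have hS0 : ∀ n : ℕ, ‖∑ m ∈ Ioc 0 n, ξ (m : ZMod q)‖ ≤ n := fun n => by
    refine (norm_sum_le_of_le _ fun m _ => ξ.norm_le_one _).trans ?_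
    simp
  refine le_of_tendsto (lfun_tendsto ξ hξ hσ).norm
    (Filter.eventually_atTop.2 ⟨M + 1, fun N hN => ?_⟩)
  have hyN : y ≤ N := hyM.le.trans (by exact_mod_cast hN)
  have hN1 : (1 : ℝ) ≤ N := hy.trans hyN
  rw [a2b_abel (fun n => ξ (n : ZMod q)) fun n => (n : ℂ) ^ (-s)]
  have b1 : ‖(∑ n ∈ Ioc 0 N, ξ (n : ZMod q)) * ((N + 1 : ℕ) : ℂ) ^ (-s)‖ ≤ C * y ^ δ := by
    rw [norm_mul, norm_natCast_cpow_of_pos (Nat.succ_pos N), neg_re]
    have h1 : ((N.succ : ℕ) : ℝ) ^ (-s.re) ≤ (N : ℝ) ^ (δ - 1) :=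
      (Real.rpow_le_rpow_of_nonpos (by linarith) (by simp) (by linarith)).trans
        (Real.rpow_le_rpow_of_exponent_le hN1 (by linarith))
    have h2 : (N : ℝ) ^ (1 - θ) * (N : ℝ) ^ (δ - 1) ≤ y ^ (δ - θ) := by
      rw [← Real.rpow_add (by linarith), show 1 - θ + (δ - 1) = δ - θ by ring]
      exact Real.rpow_le_rpow_of_nonpos hy0 hyN (by linarith)
    have h3 : y ^ θ * y ^ (δ - θ) = y ^ δ := by rw [← Real.rpow_add hy0, add_sub_cancel]
    have h4 := mul_le_mul (hS' N (by omega)) h1 (by positivity) (by positivity)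
    have h5 := mul_le_mul_of_nonneg_left h2 (show 0 ≤ C * y ^ θ by positivity)
    rw [← h3]
    linarith
  have b2 : ∀ n ∈ Ioc 0 M, ‖(∑ m ∈ Ioc 0 n, ξ (m : ZMod q)) *
      ((n : ℂ) ^ (-s) - ((n + 1 : ℕ) : ℂ) ^ (-s))‖ ≤ K * y ^ δ * (n : ℝ)⁻¹ := by
    intro n hn
    obtain ⟨h0, h1⟩ := mem_Ioc.1 hn
    have hn1 : (1 : ℝ) ≤ n := by exact_mod_cast h0
    have hny : (n : ℝ) ≤ y := le_trans (by exact_mod_cast h1) hMy
    have h2 : (n : ℝ) ^ (-s.re - 1) ≤ y ^ δ * (n : ℝ)⁻¹ * (n : ℝ)⁻¹ := by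
      calc (n : ℝ) ^ (-s.re - 1) ≤ (n : ℝ) ^ (δ - 1 - 1) :=
            Real.rpow_le_rpow_of_exponent_le hn1 (by linarith)
        _ = (n : ℝ) ^ δ * (n : ℝ)⁻¹ * (n : ℝ)⁻¹ := by
            rw [Real.rpow_sub_one (by linarith), Real.rpow_sub_one (by linarith), div_eq_mul_inv,
              div_eq_mul_inv]
        _ ≤ _ := by gcongr
    rw [norm_mul]
    refine (mul_le_mul (hS0 n) ((a2b_diff hσ h0).trans (mul_le_mul hs3 h2 (by positivity)
      hK0.le)) (norm_nonneg _) (by positivity)).trans (le_of_eq ?_)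
    field_simp
  have b3 : ∀ n ∈ Ioc M N, ‖(∑ m ∈ Ioc 0 n, ξ (m : ZMod q)) *
      ((n : ℂ) ^ (-s) - ((n + 1 : ℕ) : ℂ) ^ (-s))‖ ≤
        K * (C * (y ^ δ * y ^ (θ / 2))) * (n : ℝ) ^ (-1 - θ / 2) := by
    intro n hn
    obtain ⟨h0, -⟩ := mem_Ioc.1 hn
    have hyn : y ≤ n := hyM.le.trans (by exact_mod_cast h0)
    have hn1 : (1 : ℝ) ≤ n := hy.trans hyn
    have h2 : (n : ℝ) ^ (1 - θ) * (n : ℝ) ^ (-s.re - 1) ≤
        y ^ (δ - θ / 2) * (n : ℝ) ^ (-1 - θ / 2) := by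
      calc (n : ℝ) ^ (1 - θ) * (n : ℝ) ^ (-s.re - 1) = (n : ℝ) ^ (1 - θ + (-s.re - 1)) :=
            (Real.rpow_add (by linarith) _ _).symm
        _ ≤ (n : ℝ) ^ (δ - θ / 2 + (-1 - θ / 2)) :=
            Real.rpow_le_rpow_of_exponent_le hn1 (by linarith)
        _ = (n : ℝ) ^ (δ - θ / 2) * (n : ℝ) ^ (-1 - θ / 2) := Real.rpow_add (by linarith) _ _
        _ ≤ _ := mul_le_mul_of_nonneg_right (Real.rpow_le_rpow_of_nonpos hy0 hyn (by linarith))
            (by positivity)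
    have h3 : y ^ δ * y ^ (θ / 2) = y ^ θ * y ^ (δ - θ / 2) := by
      rw [← Real.rpow_add hy0, ← Real.rpow_add hy0]
      congr 1
      ring
    have h4 := mul_le_mul_of_nonneg_left h2 (show 0 ≤ K * (C * y ^ θ) by positivity)
    rw [norm_mul, h3]
    refine (mul_le_mul (hS' n (by omega)) ((a2b_diff hσ (by omega)).trans
      (mul_le_mul_of_nonneg_right hs3 (by positivity))) (norm_nonneg _) (by positivity)).trans ?_
    linarith
  have b4 : y ^ (θ / 2) * ((M : ℝ) ^ (-(θ / 2)) / (θ / 2)) ≤ 2 / (θ / 2) := by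
    rw [← mul_div_assoc]
    refine div_le_div_of_nonneg_right ?_ (by positivity)
    rw [Real.rpow_neg (by linarith), ← div_eq_mul_inv, ← Real.div_rpow hy0.le (by linarith)]
    have h1 : y / M ≤ 2 := by
      rw [div_le_iff₀ (by linarith)]
      linarith
    calc (y / M) ^ (θ / 2) ≤ (2 : ℝ) ^ (θ / 2) :=
          Real.rpow_le_rpow (by positivity) h1 (by positivity)
      _ ≤ (2 : ℝ) ^ (1 : ℝ) := Real.rpow_le_rpow_of_exponent_le (by norm_num) (by linarith)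
      _ = 2 := Real.rpow_one 2
  have b5 := norm_sum_le_of_le _ b2
  have b6 := norm_sum_le_of_le _ b3
  rw [← mul_sum] at b5 b6
  have b7 := mul_le_mul_of_nonneg_left (a2b_harm hM1 hMy) (show 0 ≤ K * y ^ δ by positivity)
  have b8 := mul_le_mul_of_nonneg_left (a2b_tail (show 0 < θ / 2 by linarith) hM1 N)
    (show 0 ≤ K * (C * (y ^ δ * y ^ (θ / 2))) by positivity)
  have b9 := mul_le_mul_of_nonneg_left b4 (show 0 ≤ K * (C * y ^ δ) by positivity)
  rw [← sum_Ioc_consecutive (fun n : ℕ => (∑ m ∈ Ioc 0 n, ξ (m : ZMod q)) *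
    ((n : ℂ) ^ (-s) - ((n + 1 : ℕ) : ℂ) ^ (-s))) (Nat.zero_le M) (show M ≤ N by omega)]
  refine (norm_add_le_of_le b1 (norm_add_le_of_le (b5.trans b7) (b6.trans b8))).trans ?_
  have b10 : 0 ≤ K * ((C + C * (2 / (θ / 2))) * (Real.log y * y ^ δ)) := by positivity
  have b11 : C * y ^ δ ≤ K * (C * y ^ δ) := le_mul_of_one_le_left (by positivity) hK
  linarith

end Pool.Agent.Lib.MP_778b46_nt.GX
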