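import Pool.Agent.Lib.MP_778b46_nt.GX.G1

/- More inequalities for the transform of `g1`. -/

namespace Pool.Agent.Lib.MP_778b46_nt.GX

open intervalIntegral

theorem ka_poly (a1 a2 a3 a4 a5 a6 a7 a8 t : ℝ) :
    HasDerivAt (fun t : ℝ => a1 * t + a2 * t ^ 2 + a3 * t ^ 3 + a4 * t ^ 4 + a5 * t ^ 5 +
      a6 * t ^ 6 + a7 * t ^ 7 + a8 * t ^ 8) (a1 + 2 * a2 * t + 3 * a3 * t ^ 2 + 4 * a4 * t ^ 3 +
      5 * a5 * t ^ 4 + 6 * a6 * t ^ 5 + 7 * a7 * t ^ 6 + 8 * a8 * t ^ 7) t := by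
  have h := fun (n : ℕ) (a : ℝ) => (hasDerivAt_pow n t).const_mul a
  refine HasDerivAt.congr_deriv (((((((((hasDerivAt_id t).const_mul a1).add (h 2 a2)).add
    (h 3 a3)).add (h 4 a4)).add (h 5 a5)).add (h 6 a6)).add (h 7 a7)).add (h 8 a8)) ?_
  simp
  ring

theorem ka_int {f : ℝ → ℝ} (a1 a2 a3 a4 a5 a6 a7 a8 : ℝ) (h : ∀ t, f t = a1 + 2 * a2 * t +
    3 * a3 * t ^ 2 + 4 * a4 * t ^ 3 + 5 * a5 * t ^ 4 + 6 * a6 * t ^ 5 + 7 * a7 * t ^ 6 +
      8 * a8 * t ^ 7) : ∫ t in (0 : ℝ)..1, f t = a1 + a2 + a3 + a4 + a5 + a6 + a7 + a8 := by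
  rw [funext h, integral_eq_sub_of_hasDerivAt (fun t _ => ka_poly a1 a2 a3 a4 a5 a6 a7 a8 t)
    (Continuous.intervalIntegrable (by fun_prop) _ _)]
  simp

open Complex in
theorem RF_far {x : ℝ} (hx : 0 ≤ x) (y : ℝ) : x ≤ RF x y * (x ^ 2 + y ^ 2 + 10) := by
  rcases hx.eq_or_lt with h | h
  · subst h
    exact mul_nonneg (RF_zero_nonneg y) (by positivity)
  have hw : (x : ℂ) + y * I ≠ 0 := fun h' => h.ne' (by simpa using congrArg re h')
  set w : ℂ := x + y * I with hwd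
  have hN : 0 < x ^ 2 + y ^ 2 + 10 := by positivity
  obtain ⟨c, hc⟩ : ∃ c, c * (x ^ 2 + y ^ 2 + 10) = 1 := ⟨_, inv_mul_cancel₀ hN.ne'⟩
  have hQ := Ph_cont w
  have hA : ∀ s : ℝ, HasDerivAt (fun s => (Ph w s).re)
      (x * (Ph w s).re - y * (Ph w s).im - (s - s ^ 2)) s := fun s =>
    HasDerivAt.congr_deriv (reCLM.hasFDerivAt.comp_hasDerivAt s (Ph_deriv hw s)) (by
      simp [hwd, ← ofReal_pow])
  have hB : ∀ s : ℝ, HasDerivAt (fun s => (Ph w s).im) (x * (Ph w s).im + y * (Ph w s).re) s :=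
    fun s => HasDerivAt.congr_deriv (imCLM.hasFDerivAt.comp_hasDerivAt s (Ph_deriv hw s)) (by
      simp [hwd, ← ofReal_pow])
  have hq : Continuous fun s : ℝ => ((s : ℂ) - s ^ 2) * Ph w s := by fun_prop
  have h3 : ∫ s in (0 : ℝ)..1, (((s : ℂ) - s ^ 2) * Ph w s).re = RF x y / 30 := by
    have := reCLM.intervalIntegral_comp_comm (hq.intervalIntegrable (μ := MeasureTheory.volume) 0 1)
    simp only [reCLM_apply] at this
    rw [this, Ph_int hw, RF, ← hwd]
    simp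
  set k : ℝ := 2 * c - c ^ 2 * (x ^ 2 + y ^ 2) with hk
  have hP := fun s => ((((hA s).mul (hA s)).add ((hB s).mul (hB s))).neg.add
    (((ka_poly 1 (-1) 0 0 0 0 0 0 s).mul (hA s)).const_mul (4 * x * c))).add
    ((ka_poly (-c ^ 2) (c ^ 2 * (2 - x)) (k / 3 + c ^ 2 * (2 * x - 4 / 3)) (-k / 2 - c ^ 2 * x)
      (k / 5) 0 0 0 s).const_mul (2 * x))
  have hr := continuous_re.comp hQ
  have hi := continuous_im.comp hQ
  have h4 := integral_eq_sub_of_hasDerivAt (a := 0) (b := 1) (fun s _ => hP s)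
    (Continuous.intervalIntegrable (by fun_prop) _ _)
  have h5 := integral_mono_on (μ := MeasureTheory.volume) zero_le_one
    (Continuous.intervalIntegrable (by fun_prop) _ _)
    (((continuous_re.comp hq).const_mul 2).intervalIntegrable _ _) (f := fun s => -((x * (Ph w s).re -
      y * (Ph w s).im - (s - s ^ 2)) * (Ph w s).re + (Ph w s).re * (x * (Ph w s).re -
      y * (Ph w s).im - (s - s ^ 2)) + ((x * (Ph w s).im + y * (Ph w s).re) * (Ph w s).im +
      (Ph w s).im * (x * (Ph w s).im + y * (Ph w s).re))) + 4 * x * c * ((1 - 2 * s) * (Ph w s).re +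
      (s - s ^ 2) * (x * (Ph w s).re - y * (Ph w s).im - (s - s ^ 2))) + 2 * x * (k * (s - s ^ 2) ^ 2 -
      c ^ 2 * (2 * x * (s - s ^ 2) * (1 - 2 * s) + (1 - 2 * s) ^ 2))) fun s _ => by
      have e : (((s : ℂ) - s ^ 2) * Ph w s).re = (s - s ^ 2) * (Ph w s).re := by
        simp [← ofReal_pow]
      simp only [Function.comp_apply]
      rw [e, hk]
      nlinarith [mul_nonneg hx (add_nonneg (sq_nonneg ((Ph w s).re - c * (x * (s - s ^ 2) +
        (1 - 2 * s)))) (sq_nonneg ((Ph w s).im + c * y * (s - s ^ 2))))]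
  simp only [Function.comp_apply] at h5
  rw [integral_const_mul, h3, integral_congr (fun s _ => ?_), h4] at h5
  · simp only [Pi.add_apply, Pi.neg_apply, Pi.mul_apply, Ph_one, zero_re, zero_im] at h5
    have h6 : x * c ≤ RF x y := by
      have : k / 30 - c ^ 2 / 3 = c / 30 := by
        rw [hk]
        linear_combination (-c / 30) * hc
      nlinarith [mul_self_nonneg (Ph w 0).re, mul_self_nonneg (Ph w 0).im]
    calc x = x * c * (x ^ 2 + y ^ 2 + 10) := by rw [mul_assoc, hc, mul_one]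
      _ ≤ _ := mul_le_mul_of_nonneg_right h6 hN.le
  · ring

theorem RR_far {T x : ℝ} (hT : 0 < T) (hx : 0 ≤ x) (y : ℝ) :
    x ≤ RR T x y * (x ^ 2 + y ^ 2 + 10 / T ^ 2) := by
  refine le_of_mul_le_mul_right ((RF_far (mul_nonneg hx hT.le) (y * T)).trans (le_of_eq ?_)) hT
  unfold RR
  field_simp

theorem ka_four {a b c d x1 y1 x2 y2 x3 y3 x4 y4 : ℝ} (h : ∀ s, 0 ≤ s → s ≤ 1 →
    0 ≤ a * (Real.exp (-(x1 * s)) * Real.cos (y1 * s)) +
      b * (Real.exp (-(x2 * s)) * Real.cos (y2 * s)) +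
      c * (Real.exp (-(x3 * s)) * Real.cos (y3 * s)) +
      d * (Real.exp (-(x4 * s)) * Real.cos (y4 * s))) :
    0 ≤ a * RF x1 y1 + b * RF x2 y2 + c * RF x3 y3 + d * RF x4 y4 := by
  have := g1_cont
  simp only [RF_eq, ← integral_const_mul]
  rw [← integral_add, ← integral_add, ← integral_add]
  · refine integral_nonneg zero_le_one fun s hs => ?_
    exact (mul_nonneg (g1_nonneg hs.1 hs.2) (h s hs.1 hs.2)).trans (le_of_eq (by ring))
  all_goals exact Continuous.intervalIntegrable (by fun_prop) _ _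

/-- Convexity of the exponential under the integral. -/
theorem RR_secant {T x b h : ℝ} (hT : 0 ≤ T) (hx : x ≤ b) (hh : 0 < h) :
    RR T b 0 + (b - x) / h * (RR T b 0 - RR T (b + h) 0) ≤ RR T x 0 := by
  have hr : 0 ≤ (b - x) / h := div_nonneg (sub_nonneg.2 hx) hh.le
  have := ka_four (a := 1) (b := -(1 + (b - x) / h)) (c := (b - x) / h) (d := 0) (x1 := x * T)
    (x2 := b * T) (x3 := (b + h) * T) (x4 := 0) (y1 := 0) (y2 := 0) (y3 := 0) (y4 := 0)
    fun s h0 _ => by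
      have e1 : Real.exp (-(x * T * s)) = Real.exp (-(b * T * s)) * Real.exp ((b - x) * T * s) := by
        rw [← Real.exp_add]
        congr 1
        ring
      have e2 : Real.exp (-((b + h) * T * s)) =
          Real.exp (-(b * T * s)) * Real.exp (-(h * T * s)) := by
        rw [← Real.exp_add]
        congr 1
        ring
      have e3 := mul_le_mul_of_nonneg_left (Real.add_one_le_exp (-(h * T * s))) hr
      have e4 : (b - x) / h * (h * T * s) = (b - x) * T * s := by field_simp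
      have e5 : 0 ≤ Real.exp ((b - x) * T * s) - (1 + (b - x) / h) +
          (b - x) / h * Real.exp (-(h * T * s)) := by
        linarith [Real.add_one_le_exp ((b - x) * T * s)]
      simp only [zero_mul, Real.cos_zero, e1, e2]
      exact (mul_nonneg (Real.exp_pos (-(b * T * s))).le e5).trans (le_of_eq (by ring))
  simp only [RR, zero_mul]
  nlinarith [mul_nonneg hT this]

/-- `cos u ≥ 1 - u ^ 2 / 2` and `∫ g1 s * s ^ 2 = 1 / 24`. -/
theorem RR_small {T : ℝ} (hT : 0 ≤ T) (y : ℝ) : T * (5 / 12 - (y * T) ^ 2 / 48) ≤ RR T 0 y := by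
  have := g1_cont
  refine mul_le_mul_of_nonneg_left ?_ hT
  generalize y * T = e
  rw [zero_mul, RF_eq]
  refine le_trans (le_of_eq ?_) (integral_mono_on (f := fun s => g1 s * (1 - (e * s) ^ 2 / 2))
    zero_le_one (Continuous.intervalIntegrable (by fun_prop) _ _)
    (Continuous.intervalIntegrable (by fun_prop) _ _) fun s hs => ?_)
  · rw [ka_int 1 0 (-5 / 3 - e ^ 2 / 6) (5 / 4) (e ^ 2 / 2) (-1 / 6 - 5 / 12 * e ^ 2) 0 (e ^ 2 / 16)
      fun t => by unfold g1; ring]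
    ring
  · rw [zero_mul, neg_zero, Real.exp_zero, mul_one]
    exact mul_le_mul_of_nonneg_left Real.one_sub_sq_div_two_le_cos (g1_nonneg hs.1 hs.2)

/-- `-∫ g (exp (u t) - 1) cos ≤ ∫ g (exp (u t) - 1)`. -/
theorem RR_deep0 {T u : ℝ} (hT : 0 ≤ T) (hu : 0 ≤ u) (y : ℝ) :
    RR T 0 y - RR T (-u) y ≤ RR T (-u) 0 - 5 / 12 * T := by
  have := ka_four (a := 1) (b := -1) (c := -1) (d := 1) (x1 := -u * T) (x2 := 0) (x3 := 0)
    (x4 := -u * T) (y1 := 0) (y2 := 0) (y3 := y * T) (y4 := y * T) fun s h0 _ => by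
      have e1 : 1 ≤ Real.exp (-(-u * T * s)) := Real.one_le_exp (by
        rw [neg_mul, neg_mul, neg_neg]
        positivity)
      simp only [zero_mul, Real.cos_zero, neg_zero, Real.exp_zero]
      nlinarith [Real.neg_one_le_cos (y * T * s)]
  rw [RF_zero] at this
  simp only [RR, zero_mul]
  nlinarith [mul_nonneg hT this]

open Complex in
/-- From `F1_closed`. -/
theorem RF_axis (y : ℝ) : RF 0 y * y ^ 6 =
    30 * y ^ 2 * (1 + Real.cos y) + 120 * (1 - Real.cos y) - 120 * y * Real.sin y := by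
  by_cases hy : y = 0
  · simp [hy]
  have hw : (y : ℂ) * I ≠ 0 := mul_ne_zero (ofReal_ne_zero.2 hy) I_ne_zero
  have h : F1 (y * I) * (y * I) ^ 6 = (y * I) ^ 5 - 10 * (y * I) ^ 3 + 30 * (y * I) ^ 2 - 120 +
      exp (-(y * I)) * (30 * (y * I) ^ 2 + 120 * (y * I) + 120) := by
    rw [F1_closed hw]
    generalize (y : ℂ) * I = w at hw
    field_simp
  have i2 : I ^ 2 = -1 := I_sq
  have e : F1 (y * I) * (-y ^ 6 : ℝ) = ((-30 * y ^ 2 - 120 : ℝ) + (y ^ 5 + 10 * y ^ 3 : ℝ) * I) +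
      exp ((-y : ℝ) * I) * ((120 - 30 * y ^ 2 : ℝ) + (120 * y : ℝ) * I) := by
    push_cast
    rw [neg_mul (y : ℂ) I]
    linear_combination h - (F1 (y * I) * y ^ 6 * (I ^ 4 - I ^ 2 + 1) - y ^ 5 * I * (I ^ 2 - 1) +
      10 * y ^ 3 * I - 30 * y ^ 2 - 30 * y ^ 2 * exp (-(y * I))) * i2
  have e' := congrArg re e
  simp only [add_re, mul_re, ofReal_re, ofReal_im, I_re, I_im, add_im, mul_im, exp_ofReal_mul_I_re,
    exp_ofReal_mul_I_im, Real.cos_neg, Real.sin_neg] at e'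
  rw [RF, ofReal_zero, zero_add]
  linarith

/-- The second derivative is at most `M`, in the form used for interpolation. -/
def Curv (F : ℝ → ℝ) (M : ℝ) : Prop :=
  ∀ u v s : ℝ, 0 ≤ s → s ≤ 1 →
    (1 - s) * F u + s * F v - M * (v - u) ^ 2 / 8 ≤ F ((1 - s) * u + s * v)

theorem Curv.add {F G : ℝ → ℝ} {M N : ℝ} (h : Curv F M) (h' : Curv G N) :
    Curv (fun y => F y + G y) (M + N) := fun u v s h0 h1 => by
  linarith [h u v s h0 h1, h' u v s h0 h1]

theorem Curv.smul {F : ℝ → ℝ} {M c : ℝ} (h : Curv F M) (hc : 0 ≤ c) :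
    Curv (fun y => c * F y) (c * M) := fun u v s h0 h1 => by
  linarith [mul_le_mul_of_nonneg_left (h u v s h0 h1) hc]

theorem Curv.mono {F : ℝ → ℝ} {M N : ℝ} (h : Curv F M) (hN : M ≤ N) : Curv F N :=
  fun u v s h0 h1 => by
    linarith [h u v s h0 h1, mul_le_mul_of_nonneg_right hN (sq_nonneg (v - u))]

theorem curv_const (c : ℝ) : Curv (fun _ => c) 0 := fun u v s _ _ => by linarith

theorem curv_sq : Curv (fun y => y ^ 2) 2 := fun u v s _ _ => by
  nlinarith [mul_nonneg (sq_nonneg (v - u)) (sq_nonneg (1 - 2 * s))]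

theorem curv_of_deriv {F F' F'' : ℝ → ℝ} {M : ℝ} (h1 : ∀ y, HasDerivAt F (F' y) y)
    (h2 : ∀ y, HasDerivAt F' (F'' y) y) (hM : ∀ y, F'' y ≤ M) (h0 : 0 ≤ M) : Curv F M := by
  have d1 : ∀ y, HasDerivAt (fun y => F y - M / 2 * y ^ 2) (F' y - M * y) y := fun y =>
    HasDerivAt.congr_deriv ((h1 y).sub ((hasDerivAt_pow 2 y).const_mul (M / 2))) (by simp; ring)
  have d2 : ∀ y, HasDerivAt (fun y => F' y - M * y) (F'' y - M * 1) y := fun y =>
    (h2 y).sub ((hasDerivAt_id y).const_mul M)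
  have c := Antitone.concaveOn_univ_of_deriv (fun y => (d1 y).differentiableAt) (by
    rw [funext fun y => (d1 y).deriv]
    exact antitone_of_deriv_nonpos (fun y => (d2 y).differentiableAt) fun y => by
      rw [(d2 y).deriv]
      linarith [hM y])
  intro u v s a1 a2
  have := c.2 (Set.mem_univ u) (Set.mem_univ v) (sub_nonneg.2 a2) a1 (sub_add_cancel 1 s)
  simp only [smul_eq_mul] at this
  nlinarith [mul_nonneg h0 (mul_nonneg (sq_nonneg (v - u)) (sq_nonneg (1 - 2 * s)))]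

theorem curv_cos (c t : ℝ) : Curv (fun y => c * Real.cos (y * t)) (|c| * t ^ 2) := by
  refine curv_of_deriv (F' := fun y => c * (-Real.sin (y * t) * t))
    (F'' := fun y => c * (-(Real.cos (y * t) * t) * t))
    (fun y => (hasDerivAt_mul_const t).cos.const_mul c)
    (fun y => ((hasDerivAt_mul_const t).sin.neg.mul_const t).const_mul c) (fun y => ?_)
    (by positivity)
  have h : -(c * Real.cos (y * t)) ≤ |c| := (neg_le_abs _).trans (by
    rw [abs_mul]
    exact mul_le_of_le_one_right (abs_nonneg c) (Real.abs_cos_le_one _))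
  nlinarith [mul_le_mul_of_nonneg_right h (sq_nonneg t)]

theorem ka_parts (e : ℝ) :
    e ^ 2 * RF 0 e = ∫ s in (0 : ℝ)..1, (10 - 30 * s + 20 * s ^ 3) * Real.cos (e * s) := by
  have := g1_cont
  have hd := fun s => ((((ka_poly 0 (-5) 5 0 (-1) 0 0 0 s).const_add 1).mul
    (((hasDerivAt_id s).const_mul e).sin.const_mul e)).add ((ka_poly (-10) 15 0 (-5) 0 0 0 0 s).mul
    ((hasDerivAt_id s).const_mul e).cos))
  have h := integral_eq_sub_of_hasDerivAt (a := 0) (b := 1) (fun s _ => hd s)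
    (Continuous.intervalIntegrable (by fun_prop) _ _)
  rw [RF_eq, ← integral_const_mul, ← sub_eq_zero, ← integral_sub
    (Continuous.intervalIntegrable (by fun_prop) _ _)
    (Continuous.intervalIntegrable (by fun_prop) _ _), integral_congr (fun s _ => ?_), h]
  · norm_num
  · simp [g1]
    ring

/-- `y ^ 2 * RF 0 y = -∫ g1'' s * cos (y s)` and `∫ |g1''| s ^ 2 ≤ 7 / 6`. -/
theorem curv_RR {T : ℝ} (hT : 0 ≤ T) : Curv (fun y => y ^ 2 * RR T 0 y) (6 / 5 * T) := by
  rcases hT.eq_or_lt with h | h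
  · subst h
    simpa [RR] using curv_const 0
  have e : ∀ y, y ^ 2 * RR T 0 y =
      ∫ s in (0 : ℝ)..1, (10 - 30 * s + 20 * s ^ 3) / T * Real.cos (y * (T * s)) := fun y => by
    refine mul_left_cancel₀ h.ne' ?_
    rw [← integral_const_mul, integral_congr (g := fun s => (10 - 30 * s + 20 * s ^ 3) *
      Real.cos (y * T * s)) fun s _ => by simp only [mul_assoc]; field_simp, ← ka_parts, RR, zero_mul]
    ring
  intro u v s a1 a2
  have k := ka_int (f := fun t => t ^ 2 * (20 * (1 - t) ^ 3 - (10 - 30 * t + 20 * t ^ 3)))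
    0 0 (10 / 3) (-15 / 2) 12 (-20 / 3) 0 0 fun t => by ring
  have hv : 0 ≤ T * (v - u) ^ 2 / 8 := by positivity
  simp only [e]
  refine le_trans ?_ (integral_mono_on (f := fun t => (1 - s) * ((10 - 30 * t + 20 * t ^ 3) / T *
    Real.cos (u * (T * t))) + s * ((10 - 30 * t + 20 * t ^ 3) / T * Real.cos (v * (T * t))) -
    T * (v - u) ^ 2 / 8 * (t ^ 2 * (20 * (1 - t) ^ 3 - (10 - 30 * t + 20 * t ^ 3)))) zero_le_one
    (Continuous.intervalIntegrable (by fun_prop) _ _)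
    (Continuous.intervalIntegrable (by fun_prop) _ _) fun t ht => ?_)
  · rw [integral_sub, integral_add, integral_const_mul, integral_const_mul, integral_const_mul, k]
    · linarith
    all_goals exact Continuous.intervalIntegrable (by fun_prop) _ _
  · refine le_trans ?_ (curv_cos _ (T * t) u v s a1 a2)
    have b1 : 0 ≤ (1 - t) ^ 3 := pow_nonneg (sub_nonneg.2 ht.2) 3
    have b2 : |10 - 30 * t + 20 * t ^ 3| ≤ 20 * (1 - t) ^ 3 - (10 - 30 * t + 20 * t ^ 3) :=
      abs_le.2 ⟨by linarith, by nlinarith [mul_nonneg (sq_nonneg t) (sub_nonneg.2 ht.2)]⟩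
    have b3 : |(10 - 30 * t + 20 * t ^ 3) / T| * (T * t) ^ 2 * (v - u) ^ 2 / 8 =
        T * (v - u) ^ 2 / 8 * (t ^ 2 * |10 - 30 * t + 20 * t ^ 3|) := by
      rw [abs_div, abs_of_pos h]
      field_simp
    rw [b3]
    linarith [mul_le_mul_of_nonneg_left (mul_le_mul_of_nonneg_left b2 (sq_nonneg t)) hv]

theorem Curv.cell {F : ℝ → ℝ} {M u h y m : ℝ} (hF : Curv F M) (hh : 0 < h) (h1 : u ≤ y)
    (h2 : y ≤ u + h) (a1 : m + M * h ^ 2 / 8 ≤ F u) (a2 : m + M * h ^ 2 / 8 ≤ F (u + h)) :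
    m ≤ F y := by
  have s0 : 0 ≤ (y - u) / h := div_nonneg (sub_nonneg.2 h1) hh.le
  have s1 : (y - u) / h ≤ 1 := (div_le_one hh).2 (by linarith)
  have := hF u (u + h) _ s0 s1
  rw [show (1 - (y - u) / h) * u + (y - u) / h * (u + h) = y by field_simp; ring,
    add_sub_cancel_left] at this
  nlinarith [mul_le_mul_of_nonneg_left a1 (sub_nonneg.2 s1), mul_le_mul_of_nonneg_left a2 s0]

end Pool.Agent.Lib.MP_778b46_nt.GX
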