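import Pool.Agent.Lib.MP_778b46_nt.GX.CkA

/- Decay of the transform left of the line. -/

namespace Pool.Agent.Lib.MP_778b46_nt.GX

open Pool.Agent.Lib.MP_6cad4c_al Ck

/-- Bound for `U + ∫ |(g1 s * (exp (U s) - 1))''|`. -/
noncomputable def jB (U : ℝ) : ℝ := U * (33 / 10 + 37 / 100 * (Real.exp (31 / 50 * U) - 1))

theorem jB_mono {U V : ℝ} (h0 : 0 ≤ U) (h : U ≤ V) : jB U ≤ jB V := by
  have h1 : Real.exp (31 / 50 * U) ≤ Real.exp (31 / 50 * V) := Real.exp_le_exp.2 (by linarith)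
  have h2 := Real.exp_pos (31 / 50 * U)
  exact mul_le_mul h (by linarith) (by linarith) (h0.trans h)

theorem jB_nonneg {U : ℝ} (h0 : 0 ≤ U) : 0 ≤ jB U := by
  have h2 := Real.exp_pos (31 / 50 * U)
  exact mul_nonneg h0 (by linarith)

/-- The second derivative of `g1 s * (exp (U s) - 1)`. -/
noncomputable def kbD (U s : ℝ) : ℝ :=
  Real.exp (U * s) * (U ^ 2 * g1 s + 2 * U * (-10 * s + 15 * s ^ 2 - 5 * s ^ 4) +
    (-10 + 30 * s - 20 * s ^ 3)) - (-10 + 30 * s - 20 * s ^ 3)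

theorem kbD_cont (U : ℝ) : Continuous (kbD U) := by
  have := g1_cont
  unfold kbD
  fun_prop

theorem kb_parts (U y : ℝ) : (RF 0 y - RF (-U) y) * y ^ 2 =
    2 * U + ∫ s in (0 : ℝ)..1, kbD U s * (1 + Real.cos (y * s)) := by
  have hg := g1_cont
  have hD := kbD_cont U
  have h1 : ∫ s in (0 : ℝ)..1, (kbD U s * (1 + Real.cos (y * s)) + y ^ 2 *
      (g1 s * Real.exp (-(-U * s)) * Real.cos (y * s) -
        g1 s * Real.exp (-(0 * s)) * Real.cos (y * s))) = -(2 * U) := by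
    rw [intervalIntegral.integral_eq_sub_of_hasDerivAt (f := fun s : ℝ =>
      ((-10 * s + 15 * s ^ 2 - 5 * s ^ 4) * (Real.exp (U * s) - 1) +
        U * (1 - 5 * s ^ 2 + 5 * s ^ 3 - s ^ 5) * Real.exp (U * s)) * (1 + Real.cos (y * s)) +
      y * ((1 - 5 * s ^ 2 + 5 * s ^ 3 - s ^ 5) * (Real.exp (U * s) - 1) * Real.sin (y * s)))
      (fun s _ => ?_) (Continuous.intervalIntegrable (by fun_prop) _ _)]
    · simp
      ring
    · have i1 := hasDerivAt_id' s
      have e1 := (i1.const_mul U).exp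
      have c1 := (i1.const_mul y).cos
      have s1 := (i1.const_mul y).sin
      have p0 := ((((hasDerivAt_pow 2 s).const_mul 5).const_sub 1).add
        ((hasDerivAt_pow 3 s).const_mul 5)).sub (hasDerivAt_pow 5 s)
      have p1 := ((i1.const_mul (-10)).add ((hasDerivAt_pow 2 s).const_mul 15)).sub
        ((hasDerivAt_pow 4 s).const_mul 5)
      have := (((p1.mul (e1.sub_const 1)).add ((p0.const_mul U).mul e1)).mul (c1.const_add 1)).add
        (((p0.mul (e1.sub_const 1)).mul s1).const_mul y)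
      refine HasDerivAt.congr_deriv this ?_
      simp [kbD, g1]
      ring
  rw [intervalIntegral.integral_add (Continuous.intervalIntegrable (by fun_prop) _ _)
    (Continuous.intervalIntegrable (by fun_prop) _ _), intervalIntegral.integral_const_mul,
    intervalIntegral.integral_sub (Continuous.intervalIntegrable (by fun_prop) _ _)
    (Continuous.intervalIntegrable (by fun_prop) _ _), ← RF_eq, ← RF_eq] at h1
  linarith

theorem kb_conc {a U : ℝ} (ha : 0 ≤ a) (h : a ≤ U) (s : ℝ) :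
    a * (1 - Real.exp (-(U * s))) ≤ U * (1 - Real.exp (-(a * s))) := by
  rcases (ha.trans h).eq_or_lt with h0 | h0
  · rw [← h0, le_antisymm (h.trans h0.ge) ha]
  · have h1 := convexOn_exp.2 (Set.mem_univ (-(U * s))) (Set.mem_univ 0) (div_nonneg ha h0.le)
      (sub_nonneg.2 ((div_le_one h0).2 h)) (add_sub_cancel _ _)
    simp only [smul_eq_mul, mul_zero, add_zero, Real.exp_zero, mul_one] at h1
    rw [show a / U * -(U * s) = -(a * s) by field_simp] at h1
    have h2 := mul_le_mul_of_nonneg_left h1 h0.le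
    rw [show U * (a / U * Real.exp (-(U * s)) + (1 - a / U)) =
      a * Real.exp (-(U * s)) + (U - a) by field_simp] at h2
    linarith

theorem kb_cell {U b s s0 s1 hi lo E Q : ℝ} (h0 : 0 ≤ U) (hb : U ≤ b) (a0 : 0 ≤ s0) (a1 : s0 ≤ s)
    (a2 : s ≤ s1) (a3 : s1 ≤ 1) (hE : Real.exp (b * s1) ≤ E)
    (hhi : 1 - Real.exp (-(U * s)) ≤ U * hi) (hlo : U * lo ≤ 1 - Real.exp (-(U * s))) (hQ0 : 0 ≤ Q)
    (hQ : b * (1 - s0) ^ 2 * (1 + 3 * s1 + s1 ^ 2) + 10 * max (2 * s1 + 2 * s1 ^ 2 - 1) 0 * hi -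
      (10 * s0 * (1 - s1) * (2 + s0) + 10 * max (1 - (2 * s1 + 2 * s1 ^ 2)) 0 * lo) ≤ Q) :
    kbD U s ≤ U * E * Q * (1 - s) := by
  have hs : 0 ≤ s := a0.trans a1
  have h1s : 0 ≤ 1 - s := by linarith
  have e1 : Real.exp (U * s) * Real.exp (-(U * s)) = 1 := by rw [← Real.exp_add]; simp
  have e2 : kbD U s = Real.exp (U * s) * (1 - s) * (U * (U * (1 - s) ^ 2 * (1 + 3 * s + s ^ 2)) -
      U * (10 * s * (1 - s) * (2 + s)) +
      10 * ((2 * s + 2 * s ^ 2 - 1) * (1 - Real.exp (-(U * s))))) := by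
    unfold kbD g1
    linear_combination (-10 + 30 * s - 20 * s ^ 3) * e1
  have f0 : 0 ≤ 1 - Real.exp (-(U * s)) :=
    sub_nonneg.2 (Real.exp_le_one_iff.2 (neg_nonpos.2 (mul_nonneg h0 hs)))
  have t1 : U * (1 - s) ^ 2 * (1 + 3 * s + s ^ 2) ≤ b * (1 - s0) ^ 2 * (1 + 3 * s1 + s1 ^ 2) := by
    have := h0.trans hb
    gcongr
  have t2 : 10 * s0 * (1 - s1) * (2 + s0) ≤ 10 * s * (1 - s) * (2 + s) := by
    have : 0 ≤ 1 - s1 := by linarith
    gcongr
  have t3 : (2 * s + 2 * s ^ 2 - 1) * (1 - Real.exp (-(U * s))) ≤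
      max (2 * s1 + 2 * s1 ^ 2 - 1) 0 * (U * hi) - max (1 - (2 * s1 + 2 * s1 ^ 2)) 0 * (U * lo) := by
    have u1 : 2 * s + 2 * s ^ 2 - 1 ≤ 2 * s1 + 2 * s1 ^ 2 - 1 := by gcongr
    refine (mul_le_mul_of_nonneg_right u1 f0).trans ?_
    rcases le_total (2 * s1 + 2 * s1 ^ 2 - 1) 0 with h | h
    · rw [max_eq_right h, max_eq_left (by linarith)]
      nlinarith [mul_le_mul_of_nonneg_left hlo (neg_nonneg.2 h)]
    · rw [max_eq_left h, max_eq_right (by linarith), zero_mul, sub_zero]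
      exact mul_le_mul_of_nonneg_left hhi h
  have t4 : Real.exp (U * s) ≤ E := (Real.exp_le_exp.2 (mul_le_mul hb a2 hs (h0.trans hb))).trans hE
  have t5 := mul_le_mul_of_nonneg_left hQ h0
  have t6 := mul_le_mul_of_nonneg_left t1 h0
  have t7 := mul_le_mul_of_nonneg_left t2 h0
  rw [e2]
  calc _ ≤ Real.exp (U * s) * (1 - s) * (U * Q) :=
        mul_le_mul_of_nonneg_left (by linarith) (mul_nonneg (Real.exp_pos _).le h1s)
    _ ≤ E * (1 - s) * (U * Q) := by
        have := mul_nonneg h0 hQ0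
        gcongr
    _ = _ := by ring

def kbL (r k : ℕ) : ℕ := ((r.pow k).mul ONE).shiftRight (Nat.mul 80 k)

def kbHi (j q k : ℕ) : ℕ :=
  cond (Nat.ble 1 j) (((Nat.mul 20 (ONE.sub (kbL q k))).div j).add 1) (((k.mul ONE).div 200).add 1)

def kbLo (j q i : ℕ) : ℕ := (Nat.mul 20 (ONE.sub ((kbL q i).add 1))).div (j.add 1)

def kbB (k : ℕ) : ℕ := (Nat.mul 400 k).add (Nat.mul 2 (k.mul k))

def kbQ (j q q' i k : ℕ) : ℕ :=
  (((((j.add 1).mul ((Nat.sub 200 i).mul (Nat.sub 200 i))).mul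
      ((Nat.add 40000 (Nat.mul 600 k)).add (k.mul k))).mul ONE).add
    ((Nat.mul 8000000 ((kbB k).sub 40000)).mul (kbHi j q k))).sub
  ((((Nat.mul 40000 i).mul ((Nat.sub 200 k).mul (Nat.add 400 i))).mul ONE).add
    ((Nat.mul 8000000 (Nat.sub 40000 (kbB k))).mul (kbLo j q' i)))

def kbT (j r q q' i : ℕ) : ℕ :=
  (((kbL r (i.add 1)).add 1).mul (kbQ j q q' i (i.add 1))).mul (Nat.sub 399 (Nat.mul 2 i))

noncomputable def kbS (j r q q' n : ℕ) : ℕ :=
  Nat.rec (motive := fun _ => ℕ) 0 (fun i ih => ih.add (kbT j r q q' i)) n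

noncomputable def kbRow (j : ℕ) : Bool :=
  Nat.ble (Nat.mul 100 (kbS j (eHi ((j.add 1).mul 250000000)) (nLo (j.mul 250000000))
      (nHi ((j.add 1).mul 250000000)) 200))
    ((Nat.mul 1280000000000000 ONE).mul
      ((Nat.mul 93 ONE).add (Nat.mul 37 (eLo (j.mul 31000000000)))))

noncomputable def kbAll (n : ℕ) : Bool :=
  Nat.rec (motive := fun _ => Bool) true (fun j ih => kbRow j && ih) n

theorem kb_check : kbAll 120 = true := by decide +kernel

theorem kbL_le {x : ℝ} {r : ℕ} (h : (r : ℝ) ≤ Real.exp x * 2 ^ 80) (k : ℕ) :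
    (kbL r k : ℝ) ≤ Real.exp (k * x) * 2 ^ 80 := by
  refine (iv_shr_le _ _).trans ?_
  have h1 := pow_le_pow_left₀ (Nat.cast_nonneg r) h k
  rw [mul_pow, ← Real.exp_nat_mul, ← pow_mul] at h1
  rw [iv_mul, cpow, iv_ONE, div_le_iff₀ (by positivity), mul_right_comm]
  exact mul_le_mul_of_nonneg_right h1 iv_pos.le

theorem le_kbL {x : ℝ} {r : ℕ} (h : Real.exp x * 2 ^ 80 ≤ r) (k : ℕ) :
    Real.exp (k * x) * 2 ^ 80 ≤ ((kbL r k).add 1 : ℕ) := by
  rw [iv_add, Nat.cast_one]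
  refine le_trans ?_ (iv_le_shr _ _)
  have h1 := pow_le_pow_left₀ (by positivity) h k
  rw [mul_pow, ← Real.exp_nat_mul, ← pow_mul] at h1
  rw [iv_mul, cpow, iv_ONE, le_div_iff₀ (by positivity), mul_right_comm]
  exact mul_le_mul_of_nonneg_right h1 iv_pos.le

theorem kbHi_spec {U s : ℝ} {j q k : ℕ} (ha : (j : ℝ) / 20 ≤ U) (hs : s ≤ k / 200)
    (hq : (q : ℝ) ≤ Real.exp (-(j / 4000)) * 2 ^ 80) :
    1 - Real.exp (-(U * s)) ≤ U * (kbHi j q k / 2 ^ 80) := by
  have h0 : 0 ≤ U := le_trans (by positivity) ha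
  have h1 : Real.exp (-(U * (k / 200))) ≤ Real.exp (-(U * s)) :=
    Real.exp_le_exp.2 (neg_le_neg (mul_le_mul_of_nonneg_left hs h0))
  refine (sub_le_sub_left h1 1).trans ?_
  unfold kbHi
  cases hj : Nat.ble 1 j with
  | false =>
    have h2 : (k : ℝ) / 200 * 2 ^ 80 ≤ (((k.mul ONE).div 200).add 1 : ℕ) :=
      le_d (by norm_num) (by rw [iv_mul, iv_ONE]; push_cast; linarith)
    have h3 := Real.add_one_le_exp (-(U * (k / 200)))
    have h4 := mul_le_mul_of_nonneg_left ((le_div_iff₀ iv_pos).2 h2) h0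
    exact le_trans (by linarith) h4
  | true =>
    have hj' : 0 < j := Nat.le_of_ble_eq_true hj
    have hj2 : (0 : ℝ) < j := Nat.cast_pos.2 hj'
    have h2 := kbL_le hq k
    have h3 := kb_conc (show (0 : ℝ) ≤ j / 20 by positivity) ha (k / 200)
    rw [show -((j : ℝ) / 20 * (k / 200)) = k * -(j / 4000) by ring] at h3
    have h4 : 20 * (1 - Real.exp (k * -(j / 4000))) / j * 2 ^ 80 ≤
        (((Nat.mul 20 (ONE.sub (kbL q k))).div j).add 1 : ℕ) := le_d hj' (by
      rw [iv_mul, iv_sub, iv_ONE, mul_right_comm, div_mul_cancel₀ _ hj2.ne', mul_assoc,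
        Nat.cast_ofNat]
      exact mul_le_mul_of_nonneg_left (le_trans (by linarith) (le_max_left _ _)) (by norm_num))
    refine le_trans ?_ (mul_le_mul_of_nonneg_left ((le_div_iff₀ iv_pos).2 h4) h0)
    rw [← mul_div_assoc U (20 * _), le_div_iff₀ hj2]
    linarith

theorem kbLo_spec {U s : ℝ} {j q i : ℕ} (h0 : 0 ≤ U) (hb : U ≤ (j + 1) / 20) (hs : i / 200 ≤ s)
    (hq : Real.exp (-((j + 1) / 4000)) * 2 ^ 80 ≤ q) :
    U * (kbLo j q i / 2 ^ 80) ≤ 1 - Real.exp (-(U * s)) := by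
  have h1 : Real.exp (-(U * s)) ≤ Real.exp (-(U * (i / 200))) :=
    Real.exp_le_exp.2 (neg_le_neg (mul_le_mul_of_nonneg_left hs h0))
  refine le_trans ?_ (sub_le_sub_left h1 1)
  have hj : (0 : ℝ) < j + 1 := by positivity
  have h2 := le_kbL hq i
  have h3 := kb_conc h0 hb (i / 200)
  rw [show -(((j : ℝ) + 1) / 20 * (i / 200)) = i * -((j + 1) / 4000) by ring] at h3
  have h5 : 0 ≤ 1 - Real.exp (i * -(((j : ℝ) + 1) / 4000)) :=
    sub_nonneg.2 (Real.exp_le_one_iff.2 (mul_nonpos_of_nonneg_of_nonpos (Nat.cast_nonneg i)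
      (neg_nonpos.2 (by positivity))))
  have h4 : (kbLo j q i : ℝ) ≤ 20 * (1 - Real.exp (i * -((j + 1) / 4000))) / (j + 1) * 2 ^ 80 :=
    d_le (by positivity) (by
      rw [iv_mul, iv_sub, iv_ONE, iv_add j, Nat.cast_one, mul_right_comm, div_mul_cancel₀ _ hj.ne',
        mul_assoc, Nat.cast_ofNat]
      refine mul_le_mul_of_nonneg_left (max_le (by linarith) (by positivity)) (by norm_num))
  refine (mul_le_mul_of_nonneg_left ((div_le_iff₀ iv_pos).2 h4) h0).trans ?_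
  rw [← mul_div_assoc, div_le_iff₀ hj]
  linarith

theorem kb_slice {U : ℝ} {j r q q' i : ℕ} (ha : (j : ℝ) / 20 ≤ U) (hb : U ≤ (j + 1) / 20)
    (hi : i < 200) (hr : Real.exp ((j + 1) / 4000) * 2 ^ 80 ≤ r)
    (hq : (q : ℝ) ≤ Real.exp (-(j / 4000)) * 2 ^ 80)
    (hq' : Real.exp (-((j + 1) / 4000)) * 2 ^ 80 ≤ q') (y : ℝ) :
    ∫ s in ((i : ℝ) / 200)..(((i + 1 : ℕ) : ℝ) / 200), kbD U s * (1 + Real.cos (y * s)) ≤
      U * (kbT j r q q' i / (1280000000000000 * 2 ^ 80 * 2 ^ 80)) := by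
  have h0 : 0 ≤ U := le_trans (by positivity) ha
  have hD := kbD_cont U
  have hi' : ((i + 1 : ℕ) : ℝ) ≤ 200 := by exact_mod_cast hi
  have hE := (le_div_iff₀ iv_pos).2 (le_kbL hr (i + 1))
  rw [show ((i + 1 : ℕ) : ℝ) * ((j + 1) / 4000) = (j + 1) / 20 * ((i + 1 : ℕ) / 200) by ring] at hE
  have e1 : ((Nat.sub 200 i : ℕ) : ℝ) = 200 - i := Nat.cast_sub hi.le
  have e2 : ((Nat.sub 200 (i + 1) : ℕ) : ℝ) = 200 - (i + 1 : ℕ) := Nat.cast_sub hi
  have e3 : ((Nat.sub 399 (Nat.mul 2 i) : ℕ) : ℝ) = 399 - 2 * i := by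
    rw [← Nat.cast_ofNat (R := ℝ) (n := 2), ← Nat.cast_mul]
    exact Nat.cast_sub (show 2 * i ≤ 399 by omega)
  have hm : ∀ s ∈ Set.Icc ((i : ℝ) / 200) (((i + 1 : ℕ) : ℝ) / 200),
      kbD U s * (1 + Real.cos (y * s)) ≤ 2 * (U * (((kbL r (i + 1)).add 1 : ℕ) / 2 ^ 80) *
        (kbQ j q q' i (i + 1) / (32000000000 * 2 ^ 80))) * (1 - s) := by
    intro s hs
    have h1 := kb_cell (Q := kbQ j q q' i (i + 1) / (32000000000 * 2 ^ 80)) h0 hb
      (by positivity) hs.1 hs.2 (by linarith) hE (kbHi_spec ha hs.2 hq) (kbLo_spec h0 hb hs.1 hq')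
      (by positivity) (by
        rw [le_div_iff₀ (by positivity), kbQ, iv_sub]
        refine le_trans (le_of_eq ?_) (le_max_left _ _)
        simp only [iv_add, iv_mul, iv_ONE, e1, e2]
        simp only [iv_sub, kbB, iv_add, iv_mul, Nat.cast_ofNat, Nat.cast_one]
        have m1 : ∀ x : ℝ, max (x / 40000) 0 = max x 0 / 40000 := fun x => by
          rw [← max_div_div_right (by norm_num : (0 : ℝ) ≤ 40000), zero_div]
        generalize ((i + 1 : ℕ) : ℝ) = k
        rw [show 2 * (k / 200) + 2 * (k / 200) ^ 2 - 1 = (400 * k + 2 * (k * k) - 40000) / 40000 by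
          ring, show 1 - (2 * (k / 200) + 2 * (k / 200) ^ 2) =
          (40000 - (400 * k + 2 * (k * k))) / 40000 by ring, m1, m1]
        have := iv_pos
        generalize (2 : ℝ) ^ 80 = S at *
        field_simp
        ring)
    have h2 : 0 ≤ U * (((kbL r (i + 1)).add 1 : ℕ) / 2 ^ 80) *
        (kbQ j q q' i (i + 1) / (32000000000 * 2 ^ 80)) * (1 - s) :=
      mul_nonneg (by positivity) (by linarith [hs.2])
    have h3 := Real.neg_one_le_cos (y * s)
    have h4 := Real.cos_le_one (y * s)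
    calc _ ≤ _ := mul_le_mul_of_nonneg_right h1 (by linarith)
      _ ≤ _ := mul_le_mul_of_nonneg_left (show 1 + Real.cos (y * s) ≤ 2 by linarith) h2
      _ = _ := by ring
  refine (intervalIntegral.integral_mono_on (by push_cast; linarith)
    (Continuous.intervalIntegrable (by fun_prop) _ _)
    (Continuous.intervalIntegrable (by fun_prop) _ _) hm).trans (le_of_eq ?_)
  rw [intervalIntegral.integral_const_mul, intervalIntegral.integral_sub
    (Continuous.intervalIntegrable (by fun_prop) _ _)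
    (Continuous.intervalIntegrable (by fun_prop) _ _), integral_id, intervalIntegral.integral_const,
    kbT, iv_mul, iv_mul, e3, smul_eq_mul]
  change _ = U * (((kbL r (i + 1)).add 1 : ℕ) * (kbQ j q q' i (i + 1) : ℝ) * _ / _)
  have := iv_pos
  generalize (2 : ℝ) ^ 80 = S at *
  generalize (((kbL r (i + 1)).add 1 : ℕ) : ℝ) = A
  push_cast
  field_simp
  ring

theorem kbS_eq (j r q q' n : ℕ) :
    (kbS j r q q' n : ℝ) = ∑ i ∈ Finset.range n, (kbT j r q q' i : ℝ) := by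
  induction n with
  | zero => simp [kbS]
  | succ k ih => rw [Finset.sum_range_succ, ← ih, ← iv_add]; rfl

theorem kbAll_spec {n : ℕ} (h : kbAll n = true) : ∀ j < n, kbRow j = true := by
  induction n with
  | zero => simp
  | succ k ih =>
    have h' := Bool.and_eq_true_iff.1 (show (kbRow k && kbAll k) = true from h)
    intro j hj
    rcases Nat.lt_succ_iff_lt_or_eq.1 hj with h1 | rfl
    · exact ih h'.2 j h1
    · exact h'.1

/-- With `h s = g1 s * (exp (U s) - 1)`: by parts twice, `-y ^ 2 ∫ h cos = U + ∫ h'' cos ≤ U + ∫ |h''|`,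
`h'' / U = exp (U s) (U g1 + 2 g1') + (exp (U s) - 1) / U * g1''`.  True values of
`1 + ∫ |h''| / U`: `3.11, 3.41, 3.97, 4.94, 6.66, 9.86, 15.98` at `U = 0, 1, .., 6` (margin 6 percent).
Kernel check on cells in `U` and slices in `s` (at most 10 seconds), or any other proof. -/
theorem RF_deep2 {U : ℝ} (h0 : 0 ≤ U) (h6 : U ≤ 6) (y : ℝ) :
    (RF 0 y - RF (-U) y) * y ^ 2 ≤ jB U := by
  obtain ⟨j, hj, ha, hb⟩ : ∃ j : ℕ, j < 120 ∧ (j : ℝ) / 20 ≤ U ∧ U ≤ (j + 1) / 20 := by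
    rcases h6.eq_or_lt with h | h
    · exact ⟨119, by norm_num, by rw [h]; norm_num, by rw [h]; norm_num⟩
    · have h1 := Nat.floor_le (show 0 ≤ 20 * U by linarith)
      have h2 := Nat.lt_floor_add_one (20 * U)
      exact ⟨⌊20 * U⌋₊, (Nat.floor_lt (by linarith)).2 (by push_cast; linarith), by linarith,
        by linarith⟩
  have hc := ble (kbAll_spec kb_check j hj)
  have hr := le_eHi (n := (j.add 1).mul 250000000) (by
    show (j + 1) * 250000000 ≤ 999000000000000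
    omega)
  have hq := nLo_le (j.mul 250000000)
  have hq' := le_nHi ((j.add 1).mul 250000000)
  have hl := eLo_le (j.mul 31000000000)
  have e1 : (((j.add 1).mul 250000000 : ℕ) : ℝ) / E12 = (j + 1) / 4000 := by
    rw [iv_mul, iv_add, cE12]; push_cast; ring
  have e2 : ((j.mul 250000000 : ℕ) : ℝ) / E12 = j / 4000 := by
    rw [iv_mul, cE12]; push_cast; ring
  have e3 : ((j.mul 31000000000 : ℕ) : ℝ) / E12 = 31 / 50 * (j / 20) := by
    rw [iv_mul, cE12]; push_cast; ring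
  rw [e1] at hr hq'
  rw [e2] at hq
  rw [e3] at hl
  have hD := kbD_cont U
  have h1 := intervalIntegral.sum_integral_adjacent_intervals (μ := MeasureTheory.volume)
    (f := fun s => kbD U s * (1 + Real.cos (y * s))) (a := fun i : ℕ => (i : ℝ) / 200) (n := 200)
    fun _ _ => Continuous.intervalIntegrable (by fun_prop) _ _
  have h2 := Finset.sum_le_sum fun i hi => kb_slice ha hb (Finset.mem_range.1 hi) hr hq hq' y
  rw [h1, ← Finset.mul_sum, ← Finset.sum_div, ← kbS_eq] at h2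
  simp only [iv_mul, iv_add, iv_ONE, Nat.cast_ofNat] at hc
  have h3 : Real.exp (31 / 50 * (j / 20)) ≤ Real.exp (31 / 50 * U) :=
    Real.exp_le_exp.2 (by linarith)
  have h4 := mul_le_mul_of_nonneg_right h3 iv_pos.le
  norm_num only [Nat.cast_zero, zero_div, Nat.cast_ofNat, div_self] at h2
  rw [kb_parts, jB]
  refine (add_le_add_right (h2.trans (mul_le_mul_of_nonneg_left
    (c := 93 / 100 + 37 / 100 * Real.exp (31 / 50 * U)) ?_ h0)) _).trans (le_of_eq (by ring))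
  rw [div_le_iff₀ (by norm_num)]
  norm_num at hc h4 hl ⊢
  linarith

theorem RR_deep2 {T u : ℝ} (hT : 0 < T) (hu : 0 ≤ u) (h6 : u * T ≤ 6) (y : ℝ) :
    (RR T 0 y - RR T (-u) y) * y ^ 2 ≤ jB (u * T) / T := by
  have h := RF_deep2 (mul_nonneg hu hT.le) h6 (y * T)
  rw [le_div_iff₀ hT, RR, RR, zero_mul, neg_mul]
  linarith

end Pool.Agent.Lib.MP_778b46_nt.GX
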