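import Pool.Agent.Lib.MP_778b46_nt.GX.GmG
import Pool.Agent.Lib.MP_778b46_nt.GX.Ce1G
import Pool.Agent.Lib.MP_778b46_nt.GX.Ka
import Pool.Agent.Lib.MP_778b46_nt.GX.Kb

/- Family inequalities with a piecewise linear kernel, class inequalities with deep zeros. -/

namespace Pool.Agent.Lib.MP_778b46_nt.GX

open Finset
open Pool.Agent.Lib.MP_e97e2b_nt.Ln (cut)

/-- A sum of triangles with knots `p.1` and coefficients `p.2`. -/
noncomputable def Zt (kn : List (ℝ × ℝ)) (t : ℝ) : ℝ :=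
  (kn.map fun p => p.2 * max (p.1 - t) 0).sum

/-- The cosine transform of `Zt`. -/
noncomputable def Kt (kn : List (ℝ × ℝ)) (y : ℝ) : ℝ :=
  if y = 0 then (kn.map fun p => p.2 * p.1 ^ 2 / 2).sum
  else (kn.map fun p => p.2 * (1 - Real.cos (y * p.1))).sum / y ^ 2

/-- The result of a scan over all heights. -/
def Scan (kn : List (ℝ × ℝ)) (T c k1 k2 cs : ℝ) : Prop :=
  ∀ y, Kt kn y - c ≤ k1 * RR T 0 y ∨
    ((Kt kn y - c) * (y ^ 2 + 10 / T ^ 2) ≤ k2 ∧ cs ≤ y ^ 2 + 10 / T ^ 2)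

theorem Zt_cons (p : ℝ × ℝ) (kn : List (ℝ × ℝ)) (t : ℝ) :
    Zt (p :: kn) t = p.2 * max (p.1 - t) 0 + Zt kn t := by simp [Zt]

theorem Zt_cont (kn : List (ℝ × ℝ)) : Continuous (Zt kn) := by
  induction kn with
  | nil => exact continuous_const.congr fun t => by simp [Zt]; rfl
  | cons p kn ih =>
    have : Continuous fun t : ℝ => p.2 * max (p.1 - t) 0 + Zt kn t := by fun_prop
    exact this.congr fun t => (Zt_cons p kn t).symm

theorem Kt_one {c T : ℝ} (h0 : 0 ≤ c) (h1 : c ≤ T) (y : ℝ) :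
    ∫ t in (0 : ℝ)..T, max (c - t) 0 * Real.cos (y * t) =
      if y = 0 then c ^ 2 / 2 else (1 - Real.cos (y * c)) / y ^ 2 := by
  have hc : Continuous fun t : ℝ => max (c - t) 0 * Real.cos (y * t) := by fun_prop
  rw [← intervalIntegral.integral_add_adjacent_intervals (b := c) (hc.intervalIntegrable _ _)
    (hc.intervalIntegrable _ _)]
  have e1 : ∫ t in c..T, max (c - t) 0 * Real.cos (y * t) = ∫ t in c..T, (0 : ℝ) := by
    refine intervalIntegral.integral_congr fun t ht => ?_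
    rw [Set.uIcc_of_le h1] at ht
    simp only [max_eq_right (sub_nonpos.2 ht.1), zero_mul]
  have e2 : ∫ t in (0 : ℝ)..c, max (c - t) 0 * Real.cos (y * t) =
      ∫ t in (0 : ℝ)..c, (c - t) * Real.cos (y * t) := by
    refine intervalIntegral.integral_congr fun t ht => ?_
    rw [Set.uIcc_of_le h0] at ht
    simp only [max_eq_left (sub_nonneg.2 ht.2)]
  rw [e1, e2, intervalIntegral.integral_zero, add_zero]
  split_ifs with hy
  · have h : ∀ t ∈ Set.uIcc 0 c, HasDerivAt (fun t : ℝ => -((c - t) * (c - t) / 2))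
        ((c - t) * Real.cos (y * t)) t := fun t _ => by
      refine (((((hasDerivAt_id t).const_sub c).mul ((hasDerivAt_id t).const_sub c)).div_const
        2).neg).congr_deriv ?_
      simp only [id, hy, zero_mul, Real.cos_zero]
      ring
    rw [intervalIntegral.integral_eq_sub_of_hasDerivAt h (Continuous.intervalIntegrable
      (by fun_prop) _ _)]
    ring
  · have h : ∀ t ∈ Set.uIcc 0 c, HasDerivAt
        (fun t : ℝ => (c - t) * Real.sin (y * t) / y - Real.cos (y * t) / y ^ 2)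
        ((c - t) * Real.cos (y * t)) t := fun t _ => by
      have b : HasDerivAt (fun t => y * t) y t := by simpa using (hasDerivAt_id t).const_mul y
      refine (((((hasDerivAt_id t).const_sub c).mul b.sin).div_const y).sub
        (b.cos.div_const (y ^ 2))).congr_deriv ?_
      simp only [id]
      field_simp
      ring
    rw [intervalIntegral.integral_eq_sub_of_hasDerivAt h (Continuous.intervalIntegrable
      (by fun_prop) _ _)]
    simp only [sub_self, zero_mul, mul_zero, Real.sin_zero, Real.cos_zero, zero_div]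
    ring

theorem Kt_int {kn : List (ℝ × ℝ)} {T : ℝ} (h : ∀ p ∈ kn, 0 ≤ p.1 ∧ p.1 ≤ T) (y : ℝ) :
    Kt kn y = ∫ t in (0 : ℝ)..T, Zt kn t * Real.cos (y * t) := by
  induction kn with
  | nil => simp [Kt, Zt]
  | cons p kn ih =>
    have k := ih fun q hq => h q (List.mem_cons_of_mem _ hq)
    have hp := h p List.mem_cons_self
    have hc := Zt_cont kn
    have e : ∫ t in (0 : ℝ)..T, Zt (p :: kn) t * Real.cos (y * t) =
        p.2 * (∫ t in (0 : ℝ)..T, max (p.1 - t) 0 * Real.cos (y * t)) +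
          ∫ t in (0 : ℝ)..T, Zt kn t * Real.cos (y * t) := by
      rw [← intervalIntegral.integral_const_mul,
        ← intervalIntegral.integral_add (Continuous.intervalIntegrable (by fun_prop) _ _)
          (Continuous.intervalIntegrable (by fun_prop) _ _)]
      refine intervalIntegral.integral_congr fun t _ => ?_
      simp only [Zt_cons]
      ring
    rw [e, ← k, Kt_one hp.1 hp.2]
    simp only [Kt, List.map_cons, List.sum_cons]
    split_ifs <;> ring

theorem Kt_le {kn : List (ℝ × ℝ)} {T : ℝ} (hT : 0 ≤ T) (h : ∀ p ∈ kn, 0 ≤ p.1 ∧ p.1 ≤ T)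
    (hZ : ∀ t, 0 ≤ t → t ≤ T → 0 ≤ Zt kn t) (y : ℝ) : Kt kn y ≤ Kt kn 0 := by
  have := Zt_cont kn
  rw [Kt_int h, Kt_int h]
  refine intervalIntegral.integral_mono_on hT (Continuous.intervalIntegrable (by fun_prop) _ _)
    (Continuous.intervalIntegrable (by fun_prop) _ _) fun t ht => ?_
  rw [zero_mul, Real.cos_zero]
  exact mul_le_mul_of_nonneg_left (Real.cos_le_one _) (hZ t ht.1 ht.2)

/-- `Zt` is affine between knots. -/
theorem Zt_ge {kn : List (ℝ × ℝ)} {u v t m : ℝ} (h : ∀ p ∈ kn, p.1 ≤ u ∨ v ≤ p.1) (h1 : u ≤ t)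
    (h2 : t ≤ v) (a1 : m ≤ Zt kn u) (a2 : m ≤ Zt kn v) : m ≤ Zt kn t := by
  have k : (v - u) * Zt kn t = (v - t) * Zt kn u + (t - u) * Zt kn v := by
    clear a1 a2
    induction kn with
    | nil => simp [Zt]
    | cons p kn ih =>
      have k := ih fun q hq => h q (List.mem_cons_of_mem _ hq)
      rw [Zt_cons, Zt_cons, Zt_cons]
      rcases h p List.mem_cons_self with hp | hp
      · rw [max_eq_right (by linarith), max_eq_right (by linarith), max_eq_right (by linarith)]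
        linarith
      · rw [max_eq_left (by linarith), max_eq_left (by linarith), max_eq_left (by linarith)]
        linarith
  rcases (h1.trans h2).eq_or_lt with e | e
  · rwa [le_antisymm h2 (e ▸ h1)]
  have k1 := mul_le_mul_of_nonneg_left a1 (sub_nonneg.2 h2)
  have k2 := mul_le_mul_of_nonneg_left a2 (sub_nonneg.2 h1)
  refine le_of_mul_le_mul_left ?_ (sub_pos.2 e)
  linarith

theorem Scan.cap {kn : List (ℝ × ℝ)} {T c k1 k2 cs α x : ℝ} (h : Scan kn T c k1 k2 cs) (hT : 0 < T)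
    (hk1 : 0 ≤ k1) (hcs : 0 < cs) (hα : 0 ≤ α) (hx : 0 ≤ x) (h1 : α * k1 * (1 + x * T / 2) ≤ 2)
    (h2 : α * k2 * (cs + x ^ 2) ≤ 2 * x * cs) (y : ℝ) : α * (Kt kn y - c) ≤ 2 * RR T x y := by
  have r0 := RR_nonneg hT.le hx y
  rcases h y with h | ⟨h, h'⟩
  · have p : 0 < 1 + x * T / 2 := by positivity
    have k1' := mul_le_mul_of_nonneg_left (RR_lower hT.le hx y) (mul_nonneg hα hk1)
    have k2' := mul_le_mul_of_nonneg_left h hα
    have k3 := mul_le_mul_of_nonneg_right h1 r0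
    linarith
  · rcases le_total (Kt kn y - c) 0 with q | q
    · nlinarith [mul_nonneg hα (neg_nonneg.2 q)]
    have r1 := RR_far hT hx y
    have p : 0 < x ^ 2 + y ^ 2 + 10 / T ^ 2 := by positivity
    have k1' : (Kt kn y - c) * cs ≤ k2 := (mul_le_mul_of_nonneg_left h' q).trans h
    have k2' := mul_le_mul_of_nonneg_left k1' (mul_nonneg hα (sq_nonneg x))
    have k3 := mul_le_mul_of_nonneg_left h (mul_nonneg hα hcs.le)
    have k4 : α * (Kt kn y - c) * (x ^ 2 + y ^ 2 + 10 / T ^ 2) * cs ≤ 2 * x * cs := by linarith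
    have k5 := le_of_mul_le_mul_right k4 hcs
    exact le_of_mul_le_mul_right (by linarith) p

theorem RL_smul (c : ℝ) {g : ℝ → ℝ} (hg : Continuous g) (T x y : ℝ) :
    RL (fun t => c * g t) T x y = c * RL g T x y := by
  rw [RL_eq hg, RL_eq (by fun_prop), ← intervalIntegral.integral_const_mul]
  exact intervalIntegral.integral_congr fun t _ => by ring

theorem Adm.smul {g : ℝ → ℝ} {T a c : ℝ} (h : Adm g T a) (hc : 0 ≤ c) :
    Adm (fun t => c * g t) T a := by
  refine ⟨h.1, h.2, ?_, fun t h0 h1 => mul_nonneg hc (h.4 t h0 h1), fun x y hx => ?_⟩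
  · obtain ⟨B, g1, g2, a1, a2, a3, a4, a5, a6⟩ := h.tst
    refine ⟨c * B, fun t => c * g1 t, fun t => c * g2 t, fun t => (a1 t).const_mul c,
      fun t => (a2 t).const_mul c, by fun_prop, by simp [a4], ?_, fun t h0 h1 => ?_⟩ <;>
      rw [abs_mul, abs_of_nonneg hc]
    exacts [mul_le_mul_of_nonneg_left a5 hc, mul_le_mul_of_nonneg_left (a6 t h0 h1) hc]
  · rw [RL_smul c h.cont]
    exact mul_nonneg hc (h.5 x y hx)

/-- `f = gT T l`, `k = η * gT T2 b`, `z = Zt kn - k`, slices `[i h, (i + 1) h]`, `T = N h`. -/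
theorem famK (psF psC : List MP) {φ h T T2 η l b d0 G C lo : ℝ} {N : ℕ} {kn : List (ℝ × ℝ)}
    {fh kl zl : ℕ → ℝ} {w : ℝ → ℝ → ℝ} {c : ℝ → ℝ} (hφ : 0 ≤ φ) (hh : 0 < h) (hN : T = N * h)
    (hT : 1 / 2 ≤ T) (hT' : T ≤ T2) (hT2 : T2 ≤ 8) (hη : 0 ≤ η) (hb : 0 ≤ b) (hb' : b ≤ 10)
    (hl0 : 0 ≤ l) (hl : l ≤ 10) (hlo : b ≤ lo) (hd : 0 < d0)
    (hkn : ∀ p ∈ kn, 0 ≤ p.1 ∧ p.1 ≤ T2)
    (hZ : ∀ t, T ≤ t → t ≤ T2 → η * gT T2 b t ≤ Zt kn t)
    (hs : ∀ i < N, 0 ≤ kl i ∧ 0 ≤ zl i ∧ (zl i = 0 ∨ φ < i * h) ∧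
      0 < kl i + zl i * ((i * h - φ) / ((i + 2) * h + φ)) ∧
      ∀ t, i * h ≤ t → t ≤ (i + 1) * h → gT T l t ≤ fh i ∧ kl i ≤ η * gT T2 b t ∧
        η * gT T2 b t + zl i ≤ Zt kn t)
    (hG : ∑ i ∈ range N, h * (fh i ^ 2 / (kl i + zl i * ((i * h - φ) / ((i + 2) * h + φ)))) + d0 ≤ G)
    (hC : η * φ / 2 + d0 ≤ C)
    (hw : WtJ (gT T l) T (φ / 2 + d0) l G C (η * φ / 2) lo (Kt kn) w c) :
    Ev φ psF psC fun _ _ _ _ _ _ D => (∀ i, lo ≤ D.lam i) → ∀ lone, D.FamJ l lone w c := by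
  have hT0 : 0 < T := by linarith
  have af : Adm (gT T l) T l := adm_gT hT (hT'.trans hT2) hl0
  have ag : Adm (gT T2 b) T2 b := adm_gT (hT.trans hT') hT2 hb
  have ak := ag.smul hη
  have ck := ak.cont
  have cZ := Zt_cont kn
  have cz : Continuous fun t => Zt kn t - η * gT T2 b t := cZ.sub ck
  have hrat : ∀ i : ℕ, (i * h - φ) / 2 / (((i + 1 : ℕ) : ℝ) * h - (i * h - φ) / 2) =
      (i * h - φ) / ((i + 2) * h + φ) := fun i => by
    have e : ((i + 1 : ℕ) : ℝ) * h - (i * h - φ) / 2 = ((i + 2) * h + φ) / 2 := by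
      push_cast
      ring
    rw [e, div_div_div_cancel_right₀ two_ne_zero]
  have hc : ∀ H : ℝ, 10 ≤ H → Cost φ H (cut (gT T l) T) (cut (fun t => η * gT T2 b t) T2)
      (∑ i ∈ range N, h * (fh i ^ 2 / (kl i + zl i * ((i * h - φ) / ((i + 2) * h + φ)))))
      fun y => ∫ t in (0 : ℝ)..T, (Zt kn t - η * gT T2 b t) * Real.cos (y * t) := fun H _ => by
    refine (cost_slices hφ H af ak cz N (fun i => i * h) fh kl zl
      (fun i => (i * h - φ) / 2) (by simp) hN.symm fun i hi => ?_).mono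
      (le_of_eq (sum_congr rfl fun i _ => ?_)) fun _ => le_rfl
    · have hi' : ((i : ℝ) + 1) * h ≤ T :=
        hN ▸ mul_le_mul_of_nonneg_right (by exact_mod_cast hi) hh.le
      have e : ((i + 1 : ℕ) : ℝ) * h = (i + 1) * h := by push_cast; rfl
      obtain ⟨a1, a2, a3, a4, a5⟩ := hs i hi
      refine ⟨by rw [e]; linarith, fun t h1 h2 => ?_, fun t h1 h2 => ?_, fun t h1 h2 => ?_,
        a1, a2, a3.imp_right fun e1 => ⟨by linarith, by linarith⟩, by rwa [hrat]⟩ <;> rw [e] at h2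
      · rw [cut, if_pos (h2.trans hi')]
        exact (a5 t h1 h2).1
      · rw [cut, if_pos (h2.trans (hi'.trans hT'))]
        exact (a5 t h1 h2).2.1
      · linarith [(a5 t h1 h2).2.2]
    · rw [hrat]
      push_cast
      ring
  have hG0 : 0 < G := by
    have : 0 ≤ ∑ i ∈ range N,
        h * (fh i ^ 2 / (kl i + zl i * ((i * h - φ) / ((i + 2) * h + φ)))) :=
      sum_nonneg fun i hi => mul_nonneg hh.le (div_nonneg (sq_nonneg _)
        (hs i (mem_range.1 hi)).2.2.2.1.le)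
    linarith
  refine evJ (C := C) (K := Kt kn) psF psC af ak hl hb' hc hd hG hG0 hφ
    (by rw [gT_zero]; linarith) (fun Γ Ω ι _ _ _ D a => ?_) ?_ hlo
  · have k1 := Fm_mono D a ck cZ hT' hZ
    have e1 : (fun y => RL (fun t => η * gT T2 b t) T2 0 y +
        ∫ t in (0 : ℝ)..T, (Zt kn t - η * gT T2 b t) * Real.cos (y * t)) =
        fun y => (∫ t in (0 : ℝ)..T, Zt kn t * Real.cos (y * t)) +
          ∫ t in T..T2, η * gT T2 b t * Real.cos (y * t) := by
      funext y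
      have c1 : Continuous fun t => η * gT T2 b t * Real.cos (y * t) := by fun_prop
      rw [RL_eq ck]
      simp only [zero_mul, neg_zero, Real.exp_zero, mul_one, sub_mul]
      rw [intervalIntegral.integral_sub (Continuous.intervalIntegrable (by fun_prop) _ _)
        (c1.intervalIntegrable _ _), ← intervalIntegral.integral_add_adjacent_intervals (b := T)
        (c1.intervalIntegrable _ _) (c1.intervalIntegrable _ _)]
      ring
    have e2 : Kt kn = fun y => (∫ t in (0 : ℝ)..T, Zt kn t * Real.cos (y * t)) +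
        ∫ t in T..T2, Zt kn t * Real.cos (y * t) := by
      funext y
      rw [Kt_int hkn, intervalIntegral.integral_add_adjacent_intervals
        (Continuous.intervalIntegrable (by fun_prop) _ _)
        (Continuous.intervalIntegrable (by fun_prop) _ _)]
    rw [e1, e2, Fm_add, Fm_add]
    linarith
  · simp only [gT_zero, mul_one]
    rwa [show φ / 2 * η = η * φ / 2 by ring]

/-- Local conditions on the value `t` of a class weight at `x`. -/
def WtE (φ T l b T0 a0 d0 G A M1 M2 x t : ℝ) : Prop :=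
  ∃ α e n0 n2 B : ℝ, 0 ≤ α ∧ (α = 0 ∨ e ≤ RR T (x - l) 0 - φ / 2 - d0) ∧
    (a0 < l → α * ((x - a0) ^ 2 + 10 / T0 ^ 2) ≤ M1 * (x - a0) ∧ α ≤ M2 * (x - a0)) ∧
    0 ≤ n0 ∧ 0 ≤ n2 ∧ (l ≤ x → α * (1 + (x - l) * T / 2) ≤ 2 - b * T) ∧
    (x < l → α ≤ 2 - b * T ∧ RR T (x - l) 0 - 5 / 12 * T ≤ n0 ∧ jB ((l - x) * T) / T ≤ n2) ∧
    φ / 2 + RR T0 (-a0) 0 + d0 - RR T0 (x - a0) 0 ≤ B ∧
    t * G ≤ 2 * α * e - A * α ^ 2 - 2 * (n0 * M1 + n2 * M2) * B

/-- `f = gT T l`, `k = gT T b`, and `g = gT T0 a0` pays for the zeros in `[a0, l)`. -/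
theorem clsE (psF psC : List MP) {φ T l b T0 a0 d0 G A M1 M2 : ℝ} {w : ℝ → ℝ}
    (hT : 1 / 2 ≤ T) (hT' : T ≤ 8) (hT0 : 1 / 2 ≤ T0) (hT0' : T0 ≤ 8) (hb : 0 ≤ b) (hbl : b ≤ l)
    (hl : l ≤ 5) (hbT : b * T ≤ 2) (ha : 0 ≤ a0) (ha' : a0 ≤ l) (h6 : (l - a0) * T ≤ 6)
    (hd : 0 < d0) (hG : RR T (-(2 * l - b)) 0 + d0 ≤ G) (hA : RR T (-b) 0 ≤ A) (hM1 : 0 ≤ M1)
    (hM2 : 0 ≤ M2) (hw : ∀ x, a0 ≤ x → WtE φ T l b T0 a0 d0 G A M1 M2 x (w x)) :
    Ev φ psF psC fun _ _ _ _ _ _ D => D.ClsS a0 w := by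
  classical
  have p : 0 < T := by linarith
  have p0 : 0 < T0 := by linarith
  have h1 := RR_pos (x := 2 * l - b) p (by linarith)
  have h2 := RR_pos p hb
  choose α e n0 n2 B a1 a2 a3 a4 a5 a6 a7 a8 a9 using hw
  refine evD psF psC (adm_gT hT hT' (hb.trans hbl)) (adm_gT hT hT' hb) (adm_gT hT0 hT0' ha)
    (by linarith) (by linarith) (by linarith) (fun H hH => cost_gT φ hT hT' hb hbl hl hH) hd hG
    (by linarith) (A := A) (by linarith) (by rw [RL_gT p, zero_sub]; linarith)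
    ⟨fun x => if h : a0 ≤ x then α x h else 0, fun x hx => ?_⟩
  simp only [dif_pos hx, RL_gT p, RL_gT p0, gT_zero, zero_sub, add_zero, mul_one]
  have c0 : 0 ≤ n0 x hx * M1 + n2 x hx * M2 :=
    add_nonneg (mul_nonneg (a4 x hx) hM1) (mul_nonneg (a5 x hx) hM2)
  refine ⟨a1 x hx, e x hx, _, B x hx, c0, (a2 x hx).imp_right fun q => by linarith,
    fun x' y hx' => ?_, by linarith [a8 x hx], a9 x hx⟩
  rw [dif_pos hx']
  have r0 := RR_nonneg p0.le (sub_nonneg.2 hx') y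
  have r1 := mul_nonneg c0 r0
  have r2 := RR_upper p.le hb hbT y
  have r3 := RR_nonneg p.le le_rfl y
  have b1 := a1 x hx
  have b2 := a1 x' hx'
  rcases le_or_gt l x with q | q
  · have s0 := RR_nonneg p.le (sub_nonneg.2 q) y
    have s1 := RR_lower p.le (sub_nonneg.2 q) y
    have s2 : α x hx * RR T (-b) y / 2 - RR T (x - l) y ≤ 0 := by
      rcases le_total (RR T (-b) y) 0 with u | u
      · nlinarith [mul_nonneg b1 (neg_nonneg.2 u)]
      · have k0 : 0 ≤ (x - l) * T := mul_nonneg (by linarith) p.le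
        have k5 := mul_le_mul_of_nonneg_right (a6 x hx q) u
        have k6 : (1 + (x - l) * T / 2) * (α x hx * RR T (-b) y) ≤
            (1 + (x - l) * T / 2) * (2 * RR T (x - l) y) := by linarith
        have k7 := le_of_mul_le_mul_left k6 (by linarith)
        linarith
    exact ⟨by nlinarith [mul_nonneg b2 s0], by nlinarith [mul_nonneg b2 (neg_nonneg.2 s2)]⟩
  · obtain ⟨c1, c2, c3⟩ := a7 x hx q
    obtain ⟨d1, d2⟩ := a3 x' hx' (hx.trans_lt q)
    have s1 := RR_deep0 p.le (sub_nonneg.2 q.le) y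
    have s2 := RR_deep2 p (sub_nonneg.2 q.le)
      ((mul_le_mul_of_nonneg_right (by linarith) p.le).trans h6) y
    rw [neg_sub] at s1 s2
    have key : α x' hx' * (RR T 0 y - RR T (x - l) y) ≤
        (n0 x hx * M1 + n2 x hx * M2) * RR T0 (x' - a0) y := by
      rcases le_total (RR T 0 y - RR T (x - l) y) 0 with u | u
      · nlinarith [mul_nonneg b2 (neg_nonneg.2 u)]
      have pp : 0 < (x' - a0) ^ 2 + y ^ 2 + 10 / T0 ^ 2 := by positivity
      have k1 := mul_le_mul_of_nonneg_left (RR_far p0 (sub_nonneg.2 hx') y) c0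
      have k2 := mul_le_mul d1 (s1.trans c2) u (mul_nonneg hM1 (sub_nonneg.2 hx'))
      have k3 := mul_le_mul d2 (s2.trans c3) (mul_nonneg u (sq_nonneg y))
        (mul_nonneg hM2 (sub_nonneg.2 hx'))
      exact le_of_mul_le_mul_right (by linarith) pp
    have s3 : α x hx * RR T (-b) y / 2 ≤ RR T 0 y := by
      rcases le_total (RR T (-b) y) 0 with u | u
      · nlinarith [mul_nonneg b1 (neg_nonneg.2 u)]
      · linarith [mul_le_mul_of_nonneg_right c1 u]
    exact ⟨le_trans (mul_le_mul_of_nonneg_left (by linarith) b2) key,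
      le_trans (mul_le_mul_of_nonneg_left (by linarith) b2) key⟩

end Pool.Agent.Lib.MP_778b46_nt.GX
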