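import Pool.Agent.Lib.MP_778b46_nt.GX.Kc

/- Kernel check of the scan over all heights. -/

namespace Pool.Agent.Lib.MP_778b46_nt.GX.Ck

open Pool.Agent.Lib.MP_6cad4c_al

/-- Data of a scan: `θ`, the two constants, the start, and segments (test, step, number of cells). -/
structure SD where
  th : ℕ
  k1 : ℕ
  k2 : ℕ
  ys : ℕ
  seg : List (Bool × ℕ × ℕ)

/-- Knots `(n, p, q)`: position `n * h`, coefficient `p - q`. -/
noncomputable def knR (h : ℕ) (kn : List (ℕ × ℕ × ℕ)) : List (ℝ × ℝ) :=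
  kn.map fun e => (r6 (e.1.mul h), r6 e.2.1 - r6 e.2.2)

def kdD (a b : ℕ) : ℕ := (a.sub b).add (b.sub a)

def kdE (W : ℕ) : ℕ :=
  (W.mul ((W.mul ((W.mul 728000000000000000000000000).add
    138378240000000000000000000000000000000000000000000000000000000000000000000000000)).add
    3719607091200000000000000000000000000000000000000000000000000000000000000000000000000000000000000000000000000000000000000000000000000)).add
    1428329123020800000000000000000000000000000000000000000000000000000000000000000000000000000000000000000000000000000000000000000000000000000000000000000000000000000000000000000000000000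

def kdO (W : ℕ) : ℕ :=
  (W.mul ((W.mul (W.add 384384000000000000000000000000000000000000000000000000)).add
    30996725760000000000000000000000000000000000000000000000000000000000000000000000000000000000000000000000000)).add
    178541140377600000000000000000000000000000000000000000000000000000000000000000000000000000000000000000000000000000000000000000000000000000000000000000000000000

def kdS (a : ℕ) : ℕ := (a.mul a).div
  1020062041834683810258616320000000000000000000000000000000000000000000000000000000000000000000000000000000000000000000000000000000000000000000000000000000000000000000000000000000000000000000000000000000000000000000000000000000000000000000000000000000000000000000000000000000000000000000000000000000000000000000000000000000000000000000000000000000000000000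

def kdW (W : ℕ) : ℕ := kdS (kdD (kdE (W.mul W)) (W.mul (kdO (W.mul W))))

def kdU (U : ℕ) : ℕ := kdW (U.mul U)

/-- Approximation of `10 ^ 12 * (1 - cos (X / 10 ^ 12))`. -/
def kdV (X : ℕ) : ℕ := kdU (kdD (X.mod 6283185307180) 3141592653590)

noncomputable def kdSum (f : ℕ → ℕ → ℕ → ℕ) (kn : List (ℕ × ℕ × ℕ)) : ℕ :=
  List.rec (motive := fun _ => ℕ) 0 (fun e _ ih => (f e.1 e.2.1 e.2.2).add ih) kn

def kdT (p q v : ℕ) : ℕ := (p.mul v).add (q.mul (Nat.sub 2000000000000 v))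

/-- Lower bound for `10 ^ 36 * e ^ 6 * RF 0 e`, `e = E / 10 ^ 12`. -/
def kdN (E v s : ℕ) : ℕ :=
  ((((E.mul E).mul 60000000000000).add (v.mul 120000000000000000000000000)).add
    ((E.mul s).mul 120000000000000)).sub
  (((((E.mul E).mul 30).mul (v.add 2000)).add 240000000000000000000000000000).add
    (E.mul 120000000240000000000000000))

def kdA (k1 T E : ℕ) : ℕ :=
  ((k1.mul 8000000000000000000000000000000000000000000).mul
    (kdN E (kdV E) (kdV (E.add 4712388980385)))).div (T.mul ((E.mul E).mul (E.mul E)))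

def kdB (k2 Z : ℕ) : ℕ :=
  ((k2.mul 8000000000000000000000000).mul (Z.mul Z)).div ((Z.mul Z).add 10000000000000000000000000)

/-- The test at a node; `a` and `b` collect the terms which do not depend on the node. -/
noncomputable def kdNode (u : Bool) (k1 k2 h T cn st a b : ℕ) (kn : List (ℕ × ℕ × ℕ)) (Y : ℕ) :
    Bool :=
  Nat.ble Y 1000000000 && Nat.ble
    (((kdSum (fun n p q => kdT p q (kdV ((Y.mul h).mul n))) kn).mul 8000000000000).add a)
    ((((Y.mul Y).mul cn).mul 4).add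
      (b.add (cond u (kdA k1 T (Y.mul T)) (kdB k2 ((Y.sub st).mul T)))))

noncomputable def kdAll (f : ℕ → Bool) (Y st n : ℕ) : Bool :=
  Nat.rec (motive := fun _ => Bool) (f Y) (fun j ih => f (Y.add (st.mul j.succ)) && ih) n

noncomputable def kdM (u : Bool) (k1 h T cn : ℕ) (kn : List (ℕ × ℕ × ℕ)) : ℕ :=
  ((kdSum (fun n p q => (p.add q).mul ((n.mul h).mul (n.mul h))) kn).add cn).add
    (cond u ((k1.mul T).mul 1200000) 0)

noncomputable def kdSeg (s : SD) (h T cn : ℕ) (kn : List (ℕ × ℕ × ℕ)) (g : Bool × ℕ × ℕ) (Y : ℕ) :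
    Bool :=
  Nat.ble 1 g.2.1 && kdAll (kdNode g.1 s.k1 s.k2 h T cn g.2.1
    (((kdSum (fun _ p q => p.add q) kn).mul 16000000000000000).add
      ((kdM g.1 s.k1 h T cn kn).mul (g.2.1.mul g.2.1)))
    ((kdSum (fun _ _ q => q) kn).mul 16000000000000000000000000) kn) Y g.2.1 g.2.2

noncomputable def kdTail (k2 T cn : ℕ) (kn : List (ℕ × ℕ × ℕ)) (Y : ℕ) : Bool :=
  Nat.ble ((((kdSum (fun _ p _ => p) kn).mul 4000000000000000000000000).sub ((Y.mul Y).mul cn)).mul
      (((Y.mul T).mul (Y.mul T)).add 10000000000000000000000000))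
    ((k2.mul 2000000000000000000000000).mul ((Y.mul T).mul (Y.mul T)))

noncomputable def kdSegs (s : SD) (h T cn : ℕ) (kn : List (ℕ × ℕ × ℕ)) (l : List (Bool × ℕ × ℕ)) :
    ℕ → Bool :=
  List.rec (motive := fun _ => ℕ → Bool) (kdTail s.k2 T cn kn)
    (fun g _ ih Y => kdSeg s h T cn kn g Y && ih (Y.add (g.2.1.mul g.2.2))) l

/-- The test; `T` is the length, `c = cn / (2 * 10 ^ 18)` the constant to subtract. -/
noncomputable def SD.ok (s : SD) (h T cn : ℕ) (kn : List (ℕ × ℕ × ℕ)) : Bool :=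
  Nat.ble 1 s.ys && Nat.ble
    (((kdSum (fun n p _ => p.mul ((n.mul h).mul (n.mul h))) kn).mul 24000000000000000000).add
      ((s.k1.mul T).mul ((s.ys.mul T).mul (s.ys.mul T))))
    ((((kdSum (fun n _ q => q.mul ((n.mul h).mul (n.mul h))) kn).add cn).mul
      24000000000000000000).add ((s.k1.mul T).mul 20000000000000000000000000)) &&
  kdSegs s h T cn kn s.seg s.ys

theorem kdD_eq (a b : ℕ) : (kdD a b : ℝ) = |(a : ℝ) - b| := by
  rw [kdD, iv_add, iv_sub, iv_sub, ← neg_sub (a : ℝ), max_zero_add_max_neg_zero_eq_abs_self]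

theorem kd_taylor {z : ℝ} (h : |z| ≤ 1.5708) : |Real.cos z - (1 - z ^ 2 / 2 + z ^ 4 / 24 -
    z ^ 6 / 720 + z ^ 8 / 40320 - z ^ 10 / 3628800 + z ^ 12 / 479001600 -
      z ^ 14 / 87178291200)| ≤ 1.4 / 10 ^ 10 := by
  have hn : ‖(z : ℂ) * Complex.I‖ = |z| := by simp
  have h1 := Complex.exp_bound' (x := z * Complex.I) (n := 16) (by
    rw [hn, div_le_iff₀ (by positivity)]
    norm_num
    linarith)
  have h2 := (Complex.abs_re_le_norm _).trans h1
  have h3 : |z| ^ 16 ≤ 1.5708 ^ 16 := pow_le_pow_left₀ (abs_nonneg z) h 16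
  rw [hn, Complex.sub_re, Complex.exp_ofReal_mul_I_re] at h2
  refine le_trans (le_of_eq ?_) (h2.trans ?_)
  · congr 2
    simp [Finset.sum_range_succ, mul_pow, ← Complex.ofReal_pow, Nat.factorial]
    ring
  · norm_num [Nat.factorial] at h3 ⊢
    linarith

theorem kdU_spec {U : ℕ} (h : U ≤ 3141592653590) :
    |(kdU U : ℝ) / 10 ^ 12 - (1 + Real.cos (U / 10 ^ 12))| ≤ 1 / 10 ^ 9 := by
  have hU : (U : ℝ) ≤ 3141592653590 := by exact_mod_cast h
  have h0 : (0 : ℝ) ≤ U := Nat.cast_nonneg U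
  obtain ⟨z, hz⟩ : ∃ z : ℝ, (U : ℝ) = 2 * 10 ^ 12 * z := ⟨U / (2 * 10 ^ 12), by field_simp⟩
  have h1 := kd_taylor (z := z) (abs_le.2 ⟨by linarith, by linarith⟩)
  have e : (U : ℝ) / 10 ^ 12 = 2 * z := by rw [hz]; field_simp
  rw [e, Real.cos_two_mul]
  generalize ht : 1 - z ^ 2 / 2 + z ^ 4 / 24 - z ^ 6 / 720 + z ^ 8 / 40320 - z ^ 10 / 3628800 +
    z ^ 12 / 479001600 - z ^ 14 / 87178291200 = t at h1
  set a := kdD (kdE ((U.mul U).mul (U.mul U))) ((U.mul U).mul (kdO ((U.mul U).mul (U.mul U))))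
    with ha
  have e2 : (a : ℝ) * a = (87178291200 * (4 * 10 ^ 24) ^ 7) ^ 2 * t ^ 2 := by
    rw [ha, kdD_eq, abs_mul_abs_self, ← sq, ← mul_pow, ← ht]
    refine congrArg (· ^ 2) ?_
    simp only [kdE, kdO, iv_add, iv_mul, hz, Nat.cast_ofNat]
    ring
  have b1 : (kdU U : ℝ) ≤ 2 * 10 ^ 12 * t ^ 2 := (iv_div_le _ _).trans (le_of_eq (by
    rw [iv_mul, e2, Nat.cast_ofNat]
    ring))
  have b2 : 2 * 10 ^ 12 * t ^ 2 ≤ (kdU U : ℝ) + 1 :=
    le_trans (le_of_eq (by
      rw [iv_mul, e2, Nat.cast_ofNat]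
      ring)) (iv_le_div (a.mul a) _ (by norm_num))
  obtain ⟨c1, c2⟩ := abs_le.1 h1
  have c3 := Real.cos_le_one z
  have c4 := Real.neg_one_le_cos z
  have c5 : |Real.cos z ^ 2 - t ^ 2| ≤ 1.4 / 10 ^ 10 * 2.1 := by
    rw [sq_sub_sq, abs_mul, mul_comm]
    exact mul_le_mul h1 (abs_le.2 ⟨by linarith, by linarith⟩) (abs_nonneg _) (by norm_num)
  obtain ⟨c6, c7⟩ := abs_le.1 c5
  exact abs_le.2 ⟨by linarith, by linarith⟩

theorem kdV_spec {X : ℕ} (h : X ≤ 9000000000000000) :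
    |(kdV X : ℝ) / 10 ^ 12 - (1 - Real.cos (X / 10 ^ 12))| ≤ 1.7 / 10 ^ 9 := by
  obtain ⟨k, hk⟩ : ∃ k, k = X / 6283185307180 := ⟨_, rfl⟩
  obtain ⟨r, hr⟩ : ∃ r, r = X % 6283185307180 := ⟨_, rfl⟩
  have h1 : (X : ℝ) = 6283185307180 * k + r := by exact_mod_cast (by omega)
  have h2 : (k : ℝ) ≤ 1433 := by exact_mod_cast (by omega)
  have h0 : (0 : ℝ) ≤ k := Nat.cast_nonneg k
  have h3 := kdU_spec (U := kdD r 3141592653590) (by
    show r - 3141592653590 + (3141592653590 - r) ≤ _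
    omega)
  rw [kdD_eq, ← abs_of_pos (show (0 : ℝ) < 10 ^ 12 by positivity), ← abs_div, Real.cos_abs,
    abs_of_pos (show (0 : ℝ) < 10 ^ 12 by positivity), Nat.cast_ofNat] at h3
  have h4 := Real.abs_cos_sub_cos_le ((r - 3141592653590) / 10 ^ 12)
    (X / 10 ^ 12 - k * (2 * Real.pi) - Real.pi)
  rw [Real.cos_sub_pi, Real.cos_sub_nat_mul_two_pi] at h4
  have p1 := Real.pi_gt_d20
  have p2 := Real.pi_lt_d20
  have h5 := abs_le.1 (h4.trans (abs_le.2 (show -(0.7 / 10 ^ 9) ≤ _ ∧ _ ≤ (0.7 / 10 ^ 9 : ℝ) by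
    rw [h1]
    constructor <;> nlinarith)))
  have h6 := abs_le.1 h3
  rw [kdV, show X.mod 6283185307180 = r from hr.symm]
  exact abs_le.2 ⟨by linarith, by linarith⟩

theorem kdV_sin {X : ℕ} (h : X ≤ 8000000000000000) :
    (kdV (X.add 4712388980385) : ℝ) / 10 ^ 12 - 2 / 10 ^ 9 ≤ 1 - Real.sin (X / 10 ^ 12) := by
  have h1 := abs_le.1 (kdV_spec (X := X.add 4712388980385) (by show X + _ ≤ _; omega))
  have h2 := Real.abs_cos_sub_cos_le ((X + 4712388980385) / 10 ^ 12)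
    (X / 10 ^ 12 - Real.pi / 2 + 2 * Real.pi)
  rw [Real.cos_add_two_pi, Real.cos_sub_pi_div_two] at h2
  have p1 := Real.pi_gt_d20
  have p2 := Real.pi_lt_d20
  have h3 := abs_le.1 (h2.trans (abs_le.2 (show -(0.1 / 10 ^ 9) ≤ _ ∧ _ ≤ (0.1 / 10 ^ 9 : ℝ) by
    constructor <;> linarith)))
  rw [iv_add, Nat.cast_ofNat] at h1
  linarith

variable {h T cn k1 k2 : ℕ} {kn : List (ℕ × ℕ × ℕ)}

theorem kdSum_eq (f : ℕ → ℕ → ℕ → ℕ) (kn : List (ℕ × ℕ × ℕ)) :
    (kdSum f kn : ℝ) = (kn.map fun e => (f e.1 e.2.1 e.2.2 : ℝ)).sum := by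
  induction kn with
  | nil => simp [kdSum]
  | cons e t ih => rw [List.map_cons, List.sum_cons, ← ih, ← iv_add]; rfl

/-- The numerator of `Kt`. -/
noncomputable def kdP (h : ℕ) (kn : List (ℕ × ℕ × ℕ)) (y : ℝ) : ℝ :=
  ((knR h kn).map fun p => p.2 * (1 - Real.cos (y * p.1))).sum

theorem kdP_cons (e : ℕ × ℕ × ℕ) (y : ℝ) : kdP h (e :: kn) y =
    (r6 e.2.1 - r6 e.2.2) * (1 - Real.cos (y * r6 (e.1.mul h))) + kdP h kn y := by
  simp [kdP, knR]

theorem kdP_node (hkn : ∀ e ∈ kn, e.1.mul h ≤ 8000000) {Y : ℕ} (hY : Y ≤ 1000000000) :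
    10 ^ 18 * kdP h kn (r6 Y) + 2 * 10 ^ 12 * kdSum (fun _ _ q => q) kn ≤
      kdSum (fun n p q => kdT p q (kdV ((Y.mul h).mul n))) kn +
        2000 * kdSum (fun _ p q => p.add q) kn := by
  simp only [kdSum_eq]
  induction kn with
  | nil => simp [kdP, knR]
  | cons e t ih =>
    have h1 := ih fun a ha => hkn a (List.mem_cons_of_mem _ ha)
    have h2 := abs_le.1 (kdV_spec (X := (Y.mul h).mul e.1) (by
      have : Y * (e.1 * h) ≤ _ := Nat.mul_le_mul hY (hkn e List.mem_cons_self)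
      show Y * h * e.1 ≤ _
      rw [mul_assoc, mul_comm h]
      omega))
    have e1 : (((Y.mul h).mul e.1 : ℕ) : ℝ) / 10 ^ 12 = r6 Y * r6 (e.1.mul h) := by
      simp only [r6, iv_mul]
      ring
    rw [e1] at h2
    have h3 := le_max_left (2000000000000 - (kdV ((Y.mul h).mul e.1) : ℝ)) 0
    have p0 : (0 : ℝ) ≤ e.2.1 := Nat.cast_nonneg _
    have q0 : (0 : ℝ) ≤ e.2.2 := Nat.cast_nonneg _
    rw [kdP_cons]
    simp only [List.map_cons, List.sum_cons, kdT, iv_add, iv_mul, iv_sub, Nat.cast_ofNat] at h1 ⊢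
    generalize 1 - Real.cos (r6 Y * r6 (e.1.mul h)) = c at *
    unfold r6 at h1 ⊢
    nlinarith [mul_le_mul_of_nonneg_left h2.1 p0, mul_le_mul_of_nonneg_left h2.2 q0,
      mul_le_mul_of_nonneg_left h3 q0]

theorem kdP_le (y : ℝ) : 10 ^ 6 * kdP h kn y ≤ 2 * kdSum (fun _ p _ => p) kn := by
  simp only [kdSum_eq]
  induction kn with
  | nil => simp [kdP, knR]
  | cons e t ih =>
    have p0 : (0 : ℝ) ≤ e.2.1 := Nat.cast_nonneg _
    have q0 : (0 : ℝ) ≤ e.2.2 := Nat.cast_nonneg _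
    have c1 := Real.cos_le_one (y * r6 (e.1.mul h))
    have c2 := Real.neg_one_le_cos (y * r6 (e.1.mul h))
    rw [kdP_cons, List.map_cons, List.sum_cons]
    generalize Real.cos (y * r6 (e.1.mul h)) = c at *
    unfold r6
    nlinarith

theorem kdP_curv : Curv (fun y => -kdP h kn y)
    (kdSum (fun n p q => (p.add q).mul ((n.mul h).mul (n.mul h))) kn / 10 ^ 18) := by
  simp only [kdSum_eq]
  induction kn with
  | nil => simpa [kdP, knR] using curv_const 0
  | cons e t ih =>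
    have p0 := r6_nonneg e.2.1
    have q0 := r6_nonneg e.2.2
    have h1 : |r6 e.2.1 - r6 e.2.2| ≤ r6 e.2.1 + r6 e.2.2 := abs_le.2 ⟨by linarith, by linarith⟩
    have := (((curv_cos (r6 e.2.1 - r6 e.2.2) (r6 (e.1.mul h))).add
      (curv_const (-(r6 e.2.1 - r6 e.2.2)))).add ih).mono (add_le_add_left (add_le_add_left
        (mul_le_mul_of_nonneg_right h1 (sq_nonneg _)) _) _)
    convert this using 1
    · ext y
      rw [kdP_cons]
      ring
    · simp only [List.map_cons, List.sum_cons, iv_add, iv_mul, r6]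
      ring

theorem kd_K0 : 2 * 10 ^ 18 * Kt (knR h kn) 0 =
    kdSum (fun n p _ => p.mul ((n.mul h).mul (n.mul h))) kn -
      kdSum (fun n _ q => q.mul ((n.mul h).mul (n.mul h))) kn := by
  simp only [kdSum_eq, Kt, if_true]
  induction kn with
  | nil => simp [knR]
  | cons e t ih =>
    simp only [knR, List.map_cons, List.sum_cons, iv_mul, r6] at ih ⊢
    linear_combination ih

theorem kdA_le {Y : ℕ} (hY : Y ≤ 1000000000) (hT : 500000 ≤ T) (hT' : T ≤ 8000000) :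
    (kdA k1 T (Y.mul T) : ℝ) ≤ 8 * 10 ^ 30 * (r6 k1 * (r6 Y ^ 2 * RR (r6 T) 0 (r6 Y))) := by
  have T0 : (0 : ℝ) < T := by exact_mod_cast (by omega)
  have hR := RF_zero_nonneg (r6 Y * r6 T)
  have hE : Y.mul T ≤ 8000000000000000 := Nat.mul_le_mul hY hT'
  have h1 := abs_le.1 (kdV_spec (X := Y.mul T) (by omega))
  have h2 := kdV_sin hE
  have h3 := RF_axis (r6 Y * r6 T)
  have e : ((Y.mul T : ℕ) : ℝ) = 10 ^ 12 * (r6 Y * r6 T) := by
    simp only [r6, iv_mul]
    ring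
  rw [e, mul_div_cancel_left₀ _ (by positivity)] at h1 h2
  have e0 : 0 ≤ r6 Y * r6 T := mul_nonneg (r6_nonneg _) (r6_nonneg _)
  have h4 : (kdN (Y.mul T) (kdV (Y.mul T)) (kdV ((Y.mul T).add 4712388980385)) : ℝ) ≤
      10 ^ 36 * (RF 0 (r6 Y * r6 T) * (r6 Y * r6 T) ^ 6) := by
    rw [kdN, iv_sub]
    refine max_le ?_ (by positivity)
    rw [h3]
    generalize kdV (Y.mul T) = v at *
    generalize kdV ((Y.mul T).add 4712388980385) = s at *
    simp only [iv_add, iv_mul (Y.mul T), iv_mul ((Y.mul T).mul _), iv_mul v,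
      iv_mul (((Y.mul T).mul _).mul _), e, Nat.cast_ofNat]
    generalize r6 Y * r6 T = x at *
    nlinarith [mul_le_mul_of_nonneg_left h1.1 (sq_nonneg x), mul_le_mul_of_nonneg_left h2 e0]
  refine (iv_div_le _ _).trans (div_le_of_le_mul₀ (Nat.cast_nonneg _) (by
    have := RR_nonneg (r6_nonneg T) le_rfl (r6 Y)
    have := r6_nonneg k1
    positivity) ?_)
  rw [iv_mul, iv_mul, iv_mul, iv_mul, iv_mul, e, RR, zero_mul, Nat.cast_ofNat]
  refine (mul_le_mul_of_nonneg_left h4 (by positivity)).trans (le_of_eq ?_)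
  generalize RF 0 (r6 Y * r6 T) = x
  unfold r6
  ring

theorem kdB_le (hT : 500000 ≤ T) {Z : ℕ} {y : ℝ} (hy : r6 Z ≤ y) :
    (kdB k2 (Z.mul T) : ℝ) * (y ^ 2 + 10 / r6 T ^ 2) ≤ 8 * 10 ^ 30 * (r6 k2 * y ^ 2) := by
  have T0 : 0 < r6 T := r6_pos (by omega)
  have e : ((Z.mul T : ℕ) : ℝ) = 10 ^ 12 * (r6 Z * r6 T) := by
    simp only [r6, iv_mul]
    ring
  have h1 := pow_le_pow_left₀ (r6_nonneg Z) hy 2
  have h2 := r6_nonneg k2
  have h3 := r6_nonneg Z
  refine (mul_le_mul_of_nonneg_right (iv_div_le _ _) (by positivity)).trans ?_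
  rw [iv_mul, iv_add, iv_mul, iv_mul, e, Nat.cast_ofNat, Nat.cast_ofNat, div_mul_eq_mul_div,
    div_le_iff₀ (by positivity), show (k2 : ℝ) = 10 ^ 6 * r6 k2 by unfold r6; ring]
  have e2 : (r6 Z * r6 T) ^ 2 * (y ^ 2 + 10 / r6 T ^ 2) =
      (r6 Z * r6 T) ^ 2 * y ^ 2 + 10 * r6 Z ^ 2 := by field_simp
  nlinarith [mul_le_mul_of_nonneg_left h1 h2, congrArg (fun t => r6 k2 * t) e2]

theorem kdAll_spec {f : ℕ → Bool} {Y st n : ℕ} (H : kdAll f Y st n = true) :
    ∀ j ≤ n, f (Y + st * j) = true := by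
  induction n with
  | zero => exact fun j hj => by rw [Nat.le_zero.1 hj]; exact H
  | succ m ih =>
    have H' := Bool.and_eq_true_iff.1 (show (f (Y + st * (m + 1)) && kdAll f Y st m) = true from H)
    exact fun j hj => (Nat.of_le_succ hj).elim (ih H'.2 j) fun e => e ▸ H'.1

/-- The alternative at a positive height. -/
def kdG (s : SD) (h T cn : ℕ) (kn : List (ℕ × ℕ × ℕ)) (y : ℝ) : Prop :=
  kdP h kn y - cn / (2 * 10 ^ 18) * y ^ 2 ≤ r6 s.k1 * (y ^ 2 * RR (r6 T) 0 y) ∨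
    (kdP h kn y - cn / (2 * 10 ^ 18) * y ^ 2) * (y ^ 2 + 10 / r6 T ^ 2) ≤ r6 s.k2 * y ^ 2

variable {s : SD}

theorem kdSeg_cell (hT : 500000 ≤ T) (hT' : T ≤ 8000000) (hkn : ∀ e ∈ kn, e.1.mul h ≤ 8000000)
    {g : Bool × ℕ × ℕ} {Y : ℕ} (H : kdSeg s h T cn kn g Y = true) {j : ℕ} (hj : j < g.2.2) {y : ℝ}
    (h1 : r6 (Y + g.2.1 * j) ≤ y) (h2 : y ≤ r6 (Y + g.2.1 * (j + 1))) : kdG s h T cn kn y := by
  obtain ⟨u, st, n⟩ := g
  obtain ⟨a1, a2⟩ := Bool.and_eq_true_iff.1 H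
  have st0 : 0 < r6 st := r6_pos (Nat.le_of_ble_eq_true a1)
  have node : ∀ i ≤ n, Y + st * i ≤ 1000000000 ∧ (kdM u s.k1 h T cn kn : ℝ) / 10 ^ 18 * r6 st ^ 2 / 8 ≤
      -kdP h kn (r6 (Y + st * i)) + cn / (2 * 10 ^ 18) * r6 (Y + st * i) ^ 2 +
        (cond u (kdA s.k1 T ((Y + st * i).mul T)) (kdB s.k2 (((Y + st * i).sub st).mul T)) : ℕ) /
          (8 * 10 ^ 30) := fun i hi => by
    obtain ⟨b1, b2⟩ := Bool.and_eq_true_iff.1 (kdAll_spec a2 i hi)
    have b1 := Nat.le_of_ble_eq_true b1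
    have b2 := ble b2
    have b3 := kdP_node hkn b1
    refine ⟨b1, ?_⟩
    simp only [iv_add, iv_mul, Nat.cast_ofNat] at b2
    generalize Y + st * i = Z at *
    generalize kdP h kn (r6 Z) = P at *
    unfold r6
    linarith
  have e : r6 (Y + st * (j + 1)) = r6 (Y + st * j) + r6 st := by
    rw [← r6_add, mul_add, mul_one, ← add_assoc]
    rfl
  obtain ⟨b1, b2⟩ := node j hj.le
  obtain ⟨b3, b4⟩ := node (j + 1) hj
  have c0 := (kdP_curv (h := h) (kn := kn)).add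
    (curv_sq.smul (c := cn / (2 * 10 ^ 18)) (by positivity))
  cases u with
  | true =>
    have c1 := (c0.add ((curv_RR (r6_nonneg T)).smul (r6_nonneg s.k1))).mono
      (N := (kdM true s.k1 h T cn kn : ℝ) / 10 ^ 18) (le_of_eq (by
        simp only [kdM, cond_true, iv_add, iv_mul, r6, Nat.cast_ofNat]
        ring))
    have d1 := kdA_le (k1 := s.k1) b1 hT hT'
    have d2 := kdA_le (k1 := s.k1) b3 hT hT'
    rw [cond_true] at b2 b4
    have := c1.cell (m := 0) st0 h1 (h2.trans e.le) (by linarith) (by rw [← e]; linarith)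
    exact Or.inl (by linarith)
  | false =>
    have c1 := c0.mono (N := (kdM false s.k1 h T cn kn : ℝ) / 10 ^ 18) (le_of_eq (by
      simp only [kdM, cond_false, iv_add, Nat.cast_zero]
      ring))
    have d1 := kdB_le (k2 := s.k2) hT (Z := (Y + st * j).sub st)
      ((r6_le.2 (Nat.sub_le _ _)).trans h1)
    have d2 := kdB_le (k2 := s.k2) hT (Z := (Y + st * (j + 1)).sub st) (y := y) (by
      rw [r6_sub (by show st ≤ Y + st * (j + 1); nlinarith), e]
      linarith)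
    rw [cond_false] at b2 b4
    generalize (kdB s.k2 (((Y + st * j).sub st).mul T) : ℝ) = B1 at *
    generalize (kdB s.k2 (((Y + st * (j + 1)).sub st).mul T) : ℝ) = B2 at *
    have := c1.cell (m := -max B1 B2 / (8 * 10 ^ 30)) st0 h1 (h2.trans e.le)
      (by linarith [le_max_left B1 B2]) (by rw [← e]; linarith [le_max_right B1 B2])
    have w : 0 ≤ y ^ 2 + 10 / r6 T ^ 2 := by positivity
    have d3 : max B1 B2 * (y ^ 2 + 10 / r6 T ^ 2) ≤ 8 * 10 ^ 30 * (r6 s.k2 * y ^ 2) := by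
      rcases max_choice B1 B2 with e | e <;> rw [e] <;> assumption
    exact Or.inr (by linarith [mul_le_mul_of_nonneg_right this w])

theorem kdTail_spec (hT : 500000 ≤ T) {Y : ℕ} (H : kdTail s.k2 T cn kn Y = true) (hY : 0 < Y)
    {y : ℝ} (hy : r6 Y ≤ y) : kdG s h T cn kn y := by
  have T0 : 0 < r6 T := r6_pos (by omega)
  have Y0 := r6_pos hY
  have h1 := ble H
  have e : ((Y.mul T : ℕ) : ℝ) = 10 ^ 12 * (r6 Y * r6 T) := by
    simp only [r6, iv_mul]
    ring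
  rw [iv_mul, iv_mul, iv_add, iv_mul, e, iv_sub, iv_mul, iv_mul, iv_mul, iv_mul] at h1
  simp only [Nat.cast_ofNat] at h1
  have h2 := kdP_le (h := h) (kn := kn) y
  have h3 := pow_le_pow_left₀ Y0.le hy 2
  generalize hA : max (_ - _ : ℝ) 0 = A at h1
  have A0 : 0 ≤ A := hA ▸ le_max_right _ _
  have h4 : kdP h kn y - cn / (2 * 10 ^ 18) * y ^ 2 ≤ A / (2 * 10 ^ 30) := by
    have a1 := hA ▸ le_max_left _ (0 : ℝ)
    have a2 := mul_le_mul_of_nonneg_left h3 (Nat.cast_nonneg cn)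
    unfold r6 at a2
    linarith
  have h5 : A / (2 * 10 ^ 30) * (r6 Y ^ 2 + 10 / r6 T ^ 2) ≤ r6 s.k2 * r6 Y ^ 2 := by
    refine le_of_mul_le_mul_right ?_ (pow_pos T0 2)
    rw [mul_assoc, show (r6 Y ^ 2 + 10 / r6 T ^ 2) * r6 T ^ 2 = (r6 Y * r6 T) ^ 2 + 10 by field_simp]
    rw [show (s.k2 : ℝ) = 10 ^ 6 * r6 s.k2 by unfold r6; ring] at h1
    linarith
  refine Or.inr ((mul_le_mul_of_nonneg_right h4 (by positivity)).trans ?_)
  refine le_of_mul_le_mul_right ?_ (pow_pos Y0 2)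
  have c0 : 0 ≤ A / (2 * 10 ^ 30) * (10 / r6 T ^ 2) := by positivity
  nlinarith [mul_le_mul_of_nonneg_right h5 (sq_nonneg y), mul_le_mul_of_nonneg_left h3 c0]

theorem kdSegs_spec (hT : 500000 ≤ T) (hT' : T ≤ 8000000) (hkn : ∀ e ∈ kn, e.1.mul h ≤ 8000000)
    {l : List (Bool × ℕ × ℕ)} {Y : ℕ} (H : kdSegs s h T cn kn l Y = true) (hY : 0 < Y) {y : ℝ}
    (hy : r6 Y ≤ y) : kdG s h T cn kn y := by
  induction l generalizing Y with
  | nil => exact kdTail_spec hT H hY hy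
  | cons g t ih =>
    obtain ⟨a1, a2⟩ := Bool.and_eq_true_iff.1 (show (kdSeg s h T cn kn g Y &&
      kdSegs s h T cn kn t (Y + g.2.1 * g.2.2)) = true from H)
    have : ∀ m ≤ g.2.2, kdG s h T cn kn y ∨ r6 (Y + g.2.1 * m) ≤ y := fun m hm => by
      induction m with
      | zero => exact Or.inr hy
      | succ j ih => exact (ih (Nat.le_of_succ_le hm)).elim Or.inl fun h1 =>
        (le_total y _).imp_left (kdSeg_cell hT hT' hkn a1 hm h1)
    exact (this _ le_rfl).elim id (ih a2 (by omega))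

theorem SD.sound {s : SD} {h T cn : ℕ} {kn : List (ℕ × ℕ × ℕ)} (hs : s.ok h T cn kn = true)
    (hT : 500000 ≤ T) (hT' : T ≤ 8000000) (hkn : ∀ e ∈ kn, e.1.mul h ≤ 8000000)
    (h0 : ∀ y, Kt (knR h kn) y ≤ Kt (knR h kn) 0) :
    Scan (knR h kn) (r6 T) (cn / (2 * 10 ^ 18)) (r6 s.k1) (r6 s.k2)
      (r6 s.ys ^ 2 + 10 / r6 T ^ 2) := by
  simp only [SD.ok, Bool.and_eq_true] at hs
  obtain ⟨⟨a1, a2⟩, a3⟩ := hs
  have a1 := Nat.le_of_ble_eq_true a1
  have a2 := ble a2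
  intro y
  rcases le_total |y| (r6 s.ys) with hy | hy
  · refine Or.inl (((sub_le_sub_right (h0 y) _).trans ?_).trans
      (mul_le_mul_of_nonneg_left (RR_small (r6_nonneg T) y) (r6_nonneg _)))
    have b1 : y ^ 2 ≤ r6 s.ys ^ 2 := sq_abs y ▸ pow_le_pow_left₀ (abs_nonneg y) hy 2
    have b2 := mul_le_mul_of_nonneg_left b1
      (mul_nonneg (r6_nonneg s.k1) (pow_nonneg (r6_nonneg T) 3))
    have b3 := kd_K0 (h := h) (kn := kn)
    simp only [iv_add, iv_mul, Nat.cast_ofNat] at a2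
    unfold r6 at b2 ⊢
    linarith
  have y0 : 0 < |y| := (r6_pos a1).trans_le hy
  have y2 : 0 < y ^ 2 := sq_abs y ▸ pow_pos y0 2
  have e : Kt (knR h kn) y = kdP h kn |y| / y ^ 2 := by
    rw [Kt, if_neg (abs_pos.1 y0), kdP]
    rcases abs_choice y with e | e <;> simp only [e, neg_mul, Real.cos_neg]
  have e' : Kt (knR h kn) y - cn / (2 * 10 ^ 18) =
      (kdP h kn |y| - cn / (2 * 10 ^ 18) * y ^ 2) / y ^ 2 := by
    rw [e, sub_div, mul_div_cancel_right₀ _ y2.ne']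
  rw [e']
  refine (kdSegs_spec hT hT' hkn a3 a1 hy).imp (fun b => ?_) fun b => ⟨?_, ?_⟩
  · have r : RR (r6 T) 0 |y| = RR (r6 T) 0 y := by
      rcases abs_choice y with e | e <;> simp only [e, RR_neg]
    rw [sq_abs, r] at b
    rw [div_le_iff₀ y2]
    linarith
  · rw [sq_abs] at b
    rwa [div_mul_eq_mul_div, div_le_iff₀ y2]
  · linarith [sq_abs y, pow_le_pow_left₀ (r6_nonneg _) hy 2]

end Pool.Agent.Lib.MP_778b46_nt.GX.Ck
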