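import Pool.Agent.Lib.MP_778b46_nt.GX.Kd

/- Kernel check of a family inequality with a piecewise linear kernel. -/

namespace Pool.Agent.Lib.MP_778b46_nt.GX.Ck

open Pool.Agent.Lib.MP_6cad4c_al

/-- `T = N h`, `T2 = (N + m * s) h`; variants are lists of (mass, number of the scan, `t`). -/
structure KD where
  h : ℕ
  N : ℕ
  m : ℕ
  s : ℕ
  eta : ℕ
  l : ℕ
  b : ℕ
  G : ℕ
  kn : List (ℕ × ℕ × ℕ)
  sc : List SD
  vs : List (List (ℕ × ℕ × ℕ))

def KD.T (k : KD) : ℕ := k.N.mul k.h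

def KD.T2 (k : KD) : ℕ := (k.N.add (k.m.mul k.s)).mul k.h

/-- Upper bound in millionths for `η φ / 2 + d0`. -/
def KD.C (k : KD) (ph d0 : ℕ) : ℕ := (((k.eta.mul ph).div 2000000).add 1).add d0

/-- Evaluate the number first. -/
noncomputable def frc {β : Type} (x : ℕ) (f : ℕ → β) : β :=
  Nat.rec (motive := fun _ => β) (f 0) (fun m _ => f m) (Nat.succ x)

noncomputable def ksum (f : ℕ × ℕ × ℕ → ℕ) (kn : List (ℕ × ℕ × ℕ)) : ℕ :=
  List.rec (motive := fun _ => ℕ) 0 (fun e _ ih => (f e).add ih) kn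

noncomputable def kall {α : Type} (f : α → Bool) (l : List α) : Bool :=
  List.rec (motive := fun _ => Bool) true (fun e _ ih => f e && ih) l

/-- The first knot after `i`. -/
noncomputable def knx (i : ℕ) (kn : List (ℕ × ℕ × ℕ)) : ℕ :=
  List.rec (motive := fun _ => ℕ) 8000000 (fun e _ ih => cond (Nat.ble e.1 i) ih (nmin e.1 ih)) kn

/-- `g1 (i / M) * M ^ 5`. -/
def gn (M i : ℕ) : ℕ :=
  ((M.sub i).pow 3).mul (((M.mul 5).mul i).add ((M.sub i).mul (M.sub i)))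

def KD.M (k : KD) : ℕ := k.N.add (k.m.mul k.s)

def KD.cZ (k : KD) : ℕ := (k.h.mul (k.M.pow 5)).mul ONE

/-- One half of the kernel at `i h`, scaled by `10 ^ 12 * M ^ 5 * 2 ^ 80`. -/
noncomputable def KD.z (k : KD) (c : ℕ × ℕ → ℕ) (i : ℕ) : ℕ :=
  k.cZ.mul (ksum (fun e => (c e.2).mul (e.1.sub i)) k.kn)

/-- Its decrease from `i` to `i + 1`. -/
noncomputable def KD.sl (k : KD) (c : ℕ × ℕ → ℕ) (i : ℕ) : ℕ :=
  k.cZ.mul (ksum (fun e => cond (Nat.ble e.1 i) 0 (c e.2)) k.kn)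

def st2 (r : ℕ → Bool) (kh p s z D c a : ℕ) : Bool :=
  Nat.ble kh z && Nat.ble (kh.add p) s && Nat.ble 1 D && r (Nat.succ (a.add (c.div D)))

def st1 (r : ℕ → ℕ → ℕ → ℕ → ℕ → ℕ → ℕ → ℕ → Bool) (p q z g g' bl bl' bh f w u c a : ℕ) : Bool :=
  st2 (r p q ((z.add q).sub p) g' bl' bh f) (g.mul bh) p (z.add q) z
    (((g'.mul bl).mul w).add (((nmin z ((z.add q).sub p)).sub (g.mul bh)).mul u)) ((c.mul f).mul w) a

/-- The slices from `i` on; the slopes `p`, `q` hold before the knot `x`. -/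
noncomputable def KD.run (k : KD) (d0 ph h N M el eh e2 n : ℕ) :
    ℕ → ℕ → ℕ → ℕ → ℕ → ℕ → ℕ → ℕ → ℕ → ℕ → Bool :=
  Nat.rec (motive := fun _ => ℕ → ℕ → ℕ → ℕ → ℕ → ℕ → ℕ → ℕ → ℕ → ℕ → Bool)
    (fun _ _ _ _ _ _ _ _ _ a => Nat.ble (((h.mul (M.pow 5)).mul a).add (d0.mul (N.pow 10)))
      (k.G.mul (N.pow 10)))
    (fun _ ih i x p q z g bl bh f a => st1 (ih (Nat.succ i) (cond (Nat.ble x i) (knx i k.kn) x))
      (cond (Nat.ble x i) (k.sl Prod.fst i) p) (cond (Nat.ble x i) (k.sl Prod.snd i) q) z g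
      (gn M (Nat.succ i)) bl (mlo bl el) (mhi bh eh) (mhi f e2)
      (((Nat.succ (Nat.succ i)).mul h).add ph) ((i.mul h).sub ph) ((gn N i).pow 2) a) n

def st3 (k : KD) (kh i j p q p' q' : ℕ) : Bool :=
  Nat.ble (kh.add q) p && Nat.ble ((kh.mul (k.M.sub j)).add (q'.mul (k.M.sub i))) (p'.mul (k.M.sub i))

/-- The majorant beyond `T`. -/
noncomputable def KD.far (k : KD) (e n : ℕ) : ℕ → ℕ → ℕ → ℕ → Bool :=
  Nat.rec (motive := fun _ => ℕ → ℕ → ℕ → ℕ → Bool) (fun _ _ _ _ => true)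
    (fun _ ih i bh p q => st3 k ((gn k.M i).mul (mhi bh e)) i (i.add k.s) p q
      (k.z Prod.fst (i.add k.s)) (k.z Prod.snd (i.add k.s)) &&
      ih (i.add k.s) (mhi bh e) (k.z Prod.fst (i.add k.s)) (k.z Prod.snd (i.add k.s))) n

noncomputable def KD.main (k : KD) (ph d0 : ℕ) : Bool :=
  Nat.ble (k.z Prod.snd 0) (k.z Prod.fst 0) &&
  (frc ph fun ph => frc k.h fun h => frc k.N fun N => frc k.M fun M =>
    frc (eLo (k.b.mul h)) fun el => frc (eHi (k.b.mul h)) fun eh =>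
    frc (eHi ((k.l.mul 2).mul h)) fun e2 => k.run d0 ph h N M el eh e2 N 0 0 0 0
      ((k.z Prod.fst 0).sub (k.z Prod.snd 0)) (gn M 0) ((k.eta.mul E6).mul ONE)
      ((k.eta.mul E6).mul ONE) (E12.mul ONE) 0) &&
  k.far (eHi (k.b.mul (k.s.mul k.h))) k.m k.N ((k.eta.mul E6).mul (eHi (k.b.mul k.T)))
    (k.z Prod.fst k.N) (k.z Prod.snd k.N)

/-- Ranges, slices on `[0, T]` (step `h`), the majorant on `[T, T2]` (step `s h`), all scans. -/
noncomputable def KD.ok (k : KD) (ph d0 : ℕ) : Bool :=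
  (Nat.ble 1 k.G && Nat.ble 500000 k.T && Nat.ble k.T2 8000000 && Nat.ble k.l 10000000 &&
    Nat.ble k.b 10000000 && Nat.ble k.M (k.N.mul 7) && Nat.ble (k.s.mul k.h) 8000000 &&
    kall (fun e => Nat.ble e.1 k.M && Nat.ble ((e.1.sub k.N).mod k.s) 0) k.kn) && k.main ph d0 &&
  kall (fun s => Nat.ble s.th 1000000 && s.ok k.h k.T ((s.th.mul k.eta).mul ph) k.kn) k.sc

theorem kall_mem {α : Type} {f : α → Bool} {l : List α} (h : kall f l = true) :
    ∀ a ∈ l, f a = true := by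
  induction l with
  | nil => simp
  | cons a t ih =>
    have h' := Bool.and_eq_true_iff.1 (show (f a && kall f t) = true from h)
    exact List.forall_mem_cons.2 ⟨h'.1, ih h'.2⟩

theorem ksum_congr {f g : ℕ × ℕ × ℕ → ℕ} {kn : List (ℕ × ℕ × ℕ)} (h : ∀ e ∈ kn, f e = g e) :
    ksum f kn = ksum g kn := by
  induction kn with
  | nil => rfl
  | cons a t ih =>
    rw [List.forall_mem_cons] at h
    exact congrArg₂ Nat.add h.1 (ih h.2)

theorem knx_le {i : ℕ} {kn : List (ℕ × ℕ × ℕ)} : ∀ e ∈ kn, i < e.1 → knx i kn ≤ e.1 := by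
  induction kn with
  | nil => simp
  | cons a t ih =>
    have h : knx i (a :: t) = cond (Nat.ble a.1 i) (knx i t) (a.1 - (a.1 - knx i t)) := rfl
    rw [List.forall_mem_cons, h]
    cases hb : Nat.ble a.1 i with
    | true => exact ⟨fun e => absurd (Nat.le_of_ble_eq_true hb) (not_le.2 e), ih⟩
    | false => exact ⟨fun _ => Nat.sub_le _ _, fun e he h' => le_trans (by
        show a.1 - (a.1 - knx i t) ≤ knx i t; omega) (ih e he h')⟩

theorem KD.sl_eq (k : KD) (c : ℕ × ℕ → ℕ) {i j : ℕ} (h : i ≤ j) (h' : j < knx i k.kn) :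
    k.sl c i = k.sl c j := by
  refine congrArg k.cZ.mul (ksum_congr fun e he => ?_)
  have := knx_le (i := i) e he
  rw [show Nat.ble e.1 i = Nat.ble e.1 j from Bool.eq_iff_iff.2 (by
    rw [Nat.ble_eq, Nat.ble_eq]; omega)]

theorem KD.z_succ (k : KD) (c : ℕ × ℕ → ℕ) (i : ℕ) : k.z c i = k.z c (i + 1) + k.sl c i := by
  refine (congrArg k.cZ.mul ?_).trans (Nat.mul_add _ _ _)
  induction k.kn with
  | nil => rfl
  | cons a t ih =>
    show c a.2 * (a.1 - i) + ksum _ t = c a.2 * (a.1 - (i + 1)) + ksum _ t +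
      (cond (Nat.ble a.1 i) 0 (c a.2) + ksum _ t)
    rw [ih]
    cases hb : Nat.ble a.1 i with
    | true =>
      have := Nat.le_of_ble_eq_true hb
      rw [show a.1 - i = 0 by omega, show a.1 - (i + 1) = 0 by omega, cond_true]
      ring
    | false =>
      have : ¬ a.1 ≤ i := by rw [← Nat.ble_eq, hb]; simp
      rw [show a.1 - i = a.1 - (i + 1) + 1 by omega, cond_false]
      ring

noncomputable def KD.U (k : KD) : ℝ := 10 ^ 12 * k.M ^ 5 * 2 ^ 80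

noncomputable def KD.Z (k : KD) (i : ℕ) : ℝ := Zt (knR k.h k.kn) (i * r6 k.h)

theorem KD.Z_eq (k : KD) (i : ℕ) : k.Z i * k.U = k.z Prod.fst i - k.z Prod.snd i := by
  unfold KD.Z KD.U KD.z KD.cZ Zt knR
  simp only [iv_mul, cpow, iv_ONE]
  induction k.kn with
  | nil => simp [ksum]
  | cons a t ih =>
    have e : ∀ f, (ksum f (a :: t) : ℝ) = f a + ksum f t := fun f => iv_add _ _
    have e' : max (r6 (a.1.mul k.h) - i * r6 k.h) 0 = max ((a.1 : ℝ) - i) 0 * r6 k.h := by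
      rw [max_mul_of_nonneg _ _ (r6_nonneg _), zero_mul, r6, r6, iv_mul]
      congr 1
      ring
    rw [List.map_cons, List.map_cons, List.sum_cons, add_mul, ih, e, e, e', iv_mul, iv_mul, iv_sub]
    unfold r6
    ring

theorem gn_eq {M i : ℕ} (hM : 0 < M) (h : i ≤ M) : (gn M i : ℝ) = g1 (i / M) * M ^ 5 := by
  have e : ((M.sub i : ℕ) : ℝ) = M - i := Nat.cast_sub h
  have : (M : ℝ) ≠ 0 := by positivity
  simp only [gn, iv_mul, iv_add, cpow, e, g1, Nat.cast_ofNat]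
  field_simp
  ring

noncomputable def KD.fh (k : KD) (i : ℕ) : ℝ :=
  g1 (i / k.N) * Real.exp (r6 k.l * ((i + 1) * r6 k.h))

noncomputable def KD.kk (k : KD) (i : ℕ) (t : ℝ) : ℝ :=
  r6 k.eta * (g1 (i / k.M) * Real.exp (r6 k.b * t))

noncomputable def KD.zl (k : KD) (ph i : ℕ) : ℝ :=
  if r6 ph < i * r6 k.h then min (k.Z i) (k.Z (i + 1)) - k.kk i ((i + 1) * r6 k.h) else 0

noncomputable def KD.den (k : KD) (ph i : ℕ) : ℝ := k.kk (i + 1) (i * r6 k.h) +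
  k.zl ph i * ((i * r6 k.h - r6 ph) / ((i + 2) * r6 k.h + r6 ph))

noncomputable def KD.ex (k : KD) (t : ℝ) : ℝ := k.eta * 10 ^ 6 * Real.exp (r6 k.b * t)

theorem KD.kk_eq (k : KD) (hM : 0 < k.M) {i : ℕ} (h : i ≤ k.M) (t : ℝ) :
    k.kk i t * k.U = gn k.M i * (k.ex t * 2 ^ 80) := by
  rw [gn_eq hM h, KD.kk, KD.U, KD.ex, r6]
  ring

theorem KD.ex_add (k : KD) (t : ℝ) (n : ℕ) :
    k.ex t * Real.exp ((k.b.mul n : ℕ) / E12) = k.ex (t + r6 n) := by
  rw [← r6_mul, KD.ex, KD.ex, mul_add, Real.exp_add, mul_assoc]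

theorem KD.run_sound {k : KD} {ph d0 : ℕ} (hh : 0 < k.h) (hN : 0 < k.N)
    (hb : k.b.mul k.h ≤ BIG) (hl : (k.l.mul 2).mul k.h ≤ BIG) (n : ℕ) :
    ∀ i x p q z bl bh f a : ℕ, i + n = k.N → k.run d0 ph k.h k.N k.M (eLo (k.b.mul k.h))
      (eHi (k.b.mul k.h)) (eHi ((k.l.mul 2).mul k.h)) n i x p q z (gn k.M i) bl bh f a = true →
      (∀ j, i ≤ j → j < x → p = k.sl Prod.fst j ∧ q = k.sl Prod.snd j) → z = k.Z i * k.U →
      bl ≤ k.ex (i * r6 k.h) * 2 ^ 80 → k.ex (i * r6 k.h) * 2 ^ 80 ≤ bh →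
      10 ^ 12 * Real.exp (r6 k.l * (i * r6 k.h)) ^ 2 * 2 ^ 80 ≤ f →
      (∑ j ∈ Finset.range i, r6 k.h * (k.fh j ^ 2 / k.den ph j)) * k.N ^ 10 ≤ r6 k.h * k.M ^ 5 * a →
      (∀ j, i ≤ j → j < k.N → k.kk j ((j + 1) * r6 k.h) ≤ min (k.Z j) (k.Z (j + 1)) ∧
        0 < k.den ph j) ∧
      ∑ j ∈ Finset.range k.N, r6 k.h * (k.fh j ^ 2 / k.den ph j) + r6 d0 ≤ r6 k.G := by
  have hNM : k.N ≤ k.M := Nat.le_add_right _ _
  have hM := hN.trans_le hNM
  have hU : 0 < k.U := by unfold KD.U; positivity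
  have hN' : (0 : ℝ) < k.N ^ 10 := by positivity
  induction n with
  | zero =>
    intro i x p q z bl bh f a hi h _ _ _ _ _ ha
    obtain rfl : i = k.N := hi
    refine ⟨fun j h1 h2 => absurd h1 (not_le.2 h2), le_of_mul_le_mul_right ?_ hN'⟩
    have h1 := ble (show Nat.ble _ _ = true from h)
    simp only [iv_add, iv_mul, cpow] at h1
    rw [add_mul]
    unfold r6 at ha ⊢
    linarith
  | succ n ih =>
    intro i x p q z bl bh f a hi h hs hz h1 h2 h3 ha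
    have hp : ∀ j, i ≤ j → j = i ∨ j < cond (Nat.ble x i) (knx i k.kn) x →
        cond (Nat.ble x i) (k.sl Prod.fst i) p = k.sl Prod.fst j ∧
          cond (Nat.ble x i) (k.sl Prod.snd i) q = k.sl Prod.snd j := fun j e e' => by
      cases hb : Nat.ble x i with
      | true =>
        rw [hb] at e'
        rcases e' with rfl | e'
        exacts [⟨rfl, rfl⟩, ⟨k.sl_eq _ e e', k.sl_eq _ e e'⟩]
      | false =>
        have : ¬ x ≤ i := by rw [← Nat.ble_eq, hb]; simp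
        rw [hb] at e'
        exact hs j e (e'.elim (fun e => by omega) id)
    have h' : st1 (k.run d0 ph k.h k.N k.M _ _ _ n (i + 1) _) _ _ z _ _ bl _ _ _ _ _ _ a = true := h
    obtain ⟨p1, p2⟩ := hp i le_rfl (Or.inl rfl)
    have e1 : (i + 1 : ℝ) * r6 k.h = i * r6 k.h + r6 k.h := by ring
    have b1 := iv_mlo_le h1 (eLo_le (k.b.mul k.h))
    have b2 := iv_mhi_ge (Real.exp_pos _).le h2 (le_eHi hb)
    have b3 := iv_mhi_ge (Real.exp_pos _).le h3 (le_eHi hl)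
    rw [k.ex_add, ← e1] at b1 b2
    have e2 : 10 ^ 12 * Real.exp (r6 k.l * (i * r6 k.h)) ^ 2 *
        Real.exp (((k.l.mul 2).mul k.h : ℕ) / E12) =
        10 ^ 12 * Real.exp (r6 k.l * ((i + 1) * r6 k.h)) ^ 2 := by
      rw [← r6_mul, mul_assoc, sq, sq, ← Real.exp_add, ← Real.exp_add, ← Real.exp_add]
      congr 2
      simp only [r6, iv_mul, Nat.cast_ofNat]
      ring
    rw [e2] at b3
    generalize cond (Nat.ble x i) (knx i k.kn) x = x' at *
    generalize cond (Nat.ble x i) (k.sl Prod.fst i) p = p' at *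
    generalize cond (Nat.ble x i) (k.sl Prod.snd i) q = q' at *
    generalize mhi bh (eHi (k.b.mul k.h)) = bh' at *
    generalize mhi f (eHi ((k.l.mul 2).mul k.h)) = f' at *
    simp only [st1, st2, Bool.and_eq_true] at h'
    obtain ⟨⟨⟨c1, c2⟩, c3⟩, c4⟩ := h'
    have c5 : p' ≤ z.add q' := le_trans (Nat.le_add_left _ _) (Nat.le_of_ble_eq_true c2)
    have hz' : (((z.add q').sub p' : ℕ) : ℝ) = k.Z (i + 1) * k.U := by
      have e : (((z.add q').sub p' : ℕ) : ℝ) = (z.add q' : ℕ) - p' := Nat.cast_sub c5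
      rw [e, iv_add, hz, k.Z_eq, k.Z_eq, k.z_succ Prod.fst i, k.z_succ Prod.snd i, p1, p2]
      push_cast
      ring
    have c6 : (((gn k.M i).mul bh' : ℕ) : ℝ) ≤ ((z.add q').sub p' : ℕ) :=
      Nat.cast_le.2 (Nat.le_sub_of_add_le (Nat.le_of_ble_eq_true c2))
    generalize (z.add q').sub p' = z' at *
    have k1 : k.kk i ((i + 1) * r6 k.h) * k.U ≤ ((gn k.M i).mul bh' : ℕ) := by
      rw [k.kk_eq hM (by omega), iv_mul]
      exact mul_le_mul_of_nonneg_left b2 (Nat.cast_nonneg _)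
    have k2 : (((gn k.M (i + 1)).mul bl : ℕ) : ℝ) ≤ k.kk (i + 1) (i * r6 k.h) * k.U := by
      rw [k.kk_eq hM (by omega), iv_mul]
      exact mul_le_mul_of_nonneg_left h1 (Nat.cast_nonneg _)
    have k3 : ((nmin z z' : ℕ) : ℝ) = min (k.Z i) (k.Z (i + 1)) * k.U := by
      rw [iv_nmin, hz, hz', min_mul_of_nonneg _ _ hU.le]
    have k4 : (((gn k.M i).mul bh' : ℕ) : ℝ) ≤ (nmin z z' : ℕ) := by
      rw [iv_nmin]
      exact le_min (ble c1) c6
    generalize (gn k.M i).mul bh' = kh at *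
    generalize nmin z z' = mz at *
    generalize hw : ((i.succ.succ).mul k.h).add ph = w at *
    have w1 : (w : ℝ) = ((i + 2) * r6 k.h + r6 ph) * 10 ^ 6 := by
      rw [← hw, iv_add, iv_mul, r6, r6]
      push_cast
      ring
    have w2 : 0 < (i + 2) * r6 k.h + r6 ph := by
      have := r6_pos hh
      have := r6_nonneg ph
      positivity
    have w3 : (0 : ℝ) < w := by rw [w1]; positivity
    generalize hD : (((gn k.M i.succ).mul bl).mul w).add ((mz.sub kh).mul ((i.mul k.h).sub ph)) = D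
      at *
    have D0 : 0 < D := Nat.le_of_ble_eq_true c3
    have D1 : (D : ℝ) ≤ k.den ph i * (k.U * w) := by
      have e : (((i.mul k.h).sub ph : ℕ) : ℝ) = max (i * r6 k.h - r6 ph) 0 * 10 ^ 6 := by
        rw [iv_sub, iv_mul, max_mul_of_nonneg _ _ (by positivity), zero_mul, r6, r6]
        congr 1
        ring
      rw [← hD, iv_add, iv_mul _ w, iv_mul (mz.sub kh), e, iv_sub, max_eq_left (sub_nonneg.2 k4),
        KD.den, add_mul, ← mul_assoc (k.kk _ _)]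
      refine add_le_add (mul_le_mul_of_nonneg_right k2 w3.le) ?_
      unfold KD.zl
      split_ifs with hc
      · rw [max_eq_left (sub_pos.2 hc).le, w1]
        refine (mul_le_mul_of_nonneg_right (show (mz : ℝ) - kh ≤ (min (k.Z i) (k.Z (i + 1)) -
          k.kk i ((i + 1) * r6 k.h)) * k.U by linarith) (by
            have := sub_pos.2 hc; positivity)).trans_eq ?_
        generalize (i + 2) * r6 k.h + r6 ph = W at w2
        field_simp
      · rw [max_eq_right (by linarith)]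
        simp
    have D2 : (0 : ℝ) < D := Nat.cast_pos.2 D0
    have D3 : 0 < k.den ph i := pos_of_mul_pos_left (D2.trans_le D1) (mul_pos hU w3).le
    have t1 : k.fh i ^ 2 / k.den ph i * k.N ^ 10 ≤
        k.M ^ 5 * (((((gn k.N i).pow 2).mul f').mul w).div D + 1) := by
      refine le_trans ?_ (mul_le_mul_of_nonneg_left (iv_le_div _ _ D0) (by positivity))
      rw [iv_mul, iv_mul, cpow, gn_eq hN (by omega), div_mul_eq_mul_div, ← mul_div_assoc,
        div_le_div_iff₀ D3 D2]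
      have t2 := mul_le_mul (mul_le_mul_of_nonneg_left b3 (sq_nonneg (g1 (i / k.N) * k.N ^ 5)))
        D1 D2.le (by positivity)
      refine le_of_mul_le_mul_right ?_ (show (0 : ℝ) < 10 ^ 12 * 2 ^ 80 by positivity)
      rw [KD.fh]
      rw [KD.U] at t2
      generalize (2 : ℝ) ^ 80 = S at *
      linarith
    obtain ⟨r1, r2⟩ := ih (i + 1) x' p' q' z' _ bh' f' _ (by omega) c4
      (fun j e e' => hp j (by omega) (Or.inr e')) hz' (by push_cast; exact b1) (by push_cast; exact b2)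
      (by push_cast; exact b3) (by
        have := mul_le_mul_of_nonneg_left t1 (r6_nonneg k.h)
        rw [Finset.sum_range_succ, Nat.cast_succ, iv_add]
        linarith)
    refine ⟨fun j e e' => ?_, r2⟩
    rcases e.eq_or_lt with rfl | e
    · exact ⟨le_of_mul_le_mul_right (k1.trans (k4.trans_eq k3)) hU, D3⟩
    · exact r1 j e e'

theorem gq_anti {s t : ℝ} (h0 : 1 / 7 ≤ s) (h : s ≤ t) (h1 : t ≤ 1) :
    (1 - t) ^ 2 * (1 + 3 * t + t ^ 2) ≤ (1 - s) ^ 2 * (1 + 3 * s + s ^ 2) := by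
  have a : ∀ u : ℝ, 1 / 7 ≤ u → u ≤ 1 → 0 ≤ (1 - u) * (2 * u ^ 2 + (7 / 2 * u - 1 / 2)) :=
    fun u e e' => mul_nonneg (by linarith) (add_nonneg (by positivity) (by linarith))
  have := mul_nonneg (sub_nonneg.2 h) (add_nonneg (add_nonneg (a s h0 (h.trans h1))
    (a t (h0.trans h) h1)) (mul_nonneg (show 0 ≤ 1 / 2 + s + t by linarith) (sq_nonneg (s - t))))
  linarith

theorem KD.far_sound {k : KD} (hh : 0 < k.h) (hN : 0 < k.N) (h7 : k.M ≤ k.N * 7)
    (hb : k.b.mul (k.s.mul k.h) ≤ BIG) (hk : ∀ e ∈ k.kn, (e.1 - k.N) % k.s = 0) (n : ℕ) :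
    ∀ j i bh : ℕ, j + n = k.m → i = k.N + j * k.s →
      k.far (eHi (k.b.mul (k.s.mul k.h))) n i bh (k.z Prod.fst i) (k.z Prod.snd i) = true →
      k.ex (i * r6 k.h) * 2 ^ 80 ≤ bh → ∀ t, i * r6 k.h ≤ t → t < k.M * r6 k.h →
        r6 k.eta * gT (k.M * r6 k.h) (r6 k.b) t ≤ Zt (knR k.h k.kn) t := by
  have hM : 0 < k.M := hN.trans_le (Nat.le_add_right _ _)
  have hM' : (0 : ℝ) < k.M := Nat.cast_pos.2 hM
  have hU : 0 < k.U := by unfold KD.U; positivity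
  have hr := r6_pos hh
  induction n with
  | zero =>
    intro j i bh hj hi _ _ t h1 h2
    obtain rfl : j = k.m := hj
    exact absurd (hi ▸ h1 :) (not_le.2 h2)
  | succ n ih =>
    intro j i bh hj hi h h0 t h1 h2
    obtain ⟨h3, h4⟩ := Bool.and_eq_true_iff.1 (show (st3 k _ i (i + k.s) _ _
      (k.z _ (i + k.s)) (k.z _ (i + k.s)) && k.far _ n (i + k.s) _ _ _) = true from h)
    have b2 := iv_mhi_ge (Real.exp_pos _).le h0 (le_eHi hb)
    have e1 : ((i + k.s : ℕ) : ℝ) * r6 k.h = i * r6 k.h + r6 (k.s.mul k.h) := by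
      rw [r6, r6, iv_mul]
      push_cast
      ring
    rw [k.ex_add, ← e1] at b2
    rcases le_total (((i + k.s : ℕ) : ℝ) * r6 k.h) t with h5 | h5
    · exact ih (j + 1) _ _ (by omega) (by rw [hi]; ring) h4 b2 t h5 h2
    have i1 : i + k.s ≤ k.M := by
      show _ ≤ k.N + k.m * k.s
      rw [hi, ← hj]
      nlinarith
    have i2 : (i : ℝ) < k.M := lt_of_mul_lt_mul_right (h1.trans_lt h2) hr.le
    have i3 : ((i + k.s : ℕ) : ℝ) ≤ k.M := Nat.cast_le.2 i1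
    generalize mhi bh (eHi (k.b.mul (k.s.mul k.h))) = bh' at *
    have k1 : k.kk i ((i + k.s : ℕ) * r6 k.h) * k.U ≤ ((gn k.M i).mul bh' : ℕ) := by
      rw [k.kk_eq hM (by omega), iv_mul]
      exact mul_le_mul_of_nonneg_left b2 (Nat.cast_nonneg _)
    obtain ⟨c1, c2⟩ := Bool.and_eq_true_iff.1 h3
    replace c1 := ble c1
    replace c2 := ble c2
    have s1 : ((k.M.sub i : ℕ) : ℝ) = k.M - i := Nat.cast_sub (by omega)
    have s2 : ((k.M.sub (i + k.s) : ℕ) : ℝ) = k.M - (i + k.s : ℕ) := Nat.cast_sub i1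
    rw [iv_add] at c1 c2
    rw [iv_mul _ (k.M.sub _), iv_mul _ (k.M.sub _), iv_mul _ (k.M.sub _), s1, s2] at c2
    have z1 : k.kk i ((i + k.s : ℕ) * r6 k.h) ≤ k.Z i :=
      le_of_mul_le_mul_right (by rw [k.Z_eq]; linarith) hU
    have z2 : k.kk i ((i + k.s : ℕ) * r6 k.h) * (k.M - (i + k.s : ℕ)) ≤ k.Z (i + k.s) * (k.M - i) := by
      have := mul_le_mul_of_nonneg_right k1 (sub_nonneg.2 i3)
      refine le_of_mul_le_mul_right ?_ hU
      rw [mul_right_comm (k.Z _), k.Z_eq]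
      linarith
    obtain ⟨R, hR⟩ : ∃ R : ℝ, R = r6 k.eta * ((1 - (i : ℝ) / k.M) ^ 2 * (1 + 3 * ((i : ℝ) / k.M) +
      ((i : ℝ) / k.M) ^ 2) * Real.exp (r6 k.b * ((i + k.s : ℕ) * r6 k.h))) := ⟨_, rfl⟩
    have r1 : k.kk i ((i + k.s : ℕ) * r6 k.h) = R / k.M * (k.M - i) := by
      rw [hR, KD.kk, g1_eq]
      field_simp
    have zt : ∀ u, u ≤ k.M * r6 k.h → Zt ((k.M * r6 k.h, -(R / (k.M * r6 k.h))) :: knR k.h k.kn) u =
        Zt (knR k.h k.kn) u - R / k.M * (k.M - u / r6 k.h) := fun u hu => by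
      simp only [Zt, List.map_cons, List.sum_cons, max_eq_left (sub_nonneg.2 hu)]
      field_simp
      ring
    have h6 := Zt_ge (kn := (k.M * r6 k.h, -(R / (k.M * r6 k.h))) :: knR k.h k.kn) (m := 0)
      (List.forall_mem_cons.2 ⟨Or.inr (mul_le_mul_of_nonneg_right i3 hr.le), fun p hp => by
        obtain ⟨e, he, rfl⟩ := List.mem_map.1 hp
        have e2 : r6 (e.1.mul k.h) = e.1 * r6 k.h := by rw [r6, r6, iv_mul, mul_div_assoc]
        have e3 : e.1 ≤ i ∨ i + k.s ≤ e.1 := by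
          obtain ⟨c, hc⟩ := Nat.dvd_of_mod_eq_zero (hk e he)
          rcases le_or_gt c j with e4 | e4
          · exact Or.inl (by have := Nat.mul_le_mul_left k.s e4; rw [mul_comm] at hi; omega)
          · have := Nat.mul_le_mul_left k.s (Nat.succ_le_of_lt e4)
            rw [Nat.mul_succ] at this
            rw [mul_comm] at hi
            omega
        simp only [e2]
        exact e3.imp (fun e => by gcongr) fun e => by gcongr⟩) h1 h5
      (by rw [zt _ (h1.trans h2.le), mul_div_cancel_right₀ _ hr.ne', ← r1]; exact sub_nonneg.2 z1)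
      (by
        rw [zt _ (mul_le_mul_of_nonneg_right i3 hr.le), mul_div_cancel_right₀ _ hr.ne', sub_nonneg]
        refine le_of_mul_le_mul_right ?_ (sub_pos.2 i2)
        rw [r1] at z2
        exact (mul_right_comm _ _ _).trans_le z2)
    rw [zt t h2.le, sub_nonneg] at h6
    refine le_trans ?_ h6
    have hT : 0 < k.M * r6 k.h := by positivity
    have t1 : t / (k.M * r6 k.h) ≤ 1 := (div_le_one hT).2 h2.le
    have t2 : (i : ℝ) / k.M ≤ t / (k.M * r6 k.h) := by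
      rw [← mul_div_mul_right _ _ hr.ne']
      gcongr
    have t3 : 1 / 7 ≤ (i : ℝ) / k.M := by
      have : (k.M : ℝ) ≤ i * 7 := by exact_mod_cast (by omega : k.M ≤ i * 7)
      rw [div_le_div_iff₀ (by norm_num) hM']
      linarith
    have t4 := mul_le_mul (gq_anti t3 t2 t1) (Real.exp_le_exp.2
      (mul_le_mul_of_nonneg_left h5 (r6_nonneg k.b))) (Real.exp_pos _).le (by positivity)
    have t5 := mul_le_mul_of_nonneg_left t4 (mul_nonneg (r6_nonneg k.eta) (sub_nonneg.2 t1))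
    have t6 : R / k.M * (k.M - t / r6 k.h) = (1 - t / (k.M * r6 k.h)) * R := by field_simp
    rw [t6, hR, gT, g1_eq]
    linarith

theorem KD.T_eq (k : KD) : r6 k.T = k.N * r6 k.h := by rw [r6, r6, KD.T, iv_mul, mul_div_assoc]

theorem KD.T2_eq (k : KD) : r6 k.T2 = k.M * r6 k.h := by
  rw [r6, r6, show k.T2 = k.M.mul k.h from rfl, iv_mul, mul_div_assoc]

theorem KD.spec {k : KD} {ph d0 : ℕ} (h : k.ok ph d0 = true) :
    (0 < k.G ∧ 500000 ≤ k.T ∧ k.T ≤ k.T2 ∧ k.T2 ≤ 8000000 ∧ k.l ≤ 10000000 ∧ k.b ≤ 10000000 ∧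
      0 < k.h ∧ ∀ e ∈ k.kn, e.1.mul k.h ≤ k.T2) ∧
    (∀ s ∈ k.sc, s.th ≤ 1000000 ∧ s.ok k.h k.T ((s.th.mul k.eta).mul ph) k.kn = true) ∧
    (∀ t, r6 k.T ≤ t → t ≤ r6 k.T2 →
      r6 k.eta * gT (r6 k.T2) (r6 k.b) t ≤ Zt (knR k.h k.kn) t) ∧
    (∀ i < k.N, 0 ≤ k.kk (i + 1) (i * r6 k.h) ∧ 0 ≤ k.zl ph i ∧
      (k.zl ph i = 0 ∨ r6 ph < i * r6 k.h) ∧ 0 < k.den ph i ∧
      ∀ t, i * r6 k.h ≤ t → t ≤ (i + 1) * r6 k.h → gT (r6 k.T) (r6 k.l) t ≤ k.fh i ∧
        k.kk (i + 1) (i * r6 k.h) ≤ r6 k.eta * gT (r6 k.T2) (r6 k.b) t ∧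
        r6 k.eta * gT (r6 k.T2) (r6 k.b) t + k.zl ph i ≤ Zt (knR k.h k.kn) t) ∧
    ∑ j ∈ Finset.range k.N, r6 k.h * (k.fh j ^ 2 / k.den ph j) + r6 d0 ≤ r6 k.G := by
  simp only [KD.ok, KD.main, Bool.and_eq_true, Nat.ble_eq] at h
  obtain ⟨⟨⟨⟨⟨⟨⟨⟨⟨a1, a2⟩, a3⟩, a4⟩, a5⟩, a6⟩, a7⟩, a8⟩, ⟨b1, b2⟩, b3⟩, c1⟩ := h
  have hT : 0 < k.N * k.h := lt_of_lt_of_le (by norm_num) a2
  have hN := Nat.pos_of_mul_pos_right hT
  have hh := Nat.pos_of_mul_pos_left hT
  have hNM : k.N ≤ k.M := Nat.le_add_right _ _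
  have hM : (0 : ℝ) < k.M := Nat.cast_pos.2 (hN.trans_le hNM)
  have hN' : (0 : ℝ) < k.N := Nat.cast_pos.2 hN
  have hTT : k.T ≤ k.T2 := Nat.mul_le_mul_right _ hNM
  have h8 : k.h ≤ 8000000 := (Nat.le_mul_of_pos_left _ hN).trans (hTT.trans a3)
  have hr := r6_pos hh
  have big : ∀ {x y : ℕ}, x ≤ 20000000 → y ≤ 8000000 → x.mul y ≤ BIG := fun e e' =>
    (Nat.mul_le_mul e e').trans (by norm_num [BIG])
  have hk : ∀ e ∈ k.kn, e.1 ≤ k.M ∧ (e.1 - k.N) % k.s = 0 := fun e he => by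
    have := kall_mem a8 e he
    rw [Bool.and_eq_true, Nat.ble_eq, Nat.ble_eq] at this
    exact ⟨this.1, Nat.le_zero.1 this.2⟩
  have e6 : ∀ n : ℕ, r6 (n.mul k.h) = n * r6 k.h := fun n => by rw [r6, r6, iv_mul, mul_div_assoc]
  have x0 : (((k.eta.mul E6).mul ONE : ℕ) : ℝ) = k.ex ((0 : ℕ) * r6 k.h) * 2 ^ 80 := by
    simp [KD.ex, cE6, iv_ONE]
  obtain ⟨r1, r2⟩ := KD.run_sound (ph := ph) (d0 := d0) hh hN (big (by omega) h8)
    (big (Nat.mul_le_mul_right 2 a4) h8) k.N 0 0 0 0 _ _ _ _ _ (zero_add _) b2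
    (fun _ _ e => absurd e (Nat.not_lt_zero _)) (by rw [k.Z_eq]; exact Nat.cast_sub b1) x0.le x0.ge
    (by simp [cE12, iv_ONE]) (by simp)
  refine ⟨⟨a1, a2, hTT, a3, a4, a5, hh, fun e he => Nat.mul_le_mul_right _ (hk e he).1⟩,
    fun s hs => ?_, fun t h1 h2 => ?_, fun i hi => ?_, r2⟩
  · have := kall_mem c1 s hs
    rwa [Bool.and_eq_true, Nat.ble_eq] at this
  · rw [k.T2_eq] at h2 ⊢
    rcases h2.eq_or_lt with rfl | h2
    · rw [gT, div_self (by positivity), g1_one, zero_mul, mul_zero, Zt]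
      refine (List.sum_eq_zero fun y hy => ?_).ge
      obtain ⟨p, hp, rfl⟩ := List.mem_map.1 hy
      obtain ⟨e, he, rfl⟩ := List.mem_map.1 hp
      have : (e.1 : ℝ) ≤ k.M := Nat.cast_le.2 (hk e he).1
      rw [e6, max_eq_right (sub_nonpos.2 (mul_le_mul_of_nonneg_right this hr.le)), mul_zero]
    · refine KD.far_sound hh hN a6 (big (by omega) a7) (fun e he => (hk e he).2) k.m 0 k.N _
        (zero_add _) (by simp) b3 ?_ t (k.T_eq ▸ h1) h2
      have := mul_le_mul_of_nonneg_left (le_eHi (big (x := k.b) (by omega) (hTT.trans a3)))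
        (show (0 : ℝ) ≤ k.eta * 10 ^ 6 by positivity)
      rw [iv_mul, iv_mul, cE6, KD.ex, ← k.T_eq, r6_mul, mul_assoc]
      exact this
  · obtain ⟨r3, r4⟩ := r1 i (Nat.zero_le _) hi
    have i1 : (i + 1 : ℝ) ≤ k.N := by exact_mod_cast hi
    have i2 : (i + 1 : ℝ) ≤ k.M := i1.trans (Nat.cast_le.2 hNM)
    have i0 : (0 : ℝ) ≤ i := Nat.cast_nonneg i
    have hz : k.zl ph i ≤ min (k.Z i) (k.Z (i + 1)) - k.kk i ((i + 1) * r6 k.h) := by
      unfold KD.zl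
      split_ifs
      exacts [le_rfl, sub_nonneg.2 r3]
    have g0 : 0 ≤ g1 ((i + 1 : ℕ) / k.M) := g1_nonneg (by positivity)
      ((div_le_one hM).2 (by push_cast; exact i2))
    refine ⟨mul_nonneg (r6_nonneg _) (mul_nonneg g0 (Real.exp_pos _).le), ?_, ?_, r4,
      fun t h1 h2 => ?_⟩
    · unfold KD.zl
      split_ifs
      exacts [sub_nonneg.2 r3, le_rfl]
    · exact (em _).symm.imp_left fun e => if_neg e
    have up : ∀ (n : ℕ) (c : ℝ), 0 < n → (i + 1 : ℝ) ≤ n → 0 ≤ c →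
        gT (n * r6 k.h) c t ≤ g1 (i / n) * Real.exp (c * ((i + 1) * r6 k.h)) := fun n c hn e hc => by
      have t1 : t / (n * r6 k.h) ≤ 1 := (div_le_one (by positivity)).2 (h2.trans (by gcongr))
      have t2 : (i : ℝ) / n ≤ t / (n * r6 k.h) := by
        rw [← mul_div_mul_right _ _ hr.ne']
        gcongr
      exact mul_le_mul (g1_anti (by positivity) t2 t1) (by gcongr) (Real.exp_pos _).le
        (g1_nonneg (by positivity) (t2.trans t1))
    rw [k.T_eq, k.T2_eq]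
    refine ⟨up _ _ hN i1 (r6_nonneg _), mul_le_mul_of_nonneg_left ?_ (r6_nonneg _), ?_⟩
    · have t0 : 0 ≤ t / (k.M * r6 k.h) := div_nonneg (le_trans (by positivity) h1) (by positivity)
      have t2 : t / (k.M * r6 k.h) ≤ ((i + 1 : ℕ) : ℝ) / k.M := by
        rw [← mul_div_mul_right ((i + 1 : ℕ) : ℝ) _ hr.ne', Nat.cast_succ]
        gcongr
      have t3 := g1_anti t0 t2 ((div_le_one hM).2 (by push_cast; exact i2))
      exact mul_le_mul t3 (Real.exp_le_exp.2 (mul_le_mul_of_nonneg_left h1 (r6_nonneg _)))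
        (Real.exp_pos _).le (g0.trans t3)
    · have t1 : _ ≤ k.kk i _ := mul_le_mul_of_nonneg_left
        (up _ _ (hN.trans_le hNM) i2 (r6_nonneg k.b)) (r6_nonneg k.eta)
      have t2 := Zt_ge (kn := knR k.h k.kn) (fun p hp => by
        obtain ⟨e, he, rfl⟩ := List.mem_map.1 hp
        simp only [e6]
        refine (le_or_gt e.1 i).imp (fun e => by gcongr) fun e => ?_
        gcongr
        exact_mod_cast e) h1 h2 (min_le_left (k.Z i) (k.Z (i + 1)))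
        ((min_le_right _ _).trans_eq (by rw [KD.Z, Nat.cast_succ]))
      linarith

theorem KD.pos {k : KD} {ph d0 : ℕ} (h : k.ok ph d0 = true) :
    0 < k.G ∧ 500000 ≤ k.T ∧ k.T ≤ 8000000 ∧ k.l ≤ 10000000 ∧ ∀ s ∈ k.sc, s.th ≤ 1000000 :=
  have ⟨⟨a1, a2, a3, a4, a5, _⟩, b, _⟩ := KD.spec h
  ⟨a1, a2, a3.trans a4, a5, fun s hs => (b s hs).1⟩

theorem KD.knots {k : KD} (h : ∀ e ∈ k.kn, e.1.mul k.h ≤ k.T2) :
    ∀ p ∈ knR k.h k.kn, 0 ≤ p.1 ∧ p.1 ≤ r6 k.T2 := fun p hp => by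
  obtain ⟨e, he, rfl⟩ := List.mem_map.1 hp
  exact ⟨r6_nonneg _, r6_le.2 (h e he)⟩

theorem KD.scan {k : KD} {ph d0 : ℕ} (h : k.ok ph d0 = true) : ∀ s ∈ k.sc,
    Scan (knR k.h k.kn) (r6 k.T) (r6 s.th * (r6 k.eta * r6 ph / 2)) (r6 s.k1) (r6 s.k2)
      (r6 s.ys ^ 2 + 10 / r6 k.T ^ 2) := by
  obtain ⟨⟨a1, a2, a3, a4, a5, a6, a7, a8⟩, b, c1, c2, -⟩ := KD.spec h
  have hr := r6_pos a7
  have hT : 0 < r6 k.T2 := r6_pos (by omega)
  intro s hs
  have := SD.sound (b s hs).2 a2 (a3.trans a4) (fun e he => (a8 e he).trans a4)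
    (Kt_le hT.le (KD.knots a8) fun t h0 h1 => ?_)
  · convert this using 1
    simp only [iv_mul, r6]
    ring
  have g0 := mul_nonneg (r6_nonneg k.eta) (gT_nonneg hT (r6 k.b) h0 h1)
  rcases le_or_gt (r6 k.T) t with e | e
  · exact g0.trans (c1 t e h1)
  · rw [k.T_eq, ← div_lt_iff₀ hr] at e
    obtain ⟨-, d1, -, -, d2⟩ := c2 ⌊t / r6 k.h⌋₊ ((Nat.floor_lt (by positivity)).2 e)
    exact (add_nonneg g0 d1).trans (d2 t ((le_div_iff₀ hr).1 (Nat.floor_le (by positivity)))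
      ((div_le_iff₀ hr).1 (Nat.lt_floor_add_one _).le)).2.2

theorem KD.fam {k : KD} {ph d0 : ℕ} (h : k.ok ph d0 = true) (hd : 0 < d0) (psF psC : List MP)
    {lo : ℝ} (hlo : r6 k.b ≤ lo) {w : ℝ → ℝ → ℝ} {c : ℝ → ℝ}
    (hw : WtJ (gT (r6 k.T) (r6 k.l)) (r6 k.T) (r6 ph / 2 + r6 d0) (r6 k.l) (r6 k.G)
      (r6 (k.C ph d0)) (r6 k.eta * r6 ph / 2) lo (Kt (knR k.h k.kn)) w c) :
    Ev (r6 ph) psF psC fun _ _ _ _ _ _ D =>
      (∀ i, lo ≤ D.lam i) → ∀ lone, D.FamJ (r6 k.l) lone w c := by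
  obtain ⟨⟨a1, a2, a3, a4, a5, a6, a7, a8⟩, -, c1, c2, c3⟩ := KD.spec h
  refine famK psF psC (r6_nonneg _) (r6_pos a7) k.T_eq (le_trans (by norm_num [r6]) (r6_le.2 a2))
    (r6_le.2 a3) ((r6_le.2 a4).trans (by norm_num [r6])) (r6_nonneg _) (r6_nonneg _)
    ((r6_le.2 a6).trans (by norm_num [r6])) (r6_nonneg _) ((r6_le.2 a5).trans (by norm_num [r6]))
    hlo (r6_pos hd) (KD.knots a8) c1 (kl := fun i => k.kk (i + 1) (i * r6 k.h)) c2 c3 ?_ hw
  have := iv_le_div (k.eta.mul ph) 2000000 (by norm_num)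
  simp only [KD.C, r6, iv_add, iv_mul, Nat.cast_one, Nat.cast_ofNat] at this ⊢
  linarith

end Pool.Agent.Lib.MP_778b46_nt.GX.Ck
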