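import Pool.Agent.Lib.MP_778b46_nt.GX.Ka
import Pool.Agent.Lib.MP_778b46_nt.GX.CqA

/- Values at the two ends of a cell. -/

namespace Pool.Agent.Lib.MP_778b46_nt.GX.Cq

open Ck
open Pool.Agent.Lib.MP_6cad4c_al

/-- Evaluate `n` first. -/
noncomputable def frc {α : Type} (n : ℕ) (f : ℕ → α) : α :=
  Nat.rec (motive := fun _ => α) (f 0) (fun m _ => f (Nat.succ m)) n

theorem frc_eq {α : Type} (n : ℕ) (f : ℕ → α) : frc n f = f n := by cases n <;> rfl

/-- Upper bound at `n / 10 ^ 12`. -/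
def rfQ (n : ℕ) : ℕ :=
  ((((((n.pow 5).mul E12).add ((n.mul n).mul (Nat.mul 30 (E12.pow 4)))).mul ONE).add
    (((Nat.mul 30 (E12.pow 4)).mul ((n.add (Nat.mul 2 E12)).pow 2)).mul (nHi n))).sub
    (((((n.mul E12).pow 3).mul 10).add (Nat.mul 120 (E12.pow 6))).mul ONE) |>.div (n.pow 6)).add 1

theorem le_rfQ {n : ℕ} (hn : 0 < n) : RF (n / E12) 0 * 2 ^ 80 ≤ rfQ n := by
  have h0 : (0 : ℝ) < E12 := Nat.cast_pos.2 pE12
  have h1 := RF_closed (w := n / E12) (by positivity)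
  have h2 := le_nHi n
  refine le_sd (Nat.pow_pos hn) ?_
  simp only [iv_add, iv_mul, cpow, iv_ONE, Nat.cast_ofNat]
  generalize (2 : ℝ) ^ 80 = S at *
  generalize (E12 : ℝ) = D at *
  have h3 : RF (n / D) 0 * n ^ 6 = n ^ 5 * D - 10 * (n * D) ^ 3 + 30 * n ^ 2 * D ^ 4 - 120 * D ^ 6 +
      Real.exp (-(n / D)) * (30 * D ^ 4 * (n + 2 * D) ^ 2) := by
    calc _ = RF (n / D) 0 * (n / D) ^ 6 * D ^ 6 := by field_simp
      _ = _ := by rw [h1]; field_simp
  have h4 := mul_le_mul_of_nonneg_left h2 (show 0 ≤ 30 * D ^ 4 * (n + 2 * D) ^ 2 by positivity)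
  rw [mul_right_comm (RF _ _), h3]
  linarith

/-- Upper bound for `RR T x 0`, `a - b ≤ x`. -/
def rrUp (T a b : ℕ) : ℕ :=
  cond (Nat.ble ((b.mul T).add E10) (a.mul T)) (((T.mul (rfQ ((a.sub b).mul T))).div E6).add 1)
    (rrHi T (b.sub a))

theorem le_rrUp {T a b : ℕ} (h : b.mul T ≤ BIG) {x : ℝ} (hx : r6 a - r6 b ≤ x) :
    RR (r6 T) x 0 * 2 ^ 80 ≤ rrUp T a b := by
  refine (mul_le_mul_of_nonneg_right (RR_anti (r6_nonneg T) hx) iv_pos.le).trans ?_
  unfold rrUp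
  cases hb : Nat.ble ((b.mul T).add E10) (a.mul T) with
  | true =>
    have h1 : b * T + 10000000000 ≤ a * T := Nat.le_of_ble_eq_true hb
    have h2 : b ≤ a := by
      by_contra h3
      have := Nat.mul_le_mul_right T (not_le.1 h3).le
      omega
    have h3 := le_rfQ (n := (a.sub b).mul T) (by
      show 0 < (a - b) * T
      rw [Nat.sub_mul]
      omega)
    rw [← r6_mul, r6_sub h2] at h3
    rw [RR, zero_mul, cond_true]
    refine le_d pE6 ?_
    rw [iv_mul, cE6]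
    refine le_trans (le_of_eq ?_) (mul_le_mul_of_nonneg_left h3 (Nat.cast_nonneg T))
    generalize RF ((r6 a - r6 b) * r6 T) 0 = y
    rw [r6]
    ring
  | false =>
    refine le_trans (mul_le_mul_of_nonneg_right (RR_anti (r6_nonneg T) ?_) iv_pos.le)
      (le_rrHi (n := b.sub a) ((Nat.mul_le_mul_right T (Nat.sub_le b a)).trans h))
    rw [r6_sub']
    linarith [le_max_left (r6 b - r6 a) 0]

/-- Lower bounds for `RR T (x - l) 0` at the two ends of the cell: the second is `rrLo T c.b l`, the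
first the larger of the second and `2 rrLo T b l - (upper bound at 2 b - a - l)`. -/
noncomputable def ends (T l : ℕ) (c : Cell) : ℕ × ℕ :=
  frc (rrLo T c.b l) fun s =>
    frc (nmax s ((s.add s).sub (rrUp T ((c.b.add c.b).sub c.a) l))) fun f => (f, s)

theorem Cell.mem.lt {c : Cell} (hb : c.b ≠ 0) {x : ℝ} (hx : c.mem x) : x < r6 c.b :=
  hx.2.resolve_left hb

theorem Cell.mem.lam {c : Cell} (hb : c.b ≠ 0) {x : ℝ} (hx : c.mem x) :
    0 ≤ (r6 c.b - x) / (r6 c.b - r6 c.a) ∧ (r6 c.b - x) / (r6 c.b - r6 c.a) ≤ 1 := by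
  have h1 := hx.lt hb
  have h2 := hx.1
  exact ⟨div_nonneg (by linarith) (by linarith), (div_le_one (by linarith)).2 (by linarith)⟩

theorem ends_sound (T l : ℕ) (hT : T ≤ 8000000) (hl : l ≤ 10000000) {c : Cell} (hb : c.b ≠ 0) {x : ℝ}
    (hx : c.mem x) : (ends T l c).2 ≤ (ends T l c).1 ∧ ((ends T l c).2 : ℝ) +
      (r6 c.b - x) / (r6 c.b - r6 c.a) * ((ends T l c).1 - (ends T l c).2) ≤
        RR (r6 T) (x - r6 l) 0 * 2 ^ 80 := by
  have h1 := hx.lt hb
  have h2 := hx.1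
  have h3 : c.a ≤ c.b.add c.b := (r6_lt.1 (h2.trans_lt h1)).le.trans (Nat.le_add_left _ _)
  have h4 := rrLo_le T c.b l le_rfl
  have h5 := le_rrUp (T := T) (a := (c.b.add c.b).sub c.a) (b := l)
    ((Nat.mul_le_mul hl hT).trans (by norm_num [BIG])) le_rfl
  have h6 := mul_le_mul_of_nonneg_right (RR_secant (r6_nonneg T) (sub_le_sub_right h1.le (r6 l))
    (sub_pos.2 (h2.trans_lt h1))) iv_pos.le
  have h7 := mul_le_mul_of_nonneg_right (RR_anti (r6_nonneg T) (sub_le_sub_right h1.le (r6 l)))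
    iv_pos.le
  have h8 := (hx.lam hb).1
  rw [r6_sub h3, r6_add] at h5
  rw [sub_sub_sub_cancel_right, show r6 c.b - r6 l + (r6 c.b - r6 c.a) =
    r6 c.b + r6 c.b - r6 c.a - r6 l by ring] at h6
  simp only [ends, frc_eq]
  refine ⟨Nat.le_add_right _ _, ?_⟩
  rw [iv_nmax, iv_sub, iv_add, max_comm _ 0, ← max_assoc, max_eq_left (Nat.cast_nonneg _)]
  generalize (r6 c.b - x) / (r6 c.b - r6 c.a) = u at *
  generalize (2 : ℝ) ^ 80 = S at *
  generalize (rrLo T c.b l : ℝ) = s at *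
  rcases max_choice s (s + s - (rrUp T ((c.b.add c.b).sub c.a) l : ℕ)) with e | e <;> rw [e]
  · linarith
  · nlinarith [mul_le_mul_of_nonneg_left h4 h8, mul_le_mul_of_nonneg_left h5 h8]

/-- The value which is `p - n` at the right end and `p + d - n` at the left end. -/
noncomputable def mkV (L : ℕ) (c : Cell) (p d n : ℕ) : V :=
  frc (nHi (L.mul (c.b.sub c.a))) fun s =>
    frc ((d.mul ONE).div (ONE.sub s)) fun m => ⟨p, n.add (mhi m s), m⟩

theorem mkV_sound (L : ℕ) {c : Cell} (hb : c.b ≠ 0) (p d n : ℕ) {x : ℝ} (hx : c.mem x) :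
    (mkV L c p d n).val (Real.exp (-(r6 L * (x - r6 c.a)))) * 2 ^ 80 ≤
      (p : ℝ) + (r6 c.b - x) / (r6 c.b - r6 c.a) * d - n := by
  have h1 := (hx.1.trans_lt (hx.lt hb))
  obtain ⟨h2, h3⟩ := hx.lam hb
  have h4 := le_nHi (L.mul (c.b.sub c.a))
  rw [← r6_mul, r6_sub (r6_lt.1 h1).le] at h4
  have h5 := convexOn_exp.2 (Set.mem_univ 0) (Set.mem_univ (-(r6 L * (r6 c.b - r6 c.a)))) h2
    (sub_nonneg.2 h3) (add_sub_cancel _ _)
  rw [smul_eq_mul, smul_eq_mul, smul_eq_mul, smul_eq_mul, Real.exp_zero,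
    show (r6 c.b - x) / (r6 c.b - r6 c.a) * 0 + (1 - (r6 c.b - x) / (r6 c.b - r6 c.a)) *
      -(r6 L * (r6 c.b - r6 c.a)) = -(r6 L * (x - r6 c.a)) by
        field_simp [(sub_pos.2 h1).ne']
        ring] at h5
  simp only [mkV, frc_eq, V.val, mhi, iv_add, Nat.cast_one]
  generalize nHi (L.mul (c.b.sub c.a)) = s at *
  have h6 : (((d.mul ONE).div (ONE.sub s) : ℕ) : ℝ) * (ONE.sub s : ℕ) ≤ (d.mul ONE : ℕ) := by
    rw [← Nat.cast_mul]
    exact Nat.cast_le.2 (Nat.div_mul_le_self _ _)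
  generalize (d.mul ONE).div (ONE.sub s) = m at *
  have h7 := iv_le_shr (m.mul s) 80
  have h8 : (0 : ℝ) ≤ m := Nat.cast_nonneg m
  rw [iv_mul, div_le_iff₀ iv_pos] at h7
  rw [iv_sub, iv_mul, iv_ONE] at h6
  have h9 := (mul_le_mul_of_nonneg_left (le_max_left _ _) h8).trans h6
  rw [div_mul_cancel₀ _ iv_pos.ne']
  have hS := iv_pos
  refine le_of_mul_le_mul_right ?_ hS
  generalize (r6 c.b - x) / (r6 c.b - r6 c.a) = u at *
  generalize (2 : ℝ) ^ 80 = S at *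
  nlinarith [mul_le_mul_of_nonneg_left h5 (mul_nonneg h8 hS.le), mul_le_mul_of_nonneg_left h9 h2,
    mul_le_mul_of_nonneg_left h4 (mul_nonneg h8 (sub_nonneg.2 h3))]

/-- Lower bound for the square root: `min (n / u) u` with `u = sqrtN n` (the start `g` is not used). -/
noncomputable def sqLow (n _g : ℕ) : ℕ := frc n fun n => frc (sqrtN n) fun u => nmin (n.div u) u

theorem sqLow_sq (n g : ℕ) : sqLow n g * sqLow n g ≤ n := by
  simp only [sqLow, frc_eq]
  generalize sqrtN n = u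
  refine le_trans (Nat.mul_le_mul (Nat.sub_le _ _) ?_) (Nat.div_mul_le_self n u)
  show n / u - (n / u - u) ≤ u
  omega

end Pool.Agent.Lib.MP_778b46_nt.GX.Cq
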