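import Pool.Agent.Lib.MP_778b46_nt.GX.Ke
import Pool.Agent.Lib.MP_778b46_nt.GX.Kh
import Pool.Agent.Lib.MP_778b46_nt.GX.CqC

/- Columns of the family inequalities with a piecewise linear kernel. -/

namespace Pool.Agent.Lib.MP_778b46_nt.GX.Cq

open Ck
open Pool.Agent.Lib.MP_6cad4c_al

/-- `2 * 10 ^ 18` -/
def D18 : ℕ := 2000000000000000000

theorem cD18 : (D18 : ℝ) = 2 * 10 ^ 18 := by norm_num [D18]

/-- The pair `(e1, e0)` of a cell; `e1 = 0` marks a cell which is not used. -/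
noncomputable def base (T l ec gc : ℕ) (c : Cell) : ℕ × ℕ :=
  cond (Nat.ble c.b 0) (0, 0)
    (frc (sqLow ((((ends T l c).2.sub ec).pow 2).sub gc) 0) fun e1 =>
      frc (nmax e1 (sqLow ((((ends T l c).1.sub ec).pow 2).sub gc) 0)) fun e0 => (e1, e0))

theorem base_sound {T l ec gc : ℕ} (hT : T ≤ 8000000) (hl : l ≤ 10000000) {c : Cell}
    (h : (base T l ec gc c).1 ≠ 0) {x : ℝ} (hx : c.mem x) :
    c.b ≠ 0 ∧ (base T l ec gc c).1 ≤ (base T l ec gc c).2 ∧ ∃ d : ℝ, 0 ≤ d ∧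
      d + ec ≤ RR (r6 T) (x - r6 l) 0 * 2 ^ 80 ∧ (((base T l ec gc c).1 : ℝ) +
        (r6 c.b - x) / (r6 c.b - r6 c.a) * ((base T l ec gc c).2 - (base T l ec gc c).1)) ^ 2 + gc ≤
          d ^ 2 := by
  have hb : c.b ≠ 0 := fun e => h (by rw [base, e]; rfl)
  obtain ⟨h1, h2⟩ := ends_sound T l hT hl hb hx
  obtain ⟨h3, h4⟩ := hx.lam hb
  have h5 : Nat.ble c.b 0 = false := by rw [← Bool.not_eq_true, Nat.ble_eq, Nat.le_zero]; exact hb
  simp only [base, h5, cond_false, frc_eq] at h ⊢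
  generalize (ends T l c).1 = f at *
  generalize (ends T l c).2 = s at *
  have a1 := sqLow_sq (((s.sub ec).pow 2).sub gc) 0
  have a0 := sqLow_sq (((f.sub ec).pow 2).sub gc) 0
  generalize sqLow (((s.sub ec).pow 2).sub gc) 0 = e1 at *
  generalize sqLow (((f.sub ec).pow 2).sub gc) 0 = e0 at *
  have a2 : 0 < e1 * e1 := Nat.mul_pos (Nat.pos_of_ne_zero h) (Nat.pos_of_ne_zero h)
  have a3 : e1 * e1 + gc ≤ (s - ec) ^ 2 := by
    have : e1 * e1 ≤ (s - ec) ^ 2 - gc := a1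
    omega
  have a4 : ec ≤ s := by
    by_contra a
    rw [Nat.sub_eq_zero_of_le (not_le.1 a).le] at a3
    omega
  have a5 : (s - ec) ^ 2 ≤ (f - ec) ^ 2 := Nat.pow_le_pow_left (Nat.sub_le_sub_right h1 _) 2
  have a6 : nmax e1 e0 * nmax e1 e0 + gc ≤ (f - ec) ^ 2 := by
    have : e0 * e0 ≤ (f - ec) ^ 2 - gc := a0
    rcases le_total e0 e1 with a | a
    · rw [show nmax e1 e0 = e1 from by show e1 + (e0 - e1) = e1; omega]
      omega
    · rw [show nmax e1 e0 = e0 from by show e1 + (e0 - e1) = e0; omega]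
      omega
  have b3 : (e1 : ℝ) ^ 2 + gc ≤ ((s : ℝ) - ec) ^ 2 := by rw [sq]; exact_mod_cast a3
  have b6 : ((nmax e1 e0 : ℕ) : ℝ) ^ 2 + gc ≤ ((f : ℝ) - ec) ^ 2 := by
    rw [sq, ← Nat.cast_sub (a4.trans h1)]
    exact_mod_cast a6
  have b4 : (0 : ℝ) ≤ s - ec := sub_nonneg.2 (Nat.cast_le.2 a4)
  have b5 : (0 : ℝ) ≤ f - ec := sub_nonneg.2 (Nat.cast_le.2 (a4.trans h1))
  have b7 := gmf_cs b4 b5 (Nat.cast_nonneg gc) b3 b6
  generalize (r6 c.b - x) / (r6 c.b - r6 c.a) = u at *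
  have h6 := sub_nonneg.2 h4
  refine ⟨hb, Nat.le_add_right _ _, (1 - u) * (s - ec) + u * (f - ec), by positivity,
    by linarith, ?_⟩
  nlinarith [mul_le_mul_of_nonneg_left b3 (mul_nonneg h6 h6),
    mul_le_mul_of_nonneg_left b6 (mul_nonneg h3 h3), mul_le_mul_of_nonneg_left b7 (mul_nonneg h3 h6)]

/-- The amplitude `a` is cut down to what the scan allows on the cell. -/
def capK (T l k1 k2 cs : ℕ) (c : Cell) (a : ℕ) : ℕ :=
  cond (Nat.ble c.b l) a (nmin
    (nmin a (((D18.mul 2).mul ONE).div (k1.mul ((E12.mul 2).add ((c.b.sub l).mul T)))))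
    (cond (Nat.ble k2 0) a
      (((((c.a.sub l).mul 2).mul cs).mul ONE).div (k2.mul (cs.add ((c.b.sub l).pow 2))))))

theorem nmin_div {a b c d : ℕ} (h : a ≤ nmin b (c.div d)) : (a : ℝ) * d ≤ c := by
  have h1 : a ≤ c / d := h.trans (Nat.sub_le_iff_le_add'.2 (Nat.sub_le_iff_le_add.1 le_rfl))
  exact_mod_cast (Nat.mul_le_mul_right d h1).trans (Nat.div_mul_le_self c d)

theorem capK_sound {kn : List (ℝ × ℝ)} {T l k1 k2 cs : ℕ} {cc cs' : ℝ}
    (h : k1 = 0 ∨ Scan kn (r6 T) cc (r6 k1) (r6 k2) cs') (hT : 0 < T) (h0 : 0 < cs)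
    (hcs : (cs : ℝ) / E12 ≤ cs') {c : Cell} (hb : c.b ≠ 0) {x : ℝ} (hx : c.mem x) (hl : r6 l ≤ x)
    (a : ℕ) (y : ℝ) :
    (capK T l k1 k2 cs c a : ℝ) / 2 ^ 80 * (Kt kn y - cc) ≤ 2 * RR (r6 T) (x - r6 l) y := by
  have h1 := hx.lt hb
  have h2 : l < c.b := r6_lt.1 (hl.trans_lt h1)
  have h3 : Nat.ble c.b l = false := by rw [← Bool.not_eq_true, Nat.ble_eq, not_le]; exact h2
  have h4 := sub_nonneg.2 hl
  have h5 : x - r6 l ≤ r6 (c.b.sub l) := by rw [r6_sub h2.le]; linarith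
  have h6 : r6 (c.a.sub l) ≤ x - r6 l := by rw [r6_sub']; exact max_le (by linarith [hx.1]) h4
  rw [capK, h3, cond_false]
  generalize c.b.sub l = B at *
  generalize c.a.sub l = A at *
  generalize x - r6 l = z at *
  set m := nmin (nmin a (((D18.mul 2).mul ONE).div (k1.mul ((E12.mul 2).add (B.mul T)))))
    (cond (Nat.ble k2 0) a ((((A.mul 2).mul cs).mul ONE).div (k2.mul (cs.add (B.pow 2))))) with hm
  have a1 : m ≤ _ := hm.le.trans (Nat.sub_le _ _)
  rcases h with rfl | h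
  · rw [show Nat.mul 0 _ = 0 from Nat.zero_mul _, show Nat.div _ 0 = 0 from Nat.div_zero _,
      show nmin a 0 = 0 from Nat.sub_self a, Nat.le_zero] at a1
    rw [a1, Nat.cast_zero, zero_div, zero_mul]
    exact mul_nonneg zero_le_two (RR_nonneg (r6_nonneg T) h4 y)
  have a2 := nmin_div a1
  have a3 : (m : ℝ) * (k2.mul (cs.add (B.pow 2)) : ℕ) ≤ (((A.mul 2).mul cs).mul ONE : ℕ) := by
    cases e : Nat.ble k2 0 with
    | true =>
      rw [Nat.le_zero.1 (Nat.le_of_ble_eq_true e), iv_mul, Nat.cast_zero, zero_mul, mul_zero]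
      exact Nat.cast_nonneg _
    | false => exact nmin_div (hm.le.trans_eq (by rw [e, cond_false]))
  have a4 : (0 : ℝ) ≤ m := Nat.cast_nonneg m
  clear_value m
  simp only [iv_mul, iv_add, cpow, iv_ONE, cD18, cE12, Nat.cast_ofNat] at a2 a3 hcs
  have hS := iv_pos
  have a5 : (0 : ℝ) < cs := Nat.cast_pos.2 h0
  refine Scan.cap (cs := cs / 10 ^ 12) (fun y => (h y).imp_right (And.imp_right hcs.trans))
    (r6_pos hT) (r6_nonneg k1) (by positivity) (by positivity) h4 ?_ ?_ y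
  · calc _ ≤ m / 2 ^ 80 * r6 k1 * (1 + r6 B * r6 T / 2) := by
          gcongr
          exacts [mul_nonneg (by positivity) (r6_nonneg _), r6_nonneg _]
      _ = m * (k1 * (10 ^ 12 * 2 + B * T)) / (2 * 10 ^ 18 * 2 ^ 80) := by
          generalize (2 : ℝ) ^ 80 = S at *
          simp only [r6]
          field_simp
      _ ≤ 2 := by rw [div_le_iff₀ (by positivity)]; linarith
  · calc _ ≤ m / 2 ^ 80 * r6 k2 * (cs / 10 ^ 12 + r6 B ^ 2) := by
          gcongr
          exact mul_nonneg (by positivity) (r6_nonneg _)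
      _ = m * (k2 * (cs + B ^ 2)) / (10 ^ 18 * 2 ^ 80) := by
          generalize (2 : ℝ) ^ 80 = S at *
          simp only [r6]
          field_simp
      _ ≤ A * 2 * cs * 2 ^ 80 / (10 ^ 18 * 2 ^ 80) := by gcongr
      _ = 2 * r6 A * (cs / 10 ^ 12) := by
          generalize (2 : ℝ) ^ 80 = S at *
          simp only [r6]
          field_simp
      _ ≤ _ := by gcongr

/-- The value for the mass `ms` and the amplitude `a`; `GS` is `G * 2 ^ 80`. -/
noncomputable def valV (L ms An g GS : ℕ) (c : Cell) (r : ℕ × ℕ) (a : ℕ) : V :=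
  mkV L c ((((a.mul 2).mul ms).mul (r.1.add g)).div GS) ((((a.mul 2).mul ms).mul (r.2.sub r.1)).div GS)
    (((((a.mul a).mul An).mul ms).div (D18.mul GS)).add 1)

theorem valV_le (L ms An a : ℕ) {g G : ℕ} (hG : 0 < G) {c : Cell} (hb : c.b ≠ 0) {r : ℕ × ℕ}
    (hr : r.1 ≤ r.2) {x γ : ℝ} (hx : c.mem x) (hg : (g : ℝ) ≤ γ * 2 ^ 80) :
    (valV L ms An g (G.mul ONE) c r a).val (Real.exp (-(r6 L * (x - r6 c.a)))) ≤
      r6 ms * ((2 * (a / 2 ^ 80) * ((r.1 + (r6 c.b - x) / (r6 c.b - r6 c.a) * (r.2 - r.1)) /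
        2 ^ 80 + γ) - An / D18 * (a / 2 ^ 80) ^ 2) / r6 G) := by
  have hS := iv_pos
  refine le_of_mul_le_mul_right ((mkV_sound L hb _ _ _ hx).trans ?_) hS
  have h1 := iv_div_le (((a.mul 2).mul ms).mul (r.1.add g)) (G.mul ONE)
  have h2 := mul_le_mul_of_nonneg_left (iv_div_le (((a.mul 2).mul ms).mul (r.2.sub r.1)) (G.mul ONE))
    (hx.lam hb).1
  have h3 := iv_le_div (((a.mul a).mul An).mul ms) (D18.mul (G.mul ONE))
    (Nat.mul_pos (by norm_num [D18]) (Nat.mul_pos hG (by norm_num [ONE])))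
  have h4 : (0 : ℝ) < G := Nat.cast_pos.2 hG
  have h5 : (a : ℝ) * 2 * ms * (r.1 + g) / (G * 2 ^ 80) ≤ a * 2 * ms * (r.1 + γ * 2 ^ 80) /
      (G * 2 ^ 80) := by gcongr
  rw [iv_add _ 1, Nat.cast_one]
  rw [iv_mul _ (r.2.sub r.1), show ((r.2.sub r.1 : ℕ) : ℝ) = r.2 - r.1 from Nat.cast_sub hr] at h2
  simp only [iv_mul, iv_add, iv_ONE, Nat.cast_ofNat, cD18] at h1 h2 h3 ⊢
  refine le_trans (sub_le_sub (add_le_add (h1.trans h5) h2) h3) (le_of_eq ?_)
  generalize (r6 c.b - x) / (r6 c.b - r6 c.a) = u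
  generalize (2 : ℝ) ^ 80 = S at *
  simp only [r6]
  field_simp
  ring

/-- The value of an entry on a cell with the pair `r`. -/
noncomputable def optV (L T l ms An g k1 k2 cs GS : ℕ) (c : Cell) (r : ℕ × ℕ) : V :=
  cond (Nat.ble r.1 0) ⟨0, 0, 0⟩
    (frc (capK T l k1 k2 cs c (((((r.1.add r.2).div 2).add g).mul D18).div An))
      (valV L ms An g GS c r))

/-- `∑ f (p, q) * (n h) ^ 2` -/
noncomputable def kS (h : ℕ) (f : ℕ × ℕ → ℕ) (kn : List (ℕ × ℕ × ℕ)) : ℕ :=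
  List.rec (motive := fun _ => ℕ) 0 (fun e _ ih => ih.add ((f e.2).mul ((e.1.mul h).pow 2))) kn

theorem Kt_zero (h : ℕ) (kn : List (ℕ × ℕ × ℕ)) :
    Kt (knR h kn) 0 = ((kS h Prod.fst kn : ℝ) - kS h Prod.snd kn) / D18 := by
  rw [Kt, if_pos rfl, cD18]
  induction kn with
  | nil => simp [knR, kS]
  | cons e t ih =>
    rw [knR, List.map_cons, List.map_cons, List.sum_cons, ← knR, ih]
    show _ = ((((kS h Prod.fst t).add (e.2.1.mul ((e.1.mul h).pow 2)) : ℕ) : ℝ) -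
      ((kS h Prod.snd t).add (e.2.2.mul ((e.1.mul h).pow 2)) : ℕ)) / _
    simp only [iv_add, iv_mul, cpow, r6]
    ring

section

variable (X : Par) (k : KD)

/-- The scan of an entry `(mass, j, t)`. -/
noncomputable def scE (e : ℕ × ℕ × ℕ) : SD := nth ⟨1000000, 0, 0, 0, []⟩ k.sc e.2.1

/-- `(K 0 - θ c0) * (2 * 10 ^ 18)` -/
noncomputable def anE (e : ℕ × ℕ × ℕ) : ℕ :=
  (kS k.h Prod.fst k.kn).sub ((kS k.h Prod.snd k.kn).add ((scE k e).th.mul (k.eta.mul X.ph)))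

/-- `(1 - θ) c0 t * (2 * 10 ^ 24)` -/
noncomputable def gnE (e : ℕ × ℕ × ℕ) : ℕ :=
  ((E6.sub (scE k e).th).mul (k.eta.mul X.ph)).mul e.2.2

noncomputable def baseK (c : Cell) : ℕ × ℕ :=
  base k.T k.l ((((X.ph.add (X.d0.mul 2)).mul ONE).div 2000000).add 1)
    ((((k.G.mul (k.C X.ph X.d0)).mul TWO).div E12).add 1) c

noncomputable def colE (cs : List Cell) (e : ℕ × ℕ × ℕ) : List V :=
  mp (fun c => optV X.L k.T k.l e.1 (anE X k e) (((gnE X k e).mul ONE).div (D18.mul E6))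
    (scE k e).k1 (scE k e).k2
    (((scE k e).ys.pow 2).add (((E12.mul E12).mul 10).div (k.T.pow 2))) (k.G.mul ONE) c
    (baseK X k c)) cs

noncomputable def colV (cs : List Cell) (es : List (ℕ × ℕ × ℕ)) : List V :=
  List.rec (motive := fun _ => List V) [] (fun e t ih => List.rec (motive := fun _ => List V)
    (colE X k cs e) (fun _ _ _ => axpy 1 (colE X k cs e) ih) t) es

noncomputable def costV (es : List (ℕ × ℕ × ℕ)) : ℕ :=
  List.rec (motive := fun _ => ℕ) 0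
    (fun e _ ih => (cond (Nat.ble ((e.1.mul (gnE X k e)).mul e.2.2) 0) 0
      ((((e.1.mul (gnE X k e)).mul e.2.2).div (D18.mul k.G)).add 1)).add ih) es

noncomputable def massV (es : List (ℕ × ℕ × ℕ)) : ℕ :=
  List.rec (motive := fun _ => ℕ) 0 (fun e _ ih => e.1.add ih) es

/-- The local condition in `WtJ` for the entry `e`. -/
def WtX (e : ℕ × ℕ × ℕ) (x u : ℝ) : Prop :=
  u ≤ 0 ∨ ∃ α d e' : ℝ, 0 ≤ α ∧ 0 ≤ d ∧ d ≤ RR (r6 k.T) (x - r6 k.l) 0 - (r6 X.ph / 2 + r6 X.d0) ∧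
    e' ^ 2 + r6 k.G * r6 (k.C X.ph X.d0) ≤ d ^ 2 ∧
    (r6 k.l ≤ x → ∀ y, α * (Kt (knR k.h k.kn) y - r6 (scE k e).th * (r6 k.eta * r6 X.ph / 2)) ≤
      2 * RR (r6 k.T) (x - r6 k.l) y) ∧
    u * r6 k.G ≤ 2 * α * (e' + (1 - r6 (scE k e).th) * (r6 k.eta * r6 X.ph / 2) * r6 e.2.2) -
      anE X k e / D18 * α ^ 2

end

/-- The variants (cost, column) of a family constraint. -/
noncomputable def varK (X : Par) (cs : List Cell) (k : KD) : List (ℕ × List V) :=
  mp (fun es => (costV X k es, colV X k cs es)) k.vs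

/-- `X.ph`, `X.d0`, `k.b ≤ X.sa`, total mass of each variant at most `10 ^ 6`. -/
noncomputable def okK (X : Par) (k : KD) : Bool :=
  k.ok X.ph X.d0 && Nat.ble k.b X.sa && allL (fun es => Nat.ble (massV es) E6) k.vs

section

variable {X : Par} {k : KD}

theorem scE_th (h : k.ok X.ph X.d0 = true) (e : ℕ × ℕ × ℕ) : (scE k e).th ≤ E6 :=
  (nth_mem _ k.sc e.2.1).elim (fun a => by rw [scE, a]; exact le_rfl) ((KD.pos h).2.2.2.2 _)

theorem gnE_eq (h : k.ok X.ph X.d0 = true) (e : ℕ × ℕ × ℕ) : (gnE X k e : ℝ) =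
    (1 - r6 (scE k e).th) * (r6 k.eta * r6 X.ph / 2) * r6 e.2.2 * (D18 * E6) := by
  rw [gnE, iv_mul, iv_mul, iv_mul,
    show ((E6.sub (scE k e).th : ℕ) : ℝ) = E6 - _ from Nat.cast_sub (scE_th h e), cD18, cE6]
  simp only [r6]
  ring

theorem colE_sound (h : k.ok X.ph X.d0 = true) (cs : List Cell) (e : ℕ × ℕ × ℕ) :
    ∃ F : ℝ → ℝ, (∀ x, WtX X k e x (F x)) ∧
      Bd (r6 X.L) cs (colE X k cs e) fun x => r6 e.1 * F x := by
  obtain ⟨p1, p2, p3, p4, -⟩ := KD.pos h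
  have hS := iv_pos
  have q1 := r6_pos p1
  have q2 : 0 < k.T := by omega
  obtain ⟨f, h1, h2⟩ := bd_exists (L := r6 X.L) (fun x v => ∃ u, WtX X k e x u ∧ v ≤ r6 e.1 * u)
    (fun _ => 0) (fun _ => ⟨0, Or.inl le_rfl, by simp⟩) _ (fun c x hx => by
      refine ⟨_, ?_, le_rfl⟩
      show ∃ u, WtX X k e x u ∧ V.val (optV X.L k.T k.l e.1 (anE X k e)
        (((gnE X k e).mul ONE).div (D18.mul E6)) (scE k e).k1 (scE k e).k2
        (((scE k e).ys.pow 2).add (((E12.mul E12).mul 10).div (k.T.pow 2))) (k.G.mul ONE) c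
        (baseK X k c)) _ ≤ _
      unfold optV
      cases hb : Nat.ble (baseK X k c).1 0 with
      | true => exact ⟨0, Or.inl le_rfl, by simp [V.val]⟩
      | false =>
        obtain ⟨b1, b2, d, b3, b4, b5⟩ := base_sound p3 p4 (c := c)
          (fun a => by rw [baseK, a] at hb; exact absurd hb (by decide)) hx
        have a1 : 0 ≤ (1 - r6 (scE k e).th) * (r6 k.eta * r6 X.ph / 2) * r6 e.2.2 :=
          le_of_mul_le_mul_right (by rw [← gnE_eq h, zero_mul]; positivity)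
            (show (0 : ℝ) < D18 * E6 by rw [cD18, cE6]; positivity)
        rw [cond_false, frc_eq]
        refine ⟨_, Or.inr ⟨_, d / 2 ^ 80, _, ?_, by positivity, ?_, ?_, fun hl y =>
          capK_sound (cs' := r6 (scE k e).ys ^ 2 + 10 / r6 k.T ^ 2) ?_ q2 ?_ ?_ b1 hx hl _ y,
          (div_mul_cancel₀ _ q1.ne').le⟩, valV_le _ _ _ _ p1 b1 b2 hx (d_le (by positivity) ?_)⟩
        · positivity
        · have := le_d (p := (X.ph.add (X.d0.mul 2)).mul ONE) (c := 2000000)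
            (x := (r6 X.ph / 2 + r6 X.d0) * 2 ^ 80) (by norm_num) (le_of_eq (by
              simp only [iv_mul, iv_add, iv_ONE, r6, Nat.cast_ofNat]
              generalize (2 : ℝ) ^ 80 = S
              ring))
          rw [div_le_iff₀ hS, sub_mul]
          linarith
        · have := le_d (p := (k.G.mul (k.C X.ph X.d0)).mul TWO) (c := E12)
            (x := r6 k.G * r6 (k.C X.ph X.d0) * (2 ^ 80) ^ 2) pE12 (le_of_eq (by
              rw [r6_mul, iv_mul _ TWO, iv_TWO, mul_right_comm, div_mul_cancel₀ _ Env.e12.ne', sq]))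
          rw [div_pow, div_pow, le_div_iff₀ (by positivity), add_mul,
            div_mul_cancel₀ _ (by positivity)]
          exact le_trans (add_le_add le_rfl this) b5
        · exact (nth_mem _ k.sc e.2.1).imp (fun a => by rw [scE, a]) (KD.scan h _)
        · refine Nat.add_pos_right _ (Nat.div_pos ?_ (Nat.pow_pos q2))
          exact (Nat.pow_le_pow_left p3 2).trans (by norm_num [E12])
        · have := iv_div_le ((E12.mul E12).mul 10) (k.T.pow 2)
          have q3 : (0 : ℝ) < k.T := Nat.cast_pos.2 q2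
          rw [iv_add, div_le_iff₀ Env.e12]
          refine (add_le_add le_rfl this).trans (le_of_eq ?_)
          simp only [iv_mul, cpow, cE12, r6, Nat.cast_ofNat]
          field_simp
        · rw [iv_mul, iv_mul, gnE_eq h, iv_ONE, mul_right_comm]) cs
  choose F h3 h4 using h1
  exact ⟨F, h3, h2.mono h4⟩

theorem colV_bd {cs : List Cell} {F : ℕ × ℕ × ℕ → ℝ → ℝ}
    (h : ∀ e, Bd (r6 X.L) cs (colE X k cs e) (F e)) (es : List (ℕ × ℕ × ℕ)) :
    Bd (r6 X.L) cs (colV X k cs es) fun x => (es.map fun e => F e x).sum := by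
  induction es with
  | nil => exact bd_nil _ _
  | cons e t ih => cases t with
    | nil => exact (h e).mono fun x => by simp
    | cons e' t => exact ((h e).axpy 1 ih).mono fun x => by simp

theorem massV_eq (es : List (ℕ × ℕ × ℕ)) : (es.map fun e => r6 e.1).sum = r6 (massV es) := by
  induction es with
  | nil => simp [massV, r6]
  | cons e t ih => rw [List.map_cons, List.sum_cons, ih, ← r6_add]; rfl

theorem costV_ge (h : k.ok X.ph X.d0 = true) (es : List (ℕ × ℕ × ℕ)) :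
    (es.map fun e => r6 e.1 * ((1 - r6 (scE k e).th) * (r6 k.eta * r6 X.ph / 2) * r6 e.2.2 ^ 2 /
      r6 k.G)).sum ≤ (costV X k es : ℝ) / E12 := by
  have p1 := (KD.pos h).1
  have p2 : (0 : ℝ) < k.G := Nat.cast_pos.2 p1
  induction es with
  | nil => simp [costV]
  | cons e t ih =>
    show _ ≤ (((cond (Nat.ble ((e.1.mul (gnE X k e)).mul e.2.2) 0) 0
      ((((e.1.mul (gnE X k e)).mul e.2.2).div (D18.mul k.G)).add 1)).add (costV X k t) : ℕ) : ℝ) / E12
    have q : r6 e.1 * ((1 - r6 (scE k e).th) * (r6 k.eta * r6 X.ph / 2) * r6 e.2.2 ^ 2 / r6 k.G) *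
        E12 * (D18.mul k.G : ℕ) = ((e.1.mul (gnE X k e)).mul e.2.2 : ℕ) := by
      rw [iv_mul, iv_mul, iv_mul, gnE_eq h, cE12, cE6]
      generalize (1 - r6 (scE k e).th) * (r6 k.eta * r6 X.ph / 2) = z
      simp only [r6]
      field_simp
    have q0 : 0 < D18.mul k.G := Nat.mul_pos (by norm_num [D18]) p1
    rw [List.map_cons, List.sum_cons, iv_add, add_div]
    refine add_le_add ((le_div_iff₀ Env.e12).2 ?_) ih
    cases c : Nat.ble ((e.1.mul (gnE X k e)).mul e.2.2) 0 with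
    | false => exact le_d q0 q.le
    | true =>
      rw [Nat.le_zero.1 (Nat.le_of_ble_eq_true c), Nat.cast_zero] at q
      exact ((mul_eq_zero.1 q).resolve_right (Nat.cast_pos.2 q0).ne').le.trans (Nat.cast_nonneg _)

end

theorem sfK {Ex : Par → MProp3} {X : Par} {k : KD} (hX : X.Ok) (h : okK X k = true) (M : LL)
    (cs : List Cell) : SF Ex X M cs k.l true (varK X cs k) := by
  simp only [okK, Bool.and_eq_true, Nat.ble_eq] at h
  obtain ⟨⟨h1, h2⟩, h3⟩ := h
  obtain ⟨p1, p2, -⟩ := KD.pos h1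
  choose F hF hB using colE_sound h1 cs
  have hv : ∀ v, nth (0, []) (varK X cs k) v =
      (costV X k (nth [] k.vs v), colV X k cs (nth [] k.vs v)) :=
    nth_mp (fun es => (costV X k es, colV X k cs es)) [] k.vs
  have h4 := (KD.fam h1 hX.1 M.psF M.psC (r6_le.2 h2)
    (w := fun τ => F (Denumerable.ofNat _ ⌊τ⌋₊))
    (c := fun τ => (fun e => (1 - r6 (scE k e).th) * (r6 k.eta * r6 X.ph / 2) * r6 e.2.2 ^ 2 /
      r6 k.G) (Denumerable.ofNat (ℕ × ℕ × ℕ) ⌊τ⌋₊)) fun τ => by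
      beta_reduce
      generalize Denumerable.ofNat (ℕ × ℕ × ℕ) ⌊τ⌋₊ = e
      refine ⟨r6 (scE k e).th, r6 e.2.2, anE X k e / D18, r6_nonneg _, ?_, ?_,
        (div_mul_cancel₀ _ (r6_pos p1).ne').ge, fun x _ => ?_⟩
      · exact (r6_le.2 (scE_th h1 e)).trans_eq (by norm_num [r6, E6])
      · rw [Kt_zero, anE, iv_sub, cD18, le_div_iff₀ (by positivity)]
        refine le_trans (le_of_eq ?_) (le_max_left _ _)
        simp only [iv_add, iv_mul, r6]
        ring
      · simp only [RL_gT (r6_pos (show 0 < k.T by omega))]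
        exact hF e x).up (r6 X.ph1) M.qsF M.qsC
  refine ⟨fun v x => ((nth [] k.vs v).map fun e => r6 e.1 * F e x).sum, fun v => ?_,
    EvH.of h4 fun _ _ _ _ _ _ D _ _ _ _ _ e1 _ e2 S τ hS => ?_⟩
  · rw [hv]
    exact colV_bd hB _
  · have := (e1 (prim_ge hX e2) _).mix
      (fun τ => (nth [] k.vs ⌊τ⌋₊).map fun e => (r6 e.1, (Encodable.encode e : ℝ)))
      (fun τ => List.forall_mem_map.2 fun e _ => r6_nonneg _) (fun τ => by
        rw [List.map_map]
        refine (massV_eq _).trans_le ((r6_le.2 (show _ ≤ E6 from ?_)).trans_eq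
          (by norm_num [r6, E6]))
        exact (nth_mem [] k.vs ⌊τ⌋₊).elim (fun a => by rw [a]; exact Nat.zero_le _)
          fun a => Nat.le_of_ble_eq_true (allL_mem h3 _ a)) S τ hS
    simp only [List.map_map, Function.comp_def, Nat.floor_natCast, Denumerable.ofNat_encode] at this
    refine this.trans (add_le_add le_rfl (Finset.sum_le_sum fun K _ => ?_))
    beta_reduce
    rw [hv]
    exact costV_ge h1 _

noncomputable def kitK (Ex : Par → MProp3) : Kit Ex KD where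
  ln _ k := k.l
  lone _ := true
  vs := varK
  col _ _ _ := []
  okF := okK
  okC _ _ := false
  okP _ _ := false
  mF _ := ⟨[], [], [], []⟩
  mC _ := ⟨[], [], [], []⟩
  sF _ _ hX h := ⟨LL.ok_nil _ _, fun M _ _ => sfK hX h M _⟩
  sC _ _ _ h := absurd h Bool.false_ne_true
  sP _ _ _ h := absurd h Bool.false_ne_true

end Pool.Agent.Lib.MP_778b46_nt.GX.Cq
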