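import Pool.Agent.Lib.MP_778b46_nt.GX.Kf
import Pool.Agent.Lib.MP_778b46_nt.GX.Kb

/- Columns of the class inequalities with deep zeros. -/

namespace Pool.Agent.Lib.MP_778b46_nt.GX.Cq

open Ck
open Pool.Agent.Lib.MP_6cad4c_al

/-- The parameters of `clsE` in millionths. -/
structure CD where
  T : ℕ
  l : ℕ
  b : ℕ
  T0 : ℕ
  a0 : ℕ
  G : ℕ
  A : ℕ
  M1 : ℕ
  M2 : ℕ

/-- Division rounded up. -/
def cdiv (n d : ℕ) : ℕ := (n.add (d.sub 1)).div d

theorem le_cdiv (n : ℕ) {d : ℕ} (hd : 0 < d) : (n : ℝ) ≤ cdiv n d * d := by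
  rw [← Nat.cast_mul, Nat.cast_le]
  show n ≤ (n + (d - 1)) / d * d
  have := Nat.lt_div_mul_add (a := n + (d - 1)) hd
  omega

namespace CD

variable (k : CD)

def n0 (u : ℕ) : ℕ := (rrHi k.T u).sub (((k.T.mul 5).mul ONE).div 12000000)

def n2 (u : ℕ) : ℕ :=
  ((u.mul ((ONE.mul 293).add ((eHi ((((u.mul k.T).mul 31).div 50).add 1)).mul 37))).div
    100000000).add 1

def bb (ph d0 : ℕ) (c : Cell) : ℕ :=
  ((phT ph d0 E6).add (rrHi k.T0 k.a0)).sub (cond (Nat.ble c.b 0) 0 (rrLo k.T0 c.b k.a0))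

def pen (ph d0 : ℕ) (c : Cell) : ℕ :=
  cond (Nat.ble k.l c.a) 0
    (((((k.n0 (k.l.sub (nmax c.a k.a0))).mul k.M1).add
      ((k.n2 (k.l.sub (nmax c.a k.a0))).mul k.M2)).mul (k.bb ph d0 c)).mul 2)

def cap (c : Cell) : ℕ :=
  nmin (capG k.T k.l k.b c.b) (cond (Nat.ble k.l k.a0) TWO
    (nmin (((k.M2.mul (c.a.sub k.a0)).mul ONE).div E12)
      ((((k.M1.mul (c.a.sub k.a0)).mul (k.T0.mul k.T0)).mul ONE).div
        ((((c.b.sub k.a0).mul (c.b.sub k.a0)).mul (k.T0.mul k.T0)).add ((E12.mul E12).mul 10)))))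

noncomputable def val1 (L : ℕ) (c : Cell) (e0 e1 al pen : ℕ) : V :=
  mkV L c ((((al.mul e1).mul 2).mul E6).div (k.G.mul ONE))
    ((((al.mul (e0.sub e1)).mul 2).mul E6).div (k.G.mul ONE))
    (cdiv ((k.A.mul (al.mul al)).add pen) (k.G.mul ONE))

noncomputable def val0 (L : ℕ) (c : Cell) (E : ℕ × ℕ) (h pen : ℕ) : V :=
  k.val1 L c (E.1.sub h) (E.2.sub h) (cond (Nat.ble h E.2)
    (nmin ((((E.1.sub h).add (E.2.sub h)).mul E6).div (k.A.mul 2)) (k.cap c)) 0) pen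

noncomputable def val (L ph d0 : ℕ) (c : Cell) : V :=
  cond (Nat.ble c.b 0) ⟨0, cdiv (k.pen ph d0 c) (k.G.mul ONE), 0⟩
    (k.val0 L c (ends k.T k.l c) (phT ph d0 E6) (k.pen ph d0 c))

end CD

noncomputable def colD (L ph d0 : ℕ) (k : CD) (cs : List Cell) : List V := mp (k.val L ph d0) cs

noncomputable def okD (d0 : ℕ) (k : CD) : Bool :=
  gOK k.T k.l k.b k.G k.A d0 && Nat.ble ((rrHi k.T k.b).mul E6) (k.A.mul ONE) &&
    Nat.ble 500000 k.T0 && Nat.ble k.T0 8000000 && Nat.ble k.a0 k.l &&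
    Nat.ble ((k.l.sub k.a0).mul k.T) 6000000000000

theorem nmin_l (a b : ℕ) : nmin a b ≤ a := Nat.sub_le _ _

theorem nmin_r (a b : ℕ) : nmin a b ≤ b := by
  show a - (a - b) ≤ b
  omega

theorem le_n0 (k : CD) {u : ℕ} (h : u.mul k.T ≤ BIG) :
    (RR (r6 k.T) (-r6 u) 0 - 5 / 12 * r6 k.T) * 2 ^ 80 ≤ k.n0 u := by
  have h1 := le_rrHi h
  have h2 := iv_div_le ((k.T.mul 5).mul ONE) 12000000
  rw [iv_mul, iv_mul, iv_ONE] at h2
  rw [CD.n0, iv_sub]
  refine le_trans ?_ (le_max_left _ _)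
  generalize RR (r6 k.T) (-r6 u) 0 = z at *
  unfold r6
  push_cast at h2
  linarith

theorem le_n2 (k : CD) {u : ℕ} (h : u.mul k.T ≤ 6000000000000) (hT : 0 < r6 k.T) :
    jB (r6 u * r6 k.T) / r6 k.T * 2 ^ 80 ≤ k.n2 u := by
  have h1 := le_eHi (n := (((u.mul k.T).mul 31).div 50).add 1) (by
    show u.mul k.T * 31 / 50 + 1 ≤ 999000000000000
    omega)
  have h2 : Real.exp (31 / 50 * (r6 u * r6 k.T)) ≤
      Real.exp ((((((u.mul k.T).mul 31).div 50).add 1 : ℕ) : ℝ) / E12) := by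
    refine Real.exp_le_exp.2 ?_
    rw [r6_mul, ← mul_div_assoc]
    refine div_le_div_of_nonneg_right (le_d (by norm_num) (le_of_eq ?_)) Env.e12.le
    rw [iv_mul _ 31]
    push_cast
    ring
  refine le_d (by norm_num) ?_
  have h3 := mul_le_mul_of_nonneg_left ((mul_le_mul_of_nonneg_right h2 iv_pos.le).trans h1)
    (Nat.cast_nonneg u : (0 : ℝ) ≤ u)
  rw [iv_mul, iv_add, iv_mul, iv_mul, iv_ONE, jB, mul_right_comm (r6 u), mul_div_cancel_right₀ _ hT.ne']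
  generalize Real.exp (31 / 50 * (r6 u * r6 k.T)) = z at *
  unfold r6
  push_cast
  linarith

theorem le_bb (k : CD) (ph d0 : ℕ) {c : Cell} {x : ℝ} (hx : c.mem x) (ha : r6 k.a0 ≤ x)
    (h : k.a0.mul k.T0 ≤ BIG) :
    (r6 ph / 2 + RR (r6 k.T0) (-r6 k.a0) 0 + r6 d0 - RR (r6 k.T0) (x - r6 k.a0) 0) * 2 ^ 80 ≤
      k.bb ph d0 c := by
  have h1 := le_phT ph d0 E6
  have h2 := le_rrHi h
  have h3 : ((cond (Nat.ble c.b 0) 0 (rrLo k.T0 c.b k.a0) : ℕ) : ℝ) ≤
      RR (r6 k.T0) (x - r6 k.a0) 0 * 2 ^ 80 := cond_le (fun _ => by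
    rw [Nat.cast_zero]
    exact mul_nonneg (RR_nonneg (r6_nonneg _) (sub_nonneg.2 ha) 0) iv_pos.le) fun e =>
    rrLo_le _ _ _ (sub_le_sub_right (hx.2.resolve_left fun e' => by simp [e'] at e).le _)
  rw [r6_E6, one_mul] at h1
  rw [CD.bb, iv_sub, iv_add]
  exact le_trans (by linarith) (le_max_left _ _)

theorem cap_le (k : CD) {c : Cell} {x : ℝ} (hx : c.mem x) (hb : c.b ≠ 0) (ha : r6 k.a0 ≤ x)
    (hT : 0 < k.T0) (hbT : r6 k.b * r6 k.T ≤ 2) {α : ℝ} (h0 : 0 ≤ α) (h : α * 2 ^ 80 ≤ k.cap c) :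
    (r6 k.a0 < r6 k.l → α * ((x - r6 k.a0) ^ 2 + 10 / r6 k.T0 ^ 2) ≤ r6 k.M1 * (x - r6 k.a0) ∧
      α ≤ r6 k.M2 * (x - r6 k.a0)) ∧
    (r6 k.l ≤ x → α * (1 + (x - r6 k.l) * r6 k.T / 2) ≤ 2 - r6 k.b * r6 k.T) ∧
      α ≤ 2 - r6 k.b * r6 k.T := by
  have hx2 := (hx.2.resolve_left hb).le
  have t0 := r6_nonneg k.T
  have h1 : α * 2 ^ 80 ≤ capG k.T k.l k.b c.b := h.trans (Nat.cast_le.2 (nmin_l _ _))
  refine ⟨fun hl => ?_, fun hl => ?_, ?_⟩
  · have h2 := h.trans (Nat.cast_le.2 (nmin_r _ _))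
    rw [Bool.eq_false_iff.2 fun e => absurd (r6_le.2 (Nat.le_of_ble_eq_true e)) (not_le.2 hl),
      cond_false] at h2
    have u0 : r6 (c.a.sub k.a0) ≤ x - r6 k.a0 := by
      rw [r6_sub']
      exact max_le (sub_le_sub_right hx.1 _) (sub_nonneg.2 ha)
    have u1 : x - r6 k.a0 ≤ r6 (c.b.sub k.a0) := by
      rw [r6_sub']
      exact (sub_le_sub_right hx2 _).trans (le_max_left _ _)
    have u2 := sub_nonneg.2 ha
    have q0 : (0 : ℝ) < k.T0 := Nat.cast_pos.2 hT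
    constructor
    · have h3 := (h2.trans (Nat.cast_le.2 (nmin_r _ _))).trans (iv_div_le _ _)
      simp only [iv_mul, iv_add, iv_ONE, cE12, Nat.cast_ofNat] at h3
      rw [le_div_iff₀ (by positivity)] at h3
      refine le_trans (mul_le_mul_of_nonneg_left (add_le_add (pow_le_pow_left₀ u2 u1 2) le_rfl) h0)
        (le_trans ?_ (mul_le_mul_of_nonneg_left u0 (r6_nonneg _)))
      refine le_of_mul_le_mul_right (le_trans (le_of_eq ?_) (h3.trans (le_of_eq ?_)))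
        (show (0 : ℝ) < 10 ^ 12 * k.T0 ^ 2 * 2 ^ 80 by positivity)
      · unfold r6
        field_simp
      · unfold r6
        field_simp
    · have h3 := (h2.trans (Nat.cast_le.2 (nmin_l _ _))).trans (iv_div_le _ _)
      rw [iv_mul, iv_ONE, mul_div_right_comm, ← r6_mul] at h3
      exact (le_of_mul_le_mul_right h3 iv_pos).trans (mul_le_mul_of_nonneg_left u0 (r6_nonneg _))
  · have h2 := le_of_mul_le_mul_right (h1.trans (capG_le k.T k.l k.b c.b hl hx2)) iv_pos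
    have u0 := mul_nonneg (sub_nonneg.2 hl) t0
    rwa [max_eq_left (div_nonneg (by linarith) (by linarith)), le_div_iff₀ (by linarith)] at h2
  · have h2 : capG k.T k.l k.b c.b ≤ capG k.T k.l k.b k.l :=
      Nat.div_le_div_left (Nat.add_le_add_left (Nat.mul_le_mul_right _ (by
        show k.l - k.l ≤ _
        omega)) _) (Nat.add_pos_left (by decide) _)
    have h3 := le_of_mul_le_mul_right ((h1.trans (Nat.cast_le.2 h2)).trans
      (capG_le k.T k.l k.b k.l le_rfl le_rfl)) iv_pos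
    rwa [sub_self, zero_mul, zero_div, add_zero, div_one, max_eq_left (by linarith)] at h3

theorem pen_sound (k : CD) (ph d0 : ℕ) {c : Cell} {x : ℝ} (hx : c.mem x) (ha : r6 k.a0 ≤ x)
    (hT : 0 < r6 k.T) (h1 : k.a0.mul k.T0 ≤ BIG) (h2 : (k.l.sub k.a0).mul k.T ≤ 6000000000000) :
    ∃ n0 n2 B : ℝ, 0 ≤ n0 ∧ 0 ≤ n2 ∧
      (x < r6 k.l → RR (r6 k.T) (x - r6 k.l) 0 - 5 / 12 * r6 k.T ≤ n0 ∧
        jB ((r6 k.l - x) * r6 k.T) / r6 k.T ≤ n2) ∧
      r6 ph / 2 + RR (r6 k.T0) (-r6 k.a0) 0 + r6 d0 - RR (r6 k.T0) (x - r6 k.a0) 0 ≤ B ∧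
      2 * (n0 * r6 k.M1 + n2 * r6 k.M2) * B * (10 ^ 6 * 2 ^ 80 * 2 ^ 80) = k.pen ph d0 c := by
  unfold CD.pen
  cases e : Nat.ble k.l c.a with
  | true =>
    exact ⟨0, 0, _, le_rfl, le_rfl, fun h => absurd
      ((r6_le.2 (Nat.le_of_ble_eq_true e)).trans hx.1) (not_le.2 h), le_rfl, by simp⟩
  | false =>
    set u := k.l.sub (nmax c.a k.a0) with hu
    have u1 : u.mul k.T ≤ 6000000000000 := (Nat.mul_le_mul_right _ (by
      show k.l - (c.a + (k.a0 - c.a)) ≤ k.l - k.a0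
      omega)).trans h2
    refine ⟨k.n0 u / 2 ^ 80, k.n2 u / 2 ^ 80, k.bb ph d0 c / 2 ^ 80,
      div_nonneg (Nat.cast_nonneg _) iv_pos.le, div_nonneg (Nat.cast_nonneg _) iv_pos.le, fun h => ?_, (le_div_iff₀ iv_pos).2 (le_bb k ph d0 hx ha h1), ?_⟩
    · have u2 : r6 k.l - x ≤ r6 u := by
        rw [hu, r6_sub']
        refine le_trans (sub_le_sub_left ?_ _) (le_max_left _ _)
        rw [r6, iv_nmax, div_le_iff₀ (by positivity)]
        exact max_le ((div_le_iff₀ (by positivity)).1 hx.1) ((div_le_iff₀ (by positivity)).1 ha)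
      rw [le_div_iff₀ iv_pos, le_div_iff₀ iv_pos]
      refine ⟨le_trans (mul_le_mul_of_nonneg_right (sub_le_sub_right (RR_anti hT.le (by linarith)) _)
        iv_pos.le) (le_n0 k (u1.trans (by norm_num [BIG]))), le_trans ?_ (le_n2 k u1 hT)⟩
      exact mul_le_mul_of_nonneg_right (div_le_div_of_nonneg_right (jB_mono
        (mul_nonneg (by linarith) hT.le) (mul_le_mul_of_nonneg_right u2 hT.le)) hT.le) iv_pos.le
    · rw [cond_false, iv_mul, iv_mul, iv_add, iv_mul, iv_mul]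
      generalize (k.n0 u : ℝ) = z1
      generalize (k.n2 u : ℝ) = z2
      generalize (k.bb ph d0 c : ℝ) = z3
      simp only [Nat.cast_ofNat, r6]
      field_simp

theorem colD_sound {d0 : ℕ} {k : CD} (h : okD d0 k = true) (hd : 0 < d0) (L ph : ℕ)
    (cs : List Cell) (psF psC : List MP) : ∃ U : ℝ → ℝ, Bd (r6 L) cs (colD L ph d0 k cs) U ∧
      Ev (r6 ph) psF psC fun _ _ _ _ _ _ D => D.ClsS (r6 k.a0) U := by
  simp only [okD, Bool.and_eq_true, and_assoc] at h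
  obtain ⟨a0, b0, b1, b2, b3, b4⟩ := h
  obtain ⟨a1, a2, a3, a4, a5, a6, a7, a8, a9⟩ := gOK_spec a0
  replace b0 := ble b0
  rw [Nat.ble_eq] at b1 b2 b3 b4
  have hT : 0 < r6 k.T := by linarith
  have hl : k.l ≤ 5000000 := r6_le.1 (a4.trans_eq (by norm_num [r6]))
  have c1 : k.a0.mul k.T0 ≤ BIG := (Nat.mul_le_mul (b3.trans hl) b2).trans (by norm_num [BIG])
  have g0 : (0 : ℝ) < k.G := Nat.cast_pos.2 a6
  have g1 : 0 < k.G.mul ONE := Nat.mul_pos a6 (by decide)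
  have key : ∀ (c : Cell) (x : ℝ), c.mem x → r6 k.a0 ≤ x → WtE (r6 ph) (r6 k.T) (r6 k.l) (r6 k.b)
      (r6 k.T0) (r6 k.a0) (r6 d0) (r6 k.G) (r6 k.A) (r6 k.M1) (r6 k.M2) x
      ((k.val L ph d0 c).val (Real.exp (-(r6 L * (x - r6 c.a))))) := fun c x hx ha => by
    obtain ⟨n0, n2, B, p1, p2, p3, p4, p5⟩ := pen_sound k ph d0 hx ha hT c1 b4
    unfold CD.val
    generalize k.pen ph d0 c = pe at *
    cases e : Nat.ble c.b 0 with
    | true =>
      refine ⟨0, 0, n0, n2, B, le_rfl, Or.inl rfl, fun _ => ⟨?_, ?_⟩, p1, p2, fun _ => by linarith,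
        fun h => ⟨by linarith, p3 h⟩, p4, ?_⟩
      · rw [zero_mul]
        exact mul_nonneg (r6_nonneg _) (sub_nonneg.2 ha)
      · exact mul_nonneg (r6_nonneg _) (sub_nonneg.2 ha)
      · have := le_cdiv pe g1
        rw [← p5, iv_mul, iv_ONE] at this
        refine le_of_mul_le_mul_right ?_ (show (0 : ℝ) < 10 ^ 6 * 2 ^ 80 * 2 ^ 80 by positivity)
        rw [cond_true, V.val]
        generalize cdiv pe (k.G.mul ONE) = z at *
        simp only [Nat.cast_zero, r6] at this ⊢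
        linarith
    | false =>
      have hb : c.b ≠ 0 := fun e' => by simp [e'] at e
      obtain ⟨q1, q2⟩ := ends_sound k.T k.l (r6_le.1 (a2.trans_eq (by norm_num [r6]))) (by omega) hb hx
      have q3 := le_phT ph d0 E6
      rw [r6_E6, one_mul] at q3
      rw [cond_false, CD.val0, CD.val1]
      generalize ends k.T k.l c = E at *
      generalize phT ph d0 E6 = h at *
      generalize hal : cond (Nat.ble h E.2)
        (nmin ((((E.1.sub h).add (E.2.sub h)).mul E6).div (k.A.mul 2)) (k.cap c)) 0 = al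
      replace hal := hal.symm
      have r0 : (0 : ℝ) ≤ al / 2 ^ 80 := div_nonneg (Nat.cast_nonneg _) iv_pos.le
      obtain ⟨r1, r2, r3⟩ := cap_le k hx hb ha (lt_of_lt_of_le (by norm_num) b1) a5 r0 (by
        rw [div_mul_cancel₀ _ iv_pos.ne', Nat.cast_le, hal]
        cases Nat.ble h E.2
        · rw [cond_false]
          exact Nat.zero_le _
        · rw [cond_true]
          exact nmin_r _ _)
      have l0 : 0 ≤ (r6 c.b - x) / (r6 c.b - r6 c.a) := by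
        have := hx.2.resolve_left hb
        exact div_nonneg (by linarith) (by linarith [hx.1])
      have m1 := mkV_sound L hb ((((al.mul (E.2.sub h)).mul 2).mul E6).div (k.G.mul ONE))
        ((((al.mul ((E.1.sub h).sub (E.2.sub h))).mul 2).mul E6).div (k.G.mul ONE))
        (cdiv ((k.A.mul (al.mul al)).add pe) (k.G.mul ONE)) hx
      have m2 := iv_div_le (((al.mul (E.2.sub h)).mul 2).mul E6) (k.G.mul ONE)
      have m3 := iv_div_le (((al.mul ((E.1.sub h).sub (E.2.sub h))).mul 2).mul E6) (k.G.mul ONE)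
      have m4 := le_cdiv ((k.A.mul (al.mul al)).add pe) g1
      rw [le_div_iff₀ (Nat.cast_pos.2 g1)] at m2 m3
      replace m3 := mul_le_mul_of_nonneg_left m3 l0
      replace m1 := mul_le_mul_of_nonneg_right m1 (Nat.cast_nonneg (k.G.mul ONE))
      generalize (r6 c.b - x) / (r6 c.b - r6 c.a) = s at *
      generalize V.val _ _ = t at *
      generalize Nat.div (((al.mul (E.2.sub h)).mul 2).mul E6) _ = z1 at *
      generalize Nat.div (((al.mul ((E.1.sub h).sub (E.2.sub h))).mul 2).mul E6) _ = z2 at *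
      generalize cdiv _ _ = z3 at *
      refine ⟨al / 2 ^ 80, (E.2.sub h + s * ((E.1.sub h).sub (E.2.sub h) : ℕ)) / 2 ^ 80, n0, n2, B,
        r0, ?_, r1, p1, p2, r2, fun h => ⟨r3, p3 h⟩, p4, ?_⟩
      · cases e' : Nat.ble h E.2 with
        | false => left; rw [hal, e', cond_false, Nat.cast_zero, zero_div]
        | true =>
          right
          have q4 := Nat.le_of_ble_eq_true e'
          rw [div_le_iff₀ iv_pos, show (E.1.sub h).sub (E.2.sub h) = E.1 - E.2 from by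
            show E.1 - h - (E.2 - h) = _
            omega, show E.2.sub h = E.2 - h from rfl, Nat.cast_sub q1, Nat.cast_sub q4]
          linarith
      · refine le_of_mul_le_mul_right ?_ (show (0 : ℝ) < 10 ^ 6 * 2 ^ 80 * 2 ^ 80 by positivity)
        rw [sub_mul, p5]
        simp only [iv_mul, iv_add, iv_ONE, cE6, Nat.cast_ofNat] at m1 m2 m3 m4
        simp only [r6]
        linarith
  obtain ⟨U, h1, h2⟩ := bd_exists (L := r6 L) (fun x t => r6 k.a0 ≤ x → WtE (r6 ph) (r6 k.T)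
    (r6 k.l) (r6 k.b) (r6 k.T0) (r6 k.a0) (r6 d0) (r6 k.G) (r6 k.A) (r6 k.M1) (r6 k.M2) x t) _
    (fun x hx => key ⟨k.a0, 0, 0, 0⟩ x ⟨hx, Or.inl rfl⟩ hx) (k.val L ph d0)
    (fun c x hx => ⟨_, key c x hx, le_rfl⟩) cs
  refine ⟨U, h2, clsE psF psC a1 a2 (le_of_eq_of_le (by norm_num [r6]) (r6_le.2 b1))
    ((r6_le.2 b2).trans_eq (by norm_num [r6])) (r6_nonneg _) a3 a4 a5 (r6_nonneg _) (r6_le.2 b3) ?_
    (r6_pos hd) a9 ?_ (r6_nonneg _) (r6_nonneg _) h1⟩
  · rw [← r6_sub b3, r6_mul, div_le_iff₀ Env.e12, cE12]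
    exact (Nat.cast_le.2 b4).trans_eq (by norm_num)
  · have := le_rrHi a8
    simp only [iv_mul, iv_ONE, cE6] at b0
    refine le_of_mul_le_mul_right ?_ iv_pos
    generalize RR (r6 k.T) (-r6 k.b) 0 = z at *
    unfold r6
    linarith

theorem scD {Ex : Par → MProp3} {X : Par} {k : CD} (hX : X.Ok) (h : okD X.d0 k = true) (M : LL)
    (cs : List Cell) : SC Ex X M cs k.a0 (colD X.L X.ph X.d0 k cs) :=
  (colD_sound h hX.1 X.L X.ph cs M.psF M.psC).imp fun _ => And.imp_right fun e =>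
    EvH.of (e.up _ _ _) fun _ _ _ _ _ _ _ _ _ _ _ _ e _ _ => e

/-- Class constraints with the constant `ph`. -/
noncomputable def kitD (Ex : Par → MProp3) : Kit Ex CD where
  ln _ k := k.a0
  lone _ := true
  vs _ _ _ := []
  col X cs k := colD X.L X.ph X.d0 k cs
  okF _ _ := false
  okC X k := okD X.d0 k
  okP X k := okD X.d0 k
  mF _ := ⟨[], [], [], []⟩
  mC _ := ⟨[], [], [], []⟩
  sF _ _ _ h := absurd h Bool.false_ne_true
  sC _ _ hX h := ⟨LL.ok_nil _ _, fun M _ _ => scD hX h M _⟩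
  sP _ _ hX h := ⟨LL.ok_nil _ _, fun M _ _ => (scD hX h M _).sp⟩

/-- Class constraints with the constant `ph1` for the primary classes. -/
noncomputable def kitDL : Kit ExL CD where
  ln _ k := k.a0
  lone _ := true
  vs _ _ _ := []
  col X cs k := colD X.L X.ph1 X.d0 k cs
  okF _ _ := false
  okC _ _ := false
  okP X k := okD X.d0 k
  mF _ := ⟨[], [], [], []⟩
  mC _ := ⟨[], [], [], []⟩
  sF _ _ _ h := absurd h Bool.false_ne_true
  sC _ _ _ h := absurd h Bool.false_ne_true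
  sP X _ hX h := ⟨LL.ok_nil _ _, fun M _ _ =>
    (colD_sound h hX.1 X.L X.ph1 _ M.qsF M.qsC).imp fun _ => And.imp_right fun e =>
      EvH.of (e.lo _ _ _) fun _ _ _ _ _ _ _ _ _ _ _ hD e e' _ p hp =>
        hD.cls_at (e hD.cl.cj_ch).clsL (e' p hp)⟩

noncomputable def kitA (Ex : Par → MProp3) : Kit Ex ((Con ⊕ KD) ⊕ CD) :=
  ((kitO Ex).sum (kitK Ex)).sum (kitD Ex)

noncomputable def kitB : Kit ExL (((Con ⊕ KD) ⊕ CD) ⊕ CD) := (kitA ExL).sum kitDL

end Pool.Agent.Lib.MP_778b46_nt.GX.Cq
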