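import Pool.Agent.Lib.MP_778b46_nt.GX.MoDef

set_option autoImplicit false

noncomputable section

namespace Pool.Agent.Lib.MP_778b46_nt.GX

open Complex Finset Filter MeasureTheory Topology
open scoped Real ContDiff ArithmeticFunction.Moebius

/-! Partial summation against the step functions. -/

namespace Mo

variable {f : ℕ → ℂ} {a s : ℂ} {C θ y L α β : ℝ}

theorem st_nonneg (a b t : ℝ) : 0 ≤ st a b t := by
  exact le_max_left _ _

theorem st_le_one (a b t : ℝ) : st a b t ≤ 1 := by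
  exact max_le zero_le_one (min_le_left _ _)

theorem st_eq_one {a b t : ℝ} (hab : a < b) (ht : t ≤ a) : st a b t = 1 := by
  unfold st
  rw [min_eq_left ((one_le_div (sub_pos.2 hab)).2 (by linarith)), max_eq_right zero_le_one]

theorem st_eq_zero {a b t : ℝ} (hab : a < b) (ht : b ≤ t) : st a b t = 0 := by
  unfold st
  exact max_eq_left ((min_le_right _ _).trans
    (div_nonpos_of_nonpos_of_nonneg (by linarith) (by linarith)))

theorem st_anti {a b : ℝ} (hab : a < b) : Antitone (st a b) := by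
  intro x y hxy
  exact max_le_max le_rfl (min_le_min le_rfl
    (div_le_div_of_nonneg_right (by linarith) (by linarith)))

theorem st_continuous (a b : ℝ) : Continuous (st a b) := by
  unfold st
  fun_prop

/-- Summation by parts against a monotone weight. -/
theorem abel_mono {c : ℕ → ℂ} {k : ℕ → ℝ} {B : ℝ} {M N : ℕ} (hMN : M ≤ N)
    (hc : ∀ n, M ≤ n → n ≤ N → ‖∑ m ∈ Ioc M n, c m‖ ≤ B) (hk : Antitone k) (h0 : ∀ m, 0 ≤ k m)
    (h1 : ∀ m, k m ≤ 1) : ‖∑ m ∈ Ioc M N, c m * k m‖ ≤ B := by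
  have hB : 0 ≤ B := (norm_nonneg _).trans (hc M le_rfl hMN)
  have key : ∀ n, M ≤ n → n ≤ N →
      ‖∑ m ∈ Ioc M n, c m * k m - (∑ m ∈ Ioc M n, c m) * k (n + 1)‖ ≤
        B * (k (M + 1) - k (n + 1)) := by
    intro n hn
    induction n, hn using Nat.le_induction with
    | base => simp
    | succ n hn ih =>
      intro hN
      have e : ∑ m ∈ Ioc M (n + 1), c m * k m - (∑ m ∈ Ioc M (n + 1), c m) * k (n + 1 + 1) =
          (∑ m ∈ Ioc M n, c m * k m - (∑ m ∈ Ioc M n, c m) * k (n + 1)) +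
            (∑ m ∈ Ioc M (n + 1), c m) * ((k (n + 1) - k (n + 1 + 1) : ℝ) : ℂ) := by
        rw [sum_Ioc_succ_top hn, sum_Ioc_succ_top hn]
        push_cast
        ring
      have h2 : 0 ≤ k (n + 1) - k (n + 1 + 1) := sub_nonneg.2 (hk (Nat.le_succ _))
      have h3 := mul_le_mul_of_nonneg_right (hc (n + 1) (by omega) hN) h2
      have h4 := ih (by omega)
      rw [e]
      refine (norm_add_le _ _).trans ?_
      rw [norm_mul, norm_real, Real.norm_of_nonneg h2]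
      linarith
  have h2 := key N hMN le_rfl
  have h3 := mul_le_mul_of_nonneg_right (hc N hMN le_rfl) (h0 (N + 1))
  have h4 := norm_le_norm_sub_add (∑ m ∈ Ioc M N, c m * k m) ((∑ m ∈ Ioc M N, c m) * k (N + 1))
  rw [norm_mul, norm_real, Real.norm_of_nonneg (h0 _)] at h4
  have h5 := mul_le_mul_of_nonneg_left (h1 (M + 1)) hB
  linarith

theorem moa_step {η x : ℝ} (hη : 0 < η) (hx : 0 < x) :
    η * (x + 1) ^ (-1 - η) ≤ x ^ (-η) - (x + 1) ^ (-η) := by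
  have hx1 : 0 < x + 1 := by linarith
  have h1 : x ^ (-η) = (x + 1) ^ (-η) * (x / (x + 1)) ^ (-η) := by
    rw [← Real.mul_rpow hx1.le (by positivity), mul_div_cancel₀ _ hx1.ne']
  have h2 : 1 + η * (1 / (x + 1)) ≤ (x / (x + 1)) ^ (-η) := by
    rw [Real.rpow_def_of_pos (by positivity)]
    refine le_trans ?_ (Real.add_one_le_exp _)
    have h3 := Real.log_le_sub_one_of_pos (show 0 < x / (x + 1) by positivity)
    have h4 : x / (x + 1) - 1 = -(1 / (x + 1)) := by field_simp; ring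
    rw [h4] at h3
    have h5 := mul_le_mul_of_nonneg_left h3 hη.le
    linarith
  have h3 : (x + 1) ^ (-1 - η) = (x + 1) ^ (-η) * (1 / (x + 1)) := by
    rw [show -1 - η = -η - 1 by ring, Real.rpow_sub_one hx1.ne', mul_one_div]
  have h4 := mul_le_mul_of_nonneg_left h2 (Real.rpow_nonneg hx1.le (-η))
  rw [h3, h1]
  linarith

theorem moa_tail {η : ℝ} (hη : 0 < η) {M N : ℕ} (hM : 1 ≤ M) (h : M ≤ N) :
    ∑ n ∈ Ico M N, (n : ℝ) ^ (-1 - η) ≤ (1 + 1 / η) * (M : ℝ) ^ (-η) := by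
  have key : η * (∑ n ∈ Ico M N, (n : ℝ) ^ (-1 - η) + (N : ℝ) ^ (-1 - η)) ≤
      η * (M : ℝ) ^ (-1 - η) + (M : ℝ) ^ (-η) - (N : ℝ) ^ (-η) := by
    induction N, h using Nat.le_induction with
    | base => simp
    | succ N hN ih =>
      have h1 := moa_step hη (show (0 : ℝ) < N by exact_mod_cast (show 0 < N by omega))
      rw [sum_Ico_succ_top hN, mul_add]
      push_cast
      linarith
  have h1 := Real.rpow_nonneg (Nat.cast_nonneg (α := ℝ) N) (-η)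
  have h2 := mul_nonneg hη.le (Real.rpow_nonneg (Nat.cast_nonneg (α := ℝ) N) (-1 - η))
  have h3 : (M : ℝ) ^ (-1 - η) ≤ (M : ℝ) ^ (-η) :=
    Real.rpow_le_rpow_of_exponent_le (by exact_mod_cast hM) (by linarith)
  have h4 := mul_le_mul_of_nonneg_left h3 hη.le
  refine le_of_mul_le_mul_left ?_ hη
  have h5 : η * ((1 + 1 / η) * (M : ℝ) ^ (-η)) = η * (M : ℝ) ^ (-η) + (M : ℝ) ^ (-η) := by
    field_simp
  rw [h5]
  linarith

theorem moa_diff (hs : 0 < s.re) {x u : ℝ} (hx : 0 < x) (hu : u ∈ Set.Icc x (x + 1)) :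
    ‖((x + 1 : ℝ) : ℂ) ^ (-s) - (u : ℂ) ^ (-s)‖ ≤ ‖s‖ * x ^ (-1 - s.re) := by
  have hs0 : -s ≠ 0 := neg_ne_zero.2 fun h => by simp [h] at hs
  have h := (convex_Icc x (x + 1)).norm_image_sub_le_of_norm_hasDerivWithin_le
    (f := fun y : ℝ => (y : ℂ) ^ (-s)) (f' := fun y : ℝ => -s * (y : ℂ) ^ (-s - 1))
    (C := ‖s‖ * x ^ (-1 - s.re)) (x := u) (y := x + 1)
    (fun z hz => (hasDerivAt_ofReal_cpow_const (hx.trans_le hz.1).ne' hs0).hasDerivWithinAt)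
    (fun z hz => by
      rw [norm_mul, norm_neg, norm_cpow_eq_rpow_re_of_pos (hx.trans_le hz.1)]
      refine mul_le_mul_of_nonneg_left ?_ (norm_nonneg _)
      simp only [sub_re, neg_re, one_re]
      rw [show -s.re - 1 = -1 - s.re by ring]
      exact Real.rpow_le_rpow_of_nonpos hx hz.1 (by linarith))
    hu ⟨by linarith, le_rfl⟩
  refine h.trans (mul_le_of_le_one_right (by positivity) ?_)
  rw [Real.norm_of_nonneg (by linarith [hu.2])]
  linarith [hu.1]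

/-- Summation by parts, `‖n ^ (-s) - (n + 1) ^ (-s)‖ ≤ ‖s‖ n ^ (-re s - 1)` and
`∑_{n ≥ M} n ^ (-1 - η) ≤ M ^ (-1 - η) + M ^ (-η) / η` with `η = θ + re s - 1 ≥ θ / 2`; compare `a2b_diff`,
`a2b_tail` in `MP_e97e2b_nt/Ln/A2b`. -/
theorem abel_pow {c : ℕ → ℂ} {B : ℝ} (hθ : 0 < θ) (hθ' : θ ≤ 1) (hB : 0 ≤ B)
    (hc : ∀ n : ℕ, 1 ≤ n → ‖∑ m ∈ Ioc 0 n, c m‖ ≤ B * (n : ℝ) ^ (1 - θ)) (hs : 1 - θ / 2 ≤ s.re)
    {M N : ℕ} (hM : 1 ≤ M) (hMN : M ≤ N) :
    ‖∑ m ∈ Ioc M N, c m * (m : ℂ) ^ (-s)‖ ≤ B * (2 + 4 * ‖s‖ / θ) * (M : ℝ) ^ (1 - θ - s.re) := by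
  have hσ : 0 < s.re := by linarith
  have hM' : (1 : ℝ) ≤ M := by exact_mod_cast hM
  have e : ∑ m ∈ Ioc M N, c m * (m : ℂ) ^ (-s) =
      (∑ m ∈ Ioc 0 N, c m) * (N : ℂ) ^ (-s) - (∑ m ∈ Ioc 0 M, c m) * (M : ℂ) ^ (-s) -
        ∑ n ∈ Ico M N, (∑ m ∈ Ioc 0 n, c m) * (((n + 1 : ℕ) : ℂ) ^ (-s) - (n : ℂ) ^ (-s)) := by
    induction N, hMN using Nat.le_induction with
    | base => simp
    | succ N hN ih =>
      rw [sum_Ioc_succ_top hN, sum_Ico_succ_top hN, ih, sum_Ioc_succ_top (Nat.zero_le N)]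
      ring
  have b1 : ∀ n : ℕ, M ≤ n →
      ‖(∑ m ∈ Ioc 0 n, c m) * (n : ℂ) ^ (-s)‖ ≤ B * (M : ℝ) ^ (1 - θ - s.re) := by
    intro n hn
    have hn' : (M : ℝ) ≤ n := by exact_mod_cast hn
    rw [norm_mul, norm_natCast_cpow_of_pos (by omega), neg_re]
    refine (mul_le_mul_of_nonneg_right (hc n (by omega)) (by positivity)).trans ?_
    rw [mul_assoc, ← Real.rpow_add (by linarith), ← sub_eq_add_neg]
    exact mul_le_mul_of_nonneg_left
      (Real.rpow_le_rpow_of_nonpos (by linarith) hn' (by linarith)) hB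
  have b2 : ∀ n ∈ Ico M N, ‖(∑ m ∈ Ioc 0 n, c m) * (((n + 1 : ℕ) : ℂ) ^ (-s) - (n : ℂ) ^ (-s))‖ ≤
      B * ‖s‖ * (n : ℝ) ^ (-1 - (θ + s.re - 1)) := by
    intro n hn
    have hn1 := (mem_Ico.1 hn).1
    have hn' : (0 : ℝ) < n := by exact_mod_cast (show 0 < n by omega)
    have h1 := moa_diff hσ hn' ⟨le_rfl, by linarith⟩
    push_cast at h1 ⊢
    rw [norm_mul]
    refine (mul_le_mul (hc n (by omega)) h1 (norm_nonneg _) (by positivity)).trans (le_of_eq ?_)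
    rw [show -1 - (θ + s.re - 1) = (1 - θ) + (-1 - s.re) by ring, Real.rpow_add hn']
    ring
  have b3 := norm_sum_le_of_le _ b2
  rw [← mul_sum] at b3
  have b4 := moa_tail (show 0 < θ + s.re - 1 by linarith) hM hMN
  rw [show -(θ + s.re - 1) = 1 - θ - s.re by ring] at b4
  have b5 : 1 + 1 / (θ + s.re - 1) ≤ 4 / θ := by
    have h1 : 1 / (θ + s.re - 1) ≤ 2 / θ := by
      rw [div_le_div_iff₀ (by linarith) hθ]
      linarith
    have h2 : 1 ≤ 2 / θ := by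
      rw [le_div_iff₀ hθ]
      linarith
    have h3 : 4 / θ = 2 / θ + 2 / θ := by ring
    linarith
  have b6 := mul_le_mul_of_nonneg_left (b4.trans (mul_le_mul_of_nonneg_right b5 (by positivity)))
    (show 0 ≤ B * ‖s‖ by positivity)
  rw [e]
  refine (norm_sub_le _ _).trans ((add_le_add ((norm_sub_le _ _).trans
    (add_le_add (b1 N hMN) (b1 M le_rfl))) (b3.trans b6)).trans (le_of_eq ?_))
  ring

theorem moa_cont (s : ℂ) {u v : ℝ} (hu : 0 < u) (hv : 0 < v) :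
    ContinuousOn (fun x : ℝ => (x : ℂ) ^ s) (Set.uIcc u v) := fun x hx =>
  (continuousAt_ofReal_cpow_const x s (Or.inr ((lt_min hu hv).trans_le hx.1).ne')).continuousWithinAt

theorem moa_ii (s : ℂ) {k : ℝ → ℝ} (hk : AntitoneOn k (Set.Ici 1)) {u v : ℝ} (hu : 1 ≤ u)
    (hv : 1 ≤ v) : IntervalIntegrable (fun x : ℝ => (x : ℂ) ^ s * k x) volume u v := by
  have h1 : IntervalIntegrable k volume u v :=
    (hk.mono fun x hx => (le_min hu hv).trans hx.1).intervalIntegrable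
  exact IntervalIntegrable.continuousOn_mul ⟨h1.1.ofReal, h1.2.ofReal⟩
    (moa_cont s (by linarith) (by linarith))

/-- On `[m - 1, m]`: `‖m ^ (-s) k m - u ^ (-s) k u‖ ≤ ‖s‖ (m - 1) ^ (-re s - 1) + M ^ (-re s) (k (m - 1) - k m)`. -/
theorem sum_sub_int {k : ℝ → ℝ} (hs : 1 / 2 ≤ s.re) (hk : AntitoneOn k (Set.Ici 1)) (h0 : ∀ u, 0 ≤ k u)
    (h1 : ∀ u, k u ≤ 1) {M N : ℕ} (hM : 1 ≤ M) (hMN : M ≤ N) :
    ‖∑ m ∈ Ioc M N, (m : ℂ) ^ (-s) * k m - ∫ u in (M : ℝ)..N, (u : ℂ) ^ (-s) * k u‖ ≤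
      (1 + 3 * ‖s‖) * (M : ℝ) ^ (-s.re) := by
  have hσ : 0 < s.re := by linarith
  have hM' : (1 : ℝ) ≤ M := by exact_mod_cast hM
  have key : ‖∑ m ∈ Ioc M N, (m : ℂ) ^ (-s) * k m - ∫ u in (M : ℝ)..N, (u : ℂ) ^ (-s) * k u‖ ≤
      ‖s‖ * ∑ n ∈ Ico M N, (n : ℝ) ^ (-1 - s.re) + (M : ℝ) ^ (-s.re) * (k M - k N) := by
    induction N, hMN using Nat.le_induction with
    | base => simp
    | succ N hN ih =>
      have hN' : (M : ℝ) ≤ N := by exact_mod_cast hN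
      have hN1 : (1 : ℝ) ≤ N := hM'.trans hN'
      have i1 := moa_ii (-s) hk hM' hN1
      have i2 := moa_ii (-s) hk hN1 (show (1 : ℝ) ≤ N + 1 by linarith)
      have h2 : ‖∫ u in (N : ℝ)..(N + 1), (((N + 1 : ℝ) : ℂ) ^ (-s) * k (N + 1) -
          (u : ℂ) ^ (-s) * k u)‖ ≤ (‖s‖ * (N : ℝ) ^ (-1 - s.re) +
            (M : ℝ) ^ (-s.re) * (k N - k (N + 1))) * |(N + 1 : ℝ) - N| := by
        refine intervalIntegral.norm_integral_le_of_norm_le_const fun u hu => ?_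
        rw [Set.uIoc_of_le (by linarith)] at hu
        have hu1 : (1 : ℝ) ≤ u := hN1.trans hu.1.le
        have h3 := moa_diff hσ (show (0 : ℝ) < N by linarith) ⟨hu.1.le, hu.2⟩
        have h4 : k (N + 1) ≤ k u := hk hu1 (show (1 : ℝ) ≤ N + 1 by linarith) hu.2
        have h5 : k u ≤ k N := hk hN1 hu1 hu.1.le
        have h6 : u ^ (-s.re) ≤ (M : ℝ) ^ (-s.re) :=
          Real.rpow_le_rpow_of_nonpos (by linarith) (hN'.trans hu.1.le) (by linarith)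
        have e : ((N + 1 : ℝ) : ℂ) ^ (-s) * k (N + 1) - (u : ℂ) ^ (-s) * k u =
            (((N + 1 : ℝ) : ℂ) ^ (-s) - (u : ℂ) ^ (-s)) * k (N + 1) -
              (u : ℂ) ^ (-s) * ((k u - k (N + 1) : ℝ) : ℂ) := by
          rw [ofReal_sub]
          ring
        rw [e]
        refine (norm_sub_le _ _).trans (add_le_add ?_ ?_)
        · rw [norm_mul, norm_real, Real.norm_of_nonneg (h0 _)]
          exact (mul_le_of_le_one_right (norm_nonneg _) (h1 _)).trans h3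
        · rw [norm_mul, norm_real, Real.norm_of_nonneg (sub_nonneg.2 h4),
            norm_cpow_eq_rpow_re_of_pos (by linarith), neg_re]
          exact mul_le_mul h6 (by linarith) (sub_nonneg.2 h4) (by positivity)
      rw [intervalIntegral.integral_sub intervalIntegrable_const i2,
        intervalIntegral.integral_const, add_sub_cancel_left, one_smul, abs_one, mul_one] at h2
      rw [sum_Ioc_succ_top hN, sum_Ico_succ_top hN]
      push_cast at h2 ⊢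
      rw [← intervalIntegral.integral_add_adjacent_intervals i1 i2, add_sub_add_comm]
      refine (norm_add_le _ _).trans ?_
      linarith
  have b4 := moa_tail hσ hM hMN
  have b5 : 1 + 1 / s.re ≤ 3 := by
    have : 1 / s.re ≤ 2 := by
      rw [div_le_iff₀ hσ]
      linarith
    linarith
  have b6 := mul_le_mul_of_nonneg_left (b4.trans (mul_le_mul_of_nonneg_right b5 (by positivity)))
    (norm_nonneg s)
  have b7 := mul_le_of_le_one_right (show 0 ≤ (M : ℝ) ^ (-s.re) by positivity)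
    (show k M - k N ≤ 1 by linarith [h0 N, h1 M])
  linarith

theorem moa_anti (hL : 0 < L) (hαβ : α < β) {D : ℕ} (hD : 1 ≤ D) :
    AntitoneOn (fun u : ℝ => st α β (Real.log (D * u) / L)) (Set.Ici 1) := by
  intro u hu v _ huv
  have hD' : (0 : ℝ) < D := by exact_mod_cast hD
  have hu' : (0 : ℝ) < u := zero_lt_one.trans_le hu
  exact st_anti hαβ (div_le_div_of_nonneg_right (Real.log_le_log (by positivity)
    (mul_le_mul_of_nonneg_left huv hD'.le)) hL.le)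

theorem moa_int_pow (hs : s ≠ 1) {u v : ℝ} (hu : 0 < u) (hv : 0 < v) :
    ∫ x in u..v, (x : ℂ) ^ (-s) = ((v : ℂ) ^ (1 - s) - (u : ℂ) ^ (1 - s)) / (1 - s) := by
  rw [integral_cpow (Or.inr ⟨fun h => hs (neg_injective h),
    fun h => lt_irrefl _ ((lt_min hu hv).trans_le h.1)⟩), neg_add_eq_sub]

theorem moa_exp_pow (t : ℝ) (s : ℂ) {D : ℕ} (hD : 1 ≤ D) :
    ((Real.exp t / D : ℝ) : ℂ) ^ (1 - s) = (D : ℂ) ^ (s - 1) * cexp ((1 - s) * t) := by
  have hD' : (0 : ℝ) < D := by exact_mod_cast hD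
  have h1 : 0 < Real.exp t / D := by positivity
  rw [cpow_def_of_ne_zero (ofReal_ne_zero.2 h1.ne'),
    cpow_def_of_ne_zero (Nat.cast_ne_zero.2 (by omega)), ← ofReal_log h1.le,
    Real.log_div (Real.exp_pos t).ne' hD'.ne', Real.log_exp, ← natCast_log, ← Complex.exp_add]
  congr 1
  push_cast
  ring

theorem moa_mid (hL : 0 < L) (hs : s ≠ 1) {D : ℕ} (hD : 1 ≤ D) {u v : ℝ} (hu : 0 < u) (hv : 0 < v)
    (β : ℝ) : ∫ x in u..v, (x : ℂ) ^ (-s) * ((β - Real.log (D * x) / L : ℝ) : ℂ) =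
      ((v : ℂ) ^ (1 - s) / (1 - s) * ((β - Real.log (D * v) / L : ℝ) : ℂ) +
        (v : ℂ) ^ (1 - s) / (L * (1 - s) ^ 2)) -
      ((u : ℂ) ^ (1 - s) / (1 - s) * ((β - Real.log (D * u) / L : ℝ) : ℂ) +
        (u : ℂ) ^ (1 - s) / (L * (1 - s) ^ 2)) := by
  have hD' : (0 : ℝ) < D := by exact_mod_cast hD
  have hs' : 1 - s ≠ 0 := sub_ne_zero.2 hs.symm
  have hL' : (L : ℂ) ≠ 0 := ofReal_ne_zero.2 hL.ne'
  have hd : ∀ x ∈ Set.uIcc u v, HasDerivAt (fun x : ℝ => β - Real.log (D * x) / L)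
      (-(x⁻¹ / L)) x := by
    intro x hx
    have hx0 : 0 < x := (lt_min hu hv).trans_le hx.1
    have h1 := ((((hasDerivAt_id x).const_mul (D : ℝ)).log
      (by simp only [id]; positivity)).div_const L).const_sub β
    refine h1.congr_deriv ?_
    simp only [id]
    field_simp
  refine intervalIntegral.integral_eq_sub_of_hasDerivAt (f := fun x : ℝ =>
    (x : ℂ) ^ (1 - s) / (1 - s) * ((β - Real.log (D * x) / L : ℝ) : ℂ) +
        (x : ℂ) ^ (1 - s) / (L * (1 - s) ^ 2)) (fun x hx => ?_) ?_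
  · have hx0 : 0 < x := (lt_min hu hv).trans_le hx.1
    have hx' : (x : ℂ) ≠ 0 := ofReal_ne_zero.2 hx0.ne'
    have h1 := hasDerivAt_ofReal_cpow_const hx0.ne' hs'
    refine (((h1.div_const (1 - s)).mul (hd x hx).ofReal_comp).add
      (h1.div_const (L * (1 - s) ^ 2))).congr_deriv ?_
    have e : (x : ℂ) ^ (1 - s) = x * (x : ℂ) ^ (-s) := by
      rw [sub_eq_add_neg, cpow_add _ _ hx', cpow_one]
    rw [show 1 - s - 1 = -s by ring, e, ofReal_neg, ofReal_div, ofReal_inv]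
    field_simp
    ring
  · refine ((moa_cont _ hu hv).mul ?_).intervalIntegrable
    exact continuous_ofReal.comp_continuousOn fun x hx => (hd x hx).continuousAt.continuousWithinAt

/-- Split at `u₁ = exp (α L) / D` and `u₂ = exp (β L) / D`. On `[u₁, u₂]` a primitive of
`u ^ (-s) (β - log (D u) / L)` is `u ^ (1 - s) / (1 - s) * (β - log (D u) / L) + u ^ (1 - s) / (L (1 - s) ^ 2)`. -/
theorem int_st (hL : 0 < L) (hαβ : α < β) (hs : s ≠ 1) {D M N : ℕ} (hD : 1 ≤ D) (hM : 1 ≤ M)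
    (hM' : (D * M : ℝ) ≤ Real.exp (α * L)) (hN : Real.exp (β * L) ≤ N) :
    ∫ u in (M : ℝ)..N, (u : ℂ) ^ (-s) * st α β (Real.log (D * u) / L) =
      -((M : ℂ) ^ (1 - s) / (1 - s)) + (D : ℂ) ^ (s - 1) * L * Ps α β ((1 - s) * L) := by
  have hD' : (1 : ℝ) ≤ D := by exact_mod_cast hD
  have hD0 : (0 : ℝ) < D := by linarith
  have hM1 : (1 : ℝ) ≤ M := by exact_mod_cast hM
  have hs' : 1 - s ≠ 0 := sub_ne_zero.2 hs.symm
  have hL' : (L : ℂ) ≠ 0 := ofReal_ne_zero.2 hL.ne'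
  have hba : ((β - α : ℝ) : ℂ) ≠ 0 := ofReal_ne_zero.2 (sub_pos.2 hαβ).ne'
  have p1 := moa_exp_pow (α * L) s hD
  have p2 := moa_exp_pow (β * L) s hD
  have l1 : D * (Real.exp (α * L) / D) = Real.exp (α * L) := mul_div_cancel₀ _ hD0.ne'
  have l2 : D * (Real.exp (β * L) / D) = Real.exp (β * L) := mul_div_cancel₀ _ hD0.ne'
  have h1 : (M : ℝ) ≤ Real.exp (α * L) / D := by rwa [le_div_iff₀' hD0]
  have h2 : Real.exp (α * L) / D ≤ Real.exp (β * L) / D := div_le_div_of_nonneg_right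
    (Real.exp_le_exp.2 (mul_le_mul_of_nonneg_right hαβ.le hL.le)) hD0.le
  have h3 : Real.exp (β * L) / D ≤ N := (div_le_self (Real.exp_pos _).le hD').trans hN
  generalize Real.exp (α * L) / D = u at p1 l1 h1 h2
  generalize Real.exp (β * L) / D = v at p2 l2 h2 h3
  have hu : 1 ≤ u := hM1.trans h1
  have hv : 1 ≤ v := hu.trans h2
  have hk := moa_anti hL hαβ hD
  have le1 : ∀ x, 0 < x → x ≤ u → Real.log (D * x) / L ≤ α := fun x h0 hx => by
    rw [div_le_iff₀ hL, Real.log_le_iff_le_exp (by positivity), ← l1]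
    exact mul_le_mul_of_nonneg_left hx hD0.le
  have le2 : ∀ x, 0 < x → x ≤ v → Real.log (D * x) / L ≤ β := fun x h0 hx => by
    rw [div_le_iff₀ hL, Real.log_le_iff_le_exp (by positivity), ← l2]
    exact mul_le_mul_of_nonneg_left hx hD0.le
  have ge1 : ∀ x, 0 < x → u ≤ x → α ≤ Real.log (D * x) / L := fun x h0 hx => by
    rw [le_div_iff₀ hL, Real.le_log_iff_exp_le (by positivity), ← l1]
    exact mul_le_mul_of_nonneg_left hx hD0.le
  have ge2 : ∀ x, 0 < x → v ≤ x → β ≤ Real.log (D * x) / L := fun x h0 hx => by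
    rw [le_div_iff₀ hL, Real.le_log_iff_exp_le (by positivity), ← l2]
    exact mul_le_mul_of_nonneg_left hx hD0.le
  have e1 : ∫ x in (M : ℝ)..u, (x : ℂ) ^ (-s) * st α β (Real.log (D * x) / L) =
      ∫ x in (M : ℝ)..u, (x : ℂ) ^ (-s) := intervalIntegral.integral_congr fun x hx => by
    rw [Set.uIcc_of_le h1] at hx
    simp only [st_eq_one hαβ (le1 x (by linarith [hx.1]) hx.2), ofReal_one, mul_one]
  have e2 : ∫ x in u..v, (x : ℂ) ^ (-s) * st α β (Real.log (D * x) / L) =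
      ∫ x in u..v, (x : ℂ) ^ (-s) * ((β - Real.log (D * x) / L : ℝ) : ℂ) / ((β - α : ℝ) : ℂ) :=
    intervalIntegral.integral_congr fun x hx => by
      rw [Set.uIcc_of_le h2] at hx
      have a1 := ge1 x (by linarith [hx.1]) hx.1
      have a2 := le2 x (by linarith [hx.1]) hx.2
      simp only [st]
      rw [min_eq_right ((div_le_one (sub_pos.2 hαβ)).2 (by linarith)),
        max_eq_right (div_nonneg (by linarith) (by linarith)), ofReal_div, mul_div_assoc]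
  have e3 : ∫ x in v..N, (x : ℂ) ^ (-s) * st α β (Real.log (D * x) / L) =
      ∫ _x in v..N, (0 : ℂ) := intervalIntegral.integral_congr fun x hx => by
    rw [Set.uIcc_of_le h3] at hx
    simp only [st_eq_zero hαβ (ge2 x (by linarith [hx.1]) hx.1), ofReal_zero, mul_zero]
  rw [← intervalIntegral.integral_add_adjacent_intervals (moa_ii (-s) hk hM1 hv)
    (moa_ii (-s) hk hv (hv.trans h3)), ← intervalIntegral.integral_add_adjacent_intervals
    (moa_ii (-s) hk hM1 hu) (moa_ii (-s) hk hu hv), e1, e2, e3, intervalIntegral.integral_zero,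
    intervalIntegral.integral_div, moa_int_pow hs (by linarith) (by linarith),
    moa_mid hL hs hD (by linarith) (by linarith), l1, l2, Real.log_exp, Real.log_exp,
    mul_div_cancel_right₀ _ hL.ne', mul_div_cancel_right₀ _ hL.ne', p1, p2, Ps, ofReal_natCast,
    ofReal_mul, ofReal_mul, sub_self, ofReal_zero, mul_assoc (1 - s), mul_assoc (1 - s),
    mul_comm (L : ℂ) α, mul_comm (L : ℂ) β]
  field_simp
  ring

/-- The constant in the error terms. -/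
def Ce (C θ : ℝ) (s : ℂ) : ℝ := 40 * C * (1 + ‖s‖) / θ

/-- Apply `abel_pow` and `abel_mono` to `f - a`, and `sum_sub_int` to the constant `a`. -/
theorem sum_sub_main (hθ : 0 < θ) (hθ' : θ ≤ 1) (hC : 1 ≤ C) (hy : 1 ≤ y) (ha : ‖a‖ ≤ 1)
    (hf : Pb f a C θ y) (hs : 1 - θ / 2 ≤ s.re) {k : ℝ → ℝ} (hk : AntitoneOn k (Set.Ici 1))
    (h0 : ∀ u, 0 ≤ k u) (h1 : ∀ u, k u ≤ 1) {M N : ℕ} (hM : 1 ≤ M) (hMN : M ≤ N) :
    ‖∑ m ∈ Ioc M N, f m * (m : ℂ) ^ (-s) * k m - a * ∫ u in (M : ℝ)..N, (u : ℂ) ^ (-s) * k u‖ ≤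
      Ce C θ s / 4 * y ^ θ * (M : ℝ) ^ (1 - θ - s.re) := by
  have hM' : (1 : ℝ) ≤ M := by exact_mod_cast hM
  have hyθ : 1 ≤ y ^ θ := Real.one_le_rpow hy hθ.le
  have hB : 1 ≤ C * y ^ θ := one_le_mul_of_one_le_of_one_le hC hyθ
  have hc : ∀ n : ℕ, 1 ≤ n → ‖∑ m ∈ Ioc 0 n, (f m - a)‖ ≤ C * y ^ θ * (n : ℝ) ^ (1 - θ) := by
    intro n hn
    have h2 := hf n (by exact_mod_cast hn)
    rw [Nat.floor_natCast, ofReal_natCast] at h2
    rw [sum_sub_distrib, sum_const, Nat.card_Ioc, Nat.sub_zero, nsmul_eq_mul, mul_comm _ a]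
    linarith
  have b1 := abel_mono (c := fun m => (f m - a) * (m : ℂ) ^ (-s)) (k := fun m => k (max m 1 : ℕ))
    hMN (fun n hn _ => abel_pow hθ hθ' (by linarith) hc hs hM hn)
    (fun m n hmn => hk (show (1 : ℝ) ≤ (max m 1 : ℕ) by exact_mod_cast le_max_right _ _)
      (show (1 : ℝ) ≤ (max n 1 : ℕ) by exact_mod_cast le_max_right _ _)
      (by exact_mod_cast max_le_max hmn le_rfl)) (fun _ => h0 _) fun _ => h1 _
  have b2 := sum_sub_int (s := s) (by linarith) hk h0 h1 hM hMN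
  have e : ∑ m ∈ Ioc M N, f m * (m : ℂ) ^ (-s) * k m -
      a * ∫ u in (M : ℝ)..N, (u : ℂ) ^ (-s) * k u =
      ∑ m ∈ Ioc M N, (f m - a) * (m : ℂ) ^ (-s) * k (max m 1 : ℕ) +
        a * (∑ m ∈ Ioc M N, (m : ℂ) ^ (-s) * k m - ∫ u in (M : ℝ)..N, (u : ℂ) ^ (-s) * k u) := by
    rw [mul_sub, ← add_sub_assoc, mul_sum, ← sum_add_distrib]
    congr 1
    refine sum_congr rfl fun m hm => ?_
    rw [max_eq_left (by have := (mem_Ioc.1 hm).1; omega)]
    ring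
  have b3 : (M : ℝ) ^ (-s.re) ≤ (M : ℝ) ^ (1 - θ - s.re) :=
    Real.rpow_le_rpow_of_exponent_le hM' (by linarith)
  have hs0 := norm_nonneg s
  have b4 := (mul_le_of_le_one_left (norm_nonneg _) ha).trans
    (b2.trans (mul_le_mul_of_nonneg_left b3 (by positivity)))
  rw [e]
  refine (norm_add_le _ _).trans ?_
  rw [norm_mul]
  refine (add_le_add b1 b4).trans ?_
  rw [← add_mul]
  refine mul_le_mul_of_nonneg_right ?_ (by positivity)
  have hi : 1 ≤ 1 / θ := by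
    rw [le_div_iff₀ hθ]
    linarith
  have e2 : Ce C θ s / 4 * y ^ θ = C * y ^ θ * (10 * (1 + ‖s‖) * (1 / θ)) := by
    unfold Ce
    ring
  have b5 : (1 + 3 * ‖s‖) ≤ C * y ^ θ * (1 + 3 * ‖s‖) := le_mul_of_one_le_left (by positivity) hB
  have b6 : 2 + 4 * ‖s‖ / θ + (1 + 3 * ‖s‖) ≤ 10 * (1 + ‖s‖) * (1 / θ) := by
    have h2 := mul_le_mul_of_nonneg_left hi hs0
    rw [div_eq_mul_one_div]
    nlinarith
  have b7 := mul_le_mul_of_nonneg_left b6 (show 0 ≤ C * y ^ θ by linarith)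
  rw [e2]
  linarith

/-- `sum_sub_main` and `int_st`; the step equals one for `m ≤ M`. -/
theorem sum_st (hθ : 0 < θ) (hθ' : θ ≤ 1) (hC : 1 ≤ C) (hy : 1 ≤ y) (ha : ‖a‖ ≤ 1)
    (hf : Pb f a C θ y) (hs : 1 - θ / 2 ≤ s.re) (hs1 : s ≠ 1 ∨ a = 0) (hL : 0 < L) (hαβ : α < β)
    {D M N : ℕ} (hD : 1 ≤ D) (hM : 1 ≤ M) (hM' : (D * M : ℝ) ≤ Real.exp (α * L))
    (hN : Real.exp (β * L) ≤ N) :
    ‖∑ m ∈ Ioc 0 N, f m * (m : ℂ) ^ (-s) * st α β (Real.log (D * m : ℕ) / L) - Rg f a s M -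
      a * ((D : ℂ) ^ (s - 1) * L * Ps α β ((1 - s) * L))‖ ≤
      Ce C θ s / 4 * y ^ θ * (M : ℝ) ^ (1 - θ - s.re) := by
  have hD' : (1 : ℝ) ≤ D := by exact_mod_cast hD
  have hMN : M ≤ N := by
    have h1 : (M : ℝ) ≤ D * M := le_mul_of_one_le_left (Nat.cast_nonneg _) hD'
    have h2 := Real.exp_le_exp.2 (mul_le_mul_of_nonneg_right hαβ.le hL.le)
    exact_mod_cast h1.trans (hM'.trans (h2.trans hN))
  have b1 := sum_sub_main hθ hθ' hC hy ha hf hs (moa_anti hL hαβ hD) (fun _ => st_nonneg _ _ _)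
    (fun _ => st_le_one _ _ _) hM hMN
  have e1 : ∑ m ∈ Ioc 0 M, f m * (m : ℂ) ^ (-s) * st α β (Real.log (D * m : ℕ) / L) =
      ∑ m ∈ Ioc 0 M, f m * (m : ℂ) ^ (-s) := by
    refine sum_congr rfl fun m hm => ?_
    obtain ⟨h1, h2⟩ := mem_Ioc.1 hm
    rw [st_eq_one hαβ, ofReal_one, mul_one]
    rw [div_le_iff₀ hL, Real.log_le_iff_le_exp (by positivity)]
    refine le_trans ?_ hM'
    exact_mod_cast Nat.mul_le_mul_left D h2
  rw [← sum_Ioc_consecutive _ (Nat.zero_le M) hMN, e1, Rg]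
  simp only [Nat.cast_mul]
  refine le_trans (le_of_eq ?_) b1
  congr 1
  rcases hs1 with h | rfl
  · rw [int_st hL hαβ h hD hM hM' hN]
    ring
  · ring

/-- `sum_sub_main` with `k = 1` bounds `Rg N - Rg M`; let `N` tend to infinity. -/
theorem norm_Rg (hθ : 0 < θ) (hθ' : θ ≤ 1) (hC : 1 ≤ C) (hy : 1 ≤ y) (ha : ‖a‖ ≤ 1)
    (hf : Pb f a C θ y) (hs : 1 - θ / 2 ≤ s.re) (hs1 : s ≠ 1 ∨ a = 0)
    (h0 : Tendsto (Rg f a s) atTop (𝓝 0)) {M : ℕ} (hM : 1 ≤ M) :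
    ‖Rg f a s M‖ ≤ Ce C θ s / 4 * y ^ θ * (M : ℝ) ^ (1 - θ - s.re) := by
  have hM' : (0 : ℝ) < M := by exact_mod_cast hM
  have h1 := (h0.sub_const (Rg f a s M)).norm
  rw [zero_sub, norm_neg] at h1
  refine le_of_tendsto h1 (eventually_atTop.2 ⟨M, fun N hN => ?_⟩)
  have b1 := sum_sub_main hθ hθ' hC hy ha hf hs (k := fun _ => 1) antitoneOn_const
    (fun _ => zero_le_one) (fun _ => le_rfl) hM hN
  simp only [ofReal_one, mul_one] at b1
  refine le_trans (le_of_eq ?_) b1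
  congr 1
  rw [Rg, Rg, ← sum_Ioc_consecutive _ (Nat.zero_le M) hN]
  rcases hs1 with h | rfl
  · rw [moa_int_pow h hM' (hM'.trans_le (by exact_mod_cast hN)), ofReal_natCast, ofReal_natCast]
    ring
  · ring

/-- With `M = ⌊x⌋₊ ≥ x / 2` and an exponent in `[-1, 0]`. -/
theorem floor_pow_le {x e : ℝ} (hx : 1 ≤ x) (he : -1 ≤ e) (he' : e ≤ 0) :
    (⌊x⌋₊ : ℝ) ^ e ≤ 2 * x ^ e := by
  have h1 : (1 : ℝ) ≤ ⌊x⌋₊ := by exact_mod_cast Nat.le_floor (n := 1) (by exact_mod_cast hx)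
  have h2 := Nat.lt_floor_add_one x
  have h3 : (⌊x⌋₊ : ℝ) ^ e ≤ (2⁻¹ * x) ^ e :=
    Real.rpow_le_rpow_of_nonpos (by linarith) (by linarith) he'
  have h4 : (2⁻¹ : ℝ) ^ e ≤ 2⁻¹ ^ (-1 : ℝ) :=
    Real.rpow_le_rpow_of_exponent_ge (by norm_num) (by norm_num) he
  rw [Real.rpow_neg_one, inv_inv] at h4
  rw [Real.mul_rpow (by norm_num) (by linarith)] at h3
  exact h3.trans (mul_le_mul_of_nonneg_right h4 (by positivity))

theorem moa_floor (hθ : 0 < θ) (hθ' : θ ≤ 1) (hC : 1 ≤ C) (hy : 1 ≤ y) (hs : 1 - θ / 2 ≤ s.re)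
    (hs' : s.re ≤ 1) {D : ℕ} (hD : 1 ≤ D) {x : ℝ} (hD' : (D : ℝ) ≤ x) :
    1 ≤ ⌊x / D⌋₊ ∧ (D * ⌊x / D⌋₊ : ℝ) ≤ x ∧
      Ce C θ s / 4 * y ^ θ * (⌊x / D⌋₊ : ℝ) ^ (1 - θ - s.re) +
        Ce C θ s / 4 * y ^ θ * (⌊x / D⌋₊ : ℝ) ^ (1 - θ - s.re) ≤
      Ce C θ s * y ^ θ * (x / D) ^ (1 - θ - s.re) := by
  have hD0 : (0 : ℝ) < D := by exact_mod_cast hD
  have h1 : 1 ≤ x / D := (one_le_div hD0).2 hD'
  refine ⟨Nat.le_floor (by exact_mod_cast h1), ?_, ?_⟩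
  · exact (le_div_iff₀' hD0).1 (Nat.floor_le (by linarith))
  · have h2 := floor_pow_le (e := 1 - θ - s.re) h1 (by linarith) (by linarith)
    have h3 : 0 ≤ Ce C θ s * y ^ θ := by
      unfold Ce
      positivity
    have h4 := mul_le_mul_of_nonneg_left h2 h3
    linarith

/-- `sum_st` and `norm_Rg` with `M = ⌊exp (α L) / D⌋₊`. -/
theorem det_D (hθ : 0 < θ) (hθ' : θ ≤ 1) (hC : 1 ≤ C) (hy : 1 ≤ y) (ha : ‖a‖ ≤ 1)
    (hf : Pb f a C θ y) (hs : 1 - θ / 2 ≤ s.re) (hs' : s.re ≤ 1) (hs1 : s ≠ 1 ∨ a = 0) (hL : 0 < L)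
    (hαβ : α < β) (h0 : Tendsto (Rg f a s) atTop (𝓝 0)) {D N : ℕ} (hD : 1 ≤ D)
    (hD' : (D : ℝ) ≤ Real.exp (α * L)) (hN : Real.exp (β * L) ≤ N) :
    ‖∑ m ∈ Ioc 0 N, f m * (m : ℂ) ^ (-s) * st α β (Real.log (D * m : ℕ) / L) -
      a * ((D : ℂ) ^ (s - 1) * L * Ps α β ((1 - s) * L))‖ ≤
      Ce C θ s * y ^ θ * (Real.exp (α * L) / D) ^ (1 - θ - s.re) := by
  obtain ⟨m1, m2, m3⟩ := moa_floor hθ hθ' hC hy hs hs' hD hD'
  have b1 := sum_st hθ hθ' hC hy ha hf hs hs1 hL hαβ hD m1 m2 hN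
  have b2 := norm_Rg hθ hθ' hC hy ha hf hs hs1 h0 m1
  refine le_trans (le_of_eq ?_) ((norm_add_le _ _).trans ((add_le_add b1 b2).trans m3))
  congr 1
  ring

/-- `sum_st` twice with the same `M = ⌊exp (α L) / D⌋₊`. -/
theorem dif_D (hθ : 0 < θ) (hθ' : θ ≤ 1) (hC : 1 ≤ C) (hy : 1 ≤ y) (ha : ‖a‖ ≤ 1)
    (hf : Pb f a C θ y) (hs : 1 - θ / 2 ≤ s.re) (hs' : s.re ≤ 1) (hs1 : s ≠ 1 ∨ a = 0) (hL : 0 < L)
    (hαβ : α < β) {α' β' : ℝ} (h1 : α ≤ α') (h2 : α' < β') (h3 : β ≤ β') {D N : ℕ} (hD : 1 ≤ D)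
    (hD' : (D : ℝ) ≤ Real.exp (α * L)) (hN : Real.exp (β' * L) ≤ N) :
    ‖∑ m ∈ Ioc 0 N, f m * (m : ℂ) ^ (-s) * ((st α' β' (Real.log (D * m : ℕ) / L) -
        st α β (Real.log (D * m : ℕ) / L) : ℝ) : ℂ) -
      a * ((D : ℂ) ^ (s - 1) * L * (Ps α' β' ((1 - s) * L) - Ps α β ((1 - s) * L)))‖ ≤
      Ce C θ s * y ^ θ * (Real.exp (α * L) / D) ^ (1 - θ - s.re) := by
  obtain ⟨m1, m2, m3⟩ := moa_floor hθ hθ' hC hy hs hs' hD hD'
  have b1 := sum_st hθ hθ' hC hy ha hf hs hs1 hL h2 hD m1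
    (m2.trans (Real.exp_le_exp.2 (mul_le_mul_of_nonneg_right h1 hL.le))) hN
  have b2 := sum_st hθ hθ' hC hy ha hf hs hs1 hL hαβ hD m1 m2
    ((Real.exp_le_exp.2 (mul_le_mul_of_nonneg_right h3 hL.le)).trans hN)
  refine le_trans (le_of_eq ?_) ((norm_sub_le _ _).trans ((add_le_add b1 b2).trans m3))
  congr 1
  simp only [ofReal_sub, mul_sub, sum_sub_distrib]
  ring

end Mo

end Pool.Agent.Lib.MP_778b46_nt.GX
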