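import Mathlib

set_option autoImplicit false

noncomputable section

namespace Pool.Agent.Lib.MP_778b46_nt.GX

open Complex Finset Filter MeasureTheory Topology
open scoped Real ContDiff ArithmeticFunction.Moebius

/-! Definitions for the mollifier lemma. Throughout `L = log P` and `t = log n / L`. -/

namespace Mo

/-- The step that equals one for `t ≤ a`, zero for `t ≥ b`, and is linear in between. -/
def st (a b t : ℝ) : ℝ := max 0 (min 1 ((b - t) / (b - a)))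

/-- The sieve coefficient `μ(d) g(log d / L)`. -/
def cf (g : ℝ → ℝ) (L : ℝ) (d : ℕ) : ℝ := (μ d : ℤ) * g (Real.log d / L)

/-- The divisor sum of the coefficients. -/
def Aw (g : ℝ → ℝ) (L : ℝ) (n : ℕ) : ℝ := ∑ d ∈ n.divisors, cf g L d

/-- The bilinear form of the sieve at the point `1 + σ / L`. -/
def Qf (σ : ℝ) (g h : ℝ → ℝ) (L : ℝ) (N : ℕ) : ℝ :=
  ∑ d ∈ Icc 1 N, ∑ e ∈ Icc 1 N, cf g L d * cf h L e * (Nat.lcm d e : ℝ) ^ (-(1 + σ / L))

/-- Smooth weights that are bounded by one and vanish from `T` on. -/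
structure Wt (T : ℝ) (g : ℝ → ℝ) : Prop where
  smooth : ContDiff ℝ ∞ g
  supp : HasCompactSupport g
  zero : ∀ t, T ≤ t → g t = 0
  le : ∀ t, |g t| ≤ 1

/-- The Euler factor of the bilinear form. -/
def eu (s a b : ℂ) (p : ℕ) : ℂ :=
  1 - (p : ℂ) ^ (-(s + a)) - (p : ℂ) ^ (-(s + b)) + (p : ℂ) ^ (-(s + a + b))

/-- The Euler product. -/
def Zp (s a b : ℂ) : ℂ := ∏' p : Nat.Primes, eu s a b p

/-- Partial sums of `f` are `a x` up to a power saving beyond `y`. -/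
def Pb (f : ℕ → ℂ) (a : ℂ) (C θ y : ℝ) : Prop :=
  ∀ x : ℝ, 1 ≤ x → ‖∑ n ∈ Ioc 0 ⌊x⌋₊, f n - a * x‖ ≤ C * x ^ (1 - θ) * y ^ θ

/-- The regularised partial sum of the Dirichlet series. -/
def Rg (f : ℕ → ℂ) (a s : ℂ) (M : ℕ) : ℂ :=
  ∑ m ∈ Ioc 0 M, f m * (m : ℂ) ^ (-s) - a * (M : ℂ) ^ (1 - s) / (1 - s)

/-- The Laplace transform of the step. -/
def Ps (a b : ℝ) (z : ℂ) : ℂ := (cexp (z * b) - cexp (z * a)) / ((b - a : ℝ) * z ^ 2)

/-- The bound for the Laplace transform of the trapezoid. -/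
def EE (u₀ u₁ x₀ x₁ b : ℝ) : ℝ :=
  (Real.exp (b * x₁) + Real.exp (b * x₀)) / (x₁ - x₀) + (Real.exp (b * u₁) + Real.exp (b * u₀)) / (u₁ - u₀)

/-- The optimal value of the first factor. -/
def Gm (σ u v : ℝ) : ℝ := 1 / (Real.exp (σ * v) - Real.exp (σ * u))

end Mo

end Pool.Agent.Lib.MP_778b46_nt.GX
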