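import Pool.Agent.Lib.MP_778b46_nt.GX.MoF

set_option autoImplicit false

noncomputable section

namespace Pool.Agent.Lib.MP_778b46_nt.GX

open Complex Finset Filter MeasureTheory Topology
open scoped Real ContDiff ArithmeticFunction.Moebius

/-! The choice of the weights and the three bounds for the bilinear form. -/

namespace Mo

variable {T σ L : ℝ} {g h : ℝ → ℝ}

theorem Wt.mono {T' : ℝ} (hg : Wt T g) (h : T ≤ T') : Wt T' g :=
  ⟨hg.smooth, hg.supp, fun t ht => hg.zero t (h.trans ht), hg.le⟩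

theorem mog_eta (σ : ℝ) {u v ε : ℝ} (huv : u < v) (hε : 0 < ε) :
    ∃ η : ℝ, 0 < η ∧ u + η ≤ v - η ∧ 0 < ∫ t in (u + η)..(v - η), Real.exp (σ * t) ∧
      (∫ t in (u + η)..(v - η), Real.exp (σ * t))⁻¹ ≤ (∫ t in u..v, Real.exp (σ * t))⁻¹ + ε := by
  have hc : Continuous fun t : ℝ => Real.exp (σ * t) := by fun_prop
  have hE : Continuous fun x : ℝ => ∫ t in (0 : ℝ)..x, Real.exp (σ * t) :=
    continuous_iff_continuousAt.2 fun x =>
      (hc.integral_hasStrictDerivAt 0 x).hasDerivAt.continuousAt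
  have hF : Continuous fun η : ℝ => ∫ t in (u + η)..(v - η), Real.exp (σ * t) := by
    have : (fun η : ℝ => ∫ t in (u + η)..(v - η), Real.exp (σ * t)) = fun η : ℝ =>
        (∫ t in (0 : ℝ)..(v - η), Real.exp (σ * t)) - ∫ t in (0 : ℝ)..(u + η), Real.exp (σ * t) := by
      funext η
      rw [intervalIntegral.integral_interval_sub_left (hc.intervalIntegrable _ _)
        (hc.intervalIntegrable _ _)]
    rw [this]
    exact (hE.comp (by fun_prop)).sub (hE.comp (by fun_prop))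
  have h0 : 0 < ∫ t in u..v, Real.exp (σ * t) :=
    intervalIntegral.intervalIntegral_pos_of_pos_on (hc.intervalIntegrable _ _)
      (fun x _ => Real.exp_pos _) huv
  have hT : Tendsto (fun η : ℝ => ∫ t in (u + η)..(v - η), Real.exp (σ * t)) (𝓝 0)
      (𝓝 (∫ t in u..v, Real.exp (σ * t))) := by
    simpa using hF.tendsto 0
  have e1 := hT.eventually (lt_mem_nhds h0)
  have e2 := (hT.inv₀ h0.ne').eventually
    (gt_mem_nhds (lt_add_of_pos_right (∫ t in u..v, Real.exp (σ * t))⁻¹ hε))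
  have e3 : ∀ᶠ η : ℝ in 𝓝 0, η < (v - u) / 2 := gt_mem_nhds (by linarith)
  obtain ⟨η, ⟨⟨a1, a2⟩, a3⟩, a4⟩ :=
    ((((e1.and e2).and e3).filter_mono nhdsWithin_le_nhds).and
      (self_mem_nhdsWithin (a := (0 : ℝ)) (s := Set.Ioi 0))).exists
  exact ⟨η, a4, by linarith, a1, a2.le⟩

theorem mog_bump {u v η : ℝ} (hη : 0 < η) : ∃ b : ℝ → ℝ, ContDiff ℝ ∞ b ∧ (∀ t, 0 ≤ b t) ∧
    (∀ t, b t ≤ 1) ∧ (∀ t, t ≤ u → b t = 0) ∧ (∀ t, v ≤ t → b t = 0) ∧
    ∀ t, u + η ≤ t → t ≤ v - η → b t = 1 := by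
  refine ⟨fun t => Real.smoothTransition ((t - u) / η) * Real.smoothTransition ((v - t) / η),
    ?_, fun t => mul_nonneg (Real.smoothTransition.nonneg _) (Real.smoothTransition.nonneg _),
    fun t => mul_le_one₀ (Real.smoothTransition.le_one _) (Real.smoothTransition.nonneg _)
      (Real.smoothTransition.le_one _), fun t ht => ?_, fun t ht => ?_, fun t h1 h2 => ?_⟩
  · exact (Real.smoothTransition.contDiff.comp ((contDiff_id.sub contDiff_const).div_const η)).mul
      (Real.smoothTransition.contDiff.comp ((contDiff_const.sub contDiff_id).div_const η))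
  · simp only
    rw [Real.smoothTransition.zero_of_nonpos (div_nonpos_of_nonpos_of_nonneg (by linarith) hη.le),
      zero_mul]
  · simp only
    rw [Real.smoothTransition.zero_of_nonpos (x := (v - t) / η)
      (div_nonpos_of_nonpos_of_nonneg (by linarith) hη.le), mul_zero]
  · simp only
    rw [Real.smoothTransition.one_of_one_le ((one_le_div hη).2 (by linarith)),
      Real.smoothTransition.one_of_one_le ((one_le_div hη).2 (by linarith)), mul_one]

/-- Let `b` be a smooth bump with values in `[0, 1]`, supported in `[u, v]` and equal to one on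
`[u + η, v - η]` (a product of two `Real.smoothTransition`, or `ContDiffBump`), `κ⁻¹ = ∫ exp (σ t) b t`, and
`g t = smoothTransition (t + 1) * (1 - κ ∫ τ in u..t, exp (σ τ) b τ)`. For `t > 0` one has
`deriv g t = -κ exp (σ t) b t`, so the integral is `κ ^ 2 ∫ exp (σ t) b ^ 2 ≤ κ`; take `η` small. -/
theorem exists_wt (hσ : 0 ≤ σ) {u v ε : ℝ} (hu : 0 ≤ u) (huv : u < v) (hε : 0 < ε) :
    ∃ g : ℝ → ℝ, Wt v g ∧ (∀ t, 0 ≤ t → t ≤ u → g t = 1) ∧
      ∫ t in Set.Ioi (0 : ℝ), Real.exp (-(σ * t)) * deriv g t ^ 2 ≤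
        (∫ t in u..v, Real.exp (σ * t))⁻¹ + ε := by
  obtain ⟨η, hη, hη', hF, hFε⟩ := mog_eta σ huv hε
  obtain ⟨b, hb, hb0, hb1, hbu, hbv, hbm⟩ := mog_bump (u := u) (v := v) hη
  set φ : ℝ → ℝ := fun t => Real.exp (σ * t) * b t with hφ
  have hφs : ContDiff ℝ ∞ φ := (Real.contDiff_exp.comp (contDiff_const.mul contDiff_id)).mul hb
  have hφc : Continuous φ := hφs.continuous
  have hφ0 : ∀ t, 0 ≤ φ t := fun t => mul_nonneg (Real.exp_pos _).le (hb0 t)
  set P : ℝ → ℝ := fun t => ∫ τ in u..t, φ τ with hP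
  have hPd : ∀ t, HasDerivAt P (φ t) t := fun t => (hφc.integral_hasStrictDerivAt u t).hasDerivAt
  have hPs : ContDiff ℝ ∞ P := by
    refine contDiff_infty_iff_deriv.2 ⟨fun t => (hPd t).differentiableAt, ?_⟩
    rwa [show deriv P = φ from funext fun t => (hPd t).deriv]
  have hPm : Monotone P :=
    monotone_of_deriv_nonneg (fun t => (hPd t).differentiableAt)
      fun t => by rw [(hPd t).deriv]; exact hφ0 t
  have hPu : ∀ t, t ≤ u → P t = 0 := fun t ht => by
    have : Set.EqOn φ (fun _ => 0) (Set.uIcc u t) := fun x hx => by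
      rw [Set.uIcc_of_ge ht] at hx
      simp only [hφ, hbu x hx.2, mul_zero]
    simp only [hP, intervalIntegral.integral_congr this, intervalIntegral.integral_zero]
  have hPv : ∀ t, v ≤ t → P t = P v := fun t ht => by
    have : Set.EqOn φ (fun _ => 0) (Set.uIcc v t) := fun x hx => by
      rw [Set.uIcc_of_le ht] at hx
      simp only [hφ, hbv x hx.1, mul_zero]
    have h2 : (∫ x in u..v, φ x) + ∫ x in v..t, φ x = ∫ x in u..t, φ x :=
      intervalIntegral.integral_add_adjacent_intervals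
        (hφc.intervalIntegrable u v) (hφc.intervalIntegrable v t)
    rw [intervalIntegral.integral_congr this, intervalIntegral.integral_zero, add_zero] at h2
    exact h2.symm
  have hI : ∫ t in (u + η)..(v - η), Real.exp (σ * t) ≤ P v := by
    have : Set.EqOn (fun t => Real.exp (σ * t)) φ (Set.uIcc (u + η) (v - η)) := fun x hx => by
      rw [Set.uIcc_of_le hη'] at hx
      simp only [hφ, hbm x hx.1 hx.2, mul_one]
    rw [intervalIntegral.integral_congr this]
    exact intervalIntegral.integral_mono_interval (by linarith) hη' (by linarith)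
      (Eventually.of_forall hφ0) (hφc.intervalIntegrable _ _)
  have hI0 : 0 < P v := hF.trans_le hI
  have hP0 : ∀ t, 0 ≤ P t := fun t => by
    rcases le_total t u with h | h
    · exact (hPu t h).ge
    · exact (hPu u le_rfl).ge.trans (hPm h)
  have hP1 : ∀ t, P t ≤ P v := fun t => by
    rcases le_total t v with h | h
    · exact hPm h
    · exact (hPv t h).le
  set g : ℝ → ℝ := fun t => Real.smoothTransition (t + 1) * (1 - P t / P v) with hg
  have hgs : ContDiff ℝ ∞ g :=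
    (Real.smoothTransition.contDiff.comp (contDiff_id.add contDiff_const)).mul
      (contDiff_const.sub (hPs.div_const _))
  have hgv : ∀ t, v ≤ t → g t = 0 := fun t ht => by
    simp only [hg, hPv t ht, div_self hI0.ne', sub_self, mul_zero]
  have hgc : HasCompactSupport g := by
    refine HasCompactSupport.intro (isCompact_Icc (a := -1) (b := v)) fun t ht => ?_
    rcases le_total t (-1) with h | h
    · simp only [hg]
      rw [Real.smoothTransition.zero_of_nonpos (by linarith), zero_mul]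
    · exact hgv t (not_lt.1 fun h' => ht ⟨h, h'.le⟩)
  have hg1 : ∀ t, 0 ≤ t → t ≤ u → g t = 1 := fun t h0 ht => by
    simp only [hg, hPu t ht, zero_div, sub_zero, mul_one]
    exact Real.smoothTransition.one_of_one_le (by linarith)
  have hgd : ∀ t, 0 < t → deriv g t = -(φ t / P v) := fun t ht => by
    have : g =ᶠ[𝓝 t] fun t => 1 - P t / P v := by
      filter_upwards [lt_mem_nhds ht] with x hx
      simp only [hg]
      rw [Real.smoothTransition.one_of_one_le (by linarith), one_mul]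
    rw [this.deriv_eq]
    exact (((hPd t).div_const (P v)).const_sub 1).deriv
  refine ⟨g, ⟨hgs, hgc, hgv, fun t => ?_⟩, hg1, ?_⟩
  · have a1 : 0 ≤ 1 - P t / P v := sub_nonneg.2 ((div_le_one hI0).2 (hP1 t))
    have a2 : 1 - P t / P v ≤ 1 := sub_le_self _ (div_nonneg (hP0 t) hI0.le)
    rw [abs_of_nonneg (mul_nonneg (Real.smoothTransition.nonneg _) a1)]
    exact mul_le_one₀ (Real.smoothTransition.le_one _) a1 a2
  · have hg1' : ContDiff ℝ 1 g := hgs.of_le (by exact_mod_cast le_top)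
    have hint : Integrable (fun t => -(P v)⁻¹ * deriv g t) (volume.restrict (Set.Ioi (0 : ℝ))) :=
      (((hg1'.continuous_deriv le_rfl).integrable_of_hasCompactSupport
        hgc.deriv).integrableOn).const_mul _
    calc _ ≤ ∫ t in Set.Ioi (0 : ℝ), -(P v)⁻¹ * deriv g t := by
          refine integral_mono_of_nonneg
            (Eventually.of_forall fun t => mul_nonneg (Real.exp_pos _).le (sq_nonneg _)) hint
            (ae_restrict_of_forall_mem measurableSet_Ioi fun t ht => ?_)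
          have e1 : Real.exp (-(σ * t)) * Real.exp (σ * t) = 1 := by
            rw [← Real.exp_add, neg_add_cancel, Real.exp_zero]
          have e2 : Real.exp (-(σ * t)) * deriv g t ^ 2 = (φ t / P v ^ 2) * b t := by
            rw [hgd t ht]
            calc _ = (Real.exp (-(σ * t)) * Real.exp (σ * t)) * ((φ t / P v ^ 2) * b t) := by
                  simp only [hφ]; ring
              _ = _ := by rw [e1, one_mul]
          have e3 : -(P v)⁻¹ * deriv g t = φ t / P v ^ 2 := by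
            rw [hgd t ht]; ring
          simp only
          rw [e2, e3]
          exact mul_le_of_le_one_right (div_nonneg (hφ0 t) (sq_nonneg _)) (hb1 t)
      _ = (P v)⁻¹ := by
          rw [integral_const_mul, hgc.integral_Ioi_deriv_eq hg1', hg1 0 le_rfl hu]; ring
      _ ≤ _ := (inv_anti₀ hF hI).trans hFε

/-- The derivative of `exp (-(σ t)) g t ^ 2` (`integral_Ioi_of_hasDerivAt_of_tendsto`, or
`HasCompactSupport.integral_Ioi_deriv_eq`). -/
theorem int_sq (hg : Wt T g) (σ : ℝ) :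
    ∫ t in Set.Ioi (0 : ℝ), Real.exp (-(σ * t)) * ((σ * g t - deriv g t) * (σ * g t - deriv g t)) =
      σ * g 0 ^ 2 + ∫ t in Set.Ioi (0 : ℝ), Real.exp (-(σ * t)) * deriv g t ^ 2 := by
  have hg1 : ContDiff ℝ 1 g := hg.smooth.of_le (by exact_mod_cast le_top)
  have hd : Continuous (deriv g) := hg1.continuous_deriv le_rfl
  set F : ℝ → ℝ := fun t => Real.exp (-(σ * t)) * (g t * g t) with hF
  have hF1 : ContDiff ℝ 1 F :=
    (Real.contDiff_exp.comp (contDiff_const.mul contDiff_id).neg).mul (hg1.mul hg1)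
  have hFc : HasCompactSupport F := (hg.supp.mul_left (f := g)).mul_left
  have hFd : ∀ t, deriv F t =
      Real.exp (-(σ * t)) * (-σ * (g t * g t) + 2 * (g t * deriv g t)) := fun t => by
    have a1 : HasDerivAt g (deriv g t) t := (hg1.differentiable one_ne_zero t).hasDerivAt
    have a2 : HasDerivAt (fun t => Real.exp (-(σ * t))) (Real.exp (-(σ * t)) * -(σ * 1)) t :=
      ((hasDerivAt_id' t).const_mul σ).neg.exp
    have a3 : HasDerivAt F _ t := a2.fun_mul (a1.fun_mul a1)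
    rw [a3.deriv]
    ring
  have i1 : Integrable (fun t => -σ * deriv F t) (volume.restrict (Set.Ioi (0 : ℝ))) :=
    (((hF1.continuous_deriv le_rfl).integrable_of_hasCompactSupport
      hFc.deriv).integrableOn).const_mul _
  have i2 : Integrable (fun t => Real.exp (-(σ * t)) * deriv g t ^ 2)
      (volume.restrict (Set.Ioi (0 : ℝ))) := by
    refine (Continuous.integrable_of_hasCompactSupport (by fun_prop) ?_).integrableOn
    have : HasCompactSupport fun t => deriv g t ^ 2 := by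
      simp only [sq]
      exact hg.supp.deriv.mul_left (f := deriv g)
    exact this.mul_left
  have : (fun t => Real.exp (-(σ * t)) * ((σ * g t - deriv g t) * (σ * g t - deriv g t))) =
      fun t => -σ * deriv F t + Real.exp (-(σ * t)) * deriv g t ^ 2 := by
    funext t; rw [hFd]; ring
  rw [this, integral_add i1 i2, integral_const_mul, hFc.integral_Ioi_deriv_eq hF1]
  simp only [hF, mul_zero, neg_zero, Real.exp_zero]
  ring

theorem abs_cf_le (hg : Wt T g) (L : ℝ) (d : ℕ) : |cf g L d| ≤ 1 := by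
  unfold cf
  rw [abs_mul]
  refine mul_le_one₀ ?_ (abs_nonneg _) (hg.le _)
  exact_mod_cast ArithmeticFunction.abs_moebius_le_one (n := d)

theorem cf_eq_zero (hg : Wt T g) (hL : 0 < L) {d : ℕ} (hd : Real.exp (T * L) ≤ d) : cf g L d = 0 := by
  unfold cf
  rw [hg.zero _ ((le_div_iff₀ hL).2 ((Real.le_log_iff_exp_le ((Real.exp_pos _).trans_le hd)).2 hd)),
    mul_zero]

theorem Aw_eq (hg : Wt T g) (hL : 0 < L) {N n : ℕ} (hN : Real.exp (T * L) ≤ N) (hn : n ≠ 0) :
    Aw g L n = ∑ d ∈ Icc 1 N, if d ∣ n then cf g L d else 0 := by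
  unfold Aw
  rw [← Finset.sum_filter]
  symm
  refine Finset.sum_subset (fun d hd => ?_) fun d hd hd' => ?_
  · exact Nat.mem_divisors.2 ⟨(Finset.mem_filter.1 hd).2, hn⟩
  · refine cf_eq_zero hg hL (hN.trans ?_)
    have h1 := Nat.pos_of_mem_divisors hd
    have h2 := Nat.dvd_of_mem_divisors hd
    have : ¬ d ≤ N := fun h => hd' (Finset.mem_filter.2 ⟨Finset.mem_Icc.2 ⟨h1, h⟩, h2⟩)
    exact_mod_cast (not_le.1 this).le

theorem Aw_one (h0 : g 0 = 1) (L : ℝ) : Aw g L 1 = 1 := by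
  simp [Aw, cf, h0]

/-- `ArithmeticFunction.sum_moebius`-type identity (`moebius_mul_coe_zeta`). -/
theorem Aw_eq_zero {u : ℝ} (h1 : ∀ t, 0 ≤ t → t ≤ u → g t = 1) (hL : 0 < L) {n : ℕ} (hn : 1 < n)
    (hu : Real.log n / L ≤ u) : Aw g L n = 0 := by
  have hs : ∑ d ∈ n.divisors, μ d = 0 := by
    rw [← ArithmeticFunction.coe_mul_zeta_apply, ArithmeticFunction.moebius_mul_coe_zeta,
      ArithmeticFunction.one_apply_ne hn.ne']
  have : Aw g L n = ((∑ d ∈ n.divisors, μ d : ℤ) : ℝ) := by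
    unfold Aw
    push_cast
    refine Finset.sum_congr rfl fun d hd => ?_
    have d0 : (0 : ℝ) < d := by exact_mod_cast Nat.pos_of_mem_divisors hd
    have d1 : (d : ℝ) ≤ n := by exact_mod_cast Nat.divisor_le hd
    unfold cf
    rw [h1 _ (div_nonneg (Real.log_natCast_nonneg d) hL.le)
      ((div_le_div_of_nonneg_right (Real.log_le_log d0 d1) hL.le).trans hu), mul_one]
  rw [this, hs, Int.cast_zero]

theorem mog_hasSum {x : ℝ} (hx : 1 < x) {D : ℕ} (hD : D ≠ 0) :
    HasSum (fun n : ℕ => if D ∣ n then (n : ℝ) ^ (-x) else 0)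
      ((D : ℝ) ^ (-x) * ∑' m : ℕ, (m : ℝ) ^ (-x)) := by
  have hs : Summable fun m : ℕ => (m : ℝ) ^ (-x) := Real.summable_nat_rpow.2 (by linarith)
  have hi : Function.Injective fun m : ℕ => D * m := fun a b h => Nat.eq_of_mul_eq_mul_left
    (Nat.pos_of_ne_zero hD) h
  refine (hi.hasSum_iff fun n hn => if_neg fun ⟨c, hc⟩ => hn ⟨c, hc.symm⟩).1 ?_
  have : ((fun n : ℕ => if D ∣ n then (n : ℝ) ^ (-x) else 0) ∘ fun m : ℕ => D * m) =
      fun m : ℕ => (D : ℝ) ^ (-x) * (m : ℝ) ^ (-x) := by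
    funext m
    simp only [Function.comp, dvd_mul_right, if_true, Nat.cast_mul]
    exact Real.mul_rpow (Nat.cast_nonneg _) (Nat.cast_nonneg _)
  rw [this]
  exact hs.hasSum.mul_left _

/-- The full series `∑ Aw ^ 2 n ^ (-x)`, `x = 1 + σ / L`, equals `Qf * ∑ m ^ (-x)` (`Aw_eq`, the multiples of
`lcm d e`); in particular `Qf ≥ 0`. Then `tsum_rpow_le`. -/
theorem sum_sq_le (hσ : 0 < σ) (hg : Wt T g) (hL : 0 < L) {N : ℕ} (hN : Real.exp (T * L) ≤ N) (M : ℕ) :
    ∑ n ∈ Ioc 0 M, Aw g L n ^ 2 * (n : ℝ) ^ (-(1 + σ / L)) ≤ (1 + L / σ) * Qf σ g g L N := by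
  have hx : 1 < 1 + σ / L := lt_add_of_pos_right _ (div_pos hσ hL)
  have hx' : 1 + 1 / (1 + σ / L - 1) = 1 + L / σ := by rw [add_sub_cancel_left, one_div_div]
  generalize hxd : 1 + σ / L = x at hx hx'
  have hs : Summable fun m : ℕ => (m : ℝ) ^ (-x) := Real.summable_nat_rpow.2 (by linarith)
  have hz : ((0 : ℕ) : ℝ) ^ (-x) = 0 := by
    rw [Nat.cast_zero]; exact Real.zero_rpow (by linarith)
  have hZ1 : ∑' m : ℕ, (m : ℝ) ^ (-x) ≤ 1 + L / σ := by
    rw [hs.tsum_eq_zero_add, hz, zero_add, ← hx']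
    exact tsum_rpow_le hx
  have hZ0 : 0 < ∑' m : ℕ, (m : ℝ) ^ (-x) :=
    hs.tsum_pos (fun m => Real.rpow_nonneg (Nat.cast_nonneg _) _) 1 (by simp)
  have hS : HasSum (fun n : ℕ => Aw g L n ^ 2 * (n : ℝ) ^ (-x))
      (Qf σ g g L N * ∑' m : ℕ, (m : ℝ) ^ (-x)) := by
    have : HasSum (fun n : ℕ => ∑ d ∈ Icc 1 N, ∑ e ∈ Icc 1 N, cf g L d * cf g L e *
        (if Nat.lcm d e ∣ n then (n : ℝ) ^ (-x) else 0))
        (∑ d ∈ Icc 1 N, ∑ e ∈ Icc 1 N, cf g L d * cf g L e *
          ((Nat.lcm d e : ℝ) ^ (-x) * ∑' m : ℕ, (m : ℝ) ^ (-x))) := by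
      refine hasSum_sum fun d hd => hasSum_sum fun e he => (mog_hasSum hx ?_).mul_left _
      have := (Finset.mem_Icc.1 hd).1
      have := (Finset.mem_Icc.1 he).1
      exact Nat.lcm_ne_zero (by omega) (by omega)
    convert this using 1
    · funext n
      rcases eq_or_ne n 0 with rfl | hn
      · rw [hz]; simp
      · rw [Aw_eq hg hL hN hn, sq, Finset.sum_mul_sum, Finset.sum_mul]
        refine Finset.sum_congr rfl fun d _ => ?_
        rw [Finset.sum_mul]
        refine Finset.sum_congr rfl fun e _ => ?_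
        by_cases h1 : d ∣ n <;> by_cases h2 : e ∣ n <;> simp [Nat.lcm_dvd_iff, h1, h2]
    · unfold Qf
      rw [hxd, Finset.sum_mul]
      refine Finset.sum_congr rfl fun d _ => ?_
      rw [Finset.sum_mul]
      exact Finset.sum_congr rfl fun e _ => mul_assoc _ _ _
  have hn : ∀ n : ℕ, 0 ≤ Aw g L n ^ 2 * (n : ℝ) ^ (-x) := fun n =>
    mul_nonneg (sq_nonneg _) (Real.rpow_nonneg (Nat.cast_nonneg _) _)
  have hQ : 0 ≤ Qf σ g g L N := nonneg_of_mul_nonneg_left (hS.nonneg hn) hZ0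
  calc _ ≤ _ := sum_le_hasSum _ (fun n _ => hn n) hS
    _ ≤ _ := by rw [mul_comm]; exact mul_le_mul_of_nonneg_right hZ1 hQ

/-- `exists_wt`, `gy`, `int_sq`, `sum_sq_le`; remove the term `n = 1`. -/
theorem exists_A (hσ : 0 < σ) {u v ε : ℝ} (hu : 0 ≤ u) (huv : u < v) (hε : 0 < ε) :
    ∃ g : ℝ → ℝ, Wt v g ∧ (∀ t, 0 ≤ t → t ≤ u → g t = 1) ∧ ∀ᶠ L : ℝ in atTop, ∀ M : ℕ,
      ∑ n ∈ Ioc 1 M, Aw g L n ^ 2 * (n : ℝ) ^ (-(1 + σ / L)) ≤ Gm σ u v + ε := by
  obtain ⟨g, hg, hg1, hJ⟩ := exists_wt hσ.le hu huv (mul_pos hσ (half_pos hε))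
  have g0 : g 0 = 1 := hg1 0 le_rfl hu
  have hlt : Real.exp (σ * u) < Real.exp (σ * v) :=
    Real.exp_lt_exp.2 (mul_lt_mul_of_pos_left huv hσ)
  have hG : 0 < Gm σ u v := one_div_pos.2 (sub_pos.2 hlt)
  have hI : (∫ t in u..v, Real.exp (σ * t))⁻¹ = σ * Gm σ u v := by
    rw [intervalIntegral.integral_comp_mul_left Real.exp hσ.ne', integral_exp, Gm, smul_eq_mul,
      mul_inv, inv_inv, one_div]
  have hT := gy hσ.le hg hg
  rw [int_sq hg, g0] at hT
  rw [hI] at hJ
  generalize (∫ t in Set.Ioi (0 : ℝ), Real.exp (-(σ * t)) * deriv g t ^ 2) = J at hJ hT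
  have hT2 := ((tendsto_inv_atTop_zero (𝕜 := ℝ)).add_const σ⁻¹).mul hT
  have hl : (0 + σ⁻¹) * (σ * 1 ^ 2 + J) < 1 + (Gm σ u v + ε) := by
    rw [zero_add, inv_mul_lt_iff₀ hσ]
    have := mul_pos hσ hε
    linarith only [hJ, this]
  refine ⟨g, hg, hg1, ?_⟩
  filter_upwards [hT2.eventually (gt_mem_nhds hl), eventually_gt_atTop 0] with L h1 hL M
  rcases Nat.eq_zero_or_pos M with rfl | hM
  · simp only [Nat.zero_lt_one.le, Finset.Ioc_eq_empty_of_le, Finset.sum_empty]
    exact (add_pos hG hε).le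
  have h2 := sum_sq_le hσ hg hL (Nat.le_ceil (Real.exp (v * L))) M
  have h3 : (1 + L / σ) * Qf σ g g L ⌈Real.exp (v * L)⌉₊ =
      (L⁻¹ + σ⁻¹) * (L * Qf σ g g L ⌈Real.exp (v * L)⌉₊) := by
    field_simp
  rw [← Finset.sum_Ioc_consecutive _ (Nat.zero_le 1) hM, h3] at h2
  have h4 : ∑ n ∈ Ioc 0 1, Aw g L n ^ 2 * (n : ℝ) ^ (-(1 + σ / L)) = 1 := by
    simp [Aw_one g0]
  linarith only [h1, h2, h4]

/-- `exists_wt` with `σ = 0`, `u = 0`; `gy`. -/
theorem exists_B {w ε : ℝ} (hw : 0 < w) (hε : 0 < ε) (hT : w ≤ T) : ∃ h : ℝ → ℝ, Wt w h ∧ h 0 = 1 ∧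
    ∀ᶠ L : ℝ in atTop, |L * Qf 0 h h L ⌈Real.exp (T * L)⌉₊| ≤ 1 / w + ε := by
  obtain ⟨h, hh, hh1, hJ⟩ := exists_wt (σ := 0) le_rfl le_rfl hw (half_pos hε)
  have hG := gy (σ := 0) le_rfl (hh.mono hT) (hh.mono hT)
  rw [int_sq hh, zero_mul, zero_add] at hG
  have hJ0 : 0 ≤ ∫ t in Set.Ioi (0 : ℝ), Real.exp (-(0 * t)) * deriv h t ^ 2 :=
    integral_nonneg fun t => mul_nonneg (Real.exp_pos _).le (sq_nonneg _)
  have hI : (∫ t in (0 : ℝ)..w, Real.exp (0 * t))⁻¹ = 1 / w := by simp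
  rw [hI] at hJ
  have hA := hG.abs
  rw [abs_of_nonneg hJ0] at hA
  refine ⟨h, hh, hh1 0 le_rfl le_rfl, ?_⟩
  filter_upwards [hA.eventually (gt_mem_nhds (hJ.trans_lt
    (show 1 / w + ε / 2 < 1 / w + ε by linarith)))] with L hL
  exact hL.le

end Mo

end Pool.Agent.Lib.MP_778b46_nt.GX
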