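import Pool.Agent.Lib.MP_778b46_nt.GX.MoA
import Pool.Agent.Lib.MP_778b46_nt.GX.MoG

set_option autoImplicit false

noncomputable section

namespace Pool.Agent.Lib.MP_778b46_nt.GX

open Complex Finset Filter MeasureTheory Topology
open scoped Real ContDiff ArithmeticFunction.Moebius

/-! Expansion of the mollified sums. -/

namespace Mo

variable {f : ℕ → ℂ} {a s : ℂ} {C θ y L α β v w φ e₀ : ℝ} {g h : ℝ → ℝ}

theorem Pb.mono {y' : ℝ} (hf : Pb f a C θ y) (hC : 0 ≤ C) (hθ : 0 ≤ θ) (hy : 0 ≤ y) (h : y ≤ y') :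
    Pb f a C θ y' := fun x hx =>
  (hf x hx).trans (mul_le_mul_of_nonneg_left (Real.rpow_le_rpow hy h hθ)
    (mul_nonneg hC (Real.rpow_nonneg (by linarith) _)))

theorem Pb_one (hC : 1 ≤ C) (hθ : 0 ≤ θ) (hθ' : θ ≤ 1) (hy : 1 ≤ y) : Pb (fun _ => 1) 1 C θ y := by
  intro x hx
  have h1 : (∑ _n ∈ Ioc 0 ⌊x⌋₊, (1 : ℂ)) - 1 * (x : ℂ) = (((⌊x⌋₊ : ℝ) - x : ℝ) : ℂ) := by simp
  have h2 := Nat.floor_le (zero_le_one.trans hx)
  have h3 := Nat.lt_floor_add_one x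
  rw [h1, Complex.norm_real, Real.norm_eq_abs]
  refine le_trans (abs_le.2 ⟨by linarith, by linarith⟩ : _ ≤ (1 : ℝ)) ?_
  exact one_le_mul_of_one_le_of_one_le
    (one_le_mul_of_one_le_of_one_le hC (Real.one_le_rpow hx (by linarith))) (Real.one_le_rpow hy hθ)

/-- Write `d = r d'`, `e = r e'` with `r = gcd d e`; then `lcm d e = r d' e'`. -/
theorem sum_inv_lcm (N : ℕ) :
    ∑ d ∈ Icc 1 N, ∑ e ∈ Icc 1 N, (Nat.lcm d e : ℝ)⁻¹ ≤ (1 + Real.log N) ^ 3 := by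
  have hH : ∑ d ∈ Icc 1 N, (d : ℝ)⁻¹ ≤ 1 + Real.log N := by
    have h := harmonic_le_one_add_log N
    rw [harmonic_eq_sum_Icc] at h
    push_cast at h
    exact h
  have h0 : 0 ≤ ∑ d ∈ Icc 1 N, (d : ℝ)⁻¹ := sum_nonneg fun _ _ => by positivity
  refine le_trans ?_ (pow_le_pow_left₀ h0 hH 3)
  have e3 : (∑ d ∈ Icc 1 N, (d : ℝ)⁻¹) ^ 3 = ∑ t ∈ Icc 1 N ×ˢ Icc 1 N ×ˢ Icc 1 N,
      (t.1 : ℝ)⁻¹ * ((t.2.1 : ℝ)⁻¹ * (t.2.2 : ℝ)⁻¹) := by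
    rw [pow_three, sum_mul_sum (Icc 1 N) (Icc 1 N), ← sum_product', sum_mul_sum, ← sum_product']
  have inj : Set.InjOn (fun p : ℕ × ℕ => (p.1.gcd p.2, p.1 / p.1.gcd p.2, p.2 / p.1.gcd p.2))
      (Icc 1 N ×ˢ Icc 1 N : Finset (ℕ × ℕ)) := by
    intro p _ p' _ h
    simp only [Prod.mk.injEq] at h
    obtain ⟨h1, h2, h3⟩ := h
    refine Prod.ext ?_ ?_
    · rw [← Nat.mul_div_cancel' (Nat.gcd_dvd_left p.1 p.2), h2, h1,
        Nat.mul_div_cancel' (Nat.gcd_dvd_left _ _)]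
    · rw [← Nat.mul_div_cancel' (Nat.gcd_dvd_right p.1 p.2), h3, h1,
        Nat.mul_div_cancel' (Nat.gcd_dvd_right _ _)]
  rw [e3, ← sum_product' (f := fun d e : ℕ => (Nat.lcm d e : ℝ)⁻¹)]
  refine le_trans (le_of_eq ?_) (sum_le_sum_of_subset_of_nonneg
    (s := (Icc 1 N ×ˢ Icc 1 N).image
      fun p : ℕ × ℕ => (p.1.gcd p.2, p.1 / p.1.gcd p.2, p.2 / p.1.gcd p.2)) ?_
    fun _ _ _ => by positivity)
  · rw [sum_image inj]
    refine sum_congr rfl fun p hp => ?_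
    have h1 := (mem_Icc.1 (mem_product.1 hp).1).1
    have hr : 0 < p.1.gcd p.2 := Nat.gcd_pos_of_pos_left _ h1
    have h2 : Nat.lcm p.1 p.2 = p.1.gcd p.2 * (p.1 / p.1.gcd p.2 * (p.2 / p.1.gcd p.2)) := by
      apply Nat.eq_of_mul_eq_mul_left hr
      rw [Nat.gcd_mul_lcm, mul_left_comm (p.1.gcd p.2) (p.1 / p.1.gcd p.2),
        Nat.mul_div_cancel' (Nat.gcd_dvd_right _ _), ← mul_assoc,
        Nat.mul_div_cancel' (Nat.gcd_dvd_left _ _)]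
    rw [h2, Nat.cast_mul, Nat.cast_mul, mul_inv, mul_inv]
  · intro t ht
    obtain ⟨p, hp, rfl⟩ := mem_image.1 ht
    have h1 := mem_Icc.1 (mem_product.1 hp).1
    have h2 := mem_Icc.1 (mem_product.1 hp).2
    have hr : 0 < p.1.gcd p.2 := Nat.gcd_pos_of_pos_left _ h1.1
    have l1 := Nat.gcd_le_left p.2 h1.1
    have l2 := Nat.gcd_le_right p.1 h2.1
    refine mem_product.2 ⟨mem_Icc.2 ⟨hr, l1.trans h1.2⟩, mem_product.2 ⟨mem_Icc.2 ⟨?_, ?_⟩,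
      mem_Icc.2 ⟨?_, ?_⟩⟩⟩
    · exact Nat.div_pos l1 hr
    · exact (Nat.div_le_self _ _).trans h1.2
    · exact Nat.div_pos l2 hr
    · exact (Nat.div_le_self _ _).trans h2.2

theorem sum_dvd {D N : ℕ} (hD : 1 ≤ D) {F : ℕ → ℂ} (hF : ∀ n, N < n → F n = 0) :
    ∑ n ∈ Ioc 0 N, (if D ∣ n then F n else 0) = ∑ m ∈ Ioc 0 N, F (D * m) := by
  rw [← sum_filter, ← sum_image (f := F) (g := fun m => D * m)
    fun m _ m' _ h => Nat.eq_of_mul_eq_mul_left hD h]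
  refine sum_subset (fun n hn => ?_) fun n hn hn' => ?_
  · obtain ⟨h1, m, rfl⟩ := mem_filter.1 hn
    have h2 := mem_Ioc.1 h1
    exact mem_image.2 ⟨m, mem_Ioc.2 ⟨Nat.pos_of_mul_pos_left h2.1,
      (Nat.le_mul_of_pos_left m hD).trans h2.2⟩, rfl⟩
  · obtain ⟨m, hm, rfl⟩ := mem_image.1 hn
    refine hF _ (lt_of_not_ge fun h => hn' ?_)
    exact mem_filter.2 ⟨mem_Ioc.2 ⟨Nat.mul_pos hD (mem_Ioc.1 hm).1, h⟩, dvd_mul_right _ _⟩

theorem moe_term (hm : ∀ m n, f (m * n) = f m * f n) (h1 : ∀ n, ‖f n‖ ≤ 1)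
    (ha : ∀ n, 1 ≤ n → a * f n = a) {k : ℕ → ℝ} {N D : ℕ} (hD : 1 ≤ D) {Λ : ℂ} {ε : ℝ} (hε : 0 ≤ ε)
    (h : ‖∑ m ∈ Ioc 0 N, f m * (m : ℂ) ^ (-s) * k (D * m) - a * ((D : ℂ) ^ (s - 1) * Λ)‖ ≤
        ε * (D : ℝ) ^ (s.re - 1)) :
    ‖∑ m ∈ Ioc 0 N, f (D * m) * ((D * m : ℕ) : ℂ) ^ (-s) * k (D * m) - a * ((D : ℂ)⁻¹ * Λ)‖ ≤
      ε * (D : ℝ)⁻¹ := by
  have hD0 : (D : ℂ) ≠ 0 := Nat.cast_ne_zero.2 (by omega)
  have hDr : (0 : ℝ) < D := Nat.cast_pos.2 hD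
  have e1 : (D : ℂ) ^ (-s) * (D : ℂ) ^ (s - 1) = (D : ℂ)⁻¹ := by
    rw [← Complex.cpow_add _ _ hD0, show -s + (s - 1) = -1 by ring, Complex.cpow_neg_one]
  have e2 : ∑ m ∈ Ioc 0 N, f (D * m) * ((D * m : ℕ) : ℂ) ^ (-s) * k (D * m) - a * ((D : ℂ)⁻¹ * Λ) =
      f D * (D : ℂ) ^ (-s) *
        (∑ m ∈ Ioc 0 N, f m * (m : ℂ) ^ (-s) * k (D * m) - a * ((D : ℂ) ^ (s - 1) * Λ)) := by
    rw [mul_sub, mul_sum]
    congr 1
    · refine sum_congr rfl fun m _ => ?_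
      rw [hm, Nat.cast_mul, Complex.natCast_mul_natCast_cpow]
      ring
    · rw [← e1]
      linear_combination (-((D : ℂ) ^ (-s) * (D : ℂ) ^ (s - 1) * Λ)) * ha D hD
  have e3 : (D : ℝ) ^ (-s.re) * (D : ℝ) ^ (s.re - 1) = (D : ℝ)⁻¹ := by
    rw [← Real.rpow_add hDr, show -s.re + (s.re - 1) = -1 by ring, Real.rpow_neg_one]
  rw [e2, norm_mul, norm_mul, Complex.norm_natCast_cpow_of_pos hD, Complex.neg_re]
  have h2 : 0 ≤ (D : ℝ) ^ (-s.re) := Real.rpow_nonneg hDr.le _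
  calc _ ≤ (1 * (D : ℝ) ^ (-s.re)) * (ε * (D : ℝ) ^ (s.re - 1)) :=
        mul_le_mul (mul_le_mul_of_nonneg_right (h1 D) h2) h (norm_nonneg _) (by linarith)
    _ = ε * (D : ℝ)⁻¹ := by rw [← e3]; ring

/-- `Aw_eq` twice, `sum_dvd` with `D = lcm d e ≤ d e`, `abs_cf_le`, `cf_eq_zero`, `sum_inv_lcm`. -/
theorem expand (hg : Wt v g) (hh : Wt w h) (hL : 0 < L) {N : ℕ} (hv : Real.exp (v * L) ≤ N)
    (hw : Real.exp (w * L) ≤ N) (hm : ∀ m n, f (m * n) = f m * f n) (h1 : ∀ n, ‖f n‖ ≤ 1)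
    (ha : ∀ n, 1 ≤ n → a * f n = a) {k : ℕ → ℝ} (hk : ∀ n, N < n → k n = 0) {Λ : ℂ} {ε : ℝ}
    (hε : 0 ≤ ε) (hD : ∀ D : ℕ, 1 ≤ D → (D : ℝ) ≤ Real.exp ((v + w) * L) →
      ‖∑ m ∈ Ioc 0 N, f m * (m : ℂ) ^ (-s) * k (D * m) - a * ((D : ℂ) ^ (s - 1) * Λ)‖ ≤
        ε * (D : ℝ) ^ (s.re - 1)) :
    ‖∑ n ∈ Ioc 0 N, ((Aw g L n * Aw h L n : ℝ) : ℂ) * (f n * (n : ℂ) ^ (-s) * k n) -
      a * (Qf 0 g h L N * Λ)‖ ≤ ε * (1 + Real.log N) ^ 3 := by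
  have e1 : ∑ n ∈ Ioc 0 N, ((Aw g L n * Aw h L n : ℝ) : ℂ) * (f n * (n : ℂ) ^ (-s) * k n) =
      ∑ d ∈ Icc 1 N, ∑ e ∈ Icc 1 N, ((cf g L d * cf h L e : ℝ) : ℂ) *
        ∑ m ∈ Ioc 0 N, f (Nat.lcm d e * m) * ((Nat.lcm d e * m : ℕ) : ℂ) ^ (-s) *
          k (Nat.lcm d e * m) := by
    have e2 : ∀ n ∈ Ioc 0 N, ((Aw g L n * Aw h L n : ℝ) : ℂ) * (f n * (n : ℂ) ^ (-s) * k n) =
        ∑ d ∈ Icc 1 N, ∑ e ∈ Icc 1 N, ((cf g L d * cf h L e : ℝ) : ℂ) *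
          if Nat.lcm d e ∣ n then f n * (n : ℂ) ^ (-s) * k n else 0 := by
      intro n hn
      have hn0 := (mem_Ioc.1 hn).1.ne'
      rw [Aw_eq hg hL hv hn0, Aw_eq hh hL hw hn0, sum_mul_sum, Complex.ofReal_sum, sum_mul]
      refine sum_congr rfl fun d _ => ?_
      rw [Complex.ofReal_sum, sum_mul]
      refine sum_congr rfl fun e _ => ?_
      by_cases hd : d ∣ n <;> by_cases he : e ∣ n <;> simp [hd, he, Nat.lcm_dvd_iff]
    rw [sum_congr rfl e2, sum_comm]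
    refine sum_congr rfl fun d hd => ?_
    rw [sum_comm]
    refine sum_congr rfl fun e he => ?_
    rw [← mul_sum, sum_dvd (F := fun n => f n * (n : ℂ) ^ (-s) * k n)
      (Nat.lcm_pos (mem_Icc.1 hd).1 (mem_Icc.1 he).1) fun n hn => by simp [hk n hn]]
  have e3 : a * (Qf 0 g h L N * Λ) = ∑ d ∈ Icc 1 N, ∑ e ∈ Icc 1 N,
      ((cf g L d * cf h L e : ℝ) : ℂ) * (a * ((Nat.lcm d e : ℂ)⁻¹ * Λ)) := by
    unfold Qf
    rw [Complex.ofReal_sum, sum_mul, mul_sum]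
    refine sum_congr rfl fun d _ => ?_
    rw [Complex.ofReal_sum, sum_mul, mul_sum]
    refine sum_congr rfl fun e _ => ?_
    rw [zero_div, add_zero, Real.rpow_neg_one]
    push_cast
    ring
  rw [e1, e3, ← sum_sub_distrib]
  refine le_trans ?_ (mul_le_mul_of_nonneg_left (sum_inv_lcm N) hε)
  rw [mul_sum]
  refine (norm_sum_le _ _).trans (sum_le_sum fun d hd => ?_)
  rw [← sum_sub_distrib, mul_sum]
  refine (norm_sum_le _ _).trans (sum_le_sum fun e he => ?_)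
  have hp := Nat.lcm_pos (mem_Icc.1 hd).1 (mem_Icc.1 he).1
  have h0 : 0 ≤ ε * (Nat.lcm d e : ℝ)⁻¹ := by positivity
  rw [← mul_sub, norm_mul, Complex.norm_real, Real.norm_eq_abs]
  by_cases c1 : Real.exp (v * L) ≤ d
  · rw [cf_eq_zero hg hL c1, zero_mul, abs_zero, zero_mul]
    exact h0
  by_cases c2 : Real.exp (w * L) ≤ e
  · rw [cf_eq_zero hh hL c2, mul_zero, abs_zero, zero_mul]
    exact h0
  have c3 : (Nat.lcm d e : ℝ) ≤ Real.exp ((v + w) * L) := by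
    have c4 : Nat.lcm d e ≤ d * e :=
      Nat.le_of_dvd (Nat.mul_pos (mem_Icc.1 hd).1 (mem_Icc.1 he).1) (Nat.lcm_dvd_mul d e)
    rw [add_mul, Real.exp_add]
    refine le_trans (by exact_mod_cast c4) (mul_le_mul (not_le.1 c1).le (not_le.1 c2).le
      (Nat.cast_nonneg e) (Real.exp_pos _).le)
  have c5 : |cf g L d * cf h L e| ≤ 1 := by
    rw [abs_mul]
    exact mul_le_one₀ (abs_cf_le hg L d) (abs_nonneg _) (abs_cf_le hh L e)
  exact (mul_le_mul c5 (moe_term hm h1 ha hp hε (hD _ hp c3)) (norm_nonneg _) zero_le_one).trans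
    (one_mul _).le

/-- The error term. -/
def Er (C θ e₀ L α : ℝ) (s : ℂ) (N : ℕ) : ℝ :=
  Ce C θ s * Real.exp (α * L * (1 - s.re) - θ * e₀ * L) * (1 + Real.log N) ^ 3

/-- For `D ≤ exp ((v + w) L)` and `v + w + φ ≤ α` one has `exp (α L) / D ≥ exp (φ L)`. -/
theorem err_D (hθ : 0 ≤ θ) (hL : 0 < L) (hα : v + φ ≤ α) {D : ℕ} (hD : 1 ≤ D)
    (hD' : (D : ℝ) ≤ Real.exp (v * L)) (x : ℝ) :
    Real.exp ((φ - e₀) * L) ^ θ * (Real.exp (α * L) / D) ^ (1 - θ - x) ≤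
      Real.exp (α * L * (1 - x) - θ * e₀ * L) * (D : ℝ) ^ (x - 1) := by
  have hDr : (0 : ℝ) < D := Nat.cast_pos.2 hD
  have h1 : Real.log D ≤ v * L := (Real.log_le_iff_le_exp hDr).2 hD'
  rw [← Real.exp_log hDr, ← Real.exp_sub, ← Real.exp_mul, ← Real.exp_mul, ← Real.exp_mul,
    ← Real.exp_add, ← Real.exp_add]
  apply Real.exp_le_exp.2
  have h2 : (v + φ) * L ≤ α * L := mul_le_mul_of_nonneg_right hα hL.le
  have h3 : 0 ≤ θ * (α * L - φ * L - Real.log D) := mul_nonneg hθ (by linarith)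
  linarith

theorem moe_Ce (hθ : 0 < θ) (hC : 1 ≤ C) (s : ℂ) : 0 ≤ Ce C θ s := by
  unfold Ce
  have : 0 ≤ C := by linarith
  positivity

theorem moe_st (hL : 0 < L) (hαβ : α < β) {β' : ℝ} (hβ : β ≤ β') {N n : ℕ}
    (hN : Real.exp (β' * L) ≤ N) (hn : N < n) : st α β (Real.log n / L) = 0 := by
  refine st_eq_zero hαβ (hβ.trans ?_)
  have h1 : Real.exp (β' * L) ≤ n := hN.trans (by exact_mod_cast hn.le)
  rw [le_div_iff₀ hL, Real.le_log_iff_exp_le ((Real.exp_pos _).trans_le h1)]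
  exact h1

theorem moe_exp (hL : 0 < L) (h : α ≤ β) : Real.exp (α * L) ≤ Real.exp (β * L) :=
  Real.exp_le_exp.2 (mul_le_mul_of_nonneg_right h hL.le)

/-- `expand`, `det_D` with `a = 0`, `err_D`. -/
theorem det (hθ : 0 < θ) (hθ' : θ ≤ 1) (hC : 1 ≤ C) (he : e₀ ≤ φ) (hφ : 0 ≤ φ) (hg : Wt v g)
    (hh : Wt w h) (hv : 0 ≤ v) (hw : 0 ≤ w) (hL : 0 < L) (hα : v + w + φ ≤ α) (hαβ : α < β)
    (hm : ∀ m n, f (m * n) = f m * f n) (h1 : ∀ n, ‖f n‖ ≤ 1)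
    (hf : Pb f 0 C θ (Real.exp ((φ - e₀) * L))) (hs : 1 - θ / 2 ≤ s.re) (hs' : s.re ≤ 1)
    (h0 : Tendsto (fun M : ℕ => ∑ m ∈ Ioc 0 M, f m * (m : ℂ) ^ (-s)) atTop (𝓝 0)) {N : ℕ}
    (hN : Real.exp (β * L) ≤ N) :
    ‖∑ n ∈ Ioc 0 N, ((Aw g L n * Aw h L n : ℝ) : ℂ) *
      (f n * (n : ℂ) ^ (-s) * st α β (Real.log n / L))‖ ≤ Er C θ e₀ L α s N := by
  have hy : 1 ≤ Real.exp ((φ - e₀) * L) := Real.one_le_exp (mul_nonneg (by linarith) hL.le)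
  have hR : Tendsto (Rg f 0 s) atTop (𝓝 0) := by
    refine h0.congr fun M => ?_
    simp [Rg]
  have hc := moe_Ce hθ hC s
  have k := expand (s := s) (a := 0) (Λ := L * Ps α β ((1 - s) * L))
    (k := fun n => st α β (Real.log n / L))
    (ε := Ce C θ s * Real.exp (α * L * (1 - s.re) - θ * e₀ * L)) hg hh hL
    ((moe_exp hL (by linarith)).trans hN) ((moe_exp hL (by linarith)).trans hN) hm h1
    (fun _ _ => zero_mul _) (fun n hn => moe_st hL hαβ le_rfl hN hn) (by positivity) (by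
      intro D hD hD'
      have k1 := det_D hθ hθ' hC hy (by simp) hf hs hs' (Or.inr rfl) hL hαβ hR hD
        (hD'.trans (moe_exp hL (by linarith))) hN
      rw [mul_assoc ((D : ℂ) ^ (s - 1))] at k1
      refine k1.trans ?_
      rw [mul_assoc, mul_assoc]
      exact mul_le_mul_of_nonneg_left (err_D hθ.le hL hα hD hD' _) hc)
  rw [zero_mul, sub_zero] at k
  exact k

/-- `expand`, `dif_D`, `err_D`. -/
theorem dif (hθ : 0 < θ) (hθ' : θ ≤ 1) (hC : 1 ≤ C) (he : e₀ ≤ φ) (hφ : 0 ≤ φ) (hh : Wt w h)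
    (hw : 0 ≤ w) (hL : 0 < L) (hα : 2 * w + φ ≤ α) (hαβ : α < β) {α' β' : ℝ} (h2 : β ≤ α')
    (h3 : α' < β') (hm : ∀ m n, f (m * n) = f m * f n) (h1 : ∀ n, ‖f n‖ ≤ 1) (ha : ‖a‖ ≤ 1)
    (ha' : ∀ n, 1 ≤ n → a * f n = a) (hf : Pb f a C θ (Real.exp ((φ - e₀) * L)))
    (hs : 1 - θ / 2 ≤ s.re) (hs' : s.re < 1) {N : ℕ} (hN : Real.exp (β' * L) ≤ N) :
    ‖∑ n ∈ Ioc 0 N, ((Aw h L n * Aw h L n : ℝ) : ℂ) * (f n * (n : ℂ) ^ (-s) *
        ((st α' β' (Real.log n / L) - st α β (Real.log n / L) : ℝ) : ℂ)) -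
      a * (Qf 0 h h L N * (L * (Ps α' β' ((1 - s) * L) - Ps α β ((1 - s) * L))))‖ ≤
      Er C θ e₀ L α s N := by
  have hy : 1 ≤ Real.exp ((φ - e₀) * L) := Real.one_le_exp (mul_nonneg (by linarith) hL.le)
  have hs1 : s ≠ 1 := by
    rintro rfl
    simp at hs'
  have hc := moe_Ce hθ hC s
  exact expand (s := s) (a := a) (Λ := L * (Ps α' β' ((1 - s) * L) - Ps α β ((1 - s) * L)))
    (k := fun n => st α' β' (Real.log n / L) - st α β (Real.log n / L))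
    (ε := Ce C θ s * Real.exp (α * L * (1 - s.re) - θ * e₀ * L)) hh hh hL
    ((moe_exp hL (by linarith)).trans hN) ((moe_exp hL (by linarith)).trans hN) hm h1 ha'
    (fun n hn => by rw [moe_st hL h3 le_rfl hN hn, moe_st hL hαβ (by linarith) hN hn, sub_zero])
    (by positivity) (by
      intro D hD hD'
      have k1 := dif_D hθ hθ' hC hy ha hf hs hs'.le (Or.inl hs1) hL hαβ (by linarith) h3
        (by linarith) hD (hD'.trans (moe_exp hL (by linarith))) hN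
      rw [mul_assoc ((D : ℂ) ^ (s - 1))] at k1
      refine k1.trans ?_
      rw [mul_assoc, mul_assoc]
      exact mul_le_mul_of_nonneg_left (err_D hθ.le hL (by linarith) hD hD' _) hc)

/-- Only `n = 1` contributes (`Aw_eq_zero`, `st_eq_zero`). -/
theorem low_part {u : ℝ} (hg : ∀ t, 0 ≤ t → t ≤ u → g t = 1) (hh : h 0 = 1) (hL : 0 < L) (hα : 0 ≤ α)
    (hαβ : α < β) (hβ : β ≤ u) (h1 : f 1 = 1) {N : ℕ} (hN : 1 ≤ N) :
    ∑ n ∈ Ioc 0 N, ((Aw g L n * Aw h L n : ℝ) : ℂ) *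
      (f n * (n : ℂ) ^ (-s) * st α β (Real.log n / L)) = 1 := by
  rw [sum_eq_single_of_mem 1 (mem_Ioc.2 ⟨one_pos, hN⟩)]
  · rw [Aw_one (hg 0 le_rfl (by linarith)), Aw_one hh, h1, st_eq_one hαβ (by simpa using hα)]
    simp
  · intro n hn hn1
    have h2 : 1 < n := lt_of_le_of_ne (mem_Ioc.1 hn).1 hn1.symm
    rcases le_total (Real.log n / L) u with h3 | h3
    · rw [Aw_eq_zero hg hL h2 h3]
      simp
    · rw [st_eq_zero hαβ (hβ.trans h3)]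
      simp

/-- Take `η (1 + 2 x) ≤ θ e₀ / 2`; then the error is at most a polynomial in `L` times `exp (-θ e₀ L / 2)`. -/
theorem err_small (hθ : 0 < θ) (hC : 1 ≤ C) (he : 0 < e₀) {σ x δ : ℝ} (hσ : 0 ≤ σ) (hx : 0 ≤ x)
    (hδ : 0 < δ) : ∃ η : ℝ, 0 < η ∧ η ≤ θ / 8 ∧ ∀ᶠ L : ℝ in atTop, ∀ (s : ℂ) (α : ℝ), 0 ≤ α → α ≤ x →
      0 ≤ s.re → s.re ≤ 1 → (1 - s.re) * L ≤ σ + 2 * η * L → |s.im| ≤ 2 * Real.exp (η * L) →
      Er C θ e₀ L α s ⌈Real.exp (x * L)⌉₊ ≤ δ := by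
  have hc : 0 < θ * e₀ / 2 := by positivity
  obtain ⟨η, hη0, hη1, hη2⟩ : ∃ η : ℝ, 0 < η ∧ η ≤ θ / 8 ∧ η * (1 + 2 * x) ≤ θ * e₀ / 2 := by
    refine ⟨min (θ / 8) (θ * e₀ / 2 / (1 + 2 * x)), by positivity, min_le_left _ _, ?_⟩
    rw [← le_div_iff₀ (by positivity)]
    exact min_le_right _ _
  refine ⟨η, hη0, hη1, ?_⟩
  have t1 := (tendsto_rpow_mul_exp_neg_mul_atTop_nhds_zero 3 (θ * e₀ / 2) hc).const_mul
    (160 * C / θ * Real.exp (x * σ) * (2 + x) ^ 3)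
  rw [mul_zero] at t1
  filter_upwards [t1.eventually (ge_mem_nhds hδ), eventually_ge_atTop 1] with L hL hL1
  intro s α a0 a1 s0 s1 s2 s3
  refine le_trans ?_ hL
  have hC0 : 0 ≤ C := by linarith
  have b0 : 1 ≤ Real.exp (η * L) := Real.one_le_exp (by positivity)
  have b1 : Ce C θ s ≤ 160 * C / θ * Real.exp (η * L) := by
    have b2 := Complex.norm_le_abs_re_add_abs_im s
    rw [abs_of_nonneg s0] at b2
    have b3 : 1 + ‖s‖ ≤ 4 * Real.exp (η * L) := by linarith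
    unfold Ce
    calc 40 * C * (1 + ‖s‖) / θ ≤ 40 * C * (4 * Real.exp (η * L)) / θ := by gcongr
      _ = _ := by ring
  have b4 : α * L * (1 - s.re) ≤ x * (σ + 2 * η * L) := by
    rw [mul_assoc, mul_comm L]
    exact mul_le_mul a1 s2 (mul_nonneg (by linarith) (by linarith)) hx
  have b5 : 1 ≤ Real.exp (x * L) := Real.one_le_exp (by positivity)
  have b6 : (1 : ℝ) ≤ ⌈Real.exp (x * L)⌉₊ := b5.trans (Nat.le_ceil _)
  have b7 : Real.log ⌈Real.exp (x * L)⌉₊ ≤ 1 + x * L := by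
    rw [Real.log_le_iff_le_exp (by linarith), Real.exp_add]
    have b8 := Nat.ceil_lt_add_one (Real.exp_pos (x * L)).le
    have b9 := Real.add_one_le_exp 1
    nlinarith
  have b10 : 1 + Real.log ⌈Real.exp (x * L)⌉₊ ≤ (2 + x) * L := by linarith
  have b11 : 0 ≤ 1 + Real.log ⌈Real.exp (x * L)⌉₊ := by linarith [Real.log_nonneg b6]
  have b12 : Real.exp (η * L) * Real.exp (α * L * (1 - s.re) - θ * e₀ * L) ≤
      Real.exp (x * σ) * Real.exp (-(θ * e₀ / 2) * L) := by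
    rw [← Real.exp_add, ← Real.exp_add]
    apply Real.exp_le_exp.2
    have := mul_le_mul_of_nonneg_right hη2 (zero_le_one.trans hL1)
    linarith
  have b13 : L ^ (3 : ℝ) = L ^ 3 := by exact_mod_cast Real.rpow_natCast L 3
  unfold Er
  rw [b13]
  calc _ ≤ 160 * C / θ * Real.exp (η * L) * Real.exp (α * L * (1 - s.re) - θ * e₀ * L) *
        ((2 + x) * L) ^ 3 := by gcongr
    _ = 160 * C / θ * (Real.exp (η * L) * Real.exp (α * L * (1 - s.re) - θ * e₀ * L)) *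
        ((2 + x) * L) ^ 3 := by ring
    _ ≤ 160 * C / θ * (Real.exp (x * σ) * Real.exp (-(θ * e₀ / 2) * L)) * ((2 + x) * L) ^ 3 := by
        gcongr
    _ = _ := by ring

end Mo

end Pool.Agent.Lib.MP_778b46_nt.GX
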