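import Pool.Agent.Lib.MP_778b46_nt.GX.MoZ

set_option autoImplicit false

noncomputable section

namespace Pool.Agent.Lib.MP_778b46_nt.GX

open Complex Finset Filter MeasureTheory Topology
open scoped Real ContDiff ArithmeticFunction.Moebius

/-! The bilinear form as a double integral, and its limit. -/

namespace Mo

variable {T σ L : ℝ} {g h : ℝ → ℝ}

/-- The exponent attached to a frequency. -/
def al (ξ : ℝ) : ℂ := 1 - 2 * π * I * ξ

theorem mof_al_re (ξ : ℝ) : (al ξ).re = 1 := by simp [al]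

theorem mof_one_le (ξ : ℝ) : 1 ≤ ‖al ξ‖ := by
  have := Complex.re_le_norm (al ξ)
  rwa [mof_al_re] at this

theorem mof_cont : Continuous al := by
  unfold al
  fun_prop

theorem mof_norm_sq (ξ : ℝ) : ‖al ξ‖ ^ 2 = 1 + 4 * π ^ 2 * ‖ξ‖ ^ 2 := by
  rw [Complex.sq_norm, Complex.normSq_apply, Real.norm_eq_abs, sq_abs]
  simp [al]
  ring

theorem mof_norm_exp (ξ t : ℝ) : ‖cexp (-(al ξ * t))‖ = Real.exp (-t) := by
  rw [Complex.norm_exp]
  simp [mof_al_re]

theorem mof_int_exp {F : ℝ → ℂ} (hF : Integrable F) (t : ℝ) :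
    Integrable fun ξ => F ξ * cexp (-(al ξ * t)) := by
  refine hF.mul_bdd (c := Real.exp (-t)) ?_ (Eventually.of_forall fun ξ => (mof_norm_exp ξ t).le)
  have := mof_cont
  exact Continuous.aestronglyMeasurable (by fun_prop)

open scoped FourierTransform in
/-- Inversion in the form used here. -/
theorem mof_inv {f : ℝ → ℂ} (hc : Continuous f) (hf : Integrable f) (hF : Integrable (𝓕 f))
    (t : ℝ) : ∫ ξ, 𝓕 f ξ * cexp (-(al ξ * t)) = cexp (-t) * f t := by
  have h1 := congrFun (hc.fourierInv_fourier_eq hf hF) t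
  rw [Real.fourierInv_eq'] at h1
  rw [← h1, ← integral_const_mul]
  refine integral_congr_ae (Eventually.of_forall fun ξ => ?_)
  simp only [smul_eq_mul, al]
  rw [← mul_assoc, ← Complex.exp_add, mul_comm]
  congr 2
  simp
  ring

/-- Let `f t = exp t * g t`, a Schwartz function (`HasCompactSupport.toSchwartzMap`), and `F` its Fourier
transform. Fourier inversion gives the third clause; the fourth is its derivative (inversion for the
derivative of `f`, `SchwartzMap` or `Real.fourier_deriv`, or differentiation under the integral). -/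
theorem Wt.exists_ft (hg : Wt T g) : ∃ F : ℝ → ℂ, Continuous F ∧
    Integrable (fun ξ => ‖F ξ‖ * ‖al ξ‖ ^ 2) ∧ (∀ t : ℝ, ∫ ξ, F ξ * cexp (-(al ξ * t)) = g t) ∧
    ∀ t : ℝ, ∫ ξ, F ξ * al ξ * cexp (-(al ξ * t)) = -deriv g t := by
  have hs : ContDiff ℝ ∞ fun t : ℝ => ((Real.exp t * g t : ℝ) : ℂ) :=
    Complex.ofRealCLM.contDiff.comp (Real.contDiff_exp.mul hg.smooth)
  have hc : HasCompactSupport fun t : ℝ => ((Real.exp t * g t : ℝ) : ℂ) :=
    (hg.supp.mul_left (f := Real.exp)).comp_left (g := fun x : ℝ => (x : ℂ)) (by simp)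
  let f : SchwartzMap ℝ ℂ := hc.toSchwartzMap hs
  have hf : ∀ t, f t = ((Real.exp t * g t : ℝ) : ℂ) := fun _ => rfl
  let F : SchwartzMap ℝ ℂ := FourierTransform.fourier f
  have hFc : (F : ℝ → ℂ) = FourierTransform.fourier (f : ℝ → ℂ) := rfl
  have hgd : ∀ t, HasDerivAt g (deriv g t) t := fun t =>
    (hg.smooth.differentiable (by simp) t).hasDerivAt
  have hd : ∀ t, deriv (f : ℝ → ℂ) t = ((Real.exp t * g t + Real.exp t * deriv g t : ℝ) : ℂ) :=
    fun t => (((Real.hasDerivAt_exp t).mul (hgd t)).ofReal_comp).deriv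
  have hfd : Integrable (deriv (f : ℝ → ℂ)) := (SchwartzMap.derivCLM ℝ ℂ f).integrable
  have hfc : Continuous (deriv (f : ℝ → ℂ)) := (SchwartzMap.derivCLM ℝ ℂ f).continuous
  have hFd := Real.fourier_deriv f.integrable f.differentiable hfd
  have hFi : Integrable (FourierTransform.fourier (deriv (f : ℝ → ℂ))) :=
    (FourierTransform.fourier (SchwartzMap.derivCLM ℝ ℂ f) : SchwartzMap ℝ ℂ).integrable
  have e1 : ∀ t : ℝ, cexp (-t) * (Real.exp t : ℝ) = 1 := fun t => by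
    rw [Complex.ofReal_exp, ← Complex.exp_add]
    simp
  have h3 : ∀ t : ℝ, ∫ ξ, F ξ * cexp (-(al ξ * t)) = g t := fun t => by
    rw [hFc, mof_inv f.continuous f.integrable F.integrable, hf, Complex.ofReal_mul, ← mul_assoc,
      e1, one_mul]
  refine ⟨F, F.continuous, ?_, h3, fun t => ?_⟩
  · have i1 : Integrable fun ξ => ‖F ξ‖ := F.integrable.norm
    have i2 := (F.integrable_pow_mul volume 2).const_mul (4 * π ^ 2)
    refine (i1.add i2).congr (Eventually.of_forall fun ξ => ?_)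
    simp only [Pi.add_apply, mof_norm_sq]
    ring
  · have h4 := mof_inv hfc hfd hFi t
    have i1 := mof_int_exp F.integrable t
    have i2 := mof_int_exp hFi t
    have h5 := integral_sub i1 i2
    rw [h3, h4, hd, Complex.ofReal_add, Complex.ofReal_mul, Complex.ofReal_mul, mul_add,
      ← mul_assoc, ← mul_assoc, e1, one_mul, one_mul] at h5
    rw [show -((deriv g t : ℝ) : ℂ) = g t - (g t + (deriv g t : ℝ)) by ring, ← h5]
    refine integral_congr_ae (Eventually.of_forall fun ξ => ?_)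
    simp only [hFd, smul_eq_mul, ← hFc, al]
    ring

theorem mof_sum_div {M : Type} [AddCommMonoid M] {p n : ℕ} (hp : p.Prime) (hn : ¬ p ∣ n)
    (f : ℕ → M) :
    ∑ d ∈ (p * n).divisors, f d = ∑ d ∈ n.divisors, f d + ∑ d ∈ n.divisors, f (p * d) := by
  have hc : p.Coprime n := (Nat.Prime.coprime_iff_not_dvd hp).2 hn
  rw [Nat.divisors_mul, Finset.mul_def, Finset.sum_image hc.mul_injOn_divisors,
    Finset.sum_product, hp.divisors, Finset.sum_pair hp.one_lt.ne]
  simp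

theorem mof_lcm {p d e : ℕ} (h : p.Coprime e) (hd : d ≠ 0) :
    Nat.lcm (p * d) e = p * Nat.lcm d e := by
  have h0 : 0 < Nat.gcd d e := Nat.gcd_pos_of_pos_left _ (Nat.pos_of_ne_zero hd)
  apply Nat.eq_of_mul_eq_mul_left h0
  have h1 := Nat.gcd_mul_lcm (p * d) e
  rw [h.gcd_mul_left_cancel d] at h1
  rw [h1, mul_left_comm, Nat.gcd_mul_lcm, mul_assoc]

theorem mof_mu {p d : ℕ} (hp : p.Prime) (h : p.Coprime d) : (μ (p * d) : ℤ) = -μ d := by
  rw [ArithmeticFunction.isMultiplicative_moebius.map_mul_of_coprime h,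
    ArithmeticFunction.moebius_apply_prime hp]
  ring

/-- Let `Π` be the product of the primes up to `N`. For squarefree `e ∣ Π` the sum over `d ∣ Π` factors
(`ArithmeticFunction.IsMultiplicative.prodPrimeFactors_one_sub_of_squarefree`, or induction on the set of
primes with `Nat.Coprime.sum_divisors_mul`-type lemmas, or `Nat.sum_divisors_filter_squarefree` and
`Finset.prod_add`). -/
theorem sum_divisors_eu (S : Finset ℕ) (hS : ∀ p ∈ S, p.Prime) (s a b : ℂ) :
    ∑ d ∈ (∏ p ∈ S, p).divisors, ∑ e ∈ (∏ p ∈ S, p).divisors,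
      ((μ d : ℤ) : ℂ) * ((μ e : ℤ) : ℂ) * (d : ℂ) ^ (-a) * (e : ℂ) ^ (-b) *
        (Nat.lcm d e : ℂ) ^ (-s) = ∏ p ∈ S, eu s a b p := by
  induction S using Finset.induction_on with
  | empty => simp
  | insert p S hpS ih =>
    have hp : p.Prime := hS p (mem_insert_self _ _)
    have ih' := ih fun q hq => hS q (mem_insert_of_mem hq)
    have hn : ¬ p ∣ ∏ q ∈ S, q := by
      intro h
      obtain ⟨q, hq, hd⟩ := (Prime.dvd_finsetProd_iff hp.prime _).1 h
      exact hpS (((Nat.prime_dvd_prime_iff_eq hp (hS q (mem_insert_of_mem hq))).1 hd) ▸ hq)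
    have hp0 : (p : ℂ) ≠ 0 := by exact_mod_cast hp.ne_zero
    rw [prod_insert hpS, prod_insert hpS, mof_sum_div hp hn, ← ih', ← sum_add_distrib, mul_sum]
    refine sum_congr rfl fun d hd => ?_
    rw [mof_sum_div hp hn, mof_sum_div hp hn, ← sum_add_distrib, ← sum_add_distrib,
      ← sum_add_distrib, mul_sum]
    refine sum_congr rfl fun e he => ?_
    have cd : p.Coprime d := (Nat.Prime.coprime_iff_not_dvd hp).2 fun h =>
      hn (h.trans (Nat.dvd_of_mem_divisors hd))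
    have ce : p.Coprime e := (Nat.Prime.coprime_iff_not_dvd hp).2 fun h =>
      hn (h.trans (Nat.dvd_of_mem_divisors he))
    have hd0 : d ≠ 0 := (Nat.pos_of_mem_divisors hd).ne'
    have he0 : e ≠ 0 := (Nat.pos_of_mem_divisors he).ne'
    have l1 : Nat.lcm d (p * e) = p * Nat.lcm d e := by
      rw [Nat.lcm_comm, mof_lcm cd he0, Nat.lcm_comm]
    rw [l1, mof_lcm ce hd0, Nat.lcm_mul_left, mof_mu hp cd, mof_mu hp ce]
    simp only [Nat.cast_mul, Complex.natCast_mul_natCast_cpow, Int.cast_neg, eu, neg_add,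
      Complex.cpow_add _ _ hp0]
    ring

theorem mof_sum_eq {M : Type} [AddCommMonoid M] {A B : Finset ℕ} {f : ℕ → M}
    (h : ∀ d, f d ≠ 0 → d ∈ A ∧ d ∈ B) : ∑ d ∈ A, f d = ∑ d ∈ B, f d := by
  rw [← sum_subset (inter_subset_left (s₁ := A) (s₂ := B)),
    ← sum_subset (inter_subset_right (s₁ := A) (s₂ := B))]
  · intro x _ hx
    by_contra h0
    exact hx (mem_inter.2 (h x h0))
  · intro x _ hx
    by_contra h0
    exact hx (mem_inter.2 (h x h0))

theorem mof_supp (hg : Wt T g) (hL : 0 < L) {N : ℕ} (hN : Real.exp (T * L) ≤ N)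
    (S : Finset ℕ) (hS : ∀ p ∈ S, p.Prime) (hS' : ∀ p : ℕ, p.Prime → p ≤ N → p ∈ S) {d : ℕ}
    (hd : cf g L d ≠ 0) : d ∈ Icc 1 N ∧ d ∈ (∏ p ∈ S, p).divisors := by
  unfold cf at hd
  have h1 : (μ d : ℤ) ≠ 0 := by exact_mod_cast left_ne_zero_of_mul hd
  have h2 : g (Real.log d / L) ≠ 0 := right_ne_zero_of_mul hd
  have hsq : Squarefree d := ArithmeticFunction.moebius_ne_zero_iff_squarefree.1 h1
  have hd0 : d ≠ 0 := hsq.ne_zero
  have h3 : Real.log d / L < T := by
    by_contra h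
    exact h2 (hg.zero _ (not_lt.1 h))
  have h4 : (d : ℝ) ≤ N := by
    rw [div_lt_iff₀ hL] at h3
    have hpos : (0 : ℝ) < d := by exact_mod_cast Nat.pos_of_ne_zero hd0
    calc (d : ℝ) = Real.exp (Real.log d) := (Real.exp_log hpos).symm
      _ ≤ Real.exp (T * L) := Real.exp_le_exp.2 h3.le
      _ ≤ N := hN
  have h5 : d ≤ N := by exact_mod_cast h4
  refine ⟨mem_Icc.2 ⟨Nat.pos_of_ne_zero hd0, h5⟩, Nat.mem_divisors.2 ⟨?_, ?_⟩⟩
  · conv_lhs => rw [← Nat.prod_primeFactors_of_squarefree hsq]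
    refine prod_dvd_prod_of_subset _ _ _ fun p hp => ?_
    exact hS' p (Nat.prime_of_mem_primeFactors hp) ((Nat.le_of_mem_primeFactors hp).trans h5)
  · exact prod_ne_zero_iff.2 fun p hp => (hS p hp).ne_zero

/-- Both sums run over the squarefree numbers below `exp (T L)`. -/
theorem Qf_eq_div (hg : Wt T g) (hh : Wt T h) (hL : 0 < L) {N : ℕ} (hN : Real.exp (T * L) ≤ N)
    (S : Finset ℕ) (hS : ∀ p ∈ S, p.Prime) (hS' : ∀ p : ℕ, p.Prime → p ≤ N → p ∈ S) :
    Qf σ g h L N = ∑ d ∈ (∏ p ∈ S, p).divisors, ∑ e ∈ (∏ p ∈ S, p).divisors,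
      cf g L d * cf h L e * (Nat.lcm d e : ℝ) ^ (-(1 + σ / L)) := by
  unfold Qf
  rw [mof_sum_eq (B := (∏ p ∈ S, p).divisors)]
  · refine sum_congr rfl fun d _ => mof_sum_eq fun e he => ?_
    exact mof_supp hh hL hN S hS hS' (right_ne_zero_of_mul (left_ne_zero_of_mul he))
  · intro d hd
    refine mof_supp hg hL hN S hS hS' fun h0 => hd ?_
    simp [h0]

theorem mof_exp_cpow {d : ℕ} (hd : d ≠ 0) (z : ℂ) (L : ℝ) :
    cexp (-(z * (Real.log d / L : ℝ))) = (d : ℂ) ^ (-(z / L)) := by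
  have h0 : (d : ℂ) ≠ 0 := by exact_mod_cast hd
  rw [Complex.cpow_def_of_ne_zero h0, ← Complex.natCast_log]
  congr 1
  push_cast
  ring

theorem mof_fin (hg : Wt T g) (hh : Wt T h) (hL : 0 < L) {N : ℕ}
    (hN : Real.exp (T * L) ≤ N) {F G : ℝ → ℂ} (hF : Integrable F) (hG : Integrable G)
    (hFg : ∀ t : ℝ, ∫ ξ, F ξ * cexp (-(al ξ * t)) = g t)
    (hGh : ∀ t : ℝ, ∫ ξ, G ξ * cexp (-(al ξ * t)) = h t)
    (S : Finset ℕ) (hS : ∀ p ∈ S, p.Prime) (hS' : ∀ p : ℕ, p.Prime → p ≤ N → p ∈ S) :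
    (Qf σ g h L N : ℂ) = ∫ q : ℝ × ℝ, F q.1 * G q.2 *
      ∏ p ∈ S, eu (1 + σ / L) (al q.1 / L) (al q.2 / L) p := by
  have key : ∀ d e : ℕ, ((cf g L d * cf h L e * (Nat.lcm d e : ℝ) ^ (-(1 + σ / L)) : ℝ) : ℂ) =
      ∫ q : ℝ × ℝ, ((μ d : ℤ) : ℂ) * ((μ e : ℤ) : ℂ) * (Nat.lcm d e : ℂ) ^ (-(1 + σ / L : ℂ)) *
        (F q.1 * cexp (-(al q.1 * (Real.log d / L : ℝ))) *
          (G q.2 * cexp (-(al q.2 * (Real.log e / L : ℝ))))) := by
    intro d e
    rw [integral_const_mul, Measure.volume_eq_prod,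
      integral_prod_mul (fun ξ => F ξ * cexp (-(al ξ * (Real.log d / L : ℝ))))
        (fun ξ => G ξ * cexp (-(al ξ * (Real.log e / L : ℝ)))), hFg, hGh, Complex.ofReal_mul,
      Complex.ofReal_cpow (Nat.cast_nonneg _)]
    unfold cf
    push_cast
    ring
  have hint : ∀ d e : ℕ, Integrable fun q : ℝ × ℝ =>
      ((μ d : ℤ) : ℂ) * ((μ e : ℤ) : ℂ) * (Nat.lcm d e : ℂ) ^ (-(1 + σ / L : ℂ)) *
        (F q.1 * cexp (-(al q.1 * (Real.log d / L : ℝ))) *
          (G q.2 * cexp (-(al q.2 * (Real.log e / L : ℝ))))) := fun d e =>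
    ((mof_int_exp hF _).mul_prod (mof_int_exp hG _)).const_mul _
  rw [Qf_eq_div hg hh hL hN S hS hS', Complex.ofReal_sum]
  simp only [Complex.ofReal_sum, key]
  rw [sum_congr rfl fun d _ => (integral_finsetSum _ fun e _ => hint d e).symm,
    ← integral_finsetSum _ fun d _ => integrable_finsetSum _ fun e _ => hint d e]
  refine integral_congr_ae (Eventually.of_forall fun q => ?_)
  simp only
  rw [← sum_divisors_eu S hS, mul_sum]
  refine sum_congr rfl fun d hd => ?_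
  rw [mul_sum]
  refine sum_congr rfl fun e he => ?_
  rw [mof_exp_cpow (Nat.pos_of_mem_divisors hd).ne', mof_exp_cpow (Nat.pos_of_mem_divisors he).ne']
  ring

theorem mof_cont_eu (s : ℂ) (L : ℝ) {p : ℕ} (hp : p.Prime) :
    Continuous fun q : ℝ × ℝ => eu s (al q.1 / L) (al q.2 / L) p := by
  have hp0 : (p : ℂ) ≠ 0 := by exact_mod_cast hp.ne_zero
  have := mof_cont
  unfold eu
  refine ((continuous_const.sub ?_).sub ?_).add ?_ <;>
    exact Continuous.const_cpow (by fun_prop) (Or.inl hp0)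

/-- `Qf_eq_div`, `integral_prod_mul`, `sum_divisors_eu`; then let `S` exhaust the primes (dominated
convergence with `norm_prod_eu`, `hasProd_eu`). -/
theorem Qf_eq_int (hσ : 0 ≤ σ) (hg : Wt T g) (hh : Wt T h) (hL : 0 < L) {N : ℕ}
    (hN : Real.exp (T * L) ≤ N) {F G : ℝ → ℂ} (hF : Integrable F) (hG : Integrable G)
    (hFg : ∀ t : ℝ, ∫ ξ, F ξ * cexp (-(al ξ * t)) = g t)
    (hGh : ∀ t : ℝ, ∫ ξ, G ξ * cexp (-(al ξ * t)) = h t) :
    Integrable (fun q : ℝ × ℝ => F q.1 * G q.2 * Zp (1 + σ / L) (al q.1 / L) (al q.2 / L)) ∧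
    (Qf σ g h L N : ℂ) =
      ∫ q : ℝ × ℝ, F q.1 * G q.2 * Zp (1 + σ / L) (al q.1 / L) (al q.2 / L) := by
  have hs : 1 ≤ (1 + σ / L : ℂ).re := by
    have : (1 + σ / L : ℂ) = ((1 + σ / L : ℝ) : ℂ) := by push_cast; rfl
    rw [this, Complex.ofReal_re]
    have := div_nonneg hσ hL.le
    linarith
  have ha : ∀ ξ : ℝ, (al ξ / L).re = 1 / L := fun ξ => by
    rw [Complex.div_ofReal_re, mof_al_re]
  have hr : 0 < 1 / L := by positivity
  obtain ⟨C, hC⟩ := norm_prod_eu hr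
  have hFG : Integrable fun q : ℝ × ℝ => F q.1 * G q.2 := hF.mul_prod hG
  let em : Nat.Primes ↪ ℕ := Function.Embedding.subtype _
  let Φ : Finset Nat.Primes → ℝ × ℝ → ℂ := fun S q =>
    ∏ p ∈ S, eu (1 + σ / L) (al q.1 / L) (al q.2 / L) p
  have hΦ : ∀ S q, Φ S q = ∏ p ∈ S.map em, eu (1 + σ / L) (al q.1 / L) (al q.2 / L) p :=
    fun S q => by rw [prod_map]; rfl
  have hpr : ∀ S : Finset Nat.Primes, ∀ p ∈ S.map em, p.Prime := fun S p hp => by
    obtain ⟨p', -, rfl⟩ := mem_map.1 hp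
    exact p'.2
  have hb : ∀ S q, ‖Φ S q‖ ≤ C := fun S q => by
    rw [hΦ]
    exact hC _ _ _ hs (ha _).ge (ha _).ge _ (hpr S)
  have hm : ∀ S, AEStronglyMeasurable (Φ S) volume := fun S =>
    (continuous_finsetProd _ fun p _ => mof_cont_eu _ L p.2).aestronglyMeasurable
  have hl : ∀ q : ℝ × ℝ, Tendsto (fun S => Φ S q) atTop
      (𝓝 (Zp (1 + σ / L) (al q.1 / L) (al q.2 / L))) := fun q =>
    hasProd_eu hs (by rw [ha]; exact hr) (by rw [ha]; exact hr)
  refine ⟨hFG.mul_bdd (c := C) (aestronglyMeasurable_of_tendsto_ae atTop hm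
    (Eventually.of_forall hl)) (Eventually.of_forall fun q =>
      le_of_tendsto (hl q).norm (Eventually.of_forall fun S => hb S q)), ?_⟩
  have hlim := tendsto_integral_filter_of_dominated_convergence (l := atTop)
    (F := fun S (q : ℝ × ℝ) => F q.1 * G q.2 * Φ S q)
    (f := fun q : ℝ × ℝ => F q.1 * G q.2 * Zp (1 + σ / L) (al q.1 / L) (al q.2 / L))
    (fun q => ‖F q.1 * G q.2‖ * C)
    (Eventually.of_forall fun S => hFG.aestronglyMeasurable.mul (hm S))
    (Eventually.of_forall fun S => Eventually.of_forall fun q => by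
      rw [norm_mul]
      exact mul_le_mul_of_nonneg_left (hb S q) (norm_nonneg _))
    (show Integrable _ volume from hFG.norm.mul_const C) (Eventually.of_forall fun q => (hl q).const_mul _)
  refine tendsto_nhds_unique (tendsto_const_nhds.congr' ?_) hlim
  filter_upwards [eventually_ge_atTop ((range (N + 1)).subtype Nat.Prime)] with S hS
  simp only [hΦ]
  refine mof_fin hg hh hL hN hF hG hFg hGh _ (hpr S) fun p hp hpN => ?_
  exact mem_map.2 ⟨⟨p, hp⟩, hS (mem_subtype.2 (mem_range.2 (Nat.lt_succ_of_le hpN))), rfl⟩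

/-- `1 / (σ + α + β) = ∫₀^∞ exp (-(σ + α + β) t)`, Fubini. -/
theorem int_lim (hσ : 0 ≤ σ) {F G : ℝ → ℂ} {φ ψ : ℝ → ℝ}
    (hF : Integrable fun ξ => F ξ * (σ + al ξ)) (hG : Integrable fun ξ => G ξ * (σ + al ξ))
    (hφ : ∀ t : ℝ, ∫ ξ, F ξ * (σ + al ξ) * cexp (-(al ξ * t)) = φ t)
    (hψ : ∀ t : ℝ, ∫ ξ, G ξ * (σ + al ξ) * cexp (-(al ξ * t)) = ψ t) :
    ∫ q : ℝ × ℝ, F q.1 * G q.2 * ((σ + al q.1) * (σ + al q.2) / (σ + al q.1 + al q.2)) =
      ((∫ t in Set.Ioi (0 : ℝ), Real.exp (-(σ * t)) * (φ t * ψ t) : ℝ) : ℂ) := by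
  have hre : ∀ q : ℝ × ℝ, (-(σ + al q.1 + al q.2)).re = -(σ + 2) := fun q => by
    simp [mof_al_re]
    ring
  have h1 : ∀ q : ℝ × ℝ, F q.1 * G q.2 * ((σ + al q.1) * (σ + al q.2) / (σ + al q.1 + al q.2)) =
      ∫ t in Set.Ioi (0 : ℝ), F q.1 * (σ + al q.1) * (G q.2 * (σ + al q.2)) *
        cexp (-(σ + al q.1 + al q.2) * t) := fun q => by
    rw [integral_const_mul, integral_exp_mul_complex_Ioi (by rw [hre]; linarith)]
    simp only [Complex.ofReal_zero, mul_zero, Complex.exp_zero, neg_div_neg_eq]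
    ring
  simp only [h1]
  have hAB : Integrable fun q : ℝ × ℝ => F q.1 * (σ + al q.1) * (G q.2 * (σ + al q.2)) :=
    hF.mul_prod hG
  have hE : Integrable (fun t : ℝ => ((Real.exp (-(σ + 2) * t) : ℝ) : ℂ))
      (volume.restrict (Set.Ioi 0)) :=
    (exp_neg_integrableOn_Ioi 0 (by linarith : 0 < σ + 2)).ofReal
  have hc := mof_cont
  have hI := (hAB.mul_prod hE).mul_bdd (c := 1)
    (g := fun z : (ℝ × ℝ) × ℝ => cexp ((2 - al z.1.1 - al z.1.2) * z.2))
    (Continuous.aestronglyMeasurable (by fun_prop)) (Eventually.of_forall fun z => by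
      rw [Complex.norm_exp]
      simp [mof_al_re]
      norm_num)
  rw [integral_integral_swap (hI.congr (Eventually.of_forall fun z => ?_)),
    ← integral_complex_ofReal]
  · refine integral_congr_ae (Eventually.of_forall fun t => ?_)
    simp only
    rw [Complex.ofReal_mul, Complex.ofReal_mul, ← hφ, ← hψ, ← integral_prod_mul,
      ← integral_const_mul, Measure.volume_eq_prod]
    refine integral_congr_ae (Eventually.of_forall fun q => ?_)
    simp only
    rw [show -(σ + al q.1 + al q.2) * t = -(σ * t) + -(al q.1 * t) + -(al q.2 * t) by ring,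
      Complex.exp_add, Complex.exp_add]
    push_cast
    ring
  · simp only [Function.uncurry]
    rw [mul_assoc _ _ (cexp _), Complex.ofReal_exp, ← Complex.exp_add]
    congr 2
    push_cast
    ring

theorem mof_pack (σ : ℝ) (hg : Wt T g) : ∃ F : ℝ → ℂ, Integrable F ∧
    Integrable (fun ξ => ‖F ξ‖ * ‖al ξ‖ ^ 2) ∧ Integrable (fun ξ => F ξ * (σ + al ξ)) ∧
    (∀ t : ℝ, ∫ ξ, F ξ * cexp (-(al ξ * t)) = g t) ∧
    ∀ t : ℝ, ∫ ξ, F ξ * (σ + al ξ) * cexp (-(al ξ * t)) = ((σ * g t - deriv g t : ℝ) : ℂ) := by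
  obtain ⟨F, hc, hi, h1, h2⟩ := hg.exists_ft
  have ha := mof_cont
  have i1 : Integrable F := hi.mono' hc.aestronglyMeasurable (Eventually.of_forall fun ξ =>
    le_mul_of_one_le_right (norm_nonneg _) (one_le_pow₀ (mof_one_le ξ)))
  have i2 : Integrable fun ξ => F ξ * al ξ := hi.mono' (hc.mul ha).aestronglyMeasurable
    (Eventually.of_forall fun ξ => by
      rw [norm_mul]
      refine mul_le_mul_of_nonneg_left ?_ (norm_nonneg _)
      have := mof_one_le ξ
      nlinarith)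
  refine ⟨F, i1, hi, ((i1.mul_const (σ : ℂ)).add i2).congr (Eventually.of_forall fun ξ => ?_), h1,
    fun t => ?_⟩
  · simp only [Pi.add_apply]
    ring
  · have h3 := integral_add ((mof_int_exp i1 t).const_mul (σ : ℂ)) (mof_int_exp i2 t)
    rw [integral_const_mul, h1, h2] at h3
    push_cast
    rw [sub_eq_add_neg, ← h3]
    refine integral_congr_ae (Eventually.of_forall fun ξ => ?_)
    simp only
    ring

/-- Dominated convergence (`tendsto_integral_filter_of_dominated_convergence`), `Zp_dom`, `Zp_lim`. -/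
theorem gy (hσ : 0 ≤ σ) (hg : Wt T g) (hh : Wt T h) :
    Tendsto (fun L : ℝ => L * Qf σ g h L ⌈Real.exp (T * L)⌉₊) atTop
      (𝓝 (∫ t in Set.Ioi (0 : ℝ),
        Real.exp (-(σ * t)) * ((σ * g t - deriv g t) * (σ * h t - deriv h t)))) := by
  obtain ⟨F, f1, f2, f3, f4, f5⟩ := mof_pack σ hg
  obtain ⟨G, g1, g2, g3, g4, g5⟩ := mof_pack σ hh
  obtain ⟨C, -, hC⟩ := Zp_dom hσ
  have hQ : ∀ L : ℝ, 0 < L → _ := fun L hL =>
    Qf_eq_int hσ hg hh hL (Nat.le_ceil (Real.exp (T * L))) f1 g1 f4 g4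
  have hlim := tendsto_integral_filter_of_dominated_convergence (l := atTop)
    (F := fun (L : ℝ) (q : ℝ × ℝ) =>
      (L : ℂ) * (F q.1 * G q.2 * Zp (1 + σ / L) (al q.1 / L) (al q.2 / L)))
    (f := fun q : ℝ × ℝ =>
      F q.1 * G q.2 * ((σ + al q.1) * (σ + al q.2) / (σ + al q.1 + al q.2)))
    (fun q => C * ((‖F q.1‖ * ‖al q.1‖ ^ 2) * (‖G q.2‖ * ‖al q.2‖ ^ 2)))
    (by
      filter_upwards [eventually_gt_atTop 0] with L hL
      exact ((hQ L hL).1.const_mul _).aestronglyMeasurable)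
    (by
      filter_upwards [eventually_ge_atTop 1] with L hL
      refine Eventually.of_forall fun q => ?_
      have := hC L (al q.1) (al q.2) hL (mof_al_re _) (mof_al_re _)
      rw [mul_left_comm, norm_mul, norm_mul]
      refine (mul_le_mul_of_nonneg_left this (by positivity)).trans (le_of_eq ?_)
      ring)
    (show Integrable _ volume from (f2.mul_prod g2).const_mul C)
    (Eventually.of_forall fun q => by
      refine ((Zp_lim hσ (mof_al_re q.1) (mof_al_re q.2)).const_mul (F q.1 * G q.2)).congr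
        fun L => ?_
      ring)
  rw [int_lim hσ f3 g3 f5 g5] at hlim
  rw [← Filter.tendsto_ofReal_iff]
  refine hlim.congr' ?_
  filter_upwards [eventually_gt_atTop 0] with L hL
  rw [integral_const_mul, ← (hQ L hL).2, Complex.ofReal_mul]

end Mo

end Pool.Agent.Lib.MP_778b46_nt.GX
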