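import Pool.Agent.Lib.MP_778b46_nt.GX.MoDef

set_option autoImplicit false

noncomputable section

namespace Pool.Agent.Lib.MP_778b46_nt.GX

open Complex Finset Filter MeasureTheory Topology
open scoped Real ContDiff ArithmeticFunction.Moebius

/-! Finite inequalities. -/

namespace Mo

variable {ι κ : Type} [Fintype ι] [DecidableEq κ]

theorem EE_pos {u₀ u₁ x₀ x₁ : ℝ} (hu : u₀ < u₁) (hx : x₀ < x₁) (b : ℝ) : 0 < EE u₀ u₁ x₀ x₁ b := by
  have h1 := sub_pos.2 hu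
  have h2 := sub_pos.2 hx
  unfold EE
  positivity

theorem mos_norm_Ps {a b : ℝ} (h : a < b) (z : ℂ) :
    ‖Ps a b z‖ ≤ (Real.exp (z.re * b) + Real.exp (z.re * a)) / (b - a) / ‖z‖ ^ 2 := by
  have h1 := sub_pos.2 h
  unfold Ps
  rw [norm_div, norm_mul, norm_pow, Complex.norm_real, Real.norm_of_nonneg h1.le, div_div]
  refine div_le_div_of_nonneg_right ?_ (by positivity)
  refine (norm_sub_le _ _).trans (le_of_eq ?_)
  rw [Complex.norm_exp, Complex.norm_exp]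
  simp

theorem norm_Ps_sub {u₀ u₁ x₀ x₁ : ℝ} (hu : u₀ < u₁) (hx : x₀ < x₁) (z : ℂ) :
    ‖Ps x₀ x₁ z - Ps u₀ u₁ z‖ ≤ EE u₀ u₁ x₀ x₁ z.re / ‖z‖ ^ 2 := by
  refine (norm_sub_le _ _).trans ?_
  unfold EE
  rw [add_div _ _ (‖z‖ ^ 2)]
  exact add_le_add (mos_norm_Ps hx z) (mos_norm_Ps hu z)

theorem mos_exp_amgm (σ l l' c c' x : ℝ) : 2 * (c * c' * Real.exp ((σ + l + l') * x)) ≤
    c ^ 2 * Real.exp ((σ + 2 * l) * x) + c' ^ 2 * Real.exp ((σ + 2 * l') * x) := by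
  have e1 : Real.exp ((σ + 2 * l) * x) = Real.exp ((σ + 2 * l) * x / 2) ^ 2 := by
    rw [sq, ← Real.exp_add]; congr 1; ring
  have e2 : Real.exp ((σ + 2 * l') * x) = Real.exp ((σ + 2 * l') * x / 2) ^ 2 := by
    rw [sq, ← Real.exp_add]; congr 1; ring
  have e3 : Real.exp ((σ + l + l') * x) =
      Real.exp ((σ + 2 * l) * x / 2) * Real.exp ((σ + 2 * l') * x / 2) := by
    rw [← Real.exp_add]; congr 1; ring
  rw [e1, e2, e3]
  nlinarith [sq_nonneg (c * Real.exp ((σ + 2 * l) * x / 2) - c' * Real.exp ((σ + 2 * l') * x / 2))]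

theorem mos_pair {a b : ℝ} (h : a < b) (σ l l' c c' : ℝ) :
    2 * (c * c' * ((Real.exp ((σ + l + l') * b) + Real.exp ((σ + l + l') * a)) / (b - a))) ≤
      c ^ 2 * ((Real.exp ((σ + 2 * l) * b) + Real.exp ((σ + 2 * l) * a)) / (b - a)) +
        c' ^ 2 * ((Real.exp ((σ + 2 * l') * b) + Real.exp ((σ + 2 * l') * a)) / (b - a)) := by
  have h1 := sub_pos.2 h
  have h2 := add_le_add (mos_exp_amgm σ l l' c c' b) (mos_exp_amgm σ l l' c c' a)
  have h3 := div_le_div_of_nonneg_right h2 h1.le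
  refine le_of_eq_of_le ?_ (h3.trans (le_of_eq ?_)) <;> ring

/-- `2 c c' exp ((b + b') x / 2) ≤ c ^ 2 exp (b x) + c' ^ 2 exp (b' x)` for each of the four terms. -/
theorem EE_amgm {u₀ u₁ x₀ x₁ : ℝ} (hu : u₀ < u₁) (hx : x₀ < x₁) (σ l l' c c' : ℝ) :
    2 * (c * c' * EE u₀ u₁ x₀ x₁ (σ + l + l')) ≤
      c ^ 2 * EE u₀ u₁ x₀ x₁ (σ + 2 * l) + c' ^ 2 * EE u₀ u₁ x₀ x₁ (σ + 2 * l') := by
  have h1 := mos_pair hx σ l l' c c'
  have h2 := mos_pair hu σ l l' c c'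
  unfold EE
  linarith

theorem mos_swap {M : Type} [AddCommMonoid M] (cl : ι → κ) (F : ι → ι → M) :
    ∑ j, ∑ k ∈ univ.filter (fun k => cl k = cl j), F k j =
      ∑ j, ∑ k ∈ univ.filter (fun k => cl k = cl j), F j k :=
  Finset.sum_comm' fun j k => by simp [eq_comm]

/-- `EE_amgm`, symmetry in `j, k`, and `σ + l j + lmin ≤ σ + l j + l k`. -/
theorem schur {u₀ u₁ x₀ x₁ σ lmin : ℝ} (hu : u₀ < u₁) (hx : x₀ < x₁) (hσ : 0 < σ) (h0 : 0 ≤ lmin)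
    (cl : ι → κ) (c l m vp : ι → ℝ) (hl : ∀ j, lmin ≤ l j)
    (hv : ∀ j, ∑ k ∈ univ.filter (fun k => cl k = cl j),
      (σ + l j + l k) / ((σ + l j + l k) ^ 2 + (m j - m k) ^ 2) ≤ vp j) :
    ∑ j, ∑ k ∈ univ.filter (fun k => cl k = cl j),
        c j * c k * (EE u₀ u₁ x₀ x₁ (σ + l j + l k) / ((σ + l j + l k) ^ 2 + (m j - m k) ^ 2)) ≤
      ∑ j, c j ^ 2 * (EE u₀ u₁ x₀ x₁ (σ + 2 * l j) * vp j / (σ + l j + lmin)) := by
  set D : ι → ι → ℝ := fun j k => (σ + l j + l k) ^ 2 + (m j - m k) ^ 2 with hD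
  have hs : ∀ j k, 0 < σ + l j + l k := fun j k => by linarith [hl j, hl k]
  have hDpos : ∀ j k, 0 < D j k := fun j k => by
    have := hs j k
    simp only [hD]
    positivity
  have hDs : ∀ j k, D k j = D j k := fun j k => by simp only [hD]; ring
  set F : ι → ι → ℝ := fun j k => c j ^ 2 * EE u₀ u₁ x₀ x₁ (σ + 2 * l j) / D j k with hF
  have h1 : ∀ j k, 2 * (c j * c k * (EE u₀ u₁ x₀ x₁ (σ + l j + l k) / D j k)) ≤ F j k + F k j := by
    intro j k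
    have h2 := div_le_div_of_nonneg_right (EE_amgm hu hx σ (l j) (l k) (c j) (c k)) (hDpos j k).le
    simp only [hF]
    rw [hDs j k]
    refine le_of_eq_of_le ?_ (h2.trans (le_of_eq ?_)) <;> ring
  have h2 : 2 * ∑ j, ∑ k ∈ univ.filter (fun k => cl k = cl j),
      c j * c k * (EE u₀ u₁ x₀ x₁ (σ + l j + l k) / D j k) ≤
      2 * ∑ j, ∑ k ∈ univ.filter (fun k => cl k = cl j), F j k := by
    rw [two_mul (∑ j, ∑ k ∈ univ.filter (fun k => cl k = cl j), F j k)]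
    nth_rewrite 2 [← mos_swap cl F]
    rw [← Finset.sum_add_distrib, Finset.mul_sum]
    refine Finset.sum_le_sum fun j _ => ?_
    rw [← Finset.sum_add_distrib, Finset.mul_sum]
    exact Finset.sum_le_sum fun k _ => h1 j k
  refine (le_of_mul_le_mul_left h2 two_pos).trans (Finset.sum_le_sum fun j _ => ?_)
  have h3 : 0 < σ + l j + lmin := by linarith [hl j]
  have h4 : 0 ≤ c j ^ 2 * EE u₀ u₁ x₀ x₁ (σ + 2 * l j) / (σ + l j + lmin) :=
    div_nonneg (mul_nonneg (sq_nonneg _) (EE_pos hu hx _).le) h3.le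
  refine le_trans ?_ ((mul_le_mul_of_nonneg_left (hv j) h4).trans (le_of_eq (by ring)))
  rw [Finset.mul_sum]
  refine Finset.sum_le_sum fun k _ => ?_
  have h5 : F j k = c j ^ 2 * EE u₀ u₁ x₀ x₁ (σ + 2 * l j) / (σ + l j + lmin) *
      ((σ + l j + lmin) / D j k) := by
    simp only [hF]
    have := (hDpos j k).ne'
    field_simp
  rw [h5]
  refine mul_le_mul_of_nonneg_left (div_le_div_of_nonneg_right ?_ (hDpos j k).le) h4
  linarith [hl k]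

theorem mos_group (cl : ι → κ) (a : ι → ℂ) :
    (∑ j, ∑ k ∈ univ.filter (fun k => cl k = cl j), a j * starRingEnd ℂ (a k)).re =
      ∑ y ∈ univ.image cl, ‖∑ j ∈ univ.filter (fun j => cl j = y), a j‖ ^ 2 := by
  rw [← Finset.sum_fiberwise_of_maps_to (s := univ) (t := univ.image cl) (g := cl)
    (fun j hj => Finset.mem_image_of_mem cl hj), Complex.re_sum]
  refine Finset.sum_congr rfl fun y _ => ?_
  rw [← Complex.normSq_eq_norm_sq, ← Complex.ofReal_re (Complex.normSq _), ← Complex.mul_conj,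
    map_sum, Finset.sum_mul_sum]
  congr 1
  refine Finset.sum_congr rfl fun j hj => ?_
  rw [(Finset.mem_filter.1 hj).2]

/-- Group by classes (`Finset.sum_fiberwise_of_maps_to` over `univ.image cl`): each class contributes
`‖o‖ ^ 2 ‖∑ b‖ ^ 2`. -/
theorem class_pos (cl : ι → κ) (o b : ι → ℂ) (ho : ∀ j k, cl j = cl k → o j = o k)
    (h1 : ∀ j, ‖o j‖ ≤ 1) :
    (∑ j, ∑ k ∈ univ.filter (fun k => cl k = cl j),
        o j * b j * starRingEnd ℂ (o k * b k)).re ≤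
      (∑ j, ∑ k ∈ univ.filter (fun k => cl k = cl j), b j * starRingEnd ℂ (b k)).re := by
  rw [mos_group cl fun j => o j * b j, mos_group cl b]
  refine Finset.sum_le_sum fun y hy => ?_
  obtain ⟨j0, -, rfl⟩ := Finset.mem_image.1 hy
  have e : ∑ j ∈ univ.filter (fun j => cl j = cl j0), o j * b j =
      o j0 * ∑ j ∈ univ.filter (fun j => cl j = cl j0), b j := by
    rw [Finset.mul_sum]
    exact Finset.sum_congr rfl fun j hj => by rw [ho j j0 (Finset.mem_filter.1 hj).2]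
  rw [e, norm_mul]
  exact pow_le_pow_left₀ (by positivity) (mul_le_of_le_one_left (norm_nonneg _) (h1 j0)) 2

theorem mos_Ioc {M : Type} [AddCommMonoid M] (F : ℕ → M) (N : ℕ) (h : F 1 = 0) :
    ∑ n ∈ Ioc 0 N, F n = ∑ n ∈ Ioc 1 N, F n := by
  refine (Finset.sum_subset (Finset.Ioc_subset_Ioc_left zero_le_one) fun n hn hn' => ?_).symm
  obtain rfl : n = 1 := by
    rw [Finset.mem_Ioc] at hn hn'
    omega
  exact h

/-- `Finset.sum_mul_sq_le_sq_mul_sq`, `K ^ 2 ≤ K`. -/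
theorem cs {A B K : ℕ → ℝ} {T : ℕ → ℂ} (x : ℝ) (N : ℕ) (h0 : ∀ n, 0 ≤ K n) (h1 : ∀ n, K n ≤ 1)
    (hK : K 1 = 0) : ‖∑ n ∈ Ioc 0 N, ((A n * B n : ℝ) : ℂ) * (T n * K n)‖ ^ 2 ≤
      (∑ n ∈ Ioc 1 N, A n ^ 2 * (n : ℝ) ^ (-x)) *
        ∑ n ∈ Ioc 0 N, B n * B n * K n * (n : ℝ) ^ x * ‖T n‖ ^ 2 := by
  rw [mos_Ioc _ N (by simp [hK]), mos_Ioc (fun n => B n * B n * K n * (n : ℝ) ^ x * ‖T n‖ ^ 2) N
    (by simp [hK])]
  refine (pow_le_pow_left₀ (norm_nonneg _) (norm_sum_le _ _) 2).trans ?_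
  refine Finset.sum_sq_le_sum_mul_sum_of_sq_le_mul _ (fun n _ => by positivity) (fun n _ => ?_)
    fun n hn => ?_
  · have := h0 n
    have := mul_self_nonneg (B n)
    positivity
  · have hn0 : (0 : ℝ) < n := by exact_mod_cast (zero_lt_one.trans (Finset.mem_Ioc.1 hn).1)
    have hx : (n : ℝ) ^ (-x) * (n : ℝ) ^ x = 1 := by
      rw [← Real.rpow_add hn0, neg_add_cancel, Real.rpow_zero]
    rw [norm_mul, norm_mul, Complex.norm_real, Complex.norm_real, mul_pow, mul_pow,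
      Real.norm_eq_abs, Real.norm_eq_abs, sq_abs, sq_abs]
    have e : A n ^ 2 * (n : ℝ) ^ (-x) * (B n * B n * K n * (n : ℝ) ^ x * ‖T n‖ ^ 2) =
        (A n * B n) ^ 2 * (‖T n‖ ^ 2 * K n) * ((n : ℝ) ^ (-x) * (n : ℝ) ^ x) := by ring
    rw [e, hx, mul_one]
    refine mul_le_mul_of_nonneg_left (mul_le_mul_of_nonneg_left ?_ (sq_nonneg _)) (sq_nonneg _)
    nlinarith [h0 n, h1 n]

theorem mos_cpow {n : ℕ} (hn : 0 < n) (x : ℝ) (ρ ρ' : ℂ) :
    (((n : ℝ) ^ x : ℝ) : ℂ) * ((n : ℂ) ^ (-ρ) * starRingEnd ℂ ((n : ℂ) ^ (-ρ'))) =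
      (n : ℂ) ^ (-(ρ + starRingEnd ℂ ρ' - x)) := by
  have h0 : (n : ℂ) ≠ 0 := Nat.cast_ne_zero.2 hn.ne'
  have h1 : starRingEnd ℂ ((n : ℂ) ^ (-ρ')) = (n : ℂ) ^ (-starRingEnd ℂ ρ') := by
    rw [← map_neg, Complex.cpow_conj _ _ (by rw [Complex.natCast_arg]; exact Real.pi_pos.ne),
      map_natCast]
  rw [h1, Complex.ofReal_cpow (Nat.cast_nonneg n), Complex.ofReal_natCast,
    ← Complex.cpow_add _ _ h0, ← Complex.cpow_add _ _ h0]
  congr 1
  ring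

theorem mos_split (cl : ι → κ) (a : ι → ℂ) : ‖∑ j, a j‖ ^ 2 =
    (∑ j, ∑ k ∈ univ.filter (fun k => cl k = cl j), a j * starRingEnd ℂ (a k)).re +
      (∑ j, ∑ k ∈ univ.filter (fun k => ¬cl k = cl j), a j * starRingEnd ℂ (a k)).re := by
  rw [← Complex.normSq_eq_norm_sq, ← Complex.ofReal_re (Complex.normSq _), ← Complex.mul_conj,
    map_sum, Finset.sum_mul_sum, ← Complex.add_re, ← Finset.sum_add_distrib]
  congr 1
  exact Finset.sum_congr rfl fun j _ => (Finset.sum_filter_add_sum_filter_not _ _ _).symm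

theorem mos_exch (s : Finset ℕ) (t : ι → Finset ι) (w : ℕ → ℝ) (c : ι → ℝ) (hc : ∀ j, 0 ≤ c j)
    (G H : ι → ι → ℕ → ℂ) (h : ∀ j k, ∀ n ∈ s, w n * G j k n = (c j * c k : ℝ) * H j k n) :
    ∑ n ∈ s, w n * (∑ j, ∑ k ∈ t j, G j k n).re ≤
      ∑ j, ∑ k ∈ t j, c j * c k * ‖∑ n ∈ s, H j k n‖ := by
  have e : ∑ n ∈ s, w n * (∑ j, ∑ k ∈ t j, G j k n).re =
      ∑ j, ∑ k ∈ t j, c j * c k * (∑ n ∈ s, H j k n).re := by
    simp only [← Complex.re_ofReal_mul, ← Complex.re_sum]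
    congr 1
    simp only [Finset.mul_sum]
    rw [Finset.sum_comm]
    refine Finset.sum_congr rfl fun j _ => ?_
    rw [Finset.sum_comm]
    exact Finset.sum_congr rfl fun k _ => Finset.sum_congr rfl fun n hn => h j k n hn
  rw [e]
  exact Finset.sum_le_sum fun j _ => Finset.sum_le_sum fun k _ =>
    mul_le_mul_of_nonneg_left (Complex.re_le_norm _) (mul_nonneg (hc j) (hc k))

/-- Expand the square, split the pairs, use `class_pos` for each `n`;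
`n ^ x * n ^ (-ρ) * conj (n ^ (-ρ')) = n ^ (-(ρ + conj ρ' - x))`. -/
theorem second {B K : ℕ → ℝ} (x : ℝ) (N : ℕ) (h0 : ∀ n, 0 ≤ K n) (cl : ι → κ) (f : ι → ℕ → ℂ)
    (ρ : ι → ℂ) (c : ι → ℝ) (hc : ∀ j, 0 ≤ c j) (hf : ∀ j k, cl j = cl k → f j = f k)
    (h1 : ∀ j n, ‖f j n‖ ≤ 1) :
    ∑ n ∈ Ioc 0 N, B n * B n * K n * (n : ℝ) ^ x * ‖∑ j, (c j : ℂ) * (f j n * (n : ℂ) ^ (-ρ j))‖ ^ 2 ≤
      ∑ j, ∑ k ∈ univ.filter (fun k => cl k = cl j), c j * c k *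
        ‖∑ n ∈ Ioc 0 N, ((B n * B n : ℝ) : ℂ) *
          (1 * (n : ℂ) ^ (-(ρ j + starRingEnd ℂ (ρ k) - x)) * K n)‖ +
      ∑ j, ∑ k ∈ univ.filter (fun k => ¬cl k = cl j), c j * c k *
        ‖∑ n ∈ Ioc 0 N, ((B n * B n : ℝ) : ℂ) *
          (f j n * starRingEnd ℂ (f k n) * (n : ℂ) ^ (-(ρ j + starRingEnd ℂ (ρ k) - x)) * K n)‖ := by
  set w : ℕ → ℝ := fun n => B n * B n * K n * (n : ℝ) ^ x with hw
  have hw0 : ∀ n, 0 ≤ w n := fun n => by
    have := h0 n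
    have := mul_self_nonneg (B n)
    simp only [hw]
    positivity
  have e1 := mos_exch (Ioc 0 N) (fun j => univ.filter (fun k => cl k = cl j)) w c hc
    (fun j k n => (c j * (n : ℂ) ^ (-ρ j)) * starRingEnd ℂ (c k * (n : ℂ) ^ (-ρ k)))
    (fun j k n => ((B n * B n : ℝ) : ℂ) *
      (1 * (n : ℂ) ^ (-(ρ j + starRingEnd ℂ (ρ k) - x)) * K n)) (fun j k n hn => by
      rw [← mos_cpow (Finset.mem_Ioc.1 hn).1]
      simp only [hw, map_mul, Complex.conj_ofReal, Complex.ofReal_mul]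
      ring)
  have e2 := mos_exch (Ioc 0 N) (fun j => univ.filter (fun k => ¬cl k = cl j)) w c hc
    (fun j k n => (c j * (f j n * (n : ℂ) ^ (-ρ j))) *
      starRingEnd ℂ (c k * (f k n * (n : ℂ) ^ (-ρ k))))
    (fun j k n => ((B n * B n : ℝ) : ℂ) * (f j n * starRingEnd ℂ (f k n) *
      (n : ℂ) ^ (-(ρ j + starRingEnd ℂ (ρ k) - x)) * K n)) (fun j k n hn => by
      rw [← mos_cpow (Finset.mem_Ioc.1 hn).1]
      simp only [hw, map_mul, Complex.conj_ofReal, Complex.ofReal_mul]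
      ring)
  refine le_trans ?_ (add_le_add e1 e2)
  rw [← Finset.sum_add_distrib]
  refine Finset.sum_le_sum fun n _ => ?_
  rw [← mul_add, mos_split cl]
  refine mul_le_mul_of_nonneg_left (add_le_add ?_ le_rfl) (hw0 n)
  have h2 := class_pos cl (fun j => f j n) (fun j => c j * (n : ℂ) ^ (-ρ j))
    (fun j k h => by rw [hf j k h]) (fun j => h1 j n)
  refine le_of_eq_of_le ?_ h2
  congr 1
  refine Finset.sum_congr rfl fun j _ => Finset.sum_congr rfl fun k _ => ?_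
  rw [mul_left_comm (f j n), mul_left_comm (f k n)]

theorem final_ineq {G ε : ℝ} (hG : 0 < G) (hε : 0 < ε) : ∃ δ : ℝ, 0 < δ ∧ ∀ S X : ℝ, 0 ≤ S →
    S * (1 - δ) ≤ X → X ^ 2 ≤ (G + δ) * ((1 + δ) * S + δ * S ^ 2) → S ≤ G * (1 + ε) := by
  have c1 : Continuous fun δ : ℝ =>
      G * (1 + ε) * ((1 - δ) ^ 2 - (G + δ) * δ) - (G + δ) * (1 + δ) := by fun_prop
  have c2 : Continuous fun δ : ℝ => (1 - δ) ^ 2 - (G + δ) * δ := by fun_prop
  have e1 : ∀ᶠ δ in 𝓝 (0 : ℝ),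
      0 < G * (1 + ε) * ((1 - δ) ^ 2 - (G + δ) * δ) - (G + δ) * (1 + δ) :=
    (c1.tendsto 0).eventually (lt_mem_nhds (by
      have := mul_pos hG hε
      norm_num
      linarith))
  have e2 : ∀ᶠ δ in 𝓝 (0 : ℝ), 0 < (1 - δ) ^ 2 - (G + δ) * δ :=
    (c2.tendsto 0).eventually (lt_mem_nhds (by norm_num))
  have e3 : ∀ᶠ δ in 𝓝 (0 : ℝ), δ < 1 := gt_mem_nhds one_pos
  obtain ⟨δ, ⟨h1, h2, h3⟩, h4⟩ := (((e1.and (e2.and e3)).filter_mono
    (nhdsWithin_le_nhds (s := Set.Ioi (0 : ℝ)))).and self_mem_nhdsWithin).exists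
  refine ⟨δ, h4, fun S X hS hX hXX => ?_⟩
  rcases hS.eq_or_lt with rfl | hS'
  · positivity
  have h5 : (S * (1 - δ)) ^ 2 ≤ X ^ 2 :=
    pow_le_pow_left₀ (mul_nonneg hS (by linarith)) hX 2
  have h6 : S * (S * ((1 - δ) ^ 2 - (G + δ) * δ)) ≤ S * ((G + δ) * (1 + δ)) := by
    have := h5.trans hXX
    linarith
  have h7 := le_of_mul_le_mul_left h6 hS'
  refine le_of_mul_le_mul_right ?_ h2
  linarith

end Mo

end Pool.Agent.Lib.MP_778b46_nt.GX
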