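import Pool.Agent.Lib.MP_778b46_nt.GX.MoE
import Pool.Agent.Lib.MP_778b46_nt.GX.MoS
import Pool.Agent.Lib.MP_778b46_nt.GX.Defs

set_option autoImplicit false

noncomputable section

namespace Pool.Agent.Lib.MP_778b46_nt.GX

open Complex Finset Filter MeasureTheory Topology
open scoped Real ContDiff ArithmeticFunction.Moebius

/-! The mollifier inequality for abstract data. -/

namespace Mo

theorem mom_K {u₀ u₁ x₀ x₁ : ℝ} (hu : u₀ < u₁) (h : u₁ ≤ x₀) (hx : x₀ < x₁) (t : ℝ) :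
    0 ≤ st x₀ x₁ t - st u₀ u₁ t ∧ st x₀ x₁ t - st u₀ u₁ t ≤ 1 := by
  refine ⟨?_, by linarith [st_le_one x₀ x₁ t, st_nonneg u₀ u₁ t]⟩
  rcases le_total t x₀ with h1 | h1
  · rw [st_eq_one hx h1]; linarith [st_le_one u₀ u₁ t]
  · rw [st_eq_zero hu (h.trans h1)]; linarith [st_nonneg x₀ x₁ t]

theorem mom_first {ι : Type} [Fintype ι] {c : ι → ℝ} (hc : ∀ j, 0 ≤ c j) {a : ι → ℂ} {δ : ℝ}
    (ha : ∀ j, ‖a j‖ ≤ δ) : (∑ j, c j) * (1 - δ) ≤ ‖∑ j, (c j : ℂ) * (a j - 1)‖ := by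
  have h1 : (∑ j, c j) * (1 - δ) ≤ -(∑ j, (c j : ℂ) * (a j - 1)).re := by
    rw [re_sum, ← sum_neg_distrib, sum_mul]
    refine sum_le_sum fun j _ => ?_
    have h2 : (a j).re ≤ δ := (re_le_norm _).trans (ha j)
    rw [re_ofReal_mul, sub_re, one_re]
    nlinarith [hc j]
  exact h1.trans ((neg_le_abs _).trans (abs_re_le_norm _))

theorem mom_split {ι κ : Type} [Fintype ι] [DecidableEq κ] (cl : ι → κ) (c : ι → ℝ) (δ : ℝ) :
    ∑ j, ∑ k ∈ univ.filter (fun k => cl k = cl j), c j * c k * δ +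
      ∑ j, ∑ k ∈ univ.filter (fun k => ¬cl k = cl j), c j * c k * δ = δ * (∑ j, c j) ^ 2 := by
  rw [← sum_add_distrib, sq, sum_mul_sum, mul_sum]
  refine sum_congr rfl fun j _ => ?_
  rw [sum_filter_add_sum_filter_not, mul_sum]
  exact sum_congr rfl fun k _ => by ring

theorem mol_abs (p : MP) {φ φ' e₀ θ C ε : ℝ} (hp : p.ok φ φ') (he : 0 < e₀) (hφ : e₀ ≤ φ) (hφ' : e₀ ≤ φ')
    (hθ : 0 < θ) (hθ' : θ ≤ 1) (hC : 1 ≤ C) (hε : 0 < ε) : ∃ η : ℝ, 0 < η ∧ ∀ᶠ L : ℝ in atTop,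
    ∀ (ι κ : Type) [Fintype ι] [DecidableEq κ] (cl : ι → κ) (f : ι → ℕ → ℂ) (ρ : ι → ℂ) (l vp : ι → ℝ)
      (lmin : ℝ), (∀ j m n, f j (m * n) = f j m * f j n) → (∀ j, f j 1 = 1) → (∀ j n, ‖f j n‖ ≤ 1) →
      (∀ j k, cl j = cl k → f j = f k) → (∀ j, Pb (f j) 0 C θ (Real.exp ((φ - e₀) * L))) →
      (∀ j k, ¬cl k = cl j →
        Pb (fun n => f j n * starRingEnd ℂ (f k n)) 0 C θ (Real.exp ((φ' - e₀) * L))) →
      (∀ j, Tendsto (fun M : ℕ => ∑ m ∈ Ioc 0 M, f j m * (m : ℂ) ^ (-ρ j)) atTop (𝓝 0)) → 0 ≤ lmin →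
      (∀ j, l j = (1 - (ρ j).re) * L ∧ lmin ≤ l j ∧ l j ≤ η * L ∧ |(ρ j).im| ≤ Real.exp (η * L)) →
      (∀ j, 0 < vp j ∧ ∑ k ∈ univ.filter (fun k => cl k = cl j), (p.sg + l j + l k) /
        ((p.sg + l j + l k) ^ 2 + (L * (ρ j).im - L * (ρ k).im) ^ 2) ≤ vp j) →
      ∑ j, p.w * (p.sg + l j + lmin) / (EE p.u0 p.u1 p.x0 p.x1 (p.sg + 2 * l j) * vp j) ≤
        Gm p.sg p.u p.v * (1 + ε) := by
  obtain ⟨hw, h0, h01, h1u, huv, hvx, hx, hσ⟩ := hp
  have hu0 : 0 < p.u0 := by linarith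
  have hG : 0 < Gm p.sg p.u p.v := by
    have := Real.exp_lt_exp.2 (mul_lt_mul_of_pos_left huv hσ)
    unfold Gm
    exact one_div_pos.2 (by linarith)
  obtain ⟨δ, hδ, hfin⟩ := final_ineq hG hε
  obtain ⟨g, hg, hg1, hA⟩ := exists_A hσ (u := p.u) (v := p.v) (by linarith) huv hδ
  obtain ⟨h, hh, hh0, hB⟩ := exists_B (T := p.x1) hw (div_pos hδ hw) (by linarith)
  obtain ⟨η, hη, hηθ, hE⟩ := err_small hθ hC he hσ.le (x := p.x1) (by linarith) hδ
  refine ⟨η, hη, ?_⟩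
  filter_upwards [hA, hB, hE, eventually_gt_atTop 0, eventually_ge_atTop (4 * p.sg / θ)]
    with L hA hB hE hL hLσ ι κ _ _ cl f ρ l vp lmin hm hf1 hfn hcl hPb hPb' hz hlm hl hv
  set N := ⌈Real.exp (p.x1 * L)⌉₊ with hN
  have hN' : Real.exp (p.x1 * L) ≤ N := Nat.le_ceil _
  have hN1 : 1 ≤ N := Nat.one_le_ceil_iff.2 (Real.exp_pos _)
  have hσL : p.sg ≤ θ / 4 * L := by
    rw [div_le_iff₀ hθ] at hLσ; linarith
  have hl0 : ∀ j, 0 ≤ l j := fun j => hlm.trans (hl j).2.1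
  set c : ι → ℝ := fun j =>
    p.w * (p.sg + l j + lmin) / (EE p.u0 p.u1 p.x0 p.x1 (p.sg + 2 * l j) * vp j) with hc
  have hpos : ∀ j, 0 < p.sg + l j + lmin := fun j => by linarith [hl0 j]
  have hc0 : ∀ j, 0 ≤ c j := fun j =>
    (div_pos (mul_pos hw (hpos j)) (mul_pos (EE_pos h01 hx _) (hv j).1)).le
  set K : ℕ → ℝ := fun n => st p.x0 p.x1 (Real.log n / L) - st p.u0 p.u1 (Real.log n / L) with hK
  have hK' := fun n : ℕ => mom_K h01 (show p.u1 ≤ p.x0 by linarith) hx (Real.log n / L)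
  have hre : ∀ j, (ρ j).re ≤ 1 ∧ 1 - η ≤ (ρ j).re := fun j => by
    have h2 := hl0 j
    have h3 := (hl j).2.2.1
    rw [(hl j).1] at h2 h3
    constructor
    · by_contra h4
      nlinarith
    · have := le_of_mul_le_mul_right h3 hL
      linarith
  have hex : ∀ j, |(ρ j).im| ≤ Real.exp (η * L) := fun j => (hl j).2.2.2
  refine hfin _ ‖∑ n ∈ Ioc 0 N, ((Aw g L n * Aw h L n : ℝ) : ℂ) *
    ((∑ j, (c j : ℂ) * (f j n * (n : ℂ) ^ (-ρ j))) * K n)‖ (sum_nonneg fun j _ => hc0 j) ?_ ?_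
  · have e1 : ∑ n ∈ Ioc 0 N, ((Aw g L n * Aw h L n : ℝ) : ℂ) *
        ((∑ j, (c j : ℂ) * (f j n * (n : ℂ) ^ (-ρ j))) * K n) =
        ∑ j, (c j : ℂ) * (∑ n ∈ Ioc 0 N, ((Aw g L n * Aw h L n : ℝ) : ℂ) *
          (f j n * (n : ℂ) ^ (-ρ j) * st p.x0 p.x1 (Real.log n / L)) - 1) := by
      simp only [sum_mul, mul_sum]
      rw [sum_comm]
      refine sum_congr rfl fun j _ => ?_
      rw [← low_part (s := ρ j) hg1 hh0 hL hu0.le h01 h1u.le (hf1 j) hN1, ← sum_sub_distrib, mul_sum]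
      refine sum_congr rfl fun n _ => ?_
      simp only [hK]
      push_cast
      ring
    rw [e1]
    refine mom_first hc0 fun j => ?_
    refine (det hθ hθ' hC hφ (by linarith) hg hh (by linarith) hw.le hL hvx hx (hm j) (hfn j) (hPb j)
      (by linarith [(hre j).2]) (hre j).1 (hz j) hN').trans ?_
    refine hE _ _ (by linarith) hx.le (by linarith [(hre j).2]) (hre j).1 ?_
      (by linarith [hex j, Real.exp_pos (η * L)])
    rw [← (hl j).1]
    nlinarith [(hl j).2.2.1, mul_pos hη hL]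
  · have hK1 : K 1 = 0 := by
      simp only [hK, Nat.cast_one, Real.log_one, zero_div]
      rw [st_eq_one hx (by linarith), st_eq_one h01 hu0.le, sub_self]
    refine (cs (1 + p.sg / L) N (fun n => (hK' n).1) (fun n => (hK' n).2) hK1).trans ?_
    refine mul_le_mul (hA N) ?_ (sum_nonneg fun n _ => ?_) (by linarith)
    swap
    · have := (hK' n).1
      have h5 := mul_self_nonneg (Aw h L n)
      positivity
    refine (second (1 + p.sg / L) N (fun n => (hK' n).1) cl f ρ c hc0 hcl hfn).trans ?_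
    set s : ι → ι → ℂ := fun j k => ρ j + starRingEnd ℂ (ρ k) - ((1 + p.sg / L : ℝ) : ℂ) with hs
    have hz1 : ∀ j k, ((1 - s j k) * L).re = p.sg + l j + l k := fun j k => by
      rw [re_mul_ofReal, (hl j).1, (hl k).1]
      simp only [hs, sub_re, add_re, one_re, conj_re, ofReal_re]
      field_simp
      ring
    have hz2 : ∀ j k, ((1 - s j k) * L).im = -(L * (ρ j).im - L * (ρ k).im) := fun j k => by
      rw [im_mul_ofReal]
      simp only [hs, sub_im, add_im, one_im, conj_im, ofReal_im]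
      ring
    have hz3 : ∀ j k, (1 - (s j k).re) * L = p.sg + l j + l k := fun j k => by
      rw [← hz1, re_mul_ofReal, sub_re 1, one_re]
    have hs1 : ∀ j k, (s j k).re < 1 ∧ 1 - θ / 2 ≤ (s j k).re := fun j k => by
      have h2 := hz3 j k
      have h3 := (hl j).2.2.1
      have h4 := (hl k).2.2.1
      constructor
      · by_contra h5
        nlinarith [hl0 j, hl0 k]
      · have h5 : (1 - (s j k).re) * L ≤ θ / 2 * L := by nlinarith
        have := le_of_mul_le_mul_right h5 hL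
        linarith
    have hEr : ∀ j k, Er C θ e₀ L p.u0 (s j k) N ≤ δ := fun j k => by
      refine hE _ _ hu0.le (by linarith) (by linarith [(hs1 j k).2]) (hs1 j k).1.le ?_ ?_
      · rw [hz3]; linarith [(hl j).2.2.1, (hl k).2.2.1]
      · simp only [hs, sub_im, add_im, conj_im, ofReal_im, sub_zero]
        exact (abs_add_le _ _).trans (by rw [abs_neg]; linarith [hex j, hex k])
    have hy : 1 ≤ Real.exp ((φ' - e₀) * L) := Real.one_le_exp (mul_nonneg (by linarith) hL.le)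
    have hoff : ∀ j k, ¬cl k = cl j → ‖∑ n ∈ Ioc 0 N, ((Aw h L n * Aw h L n : ℝ) : ℂ) *
        (f j n * starRingEnd ℂ (f k n) * (n : ℂ) ^ (-s j k) * K n)‖ ≤ δ := fun j k hjk => by
      have h2 := dif (f := fun n => f j n * starRingEnd ℂ (f k n)) (a := 0) hθ hθ' hC hφ' (by linarith)
        hh hw.le hL h0 h01 (show p.u1 ≤ p.x0 by linarith) hx
        (fun m n => by rw [hm j, hm k, map_mul]; ring)
        (fun n => by
          rw [norm_mul, norm_conj]
          exact mul_le_one₀ (hfn j n) (norm_nonneg _) (hfn k n))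
        (by simp) (fun n _ => zero_mul _) (hPb' j k hjk) (hs1 j k).2 (hs1 j k).1 hN'
      rw [zero_mul, sub_zero] at h2
      exact h2.trans (hEr j k)
    have hdi : ∀ j k, ‖∑ n ∈ Ioc 0 N, ((Aw h L n * Aw h L n : ℝ) : ℂ) *
        (1 * (n : ℂ) ^ (-s j k) * K n)‖ ≤ (1 + δ) / p.w * (EE p.u0 p.u1 p.x0 p.x1 (p.sg + l j + l k) /
          ((p.sg + l j + l k) ^ 2 + (L * (ρ j).im - L * (ρ k).im) ^ 2)) + δ := fun j k => by
      have h2 := dif (f := fun _ => 1) (a := 1) hθ hθ' hC hφ' (by linarith)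
        hh hw.le hL h0 h01 (show p.u1 ≤ p.x0 by linarith) hx (fun m n => (one_mul _).symm)
        (fun n => by simp) (by simp) (fun n _ => one_mul _) (Pb_one hC hθ.le hθ' hy) (hs1 j k).2
        (hs1 j k).1 hN'
      have h3 := norm_Ps_sub h01 hx ((1 - s j k) * L)
      rw [hz1, Complex.sq_norm, normSq_apply, hz1, hz2, neg_mul_neg, ← sq, ← sq] at h3
      refine (norm_le_norm_add_norm_sub' _ _).trans (add_le_add ?_ (h2.trans (hEr j k)))
      rw [one_mul, ← mul_assoc, norm_mul, mul_comm (Qf 0 h h L N : ℂ), ← ofReal_mul, norm_real,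
        Real.norm_eq_abs]
      refine mul_le_mul (hB.trans (le_of_eq ?_)) h3 (norm_nonneg _) (by positivity)
      ring
    have hsc := schur h01 hx hσ hlm cl c l (fun j => L * (ρ j).im) vp (fun j => (hl j).2.1)
      fun j => (hv j).2
    have hcq : ∀ j, c j ^ 2 * (EE p.u0 p.u1 p.x0 p.x1 (p.sg + 2 * l j) * vp j / (p.sg + l j + lmin)) =
        p.w * c j := fun j => by
      have h2 := (EE_pos h01 hx (p.sg + 2 * l j)).ne'
      have h3 := (hv j).1.ne'
      have h4 := (hpos j).ne'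
      simp only [hc]
      field_simp
    simp only [hcq, ← mul_sum] at hsc
    rw [← mom_split cl c δ, ← add_assoc]
    refine add_le_add ?_ (sum_le_sum fun j _ => sum_le_sum fun k hk =>
      mul_le_mul_of_nonneg_left (hoff j k (mem_filter.1 hk).2) (mul_nonneg (hc0 j) (hc0 k)))
    refine (sum_le_sum fun j _ => sum_le_sum fun k _ =>
      mul_le_mul_of_nonneg_left (hdi j k) (mul_nonneg (hc0 j) (hc0 k))).trans ?_
    simp only [mul_add, sum_add_distrib]
    refine add_le_add ?_ le_rfl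
    have h6 := mul_le_mul_of_nonneg_left hsc (show 0 ≤ (1 + δ) / p.w by positivity)
    rw [← mul_assoc, div_mul_cancel₀ _ hw.ne'] at h6
    refine le_trans (le_of_eq ?_) h6
    simp only [mul_sum]
    exact sum_congr rfl fun j _ => sum_congr rfl fun k _ => by ring

end Mo

end Pool.Agent.Lib.MP_778b46_nt.GX
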