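import Pool.Agent.Lib.MP_778b46_nt.GX.MoDef

set_option autoImplicit false

noncomputable section

namespace Pool.Agent.Lib.MP_778b46_nt.GX

open Complex Finset Filter MeasureTheory Topology
open scoped Real ContDiff ArithmeticFunction.Moebius

/-! The Euler product of the bilinear form and the zeta function near `1`. -/

namespace Mo

variable {s a b : ℂ}

/-- The correction factor. -/
def cr (s a b : ℂ) (p : ℕ) : ℂ :=
  (p : ℂ) ^ (-(s + a)) * (p : ℂ) ^ (-(s + b)) * (1 - (p : ℂ) ^ (-a)) * (1 - (p : ℂ) ^ (-b)) /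
    ((1 - (p : ℂ) ^ (-(s + a))) * (1 - (p : ℂ) ^ (-(s + b))))

theorem moz_norm {p : ℕ} (hp : p.Prime) (w : ℂ) : ‖(p : ℂ) ^ (-w)‖ = (p : ℝ) ^ (-w.re) := by
  rw [norm_natCast_cpow_of_pos hp.pos, neg_re]

theorem moz_le {p : ℕ} (hp : p.Prime) {w : ℂ} {r : ℝ} (hw : r ≤ w.re) :
    ‖(p : ℂ) ^ (-w)‖ ≤ (p : ℝ) ^ (-r) := by
  rw [moz_norm hp]
  exact Real.rpow_le_rpow_of_exponent_le (by exact_mod_cast hp.one_le) (by linarith)

theorem moz_le_inv {p : ℕ} (hp : p.Prime) {w : ℂ} (hw : 1 ≤ w.re) :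
    ‖(p : ℂ) ^ (-w)‖ ≤ (p : ℝ)⁻¹ := by
  rw [← Real.rpow_neg_one]
  exact moz_le hp hw

theorem moz_half {p : ℕ} (hp : p.Prime) {w : ℂ} (hw : 1 ≤ w.re) :
    1 / 2 ≤ ‖1 - (p : ℂ) ^ (-w)‖ := by
  have h1 := moz_le_inv hp hw
  have h2 : (2 : ℝ) ≤ p := by exact_mod_cast hp.two_le
  have h3 : (p : ℝ)⁻¹ ≤ 2⁻¹ := inv_anti₀ (by norm_num) h2
  have h4 := norm_sub_norm_le (1 : ℂ) ((p : ℂ) ^ (-w))
  rw [norm_one] at h4
  linarith

theorem moz_ne {p : ℕ} (hp : p.Prime) {w : ℂ} (hw : 1 ≤ w.re) : 1 - (p : ℂ) ^ (-w) ≠ 0 := by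
  intro h
  have := moz_half hp hw
  rw [h, norm_zero] at this
  norm_num at this

theorem moz_two {p : ℕ} (hp : p.Prime) {w : ℂ} (hw : 0 ≤ w.re) : ‖1 - (p : ℂ) ^ (-w)‖ ≤ 2 := by
  have h1 := moz_le hp hw
  rw [neg_zero, Real.rpow_zero] at h1
  have h4 := norm_sub_le (1 : ℂ) ((p : ℂ) ^ (-w))
  rw [norm_one] at h4
  linarith

theorem moz_exp {w : ℂ} (hw : 0 ≤ w.re) : ‖1 - cexp (-w)‖ ≤ ‖w‖ := by
  have h := norm_image_sub_le_of_norm_deriv_le_segment_01' (f := fun t : ℝ => cexp (-w * t))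
    (f' := fun t : ℝ => cexp (-w * t) * (-w)) (C := ‖w‖) (fun t _ => by
      have h1 : HasDerivAt (fun z : ℂ => cexp (-w * z)) (cexp (-w * t) * (-w)) t := by
        simpa using ((hasDerivAt_id (t : ℂ)).const_mul (-w)).cexp
      exact h1.comp_ofReal.hasDerivWithinAt) (fun t ht => by
      rw [norm_mul, norm_neg, norm_exp]
      refine mul_le_of_le_one_left (norm_nonneg _) (Real.exp_le_one_iff.2 ?_)
      have := mul_nonneg hw ht.1
      simpa using this)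
  rw [norm_sub_rev]
  simpa using h

theorem moz_log {p : ℕ} (hp : p.Prime) {w : ℂ} (hw : 0 ≤ w.re) :
    ‖1 - (p : ℂ) ^ (-w)‖ ≤ ‖w‖ * Real.log p := by
  have h0 : (p : ℂ) ≠ 0 := by exact_mod_cast hp.ne_zero
  have hl : 0 ≤ Real.log p := Real.log_natCast_nonneg p
  have h := moz_exp (w := w * Real.log p) (by rw [re_mul_ofReal]; exact mul_nonneg hw hl)
  rw [norm_mul, norm_real, Real.norm_of_nonneg hl] at h
  rw [cpow_def_of_ne_zero h0, ← natCast_log]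
  convert h using 4
  ring

theorem moz_sum {r : ℝ} (hr : 1 < r) (c : ℝ) :
    Summable fun p : Nat.Primes => c * ((p : ℕ) : ℝ) ^ (-r) :=
  ((Real.summable_nat_rpow.2 (by linarith : -r < -1)).mul_left c).comp_injective
    Subtype.val_injective

theorem moz_eu {r : ℝ} (hr : 0 < r) (hs : 1 ≤ s.re) (ha : r ≤ a.re) (hb : r ≤ b.re) {p : ℕ}
    (hp : p.Prime) : ‖eu s a b p - 1‖ ≤ 3 * (p : ℝ) ^ (-(1 + r)) := by
  have h1 := moz_le hp (w := s + a) (r := 1 + r) (by rw [add_re]; linarith)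
  have h2 := moz_le hp (w := s + b) (r := 1 + r) (by rw [add_re]; linarith)
  have h3 := moz_le hp (w := s + a + b) (r := 1 + r) (by rw [add_re, add_re]; linarith)
  have e : eu s a b p - 1 =
      (p : ℂ) ^ (-(s + a + b)) - (p : ℂ) ^ (-(s + a)) - (p : ℂ) ^ (-(s + b)) := by
    unfold eu
    ring
  rw [e]
  have h4 := norm_sub_le ((p : ℂ) ^ (-(s + a + b)) - (p : ℂ) ^ (-(s + a))) ((p : ℂ) ^ (-(s + b)))
  have h5 := norm_sub_le ((p : ℂ) ^ (-(s + a + b))) ((p : ℂ) ^ (-(s + a)))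
  linarith

/-- With `x = p ^ (-(s+a))`, `y = p ^ (-(s+b))`, `z = p ^ (-(s+a+b))`:
`(1 - x - y + z) (1 - z) = (1 - x) (1 - y) - (z - x) (z - y)`. -/
theorem eu_eq (hs : 1 ≤ s.re) (ha : 0 < a.re) (hb : 0 < b.re) {p : ℕ} (hp : p.Prime) :
    eu s a b p * ((1 - (p : ℂ) ^ (-(s + a)))⁻¹ * (1 - (p : ℂ) ^ (-(s + b)))⁻¹) =
      (1 - (p : ℂ) ^ (-(s + a + b)))⁻¹ * (1 - cr s a b p) := by
  have h0 : (p : ℂ) ≠ 0 := by exact_mod_cast hp.ne_zero
  have h1 := moz_ne hp (w := s + a) (by rw [add_re]; linarith)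
  have h2 := moz_ne hp (w := s + b) (by rw [add_re]; linarith)
  have h3 := moz_ne hp (w := s + a + b) (by rw [add_re, add_re]; linarith)
  have e1 : (p : ℂ) ^ (-(s + a)) * (p : ℂ) ^ (-b) = (p : ℂ) ^ (-(s + a + b)) := by
    rw [← cpow_add _ _ h0]
    congr 1
    ring
  have e2 : (p : ℂ) ^ (-(s + b)) * (p : ℂ) ^ (-a) = (p : ℂ) ^ (-(s + a + b)) := by
    rw [← cpow_add _ _ h0]
    congr 1
    ring
  have e3 : cr s a b p = ((p : ℂ) ^ (-(s + a)) - (p : ℂ) ^ (-(s + a + b))) *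
      ((p : ℂ) ^ (-(s + b)) - (p : ℂ) ^ (-(s + a + b))) /
        ((1 - (p : ℂ) ^ (-(s + a))) * (1 - (p : ℂ) ^ (-(s + b)))) := by
    unfold cr
    congr 1
    nth_rewrite 1 [← e1]
    rw [← e2]
    ring
  rw [e3]
  unfold eu
  generalize (p : ℂ) ^ (-(s + a)) = x at h1 ⊢
  generalize (p : ℂ) ^ (-(s + b)) = y at h2 ⊢
  generalize (p : ℂ) ^ (-(s + a + b)) = z at h3 ⊢
  field_simp
  ring

/-- `‖1 - x‖ ≥ 1 / 2`, `‖1 - p ^ (-a)‖ ≤ min 2 (‖a‖ log p)`. -/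
theorem norm_cr (hs : 1 ≤ s.re) (ha : 0 < a.re) (hb : 0 < b.re) {p : ℕ} (hp : p.Prime) :
    ‖cr s a b p‖ ≤ 16 / (p : ℝ) ^ 2 ∧ ‖cr s a b p‖ ≤ 8 * ‖a‖ * Real.log p / (p : ℝ) ^ 2 := by
  have hp0 : (0 : ℝ) < p := by exact_mod_cast hp.pos
  have key : ∀ A : ℝ, ‖1 - (p : ℂ) ^ (-a)‖ ≤ A → ‖cr s a b p‖ ≤ 8 * A / (p : ℝ) ^ 2 := by
    intro A hA
    have hA0 : 0 ≤ A := (norm_nonneg _).trans hA
    have h1 := moz_le_inv hp (w := s + a) (by rw [add_re]; linarith)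
    have h2 := moz_le_inv hp (w := s + b) (by rw [add_re]; linarith)
    have h3 := moz_half hp (w := s + a) (by rw [add_re]; linarith)
    have h4 := moz_half hp (w := s + b) (by rw [add_re]; linarith)
    have h5 := moz_two hp hb.le
    unfold cr
    rw [norm_div, norm_mul, norm_mul, norm_mul, norm_mul]
    calc _ ≤ (p : ℝ)⁻¹ * (p : ℝ)⁻¹ * A * 2 / (1 / 2 * (1 / 2)) := by gcongr
      _ = 8 * A / (p : ℝ) ^ 2 := by
        field_simp
        ring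
  refine ⟨(key 2 (moz_two hp ha.le)).trans_eq (by norm_num), ?_⟩
  rw [mul_assoc]
  exact key _ (moz_log hp ha.le)

/-- `‖∏ (1 + t) - 1‖ ≤ exp (∑ ‖t‖) - 1` (`Finset.norm_prod_one_add_sub_one_le`), `log p ≤ 2 √p`. -/
theorem exists_HH : ∃ C : ℝ, 0 ≤ C ∧ ∀ s a b : ℂ, 1 ≤ s.re → 0 < a.re → 0 < b.re → ∃ H : ℂ,
    HasProd (fun p : Nat.Primes => 1 - cr s a b p) H ∧ ‖H‖ ≤ C ∧ ‖H - 1‖ ≤ C * ‖a‖ := by
  have hg := moz_sum (r := 3 / 2) (by norm_num) 16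
  set S := ∑' p : Nat.Primes, 16 * ((p : ℕ) : ℝ) ^ (-(3 / 2) : ℝ) with hS
  have hS0 : 0 ≤ S := tsum_nonneg fun p => by positivity
  refine ⟨Real.exp S * (1 + S), by positivity, fun s a b hs ha hb => ?_⟩
  have hb1 : ∀ p : Nat.Primes, ‖-cr s a b p‖ ≤ 16 * ((p : ℕ) : ℝ) ^ (-(3 / 2) : ℝ) ∧
      ‖-cr s a b p‖ ≤ ‖a‖ * (16 * ((p : ℕ) : ℝ) ^ (-(3 / 2) : ℝ)) := fun p => by
    obtain ⟨h1, h2⟩ := norm_cr hs ha hb p.2
    have hp1 : (1 : ℝ) ≤ (p : ℕ) := by exact_mod_cast p.2.one_le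
    have hp0 : (0 : ℝ) < (p : ℕ) := by linarith
    have e : ((p : ℕ) : ℝ) ^ (-(3 / 2) : ℝ) = ((p : ℕ) : ℝ) ^ (1 / 2 : ℝ) / ((p : ℕ) : ℝ) ^ 2 := by
      rw [← Real.rpow_two, ← Real.rpow_sub hp0]
      norm_num
    have h3 : (1 : ℝ) ≤ ((p : ℕ) : ℝ) ^ (1 / 2 : ℝ) := Real.one_le_rpow hp1 (by norm_num)
    have h4 := Real.log_le_rpow_div hp0.le (show (0 : ℝ) < 1 / 2 by norm_num)
    rw [norm_neg, e]
    refine ⟨h1.trans ?_, h2.trans ?_⟩
    · rw [← mul_div_assoc]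
      gcongr
      linarith
    · rw [← mul_div_assoc, ← mul_div_assoc]
      refine div_le_div_of_nonneg_right ?_ (by positivity)
      have := mul_le_mul_of_nonneg_left h4 (norm_nonneg a)
      linarith
  have hm : Multipliable fun p : Nat.Primes => 1 + -cr s a b p :=
    multipliable_one_add_of_summable (hg.of_nonneg_of_le (fun _ => norm_nonneg _) fun p => (hb1 p).1)
  obtain ⟨H, hH⟩ := hm
  have hfin : ∀ T : Finset Nat.Primes, ‖∏ p ∈ T, (1 + -cr s a b p) - 1‖ ≤ Real.exp S - 1 ∧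
      ‖∏ p ∈ T, (1 + -cr s a b p) - 1‖ ≤ Real.exp S * (S * ‖a‖) := fun T => by
    have h0 := Finset.norm_prod_one_add_sub_one_le T fun p : Nat.Primes => -cr s a b p
    have h1 : ∑ p ∈ T, 16 * ((p : ℕ) : ℝ) ^ (-(3 / 2) : ℝ) ≤ S :=
      hg.sum_le_tsum T fun p _ => by positivity
    have h2 : ∑ p ∈ T, ‖-cr s a b p‖ ≤ S := (Finset.sum_le_sum fun p _ => (hb1 p).1).trans h1
    have h3 : ∑ p ∈ T, ‖-cr s a b p‖ ≤ S * ‖a‖ := by
      refine (Finset.sum_le_sum fun p _ => (hb1 p).2).trans ?_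
      rw [← Finset.mul_sum, mul_comm]
      gcongr
    have h4 : 0 ≤ ∑ p ∈ T, ‖-cr s a b p‖ := Finset.sum_nonneg fun _ _ => norm_nonneg _
    generalize ∑ p ∈ T, ‖-cr s a b p‖ = y at h0 h2 h3 h4
    have h5 := Real.exp_le_exp.2 h2
    refine ⟨by linarith, h0.trans ?_⟩
    have h6 := Real.add_one_le_exp (-y)
    have h7 : Real.exp y * Real.exp (-y) = 1 := by rw [← Real.exp_add]; simp
    have h8 := Real.exp_pos y
    calc Real.exp y - 1 ≤ Real.exp y * y := by nlinarith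
      _ ≤ Real.exp S * (S * ‖a‖) := by gcongr
  have ht := (Tendsto.sub_const hH 1).norm
  have k1 := le_of_tendsto' ht fun T => (hfin T).1
  have k2 := le_of_tendsto' ht fun T => (hfin T).2
  have hE := Real.exp_pos S
  refine ⟨H, by simpa only [sub_eq_add_neg] using hH, ?_, ?_⟩
  · have := norm_sub_norm_le H 1
    rw [norm_one] at this
    nlinarith
  · have := mul_nonneg hE.le (norm_nonneg a)
    nlinarith

/-- `‖eu - 1‖ ≤ 3 p ^ (-(1 + min ..))` is summable; `Complex.multipliable_one_add_of_summable`. -/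
theorem hasProd_eu (hs : 1 ≤ s.re) (ha : 0 < a.re) (hb : 0 < b.re) :
    HasProd (fun p : Nat.Primes => eu s a b p) (Zp s a b) := by
  have hr : 0 < min a.re b.re := lt_min ha hb
  have hm : Multipliable fun p : Nat.Primes => 1 + (eu s a b p - 1) :=
    multipliable_one_add_of_summable ((moz_sum (r := 1 + min a.re b.re) (by linarith) 3).of_nonneg_of_le
      (fun _ => norm_nonneg _) fun p => moz_eu hr hs (min_le_left _ _) (min_le_right _ _) p.2)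
  simp only [add_sub_cancel] at hm
  exact hm.hasProd

/-- `riemannZeta_eulerProduct_hasProd`, `HasProd.mul`, uniqueness. -/
theorem Zp_eq (hs : 1 ≤ s.re) (ha : 0 < a.re) (hb : 0 < b.re) {H : ℂ}
    (hH : HasProd (fun p : Nat.Primes => 1 - cr s a b p) H) :
    Zp s a b = riemannZeta (s + a + b) * H / (riemannZeta (s + a) * riemannZeta (s + b)) := by
  have h1 : 1 < (s + a).re := by rw [add_re]; linarith
  have h2 : 1 < (s + b).re := by rw [add_re]; linarith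
  have h3 : 1 < (s + a + b).re := by rw [add_re, add_re]; linarith
  have k1 := (hasProd_eu hs ha hb).mul
    ((riemannZeta_eulerProduct_hasProd h1).mul (riemannZeta_eulerProduct_hasProd h2))
  have k2 := (riemannZeta_eulerProduct_hasProd h3).mul hH
  simp only [fun p : Nat.Primes => eu_eq hs ha hb p.2] at k1
  rw [eq_div_iff (mul_ne_zero (riemannZeta_ne_zero_of_one_lt_re h1)
    (riemannZeta_ne_zero_of_one_lt_re h2))]
  exact k1.unique k2

/-- The finite products are bounded in terms of the real parts only: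
`‖eu‖ ≤ 1 + 3 p ^ (-(1 + r)) ≤ exp (3 p ^ (-(1 + r)))`. -/
theorem norm_prod_eu {r : ℝ} (hr : 0 < r) : ∃ C : ℝ, ∀ s a b : ℂ, 1 ≤ s.re → r ≤ a.re → r ≤ b.re →
    ∀ S : Finset ℕ, (∀ p ∈ S, p.Prime) → ‖∏ p ∈ S, eu s a b p‖ ≤ C := by
  have hg : Summable fun n : ℕ => 3 * (n : ℝ) ^ (-(1 + r)) :=
    (Real.summable_nat_rpow.2 (by linarith)).mul_left 3
  refine ⟨Real.exp (∑' n : ℕ, 3 * (n : ℝ) ^ (-(1 + r))), fun s a b hs ha hb S hS => ?_⟩
  have h0 := Finset.norm_prod_one_add_sub_one_le S fun p => eu s a b p - 1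
  simp only [add_sub_cancel] at h0
  have h1 : ∑ p ∈ S, ‖eu s a b p - 1‖ ≤ ∑' n : ℕ, 3 * (n : ℝ) ^ (-(1 + r)) :=
    (Finset.sum_le_sum fun p hp => moz_eu hr hs ha hb (hS p hp)).trans
      (hg.sum_le_tsum S fun p _ => by positivity)
  have h2 := Real.exp_le_exp.2 h1
  have h3 := norm_sub_norm_le (∏ p ∈ S, eu s a b p) 1
  rw [norm_one] at h3
  linarith

/-- Compare with `∑ n ^ (-re s) ≤ 1 + 1 / (re s - 1)` (`ZetaAsymp`, or telescoping). -/
theorem tsum_rpow_le {x : ℝ} (hx : 1 < x) : ∑' n : ℕ, ((n + 1 : ℕ) : ℝ) ^ (-x) ≤ 1 + 1 / (x - 1) := by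
  have h := ZetaAsymptotics.zeta_limit_aux1 hx
  have h1 : 0 ≤ ZetaAsymptotics.termTSum x := tsum_nonneg fun n => ZetaAsymptotics.term_nonneg _ _
  have e : ∑' n : ℕ, ((n + 1 : ℕ) : ℝ) ^ (-x) = ∑' n : ℕ, 1 / (n + 1 : ℝ) ^ x :=
    tsum_congr fun n => by
      rw [Real.rpow_neg (Nat.cast_nonneg _), one_div, Nat.cast_succ]
  have h2 := mul_nonneg (by linarith : 0 ≤ x) h1
  linarith

theorem moz_series (hs : 1 < s.re) {f : ℕ → ℂ} (hf : ∀ n, ‖f n‖ ≤ 1) :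
    ‖LSeries f s‖ ≤ 1 + 1 / (s.re - 1) := by
  have hg : Summable fun n : ℕ => (n : ℝ) ^ (-s.re) := Real.summable_nat_rpow.2 (by linarith)
  have h := tsum_of_norm_bounded (f := LSeries.term f s) hg.hasSum fun n => by
    rw [LSeries.norm_term_eq]
    split_ifs with hn
    · positivity
    · rw [Real.rpow_neg (Nat.cast_nonneg _), ← one_div]
      gcongr
      exact hf n
  rw [hg.tsum_eq_zero_add, Nat.cast_zero, Real.zero_rpow (by linarith), zero_add] at h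
  exact h.trans (tsum_rpow_le hs)

theorem norm_zeta_le (hs : 1 < s.re) : ‖riemannZeta s‖ ≤ 1 + 1 / (s.re - 1) := by
  rw [← LSeries_one_eq_riemannZeta hs]
  exact moz_series hs fun n => by simp

/-- `1 / ζ` is the series of the Moebius function (`ArithmeticFunction.LSeries_zeta_mul_Lseries_moebius`). -/
theorem norm_inv_zeta_le (hs : 1 < s.re) : ‖(riemannZeta s)⁻¹‖ ≤ 1 + 1 / (s.re - 1) := by
  have h := ArithmeticFunction.LSeries_zeta_mul_Lseries_moebius hs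
  rw [ArithmeticFunction.LSeries_zeta_eq_riemannZeta hs] at h
  rw [inv_eq_of_mul_eq_one_right h]
  refine moz_series hs fun n => ?_
  rw [norm_intCast]
  exact_mod_cast ArithmeticFunction.abs_moebius_le_one

/-- Near `1` use `riemannZeta_residue_one`; for `‖w‖ ≥ δ` use `norm_inv_zeta_le` and
`L + 1 ≤ 2 L ≤ 2 (‖w‖ / δ) ^ 2 L`. -/
theorem inv_zeta_dom : ∃ C : ℝ, 0 ≤ C ∧ ∀ (L : ℝ) (z : ℂ), 1 ≤ L → 1 ≤ z.re →
    L * ‖(riemannZeta (1 + z / L))⁻¹‖ ≤ C * ‖z‖ ^ 2 := by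
  have h := riemannZeta_residue_one.norm
  rw [norm_one] at h
  have h1 := h.eventually_const_lt (show (1 / 2 : ℝ) < 1 by norm_num)
  rw [eventually_nhdsWithin_iff, Metric.eventually_nhds_iff] at h1
  obtain ⟨δ, hδ, h1⟩ := h1
  refine ⟨2 + 2 / δ ^ 2, by positivity, fun L z hL hz => ?_⟩
  have hL0 : 0 < L := by linarith
  have hz1 : 1 ≤ ‖z‖ := hz.trans (re_le_norm z)
  have hn : ‖z / L‖ = ‖z‖ / L := by rw [norm_div, norm_real, Real.norm_of_nonneg hL0.le]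
  have hd : 0 ≤ 2 / δ ^ 2 * ‖z‖ ^ 2 := by positivity
  by_cases hc : ‖z‖ / L < δ
  · have h2 := @h1 (1 + z / L) (by rwa [dist_self_add_left, hn]) (by
      intro e
      have e' : z / L = 0 := by simpa using e
      rw [e', norm_zero] at hn
      have : 0 < ‖z‖ / L := by positivity
      linarith)
    rw [add_sub_cancel_left, norm_mul, hn] at h2
    have h3 : 0 < ‖riemannZeta (1 + z / L)‖ := by
      by_contra h4
      have h5 : ‖riemannZeta (1 + z / L)‖ = 0 := le_antisymm (not_lt.1 h4) (norm_nonneg _)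
      rw [h5] at h2
      norm_num at h2
    have h4 : L * ‖(riemannZeta (1 + z / L))⁻¹‖ ≤ 2 * ‖z‖ := by
      rw [norm_inv, ← div_eq_mul_inv, div_le_iff₀ h3]
      rw [div_mul_eq_mul_div, lt_div_iff₀ hL0] at h2
      linarith
    nlinarith
  · have hre : (1 + z / L).re - 1 = z.re / L := by simp
    have hp : 0 < z.re / L := by positivity
    have h2 := norm_inv_zeta_le (s := 1 + z / L) (by linarith)
    rw [hre, one_div_div] at h2
    have h3 : L / z.re ≤ L := div_le_self hL0.le hz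
    have h4 : L ≤ ‖z‖ / δ := by
      rw [not_lt, le_div_iff₀ hL0] at hc
      rw [le_div_iff₀ hδ]
      linarith
    calc L * ‖(riemannZeta (1 + z / L))⁻¹‖ ≤ L * (2 * L) := by
          gcongr
          linarith
      _ = 2 * L ^ 2 := by ring
      _ ≤ 2 * (‖z‖ / δ) ^ 2 := by gcongr
      _ = 2 / δ ^ 2 * ‖z‖ ^ 2 := by ring
      _ ≤ _ := by nlinarith

/-- `riemannZeta_residue_one`. -/
theorem zeta_lim {z : ℂ} (hz : z ≠ 0) :
    Tendsto (fun L : ℝ => riemannZeta (1 + z / L) / L) atTop (𝓝 z⁻¹) := by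
  have h0 : Tendsto (fun L : ℝ => z / (L : ℂ)) atTop (𝓝 0) := by
    rw [tendsto_zero_iff_norm_tendsto_zero]
    simp only [norm_div, norm_real, Real.norm_eq_abs]
    exact tendsto_abs_atTop_atTop.const_div_atTop _
  have h1 : Tendsto (fun L : ℝ => 1 + z / (L : ℂ)) atTop (𝓝[≠] 1) := by
    refine tendsto_nhdsWithin_iff.2 ⟨by simpa using h0.const_add 1, ?_⟩
    filter_upwards [eventually_gt_atTop 0] with L hL
    simp [hz, hL.ne']
  have h2 := (riemannZeta_residue_one.comp h1).const_mul z⁻¹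
  rw [mul_one] at h2
  refine h2.congr fun L => ?_
  simp only [Function.comp, add_sub_cancel_left]
  rw [← mul_assoc, ← mul_div_assoc, inv_mul_cancel₀ hz]
  ring

theorem moz_Zp {σ L : ℝ} (hσ : 0 ≤ σ) (hL : 0 < L) {α β : ℂ} (hα : α.re = 1) (hβ : β.re = 1) :
    (1 ≤ (1 + σ / L : ℂ).re ∧ 0 < (α / L).re ∧ 0 < (β / L).re) ∧ ∀ H : ℂ,
      HasProd (fun p : Nat.Primes => 1 - cr (1 + σ / L) (α / L) (β / L) p) H →
      L * Zp (1 + σ / L) (α / L) (β / L) = riemannZeta (1 + (σ + α + β) / L) / L * H *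
        (riemannZeta (1 + (σ + α) / L) / L)⁻¹ * (riemannZeta (1 + (σ + β) / L) / L)⁻¹ := by
  have h1 : 1 ≤ (1 + σ / L : ℂ).re := by
    have := div_nonneg hσ hL.le
    simpa using this
  have h2 : 0 < (α / L).re := by simpa [hα] using hL
  have h3 : 0 < (β / L).re := by simpa [hβ] using hL
  refine ⟨⟨h1, h2, h3⟩, fun H hH => ?_⟩
  have hL' : (L : ℂ) ≠ 0 := by exact_mod_cast hL.ne'
  rw [Zp_eq h1 h2 h3 hH]
  simp only [add_div, ← add_assoc]
  field_simp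

theorem Zp_dom {σ : ℝ} (hσ : 0 ≤ σ) : ∃ C : ℝ, 0 ≤ C ∧ ∀ (L : ℝ) (α β : ℂ), 1 ≤ L → α.re = 1 →
    β.re = 1 → ‖L * Zp (1 + σ / L) (α / L) (β / L)‖ ≤ C * ‖α‖ ^ 2 * ‖β‖ ^ 2 := by
  obtain ⟨C, hC, h⟩ := exists_HH
  obtain ⟨K, hK, k⟩ := inv_zeta_dom
  refine ⟨2 * C * (K * (σ + 1) ^ 2) * (K * (σ + 1) ^ 2), by positivity, fun L α β hL hα hβ => ?_⟩
  have hL0 : 0 < L := by linarith
  obtain ⟨⟨h1, h2, h3⟩, e⟩ := moz_Zp hσ hL0 hα hβ
  obtain ⟨H, hH, hH1, -⟩ := h _ _ _ h1 h2 h3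
  have key : ∀ γ : ℂ, γ.re = 1 →
      ‖(riemannZeta (1 + (σ + γ) / L) / L)⁻¹‖ ≤ K * (σ + 1) ^ 2 * ‖γ‖ ^ 2 := fun γ hγ => by
    have a1 := k L (σ + γ) hL (by simp [hγ, hσ])
    have a2 : 1 ≤ ‖γ‖ := hγ ▸ re_le_norm γ
    have a3 : ‖σ + γ‖ ≤ (σ + 1) * ‖γ‖ := by
      have := norm_add_le (σ : ℂ) γ
      rw [norm_real, Real.norm_of_nonneg hσ] at this
      nlinarith
    rw [inv_div, div_eq_mul_inv, norm_mul, norm_real, Real.norm_of_nonneg hL0.le]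
    calc _ ≤ K * ‖σ + γ‖ ^ 2 := a1
      _ ≤ K * ((σ + 1) * ‖γ‖) ^ 2 := by gcongr
      _ = _ := by ring
  have k3 : ‖riemannZeta (1 + (σ + α + β) / L) / L‖ ≤ 2 := by
    have hre : (1 + (σ + α + β) / L : ℂ).re - 1 = (σ + 1 + 1) / L := by simp [hα, hβ]
    have hp : 0 < (σ + 1 + 1) / L := by positivity
    have a1 := norm_zeta_le (s := 1 + (σ + α + β) / L) (by linarith)
    rw [hre, one_div_div] at a1
    have a2 : L / (σ + 1 + 1) ≤ L := div_le_self hL0.le (by linarith)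
    rw [norm_div, norm_real, Real.norm_of_nonneg hL0.le, div_le_iff₀ hL0]
    linarith
  rw [e H hH, norm_mul, norm_mul, norm_mul]
  calc _ ≤ 2 * C * (K * (σ + 1) ^ 2 * ‖α‖ ^ 2) * (K * (σ + 1) ^ 2 * ‖β‖ ^ 2) := by
        gcongr
        · exact key α hα
        · exact key β hβ
    _ = _ := by ring

theorem Zp_lim {σ : ℝ} (hσ : 0 ≤ σ) {α β : ℂ} (hα : α.re = 1) (hβ : β.re = 1) :
    Tendsto (fun L : ℝ => L * Zp (1 + σ / L) (α / L) (β / L)) atTop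
      (𝓝 ((σ + α) * (σ + β) / (σ + α + β))) := by
  obtain ⟨C, hC, h⟩ := exists_HH
  have n1 : ∀ γ : ℂ, 0 < γ.re → (σ : ℂ) + γ ≠ 0 := fun γ hγ e => by
    have := congrArg re e
    simp at this
    linarith
  have n2 := n1 α (by linarith)
  have n3 := n1 β (by linarith)
  have n4 : (σ : ℂ) + α + β ≠ 0 := by
    rw [add_assoc]
    exact n1 _ (by rw [add_re]; linarith)
  have hH : Tendsto (fun L : ℝ => ∏' p : Nat.Primes, (1 - cr (1 + σ / L) (α / L) (β / L) p))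
      atTop (𝓝 1) := by
    rw [tendsto_iff_norm_sub_tendsto_zero]
    refine squeeze_zero' (Eventually.of_forall fun _ => norm_nonneg _) ?_
      (tendsto_id.const_div_atTop (C * ‖α‖))
    filter_upwards [eventually_gt_atTop 0] with L hL
    obtain ⟨⟨h1, h2, h3⟩, -⟩ := moz_Zp hσ hL hα hβ
    obtain ⟨H, hH, -, hH1⟩ := h _ _ _ h1 h2 h3
    rw [hH.tprod_eq]
    rwa [norm_div, norm_real, Real.norm_of_nonneg hL.le, ← mul_div_assoc] at hH1
  have ht := (((zeta_lim n4).mul hH).mul ((zeta_lim n2).inv₀ (inv_ne_zero n2))).mul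
    ((zeta_lim n3).inv₀ (inv_ne_zero n3))
  have e : ((σ : ℂ) + α + β)⁻¹ * 1 * ((σ : ℂ) + α)⁻¹⁻¹ * ((σ : ℂ) + β)⁻¹⁻¹ =
      (σ + α) * (σ + β) / (σ + α + β) := by
    rw [inv_inv, inv_inv]
    ring
  rw [e] at ht
  refine ht.congr' ?_
  filter_upwards [eventually_gt_atTop 0] with L hL
  obtain ⟨⟨h1, h2, h3⟩, e⟩ := moz_Zp hσ hL hα hβ
  obtain ⟨H, hH, -⟩ := h _ _ _ h1 h2 h3
  rw [hH.tprod_eq, e H hH]

end Mo

end Pool.Agent.Lib.MP_778b46_nt.GX
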