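import Pool.Agent.Lib.MP_778b46_nt.GX.CqC

/- Data of a row with a real first zero. -/

namespace Pool.Agent.Lib.MP_778b46_nt.GX.Cq

open Ck

def rowA1 : Row2D (Con ⊕ Con) where
  L := 2500000
  ph := 333400
  ph1 := 250100
  d0 := 1
  n := 1
  r := 1
  sa := 1000
  sb := 15000
  l := 5211000
  lc := 9349000
  lp := 9349000
  aux := []
  y0 := 995960757000
  V := 999000000000
  xs := [1000, 1583, 2166, 2749, 3332, 3915, 4498, 5081, 5664, 6247, 6830, 7996, 9162, 10328, 11494,
    12660, 13826, 14992, 15001, 5211000, 5215000, 5219000, 5223000, 5227000, 5231000, 5235000,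
    5239000, 5243000, 5247000, 5251000, 5255000, 5259000, 5263000, 5267000, 5271000, 5275000,
    5279000, 5283000, 5287000, 5291000, 5295000, 5299000, 5303000, 5307000, 5311000, 5361000,
    5411000, 5461000, 5511000, 5561000, 5611000, 5661000, 5711000, 5761000, 5811000, 5861000,
    5911000, 5961000, 6011000, 6061000, 6111000, 6161000, 6211000, 6261000, 6311000, 6361000,
    6411000, 6461000, 6511000, 6561000, 6611000, 6661000, 6711000, 6761000, 6811000, 6861000,
    6911000, 6961000, 7011000, 7061000, 7111000, 7161000, 7211000, 7261000, 7311000, 7361000,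
    7411000, 7461000, 7511000, 7561000, 7611000, 7661000, 7711000, 7761000, 7811000, 7861000,
    7911000, 7961000, 8011000, 8061000, 8111000, 8161000, 8211000, 8261000, 8311000, 8361000,
    8411000, 8461000, 8511000, 8561000, 8611000, 8661000, 8711000, 8761000, 8811000, 8861000,
    8911000, 8961000, 9011000, 9061000, 9111000, 9161000, 9211000, 9261000, 9311000, 9349000,
    9399000, 9449000, 9499000, 9549000, 9599000, 9649000, 9699000, 9749000, 9799000, 9849000,
    9899000, 9949000, 9999000, 10049000, 10099000, 10149000, 10199000, 10249000, 10299000,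
    10349000, 10399000, 10449000, 10499000, 10549000, 10599000, 10649000, 10699000, 10749000,
    10799000, 10849000, 10899000, 10949000, 10999000, 11000000]
  F := [(1164586000, .inl (.m ⟨28200, 389800, 392400, 392500, 476600, 838200, 929600, 2940000, 5211000⟩))]
  C := [.inl (.m ⟨16400, 33800, 35800, 35900, 89700, 439500, 498400, 2850000, 9211000⟩),
    .inl (.g 700000 5000000 2285500 2104020 460972 1),
    .inl (.g 1000000 5000000 1600000 15458853 658562 1)]
  P := [.inl (.m ⟨16400, 33800, 35800, 35900, 89700, 439500, 498400, 2850000, 9211000⟩)]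
  ty := []
  last := [⟨0, 0, [], []⟩,
    ⟨48, 0, [(1, 8095)], []⟩,
    ⟨169, 0, [(1, 60811)], []⟩,
    ⟨369, 0, [(0, 199185214), (1, 161723551), (2, 6568105)], []⟩]
  prim := [⟨963191, 0, [(0, 537338488)], []⟩,
    ⟨998580, 998179313033, [(0, 274506166)], []⟩]

theorem rowA1_1 : rowA1.ok1 kitOL = true := by decide +kernel

theorem rowA1_2 : rowA1.ok2 kitOL = true := by decide +kernel

theorem rowA1_3 : rowA1.ok3 kitOL = true := by decide +kernel

end Pool.Agent.Lib.MP_778b46_nt.GX.Cq
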