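import Pool.Agent.Lib.MP_778b46_nt.GX.CqC

/- Data of a row with a real first zero. -/

namespace Pool.Agent.Lib.MP_778b46_nt.GX.Cq

open Ck

def rowA2 : Row2D (Con ⊕ Con) where
  L := 2500000
  ph := 333400
  ph1 := 250100
  d0 := 1
  n := 1
  r := 1
  sa := 15000
  sb := 45000
  l := 3848000
  lc := 6830000
  lp := 6830000
  aux := []
  y0 := 934681321000
  V := 999000000000
  xs := [15000, 16250, 17500, 18750, 20000, 21250, 22500, 23750, 25000, 26250, 27500, 30000, 32500,
    35000, 37500, 40000, 42500, 45001, 3848000, 3852000, 3856000, 3860000, 3864000, 3868000,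
    3872000, 3876000, 3880000, 3884000, 3888000, 3892000, 3896000, 3900000, 3904000, 3908000,
    3912000, 3916000, 3920000, 3924000, 3928000, 3932000, 3936000, 3940000, 3944000, 3948000,
    3973000, 3998000, 4023000, 4048000, 4073000, 4098000, 4123000, 4148000, 4173000, 4198000,
    4223000, 4248000, 4273000, 4298000, 4300000, 4325000, 4350000, 4375000, 4400000, 4425000,
    4450000, 4475000, 4500000, 4550000, 4600000, 4650000, 4700000, 4750000, 4800000, 4850000,
    4900000, 4950000, 5000000, 5050000, 5100000, 5150000, 5200000, 5250000, 5300000, 5350000,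
    5400000, 5450000, 5500000, 5550000, 5600000, 5650000, 5700000, 5750000, 5800000, 5850000,
    5900000, 5950000, 6000000, 6050000, 6100000, 6150000, 6200000, 6250000, 6300000, 6350000,
    6400000, 6450000, 6500000, 6550000, 6600000, 6650000, 6700000, 6750000, 6800000, 6830000,
    6880000, 6930000, 6980000, 7030000, 7080000, 7130000, 7180000, 7230000, 7280000, 7330000,
    7380000, 7430000, 7480000, 7530000, 7580000, 7630000, 7680000, 7730000, 7780000, 7830000,
    7880000, 7930000, 7980000, 8030000, 8080000, 8130000, 8180000, 8230000, 8280000, 8330000,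
    8380000, 8430000, 8480000, 8530000, 8580000, 8630000, 8680000, 8730000, 8780000, 8830000,
    8880000, 8930000, 8980000, 9030000, 9080000, 9130000, 9180000, 9230000, 9280000, 9330000,
    9380000, 9430000, 9480000, 9530000, 9580000, 9630000, 9680000, 9730000, 9780000, 9830000,
    9880000, 9930000, 9980000, 10030000, 10080000, 10130000, 10180000, 10230000, 10280000,
    10330000, 10380000, 10430000, 10480000, 10530000, 10580000, 10630000, 10680000, 10730000,
    10780000, 10830000, 10880000, 10930000, 10980000, 11000000]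
  F := [(47693158000, .inl (.m ⟨36400, 406200, 411300, 411400, 519400, 889200, 1002300, 3010000, 3848000⟩))]
  C := [.inl (.m ⟨20900, 42800, 44800, 44900, 104900, 459200, 527300, 2910000, 7480000⟩),
    .inl (.g 700000 3848000 2285500 1020980 460972 1),
    .inl (.g 1400000 3848000 1142500 34856181 921840 1)]
  P := [.inl (.m ⟨20900, 42800, 44800, 44900, 104900, 459200, 527300, 2910000, 7480000⟩),
    .inr (.g 4400000 15000 15000 1864856 1864855 1)]
  ty := [(4300000, [⟨21, 0, [], []⟩,
      ⟨1820, 0, [(1, 4893320)], []⟩,
      ⟨2730, 0, [(0, 611380221), (1, 2013257478), (2, 88832331)], []⟩]),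
    (4900000, [⟨4, 0, [], []⟩,
      ⟨1680, 0, [(0, 611380221), (1, 969473207), (2, 88832331)], []⟩])]
  last := [⟨0, 0, [], []⟩,
    ⟨1100, 0, [(0, 611380221), (1, 390846209), (2, 88832331)], []⟩]
  prim := [⟨893595, 0, [(0, 6143080235), (1, 949542428)], []⟩,
    ⟨967410, 967023913109, [(0, 3357151062), (1, 515360852)], []⟩]

theorem rowA2_1 : rowA2.ok1 kitOL = true := by decide +kernel

theorem rowA2_2 : rowA2.ok2 kitOL = true := by decide +kernel

theorem rowA2_3 : rowA2.ok3 kitOL = true := by decide +kernel

end Pool.Agent.Lib.MP_778b46_nt.GX.Cq
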