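import Pool.Agent.Lib.MP_778b46_nt.GX.Ce4
import Pool.Agent.Lib.MP_778b46_nt.GX.Dl4
import Pool.Agent.Lib.MP_778b46_nt.GX.RqA1
import Pool.Agent.Lib.MP_778b46_nt.GX.RqA2
import Pool.Agent.Lib.MP_778b46_nt.GX.RqA3
import Pool.Agent.Lib.MP_778b46_nt.GX.RqA4
import Pool.Agent.Lib.MP_778b46_nt.GX.RqA5
import Pool.Agent.Lib.MP_778b46_nt.GX.RqA6
import Pool.Agent.Lib.MP_778b46_nt.GX.RqA7
import Pool.Agent.Lib.MP_778b46_nt.GX.RqA8

/- A real first zero in `[0, 0.24]`. -/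

namespace Pool.Agent.Lib.MP_778b46_nt.GX.Cq

open Ck

/-- The side conditions of a row with a real first zero. -/
def Par.real (X : Par) (V : ℕ) (T p T1 Tc : ℚ) : Prop :=
  X.n = 1 ∧ X.r = 1 ∧ X.lp = X.lc ∧ V ≤ 999000000000 ∧
    dl4Ok (X.ph / 10 ^ 6) (X.ph1 / 10 ^ 6) (X.sb / 10 ^ 6) (X.l / 10 ^ 6) (X.lc / 10 ^ 6) T p T1 Tc

instance (X : Par) (V : ℕ) (T p T1 Tc : ℚ) : Decidable (X.real V T p T1 Tc) := by
  unfold Par.real
  infer_instance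

theorem EvH.min2R {X : Par} {M : LL} {L : ℝ} {V : ℕ} {T p T1 Tc : ℚ}
    (h : EvH ExR X M fun _ _ _ _ _ _ D _ _ => D.Tot L ≤ V / E12) (hX : X.real V T p T1 Tc) :
    Ev2 (r6 X.ph) (r6 X.ph1) M.psF M.psC M.qsF M.qsC (Min2 KR L (r6 X.sa) (r6 X.sb)) := by
  obtain ⟨a1, a2, a3, a4, a5⟩ := hX
  have e : ∀ n : ℕ, (((n : ℚ) / 10 ^ 6 : ℚ) : ℝ) = r6 n := fun n => by simp [r6]
  obtain ⟨b1, b2⟩ := dl4_of (psF := M.psF) (psC := M.psC) (qsF := M.qsF) (qsC := M.qsC)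
    (r6_nonneg X.ph) (e _).ge (r6_nonneg X.ph1) (e _).ge a5
  simp only [e] at b1 b2
  refine min2_real (V := V / E12) ?_ b1 b2 (h.rowR a1 a2 a3)
  have : (V : ℝ) ≤ 999000000000 := by exact_mod_cast a4
  rw [cE12, div_le_iff₀ (by positivity)]
  linarith

theorem min2_OL {R : Row2D (Con ⊕ Con)} {M : LL} (T p T1 Tc : ℚ) (h1 : R.ok1 kitOL = true)
    (h2 : R.ok2 kitOL = true) (h3 : R.ok3 kitOL = true) (hM : (R.ll kitOL).sub M)
    (hX : R.toPar.real R.V T p T1 Tc) :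
    Ev2 (r6 R.ph) (r6 R.ph1) M.psF M.psC M.qsF M.qsC (Min2 KR (r6 R.L) (r6 R.sa) (r6 R.sb)) :=
  ((row2_of_ok h1 h2 h3 hM).weak (exR_L _)).min2R hX

/-- The mollifier parameters of the rows. -/
noncomputable def llA : LL := LL.join [⟨[qUF.mp], [qUC.mp], [], []⟩, rowA1.ll kitOL,
  rowA2.ll kitOL, rowA3.ll kitOL, rowA4.ll kitOL, rowA5.ll kitOL, rowA6.ll kitOL, rowA7.ll kitOL,
  rowA8.ll kitOL]

theorem llA_ok : llA.ok (r6 333400) (r6 250100) := by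
  refine LL.ok_join ?_
  simp only [List.forall_mem_cons]
  exact ⟨⟨by simpa using qUF_ok (by norm_num [r6]), by simpa using qUC_ok (by norm_num [r6]),
    by simp, by simp⟩, ll_ok rowA1_1, ll_ok rowA2_1, ll_ok rowA3_1, ll_ok rowA4_1, ll_ok rowA5_1,
    ll_ok rowA6_1, ll_ok rowA7_1, ll_ok rowA8_1, by simp⟩

theorem realA {M : LL} (hM : llA.sub M) : Ev2 (r6 333400) (r6 250100) M.psF M.psC M.qsF M.qsC
    (Min2 KR (r6 2500000) 0 (r6 240000)) := by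
  have s := fun A hA => (LL.sub_join (A := A) hA).trans hM
  simp only [List.forall_mem_cons] at s
  obtain ⟨s0, s1, s2, s3, s4, s5, s6, s7, s8, -⟩ := s
  have h0 := min2_unif (φ1 := r6 250100) (qsF := M.qsF) (qsC := M.qsC)
    (unif2_num (φ := r6 333400) (L := r6 2500000) (r6_nonneg _) (by norm_num [r6])
      (by norm_num [r6]) (s0.1 List.mem_cons_self) (s0.2.1 List.mem_cons_self))
  have h1 := min2_OL 1.32 0 1.06 0.72 rowA1_1 rowA1_2 rowA1_3 s1 (by decide +kernel)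
  have h2 := min2_OL 1.38 0 1.12 0.76 rowA2_1 rowA2_2 rowA2_3 s2 (by decide +kernel)
  have h3 := min2_OL 1.44 0 1.16 0.8 rowA3_1 rowA3_2 rowA3_3 s3 (by decide +kernel)
  have h4 := min2_OL 1.5 0 1.2 0.82 rowA4_1 rowA4_2 rowA4_3 s4 (by decide +kernel)
  have h5 := min2_OL 1.68 0.95 1.24 0.84 rowA5_1 rowA5_2 rowA5_3 s5 (by decide +kernel)
  have h6 := min2_OL 1.72 0.95 1.26 0.86 rowA6_1 rowA6_2 rowA6_3 s6 (by decide +kernel)
  have h7 := min2_OL 1.72 0.95 1.26 0.86 rowA7_1 rowA7_2 rowA7_3 s7 (by decide +kernel)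
  have h8 := min2_OL 1.74 0.95 1.26 0.88 rowA8_1 rowA8_2 rowA8_3 s8 (by decide +kernel)
  exact Min2.union (Min2.union (Min2.union (Min2.union (Min2.union (Min2.union (Min2.union
    (Min2.union h0 h1 (by norm_num [r6, rowA1])) h2 le_rfl) h3 le_rfl) h4 le_rfl) h5 le_rfl) h6
    le_rfl) h7 (r6_le.2 (by decide))) h8 le_rfl

end Pool.Agent.Lib.MP_778b46_nt.GX.Cq
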