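import Pool.Agent.Lib.MP_778b46_nt.GX.Ce4

/- The zero free region when the square of the character is small. -/

namespace Pool.Agent.Lib.MP_778b46_nt.GX

open Finset

open Classical in
theorem Clean.zfS {Γ Ω ι : Type} [CommGroup Γ] [Fintype Ω] [Fintype ι] {D : Dat Γ Ω ι}
    {φ ε H : ℝ} {psF psC : List MP} (h : Clean D φ ε H psF psC) (hφ : 0 ≤ φ) (hφ' : φ ≤ 0.2501)
    (he : ε * BH H ≤ 1 / 5000) {i : ι} (hi : ∀ k, D.lam i ≤ D.lam k)
    (hn : ¬ (D.ch i * D.ch i = 1 ∧ D.mu i = 0)) (s2 : D.sm (D.ch i * D.ch i))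
    (s4 : D.sm (D.ch i * D.ch i * D.ch i * D.ch i)) : 0.609 < D.lam i := by
  by_contra hl
  obtain ⟨T, hT'⟩ : ∃ T : ℝ, T = 1.64 := ⟨_, rfl⟩
  have hT : 1 / 2 ≤ T := by linarith
  have hT8 : T ≤ 8 := by linarith
  have hT0 : 0 < T := by linarith
  have hs : D.lam i * T ≤ 1 := by rw [hT']; linarith
  have ha := h.lam_nonneg i
  have haH := h.lam_le i
  have hm := abs_le.1 (h.mu_le i)
  have hY : 0 ≤ D.Ym := (abs_nonneg _).trans (h.mu_le i)
  have key := E_quartic D h.norm_ev (h.w_nonneg hT0 (D.lam i)) 1.04 0.14 (D.mu i) (D.ch i)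
  have y0 : |(0 : ℝ)| ≤ 4 * D.Ym := by rw [abs_zero]; linarith
  have y1 : |D.mu i| ≤ 4 * D.Ym := abs_le.2 ⟨by linarith, by linarith⟩
  have y2 : |D.mu i + D.mu i| ≤ 4 * D.Ym := abs_le.2 ⟨by linarith, by linarith⟩
  have y3 : |D.mu i + D.mu i + D.mu i| ≤ 4 * D.Ym := abs_le.2 ⟨by linarith, by linarith⟩
  have y4 : |D.mu i + D.mu i + D.mu i + D.mu i| ≤ 4 * D.Ym := abs_le.2 ⟨by linarith, by linarith⟩
  have e0 := h.ef_one rfl y0 hT hT8 ha haH
  have k0 := RR_le_one hT0.le hs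
  have hne := h.ch_ne_one i
  have k2 := RR_two hT0.le ha hs (D.mu i + D.mu i)
  have k4 := RR_two hT0.le ha hs (D.mu i + D.mu i + D.mu i + D.mu i)
  have r2 := RR_nonneg hT0.le le_rfl (D.mu i + D.mu i)
  have r4 := RR_nonneg hT0.le le_rfl (D.mu i + D.mu i + D.mu i + D.mu i)
  have n2 : RR T 0 (-D.mu i - D.mu i) = RR T 0 (D.mu i + D.mu i) := by
    rw [← RR_neg]; congr 1; ring
  have n2' : RR T 0 (D.mu i - (D.mu i + D.mu i + D.mu i)) = RR T 0 (D.mu i + D.mu i) := by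
    rw [← RR_neg]; congr 1; ring
  have n4 : RR T 0 (-D.mu i - (D.mu i + D.mu i + D.mu i)) =
      RR T 0 (D.mu i + D.mu i + D.mu i + D.mu i) := by
    rw [← RR_neg]; congr 1; ring
  have z := RR_zero T
  by_cases q2 : D.ch i * D.ch i = 1
  · have hmu : D.mu i ≠ 0 := fun e => hn ⟨q2, e⟩
    have hcj : i ≠ D.cj i := fun e => hmu (by have := h.cj_mu i; rw [← e] at this; linarith)
    have hch : D.ch (D.cj i) = D.ch i := by rw [h.cj_ch, inv_eq_of_mul_eq_one_right q2]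
    have q3 : D.ch i * D.ch i * D.ch i = D.ch i := by rw [q2, one_mul]
    have e1 := h.ef_ne hφ hne y1 hT hT8 ha haH {i, D.cj i} (by simp [hch]) fun k _ _ => hi k
    have e2 := h.ef_one q2 y2 hT hT8 ha haH
    have e3 := h.ef_ne hφ (q3.trans_ne hne) y3 hT hT8 ha haH {i, D.cj i} (by simp [hch, q3])
      fun k _ _ => hi k
    have e4 := h.ef_one (q3.symm ▸ q2 : D.ch i * D.ch i * D.ch i * D.ch i = 1) y4 hT hT8 ha haH
    rw [sum_pair hcj, h.cj_lam, h.cj_mu, sub_self] at e1 e3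
    rw [sub_self, n2] at e1
    rw [n2', n4] at e3
    linarith
  have e1 := h.ef_ne hφ hne y1 hT hT8 ha haH {i} (by simp) fun k _ _ => hi k
  rw [sum_singleton, sub_self, sub_self] at e1
  have e2 := h.ef_sm q2 s2 y2 hT hT8 ha haH
  have q3 : D.ch i * D.ch i * D.ch i ≠ 1 := fun e =>
    h.sm_not i (by simpa only [inv_eq_of_mul_eq_one_right e] using h.sm_inv _ s2)
  by_cases q4 : D.ch i * D.ch i * D.ch i * D.ch i = 1
  · have hch : D.ch (D.cj i) = D.ch i * D.ch i * D.ch i := by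
      rw [h.cj_ch, inv_eq_of_mul_eq_one_left q4]
    have e3 := h.ef_ne hφ q3 y3 hT hT8 ha haH {D.cj i} (by simp [hch]) fun k _ _ => hi k
    have e4 := h.ef_one q4 y4 hT hT8 ha haH
    rw [sum_singleton, h.cj_lam, h.cj_mu, sub_self, n4] at e3
    linarith
  have e3 := h.ef_ne hφ q3 y3 hT hT8 ha haH ∅ (by simp) fun k _ _ => hi k
  have e4 := h.ef_sm q4 s4 y4 hT hT8 ha haH
  rw [sum_empty] at e3
  linarith

open Classical in
/-- The kind `KS` does not occur up to `0.609`. -/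
theorem min2_KS {φ φ1 L : ℝ} {psF psC qsF qsC : List MP} (h0 : 0 ≤ φ1) (h1 : φ1 ≤ 0.2501) :
    Ev2 φ φ1 psF psC qsF qsC (Min2 KS L 0 0.609) :=
  Ev2.of_small (c := 1 / 5000) (by norm_num) fun _ _ _ _ _ _ D _ _ _ _ _ he hD i hi hk _ hb =>
    absurd (hD.lo.zfS h0 h1 he (i := ⟨i, hD.sq_mem hk.1⟩) (fun k => hi k.1)
      (fun e => hk.2 ⟨congrArg Subtype.val e.1, e.2⟩) hk.1 (by
        have := hD.sm_pow _ 2 hk.1
        rwa [sq, ← mul_assoc] at this)) (not_lt.2 hb)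

theorem Min2.mono {φ φ1 L a b c d : ℝ} {psF psC qsF qsC : List MP} {K : Kind}
    (h : Ev2 φ φ1 psF psC qsF qsC (Min2 K L a b)) (h1 : a ≤ c) (h2 : d ≤ b) :
    Ev2 φ φ1 psF psC qsF qsC (Min2 K L c d) :=
  Ev2.mono h fun _ _ _ _ _ _ _ _ _ _ _ h i hi hk ha hb => h i hi hk (h1.trans ha) (hb.trans h2)

end Pool.Agent.Lib.MP_778b46_nt.GX
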