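import Pool.Agent.Lib.MP_778b46_nt.GX.RqA
import Pool.Agent.Lib.MP_778b46_nt.GX.ZfS

/- From the rows to the certificate. -/

namespace Pool.Agent.Lib.MP_778b46_nt.GX.Cq

open Ck

variable {X : Par} {M : LL} {L : ℝ} {V : ℕ}

theorem rq_V (h : V ≤ 999000000000) : (V : ℝ) / E12 ≤ 0.999 := by
  have : (V : ℝ) ≤ 999000000000 := by exact_mod_cast h
  rw [cE12, div_le_iff₀ (by positivity)]
  linarith

theorem Lev.mono {φ φ1 a b l lc lp a' b' l' lc' lp' : ℝ} {psF psC qsF qsC : List MP} {K : Kind}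
    (h : Ev2 φ φ1 psF psC qsF qsC (Lev K a b l lc lp)) (h1 : a ≤ a') (h2 : b' ≤ b) (h3 : l' ≤ l)
    (h4 : lc' ≤ lc) (h5 : lp' ≤ lp) : Ev2 φ φ1 psF psC qsF qsC (Lev K a' b' l' lc' lp') :=
  Ev2.mono h fun _ _ _ _ _ _ _ _ _ _ _ h i hi hk ha hb =>
    have e := h i hi hk (h1.trans ha) (hb.trans h2)
    ⟨fun k a b => h5.trans (e.1 k a b), fun k a b c => h4.trans (e.2.1 k a b c),
      fun k a b => h3.trans (e.2.2 k a b)⟩

/-- A row for two conjugate first zeros in different classes. -/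
theorem EvH.min2D (h : EvH Ex0 X M fun _ _ _ _ _ _ D _ _ => D.Tot L ≤ V / E12)
    (hX : X.n = 2 ∧ X.r = 1 ∧ X.sb < X.lc ∧ V ≤ 999000000000)
    (hL : Ev2 (r6 X.ph) (r6 X.ph1) M.psF M.psC M.qsF M.qsC
      (Lev KD (r6 X.sa) (r6 X.sb) (r6 X.l) (r6 X.lc) (r6 X.lp))) :
    Ev2 (r6 X.ph) (r6 X.ph1) M.psF M.psC M.qsF M.qsC (Min2 KD L (r6 X.sa) (r6 X.sb)) := by
  have e := h.rowP
  rw [hX.1, hX.2.1] at e
  exact min2_pairD (rq_V hX.2.2.2) (r6_lt.2 hX.2.2.1) (fun _ _ _ _ _ _ _ k => k) hL e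

/-- The row without primary zeros. -/
theorem EvH.genP (h : EvH Ex0 X M fun _ _ _ _ _ _ D _ _ => D.Tot L ≤ V / E12) (hX : X.n = 0) :
    Ev2 (r6 X.ph) (r6 X.ph1) M.psF M.psC M.qsF M.qsC (GenP L (V / E12) (r6 X.l)) := by
  have e := h.rowP
  rw [hX] at e
  exact genP_of e

/-- The certificate from the three remaining ranges. -/
theorem cert3_of {A : LL} {l : ℕ} (hA : A.ok (r6 333400) (r6 250100)) (hl : l ≤ 609000)
    (hV : V ≤ 999000000000)
    (h : ∀ M : LL, A.sub M →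
      Ev2 (r6 333400) (r6 250100) M.psF M.psC M.qsF M.qsC
          (Min2 KR (r6 2500000) (r6 240000) (r6 l)) ∧
        Ev2 (r6 333400) (r6 250100) M.psF M.psC M.qsF M.qsC (Min2 KD (r6 2500000) 0 (r6 l)) ∧
        Ev2 (r6 333400) (r6 250100) M.psF M.psC M.qsF M.qsC (GenP (r6 2500000) (V / E12) (r6 l))) :
    CERT3 (5 / 2) 0.3334 0.2501 := by
  have k : (LL.join [llA, A]).ok (r6 333400) (r6 250100) := LL.ok_join (by
    simp only [List.forall_mem_cons]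
    exact ⟨llA_ok, hA, by simp⟩)
  obtain ⟨h1, h2, h3⟩ := h (LL.join [llA, A]) (LL.sub_join (by simp))
  have e := cert3_of_min k.1 k.2.1 k.2.2.1 k.2.2.2
    (Min2.union (realA (LL.sub_join List.mem_cons_self)) h1 le_rfl) h2
    (Min2.mono (min2_KS (r6_nonneg _) (by norm_num [r6])) le_rfl
      ((r6_le.2 hl).trans (by norm_num [r6]))) (rq_V hV) h3
  convert e using 1 <;> norm_num [r6]

end Pool.Agent.Lib.MP_778b46_nt.GX.Cq
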