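import Pool.Agent.Lib.MP_778b46_nt.GX.ZhE

/- Levels behind a first zero whose conjugate lies in another class. -/

namespace Pool.Agent.Lib.MP_778b46_nt.GX

variable {φ φ1 : ℝ} {psF psC qsF qsC : List MP}

theorem lvA_525_550 (h1 : φ ≤ 0.3334) (h2 : φ1 ≤ 0.2501) :
    Ev2 φ φ1 psF psC qsF qsC (LvA (0.525 : ℚ) (0.55 : ℚ) (1.285 : ℚ)) :=
  lvA_chain (zh_f h1) (zh_f1 h2) (a0 := 0.86)
    [(1.028, ⟨2.3, 0.8, 0.5, 0.838, 0.0016, 0.0018, 0.0052, 0.0017, 0.00415, 0, 0.00391, 0.1825⟩),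
     (1.128, ⟨2.25, 0.76, 1, 0.898, 0.0047, 0.0076, 0.0108, 0.0051, 0.01148, 0, 0.01148, 0.4662⟩),
     (1.191, ⟨2.2, 0.72, 1, 0.935, 0.0099, 0.0114, 0.0139, 0.0065, 0.01495, 0, 0.0143, 0.4758⟩),
     (1.232, ⟨2.15, 0.72, 1, 0.957, 0.0129, 0.0141, 0.0163, 0.0073, 0.01942, 0, 0.0157, 0.4758⟩),
     (1.258, ⟨2.15, 0.7, 1, 0.972, 0.0155, 0.0158, 0.0176, 0.0081, 0.02221, 0, 0.01742, 0.48⟩),
     (1.274, ⟨2.1, 0.68, 1, 0.983, 0.0153, 0.0158, 0.0178, 0.0082, 0.02175, 0, 0.01722, 0.4838⟩),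
     (1.285, ⟨2.1, 0.68, 1, 0.988, 0.0164, 0.0167, 0.0185, 0.0085, 0.02322, 0, 0.01802, 0.4838⟩)]
    (by decide +kernel) (lvA_base (dhb_ev (by linarith) (T := 2.25) (p := 0.86) (w := 0.282)
      (by decide +kernel)))

theorem levKD_525_550 (h1 : φ ≤ 0.3334) (h2 : φ1 ≤ 0.2501) :
    Ev2 φ φ1 psF psC qsF qsC (Lev KD 0.525 0.55 1.285 1.616 1.616) := by
  have := lev_own (lc := 1.616) (zh_f h1) (zh_f1 h2)
    (z := ⟨1.75, 0.82, 0, 0.775, 0.005, 0.0137, 0.0129, 0, 0.02258, 0.00875, 0.00875, 0⟩)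
    (by decide +kernel) (lvA_525_550 (psF := psF) (psC := psC) (qsF := qsF) (qsC := qsC) h1 h2)
  norm_num at this ⊢
  exact this

theorem lvA_550_575 (h1 : φ ≤ 0.3334) (h2 : φ1 ≤ 0.2501) :
    Ev2 φ φ1 psF psC qsF qsC (LvA (0.55 : ℚ) (0.575 : ℚ) (1.111 : ℚ)) :=
  lvA_chain (zh_f h1) (zh_f1 h2) (a0 := 0.81)
    [(0.952, ⟨2.2, 0.82, 0, 0.864, 0.0005, 0.0009, 0.0039, 0, 0.00858, 0, 0.00858, 0⟩),
     (1.025, ⟨2.2, 0.82, 0.5, 0.925, 0.0023, 0.0032, 0.0068, 0.002, 0.00715, 0, 0.00455, 0.1732⟩),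
     (1.065, ⟨2.2, 0.8, 0.75, 0.957, 0.0037, 0.0059, 0.0093, 0.0035, 0.00874, 0, 0.0077, 0.3188⟩),
     (1.089, ⟨2.2, 0.8, 0.75, 0.974, 0.0044, 0.0078, 0.0107, 0.0039, 0.01182, 0, 0.00858, 0.3188⟩),
     (1.103, ⟨2.2, 0.76, 1, 0.984, 0.0064, 0.0088, 0.0116, 0.0055, 0.0121, 0, 0.0121, 0.4662⟩),
     (1.111, ⟨2.2, 0.74, 1, 0.991, 0.0072, 0.0092, 0.0118, 0.0057, 0.01254, 0, 0.01254, 0.4712⟩)]
    (by decide +kernel) (lvA_base (dhb_ev (by linarith) (T := 2.15) (p := 0.87) (w := 0.304)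
      (by decide +kernel)))

theorem levKD_550_575 (h1 : φ ≤ 0.3334) (h2 : φ1 ≤ 0.2501) :
    Ev2 φ φ1 psF psC qsF qsC (Lev KD 0.55 0.575 1.111 1.45 1.45) := by
  have := lev_own (lc := 1.45) (zh_f h1) (zh_f1 h2)
    (z := ⟨1.85, 0.82, 0, 0.761, 0.0024, 0.0073, 0.0088, 0, 0.01628, 0.00444, 0.00444, 0⟩)
    (by decide +kernel) (lvA_550_575 (psF := psF) (psC := psC) (qsF := qsF) (qsC := qsC) h1 h2)
  norm_num at this ⊢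
  exact this

theorem lvA_575_600 (h1 : φ ≤ 0.3334) (h2 : φ1 ≤ 0.2501) :
    Ev2 φ φ1 psF psC qsF qsC (LvA (0.575 : ℚ) (0.6 : ℚ) (0.988 : ℚ)) :=
  lvA_chain (zh_f h1) (zh_f1 h2) (a0 := 0.78)
    [(0.894, ⟨2.25, 0.84, 0, 0.886, 0.0005, 0.0007, 0.003, 0, 0.00675, 0, 0.00675, 0⟩),
     (0.945, ⟨2.15, 0.84, 0, 0.948, 0.0009, 0.0016, 0.005, 0, 0.01075, 0, 0.01075, 0⟩),
     (0.968, ⟨2.2, 0.82, 0.5, 0.975, 0.0019, 0.002, 0.0058, 0.0018, 0.00495, 0, 0.00396, 0.1732⟩),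
     (0.981, ⟨2.2, 0.82, 0.5, 0.985, 0.0022, 0.0028, 0.0064, 0.0019, 0.00627, 0, 0.00418, 0.1732⟩),
     (0.988, ⟨2.2, 0.82, 0.5, 0.992, 0.0024, 0.0033, 0.0068, 0.002, 0.00715, 0, 0.00455, 0.1732⟩)]
    (by decide +kernel) (lvA_base (dhb_ev (by linarith) (T := 2.1) (p := 0.88) (w := 0.311)
      (by decide +kernel)))

theorem levKD_575_600 (h1 : φ ≤ 0.3334) (h2 : φ1 ≤ 0.2501) :
    Ev2 φ φ1 psF psC qsF qsC (Lev KD 0.575 0.6 0.988 1.318 1.318) := by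
  have := lev_own (lc := 1.318) (zh_f h1) (zh_f1 h2)
    (z := ⟨1.9, 0.82, 0, 0.761, 0.0014, 0.0032, 0.006, 0, 0.0114, 0.00266, 0.00266, 0⟩)
    (by decide +kernel) (lvA_575_600 (psF := psF) (psC := psC) (qsF := qsF) (qsC := qsC) h1 h2)
  norm_num at this ⊢
  exact this

theorem lvA_600_625 (h1 : φ ≤ 0.3334) (h2 : φ1 ≤ 0.2501) :
    Ev2 φ φ1 psF psC qsF qsC (LvA (0.6 : ℚ) (0.625 : ℚ) (0.9 : ℚ)) :=
  lvA_chain (zh_f h1) (zh_f1 h2) (a0 := 0.74)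
    [(0.834, ⟨2.25, 0.82, 0, 0.904, 0.0005, 0.0005, 0.0019, 0, 0.00428, 0, 0.00428, 0⟩),
     (0.875, ⟨2.2, 0.84, 0, 0.956, 0.0005, 0.0008, 0.0035, 0, 0.0077, 0, 0.0077, 0⟩),
     (0.893, ⟨2.15, 0.84, 0, 0.981, 0.0005, 0.001, 0.0041, 0, 0.00882, 0, 0.00882, 0⟩),
     (0.9, ⟨2.1, 0.86, 0, 0.992, 0.0006, 0.0011, 0.0043, 0, 0.00903, 0, 0.00903, 0⟩)]
    (by decide +kernel) (lvA_base (dhb_ev (by linarith) (T := 2.05) (p := 0.89) (w := 0.321)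
      (by decide +kernel)))

theorem levKD_600_625 (h1 : φ ≤ 0.3334) (h2 : φ1 ≤ 0.2501) :
    Ev2 φ φ1 psF psC qsF qsC (Lev KD 0.6 0.625 0.9 1.215 1.215) := by
  have := lev_own (lc := 1.215) (zh_f h1) (zh_f1 h2)
    (z := ⟨1.9, 0.84, 0, 0.769, 0.0006, 0.001, 0.004, 0, 0.0076, 0.00114, 0.00114, 0⟩)
    (by decide +kernel) (lvA_600_625 (psF := psF) (psC := psC) (qsF := qsF) (qsC := qsC) h1 h2)
  norm_num at this ⊢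
  exact this

theorem lvA_625_650 (h1 : φ ≤ 0.3334) (h2 : φ1 ≤ 0.2501) :
    Ev2 φ φ1 psF psC qsF qsC (LvA (0.625 : ℚ) (0.65 : ℚ) (0.831 : ℚ)) :=
  lvA_chain (zh_f h1) (zh_f1 h2) (a0 := 0.7)
    [(0.778, ⟨2.25, 0.86, 0, 0.919, 0.0005, 0.0005, 0.001, 0, 0.00225, 0, 0.00225, 0⟩),
     (0.811, ⟨2.2, 0.86, 0, 0.964, 0.0005, 0.0005, 0.0021, 0, 0.00462, 0, 0.00462, 0⟩),
     (0.825, ⟨2.2, 0.84, 0, 0.984, 0.0005, 0.0006, 0.0026, 0, 0.00572, 0, 0.00572, 0⟩),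
     (0.831, ⟨2.2, 0.84, 0, 0.993, 0.0005, 0.0006, 0.0029, 0, 0.00638, 0, 0.00638, 0⟩)]
    (by decide +kernel) (lvA_base (dhb_ev (by linarith) (T := 2.0) (p := 0.89) (w := 0.333)
      (by decide +kernel)))

theorem levKD_625_650 (h1 : φ ≤ 0.3334) (h2 : φ1 ≤ 0.2501) :
    Ev2 φ φ1 psF psC qsF qsC (Lev KD 0.625 0.65 0.831 1.126 1.126) := by
  have := lev_own (lc := 1.126) (zh_f h1) (zh_f1 h2)
    (z := ⟨1.95, 0.84, 0, 0.776, 0.0005, 0.0006, 0.0026, 0, 0.00507, 0.00098, 0.00098, 0⟩)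
    (by decide +kernel) (lvA_625_650 (psF := psF) (psC := psC) (qsF := qsF) (qsC := qsC) h1 h2)
  norm_num at this ⊢
  exact this

end Pool.Agent.Lib.MP_778b46_nt.GX
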