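import Pool.Agent.Lib.MP_778b46_nt.GX.RqB
import Pool.Agent.Lib.MP_778b46_nt.GX.ZhF
import Pool.Agent.Lib.MP_778b46_nt.GX.ZhG

/- From lists of checked rows to the certificate. -/

namespace Pool.Agent.Lib.MP_778b46_nt.GX.Cq

open Ck

/-- A checked row. -/
structure PR (Ex : Par → MProp3) where
  X : Par
  V : ℕ
  A : LL
  ok : A.ok (r6 X.ph) (r6 X.ph1)
  ev : ∀ M, A.sub M → EvH Ex X M fun _ _ _ _ _ _ D _ _ => D.Tot (r6 X.L) ≤ V / E12

noncomputable def PR.of {Ex : Par → MProp3} {α : Type} {K : Kit Ex α} {R : Row2D α}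
    (h1 : R.ok1 K = true) (h2 : R.ok2 K = true) (h3 : R.ok3 K = true) : PR Ex :=
  ⟨R.toPar, R.V, R.ll K, ll_ok h1, fun _ hM => row2_of_ok h1 h2 h3 hM⟩

def PR.real (r : PR ExL) : PR ExR := ⟨r.X, r.V, r.A, r.ok, fun M hM => (r.ev M hM).weak (exR_L _)⟩

/-- The constants of all rows. -/
def Par.std (X : Par) : Prop := X.L = 2500000 ∧ X.ph = 333400 ∧ X.ph1 = 250100

instance (X : Par) : Decidable X.std := by
  unfold Par.std
  infer_instance

/-- The levels `(b, l, lc)` for two conjugate first zeros in `[0.47, b]`. -/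
def levT : List (ℕ × ℕ × ℕ) := [(480000, 2234000, 2565000), (500000, 1817000, 2209000),
  (525000, 1497000, 1847000), (550000, 1285000, 1616000), (575000, 1111000, 1450000),
  (600000, 988000, 1318000), (625000, 900000, 1215000)]

/-- The side conditions of a row with two conjugate first zeros. -/
def Par.pair (X : Par) (V : ℕ) : Prop :=
  (X.n = 2 ∧ X.r = 1 ∧ X.sb < X.lc ∧ V ≤ 999000000000) ∧ 470000 ≤ X.sa ∧
    ∃ e ∈ levT, X.sb ≤ e.1 ∧ X.l ≤ e.2.1 ∧ X.lc ≤ e.2.2 ∧ X.lp ≤ e.2.2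

instance (X : Par) (V : ℕ) : Decidable (X.pair V) := by
  unfold Par.pair
  infer_instance

theorem Lev.union {φ φ1 a b c l lc l' lc' : ℝ} {psF psC qsF qsC : List MP} {K : Kind}
    (h : Ev2 φ φ1 psF psC qsF qsC (Lev K a b l lc lc))
    (h' : Ev2 φ φ1 psF psC qsF qsC (Lev K b c l' lc' lc')) (h1 : l' ≤ l) (h2 : lc' ≤ lc) :
    Ev2 φ φ1 psF psC qsF qsC (Lev K a c l' lc' lc') :=
  ((Lev.mono h le_rfl le_rfl h1 h2 h2).and h').mono fun _ _ _ _ _ _ D _ _ _ _ e i hi hk ha hc =>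
    (le_total (D.lam i) b).elim (e.1 i hi hk ha) fun hb => e.2 i hi hk hb hc

theorem levT_ok (M : LL) : ∀ e ∈ levT, Ev2 (r6 333400) (r6 250100) M.psF M.psC M.qsF M.qsC
    (Lev KD (r6 470000) (r6 e.1) (r6 e.2.1) (r6 e.2.2) (r6 e.2.2)) := by
  have a : r6 333400 ≤ 0.3334 := by norm_num [r6]
  have b : r6 250100 ≤ 0.2501 := by norm_num [r6]
  have h1 := levKD_470_480 (psF := M.psF) (psC := M.psC) (qsF := M.qsF) (qsC := M.qsC) a b
  have h2 := Lev.union h1 (levKD_480_500 a b) (by norm_num) (by norm_num)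
  have h3 := Lev.union h2 (levKD_500_525 a b) (by norm_num) (by norm_num)
  have h4 := Lev.union h3 (levKD_525_550 a b) (by norm_num) (by norm_num)
  have h5 := Lev.union h4 (levKD_550_575 a b) (by norm_num) (by norm_num)
  have h6 := Lev.union h5 (levKD_575_600 a b) (by norm_num) (by norm_num)
  have h7 := Lev.union h6 (levKD_600_625 a b) (by norm_num) (by norm_num)
  simp only [levT, List.forall_mem_cons]
  refine ⟨Lev.mono h1 ?_ ?_ ?_ ?_ ?_, Lev.mono h2 ?_ ?_ ?_ ?_ ?_, Lev.mono h3 ?_ ?_ ?_ ?_ ?_,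
    Lev.mono h4 ?_ ?_ ?_ ?_ ?_, Lev.mono h5 ?_ ?_ ?_ ?_ ?_, Lev.mono h6 ?_ ?_ ?_ ?_ ?_,
    Lev.mono h7 ?_ ?_ ?_ ?_ ?_, by simp⟩ <;> norm_num [r6]

/-- The rows cover `[a, b]`. -/
def chR (b : ℕ) : List (PR ExR × ℚ × ℚ × ℚ × ℚ) → ℕ → Bool
  | [], a => decide (b ≤ a)
  | r :: t, a => decide (r.1.X.std ∧ r.1.X.sa ≤ a ∧
      r.1.X.real r.1.V r.2.1 r.2.2.1 r.2.2.2.1 r.2.2.2.2) && chR b t r.1.X.sb

def chD (b : ℕ) : List (PR Ex0) → ℕ → Bool
  | [], a => decide (b ≤ a)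
  | r :: t, a => decide (r.X.std ∧ r.X.sa ≤ a ∧ r.X.pair r.V) && chD b t r.X.sb

variable {M : LL} {a b : ℕ}

theorem chR_sound {l : List (PR ExR × ℚ × ℚ × ℚ × ℚ)} (h : chR b l a = true)
    (hM : ∀ r ∈ l, r.1.A.sub M)
    (h0 : Ev2 (r6 333400) (r6 250100) M.psF M.psC M.qsF M.qsC (Min2 KR (r6 2500000) 0 (r6 a))) :
    (∀ r ∈ l, r.1.A.ok (r6 333400) (r6 250100)) ∧
      Ev2 (r6 333400) (r6 250100) M.psF M.psC M.qsF M.qsC (Min2 KR (r6 2500000) 0 (r6 b)) := by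
  induction l generalizing a with
  | nil => exact ⟨by simp, Min2.mono h0 le_rfl (r6_le.2 (of_decide_eq_true h))⟩
  | cons r t ih =>
    obtain ⟨h1, h2⟩ := Bool.and_eq_true_iff.1 h
    obtain ⟨⟨e1, e2, e3⟩, e4, e5⟩ := of_decide_eq_true h1
    have k := (r.1.ev M (hM r List.mem_cons_self)).min2R e5
    have k' := r.1.ok
    rw [e2, e3] at k k'
    rw [e1] at k
    exact (ih h2 (fun s hs => hM s (List.mem_cons_of_mem _ hs))
      (Min2.union h0 k (r6_le.2 e4))).imp_left fun c => List.forall_mem_cons.2 ⟨k', c⟩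

theorem chD_sound {l : List (PR Ex0)} (h : chD b l a = true) (hM : ∀ r ∈ l, r.A.sub M)
    (h0 : Ev2 (r6 333400) (r6 250100) M.psF M.psC M.qsF M.qsC (Min2 KD (r6 2500000) 0 (r6 a))) :
    (∀ r ∈ l, r.A.ok (r6 333400) (r6 250100)) ∧
      Ev2 (r6 333400) (r6 250100) M.psF M.psC M.qsF M.qsC (Min2 KD (r6 2500000) 0 (r6 b)) := by
  induction l generalizing a with
  | nil => exact ⟨by simp, Min2.mono h0 le_rfl (r6_le.2 (of_decide_eq_true h))⟩
  | cons r t ih =>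
    obtain ⟨h1, h2⟩ := Bool.and_eq_true_iff.1 h
    obtain ⟨⟨e1, e2, e3⟩, e4, e5, e6, e, he, e7, e8, e9, e10⟩ := of_decide_eq_true h1
    have k := (r.ev M (hM r List.mem_cons_self)).min2D e5 (by
      rw [e2, e3]
      exact Lev.mono (levT_ok M e he) (r6_le.2 e6) (r6_le.2 e7) (r6_le.2 e8) (r6_le.2 e9)
        (r6_le.2 e10))
    have k' := r.ok
    rw [e2, e3] at k k'
    rw [e1] at k
    exact (ih h2 (fun s hs => hM s (List.mem_cons_of_mem _ hs))
      (Min2.union h0 k (r6_le.2 e4))).imp_left fun c => List.forall_mem_cons.2 ⟨k', c⟩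

/-- The rows with a real first zero from `0.24`, the rows with two conjugate first zeros from
`0.47`, and the row without primary zero. -/
theorem cert3_rows (rs : List (PR ExR × ℚ × ℚ × ℚ × ℚ)) (ds : List (PR Ex0)) (g : PR Ex0)
    (h : (chR g.X.l rs 240000 && chD g.X.l ds 470000 &&
      decide (g.X.std ∧ g.X.n = 0 ∧ g.X.l ≤ 609000 ∧ g.V ≤ 999000000000)) = true) :
    CERT3 (5 / 2) 0.3334 0.2501 := by
  simp only [Bool.and_eq_true] at h
  obtain ⟨⟨h1, h2⟩, h3⟩ := h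
  obtain ⟨⟨e1, e2, e3⟩, e4, e5, e6⟩ := of_decide_eq_true h3
  have key : ∀ M : LL, (LL.join (llA :: g.A :: (rs.map (·.1.A) ++ ds.map (·.A)))).sub M → _ :=
    fun M hM => And.intro
      (chR_sound h1 (fun r hr => (LL.sub_join (by simp [List.mem_map_of_mem hr])).trans hM)
        (realA ((LL.sub_join List.mem_cons_self).trans hM)))
      (chD_sound h2 (fun r hr => (LL.sub_join (by simp [List.mem_map_of_mem hr])).trans hM)
        (Min2.mono (min2_KD_low (r6_nonneg _) (by norm_num [r6]) (by norm_num [r6])) le_rfl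
          (by norm_num [r6])))
  have k := g.ok
  rw [e2, e3] at k
  obtain ⟨⟨k1, -⟩, k2, -⟩ := key _ ⟨fun _ e => e, fun _ e => e, fun _ e => e, fun _ e => e⟩
  refine cert3_of (V := g.V) (LL.ok_join fun A hA => ?_) e5 e6 fun M hM =>
    ⟨Min2.mono (key M hM).1.2 (r6_nonneg _) le_rfl, (key M hM).2.2, ?_⟩
  · simp only [List.mem_cons, List.mem_append, List.mem_map] at hA
    rcases hA with rfl | rfl | ⟨r, hr, rfl⟩ | ⟨r, hr, rfl⟩
    exacts [llA_ok, k, k1 r hr, k2 r hr]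
  · have := (g.ev M ((LL.sub_join (by simp)).trans hM)).genP e4
    rwa [e1, e2, e3] at this

end Pool.Agent.Lib.MP_778b46_nt.GX.Cq
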