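import Pool.Agent.Lib.MP_778b46_nt.GX.ZhI

/- Levels behind a first zero in `[0.65, 0.825]` whose conjugate lies in another class. -/

namespace Pool.Agent.Lib.MP_778b46_nt.GX

variable {φ φ1 : ℝ} {psF psC qsF qsC : List MP}

theorem lvA_650_675 (h1 : φ ≤ 0.3334) (h2 : φ1 ≤ 0.2501) :
    Ev2 φ φ1 psF psC qsF qsC (LvA (0.65 : ℚ) (0.675 : ℚ) (0.767 : ℚ)) :=
  lvA_chain (zh_f h1) (zh_f1 h2) (a0 := 0.731)
    [(0.754, ⟨2.25, 0.84, 0, 0.974, 0.0005, 0.0005, 0.0011, 0, 0.00248, 0, 0.00248, 0⟩),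
     (0.763, ⟨2.2, 0.86, 0, 0.99, 0.0005, 0.0005, 0.0014, 0, 0.00308, 0, 0.00308, 0⟩),
     (0.767, ⟨2.2, 0.86, 0, 0.995, 0.0005, 0.0005, 0.0015, 0, 0.0033, 0, 0.0033, 0⟩)]
    (by decide +kernel) (lvA_rel (zh_f h1) (zh_f1 h2)
      (z := ⟨2.3, 0.84, 0, 0.939, 0.0005, 0.0005, 0.0005, 0, 0.00115, 0, 0.00115, 0⟩)
      (by decide +kernel))

theorem levKD_650_675 (h1 : φ ≤ 0.3334) (h2 : φ1 ≤ 0.2501) :
    Ev2 φ φ1 psF psC qsF qsC (Lev KD 0.65 0.675 0.767 1.044 1.044) := by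
  have := lev_own (lc := 1.044) (zh_f h1) (zh_f1 h2)
    (z := ⟨1.95, 0.86, 0, 0.787, 0.0005, 0.0005, 0.0014, 0, 0.00273, 0.00098, 0.00098, 0⟩)
    (by decide +kernel) (lvA_650_675 (psF := psF) (psC := psC) (qsF := qsF) (qsC := qsC) h1 h2)
  norm_num at this ⊢
  exact this

theorem lvA_675_700 (h1 : φ ≤ 0.3334) (h2 : φ1 ≤ 0.2501) :
    Ev2 φ φ1 psF psC qsF qsC (LvA (0.675 : ℚ) (0.7 : ℚ) (0.706 : ℚ)) :=
  lvA_chain (zh_f h1) (zh_f1 h2) (a0 := 0.706)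
    []
    (by decide +kernel) (lvA_rel (zh_f h1) (zh_f1 h2)
      (z := ⟨2.25, 0.86, 0, 0.993, 0.0005, 0.0005, 0.0005, 0, 0.00113, 0, 0.00113, 0⟩)
      (by decide +kernel))

theorem levKD_675_700 (h1 : φ ≤ 0.3334) (h2 : φ1 ≤ 0.2501) :
    Ev2 φ φ1 psF psC qsF qsC (Lev KD 0.675 0.7 0.706 0.969 0.969) := by
  have := lev_own (lc := 0.969) (zh_f h1) (zh_f1 h2)
    (z := ⟨2, 0.86, 0, 0.791, 0.0005, 0.0005, 0.0005, 0, 0.001, 0.001, 0.001, 0⟩)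
    (by decide +kernel) (lvA_675_700 (psF := psF) (psC := psC) (qsF := qsF) (qsC := qsC) h1 h2)
  norm_num at this ⊢
  exact this

theorem levKD_700_725 (h1 : φ ≤ 0.3334) (h2 : φ1 ≤ 0.2501) :
    Ev2 φ φ1 psF psC qsF qsC (Lev KD 0.7 0.725 0.7 0.937 0.937) := by
  have := lev_rel (psF := psF) (psC := psC) (qsF := qsF) (qsC := qsC) (sa := 0.7) (sb := 0.725)
    (lc := 0.937) (zh_f h1) (zh_f1 h2)
    (z := ⟨2, 0.86, 0, 0.825, 0.0005, 0.0005, 0.0005, 0, 0.001, 0.001, 0.001, 0⟩)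
    (by decide +kernel)
  norm_num at this ⊢
  exact this

theorem levKD_725_750 (h1 : φ ≤ 0.3334) (h2 : φ1 ≤ 0.2501) :
    Ev2 φ φ1 psF psC qsF qsC (Lev KD 0.725 0.75 0.725 0.909 0.909) := by
  have := lev_rel (psF := psF) (psC := psC) (qsF := qsF) (qsC := qsC) (sa := 0.725) (sb := 0.75)
    (lc := 0.909) (zh_f h1) (zh_f1 h2)
    (z := ⟨2, 0.86, 0, 0.862, 0.0005, 0.0005, 0.0005, 0, 0.001, 0.001, 0.001, 0⟩)
    (by decide +kernel)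
  norm_num at this ⊢
  exact this

theorem levKD_750_775 (h1 : φ ≤ 0.3334) (h2 : φ1 ≤ 0.2501) :
    Ev2 φ φ1 psF psC qsF qsC (Lev KD 0.75 0.775 0.75 0.882 0.882) := by
  have := lev_rel (psF := psF) (psC := psC) (qsF := qsF) (qsC := qsC) (sa := 0.75) (sb := 0.775)
    (lc := 0.882) (zh_f h1) (zh_f1 h2)
    (z := ⟨1.95, 0.86, 0, 0.905, 0.0005, 0.0005, 0.0005, 0, 0.00098, 0.00098, 0.00098, 0⟩)
    (by decide +kernel)
  norm_num at this ⊢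
  exact this

theorem levKD_775_800 (h1 : φ ≤ 0.3334) (h2 : φ1 ≤ 0.2501) :
    Ev2 φ φ1 psF psC qsF qsC (Lev KD 0.775 0.8 0.775 0.857 0.857) := by
  have := lev_rel (psF := psF) (psC := psC) (qsF := qsF) (qsC := qsC) (sa := 0.775) (sb := 0.8)
    (lc := 0.857) (zh_f h1) (zh_f1 h2)
    (z := ⟨1.95, 0.88, 0, 0.947, 0.0005, 0.0005, 0.0005, 0, 0.00098, 0.00098, 0.00098, 0⟩)
    (by decide +kernel)
  norm_num at this ⊢
  exact this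

theorem levKD_800_825 (h1 : φ ≤ 0.3334) (h2 : φ1 ≤ 0.2501) :
    Ev2 φ φ1 psF psC qsF qsC (Lev KD 0.8 0.825 0.8 0.832 0.832) := by
  have := lev_rel (psF := psF) (psC := psC) (qsF := qsF) (qsC := qsC) (sa := 0.8) (sb := 0.825)
    (lc := 0.832) (zh_f h1) (zh_f1 h2)
    (z := ⟨1.9, 0.88, 0, 0.993, 0.0005, 0.0005, 0.0005, 0, 0.00095, 0.00095, 0.00095, 0⟩)
    (by decide +kernel)
  norm_num at this ⊢
  exact this

end Pool.Agent.Lib.MP_778b46_nt.GX
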