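import Pool.Agent.Lib.MP_778b46_nt.GX.ZhH
import Pool.Agent.Lib.MP_778b46_nt.GX.ZhJ

/- The longer table of levels for a first zero whose conjugate lies in another class. -/

namespace Pool.Agent.Lib.MP_778b46_nt.GX

open Ck

variable {φ φ1 : ℝ} {psF psC qsF qsC : List MP}

theorem Lev.low {K : Kind} {a b l l' lc : ℝ} (h : Ev2 φ φ1 psF psC qsF qsC (Lev K a b l lc lc))
    (k : l' ≤ l) : Ev2 φ φ1 psF psC qsF qsC (Lev K a b l' lc lc) :=
  Ev2.mono h fun _ _ _ _ _ _ _ _ _ _ _ h i hi hk ha hb =>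
    have e := h i hi hk ha hb
    ⟨e.1, e.2.1, fun j x y => k.trans (e.2.2 j x y)⟩

/-- Right end point, level of the other classes, level of the own class. -/
def kdTab2 : List (ℕ × ℕ × ℕ) :=
  kdTab ++ [(675000, 767000, 1044000), (700000, 706000, 969000), (725000, 700000, 937000),
    (750000, 700000, 909000), (775000, 700000, 882000), (800000, 700000, 857000),
    (825000, 700000, 832000)]

theorem kdTab2_lev : ∀ x ∈ kdTab2, Ev2 (r6 333400) (r6 250100) psF psC qsF qsC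
    (Lev KD (r6 470000) (r6 x.1) (r6 x.2.1) (r6 x.2.2) (r6 x.2.2)) := by
  have h1 : r6 333400 ≤ 0.3334 := by norm_num [r6]
  have h2 : r6 250100 ≤ 0.2501 := by norm_num [r6]
  have a0 : Ev2 (r6 333400) (r6 250100) psF psC qsF qsC (Lev KD 0.47 0.65 0.831 1.126 1.126) := by
    convert kdTab_lev (650000, 831000, 1126000) (by decide) using 2 <;> norm_num [r6]
  have a1 := Lev.ext a0 (levKD_650_675 h1 h2) (by norm_num) (by norm_num)
  have a2 := Lev.ext a1 (levKD_675_700 h1 h2) (by norm_num) (by norm_num)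
  have a3 := Lev.ext a2 (levKD_700_725 h1 h2) (by norm_num) (by norm_num)
  have a4 := Lev.ext a3 (Lev.low (l' := 0.7) (levKD_725_750 h1 h2) (by norm_num)) le_rfl
    (by norm_num)
  have a5 := Lev.ext a4 (Lev.low (l' := 0.7) (levKD_750_775 h1 h2) (by norm_num)) le_rfl
    (by norm_num)
  have a6 := Lev.ext a5 (Lev.low (l' := 0.7) (levKD_775_800 h1 h2) (by norm_num)) le_rfl
    (by norm_num)
  have a7 := Lev.ext a6 (Lev.low (l' := 0.7) (levKD_800_825 h1 h2) (by norm_num)) le_rfl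
    (by norm_num)
  simp only [kdTab2, List.forall_mem_append, List.forall_mem_cons]
  refine ⟨kdTab_lev, ?_, ?_, ?_, ?_, ?_, ?_, ?_, by simp⟩
  · convert a1 using 2 <;> norm_num [r6]
  · convert a2 using 2 <;> norm_num [r6]
  · convert a3 using 2 <;> norm_num [r6]
  · convert a4 using 2 <;> norm_num [r6]
  · convert a5 using 2 <;> norm_num [r6]
  · convert a6 using 2 <;> norm_num [r6]
  · convert a7 using 2 <;> norm_num [r6]

/-- The levels for a row, read off from the table; the level `l = sa` is always available. -/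
theorem kd_lev2 {sa sb l lc lp : ℕ} (h : 470000 ≤ sa ∧ ∃ x ∈ kdTab2, sb ≤ x.1 ∧
    (l ≤ x.2.1 ∨ l ≤ sa) ∧ lc ≤ x.2.2 ∧ lp ≤ x.2.2) : Ev2 (r6 333400) (r6 250100) psF psC qsF qsC
      (Lev KD (r6 sa) (r6 sb) (r6 l) (r6 lc) (r6 lp)) := by
  obtain ⟨h0, x, hx, h1, h2, h3, h4⟩ := h
  exact Ev2.mono (kdTab2_lev x hx) fun _ _ _ _ _ _ _ _ _ _ _ h i hi hk ha hb =>
    have e := h i hi hk ((r6_le.2 h0).trans ha) (hb.trans (r6_le.2 h1))
    ⟨fun k a b => (r6_le.2 h4).trans (e.1 k a b), fun k a b c => (r6_le.2 h3).trans (e.2.1 k a b c),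
      fun k a b => h2.elim (fun h2 => (r6_le.2 h2).trans (e.2.2 k a b))
        fun h2 => (r6_le.2 h2).trans (ha.trans (hi k))⟩

end Pool.Agent.Lib.MP_778b46_nt.GX
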