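import Pool.Agent.Lib.MP_778b46_nt.GX.Dl4
import Pool.Agent.Lib.MP_778b46_nt.GX.ZfS
import Pool.Agent.Lib.MP_778b46_nt.GX.ZhK
import Pool.Agent.Lib.MP_778b46_nt.GX.CqC

/- From lists of checked rows to the certificate, for any `L ≥ 12 / 5`. -/

namespace Pool.Agent.Lib.MP_778b46_nt.GX

/-- Family parameters. -/
def qVF : MQ := ⟨0.0184, 0.3702, 0.3709, 0.371, 0.4254, 0.7772, 0.8408, 2.91⟩

/-- Class parameters. -/
def qVC : MQ := ⟨0.0184, 0.0378, 0.0385, 0.0386, 0.093, 0.4448, 0.5084, 2.91⟩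

/-- The instance `s1 = 0.0004` for `12 / 5 ≤ L`. -/
theorem unif24 {φ L : ℝ} {psF psC : List MP} (hφ : 0 ≤ φ) (hφ' : φ ≤ 0.3334) (hL : 12 / 5 ≤ L)
    (hF : qVF.mp ∈ psF) (hC : qVC.mp ∈ psC) : Ev φ psF psC (Unif2P L 1 0.0004) := by
  have h := unif2_of (f := 0.3334) (L := 12 / 5) (κ := 1) (s1 := 0.0004) (T := 1.33) (δ := 0.01)
    (τ := 0.7) (l1 := 8.595) (Tc := 0.9) (δc := 0.01) (lc := 12.4) (W := 0.67) (U := 0.0022)
    (V := 0.00002) hφ (by norm_num; linarith) hF hC hC (by decide +kernel)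
  push_cast at h
  exact h.mono fun _ _ _ _ _ _ D _ _ hD h i a b c d => (hD.tot_anti hL).trans (h i a b c d)

namespace Cq

open Ck

/-- A checked row. -/
structure CR (Ex : Par → MProp3) where
  X : Par
  V : ℕ
  A : LL
  ok : A.ok (r6 X.ph) (r6 X.ph1)
  ev : ∀ M, A.sub M → EvH Ex X M fun _ _ _ _ _ _ D _ _ => D.Tot (r6 X.L) ≤ V / E12

noncomputable def CR.of {Ex : Par → MProp3} {α : Type} {K : Kit Ex α} {R : Row2D α}
    (h1 : R.ok1 K = true) (h2 : R.ok2 K = true) (h3 : R.ok3 K = true) : CR Ex :=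
  ⟨R.toPar, R.V, R.ll K, ll_ok h1, fun _ hM => row2_of_ok h1 h2 h3 hM⟩

/-- The constants of a row. -/
def CR.std {Ex : Par → MProp3} (r : CR Ex) (L n k : ℕ) : Prop :=
  r.X.L = L ∧ r.X.ph = 333400 ∧ r.X.ph1 = 250100 ∧ r.X.n = n ∧ r.X.r = k ∧
    r.V + min r.X.sb 1000 * 1000000 ≤ 1000000000000

instance {Ex : Par → MProp3} (r : CR Ex) (L n k : ℕ) : Decidable (r.std L n k) := by
  unfold CR.std
  infer_instance

theorem rs_W {V b : ℕ} (h : V + min b 1000 * 1000000 ≤ 1000000000000) :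
    (V : ℝ) / E12 ≤ 1 - min (r6 b) (1 / 1000) := by
  have h1 := (Nat.cast_le (α := ℝ)).2 h
  have h2 : min (r6 b) (1 / 1000) = min (b : ℝ) 1000 / 10 ^ 6 := by
    rw [← min_div_div_right (by positivity), r6]
    norm_num
  push_cast at h1
  rw [h2, cE12, div_le_iff₀ (by positivity)]
  linarith

theorem rs_V {V b : ℕ} (h : V + min b 1000 * 1000000 ≤ 1000000000000) (hb : 1000 ≤ b) :
    (V : ℝ) / E12 ≤ 0.999 := by
  have := rs_W h
  rw [min_eq_right (le_of_eq_of_le (by norm_num [r6]) (r6_le.2 hb))] at this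
  linarith

/-- A range of the first zero of kind `K` which is done. -/
structure MR (K : Kind) (L : ℕ) where
  a : ℕ
  b : ℕ
  A : LL
  ok : A.ok (r6 333400) (r6 250100)
  ev : ∀ M, A.sub M →
    Ev2 (r6 333400) (r6 250100) M.psF M.psC M.qsF M.qsC (Min2 K (r6 L) (r6 a) (r6 b))

variable {L : ℕ}

theorem CR.ok' {Ex : Par → MProp3} {r : CR Ex} {n k : ℕ} (h : r.std L n k) :
    r.A.ok (r6 333400) (r6 250100) := by
  have := r.ok
  rwa [h.2.1, h.2.2.1] at this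

/-- A real first zero; the levels are either trivial or given by `dl4Ok`. -/
def MR.real (r : CR ExL) (T p T1 Tc : ℚ) (h : r.std L 1 1 ∧ r.X.lp = r.X.lc ∧
    (r.X.l ≤ r.X.sa ∧ r.X.lc ≤ r.X.sa ∨ dl4Ok 0.3334 0.2501 (r.X.sb / 10 ^ 6) (r.X.l / 10 ^ 6)
      (r.X.lc / 10 ^ 6) T p T1 Tc)) : MR KR L :=
  ⟨r.X.sa, r.X.sb, r.A, CR.ok' h.1, fun M hM => by
    obtain ⟨⟨a1, a2, a3, a4, a5, a6⟩, a7, a8⟩ := h
    have k := ((r.ev M hM).weak (exR_L _)).rowR a4 a5 a7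
    rw [a1, a2, a3] at k
    have v : ∀ {x t : ℝ}, x ≤ r6 r.X.sb → t ≤ r.V / E12 → t ≤ 1 - min x (1 / 1000) := fun h h' =>
      (h'.trans (rs_W a6)).trans (sub_le_sub_left (min_le_min h le_rfl) _)
    rcases a8 with ⟨b1, b2⟩ | a8
    · exact Ev2.mono k fun _ _ _ _ _ _ _ _ _ _ _ h i hi hk ha hb => v hb
        (h i hk.1 hk.2 ha hb (fun j _ _ => (r6_le.2 b2).trans (ha.trans (hi j)))
          fun j _ => (r6_le.2 b1).trans (ha.trans (hi j)))
    have e : ∀ n : ℕ, (((n : ℚ) / 10 ^ 6 : ℚ) : ℝ) = r6 n := fun n => by simp [r6]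
    obtain ⟨b1, b2⟩ := dl4_of (psF := M.psF) (psC := M.psC) (qsF := M.qsF) (qsC := M.qsC)
      (r6_nonneg 333400) (by norm_num [r6]) (r6_nonneg 250100) (by norm_num [r6]) a8
    simp only [e] at b1 b2
    refine ((b1.and b2).and k).mono fun _ _ _ _ _ _ D Lo _ _ hD h i hi hk ha hb =>
      v hb (h.2 i hk.1 hk.2 ha hb (h.1.1 i hi hk.1 hk.2 hb) fun j hj =>
        h.1.2 i hi hk.1 hk.2 hb j fun e => hj ?_)
    rw [e, div_self']
    exact hD.cl.sm_one⟩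

/-- Two conjugate first zeros in different classes. -/
def MR.pairD (r : CR Ex0) (h : r.std L 2 1 ∧ 1000 ≤ r.X.sb ∧ r.X.sb < r.X.lc ∧
    470000 ≤ r.X.sa ∧ ∃ x ∈ kdTab2, r.X.sb ≤ x.1 ∧ (r.X.l ≤ x.2.1 ∨ r.X.l ≤ r.X.sa) ∧
      r.X.lc ≤ x.2.2 ∧ r.X.lp ≤ x.2.2) : MR KD L :=
  ⟨r.X.sa, r.X.sb, r.A, CR.ok' h.1, fun M hM => by
    obtain ⟨⟨a1, a2, a3, a4, a5, a6⟩, a9, a7, a8⟩ := h
    have k := (r.ev M hM).rowP
    rw [a1, a2, a3, a4, a5] at k
    exact min2_pairD (rs_V a6 a9) (r6_lt.2 a7) (fun _ _ _ _ _ _ _ k => k) (kd_lev2 a8) k⟩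

/-- Two conjugate first zeros in the same class. -/
def MR.pairS (r : CR ExL) (h : r.std L 1 2 ∧ 1000 ≤ r.X.sb ∧ r.X.sb < r.X.lc)
    (hL : ∀ M : LL, Ev2 (r6 333400) (r6 250100) M.psF M.psC M.qsF M.qsC
      (Lev KS (r6 r.X.sa) (r6 r.X.sb) (r6 r.X.l) (r6 r.X.lc) (r6 r.X.lp))) : MR KS L :=
  ⟨r.X.sa, r.X.sb, r.A, CR.ok' h.1, fun M hM => by
    obtain ⟨⟨a1, a2, a3, a4, a5, a6⟩, a9, a7⟩ := h
    have k : Ev2 (r6 r.X.ph) (r6 r.X.ph1) M.psF M.psC M.qsF M.qsC (RowL (r6 r.X.L) (r.V / E12)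
      r.X.n r.X.r (r6 r.X.sa) (r6 r.X.sb) (r6 r.X.l) (r6 r.X.lc) (r6 r.X.lp)) := r.ev M hM
    rw [a1, a2, a3, a4, a5] at k
    exact min2_pairS (rs_V a6 a9) (r6_lt.2 a7) (fun _ _ _ _ _ _ _ k => k) (hL M) k⟩

/-- The ranges cover `[a, b]`. -/
def chM {K : Kind} (b : ℕ) : List (MR K L) → ℕ → Bool
  | [], a => Nat.ble b a
  | r :: t, a => Nat.ble r.a a && chM b t r.b

theorem chM_sound {K : Kind} {M : LL} {a b : ℕ} {l : List (MR K L)} (h : chM b l a = true)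
    (hM : ∀ r ∈ l, r.A.sub M)
    (h0 : Ev2 (r6 333400) (r6 250100) M.psF M.psC M.qsF M.qsC (Min2 K (r6 L) 0 (r6 a))) :
    Ev2 (r6 333400) (r6 250100) M.psF M.psC M.qsF M.qsC (Min2 K (r6 L) 0 (r6 b)) := by
  induction l generalizing a with
  | nil => exact Min2.mono h0 le_rfl (r6_le.2 (Nat.le_of_ble_eq_true h))
  | cons r t ih =>
    obtain ⟨h1, h2⟩ := Bool.and_eq_true_iff.1 h
    exact ih h2 (fun s hs => hM s (List.mem_cons_of_mem _ hs))
      (Min2.union h0 (r.ev M (hM r List.mem_cons_self)) (r6_le.2 (Nat.le_of_ble_eq_true h1)))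

/-- The ranges start at `0.0004`, `0.47`, `0.609` and end at the level of the row `g` without
primary zero. -/
theorem cert3_MR (rs : List (MR KR L)) (ds : List (MR KD L)) (ss : List (MR KS L)) (g : CR Ex0)
    (h : 2400000 ≤ L ∧ g.std L 0 1 ∧ 1000 ≤ g.X.sb ∧ chM g.X.l rs 400 = true ∧
      chM g.X.l ds 470000 = true ∧ chM g.X.l ss 609000 = true) : CERT3 (r6 L) 0.3334 0.2501 := by
  obtain ⟨h0, h1, h5, h2, h3, h4⟩ := h
  set M := LL.join (⟨[qVF.mp], [qVC.mp], [], []⟩ :: g.A ::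
    (rs.map (·.A) ++ ds.map (·.A) ++ ss.map (·.A))) with hM
  have f : r6 333400 ≤ 0.3334 := by norm_num [r6]
  have u1 : qVF.mp.ok (r6 333400) (r6 333400) := MQ.ok_mp (f := 0.3334) (f' := 0.3334)
    (by decide +kernel) (by norm_num [r6]) (by norm_num [r6])
  have u2 : qVC.mp.ok (r6 333400) (1 / 1000) := MQ.ok_mp (f := 0.3334) (f' := 0.001)
    (by decide +kernel) (by norm_num [r6]) (by norm_num)
  have k : M.ok (r6 333400) (r6 250100) := LL.ok_join fun A hA => by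
    simp only [List.mem_cons, List.mem_append, List.mem_map] at hA
    rcases hA with rfl | rfl | (⟨r, -, rfl⟩ | ⟨r, -, rfl⟩) | ⟨r, -, rfl⟩
    · exact ⟨by simpa using u1, by simpa using u2, by simp, by simp⟩
    exacts [CR.ok' h1, r.ok, r.ok, r.ok]
  have s0 : LL.sub ⟨[qVF.mp], [qVC.mp], [], []⟩ M := LL.sub_join List.mem_cons_self
  have k1 := chM_sound (M := M) h2 (fun r hr => LL.sub_join (by simp [List.mem_map_of_mem hr]))
    (Min2.mono (min2_unif (unif24 (r6_nonneg _) f (le_of_eq_of_le (by norm_num [r6]) (r6_le.2 h0))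
      (s0.1 List.mem_cons_self) (s0.2.1 List.mem_cons_self))) le_rfl (by norm_num [r6]))
  have k2 := chM_sound (M := M) h3 (fun r hr => LL.sub_join (by simp [List.mem_map_of_mem hr]))
    kd_low
  have k3 := chM_sound (M := M) h4 (fun r hr => LL.sub_join (by simp [List.mem_map_of_mem hr]))
    (Min2.mono (min2_KS (r6_nonneg _) (by norm_num [r6])) le_rfl (by norm_num [r6]))
  have k4 := (g.ev M (LL.sub_join (by simp))).rowP
  obtain ⟨a1, a2, a3, a4, -, a6⟩ := h1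
  rw [a1, a2, a3, a4] at k4
  convert cert3_of_min k.1 k.2.1 k.2.2.1 k.2.2.2 k1 k2 k3 (rs_V a6 h5) (genP_of k4) using 1 <;>
    norm_num [r6]

end Cq

end Pool.Agent.Lib.MP_778b46_nt.GX
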