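import Pool.Agent.Lib.MP_778b46_nt.GX.RsA
import Pool.Agent.Lib.MP_778b46_nt.GX.RsR1
import Pool.Agent.Lib.MP_778b46_nt.GX.RsR2
import Pool.Agent.Lib.MP_778b46_nt.GX.RsR3
import Pool.Agent.Lib.MP_778b46_nt.GX.RsR4
import Pool.Agent.Lib.MP_778b46_nt.GX.RsR5
import Pool.Agent.Lib.MP_778b46_nt.GX.RsR6
import Pool.Agent.Lib.MP_778b46_nt.GX.RsR7
import Pool.Agent.Lib.MP_778b46_nt.GX.RsR8

/- A real first zero in `[0.0004, 0.675]` at `L = 12 / 5`. -/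

namespace Pool.Agent.Lib.MP_778b46_nt.GX.Cq

noncomputable def rsR : List (MR KR 2400000) :=
  [MR.real (CR.of rsR1_1 rsR1_2 rsR1_3) 1.22 0 1.0 0.68 (by decide +kernel),
    MR.real (CR.of rsR2_1 rsR2_2 rsR2_3) 1.28 0 1.04 0.7 (by decide +kernel),
    MR.real (CR.of rsR3_1 rsR3_2 rsR3_3) 1.34 0 1.08 0.74 (by decide +kernel),
    MR.real (CR.of rsR4_1 rsR4_2 rsR4_3) 1.4 0 1.12 0.76 (by decide +kernel),
    MR.real (CR.of rsR5_1 rsR5_2 rsR5_3) 1.44 0 1.16 0.8 (by decide +kernel),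
    MR.real (CR.of rsR6_1 rsR6_2 rsR6_3) 1.52 0 1.22 0.84 (by decide +kernel),
    MR.real (CR.of rsR7_1 rsR7_2 rsR7_3) 1.74 0.95 1.26 0.88 (by decide +kernel),
    MR.real (CR.of rsR8_1 rsR8_2 rsR8_3) 1.82 0.95 1.32 0.92 (by decide +kernel),
    MR.real (CR.of rsR9_1 rsR9_2 rsR9_3) 1.9 0.9 1.38 0.98 (by decide +kernel),
    MR.real (CR.of rsR10_1 rsR10_2 rsR10_3) 1.96 0.9 1.42 1.02 (by decide +kernel),
    MR.real (CR.of rsR11_1 rsR11_2 rsR11_3) 2.02 0.9 1.48 1.06 (by decide +kernel),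
    MR.real (CR.of rsR12_1 rsR12_2 rsR12_3) 2.06 0.9 1.5 1.1 (by decide +kernel),
    MR.real (CR.of rsR13_1 rsR13_2 rsR13_3) 2.08 0.9 1.52 1.1 (by decide +kernel)]

theorem rsR_ok : chM 675000 rsR 400 = true := by decide +kernel

end Pool.Agent.Lib.MP_778b46_nt.GX.Cq
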