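import Pool.Agent.Lib.MP_778b46_nt.GX.BuTB

set_option autoImplicit false

/- The bound of Burgess with exponent one quarter for moduli without large cube divisors. -/

noncomputable section

namespace Pool.Agent.Lib.MP_778b46_nt.GX

/-- No cube of a number above `B` divides `q`. -/
def NC (B q : ℕ) : Prop := ∀ r : ℕ, r ^ 3 ∣ q → r ≤ B

/-- Character sums cancel beyond the power `ph0` of the conductor, if the conductor has the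
property `p`. -/
def TBp (p : ℕ → Prop) (ph0 : ℝ) : Prop :=
  ∀ ε : ℝ, 0 < ε → ∃ th C : ℝ, 0 < th ∧ th ≤ 1 / 2 ∧ 1 ≤ C ∧
    ∀ (Q : ℕ) [NeZero Q] (ξ : DC Q), p ξ.conductor → ξ ≠ 1 → ∀ x : ℝ, 1 ≤ x →
      ‖∑ n ∈ Finset.Ioc 0 ⌊x⌋₊, pr ξ n‖ ≤ C * x ^ (1 - th) * (cd ξ ^ (ph0 + ε)) ^ th

namespace Bu

open Finset

theorem caseA4 (hW : WeilAny) (m : ℕ) : ∃ E : ℝ, 2 ≤ E ∧ ∀ (q1 q2 R N : ℕ) [NeZero q1]
    (χ1 : DirichletCharacter ℂ q1) (χ2 : DirichletCharacter ℂ q2) (Z β : ℝ), χ1.IsPrimitive →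
    CubeFree q1 → q1.Coprime q2 → q2 ∣ R ^ 5 → R ^ 3 ∣ q2 → q2 ≠ 0 → 1 ≤ Z →
    (q1 : ℝ) ≤ (Z ^ m) ^ 3 → Z ^ 100 ≤ q1 → (R : ℝ) * Z ^ 2 ≤ N → √q1 * R * Z ^ 260 ≤ N * N →
    (N : ℝ) ≤ (Z ^ m) ^ 6 → 0 ≤ β → β ≤ 1 → E ≤ β ^ (2 * (3 * m + 30)) * Z →
    ‖SS (fun n => χ1 n * χ2 n) N‖ ≤ 3 * β * N := by
  obtain ⟨J, C, hC, hM⟩ := moment hW (3 * m + 30)
  obtain ⟨C1, hC1, h1⟩ := tu_pow 1 (12 * m + 1) (by omega)
  obtain ⟨C2, hC2, h2⟩ := tu_pow 2 (3 * m + 1) (by omega)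
  obtain ⟨C3, hC3, h3⟩ := tu_pow J (3 * m + 1) (by omega)
  obtain ⟨K, hK⟩ : ∃ K : ℝ, K = 2 * C2 * (2 ^ (3 * m + 30 + 1)) ^ 5 * C1 * C := ⟨_, rfl⟩
  have hK0 : 0 ≤ K := by rw [hK]; positivity
  have hK1 : 0 ≤ K * (2 * 2 ^ (3 * m + 30) + 3 * C3) := by positivity
  refine ⟨K * (2 * 2 ^ (3 * m + 30) + 3 * C3) + 2, by linarith, ?_⟩
  intro q1 q2 R N _ χ1 χ2 Z β hχ hcf hco h5 hR3 hq2 hZ hqP hq1 hRZ hN hN' hβ hβ1 hE
  have hR0 : R ≠ 0 := by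
    rintro rfl
    exact hq2 (by simpa using hR3)
  have hR1 : (1 : ℝ) ≤ R := by exact_mod_cast Nat.pos_of_ne_zero hR0
  have hq10 : (1 : ℝ) ≤ q1 := by exact_mod_cast Nat.pos_of_ne_zero (NeZero.ne q1)
  have hP : (1 : ℝ) ≤ Z ^ m := one_le_pow₀ hZ
  have hRZ0 : 0 < (R : ℝ) * Z ^ 2 := by positivity
  have hRZ1 : 1 ≤ (R : ℝ) * Z ^ 2 := one_le_mul_of_one_le_of_one_le hR1 (one_le_pow₀ hZ)
  obtain ⟨hA1, hA2, hA3⟩ := BuN_floor ((one_le_div hRZ0).2 hRZ)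
  obtain ⟨hH1, hH2, hH3⟩ := BuN_floor hZ
  generalize ⌊(N : ℝ) / (R * Z ^ 2)⌋₊ = A at hA1 hA2 hA3
  generalize ⌊Z⌋₊ = H at hH1 hH2 hH3
  rw [le_div_iff₀ hRZ0] at hA2
  rw [div_le_iff₀ hRZ0] at hA3
  have hA0 : (1 : ℝ) ≤ A := by exact_mod_cast hA1
  have hN1 : (1 : ℝ) ≤ N := hRZ1.trans hRZ
  have hAN : (A : ℝ) ≤ N := by nlinarith
  have hq3 : (q1 : ℝ) ≤ Z ^ (3 * m + 1) := by
    refine hqP.trans ?_
    rw [← pow_mul]
    exact pow_le_pow_right₀ hZ (by omega)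
  have hβZ : 1 ≤ β * Z := by
    have := pow_le_of_le_one hβ hβ1 (n := 2 * (3 * m + 30)) (by omega)
    have := mul_le_mul_of_nonneg_right this (zero_le_one.trans hZ)
    linarith
  refine coreA χ1 χ2 (3 * m + 30) R A H N (by omega) hA1 hH1
    (Nat.Coprime.coprime_dvd_left ((dvd_pow_self R (by norm_num)).trans hR3) hco.symm) h5
    (C1 * Z) _ β (by positivity) (fun n _ hn => ?_) (hM q1 hcf χ1 hχ H) hβ ?_ ?_
  · have hn' : (n : ℝ) ≤ N * A := by exact_mod_cast hn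
    have := h1 n Z hZ (hn'.trans ((mul_le_mul hN' (hAN.trans hN') (by positivity)
      (by positivity)).trans (by
        rw [← pow_mul, ← pow_add]; exact pow_le_pow_right₀ hZ (by omega))))
    rwa [pow_one] at this
  · refine le_of_mul_le_mul_right ?_ (zero_lt_one.trans_le hZ)
    calc (A * R * H : ℝ) * Z ≤ A * R * Z * Z := by gcongr
      _ = A * (R * Z ^ 2) := by ring
      _ ≤ N := hA2
      _ ≤ β * Z * N := le_mul_of_one_le_left (by positivity) hβZ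
      _ = _ := by ring
  have hX : (1 : ℝ) ≤ N * A := one_le_mul_of_one_le_of_one_le hN1 hA0
  have hs : √q1 * Z ^ 258 ≤ 2 * (N * A : ℝ) := by
    refine le_of_mul_le_mul_right ?_ hRZ0
    calc √q1 * Z ^ 258 * (R * Z ^ 2) = √q1 * R * Z ^ 260 := by ring
      _ ≤ N * (2 * A * (R * Z ^ 2)) := hN.trans (mul_le_mul_of_nonneg_left hA3 (by positivity))
      _ = _ := by ring
  have b1 := BuN_b1 hZ hH3 hX (zero_lt_one.trans_le hq10) hqP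
  have b2 := BuN_b2 hZ (zero_le_one.trans hX) hq1 hs
  have a1 := h2 q1 Z hZ hq3
  have a3 := h3 q1 Z hZ hq3
  have a2 : (2 : ℝ) ^ (3 * m + 30) * (H : ℝ) ^ 4 + 1 ≤ 2 ^ (3 * m + 30 + 1) * Z ^ 4 := by
    have e1 : (1 : ℝ) ≤ 2 ^ (3 * m + 30) * Z ^ 4 :=
      one_le_mul_of_one_le_of_one_le (one_le_pow₀ one_le_two) (one_le_pow₀ hZ)
    have e2 : (2 : ℝ) ^ (3 * m + 30) * (H : ℝ) ^ 4 ≤ 2 ^ (3 * m + 30) * Z ^ 4 := by gcongr
    rw [pow_succ 2 (3 * m + 30)]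
    linarith
  have t0 := BuN_tu_nonneg q1
  generalize 3 * m + 30 = r at *
  generalize (N * A : ℝ) = X at *
  refine le_of_mul_le_mul_left ?_ (zero_lt_one.trans_le hZ)
  calc Z * (2 * tu q1 ^ 2 * (2 ^ r * (H : ℝ) ^ 4 + 1) ^ 5 * (X / q1 + 1) * (C1 * Z) *
        (C * ((H : ℝ) ^ r * q1 + tu q1 ^ J * (H : ℝ) ^ (2 * r) * √q1)))
      ≤ Z * (2 * (C2 * Z) * (2 ^ (r + 1) * Z ^ 4) ^ 5 * (X / q1 + 1) * (C1 * Z) *
        (C * ((H : ℝ) ^ r * q1 + C3 * Z * (H : ℝ) ^ (2 * r) * √q1))) := by gcongr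
    _ = K * (Z ^ 23 * ((X / q1 + 1) * ((H : ℝ) ^ r * q1)) +
        C3 * (H : ℝ) ^ (2 * r) * (Z ^ 24 * ((X / q1 + 1) * √q1))) := by rw [hK]; ring
    _ ≤ K * (2 * 2 ^ r * (X * (H : ℝ) ^ (2 * r)) + C3 * (H : ℝ) ^ (2 * r) * (3 * X)) := by gcongr
    _ = K * (2 * 2 ^ r + 3 * C3) * (X * (H : ℝ) ^ (2 * r)) := by ring
    _ ≤ β ^ (2 * r) * Z * (X * (H : ℝ) ^ (2 * r)) :=
      mul_le_mul_of_nonneg_right (by linarith) (by positivity)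
    _ = _ := by ring

theorem both4 (hW : WeilAny) (B m : ℕ) (hm : 263 ≤ m) : ∃ E : ℝ, 2 ≤ E ∧ ∀ (q N : ℕ) [NeZero q]
    (χ : DirichletCharacter ℂ q) (Z β : ℝ), χ.IsPrimitive → NC B q → 1 ≤ Z →
    (q : ℝ) = (Z ^ m) ^ 4 → Z ^ m * Z ^ 131 ≤ N → (N : ℝ) ≤ (Z ^ m) ^ 8 → 0 ≤ β → β ≤ 1 →
    E ≤ β ^ (2 * (3 * (2 * m) + 30)) * Z → ‖SS (fun n => χ n) N‖ ≤ 13 * β * N := by
  obtain ⟨E1, a1, hA⟩ := caseA4 hW (2 * m)
  refine ⟨max E1 B, le_max_of_le_left a1, fun q N _ χ Z β hχ hB hZ hq hN hN' h0 h1 hE => ?_⟩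
  obtain ⟨q1, q2, R, rfl, hc, hf, h5, h3⟩ := bu_dec q (NeZero.ne q)
  have n1 : q1 ≠ 0 := left_ne_zero_of_mul (NeZero.ne (q1 * q2))
  have n2 : q2 ≠ 0 := right_ne_zero_of_mul (NeZero.ne (q1 * q2))
  have : NeZero q1 := ⟨n1⟩
  have : NeZero q2 := ⟨n2⟩
  have hZ0 : 0 < Z := by linarith
  have hP : (1 : ℝ) ≤ Z ^ m := one_le_pow₀ hZ
  have hR : (R : ℝ) ≤ Z := by
    have k1 : (R : ℝ) ≤ B := by exact_mod_cast hB R (h3.trans (Dvd.intro_left _ rfl))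
    exact k1.trans (((le_max_right _ _).trans hE).trans
      (mul_le_of_le_one_left hZ0.le (pow_le_one₀ h0 h1)))
  have hR0 : R ≠ 0 := by
    rintro rfl
    simp [n2] at h3
  have hq2 : (q2 : ℝ) ≤ Z ^ 5 := by
    have k1 : (q2 : ℝ) ≤ (R : ℝ) ^ 5 := by
      exact_mod_cast Nat.le_of_dvd (pow_pos (Nat.pos_of_ne_zero hR0) 5) h5
    exact k1.trans (pow_le_pow_left₀ (Nat.cast_nonneg _) hR 5)
  have hq21 : (1 : ℝ) ≤ q2 := by exact_mod_cast Nat.pos_of_ne_zero n2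
  push_cast at hq
  have hq1 : (q1 : ℝ) ≤ (Z ^ m) ^ 4 := hq ▸ le_mul_of_one_le_right (Nat.cast_nonneg _) hq21
  have h100 : Z ^ 100 ≤ q1 := by
    refine le_of_mul_le_mul_right ?_ (pow_pos hZ0 5)
    calc Z ^ 100 * Z ^ 5 = Z ^ 105 := by ring
      _ ≤ (Z ^ m) ^ 4 := by
        rw [← pow_mul]
        exact pow_le_pow_right₀ hZ (by omega)
      _ ≤ _ := hq ▸ mul_le_mul_of_nonneg_left hq2 (Nat.cast_nonneg _)
  obtain ⟨χ1, χ2, p1, -, hs⟩ := bu_split hc χ hχ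
  have e : (fun n : ℤ => χ n) = fun n : ℤ => χ1 n * χ2 n := by
    funext n
    rw [hs, map_intCast]
    simp
  have hsq : √q1 ≤ (Z ^ m) ^ 2 := Real.sqrt_le_iff.2 ⟨by positivity, hq1.trans (le_of_eq (by ring))⟩
  rw [e]
  refine (hA q1 q2 R N χ1 χ2 Z β p1 hf hc h5 h3 n2 hZ (hq1.trans ?_) h100 (le_trans ?_ hN) ?_
    (hN'.trans ?_) h0 h1 ((le_max_left _ _).trans hE)).trans ?_
  · rw [mul_comm 2 m, pow_mul, ← pow_mul (Z ^ m)]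
    exact pow_le_pow_right₀ hP (by norm_num)
  · calc (R : ℝ) * Z ^ 2 ≤ Z * Z ^ 2 := by gcongr
      _ = 1 * Z ^ 3 := by ring
      _ ≤ _ := mul_le_mul hP (pow_le_pow_right₀ hZ (by norm_num)) (by positivity) (by positivity)
  · calc √q1 * R * Z ^ 260 ≤ (Z ^ m) ^ 2 * Z * (Z ^ 260 * Z) := by
          gcongr
          exact le_mul_of_one_le_right (by positivity) hZ
      _ = (Z ^ m * Z ^ 131) * (Z ^ m * Z ^ 131) := by ring
      _ ≤ _ := mul_le_mul hN hN (by positivity) (by positivity)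
  · rw [mul_comm 2 m, pow_mul, ← pow_mul (Z ^ m)]
    exact pow_le_pow_right₀ hP (by norm_num)
  · gcongr
    norm_num

theorem prim4 (hW : WeilAny) (B : ℕ) (ε : ℝ) (hε : 0 < ε) : ∃ η C : ℝ, 0 < η ∧ 1 ≤ C ∧
    ∀ (q : ℕ) [NeZero q] (χ : DirichletCharacter ℂ q), χ.IsPrimitive → NC B q → ∀ N : ℕ,
      (q : ℝ) ^ (1 / 4 + ε) ≤ N → (N : ℝ) ≤ (q : ℝ) ^ 2 →
        ‖SS (fun n => χ n) N‖ ≤ C * N * (q : ℝ) ^ (-η) := by
  obtain ⟨m0, hm0⟩ := exists_nat_ge (131 / (4 * ε))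
  set m := max m0 263 with hmd
  have hm : 263 ≤ m := le_max_right _ _
  have hm1 : (0 : ℝ) < m := by exact_mod_cast (by omega : 0 < m)
  have hm2 : 131 / (4 * (m : ℝ)) ≤ ε := by
    have : (m0 : ℝ) ≤ m := by exact_mod_cast le_max_left _ _
    rw [div_le_iff₀ (by positivity)] at hm0 ⊢
    nlinarith
  obtain ⟨E, hE, h⟩ := both4 hW B m hm
  set L : ℕ := 2 * (3 * (2 * m) + 30) with hL
  have hL0 : L ≠ 0 := by omega
  have hL1 : (0 : ℝ) < L := by exact_mod_cast Nat.pos_of_ne_zero hL0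
  have hE1 : 1 ≤ E ^ (L : ℝ)⁻¹ := Real.one_le_rpow (by linarith) (by positivity)
  refine ⟨(4 * (m : ℝ))⁻¹ * (L : ℝ)⁻¹, 13 * E ^ (L : ℝ)⁻¹, by positivity, by linarith,
    fun q _ χ hχ hB N hN hN' => ?_⟩
  have hq1 : (1 : ℝ) ≤ q := by exact_mod_cast NeZero.pos q
  have hq0 : (0 : ℝ) < q := by linarith
  set Z : ℝ := (q : ℝ) ^ (4 * (m : ℝ))⁻¹ with hZ
  have hZ1 : 1 ≤ Z := Real.one_le_rpow hq1 (by positivity)
  have hp : ∀ j : ℕ, Z ^ j = (q : ℝ) ^ (j / (4 * (m : ℝ))) := fun j => by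
    rw [hZ, ← Real.rpow_natCast, ← Real.rpow_mul hq0.le, inv_mul_eq_div]
  have e1 : (q : ℝ) = (Z ^ m) ^ 4 := by
    rw [← pow_mul, hp]
    push_cast
    rw [mul_comm, div_self (by positivity), Real.rpow_one]
  have e2 : Z ^ m * Z ^ 131 ≤ N := by
    refine le_trans ?_ hN
    rw [hp, hp, ← Real.rpow_add hq0]
    refine Real.rpow_le_rpow_of_exponent_le hq1 (add_le_add (le_of_eq ?_) (by exact_mod_cast hm2))
    field_simp
  have e3 : (N : ℝ) ≤ (Z ^ m) ^ 8 := hN'.trans (le_of_eq (by rw [e1]; ring))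
  set β : ℝ := (E / Z) ^ (L : ℝ)⁻¹ with hβ
  have hEZ : 0 ≤ E / Z := div_nonneg (by linarith) (by linarith)
  have b0 : 0 ≤ β := Real.rpow_nonneg hEZ _
  have e4 : 13 * E ^ (L : ℝ)⁻¹ * N * (q : ℝ) ^ (-((4 * (m : ℝ))⁻¹ * (L : ℝ)⁻¹)) = 13 * β * N := by
    rw [hβ, Real.div_rpow (by linarith) (by linarith), Real.rpow_neg hq0.le, Real.rpow_mul hq0.le]
    ring
  rw [e4]
  by_cases b1 : β ≤ 1
  · refine h q N χ Z β hχ hB hZ1 e1 e2 e3 b0 b1 (le_of_eq ?_)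
    rw [hβ, Real.rpow_inv_natCast_pow hEZ hL0]
    field_simp
  · refine (ss_triv _ (fun n => χ.norm_le_one _) N).trans ?_
    have : (0 : ℝ) ≤ N := Nat.cast_nonneg _
    nlinarith

theorem prim4' (hW : WeilAny) (B : ℕ) (ε : ℝ) (hε : 0 < ε) : ∃ θ C : ℝ, 0 < θ ∧ θ ≤ 1 / 2 ∧ 1 ≤ C ∧
    ∀ (q : ℕ) [NeZero q] (χ : DirichletCharacter ℂ q), χ.IsPrimitive → NC B q → χ ≠ 1 → ∀ N : ℕ,
      ‖∑ n ∈ Ioc 0 N, χ n‖ ≤ C * (N : ℝ) ^ (1 - θ) * ((q : ℝ) ^ (1 / 4 + ε)) ^ θ := by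
  obtain ⟨η, C, hη, hC, h⟩ := prim4 hW B ε hε
  set θ := min (η / 2) (1 / 2) with hθ
  have t0 : 0 < θ := lt_min (by linarith) (by norm_num)
  have t1 : θ ≤ η / 2 := min_le_left _ _
  have t2 : θ ≤ 1 / 2 := min_le_right _ _
  refine ⟨θ, C, t0, t2, hC, fun q _ χ hχ hB h1 N => ?_⟩
  rcases Nat.eq_zero_or_pos N with rfl | hN
  · simp only [Ioc_self, sum_empty, norm_zero]
    positivity
  have hq1 : (1 : ℝ) ≤ q := by exact_mod_cast NeZero.pos q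
  have hN1 : (1 : ℝ) ≤ N := by exact_mod_cast hN
  have hN0 : (0 : ℝ) < N := by linarith
  set y := (q : ℝ) ^ (1 / 4 + ε) with hy
  have hy1 : 1 ≤ y ^ θ := Real.one_le_rpow (Real.one_le_rpow hq1 (by positivity)) t0.le
  have hS : ∑ n ∈ Ioc 0 N, χ n = SS (fun n => χ n) N := by simp [SS]
  have hp : 0 ≤ (N : ℝ) ^ (1 - θ) := by positivity
  have hs : (N : ℝ) = (N : ℝ) ^ (1 - θ) * (N : ℝ) ^ θ := by
    rw [← Real.rpow_add hN0]; simp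
  by_cases c1 : y ≤ N
  · by_cases c2 : (N : ℝ) ≤ (q : ℝ) ^ 2
    · rw [hS]
      refine (h q χ hχ hB N c1 c2).trans (le_trans ?_ (le_mul_of_one_le_right (by positivity) hy1))
      have e1 : (N : ℝ) ^ θ * (q : ℝ) ^ (-η) ≤ 1 := by
        have e2 : (N : ℝ) ^ θ ≤ (q : ℝ) ^ η := by
          refine (Real.rpow_le_rpow hN0.le c2 t0.le).trans ?_
          rw [← Real.rpow_natCast, ← Real.rpow_mul (by linarith)]
          exact Real.rpow_le_rpow_of_exponent_le hq1 (by push_cast; linarith)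
        rw [Real.rpow_neg (by linarith), ← div_eq_mul_inv, div_le_one (by positivity)]
        exact e2
      calc _ = C * (N : ℝ) ^ (1 - θ) * ((N : ℝ) ^ θ * (q : ℝ) ^ (-η)) := by
            conv_lhs => rw [hs]
            ring
        _ ≤ _ := mul_le_of_le_one_right (by positivity) e1
    · refine (MP_c03ca8_nt.Q.char_interval (NeZero.pos q) χ h1 0 N).trans ?_
      have e1 : (q : ℝ) ≤ (N : ℝ) ^ (1 - θ) := by
        refine le_trans ?_ (Real.rpow_le_rpow_of_exponent_le hN1 (by linarith : 1 / 2 ≤ 1 - θ))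
        rw [← Real.sqrt_eq_rpow]
        exact Real.le_sqrt_of_sq_le (not_le.1 c2).le
      exact e1.trans ((le_mul_of_one_le_left hp hC).trans
        (le_mul_of_one_le_right (by positivity) hy1))
  · rw [hS]
    refine (ss_triv _ (fun n => χ.norm_le_one _) N).trans (hs.le.trans ?_)
    exact mul_le_mul (le_mul_of_one_le_left hp hC)
      (Real.rpow_le_rpow hN0.le (not_le.1 c1).le t0.le) (by positivity) (by positivity)

end Bu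

theorem tb_quarter (B : ℕ) : TBp (NC B) (1 / 4) := by
  intro ε hε
  obtain ⟨θ, C, t0, t2, hC, h⟩ := Bu.prim4' weil_any B ε hε
  refine ⟨θ, C, t0, t2, hC, fun q _ ξ hB h1 x hx => ?_⟩
  have hψ : ξ.primitiveCharacter ≠ 1 := fun h0 => h1 (by
    rw [← ξ.changeLevel_primitiveCharacter, h0, map_one])
  refine (h _ _ ξ.primitiveCharacter_isPrimitive hB hψ _).trans ?_
  have : ((⌊x⌋₊ : ℕ) : ℝ) ≤ x := Nat.floor_le (by linarith)
  have t3 : 0 ≤ 1 - θ := by linarith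
  unfold cd
  gcongr

end Pool.Agent.Lib.MP_778b46_nt.GX
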