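import Pool.Agent.Lib.MP_778b46_nt.GX.T4a
import Pool.Agent.Lib.MP_778b46_nt.GX.Basic

set_option autoImplicit false

/- A character with a power of small conductor has a conductor without large cube divisors. -/

namespace Pool.Agent.Lib.MP_778b46_nt.GX

theorem t4_pow {S : Type} [CommRing S] {x : S} (hx : x * x = 0) (k : ℕ) :
    (1 + x) ^ k = 1 + k * x := by
  induction k with
  | zero => simp
  | succ k ih =>
    rw [pow_succ, ih]
    push_cast
    linear_combination (k : S) * hx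

theorem t4_key {q : ℕ} [NeZero q] (ψ : DC q) (hψ : ψ.IsPrimitive) {p e b k' m : ℕ} (hp : p.Prime)
    (hk : ¬p ∣ k') (hq : q = p ^ (2 * e + 2 + b) * m)
    (hf : (ψ ^ (p ^ e * k')).conductor ∣ p ^ b * m) : False := by
  have hd : p ^ (2 * e + 1 + b) * m ∣ q := ⟨p, by rw [hq]; ring⟩
  have hk0 : p ^ e * k' ≠ 0 := mul_ne_zero (pow_ne_zero _ hp.ne_zero) (by
    rintro rfl
    exact hk (dvd_zero p))
  obtain ⟨a, c, hac⟩ : IsCoprime (k' : ℤ) p :=
    Nat.isCoprime_iff_coprime.2 ((hp.coprime_iff_not_dvd.2 hk).symm)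
  have hq0 : ((q : ℤ) : ZMod q) = 0 := by simp
  have h1 : ψ.FactorsThrough (p ^ (2 * e + 1 + b) * m) := by
    refine (DirichletCharacter.factorsThrough_iff_ker_unitsMap hd).2 fun u hu => ?_
    rw [MonoidHom.mem_ker] at hu ⊢
    have h2 : (((u : ZMod q).val : ℤ) : ZMod (p ^ (2 * e + 1 + b) * m)) = ((1 : ℤ) : ZMod _) := by
      rw [Int.cast_natCast, ZMod.natCast_val, ← ZMod.unitsMap_val hd, hu]
      simp
    obtain ⟨t, ht⟩ := (ZMod.intCast_eq_intCast_iff_dvd_sub _ _ _).1 h2.symm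
    set X : ℤ := p ^ (e + 1 + b) * m * a * t with hX
    have hXX : X * X = q * (p ^ b * m * a ^ 2 * t ^ 2) := by
      rw [hX, hq]
      push_cast
      ring
    have hco : IsCoprime (1 + X) (q : ℤ) :=
      ⟨1 - X, p ^ b * m * a ^ 2 * t ^ 2, by linear_combination -hXX⟩
    have h3 : ((1 + X : ℤ) : ZMod q) ^ (p ^ e * k') = u := by
      have h4 : (X : ZMod q) * X = 0 := by
        rw [← Int.cast_mul, hXX, Int.cast_mul, hq0, zero_mul]
      rw [Int.cast_add, Int.cast_one, t4_pow h4, ← ZMod.natCast_zmod_val (u : ZMod q)]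
      have h5 : (1 + ((p ^ e * k' : ℕ) : ℤ) * X : ℤ) = ((u : ZMod q).val : ℤ) + q * (-(c * t)) := by
        have h6 : (q : ℤ) = p ^ (2 * e + 2 + b) * m := by exact_mod_cast hq
        rw [hX, h6]
        push_cast at ht ⊢
        linear_combination (-1 : ℤ) * ht + (p : ℤ) ^ (2 * e + 1 + b) * m * t * hac
      have h7 := congrArg (Int.cast : ℤ → ZMod q) h5
      rw [Int.cast_add ((u : ZMod q).val : ℤ), Int.cast_mul (q : ℤ), hq0, zero_mul, add_zero] at h7
      simpa using h7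
    have h8 := (ψ ^ (p ^ e * k')).primitiveCharacter_apply_of_isCoprime hco
    have h9 : (X : ZMod (ψ ^ (p ^ e * k')).conductor) = 0 := by
      refine (ZMod.intCast_zmod_eq_zero_iff_dvd _ _).2 ?_
      refine (Int.natCast_dvd_natCast.2 hf).trans ⟨p ^ (e + 1) * a * t, ?_⟩
      rw [hX]
      push_cast
      ring
    rw [Int.cast_add 1 X, h9, Int.cast_one, add_zero, map_one, MulChar.pow_apply' _ hk0, ← map_pow,
      h3] at h8
    exact Units.ext (by simpa using h8.symm)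
  have h2 : ψ.conductor ∣ p ^ (2 * e + 1 + b) * m := ψ.conductor_dvd_of_mem_conductorSet h1
  rw [hψ] at h2
  have hm : 0 < p ^ (2 * e + 1 + b) * m := Nat.pos_of_dvd_of_pos hd (NeZero.pos q)
  have h3 := Nat.le_of_dvd hm h2
  have h4 : q = p ^ (2 * e + 1 + b) * m * p := by rw [hq]; ring
  nlinarith [hp.two_le]

theorem t4_prim {q : ℕ} [NeZero q] (ψ : DC q) (hψ : ψ.IsPrimitive) {k r : ℕ} (hk : k ≠ 0)
    (hr : r ^ 3 ∣ q) : r ∣ k ^ 2 * (ψ ^ k).conductor := by
  refine (Nat.dvd_iff_prime_pow_dvd_dvd _ _).2 fun p j hp hj => ?_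
  obtain ⟨e, k', hk', rfl⟩ := Nat.exists_eq_pow_mul_and_not_dvd hk p hp.ne_one
  obtain ⟨b, f', hf', hf⟩ := Nat.exists_eq_pow_mul_and_not_dvd
    (ψ ^ (p ^ e * k')).conductor_ne_zero p hp.ne_one
  by_contra hc
  have hj1 : 2 * e + b < j := by
    by_contra h
    refine hc ((pow_dvd_pow p (not_lt.1 h)).trans ⟨k' ^ 2 * f', ?_⟩)
    rw [hf]
    ring
  have h1 : p ^ (2 * e + 2 + b) ∣ q := by
    refine Dvd.dvd.trans ?_ ((pow_dvd_pow_of_dvd hj 3).trans hr)
    rw [← pow_mul]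
    exact pow_dvd_pow p (by omega)
  obtain ⟨m, hm⟩ := h1
  refine t4_key ψ hψ hp hk' hm ?_
  rw [hf]
  refine Nat.mul_dvd_mul_left _ ?_
  have h2 : f' ∣ p ^ (2 * e + 2 + b) * m := by
    rw [← hm]
    exact (Dvd.intro_left _ hf.symm).trans (ψ ^ (p ^ e * k')).conductor_dvd_level
  exact (Nat.Coprime.pow_right _ (hp.coprime_iff_not_dvd.2 hf').symm).dvd_of_dvd_mul_left h2

variable {Q : ℕ} [NeZero Q]

theorem cd_pow_le (ξ : DC Q) (k : ℕ) : cd (ξ ^ k) ≤ cd ξ := by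
  unfold cd
  exact_mod_cast Nat.le_of_dvd (Nat.pos_of_ne_zero ξ.conductor_ne_zero) (ξ.conductor_pow_dvd k)

theorem nc_of_pow (ξ : DC Q) {k B : ℕ} (hk : k ≠ 0) (h : (k : ℝ) ^ 2 * cd (ξ ^ k) ≤ B) :
    NC B ξ.conductor := by
  intro r hr
  have h1 := t4_prim ξ.primitiveCharacter ξ.primitiveCharacter_isPrimitive hk hr
  have h2 : (ξ.primitiveCharacter ^ k).conductor = (ξ ^ k).conductor := by
    rw [← DirichletCharacter.conductor_changeLevel _ ξ.conductor_dvd_level, map_pow,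
      ξ.changeLevel_primitiveCharacter]
  rw [h2] at h1
  refine (Nat.le_of_dvd (Nat.pos_of_ne_zero
    (mul_ne_zero (pow_ne_zero _ hk) (ξ ^ k).conductor_ne_zero)) h1).trans ?_
  unfold cd at h
  exact_mod_cast h

end Pool.Agent.Lib.MP_778b46_nt.GX
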