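import Pool.Agent.Lib.MP_778b46_nt.GX.T4a
import Pool.Agent.Lib.MP_778b46_nt.GX.ClB

set_option autoImplicit false

/- Partial fractions and the explicit formula for a restricted class of conductors. -/

namespace Pool.Agent.Lib.MP_778b46_nt.GX

open Complex Finset Filter ArithmeticFunction
open Pool.Agent.Lib.MP_e97e2b_nt.Ln hiding Dat Clean

theorem jen_upper4 {p : ℕ → Prop} {ph0 : ℝ} (hTB : TBp p ph0) {e : ℝ} (he : 0 < e) :
    ∃ th C : ℝ, 0 < th ∧ th ≤ 1 / 2 ∧ 1 ≤ C ∧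
      ∀ (Q : ℕ) [NeZero Q] (ξ : DC Q) (y K : ℝ) (s : ℂ), p ξ.conductor → 1 ≤ y →
      cd ξ ^ (ph0 + e) ≤ y → 1 - th / 2 ≤ s.re → 1 ≤ K → ‖s‖ ≤ K →
      ‖Lp ξ s‖ ≤ C * K ^ 2 * (1 + Real.log y) * y ^ (max (1 - s.re) 0) := by
  obtain ⟨th, C, h0, h1, hC, hB⟩ := hTB e he
  obtain ⟨C', hC', hup⟩ := lfun_upperK th C h0 h1 hC
  refine ⟨th, C' + 48, h0, h1, by linarith, fun Q _ ξ y K s hp hy hcd hs hK hsK => ?_⟩
  have hlog := Real.log_nonneg hy
  have hyp : 1 ≤ y ^ (max (1 - s.re) 0) := Real.one_le_rpow hy (le_max_right _ _)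
  by_cases h : ξ = 1
  · have h2 := LF_upper ξ.primitiveCharacter (s := s) (by linarith)
    have h3 : ((ξ.conductor : ℕ) : ℝ) = 1 := by
      rw [h]
      exact cd_one
    rw [h3] at h2
    have h4 : (1 + ‖s‖) ^ 2 ≤ (2 * K) ^ 2 := by gcongr; linarith
    calc ‖Lp ξ s‖ ≤ 12 * 1 * (1 + ‖s‖) ^ 2 := h2
      _ ≤ 48 * K ^ 2 * 1 * 1 := by nlinarith
      _ ≤ _ := by gcongr <;> linarith
  · rw [Lp_of_ne h]
    have h2 := hup _ ξ.primitiveCharacter y (mt (prim_eq_one_iff ξ).1 h) hy (fun x hx => by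
      refine (hB Q ξ hp h x hx).trans ?_
      have := Real.rpow_nonneg (cd_pos ξ).le (ph0 + e)
      gcongr) s K hs hK hsK
    refine h2.trans ?_
    gcongr
    · linarith
    · nlinarith

open Classical in
theorem pf4 {p : ℕ → Prop} {ph0 : ℝ} (hTB : TBp p ph0) {e ε : ℝ} (he : 0 < e) (hε : 0 < ε) :
    ∃ δ η M P0 : ℝ, 0 < δ ∧ δ ≤ 1 / 24 ∧ 0 < η ∧ 1 ≤ M ∧ 3 ≤ P0 ∧ ∀ P : ℝ, P0 ≤ P →
      ∀ (Q : ℕ) [NeZero Q] (ξ : DC Q) (ph γ : ℝ), p ξ.conductor → 0 ≤ ph → ph ≤ 2 →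
        cd ξ ^ (ph0 + e) ≤ P ^ ph → |γ| ≤ P ^ η →
        ∃ (Z : Multiset ℂ) (H : ℂ → ℂ),
          (∀ ρ, Z.count ρ = if ‖ρ - cc P γ‖ ≤ δ then ord ξ ρ else 0) ∧
          (∀ ρ ∈ Z, ‖ρ - cc P γ‖ ≤ δ ∧ ρ.re < 1) ∧ (Z.card : ℝ) ≤ M * Real.log P ∧
          (H (cc P γ)).re ≤ (ph / 2 + ε) * Real.log P ∧ ‖H (cc P γ)‖ ≤ M * Real.log P ∧
          DifferentiableOn ℂ H (Metric.ball (cc P γ) (3 * δ / 4)) ∧
          (∀ s : ℂ, ‖s - cc P γ‖ ≤ δ / 2 →
            ‖H s - H (cc P γ)‖ ≤ M * Real.log P * ‖s - cc P γ‖) ∧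
          ∀ s : ℂ, ‖s - cc P γ‖ ≤ δ / 2 → 1 < s.re →
            LSeries (fun n => pr ξ n * (vonMangoldt n : ℂ)) s =
              (if ξ = 1 then 1 / (s - 1) else 0) - (Z.map fun ρ => 1 / (s - ρ)).sum + H s := by
  obtain ⟨θ, C, hθ, hθ', hC, hup⟩ := jen_upper4 hTB he
  set e1 : ℝ := min ε 1 with he1
  have he0 : 0 < e1 := lt_min hε one_pos
  have he1' : e1 ≤ 1 := min_le_right _ _
  have he1ε : e1 ≤ ε := min_le_left _ _
  set R : ℝ := θ / 6 with hR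
  have hR0 : 0 < R := by positivity
  have hR1 : R ≤ 1 / 12 := by linarith
  set δ : ℝ := e1 * R ^ 2 / 2 with hδ
  have hδ0 : 0 < δ := by positivity
  have heR : e1 * R ≤ 1 / 12 := by nlinarith
  have hδR : δ ≤ R / 2 := by
    have h2 := mul_le_mul_of_nonneg_right heR hR0.le
    rw [hδ]
    nlinarith
  set η : ℝ := e1 * R / 8 with hη
  have hη0 : 0 < η := by positivity
  have p1 : 0 < 100 / δ := by positivity
  have p2 : 0 < 100 / δ ^ 2 := by positivity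
  have tL := Real.tendsto_log_atTop
  have t4 : Tendsto (fun P : ℝ => (Real.log C + 6) * (Real.log P)⁻¹ +
      2 * (Real.log (Real.log P) / Real.log P)) atTop (nhds 0) := by
    have := ((tendsto_inv_atTop_zero.comp tL).const_mul (Real.log C + 6)).add
      ((Real.isLittleO_log_id_atTop.tendsto_div_nhds_zero.comp tL).const_mul 2)
    simpa using this
  obtain ⟨P0, hP0⟩ := eventually_atTop.1 (((tL.eventually_ge_atTop 1).and
    (t4.eventually_le_const (show 0 < e1 * R / 4 by positivity))).and (eventually_ge_atTop 3))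
  refine ⟨δ, η, 1 + 100 / δ + 100 / δ ^ 2, max P0 3, hδ0, by linarith, hη0, by linarith,
    le_max_right _ _, fun P hP Q _ ξ ph γ hp hph hph2 hcd hγ => ?_⟩
  obtain ⟨⟨g1, g2⟩, g3⟩ := hP0 P ((le_max_left _ _).trans hP)
  have hP0' : 0 < P := by linarith
  set L := Real.log P with hL
  have hL0 : 0 < L := by linarith
  have h1L : 0 < 1 / L := by positivity
  have h1L' : 1 / L ≤ 1 := by rw [div_le_one hL0]; exact g1
  set b : ℝ := Real.log C + 6 + 2 * Real.log L + 2 * η * L with hb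
  have hlC := Real.log_nonneg hC
  have hlL := Real.log_nonneg g1
  have hηL : 0 ≤ η * L := by positivity
  have hb1 : 1 ≤ b := by linarith
  have hb2 : b ≤ e1 * R / 2 * L := by
    have h1 : Real.log C + 6 + 2 * Real.log L =
        ((Real.log C + 6) * L⁻¹ + 2 * (Real.log L / L)) * L := by field_simp
    have h2 := mul_le_mul_of_nonneg_right g2 hL0.le
    rw [hb, h1, hη]
    linarith
  have hPη : P ^ η = Real.exp (η * L) := by rw [Real.rpow_def_of_pos hP0', mul_comm]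
  have hPph : P ^ ph = Real.exp (ph * L) := by rw [Real.rpow_def_of_pos hP0', mul_comm]
  have eb : Real.exp b = C * Real.exp 6 * L ^ 2 * Real.exp (η * L) ^ 2 := by
    rw [hb, Real.exp_add, Real.exp_add, Real.exp_add, Real.exp_log (by linarith), two_mul,
      Real.exp_add, Real.exp_log hL0, mul_assoc 2, two_mul, Real.exp_add]
    ring
  have e6 : 48 ≤ Real.exp 6 := by
    have h1 : Real.exp 6 = Real.exp 1 ^ 6 := by rw [← Real.exp_nat_mul]; norm_num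
    have h2 : (2 : ℝ) ^ 6 ≤ Real.exp 1 ^ 6 := by
      gcongr
      linarith [Real.add_one_le_exp 1]
    rw [h1]
    linarith
  have hE1 : 1 ≤ Real.exp (η * L) := Real.one_le_exp hηL
  have hphL : 0 ≤ ph * L := by positivity
  obtain ⟨Z, H, z1, z2, z3, z4, z5, z6, z7, z8⟩ := jenC (Lp ξ) (Lp_diff ξ) (1 + 1 / L) γ R δ b
    (ph * L) hR0 hδ0 hδR hb1 hphL
    (fun s hs => by
      have h1 := (abs_re_le_norm _).trans hs
      simp only [sub_re, add_re, ofReal_re, mul_re, I_re, mul_zero, ofReal_im, I_im, mul_one,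
        sub_self, add_zero, abs_le] at h1
      have h2 : ‖s‖ ≤ 4 * Real.exp (η * L) := by
        have h3 := norm_add_le (s - (((1 + 1 / L : ℝ) : ℂ) + γ * I)) (((1 + 1 / L : ℝ) : ℂ) + γ * I)
        have h4 := norm_add_le ((1 + 1 / L : ℝ) : ℂ) (γ * I)
        rw [norm_mul, norm_I, mul_one, norm_real, norm_real, Real.norm_eq_abs, Real.norm_eq_abs,
          abs_of_pos (by linarith)] at h4
        rw [sub_add_cancel] at h3
        rw [hPη] at hγ
        linarith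
      have h3 := hup Q ξ (P ^ ph) (4 * Real.exp (η * L)) s hp
        (Real.one_le_rpow (by linarith) hph) hcd (by linarith) (by linarith) h2
      refine h3.trans ?_
      rw [hPph, Real.log_exp, ← Real.exp_mul, Real.exp_add, eb]
      have h4 : max (1 - s.re) 0 ≤ max ((1 + 1 / L) - s.re) 0 := max_le_max (by linarith) le_rfl
      have h5 : 1 + ph * L ≤ 3 * L ^ 2 := by
        have k1 := mul_le_mul_of_nonneg_right hph2 hL0.le
        have k2 : L ≤ L ^ 2 := le_self_pow₀ g1 two_ne_zero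
        linarith
      calc _ ≤ C * (4 * Real.exp (η * L)) ^ 2 * (3 * L ^ 2) *
            Real.exp (ph * L * max ((1 + 1 / L) - s.re) 0) := by gcongr
        _ = C * 48 * L ^ 2 * Real.exp (η * L) ^ 2 *
            Real.exp (ph * L * max ((1 + 1 / L) - s.re) 0) := by ring
        _ ≤ _ := by gcongr)
    (fun s _ hs => by
      refine le_trans ?_ (jen_lower ξ g1 hs)
      rw [Real.exp_neg, eb, ← one_div]
      refine one_div_le_one_div_of_le (by positivity) ?_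
      calc 2 * L ^ 2 ≤ 1 * 48 * L ^ 2 * 1 ^ 2 := by linarith [sq_nonneg L]
        _ ≤ _ := by gcongr)
  have hN : 2 * b + 3 * R * (ph * L) ≤ L := by
    have h1 : R * (ph * L) ≤ 1 / 12 * (2 * L) :=
      mul_le_mul hR1 (mul_le_mul_of_nonneg_right hph2 hL0.le) hphL (by norm_num)
    have h2 := mul_le_mul_of_nonneg_right heR hL0.le
    linarith
  refine ⟨Z, H, z1, fun ρ hρ => ⟨(z2 ρ hρ).1, ?_⟩, ?_, ?_, ?_, z6, fun s hs => ?_,
    fun s hs h1 => ?_⟩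
  · exact re_lt_one_of_ord ((ord_ne_zero_iff ξ ρ).2 (z2 ρ hρ).2)
  · exact (z3.trans hN).trans (le_mul_of_one_le_left hL0.le (by linarith))
  · refine z4.trans ?_
    have a1 : b / R ≤ e1 / 2 * L := by
      rw [div_le_iff₀ hR0]
      linarith
    have a2 : δ * (2 * b + 3 * R * (ph * L)) / R ^ 2 ≤ e1 / 2 * L := by
      rw [div_le_iff₀ (by positivity)]
      calc _ ≤ δ * L := mul_le_mul_of_nonneg_left hN hδ0.le
        _ = _ := by rw [hδ]; ring
    have a3 := mul_le_mul_of_nonneg_right he1ε hL0.le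
    linarith
  · refine z5.trans ?_
    calc _ ≤ 100 * L / δ := by gcongr
      _ = 100 / δ * L := by ring
      _ ≤ _ := mul_le_mul_of_nonneg_right (by linarith) hL0.le
  · refine (z8 s hs).trans (mul_le_mul_of_nonneg_right ?_ (norm_nonneg _))
    calc _ ≤ 100 * L / δ ^ 2 := by gcongr
      _ = 100 / δ ^ 2 * L := by ring
      _ ≤ _ := mul_le_mul_of_nonneg_right (by linarith) hL0.le
  · rw [jen_series ξ h1, ← z7 s hs (Lp_ne_zero ξ h1.le)]
    ring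

open Classical in
theorem ef_tri4 {p : ℕ → Prop} {ph0 : ℝ} (hTB : TBp p ph0) {e ε : ℝ} (he : 0 < e)
    (hε : 0 < ε) :
    ∃ δ η P0 : ℝ, 0 < δ ∧ δ ≤ 1 / 24 ∧ 0 < η ∧ 3 ≤ P0 ∧ ∀ P : ℝ, P0 ≤ P →
      ∀ (Q : ℕ) [NeZero Q] (ξ : DC Q) (ph γ : ℝ), p ξ.conductor → 0 ≤ ph → ph ≤ 2 →
        cd ξ ^ (ph0 + e) ≤ P ^ ph → |γ| ≤ P ^ η →
        ∃ (Z : Multiset ℂ) (h : ℂ),
          (∀ ρ, Z.count ρ = if ‖ρ - cc P γ‖ ≤ δ then ord ξ ρ else 0) ∧ h.re ≤ ph / 2 + ε ∧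
          ∀ u : ℝ, 0 ≤ u → u ≤ 8 →
            ‖∑ n ∈ Ioc 0 ⌊P ^ (8 : ℝ)⌋₊, ((mw P n * tri u (tt P n) : ℝ) : ℂ) *
                (exp (-((γ * Real.log P * tt P n : ℝ) : ℂ) * I) * pr ξ n) -
              (if ξ = 1 then II u (-(((γ * Real.log P : ℝ) : ℂ) * I)) else 0) +
              (Z.map fun ρ => II u (Real.log P * (ρ - 1) - (γ * Real.log P : ℝ) * I)).sum -
              u * h‖ ≤ ε := by
  obtain ⟨δ, η, M, P0, hδ, hδ', hη, hM, hP0, hpf⟩ := pf4 hTB he hε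
  obtain ⟨M1, L0, hM1, hlam⟩ := lambda_sum
  obtain ⟨Cp, hCp, hper⟩ := perron2
  have hr : 0 < δ / 2 := by positivity
  have tL := Real.tendsto_log_atTop
  have t3 : Tendsto (fun P : ℝ => (Real.sqrt (Real.log P))⁻¹) atTop (nhds 0) :=
    tendsto_inv_atTop_zero.comp (Real.tendsto_sqrt_atTop.comp tL)
  have t5 : Tendsto (fun P : ℝ => Cp * ((M + M1) / (δ / 2) ^ 2 * (Real.sqrt (Real.log P))⁻¹))
      atTop (nhds 0) := by
    simpa using (t3.const_mul ((M + M1) / (δ / 2) ^ 2)).const_mul Cp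
  have ev := (((tL.eventually_ge_atTop 1).and (tL.eventually_ge_atTop L0)).and
    ((tL.eventually_ge_atTop (δ / 2)⁻¹).and (t5.eventually_le_const hε)))
  obtain ⟨P1, hP1⟩ := eventually_atTop.1 ev
  refine ⟨δ, η, max P0 P1, hδ, hδ', hη, le_max_of_le_left hP0, ?_⟩
  intro P hP Q _ ξ ph γ hp0 h1 h2 h3 h4
  obtain ⟨⟨g1, g2⟩, g3, g5⟩ := hP1 P ((le_max_right _ _).trans hP)
  have hPP := (le_max_left _ _).trans hP
  have hPpos : 0 < P := by linarith
  obtain ⟨Z, H, z1, z2, z3, z4, z5, -, z7, z8⟩ := hpf P hPP Q ξ ph γ hp0 h1 h2 h3 h4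
  unfold mw tt
  unfold cc at z4 z5 z7 z8
  set L := Real.log P with hLd
  have hL : 0 < L := by linarith
  refine ⟨Z, H (((1 + 1 / L : ℝ) : ℂ) + γ * I) / L, z1, ?_, fun u hu hu8 => ?_⟩
  · rw [div_ofReal_re, div_le_iff₀ hL]
    exact z4
  have hz : ∀ φ : ℂ → ℂ, ((if ξ = 1 then 1 ::ₘ Z else Z).map
      fun ρ => (if ρ = 1 then 1 else -1) * φ ρ).sum =
        (if ξ = 1 then φ 1 else 0) - (Z.map φ).sum := by
    intro φ
    have a1 : (Z.map fun ρ => (if ρ = 1 then 1 else -1) * φ ρ).sum = -(Z.map φ).sum := by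
      rw [← Multiset.sum_map_neg]
      refine congrArg _ (Multiset.map_congr rfl fun ρ hρ => ?_)
      rw [if_neg, neg_one_mul]
      rintro rfl
      simpa using (z2 1 hρ).2
    split_ifs
    · rw [Multiset.map_cons, Multiset.sum_cons, a1, if_pos rfl, one_mul, sub_eq_add_neg]
    · rw [a1, zero_sub]
  obtain ⟨hs1, hs2⟩ := hlam L g2 g1
  have hle : ∀ n : ℕ, ‖pr ξ n * (vonMangoldt n : ℂ)‖ *
      (n : ℝ) ^ (-(1 + 1 / L)) ≤ vonMangoldt n * (n : ℝ) ^ (-(1 + 1 / L)) := by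
    intro n
    refine mul_le_mul_of_nonneg_right ?_ (Real.rpow_nonneg (Nat.cast_nonneg _) _)
    rw [norm_mul, Complex.norm_real, Real.norm_eq_abs, abs_of_nonneg vonMangoldt_nonneg]
    exact mul_le_of_le_one_left vonMangoldt_nonneg (norm_pr_le ξ n)
  have hsm : Summable fun n : ℕ => ‖pr ξ n * (vonMangoldt n : ℂ)‖ * (n : ℝ) ^ (-(1 + 1 / L)) :=
    Summable.of_nonneg_of_le (fun n => by positivity) hle hs1
  have hML : M * L ≤ (M + M1) * L := mul_le_mul_of_nonneg_right (by linarith) hL.le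
  have hp := hper (fun n => pr ξ n * (vonMangoldt n : ℂ)) L (M + M1) (δ / 2) γ u ⌊P ^ (8 : ℝ)⌋₊
    (if ξ = 1 then 1 ::ₘ Z else Z) (fun ρ => if ρ = 1 then 1 else -1)
    (H (((1 + 1 / L : ℝ) : ℂ) + γ * I)) g1 (by linarith) hr (by linarith)
    (by
      have := mul_le_mul_of_nonneg_left g3 hr.le
      rwa [mul_inv_cancel₀ hr.ne'] at this)
    hu hu8
    (by
      have e1 : Real.exp (L * 8) = P ^ (8 : ℝ) := (Real.rpow_def_of_pos hPpos _).symm
      have e2 : Real.exp (u * L) ≤ Real.exp (L * 8) := Real.exp_le_exp.2 (by nlinarith)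
      have e3 := Nat.lt_floor_add_one (P ^ (8 : ℝ))
      linarith)
    (fun ρ => by split_ifs <;> simp)
    (z5.trans hML)
    (by
      split_ifs
      · rw [Multiset.card_cons]
        push_cast
        nlinarith
      · exact z3.trans hML)
    (fun ρ hρ => by
      split_ifs at hρ
      · rcases Multiset.mem_cons.1 hρ with rfl | h
        · simp
        · exact (z2 ρ h).2.le
      · exact (z2 ρ hρ).2.le)
    hsm (((hsm.tsum_le_tsum hle hs1).trans hs2).trans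
      (mul_le_mul_of_nonneg_right (by linarith) hL.le))
    (by
      intro v hv
      have hre : 1 < ((((1 + 1 / L : ℝ) : ℂ) + v * I)).re := by simp [hL]
      have hn : ‖(((1 + 1 / L : ℝ) : ℂ) + v * I) - (((1 + 1 / L : ℝ) : ℂ) + γ * I)‖ = |v - γ| := by
        rw [add_sub_add_left_eq_sub, ← sub_mul, norm_mul, norm_I, mul_one, ← ofReal_sub,
          Complex.norm_real, Real.norm_eq_abs]
      have h6 := z7 _ (hn.trans_le hv)
      rw [hz fun ρ => 1 / (((1 + 1 / L : ℝ) : ℂ) + v * I - ρ), z8 _ (hn.trans_le hv) hre,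
        add_sub_cancel_left]
      rw [hn] at h6
      exact h6.trans (mul_le_mul_of_nonneg_right hML (abs_nonneg _)))
  rw [hz fun ρ => II u (L * (ρ - 1) - (γ * L : ℝ) * I), sub_self, mul_zero, zero_sub] at hp
  have e1 : ∑ n ∈ Ioc 0 ⌊P ^ (8 : ℝ)⌋₊, ((1 / (n * L) * tri u (Real.log n / L) : ℝ) : ℂ) *
      (exp (-((γ * Real.log n : ℝ) : ℂ) * I) * (pr ξ n * (vonMangoldt n : ℂ))) =
      ∑ n ∈ Ioc 0 ⌊P ^ (8 : ℝ)⌋₊, ((vonMangoldt n / (n * L) * tri u (Real.log n / L) : ℝ) : ℂ) *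
        (exp (-((γ * L * (Real.log n / L) : ℝ) : ℂ) * I) * pr ξ n) := by
    refine Finset.sum_congr rfl fun n _ => ?_
    rw [show γ * L * (Real.log n / L) = γ * Real.log n by field_simp]
    push_cast
    ring
  rw [e1, ← sub_add] at hp
  refine hp.trans (le_trans (le_of_eq ?_) g5)
  rw [← div_div, div_eq_mul_inv _ (Real.sqrt L)]

open Classical in
theorem ef_tst4 {p : ℕ → Prop} {ph0 : ℝ} (hTB : TBp p ph0) {e ε : ℝ} (he : 0 < e)
    (hε : 0 < ε) :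
    ∃ δ η P0 : ℝ, 0 < δ ∧ δ ≤ 1 / 24 ∧ 0 < η ∧ 3 ≤ P0 ∧ ∀ P : ℝ, P0 ≤ P →
      ∀ (Q : ℕ) [NeZero Q] (ξ : DC Q) (ph γ : ℝ), p ξ.conductor → 0 ≤ ph → ph ≤ 2 →
        cd ξ ^ (ph0 + e) ≤ P ^ ph → |γ| ≤ P ^ η →
        ∃ (Z : Multiset ℂ) (h : ℂ),
          (∀ ρ, Z.count ρ = if ‖ρ - cc P γ‖ ≤ δ then ord ξ ρ else 0) ∧ h.re ≤ ph / 2 + ε ∧
          ∀ (T B : ℝ) (g : ℝ → ℝ), 0 ≤ T → T ≤ 8 → Tst T B g →
            ‖∑ n ∈ Ioc 0 ⌊P ^ (8 : ℝ)⌋₊, ((mw P n * cut g T (tt P n) : ℝ) : ℂ) *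
                (exp (-((γ * Real.log P * tt P n : ℝ) : ℂ) * I) * pr ξ n) -
              (if ξ = 1 then Lap g T (-(((γ * Real.log P : ℝ) : ℂ) * I)) else 0) +
              (Z.map fun ρ => Lap g T (Real.log P * (ρ - 1) - (γ * Real.log P : ℝ) * I)).sum -
              g 0 * h‖ ≤ ε * B := by
  obtain ⟨δ, η, P0, hδ, hδ', hη, hP0, h⟩ := ef_tri4 hTB he (show 0 < ε / 9 by positivity)
  refine ⟨δ, η, P0, hδ, hδ', hη, hP0, ?_⟩
  intro P hP Q _ ξ ph γ hp0 h1 h2 h3 h4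
  obtain ⟨Z, h0, z1, z2, z3⟩ := h P hP Q ξ ph γ hp0 h1 h2 h3 h4
  refine ⟨Z, h0, z1, by linarith, ?_⟩
  rintro T B g hT hT8 ⟨g1, g2, d1, d2, hc, hgT, hB, hB2⟩
  have m := c1_master (ε := ε / 9) hT hT8 g2 _ hB hB2 fun t ht htT => z3 t ht (htT.trans hT8)
  have htt : ∀ n : ℕ, 0 ≤ tt P n := fun n =>
    div_nonneg (Real.log_natCast_nonneg n) (Real.log_nonneg (by linarith))
  rw [clb_sum_rep hT g g1 g2 d1 d2 hc hgT _ _ _ htt, clb_mult_rep hT g g1 g2 d1 d2 hc hgT,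
    clb_ite_rep hT g g1 g2 d1 d2 hc hgT, c1_zero_rep hT g g1 g2 d1 d2 hc hgT]
  have k1 := clb_sum_cont (Ioc 0 ⌊P ^ (8 : ℝ)⌋₊) (mw P) (tt P)
    fun n => exp (-((γ * Real.log P * tt P n : ℝ) : ℂ) * I) * pr ξ n
  have k2 := clb_mult_cont Z fun ρ => Real.log P * (ρ - 1) - (γ * Real.log P : ℝ) * I
  have k3 := clb_ite_cont (ξ = 1) (-(((γ * Real.log P : ℝ) : ℂ) * I))
  refine le_trans (le_of_eq (congrArg _ ?_)) (m.trans (le_of_eq (by ring)))
  exact clb_comb hc k1 k3 k2 _ _ _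

end Pool.Agent.Lib.MP_778b46_nt.GX
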