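import Pool.Agent.Lib.MP_778b46_nt.GX.T4a
import Pool.Agent.Lib.MP_778b46_nt.GX.MoW

set_option autoImplicit false

/- The mollifier inequality for a restricted class of conductors. -/

namespace Pool.Agent.Lib.MP_778b46_nt.GX

open Complex Finset Filter

/-- `TB` for conductors with the property `pp`. -/
def TBq (pp : ℕ → Prop) (ph0 : ℝ) : Prop :=
  ∀ ε : ℝ, 0 < ε → ∃ th C : ℝ, 0 < th ∧ th ≤ 1 / 2 ∧ 1 ≤ C ∧
    ∀ (Q : ℕ) [NeZero Q] (ξ : DC Q), pp ξ.conductor → ξ ≠ 1 →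
      ∀ r : ℕ, 1 ≤ r → ∀ x : ℝ, 1 ≤ x →
      ‖∑ n ∈ (Ioc 0 ⌊x⌋₊).filter (fun n => n.Coprime r), pr ξ n‖ ≤
        C * x ^ (1 - th) * (cd ξ ^ ph0 * (cd ξ * r) ^ ε) ^ th

/-- `MOL` for conductors with the property `pp`. -/
def MOLq (pp : ℕ → Prop) (ph0 : ℝ) : Prop :=
  ∀ (p : MP) (ph ph' f ε1 : ℝ), p.ok ph ph' → ph0 < ph → 0 ≤ f → f * ph0 < ph' → 0 < ε1 →
    ∃ η ε2 P0 : ℝ, 0 < η ∧ 0 < ε2 ∧ ∀ P : ℝ, P0 ≤ P →
      ∀ (Q : ℕ) [NeZero Q] (ι : Type) [Fintype ι] (χ : ι → DC Q) (ρ : ι → ℂ) (lmin : ℝ),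
        (∀ j, pp (χ j).conductor) → (∀ j k, pp (χ j / χ k).conductor) → Sub χ ρ → 0 ≤ lmin →
        (∀ j, χ j ≠ 1 ∧ cd (χ j) ≤ P ∧ lmin ≤ lam P (ρ j) ∧ lam P (ρ j) ≤ ε2 * Real.log P ∧
          |(ρ j).im| ≤ P ^ η) →
        (∀ j k, cd (χ j / χ k) ≤ P ^ f) →
        ∑ j, p.m ph lmin (lam P (ρ j)) ≤ 1 + ε1

theorem TB.q {ph0 : ℝ} (h : TB ph0) (pp : ℕ → Prop) : TBq pp ph0 := fun ε hε => by
  obtain ⟨θ, C, a, b, c, d⟩ := h ε hε
  exact ⟨θ, C, a, b, c, fun Q _ ξ _ => d Q ξ⟩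

theorem TBq.p {pp : ℕ → Prop} {ph0 : ℝ} (h : TBq pp ph0) : TBp pp ph0 := fun ε hε => by
  obtain ⟨θ, C, a, b, c, d⟩ := h ε hε
  refine ⟨θ, C, a, b, c, fun Q _ ξ hp h1 x hx => ?_⟩
  have h3 := d Q ξ hp h1 1 le_rfl x hx
  rwa [filter_true_of_mem (fun n _ => Nat.coprime_one_right n), Nat.cast_one, mul_one,
    ← Real.rpow_add (zero_lt_one.trans_le (Mo.one_le_cd ξ))] at h3

theorem tbq_quarter (B0 : ℕ) : TBq (NC B0) (1 / 4) := by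
  intro ε hε
  obtain ⟨θ, C, t0, t2, hC, h⟩ := Bu.prim4' weil_any B0 ε hε
  obtain ⟨C', hC', hd⟩ := MP_2a1a00_nt.card_divisors_le (ε * θ) (by positivity)
  have hC1 : 1 ≤ C' := by simpa using hd 1
  refine ⟨θ, C * C', t0, t2, one_le_mul_of_one_le_of_one_le hC hC1,
    fun q _ ξ hp h1 r hr x hx => ?_⟩
  have hψ : ξ.primitiveCharacter ≠ 1 := fun h0 => h1 (by
    rw [← ξ.changeLevel_primitiveCharacter, h0, map_one])
  have hr0 : (0 : ℝ) < r := by exact_mod_cast hr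
  have hf0 : (0 : ℝ) < ξ.conductor := by exact_mod_cast NeZero.pos ξ.conductor
  unfold pr cd
  set B := C * x ^ (1 - θ) * ((ξ.conductor : ℝ) ^ (1 / 4 + ε)) ^ θ with hB
  have e1 : ‖∑ n ∈ (Ioc 0 ⌊x⌋₊).filter (fun n => n.Coprime r),
      ξ.primitiveCharacter (n : ZMod ξ.conductor)‖ ≤ 2 ^ r.primeFactors.card * B := by
    rw [MP_c03ca8_nt.Q.char_sum_ie hr fun k => ξ.primitiveCharacter k]
    refine (norm_sum_le _ _).trans ((sum_le_sum (g := fun _ => B) fun E _ => ?_).trans (by simp))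
    simp_rw [Nat.cast_mul, map_mul]
    rw [← mul_sum, norm_mul, norm_mul, norm_pow, norm_neg, norm_one, one_pow, one_mul, Nat.zero_div]
    refine (mul_le_of_le_one_left (norm_nonneg _) (DirichletCharacter.norm_le_one _ _)).trans
      ((h _ _ ξ.primitiveCharacter_isPrimitive hp hψ _).trans ?_)
    have : ((⌊x⌋₊ / ∏ p ∈ E, p : ℕ) : ℝ) ≤ x :=
      (Nat.cast_le.2 (Nat.div_le_self _ _)).trans (Nat.floor_le (by linarith))
    have t3 : 0 ≤ 1 - θ := by linarith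
    rw [hB]
    gcongr
  have e2 : (2 : ℝ) ^ r.primeFactors.card ≤ C' * ((r : ℝ) ^ ε) ^ θ := by
    rw [← Real.rpow_mul hr0.le]
    exact (Bu.buf_pow r (by omega)).trans (hd r)
  have hx0 : 0 ≤ x ^ (1 - θ) := Real.rpow_nonneg (by linarith) _
  refine e1.trans ((mul_le_mul_of_nonneg_right e2 (by positivity)).trans (le_of_eq ?_))
  rw [Real.mul_rpow hf0.le hr0.le, ← mul_assoc ((ξ.conductor : ℝ) ^ (1 / 4 : ℝ)),
    ← Real.rpow_add hf0, Real.mul_rpow (by positivity) (by positivity), hB]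
  ring

namespace Mo

theorem pb4 {pp : ℕ → Prop} {ph0 ph ph' f : ℝ} (h0 : 0 < ph0) (hTB : TBq pp ph0)
    (h1 : ph0 < ph) (hf : 0 ≤ f)
    (h2 : f * ph0 < ph') : ∃ e₀ θ C : ℝ, 0 < e₀ ∧ e₀ ≤ ph ∧ e₀ ≤ ph' ∧ 0 < θ ∧ θ ≤ 1 ∧ 1 ≤ C ∧
    ∀ L : ℝ, 0 ≤ L → ∀ (Q : ℕ) [NeZero Q] (χ : DC Q), cd χ ≤ Real.exp L →
      (pp χ.conductor → χ ≠ 1 → Pb (pr χ) 0 C θ (Real.exp ((ph - e₀) * L))) ∧
      ∀ ψ : DC Q, cd ψ ≤ Real.exp L → ψ ≠ χ → pp (χ / ψ).conductor →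
        cd (χ / ψ) ≤ Real.exp (f * L) →
        Pb (fun n => pr χ n * starRingEnd ℂ (pr ψ n)) 0 C θ (Real.exp ((ph' - e₀) * L)) := by
  have h3 := mul_nonneg hf h0.le
  obtain ⟨g, g0, g1, g2⟩ : ∃ g : ℝ, 0 < g ∧ 2 * g ≤ ph - ph0 ∧ 2 * g ≤ ph' - f * ph0 :=
    ⟨min (ph - ph0) (ph' - f * ph0) / 2, half_pos (lt_min (by linarith) (by linarith)),
      by linarith [min_le_left (ph - ph0) (ph' - f * ph0)],
      by linarith [min_le_right (ph - ph0) (ph' - f * ph0)]⟩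
  obtain ⟨ε, e0, e1⟩ : ∃ ε : ℝ, 0 < ε ∧ (f + 2) * ε = g :=
    ⟨g / (f + 2), by positivity, by field_simp⟩
  obtain ⟨θ, C, t0, t1, hC, h⟩ := hTB ε e0
  have key : ∀ (L a b c : ℝ) (Q : ℕ) [NeZero Q] (ξ : DC Q) (r : ℕ), 0 ≤ L → pp ξ.conductor →
      ξ ≠ 1 → 1 ≤ r →
      cd ξ ≤ Real.exp (a * L) → (r : ℝ) ≤ Real.exp (b * L) → a * ph0 + (a + b) * ε ≤ c →
      Pb (fun n => if n.Coprime r then pr ξ n else 0) 0 C θ (Real.exp (c * L)) := by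
    intro L a b c Q _ ξ r hL hp h1 hr ha hb hc
    have := one_le_cd ξ
    refine Pb.mono (y := cd ξ ^ ph0 * (cd ξ * r) ^ ε) (fun x hx => ?_) (by linarith) t0.le
      (by positivity) ?_
    · rw [zero_mul, sub_zero, ← sum_filter]
      exact h Q ξ hp h1 r hr x hx
    · calc _ ≤ Real.exp (a * L) ^ ph0 * (Real.exp (a * L) * Real.exp (b * L)) ^ ε := by gcongr
        _ = Real.exp ((a * ph0 + (a + b) * ε) * L) := by
          rw [← Real.exp_add, ← Real.exp_mul, ← Real.exp_mul, ← Real.exp_add]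
          congr 1
          ring
        _ ≤ _ := by gcongr
  refine ⟨g, θ, C, g0, by linarith, by linarith, t0, by linarith, hC, fun L hL Q _ χ hχ =>
    ⟨fun hp h1 => ?_, fun ψ hψ h1 hp h2 => ?_⟩⟩
  · simpa using key L 1 0 (ph - g) Q χ 1 hL hp h1 le_rfl (by simpa using hχ) (by simp)
      (by nlinarith [mul_nonneg hf e0.le])
  · simp only [pr_mul_conj]
    refine key L f 2 (ph' - g) Q _ _ hL hp (div_ne_one.2 h1.symm) NeZero.one_le h2 ?_ (by linarith)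
    rw [two_mul, Real.exp_add, Nat.cast_mul]
    exact mul_le_mul hχ hψ (Nat.cast_nonneg _) (Real.exp_pos _).le

theorem mol4 {pp : ℕ → Prop} {ph0 : ℝ} (h0 : 0 < ph0) (hTB : TBq pp ph0) : MOLq pp ph0 := by
  classical
  intro p ph ph' f ε1 hp h1 hf h2 hε
  obtain ⟨e₀, θ, C, e0, e1, e2, t0, t1, hC, hPb⟩ := pb4 h0 hTB h1 hf h2
  have hσ : 0 < p.sg := hp.2.2.2.2.2.2.2
  obtain ⟨η₁, n1, H1⟩ := mol_abs p hp e0 e1 e2 t0 t1 hC hε
  obtain ⟨η₂, n2, H2⟩ := local_count t0 t1 hC (sub_nonneg.2 e1) hσ (half_pos e0)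
  obtain ⟨L0, hL0⟩ := eventually_atTop.1 ((H1.and H2).and (eventually_gt_atTop 0))
  clear H1 H2
  obtain ⟨η, n0, n3, n4, n5⟩ : ∃ η : ℝ, 0 < η ∧ η ≤ η₁ ∧ η ≤ η₂ ∧ η < 1 :=
    ⟨min (min η₁ η₂) (1 / 2), by positivity, (min_le_left _ _).trans (min_le_left _ _),
      (min_le_left _ _).trans (min_le_right _ _), (min_le_right _ _).trans_lt one_half_lt_one⟩
  refine ⟨η, η, Real.exp L0, n0, n0, fun P hP Q _ ι _ χ ρ lmin q1 q2 hS hl hj hjk => ?_⟩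
  obtain ⟨L, rfl⟩ : ∃ L, P = Real.exp L := ⟨_, (Real.exp_log ((Real.exp_pos _).trans_le hP)).symm⟩
  obtain ⟨⟨H1, H2⟩, hL⟩ := hL0 L (Real.exp_le_exp.1 hP)
  simp only [lam, Real.log_exp, ← Real.exp_mul, mul_comm L] at hj hjk ⊢
  have hb : ∀ η', η ≤ η' → ∀ j, (1 - (ρ j).re) * L ≤ η' * L ∧ |(ρ j).im| ≤ Real.exp (η' * L) :=
    fun η' h j => ⟨(hj j).2.2.2.1.trans (by gcongr), (hj j).2.2.2.2.trans (by gcongr)⟩
  have ho : ∀ j z, cnt χ ρ (χ j) z ≤ analyticOrderNatAt (χ j).primitiveCharacter.LFunction z :=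
    fun j z => by simpa only [ord, Lp, Lf, if_neg (prim_ne_one (hj j).1)] using hS (χ j) z
  have H := H1 ι (DC Q) χ (fun j => pr (χ j)) ρ (fun j => (1 - (ρ j).re) * L)
    (fun j => ph / 2 + 1 / (p.sg + (1 - (ρ j).re) * L)) lmin (fun j => pr_mul _)
    (fun j => pr_one _) (fun j => norm_pr_le _) (fun j k h => by rw [h])
    (fun j => (hPb L hL.le Q _ (hj j).2.1).1 (q1 j) (hj j).1)
    (fun j k h => (hPb L hL.le Q _ (hj j).2.1).2 _ (hj k).2.1 h (q2 j k) (hjk j k))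
    (fun j => by
      have a1 := Pool.Agent.Lib.MP_e97e2b_nt.Ln.lfun_tendsto _ (prim_ne_one (hj j).1) (s := ρ j)
        (by nlinarith [(hj j).2.2.2.1])
      rwa [apply_eq_zero_of_analyticOrderNatAt_ne_zero (Nat.pos_iff_ne_zero.1
        ((card_pos.2 ⟨j, by simp⟩).trans_le (ho j (ρ j))))] at a1)
    hl (fun j => ⟨rfl, (hj j).2.2.1, hb _ n3 j⟩) fun j => ⟨by
      have := hl.trans (hj j).2.2.1
      have := h0.trans h1
      positivity, by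
      refine (H2 _ _ (prim_ne_one (hj j).1) ((hPb L hL.le Q _ (hj j).2.1).1 (q1 j) (hj j).1) ι
        (univ.filter fun k => χ k = χ j) ρ (fun j => (1 - (ρ j).re) * L) (fun z => ?_)
        (fun k _ => ⟨rfl, hl.trans (hj k).2.2.1, hb _ n4 k⟩) j (by simp)).trans_eq (by ring)
      rw [filter_filter]
      refine le_of_eq_of_le ?_ (ho j z)
      unfold cnt
      congr⟩
  have hΔ : 0 < Real.exp (p.sg * p.v) - Real.exp (p.sg * p.u) :=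
    sub_pos.2 (Real.exp_lt_exp.2 (mul_lt_mul_of_pos_left hp.2.2.2.2.1 hσ))
  rw [Gm, one_div, inv_mul_eq_div, le_div_iff₀ hΔ, sum_mul] at H
  refine le_trans (le_of_eq (sum_congr rfl fun j _ => ?_)) H
  rw [div_mul_eq_mul_div]
  rfl

end Mo

end Pool.Agent.Lib.MP_778b46_nt.GX
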