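import Pool.Agent.Lib.MP_778b46_nt.GX.T4c
import Pool.Agent.Lib.MP_778b46_nt.GX.T4d
import Pool.Agent.Lib.MP_778b46_nt.GX.ClE
import Pool.Agent.Lib.MP_778b46_nt.GX.ClF

set_option autoImplicit false

/- The sieve inequality and the explicit inequality for a restricted class of conductors. -/

namespace Pool.Agent.Lib.MP_778b46_nt.GX

open Complex Finset Filter ArithmeticFunction
open Pool.Agent.Lib.MP_e97e2b_nt.Ln hiding Dat Clean

open Classical in
theorem cle_core4 {pp : ℕ → Prop} {ph0 φ ε : ℝ} (h0 : 0 < ph0) (hTB : TBq pp ph0)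
    (hφ : ph0 < φ) (hε : 0 < ε) :
    ∃ η : ℝ, 0 < η ∧ ∀ᶠ L : ℝ in atTop,
      ∀ (Q : ℕ) [NeZero Q] (ι : Type) [Fintype ι] (χ : ι → DC Q) (γ : ι → ℝ),
        (∀ j, cd (χ j) ≤ Real.exp L ∧ |γ j| ≤ Real.exp (η * L)) →
        (∀ j k, cd (χ j / χ k) ≤ Real.exp L) → (∀ j k, pp (χ j / χ k).conductor) →
        ∀ (a : ι → ℝ) (τ τ' w α β : ℝ) (S : Finset ℕ), 0 < w → φ + 2 * w ≤ τ → τ ≤ τ' →
          τ' ≤ 8 → 0 ≤ α + β * τ → 0 ≤ α + β * τ' →
          S ⊆ Ioc ⌊Real.exp (τ * L)⌋₊ ⌊Real.exp (τ' * L)⌋₊ →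
          ∑ n ∈ S, vonMangoldt n / (n * L) * (α + β * (Real.log n / L)) * ‖∑ j, (a j : ℂ) *
                (exp (-((γ j * L * (Real.log n / L) : ℝ) : ℂ) * I) * pr (χ j) n)‖ ^ 2 ≤
            τ' / w * (∑ j, ∑ k ∈ univ.filter (fun k => χ k = χ j), a j * a k *
                ∫ t in τ..τ', (α + β * t) * Real.cos ((γ j * L - γ k * L) * t)) +
              ε * (|α| + |β|) * (∑ j, |a j|) ^ 2 := by
  obtain ⟨e₀, θ, C, e0, e1, -, t0, t1, hC, hPb⟩ :=
    Mo.pb4 h0 hTB hφ zero_le_one (ph' := φ) (by linarith)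
  obtain ⟨η, n0, H⟩ := Mo.selsum t0 t1 hC e0 e1 (ε := ε / 16) (by positivity)
  obtain ⟨C1, hC1⟩ := clc_nonprime
  refine ⟨η / 2, half_pos n0, ?_⟩
  filter_upwards [H, eventually_gt_atTop 0, eventually_ge_atTop (16 * |C1| / ε),
    eventually_ge_atTop (2 / η)] with L H hL hL1 hL2 Q _ ι _ χ γ hj hjk q2 a τ τ' w α β S hw h1 h2
    h3 h4 h5 hS
  obtain ⟨B, G, hG, hB, H⟩ := H w hw
  have hφ0 : 0 < φ := h0.trans hφ
  have hlin : ∀ t, τ ≤ t → t ≤ τ' → 0 ≤ α + β * t := fun t a b => by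
    rcases le_total 0 β with h | h <;> nlinarith
  set T := Ioc ⌊Real.exp (τ * L)⌋₊ ⌊Real.exp (τ' * L)⌋₊ with hT
  have hmem : ∀ n ∈ T, 0 < n ∧ Real.exp (τ * L) < n ∧ τ ≤ Real.log n / L ∧
      Real.log n / L ≤ τ' := fun n hn => by
    obtain ⟨a1, a2⟩ := mem_Ioc.1 hn
    have b1 : Real.exp (τ * L) < n := (Nat.floor_lt (Real.exp_pos _).le).1 a1
    have b2 : (n : ℝ) ≤ Real.exp (τ' * L) := (Nat.le_floor_iff (Real.exp_pos _).le).1 a2
    have b3 : (0 : ℝ) < n := (Real.exp_pos _).trans b1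
    exact ⟨by omega, b1, (le_div_iff₀ hL).2 ((Real.lt_log_iff_exp_lt b3).2 b1).le,
      (div_le_iff₀ hL).2 ((Real.log_le_iff_le_exp b3).2 b2)⟩
  have hγ : ∀ j k, |γ j - γ k| ≤ Real.exp (η * L) := fun j k => by
    have a1 : 2 ≤ Real.exp (η / 2 * L) := by
      have := Real.add_one_le_exp (η / 2 * L)
      have := (div_le_iff₀ n0).1 hL2
      linarith
    have a2 : Real.exp (η * L) = Real.exp (η / 2 * L) * Real.exp (η / 2 * L) := by
      rw [← Real.exp_add]
      congr 1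
      ring
    have := abs_sub (γ j) (γ k)
    nlinarith [(hj j).2, (hj k).2]
  set W : ℕ → ℝ := fun n => B n ^ 2 * (α + β * (Real.log n / L)) * (n : ℝ)⁻¹ with hW
  have hW0 : ∀ n ∈ T, 0 ≤ W n := fun n hn => by
    have := hlin _ (hmem n hn).2.2.1 (hmem n hn).2.2.2
    positivity
  set e : ι → ℕ → ℂ := fun j n => exp (-((γ j * L * (Real.log n / L) : ℝ) : ℂ) * I) with he
  have hsum : ∀ (f : ℕ → ℂ) (j k : ι), ∑ n ∈ T, (W n : ℂ) * (f n * (e j n * starRingEnd ℂ (e k n))) =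
      ∑ n ∈ T, ((B n ^ 2 : ℝ) : ℂ) * (f n * (n : ℂ) ^ (-(1 + ((γ j - γ k : ℝ) : ℂ) * I)) *
        ((α + β * (Real.log n / L) : ℝ) : ℂ)) := fun f j k => sum_congr rfl fun n hn => by
    rw [cle_pow (hmem n hn).1 hL]
    simp only [hW, he, ofReal_mul]
    ring
  have hq := cle_quad T W hW0 χ (fun j => pr (χ j)) e (fun j k h => by rw [h])
    (fun j n => norm_pr_le _ n) a
    (fun j k => L / G * ∫ t in τ..τ', (α + β * t) * Real.cos ((γ j * L - γ k * L) * t))
    (ε / 16 * (|α| + |β|)) (fun j k => by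
      have a1 := H (fun _ => 1) 1 (by simp) (by simp) (by simp) (by simp)
        (Mo.Pb_one hC t0.le t1 (Real.one_le_exp (mul_nonneg (sub_nonneg.2 e1) hL.le)))
        τ τ' α β (γ j - γ k) h1 h2 h3 (hγ j k)
      rw [← hsum (fun _ => 1) j k] at a1
      refine le_of_eq_of_le ?_ ((abs_re_le_norm _).trans a1)
      simp only [one_mul, sub_re, re_ofReal_mul]
      congr 3
      rw [← reCLM_apply, ← reCLM.intervalIntegral_comp_comm
        ((by fun_prop : Continuous _).intervalIntegrable _ _)]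
      refine intervalIntegral.integral_congr fun t _ => ?_
      simp only [reCLM_apply, re_ofReal_mul, ← neg_mul, cle_cos, sub_mul])
    (fun j k hne => by
      have a1 := H (fun n => pr (χ j) n * starRingEnd ℂ (pr (χ k) n)) 0
        (fun m n => by simp only [pr_mul, map_mul]; ring)
        (fun n => by
          rw [norm_mul, RCLike.norm_conj]
          exact mul_le_one₀ (norm_pr_le _ n) (norm_nonneg _) (norm_pr_le _ n))
        (by simp) (by simp)
        ((hPb L hL.le Q _ (hj j).1).2 _ (hj k).1 hne (q2 j k) (by simpa using hjk j k))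
        τ τ' α β (γ j - γ k) h1 h2 h3 (hγ j k)
      rwa [zero_mul, sub_zero, ← hsum] at a1)
  have hF := cle_int χ a (fun j => γ j * L) h2 hlin
  set A := ∑ j, |a j| with hA
  set K := |α| + |β| with hK
  have hK0 : 0 ≤ K := by positivity
  have hτ : 0 < τ := by linarith
  have hpt : ∀ n ∈ T, vonMangoldt n / (n * L) * (α + β * (Real.log n / L)) *
      ‖∑ j, (a j : ℂ) * (e j n * pr (χ j) n)‖ ^ 2 ≤
      τ' * (W n * ‖∑ j, (a j : ℂ) * (e j n * pr (χ j) n)‖ ^ 2) +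
        8 * K * A ^ 2 / L * if ¬n.Prime then vonMangoldt n / n else 0 := fun n hn => by
    obtain ⟨a1, a2, a3, a4⟩ := hmem n hn
    have a5 := hlin _ a3 a4
    have a6 := hW0 n hn
    have a7 : (0 : ℝ) < n := Nat.cast_pos.2 a1
    split_ifs with hp
    · have a8 : B n = 1 := hB n hp (lt_of_le_of_lt (by gcongr; linarith) a2)
      rw [mul_zero, add_zero, ← mul_assoc, vonMangoldt_apply_prime hp]
      refine mul_le_mul_of_nonneg_right ?_ (sq_nonneg _)
      calc _ = Real.log n / L * W n := by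
            simp only [hW, a8]
            field_simp
        _ ≤ _ := mul_le_mul_of_nonneg_right a4 a6
    · have a8 : ‖∑ j, (a j : ℂ) * (e j n * pr (χ j) n)‖ ≤ A := by
        refine norm_sum_le_of_le _ fun j _ => ?_
        rw [norm_mul, norm_mul, norm_real, Real.norm_eq_abs, he]
        simp only [← ofReal_neg, norm_exp_ofReal_mul_I, one_mul]
        exact mul_le_of_le_one_right (abs_nonneg _) (norm_pr_le _ n)
      have a9 : α + β * (Real.log n / L) ≤ 8 * K := by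
        have := le_abs_self α
        have := le_abs_self β
        have := abs_nonneg α
        have := abs_nonneg β
        nlinarith
      have b1 : 0 ≤ vonMangoldt n := vonMangoldt_nonneg
      refine le_add_of_nonneg_of_le (mul_nonneg (by linarith) (by positivity)) ?_
      calc _ ≤ vonMangoldt n / (n * L) * (8 * K) * A ^ 2 := by gcongr
        _ = _ := by field_simp
  have hnp : ∑ n ∈ T, (if ¬n.Prime then vonMangoldt n / n else 0 : ℝ) ≤ |C1| := by
    rw [← sum_filter]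
    refine le_trans (sum_le_sum_of_subset_of_nonneg (filter_subset_filter _ fun n hn => ?_)
      fun n _ _ => div_nonneg vonMangoldt_nonneg (Nat.cast_nonneg _))
      ((hC1 ⌊Real.exp (τ' * L)⌋₊).trans (le_abs_self _))
    exact mem_Icc.2 ⟨(hmem n hn).1, (mem_Ioc.1 hn).2⟩
  refine (sum_le_sum_of_subset_of_nonneg hS fun n hn _ => ?_).trans ((sum_le_sum hpt).trans ?_)
  · have := hlin _ (hmem n hn).2.2.1 (hmem n hn).2.2.2
    have : 0 ≤ vonMangoldt n := vonMangoldt_nonneg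
    positivity
  rw [sum_add_distrib, ← mul_sum, ← mul_sum]
  simp only [mul_left_comm _ (L / G), ← mul_sum] at hq
  set F := ∑ j, ∑ k ∈ univ.filter (fun k => χ k = χ j), a j * a k *
    ∫ t in τ..τ', (α + β * t) * Real.cos ((γ j * L - γ k * L) * t) with hF'
  have hG0 : 0 < G := (mul_pos hw hL).trans_le hG
  have c1 : L / G ≤ 1 / w := by
    rw [div_le_div_iff₀ hG0 hw]
    linarith
  have c2 : 8 * K * A ^ 2 / L * |C1| ≤ ε / 2 * K * A ^ 2 := by
    have := (div_le_iff₀ hε).1 hL1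
    rw [div_mul_eq_mul_div, div_le_iff₀ hL]
    nlinarith [mul_nonneg hK0 (sq_nonneg A)]
  have c3 : τ' * (ε / 16 * K * A ^ 2) ≤ ε / 2 * K * A ^ 2 := by
    nlinarith [mul_nonneg hε.le (mul_nonneg hK0 (sq_nonneg A))]
  have c4 : τ' * (L / G * F) ≤ τ' / w * F := by
    rw [← mul_assoc, div_eq_mul_one_div τ']
    have : 0 ≤ τ' := by linarith
    gcongr
  have c5 := mul_le_mul_of_nonneg_left hq (show 0 ≤ τ' by linarith)
  have c6 := mul_le_mul_of_nonneg_left hnp (show 0 ≤ 8 * K * A ^ 2 / L by positivity)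
  rw [mul_add] at c5
  linarith

open Classical in
theorem sv_om4 {pp : ℕ → Prop} {ph0 φ ε : ℝ} (h0 : 0 < ph0) (hTB : TBq pp ph0) (hp1 : pp 1)
    (hφ : ph0 < φ) (hε : 0 < ε) :
    ∃ η P0 : ℝ, 0 < η ∧ 3 ≤ P0 ∧ ∀ P : ℝ, P0 ≤ P →
      ∀ (Q : ℕ) [NeZero Q] (q : ℕ) (ι : Type) [Fintype ι] (χ : ι → DC Q) (γ : ι → ℝ),
        (∀ j, χ j ≠ 1 ∧ cd (χ j) ≤ P ∧ |γ j| ≤ P ^ η) → (∀ j k, cd (χ j / χ k) ≤ P) →
        (∀ j, pp (χ j).conductor) → (∀ j k, pp (χ j / χ k).conductor) →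
        ∀ (a : ι → ℝ) (c τ τ' w α β : ℝ), (∀ j, 0 ≤ a j) → 0 < w → φ + 2 * w ≤ τ → τ ≤ τ' →
          τ' ≤ 8 → 0 ≤ α + β * τ → 0 ≤ α + β * τ' →
          ∑ n ∈ (Om P q).filter (fun n => τ < tt P n ∧ tt P n ≤ τ'),
              mw P n * (α + β * tt P n) * ‖(c : ℂ) + ∑ j, (a j : ℂ) *
                (exp (-((γ j * Real.log P * tt P n : ℝ) : ℂ) * I) * pr (χ j) n)‖ ^ 2 ≤
            τ' / w * (c ^ 2 * (∫ t in τ..τ', (α + β * t)) +
              ∑ j, ∑ k ∈ univ.filter (fun k => χ k = χ j), a j * a k *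
                ∫ t in τ..τ', (α + β * t) *
                  Real.cos ((γ j * Real.log P - γ k * Real.log P) * t)) +
              ε * (|α| + |β|) * (|c| + ∑ j, a j) ^ 2 := by
  obtain ⟨η, n0, H⟩ := cle_core4 h0 hTB hφ hε
  obtain ⟨L0, hL0⟩ := eventually_atTop.1 H
  refine ⟨η, max 3 (Real.exp L0), n0, le_max_left _ _, fun P hP Q _ q ι _ χ γ hj hjk q1 q2
    a c τ τ' w α β ha hw h1 h2 h3 h4 h5 => ?_⟩
  have hP3 : 3 ≤ P := (le_max_left _ _).trans hP
  have hP0 : 0 < P := by linarith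
  have hpow : ∀ u : ℝ, Real.exp (u * Real.log P) = P ^ u := fun u => by
    rw [Real.rpow_def_of_pos hP0, mul_comm]
  have H := hL0 (Real.log P) ((Real.le_log_iff_exp_le hP0).2 ((le_max_right _ _).trans hP)) Q
    (Option ι) (fun o => o.elim 1 χ) (fun o => o.elim 0 γ) (fun o => by
      rw [Real.exp_log hP0, hpow]
      cases o with
      | none => exact ⟨by simp only [Option.elim, cd_one]; linarith, by
          simp only [Option.elim, abs_zero]; positivity⟩
      | some j => exact (hj j).2) (fun o o' => by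
      rw [Real.exp_log hP0]
      cases o <;> cases o' <;> simp only [Option.elim, div_one, one_div, cd_inv, cd_one]
      exacts [by linarith, (hj _).2.1, (hj _).2.1, hjk _ _])
    (fun o o' => by
      cases o <;> cases o' <;> simp only [Option.elim, div_one, one_div,
        DirichletCharacter.conductor_inv, DirichletCharacter.conductor_one]
      exacts [hp1, q1 _, q1 _, q2 _ _])
    (fun o => o.elim c a) τ τ' w α β ((Om P q).filter fun n => τ < tt P n ∧ tt P n ≤ τ') hw h1 h2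
    h3 h4 h5 (by
      rw [hpow, hpow]
      exact (om_filter hP3 q (u := τ) (by linarith) h3).subset.trans (filter_subset _ _))
  simp only [sum_filter, Fintype.sum_option, Option.elim, pr_triv, fun j => (hj j).1,
    fun j => (hj j).1.symm, abs_of_nonneg (ha _), if_true, if_false, zero_mul, sub_self,
    Real.cos_zero, mul_one, ofReal_zero, neg_zero, Complex.exp_zero, sum_const_zero, add_zero,
    zero_add] at H
  simp only [sum_filter, mw, tt, sq c] at H ⊢
  exact H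

open Classical in
theorem ef_om4 {p : ℕ → Prop} {ph0 φ ε H Y R : ℝ} (h0 : 0 < ph0) (h1 : ph0 ≤ 1 / 2)
    (hTB : TBp p ph0) (hφ : ph0 < φ) (hε : 0 < ε) (hH : 0 ≤ H) (hY : 1 ≤ Y) (hR : 1 ≤ R) :
    ∃ P0 : ℝ, 3 ≤ P0 ∧ ∀ P : ℝ, P0 ≤ P →
      ∀ (Q : ℕ) [NeZero Q] (q : ℕ) (ι : Type) [Fintype ι] (χ : ι → DC Q) (ρ : ι → ℂ)
        (S : DC Q → Prop), 1 ≤ q → (q : ℝ) ≤ P →
        Full (fun ξ z => S ξ ∧ lam P z ≤ H ∧ |z.im| ≤ 5 * Y) χ ρ →
        ∀ (ξ : DC Q) (y T B : ℝ) (g : ℝ → ℝ), p ξ.conductor → S ξ → ξ.conductor ∣ q →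
          |y| ≤ 4 * (Y * Real.log P) → 0 ≤ T → T ≤ 8 → Tst T B g → 0 ≤ g 0 →
          (∀ z : ℂ, z.re ≤ -H → 0 ≤ (Lap g T z).re) →
          ∑ n ∈ Om P q, mw P n * cut g T (tt P n) *
              (exp (-((y * tt P n : ℝ) : ℂ) * I) * pr ξ n).re ≤
            (if ξ = 1 then (Lap g T (-((y : ℂ) * I))).re else 0) -
              ∑ k ∈ univ.filter (fun k => χ k = ξ),
                (Lap g T (-(lam P (ρ k) : ℂ) + ((ρ k).im * Real.log P - y : ℝ) * I)).re +
              (if cd ξ ≤ R then 0 else φ / 2) * g 0 + ε * B := by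
  obtain ⟨ε1, hε1, hε2, hε3⟩ : ∃ ε1 : ℝ, 0 < ε1 ∧ ε1 ≤ 1 ∧ 102 * ε1 ≤ ε :=
    ⟨min 1 (ε / 102), by positivity, min_le_left _ _, by
      have := min_le_right 1 (ε / 102)
      linarith⟩
  obtain ⟨e, he, he1, he2⟩ : ∃ e : ℝ, 0 < e ∧ e ≤ 1 ∧ ph0 + e ≤ φ :=
    ⟨min 1 (φ - ph0), lt_min one_pos (by linarith), min_le_left _ _, by
      have := min_le_right 1 (φ - ph0)
      linarith⟩
  obtain ⟨δ, η, P1, hδ, hδ1, hη, hP1, hef⟩ := ef_tst4 hTB he hε1
  obtain ⟨P2, -, hbad⟩ := bad_primes hε1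
  obtain ⟨G, hG⟩ : ∃ G : ℕ, 5 * Y ≤ G := ⟨_, Nat.le_ceil _⟩
  have hlog : 0 ≤ Real.log (24 * ((G : ℝ) + 5) ^ 2) :=
    Real.log_nonneg (by nlinarith [Nat.cast_nonneg (α := ℝ) G])
  obtain ⟨L0, a1, a2, a3, a4, a5, a6⟩ : ∃ L0 : ℝ, 4 * Y / η ≤ L0 ∧ R ^ 2 / ε1 ≤ L0 ∧ 2 / δ ≤ L0 ∧
      3 * H ≤ L0 ∧ Real.log (24 * ((G : ℝ) + 5) ^ 2) ≤ L0 ∧
      56 * (2 * G + 1) * (18 + 40 * H) / (δ ^ 2 * ε1) ≤ L0 := by
    have b1 : 0 ≤ 4 * Y / η := by positivity
    have b2 : 0 ≤ R ^ 2 / ε1 := by positivity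
    have b3 : 0 ≤ 2 / δ := by positivity
    have b6 : 0 ≤ 56 * (2 * (G : ℝ) + 1) * (18 + 40 * H) / (δ ^ 2 * ε1) := by positivity
    refine ⟨4 * Y / η + R ^ 2 / ε1 + 2 / δ + 3 * H + Real.log (24 * ((G : ℝ) + 5) ^ 2) +
      56 * (2 * G + 1) * (18 + 40 * H) / (δ ^ 2 * ε1), ?_, ?_, ?_, ?_, ?_, ?_⟩ <;> linarith
  refine ⟨max P1 (max P2 (Real.exp L0)), hP1.trans (le_max_left _ _), ?_⟩
  intro P hP Q _ q ι _ χ ρ S hq hqP hF ξ y T B g hp0 hSξ hξ hy hT hT8 hg hg0 hpos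
  obtain ⟨hPa, hPb, hPc⟩ : P1 ≤ P ∧ P2 ≤ P ∧ Real.exp L0 ≤ P := by simpa using hP
  have hP3 : 3 ≤ P := hP1.trans hPa
  have hP0 : 0 < P := by linarith
  have hL : 0 < Real.log P := Real.log_pos (by linarith)
  have hL0 : L0 ≤ Real.log P := (Real.le_log_iff_exp_le hP0).2 hPc
  have hpow : ∀ a : ℝ, a * Real.log P ≤ P ^ a := fun a => by
    rw [Real.rpow_def_of_pos hP0, mul_comm a]
    linarith [Real.add_one_le_exp (Real.log P * a)]
  have hg40 := (abs_le.1 (tst_zero hg hT hT8)).2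
  have hB : 0 ≤ B := by linarith
  have hcd : cd ξ ≤ P := le_trans (by unfold cd; exact_mod_cast Nat.le_of_dvd hq hξ) hqP
  have hγ : |y / Real.log P| ≤ 4 * Y := by
    rw [abs_div, abs_of_pos hL, div_le_iff₀ hL]
    linarith
  have hδL : 2 ≤ δ * Real.log P := by
    have := (div_le_iff₀ hδ).1 (a3.trans hL0)
    linarith
  obtain ⟨ph, p1, p2, p3, p4⟩ : ∃ ph : ℝ, 0 ≤ ph ∧ ph ≤ 2 ∧ cd ξ ^ (ph0 + e) ≤ P ^ ph ∧
      ph / 2 ≤ (if cd ξ ≤ R then 0 else φ / 2) + ε1 / 2 := by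
    by_cases hc : cd ξ ≤ R
    · refine ⟨ε1, hε1.le, by linarith, ?_, by rw [if_pos hc]; linarith⟩
      have b1 : cd ξ ^ (ph0 + e) ≤ R ^ (ph0 + e) :=
        Real.rpow_le_rpow (cd_pos ξ).le hc (by linarith)
      have b2 : R ^ (ph0 + e) ≤ R ^ ((2 : ℕ) : ℝ) :=
        Real.rpow_le_rpow_of_exponent_le hR (by push_cast; linarith)
      rw [Real.rpow_natCast] at b2
      have b3 := (div_le_iff₀ hε1).1 (a2.trans hL0)
      have b4 := hpow ε1
      linarith
    · exact ⟨ph0 + e, by linarith, by linarith,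
        Real.rpow_le_rpow (cd_pos ξ).le hcd (by linarith), by rw [if_neg hc]; linarith⟩
  obtain ⟨Z, h, hZ, hh, hmain⟩ := hef P hPa Q ξ ph (y / Real.log P) hp0 p1 p2 p3 (by
    have b1 := (div_le_iff₀ hη).1 (a1.trans hL0)
    have b2 := hpow η
    linarith)
  have hm := (Complex.re_le_norm _).trans (hmain T B g hT hT8 hg)
  rw [div_mul_cancel₀ y hL.ne'] at hm
  have hms : ∀ (M : Multiset ℂ) (f : ℂ → ℂ), (M.map f).sum.re = (M.map fun z => (f z).re).sum :=
    fun M f => by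
      induction M using Multiset.induction_on with
      | empty => simp
      | cons a M ih => simp [ih]
  rw [Complex.sub_re, Complex.add_re, Complex.sub_re, Complex.re_sum, hms, Complex.re_ofReal_mul,
    apply_ite Complex.re, Complex.zero_re] at hm
  simp only [Complex.re_ofReal_mul, mul_assoc (mw P _)] at hm ⊢
  have s1 := clf_om hP3 (C := 40 * B) (by positivity) (hbad P hPb q hq hqP _)
    (fun n => cut g T (tt P n) * (exp (-((y * tt P n : ℝ) : ℂ) * I) * pr ξ n).re) fun n => by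
      rw [abs_mul, ← mul_one (40 * B)]
      refine mul_le_mul (cut_le hg hT hT8 (tt_nonneg hP3 n)) ((Complex.abs_re_le_norm _).trans ?_)
        (abs_nonneg _) (by positivity)
      rw [norm_mul, ← Complex.ofReal_neg, Complex.norm_exp_ofReal_mul_I, one_mul]
      exact norm_pr_le ξ n
  have s2 := clf_split hF ξ (fun z => ‖z - cc P (y / Real.log P)‖ ≤ δ) Z
    (fun z => by rw [hZ])
    (fun z => (Lap g T ((Real.log P : ℂ) * (z - 1) - (y : ℝ) * I)).re) fun z hz _ hS => by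
      refine hpos _ ?_
      rw [clf_re, neg_le_neg_iff]
      by_contra hcon
      refine hS ⟨hSξ, (not_le.1 hcon).le, ?_⟩
      have b1 := (Complex.abs_im_le_norm _).trans hz
      have b2 : (z - cc P (y / Real.log P)).im = z.im - y / Real.log P := by
        unfold cc
        generalize y / Real.log P = γ
        generalize 1 + 1 / Real.log P = c
        simp
      rw [b2] at b1
      have b3 := abs_add_le (z.im - y / Real.log P) (y / Real.log P)
      rw [sub_add_cancel] at b3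
      linarith
  have s3 : ∑ k ∈ univ.filter (fun k => χ k = ξ ∧ ¬‖ρ k - cc P (y / Real.log P)‖ ≤ δ),
      (Lap g T ((Real.log P : ℂ) * (ρ k - 1) - (y : ℝ) * I)).re ≤ ε1 * B := by
    refine (Finset.sum_le_card_nsmul _ _ ((18 + 40 * H) * B / (δ * Real.log P / 2) ^ 2)
      fun k hk => clf_far hg hT hT8 hB hL hδL (hF.sub.lam_nonneg (by linarith) k) (hF.1 k).2.1
        (not_le.1 (Finset.mem_filter.1 hk).2.2)).trans ?_
    have b1 := hF.sub.box ξ G
      (univ.filter fun k => χ k = ξ ∧ ¬‖ρ k - cc P (y / Real.log P)‖ ≤ δ) fun k hk => by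
        refine ⟨(Finset.mem_filter.1 hk).2.1, ?_, (hF.1 k).2.2.trans hG⟩
        have c1 : (1 - (ρ k).re) * Real.log P ≤ H := (hF.1 k).2.1
        by_contra c2
        have c3 := mul_le_mul_of_nonneg_right (not_le.1 c2).le hL.le
        linarith
    have b2 : Real.log (24 * cd ξ * ((G : ℝ) + 5) ^ 2) ≤ 2 * Real.log P := by
      rw [mul_right_comm, Real.log_mul (by positivity) (cd_pos ξ).ne']
      have := Real.log_le_log (cd_pos ξ) hcd
      linarith
    rw [nsmul_eq_mul]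
    refine (mul_le_mul_of_nonneg_right (b1.trans (mul_le_mul_of_nonneg_left
      (mul_le_mul_of_nonneg_left b2 (by norm_num)) (by positivity))) (by positivity)).trans ?_
    have b3 := (div_le_iff₀ (by positivity)).1 (a6.trans hL0)
    generalize Real.log P = L at hL b3
    rw [← mul_div_assoc, div_le_iff₀ (by positivity)]
    have b4 := mul_le_mul_of_nonneg_right b3 (show 0 ≤ B * L / 4 by positivity)
    linarith
  simp only [clf_arg]
  rw [← Finset.sum_filter_add_sum_filter_not (univ.filter fun k => χ k = ξ)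
    (fun k => ‖ρ k - cc P (y / Real.log P)‖ ≤ δ), Finset.filter_filter, Finset.filter_filter]
  have s4 := mul_le_mul_of_nonneg_left (hh.trans (add_le_add_left p4 ε1)) hg0
  have s5 := mul_le_mul_of_nonneg_left hg40 hε1.le
  have s6 := mul_le_mul_of_nonneg_right hε3 hB
  have s7 := mul_nonneg hε1.le hB
  linarith

end Pool.Agent.Lib.MP_778b46_nt.GX
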