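import Pool.Agent.Lib.MP_778b46_nt.GX.T4b
import Pool.Agent.Lib.MP_778b46_nt.GX.T4e
import Pool.Agent.Lib.MP_778b46_nt.GX.ClG

set_option autoImplicit false

/- The characters of low order give a clean model with a smaller constant. -/

namespace Pool.Agent.Lib.MP_778b46_nt.GX

open Complex Finset Filter ArithmeticFunction
open Pool.Agent.Lib.MP_e97e2b_nt.Ln (Lap Tst cut)

theorem mol_list4 {pp : ℕ → Prop} {ph0 ph ph' f ε H Y : ℝ} (hM : MOLq pp ph0)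
    (h1 : ph0 < ph) (hf : 0 ≤ f)
    (h2 : f * ph0 < ph') (hε : 0 < ε) (ps : List MP) (hps : ∀ p ∈ ps, p.ok ph ph') :
    ∃ P0 : ℝ, ∀ P : ℝ, P0 ≤ P →
      ∀ (Q : ℕ) [NeZero Q] (ι : Type) [Fintype ι] (χ : ι → DC Q) (ρ : ι → ℂ),
        (∀ j, pp (χ j).conductor) → (∀ j k, pp (χ j / χ k).conductor) → Sub χ ρ →
        (∀ j, χ j ≠ 1 ∧ cd (χ j) ≤ P ∧ lam P (ρ j) ≤ H ∧ |(ρ j).im| ≤ Y) →
        ∀ p ∈ ps, ∀ (S : Finset ι) (lmin : ℝ), 0 ≤ lmin → (∀ j ∈ S, lmin ≤ lam P (ρ j)) →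
          (∀ j ∈ S, ∀ k ∈ S, cd (χ j / χ k) ≤ P ^ f) →
          ∑ j ∈ S, p.m ph lmin (lam P (ρ j)) ≤ 1 + ε := by
  have key : ∀ᶠ P : ℝ in atTop, ∀ p ∈ {p | p ∈ ps},
      ∀ (Q : ℕ) [NeZero Q] (ι : Type) [Fintype ι] (χ : ι → DC Q) (ρ : ι → ℂ),
        (∀ j, pp (χ j).conductor) → (∀ j k, pp (χ j / χ k).conductor) → Sub χ ρ →
        (∀ j, χ j ≠ 1 ∧ cd (χ j) ≤ P ∧ lam P (ρ j) ≤ H ∧ |(ρ j).im| ≤ Y) →
        ∀ (S : Finset ι) (lmin : ℝ), 0 ≤ lmin → (∀ j ∈ S, lmin ≤ lam P (ρ j)) →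
          (∀ j ∈ S, ∀ k ∈ S, cd (χ j / χ k) ≤ P ^ f) →
          ∑ j ∈ S, p.m ph lmin (lam P (ρ j)) ≤ 1 + ε := by
    refine (eventually_all_finite ps.finite_toSet).2 fun p hp => ?_
    obtain ⟨η, ε2, P0, hη, hε2, h⟩ := hM p ph ph' f ε (hps p hp) h1 hf h2 hε
    filter_upwards [eventually_ge_atTop P0, clg_pow hη Y,
      (Real.tendsto_log_atTop.const_mul_atTop hε2).eventually_ge_atTop H] with P a b c
    intro Q _ ι _ χ ρ q1 q2 hs hχ S lmin h0 hl hd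
    rw [← sum_coe_sort S]
    exact h P a Q S (fun j => χ j.1) (fun j => ρ j.1) lmin (fun j => q1 j.1) (fun j k => q2 j.1 k.1)
      (hs.subtype fun j => j ∈ S) h0
      (fun j => ⟨(hχ j).1, (hχ j).2.1, hl j j.2, (hχ j).2.2.1.trans c, (hχ j).2.2.2.trans b⟩)
      fun j k => hd j j.2 k k.2
  obtain ⟨P0, h⟩ := eventually_atTop.1 key
  exact ⟨P0, fun P hP Q _ ι _ χ ρ q1 q2 hs hχ p hp => h P hP p hp Q ι χ ρ q1 q2 hs hχ⟩

/-- The model attached to a list of zeros. -/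
noncomputable def cdat {Γ ι : Type} [CommGroup Γ] {Q : ℕ} [NeZero Q] {q : ℕ} (P Y R : ℝ)
    (f : Γ →* Gam Q q) (ch : ι → Γ) (ρ : ι → ℂ) (cj : ι ≃ ι) : Dat Γ (Om P q) ι where
  μ n := mw P n.1
  t n := tt P n.1
  ev n := (clg_ev Q n).comp f
  ch := ch
  lam i := lam P (ρ i)
  mu i := (ρ i).im * Real.log P
  Ym := Y * Real.log P
  sm ξ := cd (f ξ).1 ≤ R
  cj := cj

theorem cln_gen {pp : ℕ → Prop} {ph0 φ ε H Y R : ℝ} {psF psC : List MP} (h0 : 0 < ph0)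
    (h1 : ph0 ≤ 1 / 2) (hTB : TBq pp ph0) (hp1 : pp 1) (hφ : ph0 < φ) (hε : 0 < ε) (hH : 0 ≤ H)
    (hY : 1 ≤ Y) (hR : 1 ≤ R) (hpF : ∀ p ∈ psF, p.ok φ φ) (hpC : ∀ p ∈ psC, p.ok φ (1 / 1000)) :
    ∀ᶠ P : ℝ in atTop, ∀ (Q : ℕ) [NeZero Q] (q : ℕ) (Γ ι : Type) [CommGroup Γ] [Fintype ι]
      (f : Γ →* Gam Q q) (ch : ι → Γ) (ρ : ι → ℂ) (cj : ι ≃ ι), 1 ≤ q → (q : ℝ) ≤ P →
        Function.Injective f → (∀ ξ, pp (f ξ).1.conductor) →
        Full (fun ξ z => (∃ g, (f g).1 = ξ) ∧ lam P z ≤ H ∧ |z.im| ≤ 5 * Y)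
          (fun i => (f (ch i)).1) ρ →
        (∀ i, |(ρ i).im| ≤ Y) → (∀ i, R < cd (f (ch i)).1) →
        (∀ i j, cd ((f (ch i)).1 / (f (ch j)).1) ≤ R ^ 2 → cd ((f (ch i)).1 / (f (ch j)).1) ≤ R) →
        (∀ i, ch (cj i) = (ch i)⁻¹ ∧ ρ (cj i) = starRingEnd ℂ (ρ i)) →
        Clean (cdat P Y R f ch ρ cj) φ ε H psF psC := by
  classical
  have hM := Mo.mol4 h0 hTB
  obtain ⟨P1, h3, hef⟩ := ef_om4 h0 h1 hTB.p hφ hε hH hY hR
  obtain ⟨P2, -, hme⟩ := mert_om hε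
  obtain ⟨η, P3, hη, -, hsv⟩ := sv_om4 h0 hTB hp1 hφ hε
  obtain ⟨P4, hF⟩ := mol_list4 (f := 1) (H := H) (Y := Y) hM hφ zero_le_one (by linarith) hε psF
    hpF
  obtain ⟨P5, hC⟩ := mol_list4 (f := 1 / 1000) (H := H) (Y := Y) hM hφ (by norm_num) (by linarith)
    hε psC hpC
  filter_upwards [eventually_ge_atTop P1, eventually_ge_atTop P2, eventually_ge_atTop P3,
    eventually_ge_atTop P4, eventually_ge_atTop P5, clg_pow hη Y,
    clg_pow (η := 1 / 1000) (by norm_num) R] with P a1 a2 a3 a4 a5 a6 a7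
  intro Q _ q Γ ι _ _ f ch ρ cj hq hqP hf hpp hfull him hcd hgap hcj
  have hP : 3 ≤ P := h3.trans a1
  have hL : 0 ≤ Real.log P := Real.log_nonneg (by linarith)
  have hne : ∀ i, (f (ch i)).1 ≠ 1 := fun i h => by
    have := hcd i
    rw [h, cd_one] at this
    linarith
  have hd : ∀ i j, (f (ch i / ch j)).1 = (f (ch i)).1 / (f (ch j)).1 := fun i j => by
    rw [map_div]
    rfl
  have hi : ∀ a b, (f a).1 = (f b).1 ↔ a = b := fun a b =>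
    ⟨fun h => hf (Subtype.ext h), fun h => by rw [h]⟩
  have hle : ∀ i, cd (f (ch i)).1 ≤ P := fun i => (clg_cd hq _).trans hqP
  have hdv : ∀ i j, cd ((f (ch i)).1 / (f (ch j)).1) ≤ P := fun i j =>
    (clg_cd hq (f (ch i) / f (ch j))).trans hqP
  have q2 : ∀ i j, pp ((f (ch i)).1 / (f (ch j)).1).conductor := fun i j => hd i j ▸ hpp _
  have hall : ∀ j, (f (ch j)).1 ≠ 1 ∧ cd (f (ch j)).1 ≤ P ∧ lam P (ρ j) ≤ H ∧ |(ρ j).im| ≤ Y :=
    fun j => ⟨hne j, hle j, (hfull.1 j).2.1, him j⟩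
  refine
    { μ_nonneg := fun n => mw_nonneg hP _
      t_pos := fun n => tt_pos hP n.2
      norm_ev := fun n ξ => norm_pr _ (clg_cop n (f ξ))
      lam_nonneg := fun i => hfull.sub.lam_nonneg (by linarith) i
      lam_le := fun i => (hfull.1 i).2.1
      mu_le := fun i => ?_
      cj_ch := fun i => (hcj i).1
      cj_lam := fun i => ?_
      cj_mu := fun i => ?_
      sm_one := ?_
      sm_inv := fun ξ h => ?_
      sm_trans := fun i j k h h' => ?_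
      sm_not := fun i => not_le.2 (hcd i)
      ef := fun ξ y T B g b1 b2 b3 b4 b5 b6 => ?_
      mert := fun u v b1 b2 b3 => ?_
      sv := fun a c τ τ' w α β b1 b2 b3 b4 b5 b6 b7 => ?_
      molF := fun p hp S lmin b1 b2 => hF P a4 Q ι _ ρ (fun _ => hpp _) q2 hfull.sub hall p hp S
        lmin b1 b2 fun j _ k _ => (hdv j k).trans_eq (Real.rpow_one P).symm
      molC := fun p hp S lmin b1 b2 b3 => hC P a5 Q ι _ ρ (fun _ => hpp _) q2 hfull.sub hall p hp S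
        lmin b1 b2 fun j hj k hk => le_trans (hd j k ▸ b3 j hj k hk) a7 }
  · change |(ρ i).im * Real.log P| ≤ Y * Real.log P
    rw [abs_mul, abs_of_nonneg hL]
    exact mul_le_mul_of_nonneg_right (him i) hL
  · change lam P (ρ (cj i)) = lam P (ρ i)
    rw [(hcj i).2, lam, conj_re, lam]
  · change (ρ (cj i)).im * Real.log P = -((ρ i).im * Real.log P)
    rw [(hcj i).2, conj_im, neg_mul]
  · change cd (f 1).1 ≤ R
    rw [map_one]
    exact cd_one.trans_le hR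
  · change cd (f ξ⁻¹).1 ≤ R
    rw [map_inv]
    exact (cd_inv (f ξ).1).trans_le h
  · change cd (f (ch i / ch k)).1 ≤ R
    change cd (f (ch i / ch j)).1 ≤ R at h
    change cd (f (ch j / ch k)).1 ≤ R at h'
    rw [hd] at h h' ⊢
    refine hgap i k ?_
    rw [← div_mul_div_cancel _ (f (ch j)).1 _, sq]
    exact (cd_mul_le _ _).trans (mul_le_mul h h' (cd_pos _).le (by linarith))
  · have h := hef P a1 Q q ι _ ρ _ hq hqP hfull (f ξ).1 y T B g (hpp ξ) ⟨ξ, rfl⟩ (f ξ).2 b1 b2 b3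
      b4 b5 b6
    rw [← sum_coe_sort (Om P q)] at h
    refine le_trans h (le_of_eq ?_)
    congr 3
    · refine clg_ite ?_ _ _
      rw [← hi, map_one]
      rfl
    · exact sum_congr (clg_filter fun k => hi _ _) fun _ _ => rfl
  · have h := hme P a2 q hq hqP u v b1 b2 b3
    rwa [← clg_sum] at h
  · have h := hsv P a3 Q q ι _ (fun j => (ρ j).im) (fun j => ⟨hne j, hle j, (him j).trans a6⟩) hdv
      (fun _ => hpp _) q2 a c τ τ' w α β b1 b2 b3 b4 b5 b6 b7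
    rw [← clg_sum] at h
    refine le_trans h (le_of_eq ?_)
    congr 3
    refine sum_congr rfl fun j _ => ?_
    exact sum_congr (clg_filter fun k => hi _ _) fun _ _ => rfl

section Model

variable {Γ Ω ι : Type} [CommGroup Γ] [Fintype Ω] [Fintype ι]

/-- The part of a model that belongs to a subgroup. -/
def Dat.sub (D : Dat Γ Ω ι) (Lo : Subgroup Γ) (h : ∀ i, D.ch (D.cj i) = (D.ch i)⁻¹) :
    Dat Lo Ω {i // D.ch i ∈ Lo} where
  μ := D.μ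
  t := D.t
  ev ω := (D.ev ω).comp Lo.subtype
  ch i := ⟨D.ch i.1, i.2⟩
  lam i := D.lam i.1
  mu i := D.mu i.1
  Ym := D.Ym
  sm ξ := D.sm ξ.1
  cj := D.cj.subtypeEquiv fun i => by rw [h, inv_mem_iff]

open Classical in
/-- A clean model whose characters of low order lie in a subgroup `Lo` that is clean with the
constant `φ1`. -/
structure Clean2 (D : Dat Γ Ω ι) (Lo : Subgroup Γ) (φ φ1 ε H : ℝ) (psF psC qsF qsC : List MP) :
    Prop where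
  cl : Clean D φ ε H psF psC
  sm_pow : ∀ ξ (k : ℕ), D.sm ξ → D.sm (ξ ^ k)
  mem : ∀ ξ (k : ℕ), k ∣ 2520 → D.sm (ξ ^ k) → ξ ∈ Lo
  lo : Clean (D.sub Lo cl.cj_ch) φ1 ε H qsF qsC

open Classical in
/-- The explicit inequality with the constant `φ1` for the members of `Lo`. -/
theorem Clean2.ef4 {D : Dat Γ Ω ι} {Lo : Subgroup Γ} {φ φ1 ε H : ℝ} {psF psC qsF qsC : List MP}
    (h : Clean2 D Lo φ φ1 ε H psF psC qsF qsC) {ξ : Γ} (hξ : ξ ∈ Lo) (y T B : ℝ) (g : ℝ → ℝ)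
    (b1 : |y| ≤ 4 * D.Ym) (b2 : 0 ≤ T) (b3 : T ≤ 8) (b4 : Tst T B g) (b5 : 0 ≤ g 0)
    (b6 : ∀ z : ℂ, z.re ≤ -H → 0 ≤ (Lap g T z).re) :
    D.E (cut g T) y ξ ≤ (if ξ = 1 then (Lap g T (-((y : ℂ) * I))).re else 0) -
      ∑ k ∈ univ.filter (fun k => D.ch k = ξ),
        (Lap g T (-(D.lam k : ℂ) + (D.mu k - y : ℝ) * I)).re +
      (if D.sm ξ then 0 else φ1 / 2) * g 0 + ε * B := by
  refine le_trans (h.lo.ef ⟨ξ, hξ⟩ y T B g b1 b2 b3 b4 b5 b6) (le_of_eq ?_)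
  congr 3
  · exact clg_ite (Subtype.ext_iff (a1 := (⟨ξ, hξ⟩ : Lo)) (a2 := 1)) _ _
  · refine sum_bij (fun k _ => k.1) (fun k hk => ?_) (fun _ _ _ _ e => Subtype.ext e)
      (fun k hk => ?_) fun _ _ => rfl
    · simp only [mem_filter, mem_univ, true_and] at hk ⊢
      exact congrArg Subtype.val hk
    · have e := (mem_filter.1 hk).2
      refine ⟨⟨k, e ▸ hξ⟩, ?_, rfl⟩
      simp only [mem_filter, mem_univ, true_and]
      exact Subtype.ext e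

end Model

/-- The analytic data give a clean model with a clean part of low order. -/
def CLN2 : Prop :=
  ∀ (φ φ1 ε H Y R : ℝ) (psF psC qsF qsC : List MP), 1 / 3 < φ → 1 / 4 < φ1 → 0 < ε → 0 ≤ H →
    1 ≤ Y → 1 ≤ R → (∀ p ∈ psF, p.ok φ φ) → (∀ p ∈ psC, p.ok φ (1 / 1000)) →
    (∀ p ∈ qsF, p.ok φ1 φ1) → (∀ p ∈ qsC, p.ok φ1 (1 / 1000)) →
    ∃ P0 : ℝ, ∀ P : ℝ, P0 ≤ P →
      ∀ (Q : ℕ) [NeZero Q] (q : ℕ) (ι : Type) [Fintype ι] (χ : ι → DC Q) (ρ : ι → ℂ),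
        1 ≤ q → q ∣ Q → (q : ℝ) ≤ P →
        Full (fun ξ z => ξ.conductor ∣ q ∧ lam P z ≤ H ∧ |z.im| ≤ 5 * Y) χ ρ →
        (∀ i, |(ρ i).im| ≤ Y) → (∀ i, R < cd (χ i)) →
        (∀ i j, cd (χ i / χ j) ≤ R ^ 2 → cd (χ i / χ j) ≤ R) →
        ∃ (Γ Ω : Type) (_ : CommGroup Γ) (_ : Fintype Ω) (D : Dat Γ Ω ι) (Lo : Subgroup Γ),
          Clean2 D Lo φ φ1 ε H psF psC qsF qsC ∧ (∀ i, D.lam i = lam P (ρ i)) ∧
            ∀ i j, D.sm (D.ch i * D.ch j) ↔ cd (χ i * χ j) ≤ R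

/-- The characters with a power whose conductor divides `M`. -/
noncomputable def Low (Q : ℕ) [NeZero Q] (q M : ℕ) : Subgroup (Gam Q q) :=
  (Gam Q M).comap ((powMonoidHom 2520).comp (Gam Q q).subtype)

theorem cln2 : CLN2 := by
  classical
  intro φ φ1 ε H Y R psF psC qsF qsC hφ hφ1 hε hH hY hR hpF hpC hqF hqC
  have k1 := cln_gen (by norm_num) (by norm_num) (tb_third.q fun _ => True) trivial hφ hε hH hY hR
    hpF hpC
  have hM : 1 ≤ ⌊R⌋₊.factorial := Nat.factorial_pos _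
  have k2 := cln_gen (by norm_num) (by norm_num) (tbq_quarter (2520 ^ 2 * ⌊R⌋₊.factorial))
    (fun r hr => by
      have := Nat.le_of_dvd one_pos ((dvd_pow_self r (by norm_num)).trans hr)
      omega) hφ1 hε hH hY hR hqF hqC
  refine eventually_atTop.1 ?_
  filter_upwards [k1, k2] with P k1 k2
  intro Q _ q ι _ χ ρ hq _ hqP hfull him hcd hgap
  obtain ⟨cj, hcj⟩ := hfull.exists_conj fun ξ z h => by
    refine ⟨by rw [DirichletCharacter.conductor_inv]; exact h.1, ?_, ?_⟩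
    · rw [lam, conj_re]
      exact h.2.1
    · rw [conj_im, abs_neg]
      exact h.2.2
  let ch : ι → Gam Q q := fun i => ⟨χ i, (hfull.1 i).1⟩
  have c1 := k1 Q q (Gam Q q) ι (MonoidHom.id _) ch ρ cj hq hqP Function.injective_id
    (fun _ => trivial) (hfull.congr fun ξ z _ => and_congr_left fun _ =>
      ⟨fun ⟨g, hg⟩ => hg ▸ g.2, fun h => ⟨⟨ξ, h⟩, rfl⟩⟩) him hcd hgap
    fun i => ⟨Subtype.ext (hcj i).1, (hcj i).2⟩
  set Lo := Low Q q ⌊R⌋₊.factorial with hLo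
  refine ⟨Gam Q q, Om P q, inferInstance, inferInstance, _, Lo, ⟨c1, fun ξ k h => ?_,
    fun ξ k hk h => ?_, ?_⟩, fun _ => rfl, fun _ _ => Iff.rfl⟩
  · exact (cd_pow_le ξ.1 k).trans h
  · obtain ⟨j, hj⟩ := hk
    change (ξ.1 ^ 2520).conductor ∣ _
    rw [hj, pow_mul]
    refine (DirichletCharacter.conductor_pow_dvd _ j).trans
      (Nat.dvd_factorial (NeZero.pos _) (Nat.le_floor h))
  · refine k2 Q q Lo {i // ch i ∈ Lo} Lo.subtype (fun i => ⟨ch i.1, i.2⟩) (fun i => ρ i.1) _ hq hqP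
      Subtype.val_injective (fun ξ => nc_of_pow _ (k := 2520) (by norm_num) ?_) ⟨fun i => ⟨⟨_, rfl⟩,
        (hfull.1 i).2⟩, ?_⟩ (fun i => him i) (fun i => hcd i) (fun i j => hgap i j)
      fun i => ⟨Subtype.ext (Subtype.ext (hcj i).1), (hcj i).2⟩
    · have h := Nat.le_of_dvd hM (show (ξ.1.1 ^ 2520).conductor ∣ _ from ξ.2)
      unfold cd
      exact_mod_cast Nat.mul_le_mul_left _ h
    · rintro _ z ⟨⟨g, rfl⟩, hz⟩
      refine Eq.trans ?_ (hfull.2 g.1.1 z ⟨g.1.2, hz⟩)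
      rw [cnt_eq_card, cnt_eq_card]
      exact Nat.card_congr ⟨fun j => ⟨j.1.1, j.2⟩, fun j => ⟨⟨j.1, by
        rw [show ch j.1 = g.1 from Subtype.ext j.2.1]
        exact g.2⟩, j.2⟩, fun _ => rfl, fun _ => rfl⟩

end Pool.Agent.Lib.MP_778b46_nt.GX
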