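import Pool.Agent.Lib.MP_778b46_nt.GX.Dl

set_option autoImplicit false

/- A checker for inequalities between the transforms `RF x η` that hold for all `η`. -/

namespace Pool.Agent.Lib.MP_778b46_nt.GX

open Complex Finset
open Pool.Agent.Lib.MP_e97e2b_nt.Ln (Lap)

/-! ### Interpolation -/

theorem tr_cos {c : ℝ} (hc : |c| ≤ 1) (a b : ℝ) {θ : ℝ} (h0 : 0 ≤ θ) (h1 : θ ≤ 1) :
    c * Real.cos ((1 - θ) * a + θ * b) ≤
      (1 - θ) * (c * Real.cos a) + θ * (c * Real.cos b) + (b - a) ^ 2 / 8 := by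
  have hd : ∀ u, HasDerivAt (fun u => c * Real.cos u + u ^ 2 / 2) (u - c * Real.sin u) u :=
    fun u => (((Real.hasDerivAt_cos u).const_mul c).add
      ((hasDerivAt_pow 2 u).div_const 2)).congr_deriv (by norm_num; ring)
  have hm : Monotone (deriv fun u => c * Real.cos u + u ^ 2 / 2) := fun u v huv => by
    rw [(hd u).deriv, (hd v).deriv]
    have k1 := Real.abs_sin_sub_sin_le v u
    rw [abs_of_nonneg (sub_nonneg.2 huv)] at k1
    have k2 : c * (Real.sin v - Real.sin u) ≤ |Real.sin v - Real.sin u| :=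
      (le_abs_self _).trans (by rw [abs_mul]; exact mul_le_of_le_one_left (abs_nonneg _) hc)
    linarith
  have k := (hm.convexOn_univ_of_deriv fun u => (hd u).differentiableAt).2 (Set.mem_univ a)
    (Set.mem_univ b) (sub_nonneg.2 h1) h0 (by ring)
  simp only [smul_eq_mul] at k
  nlinarith [mul_nonneg (sq_nonneg (b - a)) (sq_nonneg (2 * θ - 1))]

theorem tr_sq {t : ℝ} (ht : 0 ≤ t) : t ^ 2 ≤ 17 / 125 * Real.exp (2 * t) := by
  have h1 : t * Real.exp 1 ≤ Real.exp t := by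
    have := mul_le_mul_of_nonneg_right (Real.add_one_le_exp (t - 1)) (Real.exp_pos 1).le
    rwa [← Real.exp_add, sub_add_cancel] at this
  have h2 : t * 2.718 ≤ Real.exp t :=
    (mul_le_mul_of_nonneg_left (by linarith [Real.exp_one_gt_d9]) ht).trans h1
  rw [two_mul, Real.exp_add]
  nlinarith [mul_le_mul h2 h2 (by positivity) (Real.exp_pos t).le]

theorem tr_interp {c : ℝ} (hc : |c| ≤ 1) (x a b : ℝ) {θ : ℝ} (h0 : 0 ≤ θ) (h1 : θ ≤ 1) :
    c * RF x ((1 - θ) * a + θ * b) ≤ (1 - θ) * (c * RF x a) + θ * (c * RF x b) +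
      (b - a) ^ 2 / 8 * (17 / 125 * RF (x - 2) 0) := by
  have := g1_cont
  simp only [RF_eq, ← intervalIntegral.integral_const_mul]
  rw [← intervalIntegral.integral_add (Continuous.intervalIntegrable (by fun_prop) _ _)
    (Continuous.intervalIntegrable (by fun_prop) _ _),
    ← intervalIntegral.integral_add (Continuous.intervalIntegrable (by fun_prop) _ _)
    (Continuous.intervalIntegrable (by fun_prop) _ _)]
  refine intervalIntegral.integral_mono_on zero_le_one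
    (Continuous.intervalIntegrable (by fun_prop) _ _)
    (Continuous.intervalIntegrable (by fun_prop) _ _) fun t ht => ?_
  have k0 := mul_nonneg (g1_nonneg ht.1 ht.2) (Real.exp_pos (-(x * t))).le
  have k1 := mul_le_mul_of_nonneg_left (tr_cos hc (a * t) (b * t) h0 h1) k0
  have k2 := mul_le_mul_of_nonneg_left (tr_sq ht.1) (mul_nonneg k0 (sq_nonneg (b - a)))
  rw [show -((x - 2) * t) = -(x * t) + 2 * t by ring, Real.exp_add, zero_mul, Real.cos_zero,
    show ((1 - θ) * a + θ * b) * t = (1 - θ) * (a * t) + θ * (b * t) by ring]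
  linarith

/-! ### The power series -/

theorem tr_mom (j : ℕ) : ∫ t in (0 : ℝ)..1, g1 t * t ^ j =
    30 * ((j + 2) * (j + 5)) * j.factorial / (j + 6).factorial := by
  have e : ∀ t : ℝ, g1 t * t ^ j = t ^ j - 5 * t ^ (j + 2) + 5 * t ^ (j + 3) - t ^ (j + 5) :=
    fun t => by unfold g1; ring
  simp only [e]
  rw [intervalIntegral.integral_sub (Continuous.intervalIntegrable (by fun_prop) _ _)
    (Continuous.intervalIntegrable (by fun_prop) _ _),
    intervalIntegral.integral_add (Continuous.intervalIntegrable (by fun_prop) _ _)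
    (Continuous.intervalIntegrable (by fun_prop) _ _),
    intervalIntegral.integral_sub (Continuous.intervalIntegrable (by fun_prop) _ _)
    (Continuous.intervalIntegrable (by fun_prop) _ _), intervalIntegral.integral_const_mul,
    intervalIntegral.integral_const_mul]
  simp only [integral_pow, Nat.factorial_succ, one_pow, ne_eq, Nat.add_eq_zero_iff, one_ne_zero,
    and_false, not_false_eq_true, zero_pow, sub_zero]
  have : (j.factorial : ℝ) ≠ 0 := by positivity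
  push_cast
  field_simp
  ring

theorem tr_taylor {z : ℂ} (hz : ‖z‖ ≤ 21) :
    ‖F1 (-z) - ∑ j ∈ range 72, 30 * ((j + 2) * (j + 5)) * z ^ j / (j + 6).factorial‖ ≤
      1 / 10 ^ 8 := by
  have := g1_cont
  have e : ∑ j ∈ range 72, 30 * ((j + 2) * (j + 5)) * z ^ j / ((j + 6).factorial : ℂ) =
      ∫ t in (0 : ℝ)..1, (g1 t : ℂ) * ∑ j ∈ range 72, (z * t) ^ j / j.factorial := by
    simp only [mul_sum]
    rw [intervalIntegral.integral_finsetSum fun j _ =>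
      Continuous.intervalIntegrable (by fun_prop) _ _]
    refine sum_congr rfl fun j _ => ?_
    have k : ∀ t : ℝ, (g1 t : ℂ) * ((z * t) ^ j / j.factorial) =
        z ^ j / j.factorial * ((g1 t * t ^ j : ℝ) : ℂ) := fun t => by
      push_cast
      ring
    simp only [k]
    rw [intervalIntegral.integral_const_mul, intervalIntegral.integral_ofReal, tr_mom]
    have : (j.factorial : ℂ) ≠ 0 := by exact_mod_cast j.factorial_ne_zero
    push_cast
    field_simp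
  rw [e, F1, Lap, neg_neg, ← intervalIntegral.integral_sub
    (Continuous.intervalIntegrable (by fun_prop) _ _)
    (Continuous.intervalIntegrable (by fun_prop) _ _)]
  refine (intervalIntegral.norm_integral_le_of_norm_le_const (C := 1 / 10 ^ 8) fun t ht => ?_).trans
    (by norm_num)
  rw [Set.uIoc_of_le zero_le_one] at ht
  have k1 : ‖z * t‖ ≤ 21 := by
    rw [norm_mul, norm_real, Real.norm_of_nonneg ht.1.le]
    exact (mul_le_of_le_one_right (norm_nonneg _) ht.2).trans hz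
  rw [← mul_sub, norm_mul, norm_real, Real.norm_of_nonneg (g1_nonneg ht.1.le ht.2)]
  refine (mul_le_of_le_one_left (norm_nonneg _) (g1_le_one ht.1.le ht.2)).trans
    ((Complex.exp_bound' (n := 72) (by push_cast; linarith)).trans ?_)
  calc _ ≤ (21 : ℝ) ^ 72 / (Nat.factorial 72) * 2 := by gcongr
    _ ≤ _ := by norm_num [Nat.factorial]

/-- Denominator, and the positive and negative parts of the real and imaginary part. -/
structure TS where
  q : ℕ
  a : ℕ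
  b : ℕ
  c : ℕ
  d : ℕ

def TS.step (A B N k : ℕ) : TS → TS
  | ⟨q, a, b, c, d⟩ =>
    ⟨(N.mul (k.add 7)).mul q,
      (((k.add 2).mul (k.add 5)).mul ((N.mul (k.add 7)).mul q)).add ((A.mul a).add (B.mul c)),
      (A.mul b).add (B.mul d), (A.mul c).add (B.mul b), (A.mul d).add (B.mul a)⟩

/-- The scheme of Horner. -/
def trH (A B N m : ℕ) : ℕ → TS :=
  Nat.rec (motive := fun _ => ℕ → TS) (fun _ => ⟨1, 0, 0, 0, 0⟩)
    (fun _ ih k => TS.step A B N k (ih k.succ)) m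

theorem trH_spec (A B : ℕ) {N : ℕ} (hN : 0 < N) (m : ℕ) : ∀ k, 0 < (trH A B N m k).q ∧
    (((trH A B N m k).a : ℂ) - (trH A B N m k).b + ((trH A B N m k).c - (trH A B N m k).d) * I) /
        (trH A B N m k).q = (k + 6).factorial * ∑ j ∈ range m,
          (((k + j : ℕ) + 2) * ((k + j : ℕ) + 5)) * ((A - B * I) / N) ^ j / (k + j + 6).factorial := by
  induction m with
  | zero => exact fun k => ⟨one_pos, by simp [trH]⟩
  | succ m ih =>
    intro k
    obtain ⟨h1, h2⟩ := ih (k + 1)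
    change 0 < (TS.step A B N k (trH A B N m (k + 1))).q ∧ ((TS.step A B N k
      (trH A B N m (k + 1))).a - (TS.step A B N k (trH A B N m (k + 1))).b + ((TS.step A B N k
      (trH A B N m (k + 1))).c - (TS.step A B N k (trH A B N m (k + 1))).d) * I : ℂ) /
      (TS.step A B N k (trH A B N m (k + 1))).q = _
    generalize trH A B N m (k + 1) = s at h1 h2
    obtain ⟨q, a, b, c, d⟩ := s
    refine ⟨Nat.mul_pos (Nat.mul_pos hN (Nat.succ_pos _)) h1, ?_⟩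
    have e : ∑ j ∈ range m, (((k + (j + 1) : ℕ) + 2) * ((k + (j + 1) : ℕ) + 5)) *
        (((A : ℂ) - B * I) / N) ^ (j + 1) / (k + (j + 1) + 6).factorial =
        ((A : ℂ) - B * I) / N * ∑ j ∈ range m, (((k + 1 + j : ℕ) + 2) * ((k + 1 + j : ℕ) + 5)) *
          ((A - B * I) / N) ^ j / (k + 1 + j + 6).factorial := by
      rw [mul_sum]
      refine sum_congr rfl fun j _ => ?_
      rw [show k + (j + 1) = k + 1 + j by ring]
      ring
    rw [sum_range_succ', e]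
    generalize ∑ j ∈ range m, (((k + 1 + j : ℕ) + 2) * ((k + 1 + j : ℕ) + 5)) *
      (((A : ℂ) - B * I) / N) ^ j / (k + 1 + j + 6).factorial = S at h2
    have n1 : (q : ℂ) ≠ 0 := by exact_mod_cast h1.ne'
    have n2 : (N : ℂ) ≠ 0 := by exact_mod_cast hN.ne'
    have n3 : ((k + 6).factorial : ℂ) ≠ 0 := by exact_mod_cast Nat.factorial_ne_zero _
    have n4 : (k : ℂ) + 7 ≠ 0 := by exact_mod_cast (by omega : k + 7 ≠ 0)
    rw [show k + 1 + 6 = k + 6 + 1 by ring, Nat.factorial_succ, div_eq_iff n1] at h2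
    simp only [TS.step, add_zero, pow_zero, mul_one, Nat.mul_eq, Nat.add_eq]
    push_cast at h2 ⊢
    field_simp
    linear_combination ((A : ℂ) - B * I) * h2 + (B * (c - d) : ℂ) * I_mul_I

/-- Positive and negative part of the rounded value. -/
def TS.val : TS → ℕ × ℕ
  | ⟨q, a, b, _, _⟩ => (a * 10 ^ 9 / (24 * q), b * 10 ^ 9 / (24 * q))

/-- Approximation of `10 ^ 9 * RF (-X) (k / 32)` as a difference. -/
def rfn (X : ℚ) (k : ℕ) : ℕ × ℕ := (trH (32 * X.num.toNat) (k * X.den) (32 * X.den) 72 0).val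

theorem tr_num {X : ℚ} (h0 : 0 ≤ X) : ((X.num.toNat : ℕ) : ℝ) = X * X.den := by
  have k1 : ((X.num.toNat : ℕ) : ℚ) = X * X.den := by
    rw [← Int.cast_natCast, Int.toNat_of_nonneg (Rat.num_nonneg.2 h0), Rat.mul_den_eq_num]
  exact_mod_cast k1

theorem tr_floor (a : ℕ) {q : ℕ} (hq : 0 < q) :
    |((a * 10 ^ 9 / (24 * q) : ℕ) : ℝ) / 10 ^ 9 - a / q / 24| ≤ 1 / 10 ^ 9 := by
  have h0 : (0 : ℝ) < q := by exact_mod_cast hq
  have h1 : ((a * 10 ^ 9 / (24 * q) : ℕ) : ℝ) ≤ (a * 10 ^ 9 : ℕ) / (24 * q : ℕ) := Nat.cast_div_le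
  have h2 : ((a * 10 ^ 9 : ℕ) : ℝ) / (24 * q : ℕ) < (a * 10 ^ 9 / (24 * q) : ℕ) + 1 := by
    rw [← Nat.floor_div_eq_div (K := ℝ)]
    exact Nat.lt_floor_add_one _
  have e : ((a * 10 ^ 9 : ℕ) : ℝ) / (24 * q : ℕ) = a / q / 24 * 10 ^ 9 := by
    push_cast
    field_simp
    norm_num
  rw [e] at h1 h2
  rw [abs_le]
  constructor <;> linarith

theorem rfn_spec {X : ℚ} {k : ℕ} (h0 : 0 ≤ X) (h : (X : ℝ) ^ 2 + (k / 32) ^ 2 ≤ 21 ^ 2) :
    |10 ^ 9 * RF (-X) (k / 32) - ((rfn X k).1 - (rfn X k).2)| ≤ 20 := by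
  obtain ⟨h1, h2⟩ := trH_spec (32 * X.num.toNat) (k * X.den) (N := 32 * X.den)
    (Nat.mul_pos (by norm_num) X.pos) 72 0
  have hd : (X.den : ℂ) ≠ 0 := by exact_mod_cast X.den_ne_zero
  have hn : ((X.num.toNat : ℕ) : ℂ) = (X : ℝ) * X.den := by exact_mod_cast tr_num h0
  have e : (((32 * X.num.toNat : ℕ) : ℂ) - (k * X.den : ℕ) * I) / (32 * X.den : ℕ) =
      -((-X : ℝ) + (k / 32 : ℝ) * I) := by
    push_cast
    rw [hn]
    field_simp
    push_cast
    ring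
  rw [e] at h2
  have h3 := tr_taylor (z := -((-X : ℝ) + (k / 32 : ℝ) * I)) (by
    rw [norm_neg, Complex.norm_add_mul_I]
    exact Real.sqrt_le_iff.2 ⟨by norm_num, by rwa [neg_sq]⟩)
  rw [neg_neg] at h3
  unfold rfn
  generalize trH (32 * X.num.toNat) (k * X.den) (32 * X.den) 72 0 = s at h1 h2
  obtain ⟨q, a, b, c, d⟩ := s
  have e2 : ∑ j ∈ range 72, 30 * ((j + 2) * (j + 5)) * (-((-X : ℝ) + (k / 32 : ℝ) * I)) ^ j /
      ((j + 6).factorial : ℂ) = ((a : ℂ) - b + (c - d) * I) / q / 24 := by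
    simp only [zero_add] at h2
    rw [h2, mul_sum, sum_div]
    refine sum_congr rfl fun j _ => ?_
    rw [show ((6 : ℕ).factorial : ℂ) = 720 by norm_num [Nat.factorial]]
    ring
  rw [e2] at h3
  have h4 := (abs_re_le_norm _).trans h3
  have e3 : (((a : ℂ) - b + (c - d) * I) / q / 24).re = a / q / 24 - b / q / 24 := by
    rw [← ofReal_natCast q, show (24 : ℂ) = (24 : ℝ) by norm_num, div_ofReal_re, div_ofReal_re]
    simp
    ring
  rw [sub_re, e3] at h4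
  have k1 := abs_le.1 (tr_floor a h1)
  have k2 := abs_le.1 (tr_floor b h1)
  have k3 := abs_le.1 h4
  simp only [TS.val, RF]
  rw [abs_le]
  constructor <;> linarith

/-! ### The tail -/

/-- Bound for the terms of order at least four. -/
def trR (x : ℚ) : ℚ :=
  30 / 400 + 120 / 400 ^ 2 + (dlS x + dlE x) * (30 / 400 + 120 / 8000 + 120 / 400 ^ 2)

theorem tr_pow {w : ℂ} {η : ℝ} (h : 20 ≤ η) (hw : η ≤ ‖w‖) {c : ℝ} (hc : 0 ≤ c) (n : ℕ) :
    η ^ 2 * ‖(c : ℂ) / w ^ (n + 2)‖ ≤ c / 20 ^ n := by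
  have h0 : 0 < η := by linarith
  rw [norm_div, norm_pow, norm_real, Real.norm_of_nonneg hc]
  calc _ ≤ η ^ 2 * (c / η ^ (n + 2)) := by gcongr
    _ = c / η ^ n := by
      rw [pow_add]
      field_simp
    _ ≤ _ := by gcongr

theorem tr_tail {x : ℚ} {η : ℝ} (h0 : 0 ≤ x) (h6 : x ≤ 6) (h : 20 ≤ η) :
    η ^ 2 * RF (-x) η ≤ -(400 * x / (x ^ 2 + 400)) + trR x ∧
      -(η ^ 2 * RF (-x) η) ≤ x * (43 / 40) + trR x := by
  have hE := (abs_le.1 (dl_exp (x := x) (by rw [abs_of_nonneg h0]; linarith))).2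
  have x0 : (0 : ℝ) ≤ x := by exact_mod_cast h0
  have x6 : (x : ℝ) ≤ 6 := by exact_mod_cast h6
  have e0 : (trR x : ℝ) = 30 / 400 + 120 / 400 ^ 2 +
      (dlS x + dlE x) * (30 / 400 + 120 / 8000 + 120 / 400 ^ 2) := by
    unfold trR
    push_cast
    rfl
  rw [e0]
  generalize (x : ℝ) = y at *
  have hw : η ≤ ‖((-y : ℝ) : ℂ) + η * I‖ := by
    simpa using (le_abs_self _).trans (abs_im_le_norm (((-y : ℝ) : ℂ) + η * I))
  have hn : normSq (((-y : ℝ) : ℂ) + η * I) = y ^ 2 + η ^ 2 := by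
    rw [normSq_add_mul_I, neg_sq]
  have e1 : (1 / (((-y : ℝ) : ℂ) + η * I)).re = -y / (y ^ 2 + η ^ 2) := by
    rw [one_div, inv_re, hn]
    simp
  have e3 : (10 / (((-y : ℝ) : ℂ) + η * I) ^ 3).re =
      10 * (3 * y * η ^ 2 - y ^ 3) / (y ^ 2 + η ^ 2) ^ 3 := by
    rw [div_re, map_pow, hn]
    simp [pow_succ]
    ring
  have eE : ‖exp (-(((-y : ℝ) : ℂ) + η * I))‖ = Real.exp y := by
    rw [norm_exp]
    simp
  unfold RF
  generalize ((-y : ℝ) : ℂ) + η * I = w at *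
  have w0 : w ≠ 0 := norm_pos_iff.1 (by linarith)
  have k4 := tr_pow h hw (c := 30) (by norm_num) 2
  have k5 := tr_pow h hw (c := 120) (by norm_num) 3
  have k6 := tr_pow h hw (c := 120) (by norm_num) 4
  push_cast at k4 k5 k6
  norm_num only at k4 k5 k6
  have e : (F1 w).re = (1 / w).re - (10 / w ^ 3).re + (30 / w ^ 4 - 120 / w ^ 6 +
      exp (-w) * (30 / w ^ 4 + 120 / w ^ 5 + 120 / w ^ 6)).re := by
    rw [F1_closed w0, ← sub_re, ← add_re]
    congr 1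
    ring
  have k : ‖30 / w ^ 4 - 120 / w ^ 6 + exp (-w) * (30 / w ^ 4 + 120 / w ^ 5 + 120 / w ^ 6)‖ ≤
      ‖30 / w ^ 4‖ + ‖120 / w ^ 6‖ +
        Real.exp y * (‖30 / w ^ 4‖ + ‖120 / w ^ 5‖ + ‖120 / w ^ 6‖) := by
    refine norm_add_le_of_le (norm_sub_le _ _) ?_
    rw [norm_mul, eE]
    exact mul_le_mul_of_nonneg_left (norm_add_le_of_le (norm_add_le _ _) le_rfl) (Real.exp_pos _).le
  have k' := abs_le.1 ((abs_re_le_norm _).trans k)
  rw [e, e1, e3]
  generalize (30 / w ^ 4 - 120 / w ^ 6 +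
      exp (-w) * (30 / w ^ 4 + 120 / w ^ 5 + 120 / w ^ 6)).re = r at k'
  have η2 : 400 ≤ η ^ 2 := by nlinarith
  have m1 := mul_le_mul_of_nonneg_left k'.1 (sq_nonneg η)
  have m2 := mul_le_mul_of_nonneg_left k'.2 (sq_nonneg η)
  have m3 := mul_le_mul (show Real.exp y ≤ dlS x + dlE x by linarith)
    (show η ^ 2 * (‖30 / w ^ 4‖ + ‖120 / w ^ 5‖ + ‖120 / w ^ 6‖) ≤
      30 / 400 + 120 / 8000 + 120 / 400 ^ 2 by linarith) (by positivity)
    (by linarith [Real.exp_pos y])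
  have y2 : y ^ 2 ≤ 36 := by nlinarith
  have a1 : η ^ 2 * (-y / (y ^ 2 + η ^ 2)) ≤ -(400 * y / (y ^ 2 + 400)) := by
    rw [← mul_div_assoc, ← neg_div, div_le_div_iff₀ (by positivity) (by positivity)]
    nlinarith [mul_nonneg (mul_nonneg x0 (sq_nonneg y)) (sub_nonneg.2 η2)]
  have a2 : -y ≤ η ^ 2 * (-y / (y ^ 2 + η ^ 2)) := by
    rw [← mul_div_assoc, le_div_iff₀ (by positivity)]
    nlinarith [mul_nonneg x0 (sq_nonneg y)]
  have a3 : 0 ≤ η ^ 2 * (10 * (3 * y * η ^ 2 - y ^ 3) / (y ^ 2 + η ^ 2) ^ 3) := by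
    have : 0 ≤ 3 * y * η ^ 2 - y ^ 3 := by
      nlinarith [mul_nonneg x0 (show 0 ≤ 3 * η ^ 2 - y ^ 2 by linarith)]
    positivity
  have a4 : η ^ 2 * (10 * (3 * y * η ^ 2 - y ^ 3) / (y ^ 2 + η ^ 2) ^ 3) ≤ y * (3 / 40) := by
    rw [← mul_div_assoc, div_le_iff₀ (by positivity)]
    have b1 : 400 * (η ^ 2) ^ 2 ≤ (y ^ 2 + η ^ 2) ^ 3 :=
      calc _ ≤ η ^ 2 * (η ^ 2) ^ 2 := by gcongr
        _ = (η ^ 2) ^ 3 := by ring
        _ ≤ _ := by gcongr; linarith [sq_nonneg y]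
    nlinarith [mul_le_mul_of_nonneg_left b1 x0, mul_nonneg (sq_nonneg η) (pow_nonneg x0 3)]
  constructor <;> nlinarith

/-! ### The checker -/

/-- Adaptive bisection. -/
def trGo {α : Type} (P : ℕ → α) (acc : α → ℕ → Bool) (f : ℕ) : ℕ → ℕ → α → α → Bool :=
  Nat.rec (motive := fun _ => ℕ → ℕ → α → α → Bool) (fun _ _ _ _ => false)
    (fun _ ih a b u v => (acc u (b - a) && acc v (b - a)) ||
      (ih a ((a + b) / 2) u (P ((a + b) / 2)) && ih ((a + b) / 2) b (P ((a + b) / 2)) v)) f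

theorem trGo_sound {α : Type} {P : ℕ → α} {acc : α → ℕ → Bool} {G : ℝ → Prop} {n : ℕ}
    (H : ∀ a b, a ≤ b → b ≤ n → acc (P a) (b - a) = true → acc (P b) (b - a) = true →
      ∀ η : ℝ, a ≤ η → η ≤ b → G η) (f : ℕ) :
    ∀ a b, a ≤ b → b ≤ n → trGo P acc f a b (P a) (P b) = true → ∀ η : ℝ, a ≤ η → η ≤ b → G η := by
  induction f with
  | zero => exact fun a b _ _ h => absurd h (by simp [trGo])
  | succ f ih =>
    intro a b h1 h2 h η k1 k2
    change ((acc (P a) (b - a) && acc (P b) (b - a)) ||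
      (trGo P acc f a ((a + b) / 2) (P a) (P ((a + b) / 2)) &&
        trGo P acc f ((a + b) / 2) b (P ((a + b) / 2)) (P b))) = true at h
    simp only [Bool.or_eq_true, Bool.and_eq_true] at h
    rcases h with h | h
    · exact H a b h1 h2 h.1 h.2 η k1 k2
    · rcases le_total η ((a + b) / 2 : ℕ) with k | k
      · exact ih _ _ (by omega) (by omega) h.1 η k1 k
      · exact ih _ _ (by omega) h2 h.2 η k k2

/-- Bound for the second derivative. -/
def trM (X : ℚ) : ℕ := ((rfn (X + 2) 0).1 + 20) * 17 / 1024000 + 1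

/-- Error term for a cell of length `d / 32`. -/
def trE (m d : ℕ) : ℕ := ((d.mul d).mul m).add 20

theorem tr_cell {X : ℚ} (h0 : 0 ≤ X) (h6 : X ≤ 6) {c : ℝ} (hc : |c| ≤ 1) {a b : ℕ} (hab : a ≤ b)
    (hb : b ≤ 640) {θ : ℝ} (t0 : 0 ≤ θ) (t1 : θ ≤ 1) :
    10 ^ 9 * (c * RF (-X) (((1 - θ) * a + θ * b) / 32)) ≤
      (1 - θ) * (c * ((rfn X a).1 - (rfn X a).2) + trE (trM X) (b - a)) +
      θ * (c * ((rfn X b).1 - (rfn X b).2) + trE (trM X) (b - a)) := by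
  have x0 : (0 : ℝ) ≤ X := by exact_mod_cast h0
  have x6 : (X : ℝ) ≤ 6 := by exact_mod_cast h6
  have k : ∀ k : ℕ, k ≤ 640 → c * (10 ^ 9 * RF (-X) (k / 32)) ≤
      c * ((rfn X k).1 - (rfn X k).2) + 20 := fun k hk => by
    have k0 : (k : ℝ) ≤ 640 := by exact_mod_cast hk
    have k1 := rfn_spec (k := k) h0 (by nlinarith [(Nat.cast_nonneg k : (0 : ℝ) ≤ k)])
    have k2 : c * (10 ^ 9 * RF (-X) (k / 32) - ((rfn X k).1 - (rfn X k).2)) ≤ 20 :=
      (le_abs_self _).trans (by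
        rw [abs_mul]
        exact (mul_le_of_le_one_left (abs_nonneg _) hc).trans k1)
    linarith
  have k1 := tr_interp hc (-X) (a / 32) (b / 32) t0 t1
  have k2 := (abs_le.1 (rfn_spec (X := X + 2) (k := 0) (by linarith) (by push_cast; nlinarith))).2
  have k3 : ((((rfn (X + 2) 0).1 + 20) * 17 : ℕ) : ℝ) / (1024000 : ℕ) < trM X := by
    unfold trM
    rw [← Nat.floor_div_eq_div (K := ℝ), Nat.cast_succ (⌊_⌋₊)]
    exact Nat.lt_floor_add_one _
  have e : (trE (trM X) (b - a) : ℝ) = ((b : ℝ) - a) ^ 2 * trM X + 20 := by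
    simp only [trE, Nat.mul_eq, Nat.add_eq]
    push_cast [Nat.cast_sub hab]
    ring
  rw [e, show ((1 - θ) * a + θ * b) / 32 = (1 - θ) * (a / 32) + θ * (b / 32) by ring]
  push_cast at k2 k3
  rw [zero_div, show -((X : ℝ) + 2) = -X - 2 by ring] at k2
  have k4 : 10 ^ 9 * (17 / 125 * RF (-X - 2) 0) ≤ 8192 * trM X := by
    linarith [(Nat.cast_nonneg (rfn (X + 2) 0).2 : (0 : ℝ) ≤ _)]
  linarith [mul_le_mul_of_nonneg_left (k a (hab.trans hb)) (sub_nonneg.2 t1),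
    mul_le_mul_of_nonneg_left (k b hb) t0,
    mul_le_mul_of_nonneg_left k4 (sq_nonneg ((b : ℝ) - a))]

/-- Clearing the denominators. -/
def trN (q : ℚ × ℚ × ℚ × ℚ) : ℕ × ℕ × ℕ × ℕ :=
  (q.1.num.toNat * (q.2.1.den * q.2.2.1.den * q.2.2.2.den),
    q.2.1.num.toNat * (q.1.den * q.2.2.1.den * q.2.2.2.den),
    q.2.2.1.num.toNat * (q.1.den * q.2.1.den * q.2.2.2.den),
    q.2.2.2.num.toNat * (q.1.den * q.2.1.den * q.2.2.1.den) * 10 ^ 9)

/-- The test at an end point of a cell. -/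
def trAcc (m1 m2 m3 : ℕ) (cs : List (ℕ × ℕ × ℕ × ℕ)) (u : (ℕ × ℕ) × (ℕ × ℕ) × ℕ × ℕ) (d : ℕ) :
    Bool :=
  cs.all fun q => (((q.1.mul (u.1.1.add (trE m1 d))).add
    (q.2.1.mul (u.2.1.2.add (trE m2 d)))).add (q.2.2.1.mul (u.2.2.2.add (trE m3 d)))).ble
      ((((q.1.mul u.1.2).add (q.2.1.mul u.2.1.1)).add (q.2.2.1.mul u.2.2.1)).add q.2.2.2)

/-- The values at a point of the grid. -/
def trP (X Y : ℚ) (k : ℕ) : (ℕ × ℕ) × (ℕ × ℕ) × ℕ × ℕ := (rfn X k, rfn Y k, rfn 0 k)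

/-- The checker. -/
def trigOk (X Y : ℚ) (cs : List (ℚ × ℚ × ℚ × ℚ)) : Bool :=
  decide (0 ≤ X ∧ X ≤ 6 ∧ 0 ≤ Y ∧ Y ≤ 6) &&
    (cs.all fun q => decide (0 ≤ q.1 ∧ 0 ≤ q.2.1 ∧ 0 ≤ q.2.2.1 ∧ 0 ≤ q.2.2.2 ∧
      q.1 * (trR X - 400 * X / (X ^ 2 + 400)) + q.2.1 * (Y * (43 / 40) + trR Y) ≤ 400 * q.2.2.2)) &&
    trGo (trP X Y) (trAcc (trM X) (trM Y) (trM 0) (cs.map trN)) 11 0 640 (trP X Y 0) (trP X Y 640)

theorem trAcc_sound {m1 m2 m3 d : ℕ} {cs : List (ℚ × ℚ × ℚ × ℚ)}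
    {u : (ℕ × ℕ) × (ℕ × ℕ) × ℕ × ℕ} (h : trAcc m1 m2 m3 (cs.map trN) u d = true)
    {q : ℚ × ℚ × ℚ × ℚ} (hq : q ∈ cs) (q1 : 0 ≤ q.1) (q2 : 0 ≤ q.2.1) (q3 : 0 ≤ q.2.2.1)
    (q4 : 0 ≤ q.2.2.2) :
    (q.1 : ℝ) * (1 * ((u.1.1 : ℝ) - u.1.2) + trE m1 d) +
      q.2.1 * (-1 * ((u.2.1.1 : ℝ) - u.2.1.2) + trE m2 d) +
      q.2.2.1 * (-1 * ((u.2.2.1 : ℝ) - u.2.2.2) + trE m3 d) ≤ 10 ^ 9 * q.2.2.2 := by
  simp only [trAcc, List.all_eq_true, Nat.ble_eq, Nat.mul_eq, Nat.add_eq] at h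
  have k := (Nat.cast_le (α := ℝ)).2 (h _ (List.mem_map_of_mem hq))
  simp only [trN] at k
  push_cast at k
  rw [tr_num q1, tr_num q2, tr_num q3, tr_num q4] at k
  have p : (0 : ℝ) < q.1.den * q.2.1.den * q.2.2.1.den * q.2.2.2.den := by
    have := q.1.pos
    have := q.2.1.pos
    have := q.2.2.1.pos
    have := q.2.2.2.pos
    positivity
  refine le_of_mul_le_mul_left ?_ p
  linarith

theorem trig_sound {X Y : ℚ} {cs : List (ℚ × ℚ × ℚ × ℚ)} (h : trigOk X Y cs = true) :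
    ∀ q ∈ cs, ∀ η : ℝ,
      q.1 * RF (-X) η - q.2.1 * RF (-Y) η - q.2.2.1 * RF 0 η ≤ q.2.2.2 := by
  simp only [trigOk, Bool.and_eq_true, decide_eq_true_eq, List.all_eq_true] at h
  obtain ⟨⟨⟨x0, x6, y0, y6⟩, h1⟩, h2⟩ := h
  intro q hq η
  obtain ⟨q1, q2, q3, q4, q5⟩ := h1 q hq
  have q1' : (0 : ℝ) ≤ q.1 := by exact_mod_cast q1
  have q2' : (0 : ℝ) ≤ q.2.1 := by exact_mod_cast q2
  have q3' : (0 : ℝ) ≤ q.2.2.1 := by exact_mod_cast q3
  rw [← RF_abs _ η, ← RF_abs (-Y) η, ← RF_abs 0 η]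
  have η0 := abs_nonneg η
  generalize |η| = y at η0
  rcases le_total y 20 with hy | hy
  · have := trGo_sound (n := 640) (G := fun η => (q.1 : ℝ) * RF (-X) (η / 32) -
      q.2.1 * RF (-Y) (η / 32) - q.2.2.1 * RF 0 (η / 32) ≤ q.2.2.2)
      (fun a b hab hb ka kb η k1 k2 => ?_)
      11 0 640 (by norm_num) le_rfl h2 (32 * y) (by push_cast; linarith) (by push_cast; linarith)
    · rwa [show 32 * y / 32 = y by ring] at this
    obtain ⟨θ, t0, t1, rfl⟩ : ∃ θ : ℝ, 0 ≤ θ ∧ θ ≤ 1 ∧ η = (1 - θ) * a + θ * b := by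
      obtain ⟨θ, ht, e⟩ := (segment_eq_image ℝ (a : ℝ) b ▸
        (Icc_subset_segment ⟨k1, k2⟩ : η ∈ segment ℝ (a : ℝ) b))
      exact ⟨θ, ht.1, ht.2, e.symm⟩
    have ka' := trAcc_sound ka hq q1 q2 q3 q4
    have kb' := trAcc_sound kb hq q1 q2 q3 q4
    simp only [trP] at ka' kb'
    have c1 := tr_cell x0 x6 (c := 1) (by simp) hab hb t0 t1
    have c2 := tr_cell y0 y6 (c := -1) (by simp) hab hb t0 t1
    have c3 := tr_cell le_rfl (by norm_num) (c := -1) (by simp) hab hb t0 t1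
    rw [Rat.cast_zero, neg_zero] at c3
    linarith [mul_le_mul_of_nonneg_left c1 q1', mul_le_mul_of_nonneg_left c2 q2',
      mul_le_mul_of_nonneg_left c3 q3', mul_le_mul_of_nonneg_left ka' (sub_nonneg.2 t1),
      mul_le_mul_of_nonneg_left kb' t0]
  · have q4' : (0 : ℝ) ≤ q.2.2.2 := by exact_mod_cast q4
    have q5' : (q.1 : ℝ) * (trR X - 400 * X / (X ^ 2 + 400)) + q.2.1 * (Y * (43 / 40) + trR Y) ≤
      400 * q.2.2.2 := by
      have := (Rat.cast_le (K := ℝ)).2 q5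
      push_cast at this
      exact this
    have y2 : 400 ≤ y ^ 2 := by nlinarith
    refine le_of_mul_le_mul_left ?_ (show 0 < y ^ 2 by linarith)
    linarith [mul_le_mul_of_nonneg_left (tr_tail x0 x6 hy).1 q1',
      mul_le_mul_of_nonneg_left (tr_tail y0 y6 hy).2 q2', mul_le_mul_of_nonneg_right y2 q4',
      mul_nonneg (sq_nonneg y) (mul_nonneg q3' (RF_zero_nonneg y))]

end Pool.Agent.Lib.MP_778b46_nt.GX
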