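import Pool.Agent.Lib.MP_778b46_nt.GX.Ce1E
import Pool.Agent.Lib.MP_778b46_nt.GX.Ce2

/- The range of a very small first zero. -/

namespace Pool.Agent.Lib.MP_778b46_nt.GX

open Finset

theorem un_dom {φ ph' l L c d0 W x : ℝ} {p : MP} (hφ : 0 ≤ φ) (hph : 0 ≤ ph') (hp : p.ok φ ph')
    (hl : 0 ≤ l) (hL : 2 * p.x1 ≤ L) (hd : 0 < d0) (hW0 : 0 ≤ W)
    (hW : (1 + d0) * Real.exp (-(L * l) - c) ≤ W * p.m φ l l) (hx : l ≤ x) :
    Real.exp (-(L * x) - c) ≤ W * if l ≤ x then p.m φ l x / (1 + d0) else 0 := by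
  have h1 := (m_mono hφ hph hp hl hL hl hx).2
  rw [if_pos hx, ← mul_div_assoc, le_div_iff₀ (by linarith)]
  refine le_of_mul_le_mul_right ?_ (Real.exp_pos (-(L * l)))
  calc _ = (1 + d0) * Real.exp (-(L * l) - c) * Real.exp (-(L * x)) := by
        simp only [sub_eq_add_neg, Real.exp_add]
        ring
    _ ≤ W * p.m φ l l * Real.exp (-(L * x)) :=
        mul_le_mul_of_nonneg_right hW (Real.exp_pos _).le
    _ ≤ _ := by
        rw [mul_assoc, mul_assoc]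
        exact mul_le_mul_of_nonneg_left h1 hW0

/-- The conclusion in the range of a very small first zero. -/
def UnifP (L T l1 s1 : ℝ) : MProp := fun _ _ _ _ _ _ D =>
  ∀ i, D.lam i ≤ s1 → (∀ j, j ≠ i → l1 ≤ D.lam j ∧
    Real.exp (-(T * D.lam j)) * s1 ≤ Real.exp (-(T * l1)) * D.lam i) → D.Tot L ≤ 1 - D.lam i

theorem unif_ev {φ L T l1 s1 U W d0 : ℝ} {pF pC : MP} {psF psC : List MP} (hF : pF ∈ psF)
    (hC : pC ∈ psC) (okF : pF.ok φ φ) (okC : pC.ok φ (1 / 1000)) (hφ : 0 ≤ φ) (hd : 0 < d0)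
    (hl : 0 ≤ l1) (hs : 0 < s1) (hL : 0 ≤ L) (h1 : 2 * pF.x1 ≤ L) (h2 : 2 * pC.x1 ≤ L - T)
    (hW0 : 0 ≤ W) (hU0 : 0 ≤ U) (hW : (1 + d0) * Real.exp (-(L * l1)) ≤ W * pF.m φ l1 l1)
    (hU : (1 + d0) * Real.exp (-(L * l1)) ≤ U * pC.m φ l1 l1)
    (h3 : (2 + W) * U + s1 ≤ 1 - Real.exp (-(2 * L * s1))) :
    Ev φ psF psC (UnifP L T l1 s1) := by
  refine ((famM psC hF hd hl).and (clsM psF hC hd hl)).mono
    fun Γ Ω ι _ _ _ D ε H hD h i hi hj => ?_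
  refine unif_thm hD (κF := Unit) (y := fun _ => W) (θ := fun _ => U) (W := W) (U := U) hL hs
    (fun _ => hW0) (fun _ => hU0) (fun _ => h.1) (fun _ => h.2) (by simp) (by simp)
    (fun x hx => ?_) (fun x hx => ?_) h3 i hi hj
  · simpa using un_dom (c := 0) hφ hφ okF hl h1 hd hW0 (by simpa using hW) hx
  · have e : -((L - T) * l1) - T * l1 = -(L * l1) := by ring
    simpa using un_dom (c := T * l1) hφ (by norm_num) okC hl h2 hd hU0 (by rwa [e]) hx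

theorem un_exp {x a : ℝ} (n : ℕ) (hx : 0 ≤ x) (h : a ≤ ∑ i ∈ range n, x ^ i / i.factorial) :
    a ≤ Real.exp x := h.trans (Real.sum_le_exp_of_nonneg hx n)

theorem un_neg {x y a : ℝ} (ha : 0 < a) (h : a ≤ Real.exp x) (hy : y ≤ -x) :
    Real.exp y ≤ 1 / a := by
  refine (Real.exp_le_exp.2 hy).trans ?_
  rw [Real.exp_neg, one_div]
  exact inv_anti₀ ha h

/-- A lower bound for the mollifier weight from bounds for the exponentials. -/
theorem un_m {φ ph' l c W d0 e1 e2 e3 e4 k1 k2 V : ℝ} {p : MP} (hφ : 0 ≤ φ) (hp : p.ok φ ph')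
    (hl : 0 ≤ l) (hd : 0 ≤ d0) (hW : 0 ≤ W)
    (a1 : Real.exp ((p.sg + 2 * l) * p.x1 - c) ≤ e1) (a2 : Real.exp ((p.sg + 2 * l) * p.x0 - c) ≤ e2)
    (a3 : Real.exp ((p.sg + 2 * l) * p.u1 - c) ≤ e3) (a4 : Real.exp ((p.sg + 2 * l) * p.u0 - c) ≤ e4)
    (b0 : 0 ≤ k2) (b1 : k1 ≤ Real.exp (p.sg * p.u)) (b2 : 1 + k2 ≤ Real.exp (p.sg * (p.v - p.u)))
    (hV : φ / 2 + 1 / (p.sg + l) ≤ V)
    (h : (1 + d0) * (((e1 + e2) / (p.x1 - p.x0) + (e3 + e4) / (p.u1 - p.u0)) * V) ≤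
      W * (p.w * (p.sg + l + l) * (k1 * k2))) :
    (1 + d0) * Real.exp (-c) ≤ W * p.m φ l l := by
  obtain ⟨c1, -, c3, -, -, -, c7, c8⟩ := hp
  have d1 : 0 < p.x1 - p.x0 := sub_pos.2 c7
  have d2 : 0 < p.u1 - p.u0 := sub_pos.2 c3
  have hE : 0 < p.E (p.sg + 2 * l) := by
    rw [MP.E]
    positivity
  have hV0 : 0 < φ / 2 + 1 / (p.sg + l) := by positivity
  have f1 : Real.exp (-c) * p.E (p.sg + 2 * l) ≤
      (e1 + e2) / (p.x1 - p.x0) + (e3 + e4) / (p.u1 - p.u0) := by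
    simp only [sub_eq_add_neg _ c, Real.exp_add] at a1 a2 a3 a4
    rw [MP.E, mul_add, ← mul_div_assoc, ← mul_div_assoc]
    exact add_le_add (div_le_div_of_nonneg_right (by linarith) d1.le)
      (div_le_div_of_nonneg_right (by linarith) d2.le)
  have f2 : k1 * k2 ≤ Real.exp (p.sg * p.v) - Real.exp (p.sg * p.u) := by
    have e : p.sg * p.v = p.sg * p.u + p.sg * (p.v - p.u) := by ring
    rw [e, Real.exp_add]
    nlinarith [Real.exp_pos (p.sg * p.u)]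
  have f3 := (mul_pos (Real.exp_pos (-c)) hE).le.trans f1
  rw [MP.m, ← mul_div_assoc, le_div_iff₀ (by positivity)]
  calc _ = (1 + d0) * ((Real.exp (-c) * p.E (p.sg + 2 * l)) * (φ / 2 + 1 / (p.sg + l))) := by ring
    _ ≤ (1 + d0) * (((e1 + e2) / (p.x1 - p.x0) + (e3 + e4) / (p.u1 - p.u0)) * V) := by gcongr
    _ ≤ _ := h.trans (by gcongr)

/-- Family parameters. -/
noncomputable def pUF : MP := ⟨0.027, 0.39, 0.392, 0.393, 0.474, 0.835, 0.925, 3⟩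

/-- Class parameters. -/
noncomputable def pUC : MP := ⟨0.027, 0.056, 0.058, 0.059, 0.14, 0.501, 0.591, 3⟩

theorem pUF_ok {φ : ℝ} (h : φ ≤ 0.334) : pUF.ok φ φ := by
  simp only [MP.ok, pUF]
  refine ⟨?_, ?_, ?_, ?_, ?_, ?_, ?_, ?_⟩ <;> linarith

theorem pUC_ok {φ : ℝ} (h : φ ≤ 0.334) : pUC.ok φ (1 / 1000) := by
  simp only [MP.ok, pUC]
  refine ⟨?_, ?_, ?_, ?_, ?_, ?_, ?_, ?_⟩ <;> linarith

theorem un_k2 : 1 + 0.275 ≤ Real.exp (3 * 0.081) :=
  un_exp 6 (by norm_num) (by norm_num [sum_range_succ, Nat.factorial])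

/-- The numerical instance: `s1 = 0.006`, `T = 1.4`, `l1 = 5.65`. -/
theorem unif_num {φ L : ℝ} {psF psC : List MP} (hF : pUF ∈ psF) (hC : pUC ∈ psC) (hφ : 0 ≤ φ)
    (hφ' : φ ≤ 0.334) (hL : 2.92 ≤ L) : Ev φ psF psC (UnifP L 1.4 5.65 0.006) := by
  have hV : φ / 2 + 1 / (3 + 5.65) ≤ 0.28261 := by
    norm_num
    linarith
  refine unif_ev (W := 0.46) (U := 0.0107) (d0 := 0.001) hF hC (pUF_ok hφ') (pUC_ok hφ') hφ
    (by norm_num) (by norm_num) (by norm_num) (by linarith) (by simp only [pUF]; linarith)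
    (by simp only [pUC]; linarith) (by norm_num) (by norm_num) ?_ ?_ ?_
  · refine un_m (e1 := 1 / 26.3) (e2 := 1 / 95) (e3 := 1 / 50000) (e4 := 1 / 50000) (k1 := 3.25)
      (k2 := 0.275) hφ (pUF_ok hφ') (by norm_num) (by norm_num) (by norm_num)
      (un_neg (x := 3.2705) (by norm_num) (un_exp 13 (by norm_num) ?_) ?_)
      (un_neg (x := 4.5575) (by norm_num) (un_exp 14 (by norm_num) ?_) ?_)
      (un_neg (x := 10.89) (by norm_num) (un_exp 18 (by norm_num) ?_) ?_)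
      (un_neg (x := 10.89) (by norm_num) (un_exp 18 (by norm_num) ?_) ?_)
      (by norm_num) (un_exp 8 ?_ ?_) (un_k2.trans (le_of_eq ?_)) hV ?_
    all_goals
      try simp only [pUF]
      linarith
  · refine un_m (e1 := 1 / 3120) (e2 := 1 / 11200) (e3 := 1 / 5000000) (e4 := 1 / 5000000)
      (k1 := 1.1936) (k2 := 0.275) hφ (pUC_ok hφ') (by norm_num) (by norm_num) (by norm_num)
      (un_neg (x := 8.0467) (by norm_num) (un_exp 20 (by norm_num) ?_) ?_)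
      (un_neg (x := 9.3337) (by norm_num) (un_exp 19 (by norm_num) ?_) ?_)
      (un_neg (x := 15.66) (by norm_num) (un_exp 21 (by norm_num) ?_) ?_)
      (un_neg (x := 15.66) (by norm_num) (un_exp 21 (by norm_num) ?_) ?_)
      (by norm_num) (un_exp 6 ?_ ?_) (un_k2.trans (le_of_eq ?_)) hV ?_
    all_goals
      try simp only [pUC]
      linarith
  · have := un_neg (x := 0.03504) (y := -(2 * L * 0.006)) (a := 1.03504) (by norm_num)
      (by linarith [Real.add_one_le_exp 0.03504]) (by linarith)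
    norm_num at this ⊢
    linarith

end Pool.Agent.Lib.MP_778b46_nt.GX
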