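import Pool.Agent.Lib.MP_e97e2b_nt.Weil

/- The independence lemma for the method of Stepanov on the curve `y ^ n = g x`. -/

namespace Pool.Agent.Lib.MP_778b46_nt.GX

open Polynomial Module

variable {F : Type} [Field F]

lemma ws_mult_pow {p : F[X]} (hp : p ≠ 0) (z : F) (k : ℕ) :
    (p ^ k).rootMultiplicity z = k * p.rootMultiplicity z := by
  induction k with
  | zero => simp
  | succ k ih =>
    rw [pow_succ, rootMultiplicity_mul (mul_ne_zero (pow_ne_zero _ hp) hp), ih]
    ring

lemma ws_irr {n : ℕ} (hn : 0 < n) {γ : F[X]} (hγ : γ ≠ 0)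
    (h : ∀ s, 0 < s → s < n → ∃ z : F, ¬ n ∣ s * γ.rootMultiplicity z) :
    Irreducible (X ^ n - C γ : F[X][X]) := by
  have hm : (X ^ n - C γ : F[X][X]).Monic := monic_X_pow_sub_C γ hn.ne'
  rw [hm.irreducible_iff_natDegree]
  refine ⟨fun h1 => ?_, fun f g hf hg hfg => ?_⟩
  · have := congrArg natDegree h1
    rw [natDegree_X_pow_sub_C, natDegree_one] at this
    omega
  by_contra hne
  push Not at hne
  have hdeg : f.natDegree + g.natDegree = n := by
    rw [← hf.natDegree_mul hg, hfg, natDegree_X_pow_sub_C]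
  obtain ⟨z, hz⟩ := h f.natDegree (Nat.pos_of_ne_zero hne.1) (by omega)
  apply hz
  let L := AlgebraicClosure (FractionRing F[X])
  let φ : F[X] →+* L := (algebraMap (FractionRing F[X]) L).comp (algebraMap F[X] (FractionRing F[X]))
  have hφ : Function.Injective φ :=
    (algebraMap (FractionRing F[X]) L).injective.comp (IsFractionRing.injective _ _)
  have hs : (f.map φ).Splits := IsAlgClosed.splits _
  have hfm : (f.map φ).Monic := hf.map φ
  have hnd : (f.map φ).natDegree = f.natDegree := hf.natDegree_map φ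
  have h0 : φ (f.coeff 0) = (-1) ^ f.natDegree * (f.map φ).roots.prod := by
    rw [← coeff_map, hs.coeff_zero_eq_prod_roots_of_monic hfm, hnd]
  have hr : ∀ β ∈ (f.map φ).roots, β ^ n = φ γ := by
    intro β hβ
    have h1 : (f.map φ).eval β = 0 := (mem_roots hfm.ne_zero).1 hβ
    have h2 := congrArg (fun u : F[X][X] => (u.map φ).eval β) hfg
    simp only [Polynomial.map_mul, eval_mul, h1, zero_mul, Polynomial.map_sub, Polynomial.map_pow,
      map_X, map_C, eval_sub, eval_pow, eval_X, eval_C] at h2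
    exact (sub_eq_zero.1 h2.symm)
  have h1 : (f.map φ).roots.prod ^ n = φ γ ^ f.natDegree := by
    have e := Multiset.prod_map_pow (m := (f.map φ).roots) (f := id) (n := n)
    rw [Multiset.map_id, Multiset.map_congr rfl (f := fun i => id i ^ n) (g := fun _ => φ γ)
      (fun β hβ => hr β hβ),
      Multiset.map_const', Multiset.prod_replicate, ← hs.natDegree_eq_card_roots, hnd] at e
    exact e.symm
  have h2 : f.coeff 0 ^ n = C ((-1) ^ (f.natDegree * n)) * γ ^ f.natDegree := by
    apply hφ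
    rw [map_pow, h0, mul_pow, h1, map_mul, map_pow φ γ, ← pow_mul]
    simp
  have h3 : C ((-1 : F) ^ (f.natDegree * n)) * γ ^ f.natDegree ≠ 0 :=
    mul_ne_zero (by simp) (pow_ne_zero _ hγ)
  have h4 : f.coeff 0 ≠ 0 := by
    intro h5
    rw [h5, zero_pow hn.ne'] at h2
    exact h3 h2.symm
  have h5 := congrArg (rootMultiplicity z) h2
  rw [ws_mult_pow h4, rootMultiplicity_mul h3, rootMultiplicity_C, ws_mult_pow hγ, zero_add] at h5
  exact ⟨_, h5.symm⟩

lemma ws_det {ι : Type} [Fintype ι] [DecidableEq ι] (M : Matrix ι ι F[X]) (b : ι → ℕ)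
    (h : ∀ i j, (M i j).natDegree ≤ b j) : M.det.natDegree ≤ ∑ j, b j := by
  rw [Matrix.det_apply']
  refine natDegree_sum_le_of_forall_le _ _ fun σ _ => natDegree_mul_le.trans ?_
  rw [natDegree_intCast, zero_add]
  exact (natDegree_prod_le _ _).trans (Finset.sum_le_sum fun j _ => h _ _)

lemma ws_res_deg (f g : F[X][X]) (a b A B : ℕ) (hf : ∀ i, (f.coeff i).natDegree ≤ A)
    (hg : ∀ i, (g.coeff i).natDegree ≤ B) :
    (resultant f g a b).natDegree ≤ a * B + b * A := by
  refine (ws_det _ (fun j => Fin.addCases (fun _ => B) (fun _ => A) j) ?_).trans ?_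
  · intro i j
    refine Fin.addCases (fun j => ?_) (fun j => ?_) j
    · simp only [sylvester, Matrix.of_apply, Fin.addCases_left]
      split_ifs
      · exact hg _
      · simp
    · simp only [sylvester, Matrix.of_apply, Fin.addCases_right]
      split_ifs
      · exact hf _
      · simp
  · rw [Fin.sum_univ_add]
    simp

lemma ws_res_ne {n : ℕ} (hn : 0 < n) {E u : F[X][X]} (hE : E.Monic) (hd : E.natDegree = n)
    (hirr : Irreducible E) (hu : u ≠ 0) (hud : u.natDegree ≤ n - 1) :
    resultant E u n (n - 1) ≠ 0 := by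
  let K := FractionRing F[X]
  let φ : F[X] →+* K := algebraMap F[X] K
  have hφ : Function.Injective φ := IsFractionRing.injective _ _
  have h1 : Irreducible (E.map φ) := (hE.irreducible_iff_irreducible_map_fraction_map (K := K)).1 hirr
  have hu' : u.map φ ≠ 0 := (Polynomial.map_ne_zero_iff hφ).2 hu
  have hud' : (u.map φ).natDegree ≤ n - 1 := natDegree_map_le.trans hud
  have hd' : (E.map φ).natDegree = n := (hE.natDegree_map φ).trans hd
  have h2 : IsCoprime (E.map φ) (u.map φ) := by
    rcases h1.isCoprime_or_dvd (u.map φ) with h | h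
    · exact h
    · have := natDegree_le_of_dvd h hu'
      omega
  have h3 := resultant_ne_zero _ _ h2
  intro h0
  have h4 : resultant (E.map φ) (u.map φ) n (n - 1) = 0 := by
    rw [resultant_map_map, h0, map_zero]
  obtain ⟨t, ht⟩ := Nat.exists_eq_add_of_le hud'
  rw [ht, resultant_add_right_deg _ _ _ _ _ le_rfl, ← hd', (hE.map φ).coeff_natDegree, one_pow,
    one_mul] at h4
  exact h3 h4

lemma ws_key [Fintype F] {g : F[X]} (hg0 : g.eval 0 ≠ 0) {n c D : ℕ} (hn : 0 < n)
    (hc : n * c + 1 = Fintype.card F)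
    (hirr : ∀ s, 0 < s → s < n → ∃ z : F, ¬ n ∣ s * g.rootMultiplicity z)
    (hD : n * (D + g.natDegree) < Fintype.card F) (r : Fin n → F[X])
    (hr : ∀ i, (r i).natDegree ≤ D)
    (h : X ^ Fintype.card F ∣ ∑ i, r i * g ^ (c * (i : ℕ))) : ∀ i, r i = 0 := by
  have hg : g ≠ 0 := by rintro rfl; simp at hg0
  set q := Fintype.card F with hq
  have h1 : X ^ q ∣ g ^ q - C (g.eval 0) := by
    have := map_dvd (expand F q) (X_dvd_sub_C (p := g))
    rwa [map_sub, expand_C, expand_X, FiniteField.expand_card, coeff_zero_eq_eval_zero] at this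
  set γ : F[X] := C (g.eval 0)⁻¹ * g with hγ
  have hγ0 : γ ≠ 0 := mul_ne_zero (by simpa using hg0) hg
  have hγm : ∀ z, γ.rootMultiplicity z = g.rootMultiplicity z := fun z => by
    rw [hγ, rootMultiplicity_mul hγ0, rootMultiplicity_C, zero_add]
  let u : F[X][X] := ∑ i : Fin n, monomial (n - 1 - i) (r i)
  have hcoef : ∀ i : Fin n, u.coeff (n - 1 - i) = r i := by
    intro i
    simp only [u, finsetSum_coeff, coeff_monomial]
    rw [Finset.sum_eq_single i]
    · simp
    · intro j _ hj
      rw [if_neg]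
      intro e
      exact hj (Fin.ext (by have := i.2; have := j.2; omega))
    · simp
  by_cases hu : u = 0
  · intro i
    rw [← hcoef i, hu, coeff_zero]
  exfalso
  have hud : u.natDegree ≤ n - 1 :=
    natDegree_sum_le_of_forall_le _ _ fun i _ => (natDegree_monomial_le _).trans (by omega)
  have hE : (X ^ n - C γ : F[X][X]).Monic := monic_X_pow_sub_C γ hn.ne'
  have hEd : (X ^ n - C γ : F[X][X]).natDegree = n := natDegree_X_pow_sub_C
  refine ws_res_ne hn hE hEd (ws_irr hn hγ0 (by simpa only [hγm] using hirr)) hu hud ?_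
  have hdeg := ws_res_deg (X ^ n - C γ) u n (n - 1) g.natDegree D (fun i => by
      rw [coeff_sub, coeff_X_pow, coeff_C]
      refine (natDegree_sub_le _ _).trans (max_le ?_ ?_)
      · split_ifs <;> simp
      · split_ifs
        · exact natDegree_C_mul_le _ _
        · simp) (fun i => by
      simp only [u, finsetSum_coeff, coeff_monomial]
      refine natDegree_sum_le_of_forall_le _ _ fun j _ => ?_
      split_ifs
      · exact hr j
      · simp)
  refine eq_zero_of_dvd_of_natDegree_lt (p := X ^ q) ?_ ?_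
  swap
  · rw [natDegree_X_pow]
    have : (n - 1) * g.natDegree ≤ n * g.natDegree := Nat.mul_le_mul_right _ (by omega)
    rw [mul_add] at hD
    omega
  obtain ⟨a, b, -, -, hab⟩ := exists_mul_add_mul_eq_C_resultant (X ^ n - C γ) u hEd.le hud
    (Or.inl hn.ne')
  let π : F[X] →+* F[X] ⧸ Ideal.span {(X : F[X]) ^ q} := Ideal.Quotient.mk _
  have hπ : ∀ y, π y = 0 ↔ X ^ q ∣ y := fun y => by
    rw [Ideal.Quotient.eq_zero_iff_mem, Ideal.mem_span_singleton]
  have h2 : π g ^ q = π (C (g.eval 0)) := by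
    rw [← map_pow, ← sub_eq_zero, ← map_sub, hπ]
    exact h1
  have h3 : π (C (g.eval 0)⁻¹) * π (C (g.eval 0)) = 1 := by
    rw [← map_mul, ← C_mul, inv_mul_cancel₀ hg0, C_1, map_one]
  set G := π g ^ c with hG
  set w := π (C (g.eval 0)⁻¹) * π g * G ^ (n - 1) with hw
  have h4 : π g * G ^ n = π (C (g.eval 0)) := by
    rw [← h2, hG, ← pow_mul, ← pow_succ', mul_comm c n, hc]
  have h5 : w * G = 1 := by
    rw [hw, mul_assoc, ← pow_succ, Nat.sub_add_cancel hn, mul_assoc, h4, h3]
  have h6 : w ^ n = π γ := by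
    have e1 : (w * G) ^ n = 1 := by rw [h5, one_pow]
    rw [hγ, map_mul]
    calc w ^ n = w ^ n * (π (C (g.eval 0)⁻¹) * (π g * G ^ n)) := by rw [h4, h3, mul_one]
      _ = π (C (g.eval 0)⁻¹) * π g * (w * G) ^ n := by ring
      _ = _ := by rw [e1, mul_one]
  have h7 : eval₂ π w u = 0 := by
    have e1 := (hπ _).2 h
    have e2 : eval₂ π w u = w ^ (n - 1) * π (∑ i, r i * g ^ (c * (i : ℕ))) := by
      simp only [u, eval₂_finsetSum, eval₂_monomial, map_sum, map_mul, map_pow, Finset.mul_sum]
      refine Finset.sum_congr rfl fun i _ => ?_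
      have e3 : w ^ (n - 1) = w ^ (n - 1 - i) * w ^ (i : ℕ) := by
        rw [← pow_add]
        congr 1
        have := i.2
        omega
      have e4 : (w * G) ^ (i : ℕ) = 1 := by rw [h5, one_pow]
      rw [e3, pow_mul, ← hG]
      calc π (r i) * w ^ (n - 1 - i) = π (r i) * w ^ (n - 1 - i) * (w * G) ^ (i : ℕ) := by
            rw [e4, mul_one]
        _ = _ := by ring
    rw [e2, e1, mul_zero]
  have h8 := congrArg (eval₂ π w) hab
  rw [eval₂_add, eval₂_mul, eval₂_mul, h7, eval₂_sub, eval₂_X_pow, eval₂_C, eval₂_C, h6, sub_self,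
    zero_mul, zero_mul, add_zero] at h8
  exact (hπ _).1 h8.symm

end Pool.Agent.Lib.MP_778b46_nt.GX
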