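import Pool.Agent.Lib.MP_778b46_nt.GX.WeilK

/- The method of Stepanov for characters of order dividing `n`, with a constant depending on `n`. -/

namespace Pool.Agent.Lib.MP_778b46_nt.GX

open Polynomial Module Pool.Agent.Lib.MP_e97e2b_nt

variable {F : Type} [Field F]

lemma ws_count [Fintype F] [DecidableEq F] {g : F[X]} (hg : g.Monic) (hg0 : g.eval 0 ≠ 0)
    {n c D J l : ℕ} (hn : 0 < n) (hc : n * c + 1 = Fintype.card F)
    (hirr : ∀ s, 0 < s → s < n → ∃ z : F, ¬ n ∣ s * g.rootMultiplicity z)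
    (hD : n * (D + g.natDegree) < Fintype.card F) (hl : l ≤ Fintype.card F)
    (hdim : l * (l * g.natDegree + D + J + 1) < J * (n * D)) {a : F} (ha : a ≠ 0) :
    l * (Finset.univ.filter fun x => g.eval x ^ c = a).card
      ≤ (l + c * (n - 1)) * g.natDegree + D + (J - 1) * Fintype.card F := by
  set m := g.natDegree with hm
  set q := Fintype.card F with hq
  have hsplit : ∀ i : Fin n, c * (n - 1) = c * (n - 1 - i) + c * i := fun i => by
    rw [← mul_add]
    congr 1
    have := i.2
    omega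
  let T : ℕ → (Fin J → Fin n → degreeLT F D) →ₗ[F] F[X] := fun k =>
    ∑ j : Fin J, LinearMap.mulRight F (X ^ (j : ℕ)) ∘ₗ
      ((∑ i : Fin n, LinearMap.mulLeft F (C (a ^ (i : ℕ)) * g ^ (c * (n - 1 - i))) ∘ₗ
        hasseDeriv k ∘ₗ LinearMap.mulLeft F (g ^ (l + c * i)) ∘ₗ
          (degreeLT F D).subtype ∘ₗ LinearMap.proj i) ∘ₗ LinearMap.proj j)
  have hT : ∀ k v, T k v = ∑ j : Fin J, (∑ i : Fin n, C (a ^ (i : ℕ)) * g ^ (c * (n - 1 - i)) *
      hasseDeriv k (g ^ (l + c * i) * (v j i : F[X]))) * X ^ (j : ℕ) := by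
    intro k v
    simp [T, Finset.sum_mul, mul_assoc]
  let W : Fin l → Submodule F F[X] := fun k =>
    (degreeLT F (l * m + D + J + 1)).map (LinearMap.mulLeft F (g ^ (l + c * (n - 1) - k)))
  have hW : ∀ (k : Fin l) v, T k v ∈ W k := by
    intro k v
    have hk := k.2
    apply wl_mem hg
    · rw [hT]
      refine Finset.dvd_sum fun j _ => Dvd.dvd.mul_right (Finset.dvd_sum fun i _ => ?_) _
      rw [show l + c * (n - 1) - k = c * (n - 1 - i) + (l + c * i - k) by
        have := hsplit i; omega, pow_add, mul_assoc]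
      exact (mul_dvd_mul_left _ (wl_dvd _ _ _ _)).mul_left _
    · have h1 : (T k v).natDegree ≤ (l + c * (n - 1)) * m + D + J := by
        rw [hT]
        refine natDegree_sum_le_of_forall_le _ _ fun j _ => ?_
        refine natDegree_mul_le.trans ?_
        rw [natDegree_X_pow]
        refine add_le_add (natDegree_sum_le_of_forall_le _ _ fun i _ => ?_) j.2.le
        rw [mul_assoc]
        refine (natDegree_C_mul_le _ _).trans (natDegree_mul_le.trans ?_)
        have h2 := natDegree_hasseDeriv_le (g ^ (l + c * i) * (v j i : F[X])) k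
        have h3 := natDegree_mul_le (p := g ^ (l + c * i)) (q := (v j i : F[X]))
        have h4 := wl_natDegree (v j i)
        rw [hg.natDegree_pow, ← hm] at h3 ⊢
        have h5 : (l + c * (n - 1)) * m = c * (n - 1 - i) * m + (l + c * i) * m := by
          rw [hsplit i]; ring
        omega
      have h5 : (l + c * (n - 1)) * m ≤ (l + c * (n - 1) - k) * m + l * m := by
        rw [← add_mul]
        exact Nat.mul_le_mul_right _ (by omega)
      rw [← hm]
      omega
  let L : (Fin J → Fin n → degreeLT F D) →ₗ[F] (∀ k : Fin l, W k) :=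
    LinearMap.pi fun k => (T k).codRestrict (W k) (hW k)
  have hker := LinearMap.ker_ne_bot_of_finrank_lt (f := L) (by
    rw [Module.finrank_pi_fintype, Module.finrank_pi_fintype]
    simp only [Module.finrank_pi_fintype, wl_finrank, Finset.sum_const, Finset.card_univ,
      Fintype.card_fin, smul_eq_mul]
    have h1 : ∑ k : Fin l, finrank F (W k) ≤ ∑ _k : Fin l, (l * m + D + J + 1) :=
      Finset.sum_le_sum fun k _ => (Submodule.finrank_map_le _ _).trans (wl_finrank _).le
    simp only [Finset.sum_const, Finset.card_univ, Fintype.card_fin, smul_eq_mul] at h1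
    omega)
  obtain ⟨v, hv, hv0⟩ := (Submodule.ne_bot_iff _).1 hker
  have hv' : ∀ k < l, T k v = 0 := fun k hk =>
    congrArg Subtype.val (congrFun (LinearMap.mem_ker.1 hv) ⟨k, hk⟩)
  let G : Fin J → F[X] := fun j => ∑ i : Fin n, g ^ (l + c * i) * (v j i : F[X])
  set R := ∑ j, G j * (X ^ q) ^ (j : ℕ) with hR
  have hR0 : R ≠ 0 := by
    intro h0
    have e : R = g ^ l * ∑ j, (∑ i : Fin n, (v j i : F[X]) * g ^ (c * (i : ℕ))) *
        (X ^ q) ^ (j : ℕ) := by
      rw [hR, Finset.mul_sum]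
      refine Finset.sum_congr rfl fun j _ => ?_
      simp only [G]
      rw [← mul_assoc, Finset.mul_sum]
      congr 1
      exact Finset.sum_congr rfl fun i _ => by ring
    rw [e, mul_eq_zero] at h0
    have hk := fun j (h : X ^ q ∣ ∑ i : Fin n, (v j i : F[X]) * g ^ (c * (i : ℕ))) =>
      ws_key hg0 hn hc hirr hD (fun i => (v j i : F[X])) (fun i => wl_natDegree (v j i)) h
    have h1 := wl_indep (q := q) (fun j => ∑ i : Fin n, (v j i : F[X]) * g ^ (c * (i : ℕ)))
      (fun j h => Finset.sum_eq_zero fun i _ => by rw [hk j h i, zero_mul])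
      (h0.resolve_left (hg.pow l).ne_zero)
    apply hv0
    funext j i
    exact Subtype.ext (hk j (by rw [h1 j]; exact dvd_zero _) i)
  have hdeg : R.natDegree ≤ (l + c * (n - 1)) * m + D + (J - 1) * q := by
    refine natDegree_sum_le_of_forall_le _ _ fun j _ => natDegree_mul_le.trans ?_
    rw [← pow_mul, natDegree_X_pow]
    refine add_le_add (natDegree_sum_le_of_forall_le _ _ fun i _ => ?_) ?_
    · have h3 := natDegree_mul_le (p := g ^ (l + c * i)) (q := (v j i : F[X]))
      have h4 := wl_natDegree (v j i)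
      rw [hg.natDegree_pow, ← hm] at h3
      have h5 : (l + c * (n - 1)) * m = c * (n - 1 - i) * m + (l + c * i) * m := by
        rw [hsplit i]; ring
      omega
    · rw [mul_comm]
      exact Nat.mul_le_mul_right _ (by have := j.2; omega)
  set S := Finset.univ.filter fun x => g.eval x ^ c = a with hS
  have hdvd : ∏ x ∈ S, (X - C x) ^ l ∣ R := by
    refine Finset.prod_dvd_of_coprime (fun x _ y _ hxy =>
      (pairwise_coprime_X_sub_C (s := id) Function.injective_id hxy).pow) fun x hx => ?_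
    have hx' : g.eval x ^ c = a := (Finset.mem_filter.1 hx).2
    refine wl_vanish x (wl_frob x) hl G fun k hk => ?_
    have h1 := congrArg (eval x) (hv' k hk)
    rw [hT, eval_finsetSum, eval_zero] at h1
    apply mul_left_cancel₀ (pow_ne_zero (n - 1) ha)
    rw [mul_zero, ← h1, Finset.mul_sum]
    refine Finset.sum_congr rfl fun j _ => ?_
    simp only [G, map_sum, eval_finsetSum, eval_mul, eval_pow, eval_C, eval_X]
    rw [← mul_assoc, Finset.mul_sum]
    congr 1
    refine Finset.sum_congr rfl fun i _ => ?_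
    rw [pow_mul, hx', ← pow_add, show (i : ℕ) + (n - 1 - i) = n - 1 by have := i.2; omega]
  have h1 := natDegree_le_of_dvd hdvd hR0
  rw [natDegree_prod_of_monic _ _ fun x _ => (monic_X_sub_C x).pow l] at h1
  simp only [natDegree_pow, natDegree_X_sub_C, mul_one, Finset.sum_const, smul_eq_mul] at h1
  rw [mul_comm]
  omega

lemma ws_count' [Fintype F] [DecidableEq F] {g : F[X]} (hg : g.Monic) (hg0 : g.eval 0 ≠ 0)
    {n c : ℕ} (hn : 0 < n) (hc : n * c + 1 = Fintype.card F)
    (hirr : ∀ s, 0 < s → s < n → ∃ z : F, ¬ n ∣ s * g.rootMultiplicity z)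
    (hq : 4 * n * (g.natDegree + 1) ≤ Nat.sqrt (Fintype.card F)) {a : F} (ha : a ≠ 0) :
    (n : ℝ) * ((Finset.univ.filter fun x => g.eval x ^ c = a).card : ℝ)
      ≤ Fintype.card F + ((n + 2) * g.natDegree + 12 * n * (n * g.natDegree + 1) + 4) *
        Real.sqrt (Fintype.card F) := by
  set m := g.natDegree with hm
  set q := Fintype.card F with hqq
  set s := Nat.sqrt q with hs
  have hs1 : s * s ≤ q := Nat.sqrt_le q
  have hs2 : q < (s + 1) * (s + 1) := Nat.lt_succ_sqrt q
  have hn1 : n ≤ s := by nlinarith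
  have hs0 : 1 ≤ s := by omega
  have hc1 : 3 * ((m + 1) * s) ≤ c := by
    have h1 : 4 * n * (m + 1) * s ≤ n * c + 1 := by
      rw [hc]; exact (Nat.mul_le_mul_right s hq).trans hs1
    have h2 : 1 ≤ (m + 1) * s := Nat.mul_pos (by omega) hs0
    by_contra h3
    push Not at h3
    have h4 : n * c ≤ n * (3 * ((m + 1) * s)) := Nat.mul_le_mul_left n h3.le
    have h5 : 1 * 1 ≤ n * ((m + 1) * s) := Nat.mul_le_mul hn h2
    have h6 : n * (c + 1) ≤ n * (3 * ((m + 1) * s)) := Nat.mul_le_mul_left n h3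
    nlinarith
  have hms : m + 1 ≤ (m + 1) * s := Nat.le_mul_of_pos_right _ hs0
  have hms' : s ≤ (m + 1) * s := Nat.le_mul_of_pos_left _ (by omega)
  set D := c - m with hD
  have hDc : D + m = c := by omega
  have hD2 : 2 * s ≤ D := by omega
  have hD3 : c ≤ 2 * D := by omega
  set K := 6 * (n * (n * m + 1)) + 2 with hK
  have h1 := ws_count hg hg0 (D := D) (J := s + K) (l := n * s) hn hc hirr
    (by rw [← hm, hDc]; omega) ((Nat.mul_le_mul_right s hn1).trans hs1) (by
      rw [← hm]
      have h2 : s * s ≤ 3 * (n * D) := by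
        have h3 : n * c ≤ n * (2 * D) := Nat.mul_le_mul_left n hD3
        have h4 : 1 * 1 ≤ n * D := Nat.mul_le_mul hn (by omega)
        nlinarith
      have h3 : s * s * (n * m + 1) ≤ 3 * (n * D) * (n * m + 1) := Nat.mul_le_mul_right _ h2
      have h4 : 2 * s * (K + 1) ≤ D * (K + 1) := Nat.mul_le_mul_right _ hD2
      have h5 : s * (n * s * m + s + K + 1) < K * D := by
        have h6 : 0 < D := by omega
        rw [hK] at h4 ⊢
        nlinarith
      have h6 := Nat.mul_lt_mul_of_pos_left h5 hn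
      nlinarith) ha
  rw [← hm, ← hqq] at h1
  set N := (Finset.univ.filter fun x => g.eval x ^ c = a).card
  have h2 : n * s * N ≤ s * q + n * s * m + (m + K) * q := by
    have h3 : c * (n - 1) * m ≤ q * m := by
      refine Nat.mul_le_mul_right _ ?_
      have : c * (n - 1) ≤ c * n := Nat.mul_le_mul_left _ (by omega)
      rw [mul_comm c n] at this
      omega
    have h4 : (s + K - 1) * q + q = (s + K) * q := by
      rw [← Nat.succ_mul]
      congr 1
    have h5 : D ≤ q := by
      have : 1 * c ≤ n * c := Nat.mul_le_mul_right _ hn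
      omega
    nlinarith
  have h3 : (n * s * N : ℝ) ≤ s * q + n * s * m + (m + K) * q := by exact_mod_cast h2
  have hsq : Real.sqrt q * Real.sqrt q = q := Real.mul_self_sqrt (by positivity)
  have h4 : Real.sqrt q ≤ 2 * s := by
    rw [Real.sqrt_le_left (by positivity)]
    have : q ≤ (2 * s) ^ 2 := by nlinarith
    exact_mod_cast this
  have h5 : (1 : ℝ) ≤ Real.sqrt q := by
    rw [Real.one_le_sqrt]
    exact_mod_cast (by omega : 1 ≤ q)
  have h6 : (0 : ℝ) < s := by exact_mod_cast (by omega : 0 < s)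
  have h7 : (q : ℝ) ≤ 2 * s * Real.sqrt q := by nlinarith
  have hK' : (K : ℝ) = 6 * (n * (n * m + 1)) + 2 := by rw [hK]; push_cast; ring
  refine le_of_mul_le_mul_left ?_ h6
  have h8 : ((m : ℝ) + K) * q ≤ (m + K) * (2 * s * Real.sqrt q) := by gcongr
  have h9 : (n * s * m : ℝ) ≤ n * s * m * Real.sqrt q := le_mul_of_one_le_right (by positivity) h5
  have e : (s : ℝ) * (q + ((n + 2) * m + 12 * n * (n * m + 1) + 4) * Real.sqrt q) =
      s * q + n * s * m * Real.sqrt q + (m + K) * (2 * s * Real.sqrt q) := by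
    rw [hK']; ring
  rw [e]
  linarith

lemma ws_norm_le {n : ℕ} (hn : 0 < n) (ψ : F →* ℂ) (h0 : ψ 0 = 0)
    (hψ : ∀ y, y ≠ 0 → ψ y ^ n = 1) (y : F) : ‖ψ y‖ ≤ 1 := by
  by_cases hy : y = 0
  · simp [hy, h0]
  · exact (Complex.norm_eq_one_of_pow_eq_one (hψ y hy) hn.ne').le

lemma ws_sum [Fintype F] {g : F[X]} (hg : g.Monic) (hg0 : g.eval 0 ≠ 0)
    {n c : ℕ} (hn : 0 < n) (hc : n * c + 1 = Fintype.card F)
    (hirr : ∀ s, 0 < s → s < n → ∃ z : F, ¬ n ∣ s * g.rootMultiplicity z)
    (hq : 4 * n * (g.natDegree + 1) ≤ Nat.sqrt (Fintype.card F))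
    (ψ : F →* ℂ) (h0 : ψ 0 = 0) (hψ : ∀ y, y ≠ 0 → ψ y ^ n = 1) (h1 : ∃ y, y ≠ 0 ∧ ψ y ≠ 1) :
    ‖∑ x : F, ψ (g.eval x)‖ ≤ ((n + 3) * g.natDegree + 12 * n * (n * g.natDegree + 1) + 4) *
        Real.sqrt (Fintype.card F) := by
  classical
  obtain ⟨γ, hγ⟩ := IsCyclic.exists_monoid_generator (α := Fˣ)
  have hγ' : ∀ y : F, y ≠ 0 → ∃ t : ℕ, y = (γ : F) ^ t := fun y hy => by
    obtain ⟨t, ht⟩ := hγ (Units.mk0 y hy)
    exact ⟨t, by simpa using (congrArg Units.val ht).symm⟩
  have hord : orderOf γ = n * c := by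
    rw [orderOf_eq_card_of_forall_mem_powers hγ, Nat.card_eq_fintype_card, Fintype.card_units]
    omega
  have hc0 : c ≠ 0 := by
    rintro rfl
    have := Fintype.one_lt_card (α := F)
    omega
  set μ := ψ γ with hμ
  have hμn : μ ^ n = 1 := hψ _ γ.ne_zero
  have hμ1 : μ ≠ 1 := by
    intro h
    obtain ⟨y, hy, hy1⟩ := h1
    obtain ⟨t, rfl⟩ := hγ' y hy
    exact hy1 (by rw [map_pow, ← hμ, h, one_pow])
  have hμ0 : ∑ i ∈ Finset.range n, μ ^ i = 0 := by
    have := mul_geom_sum μ n
    rw [hμn, sub_self, mul_eq_zero] at this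
    exact this.resolve_left (sub_ne_zero.2 hμ1)
  have hμa : ‖μ‖ = 1 := Complex.norm_eq_one_of_pow_eq_one hμn hn.ne'
  have hcls : ∀ t i : ℕ, i < n → (((γ : F) ^ t) ^ c = ((γ : F) ^ i) ^ c ↔ i = t % n) := by
    intro t i hi
    rw [← pow_mul, ← pow_mul, ← Units.val_pow_eq_pow_val, ← Units.val_pow_eq_pow_val,
      Units.val_inj, pow_eq_pow_iff_modEq, hord, Nat.ModEq.mul_right_cancel_iff' hc0,
      Nat.ModEq, Nat.mod_eq_of_lt hi, eq_comm]
  let N : ℕ → ℕ := fun i => (Finset.univ.filter fun x => g.eval x ^ c = ((γ : F) ^ i) ^ c).card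
  have hpt : ∀ (x : F) (w : ℕ → ℂ),
      ∑ i ∈ Finset.range n, (if g.eval x ^ c = ((γ : F) ^ i) ^ c then w i else 0) =
        if h : g.eval x = 0 then 0 else w ((hγ' _ h).choose % n) := by
    intro x w
    split_ifs with h
    · refine Finset.sum_eq_zero fun i _ => if_neg ?_
      rw [h, zero_pow hc0]
      exact (pow_ne_zero _ (pow_ne_zero _ γ.ne_zero)).symm
    · have ht := (hγ' _ h).choose_spec
      generalize (hγ' _ h).choose = t at ht
      rw [Finset.sum_eq_single_of_mem (t % n) (Finset.mem_range.2 (Nat.mod_lt _ hn))]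
      · rw [if_pos]
        rw [ht, hcls _ _ (Nat.mod_lt _ hn)]
      · intro i hi hne
        rw [if_neg]
        rw [ht, hcls _ _ (Finset.mem_range.1 hi)]
        exact hne
  have hsw : ∀ w : ℕ → ℂ, ∑ x : F, ∑ i ∈ Finset.range n,
      (if g.eval x ^ c = ((γ : F) ^ i) ^ c then w i else 0) =
        ∑ i ∈ Finset.range n, (N i : ℂ) * w i := by
    intro w
    rw [Finset.sum_comm]
    refine Finset.sum_congr rfl fun i _ => ?_
    rw [← Finset.sum_filter, Finset.sum_const, nsmul_eq_mul]
  have e1 : ∑ x : F, ψ (g.eval x) = ∑ i ∈ Finset.range n, (N i : ℂ) * μ ^ i := by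
    rw [← hsw]
    refine Finset.sum_congr rfl fun x _ => ?_
    rw [hpt]
    split_ifs with h
    · rw [h, h0]
    · have ht := (hγ' _ h).choose_spec
      generalize (hγ' _ h).choose = t at ht
      rw [ht, map_pow, ← hμ]
      conv_lhs => rw [← Nat.div_add_mod t n, pow_add, pow_mul, hμn, one_pow, one_mul]
  have e2 : (Fintype.card F : ℝ) ≤ ∑ i ∈ Finset.range n, (N i : ℝ) + g.natDegree := by
    have h2 := hsw fun _ => 1
    simp only [hpt, dite_eq_ite, mul_one] at h2
    rw [Finset.sum_ite, Finset.sum_const_zero, zero_add, Finset.sum_const, nsmul_eq_mul,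
      mul_one] at h2
    have h3 : (Finset.univ.filter fun x => ¬ g.eval x = 0).card = ∑ i ∈ Finset.range n, N i := by
      exact_mod_cast h2
    have h4 : (Finset.univ.filter fun x => g.eval x = 0).card ≤ g.natDegree := by
      have : (Finset.univ.filter fun x => g.eval x = 0) ⊆ g.roots.toFinset := by
        intro x hx
        simpa [hg.ne_zero] using hx
      exact (Finset.card_le_card this).trans ((Multiset.toFinset_card_le _).trans (card_roots' g))
    have h5 := Finset.card_filter_add_card_filter_not (s := (Finset.univ : Finset F))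
      fun x => g.eval x = 0
    rw [Finset.card_univ] at h5
    have h6 : Fintype.card F ≤ ∑ i ∈ Finset.range n, N i + g.natDegree := by omega
    exact_mod_cast h6
  set B : ℝ := Fintype.card F + ((n + 2) * g.natDegree + 12 * n * (n * g.natDegree + 1) + 4) *
    Real.sqrt (Fintype.card F) with hB
  have hn' : (0 : ℝ) < n := by exact_mod_cast hn
  have hN : ∀ i, (N i : ℝ) ≤ B / n := fun i => by
    rw [le_div_iff₀ hn', mul_comm]
    exact ws_count' hg hg0 hn hc hirr hq (pow_ne_zero _ (pow_ne_zero _ γ.ne_zero))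
  have e3 : ∑ x : F, ψ (g.eval x) =
      ∑ i ∈ Finset.range n, (((N i : ℝ) - B / n : ℝ) : ℂ) * μ ^ i := by
    rw [e1]
    simp only [Complex.ofReal_sub, sub_mul, Finset.sum_sub_distrib, ← Finset.mul_sum, hμ0]
    simp
  rw [e3]
  refine (norm_sum_le _ _).trans ?_
  have e4 : ∀ i, ‖(((N i : ℝ) - B / n : ℝ) : ℂ) * μ ^ i‖ = B / n - N i := fun i => by
    rw [norm_mul, norm_pow, hμa, one_pow, mul_one, Complex.norm_real, Real.norm_eq_abs,
      abs_of_nonpos (sub_nonpos.2 (hN i)), neg_sub]
  simp only [e4, Finset.sum_sub_distrib, Finset.sum_const, Finset.card_range, nsmul_eq_mul]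
  rw [mul_div_cancel₀ _ hn'.ne']
  have h5 : (1 : ℝ) ≤ Real.sqrt (Fintype.card F) := by
    rw [Real.one_le_sqrt]
    exact_mod_cast Fintype.card_pos
  have h6 : (g.natDegree : ℝ) ≤ g.natDegree * Real.sqrt (Fintype.card F) :=
    le_mul_of_one_le_right (by positivity) h5
  rw [hB]
  nlinarith

/-- the bound for a product of powers of distinct linear factors, over every finite field -/
theorem ws_main (n M : ℕ) (hn : 0 < n) : ∃ C : ℝ, 0 ≤ C ∧ ∀ (F : Type) [Field F] [Fintype F],
    n ∣ Fintype.card F - 1 → ∀ (ι : Type) (V : Finset ι) (c : ι → F) (e : ι → ℕ),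
    Set.InjOn c V → ∑ v ∈ V, e v = M → (∀ s, 0 < s → s < n → ∃ v ∈ V, ¬ n ∣ s * e v) →
    ∀ ψ : F →* ℂ, ψ 0 = 0 → (∀ y, y ≠ 0 → ψ y ^ n = 1) → (∃ y, y ≠ 0 ∧ ψ y ≠ 1) →
    ‖∑ x : F, ψ (∏ v ∈ V, (c v + x) ^ e v)‖ ≤ C * Real.sqrt (Fintype.card F) := by
  refine ⟨(n + 3) * M + 12 * n * (n * M + 1) + 4 + 4 * n * (M + 1), by positivity,
    fun F _ _ hd ι V c e hc hM hirr ψ h0 hψ h1 => ?_⟩
  classical
  have hsq : Real.sqrt (Fintype.card F) * Real.sqrt (Fintype.card F) = Fintype.card F :=
    Real.mul_self_sqrt (by positivity)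
  have hs0 := Real.sqrt_nonneg (Fintype.card F : ℝ)
  by_cases hq : 4 * n * (M + 1) ≤ Nat.sqrt (Fintype.card F)
  · obtain ⟨c', hc'⟩ := hd
    have hc'' : n * c' + 1 = Fintype.card F := by
      have := Fintype.card_pos (α := F)
      omega
    let g0 : F[X] := ∏ v ∈ V, (X - C (-c v)) ^ e v
    have hg0 : g0.Monic := monic_prod_of_monic _ _ fun j _ => (monic_X_sub_C _).pow _
    have hd0 : g0.natDegree = M := by
      rw [natDegree_prod_of_monic _ _ fun j _ => (monic_X_sub_C _).pow _]
      simp only [natDegree_pow, natDegree_X_sub_C, mul_one, hM]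
    obtain ⟨x1, hx1⟩ : ∃ x1 : F, x1 ∉ g0.roots.toFinset := by
      apply Finset.exists_mem_notMem_of_card_lt_card (s := g0.roots.toFinset)
        (t := Finset.univ) ?_ |>.imp fun x hx => hx.2
      refine lt_of_le_of_lt ((Multiset.toFinset_card_le _).trans (card_roots' g0)) ?_
      rw [hd0, Finset.card_univ]
      have := Nat.sqrt_le_self (Fintype.card F)
      nlinarith
    let g : F[X] := ∏ v ∈ V, (X - C (-(c v + x1))) ^ e v
    have hg : g.Monic := monic_prod_of_monic _ _ fun j _ => (monic_X_sub_C _).pow _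
    have hdeg : g.natDegree = M := by
      rw [natDegree_prod_of_monic _ _ fun j _ => (monic_X_sub_C _).pow _]
      simp only [natDegree_pow, natDegree_X_sub_C, mul_one, hM]
    have hev : ∀ x, g.eval x = ∏ v ∈ V, (c v + (x + x1)) ^ e v := by
      intro x
      rw [eval_prod]
      refine Finset.prod_congr rfl fun j _ => ?_
      rw [eval_pow, eval_sub, eval_X, eval_C]
      congr 1
      ring
    have hg1 : g.eval 0 ≠ 0 := by
      intro h
      apply hx1
      rw [Multiset.mem_toFinset, mem_roots hg0.ne_zero, IsRoot, ← h, hev, eval_prod]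
      refine Finset.prod_congr rfl fun j _ => ?_
      rw [eval_pow, eval_sub, eval_X, eval_C]
      congr 1
      ring
    have hz : ∀ v ∈ V, g.rootMultiplicity (-(c v + x1)) = e v := by
      intro v hv
      have e' : g = (X - C (-(c v + x1))) ^ e v *
          ∏ j ∈ V.erase v, (X - C (-(c j + x1))) ^ e j :=
        (Finset.mul_prod_erase _ _ hv).symm
      rw [e', rootMultiplicity_mul (e' ▸ hg.ne_zero), rootMultiplicity_X_sub_C_pow,
        rootMultiplicity_eq_zero, add_zero]
      rw [IsRoot, eval_prod, ← Ne, Finset.prod_ne_zero_iff]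
      intro j hj h
      simp only [eval_pow, eval_sub, eval_X, eval_C] at h
      have h' := pow_eq_zero_iff (n := e j) (by rintro h2; simp [h2] at h) |>.1 h
      exact Finset.ne_of_mem_erase hj (hc (Finset.mem_of_mem_erase hj) hv (by linear_combination h'))
    have h2 := ws_sum hg hg1 hn hc'' (fun s hs hs' => by
      obtain ⟨v, hv, h⟩ := hirr s hs hs'
      exact ⟨_, by rwa [hz v hv]⟩) (by rwa [hdeg]) ψ h0 hψ h1
    rw [hdeg] at h2
    simp only [hev] at h2
    rw [← Equiv.sum_comp (Equiv.addRight x1)]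
    simp only [Equiv.coe_addRight]
    refine h2.trans (mul_le_mul_of_nonneg_right ?_ hs0)
    have : (0 : ℝ) ≤ 4 * n * (M + 1) := by positivity
    linarith
  · have h2 : ‖∑ x : F, ψ (∏ v ∈ V, (c v + x) ^ e v)‖ ≤ Fintype.card F := by
      refine (norm_sum_le _ _).trans ?_
      refine (Finset.sum_le_sum fun x _ => ws_norm_le hn ψ h0 hψ _).trans ?_
      simp
    have h3 : Real.sqrt (Fintype.card F) ≤ 4 * n * (M + 1) := by
      rw [Real.sqrt_le_left (by positivity)]
      have h4 := Nat.lt_succ_sqrt' (Fintype.card F)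
      have h5 : (Nat.sqrt (Fintype.card F)).succ ^ 2 ≤ (4 * n * (M + 1)) ^ 2 :=
        Nat.pow_le_pow_left (by omega) 2
      exact_mod_cast (h4.trans_le h5).le
    have h4 : (0 : ℝ) ≤ (n + 3) * M + 12 * n * (n * M + 1) + 4 := by positivity
    refine h2.trans ?_
    calc (Fintype.card F : ℝ) = Real.sqrt (Fintype.card F) * Real.sqrt (Fintype.card F) := hsq.symm
      _ ≤ _ := mul_le_mul_of_nonneg_right (by linarith) hs0

end Pool.Agent.Lib.MP_778b46_nt.GX
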