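import Pool.Agent.Lib.MP_c03ca8_nt.Q.LSMul

/- The hybrid large sieve in discrete form.  The range of `log n` is cut into short blocks, the
heights are rounded to a lattice on which `n ^ (i t)` becomes an additive character of the block
index, and the rounding errors are removed by the exponential series. -/

noncomputable section

namespace Pool.Agent.Lib.MP_778b46_nt.GX

open Finset Real Filter Topology Pool.Agent.Lib.MP_c03ca8_nt.Q

/-- the family `φ i` satisfies a large sieve inequality with constant `Δ` -/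
def LSP {ι : Type} (I : Finset ι) (J : Finset ℕ) (φ : ι → ℕ → ℂ) (Δ : ℝ) : Prop :=
  ∀ a : ℕ → ℂ, ∑ i ∈ I, ‖∑ n ∈ J, a n * φ i n‖ ^ 2 ≤ Δ * ∑ n ∈ J, ‖a n‖ ^ 2

theorem LSP.congr {ι : Type} {I : Finset ι} {J : Finset ℕ} {φ φ' : ι → ℕ → ℂ} {Δ Δ' : ℝ}
    (h : LSP I J φ Δ) (e : ∀ i ∈ I, ∀ n ∈ J, φ' i n = φ i n) (hΔ : Δ ≤ Δ') : LSP I J φ' Δ' := by
  intro a
  refine le_trans (le_of_eq (sum_congr rfl fun i hi => ?_)) ((h a).trans
    (mul_le_mul_of_nonneg_right hΔ (by positivity)))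
  rw [sum_congr rfl fun n hn => by rw [e i hi n hn]]

theorem LSP.smul {ι : Type} {I : Finset ι} {J : Finset ℕ} {φ : ι → ℕ → ℂ} {Δ W : ℝ}
    (h : LSP I J φ Δ) (w : ι → ℂ) (hw : ∀ i ∈ I, ‖w i‖ ≤ W) :
    LSP I J (fun i n => w i * φ i n) (W ^ 2 * Δ) := by
  intro a
  rw [mul_assoc]
  refine le_trans ?_ (mul_le_mul_of_nonneg_left (h a) (by positivity))
  rw [mul_sum]
  refine sum_le_sum fun i hi => ?_
  have e : ∑ n ∈ J, a n * (w i * φ i n) = w i * ∑ n ∈ J, a n * φ i n := by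
    rw [mul_sum]; exact sum_congr rfl fun n _ => by ring
  rw [e, norm_mul, mul_pow]
  exact mul_le_mul_of_nonneg_right (pow_le_pow_left₀ (norm_nonneg _) (hw i hi) 2) (by positivity)

theorem LSP.exp {ι : Type} {I : Finset ι} {J : Finset ℕ} {φ : ι → ℕ → ℂ} {Δ Z : ℝ}
    (h : LSP I J φ Δ) (hΔ : 0 ≤ Δ) (hZ : 0 ≤ Z) (z : ι → ℂ) (θ : ℕ → ℝ) (hz : ∀ i ∈ I, ‖z i‖ ≤ Z)
    (hθ : ∀ n ∈ J, |θ n| ≤ 1) :
    LSP I J (fun i n => φ i n * Complex.exp (z i * θ n)) (Real.exp (2 * Z) * Δ) := by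
  intro a
  have hT : Tendsto (fun R : ℕ => ∑ i ∈ I, ‖∑ n ∈ J, a n * (φ i n *
      ∑ r ∈ range R, (z i * θ n) ^ r / (r.factorial : ℂ))‖ ^ 2) atTop
      (𝓝 (∑ i ∈ I, ‖∑ n ∈ J, a n * (φ i n * Complex.exp (z i * θ n))‖ ^ 2)) := by
    refine tendsto_finsetSum _ fun i _ => Tendsto.pow (Tendsto.norm ?_) 2
    refine tendsto_finsetSum _ fun n _ => Tendsto.const_mul _ (Tendsto.const_mul _ ?_)
    rw [Complex.exp_eq_exp_ℂ]
    exact (NormedSpace.expSeries_div_hasSum_exp _).tendsto_sum_nat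
  refine le_of_tendsto' hT fun R => ?_
  have hE := Real.sum_le_exp_of_nonneg hZ R
  have h1 : ∀ i ∈ I, ‖∑ n ∈ J, a n * (φ i n *
      ∑ r ∈ range R, (z i * θ n) ^ r / (r.factorial : ℂ))‖ ^ 2 ≤ Real.exp Z *
      ∑ r ∈ range R, Z ^ r / r.factorial * ‖∑ n ∈ J, (a n * (θ n : ℂ) ^ r) * φ i n‖ ^ 2 := by
    intro i hi
    have e : ∑ n ∈ J, a n * (φ i n * ∑ r ∈ range R, (z i * θ n) ^ r / (r.factorial : ℂ)) =
        ∑ r ∈ range R, z i ^ r / (r.factorial : ℂ) * ∑ n ∈ J, (a n * (θ n : ℂ) ^ r) * φ i n := by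
      simp only [mul_sum]
      rw [sum_comm]
      exact sum_congr rfl fun r _ => sum_congr rfl fun n _ => by ring
    rw [e]
    have k1 : ‖∑ r ∈ range R, z i ^ r / (r.factorial : ℂ) *
        ∑ n ∈ J, (a n * (θ n : ℂ) ^ r) * φ i n‖ ≤
        ∑ r ∈ range R, Z ^ r / r.factorial * ‖∑ n ∈ J, (a n * (θ n : ℂ) ^ r) * φ i n‖ := by
      refine norm_sum_le_of_le _ fun r _ => ?_
      rw [norm_mul, norm_div, norm_pow, Complex.norm_natCast]
      gcongr
      exact hz i hi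
    refine (pow_le_pow_left₀ (norm_nonneg _) k1 2).trans ?_
    refine (sum_sq_le_sum_mul_sum_of_sq_le_mul _ (f := fun r : ℕ => Z ^ r / r.factorial)
      (g := fun r : ℕ => Z ^ r / r.factorial * ‖∑ n ∈ J, (a n * (θ n : ℂ) ^ r) * φ i n‖ ^ 2)
      (fun _ _ => by positivity) (fun _ _ => by positivity)
      (fun r _ => le_of_eq (by ring))).trans ?_
    exact mul_le_mul_of_nonneg_right hE (by positivity)
  refine (sum_le_sum h1).trans ?_
  rw [← mul_sum, sum_comm]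
  have h2 : ∀ r ∈ range R, ∑ i ∈ I, Z ^ r / r.factorial *
      ‖∑ n ∈ J, (a n * (θ n : ℂ) ^ r) * φ i n‖ ^ 2 ≤
      Z ^ r / r.factorial * (Δ * ∑ n ∈ J, ‖a n‖ ^ 2) := by
    intro r _
    rw [← mul_sum]
    refine mul_le_mul_of_nonneg_left ((h fun n => a n * (θ n : ℂ) ^ r).trans
      (mul_le_mul_of_nonneg_left (sum_le_sum fun n hn => ?_) hΔ)) (by positivity)
    refine pow_le_pow_left₀ (norm_nonneg _) ?_ 2
    rw [norm_mul, norm_pow, Complex.norm_real, Real.norm_eq_abs]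
    exact mul_le_of_le_one_right (norm_nonneg _) (pow_le_one₀ (abs_nonneg _) (hθ n hn))
  have h3 := sum_le_sum h2
  rw [← sum_mul] at h3
  have h4 := mul_le_mul_of_nonneg_right hE (show 0 ≤ Δ * ∑ n ∈ J, ‖a n‖ ^ 2 by positivity)
  refine (mul_le_mul_of_nonneg_left (h3.trans h4) (Real.exp_pos Z).le).trans (le_of_eq ?_)
  rw [two_mul, Real.exp_add]
  ring

theorem LSP.comp {ι κ : Type} [DecidableEq κ] {I : Finset ι} {S : Finset κ} {J : Finset ℕ}
    {φ : κ → ℕ → ℂ} {Δ L : ℝ} (h : LSP S J φ Δ) (hL0 : 0 ≤ L) (m : ι → κ) (hm : ∀ i ∈ I, m i ∈ S)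
    (hL : ∀ x ∈ S, ((I.filter fun i => m i = x).card : ℝ) ≤ L) :
    LSP I J (fun i => φ (m i)) (L * Δ) := by
  intro a
  rw [← sum_fiberwise_of_maps_to hm, mul_assoc]
  refine le_trans ?_ (mul_le_mul_of_nonneg_left (h a) hL0)
  rw [mul_sum]
  refine sum_le_sum fun x hx => ?_
  rw [sum_congr rfl (g := fun _ => ‖∑ n ∈ J, a n * φ x n‖ ^ 2)
    fun i hi => by simp only [(mem_filter.1 hi).2], sum_const, nsmul_eq_mul]
  exact mul_le_mul_of_nonneg_right (hL x hx) (by positivity)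

/-- characters of any modulus -/
abbrev Ch := Σ c : ℕ, DirichletCharacter ℂ c

/-- primitive characters of conductor at most `Q` -/
def PC (Q : ℕ) : Finset Ch := (Icc 1 Q).sigma prim

theorem mem_PC {Q : ℕ} {x : Ch} : x ∈ PC Q ↔ 1 ≤ x.1 ∧ x.1 ≤ Q ∧ x.2.IsPrimitive := by
  classical
  unfold PC prim
  rw [mem_sigma, mem_Icc, mem_filter, and_assoc]
  simp

theorem lsp_mul (Q M H : ℕ) (J : Finset ℕ) (hJ : J ⊆ Ico M (M + H)) :
    LSP (PC Q) J (fun x n => x.2 (n : ZMod x.1)) (H + 4 * (Q : ℝ) ^ 2 * (1 + Real.log Q)) := by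
  intro a
  have h := ls_mul Q M H fun n => if n ∈ J then a n else 0
  have e1 : ∑ n ∈ Ico M (M + H), ‖if n ∈ J then a n else 0‖ ^ 2 = ∑ n ∈ J, ‖a n‖ ^ 2 := by
    rw [← sum_subset hJ fun n _ hn => by simp [hn]]
    exact sum_congr rfl fun n hn => by rw [if_pos hn]
  rw [e1] at h
  refine le_trans ?_ h
  rw [PC, sum_sigma]
  refine sum_le_sum fun c hc => ?_
  have hφ : (0 : ℝ) < Nat.totient c := by exact_mod_cast Nat.totient_pos.2 (mem_Icc.1 hc).1
  have h1 : (1 : ℝ) ≤ (c : ℝ) / Nat.totient c := by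
    rw [one_le_div hφ]; exact_mod_cast Nat.totient_le c
  refine le_trans (le_of_eq (sum_congr rfl fun ψ _ => ?_)) (le_mul_of_one_le_left
    (sum_nonneg fun _ _ => by positivity) h1)
  rw [← sum_subset hJ fun n _ hn => by simp [hn]]
  congr 2
  exact sum_congr rfl fun n hn => by rw [if_pos hn]

theorem lsp_block (Q H K : ℕ) [NeZero K] (J : Finset ℕ) (l : ℕ → ZMod K)
    (hJ : ∀ b, ∃ M, J.filter (fun n => l n = b) ⊆ Ico M (M + H)) :
    LSP (PC Q ×ˢ (univ : Finset (ZMod K))) J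
      (fun x n => x.1.2 (n : ZMod x.1.1) * ZMod.stdAddChar (x.2 * l n))
      (K * (H + 4 * (Q : ℝ) ^ 2 * (1 + Real.log Q))) := by
  intro a
  rw [sum_product]
  have e : ∀ x : Ch, ∑ g : ZMod K, ‖∑ n ∈ J, a n * (x.2 (n : ZMod x.1) *
      ZMod.stdAddChar (g * l n))‖ ^ 2 =
      ∑ b : ZMod K, K * ‖∑ n ∈ J.filter (fun n => l n = b), a n * x.2 (n : ZMod x.1)‖ ^ 2 := by
    intro x
    rw [← lsmul_add]
    refine sum_congr rfl fun g _ => ?_
    rw [← sum_fiberwise J l]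
    congr 2
    refine sum_congr rfl fun b _ => ?_
    rw [mul_sum]
    refine sum_congr rfl fun n hn => ?_
    rw [(mem_filter.1 hn).2]
    ring
  simp only [e]
  rw [sum_comm, ← sum_fiberwise J l fun n => ‖a n‖ ^ 2, mul_sum]
  refine sum_le_sum fun b _ => ?_
  obtain ⟨M, hM⟩ := hJ b
  rw [← mul_sum, mul_assoc]
  exact mul_le_mul_of_nonneg_left (lsp_mul Q M H _ hM a) (Nat.cast_nonneg _)

open Classical in
theorem hybrid_ls (Λ : ℝ) (hΛ : 1 ≤ Λ) : ∃ C : ℝ, 0 < C ∧ ∀ (ι : Type) (I : Finset ι) (χ : ι → Ch)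
    (z : ι → ℂ) (Q U W : ℕ) (T L σ : ℝ), 1 ≤ Q → 1 ≤ U → (W : ℝ) ≤ U * Real.exp Λ → 1 ≤ T →
    0 ≤ L → 0 ≤ σ → (∀ i ∈ I, χ i ∈ PC Q) →
    (∀ i ∈ I, σ ≤ (z i).re ∧ (z i).re ≤ 1 ∧ |(z i).im| ≤ T) →
    (∀ (x : Ch) (t : ℝ), ((I.filter fun i => χ i = x ∧ |(z i).im - t| ≤ 1 / 2).card : ℝ) ≤ L) →
    LSP I (Ioc U W) (fun i n => (χ i).2 (n : ZMod (χ i).1) * (n : ℂ) ^ (-z i))
      (C * L * (U + T * ((Q : ℝ) ^ 2 * (1 + Real.log Q))) * (U : ℝ) ^ (-2 * σ)) := by
  refine ⟨Real.exp (2 * (Λ + 1)) * Real.exp (2 * π) * (42 * Λ * Real.exp Λ), by positivity, ?_⟩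
  intro ι I χ z Q U W T L σ hQ hU hW hT hL0 hσ hχ hz hL
  have hpi := Real.pi_gt_three
  have hpi' := Real.pi_lt_d2
  have hU0 : (0 : ℝ) < U := by exact_mod_cast hU
  have hU1 : (1 : ℝ) ≤ U := by exact_mod_cast hU
  have hQ1 : (1 : ℝ) ≤ Q := by exact_mod_cast hQ
  have hTΛ : 1 ≤ T * Λ := by nlinarith
  obtain ⟨G, hG1, hG2⟩ : ∃ G : ℕ, T * Λ + 1 ≤ G ∧ (G : ℝ) ≤ T * Λ + 2 :=
    ⟨⌈T * Λ⌉₊ + 1, by push_cast; linarith [Nat.le_ceil (T * Λ)], by
      push_cast; linarith [Nat.ceil_lt_add_one (show 0 ≤ T * Λ by linarith)]⟩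
  obtain ⟨K, hK⟩ : ∃ K : ℕ, K = 2 * G + 1 := ⟨_, rfl⟩
  have : NeZero K := ⟨by omega⟩
  have hKr : (K : ℝ) = 2 * G + 1 := by rw [hK]; push_cast; ring
  have hK0 : (0 : ℝ) < K := by linarith
  set u : ℕ → ℝ := fun n => (Real.log n - Real.log U) / Λ with hu
  set v : ℕ → ℝ := fun n => K * u n / (2 * π) with hv
  have hu01 : ∀ n ∈ Ioc U W, 0 ≤ u n ∧ u n ≤ 1 := by
    intro n hn
    have h1 : (U : ℝ) ≤ n := by exact_mod_cast (mem_Ioc.1 hn).1.le
    have h2 : (n : ℝ) ≤ U * Real.exp Λ := le_trans (by exact_mod_cast (mem_Ioc.1 hn).2) hW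
    have h3 := Real.log_le_log (by linarith) h2
    rw [Real.log_mul hU0.ne' (Real.exp_pos _).ne', Real.log_exp] at h3
    refine ⟨div_nonneg (sub_nonneg.2 (Real.log_le_log hU0 h1)) (by linarith), ?_⟩
    rw [hu, div_le_one (by linarith)]
    linarith
  have hv0 : ∀ n ∈ Ioc U W, 0 ≤ v n := fun n hn => by
    have := (hu01 n hn).1
    simp only [hv]; positivity
  have hvK : ∀ n ∈ Ioc U W, ⌊v n⌋₊ < K := fun n hn => by
    rw [Nat.floor_lt (hv0 n hn), hv, div_lt_iff₀ (by linarith)]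
    nlinarith [(hu01 n hn).2]
  obtain ⟨H, hH1, hH2⟩ : ∃ H : ℕ, U * Real.exp Λ * (2 * π * Λ / K) < H ∧
      (H : ℝ) ≤ U * Real.exp Λ * (2 * π * Λ / K) + 2 :=
    ⟨⌈U * Real.exp Λ * (2 * π * Λ / K)⌉₊ + 1, by
      push_cast; linarith [Nat.le_ceil (U * Real.exp Λ * (2 * π * Λ / K))], by
      push_cast
      linarith [Nat.ceil_lt_add_one (show 0 ≤ U * Real.exp Λ * (2 * π * Λ / K) by positivity)]⟩
  have h1 := lsp_block Q H K (Ioc U W) (fun n => ((⌊v n⌋₊ : ℕ) : ZMod K)) (by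
    intro b
    rcases ((Ioc U W).filter fun n => ((⌊v n⌋₊ : ℕ) : ZMod K) = b).eq_empty_or_nonempty with h | h
    · exact ⟨0, by rw [h]; exact empty_subset _⟩
    refine ⟨min' _ h, fun n hn => mem_Ico.2 ⟨min'_le _ n hn, ?_⟩⟩
    have hM := min'_mem _ h
    have hMn : min' _ h ≤ n := min'_le _ n hn
    generalize min' _ h = M at hM hMn ⊢
    rw [mem_filter] at hM hn
    have e1 : ⌊v n⌋₊ = ⌊v M⌋₊ := by
      have := congrArg ZMod.val (hn.2.trans hM.2.symm)
      rwa [ZMod.val_cast_of_lt (hvK n hn.1), ZMod.val_cast_of_lt (hvK M hM.1)] at this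
    have e2 : v n - v M < 1 := by
      have k1 := Nat.lt_floor_add_one (v n)
      have k2 := Nat.floor_le (hv0 M hM.1)
      rw [e1] at k1
      linarith
    have e3 : Real.log n - Real.log M ≤ 2 * π * Λ / K := by
      have k1 : v n - v M = (Real.log n - Real.log M) / (2 * π * Λ / K) := by
        simp only [hv, hu]; field_simp; ring
      rw [k1, div_lt_one (by positivity)] at e2
      exact e2.le
    have hM0 : (0 : ℝ) < M := by
      have := (mem_Ioc.1 hM.1).1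
      exact_mod_cast (show 0 < M by omega)
    have hn0 : (0 : ℝ) < n := lt_of_lt_of_le hM0 (by exact_mod_cast hMn)
    have e4 := Real.log_le_sub_one_of_pos (div_pos hM0 hn0)
    rw [Real.log_div hM0.ne' hn0.ne'] at e4
    have e5 : (n : ℝ) - M ≤ n * (2 * π * Λ / K) := by
      have k1 : (n : ℝ) - M = n * (1 - M / n) := by field_simp
      rw [k1]
      exact mul_le_mul_of_nonneg_left (by linarith) hn0.le
    have e6 : (n : ℝ) ≤ U * Real.exp Λ := le_trans (by exact_mod_cast (mem_Ioc.1 hn.1).2) hW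
    have e7 := mul_le_mul_of_nonneg_right e6 (show 0 ≤ 2 * π * Λ / K by positivity)
    have e8 : (n : ℝ) < M + H := by linarith
    exact_mod_cast e8)
  set g : ι → ℤ := fun i => round ((z i).im * Λ) with hg
  have hg1 : ∀ i, |(z i).im * Λ - g i| ≤ 1 / 2 := fun i => abs_sub_round _
  have hg2 : ∀ i ∈ I, |(g i : ℝ)| ≤ G := fun i hi => by
    have k1 : |(z i).im * Λ| ≤ T * Λ := by
      rw [abs_mul, abs_of_pos (show 0 < Λ by linarith)]
      exact mul_le_mul_of_nonneg_right (hz i hi).2.2 (by linarith)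
    have k2 := abs_sub_abs_le_abs_sub (g i : ℝ) ((z i).im * Λ)
    rw [abs_sub_comm] at k2
    linarith [hg1 i]
  have h2 := h1.comp (I := I) hL0 (fun i => (χ i, ((-g i : ℤ) : ZMod K)))
    (fun i hi => mem_product.2 ⟨hχ i hi, mem_univ _⟩) (by
      intro x _
      rcases (I.filter fun i => (χ i, ((-g i : ℤ) : ZMod K)) = x).eq_empty_or_nonempty with h | h
      · rw [h]; simpa using hL0
      obtain ⟨j, hj⟩ := h
      refine le_trans (Nat.cast_le.2 (card_le_card fun i hi => ?_)) (hL x.1 (g j / Λ))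
      rw [mem_filter] at hi hj ⊢
      refine ⟨hi.1, congrArg Prod.fst hi.2, ?_⟩
      have k1 : ((-g i : ℤ) : ZMod K) = ((-g j : ℤ) : ZMod K) :=
        congrArg Prod.snd (hi.2.trans hj.2.symm)
      rw [ZMod.intCast_eq_intCast_iff_dvd_sub] at k1
      have k2 : |g i| ≤ G := by exact_mod_cast hg2 i hi.1
      have k3 : |g j| ≤ G := by exact_mod_cast hg2 j hj.1
      have k4 : -g j - -g i = 0 := by
        refine Int.eq_zero_of_abs_lt_dvd k1 ?_
        rw [abs_le] at k2 k3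
        rw [abs_lt, hK]
        push_cast
        constructor <;> linarith [k2.1, k2.2, k3.1, k3.2]
      have k5 : g j = g i := by linarith
      have k6 : (z i).im - g j / Λ = ((z i).im * Λ - g i) / Λ := by
        rw [k5]; field_simp
      rw [k6, abs_div, abs_of_pos (show 0 < Λ by linarith), div_le_iff₀ (by linarith)]
      linarith [hg1 i])
  have hlog : 0 ≤ Real.log Q := Real.log_nonneg hQ1
  have h3 := h2.exp (Z := π) (by positivity) (by linarith)
    (fun i => -(2 * π * g i / K : ℝ) * Complex.I) (fun n => v n - ⌊v n⌋₊) (by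
      intro i hi
      rw [norm_mul, Complex.norm_I, mul_one, norm_neg, Complex.norm_real, Real.norm_eq_abs, abs_div,
        abs_mul, abs_of_pos hK0, abs_of_pos (show 0 < 2 * π by linarith), div_le_iff₀ hK0, hKr]
      nlinarith [hg2 i hi]) (by
      intro n hn
      rw [abs_le]
      constructor <;> linarith [Nat.lt_floor_add_one (v n), Nat.floor_le (hv0 n hn)])
  have h4 := h3.exp (Z := Λ + 1) (by positivity) (by linarith)
    (fun i => -(((z i).re * Λ : ℝ) + ((z i).im * Λ - g i : ℝ) * Complex.I)) u (by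
      intro i hi
      rw [norm_neg]
      refine (norm_add_le _ _).trans ?_
      rw [norm_mul, Complex.norm_I, mul_one, Complex.norm_real, Complex.norm_real, Real.norm_eq_abs,
        Real.norm_eq_abs, abs_of_nonneg (mul_nonneg (hσ.trans (hz i hi).1) (by linarith))]
      nlinarith [hg1 i, (hz i hi).2.1]) (fun n hn => by
      rw [abs_of_nonneg (hu01 n hn).1]; exact (hu01 n hn).2)
  have h5 := h4.smul (W := (U : ℝ) ^ (-σ)) (fun i => (U : ℂ) ^ (-z i)) (fun i hi => by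
    rw [Complex.norm_natCast_cpow_of_pos hU, Complex.neg_re]
    exact Real.rpow_le_rpow_of_exponent_le hU1 (by linarith [(hz i hi).1]))
  refine h5.congr (fun i hi n hn => ?_) ?_
  · have hn0 : 0 < n := by have := (mem_Ioc.1 hn).1; omega
    have e1 : ((-g i : ℤ) : ZMod K) * ((⌊v n⌋₊ : ℕ) : ZMod K) =
        ((-g i * ⌊v n⌋₊ : ℤ) : ZMod K) := by push_cast; ring
    have e2 : (Real.log n : ℂ) = Real.log U + Λ * u n := by
      have : Real.log n = Real.log U + Λ * u n := by simp only [hu]; field_simp; ring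
      exact_mod_cast this
    have e3 : (v n : ℂ) = K * u n / (2 * π) := by simp only [hv]; push_cast; ring
    have e4 : (K : ℂ) ≠ 0 := by exact_mod_cast hK0.ne'
    have e5 : (π : ℂ) ≠ 0 := by exact_mod_cast Real.pi_ne_zero
    simp only [e1, ZMod.stdAddChar_coe]
    rw [Complex.cpow_def_of_ne_zero (by exact_mod_cast hn0.ne'),
      Complex.cpow_def_of_ne_zero (by exact_mod_cast hU0.ne'), ← Complex.natCast_log,
      ← Complex.natCast_log, mul_assoc, mul_assoc, mul_left_comm, ← Complex.exp_add,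
      ← Complex.exp_add, ← Complex.exp_add, e2]
    congr 2
    conv_lhs => rw [← Complex.re_add_im (z i)]
    conv_rhs => enter [1]; rw [← Complex.re_add_im (z i)]
    push_cast
    rw [e3]
    field_simp
    ring
  · have e1 : ((U : ℝ) ^ (-σ)) ^ 2 = (U : ℝ) ^ (-2 * σ) := by
      rw [← Real.rpow_natCast, ← Real.rpow_mul hU0.le]
      congr 1; push_cast; ring
    have hE : 1 ≤ Real.exp Λ := Real.one_le_exp (by linarith)
    set Y := (Q : ℝ) ^ 2 * (1 + Real.log Q) with hY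
    have hY1 : 1 ≤ Y := by rw [hY]; nlinarith
    have e2 : (K : ℝ) * (H + 4 * (Q : ℝ) ^ 2 * (1 + Real.log Q)) ≤
        42 * Λ * Real.exp Λ * (U + T * Y) := by
      have k1 : (K : ℝ) * H ≤ U * Real.exp Λ * (2 * π * Λ) + 2 * K := by
        have := mul_le_mul_of_nonneg_left hH2 hK0.le
        refine this.trans (le_of_eq ?_)
        field_simp
      have k2 : (K : ℝ) ≤ 7 * (T * Λ) := by linarith
      have k3 : (K : ℝ) * (2 + 4 * Y) ≤ 7 * (T * Λ) * (6 * Y) :=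
        mul_le_mul k2 (by linarith) (by linarith) (by linarith)
      have k4 : U * Real.exp Λ * (2 * π * Λ) ≤ U * Real.exp Λ * (42 * Λ) :=
        mul_le_mul_of_nonneg_left (by nlinarith) (by positivity)
      have k5 : 42 * (T * Λ * Y) ≤ 42 * (T * Λ * Y) * Real.exp Λ :=
        le_mul_of_one_le_right (by positivity) hE
      rw [mul_assoc 4, ← hY]
      nlinarith
    rw [e1]
    have e3 := mul_le_mul_of_nonneg_left e2 (show 0 ≤ (U : ℝ) ^ (-2 * σ) *
      (Real.exp (2 * (Λ + 1)) * (Real.exp (2 * π) * L)) by positivity)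
    refine le_trans (le_of_eq ?_) (e3.trans (le_of_eq ?_)) <;> ring

end Pool.Agent.Lib.MP_778b46_nt.GX
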