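import Pool.Agent.Lib.MP_778b46_nt.GX.Dl

/- Inequalities for a pair of conjugate first zeros with the tilt beyond the first zero. -/

namespace Pool.Agent.Lib.MP_778b46_nt.GX

open Complex Finset
open Pool.Agent.Lib.MP_e97e2b_nt.Ln (Lap Tst cut)

open Classical in
/-- Indicator of a proposition. -/
noncomputable def nd (P : Prop) : ℝ := if P then 1 else 0

theorem nd_nonneg (P : Prop) : 0 ≤ nd P := by
  unfold nd
  split_ifs <;> norm_num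

theorem nd_pos {P : Prop} (h : P) : nd P = 1 := if_pos h

theorem nd_neg {P : Prop} (h : ¬ P) : nd P = 0 := if_neg h

theorem nd_le_one (P : Prop) : nd P ≤ 1 := by
  unfold nd
  split_ifs <;> norm_num

theorem nd_ite (P : Prop) [Decidable P] (x : ℝ) : (if P then x else 0) = nd P * x := by
  by_cases h : P
  · rw [if_pos h, nd_pos h, one_mul]
  · rw [if_neg h, nd_neg h, zero_mul]

theorem nd_mul_le {P : Prop} {x y : ℝ} (h : x ≤ y) : nd P * x ≤ nd P * y :=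
  mul_le_mul_of_nonneg_left h (nd_nonneg P)

theorem nd_sum {S : Finset ℤ} {P : ℤ → Prop} (h : ∀ a ∈ S, ∀ b ∈ S, P a → P b → a = b) :
    ∑ a ∈ S, nd (P a) ≤ 1 := by
  classical
  simp only [nd, sum_boole]
  exact_mod_cast card_le_one.2 fun a ha b hb =>
    h a (mem_filter.1 ha).1 b (mem_filter.1 hb).1 (mem_filter.1 ha).2 (mem_filter.1 hb).2

theorem RR_four {T x1 x2 x3 x4 : ℝ} (hT : 0 < T) (y : ℝ) (h : ∀ t, 0 ≤ t →
      Real.exp (-(x1 * t)) - Real.exp (-(x2 * t)) ≤ Real.exp (-(x3 * t)) - Real.exp (-(x4 * t))) :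
    RR T x1 y - RR T x2 y - (RR T x3 y - RR T x4 y) ≤
      RR T x3 0 - RR T x4 0 - (RR T x1 0 - RR T x2 0) := by
  have := g1_cont
  simp only [RR_eq hT, zero_mul, Real.cos_zero, mul_one]
  repeat rw [← intervalIntegral.integral_sub (Continuous.intervalIntegrable (by fun_prop) _ _)
    (Continuous.intervalIntegrable (by fun_prop) _ _)]
  refine intervalIntegral.integral_mono_on hT.le (Continuous.intervalIntegrable (by fun_prop) _ _)
    (Continuous.intervalIntegrable (by fun_prop) _ _) fun t ht => ?_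
  have h1 := mul_nonneg (mul_nonneg (g1_nonneg (div_nonneg ht.1 hT.le) ((div_le_one hT).2 ht.2))
    (sub_nonneg.2 (h t ht.1))) (sub_nonneg.2 (Real.neg_one_le_cos (y * t)))
  linarith

theorem zh_exp {s s' l l' t : ℝ} (hs : s ≤ s') (h0 : 0 ≤ l) (hl : l ≤ l') (ht : 0 ≤ t) :
    Real.exp (-(-s * t)) - Real.exp (-((l - s) * t)) ≤
      Real.exp (-(-s' * t)) - Real.exp (-((l' - s') * t)) := by
  have e : ∀ a b : ℝ, Real.exp (-(-a * t)) - Real.exp (-((b - a) * t)) =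
      Real.exp (a * t) * (1 - Real.exp (-(b * t))) := fun a b => by
    rw [mul_sub (Real.exp _), ← Real.exp_add, mul_one]
    congr 2 <;> ring
  rw [e, e]
  have h1 : Real.exp (-(l * t)) ≤ 1 := Real.exp_le_one_iff.2 (by nlinarith)
  exact mul_le_mul (Real.exp_le_exp.2 (by nlinarith))
    (sub_le_sub_left (Real.exp_le_exp.2 (by nlinarith)) _) (by linarith) (Real.exp_pos _).le

/-- The trigonometric condition. -/
def Trg (X Y c r w v : ℝ) : Prop := ∀ η : ℝ, c * RF (-X) η - r * RF (-Y) η - w * RF 0 η ≤ v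

theorem Trg.rr {T a b c r w v : ℝ} (hT : 0 ≤ T) (h : Trg (a * T) (b * T) c r w v) (y : ℝ) :
    c * RR T (-a) y - r * RR T (-b) y - w * RR T 0 y ≤ T * v := by
  have := mul_le_mul_of_nonneg_left (h (y * T)) hT
  simp only [RR, neg_mul, zero_mul]
  linarith

/-- Nonnegative cosine polynomials of degree three. -/
def Pos3 (h0 h1 h2 h3 : ℝ) : Prop :=
  ∀ x : ℝ, -1 ≤ x → 0 ≤ h0 + 2 * h1 * x + 2 * h2 * (2 * x ^ 2 - 1) + 2 * h3 * (4 * x ^ 3 - 3 * x)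

theorem pos3_of {p ρ : ℝ} (h0 : 0 ≤ ρ) (h1 : ρ ≤ 1) :
    Pos3 (p ^ 2 + (1 + 2 * p * ρ) / 2) ((2 * p + ρ * p ^ 2 + 3 * ρ / 4) / 2) ((1 + 2 * p * ρ) / 4)
      (ρ / 8) := fun x hx =>
  (mul_nonneg (by nlinarith : 0 ≤ 1 + ρ * x) (sq_nonneg (x + p))).trans (le_of_eq (by ring))

/-- The symmetric combination of seven values. -/
def cb (h0 h1 h2 h3 : ℝ) (f : ℤ → ℝ) : ℝ :=
  h0 * f 0 + h1 * (f 1 + f (-1)) + h2 * (f 2 + f (-2)) + h3 * (f 3 + f (-3))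

section Model

variable {Γ Ω ι : Type} [CommGroup Γ] [Fintype Ω] [Fintype ι]

omit [Fintype Ω] [Fintype ι] in
theorem vv_zpow (D : Dat Γ Ω ι) (a : ℤ) (y y' : ℝ) (ξ ξ' : Γ) (ω : Ω) :
    D.vv (a * y + y') (ξ ^ a * ξ') ω = D.vv y ξ ω ^ a * D.vv y' ξ' ω := by
  rw [vv_mul]
  congr 1
  unfold Dat.vv
  rw [map_zpow, mul_zpow, ← exp_int_mul]
  congr 2
  push_cast
  ring

omit [Fintype ι] in
theorem E_cb (D : Dat Γ Ω ι) (h : ∀ ω ξ, ‖D.ev ω ξ‖ = 1) (g : ℝ → ℝ) (h0 h1 h2 h3 y y' : ℝ)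
    (ξ ξ' : Γ) : cb h0 h1 h2 h3 (fun a => D.E g (a * y + y') (ξ ^ a * ξ')) =
      ∑ ω, D.μ ω * g (D.t ω) * (h0 + 2 * h1 * (D.vv y ξ ω).re +
        2 * h2 * (2 * (D.vv y ξ ω).re ^ 2 - 1) +
        2 * h3 * (4 * (D.vv y ξ ω).re ^ 3 - 3 * (D.vv y ξ ω).re)) * (D.vv y' ξ' ω).re := by
  simp only [cb, E_vv, vv_zpow, mul_sum, ← sum_add_distrib]
  refine sum_congr rfl fun ω _ => ?_
  have e1 := vv_normSq D h y ξ ω
  have e2 : (D.vv y ξ ω)⁻¹ = starRingEnd ℂ (D.vv y ξ ω) := by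
    rw [inv_def, normSq_apply, ← sq, ← sq, e1]
    simp
  simp only [zpow_neg, zpow_ofNat, mul_inv, e2, pow_succ, pow_zero, one_mul, mul_re, mul_im,
    conj_re, conj_im]
  generalize (D.vv y ξ ω).re = a at *
  generalize (D.vv y ξ ω).im = b at *
  linear_combination (D.μ ω * g (D.t ω) * (D.vv y' ξ' ω).re * (-2 * h2 - 6 * h3 * a)) * e1

omit [Fintype Ω] [Fintype ι] in
theorem vv_re_ge (D : Dat Γ Ω ι) (h : ∀ ω ξ, ‖D.ev ω ξ‖ = 1) (y : ℝ) (ξ : Γ) (ω : Ω) :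
    -1 ≤ (D.vv y ξ ω).re := by
  nlinarith [vv_normSq D h y ξ ω, sq_nonneg (D.vv y ξ ω).im]

end Model

/-! ### Elementary combinations -/

/-- The extra terms at the places where the character is principal. -/
def xs (h1 h2 h3 V1 V2 V3 V4 τ : ℝ) (n : ℤ → ℝ) : ℝ :=
  (n 1 + n (-1)) * (V1 + h1 * τ) + (n 2 + n (-2)) * (V2 + h2 * τ) +
    (n 3 + n (-3)) * (V3 + h3 * τ) + (n 4 + n (-4)) * V4

/-- One row: the values `E`, the indicator `n`, the functions `K`, `N`, and the rest `W`. -/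
theorem zh_row {h0 h1 h2 h3 : ℝ} (a0 : 0 ≤ h0) (a1 : 0 ≤ h1) (a2 : 0 ≤ h2) (a3 : 0 ≤ h3)
    {E n K N W : ℤ → ℝ} (h : ∀ a : ℤ, -3 ≤ a → a ≤ 3 →
      E a ≤ n a * K a - n (a - 1) * N (a - 1) - n (a + 1) * N (a + 1) + W a) :
    cb h0 h1 h2 h3 E ≤ cb h0 h1 h2 h3 W + n 0 * (h0 * K 0 - 2 * h1 * N 0) +
      (n 1 * (h1 * K 1 - (h0 + h2) * N 1) + n (-1) * (h1 * K (-1) - (h0 + h2) * N (-1))) +
      (n 2 * (h2 * K 2 - (h1 + h3) * N 2) + n (-2) * (h2 * K (-2) - (h1 + h3) * N (-2))) +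
      (n 3 * (h3 * K 3 - h2 * N 3) + n (-3) * (h3 * K (-3) - h2 * N (-3))) +
      (n 4 * -(h3 * N 4) + n (-4) * -(h3 * N (-4))) := by
  have b0 := mul_le_mul_of_nonneg_left (h 0 (by norm_num) (by norm_num)) a0
  have b1 := mul_le_mul_of_nonneg_left (h 1 (by norm_num) (by norm_num)) a1
  have b2 := mul_le_mul_of_nonneg_left (h 2 (by norm_num) (by norm_num)) a2
  have b3 := mul_le_mul_of_nonneg_left (h 3 (by norm_num) (by norm_num)) a3
  have c1 := mul_le_mul_of_nonneg_left (h (-1) (by norm_num) (by norm_num)) a1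
  have c2 := mul_le_mul_of_nonneg_left (h (-2) (by norm_num) (by norm_num)) a2
  have c3 := mul_le_mul_of_nonneg_left (h (-3) (by norm_num) (by norm_num)) a3
  norm_num only at b0 b1 b2 b3 c1 c2 c3
  unfold cb
  linarith

/-- Addition of the terms `M` and the bounds at each place. -/
theorem zh_xs {h0 h1 h2 h3 V1 V2 V3 V4 τ : ℝ} {n K N M : ℤ → ℝ} (hn : ∀ a, 0 ≤ n a)
    (b1 : ∀ a, h1 * K a - (h0 + h2) * N a - h1 * M a ≤ V1 + h1 * τ)
    (b2 : ∀ a, h2 * K a - (h1 + h3) * N a - h2 * M a ≤ V2 + h2 * τ)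
    (b3 : ∀ a, h3 * K a - h2 * N a - h3 * M a ≤ V3 + h3 * τ) (b4 : ∀ a, -(h3 * N a) ≤ V4) :
    (n 1 * (h1 * K 1 - (h0 + h2) * N 1) + n (-1) * (h1 * K (-1) - (h0 + h2) * N (-1))) +
      (n 2 * (h2 * K 2 - (h1 + h3) * N 2) + n (-2) * (h2 * K (-2) - (h1 + h3) * N (-2))) +
      (n 3 * (h3 * K 3 - h2 * N 3) + n (-3) * (h3 * K (-3) - h2 * N (-3))) +
      (n 4 * -(h3 * N 4) + n (-4) * -(h3 * N (-4))) ≤
      xs h1 h2 h3 V1 V2 V3 V4 τ n + cb 0 h1 h2 h3 fun a => n a * M a := by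
  have f := fun a {x y : ℝ} (h : x ≤ y) => mul_le_mul_of_nonneg_left h (hn a)
  unfold xs cb
  linarith [f 1 (b1 1), f (-1) (b1 (-1)), f 2 (b2 2), f (-2) (b2 (-2)), f 3 (b3 3), f (-3) (b3 (-3)),
    f 4 (b4 4), f (-4) (b4 (-4))]

theorem zh_xs' {T a b h0 h1 h2 h3 w v1 v2 v3 v4 τ : ℝ} {K M : ℝ → ℝ} (hT : 0 ≤ T) (p1 : 0 ≤ h1)
    (p2 : 0 ≤ h2) (p3 : 0 ≤ h3) (t1 : Trg (a * T) (b * T) h1 (h0 + h2) (h1 * w) v1)
    (t2 : Trg (a * T) (b * T) h2 (h1 + h3) (h2 * w) v2)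
    (t3 : Trg (a * T) (b * T) h3 h2 (h3 * w) v3) (t4 : Trg (a * T) (b * T) 0 h3 0 v4)
    (G : ∀ y, K y - M y ≤ RR T (-a) y - w * RR T 0 y + τ) (P : ℤ → Prop) (y : ℤ → ℝ) :
    (nd (P 1) * (h1 * K (y 1) - (h0 + h2) * RR T (-b) (y 1)) +
        nd (P (-1)) * (h1 * K (y (-1)) - (h0 + h2) * RR T (-b) (y (-1)))) +
      (nd (P 2) * (h2 * K (y 2) - (h1 + h3) * RR T (-b) (y 2)) +
        nd (P (-2)) * (h2 * K (y (-2)) - (h1 + h3) * RR T (-b) (y (-2)))) +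
      (nd (P 3) * (h3 * K (y 3) - h2 * RR T (-b) (y 3)) +
        nd (P (-3)) * (h3 * K (y (-3)) - h2 * RR T (-b) (y (-3)))) +
      (nd (P 4) * -(h3 * RR T (-b) (y 4)) + nd (P (-4)) * -(h3 * RR T (-b) (y (-4)))) ≤
      (xs h1 h2 h3 (T * v1) (T * v2) (T * v3) (T * v4) τ fun a => nd (P a)) +
        cb 0 h1 h2 h3 fun a => nd (P a) * M (y a) :=
  zh_xs (n := fun a => nd (P a)) (K := fun a => K (y a)) (N := fun a => RR T (-b) (y a))
    (M := fun a => M (y a)) (fun _ => nd_nonneg _)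
    (fun a => by linarith [t1.rr hT (y a), mul_le_mul_of_nonneg_left (G (y a)) p1])
    (fun a => by linarith [t2.rr hT (y a), mul_le_mul_of_nonneg_left (G (y a)) p2])
    (fun a => by linarith [t3.rr hT (y a), mul_le_mul_of_nonneg_left (G (y a)) p3])
    (fun a => by linarith [t4.rr hT (y a)])

end Pool.Agent.Lib.MP_778b46_nt.GX
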