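import Pool.Agent.Lib.MP_778b46_nt.GX.ZhA
import Pool.Agent.Lib.MP_778b46_nt.GX.Ev2

/- The model inequalities with the tilt beyond a pair of conjugate first zeros. -/

namespace Pool.Agent.Lib.MP_778b46_nt.GX

open Complex Finset
open Pool.Agent.Lib.MP_e97e2b_nt.Ln (Lap Tst cut)

variable {Γ Ω ι : Type} [CommGroup Γ] [Fintype Ω] [Fintype ι]

open Classical in
/-- The cost of a character. -/
noncomputable def Dat.dl (D : Dat Γ Ω ι) (Lo : Subgroup Γ) (c c1 : ℝ) (ξ : Γ) : ℝ :=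
  if D.sm ξ then 0 else if ξ ∈ Lo then c1 else c

variable {D : Dat Γ Ω ι} {Lo : Subgroup Γ} {φ φ1 ε H : ℝ} {psF psC qsF qsC : List MP}

open Classical in
theorem Clean2.efA (h : Clean2 D Lo φ φ1 ε H psF psC qsF qsC) {c c1 : ℝ} (hc : φ / 2 ≤ c)
    (hc1 : φ1 / 2 ≤ c1) (ξ : Γ) {y T a : ℝ} (hy : |y| ≤ 4 * D.Ym) (hT : 1 / 2 ≤ T) (hT8 : T ≤ 8)
    (ha : 0 ≤ a) (haH : a ≤ H) (A : Finset ι) (hA : ∀ k ∈ A, D.ch k = ξ)
    (hB : ∀ k, k ∉ A → D.ch k = ξ → a ≤ D.lam k) :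
    D.E (cut (gT T a) T) y ξ ≤ nd (ξ = 1) * RR T (-a) y -
      ∑ k ∈ A, RR T (D.lam k - a) (D.mu k - y) + D.dl Lo c c1 ξ + ε * BH H := by
  rw [Dat.dl]
  by_cases m : ξ ∈ Lo
  · have := h.lo.efA ⟨ξ, m⟩ hy hT hT8 ha haH (A.subtype fun k => D.ch k ∈ Lo)
      (fun k hk => Subtype.ext (hA k (mem_subtype.1 hk)))
      fun k hk e => hB k (fun hk' => hk (mem_subtype.2 hk')) (congrArg Subtype.val e)
    have e1 := sum_subtype_of_mem (p := fun k => D.ch k ∈ Lo)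
      (fun k => RR T (D.lam k - a) (D.mu k - y)) (s := A) fun k hk => (hA k hk).symm ▸ m
    have e2 : ((⟨ξ, m⟩ : Lo) = 1) = (ξ = 1) := propext (Subtype.ext_iff (a1 := (⟨ξ, m⟩ : Lo)))
    rw [nd_ite, e2] at this
    change D.E (cut (gT T a) T) y ξ ≤ _ - ∑ k ∈ A.subtype _, RR T (D.lam k.1 - a) (D.mu k.1 - y) +
      (if D.sm ξ then 0 else φ1 / 2) + _ at this
    rw [e1] at this
    rw [if_pos m]
    split_ifs at this ⊢ <;> linarith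
  · have := h.cl.efA ξ hy hT hT8 ha haH A hA hB
    rw [nd_ite] at this
    rw [if_neg m]
    split_ifs at this ⊢ <;> linarith

theorem zh_sy (T x : ℝ) {y y' : ℝ} (e : y' = -y) : RR T x y' = RR T x y := by rw [e, RR_neg]

omit [Fintype Ω] [Fintype ι] in
theorem zh_i1 (χ ξ : Γ) (a : ℤ) : (χ = χ ^ a * ξ) = (χ ^ (a - 1) * ξ = 1) := by
  rw [zpow_sub_one, mul_right_comm, mul_inv_eq_one, eq_comm (a := χ)]

omit [Fintype Ω] [Fintype ι] in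
theorem zh_i2 (χ ξ : Γ) (a : ℤ) : (χ⁻¹ = χ ^ a * ξ) = (χ ^ (a + 1) * ξ = 1) := by
  rw [zpow_add_one, mul_right_comm, mul_eq_one_iff_eq_inv, eq_comm (a := χ⁻¹)]

open Classical in
/-- One formula on the line through `(ξ, y)`; the zeros in `J` are kept as well. -/
theorem Clean2.ef_pt (h : Clean2 D Lo φ φ1 ε H psF psC qsF qsC) {c c1 : ℝ} (hc : φ / 2 ≤ c)
    (hc1 : φ1 / 2 ≤ c1) {i : ι} (h1 : i ≠ D.cj i) {T a' : ℝ} (hT : 1 / 2 ≤ T) (hT8 : T ≤ 8)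
    (ha : 0 ≤ a') (haH : a' ≤ H) (hk : ∀ k, k ≠ i → k ≠ D.cj i → a' ≤ D.lam k) (J : Finset ι)
    (hJ : Disjoint J {i, D.cj i}) (ξ : Γ) {y : ℝ} (hy : |y| ≤ D.Ym) (a : ℤ) (a1 : -3 ≤ a)
    (a2 : a ≤ 3) :
    D.E (cut (gT T a') T) (a * D.mu i + y) (D.ch i ^ a * ξ) ≤
      nd (D.ch i ^ a * ξ = 1) * RR T (-a') (a * D.mu i + y) -
      nd (D.ch i ^ (a - 1) * ξ = 1) * RR T (D.lam i - a') ((a - 1 : ℤ) * D.mu i + y) -
      nd (D.ch i ^ (a + 1) * ξ = 1) * RR T (D.lam i - a') ((a + 1 : ℤ) * D.mu i + y) +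
      (D.dl Lo c c1 (D.ch i ^ a * ξ) + ε * BH H - ∑ j ∈ J, nd (D.ch j = D.ch i ^ a * ξ) *
        RR T (D.lam j - a') (D.mu j - (a * D.mu i + y))) := by
  have hm := h.cl.mu_le i
  have b : |(a : ℝ)| ≤ 3 := by exact_mod_cast abs_le.2 ⟨a1, a2⟩
  have hy' : |a * D.mu i + y| ≤ 4 * D.Ym := by
    refine (abs_add_le _ _).trans ?_
    rw [abs_mul]
    nlinarith [abs_nonneg (D.mu i), abs_nonneg (a : ℝ)]
  have := h.efA hc hc1 (D.ch i ^ a * ξ) hy' hT hT8 ha haH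
    ((J ∪ {i, D.cj i}).filter fun k => D.ch k = D.ch i ^ a * ξ) (fun k hk => (mem_filter.1 hk).2)
    fun k hk' e => hk k (fun e' => hk' (by simp [e', ← e])) fun e' => hk' (by simp [e', ← e])
  rw [sum_filter, sum_union hJ, sum_pair h1, h.cl.cj_ch, h.cl.cj_lam, h.cl.cj_mu] at this
  simp only [nd_ite, zh_i1, zh_i2] at this
  rw [zh_sy T _ (y := ((a - 1 : ℤ) : ℝ) * D.mu i + y) (y' := D.mu i - (a * D.mu i + y))
      (by push_cast; ring),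
    zh_sy T _ (y := ((a + 1 : ℤ) : ℝ) * D.mu i + y) (y' := -D.mu i - (a * D.mu i + y))
      (by push_cast; ring)] at this
  linarith

theorem cb_add (h0 h1 h2 h3 : ℝ) (f g : ℤ → ℝ) (e : ℝ) :
    (cb h0 h1 h2 h3 fun a => f a + e - g a) =
      cb h0 h1 h2 h3 f + (h0 + 2 * h1 + 2 * h2 + 2 * h3) * e - cb h0 h1 h2 h3 g := by
  unfold cb
  ring

/-- The inequality with three zeros. -/
theorem Clean2.zh_core (h : Clean2 D Lo φ φ1 ε H psF psC qsF qsC) {c c1 : ℝ} (hc : φ / 2 ≤ c)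
    (hc1 : φ1 / 2 ≤ c1) {i j : ι} (k1 : i ≠ D.cj i) (k2 : j ≠ i) (k3 : j ≠ D.cj i)
    {T sa sb a0 a1 h0 h1 h2 h3 w v1 v2 v3 v4 : ℝ} (hT : 1 / 2 ≤ T) (hT8 : T ≤ 8)
    (hsa : sa ≤ D.lam i) (hsb : D.lam i ≤ sb) (h01 : sb ≤ a0) (haH : a0 ≤ H)
    (hk : ∀ k, k ≠ i → k ≠ D.cj i → a0 ≤ D.lam k) (hj : D.lam j ≤ a1)
    (p0 : 0 ≤ h0) (p1 : 0 ≤ h1) (p2 : 0 ≤ h2) (p3 : 0 ≤ h3) (hP : Pos3 h0 h1 h2 h3)
    (hw0 : 0 ≤ w) (hw : w * (1 + (a1 - a0) * T / 2) ≤ 1)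
    (t1 : Trg (a0 * T) ((a0 - sb) * T) h1 (h0 + h2) (h1 * w) v1)
    (t2 : Trg (a0 * T) ((a0 - sb) * T) h2 (h1 + h3) (h2 * w) v2)
    (t3 : Trg (a0 * T) ((a0 - sb) * T) h3 h2 (h3 * w) v3)
    (t4 : Trg (a0 * T) ((a0 - sb) * T) 0 h3 0 v4) :
    ∃ τ : ℝ, 0 ≤ τ ∧ τ ≤ RR T (-a0) 0 - RR T (a1 - a0) 0 -
        (RR T (-(a0 - sb + sa)) 0 - RR T (sb - sa) 0) ∧
      0 ≤ h0 * (RR T (-a0) 0 - RR T (a1 - a0) 0) - 2 * h1 * RR T (-(a0 - sb)) 0 - h0 * τ +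
        2 * (h0 + 2 * h1 + 2 * h2 + 2 * h3) * (ε * BH H) +
        (cb 0 h1 h2 h3 fun a => D.dl Lo c c1 (D.ch i ^ a * 1)) +
        (cb h0 h1 h2 h3 fun a => D.dl Lo c c1 (D.ch i ^ a * D.ch j)) +
        (xs h1 h2 h3 (T * v1) (T * v2) (T * v3) (T * v4) τ fun a => nd (D.ch i ^ a * 1 = 1)) +
        xs h1 h2 h3 (T * v1) (T * v2) (T * v3) (T * v4) τ fun a =>
          nd (D.ch i ^ a * D.ch j = 1) := by
  classical
  have hT0 : 0 < T := by linarith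
  have hs := h.cl.lam_nonneg i
  have hj0 := hk j k2 k3
  obtain ⟨a', ha'⟩ : ∃ a', a' = a0 - sb + D.lam i := ⟨_, rfl⟩
  have q1 : 0 ≤ a' := by linarith
  have q2 : a' ≤ a0 := by linarith
  have q3 : D.lam i - a' = -(a0 - sb) := by linarith
  have hY : |(0 : ℝ)| ≤ D.Ym := by rw [abs_zero]; exact (abs_nonneg _).trans (h.cl.mu_le i)
  have F := fun ξ y hy => h.ef_pt hc hc1 k1 hT hT8 q1 (q2.trans haH)
    (fun k b1 b2 => q2.trans (hk k b1 b2)) {j} (by simp [k2, k3]) ξ (y := y) hy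
  simp only [sum_singleton, q3] at F
  have r0 := zh_row (N := fun a => RR T (-(a0 - sb)) (a * D.mu i + 0)) p0 p1 p2 p3 (F 1 0 hY)
  have r1 := zh_row (N := fun a => RR T (-(a0 - sb)) (a * D.mu i + D.mu j)) p0 p1 p2 p3
    (F (D.ch j) (D.mu j) (h.cl.mu_le j))
  rw [cb_add] at r0 r1
  have pos : 0 ≤ cb h0 h1 h2 h3 (fun a => D.E (cut (gT T a') T) (a * D.mu i + 0) (D.ch i ^ a * 1)) +
      cb h0 h1 h2 h3 fun a => D.E (cut (gT T a') T) (a * D.mu i + D.mu j) (D.ch i ^ a * D.ch j) := by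
    rw [E_cb D h.cl.norm_ev, E_cb D h.cl.norm_ev, ← sum_add_distrib]
    refine sum_nonneg fun ω _ => ?_
    rw [← mul_add, vv_one, one_re]
    exact mul_nonneg (mul_nonneg (h.cl.w_nonneg hT0 a' ω) (hP _ (vv_re_ge D h.cl.norm_ev _ _ ω)))
      (neg_le_iff_add_nonneg'.1 (vv_re_ge D h.cl.norm_ev _ _ ω))
  refine ⟨RR T (-a0) 0 - RR T (a1 - a0) 0 - (RR T (-a') 0 - RR T (D.lam j - a') 0),
    sub_nonneg.2 (RR_diff hT0 q2 (by linarith) hj), sub_le_sub_left ?_ _, ?_⟩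
  · have := RR_diff (s := a0 - sb + sa) (s' := a') (l := a0) hT0 (by linarith) (by linarith) hj0
    rwa [show a0 - (a0 - sb + sa) = sb - sa by ring] at this
  generalize hτ : RR T (-a0) 0 - RR T (a1 - a0) 0 - (RR T (-a') 0 - RR T (D.lam j - a') 0) = τ
  have G : ∀ y, RR T (-a') y - RR T (D.lam j - a') y ≤ RR T (-a0) y - w * RR T 0 y + τ := by
    intro y
    have u1 := RR_four hT0 y fun t ht => zh_exp q2 (by linarith) hj ht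
    have u2 := mul_le_mul_of_nonneg_left (RR_lower hT0.le (x := a1 - a0) (by linarith) y) hw0
    have u3 := mul_le_mul_of_nonneg_right hw (RR_nonneg hT0.le (x := a1 - a0) (by linarith) y)
    linarith
  have x0 := zh_xs' hT0.le p1 p2 p3 t1 t2 t3 t4 G (fun a => D.ch i ^ a * 1 = 1)
    fun a => a * D.mu i + 0
  have x1 := zh_xs' hT0.le p1 p2 p3 t1 t2 t3 t4 G (fun a => D.ch i ^ a * D.ch j = 1)
    fun a => a * D.mu i + D.mu j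
  have m0 : ∀ a : ℤ, nd (D.ch j = D.ch i ^ a * 1) * RR T (D.lam j - a') (D.mu j - (a * D.mu i + 0)) =
      nd (D.ch i ^ (-a) * D.ch j = 1) * RR T (D.lam j - a') ((-a : ℤ) * D.mu i + D.mu j) := by
    intro a
    rw [zpow_neg, inv_mul_eq_one, mul_one, eq_comm (a := D.ch j)]
    congr 2
    push_cast
    ring
  have m1 : ∀ a : ℤ, nd (D.ch j = D.ch i ^ a * D.ch j) *
      RR T (D.lam j - a') (D.mu j - (a * D.mu i + D.mu j)) =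
      nd (D.ch i ^ a * 1 = 1) * RR T (D.lam j - a') (a * D.mu i + 0) := by
    intro a
    rw [right_eq_mul, mul_one, zh_sy T _ (y := a * D.mu i + 0) (by ring)]
  simp only [m0] at r0
  simp only [m1] at r1
  have n0 : nd (D.ch i ^ (0 : ℤ) * 1 = 1) = 1 := nd_pos (by simp)
  have n1 : nd (D.ch i ^ (0 : ℤ) * D.ch j = 1) = 0 := nd_neg (by simpa using h.cl.ch_ne_one j)
  have d0 : D.dl Lo c c1 (D.ch i ^ (0 : ℤ) * 1) = 0 := by simp [Dat.dl, h.cl.sm_one]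
  simp only [cb, neg_neg, neg_zero, n0, n1, d0, Int.cast_zero, zero_mul, add_zero, one_mul]
    at r0 r1 x0 x1 pos ⊢
  linarith only [r0, r1, x0, x1, pos, congrArg (fun x => h0 * x) hτ]

/-- The inequality with the pair alone. -/
theorem Clean2.zh_two (h : Clean2 D Lo φ φ1 ε H psF psC qsF qsC) {c c1 : ℝ} (hc : φ / 2 ≤ c)
    (hc1 : φ1 / 2 ≤ c1) {i : ι} (k1 : i ≠ D.cj i)
    {T sb a0 h0 h1 h2 h3 v1 v2 v3 v4 : ℝ} (hT : 1 / 2 ≤ T) (hT8 : T ≤ 8)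
    (hsb : D.lam i ≤ sb) (h01 : sb ≤ a0) (haH : a0 ≤ H)
    (hk : ∀ k, k ≠ i → k ≠ D.cj i → a0 ≤ D.lam k)
    (p0 : 0 ≤ h0) (p1 : 0 ≤ h1) (p2 : 0 ≤ h2) (p3 : 0 ≤ h3) (hP : Pos3 h0 h1 h2 h3)
    (t1 : Trg (a0 * T) ((a0 - sb) * T) h1 (h0 + h2) 0 v1)
    (t2 : Trg (a0 * T) ((a0 - sb) * T) h2 (h1 + h3) 0 v2)
    (t3 : Trg (a0 * T) ((a0 - sb) * T) h3 h2 0 v3)
    (t4 : Trg (a0 * T) ((a0 - sb) * T) 0 h3 0 v4) :
    ∃ τ : ℝ, 0 ≤ τ ∧ 0 ≤ h0 * RR T (-a0) 0 - 2 * h1 * RR T (-(a0 - sb)) 0 - h0 * τ +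
        (h0 + 2 * h1 + 2 * h2 + 2 * h3) * (ε * BH H) +
        (cb 0 h1 h2 h3 fun a => D.dl Lo c c1 (D.ch i ^ a * 1)) +
        xs h1 h2 h3 (T * v1) (T * v2) (T * v3) (T * v4) τ fun a => nd (D.ch i ^ a * 1 = 1) := by
  classical
  have hT0 : 0 < T := by linarith
  have hs := h.cl.lam_nonneg i
  obtain ⟨a', ha'⟩ : ∃ a', a' = a0 - sb + D.lam i := ⟨_, rfl⟩
  have q1 : 0 ≤ a' := by linarith
  have q2 : a' ≤ a0 := by linarith
  have q3 : D.lam i - a' = -(a0 - sb) := by linarith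
  have hY : |(0 : ℝ)| ≤ D.Ym := by rw [abs_zero]; exact (abs_nonneg _).trans (h.cl.mu_le i)
  have F := h.ef_pt hc hc1 k1 hT hT8 q1 (q2.trans haH)
    (fun k b1 b2 => q2.trans (hk k b1 b2)) ∅ (by simp) 1 hY
  simp only [sum_empty, q3] at F
  have r0 := zh_row (N := fun a => RR T (-(a0 - sb)) (a * D.mu i + 0)) p0 p1 p2 p3 F
  rw [cb_add] at r0
  have pos : 0 ≤ cb h0 h1 h2 h3 fun a =>
      D.E (cut (gT T a') T) (a * D.mu i + 0) (D.ch i ^ a * 1) := by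
    rw [E_cb D h.cl.norm_ev]
    refine sum_nonneg fun ω _ => ?_
    rw [vv_one, one_re, mul_one]
    exact mul_nonneg (h.cl.w_nonneg hT0 a' ω) (hP _ (vv_re_ge D h.cl.norm_ev _ _ ω))
  refine ⟨RR T (-a0) 0 - RR T (-a') 0, sub_nonneg.2 (RR_anti hT0.le (by linarith)), ?_⟩
  generalize hτ : RR T (-a0) 0 - RR T (-a') 0 = τ
  have G : ∀ y, RR T (-a') y - 0 ≤ RR T (-a0) y - 0 * RR T 0 y + τ := by
    intro y
    have u1 := RR_four (x1 := -a') (x2 := 0) (x3 := -a0) (x4 := 0) hT0 y fun t ht =>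
      sub_le_sub_right (Real.exp_le_exp.2
        (by linarith only [mul_le_mul_of_nonneg_right q2 ht])) _
    linarith
  have x0 := zh_xs' (w := 0) (M := fun _ => 0) hT0.le p1 p2 p3 (by rwa [mul_zero])
    (by rwa [mul_zero]) (by rwa [mul_zero]) t4 G (fun a => D.ch i ^ a * 1 = 1)
    fun a => a * D.mu i + 0
  have n0 : nd (D.ch i ^ (0 : ℤ) * 1 = 1) = 1 := nd_pos (by simp)
  have d0 : D.dl Lo c c1 (D.ch i ^ (0 : ℤ) * 1) = 0 := by simp [Dat.dl, h.cl.sm_one]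
  simp only [cb, n0, d0, Int.cast_zero, zero_mul, add_zero, one_mul, mul_zero] at r0 x0 pos ⊢
  linarith only [r0, x0, pos, congrArg (fun x => h0 * x) hτ]

end Pool.Agent.Lib.MP_778b46_nt.GX
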