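import Pool.Agent.Lib.MP_778b46_nt.GX.ZhB

/- The case analysis for a first zero whose conjugate lies in another class. -/

namespace Pool.Agent.Lib.MP_778b46_nt.GX

open Finset

theorem zh_r0 {h1 h2 h3 V1 V2 V3 V4 τ d u κ : ℝ} {n δ : ℤ → ℝ} (p1 : 0 ≤ h1) (p2 : 0 ≤ h2)
    (p3 : 0 ≤ h3) (hτ : 0 ≤ τ) (hn : ∀ a, 0 ≤ n a) (hδ : ∀ a, δ a ≤ d * (1 - n a))
    (z1 : n 1 = 0) (z2 : n (-1) = 0) (z3 : n 2 = 0) (z4 : n (-2) = 0) (w1 : n 3 + n 4 ≤ κ)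
    (w2 : n (-3) + n (-4) ≤ κ) (hu : 0 ≤ u) (u3 : V3 - h3 * d ≤ u ∨ κ = 0) (u4 : V4 ≤ u ∨ κ = 0) :
    cb 0 h1 h2 h3 δ + xs h1 h2 h3 V1 V2 V3 V4 τ n ≤
      d * (2 * h1 + 2 * h2 + 2 * h3) + κ * (2 * u + 2 * h3 * τ) := by
  have f : ∀ x V : ℝ, 0 ≤ x → x ≤ 2 * κ → (V ≤ u ∨ κ = 0) → x * V ≤ x * u := fun x V a b c => by
    rcases c with c | c
    · exact mul_le_mul_of_nonneg_left c a
    · rw [show x = 0 by linarith, zero_mul, zero_mul]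
  have a3 := f (n 3 + n (-3)) _ (add_nonneg (hn _) (hn _)) (by linarith [hn 4, hn (-4)]) u3
  have a4 := f (n 4 + n (-4)) _ (add_nonneg (hn _) (hn _)) (by linarith [hn 3, hn (-3)]) u4
  have b1 := mul_le_mul_of_nonneg_left (add_le_add (hδ 1) (hδ (-1))) p1
  have b2 := mul_le_mul_of_nonneg_left (add_le_add (hδ 2) (hδ (-2))) p2
  have b3 := mul_le_mul_of_nonneg_left (add_le_add (hδ 3) (hδ (-3))) p3
  have c1 := mul_le_mul_of_nonneg_right (add_le_add w1 w2) hu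
  have c2 := mul_le_mul_of_nonneg_right (by linarith [hn 4, hn (-4)] : n 3 + n (-3) ≤ 2 * κ)
    (mul_nonneg p3 hτ)
  unfold cb xs
  rw [z1, z2] at b1 ⊢
  rw [z3, z4] at b2 ⊢
  linarith

theorem zh_r1L {h0 h1 h2 h3 V1 V2 V3 V4 τ d u u1 o : ℝ} {n δ : ℤ → ℝ} (p0 : 0 ≤ h0)
    (p1 : h2 ≤ h1) (p2 : h3 ≤ h2) (p3 : 0 ≤ h3) (hτ : 0 ≤ τ) (hd : 0 ≤ d) (ho : 0 ≤ o)
    (hn : ∀ a, 0 ≤ n a) (hδ : ∀ a, δ a ≤ d * (1 - n a)) (hδ' : δ (-1) ≤ (1 - o) * d * (1 - n (-1)))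
    (w0 : n 1 + n (-1) ≤ 1) (w1 : n 1 + n 2 + n 3 ≤ 1) (w2 : n (-1) + n (-2) + n (-3) ≤ 1)
    (w3 : n 2 + n 3 + n 4 ≤ 1) (w4 : n (-2) + n (-3) + n (-4) ≤ 1) (hu : 0 ≤ u) (hu1 : 0 ≤ u1)
    (v1 : V1 - (1 - o) * h1 * d ≤ u1) (v2 : V2 - h2 * d ≤ u) (v3 : V3 - h3 * d ≤ u) (v4 : V4 ≤ u) :
    cb h0 h1 h2 h3 δ + xs h1 h2 h3 V1 V2 V3 V4 τ n ≤
      d * (h0 + 2 * h1 + 2 * h2 + 2 * h3 - o * h1) + u1 + 2 * u + (h1 + h2) * τ := by
  have q2 : 0 ≤ h2 := p3.trans p2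
  have q1 : 0 ≤ h1 := q2.trans p1
  have a1 := mul_le_mul_of_nonneg_left v1 (add_nonneg (hn 1) (hn (-1)))
  have a1' : 0 ≤ n 1 * (o * h1 * d) := mul_nonneg (hn 1) (by positivity)
  have a2 := mul_le_mul_of_nonneg_left v2 (add_nonneg (hn 2) (hn (-2)))
  have a3 := mul_le_mul_of_nonneg_left v3 (add_nonneg (hn 3) (hn (-3)))
  have a4 := mul_le_mul_of_nonneg_left v4 (add_nonneg (hn 4) (hn (-4)))
  have b0 := mul_le_mul_of_nonneg_left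
    ((hδ 0).trans (mul_le_of_le_one_right hd (by linarith [hn 0]))) p0
  have b1 := mul_le_mul_of_nonneg_left (add_le_add (hδ 1) hδ') q1
  have b2 := mul_le_mul_of_nonneg_left (add_le_add (hδ 2) (hδ (-2))) q2
  have b3 := mul_le_mul_of_nonneg_left (add_le_add (hδ 3) (hδ (-3))) p3
  have c1 := mul_le_mul_of_nonneg_right w0 hu1
  have c2 := mul_le_mul_of_nonneg_right (add_le_add w3 w4) hu
  have c3 := mul_le_mul_of_nonneg_right w0 (mul_nonneg (sub_nonneg.2 p1) hτ)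
  have c4 := mul_le_mul_of_nonneg_right (add_le_add w1 w2) (mul_nonneg q2 hτ)
  have c5 := mul_nonneg (add_nonneg (hn 3) (hn (-3))) (mul_nonneg (sub_nonneg.2 p2) hτ)
  unfold cb xs
  linarith

theorem zh_r1H {h0 h1 h2 h3 V1 V2 V3 V4 τ d u o κ : ℝ} {n δ : ℤ → ℝ} (p0 : h1 ≤ h0)
    (p1 : h2 ≤ h1) (p2 : h3 ≤ h2) (p3 : 0 ≤ h3) (hτ : 0 ≤ τ) (hd : 0 ≤ d) (ho : 0 ≤ o)
    (hn : ∀ a, 0 ≤ n a) (hδ : ∀ a, δ a ≤ d * (1 - n a)) (hδ' : δ (-1) ≤ (1 - o) * d * (1 - n (-1)))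
    (w : n 1 + n (-1) + (n 2 + n (-2)) + (n 3 + n (-3)) + (n 4 + n (-4)) ≤ κ) (hu : 0 ≤ u)
    (v1 : (n 1 + n (-1)) * (V1 - (1 - o) * h1 * d - u) ≤ 0)
    (v2 : (n 2 + n (-2)) * (V2 - h2 * d - u) ≤ 0) (v3 : (n 3 + n (-3)) * (V3 - h3 * d - u) ≤ 0)
    (v4 : (n 4 + n (-4)) * (V4 - u) ≤ 0) :
    cb h0 h1 h2 h3 δ + xs h1 h2 h3 V1 V2 V3 V4 τ n ≤
      d * (h0 + 2 * h1 + 2 * h2 + 2 * h3 - o * h1) + κ * (u + h0 * τ) := by
  have q2 : 0 ≤ h2 := p3.trans p2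
  have q1 : 0 ≤ h1 := q2.trans p1
  have q0 : 0 ≤ h0 := q1.trans p0
  have a1' : 0 ≤ n 1 * (o * h1 * d) := mul_nonneg (hn 1) (by positivity)
  have b0 := mul_le_mul_of_nonneg_left
    ((hδ 0).trans (mul_le_of_le_one_right hd (by linarith [hn 0]))) q0
  have b1 := mul_le_mul_of_nonneg_left (add_le_add (hδ 1) hδ') q1
  have b2 := mul_le_mul_of_nonneg_left (add_le_add (hδ 2) (hδ (-2))) q2
  have b3 := mul_le_mul_of_nonneg_left (add_le_add (hδ 3) (hδ (-3))) p3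
  have c0 := mul_le_mul_of_nonneg_right w (add_nonneg hu (mul_nonneg q0 hτ))
  have c1 := mul_nonneg (add_nonneg (hn 1) (hn (-1))) (mul_nonneg (sub_nonneg.2 p0) hτ)
  have c2 := mul_nonneg (add_nonneg (hn 2) (hn (-2))) (mul_nonneg (sub_nonneg.2 (p1.trans p0)) hτ)
  have c3 := mul_nonneg (add_nonneg (hn 3) (hn (-3)))
    (mul_nonneg (sub_nonneg.2 (p2.trans (p1.trans p0))) hτ)
  have c4 := mul_nonneg (add_nonneg (hn 4) (hn (-4))) (mul_nonneg q0 hτ)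
  unfold cb xs
  linarith

section Model

variable {Γ Ω ι : Type} [CommGroup Γ] [Fintype Ω] [Fintype ι]
variable {D : Dat Γ Ω ι} {Lo : Subgroup Γ} {φ φ1 ε H : ℝ} {psF psC qsF qsC : List MP}

theorem Clean2.lo_of_zpow (h : Clean2 D Lo φ φ1 ε H psF psC qsF qsC) {χ : Γ} {k : ℤ} (k0 : k ≠ 0)
    (k1 : -10 ≤ k) (k2 : k ≤ 10) (hs : D.sm (χ ^ k)) : χ ∈ Lo := by
  refine h.mem χ k.natAbs (by interval_cases k <;> simp_all) ?_
  rcases Int.natAbs_eq k with e | e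
  · rwa [e, zpow_natCast] at hs
  · have := h.cl.sm_inv _ hs
    rwa [e, zpow_neg, inv_inv, zpow_natCast] at this

theorem Clean2.dl_le (h : Clean2 D Lo φ φ1 ε H psF psC qsF qsC) {c c1 : ℝ} (h0 : 0 ≤ c1)
    (h1 : c1 ≤ c) (ξ : Γ) : D.dl Lo c c1 ξ ≤ c * (1 - nd (ξ = 1)) := by
  unfold Dat.dl
  by_cases e : ξ = 1
  · rw [nd_pos e, if_pos (e ▸ h.cl.sm_one), sub_self, mul_zero]
  · rw [nd_neg e]
    split_ifs <;> linarith

theorem Clean2.dl_lo (h : Clean2 D Lo φ φ1 ε H psF psC qsF qsC) {c c1 : ℝ} (h0 : 0 ≤ c1)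
    {ξ : Γ} (m : ξ ∈ Lo) : D.dl Lo c c1 ξ ≤ c1 * (1 - nd (ξ = 1)) := by
  unfold Dat.dl
  by_cases e : ξ = 1
  · rw [nd_pos e, if_pos (e ▸ h.cl.sm_one), sub_self, mul_zero]
  · rw [nd_neg e, if_pos m]
    split_ifs <;> linarith

omit [Fintype Ω] [Fintype ι] in
theorem zh_win {χ : Γ} (ξ : Γ) {d : ℤ} (hd : ∀ k : ℤ, k ≠ 0 → -d ≤ k → k ≤ d → χ ^ k ≠ 1)
    (S : Finset ℤ) (hS : ∀ a ∈ S, ∀ b ∈ S, a - b ≤ d) : ∑ a ∈ S, nd (χ ^ a * ξ = 1) ≤ 1 := by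
  refine nd_sum fun a ha b hb e1 e2 => by_contra fun ne => hd (a - b) (sub_ne_zero.2 ne)
    (by linarith [hS b hb a ha]) (hS a ha b hb) ?_
  rw [zpow_sub, mul_right_cancel (e1.trans e2.symm), mul_inv_cancel]

theorem Clean2.kd_pow (h : Clean2 D Lo φ φ1 ε H psF psC qsF qsC) {i : ι}
    (hK : ¬ D.sm (D.ch i * D.ch i)) (k : ℤ) (k0 : k ≠ 0) (k1 : -2 ≤ k) (k2 : k ≤ 2) :
    D.ch i ^ k ≠ 1 := by
  have a := h.cl.ch_ne_one i
  have b : D.ch i ^ (2 : ℤ) ≠ 1 := fun e => hK (by rw [← zpow_two, e]; exact h.cl.sm_one)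
  interval_cases k
  · rwa [zpow_neg, inv_ne_one]
  · rwa [zpow_neg, zpow_one, inv_ne_one]
  · exact absurd rfl k0
  · rwa [zpow_one]
  · exact b

theorem Clean2.kd_ne (h : Clean2 D Lo φ φ1 ε H psF psC qsF qsC) {i : ι}
    (hK : ¬ D.sm (D.ch i * D.ch i)) : i ≠ D.cj i := fun e => hK (by
  have := h.cl.cj_ch i
  rw [← e] at this
  rw [mul_eq_one_iff_eq_inv.2 this]
  exact h.cl.sm_one)

/-- The powers of the first character. -/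
theorem Clean2.kd_r0 (h : Clean2 D Lo φ φ1 ε H psF psC qsF qsC) {i : ι}
    (hK : ¬ D.sm (D.ch i * D.ch i)) {c c1 h1 h2 h3 V1 V2 V3 V4 τ u : ℝ} (c0 : 0 ≤ c1)
    (cc : c1 ≤ c) (p1 : 0 ≤ h1) (p2 : 0 ≤ h2) (p3 : 0 ≤ h3) (hτ : 0 ≤ τ) (hu : 0 ≤ u)
    (u3 : V3 - h3 * c1 ≤ u) (u4 : V4 ≤ u) :
    (D.ch i ∉ Lo → (cb 0 h1 h2 h3 fun a => D.dl Lo c c1 (D.ch i ^ a * 1)) +
      (xs h1 h2 h3 V1 V2 V3 V4 τ fun a => nd (D.ch i ^ a * 1 = 1)) ≤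
        c * (2 * h1 + 2 * h2 + 2 * h3)) ∧
    (D.ch i ∈ Lo → (cb 0 h1 h2 h3 fun a => D.dl Lo c c1 (D.ch i ^ a * 1)) +
      (xs h1 h2 h3 V1 V2 V3 V4 τ fun a => nd (D.ch i ^ a * 1 = 1)) ≤
        c1 * (2 * h1 + 2 * h2 + 2 * h3) + (2 * u + 2 * h3 * τ)) := by
  have k := h.kd_pow hK
  have z : ∀ a : ℤ, a ≠ 0 → -2 ≤ a → a ≤ 2 → nd (D.ch i ^ a * 1 = 1) = 0 := fun a b1 b2 b3 =>
    nd_neg (by rw [mul_one]; exact k a b1 b2 b3)
  have f := fun (d κ : ℝ) hδ => zh_r0 (V1 := V1) (V2 := V2) (V3 := V3) (V4 := V4) (d := d)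
    (κ := κ) (u := u) (n := fun a => nd (D.ch i ^ a * 1 = 1))
    (δ := fun a => D.dl Lo c c1 (D.ch i ^ a * 1)) p1 p2 p3 hτ (fun _ => nd_nonneg _) hδ
    (z 1 (by norm_num) (by norm_num) (by norm_num)) (z (-1) (by norm_num) (by norm_num) (by norm_num))
    (z 2 (by norm_num) (by norm_num) (by norm_num)) (z (-2) (by norm_num) (by norm_num) (by norm_num))
  refine ⟨fun m => ?_, fun m => ?_⟩
  · have z' : ∀ a : ℤ, a ≠ 0 → -10 ≤ a → a ≤ 10 → nd (D.ch i ^ a * 1 = 1) = 0 := fun a b1 b2 b3 =>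
      nd_neg fun e => m (h.lo_of_zpow b1 b2 b3 (by rw [← mul_one (D.ch i ^ a), e]; exact h.cl.sm_one))
    have := f c 0 (fun _ => h.dl_le c0 cc _)
      (by rw [z' 3 (by norm_num) (by norm_num) (by norm_num),
        z' 4 (by norm_num) (by norm_num) (by norm_num), add_zero])
      (by rw [z' (-3) (by norm_num) (by norm_num) (by norm_num),
        z' (-4) (by norm_num) (by norm_num) (by norm_num), add_zero]) hu (Or.inr rfl) (Or.inr rfl)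
    linarith
  · have w1 := zh_win 1 k {3, 4} (by decide)
    have w2 := zh_win 1 k {-3, -4} (by decide)
    rw [sum_pair (by norm_num)] at w1 w2
    have := f c1 1 (fun _ => h.dl_lo c0 (Lo.mul_mem (Lo.zpow_mem m _) Lo.one_mem)) w1 w2 hu
      (Or.inl u3) (Or.inl u4)
    linarith

/-- The case analysis for three zeros; `o = 1` is allowed for a zero in the class of the first. -/
theorem Clean2.kd_fin (h : Clean2 D Lo φ φ1 ε H psF psC qsF qsC) {i j : ι}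
    (hK : ¬ D.sm (D.ch i * D.ch i)) {c c1 h0 h1 h2 h3 V1 V2 V3 V4 τ u u1 uH o B Dm ex : ℝ}
    (c0 : 0 ≤ c1) (cc : c1 ≤ c) (p0 : h1 ≤ h0) (p1 : h2 ≤ h1) (p2 : h3 ≤ h2) (p3 : 0 ≤ h3)
    (p4 : 2 * h3 ≤ h0) (hτ : 0 ≤ τ) (hD : τ ≤ Dm) (hu : 0 ≤ u) (hu1 : 0 ≤ u1) (huH : 0 ≤ uH)
    (hex : 0 ≤ ex) (hex' : h1 + h2 + 2 * h3 - h0 ≤ ex)
    (ho : (o = 0 ∧ V2 - h2 * c ≤ uH ∧ V3 - h3 * c ≤ uH ∧ V4 ≤ uH ∧
      B + c1 * (2 * h1 + 2 * h2 + 2 * h3) + 2 * u + c * (h0 + 2 * h1 + 2 * h2 + 2 * h3) < 0) ∨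
      (o = 1 ∧ D.sm (D.ch i / D.ch j)))
    (v0 : V1 - (1 - o) * h1 * c ≤ uH) (v1 : V1 - (1 - o) * h1 * c1 ≤ u1) (v2 : V2 - h2 * c1 ≤ u)
    (v3 : V3 - h3 * c1 ≤ u) (v4 : V4 ≤ u)
    (nH : B + c * (2 * h1 + 2 * h2 + 2 * h3) + c * (h0 + 2 * h1 + 2 * h2 + 2 * h3 - o * h1) +
      uH < 0)
    (nL : B + c1 * (2 * h1 + 2 * h2 + 2 * h3) + c1 * (h0 + 2 * h1 + 2 * h2 + 2 * h3 - o * h1) +
      u1 + 4 * u + ex * Dm < 0) :
    B - h0 * τ + (cb 0 h1 h2 h3 fun a => D.dl Lo c c1 (D.ch i ^ a * 1)) +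
      (cb h0 h1 h2 h3 fun a => D.dl Lo c c1 (D.ch i ^ a * D.ch j)) +
      (xs h1 h2 h3 V1 V2 V3 V4 τ fun a => nd (D.ch i ^ a * 1 = 1)) +
      (xs h1 h2 h3 V1 V2 V3 V4 τ fun a => nd (D.ch i ^ a * D.ch j = 1)) < 0 := by
  have q2 : 0 ≤ h2 := p3.trans p2
  have q1 : 0 ≤ h1 := q2.trans p1
  have k := h.kd_pow hK
  obtain ⟨r1, r2⟩ := h.kd_r0 (V1 := V1) (V2 := V2) hK c0 cc q1 q2 p3 hτ hu v3 v4
  have o0 : 0 ≤ o := by rcases ho with e | e <;> rw [e.1] <;> norm_num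
  have hs : o = 1 → D.sm (D.ch i ^ (-1 : ℤ) * D.ch j) := fun e => by
    rcases ho with e' | e'
    · exact absurd (e'.1.symm.trans e) zero_ne_one
    · have := h.cl.sm_inv _ e'.2
      rwa [inv_div, div_eq_inv_mul, ← zpow_neg_one] at this
  have hd : ∀ d : ℝ, D.dl Lo c c1 (D.ch i ^ (-1 : ℤ) * D.ch j) ≤
      d * (1 - nd (D.ch i ^ (-1 : ℤ) * D.ch j = 1)) → D.dl Lo c c1 (D.ch i ^ (-1 : ℤ) * D.ch j) ≤
      (1 - o) * d * (1 - nd (D.ch i ^ (-1 : ℤ) * D.ch j = 1)) := fun d hd => by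
    rcases ho with e | e
    · rwa [e.1, sub_zero, one_mul]
    · rw [Dat.dl, if_pos (hs e.1), e.1, sub_self, zero_mul, zero_mul]
  have nn := fun a : ℤ => nd_nonneg (D.ch i ^ a * D.ch j = 1)
  have fH := fun (κ : ℝ) => zh_r1H (V1 := V1) (V2 := V2) (V3 := V3) (V4 := V4) (κ := κ) (u := uH)
    (n := fun a => nd (D.ch i ^ a * D.ch j = 1)) (δ := fun a => D.dl Lo c c1 (D.ch i ^ a * D.ch j))
    p0 p1 p2 p3 hτ (c0.trans cc) o0 nn (fun _ => h.dl_le c0 cc _) (hd c (h.dl_le c0 cc _))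
  have mp := fun (a : ℤ) {x : ℝ} (hx : x ≤ 0) =>
    mul_nonpos_of_nonneg_of_nonpos (add_nonneg (nn a) (nn (-a))) hx
  by_cases m : D.ch i ∈ Lo
  · by_cases m' : D.ch j ∈ Lo
    · have hl : ∀ a : ℤ, D.dl Lo c c1 (D.ch i ^ a * D.ch j) ≤
          c1 * (1 - nd (D.ch i ^ a * D.ch j = 1)) := fun a =>
        h.dl_lo c0 (Lo.mul_mem (Lo.zpow_mem m a) m')
      have w0 := zh_win (D.ch j) k {1, -1} (by decide)
      have w1 := zh_win (D.ch j) k {1, 2, 3} (by decide)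
      have w2 := zh_win (D.ch j) k {-1, -2, -3} (by decide)
      have w3 := zh_win (D.ch j) k {2, 3, 4} (by decide)
      have w4 := zh_win (D.ch j) k {-2, -3, -4} (by decide)
      rw [sum_pair (by norm_num)] at w0
      rw [sum_insert (by decide), sum_pair (by norm_num), ← add_assoc] at w1 w2 w3 w4
      have := zh_r1L (n := fun a => nd (D.ch i ^ a * D.ch j = 1)) (q1.trans p0) p1 p2 p3 hτ c0 o0
        nn hl (hd c1 (hl _)) w0 w1 w2 w3 w4 hu hu1 v1 v2 v3 v4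
      linarith [r2 m, mul_le_mul_of_nonneg_right hex' hτ, mul_le_mul_of_nonneg_left hD hex]
    · rcases ho with e | e
      · have z : ∀ a : ℤ, nd (D.ch i ^ a * D.ch j = 1) = 0 := fun a => nd_neg fun e' => m' (by
          rw [eq_inv_of_mul_eq_one_right e']
          exact Lo.inv_mem (Lo.zpow_mem m a))
        have z' : ∀ (a : ℤ) (x : ℝ), (nd (D.ch i ^ a * D.ch j = 1) +
            nd (D.ch i ^ (-a) * D.ch j = 1)) * x ≤ 0 := fun a x => by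
          rw [z, z, add_zero, zero_mul]
        have := fH 0 (by simp only [z, add_zero, le_refl]) huH (z' 1 _) (z' 2 _) (z' 3 _) (z' 4 _)
        rw [e.1] at this
        linarith [r2 m, e.2.2.2.2, mul_le_mul_of_nonneg_right p4 hτ]
      · exact absurd (h.cls_mem m e.2) m'
  · have k8 : ∀ a : ℤ, a ≠ 0 → -8 ≤ a → a ≤ 8 → D.ch i ^ a ≠ 1 := fun a b1 b2 b3 e =>
      m (h.lo_of_zpow b1 (by omega) (by omega) (e ▸ h.cl.sm_one))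
    have w := zh_win (D.ch j) k8 {1, -1, 2, -2, 3, -3, 4, -4} (by decide)
    rw [sum_insert (by decide), sum_insert (by decide), sum_insert (by decide),
      sum_insert (by decide), sum_insert (by decide), sum_insert (by decide),
      sum_pair (by norm_num)] at w
    have g := fH 1 (by linarith) huH (mp 1 (by linarith))
    rcases ho with e | e
    · have := g (mp 2 (by linarith [e.2.1])) (mp 3 (by linarith [e.2.2.1]))
        (mp 4 (by linarith [e.2.2.2.1]))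
      linarith [r1 m]
    · have z : ∀ a : ℤ, a ≠ -1 → -4 ≤ a → a ≤ 4 → nd (D.ch i ^ a * D.ch j = 1) = 0 :=
        fun a b1 b2 b3 => nd_neg fun e' => m (h.lo_of_zpow (k := -1 - a) (by omega) (by omega)
          (by omega) (by
            have := hs e.1
            rwa [eq_inv_of_mul_eq_one_right e', ← zpow_sub] at this))
      have z' : ∀ (a : ℤ) (x : ℝ), 2 ≤ a → a ≤ 4 → (nd (D.ch i ^ a * D.ch j = 1) +
          nd (D.ch i ^ (-a) * D.ch j = 1)) * x ≤ 0 := fun a x b1 b2 => by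
        rw [z a (by omega) (by omega) b2, z (-a) (by omega) (by omega) (by omega), add_zero,
          zero_mul]
      have := g (z' 2 _ le_rfl (by norm_num)) (z' 3 _ (by norm_num) (by norm_num))
        (z' 4 _ (by norm_num) le_rfl)
      linarith [r1 m]

end Model

end Pool.Agent.Lib.MP_778b46_nt.GX
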