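import Pool.Agent.Lib.MP_778b46_nt.GX.ZhC
import Pool.Agent.Lib.MP_778b46_nt.GX.Trig
import Pool.Agent.Lib.MP_778b46_nt.GX.Ce4

/- Rational checks for the levels behind a first zero whose conjugate lies in another class. -/

namespace Pool.Agent.Lib.MP_778b46_nt.GX

open Finset

/-- Parameters of one step. -/
structure ZP where
  T : ℚ
  p : ℚ
  ρ : ℚ
  w : ℚ
  v1 : ℚ
  v2 : ℚ
  v3 : ℚ
  v4 : ℚ
  u : ℚ
  u1 : ℚ
  uH : ℚ
  ex : ℚ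

namespace ZP

variable (z : ZP)

/-- Coefficient of the constant. -/
def h0 : ℚ := z.p ^ 2 + (1 + 2 * z.p * z.ρ) / 2

/-- Coefficient of the first harmonic. -/
def h1 : ℚ := (2 * z.p + z.ρ * z.p ^ 2 + 3 * z.ρ / 4) / 2

/-- Coefficient of the second harmonic. -/
def h2 : ℚ := (1 + 2 * z.p * z.ρ) / 4

/-- Coefficient of the third harmonic. -/
def h3 : ℚ := z.ρ / 8

/-- Conditions common to all steps. -/
def base (f f1 sb a0 : ℚ) : Prop :=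
  1 / 2 ≤ z.T ∧ z.T ≤ 4 ∧ 0 ≤ z.ρ ∧ z.ρ ≤ 1 ∧ 0 ≤ f1 ∧ f1 ≤ f ∧ 0 < sb ∧ sb < a0 ∧ a0 ≤ 5 ∧
    z.h1 ≤ z.h0 ∧ z.h2 ≤ z.h1 ∧ z.h3 ≤ z.h2 ∧ 2 * z.h3 ≤ z.h0 ∧ 0 ≤ z.u ∧
    z.T * z.v3 - z.h3 * (f1 / 2) ≤ z.u ∧ z.T * z.v4 ≤ z.u

/-- The main term. -/
def B (sb a0 a1 : ℚ) : ℚ :=
  z.h0 * (rrU z.T (-a0) - rrL z.T (a1 - a0)) - 2 * z.h1 * rrL z.T (-(a0 - sb)) +
    2 * (z.h0 + 2 * z.h1 + 2 * z.h2 + 2 * z.h3) * (1 / 100000)

/-- Bound for the loss from the shift of the tilt. -/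
def Dm (sa sb a0 a1 : ℚ) : ℚ :=
  rrU z.T (-a0) - rrL z.T (a1 - a0) - (rrL z.T (-(a0 - sb + sa)) - rrU z.T (sb - sa))

/-- Conditions for a step from the level `a0` to `a1`. -/
def step (f f1 sa sb a0 a1 o : ℚ) : Prop :=
  z.base f f1 sb a0 ∧ 0 < sa ∧ sa < sb ∧ a0 < a1 ∧ a1 ≤ 5 ∧ 0 ≤ z.w ∧
    z.w * (1 + (a1 - a0) * z.T / 2) ≤ 1 ∧ 0 ≤ z.u1 ∧ 0 ≤ z.uH ∧ 0 ≤ z.ex ∧
    z.h1 + z.h2 + 2 * z.h3 - z.h0 ≤ z.ex ∧ z.T * z.v1 - (1 - o) * z.h1 * (f / 2) ≤ z.uH ∧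
    z.T * z.v1 - (1 - o) * z.h1 * (f1 / 2) ≤ z.u1 ∧ z.T * z.v2 - z.h2 * (f1 / 2) ≤ z.u ∧
    z.B sb a0 a1 + f / 2 * (2 * z.h1 + 2 * z.h2 + 2 * z.h3) +
      f / 2 * (z.h0 + 2 * z.h1 + 2 * z.h2 + 2 * z.h3 - o * z.h1) + z.uH < 0 ∧
    z.B sb a0 a1 + f1 / 2 * (2 * z.h1 + 2 * z.h2 + 2 * z.h3) +
      f1 / 2 * (z.h0 + 2 * z.h1 + 2 * z.h2 + 2 * z.h3 - o * z.h1) + z.u1 + 4 * z.u +
      z.ex * z.Dm sa sb a0 a1 < 0 ∧
    trigOk (a0 * z.T) ((a0 - sb) * z.T) [(z.h1, z.h0 + z.h2, z.h1 * z.w, z.v1),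
      (z.h2, z.h1 + z.h3, z.h2 * z.w, z.v2), (z.h3, z.h2, z.h3 * z.w, z.v3),
      (0, z.h3, 0, z.v4)] = true

/-- Additional conditions for a zero in an arbitrary class. -/
def all (f f1 sb a0 a1 : ℚ) : Prop :=
  z.T * z.v2 - z.h2 * (f / 2) ≤ z.uH ∧ z.T * z.v3 - z.h3 * (f / 2) ≤ z.uH ∧ z.T * z.v4 ≤ z.uH ∧
    z.B sb a0 a1 + f1 / 2 * (2 * z.h1 + 2 * z.h2 + 2 * z.h3) + 2 * z.u +
      f / 2 * (z.h0 + 2 * z.h1 + 2 * z.h2 + 2 * z.h3) < 0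

/-- The main term for the pair alone. -/
def B2 (sb a0 : ℚ) : ℚ :=
  z.h0 * rrU z.T (-a0) - 2 * z.h1 * rrL z.T (-(a0 - sb)) +
    (z.h0 + 2 * z.h1 + 2 * z.h2 + 2 * z.h3) * (1 / 100000)

/-- Conditions that exclude the pair. -/
def kill (f f1 sb a0 : ℚ) : Prop :=
  z.base f f1 sb a0 ∧ z.B2 sb a0 + f / 2 * (2 * z.h1 + 2 * z.h2 + 2 * z.h3) < 0 ∧
    z.B2 sb a0 + f1 / 2 * (2 * z.h1 + 2 * z.h2 + 2 * z.h3) + 2 * z.u < 0 ∧
    trigOk (a0 * z.T) ((a0 - sb) * z.T) [(z.h1, z.h0 + z.h2, 0, z.v1),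
      (z.h2, z.h1 + z.h3, 0, z.v2), (z.h3, z.h2, 0, z.v3), (0, z.h3, 0, z.v4)] = true

instance (f f1 sb a0 : ℚ) : Decidable (z.base f f1 sb a0) := by
  unfold base
  infer_instance

instance (f f1 sa sb a0 a1 o : ℚ) : Decidable (z.step f f1 sa sb a0 a1 o) := by
  unfold step
  infer_instance

instance (f f1 sb a0 a1 : ℚ) : Decidable (z.all f f1 sb a0 a1) := by
  unfold all
  infer_instance

instance (f f1 sb a0 : ℚ) : Decidable (z.kill f f1 sb a0) := by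
  unfold kill
  infer_instance

theorem pos {z : ZP} (h0 : 0 ≤ z.ρ) (h1 : z.ρ ≤ 1) : Pos3 z.h0 z.h1 z.h2 z.h3 := by
  have := pos3_of (p := z.p) (ρ := z.ρ) (by exact_mod_cast h0) (by exact_mod_cast h1)
  unfold ZP.h0 ZP.h1 ZP.h2 ZP.h3
  push_cast
  exact this

end ZP

theorem zh_le {a b : ℚ} (h : a ≤ b) : (a : ℝ) ≤ b := Rat.cast_le.2 h

theorem zh_lt {a b : ℚ} (h : a < b) : (a : ℝ) < b := Rat.cast_lt.2 h

theorem zh_rr {T x : ℚ} (h1 : 1 / 2 ≤ T) (h2 : T ≤ 4) (h0 : x ≠ 0) (h3 : -5 ≤ x) (h4 : x ≤ 5) :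
    (rrL T x : ℝ) ≤ RR T x 0 ∧ RR T x 0 ≤ rrU T x :=
  rr_bds (by linarith) (mul_ne_zero h0 (by linarith)) (abs_le.2 ⟨by nlinarith, by nlinarith⟩)

theorem zh_trg {X Y : ℚ} {q1 q2 q3 q4 : ℚ × ℚ × ℚ × ℚ} (h : trigOk X Y [q1, q2, q3, q4] = true) :
    Trg X Y q1.1 q1.2.1 q1.2.2.1 q1.2.2.2 ∧ Trg X Y q2.1 q2.2.1 q2.2.2.1 q2.2.2.2 ∧
      Trg X Y q3.1 q3.2.1 q3.2.2.1 q3.2.2.2 ∧ Trg X Y q4.1 q4.2.1 q4.2.2.1 q4.2.2.2 :=
  ⟨trig_sound h q1 (by simp), trig_sound h q2 (by simp), trig_sound h q3 (by simp),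
    trig_sound h q4 (by simp)⟩

section Model

variable {Γ Ω ι : Type} [CommGroup Γ] [Fintype Ω] [Fintype ι]
variable {D : Dat Γ Ω ι} {Lo : Subgroup Γ} {φ φ1 ε H : ℝ} {psF psC qsF qsC : List MP}

theorem Clean2.kd_step (h : Clean2 D Lo φ φ1 ε H psF psC qsF qsC) (hH : 10 ≤ H)
    (he : ε * BH H ≤ 1 / 100000) {z : ZP} {f f1 sa sb a0 a1 o : ℚ} (hf : φ ≤ f) (hf1 : φ1 ≤ f1)
    (hz : z.step f f1 sa sb a0 a1 o) {i j : ι} (hK : ¬ D.sm (D.ch i * D.ch i))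
    (hsa : sa ≤ D.lam i) (hsb : D.lam i ≤ sb) (hk : ∀ k, k ≠ i → k ≠ D.cj i → a0 ≤ D.lam k)
    (k2 : j ≠ i) (k3 : j ≠ D.cj i)
    (ho : (o = 0 ∧ z.all f f1 sb a0 a1) ∨ (o = 1 ∧ D.sm (D.ch i / D.ch j))) : a1 ≤ D.lam j := by
  obtain ⟨⟨b1, b2, b3, b4, b5, b6, b7, b8, b9, b10, b11, b12, b13, b14, b15, b16⟩, s1, s2, s3, s4,
    s5, s6, s7, s8, s9, s10, s11, s12, s13, s14, s15, s16⟩ := hz
  by_contra hj
  have r1 := (zh_rr (x := -a0) b1 b2 (by linarith) (by linarith) (by linarith)).2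
  have r2 := (zh_rr (x := a1 - a0) b1 b2 (by linarith) (by linarith) (by linarith)).1
  have r3 := (zh_rr (x := -(a0 - sb)) b1 b2 (by linarith) (by linarith) (by linarith)).1
  have r4 := (zh_rr (x := -(a0 - sb + sa)) b1 b2 (by linarith) (by linarith) (by linarith)).1
  have r5 := (zh_rr (x := sb - sa) b1 b2 (by linarith) (by linarith) (by linarith)).2
  obtain ⟨t1, t2, t3, t4⟩ := zh_trg s16
  have p3 : 0 ≤ z.h3 := div_nonneg b3 (by norm_num)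
  have hP := ZP.pos b3 b4
  replace b1 := zh_le b1; replace b2 := zh_le b2; replace b5 := zh_le b5; replace b6 := zh_le b6
  replace b8 := zh_lt b8; replace b9 := zh_le b9; replace b10 := zh_le b10
  replace b11 := zh_le b11; replace b12 := zh_le b12; replace b13 := zh_le b13
  replace b14 := zh_le b14; replace b15 := zh_le b15; replace b16 := zh_le b16
  replace s5 := zh_le s5; replace s6 := zh_le s6; replace s7 := zh_le s7; replace s8 := zh_le s8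
  replace s9 := zh_le s9; replace s10 := zh_le s10; replace s11 := zh_le s11
  replace s12 := zh_le s12; replace s13 := zh_le s13; replace s14 := zh_lt s14
  replace s15 := zh_lt s15; replace p3 := zh_le p3
  push_cast at b1 b2 b5 b9 b13 b14 b15 b16 s5 s6 s7 s8 s9 s10 s11 s12 s13 s14 s15
  push_cast at p3 r1 r2 r3 r4 r5 t1 t2 t3 t4
  have p2 := p3.trans b12
  have p1 := p2.trans b11
  have p0 := p1.trans b10
  obtain ⟨τ, a, b, c⟩ := h.zh_core (c := f / 2) (c1 := f1 / 2) (by linarith) (by linarith)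
    (h.kd_ne hK) k2 k3 b1 (by linarith) hsa hsb b8.le (by linarith) hk (not_le.1 hj).le p0 p1 p2 p3
    hP s5 s6 t1 t2 t3 t4
  have key := h.kd_fin (j := j) hK (c := f / 2) (c1 := f1 / 2) (o := o) (B := z.B sb a0 a1)
    (Dm := z.Dm sa sb a0 a1) (by linarith) (by linarith) b10 b11 b12 p3 b13 a
    (by unfold ZP.Dm; push_cast; linarith) b14 s7 s8 s9 s10 ?_ s11 s12 s13 b15 b16 s14 s15
  · have e : (z.B sb a0 a1 : ℝ) = z.h0 * (rrU z.T (-a0) - rrL z.T (a1 - a0)) -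
        2 * z.h1 * rrL z.T (-(a0 - sb)) +
        2 * (z.h0 + 2 * z.h1 + 2 * z.h2 + 2 * z.h3) * (1 / 100000) := by
      unfold ZP.B
      push_cast
      rfl
    have q : (0 : ℝ) ≤ z.h0 + 2 * z.h1 + 2 * z.h2 + 2 * z.h3 := by positivity
    linarith only [key, c, e, mul_le_mul_of_nonneg_left (sub_le_sub r1 r2) p0,
      mul_le_mul_of_nonneg_left r3 p1, mul_le_mul_of_nonneg_left he q]
  · rcases ho with ⟨e, l1, l2, l3, l4⟩ | e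
    · replace l1 := zh_le l1; replace l2 := zh_le l2; replace l3 := zh_le l3
      replace l4 := zh_lt l4
      push_cast at l1 l2 l3 l4
      exact Or.inl ⟨by exact_mod_cast e, l1, l2, l3, l4⟩
    · exact Or.inr ⟨by exact_mod_cast e.1, e.2⟩

theorem Clean2.kd_kill (h : Clean2 D Lo φ φ1 ε H psF psC qsF qsC) (hH : 10 ≤ H)
    (he : ε * BH H ≤ 1 / 100000) {z : ZP} {f f1 sb a0 : ℚ} (hf : φ ≤ f) (hf1 : φ1 ≤ f1)
    (hz : z.kill f f1 sb a0) {i : ι} (hK : ¬ D.sm (D.ch i * D.ch i))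
    (hsb : D.lam i ≤ sb) (hk : ∀ k, k ≠ i → k ≠ D.cj i → a0 ≤ D.lam k) : False := by
  obtain ⟨⟨b1, b2, b3, b4, b5, b6, b7, b8, b9, b10, b11, b12, b13, b14, b15, b16⟩, s1, s2, s3⟩ := hz
  have r1 := (zh_rr (x := -a0) b1 b2 (by linarith) (by linarith) (by linarith)).2
  have r3 := (zh_rr (x := -(a0 - sb)) b1 b2 (by linarith) (by linarith) (by linarith)).1
  obtain ⟨t1, t2, t3, t4⟩ := zh_trg s3
  have p3 : 0 ≤ z.h3 := div_nonneg b3 (by norm_num)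
  have hP := ZP.pos b3 b4
  replace b1 := zh_le b1; replace b2 := zh_le b2; replace b5 := zh_le b5; replace b6 := zh_le b6
  replace b8 := zh_lt b8; replace b9 := zh_le b9; replace b10 := zh_le b10
  replace b11 := zh_le b11; replace b12 := zh_le b12; replace b13 := zh_le b13
  replace b14 := zh_le b14; replace b15 := zh_le b15; replace b16 := zh_le b16
  replace s1 := zh_lt s1; replace s2 := zh_lt s2; replace p3 := zh_le p3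
  unfold ZP.B2 at s1 s2
  push_cast at b1 b2 b5 b9 b13 b14 b15 b16 s1 s2 p3 r1 r3 t1 t2 t3 t4
  have p2 := p3.trans b12
  have p1 := p2.trans b11
  have p0 := p1.trans b10
  obtain ⟨τ, a, c⟩ := h.zh_two (c := f / 2) (c1 := f1 / 2) (by linarith) (by linarith)
    (h.kd_ne hK) b1 (by linarith) hsb b8.le (by linarith) hk p0 p1 p2 p3 hP t1 t2 t3 t4
  obtain ⟨k1, k2⟩ := h.kd_r0 (c := f / 2) (c1 := f1 / 2) (V1 := z.T * z.v1) (V2 := z.T * z.v2) hK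
    (by linarith) (by linarith) p1 p2 p3 a b14 b15 b16
  have q : (0 : ℝ) ≤ z.h0 + 2 * z.h1 + 2 * z.h2 + 2 * z.h3 := by positivity
  have u1 := mul_le_mul_of_nonneg_left r1 p0
  have u2 := mul_le_mul_of_nonneg_left r3 p1
  have u3 := mul_le_mul_of_nonneg_left he q
  by_cases m : D.ch i ∈ Lo
  · linarith only [k2 m, c, s2, u1, u2, u3, mul_le_mul_of_nonneg_right b13 a]
  · linarith only [k1 m, c, s1, u1, u2, u3, mul_nonneg p0 a]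

end Model

/-- All zeros but the first pair lie beyond `l`. -/
def LvA (a b l : ℝ) : MProp2 :=
  Fst KD a b fun _ _ _ _ _ _ D _ i => ∀ k, k ≠ i → k ≠ D.cj i → l ≤ D.lam k

variable {φ φ1 L : ℝ} {psF psC qsF qsC : List MP}

theorem lvA_base {a sb l : ℝ} (h : Ev φ psF psC (Dh1N sb l)) :
    Ev2 φ φ1 psF psC qsF qsC (LvA a sb l) :=
  (h.up φ1 qsF qsC).mono fun _ _ _ _ _ _ _ _ _ _ hD h i hi hk _ hb =>
    h i hi (fun e => hk (e.1 ▸ hD.cl.sm_one)) hb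

theorem zh_small {p q : MProp2} (hp : Ev2 φ φ1 psF psC qsF qsC p)
    (h : ∀ (Γ Ω ι : Type) [CommGroup Γ] [Fintype Ω] [Fintype ι] (D : Dat Γ Ω ι) (Lo : Subgroup Γ)
      (ε H : ℝ), 10 ≤ H → ε * BH H ≤ 1 / 100000 → Clean2 D Lo φ φ1 ε H psF psC qsF qsC →
        p Γ Ω ι D Lo → q Γ Ω ι D Lo) : Ev2 φ φ1 psF psC qsF qsC q :=
  (hp.and (Ev2.of_small (q := fun Γ Ω ι _ _ _ D Lo => p Γ Ω ι D Lo → q Γ Ω ι D Lo)
    (c := 1 / 100000) (by norm_num) fun Γ Ω ι _ _ _ D Lo ε H a _ b c =>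
      h Γ Ω ι D Lo ε H a b c)).mono fun _ _ _ _ _ _ _ _ _ _ _ h => h.2 h.1

/-- A chain of steps from the level `a0` to the level `l`. -/
def zhChain (f f1 sa sb l : ℚ) : ℚ → List (ℚ × ZP) → Bool
  | a0, [] => decide (l ≤ a0)
  | a0, (a1, z) :: r => decide (z.step f f1 sa sb a0 a1 0) && decide (z.all f f1 sb a0 a1) &&
      zhChain f f1 sa sb l a1 r

theorem lvA_chain {f f1 sa sb l : ℚ} (hf : φ ≤ f) (hf1 : φ1 ≤ f1) (r : List (ℚ × ZP)) {a0 : ℚ}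
    (h : zhChain f f1 sa sb l a0 r = true) (h0 : Ev2 φ φ1 psF psC qsF qsC (LvA sa sb a0)) :
    Ev2 φ φ1 psF psC qsF qsC (LvA sa sb l) := by
  induction r generalizing a0 with
  | nil =>
    have := zh_le (of_decide_eq_true h)
    exact h0.mono fun _ _ _ _ _ _ _ _ _ _ _ h i hi hk ha hb k b1 b2 =>
      this.trans (h i hi hk ha hb k b1 b2)
  | cons x r ih =>
    simp only [zhChain, Bool.and_eq_true, decide_eq_true_eq] at h
    exact ih h.2 (zh_small h0 fun _ _ _ _ _ _ _ _ _ _ hH he hD h' i hi hk ha hb k b1 b2 =>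
      hD.kd_step hH he hf hf1 h.1.1 hk ha hb (h' i hi hk ha hb) b1 b2 (Or.inl ⟨rfl, h.1.2⟩))

theorem min2_kill {f f1 sb a0 : ℚ} {sa : ℝ} (hf : φ ≤ f) (hf1 : φ1 ≤ f1) {z : ZP}
    (h : z.kill f f1 sb a0) (h0 : Ev2 φ φ1 psF psC qsF qsC (LvA sa sb a0)) :
    Ev2 φ φ1 psF psC qsF qsC (Min2 KD L sa sb) :=
  zh_small h0 fun _ _ _ _ _ _ _ _ _ _ hH he hD h' i hi hk ha hb =>
    (hD.kd_kill hH he hf hf1 h hk hb (h' i hi hk ha hb)).elim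

theorem lev_own {f f1 sa sb l lc : ℚ} (hf : φ ≤ f) (hf1 : φ1 ≤ f1) {z : ZP}
    (h : z.step f f1 sa sb l lc 1) (h0 : Ev2 φ φ1 psF psC qsF qsC (LvA sa sb l)) :
    Ev2 φ φ1 psF psC qsF qsC (Lev KD sa sb l lc lc) :=
  zh_small h0 fun _ _ _ _ _ _ D _ _ _ hH he hD h' i hi hk ha hb => by
    have e : D.sm (D.ch i / D.ch i) := by rw [div_self']; exact hD.cl.sm_one
    have o := fun k b1 b2 hs => hD.kd_step (j := k) hH he hf hf1 h hk ha hb (h' i hi hk ha hb) b1 b2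
      (Or.inr ⟨rfl, hs⟩)
    refine ⟨fun k b1 b2 => o k b2 (fun e' => hk ?_) (b1.symm ▸ e), o, fun k b1 b2 =>
      h' i hi hk ha hb k (fun e' => b1 (e' ▸ e)) fun e' => b2 ?_⟩
    · rw [e', hD.cl.cj_ch] at b1
      rw [mul_eq_one_iff_eq_inv.2 b1.symm]
      exact hD.cl.sm_one
    · rw [e', hD.cl.cj_ch, mul_inv_cancel]
      exact hD.cl.sm_one

end Pool.Agent.Lib.MP_778b46_nt.GX
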