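import Pool.Agent.Lib.MP_778b46_nt.GX.ZhD

/- No first zero below `0.47` whose conjugate lies in another class. -/

namespace Pool.Agent.Lib.MP_778b46_nt.GX

variable {φ φ1 L : ℝ} {psF psC qsF qsC : List MP}

theorem zh_f (h : φ ≤ 0.3334) : φ ≤ ((0.3334 : ℚ) : ℝ) := h.trans_eq (by norm_num)

theorem zh_f1 (h : φ1 ≤ 0.2501) : φ1 ≤ ((0.2501 : ℚ) : ℝ) := h.trans_eq (by norm_num)

theorem lvA_294_400 (h1 : φ ≤ 0.3334) (h2 : φ1 ≤ 0.2501) :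
    Ev2 φ φ1 psF psC qsF qsC (LvA (0.294 : ℚ) (0.4 : ℚ) (1.748 : ℚ)) :=
  lvA_chain (zh_f h1) (zh_f1 h2) (a0 := 1.13)
    [(1.748, ⟨2.35, 0.52, 1, 0.579, 0.0165, 0.0179, 0.02, 0.0105, 0.03137, 0, 0.02617, 0.4998⟩)]
    (by decide +kernel) (lvA_base (dhb_ev (by linarith) (T := 2.7) (p := 0.82) (w := 0.231)
      (by decide +kernel)))

theorem min2_KD_294_400 (h1 : φ ≤ 0.3334) (h2 : φ1 ≤ 0.2501) :
    Ev2 φ φ1 psF psC qsF qsC (Min2 KD L 0.294 0.4) := by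
  have := min2_kill (L := L) (zh_f h1) (zh_f1 h2)
    (z := ⟨1.85, 0.44, 1, 0, 0.0367, 0.044, 0.0424, 0.0209, 0.06281, 0, 0, 0⟩)
    (by decide +kernel) (lvA_294_400 (psF := psF) (psC := psC) (qsF := qsF) (qsC := qsC) h1 h2)
  norm_num at this ⊢
  exact this

theorem lvA_400_450 (h1 : φ ≤ 0.3334) (h2 : φ1 ≤ 0.2501) :
    Ev2 φ φ1 psF psC qsF qsC (LvA (0.4 : ℚ) (0.45 : ℚ) (2.218 : ℚ)) :=
  lvA_chain (zh_f h1) (zh_f1 h2) (a0 := 1.03)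
    [(1.444, ⟨2.35, 0.66, 1, 0.672, 0.0106, 0.0129, 0.0156, 0.0073, 0.02103, 0, 0.01716, 0.4872⟩),
     (1.761, ⟨2.1, 0.5, 1, 0.75, 0.0266, 0.0264, 0.0281, 0.0148, 0.04338, 0, 0.03818, 0.5⟩),
     (2.018, ⟨1.95, 0.48, 1, 0.799, 0.0409, 0.0417, 0.043, 0.022, 0.06822, 0, 0.06302, 0.4998⟩),
     (2.218, ⟨1.8, 0.42, 1, 0.847, 0.0469, 0.0489, 0.0493, 0.0272, 0.07311, 0, 0.06791, 0.4968⟩)]
    (by decide +kernel) (lvA_base (dhb_ev (by linarith) (T := 2.6) (p := 0.83) (w := 0.236)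
      (by decide +kernel)))

theorem min2_KD_400_450 (h1 : φ ≤ 0.3334) (h2 : φ1 ≤ 0.2501) :
    Ev2 φ φ1 psF psC qsF qsC (Min2 KD L 0.4 0.45) := by
  have := min2_kill (L := L) (zh_f h1) (zh_f1 h2)
    (z := ⟨1.55, 0.38, 1, 0, 0.0444, 0.051, 0.0474, 0.0255, 0.05784, 0, 0, 0⟩)
    (by decide +kernel) (lvA_400_450 (psF := psF) (psC := psC) (qsF := qsF) (qsC := qsC) h1 h2)
  norm_num at this ⊢
  exact this

theorem lvA_450_470 (h1 : φ ≤ 0.3334) (h2 : φ1 ≤ 0.2501) :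
    Ev2 φ φ1 psF psC qsF qsC (LvA (0.45 : ℚ) (0.47 : ℚ) (2.343 : ℚ)) :=
  lvA_chain (zh_f h1) (zh_f1 h2) (a0 := 0.99)
    [(1.34, ⟨2.35, 0.68, 1, 0.708, 0.0073, 0.0099, 0.0129, 0.0062, 0.01469, 0, 0.01457, 0.4838⟩),
     (1.597, ⟨2.15, 0.54, 1, 0.783, 0.0222, 0.0217, 0.0235, 0.0122, 0.0349, 0, 0.02969, 0.4992⟩),
     (1.789, ⟨2, 0.52, 1, 0.838, 0.0329, 0.0326, 0.0341, 0.0171, 0.05257, 0, 0.04737, 0.4998⟩),
     (1.939, ⟨1.95, 0.48, 1, 0.872, 0.0423, 0.041, 0.0425, 0.0223, 0.06725, 0, 0.06204, 0.4998⟩),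
     (2.059, ⟨1.85, 0.48, 1, 0.9, 0.0471, 0.048, 0.0493, 0.025, 0.07558, 0, 0.07037, 0.4998⟩),
     (2.158, ⟨1.85, 0.44, 1, 0.916, 0.054, 0.0532, 0.0547, 0.0298, 0.08557, 0, 0.08036, 0.4982⟩),
     (2.237, ⟨1.75, 0.48, 1, 0.935, 0.0567, 0.0608, 0.0612, 0.0301, 0.09147, 0, 0.08627, 0.4998⟩),
     (2.296, ⟨1.7, 0.48, 1, 0.952, 0.0588, 0.0647, 0.0643, 0.0313, 0.09368, 0, 0.08848, 0.4998⟩),
     (2.343, ⟨1.7, 0.4, 1, 0.961, 0.0573, 0.0592, 0.0594, 0.0337, 0.08535, 0, 0.08015, 0.495⟩)]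
    (by decide +kernel) (lvA_base (dhb_ev (by linarith) (T := 2.5) (p := 0.83) (w := 0.25)
      (by decide +kernel)))

theorem min2_KD_450_470 (h1 : φ ≤ 0.3334) (h2 : φ1 ≤ 0.2501) :
    Ev2 φ φ1 psF psC qsF qsC (Min2 KD L 0.45 0.47) := by
  have := min2_kill (L := L) (zh_f h1) (zh_f1 h2)
    (z := ⟨1.5, 0.36, 1, 0, 0.0457, 0.0514, 0.0479, 0.0269, 0.05622, 0, 0, 0⟩)
    (by decide +kernel) (lvA_450_470 (psF := psF) (psC := psC) (qsF := qsF) (qsC := qsC) h1 h2)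
  norm_num at this ⊢
  exact this

theorem min2_KD_low (h0 : 0 ≤ φ) (h1 : φ ≤ 0.3334) (h2 : φ1 ≤ 0.2501) :
    Ev2 φ φ1 psF psC qsF qsC (Min2 KD L 0 0.47) :=
  Min2.union (Min2.union (Min2.union (min2_zfD (zf_ev h0 (by linarith))) (min2_KD_294_400 h1 h2)
    (by norm_num)) (min2_KD_400_450 h1 h2) le_rfl) (min2_KD_450_470 h1 h2) le_rfl

end Pool.Agent.Lib.MP_778b46_nt.GX
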