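import Pool.Agent.Lib.MP_778b46_nt.GX.ZhF
import Pool.Agent.Lib.MP_778b46_nt.GX.ZhG
import Pool.Agent.Lib.MP_778b46_nt.GX.CkA

/- The table of levels for a first zero whose conjugate lies in another class. -/

namespace Pool.Agent.Lib.MP_778b46_nt.GX

open Ck

variable {φ φ1 L : ℝ} {psF psC qsF qsC : List MP}

theorem Lev.ext {K : Kind} {a b c l lc l' lc' : ℝ}
    (h1 : Ev2 φ φ1 psF psC qsF qsC (Lev K a b l lc lc))
    (h2 : Ev2 φ φ1 psF psC qsF qsC (Lev K b c l' lc' lc')) (k1 : l' ≤ l) (k2 : lc' ≤ lc) :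
    Ev2 φ φ1 psF psC qsF qsC (Lev K a c l' lc' lc') :=
  (h1.and h2).mono fun _ _ _ _ _ _ D _ _ _ _ h i hi hk ha hc =>
    (le_total (D.lam i) b).elim (fun hb =>
      have e := h.1 i hi hk ha hb
      ⟨fun k x y => k2.trans (e.1 k x y), fun k x y z => k2.trans (e.2.1 k x y z),
        fun k x y => k1.trans (e.2.2 k x y)⟩) fun hb => h.2 i hi hk hb hc

/-- Right end point, level of the other classes, level of the own class. -/
def kdTab : List (ℕ × ℕ × ℕ) :=
  [(480000, 2234000, 2565000), (500000, 1817000, 2209000), (525000, 1497000, 1847000),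
    (550000, 1285000, 1616000), (575000, 1111000, 1450000), (600000, 988000, 1318000),
    (625000, 900000, 1215000), (650000, 831000, 1126000)]

theorem kdTab_lev : ∀ x ∈ kdTab, Ev2 (r6 333400) (r6 250100) psF psC qsF qsC
    (Lev KD (r6 470000) (r6 x.1) (r6 x.2.1) (r6 x.2.2) (r6 x.2.2)) := by
  have h1 : r6 333400 ≤ 0.3334 := by norm_num [r6]
  have h2 : r6 250100 ≤ 0.2501 := by norm_num [r6]
  have a1 := levKD_470_480 (psF := psF) (psC := psC) (qsF := qsF) (qsC := qsC) h1 h2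
  have a2 := Lev.ext a1 (levKD_480_500 h1 h2) (by norm_num) (by norm_num)
  have a3 := Lev.ext a2 (levKD_500_525 h1 h2) (by norm_num) (by norm_num)
  have a4 := Lev.ext a3 (levKD_525_550 h1 h2) (by norm_num) (by norm_num)
  have a5 := Lev.ext a4 (levKD_550_575 h1 h2) (by norm_num) (by norm_num)
  have a6 := Lev.ext a5 (levKD_575_600 h1 h2) (by norm_num) (by norm_num)
  have a7 := Lev.ext a6 (levKD_600_625 h1 h2) (by norm_num) (by norm_num)
  have a8 := Lev.ext a7 (levKD_625_650 h1 h2) (by norm_num) (by norm_num)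
  simp only [kdTab, List.forall_mem_cons]
  refine ⟨?_, ?_, ?_, ?_, ?_, ?_, ?_, ?_, by simp⟩
  · convert a1 using 2 <;> norm_num [r6]
  · convert a2 using 2 <;> norm_num [r6]
  · convert a3 using 2 <;> norm_num [r6]
  · convert a4 using 2 <;> norm_num [r6]
  · convert a5 using 2 <;> norm_num [r6]
  · convert a6 using 2 <;> norm_num [r6]
  · convert a7 using 2 <;> norm_num [r6]
  · convert a8 using 2 <;> norm_num [r6]

/-- The levels for a row, read off from the table. -/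
theorem kd_lev {sa sb l lc lp : ℕ} (h : 470000 ≤ sa ∧ ∃ x ∈ kdTab, sb ≤ x.1 ∧ l ≤ x.2.1 ∧
    lc ≤ x.2.2 ∧ lp ≤ x.2.2) : Ev2 (r6 333400) (r6 250100) psF psC qsF qsC
      (Lev KD (r6 sa) (r6 sb) (r6 l) (r6 lc) (r6 lp)) := by
  obtain ⟨h0, x, hx, h1, h2, h3, h4⟩ := h
  exact Ev2.mono (kdTab_lev x hx) fun _ _ _ _ _ _ _ _ _ _ _ h i hi hk ha hb =>
    have e := h i hi hk ((r6_le.2 h0).trans ha) (hb.trans (r6_le.2 h1))
    ⟨fun k a b => (r6_le.2 h4).trans (e.1 k a b), fun k a b c => (r6_le.2 h3).trans (e.2.1 k a b c),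
      fun k a b => (r6_le.2 h2).trans (e.2.2 k a b)⟩

theorem kd_low : Ev2 (r6 333400) (r6 250100) psF psC qsF qsC (Min2 KD L 0 (r6 470000)) := by
  convert min2_KD_low (L := L) (r6_nonneg 333400) (by norm_num [r6])
    (show r6 250100 ≤ 0.2501 by norm_num [r6]) using 2
  norm_num [r6]

end Pool.Agent.Lib.MP_778b46_nt.GX
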