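import Pool.Agent.Lib.MP_778b46_nt.GX.ZhE

/- Levels behind a pair of conjugate first zeros, with the tilt at the first zero. -/

namespace Pool.Agent.Lib.MP_778b46_nt.GX

open Complex Finset
open Pool.Agent.Lib.MP_e97e2b_nt.Ln (Lap Tst cut)

namespace ZP

variable (z : ZP)

/-- The main term. -/
def BR (a0 a1 : ℚ) : ℚ :=
  z.h0 * (rrU z.T (-a0) - rrL z.T (a1 - a0)) - 2 * z.h1 * (5 / 12 * z.T) +
    2 * (z.h0 + 2 * z.h1 + 2 * z.h2 + 2 * z.h3) * (1 / 100000)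

/-- Bound for the loss from the shift of the tilt. -/
def DR (sa a0 a1 : ℚ) : ℚ :=
  rrU z.T (-a0) - rrL z.T (a1 - a0) - (rrL z.T (-sa) - 5 / 12 * z.T)

/-- Conditions for the first step, for a first zero in `[sa, a0]`. -/
def rel (f f1 sa a0 a1 o : ℚ) : Prop :=
  z.base f f1 sa a0 ∧ a0 < a1 ∧ a1 ≤ 5 ∧ 0 ≤ z.w ∧
    z.w * (1 + (a1 - a0) * z.T / 2) ≤ 1 ∧ 0 ≤ z.u1 ∧ 0 ≤ z.uH ∧ 0 ≤ z.ex ∧
    z.h1 + z.h2 + 2 * z.h3 - z.h0 ≤ z.ex ∧ z.T * z.v1 - (1 - o) * z.h1 * (f / 2) ≤ z.uH ∧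
    z.T * z.v1 - (1 - o) * z.h1 * (f1 / 2) ≤ z.u1 ∧ z.T * z.v2 - z.h2 * (f1 / 2) ≤ z.u ∧
    z.BR a0 a1 + f / 2 * (2 * z.h1 + 2 * z.h2 + 2 * z.h3) +
      f / 2 * (z.h0 + 2 * z.h1 + 2 * z.h2 + 2 * z.h3 - o * z.h1) + z.uH < 0 ∧
    z.BR a0 a1 + f1 / 2 * (2 * z.h1 + 2 * z.h2 + 2 * z.h3) +
      f1 / 2 * (z.h0 + 2 * z.h1 + 2 * z.h2 + 2 * z.h3 - o * z.h1) + z.u1 + 4 * z.u +
      z.ex * z.DR sa a0 a1 < 0 ∧
    trigOk (a0 * z.T) (0 * z.T) [(z.h1, z.h0 + z.h2, z.h1 * z.w, z.v1),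
      (z.h2, z.h1 + z.h3, z.h2 * z.w, z.v2), (z.h3, z.h2, z.h3 * z.w, z.v3),
      (0, z.h3, 0, z.v4)] = true

/-- Additional conditions for a zero in an arbitrary class. -/
def allR (f f1 a0 a1 : ℚ) : Prop :=
  z.T * z.v2 - z.h2 * (f / 2) ≤ z.uH ∧ z.T * z.v3 - z.h3 * (f / 2) ≤ z.uH ∧ z.T * z.v4 ≤ z.uH ∧
    z.BR a0 a1 + f1 / 2 * (2 * z.h1 + 2 * z.h2 + 2 * z.h3) + 2 * z.u +
      f / 2 * (z.h0 + 2 * z.h1 + 2 * z.h2 + 2 * z.h3) < 0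

instance (f f1 sa a0 a1 o : ℚ) : Decidable (z.rel f f1 sa a0 a1 o) := by
  unfold rel
  infer_instance

instance (f f1 a0 a1 : ℚ) : Decidable (z.allR f f1 a0 a1) := by
  unfold allR
  infer_instance

end ZP

section Model

variable {Γ Ω ι : Type} [CommGroup Γ] [Fintype Ω] [Fintype ι]
variable {D : Dat Γ Ω ι} {Lo : Subgroup Γ} {φ φ1 ε H : ℝ} {psF psC qsF qsC : List MP}

/-- The inequality with three zeros and the tilt at the first zero. -/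
theorem Clean2.zh_rel (h : Clean2 D Lo φ φ1 ε H psF psC qsF qsC) {c c1 : ℝ} (hc : φ / 2 ≤ c)
    (hc1 : φ1 / 2 ≤ c1) {i j : ι} (k1 : i ≠ D.cj i) (k2 : j ≠ i) (k3 : j ≠ D.cj i)
    {T sa a0 a1 h0 h1 h2 h3 w v1 v2 v3 v4 : ℝ} (hT : 1 / 2 ≤ T) (hT8 : T ≤ 8)
    (hs0 : 0 ≤ sa) (hsa : sa ≤ D.lam i) (hsb : D.lam i ≤ a0) (h01 : a0 ≤ a1) (haH : a0 ≤ H)
    (hk : ∀ k, D.lam i ≤ D.lam k) (hj : D.lam j ≤ a1)
    (p0 : 0 ≤ h0) (p1 : 0 ≤ h1) (p2 : 0 ≤ h2) (p3 : 0 ≤ h3) (hP : Pos3 h0 h1 h2 h3)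
    (hw0 : 0 ≤ w) (hw : w * (1 + (a1 - a0) * T / 2) ≤ 1)
    (t1 : Trg (a0 * T) (0 * T) h1 (h0 + h2) (h1 * w) v1)
    (t2 : Trg (a0 * T) (0 * T) h2 (h1 + h3) (h2 * w) v2)
    (t3 : Trg (a0 * T) (0 * T) h3 h2 (h3 * w) v3)
    (t4 : Trg (a0 * T) (0 * T) 0 h3 0 v4) :
    ∃ τ : ℝ, 0 ≤ τ ∧ τ ≤ RR T (-a0) 0 - RR T (a1 - a0) 0 -
        (RR T (-sa) 0 - 5 / 12 * T) ∧
      0 ≤ h0 * (RR T (-a0) 0 - RR T (a1 - a0) 0) - 2 * h1 * (5 / 12 * T) - h0 * τ +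
        2 * (h0 + 2 * h1 + 2 * h2 + 2 * h3) * (ε * BH H) +
        (cb 0 h1 h2 h3 fun a => D.dl Lo c c1 (D.ch i ^ a * 1)) +
        (cb h0 h1 h2 h3 fun a => D.dl Lo c c1 (D.ch i ^ a * D.ch j)) +
        (xs h1 h2 h3 (T * v1) (T * v2) (T * v3) (T * v4) τ fun a => nd (D.ch i ^ a * 1 = 1)) +
        xs h1 h2 h3 (T * v1) (T * v2) (T * v3) (T * v4) τ fun a =>
          nd (D.ch i ^ a * D.ch j = 1) := by
  classical
  have hT0 : 0 < T := by linarith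
  have hs := h.cl.lam_nonneg i
  have hj0 := hk j
  obtain ⟨a', ha'⟩ : ∃ a', a' = D.lam i := ⟨_, rfl⟩
  have q1 : 0 ≤ a' := by linarith
  have q2 : a' ≤ a0 := by linarith
  have q3 : D.lam i - a' = -0 := by linarith
  have hY : |(0 : ℝ)| ≤ D.Ym := by rw [abs_zero]; exact (abs_nonneg _).trans (h.cl.mu_le i)
  have F := fun ξ y hy => h.ef_pt hc hc1 k1 hT hT8 q1 (q2.trans haH)
    (fun k _ _ => ha' ▸ hk k) {j} (by simp [k2, k3]) ξ (y := y) hy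
  simp only [sum_singleton, q3] at F
  have r0 := zh_row (N := fun a => RR T (-0) (a * D.mu i + 0)) p0 p1 p2 p3 (F 1 0 hY)
  have r1 := zh_row (N := fun a => RR T (-0) (a * D.mu i + D.mu j)) p0 p1 p2 p3
    (F (D.ch j) (D.mu j) (h.cl.mu_le j))
  rw [cb_add] at r0 r1
  have pos : 0 ≤ cb h0 h1 h2 h3 (fun a => D.E (cut (gT T a') T) (a * D.mu i + 0) (D.ch i ^ a * 1)) +
      cb h0 h1 h2 h3 fun a => D.E (cut (gT T a') T) (a * D.mu i + D.mu j) (D.ch i ^ a * D.ch j) := by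
    rw [E_cb D h.cl.norm_ev, E_cb D h.cl.norm_ev, ← sum_add_distrib]
    refine sum_nonneg fun ω _ => ?_
    rw [← mul_add, vv_one, one_re]
    exact mul_nonneg (mul_nonneg (h.cl.w_nonneg hT0 a' ω) (hP _ (vv_re_ge D h.cl.norm_ev _ _ ω)))
      (neg_le_iff_add_nonneg'.1 (vv_re_ge D h.cl.norm_ev _ _ ω))
  refine ⟨RR T (-a0) 0 - RR T (a1 - a0) 0 - (RR T (-a') 0 - RR T (D.lam j - a') 0),
    sub_nonneg.2 (RR_diff hT0 q2 (by linarith) hj), sub_le_sub_left ?_ _, ?_⟩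
  · have := RR_diff (s := sa) (s' := a') (l := sa) hT0 (by linarith) hs0 (hsa.trans hj0)
    rwa [sub_self, RR_zero] at this
  generalize hτ : RR T (-a0) 0 - RR T (a1 - a0) 0 - (RR T (-a') 0 - RR T (D.lam j - a') 0) = τ
  have G : ∀ y, RR T (-a') y - RR T (D.lam j - a') y ≤ RR T (-a0) y - w * RR T 0 y + τ := by
    intro y
    have u1 := RR_four hT0 y fun t ht => zh_exp q2 (by linarith) hj ht
    have u2 := mul_le_mul_of_nonneg_left (RR_lower hT0.le (x := a1 - a0) (by linarith) y) hw0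
    have u3 := mul_le_mul_of_nonneg_right hw (RR_nonneg hT0.le (x := a1 - a0) (by linarith) y)
    linarith
  have x0 := zh_xs' hT0.le p1 p2 p3 t1 t2 t3 t4 G (fun a => D.ch i ^ a * 1 = 1)
    fun a => a * D.mu i + 0
  have x1 := zh_xs' hT0.le p1 p2 p3 t1 t2 t3 t4 G (fun a => D.ch i ^ a * D.ch j = 1)
    fun a => a * D.mu i + D.mu j
  have m0 : ∀ a : ℤ, nd (D.ch j = D.ch i ^ a * 1) * RR T (D.lam j - a') (D.mu j - (a * D.mu i + 0)) =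
      nd (D.ch i ^ (-a) * D.ch j = 1) * RR T (D.lam j - a') ((-a : ℤ) * D.mu i + D.mu j) := by
    intro a
    rw [zpow_neg, inv_mul_eq_one, mul_one, eq_comm (a := D.ch j)]
    congr 2
    push_cast
    ring
  have m1 : ∀ a : ℤ, nd (D.ch j = D.ch i ^ a * D.ch j) *
      RR T (D.lam j - a') (D.mu j - (a * D.mu i + D.mu j)) =
      nd (D.ch i ^ a * 1 = 1) * RR T (D.lam j - a') (a * D.mu i + 0) := by
    intro a
    rw [right_eq_mul, mul_one, zh_sy T _ (y := a * D.mu i + 0) (by ring)]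
  simp only [m0] at r0
  simp only [m1] at r1
  have n0 : nd (D.ch i ^ (0 : ℤ) * 1 = 1) = 1 := nd_pos (by simp)
  have n1 : nd (D.ch i ^ (0 : ℤ) * D.ch j = 1) = 0 := nd_neg (by simpa using h.cl.ch_ne_one j)
  have d0 : D.dl Lo c c1 (D.ch i ^ (0 : ℤ) * 1) = 0 := by simp [Dat.dl, h.cl.sm_one]
  simp only [cb, neg_neg, neg_zero, n0, n1, d0, Int.cast_zero, zero_mul, add_zero, one_mul]
    at r0 r1 x0 x1 pos ⊢
  linarith only [r0, r1, x0, x1, pos, congrArg (fun x => h0 * x) hτ,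
    congrArg (fun x => h1 * x) (RR_zero T)]

theorem Clean2.kd_rel (h : Clean2 D Lo φ φ1 ε H psF psC qsF qsC) (hH : 10 ≤ H)
    (he : ε * BH H ≤ 1 / 100000) {z : ZP} {f f1 sa a0 a1 o : ℚ} (hf : φ ≤ f) (hf1 : φ1 ≤ f1)
    (hz : z.rel f f1 sa a0 a1 o) {i j : ι} (hK : ¬ D.sm (D.ch i * D.ch i))
    (hsa : sa ≤ D.lam i) (hsb : D.lam i ≤ a0) (hk : ∀ k, D.lam i ≤ D.lam k)
    (k2 : j ≠ i) (k3 : j ≠ D.cj i)
    (ho : (o = 0 ∧ z.allR f f1 a0 a1) ∨ (o = 1 ∧ D.sm (D.ch i / D.ch j))) : a1 ≤ D.lam j := by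
  obtain ⟨⟨b1, b2, b3, b4, b5, b6, b7, b8, b9, b10, b11, b12, b13, b14, b15, b16⟩, s3, s4,
    s5, s6, s7, s8, s9, s10, s11, s12, s13, s14, s15, s16⟩ := hz
  by_contra hj
  have r1 := (zh_rr (x := -a0) b1 b2 (by linarith) (by linarith) (by linarith)).2
  have r2 := (zh_rr (x := a1 - a0) b1 b2 (by linarith) (by linarith) (by linarith)).1
  have r4 := (zh_rr (x := -sa) b1 b2 (by linarith) (by linarith) (by linarith)).1
  obtain ⟨t1, t2, t3, t4⟩ := zh_trg s16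
  have p3 : 0 ≤ z.h3 := div_nonneg b3 (by norm_num)
  have hP := ZP.pos b3 b4
  replace b1 := zh_le b1; replace b2 := zh_le b2; replace b5 := zh_le b5; replace b6 := zh_le b6
  replace b7 := zh_lt b7; replace s3 := zh_lt s3; replace b9 := zh_le b9; replace b10 := zh_le b10
  replace b11 := zh_le b11; replace b12 := zh_le b12; replace b13 := zh_le b13
  replace b14 := zh_le b14; replace b15 := zh_le b15; replace b16 := zh_le b16
  replace s5 := zh_le s5; replace s6 := zh_le s6; replace s7 := zh_le s7; replace s8 := zh_le s8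
  replace s9 := zh_le s9; replace s10 := zh_le s10; replace s11 := zh_le s11
  replace s12 := zh_le s12; replace s13 := zh_le s13; replace s14 := zh_lt s14
  replace s15 := zh_lt s15; replace p3 := zh_le p3
  push_cast at b1 b2 b5 b7 b9 b13 b14 b15 b16 s5 s6 s7 s8 s9 s10 s11 s12 s13 s14 s15
  push_cast at p3 r1 r2 r4 t1 t2 t3 t4
  have p2 := p3.trans b12
  have p1 := p2.trans b11
  have p0 := p1.trans b10
  obtain ⟨τ, a, b, c⟩ := h.zh_rel (c := f / 2) (c1 := f1 / 2) (by linarith) (by linarith)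
    (h.kd_ne hK) k2 k3 b1 (by linarith) b7.le hsa hsb s3.le (by linarith) hk (not_le.1 hj).le p0 p1 p2 p3
    hP s5 s6 t1 t2 t3 t4
  have key := h.kd_fin (j := j) hK (c := f / 2) (c1 := f1 / 2) (o := o) (B := z.BR a0 a1)
    (Dm := z.DR sa a0 a1) (by linarith) (by linarith) b10 b11 b12 p3 b13 a
    (by unfold ZP.DR; push_cast; linarith) b14 s7 s8 s9 s10 ?_ s11 s12 s13 b15 b16 s14 s15
  · have e : (z.BR a0 a1 : ℝ) = z.h0 * (rrU z.T (-a0) - rrL z.T (a1 - a0)) -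
        2 * z.h1 * (5 / 12 * z.T) +
        2 * (z.h0 + 2 * z.h1 + 2 * z.h2 + 2 * z.h3) * (1 / 100000) := by
      unfold ZP.BR
      push_cast
      rfl
    have q : (0 : ℝ) ≤ z.h0 + 2 * z.h1 + 2 * z.h2 + 2 * z.h3 := by positivity
    linarith only [key, c, e, mul_le_mul_of_nonneg_left (sub_le_sub r1 r2) p0,
      mul_le_mul_of_nonneg_left he q]
  · rcases ho with ⟨e, l1, l2, l3, l4⟩ | e
    · replace l1 := zh_le l1; replace l2 := zh_le l2; replace l3 := zh_le l3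
      replace l4 := zh_lt l4
      push_cast at l1 l2 l3 l4
      exact Or.inl ⟨by exact_mod_cast e, l1, l2, l3, l4⟩
    · exact Or.inr ⟨by exact_mod_cast e.1, e.2⟩

end Model

variable {φ φ1 : ℝ} {psF psC qsF qsC : List MP}

theorem lvA_rel {f f1 sa sb l : ℚ} (hf : φ ≤ f) (hf1 : φ1 ≤ f1) {z : ZP}
    (h : z.rel f f1 sa sb l 0 ∧ z.allR f f1 sb l) : Ev2 φ φ1 psF psC qsF qsC (LvA sa sb l) :=
  Ev2.of_small (c := 1 / 100000) (by norm_num)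
    fun _ _ _ _ _ _ _ _ _ _ hH _ he hD _ hi hk ha hb _ b1 b2 =>
      hD.kd_rel hH he hf hf1 h.1 hk ha hb hi b1 b2 (Or.inl ⟨rfl, h.2⟩)

theorem lev_rel {f f1 sa sb lc : ℚ} (hf : φ ≤ f) (hf1 : φ1 ≤ f1) {z : ZP}
    (h : z.rel f f1 sa sb lc 1) : Ev2 φ φ1 psF psC qsF qsC (Lev KD sa sb sa lc lc) :=
  Ev2.of_small (c := 1 / 100000) (by norm_num)
    fun _ _ _ _ _ _ D _ _ _ hH _ he hD i hi hk ha hb => by
    have e : D.sm (D.ch i / D.ch i) := by rw [div_self']; exact hD.cl.sm_one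
    have o := fun k b1 b2 hs => hD.kd_rel (j := k) hH he hf hf1 h hk ha hb hi b1 b2
      (Or.inr ⟨rfl, hs⟩)
    refine ⟨fun k b1 b2 => o k b2 (fun e' => hk ?_) (b1.symm ▸ e), o, fun k _ _ => ha.trans (hi k)⟩
    rw [e', hD.cl.cj_ch] at b1
    rw [mul_eq_one_iff_eq_inv.2 b1.symm]
    exact hD.cl.sm_one

end Pool.Agent.Lib.MP_778b46_nt.GX
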