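import Pool.Agent.Lib.MP_778b46_nt.GX.ZhI

/- Levels behind two conjugate first zeros of the same class. -/

namespace Pool.Agent.Lib.MP_778b46_nt.GX

open Finset

namespace ZP

variable (z : ZP)

/-- The main term; `a0 = sb` means the tilt at the first zero. -/
def BS (sb a0 a1 : ℚ) : ℚ := if a0 = sb then z.BR a0 a1 else z.B sb a0 a1

/-- Bound for the loss from the shift of the tilt. -/
def DS (sa sb a0 a1 : ℚ) : ℚ := if a0 = sb then z.DR sa a0 a1 else z.Dm sa sb a0 a1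

/-- Conditions that do not depend on the kind. -/
def cor (sa sb a0 a1 : ℚ) : Prop :=
  1 / 2 ≤ z.T ∧ z.T ≤ 4 ∧ 0 ≤ z.ρ ∧ z.ρ ≤ 1 ∧ 0 < sa ∧ sa < sb ∧ sb ≤ a0 ∧ a0 < a1 ∧ a1 ≤ 5 ∧
    0 ≤ z.h0 ∧ 0 ≤ z.h1 ∧ 0 ≤ z.h2 ∧ 0 ≤ z.w ∧ z.w * (1 + (a1 - a0) * z.T / 2) ≤ 1 ∧
    trigOk (a0 * z.T) ((a0 - sb) * z.T) [(z.h1, z.h0 + z.h2, z.h1 * z.w, z.v1),
      (z.h2, z.h1 + z.h3, z.h2 * z.w, z.v2), (z.h3, z.h2, z.h3 * z.w, z.v3),
      (0, z.h3, 0, z.v4)] = true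

/-- Conditions for a step; `o` is true for a zero in the class of the pair. -/
def ks (f f1 sa sb a0 a1 : ℚ) (o : Bool) : Prop :=
  z.cor sa sb a0 a1 ∧ 0 ≤ f1 ∧ f1 ≤ f ∧ 0 ≤ z.T * z.v1 ∧ 0 ≤ z.T * z.v2 ∧ 0 ≤ z.T * z.v4 ∧
    0 ≤ z.u ∧ z.T * z.v3 - z.h3 * (f1 / 2) ≤ z.u ∧ 2 * z.h2 ≤ z.h0 ∧ 0 ≤ z.ex ∧
    2 * z.h1 + 2 * z.h2 + 2 * z.h3 - z.h0 ≤ z.ex ∧
    z.BS sb a0 a1 + f1 / 2 * (2 * z.h1 + 2 * z.h3) + 2 * (z.T * z.v2 + z.T * z.v4) +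
      f1 / 2 * (z.h0 + 2 * z.h2 + 2 * z.h3) + 2 * (z.T * z.v1) + 2 * z.u +
      z.ex * z.DS sa sb a0 a1 < 0 ∧
    (o = true ∨ z.BS sb a0 a1 + f1 / 2 * (2 * z.h1 + 2 * z.h3) + 2 * (z.T * z.v2 + z.T * z.v4) +
      f / 2 * (z.h0 + 2 * z.h1 + 2 * z.h2 + 2 * z.h3) < 0)

instance (sa sb a0 a1 : ℚ) : Decidable (z.cor sa sb a0 a1) := by
  unfold cor
  infer_instance

instance (f f1 sa sb a0 a1 : ℚ) (o : Bool) : Decidable (z.ks f f1 sa sb a0 a1 o) := by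
  unfold ks
  infer_instance

end ZP

section Model

variable {Γ Ω ι : Type} [CommGroup Γ] [Fintype Ω] [Fintype ι]
variable {D : Dat Γ Ω ι} {Lo : Subgroup Γ} {φ φ1 ε H : ℝ} {psF psC qsF qsC : List MP}

theorem Clean2.zh_cor (h : Clean2 D Lo φ φ1 ε H psF psC qsF qsC) (hH : 10 ≤ H)
    (he : ε * BH H ≤ 1 / 100000) {z : ZP} {sa sb a0 a1 : ℚ} {c c1 : ℝ} (hc : φ / 2 ≤ c)
    (hc1 : φ1 / 2 ≤ c1) (hz : z.cor sa sb a0 a1) {i j : ι} (k1 : i ≠ D.cj i) (k2 : j ≠ i)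
    (k3 : j ≠ D.cj i) (hsa : sa ≤ D.lam i) (hsb : D.lam i ≤ sb) (hi : ∀ k, D.lam i ≤ D.lam k)
    (hk : a0 = sb ∨ ∀ k, k ≠ i → k ≠ D.cj i → a0 ≤ D.lam k) (hj : D.lam j ≤ a1) :
    ∃ τ : ℝ, 0 ≤ τ ∧ τ ≤ z.DS sa sb a0 a1 ∧ 0 ≤ z.BS sb a0 a1 - z.h0 * τ +
      (cb 0 z.h1 z.h2 z.h3 fun a => D.dl Lo c c1 (D.ch i ^ a * 1)) +
      (cb z.h0 z.h1 z.h2 z.h3 fun a => D.dl Lo c c1 (D.ch i ^ a * D.ch j)) +
      (xs z.h1 z.h2 z.h3 (z.T * z.v1) (z.T * z.v2) (z.T * z.v3) (z.T * z.v4) τ fun a =>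
        nd (D.ch i ^ a * 1 = 1)) +
      xs z.h1 z.h2 z.h3 (z.T * z.v1) (z.T * z.v2) (z.T * z.v3) (z.T * z.v4) τ fun a =>
        nd (D.ch i ^ a * D.ch j = 1) := by
  obtain ⟨b1, b2, b3, b4, b5, b6, b7, b8, b9, p0, p1, p2, s5, s6, s7⟩ := hz
  have r1 := (zh_rr (x := -a0) b1 b2 (by linarith) (by linarith) (by linarith)).2
  have r2 := (zh_rr (x := a1 - a0) b1 b2 (by linarith) (by linarith) (by linarith)).1
  obtain ⟨t1, t2, t3, t4⟩ := zh_trg s7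
  have p3 : 0 ≤ z.h3 := div_nonneg b3 (by norm_num)
  have hP := ZP.pos b3 b4
  have a9 : (a0 : ℝ) ≤ 5 := by exact_mod_cast b8.le.trans b9
  have b1' := zh_le b1
  have b2' := zh_le b2
  replace p0 := zh_le p0; replace p1 := zh_le p1; replace p2 := zh_le p2; replace p3 := zh_le p3
  replace s5 := zh_le s5; replace s6 := zh_le s6
  push_cast at b1' b2' p0 p1 p2 p3 s5 s6 r1 r2 t1 t2 t3 t4
  have q : (0 : ℝ) ≤ z.h0 + 2 * z.h1 + 2 * z.h2 + 2 * z.h3 := by positivity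
  have u1 := mul_le_mul_of_nonneg_left (sub_le_sub r1 r2) p0
  have u3 := mul_le_mul_of_nonneg_left he q
  unfold ZP.BS ZP.DS
  by_cases e : a0 = sb
  · subst e
    have r4 := (zh_rr (x := -sa) b1 b2 (by linarith) (by linarith) (by linarith)).1
    rw [sub_self] at t1 t2 t3 t4
    obtain ⟨τ, a, b, c⟩ := h.zh_rel hc hc1 k1 k2 k3 b1' (by linarith) (by exact_mod_cast b5.le) hsa
      hsb (zh_le b8.le) (by linarith) hi hj p0 p1 p2 p3 hP s5 s6 t1 t2 t3 t4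
    rw [if_pos rfl, if_pos rfl]
    unfold ZP.BR ZP.DR
    push_cast at r4 ⊢
    exact ⟨τ, a, by linarith only [b, r1, r2, r4], by linarith only [c, u1, u3]⟩
  · have b7' := lt_of_le_of_ne b7 (Ne.symm e)
    have r3 := (zh_rr (x := -(a0 - sb)) b1 b2 (by linarith) (by linarith) (by linarith)).1
    have r4 := (zh_rr (x := -(a0 - sb + sa)) b1 b2 (by linarith) (by linarith) (by linarith)).1
    have r5 := (zh_rr (x := sb - sa) b1 b2 (by linarith) (by linarith) (by linarith)).2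
    obtain ⟨τ, a, b, c⟩ := h.zh_core hc hc1 k1 k2 k3 b1' (by linarith) hsa hsb (zh_le b7)
      (by linarith) (hk.resolve_left e) hj p0 p1 p2 p3 hP s5 s6 t1 t2 t3 t4
    rw [if_neg e, if_neg e]
    unfold ZP.B ZP.Dm
    push_cast at r3 r4 r5 ⊢
    exact ⟨τ, a, by linarith only [b, r1, r2, r4, r5],
      by linarith only [c, u1, u3, mul_le_mul_of_nonneg_left r3 p1]⟩

theorem Clean2.sm_even (h : Clean2 D Lo φ φ1 ε H psF psC qsF qsC) {χ : Γ} (hs : D.sm (χ * χ))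
    (k : ℤ) : D.sm (χ ^ (2 * k)) := by
  have := h.sm_pow _ k.natAbs hs
  rw [← zpow_natCast, ← zpow_two, ← zpow_mul] at this
  rcases Int.natAbs_eq k with e | e
  · rwa [e]
  · rw [e, mul_neg, zpow_neg]
    exact h.cl.sm_inv _ this

theorem Clean2.ks_ne (h : Clean2 D Lo φ φ1 ε H psF psC qsF qsC) {i : ι}
    (hK : KS Γ Ω ι D Lo i) : i ≠ D.cj i := fun e => hK.2 ⟨by
  have := h.cl.cj_ch i
  rw [← e] at this
  exact mul_eq_one_iff_eq_inv.2 this, by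
  have := h.cl.cj_mu i
  rw [← e] at this
  linarith⟩

open Classical in
theorem Clean2.ks_fin (h : Clean2 D Lo φ φ1 ε H psF psC qsF qsC) {i j : ι}
    (hK : D.sm (D.ch i * D.ch i)) {c c1 h0 h1 h2 h3 V1 V2 V3 V4 τ u : ℝ} (c0 : 0 ≤ c1)
    (cc : c1 ≤ c) (p0 : 0 ≤ h0) (p1 : 0 ≤ h1) (p2 : 0 ≤ h2) (p3 : 0 ≤ h3) (hτ : 0 ≤ τ)
    (v1 : 0 ≤ V1) (v2 : 0 ≤ V2) (v4 : 0 ≤ V4) (hu : 0 ≤ u) (v3 : V3 - h3 * c1 ≤ u) :
    (cb 0 h1 h2 h3 fun a => D.dl Lo c c1 (D.ch i ^ a * 1)) +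
      (xs h1 h2 h3 V1 V2 V3 V4 τ fun a => nd (D.ch i ^ a * 1 = 1)) ≤
        c1 * (2 * h1 + 2 * h3) + 2 * (V2 + V4) + 2 * h2 * τ ∧
    (cb h0 h1 h2 h3 fun a => D.dl Lo c c1 (D.ch i ^ a * D.ch j)) +
      (xs h1 h2 h3 V1 V2 V3 V4 τ fun a => nd (D.ch i ^ a * D.ch j = 1)) ≤
        if D.sm (D.ch i / D.ch j) then
          c1 * (h0 + 2 * h2 + 2 * h3) + 2 * V1 + 2 * u + (2 * h1 + 2 * h3) * τ
        else c * (h0 + 2 * h1 + 2 * h2 + 2 * h3) := by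
  have m := h.sq_mem hK
  have ev := h.sm_even hK
  have z0 : ∀ k : ℤ, nd (D.ch i ^ (2 * k) * D.ch j = 1) = 0 := fun k => nd_neg fun e =>
    h.cl.sm_not j (by rw [eq_inv_of_mul_eq_one_right e, ← zpow_neg, ← mul_neg]; exact ev _)
  have z1 : ∀ k : ℤ, D.ch i ^ (2 * k - 1) * D.ch j = 1 → D.sm (D.ch i / D.ch j) := fun k e => by
    rw [eq_inv_of_mul_eq_one_right e, div_inv_eq_mul, ← zpow_one_add, add_sub_cancel]
    exact ev _
  have z2 : ∀ k : ℤ, nd (D.ch i ^ (2 * k - 1) * 1 = 1) = 0 := fun k => nd_neg fun e =>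
    h.cl.sm_not i (by
      rw [mul_one, zpow_sub_one, mul_inv_eq_one] at e
      exact e ▸ ev k)
  have f := fun (P : Prop) {x : ℝ} (hx : 0 ≤ x) => mul_le_of_le_one_left hx (nd_le_one P)
  have g := fun {ξ : Γ} (hξ : ξ ∈ Lo) =>
    (h.dl_lo (c := c) c0 hξ).trans (mul_le_of_le_one_right c0 (sub_le_self _ (nd_nonneg _)))
  have d0 : ∀ {ξ : Γ}, D.sm ξ → D.dl Lo c c1 ξ = 0 := fun hξ => if_pos hξ
  have w2 := add_nonneg v2 (mul_nonneg p2 hτ)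
  constructor
  · have g' := fun a : ℤ => g (Lo.mul_mem (Lo.zpow_mem m a) Lo.one_mem)
    have a1 := z2 1; have a2 := z2 0; have a3 := z2 2; have a4 := z2 (-1)
    have a5 := d0 (mul_one (D.ch i ^ (2 * 1 : ℤ)) ▸ ev 1)
    have a6 := d0 (mul_one (D.ch i ^ (2 * -1 : ℤ)) ▸ ev (-1))
    norm_num only at a1 a2 a3 a4 a5 a6
    simp only [cb, xs, a1, a2, a3, a4]
    linarith [f (D.ch i ^ (2 : ℤ) * 1 = 1) w2, f (D.ch i ^ (-2 : ℤ) * 1 = 1) w2,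
      f (D.ch i ^ (4 : ℤ) * 1 = 1) v4, f (D.ch i ^ (-4 : ℤ) * 1 = 1) v4,
      mul_le_mul_of_nonneg_left (add_le_add (g' 1) (g' (-1))) p1,
      mul_le_mul_of_nonneg_left (add_le_add (g' 3) (g' (-3))) p3,
      congrArg (fun x => h2 * x) a5, congrArg (fun x => h2 * x) a6]
  have a1 := z0 1; have a2 := z0 (-1); have a3 := z0 2; have a4 := z0 (-2)
  norm_num only at a1 a2 a3 a4
  split_ifs with s
  · have m' := fun a : ℤ => Lo.mul_mem (Lo.zpow_mem m a) (h.cls_mem m s)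
    have s1 : D.sm (D.ch i ^ (-1 : ℤ) * D.ch j) := by
      have := h.cl.sm_inv _ s
      rwa [inv_div, div_eq_inv_mul, ← zpow_neg_one] at this
    have s2 : D.sm (D.ch i ^ (1 : ℤ) * D.ch j) := by
      have := h.cl.sm_trans j i (D.cj i) (ce2_symm h.cl s) (by rwa [h.cl.cj_ch, div_inv_eq_mul])
      rwa [h.cl.cj_ch, div_inv_eq_mul, mul_comm, ← zpow_one (D.ch i)] at this
    have w1 := add_nonneg v1 (mul_nonneg p1 hτ)
    have w3 := add_nonneg hu (mul_nonneg p3 hτ)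
    simp only [cb, xs, a1, a2, a3, a4, d0 s1, d0 s2]
    linarith [f (D.ch i ^ (1 : ℤ) * D.ch j = 1) w1, f (D.ch i ^ (-1 : ℤ) * D.ch j = 1) w1,
      f (D.ch i ^ (3 : ℤ) * D.ch j = 1) w3, f (D.ch i ^ (-3 : ℤ) * D.ch j = 1) w3,
      mul_le_mul_of_nonneg_left v3 (add_nonneg (nd_nonneg (D.ch i ^ (3 : ℤ) * D.ch j = 1))
        (nd_nonneg (D.ch i ^ (-3 : ℤ) * D.ch j = 1))),
      mul_le_mul_of_nonneg_left (g (m' 0)) p0,
      mul_le_mul_of_nonneg_left (add_le_add (g (m' 2)) (g (m' (-2)))) p2,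
      mul_le_mul_of_nonneg_left (add_le_add (h.dl_lo (c := c) c0 (m' 3))
        (h.dl_lo (c := c) c0 (m' (-3)))) p3]
  · have z3 := fun k : ℤ => nd_neg fun e => s (z1 k e)
    have g' := fun a : ℤ => (h.dl_le c0 cc (D.ch i ^ a * D.ch j)).trans
      (mul_le_of_le_one_right (c0.trans cc) (sub_le_self _ (nd_nonneg _)))
    have a5 := z3 1; have a6 := z3 0; have a7 := z3 2; have a8 := z3 (-1)
    norm_num only at a5 a6 a7 a8
    simp only [cb, xs, a1, a2, a3, a4, a5, a6, a7, a8]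
    linarith [mul_le_mul_of_nonneg_left (g' 0) p0,
      mul_le_mul_of_nonneg_left (add_le_add (g' 1) (g' (-1))) p1,
      mul_le_mul_of_nonneg_left (add_le_add (g' 2) (g' (-2))) p2,
      mul_le_mul_of_nonneg_left (add_le_add (g' 3) (g' (-3))) p3]

theorem Clean2.ks_step (h : Clean2 D Lo φ φ1 ε H psF psC qsF qsC) (hH : 10 ≤ H)
    (he : ε * BH H ≤ 1 / 100000) {z : ZP} {f f1 sa sb a0 a1 : ℚ} {o : Bool} (hf : φ ≤ f)
    (hf1 : φ1 ≤ f1) (hz : z.ks f f1 sa sb a0 a1 o) {i j : ι} (hK : KS Γ Ω ι D Lo i)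
    (hsa : sa ≤ D.lam i) (hsb : D.lam i ≤ sb) (hi : ∀ k, D.lam i ≤ D.lam k)
    (hk : a0 = sb ∨ ∀ k, k ≠ i → k ≠ D.cj i → a0 ≤ D.lam k) (k2 : j ≠ i) (k3 : j ≠ D.cj i)
    (ho : o = true → D.sm (D.ch i / D.ch j)) : a1 ≤ D.lam j := by
  obtain ⟨s0, s1, s2, s3, s4, s5, s6, s7, s8, s9, s10, s11, s12⟩ := hz
  by_contra hj
  obtain ⟨τ, a, b, c⟩ := h.zh_cor hH he (c := f / 2) (c1 := f1 / 2) (by linarith) (by linarith) s0
    (h.ks_ne hK) k2 k3 hsa hsb hi hk (not_le.1 hj).le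
  obtain ⟨-, -, b3, -, -, -, -, -, -, p0, p1, p2, -⟩ := s0
  have p3 : 0 ≤ z.h3 := div_nonneg b3 (by norm_num)
  replace p0 := zh_le p0; replace p1 := zh_le p1; replace p2 := zh_le p2; replace p3 := zh_le p3
  replace s1 := zh_le s1; replace s2 := zh_le s2; replace s3 := zh_le s3; replace s4 := zh_le s4
  replace s5 := zh_le s5; replace s6 := zh_le s6; replace s7 := zh_le s7; replace s8 := zh_le s8
  replace s9 := zh_le s9; replace s10 := zh_le s10; replace s11 := zh_lt s11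
  push_cast at p0 p1 p2 p3 s1 s3 s4 s5 s6 s7 s8 s9 s10 s11
  obtain ⟨k1, k2⟩ := h.ks_fin (j := j) hK.1 (c := f / 2) (c1 := f1 / 2) (by linarith) (by linarith)
    p0 p1 p2 p3 a s3 s4 s5 s6 s7
  split_ifs at k2 with s
  · linarith only [k1, k2, c, s11, mul_le_mul_of_nonneg_right s10 a,
      mul_le_mul_of_nonneg_left b s9]
  · have := zh_lt (s12.resolve_left fun e => s (ho e))
    push_cast at this
    linarith only [k1, k2, c, this, mul_le_mul_of_nonneg_right s8 a]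

end Model

/-- A chain of steps from the level `a0`; the last step is for the class of the pair. -/
def ksChain (f f1 sa sb l lc : ℚ) (y : ZP) : ℚ → List (ℚ × ZP) → Bool
  | a0, [] => decide (l = a0 ∧ sb < a0) && decide (y.ks f f1 sa sb a0 lc true)
  | a0, (a1, z) :: r => decide (z.ks f f1 sa sb a0 a1 false) && ksChain f f1 sa sb l lc y a1 r

variable {φ φ1 : ℝ} {psF psC qsF qsC : List MP}

theorem lev_ks {f f1 sa sb l lc : ℚ} (hf : φ ≤ f) (hf1 : φ1 ≤ f1) (y : ZP) (r : List (ℚ × ZP))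
    (h : ksChain f f1 sa sb l lc y sb r = true) :
    Ev2 φ φ1 psF psC qsF qsC (Lev KS sa sb l lc sa) :=
  Ev2.of_small (c := 1 / 100000) (by norm_num)
    fun _ _ _ _ _ _ D _ _ _ hH _ he hD i hi hk ha hb => by
    have key : ∀ (r : List (ℚ × ZP)) (a0 : ℚ), ksChain f f1 sa sb l lc y a0 r = true →
        (a0 = sb ∨ ∀ k, k ≠ i → k ≠ D.cj i → a0 ≤ D.lam k) →
        (∀ k, k ≠ i → k ≠ D.cj i → l ≤ D.lam k) ∧ y.ks f f1 sa sb l lc true := by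
      intro r
      induction r with
      | nil =>
        intro a0 h h0
        simp only [ksChain, Bool.and_eq_true, decide_eq_true_eq] at h
        obtain ⟨⟨rfl, h1⟩, h2⟩ := h
        exact ⟨h0.resolve_left h1.ne', h2⟩
      | cons x r ih =>
        intro a0 h h0
        simp only [ksChain, Bool.and_eq_true, decide_eq_true_eq] at h
        exact ih _ h.2 (Or.inr fun k b1 b2 =>
          hD.ks_step hH he hf hf1 h.1 hk ha hb hi h0 b1 b2 fun e => absurd e (by simp))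
    obtain ⟨k1, k2⟩ := key r sb h (Or.inl rfl)
    refine ⟨fun k _ _ => ha.trans (hi k), fun k b1 b2 s =>
      hD.ks_step hH he hf hf1 k2 hk ha hb hi (Or.inr k1) b1 b2 fun _ => s,
      fun k b1 b2 => k1 k (fun e => b1 ?_) fun e => b2 ?_⟩
    · rw [e, div_self']
      exact hD.cl.sm_one
    · rw [e, hD.cl.cj_ch, mul_inv_cancel]
      exact hD.cl.sm_one

end Pool.Agent.Lib.MP_778b46_nt.GX
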